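import Mathlib

/-!
Sums of a rational function over the roots of a polynomial: reciprocity.
-/

namespace Pool.Agent.Lib.MP_a3f657_nt.Two.Lp

open Polynomial

variable {K : Type} [Field K]

/-- The sum of `n / M` over the roots of `f`. -/
noncomputable def SS (M n f : K[X]) : K := (f.roots.map fun a => eval a n / eval a M).sum

theorem SS_mul (M n : K[X]) {f g : K[X]} (hf : f ≠ 0) (hg : g ≠ 0) :
    SS M n (f * g) = SS M n f + SS M n g := by
  rw [SS, roots_mul (mul_ne_zero hf hg), Multiset.map_add, Multiset.sum_add, SS, SS]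

theorem natDegree_X_mul_derivative_le (p : K[X]) : (X * derivative p).natDegree ≤ p.natDegree := by
  rcases Nat.eq_zero_or_pos p.natDegree with h | h
  · rw [derivative_of_natDegree_zero h, mul_zero, natDegree_zero]
    exact Nat.zero_le _
  · refine natDegree_mul_le.trans ?_
    have := natDegree_derivative_le p
    rw [natDegree_X]
    omega

theorem natDegree_X_mul_le {p : K[X]} {n : ℕ} (h : p.degree < n) : (X * p).natDegree ≤ n := by
  by_cases hp : p = 0
  · simp [hp]
  rw [natDegree_X_mul hp]
  exact (natDegree_lt_iff_degree_lt hp).2 h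

theorem exists_vw_aux (M n : K[X]) (s : Multiset K) (hs : ∀ a ∈ s, eval a M ≠ 0) :
    ∃ v w : K[X], n * derivative (s.map fun a => X - C a).prod =
      (s.map fun a => X - C a).prod * v + M * w ∧ w.degree < s.card ∧
      (X * w).coeff s.card = (s.map fun a => eval a n / eval a M).sum := by
  induction s using Multiset.induction_on with
  | empty => exact ⟨0, 0, by simp, by simp, by simp⟩
  | cons a s ih =>
    obtain ⟨v, w, h1, h2, h3⟩ := ih fun b hb => hs b (Multiset.mem_cons_of_mem hb)
    have ha := hs a (Multiset.mem_cons_self a s)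
    obtain ⟨y, hy⟩ : X - C a ∣ n - C (eval a n / eval a M) * M := by
      rw [dvd_iff_isRoot, IsRoot, eval_sub, eval_mul, eval_C, div_mul_cancel₀ _ ha, sub_self]
    have hm := monic_multisetProd_X_sub_C s
    have hd := natDegree_multiset_prod_X_sub_C_eq_card s
    simp only [Multiset.map_cons, Multiset.prod_cons, Multiset.sum_cons, Multiset.card_cons]
    generalize (s.map fun a => X - C a).prod = f at *
    refine ⟨v + y, (X - C a) * w + C (eval a n / eval a M) * f, ?_, ?_, ?_⟩
    · rw [derivative_mul, derivative_X_sub_C]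
      linear_combination (X - C a) * h1 + f * hy
    · refine (degree_add_le _ _).trans_lt (max_lt ?_ ?_)
      · rw [degree_mul, degree_X_sub_C, add_comm, Nat.cast_succ]
        exact WithBot.add_lt_add_right WithBot.one_ne_bot h2
      · rw [← smul_eq_C_mul]
        refine (degree_smul_le _ _).trans_lt ?_
        rw [degree_eq_natDegree hm.ne_zero, hd]
        exact_mod_cast Nat.lt_succ_self _
    · rw [coeff_X_mul, coeff_add, coeff_C_mul, sub_mul, coeff_sub, h3, coeff_C_mul,
        coeff_eq_zero_of_degree_lt h2, ← hd, hm.coeff_natDegree]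
      ring

variable [IsAlgClosed K]

theorem exists_vw (M n : K[X]) {f : K[X]} (hf : f.Monic) (h : IsCoprime f M) :
    ∃ v w, n * derivative f = f * v + M * w ∧ (X * w).natDegree ≤ f.natDegree ∧
      (X * w).coeff f.natDegree = SS M n f := by
  have hs := IsAlgClosed.splits f
  obtain ⟨v, w, h1, h2, h3⟩ := exists_vw_aux M n f.roots fun a ha h0 => by
    obtain ⟨x, y, hxy⟩ := h
    have := congrArg (eval a) hxy
    rw [eval_add, eval_mul, eval_mul, h0, ((mem_roots hf.ne_zero).1 ha).eq_zero, eval_one] at this
    simp at this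
  rw [← hs.eq_prod_roots_of_monic hf] at h1
  rw [← hs.natDegree_eq_card_roots] at h2 h3
  exact ⟨v, w, h1, natDegree_X_mul_le h2, h3⟩

theorem SS_sub_aux {M n f g r : K[X]} (hM : M ≠ 0) (hf : f.Monic) (hg : g.Monic)
    (hd : g.natDegree = f.natDegree) (hfM : IsCoprime f M) (hgM : IsCoprime g M)
    (hr : (X * r).natDegree ≤ M.natDegree)
    (h : M ∣ n * (derivative f * g - derivative g * f) - f * g * r)
    (hfg : (f - g).natDegree + n.natDegree ≤ f.natDegree) :
    ∃ v w, n * derivative g = g * v + M * w ∧ (X * w).natDegree ≤ f.natDegree ∧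
      (X * v).natDegree ≤ n.natDegree + M.natDegree ∧
      (X * r).coeff M.natDegree + (SS M n f - SS M n g) * M.leadingCoeff =
        (n * (X * derivative (f - g)) - (f - g) * (X * v)).coeff (f.natDegree + M.natDegree) := by
  obtain ⟨v, w, h1, h2, h3⟩ := exists_vw M n hf hfM
  obtain ⟨v', w', h1', h2', h3'⟩ := exists_vw M n hg hgM
  rw [hd] at h2' h3'
  obtain ⟨z, hz⟩ : M ∣ v - v' - r := by
    refine (hfM.mul_left hgM).symm.dvd_of_dvd_mul_left ?_
    obtain ⟨y, hy⟩ := h
    exact ⟨y - g * w + f * w', by linear_combination hy - g * h1 + f * h1'⟩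
  have hv : (X * v').natDegree ≤ n.natDegree + M.natDegree := by
    by_cases h0 : X * v' = 0
    · rw [h0, natDegree_zero]
      exact Nat.zero_le _
    have h4 : g * (X * v') = n * (X * derivative g) - M * (X * w') := by
      linear_combination (-X) * h1'
    have h5 := natDegree_sub_le (n * (X * derivative g)) (M * (X * w'))
    rw [← h4, hg.natDegree_mul' h0] at h5
    have h6 := natDegree_mul_le (p := n) (q := X * derivative g)
    have h7 := natDegree_mul_le (p := M) (q := X * w')
    have h8 := natDegree_X_mul_derivative_le g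
    omega
  refine ⟨v', w', h1', h2', hv, ?_⟩
  have hw : (X * w - X * w').natDegree ≤ f.natDegree := (natDegree_sub_le _ _).trans (max_le h2 h2')
  have h4 : n * (X * derivative (f - g)) - (f - g) * (X * v') =
      f * (M * (X * z)) + (f * (X * r) + (X * w - X * w') * M) := by
    rw [derivative_sub]
    linear_combination X * h1 - X * h1' + X * f * hz
  have hz0 : z = 0 := by
    by_contra h0
    have h5 := natDegree_sub_le (n * (X * derivative (f - g)) - (f - g) * (X * v'))
      (f * (X * r) + (X * w - X * w') * M)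
    rw [h4, add_sub_cancel_right, ← h4, hf.natDegree_mul' (by simp [hM, h0]),
      natDegree_mul hM (by simp [h0]), natDegree_X_mul h0] at h5
    have h6 := natDegree_sub_le (n * (X * derivative (f - g))) ((f - g) * (X * v'))
    have h7 := natDegree_add_le (f * (X * r)) ((X * w - X * w') * M)
    have h8 := natDegree_mul_le (p := n) (q := X * derivative (f - g))
    have h9 := natDegree_mul_le (p := f - g) (q := X * v')
    have h10 := natDegree_mul_le (p := f) (q := X * r)
    have h11 := natDegree_mul_le (p := X * w - X * w') (q := M)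
    have h12 := natDegree_X_mul_derivative_le (f - g)
    omega
  rw [h4, hz0, mul_zero, mul_zero, mul_zero, zero_add, coeff_add,
    coeff_mul_add_eq_of_natDegree_le le_rfl hr, coeff_mul_add_eq_of_natDegree_le hw le_rfl,
    hf.coeff_natDegree, one_mul, coeff_sub, h3, h3', coeff_natDegree]

theorem SS_sub {M n f g r : K[X]} (hM : M ≠ 0) (hf : f.Monic) (hg : g.Monic)
    (hd : g.natDegree = f.natDegree) (hfM : IsCoprime f M) (hgM : IsCoprime g M)
    (hr : (X * r).natDegree ≤ M.natDegree)
    (h : M ∣ n * (derivative f * g - derivative g * f) - f * g * r)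
    (hfg : (f - g).natDegree + n.natDegree < f.natDegree) :
    (X * r).coeff M.natDegree + (SS M n f - SS M n g) * M.leadingCoeff = 0 := by
  obtain ⟨v, w, -, -, hv, h1⟩ := SS_sub_aux hM hf hg hd hfM hgM hr h hfg.le
  rw [h1]
  refine coeff_eq_zero_of_natDegree_lt ((natDegree_sub_le _ _).trans_lt ?_)
  have h8 := natDegree_mul_le (p := n) (q := X * derivative (f - g))
  have h9 := natDegree_mul_le (p := f - g) (q := X * v)
  have h12 := natDegree_X_mul_derivative_le (f - g)
  omega

theorem SS_congr {M n f g : K[X]} (hM : M ≠ 0) (hf : f.Monic) (hg : g.Monic)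
    (hd : g.natDegree = f.natDegree) (hfM : IsCoprime f M) (hgM : IsCoprime g M)
    (h : M ^ 2 ∣ f - g) (hfg : (f - g).natDegree + n.natDegree < f.natDegree) :
    SS M n f = SS M n g := by
  have h1 := SS_sub (r := 0) hM hf hg hd hfM hgM (by simp) (by
    obtain ⟨y, hy⟩ := h
    obtain rfl := eq_add_of_sub_eq hy
    refine ⟨n * ((2 * derivative M * y + M * derivative y) * g - derivative g * M * y), ?_⟩
    simp only [derivative_add, derivative_mul, derivative_pow, map_natCast]
    ring) hfg
  simpa [hM, sub_eq_zero] using h1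

theorem SS_X_pow_add {n : K[X]} (hn : 0 < n.natDegree) (c : K) :
    SS 1 n (X ^ n.natDegree + C c) =
      SS 1 n (X ^ n.natDegree) - c * (n.natDegree * n.leadingCoeff) := by
  obtain ⟨v, w, h1, h2, h3, h4⟩ := SS_sub_aux (M := 1) (n := n) (r := 0) one_ne_zero
    (monic_X_pow_add_C c hn.ne') (monic_X_pow n.natDegree) (by simp) isCoprime_one_right
    isCoprime_one_right (by simp) (one_dvd _) (by simp)
  rw [natDegree_X_pow_add_C] at h2
  have h5 : X ^ n.natDegree * (C (n.natDegree : K) * n - X * v) = X * w := by
    rw [derivative_X_pow] at h1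
    obtain ⟨m, hm⟩ := Nat.exists_eq_add_one_of_ne_zero hn.ne'
    rw [hm] at h1 ⊢
    rw [Nat.add_sub_cancel] at h1
    linear_combination X * h1
  have h6 : (C (n.natDegree : K) * n - X * v).coeff n.natDegree = 0 := by
    rw [← coeff_X_pow_mul _ n.natDegree, h5]
    exact coeff_eq_zero_of_natDegree_lt (by omega)
  rw [coeff_sub, coeff_C_mul, coeff_natDegree, sub_eq_zero] at h6
  simp only [mul_zero, coeff_zero, zero_add, leadingCoeff_one, mul_one, add_sub_cancel_left,
    derivative_C, zero_sub, natDegree_one, add_zero, natDegree_X_pow_add_C, coeff_neg,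
    coeff_C_mul] at h4
  rw [h6]
  linear_combination h4

end Pool.Agent.Lib.MP_a3f657_nt.Two.Lp
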