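import Pool.Agent.Lib.MP_a3f657_nt.C2LpBridge
import Pool.Agent.Lib.MP_a3f657_nt.C2LpRec

/-!
Prime sums on the line.
-/

namespace Pool.Agent.Lib.MP_a3f657_nt.Two

namespace Lp

open Polynomial Rh

open scoped Classical

section Generic

variable {k : Type} [Field k] {M : k[X]} {Ψ : k[X] → ℂ}

theorem exists_shift {f₁ f₂ f : k[X]} (h₁ : f₁.Monic) (h₂ : f₂.Monic)
    (hd : f₂.natDegree = f₁.natDegree) (c₁ : IsCoprime f₁ M) (c₂ : IsCoprime f₂ M)
    (hf : f.Monic) (hc : IsCoprime f M) (hN : 2 * M.natDegree < f.natDegree) :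
    ∃ f' : k[X], (f'.Monic ∧ f'.natDegree = f.natDegree ∧ IsCoprime f' M) ∧
      ∃ y, f * f₁ - f' * f₂ = M ^ 2 * y ∧ y.degree < f₂.degree := by
  obtain ⟨a, b, hab⟩ := c₂.pow_right (n := 2)
  have h1 := modByMonic_add_div (f * f₁ * b) f₂
  have h2 := degree_modByMonic_lt (f * f₁ * b) h₂
  set y := f * f₁ * b %ₘ f₂
  have h3 : (a * f * f₁ + f * f₁ * b /ₘ f₂ * M ^ 2) * f₂ = f * f₁ - M ^ 2 * y := by
    linear_combination M ^ 2 * h1 + f * f₁ * hab
  have h4 : (M ^ 2 * y).natDegree < (f * f₁).natDegree := by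
    have := natDegree_mul_le (p := M ^ 2) (q := y)
    have := natDegree_pow_le (p := M) (n := 2)
    have := natDegree_le_natDegree h2.le
    rw [hf.natDegree_mul h₁]
    omega
  have h5 := ((hf.mul h₁).sub_of_left (degree_lt_degree h4))
  rw [← h3] at h5
  have h6 := h₂.of_mul_monic_right h5
  refine ⟨_, ⟨h6, ?_, IsCoprime.of_mul_left_left (y := f₂) ?_⟩, y, by rw [h3]; ring, h2⟩
  · have := natDegree_sub_eq_left_of_natDegree_lt h4
    rw [← h3, h6.natDegree_mul h₂, hf.natDegree_mul h₁] at this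
    omega
  · rw [h3, show f * f₁ - M ^ 2 * y = f * f₁ + M * (-M * y) by ring]
    exact (hc.mul_left c₁).add_mul_left_left _

theorem sum_eq_zero [Fintype k] [CharP k 2] (hM : M ≠ 0) (K : ℕ)
    (hmul : ∀ f g : k[X], f.Monic → g.Monic → Ψ (f * g) = Ψ f * Ψ g)
    (hcon : ∀ f g : k[X], f.Monic → g.Monic → g.natDegree = f.natDegree → IsCoprime f M →
      IsCoprime g M → M ^ 2 ∣ f - g → (f - g).natDegree + K ≤ f.natDegree → Ψ f = Ψ g)
    {f₁ f₂ : k[X]} (h₁ : f₁.Monic) (h₂ : f₂.Monic)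
    (hd : f₂.natDegree = f₁.natDegree) (c₁ : IsCoprime f₁ M) (c₂ : IsCoprime f₂ M)
    (hne : Ψ f₁ ≠ Ψ f₂) {N : ℕ} (hN : 2 * M.natDegree + K < N) :
    ∑ᶠ f ∈ {f : k[X] | f.Monic ∧ f.natDegree = N ∧ IsCoprime f M}, Ψ f = 0 := by
  set s := {f : k[X] | f.Monic ∧ f.natDegree = N ∧ IsCoprime f M}
  have hs : s.Finite := (finite_monic N).subset fun f hf => ⟨hf.1, hf.2.1⟩
  have h1 : ∀ f ∈ s, ∃ f' ∈ s, ∃ y, f * f₁ - f' * f₂ = M ^ 2 * y ∧ y.degree < f₂.degree :=
    fun f hf => by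
      have := exists_shift h₁ h₂ hd c₁ c₂ hf.1 hf.2.2 (by rw [hf.2.1]; omega)
      rwa [hf.2.1] at this
  choose! T hT y hy hy' using h1
  have h2 : Set.BijOn T s s := (hs.injOn_iff_bijOn_of_mapsTo hT).1 fun f hf g hg hfg => by
    have h3 : (f - g) * f₁ = M ^ 2 * (y f - y g) := by
      linear_combination hy f hf - hy g hg + f₂ * hfg
    obtain ⟨z, hz⟩ := (c₁.pow_right (n := 2)).symm.dvd_of_dvd_mul_right ⟨_, h3⟩
    rw [hz, mul_assoc, mul_right_inj' (pow_ne_zero 2 hM)] at h3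
    have h4 : y f - y g = 0 := eq_zero_of_dvd_of_degree_lt ⟨z, by rw [← h3, mul_comm]⟩ (by
      rw [degree_eq_natDegree h₁.ne_zero, ← hd, ← degree_eq_natDegree h₂.ne_zero]
      exact (degree_sub_le _ _).trans_lt (max_lt (hy' f hf) (hy' g hg)))
    rw [h4, mul_eq_zero, or_iff_left h₁.ne_zero] at h3
    rw [← sub_eq_zero, hz, h3, mul_zero]
  have h3 : Ψ f₁ * ∑ᶠ f ∈ s, Ψ f = Ψ f₂ * ∑ᶠ f ∈ s, Ψ f := by
    rw [mul_finsum_mem, mul_finsum_mem]
    refine finsum_mem_eq_of_bijOn T h2 fun f hf => ?_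
    have h4 := hT f hf
    rw [mul_comm, ← hmul _ _ hf.1 h₁, mul_comm (Ψ f₂), ← hmul _ _ h4.1 h₂]
    refine hcon _ _ (hf.1.mul h₁) (h4.1.mul h₂) ?_ (hf.2.2.mul_left c₁) (h4.2.2.mul_left c₂)
      ⟨_, hy f hf⟩ ?_
    · rw [hf.1.natDegree_mul h₁, h4.1.natDegree_mul h₂, hf.2.1, h4.2.1, hd]
    · have := natDegree_mul_le (p := M ^ 2) (q := y f)
      have := natDegree_pow_le (p := M) (n := 2)
      have := natDegree_le_natDegree (hy' f hf).le
      rw [hy f hf, hf.1.natDegree_mul h₁, hf.2.1]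
      omega
  by_contra h0
  exact hne (mul_right_cancel₀ h0 h3)

theorem map_pow_of_monic (h1 : Ψ 1 = 1)
    (hmul : ∀ f g : k[X], f.Monic → g.Monic → Ψ (f * g) = Ψ f * Ψ g) {f : k[X]} (hf : f.Monic)
    (n : ℕ) : Ψ (f ^ n) = Ψ f ^ n := by
  induction n with
  | zero => rw [pow_zero, pow_zero, h1]
  | succ n ih => rw [pow_succ, pow_succ, hmul _ _ (hf.pow n) hf, ih]

theorem finsum_divisors (h1 : Ψ 1 = 1)
    (hmul : ∀ f g : k[X], f.Monic → g.Monic → Ψ (f * g) = Ψ f * Ψ g) (n : ℕ) :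
    ∑ᶠ D ∈ {D : {p // GoodP M p} →₀ ℕ | (D.sum fun i e => e * i.1.natDegree) = n},
      (D.prod fun i e => Ψ i.1 ^ e) =
      ∑ᶠ f ∈ {f : k[X] | f.Monic ∧ f.natDegree = n ∧ IsCoprime f M}, Ψ f := by
  let φ : ({p // GoodP M p} →₀ ℕ) → k[X] := fun D => (D.toMultiset.map Subtype.val).prod
  have key : ∀ D, (φ D).Monic ∧ (φ D).natDegree = (D.sum fun i e => e * i.1.natDegree) ∧
      IsCoprime (φ D) M ∧ (D.prod fun i e => Ψ i.1 ^ e) = Ψ (φ D) := fun D => by
    induction D using Finsupp.induction_linear with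
    | zero => simpa [φ, isCoprime_one_left] using h1.symm
    | add D E hD hE =>
      have : φ (D + E) = φ D * φ E := by simp [φ]
      rw [this, Finsupp.sum_add_index' (by simp) (by simp [add_mul]),
        Finsupp.prod_add_index' (by simp) (by simp [pow_add]), hD.1.natDegree_mul hE.1, hD.2.1,
        hE.2.1, hD.2.2.2, hE.2.2.2, hmul _ _ hD.1 hE.1]
      exact ⟨hD.1.mul hE.1, rfl, hD.2.2.1.mul_left hE.2.2.1, rfl⟩
    | single p e =>
      have : φ (Finsupp.single p e) = p.1 ^ e := by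
        simp [φ, Multiset.map_nsmul, Multiset.prod_nsmul]
      rw [this, Finsupp.sum_single_index (by simp), Finsupp.prod_single_index (by simp),
        map_pow_of_monic h1 hmul p.2.1]
      exact ⟨p.2.1.pow e, natDegree_pow _ _, (GoodP.isCoprime p.2).pow_left, rfl⟩
  have hnf : ∀ D, UniqueFactorizationMonoid.normalizedFactors (φ D) =
      D.toMultiset.map Subtype.val := fun D => by
    rw [UniqueFactorizationMonoid.normalizedFactors_prod_eq _ fun a ha => by
      obtain ⟨p, -, rfl⟩ := Multiset.mem_map.1 ha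
      exact p.2.2.1, Multiset.map_map]
    exact Multiset.map_congr rfl fun p _ => p.2.1.normalize_eq_self
  refine finsum_mem_eq_of_bijOn φ ⟨fun D hD => ⟨(key D).1, (key D).2.1.trans hD, (key D).2.2.1⟩,
    fun D _ E _ h => ?_, fun f hf => ?_⟩ fun D _ => (key D).2.2.2
  · have := hnf D
    rw [h, hnf E] at this
    exact (Finsupp.orderIsoMultiset.injective (Multiset.map_injective Subtype.val_injective
      this)).symm
  · obtain ⟨s, hs⟩ := CanLift.prf (β := Multiset {p // GoodP M p})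
      (coe := Multiset.map Subtype.val) (UniqueFactorizationMonoid.normalizedFactors f)
      fun p hp => by
        obtain ⟨h2, h3, h4⟩ := (Polynomial.mem_normalizedFactors_iff hf.1.ne_zero).1 hp
        exact ⟨h3, h2, fun h => h2.not_isUnit (hf.2.2.isUnit_of_dvd' h4 h)⟩
    have h2 : φ s.toFinsupp = f := by
      simp only [φ, Multiset.toFinsupp_toMultiset, hs]
      rw [UniqueFactorizationMonoid.prod_normalizedFactors_eq hf.1.ne_zero,
        hf.1.normalize_eq_self]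
    exact ⟨s.toFinsupp, (key _).2.1.symm.trans (h2 ▸ hf.2.1), h2⟩

theorem exists_monic_coprime (hM : M ≠ 0) {n : ℕ} (hn : M.natDegree < n) :
    ∃ g : k[X], g.Monic ∧ g.natDegree = n ∧ M ∣ g - 1 := by
  have h1 := (monic_X_pow (n - M.natDegree)).mul (monic_mul_leadingCoeff_inv hM)
  have h2 : (X ^ (n - M.natDegree) * (M * C M.leadingCoeff⁻¹)).natDegree = n := by
    rw [(monic_X_pow _).natDegree_mul (monic_mul_leadingCoeff_inv hM), natDegree_X_pow,
      natDegree_mul_leadingCoeff_inv _ hM]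
    omega
  refine ⟨_ + 1, h1.add_of_left (degree_lt_degree ?_), ?_, ?_⟩
  · rw [h2, natDegree_one]
    omega
  · rw [← C_1, natDegree_add_C, h2]
  · rw [add_sub_cancel_right]
    exact (dvd_mul_right _ _).mul_left _

theorem isCoprime_of_dvd_sub_one {g : k[X]} (h : M ∣ g - 1) : IsCoprime g M := by
  obtain ⟨y, hy⟩ := h
  exact ⟨1, -y, by linear_combination hy⟩

theorem exists_deg_char (hM : M ≠ 0) (h1 : Ψ 1 = 1)
    (hmul : ∀ f g : k[X], f.Monic → g.Monic → Ψ (f * g) = Ψ f * Ψ g)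
    (hn : ∀ f : k[X], f.Monic → IsCoprime f M → ‖Ψ f‖ = 1)
    (h : ∀ f₁ f₂ : k[X], f₁.Monic → f₂.Monic → f₂.natDegree = f₁.natDegree → IsCoprime f₁ M →
      IsCoprime f₂ M → Ψ f₁ = Ψ f₂) :
    ∃ z : ℂ, ‖z‖ = 1 ∧ ∀ p : k[X], p.Monic → IsCoprime p M → Ψ p = z ^ p.natDegree := by
  obtain ⟨g, hg, hg1, hg2⟩ := exists_monic_coprime hM (Nat.lt_add_one _)
  obtain ⟨g', hg', hg1', hg2'⟩ := exists_monic_coprime hM (n := M.natDegree + 1 + 1) (by omega)
  have c := isCoprime_of_dvd_sub_one hg2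
  have c' := isCoprime_of_dvd_sub_one hg2'
  refine ⟨Ψ g' / Ψ g, by rw [norm_div, hn g hg c, hn g' hg' c', div_one], fun p hp hc => ?_⟩
  have h2 := h (p * g ^ p.natDegree) (g' ^ p.natDegree) (hp.mul (hg.pow _)) (hg'.pow _)
    (by rw [hp.natDegree_mul (hg.pow _), natDegree_pow, natDegree_pow, hg1, hg1']; ring)
    (hc.mul_left c.pow_left) c'.pow_left
  rw [hmul _ _ hp (hg.pow _), map_pow_of_monic h1 hmul hg, map_pow_of_monic h1 hmul hg'] at h2
  rw [div_pow, eq_div_iff (pow_ne_zero _ (norm_ne_zero_iff.1 (by simp [hn g hg c]))), h2]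

end Generic

variable {k : Type} [Field k] [Fintype k] [CharP k 2]

theorem sum_roots_pow {f : (AlgebraicClosure k)[X]} {m : ℕ}
    (hf : f.map (FiniteField.frobeniusAlgHom k (AlgebraicClosure k) ^ m).toRingHom = f)
    (u : AlgebraicClosure k → AlgebraicClosure k)
    (hu : ∀ a, u (a ^ Fintype.card k ^ m) = u a ^ Fintype.card k ^ m) :
    (f.roots.map u).sum ^ Fintype.card k ^ m = (f.roots.map u).sum := by
  rw [← frob_pow_apply, map_multiset_sum, Multiset.map_map]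
  conv_rhs => rw [← hf, (IsAlgClosed.splits f).roots_map, Multiset.map_map]
  refine congrArg _ (Multiset.map_congr rfl fun a _ => ?_)
  simp only [Function.comp_apply, AlgHom.toRingHom_eq_coe, RingHom.coe_coe, frob_pow_apply, hu]

theorem map_map_frob (f : k[X]) (m : ℕ) :
    (f.map (algebraMap k (AlgebraicClosure k))).map
      (FiniteField.frobeniusAlgHom k (AlgebraicClosure k) ^ m).toRingHom =
      f.map (algebraMap k (AlgebraicClosure k)) := by
  rw [Polynomial.map_map, AlgHom.toRingHom_eq_coe, AlgHom.comp_algebraMap]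

/-- The sum of `n / M` over the roots of `f` in the algebraic closure. -/
noncomputable def Sk (M n f : k[X]) : AlgebraicClosure k :=
  SS (M.map (algebraMap k _)) (n.map (algebraMap k _)) (f.map (algebraMap k _))

theorem Sk_mem (M n f : k[X]) : Sk M n f ∈ fixF k 1 := by
  rw [mem_fixF one_pos]
  refine sum_roots_pow (map_map_frob f 1) _ fun a => ?_
  simp only [eval_map_algebraMap, div_pow, pow_q_aeval]

theorem Sk_mul (M n : k[X]) {f g : k[X]} (hf : f.Monic) (hg : g.Monic) :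
    Sk M n (f * g) = Sk M n f + Sk M n g := by
  rw [Sk, Polynomial.map_mul, SS_mul _ _ (hf.map _).ne_zero (hg.map _).ne_zero, Sk, Sk]

theorem sg_Sk {M p : k[X]} (n : k[X]) (hp : GoodP M p) : sg 1 (Sk M n p) = sgP p M n := by
  obtain ⟨a, rfl⟩ := exists_minpoly_eq hp.1 hp.2.1
  have he := natDegree_minpoly_pos a
  have ha := mem_fixF_self a
  obtain ⟨u, c, hu, hc⟩ := exists_as he
    (div_mem_fixF he (aeval_mem_fixF he ha n) (aeval_mem_fixF he ha M))
  rw [sgP_eq_sg n (goodP_minpoly.1 hp), sg_eq he hu hc]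
  refine sg_eq one_pos (u := ∑ i ∈ Finset.range (minpoly k a).natDegree, u ^ Fintype.card k ^ i)
    ?_ ?_
  · rw [Sk, SS, (minpoly_eq_prod he ((mem_fixF he).1 ha)).2.2, Finset.prod_eq_multiset_prod,
      ← Function.comp_def (fun b => X - C b) (fun i => a ^ Fintype.card k ^ i), ← Multiset.map_map,
      roots_multiset_prod_X_sub_C,
      Multiset.map_map, ← Finset.sum_eq_multiset_sum, CharTwo.sum_sq, ← Finset.sum_add_distrib]
    refine Finset.sum_congr rfl fun i _ => ?_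
    simp only [Function.comp_apply, eval_map_algebraMap, ← pow_q_aeval, ← div_pow, ← hu, pow_q_add]
    ring
  · have h1 := Finset.sum_range_succ' (fun i => u ^ Fintype.card k ^ i) (minpoly k a).natDegree
    rw [Finset.sum_range_succ, hc, pow_zero, pow_one] at h1
    rw [← frob_pow_apply, map_sum]
    simp only [frob_pow_apply, ← pow_mul, ← pow_add]
    linear_combination -h1

/-- The completely multiplicative extension. -/
noncomputable def Psi {M : k[X]} {K : ℕ} (χ : MulChar (RM M K) ℂ) (n f : k[X]) : ℂ :=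
  χ (clM M K f) * sg 1 (Sk M n f)

variable {M : k[X]} {K : ℕ} (χ : MulChar (RM M K) ℂ) (n : k[X])

theorem Psi_mul (f g : k[X]) (hf : f.Monic) (hg : g.Monic) :
    Psi χ n (f * g) = Psi χ n f * Psi χ n g := by
  rw [Psi, Psi, Psi, clM_mul, map_mul, Sk_mul M n hf hg, sg_add one_pos (Sk_mem ..) (Sk_mem ..)]
  ring

theorem norm_Psi (hM : M ≠ 0) (f : k[X]) (hf : f.Monic) (hc : IsCoprime f M) :
    ‖Psi χ n f‖ = 1 := by
  have := finite_RM hM K
  rw [Psi, norm_mul, norm_sg, norm_chi_eq χ (isUnit_clM K hf hc), mul_one]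

theorem Psi_one (hM : M ≠ 0) : Psi χ n 1 = 1 := by
  have h1 := Psi_mul χ n 1 1 monic_one monic_one
  have h2 := norm_Psi χ n hM 1 monic_one isCoprime_one_left
  rw [mul_one] at h1
  exact (mul_eq_left₀ (norm_ne_zero_iff.1 (by simp [h2]))).1 h1.symm

theorem Psi_congr (hM : M ≠ 0) (f g : k[X]) (hf : f.Monic) (hg : g.Monic)
    (hd : g.natDegree = f.natDegree) (hfM : IsCoprime f M) (hgM : IsCoprime g M)
    (h : M ^ 2 ∣ f - g) (hfg : (f - g).natDegree + (K + n.natDegree + 1) ≤ f.natDegree) :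
    Psi χ n f = Psi χ n g := by
  suffices Sk M n f = Sk M n g by
    rw [Psi, Psi, clM_congr ((dvd_pow_self M two_ne_zero).trans h) hd
      (degree_le_natDegree.trans_lt (Nat.cast_lt.2 (by omega))), this]
  refine SS_congr (Polynomial.map_ne_zero hM) (hf.map _) (hg.map _) (by simpa using hd)
    ((isCoprime_map _).2 hfM) ((isCoprime_map _).2 hgM) ?_ ?_
  · rw [← Polynomial.map_pow, ← Polynomial.map_sub]
    exact Polynomial.map_dvd _ h
  · simp only [← Polynomial.map_sub, natDegree_map]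
    omega

end Lp

open Lp Rh Polynomial

theorem primeP (hE : Euler) (hR : RhP) : PrimeP := by
  intro k _ _ _
  refine ⟨2 + Fintype.card k, fun M n₂ K χ hM => ?_⟩
  have hp : ∀ p, GoodP M p → χ (clM M K p) * sgP p M n₂ = Psi χ n₂ p := fun p hp => by
    rw [Psi, sg_Sk n₂ hp]
  refine or_iff_not_imp_left.2 fun h0 m hm => ?_
  obtain ⟨f₁, f₂, h₁, h₂, hd, c₁, c₂, hne⟩ : ∃ f₁ f₂ : k[X], f₁.Monic ∧ f₂.Monic ∧
      f₂.natDegree = f₁.natDegree ∧ IsCoprime f₁ M ∧ IsCoprime f₂ M ∧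
      Psi χ n₂ f₁ ≠ Psi χ n₂ f₂ := by
    by_contra h
    push Not at h
    obtain ⟨z, hz, hz'⟩ := exists_deg_char hM (Psi_one χ n₂ hM) (Psi_mul χ n₂)
      (norm_Psi χ n₂ hM) h
    exact h0 ⟨z, hz, fun p h => (hp p h).trans (hz' p h.1 (GoodP.isCoprime h))⟩
  obtain ⟨γ, hγ, hγ'⟩ := hE {p // GoodP M p} (fun p => p.1.natDegree) (fun p => Psi χ n₂ p.1)
    (2 * M.natDegree + (K + n₂.natDegree + 1)) (fun p => p.2.2.1.natDegree_pos)
    (fun n => ((finite_monic (k := k) n).preimage Subtype.val_injective.injOn).subset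
      fun p hp => ⟨p.2.1, hp⟩) fun n hn => by
      rw [finsum_divisors (Psi_one χ n₂ hM) (Psi_mul χ n₂)]
      exact sum_eq_zero hM _ (Psi_mul χ n₂) (Psi_congr χ n₂ hM) h₁ h₂ hd c₁ c₂ hne hn
  have := finite_RM hM K
  have hS : ∀ m, 1 ≤ m → sumP ((AdjoinRoot.root M, 1) : RM M K) (1, AdjoinRoot.root (X ^ K)) χ M
      n₂ m = -(γ.map (· ^ m)).sum := fun m hm => by
    rw [← hγ' m hm, finsum_mem_eq_of_bijOn (s := {i : {p // GoodP M p} | i.1.natDegree ∣ m})
      (t := {p | GoodP M p ∧ p.natDegree ∣ m})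
      (g := fun p => (p.natDegree : ℂ) * Psi χ n₂ p ^ (m / p.natDegree)) Subtype.val
      ⟨fun p hp => ⟨p.2, hp⟩, Subtype.val_injective.injOn, fun p hp => ⟨⟨p, hp.1⟩, hp.2, rfl⟩⟩
      fun _ _ => rfl, sumP]
    refine (Finset.sum_congr rfl fun a ha => ?_).trans (sum_fixF' M hm _)
    simp only [Finset.mem_filter] at ha
    rw [← hp _ (goodP_minpoly.2 ha.2), mul_pow, chiN, cl_eq_clM, sg_eq_sgP_pow n₂ hm ha.1 ha.2]
  have h1 := hR k _ _ _ χ M n₂ hM (fun p h1 h2 h3 => by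
    rw [cl_eq_clM]
    exact isUnit_clM K h1 (GoodP.isCoprime ⟨h1, h2, h3⟩)) γ hS
  have h2 : ‖sumP ((AdjoinRoot.root M, 1) : RM M K) (1, AdjoinRoot.root (X ^ K)) χ M n₂ m‖ ≤
      γ.card * √(Fintype.card k) ^ m := by
    rw [hS m hm, norm_neg]
    refine (norm_multiset_sum_le _).trans ((Multiset.sum_le_card_nsmul _ (√(Fintype.card k) ^ m)
      fun x hx => ?_).trans ?_)
    · simp only [Multiset.map_map, Multiset.mem_map, Function.comp_apply] at hx
      obtain ⟨z, hz, rfl⟩ := hx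
      rw [norm_pow]
      exact pow_le_pow_left₀ (norm_nonneg _) (h1 z hz) m
    · simp
  have h3 : ‖sumP ((AdjoinRoot.root M, 1) : RM M K) (1, AdjoinRoot.root (X ^ K)) χ M n₂ m -
      PS M (fun p => χ (clM M K p) * sgP p M n₂) m‖ ≤ _ :=
    norm_sum_sub_PS M hm _ _ 1 (fun a => norm_term_le ..) fun a ha hd => by
      rw [chiN, cl_eq_clM, hd, Nat.div_self hm, pow_one, sgP_eq_sg n₂ ha, hd]
  have h4 := norm_le_norm_add_norm_sub (sumP ((AdjoinRoot.root M, 1) : RM M K)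
    (1, AdjoinRoot.root (X ^ K)) χ M n₂ m) (PS M (fun p => χ (clM M K p) * sgP p M n₂) m)
  have h5 : (γ.card : ℝ) ≤ 2 * M.natDegree + (K + n₂.natDegree + 1) := by exact_mod_cast hγ
  have h6 : (γ.card : ℝ) + Fintype.card k ≤
      (2 + Fintype.card k) * (M.natDegree + K + n₂.natDegree + 1) := by
    have : (0 : ℝ) ≤ Fintype.card k * (M.natDegree + K + n₂.natDegree) := by positivity
    have : (0 : ℝ) ≤ K + n₂.natDegree := by positivity
    linarith
  have h7 := mul_le_mul_of_nonneg_right h6 (pow_nonneg (Real.sqrt_nonneg (Fintype.card k)) m)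
  linarith

end Pool.Agent.Lib.MP_a3f657_nt.Two
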