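import Pool.Agent.Lib.MP_a3f657_nt.C2SfMaj

/-!
Squarefree sums as coefficients of Euler products.
-/

namespace Pool.Agent.Lib.MP_a3f657_nt.Two

open Polynomial Finset UniqueFactorizationMonoid

open scoped Classical

variable {k : Type} [Field k]

theorem prod_toFinset_nf {f : k[X]} (hm : f.Monic) (hs : Squarefree f) :
    ∏ p ∈ (normalizedFactors f).toFinset, p = f := by
  have h1 := (squarefree_iff_nodup_normalizedFactors hm.ne_zero).1 hs
  rw [Finset.prod, Multiset.toFinset_val, Multiset.dedup_eq_self.2 h1, Multiset.map_id',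
    prod_normalizedFactors_eq hm.ne_zero, hm.normalize_eq_self]

theorem eq_of_dvd_irr {p p' : k[X]} (h1 : p.Monic) (h2 : Irreducible p) (h3 : p'.Monic)
    (h4 : Irreducible p') (h : p ∣ p') : p = p' :=
  eq_of_monic_of_associated h1 h3 (h2.associated_of_dvd h4 h)

theorem pairwise_coprime {t : Finset k[X]} (h : ∀ p ∈ t, p.Monic ∧ Irreducible p) :
    (t : Set k[X]).Pairwise (Function.onFun IsCoprime fun p => p) := fun p hp p' hp' hne =>
  (h p hp).2.coprime_iff_not_dvd.2 fun hd =>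
    hne (eq_of_dvd_irr (h p hp).1 (h p hp).2 (h p' hp').1 (h p' hp').2 hd)

theorem sum_deg_le {t : Finset k[X]} {M : k[X]} (hM : M ≠ 0)
    (h : ∀ p ∈ t, p.Monic ∧ Irreducible p) (h' : ∀ p ∈ t, p ∣ M) :
    ∑ p ∈ t, p.natDegree ≤ M.natDegree := by
  rw [← natDegree_prod_of_monic _ _ fun p hp => (h p hp).1]
  exact natDegree_le_of_dvd (prod_dvd_of_coprime (pairwise_coprime h) h') hM

variable [Fintype k]

theorem finite_natDegree_le (N : ℕ) : {f : k[X] | f.natDegree ≤ N}.Finite := by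
  have : Finite (degreeLT k (N + 1)) := Finite.of_equiv _ (degreeLTEquiv k (N + 1)).symm.toEquiv
  refine (Set.toFinite (degreeLT k (N + 1) : Set k[X])).subset fun f hf => ?_
  exact mem_degreeLT.2 (degree_le_natDegree.trans_lt (by exact_mod_cast Nat.lt_succ_of_le hf))

variable (k) in
/-- Monic irreducible polynomials of degree at most `N`. -/
noncomputable def irrLe (N : ℕ) : Finset k[X] :=
  (finite_natDegree_le N).toFinset.filter fun p => p.Monic ∧ Irreducible p

theorem mem_irrLe {N : ℕ} {p : k[X]} :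
    p ∈ irrLe k N ↔ p.natDegree ≤ N ∧ p.Monic ∧ Irreducible p := by simp [irrLe]

/-- Good primes of degree at most `N`. -/
noncomputable def goodLe (M : k[X]) (N : ℕ) : Finset k[X] := (irrLe k N).filter fun p => ¬ p ∣ M

theorem mem_goodLe {M : k[X]} {N : ℕ} {p : k[X]} :
    p ∈ goodLe M N ↔ p.natDegree ≤ N ∧ GoodP M p := by
  simp [goodLe, mem_irrLe, GoodP, and_assoc]

theorem sum_deg_eq [CharP k 2] {m N : ℕ} (hm : 1 ≤ m) (hN : m ≤ N) :
    ∑ p ∈ (irrLe k N).filter (fun p => p.natDegree ∣ m), p.natDegree = Fintype.card k ^ m := by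
  have hq : 1 < Fintype.card k ^ m := Nat.one_lt_pow (by omega) Fintype.one_lt_card
  have h1 : (X ^ Fintype.card k ^ m - X : k[X]).Monic :=
    monic_X_pow_sub (by rw [degree_X]; exact_mod_cast hq)
  have h2 : Squarefree (X ^ Fintype.card k ^ m - X : k[X]) := by
    obtain ⟨n, -, hn⟩ := FiniteField.card k 2
    refine (galois_poly_separable 2 _ ?_).squarefree
    rw [hn]
    exact dvd_pow (dvd_pow_self 2 n.ne_zero) (by omega)
  have h3 : (irrLe k N).filter (fun p => p.natDegree ∣ m) =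
      (normalizedFactors (X ^ Fintype.card k ^ m - X : k[X])).toFinset := by
    ext p
    rw [mem_filter, mem_irrLe, Multiset.mem_toFinset, Polynomial.mem_normalizedFactors_iff h1.ne_zero,
      ← Nat.card_eq_fintype_card]
    constructor
    · rintro ⟨⟨-, h4, h5⟩, h6⟩
      exact ⟨h5, h4, h5.natDegree_dvd_iff_dvd_X_pow_card_pow_sub_X.1 h6⟩
    · rintro ⟨h5, h4, h6⟩
      have h7 := h5.natDegree_dvd_iff_dvd_X_pow_card_pow_sub_X.2 h6
      exact ⟨⟨(Nat.le_of_dvd hm h7).trans hN, h4, h5⟩, h7⟩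
  rw [← natDegree_prod_of_monic _ _ fun p hp => (mem_irrLe.1 (mem_filter.1 hp).1).2.1, h3,
    prod_toFinset_nf h1 h2, FiniteField.X_pow_card_pow_sub_X_natDegree_eq _ (by omega)
    Fintype.one_lt_card]

theorem PS_eq (M : k[X]) (h : k[X] → ℂ) {m N : ℕ} (hN : m ≤ N) :
    PS M h m = m * ∑ p ∈ (goodLe M N).filter (fun p => p.natDegree = m), h p := by
  rw [PS, ← finsum_mem_coe_finset]
  congr 1
  refine finsum_mem_congr (Set.ext fun p => ?_) fun _ _ => rfl
  simp only [Set.mem_ofPred_eq, coe_filter, mem_goodLe]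
  exact ⟨fun h => ⟨⟨h.2 ▸ hN, h.1⟩, h.2⟩, fun h => ⟨h.1.2, h.2⟩⟩

theorem finite_SF (M : k[X]) (n : ℕ) :
    {f : k[X] | f.Monic ∧ f.natDegree = n ∧ IsCoprime f M}.Finite :=
  (finite_natDegree_le n).subset fun _ hf => hf.2.1.le

theorem SF_eq (M : k[X]) (h : k[X] → ℂ) {n N : ℕ} (hN : n ≤ N) :
    SF M h n = PowerSeries.coeff n
      (∏ p ∈ goodLe M N, (1 - PowerSeries.C (-h p) * PowerSeries.X ^ p.natDegree)) := by
  simp only [map_neg, neg_mul, sub_neg_eq_add]
  rw [prod_one_add, map_sum, SF, finsum_mem_eq_finite_toFinset_sum _ (finite_SF M n)]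
  simp only [prod_mul_distrib, prod_pow_eq_pow_sum, ← map_prod, PowerSeries.coeff_C_mul_X_pow, sfw]
  rw [← sum_filter, ← sum_filter]
  have key : ∀ t ∈ (goodLe M N).powerset, ∀ p ∈ t, p.Monic ∧ Irreducible p := fun t ht p hp =>
    have := (mem_goodLe.1 (mem_powerset.1 ht hp)).2
    ⟨this.1, this.2.1⟩
  have key2 : ∀ t ∈ (goodLe M N).powerset, (normalizedFactors (∏ p ∈ t, p)).toFinset = t := by
    intro t ht
    ext p
    have h1 : (∏ p ∈ t, p).Monic := monic_prod_of_monic _ _ fun p hp => (key t ht p hp).1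
    rw [Multiset.mem_toFinset, Polynomial.mem_normalizedFactors_iff h1.ne_zero]
    constructor
    · rintro ⟨h2, h3, h4⟩
      obtain ⟨p', h5, h6⟩ := (h2.prime.dvd_finsetProd_iff _).1 h4
      rwa [eq_of_dvd_irr h3 h2 (key t ht p' h5).1 (key t ht p' h5).2 h6]
    · exact fun hp => ⟨(key t ht p hp).2, (key t ht p hp).1, dvd_prod_of_mem _ hp⟩
  refine sum_nbij' (fun f => (normalizedFactors f).toFinset) (fun t => ∏ p ∈ t, p)
    (fun f hf => ?_) (fun t ht => ?_) (fun f hf => ?_) (fun t ht => ?_) (fun f _ => rfl)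
  · obtain ⟨h1, h2⟩ := mem_filter.1 hf
    obtain ⟨h3, h4, h5⟩ := (Set.Finite.mem_toFinset _).1 h1
    have h6 : ∀ p ∈ (normalizedFactors f).toFinset, Irreducible p ∧ p.Monic ∧ p ∣ f := fun p hp =>
      (Polynomial.mem_normalizedFactors_iff h3.ne_zero).1 (Multiset.mem_toFinset.1 hp)
    refine mem_filter.2 ⟨mem_powerset.2 fun p hp => mem_goodLe.2
      ⟨(natDegree_le_of_dvd (h6 p hp).2.2 h3.ne_zero).trans (h4 ▸ hN), (h6 p hp).2.1, (h6 p hp).1,
        fun h7 => (h6 p hp).1.not_isUnit (h5.isUnit_of_dvd' (h6 p hp).2.2 h7)⟩, ?_⟩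
    rw [← natDegree_prod_of_monic _ _ fun p hp => (h6 p hp).2.1, prod_toFinset_nf h3 h2, h4]
  · obtain ⟨h1, h2⟩ := mem_filter.1 ht
    refine mem_filter.2 ⟨(Set.Finite.mem_toFinset _).2
      ⟨monic_prod_of_monic _ _ fun p hp => (key t h1 p hp).1, ?_, IsCoprime.prod_left fun p hp =>
        (key t h1 p hp).2.coprime_iff_not_dvd.2 (mem_goodLe.1 (mem_powerset.1 h1 hp)).2.2.2⟩,
      squarefree_prod_of_pairwise_isCoprime
        ((pairwise_coprime (key t h1)).imp fun _ _ h => h.isRelPrime)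
        fun p hp => (key t h1 p hp).2.squarefree⟩
    rw [natDegree_prod_of_monic _ _ fun p hp => (key t h1 p hp).1, h2]
  · obtain ⟨h1, h2⟩ := mem_filter.1 hf
    exact prod_toFinset_nf ((Set.Finite.mem_toFinset _).1 h1).1 h2
  · exact key2 t (mem_filter.1 ht).1

theorem one_lt_sqrt : 1 < √(Fintype.card k : ℝ) := by
  rw [Real.lt_sqrt (by norm_num), one_pow]
  exact_mod_cast Fintype.one_lt_card

theorem sum_deg_eq_le [CharP k 2] {e : ℕ} (he : 1 ≤ e) (s : Finset k[X])
    (hs : ∀ p ∈ s, p.natDegree = e ∧ p.Monic ∧ Irreducible p) :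
    ∑ p ∈ s, p.natDegree ≤ Fintype.card k ^ e := by
  rw [← sum_deg_eq he le_rfl]
  exact sum_le_sum_of_subset fun p hp => mem_filter.2
    ⟨mem_irrLe.2 ⟨(hs p hp).1.le, (hs p hp).2⟩, (hs p hp).1 ▸ dvd_rfl⟩

theorem coeff_zero_prod {ι : Type} (s : Finset ι) (c : ι → ℂ) (d : ι → ℕ) (hd : ∀ i ∈ s, 0 < d i) :
    PowerSeries.coeff 0 (∏ i ∈ s, (1 - PowerSeries.C (c i) * PowerSeries.X ^ d i)) = 1 := by
  rw [PowerSeries.coeff_zero_eq_constantCoeff_apply, map_prod]
  exact prod_eq_one fun i hi => by simp [(hd i hi).ne']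

theorem coeff_zero_geo (c : ℂ) (d : ℕ) : PowerSeries.constantCoeff (geo c d) = 0 := by simp [geo]

theorem goodLe_pos {M : k[X]} {N : ℕ} (p : k[X]) (hp : p ∈ goodLe M N) : 0 < p.natDegree :=
  (mem_goodLe.1 hp).2.2.1.natDegree_pos

/-- Square root cancellation passes from primes to squarefree polynomials. -/
theorem SF_bound [CharP k 2] {θ : ℝ} (hθ : 1 < θ) (B : ℝ) : ∃ T₀ : ℕ, ∃ C : ℝ, 0 ≤ C ∧
    ∀ T, T₀ ≤ T → ∀ (M : k[X]) (h : k[X] → ℂ) (n Y : ℕ), SmallDvd T M →
      (∀ p, GoodP M p → ‖h p‖ ≤ 2) →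
      (∀ m, 1 ≤ m → ‖PS M h m‖ ≤ B * (Y + 1) * √(Fintype.card k) ^ m) →
      ‖SF M h n‖ ≤ C * √(Fintype.card k) ^ n * θ ^ (n + Y) := by
  obtain ⟨T₀, hT₀, H⟩ := majorant hθ B
  obtain ⟨C, hC, H⟩ := H ((Fintype.card k : ℝ) ^ 2) (by positivity)
  refine ⟨T₀, C, hC, fun T hT M h n Y hM hh hPS => ?_⟩
  have hq := one_lt_sqrt (k := k)
  have hdeg : ∀ p ∈ goodLe M n, T₀ < p.natDegree := fun p hp => by
    obtain ⟨-, h1, h2, h3⟩ := mem_goodLe.1 hp
    by_contra h4
    exact h3 (hM p h1 h2 (by omega))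
  rw [SF_eq M h le_rfl]
  refine H _ _ _ n Y (logD_prod _ _ _ goodLe_pos) (coeff_zero_prod _ _ _ goodLe_pos)
    (by simp [coeff_zero_geo]) (by linarith) fun m hm hmn => ?_
  rw [map_neg, norm_neg, coeff_sum_geo _ _ _ hm,
    ← sum_filter_add_sum_filter_not _ (fun p => p.natDegree = m), add_mul]
  refine (norm_add_le _ _).trans (add_le_add ?_ ?_)
  · have h1 : ∑ p ∈ ((goodLe M n).filter fun p => p.natDegree ∣ m).filter
        (fun p => p.natDegree = m), (p.natDegree : ℂ) * (-h p) ^ (m / p.natDegree) = -PS M h m := by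
      rw [PS_eq M h hmn, filter_filter, mul_sum, ← sum_neg_distrib]
      refine sum_congr (filter_congr fun p _ => ⟨fun h => h.2, fun h => ⟨h ▸ dvd_rfl, h⟩⟩)
        fun p hp => ?_
      rw [(mem_filter.1 hp).2, Nat.div_self hm]
      ring
    split_ifs with h2
    · rw [h1, norm_neg]
      exact hPS m hm
    · rw [sum_eq_zero fun p hp => ?_]
      · simp
      · have h3 := mem_filter.1 hp
        have h4 := hdeg p (mem_filter.1 h3.1).1
        omega
  · refine (norm_sum_le _ _).trans ?_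
    rw [← sum_fiberwise_of_maps_to (g := natDegree) (t := range m) (fun p hp => by
      have h1 := mem_filter.1 hp
      have h2 := Nat.le_of_dvd hm (mem_filter.1 h1.1).2
      exact mem_range.2 (lt_of_le_of_ne h2 h1.2))]
    refine (sum_le_card_nsmul _ _ ((Fintype.card k : ℝ) ^ 2 * √(Fintype.card k) ^ m)
      fun e he => ?_).trans (by rw [card_range, nsmul_eq_mul]; exact le_of_eq (by ring))
    set s := (((goodLe M n).filter fun p => p.natDegree ∣ m).filter
      fun p => ¬ p.natDegree = m).filter fun p => p.natDegree = e with hs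
    rcases s.eq_empty_or_nonempty with h0 | ⟨p₀, hp₀⟩
    · rw [h0, sum_empty]
      positivity
    have hmem : ∀ p ∈ s, p ∈ goodLe M n ∧ p.natDegree ∣ m ∧ p.natDegree = e := fun p hp =>
      have h1 := mem_filter.1 hp
      have h2 := mem_filter.1 (mem_filter.1 h1.1).1
      ⟨h2.1, h2.2, h1.2⟩
    obtain ⟨h1, h2, h3⟩ := hmem p₀ hp₀
    have h4 : 2 ≤ e := by have := hdeg p₀ h1; omega
    obtain ⟨j, hj⟩ := h3 ▸ h2
    have h5 : 2 ≤ j := by
      have := mem_range.1 he
      by_contra h5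
      interval_cases j <;> omega
    have h6 : m / e = j := by rw [hj, Nat.mul_div_cancel_left _ (by omega)]
    have h7 := sum_deg_eq_le (by omega : 1 ≤ e) s fun p hp =>
      ⟨(hmem p hp).2.2, (mem_goodLe.1 (hmem p hp).1).2.1, (mem_goodLe.1 (hmem p hp).1).2.2.1⟩
    have h8 : (2 : ℝ) ≤ Fintype.card k := by exact_mod_cast Fintype.one_lt_card
    calc ∑ p ∈ s, ‖(p.natDegree : ℂ) * (-h p) ^ (m / p.natDegree)‖
        ≤ ∑ p ∈ s, (p.natDegree : ℝ) * (Fintype.card k : ℝ) ^ j := by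
          refine sum_le_sum fun p hp => ?_
          rw [norm_mul, Complex.norm_natCast, norm_pow, norm_neg, (hmem p hp).2.2, h6]
          gcongr
          exact (hh p (mem_goodLe.1 (hmem p hp).1).2).trans h8
      _ ≤ (Fintype.card k : ℝ) ^ e * (Fintype.card k : ℝ) ^ j := by
          rw [← sum_mul]
          gcongr
          exact_mod_cast h7
      _ = √(Fintype.card k) ^ (2 * (e + j)) := by
          rw [pow_mul, Real.sq_sqrt (by positivity), pow_add]
      _ ≤ √(Fintype.card k) ^ (2 * 2 + m) := by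
          refine pow_le_pow_right₀ hq.le ?_
          obtain ⟨e, rfl⟩ := Nat.exists_eq_add_of_le h4
          obtain ⟨j, rfl⟩ := Nat.exists_eq_add_of_le h5
          rw [hj]
          nlinarith [Nat.zero_le (e * j)]
      _ = _ := by rw [pow_add, pow_mul, Real.sq_sqrt (by positivity)]

/-- The Moebius function twisted by a degree character. -/
theorem SF_bound_deg [CharP k 2] {θ : ℝ} (hθ : 1 < θ) : ∃ C : ℝ, 0 ≤ C ∧
    ∀ (M : k[X]) (h : k[X] → ℂ) (z : ℂ) (n : ℕ), M ≠ 0 → ‖z‖ = 1 →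
      (∀ p, GoodP M p → h p = -z ^ p.natDegree) →
      ‖SF M h n‖ ≤ C * θ ^ (n + M.natDegree) := by
  obtain ⟨T, hT, H⟩ := majorant hθ 1
  obtain ⟨C, hC, H⟩ := H ((Fintype.card k : ℝ) ^ T) (by positivity)
  refine ⟨C * (1 + Fintype.card k), by positivity, fun M h z n hM hz hh => ?_⟩
  set P := ∏ p ∈ goodLe M n, (1 - PowerSeries.C (-h p) * PowerSeries.X ^ p.natDegree) with hP
  set c : ℂ := Fintype.card k * z with hc
  have h1 : (1 - PowerSeries.C c * PowerSeries.X ^ 1) * PowerSeries.mk (fun i => c ^ i) = 1 := by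
    ext i
    rw [sub_mul, one_mul, map_sub, mul_assoc, PowerSeries.coeff_C_mul,
      PowerSeries.coeff_X_pow_mul', PowerSeries.coeff_one]
    cases i <;> simp [pow_succ']
  have h2 := (logD_prod _ (fun p => -h p) _ (goodLe_pos (M := M) (N := n))).mul
    ((logD_one_sub c one_pos).inv h1)
  have h3 : ∀ i ≤ n, ‖PowerSeries.coeff i (P * PowerSeries.mk fun i => c ^ i)‖ ≤
      C * θ ^ (n + M.natDegree) := by
    intro i hi
    refine (H _ _ 1 i M.natDegree h2 ?_ (by simp [coeff_zero_geo]) one_pos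
      fun m hm hmi => ?_).trans ?_
    · rw [PowerSeries.coeff_zero_eq_constantCoeff_apply, map_mul,
        ← PowerSeries.coeff_zero_eq_constantCoeff_apply, coeff_zero_prod _ _ _ goodLe_pos]
      simp
    · have h4 := sum_deg_eq (k := k) hm (hmi.trans hi)
      rw [← sum_filter_add_sum_filter_not _ (fun p => p ∣ M)] at h4
      set a := ∑ p ∈ ((irrLe k n).filter fun p => p.natDegree ∣ m).filter (fun p => p ∣ M),
        p.natDegree with ha
      have h5 : PowerSeries.coeff m (-∑ p ∈ goodLe M n, geo (-h p) p.natDegree + - -geo c 1) =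
          z ^ m * a := by
        rw [neg_neg, map_add, map_neg, coeff_sum_geo _ _ _ hm]
        have h6 : ∑ p ∈ (goodLe M n).filter (fun p => p.natDegree ∣ m),
            (p.natDegree : ℂ) * (-h p) ^ (m / p.natDegree) = z ^ m *
            (∑ p ∈ ((irrLe k n).filter fun p => p.natDegree ∣ m).filter (fun p => ¬ p ∣ M),
              p.natDegree : ℕ) := by
          rw [goodLe, filter_comm, Nat.cast_sum, mul_sum]
          refine sum_congr rfl fun p hp => ?_
          obtain ⟨h7, h8⟩ := mem_filter.1 hp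
          obtain ⟨h9, h10⟩ := mem_filter.1 h7
          rw [hh p ⟨(mem_irrLe.1 h9).2.1, (mem_irrLe.1 h9).2.2, h8⟩, neg_neg, ← pow_mul,
            Nat.mul_div_cancel' h10, mul_comm]
        have h7 := congrArg (Nat.cast : ℕ → ℂ) h4
        rw [h6]
        rw [geo, PowerSeries.coeff_mk, if_pos ⟨one_dvd _, by omega⟩, hc, mul_pow, Nat.div_one]
        push_cast at h7 ⊢
        linear_combination (-z ^ m) * h7
      rw [h5, norm_mul, norm_pow, hz, one_pow, one_mul, mul_one, Complex.norm_natCast]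
      have h6 : (1 : ℝ) ≤ m := by exact_mod_cast hm
      split_ifs with h7
      · have h8 : a ≤ M.natDegree := sum_deg_le hM
          (fun p hp => (mem_irrLe.1 (mem_filter.1 (mem_filter.1 hp).1).1).2)
          fun p hp => (mem_filter.1 hp).2
        have h9 : (a : ℝ) ≤ M.natDegree := by exact_mod_cast h8
        have h10 : (0 : ℝ) ≤ (Fintype.card k : ℝ) ^ T * m := by positivity
        linarith
      · have h8 : a ≤ Fintype.card k ^ T :=
          (Nat.le.intro h4).trans (Nat.pow_le_pow_right Fintype.card_pos (by omega))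
        have h9 : (a : ℝ) ≤ (Fintype.card k : ℝ) ^ T := by exact_mod_cast h8
        have h10 : (0 : ℝ) ≤ (Fintype.card k : ℝ) ^ T := by positivity
        nlinarith
    · rw [one_pow, mul_one]
      exact mul_le_mul_of_nonneg_left (pow_le_pow_right₀ hθ.le (by omega)) hC
  have h4 : P = (1 - PowerSeries.C c * PowerSeries.X ^ 1) *
      (P * PowerSeries.mk fun i => c ^ i) := by
    rw [mul_left_comm, h1, mul_one]
  rw [SF_eq M h le_rfl, ← hP, h4, sub_mul, one_mul, map_sub, mul_assoc, PowerSeries.coeff_C_mul,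
    PowerSeries.coeff_X_pow_mul']
  refine (norm_sub_le _ _).trans ?_
  have h5 := h3 n le_rfl
  have h6 : ‖c‖ = Fintype.card k := by rw [hc, norm_mul, hz, mul_one, Complex.norm_natCast]
  have h7 : 0 ≤ C * θ ^ (n + M.natDegree) := by positivity
  rw [norm_mul, h6]
  split_ifs
  · have := mul_le_mul_of_nonneg_left (h3 (n - 1) (by omega)) (Nat.cast_nonneg (Fintype.card k))
    nlinarith
  · have : (0 : ℝ) ≤ Fintype.card k := by positivity
    rw [norm_zero]
    nlinarith

/-- The prime polynomial theorem. -/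
theorem PS_one [CharP k 2] {M : k[X]} (hM : M ≠ 0) {m : ℕ} (hm : 1 ≤ m) :
    (Fintype.card k : ℝ) ^ m ≤ ‖PS M (fun _ => 1) m‖ +
      (M.natDegree + Fintype.card k) * √(Fintype.card k) ^ m := by
  have h1 := sum_deg_eq (k := k) hm le_rfl
  rw [← sum_filter_add_sum_filter_not _ (fun p => p ∣ M),
    ← sum_filter_add_sum_filter_not (filter (fun p => ¬ p ∣ M) _) (fun p => p.natDegree = m)] at h1
  have h2 := sum_deg_le (t := ((irrLe k m).filter fun p => p.natDegree ∣ m).filter fun p => p ∣ M)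
    hM (fun p hp => (mem_irrLe.1 (mem_filter.1 (mem_filter.1 hp).1).1).2)
    fun p hp => (mem_filter.1 hp).2
  have h3 : PS M (fun _ => 1) m = (∑ p ∈ (((irrLe k m).filter fun p => p.natDegree ∣ m).filter
      fun p => ¬ p ∣ M).filter (fun p => p.natDegree = m), p.natDegree : ℕ) := by
    rw [PS_eq M _ le_rfl, mul_sum, Nat.cast_sum, filter_comm (fun p : k[X] => p.natDegree ∣ m),
      filter_filter (fun p : k[X] => p.natDegree ∣ m)]
    refine sum_congr (filter_congr fun p _ => ⟨fun h => ⟨h ▸ dvd_rfl, h⟩, fun h => h.2⟩)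
      fun p hp => ?_
    rw [(mem_filter.1 hp).2.2, mul_one]
  have h4 : ∑ p ∈ (((irrLe k m).filter fun p => p.natDegree ∣ m).filter
      fun p => ¬ p ∣ M).filter (fun p => ¬ p.natDegree = m), p.natDegree ≤
      Fintype.card k ^ (m / 2 + 1) := by
    rw [← sum_fiberwise_of_maps_to (g := natDegree) (t := Icc 1 (m / 2)) (fun p hp => by
      obtain ⟨h5, h6⟩ := mem_filter.1 hp
      obtain ⟨h7, j, h8⟩ := mem_filter.1 (mem_filter.1 h5).1
      have h9 := (mem_irrLe.1 h7).2.2.natDegree_pos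
      have h10 : 2 ≤ j := by
        by_contra h10
        interval_cases j <;> omega
      refine mem_Icc.2 ⟨h9, (Nat.le_div_iff_mul_le two_pos).2 ?_⟩
      rw [h8]
      gcongr)]
    refine (sum_le_sum fun e he => sum_deg_eq_le (mem_Icc.1 he).1 _ fun p hp => ?_).trans
      (Nat.geomSum_lt Fintype.one_lt_card fun e he => Nat.lt_succ_of_le (mem_Icc.1 he).2).le
    obtain ⟨h5, h6⟩ := mem_filter.1 hp
    exact ⟨h6, (mem_irrLe.1 (mem_filter.1 (mem_filter.1 (mem_filter.1 h5).1).1).1).2⟩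
  have hq := one_lt_sqrt (k := k)
  have h5 : (Fintype.card k : ℝ) ^ (m / 2 + 1) ≤ Fintype.card k * √(Fintype.card k) ^ m := by
    rw [pow_succ']
    gcongr
    calc (Fintype.card k : ℝ) ^ (m / 2) = √(Fintype.card k) ^ (2 * (m / 2)) := by
          rw [pow_mul, Real.sq_sqrt (by positivity)]
      _ ≤ _ := pow_le_pow_right₀ hq.le (by omega)
  have h6 : (M.natDegree : ℝ) ≤ M.natDegree * √(Fintype.card k) ^ m :=
    le_mul_of_one_le_right (by positivity) (one_le_pow₀ hq.le)
  rw [h3, Complex.norm_natCast]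
  have h7 : ((Fintype.card k ^ m : ℕ) : ℝ) ≤ (M.natDegree + ((∑ p ∈ (((irrLe k m).filter
      fun p => p.natDegree ∣ m).filter fun p => ¬ p ∣ M).filter (fun p => p.natDegree = m),
      p.natDegree) + Fintype.card k ^ (m / 2 + 1)) : ℕ) := by
    exact_mod_cast (by omega)
  push_cast at h7 ⊢
  linarith

theorem PS_one_large [CharP k 2] {M : k[X]} (hM : M ≠ 0) (A : ℝ) :
    ∃ m₀, 1 ≤ m₀ ∧ ∀ m, m₀ ≤ m → A * √(Fintype.card k) ^ m < ‖PS M (fun _ => 1) m‖ := by
  have hq := one_lt_sqrt (k := k)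
  obtain ⟨m₀, h₀⟩ := pow_unbounded_of_one_lt (A + (M.natDegree + Fintype.card k)) hq
  refine ⟨m₀ + 1, by omega, fun m hm => ?_⟩
  have h1 := PS_one hM (show 1 ≤ m by omega)
  have h2 : (Fintype.card k : ℝ) ^ m = √(Fintype.card k) ^ m * √(Fintype.card k) ^ m := by
    rw [← mul_pow, Real.mul_self_sqrt (by positivity)]
  have h3 := h₀.trans_le (pow_le_pow_right₀ hq.le (show m₀ ≤ m by omega))
  have h4 : (0 : ℝ) < √(Fintype.card k) ^ m := by positivity
  nlinarith

end Pool.Agent.Lib.MP_a3f657_nt.Two
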