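import Pool.Agent.Lib.MP_a3f657_nt.C2RhAux

/-!
The Riemann hypothesis for the two character sums.
-/

namespace Pool.Agent.Lib.MP_a3f657_nt.Two

namespace Rh

open Polynomial

/-- The sign character of `ZMod 2`. -/
def sgn (a : ZMod 2) : ℂ := if a = 0 then 1 else -1

theorem sgn_add (a b : ZMod 2) : sgn (a + b) = sgn a * sgn b := by
  rcases zmod_cases a with rfl | rfl <;> rcases zmod_cases b with rfl | rfl <;>
    simp [sgn, CharTwo.add_self_eq_zero]

theorem norm_sgn (a : ZMod 2) : ‖sgn a‖ = 1 := by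
  unfold sgn
  split_ifs <;> simp

variable {k : Type} [Field k] [Fintype k] [CharP k 2]

theorem mem_fixF_iff_of_quad {m : ℕ} (hm : 0 < m) {u x : AlgebraicClosure k} {a : ZMod 2}
    (hu : u ^ Fintype.card k ^ m = u + cz _ a) (hx : x ^ 2 + x = u ^ 2 + u) :
    x ∈ fixF k m ↔ a = 0 := by
  obtain ⟨c, hc⟩ := exists_cz (μ := 1) (δ := x - u) (by
    linear_combination hx + (u ^ 2 - u * x) * (CharTwo.two_eq_zero (R := AlgebraicClosure k)))
  have h1 : x ^ Fintype.card k ^ m = x + cz _ a := by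
    rw [eq_add_of_sub_eq' hc, mul_one, ← frob_pow_apply, map_add, frob_pow_apply, hu, map_cz]
    ring
  rw [mem_fixF hm, h1, add_eq_left]
  exact ⟨cz_eq_zero, fun h => h ▸ cz_zero⟩

theorem sg_eq {m : ℕ} (hm : 0 < m) {u b : AlgebraicClosure k} {a : ZMod 2} (hb : u ^ 2 + u = b)
    (hu : u ^ Fintype.card k ^ m = u + cz _ a) : sg m b = sgn a := by
  unfold sg sgn
  by_cases h : a = 0
  · rw [if_pos h, if_pos ⟨u, (mem_fixF_iff_of_quad hm hu rfl).2 h, hb⟩]
  · rw [if_neg h, if_neg fun ⟨x, hx, hx'⟩ =>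
      h ((mem_fixF_iff_of_quad hm hu (hx'.trans hb.symm)).1 hx)]

theorem norm_sg (m : ℕ) (b : AlgebraicClosure k) : ‖sg m b‖ = 1 := by
  unfold sg
  split_ifs <;> simp

variable {R : Type} [CommRing R] [Algebra k R] [Finite R]

theorem norm_chi_le (χ : MulChar R ℂ) (r : R) : ‖χ r‖ ≤ 1 := by
  by_cases h : IsUnit r
  · obtain ⟨u, rfl⟩ := h
    refine (Complex.norm_eq_one_of_pow_eq_one (n := Nat.card Rˣ) ?_ Nat.card_pos.ne').le
    rw [← map_pow, ← Units.val_pow_eq_pow_val, pow_card_eq_one', Units.val_one, map_one]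
  · rw [χ.map_nonunit h, norm_zero]
    exact zero_le_one

theorem norm_term_le (U V : R) (χ : MulChar R ℂ) (m : ℕ) (a b : AlgebraicClosure k) :
    ‖chiN U V χ m a * sg m b‖ ≤ 1 := by
  rw [norm_mul, norm_sg, mul_one, chiN, ← map_pow]
  exact norm_chi_le χ _

theorem card_quad_le {K : Type} [Field K] (b : K) (s : Finset K) (hs : ∀ x ∈ s, x ^ 2 + x = b) :
    s.card ≤ 2 := by
  have h := natDegree_quadratic (a := (1 : K)) (b := 1) (c := -b) one_ne_zero
  refine (card_le_degree_of_subset_roots fun x hx => ?_).trans h.le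
  rw [mem_roots (ne_zero_of_natDegree_gt (h ▸ two_pos))]
  simp only [IsRoot, eval_add, eval_mul, eval_C, eval_pow, eval_X]
  linear_combination hs x hx

end Rh

open Rh Polynomial

theorem rhP : RhP := by
  classical
  intro k _ _ _ R _ _ _ U V χ M n₂ hM hU γ hγ
  refine rh_aux U V M 0 n₂ hM hU
    (fun m a => if aeval a M ≠ 0 then chiN U V χ m a * sg m (aeval a n₂ / aeval a M) else 0)
    (fun γ => χ γ.2 * sgn γ.1.2.1) (fun m a => ?_) (fun γ => ?_)
    (fun G hG => re_sum_nonneg G _ hG fun a _ b _ => ?_)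
    (fun m hm a θ η z h g _ ha _ hη _ _ hη' _ hg => ?_) γ fun m hm => ?_
  · split_ifs
    · exact (norm_term_le ..).trans one_le_two
    · simp
  · rw [norm_mul, norm_sgn, mul_one]
    exact (norm_chi_le ..).trans one_le_two
  · rw [Prod.snd_mul, Prod.fst_mul, Units.val_mul, map_mul, Hs.mul_2, sgn_add]
    ring
  · beta_reduce
    rw [if_pos ha, chiN, ← map_pow, hg, sg_eq hm hη hη']
  · rw [← hγ m hm, sumP, Finset.sum_filter]
    exact Finset.sum_congr rfl fun a _ => by congr

theorem rhK : RhK := by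
  classical
  intro k _ _ _ R _ _ _ U V χ M n₁ n₂ hM hU γ hγ
  refine rh_aux U V M n₁ n₂ hM hU
    (fun m a => ∑ θ ∈ (fixF k m).filter
      (fun θ => aeval a M ≠ 0 ∧ θ ^ 2 + θ = aeval a n₁ / aeval a M),
      chiN U V χ m a * sg m (θ * (aeval a n₂ / aeval a M)))
    (fun γ => if γ.1.1 = 0 then
      χ γ.2 * sgn γ.1.2.2 + χ γ.2 * sgn (γ.1.2.2 + γ.1.2.1) else 0) (fun m a => ?_) (fun γ => ?_)
    (fun G hG => ?_)
    (fun m hm a θ η z h g _ ha hθ hη hz hθ' hη' hz' hg => ?_) γ fun m hm => ?_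
  · refine (norm_sum_le _ _).trans ((Finset.sum_le_card_nsmul _ _ 1 fun θ _ =>
      norm_term_le ..).trans ?_)
    rw [nsmul_eq_mul, mul_one]
    exact_mod_cast card_quad_le (aeval a n₁ / aeval a M) _ fun x hx => by
      rw [Finset.mem_filter] at hx
      exact hx.2.2
  · split_ifs
    · refine (norm_add_le _ _).trans ?_
      rw [norm_mul, norm_mul, norm_sgn, norm_sgn]
      linarith [norm_chi_le χ γ.2]
    · simp
  · rw [← Finset.sum_filter, Finset.sum_add_distrib, Complex.add_re]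
    have hG' : ∀ a ∈ G.filter (·.1.1 = 0), ∀ b ∈ G.filter (·.1.1 = 0),
        a * b ∈ G.filter (·.1.1 = 0) := fun a ha b hb => by
      rw [Finset.mem_filter] at ha hb ⊢
      exact ⟨hG a ha.1 b hb.1, by rw [Prod.fst_mul, Hs.mul_1, ha.2, hb.2, add_zero]⟩
    refine add_nonneg (re_sum_nonneg _ _ hG' fun a ha b _ => ?_)
      (re_sum_nonneg _ _ hG' fun a ha b _ => ?_)
    all_goals
      simp only [Prod.snd_mul, Prod.fst_mul, Units.val_mul, map_mul, Hs.mul_2, Hs.mul_3,
        (Finset.mem_filter.1 ha).2, zero_mul, add_zero, sgn_add]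
      ring
  · beta_reduce
    have h2 : (2 : AlgebraicClosure k) = 0 := CharTwo.two_eq_zero
    split_ifs with h1
    · have h3 : (fixF k m).filter
          (fun θ => aeval a M ≠ 0 ∧ θ ^ 2 + θ = aeval a n₁ / aeval a M) = {θ, θ + 1} := by
        ext x
        rw [Finset.mem_filter, Finset.mem_insert, Finset.mem_singleton, ← hθ]
        constructor
        · rintro ⟨-, -, hx⟩
          have : (x - θ) * (x - (θ + 1)) = 0 := by
            linear_combination hx + (θ ^ 2 + θ - x - x * θ) * h2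
          simpa only [mul_eq_zero, sub_eq_zero] using this
        · intro hx
          have : x ^ 2 + x = θ ^ 2 + θ := by
            rcases hx with rfl | rfl
            · rfl
            · linear_combination (θ + 1) * h2
          exact ⟨(mem_fixF_iff_of_quad hm hθ' this).2 h1, ha, this⟩
      rw [h1, cz_zero, zero_mul, add_zero] at hz'
      rw [h3, Finset.sum_pair (by simp), chiN, ← map_pow, hg, sg_eq hm hz hz',
        sg_eq hm (u := z + η) (a := h.2.2 + h.2.1) (by linear_combination hz + hη + z * η * h2)]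
      rw [← frob_pow_apply, map_add, frob_pow_apply, frob_pow_apply, hz', hη', cz_add]
      ring
    · refine Finset.sum_eq_zero fun x hx => absurd ?_ h1
      rw [Finset.mem_filter] at hx
      exact (mem_fixF_iff_of_quad hm hθ' (hx.2.2.trans hθ.symm)).1 hx.1
  · rw [← hγ m hm, sumK, Finset.sum_filter, Finset.sum_product]
    simp only [Finset.sum_filter]

end Pool.Agent.Lib.MP_a3f657_nt.Two
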