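import Pool.Agent.Lib.MP_a3f657_nt.C2AnDefs

/-!
Logarithmic derivatives of Euler products.
-/

namespace Pool.Agent.Lib.MP_a3f657_nt.Two

open PowerSeries Finset

open scoped Classical

/-- `G` is the logarithmic derivative `X F' / F`. -/
def LogD (F G : ℂ⟦X⟧) : Prop := X * d⁄dX ℂ F = F * G

theorem LogD.mul {F G F' G' : ℂ⟦X⟧} (h : LogD F G) (h' : LogD F' G') : LogD (F * F') (G + G') := by
  unfold LogD at *
  rw [Derivation.leibniz, smul_eq_mul, smul_eq_mul]
  linear_combination F * h' + F' * h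

theorem logD_C (c : ℂ) : LogD (C c) 0 := by simp [LogD]

theorem LogD.prod {ι : Type} (s : Finset ι) {F G : ι → ℂ⟦X⟧} (h : ∀ i ∈ s, LogD (F i) (G i)) :
    LogD (∏ i ∈ s, F i) (∑ i ∈ s, G i) := by
  induction s using Finset.induction_on with
  | empty => simpa using logD_C 1
  | insert i s hi ih =>
    rw [prod_insert hi, sum_insert hi]
    exact (h i (mem_insert_self _ _)).mul (ih fun j hj => h j (mem_insert_of_mem hj))

theorem LogD.inv {F G F' : ℂ⟦X⟧} (h : LogD F G) (h' : F * F' = 1) : LogD F' (-G) := by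
  unfold LogD at *
  have h1 := congrArg (d⁄dX ℂ) h'
  rw [Derivation.leibniz, smul_eq_mul, smul_eq_mul, Derivation.map_one_eq_zero] at h1
  linear_combination X * F' * h1 - (X * d⁄dX ℂ F' + F' * G) * h' - F' ^ 2 * h

theorem LogD.rec {F G : ℂ⟦X⟧} (h : LogD F G) (n : ℕ) :
    (n : ℂ) * coeff n F = ∑ p ∈ antidiagonal n, coeff p.1 F * coeff p.2 G := by
  rw [← coeff_mul, ← h]
  cases n with
  | zero => simp
  | succ n =>
    rw [coeff_succ_X_mul, coeff_derivative]
    push_cast
    ring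

theorem LogD.coeff_eq_zero {F G : ℂ⟦X⟧} (h : LogD F G) {N : ℕ}
    (hF : ∀ n ≤ N, coeff n F = coeff n (1 : ℂ⟦X⟧)) {m : ℕ} (hm : m ≤ N) : coeff m G = 0 := by
  have h1 := h.rec m
  rw [sum_eq_single (0, m) (fun p hp hp' => ?_) (by simp), hF m hm, hF 0 (by omega)] at h1
  · rcases eq_or_ne m 0 with rfl | h0
    · simpa using h1.symm
    · simpa [coeff_one, h0] using h1.symm
  · have h2 := mem_antidiagonal.1 hp
    have h3 : p.1 ≠ 0 := fun h3 => hp' (Prod.ext h3 (by simpa [h3] using h2))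
    rw [hF _ (by omega), coeff_one, if_neg h3, zero_mul]

/-- The series `d ∑_{j ≥ 1} c ^ j X ^ (d j)`. -/
noncomputable def geo (c : ℂ) (d : ℕ) : ℂ⟦X⟧ :=
  mk fun m => if d ∣ m ∧ m ≠ 0 then d * c ^ (m / d) else 0

theorem logD_one_sub (c : ℂ) {d : ℕ} (hd : 0 < d) : LogD (1 - C c * X ^ d) (-geo c d) := by
  have h1 : (1 - C c * X ^ d) * geo c d = C (d * c) * X ^ d := by
    ext m
    rw [sub_mul, one_mul, map_sub, mul_assoc, coeff_C_mul, coeff_X_pow_mul', coeff_C_mul_X_pow]
    simp only [geo, coeff_mk]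
    rcases lt_trichotomy m d with h | rfl | h
    · rw [if_neg (fun h1 => absurd (Nat.le_of_dvd (Nat.pos_of_ne_zero h1.2) h1.1) (by omega)),
        if_neg (by omega), if_neg (by omega)]
      simp
    · simp [hd.ne', Nat.div_self hd]
    · rw [if_pos h.le, if_neg h.ne']
      by_cases h1 : d ∣ m
      · rw [if_pos ⟨h1, by omega⟩, if_pos ⟨Nat.dvd_sub h1 dvd_rfl, by omega⟩,
          Nat.div_eq_sub_div hd h.le]
        ring
      · rw [if_neg (fun h2 => h1 h2.1), if_neg (fun h2 => h1 ((Nat.dvd_sub_iff_left h.le dvd_rfl).1 h2.1))]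
        simp
  unfold LogD
  obtain ⟨d, rfl⟩ : ∃ e, d = e + 1 := ⟨d - 1, by omega⟩
  rw [mul_neg, h1, map_sub, Derivation.map_one_eq_zero, Derivation.leibniz, derivative_C,
    derivative_pow, derivative_X]
  simp only [smul_eq_mul, map_mul, map_natCast, Nat.add_sub_cancel]
  ring

theorem logD_prod {ι : Type} (s : Finset ι) (c : ι → ℂ) (d : ι → ℕ) (hd : ∀ i ∈ s, 0 < d i) :
    LogD (∏ i ∈ s, (1 - C (c i) * X ^ d i)) (-∑ i ∈ s, geo (c i) (d i)) := by
  rw [← sum_neg_distrib]
  exact LogD.prod s fun i hi => logD_one_sub _ (hd i hi)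

theorem coeff_sum_geo {ι : Type} (s : Finset ι) (c : ι → ℂ) (d : ι → ℕ) {m : ℕ} (hm : 1 ≤ m) :
    coeff m (∑ i ∈ s, geo (c i) (d i)) =
      ∑ i ∈ s.filter (fun i => d i ∣ m), (d i : ℂ) * c i ^ (m / d i) := by
  rw [map_sum, sum_filter]
  refine sum_congr rfl fun i _ => ?_
  simp [geo, show m ≠ 0 by omega]

section euler

variable {ι : Type} (deg : ι → ℕ) (Ψ : ι → ℂ)

/-- Effective divisors of degree `n` supported in `s`. -/
noncomputable def Dn (s : Finset ι) (n : ℕ) : Finset (ι →₀ ℕ) :=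
  (s.finsupp fun _ => range (n + 1)).filter fun D => (D.sum fun i e => e * deg i) = n

theorem le_wt (D : ι →₀ ℕ) (i : ι) : D i * deg i ≤ D.sum fun i e => e * deg i := by
  by_cases h : i ∈ D.support
  · exact single_le_sum (f := fun i => D i * deg i) (fun _ _ => Nat.zero_le _) h
  · simp [Finsupp.notMem_support_iff.1 h]

theorem mem_Dn (hd : ∀ i, 0 < deg i) (s : Finset ι) (n : ℕ) (D : ι →₀ ℕ) :
    D ∈ Dn deg s n ↔ D.support ⊆ s ∧ (D.sum fun i e => e * deg i) = n := by
  rw [Dn, mem_filter, mem_finsupp_iff]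
  refine ⟨fun h => ⟨h.1.1, h.2⟩, fun h => ⟨⟨h.1, fun i _ => ?_⟩, h.2⟩⟩
  have h1 := le_wt deg D i
  have h2 := Nat.le_mul_of_pos_right (D i) (hd i)
  exact mem_range.2 (by omega)

theorem prod_mul_Dn (hd : ∀ i, 0 < deg i) (s : Finset ι) :
    (∏ i ∈ s, (1 - C (Ψ i) * X ^ deg i)) *
      mk (fun n => ∑ D ∈ Dn deg s n, D.prod fun i e => Ψ i ^ e) = 1 := by
  induction s using Finset.induction_on with
  | empty =>
    ext n
    rw [prod_empty, one_mul, coeff_mk, coeff_one]
    split_ifs with h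
    · rw [sum_eq_single 0 (fun D hD h0 => absurd ?_ h0) (fun h0 => absurd ?_ h0)]
      · simp
      · simpa using ((mem_Dn deg hd _ _ _).1 hD).1
      · simp [mem_Dn deg hd, h]
    · refine sum_eq_zero fun D hD => ?_
      obtain ⟨h1, h2⟩ := (mem_Dn deg hd _ _ _).1 hD
      have h3 : D = 0 := by simpa using h1
      simp [h3] at h2
      omega
  | insert i s hi ih =>
    rw [prod_insert hi, mul_comm (1 - _), mul_assoc]
    refine Eq.trans ?_ ih
    congr 1
    ext n
    rw [sub_mul, one_mul, map_sub, mul_assoc, coeff_C_mul, coeff_X_pow_mul']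
    simp only [coeff_mk]
    rw [← sum_filter_add_sum_filter_not (Dn deg (insert i s) n) (fun D => D i = 0)]
    have h1 : (Dn deg (insert i s) n).filter (fun D => D i = 0) = Dn deg s n := by
      ext D
      rw [mem_filter, mem_Dn deg hd, mem_Dn deg hd]
      constructor
      · rintro ⟨⟨h1, h2⟩, h3⟩
        refine ⟨fun j hj => (mem_insert.1 (h1 hj)).resolve_left ?_, h2⟩
        rintro rfl
        exact Finsupp.mem_support_iff.1 hj h3
      · rintro ⟨h1, h2⟩
        exact ⟨⟨h1.trans (subset_insert _ _), h2⟩,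
          Finsupp.notMem_support_iff.1 fun h => hi (h1 h)⟩
    have h2 : ∀ D : ι →₀ ℕ, ((D + Finsupp.single i 1).sum fun i e => e * deg i) =
        (D.sum fun i e => e * deg i) + deg i := fun D => by
      rw [Finsupp.sum_add_index' (by simp) (fun _ _ _ => add_mul _ _ _), Finsupp.sum_single_index]
      · simp
      · simp
    rw [h1, add_sub_assoc, add_eq_left, sub_eq_zero]
    split_ifs with h
    · rw [mul_sum]
      symm
      refine sum_bij (fun D _ => D + Finsupp.single i 1) (fun D hD => ?_)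
        (fun D _ D' _ h => add_right_cancel h) (fun D hD => ?_) (fun D _ => ?_)
      · obtain ⟨h3, h4⟩ := (mem_Dn deg hd _ _ _).1 hD
        refine mem_filter.2 ⟨(mem_Dn deg hd _ _ _).2 ⟨?_, by rw [h2, h4]; omega⟩, by simp⟩
        exact Finsupp.support_add.trans (union_subset h3
          (Finsupp.support_single_subset.trans (by simp)))
      · obtain ⟨h3, h4⟩ := mem_filter.1 hD
        obtain ⟨h5, h6⟩ := (mem_Dn deg hd _ _ _).1 h3
        have h7 : D - Finsupp.single i 1 + Finsupp.single i 1 = D :=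
          tsub_add_cancel_of_le (Finsupp.single_le_iff.2 (by omega))
        refine ⟨D - Finsupp.single i 1, (mem_Dn deg hd _ _ _).2
          ⟨Finsupp.support_tsub.trans h5, ?_⟩, h7⟩
        have h8 := h2 (D - Finsupp.single i 1)
        rw [h7] at h8
        omega
      · rw [Finsupp.prod_add_index' (by simp) (fun _ _ _ => pow_add _ _ _),
          Finsupp.prod_single_index (by simp)]
        ring
    · rw [mul_zero]
      refine sum_eq_zero fun D hD => ?_
      obtain ⟨h3, h4⟩ := mem_filter.1 hD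
      have h5 := le_wt deg D i
      have h6 := Nat.le_mul_of_pos_left (deg i) (Nat.pos_of_ne_zero h4)
      rw [((mem_Dn deg hd _ _ _).1 h3).2] at h5
      omega

end euler

theorem logD_multiset (γ : Multiset ℂ) (h : ∀ r ∈ γ, r ≠ 0) :
    LogD (γ.map fun r => X - C r).prod (-(γ.map fun r => geo r⁻¹ 1).sum) := by
  induction γ using Multiset.induction_on with
  | empty => simpa using logD_C 1
  | cons r γ ih =>
    have h0 := h r (Multiset.mem_cons_self _ _)
    have h1 := (logD_C (-r)).mul (logD_one_sub r⁻¹ one_pos)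
    have h2 : C (-r) * (1 - C r⁻¹ * X ^ 1) = (X - C r : ℂ⟦X⟧) := by
      have : C r * C r⁻¹ = (1 : ℂ⟦X⟧) := by rw [← map_mul, mul_inv_cancel₀ h0, map_one]
      rw [map_neg]
      linear_combination X * this
    rw [h2, zero_add] at h1
    rw [Multiset.map_cons, Multiset.prod_cons, Multiset.map_cons, Multiset.sum_cons, neg_add]
    exact h1.mul (ih fun r hr => h r (Multiset.mem_cons_of_mem hr))

theorem euler : Euler := by
  intro ι deg Ψ Y hd hfin h0
  let a : ℕ → ℂ := fun n => ∑ᶠ D ∈ {D : ι →₀ ℕ | (D.sum fun i e => e * deg i) = n},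
    D.prod fun i e => Ψ i ^ e
  have hs : ∀ N, {i | deg i ≤ N}.Finite := fun N =>
    ((Set.finite_le_nat N).biUnion fun n _ => hfin n).subset fun i hi => by simpa using hi
  have ha : ∀ N, ∀ n ≤ N, a n = ∑ D ∈ Dn deg (hs N).toFinset n, D.prod fun i e => Ψ i ^ e := by
    intro N n hn
    rw [← finsum_mem_coe_finset]
    refine finsum_mem_congr (Set.ext fun D => ?_) fun _ _ => rfl
    rw [mem_coe, mem_Dn deg hd]
    refine ⟨fun h => ⟨fun i hi => ?_, h⟩, fun h => h.2⟩
    have h1 := le_wt deg D i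
    have h2 := Nat.le_mul_of_pos_left (deg i) (Nat.pos_of_ne_zero (Finsupp.mem_support_iff.1 hi))
    have h3 : (D.sum fun i e => e * deg i) = n := h
    simp only [Set.Finite.mem_toFinset, Set.mem_ofPred_eq]
    omega
  have hP : ∀ N, ∀ n ≤ N, coeff n ((∏ i ∈ (hs N).toFinset, (1 - C (Ψ i) * X ^ deg i)) * mk a) =
      coeff n (1 : ℂ⟦X⟧) := by
    intro N n hn
    refine Eq.trans ?_ (congrArg (coeff n) (prod_mul_Dn deg Ψ hd (hs N).toFinset))
    rw [coeff_mul, coeff_mul]
    refine sum_congr rfl fun p hp => ?_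
    have := mem_antidiagonal.1 hp
    rw [coeff_mk, coeff_mk, ha N _ (by omega)]
  let L : Polynomial ℂ := trunc (Y + 1) (mk a)
  have hL : (L : ℂ⟦X⟧) = mk a := by
    ext n
    rw [Polynomial.coeff_coe, coeff_trunc, coeff_mk]
    split_ifs with h
    · rfl
    · exact (h0 n (by omega)).symm
  have hL0 : L.coeff 0 = 1 := by
    have h1 := hP 0 0 le_rfl
    rw [← hL] at h1
    simpa [map_prod, fun i => (hd i).ne'] using h1
  have hdeg : L.natDegree ≤ Y := Nat.lt_succ_iff.1 (natDegree_trunc_lt _ _)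
  have hr : ∀ r ∈ L.roots, r ≠ 0 := by
    rintro r hr rfl
    have := Polynomial.isRoot_of_mem_roots hr
    rw [Polynomial.IsRoot.def, ← Polynomial.coeff_zero_eq_eval_zero, hL0] at this
    exact one_ne_zero this
  have hfac : (L : ℂ⟦X⟧) = C L.leadingCoeff * (L.roots.map fun r => X - C r).prod := by
    conv_lhs => rw [(IsAlgClosed.splits L).eq_prod_roots]
    rw [← Polynomial.coeToPowerSeries.ringHom_apply, map_mul, map_multiset_prod, Multiset.map_map]
    simp
  have hlog := (logD_C L.leadingCoeff).mul (logD_multiset L.roots hr)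
  rw [← hfac, hL, zero_add] at hlog
  refine ⟨L.roots.map (·⁻¹), by simpa using (Polynomial.card_roots' L).trans hdeg, fun m hm => ?_⟩
  have h1 := ((logD_prod (hs m).toFinset Ψ deg fun i _ => hd i).mul hlog).coeff_eq_zero (hP m) le_rfl
  rw [map_add, map_neg, map_neg, coeff_sum_geo _ _ _ hm, map_multiset_sum, Multiset.map_map] at h1
  have h2 : {i | deg i ∣ m} = ((hs m).toFinset.filter fun i => deg i ∣ m : Finset ι) := by
    ext i
    simp only [Set.mem_ofPred_eq, coe_filter, Set.Finite.mem_toFinset]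
    exact ⟨fun h => ⟨Nat.le_of_dvd hm h, h⟩, fun h => h.2⟩
  rw [h2, finsum_mem_coe_finset, Multiset.map_map]
  have h3 : (L.roots.map (⇑(coeff m) ∘ fun r => geo r⁻¹ 1)) =
      L.roots.map ((· ^ m) ∘ (·⁻¹)) := Multiset.map_congr rfl fun r _ => by
    simp [geo, show m ≠ 0 by omega]
  rw [h3] at h1
  linear_combination -h1

end Pool.Agent.Lib.MP_a3f657_nt.Two
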