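import Pool.Agent.Lib.MP_a3f657_nt.C2SfPrime

/-!
Fourier analysis on a coset of a subgroup of the units of `RM M K`.
-/

namespace Pool.Agent.Lib.MP_a3f657_nt.Two

open Polynomial Finset UniqueFactorizationMonoid

open scoped Classical

theorem norm_char {G : Type} [Group G] [Finite G] (ψ : G →* ℂˣ) (g : G) : ‖(ψ g : ℂ)‖ = 1 := by
  refine Complex.norm_eq_one_of_pow_eq_one (n := Nat.card G) ?_ Nat.card_pos.ne'
  rw [← Units.val_pow_eq_pow_val, ← map_pow, pow_card_eq_one', map_one, Units.val_one]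

theorem coset_bound {G α : Type} [CommGroup G] [Finite G] (H : Subgroup G) (s : Finset α)
    (u : α → G) (u₀ : G) (φ : α → ℂ) (B : ℝ)
    (h : ∀ ψ : G →* ℂˣ, ‖∑ a ∈ s, φ a * ψ (u a)‖ ≤ B) :
    ‖∑ a ∈ s.filter (fun a => u a * u₀⁻¹ ∈ H), φ a‖ ≤ B := by
  have := Fintype.ofFinite (G ⧸ H →* ℂˣ)
  have h1 : ∀ g : G ⧸ H, ∑ ψ : G ⧸ H →* ℂˣ, (ψ g : ℂ) =
      if g = 1 then (Fintype.card (G ⧸ H →* ℂˣ) : ℂ) else 0 := by
    intro g
    split_ifs with hg
    · simp [hg]
    · obtain ⟨ψ₀, h₀⟩ := CommGroup.exists_apply_ne_one_of_hasEnoughRootsOfUnity (G ⧸ H) ℂ hg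
      have h2 : ∑ ψ : G ⧸ H →* ℂˣ, (ψ g : ℂ) = ψ₀ g * ∑ ψ : G ⧸ H →* ℂˣ, (ψ g : ℂ) := by
        rw [mul_sum]
        exact (Fintype.sum_equiv (Equiv.mulLeft ψ₀) _ _ fun ψ => by simp).symm
      have h3 : (ψ₀ g : ℂ) - 1 ≠ 0 := sub_ne_zero.2 fun h3 => h₀ (Units.ext h3)
      apply mul_left_cancel₀ h3
      linear_combination -h2
  have h2 : (Fintype.card (G ⧸ H →* ℂˣ) : ℂ) * ∑ a ∈ s.filter (fun a => u a * u₀⁻¹ ∈ H), φ a =
      ∑ ψ : G ⧸ H →* ℂˣ, (ψ (QuotientGroup.mk' H u₀⁻¹) : ℂ) *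
        ∑ a ∈ s, φ a * (ψ.comp (QuotientGroup.mk' H)) (u a) := by
    simp only [mul_sum]
    rw [sum_comm, sum_filter]
    refine sum_congr rfl fun a _ => ?_
    have h3 := h1 (QuotientGroup.mk' H (u a * u₀⁻¹))
    simp only [QuotientGroup.mk'_apply, QuotientGroup.eq_one_iff] at h3
    rw [← ite_zero_mul, ← h3, sum_mul]
    refine sum_congr rfl fun ψ _ => ?_
    simp only [QuotientGroup.mk_mul, map_mul, Units.val_mul, QuotientGroup.mk'_apply,
      MonoidHom.comp_apply]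
    ring
  have h3 : (0 : ℝ) < Fintype.card (G ⧸ H →* ℂˣ) := by exact_mod_cast Fintype.card_pos
  refine le_of_mul_le_mul_left ?_ h3
  rw [← Complex.norm_natCast, ← norm_mul, h2, Complex.norm_natCast, ← card_univ, ← nsmul_eq_mul]
  refine (norm_sum_le _ _).trans (sum_le_card_nsmul _ _ _ fun ψ _ => ?_)
  rw [norm_mul, norm_char, one_mul]
  exact h _

variable {k : Type} [Field k]

/-- `clM` as a monoid homomorphism. -/
noncomputable def clH (M : k[X]) (K : ℕ) : k[X] →* RM M K where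
  toFun := clM M K
  map_one' := by
    have : (1 : k[X]).reverse = 1 := by rw [← C_1, reverse_C]
    simp [clM, this, Prod.one_eq_mk]
  map_mul' f g := by simp [clM, reverse_mul_of_domain]

theorem isUnit_mk {M f : k[X]} (h : IsCoprime f M) : IsUnit (AdjoinRoot.mk M f) := by
  obtain ⟨a, b, h⟩ := h
  refine IsUnit.of_mul_eq_one_right (AdjoinRoot.mk M a) ?_
  simpa using congrArg (AdjoinRoot.mk M) h

theorem isUnit_clM {M f : k[X]} (K : ℕ) (hf : f.Monic) (h : IsCoprime f M) :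
    IsUnit (clM M K f) := by
  refine Prod.isUnit_iff.2 ⟨isUnit_mk h, isUnit_mk (IsCoprime.pow_right ⟨1, -f.reverse.divX, ?_⟩)⟩
  have h1 := X_mul_divX_add f.reverse
  rw [coeff_zero_reverse, hf.leadingCoeff, C_1] at h1
  linear_combination -h1

theorem GoodP.isUnit {M p : k[X]} (h : GoodP M p) (K : ℕ) : IsUnit (clM M K p) :=
  isUnit_clM K h.1 (h.2.1.coprime_iff_not_dvd.2 h.2.2)

theorem reverse_congr {f g : k[X]} {n K : ℕ} (hf : f.natDegree = n) (hg : g.natDegree = n) :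
    X ^ K ∣ f.reverse - g.reverse ↔ (f - g).degree < (n + 1 - K : ℕ) := by
  rw [X_pow_dvd_iff, degree_lt_iff_coeff_zero]
  simp only [coeff_sub, coeff_reverse, hf, hg]
  have h0 : ∀ j, n < j → f.coeff j - g.coeff j = 0 := fun j hj => by
    rw [coeff_eq_zero_of_natDegree_lt (hf ▸ hj), coeff_eq_zero_of_natDegree_lt (hg ▸ hj), sub_zero]
  constructor
  · intro h j hj
    rcases lt_or_ge n j with h1 | h1
    · exact h0 j h1
    · have := h (n - j) (by omega)
      rwa [revAt_le (by omega), Nat.sub_sub_self h1] at this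
  · intro h d hd
    rcases lt_or_ge n d with h1 | h1
    · rw [revAt_eq_self_of_lt h1]
      exact h0 d h1
    · rw [revAt_le h1]
      exact h _ (by omega)

theorem sfw_mul {M : k[X]} {K : ℕ} (χ : MulChar (RM M K) ℂ) (h : k[X] → ℂ) {f : k[X]}
    (hf : f.Monic) : sfw (fun p => χ (clM M K p) * h p) f = sfw h f * χ (clM M K f) := by
  simp only [sfw]
  split_ifs with h1
  · rw [prod_mul_distrib, mul_comm]
    congr 1
    conv_rhs => rw [← prod_toFinset_nf hf h1]
    change _ = χ (clH M K _)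
    rw [map_prod, map_prod]
    rfl
  · simp

variable [Fintype k]

theorem finite_RM {M : k[X]} (hM : M ≠ 0) (K : ℕ) : Finite (RM M K) := by
  have h : ∀ {P : k[X]}, P ≠ 0 → Finite (AdjoinRoot P) := fun hP =>
    have := (AdjoinRoot.powerBasis hP).finite
    Module.finite_of_finite k
  have h1 := h hM
  have h2 := h (pow_ne_zero K (X_ne_zero (R := k)))
  infer_instance

theorem norm_chi_le {M : k[X]} (hM : M ≠ 0) {K : ℕ} (χ : MulChar (RM M K) ℂ) (a : RM M K) :
    ‖χ a‖ ≤ 1 := by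
  have := finite_RM hM K
  by_cases h : IsUnit a
  · exact (norm_char χ.toUnitHom h.unit).le
  · simp [χ.map_nonunit h]

theorem Fam.bound {M : k[X]} {K n : ℕ} {f₀ : k[X]} {W : AddSubgroup k[X]} (F : Fam M K n f₀ W)
    (h : k[X] → ℂ) (B : ℝ)
    (hB : ∀ χ : MulChar (RM M K) ℂ, ‖SF M (fun p => χ (clM M K p) * h p) n‖ ≤ B) :
    ‖∑ᶠ w ∈ (W : Set k[X]), sfw h (f₀ + w)‖ ≤ B := by
  have := finite_RM F.M0 K
  obtain ⟨g, hg⟩ := (isUnit_mk F.cop).exists_right_inv
  have hsq : ∀ w₁ ∈ W, ∀ w₂ ∈ W, AdjoinRoot.mk M w₁ * AdjoinRoot.mk M w₂ = 0 := fun w₁ h₁ w₂ h₂ => by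
    rw [← map_mul, AdjoinRoot.mk_eq_zero]
    exact F.sq _ h₁ _ h₂
  let H : Subgroup (RM M K)ˣ :=
    { carrier := {u | u.val.2 = 1 ∧ ∃ w ∈ W, u.val.1 = 1 + AdjoinRoot.mk M w * g}
      one_mem' := ⟨rfl, 0, W.zero_mem, by simp⟩
      mul_mem' := by
        rintro u v ⟨h1, w, hw, h2⟩ ⟨h3, w', hw', h4⟩
        refine ⟨by simp [h1, h3], w + w', W.add_mem hw hw', ?_⟩
        rw [Units.val_mul, Prod.fst_mul, h2, h4, map_add]
        linear_combination g ^ 2 * hsq w hw w' hw'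
      inv_mem' := by
        rintro u ⟨h1, w, hw, h2⟩
        have h3 := congrArg Prod.fst u.mul_inv
        have h4 := congrArg Prod.snd u.mul_inv
        rw [Prod.fst_mul, h2, Prod.fst_one] at h3
        rw [Prod.snd_mul, h1, one_mul, Prod.snd_one] at h4
        refine ⟨h4, -w, W.neg_mem hw, ?_⟩
        rw [map_neg]
        linear_combination (1 - AdjoinRoot.mk M w * g) * h3 +
          g ^ 2 * (u⁻¹ : (RM M K)ˣ).val.1 * hsq w hw w hw }
  let u : k[X] → (RM M K)ˣ := fun f => if hf : IsUnit (clM M K f) then hf.unit else 1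
  have hu : ∀ f : k[X], f.Monic → IsCoprime f M → (u f : RM M K) = clM M K f := fun f h1 h2 => by
    simp [u, isUnit_clM K h1 h2]
  have h1 := coset_bound H (finite_SF M n).toFinset u (u f₀) (sfw h) B fun ψ => by
    refine le_of_eq_of_le (congrArg norm ?_) (hB (MulChar.ofUnitHom ψ))
    rw [SF, finsum_mem_eq_finite_toFinset_sum _ (finite_SF M n)]
    refine sum_congr rfl fun f hf => ?_
    obtain ⟨h1, -, h2⟩ := (Set.Finite.mem_toFinset _).1 hf
    rw [sfw_mul _ _ h1, ← hu f h1 h2, MulChar.ofUnitHom_coe]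
  have key : ∀ f : k[X], f.Monic → f.natDegree = n → IsCoprime f M →
      (u f * (u f₀)⁻¹ ∈ H ↔ f - f₀ ∈ W) := by
    intro f h2 h3 h4
    have h5 : (u f * (u f₀)⁻¹ : (RM M K)ˣ).val * clM M K f₀ = clM M K f := by
      rw [← hu f₀ F.mon F.cop, ← Units.val_mul, inv_mul_cancel_right, hu f h2 h4]
    have h6 := congrArg Prod.fst h5
    have h7 := congrArg Prod.snd h5
    simp only [clM, Prod.fst_mul, Prod.snd_mul] at h6 h7
    constructor
    · rintro ⟨h8, w, hw, h9⟩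
      rw [h8, one_mul, eq_comm, AdjoinRoot.mk_eq_mk, reverse_congr h3 F.deg] at h7
      have h10 : M ∣ f - f₀ - w := by
        rw [← AdjoinRoot.mk_eq_zero, map_sub, map_sub, ← h6, h9]
        linear_combination AdjoinRoot.mk M w * hg
      obtain ⟨y, hy⟩ := h10
      have h11 := F.mul y (hy ▸ (degree_sub_le _ _).trans_lt (max_lt h7 (F.low w hw)))
      rw [← hy] at h11
      simpa using W.add_mem h11 hw
    · intro hw
      refine ⟨?_, f - f₀, hw, ?_⟩
      · have h8 := (reverse_congr h3 F.deg).2 (F.low _ hw)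
        rw [← AdjoinRoot.mk_eq_mk] at h8
        rw [h8] at h7
        exact ((Prod.isUnit_iff.1 (isUnit_clM K F.mon F.cop)).2.mul_left_inj).1
          (h7.trans (one_mul _).symm)
      · rw [map_sub]
        linear_combination g * h6 - ((u f * (u f₀)⁻¹ : (RM M K)ˣ).val.1 - 1) * hg
  refine le_of_eq_of_le (congrArg norm ?_) h1
  rw [← finsum_mem_coe_finset]
  refine finsum_mem_eq_of_bijOn (fun w => f₀ + w) ⟨fun w hw => ?_, fun _ _ _ _ h => add_left_cancel h,
    fun f hf => ?_⟩ fun _ _ => rfl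
  · have h2 : w.degree < f₀.degree := by
      rw [degree_eq_natDegree F.mon.ne_zero, F.deg]
      have := F.K1
      exact (F.low w hw).trans_le (by exact_mod_cast (by omega))
    have h3 : (f₀ + w).Monic := F.mon.add_of_left h2
    have h4 : (f₀ + w).natDegree = n := by rw [natDegree_add_eq_left_of_degree_lt h2, F.deg]
    have h5 : IsCoprime (f₀ + w) M := by
      obtain ⟨y, hy⟩ := F.sq w hw w hw
      have h6 : IsCoprime (f₀ ^ 2 + M * -y) M := (F.cop.pow_left).add_mul_left_left _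
      rw [show f₀ ^ 2 + M * -y = (f₀ + w) * (f₀ - w) by linear_combination hy] at h6
      exact h6.of_mul_left_left
    exact mem_coe.2 (mem_filter.2 ⟨(Set.Finite.mem_toFinset _).2 ⟨h3, h4, h5⟩,
      (key _ h3 h4 h5).2 (by simpa using hw)⟩)
  · obtain ⟨h2, h3⟩ := mem_filter.1 (mem_coe.1 hf)
    obtain ⟨h4, h5, h6⟩ := (Set.Finite.mem_toFinset _).1 h2
    exact ⟨f - f₀, (key f h4 h5 h6).1 h3, by simp⟩

omit [Fintype k] in
theorem sgP_zero (p M : k[X]) : sgP p M 0 = 1 := if_pos ⟨0, by simp⟩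

theorem PS_congr {M : k[X]} {h h' : k[X] → ℂ} (c : ℂ) (H : ∀ p, GoodP M p → h p = c * h' p)
    (m : ℕ) : PS M h m = c * PS M h' m := by
  rw [PS_eq M h le_rfl, PS_eq M h' le_rfl, mul_left_comm, mul_sum _ _ c]
  congr 1
  exact sum_congr rfl fun p hp => H p (mem_goodLe.1 (mem_filter.1 hp).1).2

theorem anMu (hP : PrimeP) : AnMu := by
  intro k _ _ _ θ hθ
  obtain ⟨c, hc⟩ := hP k
  obtain ⟨T, C₁, hC₁, H₁⟩ := SF_bound (k := k) hθ c
  obtain ⟨C₂, hC₂, H₂⟩ := SF_bound_deg (k := k) hθ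
  refine ⟨T, C₁ + C₂, fun M K n f₀ W hM F => F.bound _ _ fun χ => ?_⟩
  have hq : 1 ≤ √(Fintype.card k : ℝ) ^ n := one_le_pow₀ one_lt_sqrt.le
  have h0 : 0 < θ ^ (n + M.natDegree + K) := by positivity
  rcases hc M 0 K χ F.M0 with ⟨z, hz, h1⟩ | h1
  · refine (H₂ M _ z n F.M0 hz fun p hp => by rw [← h1 p hp, sgP_zero]; ring).trans ?_
    have h2 : θ ^ (n + M.natDegree) ≤ θ ^ (n + M.natDegree + K) :=
      pow_le_pow_right₀ hθ.le (by omega)
    calc C₂ * θ ^ (n + M.natDegree) ≤ C₂ * 1 * θ ^ (n + M.natDegree + K) := by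
          rw [mul_one]
          gcongr
      _ ≤ _ := by
          gcongr
          linarith
  · refine (H₁ T le_rfl M _ n (M.natDegree + K) hM (fun p _ => ?_) fun m hm => ?_).trans ?_
    · simpa using (norm_chi_le F.M0 χ _).trans one_le_two
    · rw [PS_congr (h' := fun p => χ (clM M K p) * sgP p M 0) (-1)
        (fun p _ => by rw [sgP_zero]; ring), neg_one_mul, norm_neg]
      simpa using h1 m hm
    · rw [add_assoc]
      gcongr
      linarith

end Pool.Agent.Lib.MP_a3f657_nt.Two
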