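import Pool.Agent.Lib.MP_a3f657_nt.C2CellDiv

/-!
The analytic estimates on cells.
-/

namespace Pool.Agent.Lib.MP_a3f657_nt.Two

open Polynomial UniqueFactorizationMonoid Finset Filter

open scoped Classical

namespace Cel

lemma ev (K : ℝ) {ε : ℝ} (hε : 0 < ε) : ∀ᶠ d : ℕ in atTop, K * ((d + 1) * (6 / 7 : ℝ) ^ d) ≤ ε := by
  have h1 := (tendsto_self_mul_const_pow_of_lt_one (r := 6 / 7) (by norm_num) (by norm_num)).add
    (tendsto_pow_atTop_nhds_zero_of_lt_one (r := (6 / 7 : ℝ)) (by norm_num) (by norm_num))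
  have h2 := h1.const_mul K
  rw [add_zero, mul_zero] at h2
  filter_upwards [h2.eventually (ge_mem_nhds hε)] with d hd
  refine le_trans (le_of_eq ?_) hd
  ring

lemma num1 {Q C x : ℝ} (hQ : 2 ≤ Q) {n e c d : ℕ} (hx : x ≤ C * √Q ^ n * (101 / 100) ^ e)
    (hn : n ≤ 12 * d) (he : e ≤ 30 * d + c) :
    x * Q ^ d ≤ |C| * (101 / 100) ^ c * (6 / 7) ^ d * Q ^ (8 * d) := by
  have h1 : 1 ≤ √Q := Real.one_le_sqrt.2 (by linarith)
  have h2 : √Q ^ n ≤ Q ^ (6 * d) := by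
    refine (pow_le_pow_right₀ h1 hn).trans (le_of_eq ?_)
    rw [show 12 * d = 2 * (6 * d) by ring, pow_mul, Real.sq_sqrt (by linarith)]
  have h3 : (101 / 100 : ℝ) ^ e ≤ (6 / 7) ^ d * Q ^ d * (101 / 100) ^ c := by
    refine (pow_le_pow_right₀ (by norm_num) he).trans ?_
    rw [pow_add, pow_mul, ← mul_pow]
    gcongr
    calc ((101 / 100 : ℝ)) ^ 30 ≤ 6 / 7 * 2 := by norm_num
      _ ≤ _ := by gcongr
  calc x * Q ^ d ≤ |C| * Q ^ (6 * d) * ((6 / 7) ^ d * Q ^ d * (101 / 100) ^ c) * Q ^ d := by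
        refine mul_le_mul_of_nonneg_right (hx.trans ?_) (by positivity)
        gcongr
        exact le_abs_self C
    _ = _ := by ring

lemma num2 {Q C x : ℝ} (hQ : 2 ≤ Q) {n m c c' d : ℕ}
    (hx : Q ^ n * x ≤ Q ^ (m + 1) + Q ^ n * (|C| * √Q ^ m * (101 / 100) ^ (18 * d + c)))
    (hn : d ≤ n + c') (hm : n ≤ m) :
    x ≤ (Q ^ (c' + 1) + |C| * (101 / 100) ^ c * Q ^ c') * (6 / 7) ^ d * Q ^ m := by
  have h0 : 1 ≤ Q := by linarith
  have h1 : 7 / 5 ≤ √Q := Real.le_sqrt_of_sq_le (by linarith)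
  have h2 : √Q ≤ Q := Real.sqrt_le_self_iff.2 (Or.inr h0)
  have h3 : 1 ≤ (6 / 7) ^ d * Q ^ (n + c') := by
    calc (1 : ℝ) ≤ (6 / 7 * Q) ^ d := one_le_pow₀ (by linarith)
      _ = (6 / 7) ^ d * Q ^ d := mul_pow _ _ _
      _ ≤ _ := by gcongr
  have h4 : ((101 / 100 : ℝ)) ^ (18 * d) ≤ (6 / 7) ^ d * (√Q ^ m * Q ^ c') := by
    calc ((101 / 100 : ℝ)) ^ (18 * d) ≤ (6 / 7 * √Q) ^ d := by
          rw [pow_mul]
          gcongr
          calc ((101 / 100 : ℝ)) ^ 18 ≤ 6 / 7 * (7 / 5) := by norm_num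
            _ ≤ _ := by gcongr
      _ = (6 / 7) ^ d * √Q ^ d := mul_pow _ _ _
      _ ≤ (6 / 7) ^ d * √Q ^ (m + c') := by
          gcongr
          · linarith
          · omega
      _ ≤ _ := by
          rw [pow_add]
          gcongr
  have h5 : √Q ^ m * √Q ^ m = Q ^ m := by rw [← mul_pow, Real.mul_self_sqrt (by linarith)]
  refine le_of_mul_le_mul_left (hx.trans ?_) (pow_pos (by linarith) n)
  rw [add_mul, add_mul, mul_add]
  refine add_le_add ?_ ?_
  · calc Q ^ (m + 1) = Q ^ (m + 1) * 1 := (mul_one _).symm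
      _ ≤ Q ^ (m + 1) * ((6 / 7) ^ d * Q ^ (n + c')) := by gcongr
      _ = _ := by ring
  · calc _ = Q ^ n * (|C| * √Q ^ m * ((101 / 100) ^ (18 * d) * (101 / 100) ^ c)) := by
          rw [pow_add]
      _ ≤ Q ^ n * (|C| * √Q ^ m * ((6 / 7) ^ d * (√Q ^ m * Q ^ c') * (101 / 100) ^ c)) := by gcongr
      _ = _ := by
          rw [← h5]
          ring

variable {k : Type} [Field k] [Fintype k] [CharP k 2]

variable {T β d : ℕ} {a : WeierstrassCurve k[X]} {g ν f₀ : k[X]}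

omit [CharP k 2] in
lemma fin1 (ha : DegLE a d) (hT : GoodT T β d a) {C x ε : ℝ} {n e c : ℕ}
    (hx : x ≤ C * √(Fintype.card k) ^ n * (101 / 100) ^ e) (hn : n ≤ 12 * d) (he : e ≤ 30 * d + c)
    (hε : |C| * (101 / 100) ^ c * (Fintype.card k : ℝ) ^ (2 * (NT k T β).natDegree + 4 * RR β) *
      ((d + 1) * (6 / 7 : ℝ) ^ d) ≤ ε) :
    x * (Fintype.card k : ℝ) ^ d ≤ ε * (cell T β d a).card := by
  refine (num1 Bad.two_le_q hx hn he).trans ?_
  have h1 : (1 : ℝ) ≤ d + 1 := by simp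
  calc _ ≤ |C| * (101 / 100) ^ c * ((d + 1) * (6 / 7) ^ d) * ((Fintype.card k : ℝ) ^
        (2 * (NT k T β).natDegree + 4 * RR β) * (cell T β d a).card) := by
        gcongr
        · exact le_mul_of_one_le_left (by positivity) h1
        · exact card_cell ha hT
    _ = |C| * (101 / 100) ^ c * (Fintype.card k : ℝ) ^ (2 * (NT k T β).natDegree + 4 * RR β) *
        ((d + 1) * (6 / 7 : ℝ) ^ d) * (cell T β d a).card := by ring
    _ ≤ _ := by gcongr

lemma EE_le (D : Dec T β a g ν f₀) (ha : DegLE a d) (hT : GoodT T β d a) (hN : GoodN T a)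
    (hd : β + β * (PiT k T).natDegree ≤ d) {C : ℝ}
    (hC : ∀ (n₂ : k[X]) (n : ℕ), (∀ δ : k, NotWp (a.a₁ ^ 6 * ν) (n₂ + Polynomial.C δ * (a.a₁ ^ 6 * ν))) →
      ‖SF (a.a₁ ^ 6 * ν) (fun p => sgP p (a.a₁ ^ 6 * ν) n₂) n‖ ≤ C * √(Fintype.card k) ^ n *
        (101 / 100) ^ (n + (a.a₁ ^ 6 * ν).natDegree + n₂.natDegree))
    {m : ℕ} (hm : m ∈ Icc 1 (6 * d)) :
    ((EE T β a.a₁ (a.a₁ ^ 6 * ν) m).card : ℝ) ≤
      ((Fintype.card k : ℝ) ^ (β + β * (PiT k T).natDegree + 1) +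
        |C| * (101 / 100) ^ (2 * (NT k T β).natDegree + β * (PiT k T).natDegree) *
          (Fintype.card k : ℝ) ^ (β + β * (PiT k T).natDegree)) * (6 / 7) ^ d *
        (Fintype.card k : ℝ) ^ m := by
  have hM : a.a₁ ^ 6 * ν = a.a₁ * (a.a₁ ^ 5 * ν) := by ring
  obtain ⟨h1, h2⟩ := mem_Icc.1 hm
  have h3 := hT.2.2.1
  by_cases h4 : m + β * (PiT k T).natDegree ≤ a.a₁.natDegree
  · rw [hM, EE_small ((((dvd_pow_self _ (by unfold RR; omega)).trans D.big).mul_left _).mul_left _)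
      h1 h4, card_empty, Nat.cast_zero]
    positivity
  refine num2 (n := a.a₁.natDegree - β * (PiT k T).natDegree) Bad.two_le_q ?_ (by omega) (by omega)
  have h5 := D.degM hT
  have h6 := D.M0 hT
  rw [hM] at hC h5 h6 ⊢
  refine EE_large (by positivity) (by omega) (by omega) fun z hz h0 => ?_
  obtain ⟨l, h7, h8, h9⟩ := exists_large hT
  have h10 := (Bad.mem_PL_iff.1 hz).resolve_left h0
  refine (hC _ m (notWp h6 h7 (fun p h11 h12 h13 => ?_) fun h => ?_)).trans ?_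
  · have h14 : ¬ p.natDegree ≤ T := fun h => h9 p h11 h12 h h13
    exact ⟨h14, (hN p h11 h12 (by omega) (h13.trans h7)).2⟩
  · have := natDegree_le_of_dvd h h0
    omega
  · have h11 := natDegree_mul_le (p := PiT k T ^ β * (a.a₁ ^ 5 * ν)) (q := z)
    have h12 := natDegree_mul_le (p := PiT k T ^ β) (q := a.a₁ ^ 5 * ν)
    have h13 := natDegree_mul_le (p := a.a₁ ^ 5) (q := ν)
    rw [natDegree_pow] at h12 h13
    have h14 := D.degN
    have h15 := ha.1
    exact mul_le_mul (mul_le_mul_of_nonneg_right (le_abs_self C) (by positivity))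
      (pow_le_pow_right₀ (by norm_num) (by omega)) (by positivity) (by positivity)

lemma div_le (D : Dec T β a g ν f₀) (ha : DegLE a d) (hT : GoodT T β d a) (hN : GoodN T a)
    (hd : RR β ≤ d) {K : ℝ} (hK : 0 ≤ K) (h : ∀ m ∈ Icc 1 (6 * d),
      ((EE T β a.a₁ (a.a₁ ^ 6 * ν) m).card : ℝ) ≤ K * (6 / 7) ^ d * (Fintype.card k : ℝ) ^ m) :
    ∑ t ∈ (cell T β d a).filter (fun t => Squarefree (f₀ + ww a ν t)),
      ((((normalizedFactors (f₀ + ww a ν t)).toFinset.powerset.filter fun s =>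
        s ≠ ∅ ∧ s ≠ (normalizedFactors (f₀ + ww a ν t)).toFinset ∧ JJ T β a.a₁ (a.a₁ ^ 6 * ν) s ∧
          JJ T β a.a₁ (a.a₁ ^ 6 * ν) ((normalizedFactors (f₀ + ww a ν t)).toFinset \ s)).card : ℕ) :
            ℝ) ≤
      12 * K * (Fintype.card k : ℝ) ^ ((NT k T β).natDegree + 2 * RR β) *
        ((d + 1) * (6 / 7 : ℝ) ^ d) * (cell T β d a).card := by
  have hq := Bad.q_pos (k := k)
  calc _ ≤ ∑ t ∈ (cell T β d a).filter (fun t => Squarefree (f₀ + ww a ν t)), 2 * ∑ m ∈ Icc 1 (6 * d),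
        (((EE T β a.a₁ (a.a₁ ^ 6 * ν) m).filter (· ∣ f₀ + ww a ν t)).card : ℝ) := by
        refine sum_le_sum fun t ht => ?_
        obtain ⟨h1, h2⟩ := mem_filter.1 ht
        have h3 := D.degΔ
        have h4 := ha.Δ
        exact_mod_cast count_le (D.mon.add_of_left (D.low'' ha hT hd h1)) h2 (D.cop hT hN t)
          (by rw [natDegree_add_eq_left_of_degree_lt (D.low'' ha hT hd h1)]; omega)
    _ ≤ ∑ t ∈ cell T β d a, 2 * ∑ m ∈ Icc 1 (6 * d),
        (((EE T β a.a₁ (a.a₁ ^ 6 * ν) m).filter (· ∣ f₀ + ww a ν t)).card : ℝ) :=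
        sum_le_sum_of_subset_of_nonneg (filter_subset _ _) fun _ _ _ => by positivity
    _ = 2 * ∑ m ∈ Icc 1 (6 * d), ∑ e ∈ EE T β a.a₁ (a.a₁ ^ 6 * ν) m,
        (((cell T β d a).filter fun t => e ∣ f₀ + ww a ν t).card : ℝ) := by
        rw [← mul_sum, sum_comm]
        simp only [card_filter, Nat.cast_sum]
        exact congrArg _ (sum_congr rfl fun m _ => sum_comm)
    _ ≤ 2 * ∑ m ∈ Icc 1 (6 * d), K * (6 / 7) ^ d *
        ((Fintype.card k : ℝ) ^ ((NT k T β).natDegree + 2 * RR β) * (cell T β d a).card) := by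
        refine mul_le_mul_of_nonneg_left (sum_le_sum fun m hm => ?_) zero_le_two
        refine (sum_le_card_nsmul _ _ ((Fintype.card k : ℝ) ^ ((NT k T β).natDegree + 2 * RR β) *
          (cell T β d a).card / (Fintype.card k : ℝ) ^ m) fun e he => ?_).trans ?_
        · obtain ⟨⟨h1, h2, h3⟩, -⟩ := mem_EE.1 he
          rw [← h2]
          exact fiber_le ha hT h1.ne_zero h3 (h2 ▸ (mem_Icc.1 hm).2)
        · rw [nsmul_eq_mul]
          refine (mul_le_mul_of_nonneg_right (h m hm) (by positivity)).trans (le_of_eq ?_)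
          field_simp
    _ = 12 * K * (Fintype.card k : ℝ) ^ ((NT k T β).natDegree + 2 * RR β) *
        (d * (6 / 7 : ℝ) ^ d) * (cell T β d a).card := by
        rw [sum_const, Nat.card_Icc, nsmul_eq_mul, Nat.add_sub_cancel]
        push_cast
        ring
    _ ≤ _ := by
        gcongr
        linarith

end Cel

open Cel

theorem cellAn (h1 : AnMu) (h2 : AnJ) (h3 : AnK) : CellAn := by
  intro k _ _ _
  obtain ⟨T₁, C₁, H₁⟩ := h1 k (101 / 100) (by norm_num)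
  obtain ⟨T₂, C₂, H₂⟩ := h2 k (101 / 100) (by norm_num)
  obtain ⟨T₃, C₃, H₃⟩ := h3 k (101 / 100) (by norm_num)
  refine ⟨T₁ + T₂ + T₃, fun T hT₀ β ε hε => ?_⟩
  filter_upwards [eventually_ge_atTop (RR β), eventually_ge_atTop (β + β * (PiT k T).natDegree),
    ev (|C₁| * (101 / 100) ^ (3 * (NT k T β).natDegree + 3 * RR β) *
      (Fintype.card k : ℝ) ^ (2 * (NT k T β).natDegree + 4 * RR β)) hε,
    ev (|C₃| * (101 / 100) ^ (3 * (NT k T β).natDegree + 3 * RR β) *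
      (Fintype.card k : ℝ) ^ (2 * (NT k T β).natDegree + 4 * RR β)) hε,
    ev (12 * ((Fintype.card k : ℝ) ^ (β + β * (PiT k T).natDegree + 1) +
        |C₂| * (101 / 100) ^ (2 * (NT k T β).natDegree + β * (PiT k T).natDegree) *
          (Fintype.card k : ℝ) ^ (β + β * (PiT k T).natDegree)) *
      (Fintype.card k : ℝ) ^ ((NT k T β).natDegree + 2 * RR β)) hε]
    with d hd hd' e₁ e₃ e₂ a ha hT hN
  obtain ⟨g, ν, f₀, D⟩ := exists_dec hT
  have F := D.fam ha hT hN hd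
  have h4 := D.degΔ
  have h5 := D.degN
  have h6 := D.degM hT
  have h7 := ha.Δ
  have h8 := ha.1
  refine ⟨_, _, D.cellA ha hT hN hd, ?_, fun n₁ n₂ e he h9 h10 h11 h12 h13 => ?_, ?_⟩
  · have h9 := H₁ _ _ _ _ _ (D.small (by omega)) F
    rw [D.sum_eq hT hN] at h9
    refine le_trans (le_mul_of_one_le_right (norm_nonneg _)
      (one_le_pow₀ (le_trans one_le_two Bad.two_le_q))) (fin1 ha hT h9 (by omega) (by omega) e₁)
  · have h14 := H₃ _ n₁ n₂ _ _ _ _ e (D.small (by omega)) F he h11 h12 h13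
    rw [D.sum_eq hT hN] at h14
    exact fin1 ha hT h14 (by omega) (by omega) e₃
  · refine (div_le D ha hT hN hd (by positivity) fun m hm => EE_le D ha hT hN hd'
      (fun n₂ n h => H₂ _ n₂ n (D.M0 hT) (D.small (by omega)) h) hm).trans ?_
    exact mul_le_mul_of_nonneg_right e₂ (by positivity)

end Pool.Agent.Lib.MP_a3f657_nt.Two
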