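import Pool.Agent.Lib.MP_a3f657_nt.C2HtVal

/-!
Minimal models over a rational function field of characteristic two.
-/

namespace Pool.Agent.Lib.MP_a3f657_nt.Two

open WeierstrassCurve WithZero IsDedekindDomain
open scoped Polynomial

variable {k : Type} [Field k]

/-- The valuation at infinity. -/
noncomputable def νi (k : Type) [Field k] : Valuation (RatFunc k) ℤᵐ⁰ :=
  @RatFunc.inftyValuation k _ (Classical.decEq _)

lemma νi_poly {p : k[X]} (hp : p ≠ 0) :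
    νi k (algebraMap k[X] (RatFunc k) p) = exp (p.natDegree : ℤ) :=
  @RatFunc.inftyValuation.polynomial k _ (Classical.decEq _) p hp

lemma B_inf {d n : ℕ} {p : k[X]} :
    B (νi k) (exp (d : ℤ)) n (algebraMap k[X] (RatFunc k) p) ↔ p.natDegree ≤ n * d := by
  by_cases hp : p = 0
  · simp [B, hp]
  · rw [B, νi_poly hp, ← exp_nsmul, exp_le_exp, nsmul_eq_mul]
    norm_cast

lemma degLE_iff {a : WeierstrassCurve k[X]} {d : ℕ} :
    DegLE a d ↔ Bdd (νi k) (exp (d : ℤ)) (a.baseChange (RatFunc k)) :=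
  ⟨fun ⟨h1, h2, h3, h4, h6⟩ => ⟨B_inf.2 (by rwa [one_mul]), B_inf.2 h2, B_inf.2 h3, B_inf.2 h4,
    B_inf.2 h6⟩, fun h => ⟨by simpa using B_inf.1 h.h₁, B_inf.1 h.h₂, B_inf.1 h.h₃, B_inf.1 h.h₄,
    B_inf.1 h.h₆⟩⟩

lemma approx_inf (x : RatFunc k) : ∃ p : k[X], νi k (algebraMap k[X] (RatFunc k) p - x) ≤ 1 := by
  refine ⟨x.num / x.denom, ?_⟩
  have h0 := x.denom_ne_zero
  have h1 : (algebraMap k[X] (RatFunc k) (x.num / x.denom) - x) * algebraMap _ _ x.denom =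
      -algebraMap k[X] (RatFunc k) (x.num % x.denom) := by
    have h2 := congrArg (algebraMap k[X] (RatFunc k)) (EuclideanDomain.div_add_mod x.num x.denom)
    have h3 : x * algebraMap _ _ x.denom = algebraMap _ _ x.num :=
      (eq_div_iff (by simpa using h0)).1 x.num_div_denom.symm
    rw [map_add, map_mul] at h2
    linear_combination h2 - h3
  have h2 : νi k (algebraMap k[X] (RatFunc k) (x.num % x.denom)) ≤ exp (x.denom.natDegree : ℤ) := by
    have := (B_inf (n := 1)).2 ((Polynomial.natDegree_le_natDegree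
      (Polynomial.degree_mod_lt x.num h0).le).trans (one_mul _).ge)
    rwa [B, pow_one] at this
  rw [← Valuation.map_neg, ← h1, map_mul, νi_poly h0] at h2
  exact (mul_le_iff_le_one_left exp_pos).1 h2

lemma exists_gen (v : HeightOneSpectrum k[X]) : ∃ p : k[X], Irreducible p ∧
    (∀ n q, B (v.valuation (RatFunc k)) (exp (-1)) n (algebraMap k[X] (RatFunc k) q) ↔ p ^ n ∣ q) ∧
    ∀ n x, B (v.valuation (RatFunc k)) 1 n x → ∃ q : k[X], q.natDegree ≤ n * p.natDegree ∧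
      B (v.valuation (RatFunc k)) (exp (-1)) n (algebraMap k[X] (RatFunc k) q - x) := by
  obtain ⟨p, hp⟩ := (IsPrincipalIdealRing.principal v.asIdeal).principal
  have hp0 : p ≠ 0 := fun h => v.ne_bot (by simp [hp, h])
  have h1 : ∀ n q, B (v.valuation (RatFunc k)) (exp (-1)) n (algebraMap k[X] (RatFunc k) q) ↔
      p ^ n ∣ q := fun n q => by
    have := v.valuation_of_algebraMap (K := RatFunc k) q
    rw [B, ← exp_nsmul, smul_neg, nsmul_one, ← Ideal.mem_span_singleton, ← Ideal.span_singleton_pow,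
      ← Ideal.submodule_span_eq, ← hp, ← v.intValuation_le_pow_iff_mem, ← this]
  refine ⟨p, ((Ideal.span_singleton_prime hp0).1 (hp ▸ v.isPrime :)).irreducible, h1,
    fun n x hx => ?_⟩
  obtain ⟨a, ha⟩ := v.exists_valuation_sub_lt_of_integer (by simpa [B] using hx)
    (Units.mk0 (exp (-1) ^ n) (pow_ne_zero _ exp_ne_zero))
  refine ⟨a % p ^ n, (Polynomial.natDegree_le_natDegree (Polynomial.degree_mod_lt a
    (pow_ne_zero n hp0)).le).trans Polynomial.natDegree_pow_le, ?_⟩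
  have h2 := B.sub (n := n) (γ := exp (-1)) ha.le ((h1 n (p ^ n * (a / p ^ n))).2 ⟨_, rfl⟩)
  have h3 := congrArg (algebraMap k[X] (RatFunc k)) (EuclideanDomain.div_add_mod a (p ^ n))
  rw [map_add] at h3
  convert h2 using 1
  linear_combination h3

lemma bdd_adic (v : HeightOneSpectrum k[X]) (a : WeierstrassCurve k[X]) :
    Bdd (v.valuation (RatFunc k)) 1 (a.baseChange (RatFunc k)) := by
  have : ∀ n (q : k[X]), B (v.valuation (RatFunc k)) 1 n (algebraMap k[X] (RatFunc k) q) :=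
    fun n q => by rw [B, one_pow]; exact v.valuation_le_one q
  exact ⟨this _ _, this _ _, this _ _, this _ _, this _ _⟩

lemma DegLE.mono {a : WeierstrassCurve k[X]} {d e : ℕ} (h : DegLE a d) (h' : d ≤ e) : DegLE a e :=
  degLE_iff.2 ((degLE_iff.1 h).mono (exp_le_exp.2 (by exact_mod_cast h')))

lemma heightLE_smul {C : VariableChange (RatFunc k)} {W : WeierstrassCurve (RatFunc k)} {d : ℕ} :
    HeightLE (C • W) d ↔ HeightLE W d :=
  ⟨fun ⟨C', a, h1, h2⟩ => ⟨C' * C, a, h1, by rwa [mul_smul]⟩,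
    fun ⟨C', a, h1, h2⟩ => ⟨C' * C⁻¹, a, h1, by rwa [mul_smul, inv_smul_smul]⟩⟩

lemma HeightLE.mono {W : WeierstrassCurve (RatFunc k)} {d e : ℕ} (h : HeightLE W d) (h' : d ≤ e) :
    HeightLE W e := by
  obtain ⟨C, a, h1, h2⟩ := h
  exact ⟨C, a, h1.mono h', h2⟩

lemma smul_of_tr {a a' : WeierstrassCurve k[X]} {u r s t : k[X]} (hu : u ≠ 0)
    (h : trn r s t a = sc u a') : ∃ C : VariableChange (RatFunc k),
      C • a.baseChange (RatFunc k) = a'.baseChange (RatFunc k) :=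
  ⟨⟨Units.mk0 (algebraMap _ _ u) (by simpa using hu), algebraMap _ _ r, algebraMap _ _ s,
    algebraMap _ _ t⟩, (smul_eq_iff _ _ _).2 (by
      have := congrArg (WeierstrassCurve.map · (algebraMap k[X] (RatFunc k))) h
      simp only [tr_map, sc_map] at this
      exact this)⟩

/-- The coefficients are divisible by the powers of `p` given by their weights. -/
def Dvd (p : k[X]) (a : WeierstrassCurve k[X]) : Prop :=
  p ∣ a.a₁ ∧ p ^ 2 ∣ a.a₂ ∧ p ^ 3 ∣ a.a₃ ∧ p ^ 4 ∣ a.a₄ ∧ p ^ 6 ∣ a.a₆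

lemma heightLE_of_dvd {a : WeierstrassCurve k[X]} {p r s t : k[X]} {d : ℕ} (hp : Irreducible p)
    (h : DegLE (trn r s t a) d) (h' : Dvd p (trn r s t a)) :
    HeightLE (a.baseChange (RatFunc k)) (d - 1) := by
  obtain ⟨⟨c₁, e₁⟩, ⟨c₂, e₂⟩, ⟨c₃, e₃⟩, ⟨c₄, e₄⟩, ⟨c₆, e₆⟩⟩ := h'
  obtain ⟨C, hC⟩ := smul_of_tr (a' := ⟨c₁, c₂, c₃, c₄, c₆⟩) hp.ne_zero
    (WeierstrassCurve.ext e₁ e₂ e₃ e₄ e₆ : trn r s t a = _)
  have key : ∀ (n : ℕ) (c : k[X]), (p ^ n * c).natDegree ≤ n * d → c.natDegree ≤ n * (d - 1) := by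
    intro n c hc
    by_cases h0 : c = 0
    · simp [h0]
    · rw [Polynomial.natDegree_mul (pow_ne_zero _ hp.ne_zero) h0, Polynomial.natDegree_pow] at hc
      have := Nat.mul_le_mul_left n hp.natDegree_pos
      rw [Nat.mul_sub]
      omega
  obtain ⟨h₁, h₂, h₃, h₄, h₆⟩ := h
  exact ⟨C, _, ⟨by simpa using key 1 c₁ (by rwa [pow_one, one_mul, ← e₁]), key 2 _ (e₂ ▸ h₂),
    key 3 _ (e₃ ▸ h₃), key 4 _ (e₄ ▸ h₄), key 6 _ (e₆ ▸ h₆)⟩, hC⟩

lemma heightLE_of_tr {a : WeierstrassCurve k[X]} {r s t : k[X]} {d : ℕ}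
    (h : DegLE (trn r s t a) d) : HeightLE (a.baseChange (RatFunc k)) d := by
  obtain ⟨C, hC⟩ := smul_of_tr (a := a) (a' := trn r s t a) (r := r) (s := s) (t := t) one_ne_zero
    (by simp [sc])
  exact ⟨C, _, h, hC⟩

variable [CharP k 2]

lemma DegLE.tr {a : WeierstrassCurve k[X]} {r s t : k[X]} {d : ℕ} (h : DegLE a d)
    (hr : r.natDegree ≤ 2 * d) (hs : s.natDegree ≤ d) (ht : t.natDegree ≤ 3 * d) :
    DegLE (trn r s t a) d := by
  rw [degLE_iff, baseChange, tr_map]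
  exact (degLE_iff.1 h).tr (B_inf.2 hr) (B_inf.2 (by rwa [one_mul])) (B_inf.2 ht)

lemma DegLE.Δ {a : WeierstrassCurve k[X]} {d : ℕ} (h : DegLE a d) : a.Δ.natDegree ≤ 12 * d := by
  have := (degLE_iff.1 h).Δ
  rw [baseChange, map_Δ] at this
  exact B_inf.1 this

lemma nonmin_fin {a a' : WeierstrassCurve k[X]} {d : ℕ} (ha : DegLE a d) (hΔ : a.Δ ≠ 0)
    {C : VariableChange (RatFunc k)} (h : C • a.baseChange (RatFunc k) = a'.baseChange (RatFunc k))
    (v : HeightOneSpectrum k[X]) (hv : v.valuation (RatFunc k) (C.u : RatFunc k) < 1) :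
    ∃ p r s t : k[X], Irreducible p ∧ p ^ 12 ∣ a.Δ ∧ 1 ≤ d ∧ r.natDegree ≤ 2 * d ∧
      s.natDegree ≤ d ∧ t.natDegree ≤ 3 * d ∧ Dvd p (trn r s t a) := by
  obtain ⟨p, hp, h1, h2⟩ := exists_gen v
  have h3 : Bdd (v.valuation (RatFunc k)) (exp (-1)) (trn C.r C.s C.t (a.baseChange (RatFunc k))) := by
    rw [(smul_eq_iff _ _ _).1 h]
    exact ((bdd_adic v a').sc _).mono (by
      rw [mul_one, ← lt_mul_exp_iff_le exp_ne_zero, ← exp_add]; simpa using hv)
  have h4 : p ^ 12 ∣ a.Δ := by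
    have := h3.Δ
    rwa [tr_Δ, baseChange, map_Δ, h1] at this
  have h5 : p.natDegree ≤ d := by
    have := (Polynomial.natDegree_le_of_dvd h4 hΔ).trans ha.Δ
    rw [Polynomial.natDegree_pow] at this
    omega
  obtain ⟨r, s, t, hr, hs, ht, h6⟩ := (bdd_adic v a).approx (exp_le_exp.2 (by norm_num)) h3
    (algebraMap k[X] (RatFunc k)) (fun n q => q.natDegree ≤ n * p.natDegree) h2
  rw [baseChange, ← tr_map] at h6
  exact ⟨p, r, s, t, hp, h4, hp.natDegree_pos.trans_le h5, by omega, by omega, by omega,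
    by simpa using (h1 _ _).1 h6.h₁, (h1 _ _).1 h6.h₂, (h1 _ _).1 h6.h₃, (h1 _ _).1 h6.h₄,
    (h1 _ _).1 h6.h₆⟩

lemma nonmin_inf {a a' : WeierstrassCurve k[X]} {d e : ℕ} (ha : DegLE a (d + 1)) (ha' : DegLE a' e)
    {C : VariableChange (RatFunc k)} (h : C • a.baseChange (RatFunc k) = a'.baseChange (RatFunc k))
    (hu : νi k (C.u : RatFunc k) * exp (e : ℤ) ≤ exp (d : ℤ)) :
    ∃ r s t : k[X], r.natDegree ≤ 2 * (d + 1) ∧ DegLE (trn r s t a) d := by
  have h3 : Bdd (νi k) (exp (d : ℤ)) (trn C.r C.s C.t (a.baseChange (RatFunc k))) := by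
    rw [(smul_eq_iff _ _ _).1 h]
    exact ((degLE_iff.1 ha').sc _).mono hu
  have h4 : exp (d : ℤ) ≤ exp ((d + 1 : ℕ) : ℤ) := exp_le_exp.2 (by omega)
  obtain ⟨r, s, t, -, -, -, h6⟩ := (degLE_iff.1 ha).approx h4 h3 (algebraMap k[X] (RatFunc k))
    (fun _ _ => True) fun n x _ => by
      obtain ⟨p, hp⟩ := approx_inf x
      exact ⟨p, trivial, hp.trans (one_le_pow_of_one_le' (exp_le_exp (a := 0).2 (by omega)) n)⟩
  refine ⟨r, s, t, B_inf.1 ((degLE_iff.1 ha).integral (h6.mono h4)).1, degLE_iff.2 ?_⟩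
  rwa [baseChange, tr_map]

theorem heightCongr : HeightCongr := by
  intro k _ _ d a b hd ha hb hΔ e₁ e₃ e₄ h₂ h₆ hp ⟨C, a', ha', h⟩
  have f₁ : ∀ r s t, (trn r s t b).a₁ = (trn r s t a).a₁ := fun r s t => by simp only [tr_a₁, e₁]
  have f₂ : ∀ r s t, (trn r s t b).a₂ = (trn r s t a).a₂ + (b.a₂ - a.a₂) := fun r s t => by
    simp only [tr_a₂, e₁]; ring
  have f₃ : ∀ r s t, (trn r s t b).a₃ = (trn r s t a).a₃ := fun r s t => by simp only [tr_a₃, e₁, e₃]
  have f₄ : ∀ r s t, (trn r s t b).a₄ = (trn r s t a).a₄ := fun r s t => by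
    simp only [tr_a₄, e₁, e₃, e₄]
  have f₆ : ∀ r s t, (trn r s t b).a₆ = (trn r s t a).a₆ + (b.a₆ - a.a₆) + r * r * (b.a₂ - a.a₂) :=
    fun r s t => by simp only [tr_a₆, e₁, e₃, e₄]; ring
  by_cases hv : ∃ v : HeightOneSpectrum k[X], v.valuation (RatFunc k) (C.u : RatFunc k) < 1
  · obtain ⟨v, hv⟩ := hv
    obtain ⟨p, r, s, t, hp', h1, -, hr, hs, ht, d₁, d₂, d₃, d₄, d₆⟩ := nonmin_fin ha hΔ h v hv
    obtain ⟨g₂, g₆⟩ := hp p hp' h1
    refine heightLE_of_dvd hp' (hb.tr hr hs ht)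
      ⟨by rw [f₁]; exact d₁, ?_, by rw [f₃]; exact d₃, by rw [f₄]; exact d₄, ?_⟩
    · rw [f₂]; exact dvd_add d₂ ((pow_dvd_pow p (by norm_num)).trans g₂)
    · rw [f₆]; exact dvd_add (dvd_add d₆ g₆) (g₂.mul_left _)
  · obtain ⟨d, rfl⟩ : ∃ e, d = e + 1 := ⟨d - 1, by omega⟩
    push Not at hv
    obtain ⟨w, hw⟩ := HeightOneSpectrum.mem_integers_of_valuation_le_one (R := k[X]) (RatFunc k)
      (C.u : RatFunc k)⁻¹ fun v => by rw [map_inv₀]; exact inv_le_one_of_one_le₀ (hv v)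
    have hw0 : w ≠ 0 := fun h0 => by simp [h0, eq_comm] at hw
    obtain ⟨r, s, t, hr, d₁, d₂, d₃, d₄, d₆⟩ := nonmin_inf ha ha' h (mul_le_of_le_one_left' (by
      rw [← inv_inv (C.u : RatFunc k), ← hw, map_inv₀, νi_poly hw0]
      exact inv_le_one_of_one_le₀ (exp_le_exp (a := 0).2 (by omega))))
    refine heightLE_of_tr (r := r) (s := s) (t := t)
      ⟨by rw [f₁]; exact d₁, ?_, by rw [f₃]; exact d₃, by rw [f₄]; exact d₄, ?_⟩
    · rw [f₂]
      exact Polynomial.natDegree_add_le_of_degree_le d₂ (by omega)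
    · rw [f₆]
      refine Polynomial.natDegree_add_le_of_degree_le
        (Polynomial.natDegree_add_le_of_degree_le d₆ (by omega)) ?_
      have h1 := Polynomial.natDegree_mul_le (p := r * r) (q := b.a₂ - a.a₂)
      have h2 := Polynomial.natDegree_mul_le (p := r) (q := r)
      omega

/-- Every model is obtained from a minimal one by an integral change of variables. -/
lemma of_min {a a' : WeierstrassCurve k[X]} {d e : ℕ} (ha : DegLE a d) (ha' : DegLE a' e)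
    (hΔ : a'.Δ ≠ 0) (hmin : e = 0 ∨ ¬ HeightLE (a'.baseChange (RatFunc k)) (e - 1))
    {C : VariableChange (RatFunc k)} (h : C • a.baseChange (RatFunc k) = a'.baseChange (RatFunc k)) :
    ∃ u r s t : k[X], u ≠ 0 ∧ u.natDegree + e ≤ d ∧ r.natDegree ≤ 2 * d ∧ s.natDegree ≤ d ∧
      t.natDegree ≤ 3 * d ∧ trn r s t a = sc u a' := by
  have h' : C⁻¹ • a'.baseChange (RatFunc k) = a.baseChange (RatFunc k) := by
    rw [← h, inv_smul_smul]
  have hinv : ((C⁻¹).u : RatFunc k) = (C.u : RatFunc k)⁻¹ := Units.val_inv_eq_inv_val _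
  have h1 : ∀ v : HeightOneSpectrum k[X], v.valuation (RatFunc k) (C.u : RatFunc k) ≤ 1 := by
    intro v
    by_contra hv
    obtain ⟨p, r, s, t, hp, -, he, hr, hs, ht, hd⟩ := nonmin_fin ha' hΔ h' v (by
      rw [hinv, map_inv₀]; exact inv_lt_one_of_one_lt₀ (not_le.1 hv))
    exact hmin.resolve_left (by omega) (heightLE_of_dvd hp (ha'.tr hr hs ht) hd)
  have h2 := (smul_eq_iff _ _ _).1 h
  have h3 := fun v : HeightOneSpectrum k[X] => (bdd_adic v a).integral (r := C.r) (s := C.s)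
    (t := C.t) (h2 ▸ ((bdd_adic v a').sc _).mono (by rw [mul_one]; exact h1 v))
  obtain ⟨u, hu⟩ := HeightOneSpectrum.mem_integers_of_valuation_le_one (R := k[X]) _ _ h1
  obtain ⟨r, hr⟩ := HeightOneSpectrum.mem_integers_of_valuation_le_one (R := k[X]) _ C.r
    fun v => by simpa [B] using (h3 v).1
  obtain ⟨s, hs⟩ := HeightOneSpectrum.mem_integers_of_valuation_le_one (R := k[X]) _ C.s
    fun v => by simpa [B] using (h3 v).2.1
  obtain ⟨t, ht⟩ := HeightOneSpectrum.mem_integers_of_valuation_le_one (R := k[X]) _ C.t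
    fun v => by simpa [B] using (h3 v).2.2
  have hu0 : u ≠ 0 := fun h0 => C.u.ne_zero (by rw [← hu, h0, map_zero])
  have h4 : trn r s t a = sc u a' := by
    apply WeierstrassCurve.map_injective (IsFractionRing.injective k[X] (RatFunc k))
    simp only [tr_map, sc_map, hu, hr, hs, ht]
    exact h2
  have h5 : u.natDegree + e ≤ d := by
    by_contra hc
    rcases e with _ | e
    · have h6 := ha.Δ
      rw [← tr_Δ r s t, h4, sc_Δ, Polynomial.natDegree_mul (pow_ne_zero _ hu0) hΔ,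
        Polynomial.natDegree_pow] at h6
      omega
    · obtain ⟨r, s, t, -, h6⟩ := nonmin_inf ha' ha h' (by
        rw [hinv, ← hu, map_inv₀, νi_poly hu0, ← exp_neg, ← exp_add, exp_le_exp]; omega)
      exact hmin.resolve_left (by omega) (heightLE_of_tr h6)
  have h6 := (degLE_iff.1 ha).integral (r := C.r) (s := C.s) (t := C.t)
    (h2 ▸ ((degLE_iff.1 ha').sc _).mono (by
      rw [← hu, νi_poly hu0, ← exp_add, exp_le_exp]; omega))
  rw [← hr, ← hs, ← ht, B_inf, B_inf, B_inf, one_mul] at h6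
  exact ⟨u, r, s, t, hu0, h5, h6.1, h6.2.1, h6.2.2, h4⟩

end Pool.Agent.Lib.MP_a3f657_nt.Two
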