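import Pool.Agent.Lib.MP_a3f657_nt.C2BadB
import Pool.Agent.Lib.MP_a3f657_nt.C2HtMin

/-!
Most Weierstrass tuples are good.
-/

namespace Pool.Agent.Lib.MP_a3f657_nt.Two

open Polynomial

namespace Bad

variable {k : Type} [Field k] [CharP k 2]

/-- The part of the discriminant that does not depend on `a₆`. -/
noncomputable def c0 (y : (k[X] × k[X]) × k[X] × k[X]) : k[X] :=
  (⟨y.1.1, y.2.1, y.1.2, y.2.2, 0⟩ : WeierstrassCurve k[X]).Δ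

lemma disc (W : WeierstrassCurve k[X]) : W.Δ = W.a₁ ^ 4 * (W.a₁ ^ 2 * W.a₆ + W.a₁ * W.a₃ * W.a₄ +
    W.a₂ * W.a₃ ^ 2 + W.a₄ ^ 2) + W.a₃ ^ 4 + W.a₁ ^ 3 * W.a₃ ^ 3 := by
  simp only [WeierstrassCurve.Δ, WeierstrassCurve.b₂, WeierstrassCurve.b₄, WeierstrassCurve.b₆,
    WeierstrassCurve.b₈]
  grind

lemma disc_c0 (W : WeierstrassCurve k[X]) :
    W.Δ = W.a₁ ^ 6 * W.a₆ + c0 ((W.a₁, W.a₃), W.a₂, W.a₄) := by
  rw [c0, disc, disc]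
  ring

lemma dvd_c0 (y : (k[X] × k[X]) × k[X] × k[X]) : y.1.1 ∣ c0 y - y.1.2 ^ 4 := by
  rw [c0, disc]
  exact ⟨y.1.1 ^ 3 * (y.1.1 * y.1.2 * y.2.2 + y.2.1 * y.1.2 ^ 2 + y.2.2 ^ 2) + y.1.1 ^ 2 * y.1.2 ^ 3,
    by ring⟩

variable [Fintype k]

lemma bad_all (T : ℕ) {m d : ℕ} (hm : m ≤ d) :
    Bd (fun a : WeierstrassCurve k[X] =>
      DegLE a d ∧ ¬ (GoodT T (8 * m) d a ∧ GoodN T a ∧ GoodQ T a))
      ((Fintype.card k : ℝ) ^ (16 * d) * ((Fintype.card k : ℝ) ^ 5 *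
        (2 + 2 * (Fintype.card k : ℝ) ^ (T + 1)) / 2 ^ m + 3 * (Fintype.card k : ℝ) ^ 6 / 2 ^ T) +
        (Fintype.card k : ℝ) ^ (13 * d) * (12 * (Fintype.card k : ℝ) ^ 4 * d)) := by
  have P : ∀ i j : ℕ, Bd (fun x : k[X] × k[X] => x.1 ∈ PL k i ∧ x.2 ∈ PL k j)
      ((Fintype.card k : ℝ) ^ i * (Fintype.card k : ℝ) ^ j) := fun i j =>
    (bd_PL i).fib (fun _ _ => bd_PL j) (qp _)
  have B1 := ((bad13 (k := k) T hm).fib (fun _ _ => P (2 * d + 1) (4 * d + 1)) (P _ _).nonneg).fib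
    (fun _ _ => P (3 * d) (3 * d + 1)) (P _ _).nonneg
  have B2 := Bd.fib (P := fun y : (k[X] × k[X]) × k[X] × k[X] =>
      ((y.1.1 ∈ PL k (d + 1) ∧ y.1.2 ∈ PL k (3 * d + 1)) ∧
        y.2.1 ∈ PL k (2 * d + 1) ∧ y.2.2 ∈ PL k (4 * d + 1)) ∧ G13 T m d y.1.1 y.1.2)
    (((P (d + 1) (3 * d + 1)).fib (fun _ _ => P (2 * d + 1) (4 * d + 1)) (P _ _).nonneg).mono
      fun y hy => hy.1)
    (fun y hy => bad6 T hm hy.2 (mem_PL_succ.1 hy.1.1.1) (c := c0 y)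
      (DegLE.Δ ⟨mem_PL_succ.1 hy.1.1.1, mem_PL_succ.1 hy.1.2.1, mem_PL_succ.1 hy.1.1.2,
        mem_PL_succ.1 hy.1.2.2, by simp⟩) (dvd_c0 y)) (by positivity)
  refine (((B1.or B2).image fun x => (⟨x.1.1.1, x.1.2.1, x.1.1.2, x.1.2.2,
    x.2.2 ^ 2 + X * x.2.1 ^ 2⟩ : WeierstrassCurve k[X])).mono ?_).le (le_of_eq (by ring))
  rintro a ⟨⟨h1, h2, h3, h4, h6⟩, hb⟩
  obtain ⟨h, hh, g, hg, e⟩ := exists_gh (3 * d) (f := a.a₆) (mem_PL_succ.2 (by omega))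
  refine ⟨(((a.a₁, a.a₃), a.a₂, a.a₄), h, g), ?_, by rw [← e]⟩
  rw [← mem_PL_succ] at h1 h2 h3 h4
  by_cases hG : G13 T m d a.a₁ a.a₃
  · refine Or.inr ⟨⟨⟨⟨h1, h3⟩, h2, h4⟩, hG⟩, hh, hg, fun h7 => hb ?_⟩
    dsimp only at h7
    rw [← e4 a.a₁ h g, ← e, ← disc_c0] at h7
    obtain ⟨g1, g2, g3, g4⟩ := hG
    obtain ⟨k1, k2, k3⟩ := h7
    refine ⟨⟨g1, fun h0 => ?_, by omega, k1, fun p hp hp' hT => ⟨fun h8 => g3 p hp hp' hT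
      ((pow_dvd_pow p (by omega)).trans h8), k2 p hp hp' hT⟩⟩, g4, k3⟩
    rw [h0, natDegree_zero] at k1
    omega
  · exact Or.inl ⟨⟨⟨h1, h3, hG⟩, h2, h4⟩, hh, hg⟩

lemma exists_pow (A ε : ℝ) (hε : 0 < ε) (T₀ : ℕ) : ∃ T, T₀ ≤ T ∧ A / 2 ^ T ≤ ε := by
  have h := (tendsto_pow_atTop_atTop_of_one_lt (one_lt_two (α := ℝ))).const_div_atTop A
  exact ((Filter.eventually_ge_atTop T₀).and (h.eventually (ge_mem_nhds hε))).exists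

end Bad

open Bad in
theorem badSmall : BadSmall := by
  intro k _ _ _ ε hε T₀
  obtain ⟨T, hT, h1⟩ := exists_pow (3 * (Fintype.card k : ℝ) ^ 6) (ε / 3) (by positivity) T₀
  obtain ⟨m, -, h2⟩ := exists_pow ((Fintype.card k : ℝ) ^ 5 *
    (2 + 2 * (Fintype.card k : ℝ) ^ (T + 1))) (ε / 3) (by positivity) 0
  have h3 := ((tendsto_pow_const_div_const_pow_of_one_lt 1 (one_lt_two (α := ℝ))).const_mul
    (12 * (Fintype.card k : ℝ) ^ 4)).eventually (ge_mem_nhds (show _ < ε / 3 by simpa using hε))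
  refine ⟨T, 8 * m, hT, ((Filter.eventually_ge_atTop m).and h3).mono fun d hd => ?_⟩
  refine (bad_all T hd.1).ncard.trans ?_
  have h4 : (2 : ℝ) ^ d ≤ (Fintype.card k : ℝ) ^ (3 * d) :=
    (pow_le_pow_left₀ zero_le_two two_le_q d).trans
      (pow_le_pow_right₀ (le_trans one_le_two two_le_q) (by omega))
  have h5 : 12 * (Fintype.card k : ℝ) ^ 4 * d ≤ ε / 3 * (Fintype.card k : ℝ) ^ (3 * d) := by
    have h6 := hd.2
    rw [pow_one, ← mul_div_assoc, div_le_iff₀ (by positivity)] at h6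
    exact h6.trans (mul_le_mul_of_nonneg_left h4 (by positivity))
  have h7 := mul_le_mul_of_nonneg_left h5 (qp (k := k) (13 * d))
  have h8 := mul_le_mul_of_nonneg_left (add_le_add h2 h1) (qp (k := k) (16 * d))
  have h9 : (Fintype.card k : ℝ) ^ (16 * d) =
      (Fintype.card k : ℝ) ^ (13 * d) * (Fintype.card k : ℝ) ^ (3 * d) := by ring
  calc _ ≤ (Fintype.card k : ℝ) ^ (16 * d) * (ε / 3 + ε / 3) +
        (Fintype.card k : ℝ) ^ (13 * d) * (ε / 3 * (Fintype.card k : ℝ) ^ (3 * d)) := add_le_add h8 h7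
    _ = _ := by rw [h9]; ring

end Pool.Agent.Lib.MP_a3f657_nt.Two
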