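import Pool.Agent.Lib.MP_a3f657_nt.C2HtClass

/-!
Transfer from Weierstrass equations to densities of isomorphism classes.
-/

namespace Pool.Agent.Lib.MP_a3f657_nt.Two

open Filter

lemma eventually_small {Q : ℝ} (hQ : 1 < Q) (K L δ : ℝ) (hδ : 0 < δ) :
    ∀ᶠ d : ℕ in atTop, K + L * Q ^ (9 * d) ≤ δ * Q ^ (10 * d) := by
  filter_upwards [(tendsto_pow_atTop_atTop_of_one_lt hQ).eventually_ge_atTop ((|K| + |L|) / δ)]
    with d hd
  have h1 : 1 ≤ Q ^ (9 * d) := one_le_pow₀ hQ.le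
  rw [div_le_iff₀ hδ] at hd
  calc K + L * Q ^ (9 * d) ≤ |K| * Q ^ (9 * d) + |L| * Q ^ (9 * d) :=
        add_le_add ((le_abs_self K).trans (le_mul_of_one_le_right (abs_nonneg K) h1))
          (mul_le_mul_of_nonneg_right (le_abs_self L) (by positivity))
    _ ≤ Q ^ d * δ * Q ^ (9 * d) := by rw [← add_mul]; gcongr
    _ = _ := by ring

theorem transfer : Transfer := by
  intro k _ _ _ ι s P c c₀ hP h ε hε
  have hq : 2 ≤ Fintype.card k := Fintype.one_lt_card
  set Q : ℝ := (Fintype.card k : ℝ) with hQ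
  have hQ1 : 1 < Q := by rw [hQ]; exact_mod_cast hq
  have hδ : 0 < ε / (2 * Q ^ 3) / 5 := by positivity
  set δ := ε / (2 * Q ^ 3) / 5 with hδ'
  obtain ⟨d₀, hd₀⟩ := eventually_atTop.1 (h δ hδ)
  let f : ℕ → ℝ := fun e => ∑ i ∈ s, c i * ((Mcl (P i) e).ncard : ℝ) -
    c₀ * ((Mcl (k := k) (fun _ => True) e).ncard : ℝ)
  have h1 : ∀ e, d₀ ≤ e → f e ≤ 2 * δ * Q ^ (10 * e) := by
    intro e he
    have h2 := hd₀ e he
    have h3 : ∀ R : WeierstrassCurve (RatFunc k) → Prop,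
        (∀ (C : WeierstrassCurve.VariableChange (RatFunc k)) W, R (C • W) ↔ R W) →
        (tupNum R e : ℝ) = (Mcl R e).ncard * ((Nat.card (Grp k e) : ℝ) / 2) := fun R hR => by
      have := congrArg (Nat.cast (R := ℝ)) (tup_eq hR e)
      push_cast at this
      linarith
    have h4 : Q ^ (6 * e) ≤ Nat.card (Grp k e) := by
      rw [hQ]
      exact_mod_cast (Nat.pow_le_pow_right (by omega) (by omega)).trans (le_card_Grp e)
    have h5 : 0 < (Nat.card (Grp k e) : ℝ) / 2 := half_pos (lt_of_lt_of_le (by positivity) h4)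
    rw [h3 _ fun _ _ => Iff.rfl, Finset.sum_congr rfl fun i _ => by rw [h3 _ (hP i), ← mul_assoc],
      ← Finset.sum_mul] at h2
    refine le_of_mul_le_mul_right ?_ h5
    calc _ ≤ δ * Q ^ (16 * e) := by simp only [f]; linarith
      _ = 2 * δ * Q ^ (10 * e) * (Q ^ (6 * e) / 2) := by ring
      _ ≤ _ := by gcongr
  filter_upwards [eventually_small hQ1 (∑ e ∈ Finset.range d₀, |f e|)
    ((∑ i ∈ s, |c i| + |c₀|) * (8 * Q ^ 2)) δ hδ, eventually_ge_atTop 1] with d hd hd1
  have h2 : ∑ e ∈ Finset.range (d + 1), f e ≤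
      ∑ e ∈ Finset.range d₀, |f e| + 4 * δ * Q ^ (10 * d) := by
    have h3 : ∑ e ∈ Finset.range (d + 1), (Q ^ 10) ^ e ≤ 2 * (Q ^ 10) ^ d := by
      rw [hQ]
      exact_mod_cast geom_le (hq.trans (Nat.le_self_pow (by norm_num) _)) d
    calc _ ≤ ∑ e ∈ Finset.range (d + 1), ((if e < d₀ then |f e| else 0) + 2 * δ * (Q ^ 10) ^ e) := by
          refine Finset.sum_le_sum fun e _ => ?_
          split_ifs with he
          · exact (le_abs_self _).trans (le_add_of_nonneg_right (by positivity))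
          · rw [zero_add, ← pow_mul]; exact h1 e (not_lt.1 he)
      _ ≤ _ := by
          rw [Finset.sum_add_distrib, ← Finset.mul_sum, ← Finset.sum_filter, pow_mul]
          refine add_le_add (Finset.sum_le_sum_of_subset_of_nonneg (fun e he => Finset.mem_range.2
            (Finset.mem_filter.1 he).2) fun _ _ _ => abs_nonneg _) ?_
          nlinarith
  have hZ : ((Zcl k d).ncard : ℝ) ≤ 8 * Q ^ 2 * Q ^ (9 * d) := by
    rw [hQ, mul_assoc, ← pow_add, add_comm]
    exact_mod_cast card_Zcl_le d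
  have h3 : ∀ (R : WeierstrassCurve (RatFunc k) → Prop) (a : ℝ),
      (∀ (C : WeierstrassCurve.VariableChange (RatFunc k)) W, R (C • W) ↔ R W) →
      a * num R d ≤ ∑ e ∈ Finset.range (d + 1), a * ((Mcl R e).ncard : ℝ) +
        |a| * (8 * Q ^ 2 * Q ^ (9 * d)) := fun R a hR => by
    obtain ⟨h4, h5⟩ := num_bounds hR d
    have h4' : ∑ e ∈ Finset.range (d + 1), ((Mcl R e).ncard : ℝ) ≤ num R d := by exact_mod_cast h4
    have h5' : (num R d : ℝ) ≤ ∑ e ∈ Finset.range (d + 1), ((Mcl R e).ncard : ℝ) +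
        (Zcl k d).ncard := by exact_mod_cast h5
    rw [← Finset.mul_sum, ← sub_le_iff_le_add', ← mul_sub]
    exact (mul_le_mul_of_nonneg_right (le_abs_self a) (by linarith)).trans
      (mul_le_mul_of_nonneg_left (by linarith) (abs_nonneg a))
  have h4 : Q ^ (10 * d) ≤ 2 * Q ^ 3 * num (k := k) (fun _ => True) d := by
    obtain ⟨d, rfl⟩ : ∃ e, d = e + 1 := ⟨d - 1, by omega⟩
    rw [hQ]
    exact_mod_cast (le_card_Mcl d).trans (Nat.mul_le_mul_left _ ((Finset.single_le_sum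
      (f := fun e => (Mcl (k := k) (fun _ => True) e).ncard) (fun _ _ => Nat.zero_le _)
      (Finset.self_mem_range_succ _)).trans (num_bounds (fun _ _ => Iff.rfl) _).1))
  have h5 : (0 : ℝ) < num (k := k) (fun _ => True) d :=
    (mul_pos_iff_of_pos_left (by positivity)).1 (lt_of_lt_of_le (by positivity) h4)
  have h6 := Finset.sum_le_sum fun i (_ : i ∈ s) => h3 (P i) (c i) (hP i)
  have h7 := h3 (fun _ => True) (-c₀) fun _ _ => Iff.rfl
  rw [Finset.sum_add_distrib, Finset.sum_comm, ← Finset.sum_mul] at h6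
  have h8 : ∑ e ∈ Finset.range (d + 1), f e =
      ∑ e ∈ Finset.range (d + 1), ∑ i ∈ s, c i * ((Mcl (P i) e).ncard : ℝ) +
      ∑ e ∈ Finset.range (d + 1), -c₀ * ((Mcl (k := k) (fun _ => True) e).ncard : ℝ) := by
    rw [← Finset.sum_add_distrib]
    exact Finset.sum_congr rfl fun e _ => by simp only [f]; ring
  have h9 : 5 * δ * Q ^ (10 * d) ≤ ε * num (k := k) (fun _ => True) d := by
    calc _ ≤ 5 * δ * (2 * Q ^ 3 * num (k := k) (fun _ => True) d) := by gcongr
      _ = _ := by rw [hδ']; field_simp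
  simp only [dens, ← mul_div_assoc, ← Finset.sum_div]
  rw [div_le_iff₀ h5]
  rw [abs_neg] at h7
  nlinarith

end Pool.Agent.Lib.MP_a3f657_nt.Two
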