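import Pool.Agent.Lib.MP_a3f657_nt.C2CellDefs
import Pool.Agent.Lib.MP_a3f657_nt.C2HtMain
import Pool.Agent.Lib.MP_a3f657_nt.C2BadMain

/-!
Reduction of linear inequalities for densities to inequalities on cells.
-/

namespace Pool.Agent.Lib.MP_a3f657_nt.Two

open Polynomial

open scoped Classical

namespace Red

/-- Averaging over a family of involutive translations. -/
lemma avg {α γ : Type} (X : Finset α) (I : α → Finset γ) (sh : α → γ → α) (φ : α → ℝ) (ε : ℝ)
    (hne : ∀ a ∈ X, (I a).Nonempty)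
    (hX : ∀ a ∈ X, ∀ t ∈ I a, sh a t ∈ X ∧ I (sh a t) = I a ∧ sh (sh a t) t = a)
    (h : ∀ a ∈ X, ∑ t ∈ I a, φ (sh a t) ≤ ε * (I a).card) : ∑ a ∈ X, φ a ≤ ε * X.card := by
  have hpos : ∀ a ∈ X, (0 : ℝ) < (I a).card := fun a ha => by
    exact_mod_cast (hne a ha).card_pos
  have e1 : ∑ a ∈ X, φ a = ∑ a ∈ X, ∑ t ∈ I a, φ a / (I a).card :=
    Finset.sum_congr rfl fun a ha => by
      rw [Finset.sum_const, nsmul_eq_mul, mul_div_cancel₀ _ (hpos a ha).ne']
  have e2 : ∑ a ∈ X, ∑ t ∈ I a, φ a / (I a).card =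
      ∑ a ∈ X, ∑ t ∈ I a, φ (sh a t) / (I a).card := by
    rw [Finset.sum_sigma', Finset.sum_sigma']
    have m : ∀ x ∈ X.sigma I, (⟨sh x.1 x.2, x.2⟩ : Σ _ : α, γ) ∈ X.sigma I := fun x hx => by
      obtain ⟨h1, h2⟩ := Finset.mem_sigma.1 hx
      obtain ⟨h3, h4, -⟩ := hX _ h1 _ h2
      exact Finset.mem_sigma.2 ⟨h3, by rw [h4]; exact h2⟩
    have m2 : ∀ x ∈ X.sigma I,
        (⟨sh (sh x.1 x.2) x.2, x.2⟩ : Σ _ : α, γ) = x := fun x hx => by
      obtain ⟨h1, h2⟩ := Finset.mem_sigma.1 hx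
      rw [(hX _ h1 _ h2).2.2]
    refine Finset.sum_nbij' (fun x => ⟨sh x.1 x.2, x.2⟩) (fun x => ⟨sh x.1 x.2, x.2⟩) m m m2 m2
      fun x hx => ?_
    obtain ⟨h1, h2⟩ := Finset.mem_sigma.1 hx
    obtain ⟨-, h4, h5⟩ := hX _ h1 _ h2
    simp only [h4, h5]
  rw [e1, e2]
  calc _ ≤ ∑ _a ∈ X, ε := Finset.sum_le_sum fun a ha => by
        rw [← Finset.sum_div, div_le_iff₀ (hpos a ha)]
        exact h a ha
    _ = _ := by rw [Finset.sum_const, nsmul_eq_mul, mul_comm]

variable {k : Type} [Field k] [Fintype k]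

lemma PiT_monic (T : ℕ) : (PiT k T).Monic :=
  monic_prod_of_monic _ _ fun _ hp => (mem_irrLe.1 hp).2.1

lemma NT_ne (T β : ℕ) : NT k T β ≠ 0 := ((PiT_monic T).pow _).ne_zero

lemma dvd_NT {T : ℕ} (β : ℕ) {p : k[X]} (h1 : p.Monic) (h2 : Irreducible p)
    (h3 : p.natDegree ≤ T) : p ^ RR β ∣ NT k T β :=
  pow_dvd_pow_of_dvd (Finset.dvd_prod_of_mem _ (mem_irrLe.2 ⟨h3, h1, h2⟩)) _

lemma zero_mem_cell (T β d : ℕ) (a : WeierstrassCurve k[X]) : (0 : k[X] × k[X]) ∈ cell T β d a :=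
  Finset.mem_product.2 ⟨Bad.mem_PL_iff.2 (Or.inl rfl), Bad.mem_PL_iff.2 (Or.inl rfl)⟩

lemma sub_mem_cell {T β d : ℕ} {a : WeierstrassCurve k[X]} {t u : k[X] × k[X]}
    (ht : t ∈ cell T β d a) (hu : u ∈ cell T β d a) : t - u ∈ cell T β d a :=
  Finset.mem_product.2 ⟨Bad.sub_mem_PL (Finset.mem_product.1 ht).1 (Finset.mem_product.1 hu).1,
    Bad.sub_mem_PL (Finset.mem_product.1 ht).2 (Finset.mem_product.1 hu).2⟩

lemma shift_sub (T β : ℕ) (a : WeierstrassCurve k[X]) (t u : k[X] × k[X]) :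
    shift T β (shift T β a u) (t - u) = shift T β a t := by
  simp only [shift, Prod.fst_sub, Prod.snd_sub, WeierstrassCurve.mk.injEq, true_and]
  constructor <;> ring

lemma shift_shift [CharP k 2] (T β : ℕ) (a : WeierstrassCurve k[X]) (t : k[X] × k[X]) :
    shift T β (shift T β a t) t = a := by
  simp only [shift, add_assoc, CharTwo.add_self_eq_zero, add_zero]

lemma deg_fst {T β d : ℕ} {a : WeierstrassCurve k[X]} {t : k[X] × k[X]}
    (ht : t ∈ cell T β d a) : t.1 = 0 ∨ (NT k T β * t.1).natDegree + 2 * RR β < 2 * d := by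
  rcases Bad.mem_PL_iff.1 (Finset.mem_product.1 ht).1 with h | h
  · exact Or.inl h
  · have := natDegree_mul_le (p := NT k T β) (q := t.1)
    right; omega

lemma deg_snd {T β d : ℕ} {a : WeierstrassCurve k[X]} {t : k[X] × k[X]}
    (ht : t ∈ cell T β d a) : t.2 = 0 ∨
      (NT k T β * t.2).natDegree + RR β + 6 * a.a₁.natDegree ≤ a.Δ.natDegree := by
  rcases Bad.mem_PL_iff.1 (Finset.mem_product.1 ht).2 with h | h
  · exact Or.inl h
  · have := natDegree_mul_le (p := NT k T β) (q := t.2)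
    right; omega

lemma deg_two {T β d : ℕ} {a : WeierstrassCurve k[X]} {t : k[X] × k[X]} (hd : 3 ≤ d)
    (ht : t ∈ cell T β d a) : (NT k T β * t.1).natDegree + 6 ≤ 2 * d := by
  rcases deg_fst ht with h | h
  · rw [h, mul_zero, natDegree_zero]; omega
  · unfold RR at h; omega

variable [CharP k 2]

lemma deg_six {T β d : ℕ} {a : WeierstrassCurve k[X]} {t : k[X] × k[X]} (hd : 3 ≤ d)
    (h1 : DegLE a d) (h2 : GoodT T β d a) (ht : t ∈ cell T β d a) :
    (NT k T β * t.2).natDegree + 6 ≤ 6 * d := by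
  rcases deg_snd ht with h | h
  · rw [h, mul_zero, natDegree_zero]; omega
  · have h3 := h1.Δ
    have h4 := h2.2.2.1
    unfold RR at h; omega

lemma disc_shift (T β : ℕ) (a : WeierstrassCurve k[X]) (t : k[X] × k[X]) :
    (shift T β a t).Δ = a.Δ + (a.a₁ ^ 6 * (NT k T β * t.2) +
      a.a₁ ^ 4 * a.a₃ ^ 2 * (NT k T β * t.1)) := by
  rw [Bad.disc, Bad.disc a]
  simp only [shift]
  ring

lemma deg_diff {T β d : ℕ} {a : WeierstrassCurve k[X]} {t : k[X] × k[X]} (hd : RR β ≤ d)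
    (h1 : DegLE a d) (h2 : GoodT T β d a) (ht : t ∈ cell T β d a) :
    (a.a₁ ^ 6 * (NT k T β * t.2) + a.a₁ ^ 4 * a.a₃ ^ 2 * (NT k T β * t.1)).natDegree + RR β ≤
      a.Δ.natDegree := by
  have h3 := h2.2.2.2.1
  have h4 := natDegree_derivative_le a.Δ
  have h5 : (a.a₁ ^ 6 * (NT k T β * t.2)).natDegree + RR β ≤ a.Δ.natDegree := by
    rcases deg_snd ht with h | h
    · rw [h, mul_zero, mul_zero, natDegree_zero]; unfold RR at *; omega
    · have h6 := natDegree_mul_le (p := a.a₁ ^ 6) (q := NT k T β * t.2)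
      rw [natDegree_pow] at h6
      omega
  have h7 : (a.a₁ ^ 4 * a.a₃ ^ 2 * (NT k T β * t.1)).natDegree + RR β ≤ a.Δ.natDegree := by
    rcases deg_fst ht with h | h
    · rw [h, mul_zero, mul_zero, natDegree_zero]; unfold RR at *; omega
    · have h6 := natDegree_mul_le (p := a.a₁ ^ 4 * a.a₃ ^ 2) (q := NT k T β * t.1)
      have h8 := natDegree_mul_le (p := a.a₁ ^ 4) (q := a.a₃ ^ 2)
      rw [natDegree_pow, natDegree_pow] at h8
      have h9 := h1.1
      have h10 := h1.2.2.1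
      unfold RR at *; omega
  have := natDegree_add_le (a.a₁ ^ 6 * (NT k T β * t.2)) (a.a₁ ^ 4 * a.a₃ ^ 2 * (NT k T β * t.1))
  omega

lemma cell_shift {T β d : ℕ} {a : WeierstrassCurve k[X]} {t : k[X] × k[X]} (hd : RR β ≤ d)
    (h1 : DegLE a d) (h2 : GoodT T β d a) (ht : t ∈ cell T β d a) :
    cell T β d (shift T β a t) = cell T β d a := by
  have h3 := deg_diff hd h1 h2 ht
  have h4 : (shift T β a t).Δ.natDegree = a.Δ.natDegree := by
    rw [disc_shift]
    exact natDegree_add_eq_left_of_natDegree_lt (by unfold RR at h3; omega)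
  unfold cell
  rw [h4]
  rfl

lemma degLE_shift {T β d : ℕ} {a : WeierstrassCurve k[X]} {t : k[X] × k[X]} (hd : RR β ≤ d)
    (h1 : DegLE a d) (h2 : GoodT T β d a) (ht : t ∈ cell T β d a) : DegLE (shift T β a t) d := by
  have hd3 : 3 ≤ d := by unfold RR at hd; omega
  have h3 := deg_two hd3 ht
  have h4 := deg_six hd3 h1 h2 ht
  exact ⟨h1.1, (natDegree_add_le _ _).trans (max_le h1.2.1 (by omega)), h1.2.2.1, h1.2.2.2.1,
    (natDegree_add_le _ _).trans (max_le h1.2.2.2.2 (by omega))⟩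

lemma goodT_shift {T β d : ℕ} {a : WeierstrassCurve k[X]} {t : k[X] × k[X]} (hd : RR β ≤ d)
    (h1 : DegLE a d) (h2 : GoodT T β d a) (ht : t ∈ cell T β d a) :
    GoodT T β d (shift T β a t) := by
  have h3 := deg_diff hd h1 h2 ht
  have h4 := h1.Δ
  have h5 := h2.2.2.2.1
  have h9 : NT k T β ∣ a.a₁ ^ 6 * (NT k T β * t.2) + a.a₁ ^ 4 * a.a₃ ^ 2 * (NT k T β * t.1) :=
    dvd_add (Dvd.dvd.mul_left (dvd_mul_right _ _) _) (Dvd.dvd.mul_left (dvd_mul_right _ _) _)
  have h10 := disc_shift T β a t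
  generalize a.a₁ ^ 6 * (NT k T β * t.2) + a.a₁ ^ 4 * a.a₃ ^ 2 * (NT k T β * t.1) = D at h3 h9 h10
  have h6 := natDegree_derivative_le D
  have h7 : (derivative D).natDegree < (derivative a.Δ).natDegree := by unfold RR at *; omega
  have h8 : (derivative (shift T β a t).Δ).natDegree = (derivative a.Δ).natDegree := by
    rw [h10, derivative_add]
    exact natDegree_add_eq_left_of_natDegree_lt h7
  refine ⟨h2.1, fun h => ?_, h2.2.2.1, by rw [h8]; exact h5, fun p p1 p2 p3 =>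
    ⟨(h2.2.2.2.2 p p1 p2 p3).1, fun h => (h2.2.2.2.2 p p1 p2 p3).2 ?_⟩⟩
  · rw [h, natDegree_zero] at h8
    omega
  · have h11 : p ^ β ∣ derivative D :=
      (pow_dvd_pow p (show β ≤ RR β - 1 by unfold RR; omega)).trans
        (pow_sub_one_dvd_derivative_of_pow_dvd ((dvd_NT β p1 p2 p3).trans h9))
    rw [h10, derivative_add] at h
    exact (dvd_add_left h11).1 h

lemma height_shift {T β d : ℕ} {a : WeierstrassCurve k[X]} {t : k[X] × k[X]} (hd : RR β ≤ d)
    (h1 : DegLE a d) (h2 : GoodT T β d a) (h3 : GoodQ T a) (ht : t ∈ cell T β d a)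
    (h : HeightLE (a.baseChange (RatFunc k)) (d - 1)) :
    HeightLE ((shift T β a t).baseChange (RatFunc k)) (d - 1) := by
  have hd3 : 3 ≤ d := by unfold RR at hd; omega
  have e2 : (shift T β a t).a₂ - a.a₂ = NT k T β * t.1 := add_sub_cancel_left _ _
  have e6 : (shift T β a t).a₆ - a.a₆ = NT k T β * t.2 := add_sub_cancel_left _ _
  refine heightCongr k d a (shift T β a t) (by omega) h1 (degLE_shift hd h1 h2 ht)
    (fun h0 => h2.2.1 (by rw [h0, derivative_zero])) rfl rfl rfl (by rw [e2]; exact deg_two hd3 ht)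
    (by rw [e6]; exact deg_six hd3 h1 h2 ht) (fun p hp hp2 => ?_) h
  have q1 : (normalize p).Monic := monic_normalize hp.ne_zero
  have q2 : Associated p (normalize p) := associated_normalize p
  have q3 : Irreducible (normalize p) := q2.irreducible hp
  have q4 : (normalize p).natDegree ≤ T := by
    by_contra hc
    exact h3 _ q1 q3 (not_le.1 hc) (((pow_dvd_pow_of_dvd q2.symm.dvd 2).trans
      (pow_dvd_pow p (by norm_num))).trans hp2)
  have q5 : p ^ 6 ∣ NT k T β := ((pow_dvd_pow_of_dvd q2.dvd 6).trans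
    (pow_dvd_pow _ (by unfold RR; omega))).trans (dvd_NT β q1 q3 q4)
  rw [e2, e6]
  exact ⟨q5.mul_right _, q5.mul_right _⟩

omit [Fintype k] [CharP k 2] in
lemma num_sat (P : WeierstrassCurve (RatFunc k) → Prop) (d : ℕ) :
    num (fun W => ∃ C : WeierstrassCurve.VariableChange (RatFunc k), P (C • W)) d = num P d := by
  unfold num
  congr 1
  ext c
  constructor
  · rintro ⟨W, rfl, h1, h2, C, h3⟩
    refine ⟨C • W, Quotient.sound' ⟨C, rfl⟩, ?_, heightLE_smul.2 h2, h3⟩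
    rw [WeierstrassCurve.variableChange_Δ]
    exact mul_ne_zero (pow_ne_zero _ (Units.ne_zero _)) h1
  · rintro ⟨W, rfl, h1, h2, h3⟩
    exact ⟨W, rfl, h1, h2, 1, by rwa [one_smul]⟩

omit [CharP k 2] in
lemma tupNum_eq (P : WeierstrassCurve (RatFunc k) → Prop) (d : ℕ) :
    (tupNum P d : ℝ) = ∑ a ∈ (finite_degLE (k := k) d).toFinset,
      if MinTup a d ∧ P (a.baseChange (RatFunc k)) then (1 : ℝ) else 0 := by
  rw [Finset.sum_boole, tupNum, ← Set.ncard_coe_finset]
  congr 2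
  ext a
  simp only [Set.mem_setOf_eq, Finset.coe_filter, Set.Finite.mem_toFinset]
  exact ⟨fun h => ⟨h.1.1, h⟩, fun h => h.2⟩

end Red

open Red in
theorem cellRed : CellRed := by
  intro k _ _ _ ι s P c c₀ hP ⟨T₀, hT₀⟩ ε hε
  set P' : ι → WeierstrassCurve (RatFunc k) → Prop :=
    fun i W => ∃ C : WeierstrassCurve.VariableChange (RatFunc k), P i (C • W) with hP'
  have hd : ∀ i d, dens (P i) d = dens (P' i) d := fun i d => by
    unfold dens
    rw [hP', num_sat]
  simp only [hd]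
  refine transfer k ι s P' c c₀ (fun i C W => ⟨fun ⟨C', h⟩ => ⟨C' * C, by rwa [mul_smul]⟩,
    fun ⟨C', h⟩ => ⟨C' * C⁻¹, by rwa [mul_smul, inv_smul_smul]⟩⟩) (fun δ hδ => ?_) ε hε
  set K : ℝ := ∑ i ∈ s, |c i| + |c₀| + 1 with hK
  have hK0 : 0 < K := by
    have : 0 ≤ ∑ i ∈ s, |c i| := Finset.sum_nonneg fun i _ => abs_nonneg _
    positivity
  have hq : (0 : ℝ) < Fintype.card k := Bad.q_pos
  obtain ⟨T, β, hT, hb⟩ := badSmall k (δ / 2 / K) (by positivity) T₀
  filter_upwards [hb, hT₀ T hT β (δ / 2 / (Fintype.card k : ℝ) ^ 5) (by positivity),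
    Filter.eventually_ge_atTop (RR β)] with d hb hc hd
  have hd0 : d ≠ 0 := by unfold RR at hd; omega
  set D := (finite_degLE (k := k) d).toFinset with hD
  have memD : ∀ a, a ∈ D ↔ DegLE a d := fun a => by simp [hD]
  set ψ : WeierstrassCurve k[X] → ℝ := fun a => if MinTup a d then
    ∑ i ∈ s, (if P' i (a.baseChange (RatFunc k)) then c i else 0) - c₀ else 0 with hψ
  have hψK : ∀ a, ψ a ≤ K := fun a => by
    simp only [hψ]
    split_ifs
    · have h1 : ∑ i ∈ s, (if P' i (a.baseChange (RatFunc k)) then c i else 0) ≤ ∑ i ∈ s, |c i| :=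
        Finset.sum_le_sum fun i _ => by
          split_ifs
          · exact le_abs_self _
          · exact abs_nonneg _
      have h2 := neg_abs_le c₀
      linarith
    · exact hK0.le
  have e1 : ∑ i ∈ s, c i * (tupNum (P' i) d : ℝ) - c₀ * (tupNum (k := k) (fun _ => True) d : ℝ) =
      ∑ a ∈ D, ψ a := by
    simp only [tupNum_eq, Finset.mul_sum, ← hD]
    rw [Finset.sum_comm, ← Finset.sum_sub_distrib]
    refine Finset.sum_congr rfl fun a _ => ?_
    simp only [hψ]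
    by_cases h : MinTup a d <;> simp [h]
  set φ : WeierstrassCurve k[X] → ℝ := fun a => if GoodQ T a then ψ a else 0 with hφ
  set Y := D.filter fun a => GoodT T β d a ∧ GoodN T a with hY
  set B := D.filter fun a => ¬ (GoodT T β d a ∧ GoodN T a ∧ GoodQ T a) with hB
  have e2 : ∑ a ∈ D, ψ a ≤ K * B.card + ∑ a ∈ Y, φ a := by
    rw [hY, hB, Finset.sum_filter, Finset.card_filter, Nat.cast_sum, Finset.mul_sum,
      ← Finset.sum_add_distrib]
    refine Finset.sum_le_sum fun a _ => ?_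
    have := hψK a
    by_cases h1 : GoodT T β d a <;> by_cases h2 : GoodN T a <;> by_cases h3 : GoodQ T a <;>
      simp [hφ, h1, h2, h3, this]
  have e3 : (B.card : ℝ) ≤ δ / 2 / K * (Fintype.card k : ℝ) ^ (16 * d) := by
    refine le_of_eq_of_le ?_ hb
    rw [← Set.ncard_coe_finset]
    congr 2
    ext a
    simp only [hB, Finset.coe_filter, memD]
  have memY : ∀ a, a ∈ Y ↔ DegLE a d ∧ GoodT T β d a ∧ GoodN T a := fun a => by
    rw [hY, Finset.mem_filter, memD]
  have e4 : ∑ a ∈ Y, φ a ≤ δ / 2 / (Fintype.card k : ℝ) ^ 5 * Y.card := by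
    refine avg Y (cell T β d) (shift T β) φ _ (fun a _ => ⟨0, zero_mem_cell T β d a⟩)
      (fun a ha t ht => ?_) fun a ha => ?_
    · obtain ⟨h1, h2, h3⟩ := (memY a).1 ha
      exact ⟨(memY _).2 ⟨degLE_shift hd h1 h2 ht, goodT_shift hd h1 h2 ht, h3⟩,
        cell_shift hd h1 h2 ht, shift_shift T β a t⟩
    obtain ⟨h1, h2, h3⟩ := (memY a).1 ha
    by_cases h : ∃ u ∈ cell T β d a, GoodQ T (shift T β a u) ∧
        HeightLE ((shift T β a u).baseChange (RatFunc k)) (d - 1)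
    · obtain ⟨u, hu, h4, h5⟩ := h
      refine le_of_eq_of_le (Finset.sum_eq_zero fun t ht => ?_) (by positivity)
      have h6 := height_shift (t := t - u) hd (degLE_shift hd h1 h2 hu) (goodT_shift hd h1 h2 hu) h4
        (by rw [cell_shift hd h1 h2 hu]; exact sub_mem_cell ht hu) h5
      rw [shift_sub] at h6
      have h7 : ¬ MinTup (shift T β a t) d := fun h8 => h8.2.2.2.elim hd0 fun h9 => h9 h6
      simp [hφ, hψ, h7]
    · refine le_of_eq_of_le ?_ (hc a h1 h2 h3)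
      rw [Finset.sum_filter]
      refine Finset.sum_congr rfl fun t ht => ?_
      simp only [hφ]
      split_ifs with h4
      · have h5 := goodT_shift hd h1 h2 ht
        have h6 : MinTup (shift T β a t) d := ⟨degLE_shift hd h1 h2 ht,
          fun h0 => h5.2.1 (by rw [h0, derivative_zero]), h5.1,
          Or.inr fun h7 => h ⟨t, ht, h4, h7⟩⟩
        have h8 : ∀ i, P' i ((shift T β a t).baseChange (RatFunc k)) ↔
            P i ((shift T β a t).baseChange (RatFunc k)) := fun i =>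
          ⟨fun ⟨C, h9⟩ => (hP i C _ h5.1 h5.2.1).1 h9, fun h9 => ⟨1, by rwa [one_smul]⟩⟩
        simp only [hψ, h6, if_true, h8]
      · rfl
  have e5 : (Y.card : ℝ) ≤ (Fintype.card k : ℝ) ^ 5 * (Fintype.card k : ℝ) ^ (16 * d) := by
    have h1 : Y.card ≤ D.card := Finset.card_filter_le _ _
    have h2 : D.card = Fintype.card k ^ (d + 2 * d + 3 * d + 4 * d + 6 * d + 5) := by
      rw [← card_Box, hD, ← Set.ncard_eq_toFinset_card _ (finite_degLE d)]
      rfl
    rw [← pow_add]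
    exact_mod_cast h1.trans (by rw [h2]; exact le_of_eq (by congr 1; omega))
  have e6 : K * (δ / 2 / K * (Fintype.card k : ℝ) ^ (16 * d)) =
      δ / 2 * (Fintype.card k : ℝ) ^ (16 * d) := by field_simp
  have e7 : δ / 2 / (Fintype.card k : ℝ) ^ 5 *
      ((Fintype.card k : ℝ) ^ 5 * (Fintype.card k : ℝ) ^ (16 * d)) =
      δ / 2 * (Fintype.card k : ℝ) ^ (16 * d) := by field_simp
  have e8 := mul_le_mul_of_nonneg_left e3 hK0.le
  have e9 := mul_le_mul_of_nonneg_left e5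
    (show 0 ≤ δ / 2 / (Fintype.card k : ℝ) ^ 5 by positivity)
  linarith

end Pool.Agent.Lib.MP_a3f657_nt.Two
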