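import Pool.Agent.Lib.MP_a3f657_nt.C2LkRec

/-!
Counting functions with prescribed poles.
-/

set_option linter.unusedSectionVars false

namespace Pool.Agent.Lib.MP_a3f657_nt.Two.Lk

open Polynomial HahnSeries Function

open scoped Classical

variable {k : Type} [Field k] [Fintype k] [CharP k 2] {M n : k[X]}

variable (k) in
/-- Pairs of degree at most `i`. -/
def Bx (i : ℤ) : AddSubgroup (RatFunc k × RatFunc k) where
  carrier := {x | Ge (eI x.1) (-i) ∧ Ge (eI x.2) (-i)}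
  add_mem' h h' := by
    simp only [Set.mem_ofPred_eq, Prod.fst_add, Prod.snd_add, map_add]
    exact ⟨h.1.add h'.1, h.2.add h'.2⟩
  zero_mem' := by simpa using Ge.zero _
  neg_mem' h := by
    simp only [Set.mem_ofPred_eq, Prod.fst_neg, Prod.snd_neg, map_neg]
    exact ⟨h.1.neg, h.2.neg⟩

/-- Functions with poles bounded by `D` on the affine curve, regular at the roots of `M`. -/
def Lam (D : Pr M n →₀ ℤ) : AddSubgroup (RatFunc k × RatFunc k) where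
  carrier := {x | x.1 ∈ OM M ∧ x.2 ∈ OM M ∧ ∀ Q, Ge (φ Q x) (-D (cls _ Q))}
  add_mem' h h' := ⟨add_mem h.1 h'.1, add_mem h.2.1 h'.2.1, fun Q => by
    rw [map_add]; exact (h.2.2 Q).add (h'.2.2 Q)⟩
  zero_mem' := ⟨zero_mem _, zero_mem _, fun Q => by rw [map_zero]; exact Ge.zero _⟩
  neg_mem' h := ⟨neg_mem h.1, neg_mem h.2.1, fun Q => by rw [map_neg]; exact (h.2.2 Q).neg⟩

/-- The bounded part. -/
noncomputable def V (D : Pr M n →₀ ℤ) (i : ℤ) : AddSubgroup (RatFunc k × RatFunc k) := Lam D ⊓ Bx k i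

/-- The vector of leading coefficients. -/
noncomputable def lv (i : ℤ) : RatFunc k × RatFunc k →+ k × k where
  toFun x := ((eI x.1).coeff (-i), (eI x.2).coeff (-i))
  map_zero' := by simp
  map_add' x y := by simp

variable {D : Pr M n →₀ ℤ} {i l : ℤ} {x : RatFunc k × RatFunc k}

lemma Bx_mono (h : x ∈ Bx k i) (hl : i ≤ l) : x ∈ Bx k l :=
  ⟨h.1.mono (by omega), h.2.mono (by omega)⟩

lemma mem_Bx_succ : x ∈ Bx k i ↔ x ∈ Bx k (i + 1) ∧ lv (i + 1) x = 0 :=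
  ⟨fun h => ⟨Bx_mono h (by omega), Prod.ext (h.1 _ (by omega)) (h.2 _ (by omega))⟩, fun h =>
    ⟨(h.1.1.succ (congrArg Prod.fst h.2)).mono (by omega),
      (h.1.2.succ (congrArg Prod.snd h.2)).mono (by omega)⟩⟩

lemma exists_Bx (x : RatFunc k × RatFunc k) : ∃ i, x ∈ Bx k i :=
  ⟨max (-(eI x.1).order) (-(eI x.2).order), (ge_order _).mono (by omega),
    (ge_order _).mono (by omega)⟩

lemma mon_Bx (h : x ∈ Bx k i) (hl : i ≤ l) (c : k) :
    ∃ g : k[X], ι g • x ∈ Bx k l ∧ lv l (ι g • x) = c • lv i x := by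
  obtain ⟨e, rfl⟩ := Int.le.dest hl
  have key : ∀ y, Ge (eI y) (-i) → Ge (eI (ι (monomial e c) * y)) (-(i + e)) ∧
      (eI (ι (monomial e c) * y)).coeff (-(i + e)) = c * (eI y).coeff (-i) := fun y hy => by
    rw [map_mul, eI_ι, EI_monomial, neg_add, add_comm, (ge_single _ _).coeff_mul hy]
    exact ⟨(ge_single _ _).mul hy, by simp⟩
  exact ⟨monomial e c, ⟨(key _ h.1).1, (key _ h.2).1⟩, Prod.ext (key _ h.1).2 (key _ h.2).2⟩

lemma smul_Lam (h : x ∈ Lam D) (g : k[X]) : ι g • x ∈ Lam D :=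
  ⟨mul_mem (ι_mem g) h.1, mul_mem (ι_mem g) h.2.1, fun Q => by
    rw [φ_smul]; exact (ge_ex_ι _ g).mul0 (h.2.2 Q)⟩

variable (M n) in
/-- Multiplication by `M θ`. -/
noncomputable def ym (x : RatFunc k × RatFunc k) : RatFunc k × RatFunc k :=
  (ι n * x.2, ι M * (x.1 + x.2))

lemma ym_Lam (hM : M ≠ 0) (h : x ∈ Lam D) : ym M n x ∈ Lam D := by
  refine ⟨mul_mem (ι_mem n) h.2.1, mul_mem (ι_mem M) (add_mem h.1 h.2.1), fun Q => ?_⟩
  convert ((ge_ex_ι Q.a M).mul0 (th_ge Q)).mul0 (h.2.2 Q) using 1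
  have h1 := th_eq Q
  rw [map_div₀, eq_div_iff ((_root_.map_ne_zero _).2 (ι_ne hM))] at h1
  simp only [φ_apply, ym, map_mul, map_add, ← h1]
  grind

lemma ym_Bx (h : x ∈ Bx k i) : ym M n x ∈ Bx k (i + (M.natDegree + n.natDegree : ℕ)) := by
  refine ⟨?_, ?_⟩ <;> simp only [ym, map_mul, map_add]
  · exact ((ge_eI_ι n).mul h.2).mono (by omega)
  · exact ((ge_eI_ι M).mul (h.1.add h.2)).mono (by omega)

lemma ym_ne (hW : NotWp M n) (hM : M ≠ 0) (hx : x ≠ 0) (g : RatFunc k) :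
    ym M n x - g • x ≠ 0 := fun h => by
  have h0 := ι_ne hM
  have h1 : ι n * x.2 - g * x.1 = 0 := congrArg Prod.fst h
  have h2 : ι M * (x.1 + x.2) - g * x.2 = 0 := congrArg Prod.snd h
  by_cases h3 : x.2 = 0
  · exact hx (Prod.ext (by simpa [h3, h0] using h2) h3)
  · refine hW (g / ι M) ?_
    change _ = ι n / ι M
    grind

lemma V_bot (D : Pr M n →₀ ℤ) : ∃ b, ∀ i, V D i ≠ ⊥ → b ≤ i := by
  obtain ⟨f, h0, -, h1⟩ := exists_f D
  refine ⟨-f.natDegree, fun i hi => by_contra fun h => hi (eq_bot_iff.2 fun x hx => ?_)⟩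
  have key : ∀ y, y ∈ OM M → (∀ Q : Pt M n, Ge (ex Q.a (ι f * y)) 0) → Ge (eI y) (-i) → y = 0 :=
    fun y h2 h3 h4 => by
    obtain ⟨g, hg⟩ := poly_of_ge (K := AlgebraicClosure k) (x := ι f * y) fun a => by
      by_cases ha : aeval a M = 0
      · exact mul_mem (ι_mem f) h2 a ha
      · obtain ⟨Q, rfl⟩ := exists_pt n ha
        exact h3 Q
    have h5 : g = 0 := eq_zero_of_eI (by
      rw [hg, map_mul]; exact ((ge_eI_ι f).mul h4).mono (by omega))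
    rw [h5, ι_zero] at hg
    exact (mul_eq_zero.1 hg.symm).resolve_left (ι_ne h0)
  have h2 : ∀ Q : Pt M n, Ge (φ Q (ι f • x)) 0 := fun Q => by
    rw [φ_smul]
    exact ((h1 Q).mul (hx.1.2.2 Q)).mono (by linarith [le_abs_self (D (cls _ Q))])
  exact Prod.ext (key _ hx.1.1 (fun Q => (ge_coord (h2 Q) (h2 _)).1) hx.2.1)
    (key _ hx.1.2.1 (fun Q => (ge_coord (h2 Q) (h2 _)).2) hx.2.2)

lemma mem_V_succ : x ∈ V D i ↔ x ∈ V D (i + 1) ∧ lv (i + 1) x = 0 := by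
  simp only [V, AddSubgroup.mem_inf, mem_Bx_succ (i := i), and_assoc]

lemma V_succ [Finite (V D i)] :
    Finite (V D (i + 1)) ∧ Nat.card (V D (i + 1)) ≤ Fintype.card k ^ 2 * Nat.card (V D i) := by
  simpa [sq] using card_le_mul (V D i) (V D (i + 1)) (lv (i + 1)) Finset.univ (by simp)
    fun x h1 h2 => mem_V_succ.2 ⟨h1, h2⟩

instance (D : Pr M n →₀ ℤ) (i : ℤ) : Finite (V D i) := by
  obtain ⟨b, hb⟩ := V_bot D
  have h1 : ∀ i, i < b → Finite (V D i) := fun i hi => by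
    rw [show V D i = ⊥ from by_contra fun h => by linarith [hb i h]]
    infer_instance
  by_cases hi : i < b
  · exact h1 i hi
  replace hi : b - 1 ≤ i := by omega
  induction i, hi using Int.leInduction with
  | base => exact h1 _ (by omega)
  | succ i _ ih => exact V_succ.1

lemma span_two {v w : k × k} (hv : v ≠ 0) (hw : ∀ c : k, w ≠ c • v) (z : k × k) :
    ∃ a b : k, z = a • v + b • w := by
  obtain ⟨v₁, v₂⟩ := v
  obtain ⟨w₁, w₂⟩ := w
  have h : v₁ * w₂ - v₂ * w₁ ≠ 0 := fun h => by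
    by_cases h1 : v₁ = 0
    · have h2 : v₂ ≠ 0 := fun h2 => hv (Prod.ext h1 h2)
      exact hw (w₂ / v₂) (Prod.ext (by simp only [Prod.smul_mk, smul_eq_mul]; grind)
        (by simp only [Prod.smul_mk, smul_eq_mul]; grind))
    · exact hw (w₁ / v₁) (Prod.ext (by simp only [Prod.smul_mk, smul_eq_mul]; grind)
        (by simp only [Prod.smul_mk, smul_eq_mul]; grind))
  refine ⟨(z.1 * w₂ - z.2 * w₁) / (v₁ * w₂ - v₂ * w₁), (v₁ * z.2 - v₂ * z.1) / (v₁ * w₂ - v₂ * w₁),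
    Prod.ext ?_ ?_⟩ <;> simp only [Prod.smul_mk, Prod.mk_add_mk, smul_eq_mul] <;> grind

lemma lv_surj (hW : NotWp M n) (hM : M ≠ 0) (hi : V D i ≠ ⊥)
    (hl : i + (M.natDegree + n.natDegree : ℕ) ≤ l) (z : k × k) : ∃ x ∈ V D l, lv l x = z := by
  obtain ⟨i₀, h1, h2⟩ := Int.exists_least_of_bdd (V_bot D) ⟨i, hi⟩
  obtain ⟨⟨x, hx⟩, h3⟩ := AddSubgroup.ne_bot_iff_exists_ne_zero.1 h1
  replace h3 : x ≠ 0 := fun h => h3 (Subtype.ext h)
  have low : ∀ y ∈ Lam D, y ≠ 0 → ∀ l, y ∈ Bx k l → i₀ ≤ l := fun y hy h0 l hl =>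
    h2 l (AddSubgroup.ne_bot_iff_exists_ne_zero.2 ⟨⟨y, hy, hl⟩, fun h => h0 (congrArg Subtype.val h)⟩)
  have h4 : ∀ g, ym M n x - ι g • x ∈ Lam D := fun g => sub_mem (ym_Lam hM hx.1) (smul_Lam hx.1 g)
  obtain ⟨i₁, ⟨g, h5⟩, h6⟩ := Int.exists_least_of_bdd (P := fun l => ∃ g, ym M n x - ι g • x ∈ Bx k l)
    ⟨i₀, fun l ⟨g, hg⟩ => low _ (h4 g) (ym_ne hW hM h3 _) l hg⟩
    ⟨_, 0, by simpa [ι_zero] using ym_Bx hx.2⟩
  have h7 := h6 _ ⟨0, by simpa [ι_zero] using ym_Bx hx.2⟩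
  have h8 := low _ (h4 g) (ym_ne hW hM h3 _) _ h5
  have h9 := h2 i hi
  obtain ⟨a, b, rfl⟩ := span_two (v := lv i₀ x) (w := lv i₁ (ym M n x - ι g • x)) (fun h => by
    have := low x hx.1 h3 (i₀ - 1) (mem_Bx_succ.2 (by simpa using ⟨hx.2, h⟩))
    omega) (fun c h => by
    obtain ⟨g', h10, h11⟩ := mon_Bx hx.2 h8 c
    have := h6 (i₁ - 1) ⟨g + g', mem_Bx_succ.2 (by
      rw [sub_add_cancel, ι_add, add_smul, ← sub_sub, map_sub, h, h11, sub_self]
      exact ⟨sub_mem h5 h10, rfl⟩)⟩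
    omega) z
  obtain ⟨g₁, h10, h11⟩ := mon_Bx hx.2 (l := l) (by omega) a
  obtain ⟨g₂, h12, h13⟩ := mon_Bx h5 (l := l) (by push_cast at h7 hl; omega) b
  exact ⟨_, add_mem ⟨smul_Lam hx.1 g₁, h10⟩ ⟨smul_Lam (h4 g) g₂, h12⟩, by rw [map_add, h11, h13]⟩

lemma V_stab (hW : NotWp M n) (hM : M ≠ 0) (hi : V D i ≠ ⊥)
    (hl : i + (M.natDegree + n.natDegree : ℕ) ≤ l) :
    Nat.card (V D (l + 1)) = Fintype.card k ^ 2 * Nat.card (V D l) := by
  rw [card_eq_ker_mul (V D l) (V D (l + 1)) (lv (l + 1)) fun x => mem_V_succ,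
    show (V D (l + 1)).map (lv (l + 1)) = ⊤ from eq_top_iff.2 fun z _ =>
      lv_surj hW hM hi (by omega) z]
  simp [sq]

lemma cover (hW : NotWp M n) (hM : M ≠ 0) (hi : V D i ≠ ⊥)
    (hl : i + (M.natDegree + n.natDegree : ℕ) ≤ l) (z : RatFunc k × RatFunc k) :
    ∃ y ∈ Lam D, z - y ∈ Bx k l := by
  obtain ⟨t, ht⟩ := exists_Bx z
  replace ht := Bx_mono ht (le_max_left t l)
  have h1 := le_max_right t l
  generalize max t l = s at ht h1
  induction s, h1 using Int.leInduction generalizing z with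
  | base => exact ⟨0, zero_mem _, by simpa using ht⟩
  | succ s hs ih =>
    obtain ⟨x, h2, h3⟩ := lv_surj hW hM hi (l := s + 1) (by omega) (lv (s + 1) z)
    obtain ⟨y, h4, h5⟩ := ih (z - x) (mem_Bx_succ.2 ⟨sub_mem ht h2.2, by rw [map_sub, h3, sub_self]⟩)
    exact ⟨x + y, add_mem h2.1 h4, by rwa [← sub_sub]⟩

lemma φ_iter (Q : Pt M n) (x : RatFunc k × RatFunc k) (l : ℤ) (i : ℕ) :
    (φ (fr^[i] Q) x).coeff l = (φ Q x).coeff l ^ Fintype.card k ^ i := by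
  induction i with
  | zero => simp
  | succ i ih => rw [iterate_succ_apply', φ_fr, coeff_lmap, ih, pow_succ, pow_mul]; rfl

lemma V_single (D : Pr M n →₀ ℤ) (P : Pr M n) (i : ℤ) :
    Nat.card (V (D + Finsupp.single P 1) i) ≤ Fintype.card k ^ odeg _ P * Nat.card (V D i) := by
  rw [← Rh.card_fixF (odeg_pos P)]
  refine (card_le_mul (V D i) (V (D + Finsupp.single P 1) i)
    ((HahnSeries.coeff.addMonoidHom (-(D P + 1))).comp (φ (rep _ P))) _
    (fun x _ => ?_) fun x hx h => ⟨⟨hx.1.1, hx.1.2.1, fun Q => ?_⟩, hx.2⟩).2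
  · rw [Rh.mem_fixF (odeg_pos P)]
    exact (φ_iter _ x _ _).symm.trans (by rw [iter_odeg]; rfl)
  · by_cases hQ : P = cls _ Q
    · have h1 := hx.1.2.2 (rep _ P)
      rw [cls_rep, Finsupp.add_apply, Finsupp.single_eq_same] at h1
      have h2 := (h1.succ h).mono (m := -D P) (by omega)
      rw [hQ] at h2
      exact inv_rep (g := fun Q' => Ge (φ Q' x) (-D (cls _ Q)))
        (fun Q' => by rw [φ_fr]; exact propext (ge_lmap _)) Q ▸ h2
    · simpa [hQ] using hx.1.2.2 Q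

lemma ge_mul_iff {K : Type} [Field K] {y z : LaurentSeries K} (hy : y ≠ 0) {l : ℤ} :
    Ge (y * z) l ↔ Ge z (l - y.order) := by
  by_cases hz : z = 0
  · simp [hz, Ge.zero]
  · rw [ge_iff (mul_ne_zero hy hz), ge_iff hz, order_mul hy hz]; omega

lemma aeval_ne {f : k[X]} (hf : IsCoprime f M) {a : AlgebraicClosure k} (ha : aeval a M = 0) :
    aeval a f ≠ 0 := (aeval_ne_zero_of_isCoprime hf a).resolve_right (not_not.2 ha)

lemma V_shift (hW : NotWp M n) (P : Pr M n) : ∃ (E : Pr M n →₀ ℤ) (e : ℤ),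
    Finsupp.single P 1 ≤ E ∧ degZ (odeg _) E = 2 * e ∧
      ∀ D i, Nat.card (V (D + E) i) = Nat.card (V D (i + e)) := by
  have h0 := ι_ne (nP_monic P).ne_zero
  have h1 : ((ι (nP P), 0) : RatFunc k × RatFunc k) ≠ 0 := fun h => h0 (congrArg Prod.fst h)
  have h2 : ∀ Q : Pt M n, dv hW (ι (nP P), 0) (cls _ Q) = (ex Q.a (ι (nP P))).order := fun Q => by
    rw [dv_cls, φ_apply]; simp
  have h3 : Nm M n (ι (nP P), 0) = ι (nP P ^ 2) := by simp [Nm]
  refine ⟨dv hW (ι (nP P), 0), odeg _ P, fun P' => ?_, ?_, fun D i => ?_⟩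
  · rw [← cls_rep P', h2, ← ge_iff ((_root_.map_ne_zero _).2 h0)]
    by_cases h : P = cls _ (rep _ P')
    · rw [← h, Finsupp.single_eq_same]
      refine ge_ex_root ?_
      rw [← eval_map_algebraMap, nP_map, eval_prod]
      exact Finset.prod_eq_zero (mem_orb.2 h.symm) (by simp)
    · rw [Finsupp.single_eq_of_ne' h]
      exact ge_ex_ι _ _
  · rw [deg_dv hW h1 fun a ha => h3 ▸ order_ex_unit (aeval_ne (nP_cop P).pow_left ha), h3,
      order_eI_ι (pow_ne_zero 2 (nP_monic P).ne_zero), natDegree_pow, nP_deg]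
    simp
  · refine Nat.card_congr ((MulAction.toPerm (Units.mk0 _ h0)).subtypeEquiv fun x => ?_)
    change _ ↔ ι (nP P) • x ∈ V D (i + odeg _ P)
    have o : ∀ y, y ∈ OM M ↔ ι (nP P) * y ∈ OM M := fun y =>
      forall₂_congr fun a ha => by
        rw [map_mul, ge_mul_iff ((_root_.map_ne_zero _).2 h0),
          order_ex_unit (aeval_ne (nP_cop P) ha), sub_zero]
    have b : ∀ y, Ge (eI y) (-i) ↔ Ge (eI (ι (nP P) * y)) (-(i + odeg _ P)) := fun y => by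
      rw [map_mul, ge_mul_iff ((_root_.map_ne_zero _).2 h0), order_eI_ι (nP_monic P).ne_zero,
        nP_deg]
      congr! 1
      ring
    refine and_congr (and_congr (o _) (and_congr (o _) (forall_congr' fun Q => ?_)))
      (and_congr (b _) (b _))
    rw [φ_smul, ge_mul_iff ((_root_.map_ne_zero _).2 h0), Finsupp.add_apply, h2, neg_add']

lemma poly_mem {f : k[X]} (h : ∀ Q : Pt M n, Ge (ex Q.a (ι f)) (-D (cls _ Q))) :
    (ι f, 0) ∈ V D f.natDegree :=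
  ⟨⟨ι_mem f, zero_mem _, fun Q => by simpa [φ_apply] using h Q⟩, ge_eI_ι f, by simpa using Ge.zero _⟩

lemma one_lt_V {f : k[X]} (h0 : f ≠ 0) (h : ∀ Q : Pt M n, Ge (ex Q.a (ι f)) (-D (cls _ Q))) :
    1 < Nat.card (V D f.natDegree) :=
  (AddSubgroup.one_lt_card_iff_ne_bot _).2 (AddSubgroup.ne_bot_iff_exists_ne_zero.2
    ⟨⟨_, poly_mem h⟩, fun e => ι_ne h0 (congrArg (·.1.1) e)⟩)

lemma exists_base (hW : NotWp M n) (hM : M ≠ 0) (hi : V D i ≠ ⊥)
    (hl : i + (M.natDegree + n.natDegree : ℕ) ≤ l) :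
    ∃ a b, a ∈ OM M ∧ b ∈ OM M ∧ (a, b) ∈ Bx k l ∧ (1 + ι M ^ 4 * a, ι M ^ 4 * b) ∈ Lam D := by
  obtain ⟨f, -, h1, h2⟩ := exists_f D
  obtain ⟨α, u, h3⟩ := h1.pow_right (n := 4)
  obtain ⟨⟨a, b⟩, h4, h5⟩ := cover hW hM hi hl (-ι u, 0)
  refine ⟨-ι u - a, 0 - b, sub_mem (neg_mem (ι_mem u)) h4.1, sub_mem (zero_mem _) h4.2.1, h5, ?_⟩
  have h6 : (ι (α * f), 0) - ι (M ^ 4) • (a, b) ∈ Lam D := sub_mem (poly_mem fun Q => by
    rw [ι_mul, map_mul]
    exact ((ge_ex_ι _ α).mul0 (h2 Q)).mono (neg_le_abs _)).1 (smul_Lam h4 (M ^ 4))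
  have := congrArg ι h3
  rw [ι_add, ι_mul u, ι_pow, ι_one] at this
  convert h6 using 1
  ext <;> simp [← this]
  ring

lemma card_one (hW : NotWp M n) (hM : M ≠ 0) {j : ℤ} (hj : 1 + 4 * M.natDegree + n.natDegree ≤ j)
    (hi : V D i ≠ ⊥) (hl : i + (M.natDegree + n.natDegree : ℕ) ≤ -j) :
    Nat.card {x : {x // One M j x} | 0 ≤ D + dv hW x.1} = Nat.card (V D (-j)) := by
  obtain ⟨a, b, h1, h2, h3, h4⟩ := exists_base hW hM hi hl
  have h0 := pow_ne_zero 4 (ι_ne hM)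
  set e := (1 + ι M ^ 4 * a, ι M ^ 4 * b) with he
  have e1 : ∀ v : RatFunc k × RatFunc k, e + ι M ^ 4 • v =
      (1 + ι M ^ 4 * (a + v.1), ι M ^ 4 * (b + v.2)) := fun v => by
    ext <;> simp [he] <;> ring
  have e2 : ∀ v ∈ V D (-j), One M j (e + ι M ^ 4 • v) := fun v hv =>
    ⟨_, _, add_mem h1 hv.1.1, add_mem h2 hv.1.2.1, by simpa using (add_mem h3 hv.2).1,
      by simpa using (add_mem h3 hv.2).2, e1 v⟩
  refine (Nat.card_congr (Equiv.ofBijective (fun v => ⟨⟨_, e2 v.1 v.2⟩,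
    (dv_le hW ((e2 v.1 v.2).ne hM hj)).2 (add_mem h4 (ι_pow M 4 ▸ smul_Lam v.2.1 _)).2.2⟩)
    ⟨fun v v' h => ?_, ?_⟩)).symm
  · exact Subtype.ext (smul_right_injective _ h0 (add_left_cancel (congrArg (·.1.1) h)))
  · rintro ⟨⟨x, hx⟩, h⟩
    have h7 := (dv_le hW (hx.ne hM hj)).1 h
    obtain ⟨a', b', ha, hb, ha', hb', rfl⟩ := hx
    have e3 : e + ι M ^ 4 • (a' - a, b' - b) = (1 + ι M ^ 4 * a', ι M ^ 4 * b') := by
      rw [e1, add_sub_cancel, add_sub_cancel]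
    have h5 := sub_mem (show (a', b') ∈ Bx k (-j) from ⟨by simpa using ha', by simpa using hb'⟩) h3
    rw [Prod.mk_sub_mk] at h5
    refine ⟨⟨(a' - a, b' - b), ⟨sub_mem ha h1, sub_mem hb h2, fun Q => ?_⟩, h5⟩,
      Subtype.ext (Subtype.ext e3)⟩
    have h8 := (h7 Q).sub (h4.2.2 Q)
    rwa [← e3, map_add, add_sub_cancel_left, φ_smul, ge_mul_iff ((_root_.map_ne_zero _).2 h0),
      ← ι_pow, order_ex_unit (g := M ^ 4) (by simpa using Q.hM), sub_zero] at h8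

lemma exists_card (hW : NotWp M n) (hM : M ≠ 0) {j : ℕ}
    (hj : 1 + 4 * M.natDegree + n.natDegree ≤ j) {m : ℕ}
    (hm : 4 * (M.natDegree + n.natDegree) + 2 * j < m) : ∃ h : ℕ, h ≠ 0 ∧
      ∀ D : Pr M n →₀ ℤ, degZ (odeg _) D = m →
        Nat.card {x : {x // One M j x} | 0 ≤ D + dv hW x.1} = h := by
  have ne : ∀ (D : Pr M n →₀ ℤ) (i : ℤ), (1 : ℝ) < Nat.card (V D i) ↔ V D i ≠ ⊥ := fun D i => by
    rw [← AddSubgroup.one_lt_card_iff_ne_bot, Nat.one_lt_cast]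
  obtain ⟨c, hc⟩ := rr (odeg (fr_per M n)) (fun D i => Nat.card (V D i))
    (q := Fintype.card k) (by exact_mod_cast Fintype.one_lt_card) (M.natDegree + n.natDegree)
    (fun D i => by exact_mod_cast Nat.card_pos) (fun D i => by exact_mod_cast V_succ.2)
    (fun D i l h1 h2 => by exact_mod_cast V_stab hW hM ((ne D i).1 h1) h2)
    (fun D => by
      obtain ⟨f, h0, -, h1⟩ := exists_f D
      exact ⟨_, by exact_mod_cast one_lt_V h0 fun Q => (h1 Q).mono (neg_le_abs _)⟩)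
    (fun D P i => by exact_mod_cast V_single D P i)
    (fun P => by
      obtain ⟨E, e, h1, h2, h3⟩ := V_shift hW P
      exact ⟨E, e, h1, h2, fun D i => by exact_mod_cast h3 D i⟩)
    (by simpa using one_lt_V (D := 0) (one_ne_zero (α := k[X])) fun Q : Pt M n => ge_ex_ι _ _)
  refine ⟨max 1 ⌊c * (Fintype.card k : ℝ) ^ (2 * (-j : ℤ) + m)⌋₊, by omega, fun D hD => ?_⟩
  obtain ⟨h1, h2⟩ := hc D (-j - (M.natDegree + n.natDegree : ℕ)) (by omega)
  rw [card_one hW hM (by omega) ((ne _ _).1 h1) (by omega), ← hD, ← h2 _ (by omega),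
    Nat.floor_natCast, max_eq_right Nat.card_pos]

end Pool.Agent.Lib.MP_a3f657_nt.Two.Lk
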