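import Pool.Agent.Lib.MP_a3f657_nt.C2LkSgn
import Pool.Agent.Lib.MP_a3f657_nt.C2LkRR

/-!
Prime sums on the curve `θ ^ 2 + θ = n₁ / M`.
-/

set_option linter.unusedSectionVars false

namespace Pool.Agent.Lib.MP_a3f657_nt.Two

namespace Lk

open Polynomial Function

open scoped Classical

variable {k : Type} [Field k] [Fintype k] [CharP k 2] {M n : k[X]} (n₂ : k[X]) {K : ℕ}
  (χ : MulChar (RM M K) ℂ)

/-- The character on primes of the curve. -/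
noncomputable def Psi (P : Pr M n) : ℂ := χ (clM M K (nP P)) * sg (odeg _ P) (β n₂ (rep _ P))

/-- The summand of the character sum. -/
noncomputable def term (m : ℕ) (a b : AlgebraicClosure k) : ℂ :=
  chiN ((AdjoinRoot.root M, 1) : RM M K) (1, AdjoinRoot.root (X ^ K)) χ m a * sg m b

lemma Psi_ne (hM : M ≠ 0) (P : Pr M n) : Psi n₂ χ P ≠ 0 :=
  mul_ne_zero (chi_ne χ hM P) (by rw [← norm_ne_zero_iff, Rh.norm_sg]; exact one_ne_zero)

lemma sg_pow {m : ℕ} (hm : 0 < m) {b : AlgebraicClosure k} (hb : b ∈ fixF k m) (i : ℕ) :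
    sg m (b ^ Fintype.card k ^ i) = sg m b := by
  obtain ⟨u, a, h1, h2⟩ := Lp.exists_as hm hb
  rw [Rh.sg_eq hm h1 h2]
  refine Rh.sg_eq hm (u := u ^ Fintype.card k ^ i) ?_ ?_
  · rw [← h1, Lp.pow_q_add, ← pow_mul, ← pow_mul, mul_comm]
  · rw [← pow_mul, mul_comm, pow_mul, h2, Lp.pow_q_add, Lp.pow_q_cz]

lemma term_eq {m : ℕ} (hm : 0 < m) {Q : Pt M n} (h : fr^[m] Q = Q) :
    term χ m Q.a (β n₂ Q) = Psi n₂ χ (cls _ Q) ^ (m / odeg _ (cls (fr_per M n) Q)) := by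
  obtain ⟨i, hi⟩ := exists_iter (hf := fr_per M n) Q
  obtain ⟨t, rfl⟩ := (odeg_dvd (hf := fr_per M n)).2 h
  generalize cls (fr_per M n) Q = P at *
  have h0 := odeg_pos P
  have h1 := β_mem n₂ h0 (iter_odeg P)
  obtain ⟨e, he⟩ := (Lp.mem_fixF_iff_dvd h0).1 (rep_fix P).1
  have h2 := Lp.natDegree_minpoly_pos (rep _ P).a
  rw [← hi, β_fr, (fr_iter i _).1, term, chiN, ← Rh.frob_pow_apply, minpoly.algHom_eq _
    (RingHom.injective _), sg_pow hm (β_mem n₂ hm ((odeg_dvd (hf := fr_per M n)).1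
      (by rw [cls_rep]; exact dvd_mul_right _ _))),
    Lp.sg_mul_deg h0 (Nat.pos_of_mul_pos_left hm) h1, Nat.mul_div_cancel_left _ h0, Psi, mul_pow,
    nP, ← Lp.cl_eq_clM, Lp.cl_eq_clM, Lp.cl_eq_clM, chi_pow, ← pow_mul, he,
    Nat.mul_div_cancel_left _ h2, mul_assoc, Nat.mul_div_cancel_left _ h2]

lemma sumK_eq {m : ℕ} (hm : 0 < m) : {P : Pr M n | odeg _ P ∣ m}.Finite ∧
    sumK ((AdjoinRoot.root M, 1) : RM M K) (1, AdjoinRoot.root (X ^ K)) χ M n n₂ m =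
      ∑ᶠ P ∈ {P : Pr M n | odeg _ P ∣ m}, (odeg _ P : ℂ) * Psi n₂ χ P ^ (m / odeg _ P) := by
  have inj : Injective fun Q : Pt M n => (Q.a, Q.t) := fun Q Q' h =>
    Pt.ext' (congrArg Prod.fst h) (congrArg Prod.snd h)
  rw [sumK, ← Finset.sum_preimage _ _ inj.injOn _ fun x hx h => by
    simp only [Finset.mem_filter] at hx
    exact absurd ⟨⟨x.1, x.2, hx.2.1, hx.2.2⟩, rfl⟩ h]
  set T := Finset.preimage _ _ inj.injOn with hT
  have h1 : ∀ Q, Q ∈ T ↔ fr^[m] Q = Q := fun Q => by simp [hT, fr_fix hm, Q.hM, Q.ht]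
  exact (sum_fix (hf := fr_per M n) m T h1 fun P => Psi n₂ χ P ^ (m / odeg _ P)).imp_right
    (Finset.sum_congr rfl fun Q hQ => term_eq n₂ χ hm ((h1 Q).1 hQ)).trans

lemma exists_δ (hM : M ≠ 0) (h : ∃ p, GoodP M p ∧ sgP p M n = 1 ∧ sgP p M n₂ = -1) :
    ∃ δ : Pr M n →₀ ℤ, degZ (odeg _) δ = 0 ∧ psiZ (Psi n₂ χ) δ = -1 := by
  obtain ⟨p, h1, h2, h3⟩ := h
  obtain ⟨a, rfl⟩ := Lp.exists_minpoly_eq h1.1 h1.2.1
  have ha := Lp.goodP_minpoly.1 h1
  obtain ⟨z, hz⟩ : ∃ z : k[X], minpoly k a ∣ M * (z ^ 2 + z) + n := by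
    by_contra h
    rw [sgP, if_neg h] at h2
    norm_num at h2
  have h0 := Lp.natDegree_minpoly_pos a
  have h4 := Lp.mem_fixF_self a
  let Q : Pt M n := ⟨a, aeval a z, ha, (Lp.dvd_quad_iff ha).1 hz⟩
  have key : ∀ Q : Pt M n, Q.a = a → fr^[(minpoly k a).natDegree] Q = Q →
      odeg _ (cls (fr_per M n) Q) = (minpoly k a).natDegree ∧
      Psi n₂ χ (cls _ Q) = term χ (minpoly k a).natDegree a (β n₂ Q) := fun Q h5 h6 => by
    have h7 : odeg _ (cls (fr_per M n) Q) = (minpoly k a).natDegree :=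
      Nat.dvd_antisymm (odeg_dvd.2 h6) ((Lp.mem_fixF_iff_dvd (odeg_pos _)).1
        (h5 ▸ ((fr_fix (odeg_pos _)).1 (odeg_dvd.1 dvd_rfl)).1))
    exact ⟨h7, by rw [← h5, term_eq n₂ χ (h5 ▸ h0) (h5 ▸ h6), h5, h7, Nat.div_self h0, pow_one]⟩
  have h5 : fr^[(minpoly k a).natDegree] Q = Q := (fr_fix h0).2 ⟨h4, Lp.aeval_mem_fixF h0 h4 z⟩
  obtain ⟨h6, h7⟩ := key Q rfl h5
  obtain ⟨h8, h9⟩ := key (cj Q) rfl ((fr_fix h0).2 ⟨h4, by
    simpa [cj, Q] using Lp.aeval_mem_fixF h0 h4 (z + 1)⟩)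
  refine ⟨Finsupp.single (cls _ (cj Q)) 1 + Finsupp.single (cls _ Q) (-1), ?_, ?_⟩
  · rw [map_add, degZ_single, degZ_single, h6, h8]; ring
  · rw [psiZ_add (Psi_ne n₂ χ hM), psiZ_single, psiZ_single, zpow_one, zpow_neg_one,
      mul_inv_eq_iff_eq_mul₀ (Psi_ne n₂ χ hM _), h7, h9,
      show β n₂ (cj Q) = β n₂ Q + aeval a n₂ / aeval a M by simp only [β, cj, Q]; ring, term, term,
      Lp.sg_add h0 (β_mem n₂ h0 h5) (Lp.div_mem_fixF h0 (Lp.aeval_mem_fixF h0 h4 _)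
        (Lp.aeval_mem_fixF h0 h4 _)), ← Lp.sgP_eq_sg n₂ ha, h3]
    ring

lemma exists_γ (hE : Euler) (hM : M ≠ 0) (hW : NotWp M n)
    (h : ∃ p, GoodP M p ∧ sgP p M n = 1 ∧ sgP p M n₂ = -1) : ∃ γ : Multiset ℂ,
    γ.card ≤ 12 * (M.natDegree + K + n.natDegree + n₂.natDegree + 1) ∧ ∀ m, 1 ≤ m →
      sumK ((AdjoinRoot.root M, 1) : RM M K) (1, AdjoinRoot.root (X ^ K)) χ M n n₂ m =
        -(γ.map (· ^ m)).sum := by
  obtain ⟨δ, h1, h2⟩ := exists_δ n₂ χ hM h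
  refine (hE (Pr M n) (odeg _) (Psi n₂ χ) _ odeg_pos (fun m => ?_) fun m hm => ?_).imp
    fun γ h3 => ⟨h3.1, fun m hm => (sumK_eq n₂ χ hm).2.trans (h3.2 m hm)⟩
  · rcases m.eq_zero_or_pos with rfl | hm
    · exact Set.finite_empty.subset fun P hP => (odeg_pos P).ne' hP
    · exact (sumK_eq n₂ χ hm).1.subset fun P hP => dvd_of_eq hP
  set j := K + 1 + 4 * M.natDegree + n.natDegree + n₂.natDegree with hj
  obtain ⟨c, h5, h6⟩ := exists_card hW hM (j := j) (m := m) (by omega) (by omega)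
  have hj' : (1 + 4 * M.natDegree + n.natDegree : ℤ) ≤ j := by omega
  refine vanish (odeg _) (Psi_ne n₂ χ hM) m (fun x : {x // One M j x} => dv hW x.1)
    (fun x => ⟨_, x.2.iv hM hj'⟩) (fun x => Subtype.ext (iv_iv (x.2.Nm_ne hM hj')))
    (fun x => dv_iv hW (x.2.ne hM hj')) (fun x => x.2.deg hW hM hj') (fun x => ?_) h5 h6 δ h1 h2
  simp only [psiZ, Finsupp.prod, Psi, mul_zpow, Finset.prod_mul_distrib]
  rw [x.2.chi χ hW hM (by omega), x.2.sign n₂ hW hM (by omega), mul_one]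

lemma sum_term {a : AlgebraicClosure k} (ha : aeval a M ≠ 0) :
    ∑ t ∈ (fixF k (minpoly k a).natDegree).filter (fun t => t ^ 2 + t = aeval a n / aeval a M),
      term χ (minpoly k a).natDegree a (t * (aeval a n₂ / aeval a M)) =
      χ (clM M K (minpoly k a)) * gK M n n₂ (minpoly k a) := by
  have h0 := Lp.natDegree_minpoly_pos a
  simp only [term, chiN, Nat.div_self h0, pow_one, Lp.cl_eq_clM, ← Finset.mul_sum]
  rw [gK, ← finsum_mem_coe_finset]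
  congr 1
  refine (finsum_mem_eq_of_bijOn (aeval a) ⟨fun c hc => ?_, fun c hc c' hc' h => ?_,
    fun t ht => ?_⟩ fun c _ => ?_).symm
  · exact Finset.mem_filter.2 ⟨Lp.aeval_mem_fixF h0 (Lp.mem_fixF_self a) c,
      (Lp.dvd_quad_iff ha).1 hc.2⟩
  · exact sub_eq_zero.1 (eq_zero_of_dvd_of_degree_lt (minpoly.dvd k a (by rw [map_sub, h, sub_self]))
      ((degree_sub_le _ _).trans_lt (max_lt hc.1 hc'.1)))
  · obtain ⟨h1, h2⟩ := Finset.mem_filter.1 ht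
    obtain ⟨z, rfl⟩ := Lp.exists_aeval_eq h1
    have h3 := aeval_modByMonic_eq_self_of_root (p := z) (minpoly.aeval k a)
    exact ⟨z %ₘ minpoly k a, ⟨degree_modByMonic_lt _ (Lp.monic_minpoly a),
      (Lp.dvd_quad_iff ha).2 (by rw [h3, h2])⟩, h3⟩
  · rw [Lp.sgP_eq_sg _ ha, map_mul, mul_div_assoc]

lemma norm_sumK_sub (hM : M ≠ 0) {m : ℕ} (hm : 0 < m) :
    ‖sumK ((AdjoinRoot.root M, 1) : RM M K) (1, AdjoinRoot.root (X ^ K)) χ M n n₂ m -
      PS M (fun p => χ (clM M K p) * gK M n n₂ p) m‖ ≤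
      2 * (Fintype.card k * √(Fintype.card k) ^ m) := by
  have := Lp.finite_RM hM K
  convert Lp.norm_sum_sub_PS M hm (fun p => χ (clM M K p) * gK M n n₂ p)
    (fun a => ∑ t ∈ (fixF k m).filter (fun t => t ^ 2 + t = aeval a n / aeval a M),
      term χ m a (t * (aeval a n₂ / aeval a M))) 2 (fun a => ?_) (fun a ha h => ?_) using 3
  · simp only [sumK, Finset.sum_filter, Finset.sum_product, ite_and, term]
    refine Finset.sum_congr rfl fun a _ => ?_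
    split_ifs <;> simp
  · refine (norm_sum_le _ _).trans ((Finset.sum_le_card_nsmul _ _ 1 fun t _ =>
      Rh.norm_term_le _ _ χ m _ _).trans ?_)
    rw [nsmul_eq_mul, mul_one]
    exact Nat.cast_le_ofNat.2 (Rh.card_quad_le _ _ fun t ht => (Finset.mem_filter.1 ht).2)
  · rw [← h, sum_term n₂ χ ha]
  · infer_instance

end Lk

theorem primeK (hE : Euler) (hR : RhK) : PrimeK := by
  intro k _ _ _
  refine ⟨12 + 2 * Fintype.card k, fun M n n₂ K χ hM hW h m hm => ?_⟩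
  obtain ⟨γ, h1, h2⟩ := Lk.exists_γ n₂ χ hE hM hW h
  have := Lp.finite_RM hM K
  have h3 := hR k _ _ _ χ M n n₂ hM (fun p h4 h5 h6 => by
    rw [Lp.cl_eq_clM]; exact Lp.isUnit_clM K h4 (Lp.GoodP.isCoprime ⟨h4, h5, h6⟩)) γ h2
  have h4 := Lk.norm_sumK_sub (n := n) n₂ χ hM hm
  have h5 : ‖(γ.map (· ^ m)).sum‖ ≤ γ.card * √(Fintype.card k) ^ m := by
    refine (norm_multiset_sum_le _).trans ((Multiset.sum_le_card_nsmul _ (√(Fintype.card k) ^ m)
      fun x hx => ?_).trans (by simp))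
    simp only [Multiset.map_map, Multiset.mem_map, Function.comp_apply, norm_pow] at hx
    obtain ⟨z, hz, rfl⟩ := hx
    exact pow_le_pow_left₀ (norm_nonneg _) (h3 z hz) m
  rw [h2 m hm, ← neg_add', norm_neg] at h4
  have h6 := norm_sub_le_of_le h4 h5
  rw [add_sub_cancel_left] at h6
  have h7 : (γ.card : ℝ) ≤ 12 * (M.natDegree + K + n.natDegree + n₂.natDegree + 1) := by
    exact_mod_cast h1
  have h8 : (1 : ℝ) ≤ M.natDegree + K + n.natDegree + n₂.natDegree + 1 :=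
    le_add_of_nonneg_left (by positivity)
  refine h6.trans ?_
  rw [← mul_assoc, ← add_mul]
  gcongr
  nlinarith [Nat.cast_nonneg (α := ℝ) (Fintype.card k)]

end Pool.Agent.Lib.MP_a3f657_nt.Two
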