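import Pool.Agent.Lib.MP_a3f657_nt.C2LpPrime

/-!
A function that is an Artin-Schreier value at almost all primes is a global one.
-/

namespace Pool.Agent.Lib.MP_a3f657_nt.Two

namespace Lp

open Polynomial Rh

open scoped Classical

theorem SS_add_mul {K : Type} [Field K] [IsAlgClosed K] {M n g h r : K[X]} (hM : M ≠ 0)
    (hg : g.Monic) (h1 : M ∣ g - 1) (h2 : M ∣ n * derivative M * h - r)
    (hr : (X * r).natDegree ≤ M.natDegree)
    (hd : M.natDegree + h.natDegree + n.natDegree < g.natDegree) (c : K) :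
    SS M n (g + C c * (M * h)) = SS M n g + c * (-(X * r).coeff M.natDegree / M.leadingCoeff) := by
  have h3 : (C c * (M * h)).natDegree + n.natDegree < g.natDegree := by
    have := natDegree_C_mul_le c (M * h)
    have := natDegree_mul_le (p := M) (q := h)
    omega
  have h4 := natDegree_add_eq_left_of_natDegree_lt (p := g) (q := C c * (M * h)) (by omega)
  obtain ⟨y, hy⟩ := h1
  obtain ⟨z, hz⟩ := h2
  have h5 := SS_sub (M := M) (n := n) (r := C c * r) hM
    (hg.add_of_left (q := C c * (M * h)) (degree_lt_degree (by omega))) hg h4.symm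
    (isCoprime_of_dvd_sub_one ⟨y + C c * h, by linear_combination hy⟩)
    (isCoprime_of_dvd_sub_one ⟨y, hy⟩)
    (by rw [mul_left_comm]; exact (natDegree_C_mul_le _ _).trans hr)
    ⟨C c * (g * z + n * (derivative h * g - derivative g * h) - g * r * (y + C c * h)), by
      simp only [derivative_add, derivative_mul, derivative_C]
      linear_combination C c * g * hz - C c * g * r * hy⟩
    (by rwa [add_sub_cancel_left, h4])
  rw [mul_left_comm, coeff_C_mul] at h5
  have := leadingCoeff_ne_zero.2 hM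
  field_simp
  linear_combination h5

variable {k : Type} [Field k] [Fintype k] [CharP k 2]

/-- `n / M` is an Artin-Schreier value away from the roots of `M₀`. -/
def Hyp (M₀ M n : k[X]) : Prop :=
  ∃ u : AlgebraicClosure k → AlgebraicClosure k,
    (∀ m a, u (a ^ Fintype.card k ^ m) = u a ^ Fintype.card k ^ m) ∧
    ∀ a, aeval a M₀ ≠ 0 → aeval a M ≠ 0 ∧ u a ^ 2 + u a = aeval a n / aeval a M

variable {M₀ M n : k[X]}

theorem Hyp.exists_as (H : Hyp M₀ M n) {f : (AlgebraicClosure k)[X]} {m : ℕ}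
    (hf : f.map (FiniteField.frobeniusAlgHom k (AlgebraicClosure k) ^ m).toRingHom = f)
    (h0 : ∀ a, aeval a M₀ = 0 → eval a f ≠ 0) :
    ∃ U, U ^ Fintype.card k ^ m = U ∧
      U ^ 2 + U = SS (M.map (algebraMap k _)) (n.map (algebraMap k _)) f := by
  obtain ⟨u, h1, h2⟩ := H
  refine ⟨_, sum_roots_pow hf u (h1 m), ?_⟩
  rw [CharTwo.multiset_sum_sq, Multiset.map_map, ← Multiset.sum_map_add, SS]
  refine congrArg _ (Multiset.map_congr rfl fun a ha => ?_)
  rw [eval_map_algebraMap, eval_map_algebraMap]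
  exact (h2 a fun h => h0 a h (mem_roots'.1 ha).2).2

theorem Hyp.linear (H : Hyp M₀ M n) (hM₀ : M₀ ≠ 0) {g h : k[X]} {l : k}
    (hgh : ∀ a : AlgebraicClosure k, aeval a M₀ = 0 → aeval a h = 0 → aeval a g ≠ 0)
    (hl : ∀ c : AlgebraicClosure k, SS (M.map (algebraMap k _)) (n.map (algebraMap k _))
      (g.map (algebraMap k _) + C c * h.map (algebraMap k _)) =
        Sk M n g + c * algebraMap k _ l) : l = 0 := by
  by_contra h0
  have hl0 : algebraMap k (AlgebraicClosure k) l ≠ 0 := by simpa using h0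
  have hB : (⋃ a ∈ M₀.rootSet (AlgebraicClosure k), {x : AlgebraicClosure k |
      x ^ 2 + x = Sk M n g + -aeval a g / aeval a h * algebraMap k _ l}).Finite :=
    (M₀.rootSet_finite _).biUnion fun a _ => by
      by_contra h
      obtain ⟨s, hs, hs'⟩ := Set.Infinite.exists_subset_card_eq h 3
      have := card_quad_le _ s fun x hx => hs hx
      omega
  set m := hB.toFinset.card + 1 with hm
  have hm0 : 0 < m := Nat.succ_pos _
  have hq : m < Fintype.card k ^ m := Nat.lt_pow_self Fintype.one_lt_card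
  obtain ⟨x₀, hx₀⟩ := IsAlgClosed.exists_root
    (X ^ Fintype.card k ^ m - (X + C 1) : (AlgebraicClosure k)[X]) (by
      rw [degree_sub_eq_left_of_degree_lt (by
        rw [degree_X_add_C, degree_X_pow]
        exact_mod_cast (by omega)), degree_X_pow]
      exact_mod_cast (by omega))
  simp only [IsRoot, eval_sub, eval_pow, eval_add, eval_X, eval_C, sub_eq_zero] at hx₀
  obtain ⟨x, hx, hxB⟩ := Finset.exists_mem_notMem_of_card_lt_card (s := hB.toFinset)
    (t := (fixF k m).image (x₀ + ·)) (by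
      rw [Finset.card_image_of_injective _ (add_right_injective x₀), card_fixF hm0]
      omega)
  obtain ⟨z, hz, hxz⟩ := Finset.mem_image.1 hx
  have hx1 : x ^ Fintype.card k ^ m = x + cz _ 1 := by
    rw [← hxz, pow_q_add, hx₀, (mem_fixF hm0).1 hz, cz_one]
    ring
  have h2 : (2 : AlgebraicClosure k) = 0 := CharTwo.two_eq_zero
  obtain ⟨c, hc⟩ : ∃ c, x ^ 2 + x = Sk M n g + c * algebraMap k _ l :=
    ⟨(x ^ 2 + x - Sk M n g) / algebraMap k _ l, by field_simp; ring⟩
  have hc1 : c ^ Fintype.card k ^ m = c := by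
    have h3 := congrArg (· ^ Fintype.card k ^ m) hc
    have h4 := pow_q_mul (e := 1) (u := Sk M n g) (a := 0)
      (by rw [(mem_fixF one_pos).1 (Sk_mem M n g), cz_zero, add_zero]) m
    rw [one_mul, mul_zero, cz_zero, add_zero] at h4
    simp only [pow_q_add, mul_pow, h4, ← map_pow, FiniteField.pow_card_pow] at h3
    rw [← pow_mul, mul_comm, pow_mul, hx1, cz_one] at h3
    refine mul_right_cancel₀ hl0 ?_
    linear_combination hc - h3 + (x + 1) * h2
  obtain ⟨U, hU, hU'⟩ := H.exists_as (m := m)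
    (f := g.map (algebraMap k _) + C c * h.map (algebraMap k _)) (by
      rw [Polynomial.map_add, Polynomial.map_mul, map_map_frob, map_map_frob, map_C,
        AlgHom.toRingHom_eq_coe, RingHom.coe_coe, frob_pow_apply, hc1]) fun a ha h3 => hxB (by
      rw [eval_add, eval_mul, eval_C, eval_map_algebraMap, eval_map_algebraMap] at h3
      have h4 : aeval a h ≠ 0 := fun h4 => hgh a ha h4 (by simpa [h4] using h3)
      rw [Set.Finite.mem_toFinset]
      refine Set.mem_biUnion ((mem_rootSet_of_ne hM₀).2 ha) (hc.trans ?_)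
      congr 2
      rw [eq_div_iff h4]
      linear_combination h3)
  rw [hl, ← hc] at hU'
  exact one_ne_zero ((mem_fixF_iff_of_quad hm0 hx1 hU').1 ((mem_fixF hm0).2 hU))

theorem Hyp.dvd (H : Hyp M₀ M n) (hM₀ : M₀ ≠ 0) (hM : M ≠ 0) : M ∣ n * derivative M := by
  rw [← EuclideanDomain.mod_eq_zero]
  by_contra h0
  have h1 := EuclideanDomain.mod_add_div (n * derivative M) M
  have h2 := natDegree_lt_natDegree h0 (degree_mod_lt (n * derivative M) hM)
  set r := n * derivative M % M
  obtain ⟨j, hj⟩ := Nat.exists_eq_add_of_lt h2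
  obtain ⟨g, hg, hg1, hg2⟩ := exists_monic_coprime (mul_ne_zero hM hM₀)
    (n := (M * M₀).natDegree + (M.natDegree + j + n.natDegree) + 1) (by omega)
  have h3 : (X * (r * X ^ j)).natDegree = M.natDegree := by
    rw [natDegree_X_mul (by simp [h0]), natDegree_mul_X_pow _ h0, hj]
  have h4 := H.linear hM₀ (g := g) (h := M * X ^ j)
    (l := -(X * (r * X ^ j)).coeff M.natDegree / M.leadingCoeff) (fun a ha _ h => by
      have := aeval_eq_zero_of_dvd_aeval_eq_zero ((dvd_mul_left _ _).trans hg2) ha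
      simp [h] at this) fun c => by
      rw [Polynomial.map_mul, SS_add_mul (r := (r * X ^ j).map (algebraMap k _))
        (Polynomial.map_ne_zero hM) (hg.map _) ?_ ?_ ?_ ?_, Sk, map_div₀, map_neg, ← coeff_map,
        Polynomial.map_mul (p := X), map_X, natDegree_map, leadingCoeff_map]
      · rw [← Polynomial.map_one (algebraMap k _), ← Polynomial.map_sub]
        exact Polynomial.map_dvd _ ((dvd_mul_right _ _).trans hg2)
      · rw [derivative_map, ← Polynomial.map_mul, ← Polynomial.map_mul, ← Polynomial.map_sub]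
        exact Polynomial.map_dvd _ ⟨n * derivative M / M * X ^ j, by
          linear_combination (-X ^ j) * h1⟩
      · rw [← map_X (algebraMap k _), ← Polynomial.map_mul, natDegree_map, natDegree_map, h3]
      · simp only [natDegree_map, natDegree_X_pow, hg1]
        omega
  rw [← h3, coeff_natDegree] at h4
  simp [h0, hM] at h4

theorem Hyp.transfer (H : Hyp M₀ M n) {A M₁ M₂ n₂ : k[X]} (h1 : M₁ ∣ M) (h2 : M₂ ∣ M)
    (h : n * M₁ ^ 2 * M₂ + A ^ 2 * M * M₂ + A * M₁ * M * M₂ = n₂ * M * M₁ ^ 2) :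
    Hyp M₀ M₂ n₂ := by
  obtain ⟨u, h3, h4⟩ := H
  refine ⟨fun a => u a + aeval a A / aeval a M₁, fun m a => ?_, fun a ha => ?_⟩
  · simp only [h3, pow_q_add, div_pow, pow_q_aeval]
  · obtain ⟨h5, h6⟩ := h4 a ha
    have h7 := mt (aeval_eq_zero_of_dvd_aeval_eq_zero h1) h5
    have h8 := mt (aeval_eq_zero_of_dvd_aeval_eq_zero h2) h5
    have h9 := congrArg (aeval a) h
    simp only [map_add, map_mul, map_pow] at h9
    refine ⟨h8, ?_⟩
    rw [CharTwo.add_sq, add_add_add_comm, h6]
    field_simp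
    linear_combination h9

theorem notWp_transfer (hM : M ≠ 0) (hn : NotWp M n) {A M₁ M₂ n₂ : k[X]} (h1 : M₁ ∣ M)
    (h2 : M₂ ∣ M)
    (h : n * M₁ ^ 2 * M₂ + A ^ 2 * M * M₂ + A * M₁ * M * M₂ = n₂ * M * M₁ ^ 2) :
    NotWp M₂ n₂ := fun c hc => by
  have h3 : (2 : RatFunc k) = 0 := by
    rw [← map_ofNat (algebraMap k (RatFunc k)) 2, CharTwo.two_eq_zero, map_zero]
  have h5 := RatFunc.algebraMap_ne_zero hM
  have h7 := RatFunc.algebraMap_ne_zero (ne_zero_of_dvd_ne_zero hM h1)
  have h8 := RatFunc.algebraMap_ne_zero (ne_zero_of_dvd_ne_zero hM h2)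
  have h9 := congrArg (algebraMap k[X] (RatFunc k)) h
  simp only [map_add, map_mul, map_pow] at h9
  refine hn (c + algebraMap _ _ A / algebraMap _ _ M₁) ?_
  have h10 : algebraMap k[X] (RatFunc k) n₂ / algebraMap _ _ M₂ =
      algebraMap _ _ n / algebraMap _ _ M + (algebraMap _ _ A / algebraMap _ _ M₁) ^ 2 +
        algebraMap _ _ A / algebraMap _ _ M₁ := by
    field_simp
    linear_combination -h9
  generalize algebraMap k[X] (RatFunc k) A / algebraMap _ _ M₁ = t at *
  linear_combination hc + h10 + (c * t + t ^ 2 + t) * h3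

theorem Hyp.not_notWp_one (hM₀ : M₀ ≠ 0) (H : Hyp M₀ 1 n) : ¬ NotWp 1 n := by
  induction hm : n.natDegree using Nat.strong_induction_on generalizing n with
  | _ m ih =>
  subst hm
  intro hn
  rcases Nat.eq_zero_or_pos n.natDegree with h0 | h0
  · obtain ⟨δ, rfl⟩ := natDegree_eq_zero.1 h0
    obtain ⟨g, hg, hg1, hg2⟩ := exists_monic_coprime hM₀ (n := 2 * M₀.natDegree + 1) (by omega)
    obtain ⟨U, hU, hU'⟩ := H.exists_as (map_map_frob g 1) fun a ha h => by
      have := aeval_eq_zero_of_dvd_aeval_eq_zero hg2 ha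
      rw [eval_map_algebraMap] at h
      simp [h] at this
    rw [pow_one] at hU
    obtain ⟨c, rfl⟩ := mem_range_of_pow_card hU
    simp only [SS, Polynomial.map_one, map_C, eval_C, eval_one, div_one, Multiset.map_const',
      Multiset.sum_replicate, ← (IsAlgClosed.splits _).natDegree_eq_card_roots, natDegree_map,
      hg1, add_smul, mul_smul, CharTwo.two_nsmul, zero_add, one_smul, ← map_pow, ← map_add,
      (algebraMap k (AlgebraicClosure k)).injective.eq_iff] at hU'
    refine hn (algebraMap k[X] _ (C c)) ?_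
    rw [← hU', map_one, div_one]
    simp
  rcases Nat.even_or_odd' n.natDegree with ⟨j, hj | hj⟩
  · obtain ⟨s, hs⟩ := isSquare_of_charTwo' n.leadingCoeff
    have h1 : n * 1 ^ 2 * 1 + (C s * X ^ j) ^ 2 * 1 * 1 + C s * X ^ j * 1 * 1 * 1 =
        (n.eraseLead + C s * X ^ j) * 1 * 1 ^ 2 := by
      rw [← self_sub_C_mul_X_pow, hs, hj, C_mul, CharTwo.sub_eq_add]
      ring
    refine ih _ ?_ (H.transfer dvd_rfl dvd_rfl h1) rfl
      (notWp_transfer one_ne_zero hn dvd_rfl dvd_rfl h1)
    have := natDegree_add_le n.eraseLead (C s * X ^ j)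
    have := natDegree_C_mul_X_pow_le s j
    have := eraseLead_natDegree_le n
    omega
  · have h1 := H.linear hM₀ (g := X ^ n.natDegree) (h := 1)
      (l := -(n.natDegree * n.leadingCoeff)) (by simp) fun c => by
        have := SS_X_pow_add (n := n.map (algebraMap k (AlgebraicClosure k))) (by simpa) c
        simp only [natDegree_map, leadingCoeff_map] at this
        simp only [Sk, Polynomial.map_one, Polynomial.map_pow, map_X, mul_one, this, map_neg,
          map_mul, map_natCast]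
        ring
    rw [hj] at h1
    simp [CharTwo.two_eq_zero, ne_zero_of_natDegree_gt h0] at h1

theorem exists_sq_of_derivative (h : derivative M = 0) : ∃ M₁, M = M₁ ^ 2 := by
  refine ⟨(contract 2 M).map (frobeniusEquiv k 2).symm.toRingHom, ?_⟩
  rw [← map_frobenius_expand, map_expand, Polynomial.map_map, RingEquiv.toRingHom_eq_coe,
    frobenius_comp_frobeniusEquiv_symm, Polynomial.map_id, expand_contract' 2 h]

theorem exists_dvd_add_sq {p : k[X]} (h1 : p.Monic) (h2 : Irreducible p) (n : k[X]) :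
    ∃ A, p ∣ n + A ^ 2 := by
  obtain ⟨a, rfl⟩ := exists_minpoly_eq h1 h2
  have he := natDegree_minpoly_pos a
  obtain ⟨s, hs⟩ := IsAlgClosed.exists_pow_nat_eq (aeval a n) two_pos
  obtain ⟨A, rfl⟩ := exists_aeval_eq (a := a) (c := s) (by
    rw [mem_fixF he, ← CharTwo.sq_inj, ← pow_mul, mul_comm, pow_mul, hs]
    exact (mem_fixF he).1 (aeval_mem_fixF he (mem_fixF_self a) n))
  exact ⟨A, by rw [minpoly.dvd_iff, map_add, map_pow, hs, CharTwo.add_self_eq_zero]⟩

theorem Hyp.not_notWp (hM₀ : M₀ ≠ 0) (hM : M ≠ 0) (H : Hyp M₀ M n) : ¬ NotWp M n := by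
  induction hm : M.natDegree using Nat.strong_induction_on generalizing M n with
  | _ m ih =>
  subst hm
  intro hn
  have step : ∀ p A M₁ M₂ n₂ : k[X], ¬ IsUnit p → M = p * M₂ → M₁ ∣ M →
      n * M₁ ^ 2 * M₂ + A ^ 2 * M * M₂ + A * M₁ * M * M₂ = n₂ * M * M₁ ^ 2 → False := by
    intro p A M₁ M₂ n₂ hp h1 h2 h3
    have h4 : M₂ ∣ M := Dvd.intro_left _ h1.symm
    have h5 := ne_zero_of_dvd_ne_zero hM h4
    have h6 := ne_zero_of_dvd_ne_zero hM (Dvd.intro _ h1.symm)
    refine ih _ ?_ h5 (H.transfer h2 h4 h3) rfl (notWp_transfer hM hn h2 h4 h3)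
    rw [h1, natDegree_mul h6 h5]
    have := natDegree_pos_iff_degree_pos.2 (degree_pos_of_ne_zero_of_nonunit h6 hp)
    omega
  by_cases h0 : IsUnit M
  · obtain ⟨y, hy⟩ := h0.exists_right_inv
    have h1 : n * 1 ^ 2 * 1 + 0 ^ 2 * M * 1 + 0 * 1 * M * 1 = n * y * M * 1 ^ 2 := by
      linear_combination (-n) * hy
    exact (H.transfer (one_dvd _) (one_dvd _) h1).not_notWp_one hM₀
      (notWp_transfer hM hn (one_dvd _) (one_dvd _) h1)
  by_cases hc : IsCoprime M n
  · obtain ⟨M₁, rfl⟩ := exists_sq_of_derivative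
      (dvd_derivative_iff.1 (hc.dvd_of_dvd_mul_left (H.dvd hM₀ hM)))
    obtain ⟨p, h1, h2, M₃, rfl⟩ := M₁.exists_monic_irreducible_factor fun h => h0 (h.pow 2)
    obtain ⟨A, y, hy⟩ := exists_dvd_add_sq h1 h2 n
    exact step p A (p * M₃) (M₃ * (p * M₃)) (y + A * M₃) h2.not_isUnit (by ring)
      (dvd_pow_self _ two_ne_zero) (by linear_combination (p * M₃) ^ 2 * M₃ * (p * M₃) * hy)
  · obtain ⟨M₂, h1⟩ := EuclideanDomain.gcd_dvd_left M n
    obtain ⟨n₂, h2⟩ := EuclideanDomain.gcd_dvd_right M n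
    exact step _ 0 1 M₂ n₂ (mt EuclideanDomain.gcd_isUnit_iff.1 hc) h1 (one_dvd _)
      (by linear_combination M₂ * h2 - n₂ * h1)

end Lp

open Lp Rh Polynomial

theorem nonDeg : NonDeg := by
  intro k _ _ _ M n hM hn
  by_contra h
  have h1 : ∀ p, GoodP M p → ∃ z : k[X], p ∣ M * (z ^ 2 + z) + n := fun p hp => by
    by_contra h2
    exact h ⟨p, hp, if_neg h2⟩
  choose! z hz using h1
  refine Hyp.not_notWp hM hM ⟨fun a => aeval a (z (minpoly k a)), fun m a => ?_,
    fun a ha => ⟨ha, (dvd_quad_iff ha).1 (hz _ (goodP_minpoly.2 ha))⟩⟩ hn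
  beta_reduce
  rw [pow_q_aeval, ← frob_pow_apply, minpoly.algHom_eq _
    (FiniteField.frobeniusAlgHom k (AlgebraicClosure k) ^ m).toRingHom.injective]

end Pool.Agent.Lib.MP_a3f657_nt.Two
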