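import Pool.Agent.Lib.MP_a3f657_nt.C2Fin
import Pool.Agent.Lib.MP_a3f657_nt.C2CellMain
import Pool.Agent.Lib.MP_a3f657_nt.C2CellRed
import Pool.Agent.Lib.MP_a3f657_nt.C2LkMain
import Pool.Agent.Lib.MP_a3f657_nt.C2LpNon

/-!
The analytic input, unconditionally.
-/

namespace Pool.Agent.Lib.MP_a3f657_nt.Two

theorem cellAn' : CellAn :=
  cellAn (anMu (primeP euler rhP)) (anJ (primeP euler rhP) nonDeg)
    (anK (primeP euler rhP) nonDeg (primeK euler rhK))

end Pool.Agent.Lib.MP_a3f657_nt.Two
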