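import Pool.Agent.Lib.MP_a3f657_nt.C2PB

/-!
The explicit 2-descent map of an ordinary elliptic curve in characteristic two.
-/

set_option linter.unusedSectionVars false

namespace Pool.Agent.Lib.MP_a3f657_nt.Two

open WeierstrassCurve WeierstrassCurve.Affine

open scoped Classical

variable {K : Type} [Field K] [CharP K 2]

/-- The coefficient `A` of the normal form `y ^ 2 + x y = x ^ 3 + A x ^ 2 + B`. -/
def nA (W : WeierstrassCurve K) : K := (W.a₁ * W.a₂ + W.a₃) / W.a₁ ^ 3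

/-- The coefficient `B` of the normal form. -/
def nB (W : WeierstrassCurve K) : K := W.Δ / W.a₁ ^ 12

/-- The `x`-coordinate in the normal form. -/
def nx (W : WeierstrassCurve K) (X : K) : K := (W.a₁ * X + W.a₃) / W.a₁ ^ 3

/-- The `y`-coordinate in the normal form. -/
def ny (W : WeierstrassCurve K) (Y : K) : K :=
  (Y + (W.a₁ ^ 2 * W.a₄ + W.a₃ ^ 2) / W.a₁ ^ 3) / W.a₁ ^ 3

/-- `x` is the abscissa of a point of the normal form. -/
def OnC (A B x : K) : Prop := x ≠ 0 ∧ ∃ l : K, wp l = x + A + B / x ^ 2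

lemma disc_eq (W : WeierstrassCurve K) : W.Δ = W.a₁ ^ 4 * (W.a₁ ^ 2 * W.a₆ + W.a₁ * W.a₃ * W.a₄ +
    W.a₂ * W.a₃ ^ 2 + W.a₄ ^ 2) + W.a₃ ^ 4 + W.a₁ ^ 3 * W.a₃ ^ 3 := by
  simp only [WeierstrassCurve.Δ, b₂, b₄, b₆, b₈]
  grind

lemma eqn_iff {W : WeierstrassCurve K} (h : W.a₁ ≠ 0) (X Y : K) : W.toAffine.Equation X Y ↔
    ny W Y ^ 2 + nx W X * ny W Y = nx W X ^ 3 + nA W * nx W X ^ 2 + nB W := by
  rw [equation_iff, ← sub_eq_zero, ← sub_eq_zero (a := ny W Y ^ 2 + _)]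
  have : ny W Y ^ 2 + nx W X * ny W Y - (nx W X ^ 3 + nA W * nx W X ^ 2 + nB W) =
      (Y ^ 2 + W.a₁ * X * Y + W.a₃ * Y - (X ^ 3 + W.a₂ * X ^ 2 + W.a₄ * X + W.a₆)) / W.a₁ ^ 6 := by
    unfold nx ny nA nB
    rw [disc_eq]
    field_simp
    grind
  rw [this, div_eq_zero_iff]
  simp [h]

/-- The nondegeneracy hypothesis: ordinary, with `B` the given 2-basis element. -/
structure Nd (W : WeierstrassCurve K) (P : PB K) : Prop where
  a1 : W.a₁ ≠ 0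
  hb : P.b = nB W

/-- The normalised abscissa of a point (zero for the origin). -/
def xP (W : WeierstrassCurve K) : W.toAffine.Point → K
  | .zero => 0
  | .some X _ _ => nx W X

variable {W : WeierstrassCurve K} {P : PB K}

@[simp] lemma xP_zero : xP W 0 = 0 := rfl

@[simp] lemma xP_some {X Y : K} (h : W.toAffine.Nonsingular X Y) : xP W (.some X Y h) = nx W X :=
  rfl

@[simp] lemma xP_neg (R : W.toAffine.Point) : xP W (-R) = xP W R := by cases R <;> rfl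

lemma Nd.disc (h : Nd W P) : W.Δ ≠ 0 := fun e => P.b_ne (by rw [h.hb, nB, e, zero_div])

lemma Nd.nx_ne (h : Nd W P) {X Y : K} (e : W.toAffine.Equation X Y) : nx W X ≠ 0 := fun e0 => by
  rw [eqn_iff h.a1, e0, ← h.hb] at e
  exact P.ns (ny W Y) (by simpa using e)

lemma Nd.onC (h : Nd W P) {R : W.toAffine.Point} (hR : R ≠ 0) : OnC (nA W) P.b (xP W R) := by
  rcases R with _ | ⟨X, Y, e⟩
  · exact absurd rfl hR
  have h1 := h.nx_ne e.1
  have h2 := (eqn_iff h.a1 X Y).1 e.1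
  refine ⟨h1, ny W Y / nx W X, ?_⟩
  rw [xP_some, wp, h.hb]
  field_simp
  grind

lemma Nd.xP_ne (h : Nd W P) {R : W.toAffine.Point} (hR : R ≠ 0) : xP W R ≠ 0 := (h.onC hR).1

lemma Nd.exists_pt (h : Nd W P) {x : K} (hx : OnC (nA W) P.b x) :
    ∃ R : W.toAffine.Point, R ≠ 0 ∧ xP W R = x := by
  obtain ⟨h0, l, hl⟩ := hx
  have h1 := h.a1
  have e1 : nx W ((W.a₁ ^ 3 * x + W.a₃) / W.a₁) = x := by unfold nx; field_simp; grind
  have e2 : ny W (W.a₁ ^ 3 * (x * l) + (W.a₁ ^ 2 * W.a₄ + W.a₃ ^ 2) / W.a₁ ^ 3) = x * l := by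
    unfold ny; field_simp; grind
  refine ⟨.some _ _ ((equation_iff_nonsingular_of_Δ_ne_zero h.disc).1
    ((eqn_iff h1 _ _).2 (by rw [e1, e2, ← h.hb]; unfold wp at hl; grind))),
    Point.some_ne_zero _, e1⟩

lemma Nd.eq_of_xP (h : Nd W P) {R S : W.toAffine.Point} (e : xP W R = xP W S) :
    R = S ∨ R = -S := by
  rcases R with _ | ⟨X, Y, hR⟩ <;> rcases S with _ | ⟨X', Y', hS⟩
  · exact Or.inl rfl
  · exact absurd e.symm (h.nx_ne hS.1)
  · exact absurd e (h.nx_ne hR.1)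
  · refine Point.X_eq_iff.1 ?_
    have h1 := h.a1
    simp only [xP_some, nx] at e
    grind

lemma Nd.two_tors (h : Nd W P) {R : W.toAffine.Point} (e : R + R = 0) : R = 0 := by
  rcases R with _ | ⟨X, Y, hR⟩
  · rfl
  refine absurd ?_ (h.nx_ne hR.1)
  have := eq_neg_of_add_eq_zero_left e
  rw [Point.neg_some, Point.some.injEq, negY] at this
  have h2 : W.a₁ * X + W.a₃ = 0 := by
    have h3 : Y = -Y - W.a₁ * X - W.a₃ := this.2
    grind
  rw [nx, h2, zero_div]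

lemma Nd.two_inj (h : Nd W P) {R S : W.toAffine.Point} (e : 2 • R = 2 • S) : R = S := by
  refine sub_eq_zero.1 (h.two_tors ?_)
  rw [← two_nsmul, nsmul_sub, e, sub_self]

lemma Nd.s3 (h : Nd W P) {R S : W.toAffine.Point} (hR : R ≠ 0) (hS : S ≠ 0) (hRS : R + S ≠ 0) :
    (xP W R * xP W S + xP W R * xP W (R + S) + xP W S * xP W (R + S)) ^ 2 +
      xP W R * xP W S * xP W (R + S) + P.b = 0 := by
  rcases R with _ | ⟨X₁, Y₁, h₁⟩
  · exact absurd rfl hR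
  rcases S with _ | ⟨X₂, Y₂, h₂⟩
  · exact absurd rfl hS
  have hxy : ¬(X₁ = X₂ ∧ Y₁ = W.toAffine.negY X₂ Y₂) := fun e => hRS (Point.add_of_Y_eq e.1 e.2)
  have e := addPolynomial_slope h₁.1 h₂.1 hxy
  rw [addPolynomial_eq, neg_inj, Cubic.prod_X_sub_C_eq, Cubic.toPoly_injective] at e
  rw [Point.add_some hxy]
  simp only [xP_some]
  generalize W.toAffine.addX X₁ X₂ (W.toAffine.slope X₁ X₂ Y₁ Y₂) = X₃ at e ⊢
  generalize W.toAffine.slope X₁ X₂ Y₁ Y₂ = l at e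
  simp only [Cubic.mk.injEq, true_and] at e
  obtain ⟨e1, e2, e3⟩ := e
  have h1 := h.a1
  have e4 : ((W.a₁ * X₁ + W.a₃) * (W.a₁ * X₂ + W.a₃) + (W.a₁ * X₁ + W.a₃) * (W.a₁ * X₃ + W.a₃) +
      (W.a₁ * X₂ + W.a₃) * (W.a₁ * X₃ + W.a₃)) ^ 2 +
      W.a₁ ^ 3 * ((W.a₁ * X₁ + W.a₃) * (W.a₁ * X₂ + W.a₃) * (W.a₁ * X₃ + W.a₃)) + W.Δ = 0 := by
    rw [disc_eq]
    have e1' : W.a₂ = l ^ 2 + W.a₁ * l + X₁ + X₂ + X₃ := by
      have : -l ^ 2 - W.a₁ * l + W.a₂ = -(X₁ + X₂ + X₃) := e1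
      grind
    have e2' : W.a₄ = X₁ * X₂ + X₁ * X₃ + X₂ * X₃ + (W.a₁ * X₁ + W.a₃) * l + W.a₁ * Y₁ := by
      have : 2 * X₁ * l ^ 2 + (W.a₁ * X₁ - 2 * Y₁ - W.a₃) * l + (-W.a₁ * Y₁ + W.a₄) =
        X₁ * X₂ + X₁ * X₃ + X₂ * X₃ := e2
      grind
    have e3' : W.a₆ = X₁ * X₂ * X₃ + X₁ ^ 2 * l ^ 2 + W.a₃ * X₁ * l + Y₁ ^ 2 + W.a₃ * Y₁ := by
      have : -X₁ ^ 2 * l ^ 2 + (2 * X₁ * Y₁ + W.a₃ * X₁) * l - (Y₁ ^ 2 + W.a₃ * Y₁ - W.a₆) =
        -(X₁ * X₂ * X₃) := e3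
      grind
    rw [e1', e2', e3']
    grind
  rw [h.hb]
  unfold nx nB
  field_simp
  linear_combination e4

lemma Nd.xP_two (h : Nd W P) {R : W.toAffine.Point} (hR : R ≠ 0) :
    xP W (R + R) = xP W R ^ 2 + P.b / xP W R ^ 2 := by
  have h1 := h.s3 hR hR fun e => hR (h.two_tors e)
  have h2 := h.xP_ne hR
  grind

/-- The descent homomorphism. -/
noncomputable def Nd.kap (h : Nd W P) : W.toAffine.Point →+ K where
  toFun R := P.kap (xP W R)
  map_zero' := by simp [PB.kap]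
  map_add' R S := by
    by_cases hR : R = 0
    · simp [hR, PB.kap]
    by_cases hS : S = 0
    · simp [hS, PB.kap]
    by_cases hRS : R + S = 0
    · rw [hRS, eq_neg_of_add_eq_zero_left hRS, xP_neg, CharTwo.add_self_eq_zero]
      simp [PB.kap]
    exact P.kap_add (h.xP_ne hR) (h.xP_ne hS) (h.xP_ne hRS) (h.s3 hR hS hRS)

lemma Nd.kap_apply (h : Nd W P) (R : W.toAffine.Point) : h.kap R = P.kap (xP W R) := rfl

lemma Nd.kap_eq_zero (h : Nd W P) {R : W.toAffine.Point} : h.kap R = 0 ↔ ∃ S, 2 • S = R := by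
  refine ⟨fun e => ?_, by
    rintro ⟨S, rfl⟩
    rw [map_nsmul, two_nsmul, CharTwo.add_self_eq_zero]⟩
  by_cases hR : R = 0
  · exact ⟨0, by simp [hR]⟩
  obtain ⟨hx, l, hl⟩ := h.onC hR
  have e1 := P.b_kap_sq hx
  rw [← h.kap_apply, e] at e1
  set x := xP W R with hxd
  set u := P.dl x with hu
  have e2 : wp (u + 1) = P.b * (x⁻¹) ^ 2 := by rw [wp_add, wp_one]; grind
  have hb := P.b_ne
  have h3 : u + 1 ≠ 0 := fun e3 => by
    rw [e3, wp_zero] at e2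
    exact mul_ne_zero hb (pow_ne_zero 2 (inv_ne_zero hx)) e2.symm
  have e4 : P.dl (x * (u + 1)) = 0 := by
    rw [P.dl_mul hx h3, P.dl_of_wp h3 e2]; grind
  have e5 : P.c1 (x * (u + 1)) = 0 := by
    rw [PB.dl, div_eq_zero_iff, mul_eq_zero] at e4
    rcases e4 with (e4 | e4) | e4
    exacts [absurd e4 hb, pow_eq_zero_iff two_ne_zero |>.1 e4, absurd e4 (mul_ne_zero hx h3)]
  have e6 := P.eq_sq e5
  generalize P.c0 (x * (u + 1)) = z at e6
  have hz : z ≠ 0 := by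
    rintro rfl
    exact mul_ne_zero hx h3 (by simpa using e6)
  have e7 : x = z ^ 2 + P.b / z ^ 2 := by
    rw [← e6]
    unfold wp at e2
    grind
  obtain ⟨S, hS, e8⟩ := h.exists_pt (x := z) ⟨hz, l + u + z, by
    rw [wp_add, wp_add, hl]
    rw [wp_add, wp_one] at e2
    rw [show wp u = P.b / x ^ 2 by grind, wp]
    grind⟩
  have e9 : xP W (S + S) = xP W R := by rw [h.xP_two hS, e8, ← e7]
  rcases h.eq_of_xP e9 with e10 | e10
  · exact ⟨S, by rw [two_nsmul, e10]⟩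
  · exact ⟨-S, by rw [two_nsmul, ← neg_add, e10, neg_neg]⟩

lemma exists_wp [IsSepClosed K] (c : K) : ∃ l : K, wp l = c := by
  obtain ⟨l, hl⟩ := IsSepClosed.exists_root_C_mul_X_pow_add_C_mul_X_add_C (n := 2) 1 1 c
    (CharP.cast_eq_zero K 2) le_rfl one_ne_zero
  exact ⟨l, by unfold wp; grind⟩

lemma Nd.kap_surj [IsSepClosed K] (h : Nd W P) : Function.Surjective h.kap := fun s => by
  obtain ⟨z, hz⟩ := IsSepClosed.exists_root_C_mul_X_pow_add_C_mul_X_add_C (n := 2) s 1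
    (1 + s * P.b) (CharP.cast_eq_zero K 2) le_rfl one_ne_zero
  have h1 : z ^ 2 + P.b * 1 ^ 2 ≠ 0 := fun e => P.ns z (by grind)
  obtain ⟨R, _, e⟩ := h.exists_pt (x := z ^ 2 + P.b * 1 ^ 2) ⟨h1, exists_wp _⟩
  refine ⟨R, ?_⟩
  rw [h.kap_apply, e, PB.kap, (P.uniq rfl).1, (P.uniq rfl).2, div_eq_iff h1]
  grind

/-- The normal form. -/
def EW (A B : K) : WeierstrassCurve K := ⟨1, A, 0, 0, B⟩

lemma nA_EW (A B : K) : nA (EW A B) = A := by simp [nA, EW]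

lemma nd_EW (P : PB K) (A : K) : Nd (EW A P.b) P :=
  ⟨one_ne_zero, by rw [nB, disc_eq]; simp [EW]⟩

/-- The image of the descent map. -/
noncomputable def LL (P : PB K) (A : K) : AddSubgroup K := (nd_EW P A).kap.range

lemma Nd.mem_range (h : Nd W P) {s : K} :
    s ∈ h.kap.range ↔ s = 0 ∨ ∃ x, OnC (nA W) P.b x ∧ s = P.kap x := by
  refine ⟨?_, ?_⟩
  · rintro ⟨R, rfl⟩
    by_cases hR : R = 0
    · exact Or.inl (by rw [hR, map_zero])
    · exact Or.inr ⟨_, h.onC hR, rfl⟩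
  · rintro (rfl | ⟨x, hx, rfl⟩)
    · exact zero_mem _
    · obtain ⟨R, _, rfl⟩ := h.exists_pt hx
      exact ⟨R, rfl⟩

lemma mem_LL {A s : K} : s ∈ LL P A ↔ s = 0 ∨ ∃ x, OnC A P.b x ∧ s = P.kap x := by
  rw [LL, (nd_EW P A).mem_range, nA_EW]

lemma Nd.range_eq (h : Nd W P) : h.kap.range = LL P (nA W) := by
  ext s; rw [h.mem_range, mem_LL]

lemma onC_wp {A B x : K} (c : K) : OnC (A + wp c) B x ↔ OnC A B x := by
  refine and_congr_right fun _ => ⟨?_, ?_⟩ <;> rintro ⟨l, hl⟩ <;> refine ⟨l + c, ?_⟩ <;>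
    rw [wp_add, hl] <;> grind

lemma LL_wp (A c : K) : LL P (A + wp c) = LL P A := by
  ext s; simp only [mem_LL, onC_wp]

lemma nA_smul (h : W.a₁ ≠ 0) (C : VariableChange K) :
    (C • W).a₁ ≠ 0 ∧ nB (C • W) = nB W ∧ nA (C • W) = nA W + wp (C.s / W.a₁) := by
  have hu : ((C.u⁻¹ : Kˣ) : K) ≠ 0 := Units.ne_zero _
  have e1 : (C • W).a₁ = (C.u⁻¹ : Kˣ) * W.a₁ := by rw [variableChange_a₁]; grind
  refine ⟨by rw [e1]; exact mul_ne_zero hu h, ?_, ?_⟩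
  · rw [nB, nB, e1, variableChange_Δ]
    field_simp
  · rw [nA, nA, e1, variableChange_a₂, variableChange_a₃, wp]
    generalize ((C.u⁻¹ : Kˣ) : K) = w at hu
    field_simp
    grind

section map

variable {L : Type} [Field L] [CharP L 2] (f : K →+* L)

lemma nA_map (W : WeierstrassCurve K) : nA (W.map f) = f (nA W) := by simp [nA]

lemma nB_map (W : WeierstrassCurve K) : nB (W.map f) = f (nB W) := by simp [nB]

lemma nx_map (W : WeierstrassCurve K) (X : K) : nx (W.map f) (f X) = f (nx W X) := by simp [nx]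

lemma Nd.map (h : Nd W P) {Q : PB L} (hQ : Q.b = f P.b) : Nd (W.map f) Q :=
  ⟨by simpa using h.a1, by rw [hQ, nB_map, h.hb]⟩

lemma OnC.map {A B x : K} (h : OnC A B x) : OnC (f A) (f B) (f x) := by
  obtain ⟨h0, l, hl⟩ := h
  exact ⟨by simpa using h0, f l, by simpa [wp] using congrArg f hl⟩

lemma LL_map {Q : PB L} (hQ : Q.b = f P.b) {A s : K} (h : s ∈ LL P A) : f s ∈ LL Q (f A) := by
  rcases mem_LL.1 h with rfl | ⟨x, hx, rfl⟩
  · simp
  · exact mem_LL.2 (Or.inr ⟨f x, hQ ▸ hx.map f, (P.map_kap hQ x).symm⟩)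

end map

end Pool.Agent.Lib.MP_a3f657_nt.Two
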