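import Pool.Agent.Lib.MP_a3f657_nt.C2Defs
import Pool.Agent.Lib.MP_a3f657_nt.C2Kap

/-!
The order of the 2-Selmer group in terms of the explicit descent map.
-/

set_option linter.unusedSectionVars false

namespace Pool.Agent.Lib.MP_a3f657_nt.Two

open WeierstrassCurve WeierstrassCurve.Affine

open scoped Polynomial

attribute [local instance 10000] Classical.propDecidable

section old

variable {F : Type} [Field F]

/-- The absolute Galois group of `K`, with the Krull topology. -/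
abbrev Gal (K : Type) [Field K] : Type := SeparableClosure K ≃ₐ[K] SeparableClosure K

/-- The cocycle `ξ` becomes a coboundary over `K`, for every embedding of separable closures. -/
def LocTriv (W : WeierstrassCurve F) (K : Type) [Field K] [Algebra F K]
    (ξ : Gal F → Pt W (SeparableClosure F)) : Prop :=
  ∀ i : SeparableClosure F →ₐ[F] SeparableClosure K, ∃ P : Pt W (SeparableClosure K),
    ∀ (τ : Gal K) (σ : Gal F), (∀ x, τ (i x) = i (σ x)) →
      pm W i (ξ σ) = pm W (τ.toAlgHom.restrictScalars F) P - P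

variable {k : Type} [Field k]

/-- Continuous 1-cocycles that are trivial at every place of `k(t)`. -/
noncomputable def cocyc (W : WeierstrassCurve (RatFunc k)) :
    AddSubgroup (Gal (RatFunc k) → Pt W (SeparableClosure (RatFunc k))) :=
  cocycles W _ ⊓ (trivOver W _ (RatFunc.CompletionAtInfty k)
    (SeparableClosure (RatFunc.CompletionAtInfty k)) ⊓
    ⨅ v : IsDedekindDomain.HeightOneSpectrum k[X],
      trivOver W _ (v.adicCompletion (RatFunc k)) (SeparableClosure (v.adicCompletion (RatFunc k))))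

lemma mem_cocyc {W : WeierstrassCurve (RatFunc k)}
    {ξ : Gal (RatFunc k) → Pt W (SeparableClosure (RatFunc k))} : ξ ∈ cocyc W ↔
    (IsLocallyConstant ξ ∧ ∀ σ τ : Gal (RatFunc k), ξ (σ * τ) = ξ σ + pm W σ.toAlgHom (ξ τ)) ∧
    LocTriv W (RatFunc.CompletionAtInfty k) ξ ∧
    ∀ v : IsDedekindDomain.HeightOneSpectrum k[X], LocTriv W (v.adicCompletion (RatFunc k)) ξ :=
  and_congr Iff.rfl (and_congr Iff.rfl AddSubgroup.mem_iInf)

/-- The Tate-Shafarevich group. -/
abbrev Sha (W : WeierstrassCurve (RatFunc k)) : Type :=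
  cocyc W ⧸ (cobound W _).addSubgroupOf (cocyc W)

lemma selOrder_def (W : WeierstrassCurve (RatFunc k)) : selOrder W =
  Nat.card (W.toAffine.Point ⧸ (nsmulAddMonoidHom 2 : W.toAffine.Point →+ W.toAffine.Point).range) *
    Nat.card {c : Sha W // 2 • c = 0} := rfl

end old

section gen

variable {F : Type} [Field F] [CharP F 2] {W : WeierstrassCurve F} {P : PB F}

/-- The elements of `F` that lie in the image of the descent map over `K`. -/
def LocIm (P : PB F) (A : F) (K : Type) [Field K] [CharP K 2] [Algebra F K] : AddSubgroup F where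
  carrier := {s | ∀ Q : PB K, Q.b = algebraMap F K P.b → algebraMap F K s ∈ LL Q (algebraMap F K A)}
  zero_mem' Q _ := by simp
  add_mem' ha hb Q hQ := by rw [map_add]; exact add_mem (ha Q hQ) (hb Q hQ)
  neg_mem' ha Q hQ := by rw [map_neg]; exact neg_mem (ha Q hQ)

lemma mem_LocIm {A s : F} {K : Type} [Field K] [CharP K 2] [Algebra F K] {Q : PB K}
    (hQ : Q.b = algebraMap F K P.b) :
    s ∈ LocIm P A K ↔ algebraMap F K s ∈ LL Q (algebraMap F K A) :=
  ⟨fun h => h Q hQ, fun h Q' hQ' => by rwa [PB.ext' (hQ'.trans hQ.symm)]⟩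

instance sepChar (K : Type) [Field K] [CharP K 2] : CharP (SeparableClosure K) 2 :=
  charP_of_injective_algebraMap (algebraMap K _).injective 2

variable {K L : Type} [Field K] [CharP K 2] [Algebra F K] [Field L] [CharP L 2] [Algebra F L]

lemma Nd.bc (h : Nd W P) {Q : PB K} (hQ : Q.b = algebraMap F K P.b) : Nd (W.baseChange K) Q :=
  h.map _ hQ

lemma kap_pm (h : Nd W P) {Q : PB K} (hQ : Q.b = algebraMap F K P.b) {Q' : PB L}
    (hQ' : Q'.b = algebraMap F L P.b) (g : K →ₐ[F] L) (R : Pt W K) :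
    (h.bc hQ').kap (pm W g R) = g ((h.bc hQ).kap R) := by
  have e : xP (W.baseChange L) (pm W g R) = g (xP (W.baseChange K) R) := by
    rcases R with _ | ⟨X, Y, hR⟩
    · exact (map_zero g).symm
    · rw [Point.map_some, xP_some, xP_some]
      simp [nx, WeierstrassCurve.baseChange]
  rw [Nd.kap_apply, Nd.kap_apply, e]
  exact Q.map_kap (f := (g : K →+* L)) (by simp [hQ, hQ']) _

/-- The inclusion in the separable closure. -/
noncomputable abbrev toSep (F K : Type) [Field F] [Field K] [Algebra F K] :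
    K →ₐ[F] SeparableClosure K := IsScalarTower.toAlgHom F K _

lemma exists_of_fixed {T : Pt W (SeparableClosure K)}
    (hT : ∀ τ : Gal K, pm W (τ.toAlgHom.restrictScalars F) T = T) :
    ∃ R : Pt W K, pm W (toSep F K) R = T := by
  rcases T with _ | ⟨X, Y, hXY⟩
  · exact ⟨0, rfl⟩
  have h1 := fun τ => Point.some.inj (hT τ)
  obtain ⟨X, rfl⟩ := (InfiniteGalois.mem_range_algebraMap_iff_fixed (k := K) X).2 fun τ => (h1 τ).1
  obtain ⟨Y, rfl⟩ := (InfiniteGalois.mem_range_algebraMap_iff_fixed (k := K) Y).2 fun τ => (h1 τ).2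
  exact ⟨.some X Y ((W.toAffine.baseChange_nonsingular (toSep F K).injective X Y).1 hXY), rfl⟩

lemma pm_toSep (τ : Gal K) (R : Pt W K) :
    pm W (τ.toAlgHom.restrictScalars F) (pm W (toSep F K) R) = pm W (toSep F K) R := by
  rw [Point.map_map]
  congr 2
  ext x
  simp

lemma locTriv_iff (h : Nd W P) {Q : PB K} (hQ : Q.b = algebraMap F K P.b)
    {Ps : PB (SeparableClosure F)} (hPs : Ps.b = algebraMap F _ P.b)
    {R : Pt W (SeparableClosure F)} {s : F} (hR : (h.bc hPs).kap R = algebraMap F _ s)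
    {ξ : Gal F → Pt W (SeparableClosure F)} (hξ : ∀ σ, 2 • ξ σ = pm W σ.toAlgHom R - R) :
    LocTriv W K ξ ↔ s ∈ LocIm P (nA W) K := by
  obtain ⟨Qs, hQs⟩ := Q.exists_sep (SeparableClosure K)
  rw [hQ, ← IsScalarTower.algebraMap_apply] at hQs
  rw [mem_LocIm hQ, ← nA_map, show LL Q (nA (W.map _)) = _ from (h.bc hQ).range_eq.symm]
  have h1 : ∀ (i : SeparableClosure F →ₐ[F] SeparableClosure K) (τ : Gal K) (σ : Gal F),
      (∀ x, τ (i x) = i (σ x)) → 2 • pm W i (ξ σ) =
        pm W (τ.toAlgHom.restrictScalars F) (pm W i R) - pm W i R := fun i τ σ e => by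
    rw [← map_nsmul, hξ, map_sub, Point.map_map, Point.map_map]
    congr 3
    ext x
    exact congrArg Subtype.val (e x).symm
  have h2 : ∀ i : SeparableClosure F →ₐ[F] SeparableClosure K,
      (h.bc hQs).kap (pm W i R) = toSep F K (algebraMap F K s) := fun i => by
    rw [kap_pm h hPs hQs, hR, i.commutes, AlgHom.commutes]
  refine ⟨fun H => ?_, fun ⟨R₀, hR₀⟩ i => ?_⟩
  · let i : SeparableClosure F →ₐ[F] SeparableClosure K := IsSepClosed.lift
    obtain ⟨S, hS⟩ := H i
    obtain ⟨R₀, hR₀⟩ := exists_of_fixed (K := K) (T := pm W i R - 2 • S) fun τ => by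
      let := i.toRingHom.toAlgebra
      have := IsScalarTower.of_algebraMap_eq (R := F) (S := SeparableClosure F)
        (A := SeparableClosure K) fun x => (i.commutes x).symm
      have e := fun x => ((τ.restrictScalars F).restrictNormal_commutes (SeparableClosure F) x).symm
      have e1 := h1 i τ _ e
      rw [hS τ _ e] at e1
      rw [map_sub, map_nsmul, eq_sub_iff_add_eq.1 e1 |>.symm, nsmul_sub]
      abel
    refine ⟨R₀, (toSep F K).injective ?_⟩
    have e2 := kap_pm h hQ hQs (toSep F K) R₀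
    rw [hR₀, map_sub, h2, (h.bc hQs).kap_eq_zero.2 ⟨S, rfl⟩, sub_zero] at e2
    exact e2.symm
  · obtain ⟨S, hS⟩ := (h.bc hQs).kap_eq_zero.1
      (show (h.bc hQs).kap (pm W i R - pm W (toSep F K) R₀) = 0 by
        rw [map_sub, h2, kap_pm h hQ hQs, hR₀, sub_self])
    refine ⟨S, fun τ σ e => (h.bc hQs).two_inj ?_⟩
    rw [h1 i τ σ e, nsmul_sub, ← map_nsmul, hS, map_sub, pm_toSep]
    abel

lemma pm_locConst (R : Pt W (SeparableClosure F)) :
    IsLocallyConstant fun σ : Gal F => pm W σ.toAlgHom R := by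
  have key : ∀ x : SeparableClosure F, IsLocallyConstant fun σ : Gal F => σ x := fun x =>
    (IsLocallyConstant.iff_eventually_eq _).2 fun σ => by
      have h3 := (stabilizer_isOpen_of_isIntegral (K := F) x).preimage (continuous_const_mul σ⁻¹)
      filter_upwards [h3.mem_nhds (x := σ) (by simp)] with τ hτ
      have h4 : σ.symm (τ x) = x := hτ
      rw [← σ.apply_symm_apply (τ x), h4]
  rcases R with _ | ⟨X, Y, hR⟩
  · exact IsLocallyConstant.const 0
  refine (IsLocallyConstant.iff_eventually_eq _).2 fun σ => ?_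
  filter_upwards [(key X).eventually_eq σ, (key Y).eventually_eq σ] with τ h1 h2
  simp only [Point.map_some, Point.some.injEq]
  exact ⟨h1, h2⟩

end gen

variable {k : Type} [Field k] [CharP k 2]

instance infChar : CharP (RatFunc.CompletionAtInfty k) 2 :=
  charP_of_injective_algebraMap (algebraMap (RatFunc k) _).injective 2

instance adicChar (v : IsDedekindDomain.HeightOneSpectrum k[X]) :
    CharP (v.adicCompletion (RatFunc k)) 2 :=
  charP_of_injective_algebraMap (algebraMap (RatFunc k) _).injective 2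

/-- The Selmer group as a subgroup of the field. -/
noncomputable def Sel (P : PB (RatFunc k)) (A : RatFunc k) : AddSubgroup (RatFunc k) :=
  LocIm P A (RatFunc.CompletionAtInfty k) ⊓
    ⨅ v : IsDedekindDomain.HeightOneSpectrum k[X], LocIm P A (v.adicCompletion (RatFunc k))

theorem selOrder_eq {W : WeierstrassCurve (RatFunc k)} {P : PB (RatFunc k)} (h : Nd W P)
    (h1 : ∃ Q : PB (RatFunc.CompletionAtInfty k), Q.b = algebraMap _ _ P.b)
    (h2 : ∀ v : IsDedekindDomain.HeightOneSpectrum k[X],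
      ∃ Q : PB (v.adicCompletion (RatFunc k)), Q.b = algebraMap _ _ P.b) :
    selOrder W = Nat.card (Sel P (nA W)) := by
  obtain ⟨Ps, hPs⟩ := P.exists_sep (SeparableClosure (RatFunc k))
  obtain ⟨Q₁, hQ₁⟩ := h1
  choose Q₂ hQ₂ using h2
  let κ := (h.bc hPs).kap
  let j := (algebraMap (RatFunc k) (SeparableClosure (RatFunc k))).toAddMonoidHom
  have hj : Function.Injective j := (algebraMap (RatFunc k) _).injective
  let Z := ((Sel P (nA W)).map j).comap κ
  have loc : ∀ {R s} {ξ : Gal (RatFunc k) → _}, κ R = j s → (∀ σ, 2 • ξ σ = pm W σ.toAlgHom R - R) →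
      ((LocTriv W (RatFunc.CompletionAtInfty k) ξ ∧
        ∀ v : IsDedekindDomain.HeightOneSpectrum k[X], LocTriv W (v.adicCompletion (RatFunc k)) ξ) ↔
        s ∈ Sel P (nA W)) := fun hR hξ => by
    simp only [Sel, AddSubgroup.mem_inf, AddSubgroup.mem_iInf]
    exact and_congr (locTriv_iff h hQ₁ hPs hR hξ)
      (forall_congr' fun v => locTriv_iff h (hQ₂ v) hPs hR hξ)
  have hex : ∀ (R : Z) (σ : Gal (RatFunc k)), ∃ S, 2 • S = pm W σ.toAlgHom R.1 - R.1 := by
    rintro ⟨R, s, -, hs⟩ σ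
    refine (h.bc hPs).kap_eq_zero.1 ?_
    rw [map_sub, kap_pm h hPs hPs, sub_eq_zero]
    exact hs ▸ σ.commutes s
  choose ξ hξ using hex
  have inj := @Nd.two_inj _ _ _ _ _ (h.bc hPs)
  have hmem : ∀ R, ξ R ∈ cocyc W := fun R => by
    obtain ⟨s, hs, e⟩ := R.2
    refine mem_cocyc.2 ⟨⟨(IsLocallyConstant.iff_eventually_eq _).2 fun σ => ?_, fun σ τ => inj ?_⟩,
      (loc e.symm (hξ R)).2 hs⟩
    · filter_upwards [(pm_locConst R.1).eventually_eq σ] with τ hτ
      exact inj (by rw [hξ, hξ, hτ])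
    · rw [nsmul_add, ← map_nsmul, hξ, hξ, hξ, map_sub, Point.map_map, add_comm, sub_add_sub_cancel]
      rfl
  let Φ₀ : Z →+ cocyc W := AddMonoidHom.mk' (fun R => ⟨ξ R, hmem R⟩) fun R S =>
    Subtype.ext (funext fun σ => inj (by
      change 2 • ξ (R + S) σ = 2 • (ξ R σ + ξ S σ)
      rw [nsmul_add, hξ, hξ, hξ, AddSubgroup.coe_add, map_add]
      abel))
  let Φ : Z →+ Sha W := (QuotientAddGroup.mk' _).comp Φ₀
  have hΦ : ∀ R, Φ R = 0 ↔ ∃ S, ∀ σ : Gal (RatFunc k), ξ R σ = pm W σ.toAlgHom S - S := fun R =>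
    QuotientAddGroup.eq_zero_iff (Φ₀ R)
  have e1 : ∀ c : Sha W, c ∈ Φ.range ↔ 2 • c = 0 := fun c => by
    refine ⟨?_, fun hc => ?_⟩
    · rintro ⟨R, rfl⟩
      exact (QuotientAddGroup.eq_zero_iff (2 • Φ₀ R)).2 ⟨R.1, hξ R⟩
    · induction c using QuotientAddGroup.induction_on with
      | H η =>
      obtain ⟨R, hR⟩ := (QuotientAddGroup.eq_zero_iff (2 • η)).1 hc
      have hR' : ∀ σ, 2 • η.1 σ = pm W σ.toAlgHom R - R := hR
      obtain ⟨s, hs⟩ := (InfiniteGalois.mem_range_algebraMap_iff_fixed (k := RatFunc k) (κ R)).2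
        fun σ => by
          have := (h.bc hPs).kap_eq_zero.2 ⟨_, hR' σ⟩
          rwa [map_sub, kap_pm h hPs hPs, sub_eq_zero] at this
      refine ⟨⟨R, s, (loc hs.symm hR').1 (mem_cocyc.1 η.2).2, hs⟩, congrArg QuotientAddGroup.mk
        (Subtype.ext (funext fun σ => inj ?_))⟩
      exact (hξ _ σ).trans (hR' σ).symm
  have hP : P.b = algebraMap (RatFunc k) (RatFunc k) P.b := rfl
  have e2 : (Φ.ker.map Z.subtype).map κ = (LL P (nA W)).map j := by
    have e3 : LL P (nA W) = (h.bc hP).kap.range := ((h.bc hP).range_eq.trans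
      (congrArg _ (nA_map _ W))).symm
    refine le_antisymm ?_ ?_
    · rintro _ ⟨_, ⟨R, hR, rfl⟩, rfl⟩
      obtain ⟨S, hS⟩ := (hΦ R).1 hR
      obtain ⟨R₀, hR₀⟩ := exists_of_fixed (K := RatFunc k) (T := R.1 - 2 • S) fun σ => by
        have e := hξ R σ
        rw [hS] at e
        change pm W σ.toAlgHom _ = _
        rw [map_sub, map_nsmul, eq_sub_iff_add_eq.1 e |>.symm, nsmul_sub]
        abel
      refine ⟨(h.bc hP).kap R₀, by rw [e3]; exact ⟨R₀, rfl⟩, ?_⟩
      have e := kap_pm h hP hPs (toSep _ _) R₀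
      rw [hR₀, map_sub, (h.bc hPs).kap_eq_zero.2 ⟨S, rfl⟩, sub_zero] at e
      exact e.symm
    · rintro _ ⟨s, hs, rfl⟩
      obtain ⟨R₀, rfl⟩ := e3 ▸ hs
      have e := kap_pm h hP hPs (toSep _ _) R₀
      have e4 : ∀ σ : Gal (RatFunc k), pm W σ.toAlgHom (pm W (toSep _ _) R₀) -
        pm W (toSep _ _) R₀ = 0 := fun σ => sub_eq_zero.2 (pm_toSep σ R₀)
      have hZ : pm W (toSep _ _) R₀ ∈ Z :=
        ⟨_, (loc (ξ := 0) e fun σ => by simp [e4]).1 (mem_cocyc.1 (zero_mem (cocyc W))).2, e.symm⟩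
      exact ⟨_, ⟨⟨_, hZ⟩, (hΦ _).2 ⟨0, fun σ => inj (by rw [hξ, e4]; simp)⟩, rfl⟩, e⟩
  have e3 : κ.ker ≤ Φ.ker.map Z.subtype := fun R hR => by
    obtain ⟨S, rfl⟩ := (h.bc hPs).kap_eq_zero.1 hR
    exact ⟨⟨2 • S, 0, zero_mem _, (map_zero j).trans hR.symm⟩, (hΦ _).2 ⟨S, fun σ => inj (by
      rw [hξ, nsmul_sub, ← map_nsmul])⟩, rfl⟩
  have e4 := AddSubgroup.relIndex_mul_relIndex _ _ _ e3 (AddSubgroup.map_subtype_le Φ.ker)
  rw [AddSubgroup.relIndex_ker, AddSubgroup.relIndex_ker, e2, AddSubgroup.map_comap_eq_self_of_surjective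
    (h.bc hPs).kap_surj, AddSubgroup.card_map_of_injective hj, AddSubgroup.card_map_of_injective hj,
    AddSubgroup.relIndex, AddSubgroup.addSubgroupOf,
    AddSubgroup.comap_map_eq_self_of_injective Z.subtype_injective, AddSubgroup.index_ker] at e4
  rw [← e4, selOrder_def, ← h.range_eq, ← AddSubgroup.index_ker, AddSubgroup.index_eq_card]
  congr 1
  · congr 2
    ext R
    exact h.kap_eq_zero.symm
  · exact Nat.card_congr (Equiv.subtypeEquivRight fun c => (e1 c).symm)

end Pool.Agent.Lib.MP_a3f657_nt.Two
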