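import Pool.Agent.Lib.MP_a3f657_nt.C2Ex
import Pool.Agent.Lib.MP_a3f657_nt.C2Gal

/-!
Global duality on the projective line.
-/

set_option linter.unusedSectionVars false

namespace Pool.Agent.Lib.MP_a3f657_nt.Two

open Polynomial IsDedekindDomain

open scoped Classical

section gen

variable {K : Type} [Field K] [CharP K 2]

lemma c1_mul_D (P Q : PB K) (x : K) : P.c1 (x * P.D Q.b) = Q.c1 x * P.D Q.b := by
  rw [mul_comm x, PB.D, PB.c1_sq_mul, P.c1_chain Q x]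
  ring

lemma c1_mul_dlg (Q P : PB K) (x : K) : Q.c1 (x * Q.dlg P.b) = P.c0 x * Q.dlg P.b := by
  have hb := P.b_ne
  conv_lhs => rw [P.spec x]
  rw [show (P.c0 x ^ 2 + P.b * P.c1 x ^ 2) * Q.dlg P.b =
    (P.c0 x * Q.c1 P.b / P.b) ^ 2 * P.b + (P.c1 x * Q.c1 P.b) ^ 2 by
      unfold PB.dlg PB.D; field_simp, PB.c1_add, PB.c1_sq, PB.c1_sq_mul, PB.dlg, PB.D]
  ring

lemma dlg_ne (Q P : PB K) : Q.dlg P.b ≠ 0 := div_ne_zero (Q.D_ne_zero P.ns) P.b_ne

lemma PreLoc.exists_cart (L : PreLoc K) {y : K} (h : L.r y = 0) :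
    ∃ z, y + (z + L.P.c1 z) ∈ Fil L.w 0 := by
  obtain ⟨n, hn⟩ : ∃ n : ℕ, y ∈ Fil L.w (-1 - n) := ⟨(ord L.w y).natAbs, mem_Fil_of_le (by omega)⟩
  induction n generalizing y with
  | zero =>
    have hb := L.P.b_ne
    obtain ⟨z, hz⟩ := L.mem_PW.1 ((L.tau_eq_zero (Fil.mul hn L.π_mem (by simp))).1
      (by rwa [L.tau_apply, mul_div_cancel_right₀ _ hb]))
    refine ⟨L.P.b * (z / L.P.b) ^ 2, ?_⟩
    rw [PB.c1_b_sq, show y + (L.P.b * (z / L.P.b) ^ 2 + z / L.P.b) = (y * L.P.b + wp z) / L.P.b by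
      unfold wp; field_simp]
    exact Fil.div hz (by rw [L.hπ]; omega)
  | succ n ih =>
    obtain ⟨z, hz⟩ := ih (y := L.P.c1 y) (by rwa [L.r_c1]) (PreLoc.c1_mem hn (by push_cast; omega))
    exact ⟨y + z, by
      rwa [PB.c1_add, show y + (y + z + (L.P.c1 y + L.P.c1 z)) = L.P.c1 y + (z + L.P.c1 z) by grind]⟩

lemma relIndex_alt {V : Type} [AddCommGroup V] (ψ : V →+ V →+ ZMod 2) (hψ : ∀ v, ψ v v = 0)
    (S : AddSubgroup V) (h0 : (rad ψ S).relIndex S ≠ 0) : ∃ i, (rad ψ S).relIndex S = 4 ^ i := by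
  have sym : ∀ v w, ψ v w = ψ w v := fun v w => by
    have := hψ (v + w)
    simp only [map_add, AddMonoidHom.add_apply, hψ] at this
    grind
  induction hn : (rad ψ S).relIndex S using Nat.strong_induction_on generalizing S with
  | _ n ih =>
  by_cases h : ∀ v ∈ S, ∀ w ∈ S, ψ v w = 0
  · exact ⟨0, by rw [← hn]; exact AddSubgroup.relIndex_eq_one.2 fun v hv => ⟨hv, h v hv⟩⟩
  push Not at h
  obtain ⟨a, ha, b, hb, hab⟩ := h
  have hab1 : ψ a b = 1 := (z2_cases _).resolve_left hab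
  have hba1 : ψ b a = 1 := by rw [sym, hab1]
  let f : V →+ ZMod 2 × ZMod 2 := (ψ a).prod (ψ b)
  have e1 : S.map f = ⊤ := by
    rw [eq_top_iff]
    rintro ⟨x, y⟩ -
    refine ⟨x.val • b + y.val • a, add_mem (nsmul_mem hb _) (nsmul_mem ha _), ?_⟩
    simp [f, hψ, hab1, hba1]
  have e2 : (f.ker ⊓ S).relIndex S = 4 := by
    rw [AddSubgroup.inf_relIndex_right, AddSubgroup.relIndex_ker, e1]; simp
  have e4 : rad ψ (f.ker ⊓ S) = rad ψ S := by
    refine le_antisymm (fun v hv => ?_) fun v hv => ?_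
    · refine ⟨hv.1.2, fun w hw => ?_⟩
      have h1 : ψ a v = 0 ∧ ψ b v = 0 := Prod.ext_iff.1 hv.1.1
      have := hv.2 (w + (ψ b w).val • a + (ψ a w).val • b) ⟨by
        simp [f, hψ, hab1, hba1, z2_add_self],
        add_mem (add_mem hw (nsmul_mem ha _)) (nsmul_mem hb _)⟩
      simpa [sym v a, sym v b, h1.1, h1.2] using this
    · refine ⟨⟨?_, hv.1⟩, fun w hw => hv.2 w hw.2⟩
      simp [f, sym a v, sym b v, hv.2 a ha, hv.2 b hb]
  have e3 := AddSubgroup.relIndex_mul_relIndex (rad ψ (f.ker ⊓ S)) (f.ker ⊓ S) S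
    (fun _ h => h.1) inf_le_right
  rw [e2] at e3
  conv_rhs at e3 => rw [e4]
  obtain ⟨i, hi⟩ := ih _ (by omega) (f.ker ⊓ S) (by omega) rfl
  exact ⟨i + 1, by rw [← hn, ← e3, hi, pow_succ]⟩

end gen

variable {k : Type} [Field k] [Finite k] [CharP k 2]

/-- The completion at a place. -/
noncomputable def cmp : (v : Pl k) → Cmp (pl v)
  | none => ⟨RatFunc.CompletionAtInfty k, algebraMap _ _, _, exists_cpl_none.choose_spec⟩
  | some v => ⟨v.adicCompletion (RatFunc k), algebraMap _ _, _, (exists_cpl_some v).choose_spec⟩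

variable {P : PB (RatFunc k)} {A α u x y s : RatFunc k} {S : Finset (Pl k)} {v : Pl k}

lemma mem_Sel : s ∈ Sel P A ↔ ∀ v, s ∈ (cmp v).Im P A := by
  rw [Sel, AddSubgroup.mem_inf, AddSubgroup.mem_iInf, Option.forall]
  exact and_congr (mem_LocIm ((cmp none).Q_b P))
    (forall_congr' fun v => mem_LocIm ((cmp (some v)).Q_b P))

lemma selOrder_eq' {W : WeierstrassCurve (RatFunc k)} (h : Nd W P) :
    selOrder W = Nat.card (Sel P (nA W)) :=
  selOrder_eq h ⟨_, (cmp none).Q_b P⟩ fun v => ⟨_, (cmp (some v)).Q_b P⟩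

lemma dlg_eq (v : Pl k) (x : RatFunc k) : (PX k).dlg x = (pl v).P.dlg x * (PX k).D (unif v) := by
  rw [PB.dlg, D_eq v, PB.dlg]; ring

lemma rho_eq (v : Pl k) (x : RatFunc k) : (pl v).rho P x = res v (x * (PX k).dlg P.b) :=
  (res_mul_dlog v x P.b).symm

lemma sum_rho (S : Finset (Pl k)) (h : ∀ v ∉ S, (pl v).rho P x = 0) :
    ∑ v ∈ S, (pl v).rho P x = 0 := by
  simp only [rho_eq] at h ⊢
  exact sum_res S h

lemma mul_D_mem {a : ℤ} : x * (PX k).D (unif v) ∈ Fil (val v) (a + eD v) ↔ x ∈ Fil (val v) a :=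
  ⟨fun h => Fil.of_mul h (D_unif_ne v) (by rw [ord_D_unif]; omega),
    fun h => Fil.mul h (mem_Fil_ord _) (by rw [ord_D_unif])⟩

lemma mul_dlg_mem {a : ℤ} : u * (PX k).dlg x ∈ Fil (val v) (a + eD v) ↔
    u * (pl v).P.dlg x ∈ Fil (val v) a := by rw [dlg_eq v, ← mul_assoc, mul_D_mem]

lemma c1_mem_pl {a c : ℤ} (h : y ∈ Fil (val v) (a + eD v)) (hc : 2 * c ≤ a) :
    (PX k).c1 y ∈ Fil (val v) (c + eD v) := by
  obtain ⟨z, rfl⟩ : ∃ z, y = z * (PX k).D (unif v) :=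
    ⟨y / _, (div_mul_cancel₀ _ (D_unif_ne v)).symm⟩
  rw [mul_D_mem] at h
  rw [← pl_b, c1_mul_D, pl_b, mul_D_mem]
  exact PreLoc.c1_mem (L := pl v) h hc

/-- The functions that are regular outside `S`. -/
noncomputable def OS (S : Finset (Pl k)) : AddSubgroup (RatFunc k) := ⨅ v ∉ S, Fil (val v) 0

lemma mem_OS : x ∈ OS S ↔ ∀ v ∉ S, x ∈ Fil (val v) 0 := by simp [OS, AddSubgroup.mem_iInf]

lemma OS_mul (hx : x ∈ OS S) (hy : y ∈ OS S) : x * y ∈ OS S :=
  mem_OS.2 fun v hv => Fil.mul (mem_OS.1 hx v hv) (mem_OS.1 hy v hv) le_rfl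

lemma OS_wp (hx : x ∈ OS S) : wp x ∈ OS S :=
  mem_OS.2 fun v hv => Fil.wp (mem_OS.1 hx v hv) le_rfl le_rfl

lemma eD_of_not_mem (hS : none ∈ S) (hv : v ∉ S) : eD v = 0 := by
  cases v
  · exact absurd hS hv
  · rfl

lemma res_OS (hS : none ∈ S) (hx : x ∈ OS S) : ∑ v ∈ S, res v x = 0 :=
  sum_res S fun v hv => res_int (by rw [eD_of_not_mem hS hv]; exact mem_OS.1 hx v hv)

lemma exists_cart_poly (a : k[X]) : ∃ z : k[X], ι z + (PX k).c1 (ι z) = ι a := by
  induction hn : a.natDegree using Nat.strong_induction_on generalizing a with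
  | _ n ih =>
  obtain ⟨g, h, rfl⟩ := exists_parts a
  have e := (PX_parts g h).2
  by_cases h0 : h = 0
  · exact ⟨_, by rw [e, h0, ι, ι, map_zero, add_zero]⟩
  have h1 : ι h ∈ Fil (val none) ((-n - 2) / 2 + eD (k := k) none) := e ▸ c1_mem_pl
    (a := -n - 2) (by simpa [eD] using ι_mem_none.2 hn.le) (by omega)
  rw [mem_Fil_iff (ι_ne h0), ord_none h0, eD] at h1
  obtain ⟨z, hz⟩ := ih _ (by omega) h rfl
  refine ⟨g ^ 2 + X * h ^ 2 + z, ?_⟩
  rw [ι, map_add, PB.c1_add, e]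
  grind

lemma exists_cart (hS : none ∈ S) (hy : y ∈ OS S) (h : ∀ v ∈ S, res v y = 0) :
    ∃ z ∈ OS S, z + (PX k).c1 z = y := by
  have h1 : ∀ v, ∃ z, v ∈ S → y + (z + (PX k).c1 z) ∈ Fil (val v) (0 + eD v) := fun v => by
    by_cases hv : v ∈ S
    · obtain ⟨z, hz⟩ := (pl v).exists_cart (y := y / (PX k).D (unif v))
        (by rw [pl_r, div_mul_cancel₀ _ (D_unif_ne v), h v hv])
      refine ⟨z * (PX k).D (unif v), fun _ => ?_⟩
      rw [← pl_b, c1_mul_D, pl_b, ← add_mul, ← div_mul_cancel₀ y (D_unif_ne v), ← add_mul, mul_D_mem]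
      exact hz
    · exact ⟨0, fun h => absurd h hv⟩
  choose c hc using h1
  obtain ⟨x, h2, h3⟩ := exists_principal S c
  obtain ⟨a, ha⟩ := exists_poly (x := y + (x + (PX k).c1 x)) fun v => by
    by_cases hv : some v ∈ S
    · have h4 := h2 _ hv
      have h5 := add_mem (hc _ hv) (add_mem h4 (c1_mem_pl (a := 0) (c := 0) h4 le_rfl))
      rwa [CharTwo.sub_eq_add, PB.c1_add, show ∀ a b c d e : RatFunc k,
        a + (b + c) + (b + d + (c + e)) = a + (d + e) by grind] at h5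
    · exact add_mem (mem_OS.1 hy _ hv) (add_mem (h3 _ hv) (c1_mem_pl (a := 0) (c := 0) (h3 _ hv) le_rfl))
  obtain ⟨z, hz⟩ := exists_cart_poly a
  refine ⟨x + ι z, add_mem (mem_OS.2 h3) (mem_OS.2 ?_), by rw [PB.c1_add]; grind⟩
  rintro (_ | v) hv
  exacts [absurd hS hv, ι_int _ _]

lemma exists_Ht (hS : none ∈ S) (hB : ∀ v ∉ S, ord (val v) P.b = 0) (hα : α ∈ OS S)
    (h : ∀ v ∈ S, (pl v).rho P α = 0) : ∃ u, (α, u) ∈ Ht P ∧ u * (PX k).dlg P.b ∈ OS S := by
  have hω : (PX k).dlg P.b ∈ OS S := mem_OS.2 fun v hv => by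
    have := (mul_dlg_mem (u := 1) (v := v) (x := P.b) (a := 0)).2 (by
      rw [one_mul]; exact PreLoc.dlog_mem_even (L := pl v) (by rw [pl_w, hB v hv]; rfl))
    rwa [one_mul, eD_of_not_mem hS hv] at this
  obtain ⟨z, hz, e⟩ := exists_cart hS (y := (PX k).c1 (α * (PX k).dlg P.b)) (mem_OS.2 fun v hv => by
    have := c1_mem_pl (v := v) (a := 0) (c := 0) (y := α * (PX k).dlg P.b)
      (by rw [eD_of_not_mem hS hv]; exact mem_OS.1 (OS_mul hα hω) v hv) le_rfl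
    rwa [eD_of_not_mem hS hv] at this) fun v hv => by rw [res_c1, ← rho_eq, h v hv]
  obtain ⟨u, rfl⟩ : ∃ u, z = u * (PX k).dlg P.b := ⟨z / _, (div_mul_cancel₀ _ (dlg_ne _ P)).symm⟩
  refine ⟨u, ?_, hz⟩
  rw [c1_mul_dlg, c1_mul_dlg, ← add_mul, mul_left_inj' (dlg_ne _ P)] at e
  rw [mem_Ht, PB.c0_add, PB.c0_wp, e, two_K]

lemma dlg_gen_mem {p : HeightOneSpectrum k[X]} (h : v ≠ some p) :
    (PX k).dlg (ι (gen p)) ∈ Fil (val v) (if v = none then 1 else 0) := by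
  rcases v with _ | v
  · simpa [eD] using (mul_dlg_mem (u := 1) (v := none) (x := ι (gen p)) (a := -1)).2
      (by rw [one_mul]; exact PreLoc.dlog_mem (L := pl none) _)
  · rw [PB.dlg, D_ι]
    exact div_int _ fun e => h (by rw [gen_dvd_gen e])

lemma dlg_gen_not_mem (p : HeightOneSpectrum k[X]) :
    (PX k).dlg (ι (gen p)) ∉ Fil (val (some p)) 0 := fun h => by
  have h1 := not_gen_dvd_derivative p
  have h2 : derivative (gen p) ≠ 0 := fun e => h1 (by simp [e])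
  rw [PB.dlg, D_ι, mem_Fil_iff (div_ne_zero (ι_ne h2) (ι_ne (gen_ne p))),
    ord_div (ι_ne h2) (ι_ne (gen_ne p)), ord_ι_unit h1, ord_gen] at h
  omega

lemma dlg_gen_OS {p : HeightOneSpectrum k[X]} (hS : none ∈ S) (hp : some p ∈ S) :
    (PX k).dlg (ι (gen p)) ∈ OS S := mem_OS.2 fun v hv => by
  have := dlg_gen_mem (v := v) (p := p) fun e => hv (e ▸ hp)
  rwa [if_neg fun e => hv (by rw [e]; exact hS)] at this

lemma dlg_cases (p : HeightOneSpectrum k[X]) (x : RatFunc k) : (PX k).dlg x ∈ Fil (val (some p)) 0 ∨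
    (PX k).dlg x + (PX k).dlg (ι (gen p)) ∈ Fil (val (some p)) 0 := by
  have key : ∀ x, ord (val (some p)) x % 2 = 0 → (PX k).dlg x ∈ Fil (val (some p)) 0 := fun x hx => by
    simpa [eD] using (mul_dlg_mem (u := 1) (v := some p) (x := x) (a := 0)).2
      (by rw [one_mul]; exact PreLoc.dlog_mem_even (L := pl (some p)) hx)
  by_cases hx : x = 0
  · simp [hx, PB.dlg]
  rcases Int.emod_two_eq_zero_or_one (ord (val (some p)) x) with h | h
  · exact Or.inl (key x h)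
  · rw [← PB.dlg_mul _ hx (ι_ne (gen_ne p))]
    exact Or.inr (key _ (by rw [ord_mul hx (ι_ne (gen_ne p)), ord_gen]; omega))

variable (P S) in
/-- Logarithmic forms that are regular outside `S`. -/
noncomputable def LogS : AddSubgroup (RatFunc k) :=
  Log P ⊓ (OS S).comap (AddMonoidHom.mulRight ((PX k).dlg P.b))

lemma mem_LogS : u ∈ LogS P S ↔ u ∈ Log P ∧ u * (PX k).dlg P.b ∈ OS S := Iff.rfl

lemma Log_none (hu : u ∈ Log P) : u * (PX k).dlg P.b ∈ Fil (val none) 1 := by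
  simpa [eD] using (mul_dlg_mem (v := none) (a := -1)).2 ((pl none).Log_omega_mem P hu)

lemma Log_eq_zero (hu : u ∈ Log P) (h : ∀ v, u * (PX k).dlg P.b ∈ Fil (val (some v)) 0) : u = 0 := by
  obtain ⟨a, ha⟩ := exists_poly h
  have h1 := eq_zero_of_none (ha ▸ Log_none hu)
  rw [h1, ι, map_zero] at ha
  exact (mul_eq_zero.1 ha.symm).resolve_right (dlg_ne _ P)

lemma card_LogS (hS : none ∈ S) : Nat.card (LogS P S) * 2 = 2 ^ S.card := by
  let g : (S.eraseNone → ZMod 2) → RatFunc k := fun ε => ∑ p, (ε p).val • P.dl (ι (gen p.1))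
  have hg : ∀ ε, g ε * (PX k).dlg P.b = ∑ p, (ε p).val • (PX k).dlg (ι (gen p.1)) := fun ε => by
    simp only [g, Finset.sum_mul, smul_mul_assoc, dl_mul_dlg]
  have hm : ∀ ε, g ε ∈ LogS P S := fun ε => ⟨sum_mem fun p _ => nsmul_mem (dl_mem_Log _) _, by
    change g ε * _ ∈ OS S
    rw [hg]
    exact sum_mem fun p _ => nsmul_mem (dlg_gen_OS hS (Finset.mem_eraseNone.1 p.2)) _⟩
  have h1 : ∀ ε (p : S.eraseNone), g ε * (PX k).dlg P.b + (ε p).val • (PX k).dlg (ι (gen p.1)) ∈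
      Fil (val (some p.1)) 0 := fun ε p => by
    rw [hg, ← Finset.add_sum_erase _ _ (Finset.mem_univ p), add_right_comm, two_K, zero_add]
    refine sum_mem fun p' hp' => nsmul_mem ?_ _
    simpa using dlg_gen_mem (v := some p.1) (p := p'.1) fun e =>
      Finset.ne_of_mem_erase hp' (Subtype.ext (Option.some.inj e).symm)
  have h2 : Nat.card (S.eraseNone → ZMod 2) = Nat.card (LogS P S) := by
    refine Nat.card_congr (Equiv.ofBijective (fun ε => ⟨g ε, hm ε⟩) ⟨fun ε ε' e => ?_, ?_⟩)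
    · funext p
      have e' : g ε = g ε' := congrArg Subtype.val e
      have h3 := add_mem (h1 ε p) (h1 ε' p)
      rw [e', add_add_add_comm, two_K, zero_add] at h3
      have h4 := dlg_gen_not_mem p.1
      rcases z2_cases (ε p) with h | h <;> rcases z2_cases (ε' p) with h' | h' <;>
        simp_all [ZMod.val_one]
    · rintro ⟨u, hu, hu'⟩
      refine ⟨fun p => if u * (PX k).dlg P.b ∈ Fil (val (some p.1)) 0 then 0 else 1,
        Subtype.ext ?_⟩
      rw [← CharTwo.add_eq_zero]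
      refine Log_eq_zero (add_mem (hm _).1 hu) fun v => ?_
      rw [add_mul]
      by_cases hv : some v ∈ S
      · have h3 := h1 (fun p => if u * (PX k).dlg P.b ∈ Fil (val (some p.1)) 0 then 0 else 1)
          ⟨v, Finset.mem_eraseNone.2 hv⟩
        by_cases h4 : u * (PX k).dlg P.b ∈ Fil (val (some v)) 0
        · exact add_mem (by simpa [h4] using h3) h4
        · obtain ⟨x, -, rfl⟩ := P.exists_dl (mem_Log.1 hu)
          rw [dl_mul_dlg] at h3 h4 ⊢
          have h5 := add_mem h3 ((dlg_cases v x).resolve_left h4)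
          simp only [h4, if_false, ZMod.val_one, one_smul] at h5
          rwa [add_add_add_comm, two_K, add_zero] at h5
      · exact add_mem (mem_OS.1 (hm _).2 _ hv) (mem_OS.1 hu' _ hv)
  rw [← h2, Nat.card_fun, Nat.card_zmod, Nat.card_eq_fintype_card, Fintype.card_coe, ← pow_succ,
    Finset.card_eraseNone_of_mem hS]
  congr 1
  have := Finset.card_pos.2 ⟨_, hS⟩
  omega

lemma exists_OS (hα : ∀ v ∉ S, ∃ c, α + wp c ∈ Fil (val v) 0) : ∃ c, α + wp c ∈ OS S := by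
  choose! c hc using hα
  obtain ⟨x, h1, h2⟩ := exists_principal ((finite_poles α).toFinset \ S) c
  refine ⟨x, mem_OS.2 fun v hv => ?_⟩
  by_cases h : α ∈ Fil (val v) 0
  · exact add_mem h (Fil.wp (h2 v (by simp [h])) le_rfl le_rfl)
  · rw [show α + wp x = α + wp (c v) + wp (c v - x) by unfold wp; grind]
    exact add_mem (hc v hv) (Fil.wp (h1 v (by simp [h, hv])) le_rfl le_rfl)

lemma eq_wp_of_PW (hS : none ∈ S) (hα : α ∈ OS S) (h : ∀ v ∈ S, α ∈ (pl v).PW) :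
    ∃ c, α = wp c := by
  obtain ⟨c, hc⟩ := exists_OS (S := ∅) (α := α) fun v _ => by
    by_cases hv : v ∈ S
    · obtain ⟨z, hz⟩ := (pl v).mem_PW.1 (h v hv)
      exact ⟨z, Fil.mono hz (by omega)⟩
    · exact ⟨0, by simpa using mem_OS.1 hα v hv⟩
  obtain ⟨δ, hδ⟩ := exists_const fun v => mem_OS.1 hc v (by simp)
  obtain ⟨z, hz⟩ := (pl none).mem_PW.1 (add_mem (h _ hS) ((pl none).wp_mem_PW c))
  rw [← hδ] at hz
  have h1 : wp z ∈ Fil (val none) 0 := by
    simpa [← add_assoc, two_K] using add_mem (const_int none δ) (Fil.mono hz (b := 0) (by omega))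
  obtain ⟨e, he⟩ := exists_rep_none (Fil.of_wp h1 (by omega) le_rfl)
  have h2 := add_mem hz (Fil.wp he le_rfl (by omega))
  rw [show ι (C δ) + wp z + wp (z + ι (C e)) = ι (C δ + wp (C e)) by
    simp only [wp, ι, map_add, map_pow]; grind] at h2
  have h3 := congrArg ι (eq_zero_of_none h2)
  refine ⟨c + ι (C e), ?_⟩
  simp only [wp, ι, map_add, map_pow, map_zero] at h3 hδ ⊢
  grind

lemma exists_global (hS : none ∈ S) (a : Pl k → RatFunc k)
    (h : ∀ u ∈ LogS P S, ∑ v ∈ S, (pl v).rho P (a v * u) = 0) :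
    ∃ α ∈ OS S, ∀ v ∈ S, α + a v ∈ (pl v).PW := by
  obtain ⟨β, h1, h2⟩ := exists_principal S a
  obtain ⟨δ, hδ⟩ := exists_rep_none (h1 _ hS)
  have h3 : β + ι (C δ) ∈ OS S := add_mem (mem_OS.2 h2) (mem_OS.2 fun v _ => const_int v δ)
  have h4 : ∀ v ∈ S, β + ι (C δ) + a v ∈ Fil (val v) 0 := fun v hv => by
    convert add_mem (h1 v hv) (const_int v δ) using 1
    grind
  have h5 : β + ι (C δ) + a none ∈ Fil (val none) 1 := by convert hδ using 1; grind
  refine ⟨_, h3, ?_⟩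
  rintro (_ | p) hp
  · exact (pl none).Fil_le_PW h5
  have h6 := h (P.dl (ι (gen p))) ⟨dl_mem_Log _, by
    change _ * _ ∈ OS S
    rw [dl_mul_dlg]; exact dlg_gen_OS hS hp⟩
  have h7 := res_OS hS (OS_mul h3 (dlg_gen_OS hS hp))
  simp only [rho_eq, mul_assoc, dl_mul_dlg] at h6
  have h8 : ∑ v ∈ S, res v ((β + ι (C δ) + a v) * (PX k).dlg (ι (gen p))) = 0 := by
    simp only [add_mul (β + ι (C δ)), map_add, Finset.sum_add_distrib, h6, h7, add_zero]
  rw [Finset.sum_eq_single_of_mem _ hp fun v hv hne => res_int ?_, PB.dlg,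
    res_dlog _ (h4 _ hp) (ι_ne (gen_ne p)), ord_gen, Int.cast_one, one_mul] at h8
  · exact ((pl (some p)).tau_eq_zero (h4 _ hp)).1 h8
  · rcases v with _ | v
    · exact Fil.mul h5 (dlg_gen_mem hne) (by simp [eD])
    · exact Fil.mul (h4 _ hv) (dlg_gen_mem hne) (by simp [eD])

end Pool.Agent.Lib.MP_a3f657_nt.Two
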