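import Pool.Agent.Lib.MP_a3f657_nt.C2Mom

/-!
Alternating forms over the field with two elements, and the limit law (definitions, statements).
-/

namespace Pool.Agent.Lib.MP_a3f657_nt.Two.Win

open scoped Classical

variable {G : Type} [AddCommGroup G] {s : ℕ}

/-- Linear independence over the field with two elements. -/
def Ind (v : Fin s → G) : Prop := ∀ t : Finset (Fin s), t.Nonempty → ∑ i ∈ t, v i ≠ 0

/-- `v'` is obtained from `v` by a symmetric matrix. -/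
def Dgn (v v' : Fin s → G) : Prop :=
  ∃ S : Fin s → Finset (Fin s), (∀ i l, l ∈ S i ↔ i ∈ S l) ∧ ∀ i, v' i = ∑ l ∈ S i, v l

/-- `B` is an alternating bilinear form on `V`. -/
structure Alt (V : AddSubgroup G) (B : G → G → ZMod 2) : Prop where
  add₁ : ∀ x ∈ V, ∀ y ∈ V, ∀ z ∈ V, B (x + y) z = B x z + B y z
  add₂ : ∀ x ∈ V, ∀ y ∈ V, ∀ z ∈ V, B x (y + z) = B x y + B x z
  alt : ∀ x ∈ V, B x x = 0

/-- The radical. -/
def Rd (V : AddSubgroup G) (B : G → G → ZMod 2) : Set G := {x | x ∈ V ∧ ∀ y ∈ V, B x y = 0}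

/-- The elements of a finite subgroup. -/
noncomputable def fs (V : AddSubgroup G) : Finset G :=
  if h : (V : Set G).Finite then h.toFinset else ∅

/-- The nondegenerate pairs of tuples in `V`. -/
noncomputable def tup (V : AddSubgroup G) (s : ℕ) : Finset ((Fin s → G) × (Fin s → G)) :=
  ((Fintype.piFinset fun _ => fs V) ×ˢ Fintype.piFinset fun _ => fs V).filter fun x =>
    Ind x.1 ∧ ¬ Dgn x.1 x.2

/-- The error term of the moment identity. -/
noncomputable def Er (V : AddSubgroup G) (B : G → G → ZMod 2) (s : ℕ) : ℝ :=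
  ∑ x ∈ tup V s, sr (∑ i, B (x.1 i) (x.2 i))

/-- The number of independent `s`-tuples in a space with `x` elements. -/
noncomputable def Is (s : ℕ) (x : ℝ) : ℝ := ∏ i ∈ Finset.range s, (x - 2 ^ i)

/-- The limit law. -/
noncomputable def PR (r : ℕ) : ℝ :=
  (∏' j : ℕ, (1 + (2 : ℝ)⁻¹ ^ j))⁻¹ * ∏ i ∈ Finset.range r, 2 / ((2 : ℝ) ^ (i + 1) - 1)

/-- The moment identity. -/
def MomId : Prop :=
  ∀ (G : Type) [AddCommGroup G], (∀ x : G, x + x = 0) → ∀ (V : AddSubgroup G)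
    (B : G → G → ZMod 2), (V : Set G).Finite → Alt V B →
    ∃ r N : ℕ, (Rd V B).ncard = 2 ^ r ∧ Nat.card V = 2 ^ N ∧ r % 2 = N % 2 ∧ ∀ s : ℕ,
      (2 ^ N : ℝ) ^ s * Is s (2 ^ r) = 2 ^ (s * (s + 1) / 2) * Is s (2 ^ N) + Er V B s

/-- Normal form of a nondegenerate pair of tuples. -/
def NormF : Prop :=
  ∀ (G : Type) [AddCommGroup G], (∀ x : G, x + x = 0) → ∀ (U₀ : AddSubgroup G) (s : ℕ)
    (v v' : Fin s → G), Ind v → ¬ Dgn v v' →
    (∀ x ∈ AddSubgroup.closure (Set.range v ∪ Set.range v'),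
      ∀ y ∈ AddSubgroup.closure (Set.range v ∪ Set.range v'), x ∉ U₀ → y ∉ U₀ → x + y ∈ U₀) →
    ∃ (ρ : ℕ) (a b : Fin ρ → G) (i₀ : Fin ρ), ρ ≤ 2 * s ∧ Ind a ∧ (∀ i, b i ∈ U₀) ∧
      (∀ t : Finset (Fin ρ), b i₀ + ∑ i ∈ t, a i ≠ 0) ∧
      AddSubgroup.closure (Set.range a ∪ Set.range b) =
        AddSubgroup.closure (Set.range v ∪ Set.range v') ∧
      ∀ (V : AddSubgroup G) (B : G → G → ZMod 2), Alt V B → (∀ i, v i ∈ V ∧ v' i ∈ V) →
        ∑ i, B (v i) (v' i) = ∑ i, B (a i) (b i)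

/-- The limit law is a probability with equal mass on the two parity classes. -/
def LawA : Prop := HasSum PR 1 ∧ HasSum (fun r => (-1) ^ r * PR r) 0

/-- The moments and the signed moments determine the law. -/
def Law : Prop :=
  ∀ (r₀ : ℕ) (ε : ℝ), 0 < ε → ∃ (S : ℕ) (δ : ℝ), 0 < δ ∧ ∀ (ι : Type) (Ω : Finset ι) (r : ι → ℕ),
    Ω.Nonempty →
    (∀ s ≤ S, |∑ x ∈ Ω, (Is s (2 ^ r x) - 2 ^ (s * (s + 1) / 2))| ≤ δ * Ω.card ∧
      |∑ x ∈ Ω, (-1) ^ r x * Is s (2 ^ r x)| ≤ δ * Ω.card) →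
    |((Ω.filter fun x => r x = r₀).card : ℝ) / Ω.card - PR r₀| ≤ ε

end Pool.Agent.Lib.MP_a3f657_nt.Two.Win
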