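import Pool.Agent.Lib.MP_a3f657_nt.WAnDefs
import Pool.Agent.Lib.MP_a3f657_nt.WAlgDefs
import Pool.Agent.Lib.MP_a3f657_nt.C2Gp

/-!
The curves `y ^ 2 + x y = x ^ 3 + a x ^ 2 + b` (definitions and statements).
-/

namespace Pool.Agent.Lib.MP_a3f657_nt.Two.Win

open Polynomial

open scoped Classical

variable {k : Type} [Field k] [Fintype k] [CharP k 2]

variable (k) in
/-- A constant of absolute trace one. -/
noncomputable def dl₀ : k := (tr_ne (k := k)).choose

variable (k) in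
/-- Reduced polynomials. -/
noncomputable def Red : AddSubgroup k[X] where
  carrier := {h | (∀ i, Even i → i ≠ 0 → h.coeff i = 0) ∧ (h.coeff 0 = 0 ∨ h.coeff 0 = dl₀ k)}
  zero_mem' := ⟨fun _ _ _ => rfl, Or.inl rfl⟩
  add_mem' := by
    rintro f g ⟨h1, h2⟩ ⟨h3, h4⟩
    refine ⟨fun i hi h0 => by rw [coeff_add, h1 i hi h0, h3 i hi h0, add_zero], ?_⟩
    rw [coeff_add]
    rcases h2 with h2 | h2 <;> rcases h4 with h4 | h4 <;> simp [h2, h4, CharTwo.add_self_eq_zero]
  neg_mem' := by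
    intro f hf
    rwa [CharTwo.neg_eq]

/-- The 2-basis `b`. -/
noncomputable def PD (b : k[X]) : PB (RatFunc k) :=
  if h : ∀ r : RatFunc k, r ^ 2 ≠ ι b then (PX k).change (ι b) h else PX k

/-- The curve. -/
noncomputable def EE (a b : k[X]) : WeierstrassCurve (RatFunc k) := EW (ι a) (ι b)

/-- The local image at infinity. -/
noncomputable def WW (a b : k[X]) : AddSubgroup k[X] :=
  Red k ⊓ ((cmp none).AA (PD b) (ι a)).comap (algebraMap k[X] (RatFunc k)).toAddMonoidHom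

/-- The elements of the local image that split at all primes of `b`. -/
noncomputable def VV (a b : k[X]) : AddSubgroup k[X] :=
  WW a b ⊓ ⨅ p ∈ pr b, (tp p).ker.comap (algebraMap k[X] (RatFunc k)).toAddMonoidHom

/-- A chosen root modulo `p`. -/
noncomputable def rt (p h : k[X]) : k[X] :=
  if hc : (Rt p (ι h)).Nonempty then hc.choose else 0

/-- The local term at infinity. -/
noncomputable def cW (a b h h' : k[X]) : ZMod 2 := (cmp none).cc (PD b) (ι a) (ι h) (ι h')

/-- The pairing. -/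
noncomputable def BB (a b h h' : k[X]) : ZMod 2 :=
  cW a b h h' + ∑ p ∈ pr b, tp p (ι (rt p h) * ι h')

/-- The number of sets of primes that are killed by the local image. -/
noncomputable def nJ (a b : k[X]) : ℕ :=
  ((pr b).powerset.filter fun s => ∀ h ∈ WW a b, ∑ p ∈ s, tp p (ι h) = 0).card

/-- The polynomials killed by the residue functionals. -/
def GG (a G : k[X]) : Prop :=
  ∀ (κ : ℕ) (c : k), a.natDegree < 2 * κ → c ≠ 0 →
    res none (ι G / ι (a ^ 2 + (C c * X ^ κ) ^ 4)) = 0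

/-- `b` has a factorisation that is killed by the residue functionals. -/
def Bad (a b : k[X]) : Prop :=
  ∃ f g : k[X], f.Monic ∧ 0 < f.natDegree ∧ 2 * f.natDegree ≤ b.natDegree ∧ b = f * g ∧
    GG a (g * derivative f)

/-- The sign. -/
noncomputable def sgW (a b : k[X]) : ℝ :=
  (-1) ^ (Nat.log 2 (Nat.card (WW a b)) + 1) * (-1) ^ (pr b).card

/-- Mild conditions on the degrees. -/
def Dg (a : k[X]) (n : ℕ) : Prop :=
  Odd a.natDegree ∧ Odd n ∧ 2 * a.natDegree ≤ n ∧ 2 * n ≤ 5 * a.natDegree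

/-- The window. -/
def Wn (M : ℕ) (a : k[X]) (n : ℕ) : Prop :=
  Odd a.natDegree ∧ Odd n ∧ M ≤ a.natDegree ∧
    2 * a.natDegree + M * Nat.log 2 a.natDegree ≤ n ∧ M * n ≤ (2 * M + 1) * a.natDegree

/-- Reduction modulo the values of `c ^ 2 + c`. -/
def RedP : Prop :=
  ∀ (k : Type) [Field k] [Fintype k] [CharP k 2],
    (∀ h : k[X], ∃ r ∈ Red k, ∃ c : k[X], h = r + wp c ∧ r.natDegree ≤ h.natDegree) ∧
    ∀ r ∈ Red k, ι r ∈ (pl none).PW → r = 0

/-- The Selmer group and the radical of the pairing. -/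
def Arith : Prop :=
  ∀ (k : Type) [Field k] [Fintype k] [CharP k 2] (a b : k[X]), Squarefree b → 0 < b.natDegree →
    (WW a b : Set k[X]).Finite ∧ Alt (VV a b) (BB a b) ∧
    selOrder (EE a b) * 2 = nJ a b * (Rd (VV a b) (BB a b)).ncard ∧
    Nat.card (VV a b) * 2 ^ (pr b).card = Nat.card (WW a b) * nJ a b ∧
    ∀ h ∈ WW a b, ∑ p ∈ pr b, tp p (ι h) = 0

/-- Degrees of the elements of the local image. -/
def LocA : Prop :=
  ∀ (k : Type) [Field k] [Fintype k] [CharP k 2] (a : k[X]), ∃ a₀ ∈ Red k,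
    a₀.natDegree ≤ a.natDegree ∧ ∀ b : k[X], Dg a b.natDegree →
      (∀ h ∈ WW a b, h.natDegree ≤ b.natDegree - 2 * a.natDegree ∨
        (h + a₀).natDegree ≤ (b.natDegree - a.natDegree) / 2) ∧
      ∀ h ∈ WW a b, ∀ h' ∈ WW a b, b.natDegree - 2 * a.natDegree < h.natDegree →
        b.natDegree - 2 * a.natDegree < h'.natDegree →
        (h + h').natDegree ≤ b.natDegree - 2 * a.natDegree

/-- The local data depend only on the top coefficients. -/
def LocB : Prop :=
  ∀ (k : Type) [Field k] [Fintype k] [CharP k 2] (a b b' : k[X]), Dg a b.natDegree →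
    (b - b').degree < a.natDegree → WW a b = WW a b' ∧
      ∀ h ∈ WW a b, ∀ h' ∈ WW a b, h'.natDegree ≤ b.natDegree - 2 * a.natDegree →
        cW a b h h' = cW a b' h h'

/-- The local image is large and kills few sets of primes. -/
def LocC : Prop :=
  ∀ (k : Type) [Field k] [Fintype k] [CharP k 2] (a b : k[X]), Dg a b.natDegree → Squarefree b →
    (WW a b : Set k[X]).Finite → (∀ h ∈ WW a b, ∑ p ∈ pr b, tp p (ι h) = 0) →
    Fintype.card k ^ ((b.natDegree - 2 * a.natDegree) / 4 - 1) ≤ Nat.card (WW a b) ∧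
      (nJ a b = 2 ∨ Bad a b)

/-- Few polynomials are bad. -/
def BadC : Prop :=
  ∀ (k : Type) [Field k] [Fintype k] [CharP k 2] (a : k[X]) (n : ℕ), Dg a n →
    ((Om k n).filter (Bad a)).card * Fintype.card k ^ ((n - 2 * a.natDegree) / 8) ≤
      n * Fintype.card k ^ (n + 4)

/-- Cancellation for one pair of tuples. -/
def TupB : Prop :=
  ∀ (k : Type) [Field k] [Fintype k] [CharP k 2] (s : ℕ) (θ : ℝ), 1 < θ → ∃ C : ℝ, 0 ≤ C ∧
    ∀ (a : k[X]) (n : ℕ), Dg a n → ∀ (j : ℕ) (v v' : Fin s → k[X]), Ind v → ¬ Dgn v v' →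
      |∑ b ∈ (Om k n).filter fun b => ∀ i, v i ∈ VV a b ∧ v' i ∈ VV a b,
        sgW a b ^ j * ((2 ^ (pr b).card / Nat.card (WW a b) : ℝ) ^ s *
          sr (∑ i, BB a b (v i) (v' i)))| ≤
        C * √(Fintype.card k) ^ (n + (n - a.natDegree)) * θ ^ (2 * n)

/-- The error terms are small on average. -/
def ErrP : Prop :=
  ∀ (k : Type) [Field k] [Fintype k] [CharP k 2] (s : ℕ) (ε : ℝ), 0 < ε → ∃ M : ℕ,
    ∀ (a : k[X]) (n : ℕ), Wn M a n → ∀ j : ℕ,
      |∑ b ∈ Om k n, sgW a b ^ j * ((2 ^ (pr b).card / Nat.card (WW a b) : ℝ) ^ s *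
        Er (VV a b) (BB a b) s)| ≤ ε * Fintype.card k ^ n

/-- The sign is equidistributed. -/
def MuP : Prop :=
  ∀ (k : Type) [Field k] [Fintype k] [CharP k 2] (ε : ℝ), 0 < ε → ∃ M : ℕ,
    ∀ (a : k[X]) (n : ℕ), Wn M a n → |∑ b ∈ Om k n, sgW a b| ≤ ε * Fintype.card k ^ n

end Pool.Agent.Lib.MP_a3f657_nt.Two.Win
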