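import Pool.Agent.Lib.MP_a3f657_nt.WAnDefs
import Pool.Agent.Lib.MP_a3f657_nt.C2SfFourier

/-!
From primes to squarefree polynomials with a general bound, and the twisted Moebius function.
-/

namespace Pool.Agent.Lib.MP_a3f657_nt.Two.Win

open Polynomial Finset UniqueFactorizationMonoid

open scoped Classical

theorem sfB : SFB := by
  intro k _ _ _ θ hθ B B₀
  have hq := one_lt_sqrt (k := k)
  obtain ⟨T₀, hT₀, H⟩ := majorant hθ B
  obtain ⟨C, hC, H⟩ := H (max 1 B₀ ^ 2) (by positivity)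
  obtain ⟨T₁, hT₁⟩ := pow_unbounded_of_one_lt (max 1 B₀) hq
  refine ⟨max T₀ T₁, C, hC, fun M h n Y hM hh hPS => ?_⟩
  have hdeg : ∀ p ∈ goodLe M n, max T₀ T₁ < p.natDegree := fun p hp => by
    obtain ⟨-, h1, h2, h3⟩ := mem_goodLe.1 hp
    by_contra h4
    exact h3 (hM p h1 h2 (by omega))
  rw [SF_eq M h le_rfl]
  refine H _ _ _ n Y (logD_prod _ _ _ goodLe_pos) (coeff_zero_prod _ _ _ goodLe_pos)
    (by simp [coeff_zero_geo]) (by linarith) fun m hm hmn => ?_
  rw [map_neg, norm_neg, coeff_sum_geo _ _ _ hm,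
    ← sum_filter_add_sum_filter_not _ (fun p => p.natDegree = m), add_mul]
  refine (norm_add_le _ _).trans (add_le_add ?_ ?_)
  · have h1 : ∑ p ∈ ((goodLe M n).filter fun p => p.natDegree ∣ m).filter
        (fun p => p.natDegree = m), (p.natDegree : ℂ) * (-h p) ^ (m / p.natDegree) = -PS M h m := by
      rw [PS_eq M h hmn, filter_filter, mul_sum, ← sum_neg_distrib]
      refine sum_congr (filter_congr fun p _ => ⟨fun h => h.2, fun h => ⟨h ▸ dvd_rfl, h⟩⟩)
        fun p hp => ?_
      rw [(mem_filter.1 hp).2, Nat.div_self hm]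
      ring
    split_ifs with h2
    · rw [h1, norm_neg]
      exact hPS m hm
    · rw [sum_eq_zero fun p hp => ?_]
      · simp
      · have h3 := mem_filter.1 hp
        have h4 := hdeg p (mem_filter.1 h3.1).1
        omega
  · refine (norm_sum_le _ _).trans ?_
    rw [← sum_fiberwise_of_maps_to (g := natDegree) (t := range m) (fun p hp => by
      have h1 := mem_filter.1 hp
      have h2 := Nat.le_of_dvd hm (mem_filter.1 h1.1).2
      exact mem_range.2 (lt_of_le_of_ne h2 h1.2))]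
    refine (sum_le_card_nsmul _ _ (max 1 B₀ ^ 2 * √(Fintype.card k) ^ m)
      fun e he => ?_).trans (by rw [card_range, nsmul_eq_mul]; exact le_of_eq (by ring))
    set s := (((goodLe M n).filter fun p => p.natDegree ∣ m).filter
      fun p => ¬ p.natDegree = m).filter fun p => p.natDegree = e with hs
    rcases s.eq_empty_or_nonempty with h0 | ⟨p₀, hp₀⟩
    · rw [h0, sum_empty]
      positivity
    have hmem : ∀ p ∈ s, p ∈ goodLe M n ∧ p.natDegree ∣ m ∧ p.natDegree = e := fun p hp =>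
      have h1 := mem_filter.1 hp
      have h2 := mem_filter.1 (mem_filter.1 h1.1).1
      ⟨h2.1, h2.2, h1.2⟩
    obtain ⟨h1, h2, h3⟩ := hmem p₀ hp₀
    have h4 : 1 ≤ e ∧ T₁ ≤ e := by have := hdeg p₀ h1; omega
    obtain ⟨j, hj⟩ := h3 ▸ h2
    have h5 : 2 ≤ j := by
      have := mem_range.1 he
      by_contra h5
      interval_cases j <;> omega
    have h6 : m / e = j := by rw [hj, Nat.mul_div_cancel_left _ (by omega)]
    have h7 := sum_deg_eq_le h4.1 s fun p hp =>
      ⟨(hmem p hp).2.2, (mem_goodLe.1 (hmem p hp).1).2.1, (mem_goodLe.1 (hmem p hp).1).2.2.1⟩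
    have h8 : max 1 B₀ ≤ √(Fintype.card k) ^ e := hT₁.le.trans (pow_le_pow_right₀ hq.le h4.2)
    have h9 : (0 : ℝ) ≤ max 1 B₀ := by positivity
    obtain ⟨i, rfl⟩ := Nat.exists_eq_add_of_le h5
    calc ∑ p ∈ s, ‖(p.natDegree : ℂ) * (-h p) ^ (m / p.natDegree)‖
        ≤ ∑ p ∈ s, (p.natDegree : ℝ) * max 1 B₀ ^ (2 + i) := by
          refine sum_le_sum fun p hp => ?_
          rw [norm_mul, Complex.norm_natCast, norm_pow, norm_neg, (hmem p hp).2.2, h6]
          gcongr
          exact (hh p (mem_goodLe.1 (hmem p hp).1).2).trans (le_max_right _ _)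
      _ ≤ (Fintype.card k : ℝ) ^ e * (max 1 B₀ ^ 2 * (√(Fintype.card k) ^ e) ^ i) := by
          rw [← sum_mul, pow_add]
          gcongr
          exact_mod_cast h7
      _ = _ := by
          have h10 : (Fintype.card k : ℝ) ^ e = √(Fintype.card k) ^ (e * 2) := by
            rw [mul_comm, pow_mul, Real.sq_sqrt (by positivity)]
          rw [h10, hj, mul_add, pow_add, pow_mul _ e i]
          ring

theorem muB (hP : PrimeP) : MuB := by
  intro k _ _ _ θ hθ
  obtain ⟨c, hc⟩ := hP k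
  obtain ⟨T, C₁, hC₁, H₁⟩ := SF_bound (k := k) hθ c
  obtain ⟨C₂, hC₂, H₂⟩ := SF_bound_deg (k := k) hθ
  refine ⟨T, C₁ + C₂, by positivity, fun M K n χ hM0 hM => ?_⟩
  have hq : 1 ≤ √(Fintype.card k : ℝ) ^ n := one_le_pow₀ one_lt_sqrt.le
  have h0 : 0 < θ ^ (n + M.natDegree + K) := by positivity
  rcases hc M 0 K χ hM0 with ⟨z, hz, h1⟩ | h1
  · refine (H₂ M _ z n hM0 hz fun p hp => by rw [← h1 p hp, sgP_zero]; ring).trans ?_
    have h2 : θ ^ (n + M.natDegree) ≤ θ ^ (n + M.natDegree + K) :=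
      pow_le_pow_right₀ hθ.le (by omega)
    calc C₂ * θ ^ (n + M.natDegree) ≤ C₂ * 1 * θ ^ (n + M.natDegree + K) := by
          rw [mul_one]
          gcongr
      _ ≤ _ := by
          gcongr
          linarith
  · refine (H₁ T le_rfl M _ n (M.natDegree + K) hM (fun p _ => ?_) fun m hm => ?_).trans ?_
    · simpa using (norm_chi_le hM0 χ _).trans one_le_two
    · rw [PS_congr (h' := fun p => χ (clM M K p) * sgP p M 0) (-1)
        (fun p _ => by rw [sgP_zero]; ring), neg_one_mul, norm_neg]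
      simpa using h1 m hm
    · rw [add_assoc]
      gcongr
      linarith

end Pool.Agent.Lib.MP_a3f657_nt.Two.Win
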