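import Pool.Agent.Lib.MP_a3f657_nt.C2SfFourier

/-!
Artin-Schreier signs, and the bounds `AnJ`, `AnK`.
-/

namespace Pool.Agent.Lib.MP_a3f657_nt.Two

open Polynomial Finset

open scoped Classical

/-- The map `z ↦ z ^ 2 + z`. -/
def wpS (F : Type) [Field F] [CharP F 2] : F →+ F where
  toFun z := z ^ 2 + z
  map_zero' := by simp
  map_add' a b := by
    rw [CharTwo.add_sq]
    ring

theorem index_wp (F : Type) [Field F] [CharP F 2] [Finite F] : (wpS F).range.index = 2 := by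
  rw [AddSubgroup.index_range]
  have h : ((wpS F).ker : Set F) = {0, 1} := by
    ext z
    have h1 : z ^ 2 + z = z * (z - 1) := by
      rw [CharTwo.sub_eq_add]
      ring
    simp [wpS, h1, sub_eq_zero]
  change Nat.card ((wpS F).ker : Set F) = 2
  rw [h, Nat.card_coe_set_eq, Set.ncard_pair zero_ne_one]

variable {k : Type} [Field k]

theorem sgP_cases (p M n : k[X]) : sgP p M n = 1 ∨ sgP p M n = -1 := by
  unfold sgP
  split_ifs <;> simp

theorem norm_sgP (p M n : k[X]) : ‖sgP p M n‖ = 1 := by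
  rcases sgP_cases p M n with h | h <;> simp [h]

theorem norm_gK_le [CharP k 2] {M p : k[X]} (hp : GoodP M p) (n₁ n₂ : k[X]) :
    ‖gK M n₁ n₂ p‖ ≤ 2 := by
  unfold gK
  set S := {c : k[X] | c.degree < p.degree ∧ p ∣ M * (c ^ 2 + c) + n₁} with hS
  rcases S.eq_empty_or_nonempty with h | ⟨c₀, h₀⟩
  · simp [h]
  have h1 : S ⊆ ({c₀, c₀ + 1} : Finset k[X]) := by
    intro c hc
    have h2 : p ∣ M * ((c - c₀) * (c - (c₀ + 1))) := by
      convert dvd_sub hc.2 h₀.2 using 1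
      have : (2 : k[X]) = 0 := CharTwo.two_eq_zero
      linear_combination (M * (c₀ ^ 2 - c * c₀ - c + c₀)) * this
    have h3 := (hp.2.1.prime.dvd_or_dvd h2).resolve_left hp.2.2
    have h4 : (1 : k[X]).degree < p.degree := by
      rw [degree_one]
      exact degree_pos_of_irreducible hp.2.1
    rcases hp.2.1.prime.dvd_or_dvd h3 with h5 | h5
    · have := eq_zero_of_dvd_of_degree_lt h5 ((degree_sub_le _ _).trans_lt (max_lt hc.1 h₀.1))
      simp [sub_eq_zero.1 this]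
    · have := eq_zero_of_dvd_of_degree_lt h5 ((degree_sub_le _ _).trans_lt
        (max_lt hc.1 ((degree_add_le _ _).trans_lt (max_lt h₀.1 h4))))
      simp [sub_eq_zero.1 this]
  have h2 : S.Finite := (Finset.finite_toSet _).subset h1
  rw [finsum_mem_eq_finite_toFinset_sum _ h2]
  refine (norm_sum_le _ _).trans ?_
  simp only [norm_sgP, sum_const, nsmul_eq_mul, mul_one]
  exact_mod_cast (card_le_card (Set.Finite.toFinset_subset.2 h1)).trans card_le_two

theorem sgP_eq [CharP k 2] {M p : k[X]} [Fact (Irreducible p)] [CharP (AdjoinRoot p) 2]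
    (hp : ¬ p ∣ M) (n : k[X]) : sgP p M n =
      if AdjoinRoot.mk p n / AdjoinRoot.mk p M ∈ (wpS (AdjoinRoot p)).range then 1 else -1 := by
  have h0 : AdjoinRoot.mk p M ≠ 0 := fun h => hp (AdjoinRoot.mk_eq_zero.1 h)
  refine if_congr ⟨?_, ?_⟩ rfl rfl
  · rintro ⟨z, hz⟩
    refine ⟨AdjoinRoot.mk p z, ?_⟩
    rw [← AdjoinRoot.mk_eq_zero, map_add, CharTwo.add_eq_zero] at hz
    rw [eq_div_iff h0, ← hz]
    simp [wpS, mul_comm]
  · rintro ⟨z, hz⟩
    obtain ⟨z, rfl⟩ := AdjoinRoot.mk_surjective z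
    refine ⟨z, ?_⟩
    rw [eq_div_iff h0] at hz
    rw [← AdjoinRoot.mk_eq_zero, map_add, CharTwo.add_eq_zero, ← hz]
    simp [wpS, mul_comm]

variable [Fintype k] [CharP k 2]

theorem sgP_add {M p : k[X]} (hp : GoodP M p) (n n' : k[X]) :
    sgP p M (n + n') = sgP p M n * sgP p M n' := by
  have := Fact.mk hp.2.1
  have : CharP (AdjoinRoot p) 2 := charP_of_injective_algebraMap (algebraMap k _).injective 2
  have := (AdjoinRoot.powerBasis hp.1.ne_zero).finite
  have : Finite (AdjoinRoot p) := Module.finite_of_finite k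
  rw [sgP_eq hp.2.2, sgP_eq hp.2.2, sgP_eq hp.2.2, map_add, add_div]
  simp only [AddSubgroup.add_mem_iff_of_index_two (index_wp _)]
  split_ifs <;> simp_all

theorem exists_delta : ∃ δ : k, ∀ M p : k[X], GoodP M p →
    sgP p M (C δ * M) = (-1) ^ p.natDegree := by
  have h1 : (wpS k).range ≠ ⊤ := fun h => by
    have := index_wp k
    rw [h, AddSubgroup.index_top] at this
    omega
  obtain ⟨δ, hδ⟩ : ∃ δ, δ ∉ (wpS k).range := by
    by_contra h
    push Not at h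
    exact h1 (eq_top_iff.2 fun x _ => h x)
  have h2 : (X ^ 2 + X + C δ : k[X]).natDegree = 2 := by compute_degree!
  have h3 : Irreducible (X ^ 2 + X + C δ : k[X]) := by
    rw [irreducible_iff_roots_eq_zero_of_degree_le_three h2.ge (by omega)]
    refine Multiset.eq_zero_of_forall_notMem fun a ha => hδ ⟨a, ?_⟩
    have := isRoot_of_mem_roots ha
    simpa [wpS, CharTwo.add_eq_zero] using this
  refine ⟨δ, fun M p hp => ?_⟩
  have := Fact.mk hp.2.1
  have := Fact.mk h3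
  have : CharP (AdjoinRoot p) 2 := charP_of_injective_algebraMap (algebraMap k _).injective 2
  have := (AdjoinRoot.powerBasis hp.1.ne_zero).finite
  have : Finite (AdjoinRoot p) := Module.finite_of_finite k
  have h0 : AdjoinRoot.mk p M ≠ 0 := fun h => hp.2.2 (AdjoinRoot.mk_eq_zero.1 h)
  have h4 := FiniteField.nonempty_algHom_iff_finrank_dvd (F := k)
    (K := AdjoinRoot (X ^ 2 + X + C δ : k[X])) (L := AdjoinRoot p)
  rw [(AdjoinRoot.powerBasis h3.ne_zero).finrank, (AdjoinRoot.powerBasis hp.1.ne_zero).finrank,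
    AdjoinRoot.powerBasis_dim, AdjoinRoot.powerBasis_dim, h2, ← even_iff_two_dvd] at h4
  rw [sgP_eq hp.2.2, map_mul, mul_div_cancel_right₀ _ h0, neg_one_pow_eq_ite]
  refine if_congr (Iff.trans ⟨?_, ?_⟩ h4) rfl rfl
  · rintro ⟨z, hz⟩
    refine ⟨AdjoinRoot.liftAlgHom _ (Algebra.ofId _ _) z ?_⟩
    simpa [wpS, CharTwo.add_eq_zero, eval₂_add, eval₂_pow] using hz
  · rintro ⟨f⟩
    refine ⟨f (AdjoinRoot.root _), ?_⟩
    have := AdjoinRoot.aeval_algHom_eq_zero _ f
    simp only [map_add, map_pow, aeval_X, aeval_C] at this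
    simpa [wpS] using CharTwo.add_eq_zero.1 this

theorem exists_good {M : k[X]} (hM : M ≠ 0) :
    ∃ m₀, ∀ m, m₀ ≤ m → ∃ p, GoodP M p ∧ p.natDegree = m := by
  obtain ⟨m₀, -, h⟩ := PS_one_large hM 0
  refine ⟨m₀, fun m hm => ?_⟩
  by_contra h1
  have h2 := h m hm
  rw [PS_eq M _ le_rfl, sum_eq_zero fun p hp =>
    absurd ⟨p, (mem_goodLe.1 (mem_filter.1 hp).1).2, (mem_filter.1 hp).2⟩ h1] at h2
  simp at h2

theorem z_cases {M n : k[X]} (hM : M ≠ 0) {z : ℂ}
    (h : ∀ p, GoodP M p → sgP p M n = z ^ p.natDegree) : z = 1 ∨ z = -1 := by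
  obtain ⟨m, hm⟩ := exists_good hM
  obtain ⟨p, hp, h1⟩ := hm m le_rfl
  obtain ⟨p', hp', h2⟩ := hm (m + 1) (by omega)
  have h3 := sgP_cases p M n
  have h4 := sgP_cases p' M n
  rw [h p hp, h1] at h3
  rw [h p' hp', h2, pow_succ] at h4
  rcases h3 with h3 | h3 <;> rw [h3] at h4 <;> rcases h4 with h4 | h4
  · exact Or.inl (by linear_combination h4)
  · exact Or.inr (by linear_combination h4)
  · exact Or.inr (by linear_combination -h4)
  · exact Or.inl (by linear_combination -h4)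

theorem sgP_alt (hP : PrimeP) (hN : NonDeg) : ∃ c : ℝ, ∀ M n : k[X], M ≠ 0 → NotWp M n →
    (∀ p, GoodP M p → sgP p M n = (-1) ^ p.natDegree) ∨
    ∀ m, 1 ≤ m → ‖PS M (fun p => sgP p M n) m‖ ≤
      c * (M.natDegree + n.natDegree + 1) * √(Fintype.card k) ^ m := by
  obtain ⟨c, hc⟩ := hP k
  refine ⟨c, fun M n hM hn => (hc M n 0 1 hM).imp ?_ fun h m hm => ?_⟩
  · rintro ⟨z, -, h⟩
    have h1 : ∀ p, GoodP M p → sgP p M n = z ^ p.natDegree := fun p hp => by
      rw [← h p hp, MulChar.one_apply (hp.isUnit 0), one_mul]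
    rcases z_cases hM h1 with rfl | rfl
    · obtain ⟨p, hp, h2⟩ := hN k M n hM hn
      rw [h1 p hp, one_pow] at h2
      norm_num at h2
    · exact h1
  · rw [PS_congr (h' := fun p => (1 : MulChar (RM M 0) ℂ) (clM M 0 p) * sgP p M n) 1
      (fun p hp => by rw [MulChar.one_apply (hp.isUnit 0), one_mul, one_mul]), one_mul]
    simpa using h m hm

omit [Fintype k] [CharP k 2] in
theorem anJ (hP : PrimeP) (hN : NonDeg) : AnJ := by
  intro k _ _ _ θ hθ
  obtain ⟨c, hc⟩ := sgP_alt (k := k) hP hN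
  obtain ⟨T, C, -, H⟩ := SF_bound (k := k) hθ c
  obtain ⟨δ, hδ⟩ := exists_delta (k := k)
  refine ⟨T, C, fun M n₂ n hM hT hW => ?_⟩
  rcases hc M n₂ hM (by simpa using hW 0) with h | h
  · obtain ⟨p, hp, h1⟩ := hN k M _ hM (hW δ)
    rw [sgP_add hp, h p hp, hδ M p hp, ← mul_pow] at h1
    norm_num at h1
  · rw [add_assoc]
    exact H T le_rfl M _ n _ hT (fun p _ => by rw [norm_sgP]; norm_num)
      fun m hm => by simpa using h m hm

omit [CharP k 2] in
theorem PS_add (M : k[X]) (h h' : k[X] → ℂ) (m : ℕ) :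
    PS M (fun p => h p + h' p) m = PS M h m + PS M h' m := by
  rw [PS_eq M _ le_rfl, PS_eq M h le_rfl, PS_eq M h' le_rfl, sum_add_distrib, mul_add]

theorem exists_split (hP : PrimeP) (hN : NonDeg) {M n₁ n₂ : k[X]} (hM : M ≠ 0) (h₁ : NotWp M n₁)
    (h₂ : NotWp M n₂) (h₃ : NotWp M (n₁ + n₂)) :
    ∃ p, GoodP M p ∧ sgP p M n₁ = 1 ∧ sgP p M n₂ = -1 := by
  obtain ⟨c, hc⟩ := sgP_alt (k := k) hP hN
  have key : ∀ n, NotWp M n → ∃ (e : ℤ) (A : ℝ), ∀ m, 1 ≤ m →
      ‖PS M (fun p => sgP p M n) m - e * (-1) ^ m * PS M (fun _ => 1) m‖ ≤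
        A * √(Fintype.card k) ^ m := by
    intro n hn
    rcases hc M n hM hn with h | h
    · refine ⟨1, 0, fun m _ => ?_⟩
      have : PS M (fun p => sgP p M n) m = (-1) ^ m * PS M (fun _ => 1) m := by
        rw [PS_eq M _ le_rfl, PS_eq M _ le_rfl, mul_left_comm, mul_sum _ _ ((-1 : ℂ) ^ m)]
        congr 1
        refine sum_congr rfl fun p hp => ?_
        rw [h p (mem_goodLe.1 (mem_filter.1 hp).1).2, (mem_filter.1 hp).2, mul_one]
      simp [this]
    · exact ⟨0, _, fun m hm => by simpa using h m hm⟩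
  obtain ⟨e₁, A₁, H₁⟩ := key _ h₁
  obtain ⟨e₂, A₂, H₂⟩ := key _ h₂
  obtain ⟨e₃, A₃, H₃⟩ := key _ h₃
  by_contra hn
  have h4 : ∀ m, PS M (fun p => sgP p M n₂) m + PS M (fun p => sgP p M (n₁ + n₂)) m =
      PS M (fun _ => 1) m + PS M (fun p => sgP p M n₁) m := fun m => by
    rw [← PS_add, ← PS_add, PS_congr 1 (fun p hp => ?_), one_mul]
    rw [sgP_add hp]
    rcases sgP_cases p M n₁ with h | h <;> rcases sgP_cases p M n₂ with h' | h'
    · simp [h, h']
    · exact absurd ⟨p, hp, h, h'⟩ hn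
    · simp [h, h']
    · simp [h, h']
  obtain ⟨m₀, hm₀, H⟩ := PS_one_large hM (A₁ + A₂ + A₃)
  obtain ⟨m, hm, he⟩ : ∃ m, m₀ ≤ m ∧ (e₂ + e₃ - e₁) * (-1) ^ m - 1 ≠ 0 := by
    by_cases h : e₂ + e₃ - e₁ = 1
    · exact ⟨2 * m₀ + 1, by omega, by simp [h, pow_succ]⟩
    · exact ⟨2 * m₀, by omega, by simpa [sub_eq_zero] using h⟩
  have h5 : (((e₂ + e₃ - e₁) * (-1) ^ m - 1 : ℤ) : ℂ) * PS M (fun _ => 1) m =
      (PS M (fun p => sgP p M n₁) m - e₁ * (-1) ^ m * PS M (fun _ => 1) m) -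
      (PS M (fun p => sgP p M n₂) m - e₂ * (-1) ^ m * PS M (fun _ => 1) m) -
      (PS M (fun p => sgP p M (n₁ + n₂)) m - e₃ * (-1) ^ m * PS M (fun _ => 1) m) := by
    push_cast
    linear_combination h4 m
  have h6 : (1 : ℝ) ≤ ‖(((e₂ + e₃ - e₁) * (-1) ^ m - 1 : ℤ) : ℂ)‖ := by
    rw [Complex.norm_intCast]
    exact_mod_cast Int.one_le_abs he
  have h7 := (norm_sub_le _ _).trans (add_le_add ((norm_sub_le _ _).trans
    (add_le_add (H₁ m (by omega)) (H₂ m (by omega)))) (H₃ m (by omega)))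
  rw [← h5, norm_mul] at h7
  have h8 := H m hm
  nlinarith [norm_nonneg (PS M (fun _ => 1) m)]

omit [Fintype k] [CharP k 2] in
theorem anK (hP : PrimeP) (hN : NonDeg) (hK : PrimeK) : AnK := by
  intro k _ _ _ θ hθ
  obtain ⟨c, hc⟩ := hK k
  obtain ⟨T, C, -, H⟩ := SF_bound (k := k) hθ c
  refine ⟨T, C, fun M n₁ n₂ K n f₀ W ε hT F hε h₁ h₂ h₃ => F.bound _ _ fun χ => ?_⟩
  have h4 : ‖ε‖ = 1 := by rcases hε with rfl | rfl <;> simp
  rw [show n + M.natDegree + K + n₁.natDegree + n₂.natDegree =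
    n + (M.natDegree + K + n₁.natDegree + n₂.natDegree) by ring]
  refine H T le_rfl M _ n _ hT (fun p hp => ?_) fun m hm => ?_
  · rw [norm_mul, norm_mul, h4, one_mul]
    exact (mul_le_of_le_one_left (norm_nonneg _) (norm_chi_le F.M0 χ _)).trans (norm_gK_le hp _ _)
  · rw [PS_congr (h' := fun p => χ (clM M K p) * gK M n₁ n₂ p) ε (fun p _ => by ring), norm_mul,
      h4, one_mul]
    simpa using hc M n₁ n₂ K χ F.M0 h₁ (exists_split hP hN F.M0 h₁ h₂ h₃) m hm

end Pool.Agent.Lib.MP_a3f657_nt.Two
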