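import Pool.Agent.Lib.MP_a3f657_nt.WAnDefs
import Pool.Agent.Lib.MP_a3f657_nt.C2SfMain

/-!
Primes with prescribed splitting, and cancellation of the weights `gH`.
-/

namespace Pool.Agent.Lib.MP_a3f657_nt.Two.Win

open Polynomial Finset

open scoped Classical

namespace AnB

variable {k : Type} [Field k] {ρ : ℕ}

theorem roots_le [CharP k 2] {M p : k[X]} (hp : GoodP M p) (n : k[X]) :
    ∃ T : Finset k[X], T.card ≤ 2 ∧
      ∀ c : k[X], c.degree < p.degree → p ∣ M * (c ^ 2 + c) + n → c ∈ T := by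
  by_cases h : ∃ c : k[X], c.degree < p.degree ∧ p ∣ M * (c ^ 2 + c) + n
  · obtain ⟨c₀, h₀⟩ := h
    refine ⟨{c₀, c₀ + 1}, card_le_two, fun c hc hc' => ?_⟩
    have h2 : p ∣ M * ((c - c₀) * (c - (c₀ + 1))) := by
      convert dvd_sub hc' h₀.2 using 1
      have : (2 : k[X]) = 0 := CharTwo.two_eq_zero
      linear_combination (M * (c₀ ^ 2 - c * c₀ - c + c₀)) * this
    have h3 := (hp.2.1.prime.dvd_or_dvd h2).resolve_left hp.2.2
    have h4 : (1 : k[X]).degree < p.degree := by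
      rw [degree_one]
      exact degree_pos_of_irreducible hp.2.1
    rcases hp.2.1.prime.dvd_or_dvd h3 with h5 | h5
    · have := eq_zero_of_dvd_of_degree_lt h5 ((degree_sub_le _ _).trans_lt (max_lt hc h₀.1))
      simp [sub_eq_zero.1 this]
    · have := eq_zero_of_dvd_of_degree_lt h5 ((degree_sub_le _ _).trans_lt
        (max_lt hc ((degree_add_le _ _).trans_lt (max_lt h₀.1 h4))))
      simp [sub_eq_zero.1 this]
  · exact ⟨∅, by simp, fun c hc hc' => absurd ⟨c, hc, hc'⟩ h⟩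

theorem norm_gH_le [CharP k 2] {M p : k[X]} (hp : GoodP M p) (n₁ n₂ : Fin ρ → k[X]) :
    ‖gH M n₁ n₂ p‖ ≤ 2 ^ ρ := by
  choose T hT hT' using fun i => roots_le hp (n₁ i)
  unfold gH
  set S := {c : Fin ρ → k[X] | ∀ i, (c i).degree < p.degree ∧ p ∣ M * (c i ^ 2 + c i) + n₁ i}
    with hS
  have h1 : S ⊆ (Fintype.piFinset T : Finset (Fin ρ → k[X])) := fun c hc =>
    mem_coe.2 (Fintype.mem_piFinset.2 fun i => hT' i _ (hc i).1 (hc i).2)
  have h2 : S.Finite := (Finset.finite_toSet _).subset h1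
  rw [finsum_mem_eq_finite_toFinset_sum _ h2]
  refine (norm_sum_le _ _).trans ?_
  simp only [norm_sgP, sum_const, nsmul_eq_mul, mul_one]
  have h3 : (Fintype.piFinset T).card ≤ 2 ^ ρ := by
    rw [Fintype.card_piFinset]
    simpa using prod_le_pow_card univ (fun i => (T i).card) 2 fun i _ => hT i
  exact_mod_cast (card_le_card (Set.Finite.toFinset_subset.2 h1)).trans h3

variable [Fintype k] [CharP k 2]

theorem sgP_sum {M p : k[X]} (hp : GoodP M p) (n₁ : Fin ρ → k[X]) (t : Finset (Fin ρ)) :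
    sgP p M (∑ i ∈ t, n₁ i) = ∏ i ∈ t, sgP p M (n₁ i) := by
  induction t using Finset.induction_on with
  | empty => simpa using sgP_zero p M
  | insert a s ha ih => rw [sum_insert ha, prod_insert ha, sgP_add hp, ih]

omit [CharP k 2] in
theorem PS_pow {M n : k[X]} {z : ℂ} (h : ∀ p, GoodP M p → sgP p M n = z ^ p.natDegree) (m : ℕ) :
    PS M (fun p => sgP p M n) m = z ^ m * PS M (fun _ => 1) m := by
  rw [PS_eq M _ le_rfl, PS_eq M _ le_rfl, mul_left_comm, mul_sum _ _ (z ^ m)]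
  congr 1
  refine sum_congr rfl fun p hp => ?_
  rw [h p (mem_goodLe.1 (mem_filter.1 hp).1).2, (mem_filter.1 hp).2, mul_one]

theorem key_any (hP : PrimeP) {M : k[X]} (hM : M ≠ 0) (n : k[X]) :
    ∃ (e e' : ℤ) (A : ℝ), 0 ≤ e ∧ (n = 0 → e = 1) ∧ ∀ m, 1 ≤ m →
      ‖PS M (fun p => sgP p M n) m - (e + e' * (-1) ^ m) * PS M (fun _ => 1) m‖ ≤
        A * √(Fintype.card k) ^ m := by
  by_cases h0 : n = 0
  · refine ⟨1, 0, 0, zero_le_one, fun _ => rfl, fun m _ => ?_⟩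
    simp [h0, sgP_zero]
  obtain ⟨c, hc⟩ := hP k
  rcases hc M n 0 1 hM with ⟨z, -, h⟩ | h
  · have h1 : ∀ p, GoodP M p → sgP p M n = z ^ p.natDegree := fun p hp => by
      rw [← h p hp, MulChar.one_apply (hp.isUnit 0), one_mul]
    rcases z_cases hM h1 with rfl | rfl
    · refine ⟨1, 0, 0, zero_le_one, fun _ => rfl, fun m _ => ?_⟩
      simp [PS_pow h1]
    · refine ⟨0, 1, 0, le_rfl, fun h => absurd h h0, fun m _ => ?_⟩
      simp [PS_pow h1]
  · refine ⟨0, 0, c * (M.natDegree + n.natDegree + 1), le_rfl, fun h => absurd h h0,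
      fun m hm => ?_⟩
    rw [PS_congr (h' := fun p => (1 : MulChar (RM M 0) ℂ) (clM M 0 p) * sgP p M n) 1
      (fun p hp => by rw [MulChar.one_apply (hp.isUnit 0), one_mul, one_mul]), one_mul]
    simpa using h m hm

theorem key_not (hP : PrimeP) (hN : NonDeg) {M : k[X]} (hM : M ≠ 0) {n : k[X]} (hn : NotWp M n) :
    ∃ (e : ℤ) (A : ℝ), ∀ m, 1 ≤ m →
      ‖PS M (fun p => sgP p M n) m - e * (-1) ^ m * PS M (fun _ => 1) m‖ ≤
        A * √(Fintype.card k) ^ m := by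
  obtain ⟨c, hc⟩ := sgP_alt (k := k) hP hN
  rcases hc M n hM hn with h | h
  · refine ⟨1, 0, fun m _ => ?_⟩
    simp [PS_pow h]
  · exact ⟨0, _, fun m hm => by simpa using h m hm⟩

end AnB

theorem splitH (hP : PrimeP) (hN : NonDeg) : SplitH := by
  intro k _ _ _ ρ M n n₁ hM hW
  choose e e' A he he0 H using fun t : Finset (Fin ρ) => AnB.key_any hP hM (∑ i ∈ t, n₁ i)
  choose f B H' using fun t : Finset (Fin ρ) => AnB.key_not hP hN hM (hW t)
  by_contra hn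
  have h1 : ∀ p, GoodP M p → ∑ t : Finset (Fin ρ),
      (sgP p M (∑ i ∈ t, n₁ i) - sgP p M (n + ∑ i ∈ t, n₁ i)) = 0 := by
    intro p hp
    have h2 : ∑ t : Finset (Fin ρ), (sgP p M (∑ i ∈ t, n₁ i) - sgP p M (n + ∑ i ∈ t, n₁ i))
        = (1 - sgP p M n) * ∏ l, (1 + sgP p M (n₁ l)) := by
      rw [prod_one_add, powerset_univ, mul_sum]
      refine sum_congr rfl fun t _ => ?_
      rw [sgP_add hp, AnB.sgP_sum hp]
      ring
    rw [h2]
    rcases sgP_cases p M n with h | h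
    · rw [h, sub_self, zero_mul]
    · by_cases h3 : ∀ l, sgP p M (n₁ l) = 1
      · exact absurd ⟨p, hp, h3, h⟩ hn
      · obtain ⟨l, hl⟩ := not_forall.1 h3
        rw [prod_eq_zero (mem_univ l) (by rw [(sgP_cases p M (n₁ l)).resolve_left hl]; ring),
          mul_zero]
  have h4 : ∀ m, ∑ t : Finset (Fin ρ), (PS M (fun p => sgP p M (∑ i ∈ t, n₁ i)) m
      - PS M (fun p => sgP p M (n + ∑ i ∈ t, n₁ i)) m) = 0 := fun m => by
    simp only [PS_eq M _ (le_refl m), ← mul_sub, ← sum_sub_distrib, ← mul_sum]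
    rw [sum_comm, sum_eq_zero fun p hp => h1 p (mem_goodLe.1 (mem_filter.1 hp).1).2, mul_zero]
  obtain ⟨m₀, hm₀, H₀⟩ := PS_one_large hM (∑ t, (A t + B t))
  have ha : 1 ≤ ∑ t, e t := by
    rw [← he0 ∅ sum_empty]
    exact single_le_sum (fun t _ => he t) (mem_univ _)
  obtain ⟨m, hm, hne⟩ : ∃ m, m₀ ≤ m ∧ ∑ t, e t + (∑ t, (e' t - f t)) * (-1) ^ m ≠ 0 := by
    rcases le_total 0 (∑ t, (e' t - f t)) with h | h
    · refine ⟨2 * m₀, by omega, ?_⟩
      rw [pow_mul, neg_one_sq, one_pow]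
      omega
    · refine ⟨2 * m₀ + 1, by omega, ?_⟩
      rw [pow_succ, pow_mul, neg_one_sq, one_pow]
      omega
  have h5 : ((∑ t, e t + (∑ t, (e' t - f t)) * (-1) ^ m : ℤ) : ℂ) * PS M (fun _ => 1) m =
      ∑ t : Finset (Fin ρ),
        ((PS M (fun p => sgP p M (n + ∑ i ∈ t, n₁ i)) m - f t * (-1) ^ m * PS M (fun _ => 1) m)
        - (PS M (fun p => sgP p M (∑ i ∈ t, n₁ i)) m
          - (e t + e' t * (-1) ^ m) * PS M (fun _ => 1) m)) := by
    push_cast
    rw [sum_mul, ← sum_add_distrib, sum_mul, ← sub_eq_zero, ← sum_sub_distrib, ← h4 m]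
    exact sum_congr rfl fun t _ => by ring
  have h6 : (1 : ℝ) ≤ ‖((∑ t, e t + (∑ t, (e' t - f t)) * (-1) ^ m : ℤ) : ℂ)‖ := by
    rw [Complex.norm_intCast]
    exact_mod_cast Int.one_le_abs hne
  have h7 := (norm_sum_le _ _).trans (sum_le_sum fun t (_ : t ∈ univ) =>
    (norm_sub_le _ _).trans (add_le_add (H' t m (by omega)) (H t m (by omega))))
  rw [← h5, norm_mul] at h7
  have h8 := H₀ m hm
  have h9 : ∑ t, (B t * √(Fintype.card k) ^ m + A t * √(Fintype.card k) ^ m)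
      = (∑ t, (A t + B t)) * √(Fintype.card k) ^ m := by
    rw [sum_mul]
    exact sum_congr rfl fun t _ => by ring
  rw [h9] at h7
  nlinarith [norm_nonneg (PS M (fun _ => 1) m)]

theorem anH (h1 : PrimeH) (h2 : SplitH) (h3 : SFB) : AnH := by
  intro k _ _ _ θ hθ R₀ B₀
  choose c hc using h1 k
  obtain ⟨T, C, hC, H⟩ := h3 k θ hθ (B₀ * ∑ r ∈ range (R₀ + 1), |c r|) B₀
  refine ⟨T, C, hC, fun ρ hρ M n₁ n₂ i₀ K A n χ lam hM hT hI hW hA hl => ?_⟩
  have h4 : ‖lam‖ ≤ B₀ :=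
    (le_mul_of_one_le_right (norm_nonneg _) (one_le_pow₀ one_le_two)).trans hl
  have h5 : c ρ ≤ ∑ r ∈ range (R₀ + 1), |c r| := (le_abs_self _).trans
    (single_le_sum (f := fun r => |c r|) (fun r _ => abs_nonneg _) (mem_range.2 (by omega)))
  have h6 : 0 ≤ ∑ r ∈ range (R₀ + 1), |c r| := sum_nonneg fun r _ => abs_nonneg _
  obtain ⟨p₀, hp₀, h7, h8⟩ := h2 k ρ M (n₂ i₀) n₁ hM hW
  rw [show n + M.natDegree + K + A = n + (M.natDegree + K + A) by ring]
  refine H M _ n _ hT (fun p hp => ?_) fun m hm => ?_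
  · rw [norm_mul, norm_mul]
    refine (mul_le_of_le_one_left (by positivity) (norm_chi_le hM χ _)).trans (le_trans ?_ hl)
    exact mul_le_mul_of_nonneg_left (AnB.norm_gH_le hp n₁ n₂) (norm_nonneg _)
  · rw [PS_congr (h' := fun p => χ (clM M K p) * gH M n₁ n₂ p) lam (fun p _ => by ring), norm_mul,
      mul_assoc B₀, mul_assoc B₀]
    refine mul_le_mul h4 ((hc ρ M n₁ n₂ K A χ hM hI hA ⟨p₀, i₀, hp₀, h7, h8⟩ m hm).trans ?_)
      (norm_nonneg _) ((norm_nonneg _).trans h4)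
    push_cast
    gcongr

end Pool.Agent.Lib.MP_a3f657_nt.Two.Win
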