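import Pool.Agent.Lib.MP_a3f657_nt.WArithA

/-!
The Selmer group of `y ^ 2 + x y = x ^ 3 + a x ^ 2 + b` and the radical of the pairing.
-/

set_option linter.unusedSectionVars false

namespace Pool.Agent.Lib.MP_a3f657_nt.Two.Win

open Polynomial IsDedekindDomain

open scoped Classical

namespace Ar

variable {k : Type} [Field k] [Fintype k] [CharP k 2] {a b p h h' : k[X]}
  {c : Pl k → RatFunc k} {x : RatFunc k}

lemma cW_eq (h1 : (ι h, x) ∈ (cmp none).Lt (PD b) (ι a)) (h2 : h' ∈ WW a b) :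
    cW a b h h' = (pl none).rho (PD b) (ι h' * x) := by
  have h3 := Cmp.AA_of_Lt h1
  have e := rho_orth ((cmp none).L'.rho_c0 _) (Cmp.mem_AA'.1 (mem_WW.1 h2).2)
    (Two.sub_mem_BB (mem_AA.1 h3).choose_spec (Cmp.mem_Lt'.1 h1))
  rw [cW, Cmp.cc, dif_pos h3, ← Cmp.f_rho (C := cmp none), map_mul]
  change (cmp none).L'.rho _ (_ * (cmp none).f (ι h')) = _
  rw [mul_add, map_add] at e
  rw [mul_comm]
  grind

variable (hb : Squarefree b) (hd : 0 < b.natDegree)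
include hb hd

lemma tp_eq (hp : p ∈ pr b) (h1 : (ι h, x) ∈ Ht (PD b)) (h2 : tp p (ι h') = 0) :
    tp p (ι (rt p h) * ι h') = (pl (plc p)).rho (PD b) (ι h' * x) := by
  obtain ⟨h3, h4⟩ := Ht_mult (ord_PD hb hd hp) (ι_int_pr hb hp h) h1
  have h5 : (Rt p (ι h)).Nonempty := by
    by_contra h5
    have h6 := tp_of_Rt (pr_spec hb p hp).1 (pr_spec hb p hp).2 (ι_int_pr hb hp h)
      (Finset.not_nonempty_iff_eq_empty.1 h5)
    rw [tp, (pl _).tau_PW ((pl _).mem_PW.2 ⟨x, h4⟩)] at h6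
    exact zero_ne_one h6
  have h6 : ι h + wp (ι (rt p h)) ∈ Fil (val (plc p)) 1 := by
    rw [rt, dif_pos h5]
    exact (mem_Rt.1 h5.choose_spec).2
  have h7 : wp (x + ι (rt p h)) ∈ Fil (val (plc p)) 1 := by
    rw [show wp (x + ι (rt p h)) = ι h + wp x + (ι h + wp (ι (rt p h))) by rw [wp_add]; grind]
    exact add_mem h4 h6
  have h8 := ι_int_pr hb hp h'
  rw [rho_mult (ord_PD hb hd hp) (Fil.mul h8 h3 le_rfl)]
  rcases wp_cases (Fil.of_wp h7 (by omega) le_rfl) h7 with h9 | h9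
  · refine (pl _).tau_congr ?_
    rw [show ι (rt p h) * ι h' + ι h' * x = (x + ι (rt p h)) * ι h' by ring]
    exact Fil.mul h9 h8 le_rfl
  · rw [← add_zero (tp p _), ← h2, ← map_add]
    refine (pl _).tau_congr ?_
    rw [show ι (rt p h) * ι h' + ι h' + ι h' * x = (x + ι (rt p h) + 1) * ι h' by ring]
    exact Fil.mul h9 h8 le_rfl

lemma BB_eq (hc : ∀ v ∈ SS b, (ι h, c v) ∈ (cmp v).Lt (PD b) (ι a)) (hh : h' ∈ VV a b) :
    BB a b h h' = ∑ v ∈ SS b, (pl v).rho (PD b) (ι h' * c v) := by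
  rw [BB, sum_SS hb, cW_eq (hc _ none_mem) (mem_VV.1 hh).1]
  exact congrArg _ (Finset.sum_congr rfl fun p hp =>
    tp_eq hb hd hp (Cmp.Lt_le_Ht (hc _ (plc_mem hp))) ((mem_VV.1 hh).2 p hp))

lemma BB_eq' (hc : ∀ v ∈ SS b, (ι h, c v) ∈ (cmp v).Lt (PD b) (ι a)) (hh : h' ∈ VV a b)
    (hx : x * (PX k).dlg (PD b).b ∈ OS (SS b)) :
    BB a b h h' = ∑ v ∈ SS b, (pl v).rho (PD b) (ι h' * (x + c v)) := by
  have h1 := res_OS none_mem (OS_mul (ι_OS h') hx)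
  simp only [← mul_assoc, ← rho_eq] at h1
  simp only [mul_add, map_add, Finset.sum_add_distrib, h1, zero_add, BB_eq hb hd hc hh]

lemma lifts (hh : h ∈ VV a b) : ∃ (u : RatFunc k) (c : Pl k → RatFunc k), (ι h, u) ∈ Ht (PD b) ∧
    u * (PX k).dlg (PD b).b ∈ OS (SS b) ∧ ∀ v ∈ SS b, (ι h, c v) ∈ (cmp v).Lt (PD b) (ι a) := by
  have h1 := mem_AS.1 ((mem_VV' hb hd).1 hh).2
  obtain ⟨u, h2, h3⟩ := exists_Ht none_mem (good hb hd a).hB (ι_OS h) fun v hv => by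
    simpa using Cmp.orth (h1 v hv) Cmp.one_mem_BB
  choose! c hc using fun v hv => Cmp.lift (h1 v hv) h2
  exact ⟨u, c, h2, h3, hc⟩

lemma alt (a : k[X]) : Alt (VV a b) (BB a b) := by
  refine ⟨fun x hx y hy z hz => ?_, fun x hx y hy z hz => ?_, fun x hx => ?_⟩
  · obtain ⟨-, c, -, -, hc⟩ := lifts hb hd hx
    obtain ⟨-, c', -, -, hc'⟩ := lifts hb hd hy
    rw [BB_eq hb hd hc hz, BB_eq hb hd hc' hz, BB_eq hb hd (c := fun v => c v + c' v)
      (fun v hv => by simpa [ι] using add_mem (hc v hv) (hc' v hv)) hz]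
    simp only [mul_add, map_add, Finset.sum_add_distrib]
  · obtain ⟨-, c, -, -, hc⟩ := lifts hb hd hx
    rw [BB_eq hb hd hc hz, BB_eq hb hd hc hy, BB_eq hb hd hc (add_mem hy hz)]
    simp only [ι, add_mul, map_add, Finset.sum_add_distrib]
  · obtain ⟨u, c, h1, h2, hc⟩ := lifts hb hd hx
    rw [BB_eq' hb hd hc hx h2]
    exact (good hb hd a).alt (ι_OS x) h1 h2 hc

/-- The character attached to a polynomial. -/
noncomputable def ph (a : k[X]) : VV a b →+ YY (PD b) (ι a) (SS b) →+ ZMod 2 :=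
  (Phi (PD b) (ι a) (SS b)).comp
    (((algebraMap k[X] (RatFunc k)).toAddMonoidHom.comp (VV a b).subtype).codRestrict _ fun h =>
      ((mem_VV' hb hd).1 h.2).2)

lemma ph_inj (hR : RedP) : Function.Injective (ph hb hd a) :=
  (injective_iff_map_eq_zero _).2 fun h e => Subtype.ext
    ((hR k).2 _ ((mem_VV' hb hd).1 h.2).1 (Phi_eq_zero.1 e none none_mem))

lemma ph_range (hR : RedP) : (ph hb hd a).range = ann (diag (PD b) (ι a) (SS b)).range := by
  rw [← (good hb hd a).map_Phi]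
  refine le_antisymm ?_ ?_
  · rintro _ ⟨h, rfl⟩
    exact ⟨_, ι_OS h.1, rfl⟩
  · rintro _ ⟨α, hα, rfl⟩
    obtain ⟨r, hr, c, e⟩ := exists_VV hb hd hR α.2 fun v hv =>
      ⟨0, by simpa using mem_OS.1 (AddSubgroup.mem_addSubgroupOf.1 hα) v hv⟩
    refine ⟨⟨r, hr⟩, Phi_congr fun v _ => ?_⟩
    change ι r + α.1 ∈ _
    rw [e, add_right_comm, two_K, zero_add]
    exact (pl v).wp_mem_PW c

lemma card_VV (hR : RedP) :
    Nat.card (VV a b) * 2 ^ (pr b).card = Nat.card (WW a b) * nJ a b := by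
  have e1 := Two.card_ann (V := YY (PD b) (ι a) (SS b)) (fun y => YY_two y) (diag _ _ _).range
  have e2 := (good hb hd a).card_diag
  rw [card_SS hb, pow_succ, Nat.mul_left_inj two_ne_zero, card_SelF hb hd hR] at e2
  rw [← ph_range hb hd hR, ← Nat.card_congr (AddMonoidHom.ofInjective (ph_inj hb hd hR)).toEquiv,
    card_YY hb hd hR] at e1
  rw [← e1, ← e2, mul_assoc]

lemma exists_Sel (hR : RedP) (hh : h ∈ Rd (VV a b) (BB a b)) :
    ∃ u, ∀ v, (ι h, u) ∈ (cmp v).Lt (PD b) (ι a) := by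
  obtain ⟨u, c, h1, h2, hc⟩ := lifts hb hd hh.1
  have h3 : ∀ v ∈ SS b, u + c v ∈ Log (PD b) := fun v hv => sub_mem_Log h1 (Cmp.Lt_le_Ht (hc v hv))
  obtain ⟨u', h4, h5⟩ := exists_LogS none_mem (fun v => (cmp v).AA (PD b) (ι a))
    (fun v => (cmp v).BB (PD b) (ι a)) (fun v => u + c v) h3 (fun v _ => Cmp.exists_rep)
    fun α h4 h5 => by
      obtain ⟨r, hr, z, e⟩ := exists_VV (a := a) hb hd hR (α := α) (mem_AS.2 fun v hv => by
        obtain ⟨y, h6, h7⟩ := h5 v hv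
        simpa [add_assoc, two_K] using add_mem (Cmp.PW_le_AA h7) h6)
        fun v hv => ⟨0, by simpa using mem_OS.1 h4 v hv⟩
      rw [← hh.2 r hr, BB_eq' hb hd hc hr h2, e]
      refine Finset.sum_congr rfl fun v hv => ?_
      rw [add_mul α, map_add, rho_wp_Log ((pl v).rho_c0 _) z (h3 v hv), add_zero]
  refine ⟨u + u', fun v => ?_⟩
  by_cases hv : v ∈ SS b
  · rw [show u + u' = c v + (u' + (u + c v)) by grind]
    exact Cmp.add_mem_Lt (hc v hv) (h5 v hv)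
  · exact (good hb hd a).mem_Lt hv (ι_OS h) (by simpa using add_mem h1 (mem_Log'.1 h4.1))
      (by rw [add_mul]; exact add_mem h2 h4.2)

lemma card_Rd (hR : RedP) :
    (Rd (VV a b) (BB a b)).ncard = Nat.card (Psi (PD b) (ι a) (SS b)).range := by
  have hG := good hb hd a
  rw [← Nat.card_coe_set_eq]
  refine Nat.card_congr (Equiv.ofBijective (fun h => ⟨ph hb hd a ⟨h.1, h.2.1⟩, ?_⟩)
    ⟨fun x y e => Subtype.ext (Subtype.mk.inj (ph_inj hb hd hR (congrArg Subtype.val e))), ?_⟩)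
  · obtain ⟨u, hu⟩ := exists_Sel hb hd hR h.2
    refine ⟨⟨cls (PD b) (ι h.1, u), mem_Sel.2 fun v => (Cmp.mem_Lt.1 (hu v)).2⟩,
      Phi_congr fun v _ => ?_⟩
    change (PD b).b * (PD b).c1 (ι h.1 + wp u) ^ 2 + ι h.1 ∈ _
    rw [← (PD b).eq_b_sq (mem_Ht.1 (Cmp.Lt_le_Ht (hu v))), add_right_comm, two_K, zero_add]
    exact (pl v).wp_mem_PW _
  · rintro ⟨_, s, rfl⟩
    have h1 := fun v => Cmp.bsq_mem_Lt.2 (mem_Sel.1 s.2 v)
    obtain ⟨r, hr, z, e⟩ := exists_VV hb hd hR (mem_AS.2 fun v _ => Cmp.AA_of_Lt (h1 v))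
      fun v hv => Cmp.good_AA (hG.hA v hv) (hG.hB v hv) (Cmp.AA_of_Lt (h1 v))
    have h2 : ∀ v, (ι r, z) ∈ (cmp v).Lt (PD b) (ι a) := fun v => by
      simpa [e] using add_mem (h1 v) (Cmp.wp_mem_Lt (C := cmp v) z)
    refine ⟨⟨r, hr, fun y hy => ?_⟩, Subtype.ext (Phi_congr fun v _ => ?_)⟩
    · rw [BB_eq' hb hd (c := fun _ => z) (fun v _ => h2 v) hy (hG.mem_OS (ι_OS r) fun v _ => h2 v)]
      simp [two_K]
    · change ι r + (PD b).b * s.1 ^ 2 ∈ _
      rw [e, add_right_comm, two_K, zero_add]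
      exact (pl v).wp_mem_PW z

lemma card_Sel (hR : RedP) : selOrder (EE a b) * 2 = nJ a b * (Rd (VV a b) (BB a b)).ncard := by
  have e := (Psi (PD b) (ι a) (SS b)).ker.index_mul_card
  rw [AddSubgroup.index_ker] at e
  rw [EE, ← PD_b hb hd, selOrder_eq' (nd_EW _ _), nA_EW, card_Rd hb hd hR, ← card_SelF hb hd hR,
    (good hb hd a).card_SelF, ← e]
  ring

end Ar

theorem arith (h : RedP) : Arith := fun _ _ _ _ a _ hb hd =>
  ⟨Ar.finite_WW h, Ar.alt hb hd a, Ar.card_Sel hb hd h, Ar.card_VV hb hd h,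
    fun _ hh => Ar.sum_tp hb hd hh⟩

end Pool.Agent.Lib.MP_a3f657_nt.Two.Win
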