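import Pool.Agent.Lib.MP_a3f657_nt.WDefs

/-!
Few polynomials have a factorisation that is killed by the residue functionals.
-/

namespace Pool.Agent.Lib.MP_a3f657_nt.Two.Win

open Polynomial

open scoped Classical

variable {k : Type} [Field k] [Fintype k] [CharP k 2]

namespace WBad

omit [CharP k 2] in
lemma card_pos_le (S : Finset k[X]) (N : ℕ) (I : Finset ℕ) (hI : I ⊆ Finset.range N)
    (h : ∀ f ∈ S, ∀ g ∈ S, (∀ i < N, i ∉ I → f.coeff i = g.coeff i) → f = g) :
    S.card * Fintype.card k ^ I.card ≤ Fintype.card k ^ N := by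
  have h1 : S.card ≤ Fintype.card (↥(Finset.range N \ I) → k) := by
    rw [← Finset.card_univ]
    refine Finset.card_le_card_of_injOn (fun f i => f.coeff i) (fun _ _ => Finset.mem_univ _)
      fun f hf g hg e => h f hf g hg fun i hi hi' => ?_
    exact congrFun e ⟨i, Finset.mem_sdiff.2 ⟨Finset.mem_range.2 hi, hi'⟩⟩
  rw [Fintype.card_fun, Fintype.card_coe, Finset.card_sdiff_of_subset hI, Finset.card_range] at h1
  have h2 : I.card ≤ N := by simpa using Finset.card_le_card hI
  calc _ ≤ Fintype.card k ^ (N - I.card) * Fintype.card k ^ I.card := Nat.mul_le_mul_right _ h1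
    _ = _ := by rw [← pow_add, Nat.sub_add_cancel h2]

omit [Fintype k] [CharP k 2] in
lemma resInf_div {G D : k[X]} (hG : G ≠ 0) (h : D.natDegree = G.natDegree + 1) :
    resInf (ι G / ι D) = G.leadingCoeff / D.leadingCoeff := by
  have hD : D ≠ 0 := by rintro rfl; simp at h
  have h0 := ι_ne hD
  have hl := leadingCoeff_ne_zero.2 hD
  have hr : G.leadingCoeff / D.leadingCoeff ≠ 0 := div_ne_zero (leadingCoeff_ne_zero.2 hG) hl
  rw [resInf_apply, pol_eq (a := C (G.leadingCoeff / D.leadingCoeff)), coeff_C_zero]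
  have e : RatFunc.X * (ι G / ι D) - ι (C (G.leadingCoeff / D.leadingCoeff)) =
      ι (X * G - C (G.leadingCoeff / D.leadingCoeff) * D) / ι D := by
    rw [eq_div_iff h0, sub_mul, mul_assoc, div_mul_cancel₀ _ h0]
    simp only [ι, map_sub, map_mul, RatFunc.algebraMap_X]
  rw [e]
  refine Fil.div (a := 1 - D.natDegree) (c := 1) (ι_mem_none'.2 ?_) (by rw [ord_none hD]; omega)
  have h1 : (X * G).degree = (D.natDegree : WithBot ℕ) := by
    rw [degree_eq_natDegree (mul_ne_zero X_ne_zero hG), natDegree_X_mul hG, h]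
  have := degree_sub_lt_left (p := X * G) (q := C (G.leadingCoeff / D.leadingCoeff) * D)
    (by rw [h1, degree_C_mul hr, degree_eq_natDegree hD]) (mul_ne_zero X_ne_zero hG)
    (by rw [leadingCoeff_mul, leadingCoeff_mul, leadingCoeff_X, leadingCoeff_C, one_mul,
      div_mul_cancel₀ _ hl])
  rwa [h1] at this

lemma GG_sub {a G G' : k[X]} (h : GG a G) (h' : GG a G') : GG a (G - G') := fun κ c h1 h2 => by
  rw [ι, map_sub, sub_div, map_sub, h κ c h1 h2, h' κ c h1 h2, sub_zero]

lemma not_GG {a G : k[X]} (hG : G ≠ 0) {κ : ℕ} (h1 : a.natDegree < 2 * κ)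
    (h2 : G.natDegree + 1 = 4 * κ) : ¬ GG a G := fun h => by
  obtain ⟨c₀, hc₀⟩ := tr_ne (k := k)
  have h3 : c₀ ≠ 0 := by rintro rfl; exact hc₀ (map_zero _)
  have hl := leadingCoeff_ne_zero.2 hG
  obtain ⟨r, hr⟩ := exists_sqrt (G.leadingCoeff / c₀)
  obtain ⟨c, rfl⟩ := exists_sqrt r
  have hc : c ≠ 0 := by
    rintro rfl
    exact div_ne_zero hl h3 (by rw [← hr]; simp)
  have e1 : ((C c * X ^ κ) ^ 4 : k[X]).natDegree = 4 * κ := by
    rw [natDegree_pow, natDegree_C_mul_X_pow _ _ hc]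
  have e2 : (a ^ 2).natDegree < ((C c * X ^ κ) ^ 4 : k[X]).natDegree := by
    rw [e1, natDegree_pow]; omega
  have e3 := h κ c h1 hc
  rw [res_none, resInf_div hG (by rw [natDegree_add_eq_right_of_natDegree_lt e2, e1, h2]),
    leadingCoeff_add_of_degree_lt (degree_lt_degree e2), leadingCoeff_pow,
    leadingCoeff_C_mul_X_pow, show c ^ 4 = (c ^ 2) ^ 2 by ring, hr, div_div_cancel₀ hl] at e3
  exact hc₀ e3

/-- The cofactors that are killed. -/
noncomputable def UU (a f : k[X]) (N : ℕ) : Finset k[X] :=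
  (Bad.PL k (N + 1)).filter fun g => GG a (g * derivative f)

lemma cntA {a f : k[X]} (ha : Odd a.natDegree) (hf : derivative f ≠ 0) {N t : ℕ}
    (h1 : (derivative f).natDegree ≤ 2 * a.natDegree)
    (h2 : 2 * a.natDegree + 4 * t ≤ N + (derivative f).natDegree + 3) :
    (UU a f N).card * Fintype.card k ^ t ≤ Fintype.card k ^ (N + 1) := by
  have hc : ((Finset.range t).image fun i =>
      2 * a.natDegree + 1 + 4 * i - (derivative f).natDegree).card = t := by
    rw [Finset.card_image_of_injOn (fun i _ i' _ e => by omega),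
      Finset.card_range]
  rw [← hc]
  refine card_pos_le _ _ _ (fun i hi => ?_) fun g hg g' hg' e => ?_
  · obtain ⟨i', h3, rfl⟩ := Finset.mem_image.1 hi
    rw [Finset.mem_range] at h3 ⊢
    omega
  · by_contra hne
    have h3 : g - g' ≠ 0 := sub_ne_zero.2 hne
    obtain ⟨h4, h5⟩ := Finset.mem_filter.1 hg
    obtain ⟨h6, h7⟩ := Finset.mem_filter.1 hg'
    have h8 := Bad.mem_PL_succ.1 (Bad.sub_mem_PL h4 h6)
    have h9 : (g - g').natDegree ∈ (Finset.range t).image fun i =>
        2 * a.natDegree + 1 + 4 * i - (derivative f).natDegree := by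
      by_contra h9
      refine leadingCoeff_ne_zero.2 h3 ?_
      rw [leadingCoeff, coeff_sub, e _ (by omega) h9, sub_self]
    obtain ⟨i, -, hi⟩ := Finset.mem_image.1 h9
    obtain ⟨u, hu⟩ := ha
    refine not_GG (a := a) (mul_ne_zero h3 hf) (κ := u + 1 + i) (by omega) ?_ (by
      rw [sub_mul]; exact GG_sub h5 h7)
    rw [natDegree_mul h3 hf]
    omega

lemma cntB (S : Finset k[X]) (m t : ℕ)
    (hS : ∀ f ∈ S, f.natDegree ≤ m ∧ (derivative f).natDegree + 2 * t + 1 ≤ m) :
    S.card * Fintype.card k ^ t ≤ Fintype.card k ^ (m + 1) := by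
  rcases S.eq_empty_or_nonempty with rfl | ⟨f₀, hf₀⟩
  · simp
  have hm := (hS f₀ hf₀).2
  have hc : ((Finset.range t).image fun i => 2 * ((m - 1) / 2 - i) + 1).card = t := by
    rw [Finset.card_image_of_injOn (fun i hi i' hi' e => by
      rw [Finset.mem_coe, Finset.mem_range] at hi hi'
      omega), Finset.card_range]
  have key : ∀ f ∈ S, ∀ i ∈ (Finset.range t).image fun i => 2 * ((m - 1) / 2 - i) + 1,
      f.coeff i = 0 := fun f hf i hi => by
    obtain ⟨i', h3, rfl⟩ := Finset.mem_image.1 hi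
    rw [Finset.mem_range] at h3
    have h4 := (hS f hf).2
    have h5 := coeff_eq_zero_of_natDegree_lt (p := derivative f)
      (n := 2 * ((m - 1) / 2 - i')) (by omega)
    rwa [coeff_derivative, Nat.cast_mul, Nat.cast_ofNat, CharTwo.two_eq_zero (R := k), zero_mul,
      zero_add, mul_one] at h5
  rw [← hc]
  refine card_pos_le _ _ _ (fun i hi => ?_) fun g hg g' hg' e => ?_
  · obtain ⟨i', h3, rfl⟩ := Finset.mem_image.1 hi
    rw [Finset.mem_range] at h3 ⊢
    omega
  · ext i
    by_cases hi : i < m + 1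
    · by_cases hi' : i ∈ (Finset.range t).image fun i => 2 * ((m - 1) / 2 - i) + 1
      · rw [key g hg i hi', key g' hg' i hi']
      · exact e i hi hi'
    · have h1 := (hS g hg).1
      have h2 := (hS g' hg').1
      rw [coeff_eq_zero_of_natDegree_lt (by omega), coeff_eq_zero_of_natDegree_lt (by omega)]

variable (k) in
/-- The first factors. -/
noncomputable def FF (m : ℕ) : Finset k[X] :=
  (Bad.PL k (m + 1)).filter fun f => f.natDegree = m ∧ derivative f ≠ 0

lemma cntM {a : k[X]} {n m : ℕ} (h : Dg a n) (hm : 2 * m ≤ n) :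
    (∑ f ∈ FF k m, (UU a f (n - m)).card) * Fintype.card k ^ ((n - 2 * a.natDegree) / 8) ≤
      2 * Fintype.card k ^ (n + 2) := by
  obtain ⟨h1, -, h2, h3⟩ := h
  obtain ⟨t, ht⟩ : ∃ t, t = (n - 2 * a.natDegree) / 8 := ⟨_, rfl⟩
  have e : Fintype.card k ^ (m + 1) * Fintype.card k ^ (n - m + 1) = Fintype.card k ^ (n + 2) := by
    rw [← pow_add]; congr 1; omega
  rw [← ht, ← Finset.sum_filter_add_sum_filter_not (FF k m)
    (fun f => (derivative f).natDegree + 2 * t + 1 ≤ m), add_mul,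
    two_mul (Fintype.card k ^ (n + 2))]
  refine Nat.add_le_add ?_ ?_
  · refine le_trans (Nat.mul_le_mul_right _ (Finset.sum_le_card_nsmul _ _
      (Fintype.card k ^ (n - m + 1)) fun f _ => ?_)) ?_
    · rw [← Bad.card_PL]; exact Finset.card_filter_le _ _
    · rw [smul_eq_mul, mul_right_comm, ← e]
      refine Nat.mul_le_mul_right _ (cntB _ m t fun f hf => ?_)
      obtain ⟨h4, h5⟩ := Finset.mem_filter.1 hf
      exact ⟨(Finset.mem_filter.1 h4).2.1.le, h5⟩
  · rw [Finset.sum_mul]
    refine le_trans (Finset.sum_le_card_nsmul _ _ (Fintype.card k ^ (n - m + 1)) fun f hf => ?_) ?_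
    · obtain ⟨h4, h5⟩ := Finset.mem_filter.1 hf
      obtain ⟨-, h6, h7⟩ := Finset.mem_filter.1 h4
      have h8 := natDegree_derivative_le f
      exact cntA h1 h7 (by omega) (by omega)
    · rw [smul_eq_mul, ← e, ← Bad.card_PL (k := k) (m + 1)]
      exact Nat.mul_le_mul_right _ ((Finset.card_filter_le _ _).trans (Finset.card_filter_le _ _))

lemma cover (a : k[X]) (n : ℕ) : (Om k n).filter (Bad a) ⊆ (Finset.Icc 1 (n / 2)).biUnion fun m =>
    (FF k m).biUnion fun f => (UU a f (n - m)).image (f * ·) := fun b hb => by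
  obtain ⟨h1, f, g, h2, h3, h4, rfl, h5⟩ := Finset.mem_filter.1 hb
  obtain ⟨-, h6, h7⟩ := Finset.mem_filter.1 h1
  have hg : g ≠ 0 := right_ne_zero_of_mul h6.ne_zero
  have h8 := natDegree_mul h2.ne_zero hg
  refine Finset.mem_biUnion.2 ⟨f.natDegree, Finset.mem_Icc.2 ⟨h3, by omega⟩,
    Finset.mem_biUnion.2 ⟨f, Finset.mem_filter.2 ⟨Bad.mem_PL_succ.2 le_rfl, rfl, fun h0 => ?_⟩,
      Finset.mem_image.2 ⟨g, Finset.mem_filter.2 ⟨Bad.mem_PL_succ.2 (by omega), h5⟩, rfl⟩⟩⟩
  have h9 : f.Separable := PerfectField.separable_iff_squarefree.2 h6.of_mul_left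
  rw [Separable, h0, isCoprime_zero_right] at h9
  have := natDegree_eq_zero_of_isUnit h9
  omega

end WBad

theorem badC : BadC := by
  intro k _ _ _ a n h
  refine le_trans (Nat.mul_le_mul_right _ ((Finset.card_le_card (WBad.cover a n)).trans
    (Finset.card_biUnion_le.trans (Finset.sum_le_sum fun m _ => Finset.card_biUnion_le.trans
      (Finset.sum_le_sum fun f _ => Finset.card_image_le))))) ?_
  rw [Finset.sum_mul]
  refine le_trans (Finset.sum_le_card_nsmul _ _ (2 * Fintype.card k ^ (n + 2)) fun m hm =>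
    WBad.cntM h (by have := (Finset.mem_Icc.1 hm).2; omega)) ?_
  rw [smul_eq_mul, Nat.card_Icc, ← mul_assoc]
  exact Nat.mul_le_mul (by omega) (Nat.pow_le_pow_right Fintype.card_pos (by omega))

end Pool.Agent.Lib.MP_a3f657_nt.Two.Win
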