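import Pool.Agent.Lib.MP_a3f657_nt.WAnDefs
import Pool.Agent.Lib.MP_a3f657_nt.C2SfFourier

/-!
Sums over squarefree polynomials with a weight that depends only on the top coefficients.
-/

namespace Pool.Agent.Lib.MP_a3f657_nt.Two.Win

open Polynomial Finset UniqueFactorizationMonoid

open scoped Classical ComplexConjugate

namespace Cell

theorem orth {G : Type} [CommGroup G] [Finite G] [Fintype (G →* ℂˣ)] (g : G) :
    ∑ ψ : G →* ℂˣ, (ψ g : ℂ) = if g = 1 then (Fintype.card (G →* ℂˣ) : ℂ) else 0 := by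
  split_ifs with hg
  · simp [hg]
  · obtain ⟨ψ₀, h₀⟩ := CommGroup.exists_apply_ne_one_of_hasEnoughRootsOfUnity G ℂ hg
    have h2 : ∑ ψ : G →* ℂˣ, (ψ g : ℂ) = ψ₀ g * ∑ ψ : G →* ℂˣ, (ψ g : ℂ) := by
      rw [mul_sum]
      exact (Fintype.sum_equiv (Equiv.mulLeft ψ₀) _ _ fun ψ => by simp).symm
    have h3 : (ψ₀ g : ℂ) - 1 ≠ 0 := sub_ne_zero.2 fun h3 => h₀ (Units.ext h3)
    apply mul_left_cancel₀ h3
    linear_combination -h2

theorem parseval {G : Type} [CommGroup G] [Fintype G] [Fintype (G →* ℂˣ)] (F : G → ℂ) :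
    ∑ ψ : G →* ℂˣ, ‖∑ g, F g * ψ g‖ ^ 2 = Fintype.card (G →* ℂˣ) * ∑ g, ‖F g‖ ^ 2 := by
  have h1 : ∀ ψ : G →* ℂˣ, ((‖∑ g, F g * ψ g‖ : ℝ) : ℂ) ^ 2 =
      ∑ g, ∑ g', F g * conj (F g') * ψ (g * g'⁻¹) := fun ψ => by
    rw [← Complex.mul_conj', map_sum, sum_mul_sum]
    refine sum_congr rfl fun g _ => sum_congr rfl fun g' _ => ?_
    rw [map_mul, map_mul, map_inv, Units.val_mul, Units.val_inv_eq_inv_val,
      Complex.inv_eq_conj (norm_char ψ g')]
    ring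
  apply Complex.ofReal_injective
  push_cast
  simp only [h1]
  rw [sum_comm, mul_sum]
  refine sum_congr rfl fun g _ => ?_
  rw [sum_comm]
  simp only [← mul_sum, orth, mul_inv_eq_one, mul_ite, mul_zero, sum_ite_eq, mem_univ, if_true]
  rw [Complex.mul_conj', mul_comm]

theorem fourier {G α : Type} [CommGroup G] [Finite G] (s : Finset α) (u : α → G) (φ w : α → ℂ)
    {B : ℝ} (hφ : ∀ a, ‖φ a‖ ≤ 1) (hc : ∀ a ∈ s, ∀ a' ∈ s, u a = u a' → φ a = φ a')
    (h : ∀ ψ : G →* ℂˣ, ‖∑ a ∈ s, w a * ψ (u a)‖ ≤ B) :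
    ‖∑ a ∈ s, φ a * w a‖ ≤ √(Nat.card G) * B := by
  have := Fintype.ofFinite (G →* ℂˣ)
  have := Fintype.ofFinite G
  have hB : 0 ≤ B := (norm_nonneg _).trans (h 1)
  set F : G → ℂ := fun g => ∑ a ∈ s with u a = g, w a with hF
  have h1 : ‖∑ a ∈ s, φ a * w a‖ ≤ ∑ g, ‖F g‖ := by
    rw [← sum_fiberwise s u]
    refine norm_sum_le_of_le _ fun g _ => ?_
    rcases (s.filter fun a => u a = g).eq_empty_or_nonempty with e | ⟨a₀, e⟩
    · simp [e]
    · rw [sum_congr rfl (g := fun a => φ a₀ * w a) fun a ha => by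
        rw [hc a (mem_filter.1 ha).1 a₀ (mem_filter.1 e).1
          ((mem_filter.1 ha).2.trans (mem_filter.1 e).2.symm)], ← mul_sum, norm_mul]
      exact mul_le_of_le_one_left (norm_nonneg _) (hφ a₀)
  have h2 : ∑ g, ‖F g‖ ^ 2 ≤ B ^ 2 := by
    have h3 : (0 : ℝ) < Fintype.card (G →* ℂˣ) := by exact_mod_cast Fintype.card_pos
    refine le_of_mul_le_mul_left ?_ h3
    rw [← parseval, ← card_univ, ← nsmul_eq_mul]
    refine sum_le_card_nsmul _ _ _ fun ψ _ => pow_le_pow_left₀ (norm_nonneg _) ?_ 2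
    refine le_of_eq_of_le (congrArg norm ?_) (h ψ)
    rw [← sum_fiberwise s u]
    refine sum_congr rfl fun g _ => ?_
    rw [hF, sum_mul]
    exact sum_congr rfl fun a ha => by rw [(mem_filter.1 ha).2]
  refine h1.trans (le_of_sq_le_sq ?_ (by positivity))
  rw [mul_pow, Real.sq_sqrt (by positivity), Nat.card_eq_fintype_card, ← card_univ]
  exact sq_sum_le_card_mul_sum_sq.trans (mul_le_mul_of_nonneg_left h2 (by positivity))

variable {k : Type} [Field k]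

theorem mem_pr {f p : k[X]} (hf : f ≠ 0) : p ∈ pr f ↔ Irreducible p ∧ p.Monic ∧ p ∣ f := by
  rw [pr, Multiset.mem_toFinset, Polynomial.mem_normalizedFactors_iff hf]

theorem prod_pr {b : k[X]} (hs : Squarefree b) : C b.leadingCoeff * ∏ p ∈ pr b, p = b := by
  have h1 := (squarefree_iff_nodup_normalizedFactors hs.ne_zero).1 hs
  rw [Finset.prod, pr, Multiset.toFinset_val, Multiset.dedup_eq_self.2 h1, Multiset.map_id',
    leadingCoeff_mul_prod_normalizedFactors]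

theorem tc_mul (K : ℕ) (f g : k[X]) : tc K (f * g) = tc K f * tc K g := by
  simp [tc, reverse_mul_of_domain]

variable [Fintype k]

theorem mem_Om {n : ℕ} {b : k[X]} : b ∈ Om k n ↔ Squarefree b ∧ b.natDegree = n := by
  rw [Om, mem_filter, Set.Finite.mem_toFinset]
  exact ⟨fun h => h.2, fun h => ⟨h.2.le, h⟩⟩

theorem card_units {M : k[X]} (hM : M ≠ 0) (K : ℕ) :
    √(Nat.card (RM M K)ˣ) ≤ √(Fintype.card k) ^ (M.natDegree + K) := by
  have := finite_RM hM K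
  have h : ∀ {P : k[X]}, P ≠ 0 → Nat.card (AdjoinRoot P) = Fintype.card k ^ P.natDegree :=
    fun hP => by
      have := (AdjoinRoot.powerBasis hP).finite
      rw [Module.natCard_eq_pow_finrank (K := k), (AdjoinRoot.powerBasis hP).finrank,
        AdjoinRoot.powerBasis_dim, Nat.card_eq_fintype_card]
  have h1 : Nat.card (RM M K)ˣ ≤ Fintype.card k ^ (M.natDegree + K) := by
    refine (Nat.card_le_card_of_injective _ Units.val_injective).trans_eq ?_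
    rw [Nat.card_prod, h hM, h (pow_ne_zero K X_ne_zero), natDegree_X_pow, pow_add]
  rw [Real.sqrt_le_left (by positivity), ← pow_mul, mul_comm, pow_mul, Real.sq_sqrt (by positivity)]
  exact_mod_cast h1

theorem monic_PiT (T : ℕ) : (PiT k T).Monic :=
  monic_prod_of_monic _ _ fun _ hp => (mem_irrLe.1 hp).2.1

theorem decomp {T n : ℕ} {b : k[X]} (hb : b ∈ Om k n) :
    ∃ f : k[X], f.Monic ∧ IsCoprime f (PiT k T) ∧ Squarefree f ∧
      b = C b.leadingCoeff * (∏ p ∈ pr b ∩ irrLe k T, p) * f ∧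
      (∏ p ∈ pr b ∩ irrLe k T, p).natDegree + f.natDegree = n := by
  obtain ⟨h1, h2⟩ := mem_Om.1 hb
  have h3 : ∀ p ∈ pr b, Irreducible p ∧ p.Monic ∧ p ∣ b := fun p hp => (mem_pr h1.ne_zero).1 hp
  have h4 : b = C b.leadingCoeff * (∏ p ∈ pr b ∩ irrLe k T, p) * ∏ p ∈ pr b \ irrLe k T, p := by
    rw [mul_assoc, prod_inter_mul_prod_sdiff, prod_pr h1]
  have h5 : (∏ p ∈ pr b \ irrLe k T, p).Monic :=
    monic_prod_of_monic _ _ fun p hp => (h3 p (mem_sdiff.1 hp).1).2.1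
  have h6 : (∏ p ∈ pr b ∩ irrLe k T, p).Monic :=
    monic_prod_of_monic _ _ fun p hp => (h3 p (mem_inter.1 hp).1).2.1
  refine ⟨_, h5, IsCoprime.prod_left fun p hp => IsCoprime.prod_right fun p' hp' => ?_,
    h1.squarefree_of_dvd (Dvd.intro_left _ h4.symm), h4, ?_⟩
  · obtain ⟨h7, h8, -⟩ := h3 p (mem_sdiff.1 hp).1
    refine h7.coprime_iff_not_dvd.2 fun h9 => (mem_sdiff.1 hp).2 ?_
    rwa [eq_of_dvd_irr h8 h7 (mem_irrLe.1 hp').2.1 (mem_irrLe.1 hp').2.2 h9]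
  · rw [← h6.natDegree_mul h5, ← h2]
    conv_rhs => rw [h4, mul_assoc, natDegree_C_mul (leadingCoeff_ne_zero.2 h1.ne_zero)]

theorem comp {T : ℕ} {c : k} (hc : c ≠ 0) {S : Finset k[X]} (hS : S ⊆ irrLe k T) {f : k[X]}
    (h1 : f.Monic) (h2 : IsCoprime f (PiT k T)) (h3 : Squarefree f) :
    C c * (∏ p ∈ S, p) * f ∈ Om k ((∏ p ∈ S, p).natDegree + f.natDegree) ∧
      (C c * (∏ p ∈ S, p) * f).leadingCoeff = c ∧ pr (C c * (∏ p ∈ S, p) * f) = S ∪ pr f ∧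
      Disjoint (pr f) (irrLe k T) := by
  have h4 : ∀ p ∈ S, p.Monic ∧ Irreducible p := fun p hp => (mem_irrLe.1 (hS hp)).2
  have h5 : (∏ p ∈ S, p).Monic := monic_prod_of_monic _ _ fun p hp => (h4 p hp).1
  have h6 : IsUnit (C c) := isUnit_C.2 hc.isUnit
  rw [mul_assoc]
  refine ⟨mem_Om.2 ⟨?_, by rw [natDegree_C_mul hc, h5.natDegree_mul h1]⟩,
    by rw [leadingCoeff_mul, (h5.mul h1).leadingCoeff, leadingCoeff_C, mul_one], ?_, ?_⟩
  · rw [(associated_unit_mul_left _ _ h6).squarefree_iff, squarefree_mul_iff]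
    exact ⟨(h2.of_isCoprime_of_dvd_right (prod_dvd_prod_of_subset _ _ _ hS)).symm.isRelPrime,
      squarefree_prod_of_pairwise_isCoprime ((pairwise_coprime h4).imp fun _ _ h => h.isRelPrime)
        fun p hp => (h4 p hp).2.squarefree, h3⟩
  · ext p
    rw [mem_union, mem_pr (mul_ne_zero h6.ne_zero (h5.mul h1).ne_zero), mem_pr h1.ne_zero,
      h6.dvd_mul_left]
    constructor
    · rintro ⟨h7, h8, h9⟩
      rcases h7.prime.dvd_or_dvd h9 with h | h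
      · obtain ⟨p', h10, h11⟩ := (h7.prime.dvd_finsetProd_iff _).1 h
        left
        rwa [eq_of_dvd_irr h8 h7 (h4 p' h10).1 (h4 p' h10).2 h11]
      · exact Or.inr ⟨h7, h8, h⟩
    · rintro (h | h)
      · exact ⟨(h4 p h).2, (h4 p h).1, (dvd_prod_of_mem _ h).mul_right _⟩
      · exact ⟨h.1, h.2.1, h.2.2.mul_left _⟩
  · refine disjoint_left.2 fun p hp hp' => ?_
    obtain ⟨h7, -, h8⟩ := (mem_pr h1.ne_zero).1 hp
    exact h7.not_isUnit (h2.isUnit_of_dvd' h8 (dvd_prod_of_mem _ hp'))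

theorem cell {T K n : ℕ} {h φ : k[X] → ℂ} {B B₀ : ℝ} (h1 : 1 ≤ B₀)
    (h2 : ∀ p : k[X], p.Monic → Irreducible p → ‖h p‖ ≤ B₀)
    (h3 : ∀ (χ : MulChar (RM (PiT k T) K) ℂ) (m : ℕ), m ≤ n →
      ‖SF (PiT k T) (fun p => χ (clM (PiT k T) K p) * h p) m‖ ≤ B)
    (h4 : ∀ b, ‖φ b‖ ≤ 1) (h5 : ∀ b ∈ Om k n, ∀ b' ∈ Om k n, tc K b = tc K b' → φ b = φ b')
    (c : k) {S : Finset k[X]} (hS : S ⊆ irrLe k T) :
    ‖∑ b ∈ Om k n with (b.leadingCoeff, pr b ∩ irrLe k T) = (c, S), φ b * ∏ p ∈ pr b, h p‖ ≤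
      B₀ ^ (irrLe k T).card * (√(Fintype.card k) ^ ((PiT k T).natDegree + K) * B) := by
  have hB : 0 ≤ B := (norm_nonneg _).trans (h3 1 0 (Nat.zero_le n))
  have hM := (monic_PiT (k := k) T).ne_zero
  have := finite_RM hM K
  rcases ((Om k n).filter fun b => (b.leadingCoeff, pr b ∩ irrLe k T) = (c, S)).eq_empty_or_nonempty
    with e | ⟨b₀, e⟩
  · rw [e, sum_empty, norm_zero]
    positivity
  obtain ⟨e1, e2⟩ := mem_filter.1 e
  obtain ⟨e2, e3⟩ := Prod.mk.inj e2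
  have hc : c ≠ 0 := e2 ▸ leadingCoeff_ne_zero.2 (mem_Om.1 e1).1.ne_zero
  obtain ⟨m, hm⟩ : ∃ m, (∏ p ∈ S, p).natDegree + m = n := by
    obtain ⟨f, -, -, -, -, hf⟩ := decomp (T := T) e1
    exact ⟨_, e3 ▸ hf⟩
  set A := (finite_SF (PiT k T) m).toFinset.filter Squarefree with hA
  have mA : ∀ {f}, f ∈ A ↔ (f.Monic ∧ f.natDegree = m ∧ IsCoprime f (PiT k T)) ∧ Squarefree f := by
    simp [hA]
  have hO : ∀ f ∈ A, C c * (∏ p ∈ S, p) * f ∈ Om k n := fun f hf => by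
    obtain ⟨⟨g1, g2, g3⟩, g4⟩ := mA.1 hf
    have := (comp hc hS g1 g3 g4).1
    rwa [g2, hm] at this
  have h6 : ∑ b ∈ Om k n with (b.leadingCoeff, pr b ∩ irrLe k T) = (c, S), φ b * ∏ p ∈ pr b, h p =
      (∏ p ∈ S, h p) * ∑ f ∈ A, φ (C c * (∏ p ∈ S, p) * f) * ∏ p ∈ pr f, h p := by
    rw [mul_sum]
    refine (sum_nbij (fun f => C c * (∏ p ∈ S, p) * f) (fun f hf => ?_) (fun f _ f' _ e => ?_)
      (fun b hb => ?_) fun f hf => ?_).symm
    · obtain ⟨⟨g1, g2, g3⟩, g4⟩ := mA.1 hf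
      obtain ⟨-, g5, g6, g7⟩ := comp hc hS g1 g3 g4
      refine mem_filter.2 ⟨hO f hf, ?_⟩
      rw [g5, g6, union_inter_distrib_right, inter_eq_left.2 hS, disjoint_iff_inter_eq_empty.1 g7,
        union_empty]
    · exact mul_left_cancel₀ (mul_ne_zero (C_ne_zero.2 hc)
        (monic_prod_of_monic _ _ fun p hp => (mem_irrLe.1 (hS hp)).2.1).ne_zero) e
    · obtain ⟨g1, g2⟩ := mem_filter.1 (mem_coe.1 hb)
      obtain ⟨g2, g3⟩ := Prod.mk.inj g2
      obtain ⟨f, g4, g5, g6, g7, g8⟩ := decomp (T := T) g1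
      rw [g2, g3] at g7
      rw [g3] at g8
      exact ⟨f, mem_coe.2 (mA.2 ⟨⟨g4, by omega, g5⟩, g6⟩), g7.symm⟩
    · obtain ⟨⟨g1, g2, g3⟩, g4⟩ := mA.1 hf
      obtain ⟨-, -, g6, g7⟩ := comp hc hS g1 g3 g4
      rw [g6, prod_union (g7.mono_right hS).symm]
      ring
  let u : k[X] → (RM (PiT k T) K)ˣ := fun f =>
    if hf : IsUnit (clM (PiT k T) K f) then hf.unit else 1
  have hu : ∀ f : k[X], f.Monic → IsCoprime f (PiT k T) →
      (u f : RM (PiT k T) K) = clM (PiT k T) K f := fun f h1 h2 => by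
    simp [u, isUnit_clM K h1 h2]
  rw [h6, norm_mul]
  refine mul_le_mul ?_ ((fourier (B := B) A u _ _ (fun f => h4 _) (fun f hf f' hf' e => ?_)
    fun ψ => ?_).trans (mul_le_mul_of_nonneg_right (card_units hM K) hB)) (norm_nonneg _)
    (by positivity)
  · rw [norm_prod]
    refine (prod_le_prod (g := fun _ => B₀) (fun _ _ => norm_nonneg _) fun p hp =>
      h2 p (mem_irrLe.1 (hS hp)).2.1 (mem_irrLe.1 (hS hp)).2.2).trans ?_
    rw [prod_const]
    exact pow_le_pow_right₀ h1 (card_le_card hS)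
  · refine h5 _ (hO f hf) _ (hO f' hf') ?_
    have g1 := congrArg (fun y : (RM (PiT k T) K)ˣ => y.val.2) e
    simp only [hu f (mA.1 hf).1.1 (mA.1 hf).1.2.2, hu f' (mA.1 hf').1.1 (mA.1 hf').1.2.2] at g1
    rw [tc_mul _ _ f, tc_mul _ _ f']
    exact congrArg _ g1
  · refine le_of_eq_of_le (congrArg norm ?_) (h3 (MulChar.ofUnitHom ψ) m (by omega))
    rw [SF, finsum_mem_eq_finite_toFinset_sum _ (finite_SF _ m), hA, sum_filter]
    refine sum_congr rfl fun f hf => ?_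
    obtain ⟨g1, -, g2⟩ := (Set.Finite.mem_toFinset _).1 hf
    rw [sfw_mul _ _ g1, ← hu f g1 g2, MulChar.ofUnitHom_coe, sfw, ite_zero_mul]
    rfl

end Cell

theorem cellSum : CellSum := by
  intro k _ _ _ T K n h φ B B₀ h1 h2 h3 h4 h5
  rw [← sum_fiberwise_of_maps_to (t := univ ×ˢ (irrLe k T).powerset)
    (g := fun b => (b.leadingCoeff, pr b ∩ irrLe k T))
    fun b _ => mem_product.2 ⟨mem_univ _, mem_powerset.2 inter_subset_right⟩]
  refine (norm_sum_le _ _).trans ((sum_le_card_nsmul _ _ _ fun x hx =>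
    Cell.cell h1 h2 h3 h4 h5 x.1 (mem_powerset.1 (mem_product.1 hx).2)).trans_eq ?_)
  rw [card_product, card_univ, card_powerset, nsmul_eq_mul, mul_pow]
  push_cast
  ring

end Pool.Agent.Lib.MP_a3f657_nt.Two.Win
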