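import Pool.Agent.Lib.MP_a3f657_nt.WAnDefs

/-!
Elementary counts of squarefree polynomials.
-/

namespace Pool.Agent.Lib.MP_a3f657_nt.Two.Win

open Polynomial Finset UniqueFactorizationMonoid

open scoped Classical

namespace CntP

variable {k : Type} [Field k]

theorem mem_pr {b p : k[X]} (hb : b ≠ 0) : p ∈ pr b ↔ Irreducible p ∧ p.Monic ∧ p ∣ b := by
  rw [pr, Multiset.mem_toFinset, Polynomial.mem_normalizedFactors_iff hb]

theorem prod_pr {b : k[X]} (hs : Squarefree b) : C b.leadingCoeff * ∏ p ∈ pr b, p = b := by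
  have h1 := (squarefree_iff_nodup_normalizedFactors hs.ne_zero).1 hs
  rw [pr, Finset.prod, Multiset.toFinset_val, Multiset.dedup_eq_self.2 h1, Multiset.map_id',
    leadingCoeff_mul_prod_normalizedFactors]

theorem pr_prod {c : k} (hc : c ≠ 0) {t : Finset k[X]} (h : ∀ p ∈ t, Irreducible p ∧ p.Monic) :
    pr (C c * ∏ p ∈ t, p) = t := by
  ext p
  rw [mem_pr (mul_ne_zero (C_ne_zero.2 hc) (prod_ne_zero_iff.2 fun p hp => (h p hp).2.ne_zero)),
    (isUnit_C.2 hc.isUnit).dvd_mul_left]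
  refine ⟨fun ⟨h1, h2, h3⟩ => ?_, fun hp => ⟨(h p hp).1, (h p hp).2, dvd_prod_of_mem _ hp⟩⟩
  obtain ⟨r, hr, h4⟩ := (h1.prime.dvd_finsetProd_iff _).1 h3
  rwa [eq_of_dvd_irr h2 h1 (h r hr).2 (h r hr).1 h4]

variable [Fintype k]

theorem mem_Om {n : ℕ} {b : k[X]} : b ∈ Om k n ↔ Squarefree b ∧ b.natDegree = n := by
  simp only [Om, mem_filter, Set.Finite.mem_toFinset, Set.mem_ofPred_eq]
  exact ⟨fun h => h.2, fun h => ⟨h.2.le, h⟩⟩

variable (k) in
/-- Monic polynomials of degree `n`. -/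
noncomputable def Mo (n : ℕ) : Finset k[X] := (Bad.PL k n).image (X ^ n + ·)

theorem card_Mo (n : ℕ) : (Mo k n).card = Fintype.card k ^ n := by
  rw [Mo, card_image_of_injective _ (add_right_injective _), Bad.card_PL]

theorem mem_Mo {n : ℕ} {f : k[X]} : f ∈ Mo k n ↔ f.Monic ∧ f.natDegree = n := by
  rw [Mo, mem_image]
  constructor
  · rintro ⟨e, he, rfl⟩
    have h1 : e.degree < (X ^ n : k[X]).degree := by rw [degree_X_pow]; exact Bad.mem_PL.1 he
    exact ⟨(monic_X_pow n).add_of_left h1, by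
      rw [natDegree_add_eq_left_of_degree_lt h1, natDegree_X_pow]⟩
  · rintro ⟨h1, rfl⟩
    refine ⟨f - X ^ f.natDegree, Bad.mem_PL.2 ?_, by ring⟩
    rw [← degree_eq_natDegree h1.ne_zero]
    exact degree_sub_lt_left (by rw [degree_X_pow, degree_eq_natDegree h1.ne_zero]) h1.ne_zero
      (by rw [leadingCoeff_X_pow, h1.leadingCoeff])

theorem geo (m : ℕ) : ∑ d ∈ Icc 1 m, (1 / 2 : ℝ) ^ d ≤ 1 - (1 / 2) ^ m := by
  induction m with
  | zero => simp
  | succ m ih => rw [sum_Icc_succ_top (by omega), pow_succ]; linarith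

theorem low [CharP k 2] (n : ℕ) : Fintype.card k ^ n ≤ 4 * (Om k n).card := by
  let I : ℕ → Finset k[X] := fun d => (irrLe k d).filter (·.natDegree = d)
  have h1 : Mo k n ⊆ Om k n ∪ (Icc 1 (n / 2)).biUnion fun d => (I d).biUnion fun p =>
      (Mo k (n - 2 * d)).image (p * p * ·) := by
    intro f hf
    obtain ⟨g1, g2⟩ := mem_Mo.1 hf
    by_cases hs : Squarefree f
    · exact mem_union_left _ (mem_Om.2 ⟨hs, g2⟩)
    rw [squarefree_iff_irreducible_sq_not_dvd_of_ne_zero g1.ne_zero] at hs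
    push Not at hs
    obtain ⟨z, hz, h2⟩ := hs
    have h3 : (normalize z).Monic := monic_normalize hz.ne_zero
    have h4 : Irreducible (normalize z) := (associated_normalize z).irreducible hz
    obtain ⟨g, rfl⟩ := ((normalize_associated z).mul_mul (normalize_associated z)).dvd.trans h2
    have h5 : g.Monic := (h3.mul h3).of_mul_monic_left g1
    rw [(h3.mul h3).natDegree_mul h5, h3.natDegree_mul h3] at g2
    have h6 := h4.natDegree_pos
    refine mem_union_right _ (mem_biUnion.2 ⟨(normalize z).natDegree, mem_Icc.2 (by omega),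
      mem_biUnion.2 ⟨normalize z, mem_filter.2 ⟨mem_irrLe.2 ⟨le_rfl, h3, h4⟩, rfl⟩,
        mem_image.2 ⟨g, mem_Mo.2 ⟨h5, by omega⟩, rfl⟩⟩⟩)
  have h2 := (card_le_card h1).trans ((card_union_le _ _).trans (add_le_add le_rfl
    (card_biUnion_le.trans (sum_le_sum fun d _ => card_biUnion_le.trans
      (sum_le_sum fun p _ => card_image_le)))))
  simp only [card_Mo, sum_const, smul_eq_mul] at h2
  have h3 : ∀ d ∈ Icc 1 (n / 2), (((I d).card * Fintype.card k ^ (n - 2 * d) : ℕ) : ℝ) ≤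
      (Fintype.card k : ℝ) ^ n * ((1 / 2) ^ d / 2 + if d = 1 then 1 / 4 else 0) := by
    intro d hd
    rw [mem_Icc] at hd
    have g1 := sum_deg_eq_le hd.1 (I d) fun p hp =>
      ⟨(mem_filter.1 hp).2, (mem_irrLe.1 (mem_filter.1 hp).1).2⟩
    rw [sum_congr rfl fun p hp => (mem_filter.1 hp).2, sum_const, smul_eq_mul] at g1
    have g2 : (I d).card * Fintype.card k ^ (n - 2 * d) * d ≤ Fintype.card k ^ (n - d) := by
      rw [mul_right_comm, show n - d = d + (n - 2 * d) by omega, pow_add]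
      exact Nat.mul_le_mul_right _ g1
    have g3 := (Bad.pow_sub_le (k := k) (show d ≤ n by omega) le_rfl).trans Bad.div_le_two
    have g4 : (((I d).card * Fintype.card k ^ (n - 2 * d) : ℕ) : ℝ) * d ≤
        (Fintype.card k : ℝ) ^ n * (1 / 2) ^ d := by
      rw [one_div, inv_pow, ← div_eq_mul_inv]
      exact le_trans (by exact_mod_cast g2) g3
    split_ifs with h
    · rw [h] at g4 ⊢
      norm_num at g4 ⊢
      linarith
    · have g5 : (2 : ℝ) ≤ d := by exact_mod_cast (by omega : 2 ≤ d)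
      have g6 := Nat.cast_nonneg (α := ℝ) ((I d).card * Fintype.card k ^ (n - 2 * d))
      nlinarith
  have h4 := sum_le_sum h3
  rw [← mul_sum, sum_add_distrib, ← sum_div, sum_ite_eq', ← Nat.cast_sum] at h4
  have h5 := geo (n / 2)
  have h6 : (0 : ℝ) ≤ (1 / 2) ^ (n / 2) := by positivity
  have h7 : (0 : ℝ) ≤ (Fintype.card k : ℝ) ^ n := by positivity
  have h8 := h4.trans (mul_le_mul_of_nonneg_left (c := 3 / 4) (by split_ifs <;> linarith) h7)
  have h9 := (Nat.cast_le (α := ℝ)).2 h2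
  rw [Nat.cast_add, Nat.cast_pow] at h9
  refine (Nat.cast_le (α := ℝ)).1 ?_
  push_cast at h8 h9 ⊢
  linarith

theorem up (B n : ℕ) :
    ∑ b ∈ Om k n, B ^ (pr b).card ≤ Fintype.card k ^ (n + 1) * (n + 1) ^ B := by
  induction B generalizing n with
  | zero =>
    rw [pow_zero, mul_one, ← Bad.card_PL]
    refine (sum_le_card_nsmul _ _ 1 fun b _ => pow_le_one' zero_le_one _).trans ?_
    rw [smul_eq_mul, mul_one]
    exact card_le_card fun b hb => Bad.mem_PL_succ.2 (mem_Om.1 hb).2.le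
  | succ B ih =>
    have h1 : ∀ b : k[X], (B + 1) ^ (pr b).card = ∑ t ∈ (pr b).powerset, B ^ t.card := fun b => by
      simpa using (sum_pow_mul_eq_add_pow B 1 (pr b)).symm
    let φ : (Σ _ : k[X], Finset k[X]) → (Σ _ : ℕ, k[X] × k[X]) := fun x =>
      ⟨(∏ p ∈ pr x.1 \ x.2, p).natDegree, C x.1.leadingCoeff * ∏ p ∈ x.2, p, ∏ p ∈ pr x.1 \ x.2, p⟩
    have h2 : ∀ x ∈ (Om k n).sigma fun b => (pr b).powerset, pr (φ x).2.1 = x.2 ∧
        (φ x).2.1 * (φ x).2.2 = x.1 ∧ (φ x).2.2.Monic := by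
      intro x hx
      obtain ⟨g1, g2⟩ := mem_sigma.1 hx
      have g3 := (mem_Om.1 g1).1
      have g4 := mem_powerset.1 g2
      refine ⟨pr_prod (leadingCoeff_ne_zero.2 g3.ne_zero) fun p hp => ?_, ?_,
        monic_prod_of_monic _ _ fun p hp => ((mem_pr g3.ne_zero).1 (mem_sdiff.1 hp).1).2.1⟩
      · have := (mem_pr g3.ne_zero).1 (g4 hp)
        exact ⟨this.1, this.2.1⟩
      · rw [mul_assoc, mul_comm (∏ p ∈ x.2, p), prod_sdiff g4, prod_pr g3]
    simp only [h1]
    rw [sum_sigma', sum_congr rfl fun x hx => by rw [← (h2 x hx).1],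
      ← sum_image (g := φ) (f := fun y => B ^ (pr y.2.1).card) fun x hx y hy h => ?_]
    · refine (sum_le_sum_of_subset (t := (range (n + 1)).sigma fun d => Om k (n - d) ×ˢ Mo k d)
        fun y hy => ?_).trans ?_
      · obtain ⟨x, hx, rfl⟩ := mem_image.1 hy
        obtain ⟨-, g2, g3⟩ := h2 x hx
        obtain ⟨g4, g5⟩ := mem_Om.1 (mem_sigma.1 hx).1
        rw [← g2] at g4 g5
        rw [natDegree_mul (left_ne_zero_of_mul g4.ne_zero) g3.ne_zero] at g5
        have g6 : (φ x).1 = (φ x).2.2.natDegree := rfl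
        exact mem_sigma.2 ⟨mem_range.2 (by omega), mem_product.2
          ⟨mem_Om.2 ⟨g4.of_mul_left, by omega⟩, mem_Mo.2 ⟨g3, rfl⟩⟩⟩
      · rw [sum_sigma]
        refine (sum_le_card_nsmul _ _ (Fintype.card k ^ (n + 1) * (n + 1) ^ B)
          fun d hd => ?_).trans (by rw [card_range, smul_eq_mul, pow_succ (n + 1)]; ring_nf; rfl)
        rw [mem_range] at hd
        simp only [sum_product, sum_const, smul_eq_mul, card_Mo, ← mul_sum]
        refine (Nat.mul_le_mul_left _ (ih _)).trans ?_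
        rw [← mul_assoc, ← pow_add, show d + (n - d + 1) = n + 1 by omega]
        exact Nat.mul_le_mul_left _ (Nat.pow_le_pow_left (by omega) _)
    · refine Sigma.ext ?_ (heq_of_eq ?_)
      · rw [← (h2 x hx).2.1, ← (h2 y hy).2.1, h]
      · rw [← (h2 x hx).1, ← (h2 y hy).1, h]

end CntP

theorem cnt : Cnt := fun _ _ _ _ n _ => ⟨CntP.low n, fun B => CntP.up B n⟩

end Pool.Agent.Lib.MP_a3f657_nt.Two.Win
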