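import Pool.Agent.Lib.MP_a3f657_nt.WLCov

/-!
Existence of the function field of an elementary abelian Artin-Schreier cover.
-/

namespace Pool.Agent.Lib.MP_a3f657_nt.Two.Win

open Polynomial Rh

open scoped Classical

namespace LEx

variable {K : Type} [Field K] [CharP K 2] {I : Type}

/-- The quadratic extension generated by a root of `X ^ 2 + X + a`. -/
def ext (E : Subfield K) (t : K) (ht : t ^ 2 + t ∈ E) (h0 : t ∉ E) : Subfield K where
  carrier := {z | ∃ x ∈ E, ∃ y ∈ E, z = x + y * t}
  zero_mem' := ⟨0, E.zero_mem, 0, E.zero_mem, by simp⟩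
  one_mem' := ⟨1, E.one_mem, 0, E.zero_mem, by simp⟩
  add_mem' := by
    rintro _ _ ⟨x, hx, y, hy, rfl⟩ ⟨x', hx', y', hy', rfl⟩
    exact ⟨x + x', E.add_mem hx hx', y + y', E.add_mem hy hy', by ring⟩
  neg_mem' := by
    rintro _ ⟨x, hx, y, hy, rfl⟩
    exact ⟨-x, E.neg_mem hx, -y, E.neg_mem hy, by ring⟩
  mul_mem' := by
    rintro _ _ ⟨x, hx, y, hy, rfl⟩ ⟨x', hx', y', hy', rfl⟩
    exact ⟨x * x' + y * y' * (t ^ 2 + t), E.add_mem (E.mul_mem hx hx')
      (E.mul_mem (E.mul_mem hy hy') ht), x * y' + y * x' - y * y',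
      E.sub_mem (E.add_mem (E.mul_mem hx hy') (E.mul_mem hy hx')) (E.mul_mem hy hy'), by ring⟩
  inv_mem' := by
    rintro _ ⟨x, hx, y, hy, rfl⟩
    by_cases hy0 : y = 0
    · exact ⟨x⁻¹, E.inv_mem hx, 0, E.zero_mem, by simp [hy0]⟩
    have h1 : ∀ u ∈ E, u + y * t ≠ 0 := fun u hu e => h0 (by
      have : t = -u / y := by
        rw [eq_div_iff hy0]
        linear_combination e
      rw [this]
      exact E.div_mem (E.neg_mem hu) hy)
    have h2 : (x + y * t) * (x + y + y * t) = x ^ 2 + x * y + y ^ 2 * (t ^ 2 + t) := by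
      linear_combination (x * y * t) * (CharTwo.two_eq_zero (R := K))
    have h3 : x ^ 2 + x * y + y ^ 2 * (t ^ 2 + t) ∈ E :=
      E.add_mem (E.add_mem (E.pow_mem hx 2) (E.mul_mem hx hy)) (E.mul_mem (E.pow_mem hy 2) ht)
    refine ⟨(x + y) / _, E.div_mem (E.add_mem hx hy) h3, y / _, E.div_mem hy h3, ?_⟩
    have h4 := h1 x hx
    have h5 := h1 _ (E.add_mem hx hy)
    rw [← h2]
    field_simp

omit [CharP K 2] in
theorem pair_zero {E : Subfield K} {t x y : K} (h0 : t ∉ E) (hx : x ∈ E) (hy : y ∈ E)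
    (e : x + y * t = 0) : x = 0 ∧ y = 0 := by
  have hy0 : y = 0 := by
    by_contra hy0
    refine h0 ?_
    have : t = -x / y := by
      rw [eq_div_iff hy0]
      linear_combination e
    rw [this]
    exact E.div_mem (E.neg_mem hx) hy
  rw [hy0, zero_mul, add_zero] at e
  exact ⟨e, hy0⟩

theorem indep (θ : I → K) (T : Finset I) : ∀ E : Subfield K, (∀ i ∈ T, θ i ^ 2 + θ i ∈ E) →
    (∀ s ⊆ T, s.Nonempty → ∀ c ∈ E, c ^ 2 + c ≠ ∑ i ∈ s, (θ i ^ 2 + θ i)) →
    ∀ c : Finset I → K, (∀ S, c S ∈ E) → ∑ S ∈ T.powerset, c S * ∏ i ∈ S, θ i = 0 →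
      ∀ S ⊆ T, c S = 0 := by
  induction T using Finset.induction_on with
  | empty =>
    intro E _ _ c _ h S hS
    rw [Finset.subset_empty.1 hS]
    simpa using h
  | insert j T hj ih =>
    intro E h1 h2 c hc h S hS
    have ht := h1 j (Finset.mem_insert_self j T)
    have h0 : θ j ∉ E := fun e =>
      h2 {j} (by simp) (Finset.singleton_nonempty j) _ e (by simp)
    have key := ih (ext E (θ j) ht h0)
      (fun i hi => ⟨_, h1 i (Finset.mem_insert_of_mem hi), 0, E.zero_mem, by simp⟩)
      (by
        rintro s hs hne _ ⟨x, hx, y, hy, rfl⟩ e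
        have hm : ∑ i ∈ s, (θ i ^ 2 + θ i) ∈ E :=
          sum_mem fun i hi => h1 i (Finset.mem_insert_of_mem (hs hi))
        obtain ⟨e1, e2⟩ := pair_zero
          (x := x ^ 2 + x + y ^ 2 * (θ j ^ 2 + θ j) - ∑ i ∈ s, (θ i ^ 2 + θ i)) (y := y - y ^ 2) h0
          (E.sub_mem (E.add_mem (E.add_mem (E.pow_mem hx 2) hx) (E.mul_mem (E.pow_mem hy 2) ht)) hm)
          (E.sub_mem hy (E.pow_mem hy 2))
          (by linear_combination e - (x * y * θ j) * (CharTwo.two_eq_zero (R := K)))
        have e3 : y * (1 - y) = 0 := by linear_combination e2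
        rcases mul_eq_zero.1 e3 with e4 | e4
        · refine h2 s (hs.trans (Finset.subset_insert j T)) hne x hx ?_
          rw [e4] at e1
          linear_combination e1
        · refine h2 (insert j s) (Finset.insert_subset_insert j hs) (Finset.insert_nonempty j s)
            x hx ?_
          rw [← sub_eq_zero.1 e4] at e1
          rw [Finset.sum_insert fun hjs => hj (hs hjs)]
          linear_combination e1 - (θ j ^ 2 + θ j) * (CharTwo.two_eq_zero (R := K)))
      (fun S => c S + c (insert j S) * θ j) (fun S => ⟨_, hc S, _, hc _, rfl⟩)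
      (by
        rw [Finset.sum_powerset_insert hj, ← Finset.sum_add_distrib] at h
        rw [← h]
        refine Finset.sum_congr rfl fun S hS => ?_
        rw [Finset.prod_insert fun hjs => hj (Finset.mem_powerset.1 hS hjs)]
        ring)
    by_cases hjS : j ∈ S
    · have := (pair_zero h0 (hc _) (hc _)
        (key (S.erase j) (Finset.subset_insert_iff.1 hS))).2
      rwa [Finset.insert_erase hjS] at this
    · exact (pair_zero h0 (hc _) (hc _)
        (key S ((Finset.subset_insert_iff_of_notMem hjS).1 hS))).1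

variable {F : Type} [Field F] [Algebra F K]

theorem linInd [Fintype I] (θ : I → K) (a : I → F) (hθ : ∀ i, θ i ^ 2 + θ i = algebraMap F K (a i))
    (h : ∀ s : Finset I, s.Nonempty → ∀ c : F, c ^ 2 + c ≠ ∑ i ∈ s, a i) :
    LinearIndependent F fun S : Finset I => ∏ i ∈ S, θ i := by
  rw [Fintype.linearIndependent_iff]
  intro g hg S
  refine (algebraMap F K).injective ?_
  rw [map_zero]
  refine indep θ Finset.univ (algebraMap F K).fieldRange (fun i _ => ⟨_, (hθ i).symm⟩) ?_
    (fun S => algebraMap F K (g S)) (fun S => ⟨_, rfl⟩) ?_ S (Finset.subset_univ S)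
  · rintro s - hs _ ⟨c, rfl⟩ e
    refine h s hs c ((algebraMap F K).injective ?_)
    simp only [map_add, map_pow, map_sum, ← hθ]
    exact e
  · rw [Finset.powerset_univ, ← hg]
    exact Finset.sum_congr rfl fun S _ => (Algebra.smul_def _ _).symm

omit [CharP K 2] in
theorem span_mul (y : I → K) (m b : I → F)
    (hy : ∀ i, y i ^ 2 = m i • y i + algebraMap F K (b i)) {u v : K}
    (hu : u ∈ Submodule.span F (Set.range fun S : Finset I => ∏ i ∈ S, y i))
    (hv : v ∈ Submodule.span F (Set.range fun S : Finset I => ∏ i ∈ S, y i)) :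
    u * v ∈ Submodule.span F (Set.range fun S : Finset I => ∏ i ∈ S, y i) := by
  have h1 : ∀ i, ∀ v ∈ Submodule.span F (Set.range fun S : Finset I => ∏ i ∈ S, y i),
      y i * v ∈ Submodule.span F (Set.range fun S : Finset I => ∏ i ∈ S, y i) := by
    intro i v hv
    induction hv using Submodule.span_induction with
    | mem _ h =>
      obtain ⟨S, rfl⟩ := h
      by_cases hi : i ∈ S
      · have e : y i * ∏ l ∈ S, y l = m i • ∏ l ∈ S, y l + b i • ∏ l ∈ S.erase i, y l := by
          rw [← Finset.mul_prod_erase S _ hi, ← mul_assoc, ← sq, hy, add_mul, smul_mul_assoc,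
            Algebra.smul_def (b i)]
        rw [e]
        exact add_mem (Submodule.smul_mem _ _ (Submodule.subset_span ⟨S, rfl⟩))
          (Submodule.smul_mem _ _ (Submodule.subset_span ⟨_, rfl⟩))
      · exact Submodule.subset_span ⟨insert i S, Finset.prod_insert hi⟩
    | zero => simp
    | add _ _ _ _ p q => rw [mul_add]; exact add_mem p q
    | smul c _ _ p => rw [mul_smul_comm]; exact Submodule.smul_mem _ _ p
  induction hu using Submodule.span_induction with
  | mem _ h =>
    obtain ⟨S, rfl⟩ := h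
    induction S using Finset.induction_on with
    | empty => simpa using hv
    | insert i S hi ih =>
      simp only [Finset.prod_insert hi, mul_assoc]
      exact h1 i _ ih
  | zero => simp
  | add _ _ _ _ p q => rw [add_mul]; exact add_mem p q
  | smul c _ _ p => rw [smul_mul_assoc]; exact Submodule.smul_mem _ _ p

end LEx

theorem covEx {k : Type} [Field k] [Fintype k] [CharP k 2] {ρ : ℕ} {M : k[X]} {n : Fin ρ → k[X]}
    (hM : M ≠ 0) (h : Indep M n) : Nonempty (Cov M n) := by
  let K := AlgebraicClosure (RatFunc k)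
  have : CharP K 2 := charP_of_injective_algebraMap (algebraMap (RatFunc k) K).injective 2
  choose θ hθ using fun i => exists_quad (1 : K) (algebraMap (RatFunc k) K (ι (n i) / ι M))
  simp only [one_mul] at hθ
  have h0 := ι_ne hM
  have li := (LEx.linInd θ _ hθ fun s hs c e => h s hs c (by
    rw [e, map_sum, Finset.sum_div])).units_smul fun S => Units.mk0 (ι M) h0 ^ S.card
  let y : Fin ρ → K := fun i => algebraMap (RatFunc k) K (ι M) * θ i
  have li' : LinearIndependent (RatFunc k) fun S : Finset (Fin ρ) => ∏ i ∈ S, y i := by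
    convert li using 2 with S
    simp [y, Finset.prod_mul_distrib, Units.smul_def, Algebra.smul_def]
  have hy : ∀ i, y i ^ 2 = ι M • y i + algebraMap (RatFunc k) K (ι M * ι (n i)) := fun i => by
    have h1 := hθ i
    rw [map_div₀, eq_div_iff ((_root_.map_ne_zero _).2 h0)] at h1
    rw [map_mul, ← h1, Algebra.smul_def]
    linear_combination (-(algebraMap (RatFunc k) K (ι M)) ^ 2 * θ i) * (CharTwo.two_eq_zero (R := K))
  let W := Submodule.span (RatFunc k) (Set.range fun S : Finset (Fin ρ) => ∏ i ∈ S, y i)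
  let A : Subalgebra (RatFunc k) K := W.toSubalgebra (Submodule.subset_span ⟨∅, rfl⟩)
    fun _ _ hu hv => LEx.span_mul y (fun _ => ι M) _ hy hu hv
  let L : IntermediateField (RatFunc k) K := A.toIntermediateField fun x hx =>
    A.inv_mem_of_algebraic (x := ⟨x, hx⟩) (Algebra.IsAlgebraic.isAlgebraic _)
  have hm : ∀ i, θ i ∈ L := fun i => by
    have e : θ i = (ι M)⁻¹ • ∏ l ∈ {i}, y l := by
      rw [Finset.prod_singleton, Algebra.smul_def, ← mul_assoc, ← map_mul, inv_mul_cancel₀ h0,
        map_one, one_mul]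
    rw [e]
    exact Submodule.smul_mem W _ (Submodule.subset_span ⟨{i}, rfl⟩)
  let v : Finset (Fin ρ) → L := fun S => ∏ i ∈ S, algebraMap (RatFunc k) L (ι M) * ⟨θ i, hm i⟩
  have hv : ∀ S, L.val.toLinearMap (v S) = ∏ i ∈ S, y i := fun S => by
    simp [v, y]
  have li2 : LinearIndependent (RatFunc k) v :=
    LinearIndependent.of_comp L.val.toLinearMap (by convert li' using 1; exact funext hv)
  have sp : ⊤ ≤ Submodule.span (RatFunc k) (Set.range v) := by
    rintro x -
    refine (Submodule.apply_mem_span_image_iff_mem_span (f := L.val.toLinearMap)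
      Subtype.val_injective).1 ?_
    rw [← Set.range_comp, show L.val.toLinearMap ∘ v = _ from funext hv]
    exact x.2
  exact ⟨{
    L := L
    θ := fun i => ⟨θ i, hm i⟩
    hθ := fun i => Subtype.ext (hθ i)
    bas := Module.Basis.mk li2 sp
    hbas := fun S => Module.Basis.mk_apply li2 sp S
    M0 := hM }⟩

end Pool.Agent.Lib.MP_a3f657_nt.Two.Win
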