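import Pool.Agent.Lib.MP_a3f657_nt.WLOne
import Pool.Agent.Lib.MP_a3f657_nt.C2LkRR

/-!
Counting functions with prescribed poles on the cover.
-/

set_option linter.unusedSectionVars false

namespace Pool.Agent.Lib.MP_a3f657_nt.Two.Win

open Polynomial HahnSeries Function
open Rh hiding tw
open Lk hiding Pt fr th Pr nP fr_per One nP_monic nP_cop nP_deg exists_f V Lam Bx lv
open Pt

open scoped Classical

lemma rrN {ι : Type} (deg : ι → ℕ) (N : (ι →₀ ℤ) → ℤ → ℝ) {q : ℝ} (hq : 1 < q) (r d : ℕ)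
    (h1 : ∀ D i, 1 ≤ N D i)
    (ha : ∀ D i, N D (i + 1) ≤ q ^ r * N D i)
    (hs : ∀ D i l, 1 < N D i → i + d ≤ l → N D (l + 1) = q ^ r * N D l)
    (hne : ∀ D, ∃ i, 1 < N D i)
    (hb : ∀ D P i, N (D + Finsupp.single P 1) i ≤ q ^ deg P * N D i)
    (hc : ∀ P, ∃ (E : ι →₀ ℤ) (e : ℤ), Finsupp.single P 1 ≤ E ∧ degZ deg E = r * e ∧
      ∀ D i, N (D + E) i = N D (i + e))
    (h0 : 1 < N 0 0) : ∃ c : ℝ, ∀ D i, r * d < r * i + degZ deg D →
      1 < N D i ∧ ∀ l, i + d ≤ l → N D l = c * q ^ (r * l + degZ deg D) := by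
  have q0 : 0 < q := zero_lt_one.trans hq
  set c : (ι →₀ ℤ) → ℤ → ℝ := fun D i => N D i / q ^ (r * i + degZ deg D) with hcd
  have e1 : ∀ (D : ι →₀ ℤ) (i : ℤ), q ^ (r * (i + 1) + degZ deg D) =
      q ^ r * q ^ (r * i + degZ deg D) := fun D i => by
    rw [← zpow_natCast, ← zpow_add₀ q0.ne']; congr 1; ring
  have anti : ∀ D, Antitone (c D) := fun D => antitone_int_of_succ_le fun i => by
    simp only [hcd]
    rw [e1, div_le_div_iff₀ (by positivity) (by positivity), ← mul_assoc, mul_comm _ (q ^ r)]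
    exact mul_le_mul_of_nonneg_right (ha D i) (by positivity)
  have stab : ∀ D i l, 1 < N D i → i + d ≤ l → c D l = c D (i + d) := fun D i l hi hl => by
    induction l, hl using Int.leInduction with
    | base => rfl
    | succ l hl ih =>
      rw [← ih]
      simp only [hcd]
      rw [e1, hs D i l hi hl, mul_div_mul_left _ _ (by positivity)]
  choose i₀ hi₀ using hne
  set cI : (ι →₀ ℤ) → ℝ := fun D => c D (i₀ D + d) with hcI
  have low : ∀ D i, cI D ≤ c D i := fun D i =>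
    (stab D _ _ (hi₀ D) (le_max_left _ i)).symm.le.trans (anti D (le_max_right _ _))
  have mono1 : ∀ D P, cI (D + Finsupp.single P 1) ≤ cI D := fun D P => by
    refine (low _ (i₀ D + d)).trans ?_
    simp only [hcI, hcd]
    rw [map_add, degZ_single, one_mul, ← add_assoc, zpow_add₀ q0.ne', zpow_natCast,
      div_le_div_iff₀ (by positivity) (by positivity), mul_comm _ (q ^ deg P), ← mul_assoc,
      mul_comm _ (q ^ deg P)]
    exact mul_le_mul_of_nonneg_right (hb D P _) (by positivity)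
  have mono2 : ∀ (P) (n : ℕ) (D), cI (D + Finsupp.single P (n : ℤ)) ≤ cI D := fun P n => by
    induction n with
    | zero => simp
    | succ n ih =>
      intro D
      rw [Nat.cast_succ, Finsupp.single_add, ← add_assoc]
      exact (mono1 _ P).trans (ih D)
  have mono : ∀ E : ι →₀ ℤ, 0 ≤ E → ∀ D, cI (D + E) ≤ cI D := fun E => by
    induction E using Finsupp.induction with
    | zero => simp
    | single_add P n E h2 h3 ih =>
      intro hE D
      have h4 : E P = 0 := Finsupp.notMem_support_iff.1 h2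
      obtain ⟨n, rfl⟩ := Int.eq_ofNat_of_zero_le (a := n) (by simpa [h4] using hE P)
      rw [← add_assoc]
      refine (ih (fun Q => ?_) _).trans (mono2 P n D)
      by_cases h : P = Q
      · simp [← h, h4]
      · simpa [h] using hE Q
  have eq1 : ∀ D P, cI (D + Finsupp.single P 1) = cI D := fun D P => by
    obtain ⟨E, e, h2, h3, h4⟩ := hc P
    refine le_antisymm (mono1 D P) ?_
    have h5 := mono _ (sub_nonneg.2 h2) (D + Finsupp.single P 1)
    rw [add_add_sub_cancel] at h5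
    refine le_trans ((low D (i₀ (D + E) + d + e)).trans (le_of_eq ?_)) h5
    simp only [hcI, hcd]
    rw [h4, map_add, h3]
    congr 2
    ring
  have eq2 : ∀ D, cI D = cI 0 := fun D => by
    induction D using Finsupp.induction with
    | zero => rfl
    | single_add P n E h2 h3 ih =>
      rw [← ih, add_comm]
      clear h3
      induction n with
      | zero => simp
      | succ n ih2 => rw [Finsupp.single_add, ← add_assoc, eq1, ih2]
      | pred n ih2 =>
        rw [← ih2, ← eq1 _ P, add_assoc, ← Finsupp.single_add, sub_add_cancel]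
  refine ⟨cI 0, fun D i hi => ?_⟩
  have h2 : 1 < N D i := by
    have h3 := low D i
    rw [eq2, hcI] at h3
    simp only at h3
    rw [← stab 0 _ _ (hi₀ 0) (le_max_left _ (0 + (d : ℤ))), stab 0 _ _ h0 (le_max_right _ _)] at h3
    simp only [hcd, map_zero, zero_add, add_zero] at h3
    rw [div_le_div_iff₀ (by positivity) (by positivity)] at h3
    have h4 := zpow_lt_zpow_right₀ hq hi
    have h5 : 0 < q ^ (r * (d : ℤ)) := by positivity
    nlinarith [h1 0 d]
  refine ⟨h2, fun l hl => ?_⟩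
  rw [← eq2 D, hcI]
  simp only
  rw [← stab D _ _ (hi₀ D) (le_max_left _ l), stab D _ _ h2 (hl.trans (le_max_right _ _)),
    ← stab D _ _ h2 hl]
  simp only [hcd]
  rw [div_mul_cancel₀ _ (by positivity)]

variable {k : Type} [Field k] [Fintype k] [CharP k 2] {ρ : ℕ} {M : k[X]} {n : Fin ρ → k[X]}

namespace Cov

variable (C : Cov M n)

/-- Functions with poles bounded by `D` on the affine curve, regular at the roots of `M`. -/
noncomputable def Lam (D : Pr M n →₀ ℤ) : AddSubgroup C.L where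
  carrier := {x | x ∈ C.OL ∧ ∀ Q, Ge (C.φ Q x) (-D (cls _ Q))}
  add_mem' h h' := ⟨add_mem h.1 h'.1, fun Q => by rw [map_add]; exact (h.2 Q).add (h'.2 Q)⟩
  zero_mem' := ⟨zero_mem _, fun Q => by rw [map_zero]; exact Ge.zero _⟩
  neg_mem' h := ⟨neg_mem h.1, fun Q => by rw [map_neg]; exact (h.2 Q).neg⟩

/-- The bounded part. -/
noncomputable def V (D : Pr M n →₀ ℤ) (i : ℤ) : AddSubgroup C.L := C.Lam D ⊓ C.Bx i

/-- The vector of leading coefficients. -/
noncomputable def lv (i : ℤ) : C.L →+ Finset (Fin ρ) → k where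
  toFun x S := (eI (C.bas.repr x S)).coeff (-(i - S.card * (M.natDegree + dA n)))
  map_zero' := by ext; simp
  map_add' x y := by ext; simp

variable {C} {D : Pr M n →₀ ℤ} {i l : ℤ} {x : C.L}

lemma mem_Bx_succ : x ∈ C.Bx i ↔ x ∈ C.Bx (i + 1) ∧ C.lv (i + 1) x = 0 :=
  ⟨fun h => ⟨B_mono h (by omega), funext fun S => h S _ (by omega)⟩, fun h S =>
    (Ge.succ (h.1 S) (congrFun h.2 S)).mono (by omega)⟩

lemma exists_Bx (x : C.L) : ∃ i, x ∈ C.Bx i := by
  obtain ⟨i, hi⟩ := (Set.finite_range fun S : Finset (Fin ρ) =>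
    S.card * (M.natDegree + dA n : ℤ) - (eI (C.bas.repr x S)).order).bddAbove
  exact ⟨i, fun S => (ge_order _).mono (by have := hi ⟨S, rfl⟩; simp only at this; omega)⟩

lemma repr_j_mul (c : RatFunc k) (x : C.L) (S : Finset (Fin ρ)) :
    C.bas.repr (C.j c * x) S = c * C.bas.repr x S := by
  rw [← Algebra.smul_def, map_smul, Finsupp.smul_apply, smul_eq_mul]

lemma smul_Lam (h : x ∈ C.Lam D) (g : k[X]) : C.j (ι g) * x ∈ C.Lam D :=
  ⟨mul_mem (j_OL.2 (ι_mem g)) h.1, fun Q => by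
    rw [map_mul, φ_j]; exact (ge_ex_ι _ g).mul0 (h.2 Q)⟩

lemma mon_V (h : x ∈ C.V D i) (hl : i ≤ l) (c : k) :
    ∃ g : k[X], C.j (ι g) * x ∈ C.V D l ∧ C.lv l (C.j (ι g) * x) = c • C.lv i x := by
  obtain ⟨e, rfl⟩ := Int.le.dest hl
  have key : ∀ y (i : ℤ), Ge (eI y) (-i) → Ge (eI (ι (monomial e c) * y)) (-(i + e)) ∧
      (eI (ι (monomial e c) * y)).coeff (-(i + e)) = c * (eI y).coeff (-i) := fun y i hy => by
    rw [map_mul, eI_ι, EI_monomial, neg_add, add_comm, (ge_single _ _).coeff_mul hy]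
    exact ⟨(ge_single _ _).mul hy, by simp⟩
  refine ⟨monomial e c, ⟨smul_Lam h.1 _, fun S => ?_⟩, funext fun S => ?_⟩
  · rw [repr_j_mul, add_sub_right_comm]
    exact (key _ _ (h.2 S)).1
  · change (eI _).coeff _ = _
    rw [repr_j_mul, add_sub_right_comm]
    exact (key _ _ (h.2 S)).2

lemma bas_Lam (h : x ∈ C.Lam D) (S : Finset (Fin ρ)) : C.bas S * x ∈ C.Lam D := by
  rw [bas_eq]
  refine ⟨mul_mem (prod_mem fun a _ => y_mem (F := fO M n) a) h.1, fun Q => ?_⟩
  rw [map_mul, map_prod]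
  exact (ge_prod fun a _ => by
    rw [y, map_mul, φ_j, φ_θ]; exact (ge_ex_ι _ M).mul0 (Q.th_ge a)).mul0 (h.2 Q)

variable (C) in
lemma V_bot (D : Pr M n →₀ ℤ) : ∃ b, ∀ i < b, C.V D i = ⊥ := by
  obtain ⟨f, h0, -, h1⟩ := exists_f D
  refine ⟨-f.natDegree, fun i hi => eq_bot_iff.2 fun x hx => C.bas.ext_elem fun S => ?_⟩
  have h2 : ∀ Q : Pt M n, Ge (C.φ Q (C.j (ι f) * x)) 0 := fun Q => by
    rw [map_mul, φ_j]
    exact ((h1 Q).mul (hx.1.2 Q)).mono (by linarith [le_abs_self (D (cls _ Q))])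
  obtain ⟨g, hg⟩ := poly_of_ge (K := AlgebraicClosure k) (x := ι f * C.bas.repr x S) fun a => by
    by_cases ha : aeval a M = 0
    · exact mul_mem (ι_mem f) (hx.1.1 S) a ha
    · obtain ⟨Q, rfl⟩ := Pt.exists_pt n ha
      exact repr_j_mul _ x S ▸ ge_coord (fun ε => h2 _) S
  have h5 : g = 0 := eq_zero_of_eI (by
    have : (0 : ℤ) ≤ S.card * (M.natDegree + dA n) := by positivity
    rw [hg, map_mul]
    exact ((ge_eI_ι f).mul (hx.2 S)).mono (by omega))
  rw [h5, ι_zero] at hg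
  simpa using (mul_eq_zero.1 hg.symm).resolve_left (ι_ne h0)

lemma mem_V_succ : x ∈ C.V D i ↔ x ∈ C.V D (i + 1) ∧ C.lv (i + 1) x = 0 := by
  simp only [V, AddSubgroup.mem_inf, mem_Bx_succ (i := i), and_assoc]

lemma V_succ [Finite (C.V D i)] : Finite (C.V D (i + 1)) ∧
    Nat.card (C.V D (i + 1)) ≤ Fintype.card k ^ 2 ^ ρ * Nat.card (C.V D i) := by
  simpa using card_le_mul (C.V D i) (C.V D (i + 1)) (C.lv (i + 1)) Finset.univ (by simp)
    fun x h1 h2 => mem_V_succ.2 ⟨h1, h2⟩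

lemma V_ind {p : ℤ → Prop} (h0 : ∀ i, C.V D i = ⊥ → p i) (h : ∀ i, p i → p (i + 1)) (i : ℤ) :
    p i := by
  obtain ⟨b, hb⟩ := C.V_bot D
  by_cases hi : i < b
  · exact h0 i (hb i hi)
  replace hi : b - 1 ≤ i := by omega
  induction i, hi using Int.leInduction with
  | base => exact h0 _ (hb _ (by omega))
  | succ i _ ih => exact h i ih

instance (D : Pr M n →₀ ℤ) (i : ℤ) : Finite (C.V D i) :=
  V_ind (p := fun i => Finite (C.V D i)) (fun _ h => h ▸ inferInstance) (fun _ _ => V_succ.1) i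

variable (C) in
/-- The leading vectors. -/
noncomputable def U (D : Pr M n →₀ ℤ) (l : ℤ) : Submodule k (Finset (Fin ρ) → k) where
  __ := (C.V D l).map (C.lv l)
  smul_mem' := by
    rintro c _ ⟨x, hx, rfl⟩
    obtain ⟨g, h1, h2⟩ := mon_V hx le_rfl c
    exact ⟨_, h1, h2⟩

lemma rank_le (l : ℤ) : Module.finrank (RatFunc k) (Submodule.span (RatFunc k) (C.V D l : Set C.L)) ≤
    Module.finrank k (C.U D l) := by
  have := Module.Finite.of_basis C.bas
  induction l using V_ind (C := C) (D := D) with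
  | h0 i h =>
    rw [show Submodule.span (RatFunc k) (C.V D i : Set C.L) = ⊥ by rw [h]; simp]
    simp
  | h l ih =>
  have h1 : C.U D l ≤ C.U D (l + 1) := by
    rintro _ ⟨x, hx, rfl⟩
    obtain ⟨g, h1, h2⟩ := mon_V hx (l := l + 1) (by omega) 1
    exact ⟨_, h1, h2.trans (one_smul _ _)⟩
  obtain ⟨W, hW⟩ := ((C.U D l).comap (C.U D (l + 1)).subtype).exists_isCompl
  have h2 := Submodule.finrank_add_eq_of_isCompl hW
  rw [(Submodule.comapSubtypeEquivOfLe h1).finrank_eq] at h2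
  have : Module.Free k W := Module.Free.of_divisionRing k W
  let b := Module.finBasis k W
  choose z hz hz' using fun a => (b a).1.2
  have h3 : Submodule.span (RatFunc k) (C.V D (l + 1) : Set C.L) ≤
      Submodule.span (RatFunc k) (C.V D l : Set C.L) ⊔ Submodule.span (RatFunc k) (Set.range z) := by
    refine Submodule.span_le.2 fun v hv => ?_
    obtain ⟨u, ⟨x, hx, e1⟩, w, hw, e⟩ := Submodule.mem_sup.1
      (hW.sup_eq_top.ge (Submodule.mem_top (x := ⟨C.lv (l + 1) v, v, hv, rfl⟩)))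
    obtain ⟨g, h4, h5⟩ := mon_V hx (l := l + 1) (by omega) 1
    choose g' h6 h7 using fun a => mon_V (hz a) le_rfl (b.repr ⟨w, hw⟩ a)
    have h8 : v - C.j (ι g) * x - ∑ a, C.j (ι (g' a)) * z a ∈ C.V D l := by
      refine mem_V_succ.2 ⟨sub_mem (sub_mem hv h4) (sum_mem fun a _ => h6 a), ?_⟩
      have h9 := congrArg (fun t : W => t.1.1) (b.sum_repr ⟨w, hw⟩)
      simp only [Submodule.coe_sum, Submodule.coe_smul] at h9
      simp only [map_sub, map_sum, h5, h7, hz', h9, one_smul, e1]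
      have := congrArg Subtype.val e
      simp only [Submodule.coe_add] at this
      rw [← this]
      simp
    rw [show v = v - C.j (ι g) * x - ∑ a, C.j (ι (g' a)) * z a + C.j (ι g) * x +
      ∑ a, C.j (ι (g' a)) * z a by ring]
    simp only [← Algebra.smul_def] at h8 ⊢
    exact Submodule.add_mem_sup (add_mem (Submodule.subset_span h8) (Submodule.smul_mem _ _
      (Submodule.subset_span hx))) (sum_mem fun a _ => Submodule.smul_mem _ _
        (Submodule.subset_span ⟨a, rfl⟩))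
  have h4 := (Submodule.finrank_mono h3).trans (Submodule.finrank_add_le_finrank_add_finrank _ _)
  have h5 : Module.finrank (RatFunc k) (Submodule.span (RatFunc k) (Set.range z)) ≤ _ :=
    finrank_range_le_card z
  rw [Fintype.card_fin] at h5
  omega

/-- The gap between the successive minima. -/
noncomputable def gap (M : k[X]) (n : Fin ρ → k[X]) : ℕ := ρ * (M.natDegree + dA n)

lemma lv_surj (hi : C.V D i ≠ ⊥) (hl : i + gap M n ≤ l) (z : Finset (Fin ρ) → k) :
    ∃ x ∈ C.V D l, C.lv l x = z := by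
  obtain ⟨⟨x, hx⟩, h3⟩ := AddSubgroup.ne_bot_iff_exists_ne_zero.1 hi
  replace h3 : x ≠ 0 := fun h => h3 (Subtype.ext h)
  have h1 : Submodule.span (RatFunc k) (C.V D l : Set C.L) = ⊤ := by
    refine eq_top_iff.2 fun v _ => ?_
    rw [← div_mul_cancel₀ v h3, ← C.bas.sum_repr (v / x), Finset.sum_mul]
    refine sum_mem fun S _ => ?_
    rw [smul_mul_assoc]
    refine Submodule.smul_mem _ _ (Submodule.subset_span ⟨bas_Lam hx.1 S, ?_⟩)
    have h2 : (S.card : ℤ) * (M.natDegree + dA n) ≤ gap M n := by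
      have := S.card_le_univ
      rw [Fintype.card_fin] at this
      exact_mod_cast Nat.mul_le_mul_right _ this
    rw [bas_eq]
    exact mul_mem_B (prod_mem_B fun a _ => y_mem a) hx.2 (by omega)
  have h2 := rank_le (C := C) (D := D) l
  rw [h1, finrank_top, Module.finrank_eq_card_basis C.bas] at h2
  have h4 : C.U D l = ⊤ := Submodule.eq_top_of_finrank_eq
    (le_antisymm (Submodule.finrank_le _) (by simpa using h2))
  exact h4.ge Submodule.mem_top

lemma V_stab (hi : C.V D i ≠ ⊥) (hl : i + gap M n ≤ l) :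
    Nat.card (C.V D (l + 1)) = Fintype.card k ^ 2 ^ ρ * Nat.card (C.V D l) := by
  rw [card_eq_ker_mul (C.V D l) (C.V D (l + 1)) (C.lv (l + 1)) fun x => mem_V_succ,
    show (C.V D (l + 1)).map (C.lv (l + 1)) = ⊤ from eq_top_iff.2 fun z _ =>
      lv_surj hi (by omega) z]
  simp

lemma cover (hi : C.V D i ≠ ⊥) (hl : i + gap M n ≤ l) (z : C.L) :
    ∃ y ∈ C.Lam D, z - y ∈ C.Bx l := by
  obtain ⟨t, ht⟩ := exists_Bx z
  replace ht := B_mono ht (le_max_left t l)
  have h1 := le_max_right t l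
  generalize max t l = s at ht h1
  induction s, h1 using Int.leInduction generalizing z with
  | base => exact ⟨0, zero_mem _, by simpa using ht⟩
  | succ s hs ih =>
    obtain ⟨x, h2, h3⟩ := lv_surj hi (l := s + 1) (by omega) (C.lv (s + 1) z)
    obtain ⟨y, h4, h5⟩ := ih (z - x) (mem_Bx_succ.2 ⟨sub_mem ht h2.2, by rw [map_sub, h3, sub_self]⟩)
    exact ⟨x + y, add_mem h2.1 h4, by rwa [← sub_sub]⟩

variable (C) in
lemma V_single (D : Pr M n →₀ ℤ) (P : Pr M n) (i : ℤ) : Nat.card (C.V (D + Finsupp.single P 1) i) ≤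
    Fintype.card k ^ odeg _ P * Nat.card (C.V D i) := by
  rw [← Rh.card_fixF (odeg_pos P)]
  refine (card_le_mul (C.V D i) (C.V (D + Finsupp.single P 1) i)
    ((HahnSeries.coeff.addMonoidHom (-(D P + 1))).comp (C.φ (rep _ P)).toAddMonoidHom) _
    (fun x _ => ?_) fun x hx h => ⟨⟨hx.1.1, fun Q => ?_⟩, hx.2⟩).2
  · rw [Rh.mem_fixF (odeg_pos P)]
    exact (C.φ_iter _ x _ _).symm.trans (by rw [iter_odeg]; rfl)
  · by_cases hQ : P = cls _ Q
    · have h1 := hx.1.2 (rep _ P)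
      rw [cls_rep, Finsupp.add_apply, Finsupp.single_eq_same] at h1
      have h2 := (h1.succ h).mono (m := -D P) (by omega)
      rw [hQ] at h2
      exact inv_rep (g := fun Q' => Ge (C.φ Q' x) (-D (cls _ Q)))
        (fun Q' => by rw [φ_fr]; exact propext (ge_lmap _)) Q ▸ h2
    · simpa [hQ] using hx.1.2 Q

variable (C) in
lemma V_shift (P : Pr M n) : ∃ (E : Pr M n →₀ ℤ) (e : ℤ),
    Finsupp.single P 1 ≤ E ∧ degZ (odeg _) E = (2 ^ ρ : ℕ) * e ∧
      ∀ D i, Nat.card (C.V (D + E) i) = Nat.card (C.V D (i + e)) := by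
  have h0 := ι_ne (nP_monic P).ne_zero
  have h1 : C.j (ι (nP P)) ≠ 0 := (_root_.map_ne_zero _).2 h0
  have h2 : ∀ Q : Pt M n, C.dv (C.j (ι (nP P))) (cls _ Q) = (ex Q.a (ι (nP P))).order := fun Q => by
    rw [dv_cls, φ_j]
  have h3 : C.Nm (C.j (ι (nP P))) = ι (nP P ^ 2 ^ ρ) := by rw [Nm_j, ι_pow]
  refine ⟨C.dv (C.j (ι (nP P))), odeg _ P, fun P' => ?_, ?_, fun D i => ?_⟩
  · rw [← cls_rep P', h2, ← ge_iff ((_root_.map_ne_zero _).2 h0)]
    by_cases h : P = cls _ (rep _ P')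
    · rw [← h, Finsupp.single_eq_same]
      exact ge_ex_root (by rw [h]; exact aeval_nP _)
    · rw [Finsupp.single_eq_of_ne' h]
      exact ge_ex_ι _ _
  · rw [deg_dv h1 fun a ha => h3 ▸ order_ex_unit (aeval_ne (nP_cop P).pow_left ha), h3,
      order_eI_ι (pow_ne_zero _ (nP_monic P).ne_zero), natDegree_pow, nP_deg]
    simp
  · refine Nat.card_congr ((Equiv.mulLeft₀ _ h1).subtypeEquiv fun x => ?_)
    change _ ↔ C.j (ι (nP P)) * x ∈ C.V D (i + odeg _ P)
    refine and_congr (and_congr (forall_congr' fun S => forall₂_congr fun a ha => ?_)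
      (forall_congr' fun Q => ?_)) (forall_congr' fun S => ?_)
    · rw [repr_j_mul, map_mul, ge_mul_iff ((_root_.map_ne_zero _).2 h0),
        order_ex_unit (aeval_ne (nP_cop P) ha), sub_zero]
    · rw [map_mul, φ_j, ge_mul_iff ((_root_.map_ne_zero _).2 h0), Finsupp.add_apply, h2, neg_add']
    · rw [repr_j_mul, mem_fI, mem_fI, map_mul, ge_mul_iff ((_root_.map_ne_zero _).2 h0),
        order_eI_ι (nP_monic P).ne_zero, nP_deg]
      congr! 1
      ring

lemma poly_mem {f : k[X]} (h : ∀ Q : Pt M n, Ge (ex Q.a (ι f)) (-D (cls _ Q))) :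
    C.j (ι f) ∈ C.V D f.natDegree :=
  ⟨⟨j_OL.2 (ι_mem f), fun Q => by rw [φ_j]; exact h Q⟩, j_mem.2 (ge_eI_ι f)⟩

variable (C) in
lemma one_lt_V {f : k[X]} (h0 : f ≠ 0) (h : ∀ Q : Pt M n, Ge (ex Q.a (ι f)) (-D (cls _ Q))) :
    1 < Nat.card (C.V D f.natDegree) :=
  (AddSubgroup.one_lt_card_iff_ne_bot _).2 (AddSubgroup.ne_bot_iff_exists_ne_zero.2
    ⟨⟨_, poly_mem h⟩, fun e => (_root_.map_ne_zero C.j).2 (ι_ne h0) (congrArg (·.1) e)⟩)

lemma exists_base (hi : C.V D i ≠ ⊥) (hl : i + gap M n ≤ l) :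
    ∃ a ∈ C.OL, a ∈ C.Bx l ∧ 1 + C.j (ι M) ^ 4 * a ∈ C.Lam D := by
  obtain ⟨f, -, h1, h2⟩ := exists_f D
  obtain ⟨α, u, h3⟩ := h1.pow_right (n := 4)
  obtain ⟨a, h4, h5⟩ := cover hi hl (-C.j (ι u))
  refine ⟨_, sub_mem (neg_mem (j_OL.2 (ι_mem u))) h4.1, h5, ?_⟩
  have h6 : C.j (ι (α * f)) - C.j (ι (M ^ 4)) * a ∈ C.Lam D := sub_mem (poly_mem fun Q => by
    rw [ι_mul, map_mul]
    exact ((ge_ex_ι _ α).mul0 (h2 Q)).mono (neg_le_abs _)).1 (smul_Lam h4 (M ^ 4))
  have := congrArg (fun g => C.j (ι g)) h3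
  simp only [ι_mul u, map_add, map_mul, map_pow, map_one] at this h6
  convert h6 using 1
  linear_combination -this

lemma card_one {j : ℤ} (hj : 4 * M.natDegree < j) (hi : C.V D i ≠ ⊥) (hl : i + gap M n ≤ -j) :
    Nat.card {x : {x // C.One j x} | 0 ≤ D + C.dv x.1} = Nat.card (C.V D (-j)) := by
  obtain ⟨a, h1, h3, h4⟩ := exists_base hi hl
  have h0 := pow_ne_zero 4 (ι_ne C.M0)
  have h0' := pow_ne_zero 4 ((_root_.map_ne_zero C.j).2 (ι_ne C.M0))
  have e2 : ∀ v ∈ C.V D (-j), C.One j (1 + C.j (ι M) ^ 4 * a + C.j (ι M) ^ 4 * v) := fun v hv =>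
    ⟨_, add_mem h1 hv.1.1, add_mem h3 hv.2, by ring⟩
  refine (Nat.card_congr (Equiv.ofBijective (fun v => ⟨⟨_, e2 v.1 v.2⟩,
    (dv_le ((e2 v.1 v.2).ne hj)).2 (add_mem h4 (by
      rw [← map_pow, ← ι_pow]; exact smul_Lam v.2.1 _)).2⟩) ⟨fun v v' h => ?_, ?_⟩)).symm
  · exact Subtype.ext (mul_left_cancel₀ h0' (add_left_cancel (congrArg (·.1.1) h)))
  · rintro ⟨⟨x, hx⟩, h⟩
    have h7 := (dv_le (hx.ne hj)).1 h
    obtain ⟨a', ha, ha', rfl⟩ := hx
    refine ⟨⟨a' - a, ⟨sub_mem ha h1, fun Q => ?_⟩, sub_mem (S := AddSubgroup C.L) ha' h3⟩,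
      Subtype.ext (Subtype.ext (by simp only; ring))⟩
    have h8 := (h7 Q).sub (h4.2 Q)
    rwa [← map_sub, add_sub_add_left_eq_sub, ← mul_sub, map_mul, ← map_pow C.j, φ_j,
      ge_mul_iff ((_root_.map_ne_zero _).2 h0), ← ι_pow,
      order_ex_unit (g := M ^ 4) (by simpa using Q.hM), sub_zero] at h8

variable (C) in
lemma exists_card {j : ℕ} (hj : 4 * M.natDegree < j) {m : ℕ} (hm : 2 ^ ρ * (2 * gap M n + j) < m) :
    ∃ h : ℕ, h ≠ 0 ∧ ∀ D : Pr M n →₀ ℤ, degZ (odeg _) D = m →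
      Nat.card {x : {x // C.One j x} | 0 ≤ D + C.dv x.1} = h := by
  have ne : ∀ (D : Pr M n →₀ ℤ) (i : ℤ), (1 : ℝ) < Nat.card (C.V D i) ↔ C.V D i ≠ ⊥ := fun D i => by
    rw [← AddSubgroup.one_lt_card_iff_ne_bot, Nat.one_lt_cast]
  obtain ⟨c, hc⟩ := rrN (odeg (fr_per M n)) (fun D i => Nat.card (C.V D i))
    (q := Fintype.card k) (by exact_mod_cast Fintype.one_lt_card) (2 ^ ρ) (gap M n)
    (fun D i => by exact_mod_cast Nat.card_pos) (fun D i => by exact_mod_cast V_succ.2)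
    (fun D i l h1 h2 => by exact_mod_cast V_stab ((ne D i).1 h1) h2)
    (fun D => by
      obtain ⟨f, h0, -, h1⟩ := exists_f D
      exact ⟨_, by exact_mod_cast C.one_lt_V h0 fun Q => (h1 Q).mono (neg_le_abs _)⟩)
    (fun D P i => by exact_mod_cast C.V_single D P i)
    (fun P => by
      obtain ⟨E, e, h1, h2, h3⟩ := C.V_shift P
      exact ⟨E, e, h1, h2, fun D i => by exact_mod_cast h3 D i⟩)
    (by simpa using C.one_lt_V (D := 0) (one_ne_zero (α := k[X])) fun Q : Pt M n => ge_ex_ι _ _)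
  refine ⟨max 1 ⌊c * (Fintype.card k : ℝ) ^ ((2 ^ ρ : ℕ) * (-j : ℤ) + m)⌋₊, by omega,
    fun D hD => ?_⟩
  obtain ⟨h1, h2⟩ := hc D (-j - gap M n) (by
    have : (((2 ^ ρ : ℕ) * (2 * gap M n + j) : ℕ) : ℤ) < m := by exact_mod_cast hm
    rw [hD]
    push_cast at this ⊢
    linarith)
  rw [card_one (by omega) ((ne _ _).1 h1) (by omega), ← hD, ← h2 _ (by omega),
    Nat.floor_natCast, max_eq_right Nat.card_pos]

end Cov

end Pool.Agent.Lib.MP_a3f657_nt.Two.Win
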