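import Pool.Agent.Lib.MP_a3f657_nt.WLSgn
import Pool.Agent.Lib.MP_a3f657_nt.WLRR
import Pool.Agent.Lib.MP_a3f657_nt.WLEx
import Pool.Agent.Lib.MP_a3f657_nt.C2LkMain

/-!
Prime sums on the cover.
-/

set_option linter.unusedSectionVars false

namespace Pool.Agent.Lib.MP_a3f657_nt.Two.Win

open Polynomial Function
open Rh hiding tw
open Lk hiding Pt fr th Pr nP fr_per One β chi_ne nP_monic nP_cop β_fr β_mem Psi Psi_ne term_eq
  rep_fix exists_δ exists_γ sum_term exists_card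
open Pt

open scoped Classical

variable {k : Type} [Field k] [Fintype k] [CharP k 2] {ρ : ℕ} {M : k[X]} {n : Fin ρ → k[X]}
  (n₂ : Fin ρ → k[X]) {K : ℕ} (χ : MulChar (RM M K) ℂ)

/-- The character on primes of the curve. -/
noncomputable def Psi (P : Pr M n) : ℂ := χ (clM M K (nP P)) * sg (odeg _ P) (β n₂ (rep _ P))

lemma Psi_ne (hM : M ≠ 0) (P : Pr M n) : Psi n₂ χ P ≠ 0 :=
  mul_ne_zero (chi_ne χ hM P) (by rw [← norm_ne_zero_iff, Rh.norm_sg]; exact one_ne_zero)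

lemma term_eq {m : ℕ} (hm : 0 < m) {Q : Pt M n} (h : Pt.fr^[m] Q = Q) :
    term χ m Q.a (β n₂ Q) = Psi n₂ χ (cls _ Q) ^ (m / odeg _ (cls (fr_per M n) Q)) := by
  obtain ⟨i, hi⟩ := exists_iter (hf := fr_per M n) Q
  obtain ⟨t, rfl⟩ := (odeg_dvd (hf := fr_per M n)).2 h
  generalize cls (fr_per M n) Q = P at *
  have h0 := odeg_pos P
  have h1 := β_mem n₂ h0 (iter_odeg P)
  obtain ⟨e, he⟩ := (Lp.mem_fixF_iff_dvd h0).1 (rep_fix P).1
  have h2 := Lp.natDegree_minpoly_pos (rep _ P).a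
  rw [← hi, β_fr, (Pt.fr_iter i _).1, term, chiN, ← Rh.frob_pow_apply, minpoly.algHom_eq _
    (RingHom.injective _), sg_pow hm (β_mem n₂ hm ((odeg_dvd (hf := fr_per M n)).1
      (by rw [cls_rep]; exact dvd_mul_right _ _))),
    Lp.sg_mul_deg h0 (Nat.pos_of_mul_pos_left hm) h1, Nat.mul_div_cancel_left _ h0, Psi, mul_pow,
    nP, ← Lp.cl_eq_clM, Lp.cl_eq_clM, Lp.cl_eq_clM, chi_pow, ← pow_mul, he,
    Nat.mul_div_cancel_left _ h2, mul_assoc, Nat.mul_div_cancel_left _ h2]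

lemma sumH_eq {m : ℕ} (hm : 0 < m) : {P : Pr M n | odeg _ P ∣ m}.Finite ∧
    sumH ((AdjoinRoot.root M, 1) : RM M K) (1, AdjoinRoot.root (X ^ K)) χ M n n₂ m =
      ∑ᶠ P ∈ {P : Pr M n | odeg _ P ∣ m}, (odeg _ P : ℂ) * Psi n₂ χ P ^ (m / odeg _ P) := by
  have inj : Injective fun Q : Pt M n => (Q.a, Q.t) := fun Q Q' h =>
    Pt.ext' (congrArg Prod.fst h) (congrFun (congrArg Prod.snd h))
  rw [sumH, ← Finset.sum_preimage _ _ inj.injOn _ fun x hx h => by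
    simp only [Finset.mem_filter] at hx
    exact absurd ⟨⟨x.1, x.2, hx.2.1, hx.2.2⟩, rfl⟩ h]
  set T := Finset.preimage _ _ inj.injOn with hT
  have h1 : ∀ Q, Q ∈ T ↔ Pt.fr^[m] Q = Q := fun Q => by simp [hT, Pt.fr_fix hm, Q.hM, Q.ht]
  exact (sum_fix (hf := fr_per M n) m T h1 fun P => Psi n₂ χ P ^ (m / odeg _ P)).imp_right
    (Finset.sum_congr rfl fun Q hQ => term_eq n₂ χ hm ((h1 Q).1 hQ)).trans

lemma exists_δ (hM : M ≠ 0)
    (h : ∃ p i, GoodP M p ∧ (∀ l, sgP p M (n l) = 1) ∧ sgP p M (n₂ i) = -1) :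
    ∃ δ : Pr M n →₀ ℤ, degZ (odeg _) δ = 0 ∧ psiZ (Psi n₂ χ) δ = -1 := by
  obtain ⟨p, i, h1, h2, h3⟩ := h
  obtain ⟨a, rfl⟩ := Lp.exists_minpoly_eq h1.1 h1.2.1
  have ha := Lp.goodP_minpoly.1 h1
  have hz : ∀ l, ∃ z : k[X], minpoly k a ∣ M * (z ^ 2 + z) + n l := fun l => by
    by_contra h
    have := h2 l
    rw [sgP, if_neg h] at this
    norm_num at this
  choose z hz using hz
  have h0 := Lp.natDegree_minpoly_pos a
  have h4 := Lp.mem_fixF_self a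
  let Q : Pt M n := ⟨a, fun l => aeval a (z l), ha, fun l => (Lp.dvd_quad_iff ha).1 (hz l)⟩
  have key : ∀ Q : Pt M n, Q.a = a → Pt.fr^[(minpoly k a).natDegree] Q = Q →
      odeg _ (cls (fr_per M n) Q) = (minpoly k a).natDegree ∧
      Psi n₂ χ (cls _ Q) = term χ (minpoly k a).natDegree a (β n₂ Q) := fun Q h5 h6 => by
    have h7 : odeg _ (cls (fr_per M n) Q) = (minpoly k a).natDegree :=
      Nat.dvd_antisymm (odeg_dvd.2 h6) ((Lp.mem_fixF_iff_dvd (odeg_pos _)).1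
        (h5 ▸ ((Pt.fr_fix (odeg_pos _)).1 (odeg_dvd.1 dvd_rfl)).1))
    exact ⟨h7, by rw [← h5, term_eq n₂ χ (h5 ▸ h0) (h5 ▸ h6), h5, h7, Nat.div_self h0, pow_one]⟩
  have h5 : Pt.fr^[(minpoly k a).natDegree] Q = Q :=
    (Pt.fr_fix h0).2 ⟨h4, fun l => Lp.aeval_mem_fixF h0 h4 _⟩
  obtain ⟨h6, h7⟩ := key Q rfl h5
  obtain ⟨h8, h9⟩ := key (tw (Pi.single i 1) Q) rfl ((Pt.fr_fix h0).2 ⟨h4, fun l => by
    by_cases hl : l = i
    · simpa [tw, Q, hl, cz_one] using Lp.aeval_mem_fixF h0 h4 (z i + 1)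
    · simpa [tw, Q, hl, cz_zero] using Lp.aeval_mem_fixF h0 h4 (z l)⟩)
  have e : β n₂ (tw (Pi.single i 1) Q) = β n₂ Q + aeval a (n₂ i) / aeval a M := by
    simp only [β, tw, Q, add_mul, Finset.sum_add_distrib, add_right_inj]
    rw [Finset.sum_eq_single i (fun l _ hl => by simp [hl, cz_zero]) (by simp)]
    simp [cz_one]
  refine ⟨Finsupp.single (cls _ (tw (Pi.single i 1) Q)) 1 + Finsupp.single (cls _ Q) (-1), ?_, ?_⟩
  · rw [map_add, degZ_single, degZ_single, h6, h8]; ring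
  · rw [psiZ_add (Psi_ne n₂ χ hM), psiZ_single, psiZ_single, zpow_one, zpow_neg_one,
      mul_inv_eq_iff_eq_mul₀ (Psi_ne n₂ χ hM _), h7, h9, e, term, term,
      Lp.sg_add h0 (β_mem n₂ h0 h5) (Lp.div_mem_fixF h0 (Lp.aeval_mem_fixF h0 h4 _)
        (Lp.aeval_mem_fixF h0 h4 _)), ← Lp.sgP_eq_sg _ ha, h3]
    ring

lemma exists_γ (hE : Euler) (C : Cov M n)
    (h : ∃ p i, GoodP M p ∧ (∀ l, sgP p M (n l) = 1) ∧ sgP p M (n₂ i) = -1) : ∃ γ : Multiset ℂ,
    γ.card ≤ 2 ^ ρ * (2 * Cov.gap M n + (K + 1 + 4 * M.natDegree + dA n + dA n₂)) ∧ ∀ m, 1 ≤ m →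
      sumH ((AdjoinRoot.root M, 1) : RM M K) (1, AdjoinRoot.root (X ^ K)) χ M n n₂ m =
        -(γ.map (· ^ m)).sum := by
  have hM := C.M0
  obtain ⟨δ, h1, h2⟩ := exists_δ n₂ χ hM h
  refine (hE (Pr M n) (odeg _) (Psi n₂ χ) _ odeg_pos (fun m => ?_) fun m hm => ?_).imp
    fun γ h3 => ⟨h3.1, fun m hm => (sumH_eq n₂ χ hm).2.trans (h3.2 m hm)⟩
  · rcases m.eq_zero_or_pos with rfl | hm
    · exact Set.finite_empty.subset fun P hP => (odeg_pos P).ne' hP
    · exact (sumH_eq n₂ χ hm).1.subset fun P hP => dvd_of_eq hP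
  set j := K + 1 + 4 * M.natDegree + dA n + dA n₂ with hj
  obtain ⟨c, h5, h6⟩ := C.exists_card (j := j) (m := m) (by omega) hm
  have hj' : (4 * M.natDegree : ℤ) < j := by omega
  refine vanish (odeg _) (Psi_ne n₂ χ hM) m (fun x : {x // C.One j x} => C.dv x.1)
    (fun x => ⟨_, x.2.inv hj'⟩) (fun x => Subtype.ext (inv_inv _))
    (fun x => Cov.dv_inv (x.2.ne hj')) (fun x => x.2.deg hj') (fun x => ?_) h5 h6 δ h1 h2
  simp only [psiZ, Finsupp.prod, Psi, mul_zpow, Finset.prod_mul_distrib]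
  rw [x.2.chi χ (by omega), x.2.sign n₂ (by omega), mul_one]

lemma sum_term {a : AlgebraicClosure k} (ha : aeval a M ≠ 0) :
    ∑ t ∈ (Fintype.piFinset fun _ : Fin ρ => fixF k (minpoly k a).natDegree).filter
      (fun t => ∀ i, t i ^ 2 + t i = aeval a (n i) / aeval a M),
      term χ (minpoly k a).natDegree a (∑ i, t i * (aeval a (n₂ i) / aeval a M)) =
      χ (clM M K (minpoly k a)) * gH M n n₂ (minpoly k a) := by
  have h0 := Lp.natDegree_minpoly_pos a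
  simp only [term, chiN, Nat.div_self h0, pow_one, Lp.cl_eq_clM, ← Finset.mul_sum]
  rw [gH, ← finsum_mem_coe_finset]
  congr 1
  refine (finsum_mem_eq_of_bijOn (fun c i => aeval a (c i)) ⟨fun c hc => ?_,
    fun c hc c' hc' h => _root_.funext fun i => ?_, fun t ht => ?_⟩ fun c _ => ?_).symm
  · exact Finset.mem_filter.2 ⟨Fintype.mem_piFinset.2 fun i =>
      Lp.aeval_mem_fixF h0 (Lp.mem_fixF_self a) _, fun i => (Lp.dvd_quad_iff ha).1 (hc i).2⟩
  · have h1 : aeval a (c i) = aeval a (c' i) := congrFun h i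
    exact sub_eq_zero.1 (eq_zero_of_dvd_of_degree_lt (minpoly.dvd k a
      (by rw [map_sub, h1, sub_self])) ((degree_sub_le _ _).trans_lt (max_lt (hc i).1 (hc' i).1)))
  · obtain ⟨h1, h2⟩ := Finset.mem_filter.1 ht
    choose z hz using fun i => Lp.exists_aeval_eq (Fintype.mem_piFinset.1 h1 i)
    have h3 : ∀ i, aeval a (z i %ₘ minpoly k a) = t i := fun i =>
      (aeval_modByMonic_eq_self_of_root (p := z i) (minpoly.aeval k a)).trans (hz i)
    exact ⟨fun i => z i %ₘ minpoly k a, fun i => ⟨degree_modByMonic_lt _ (Lp.monic_minpoly a),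
      (Lp.dvd_quad_iff ha).2 (by rw [h3, h2])⟩, _root_.funext h3⟩
  · simp only [Lp.sgP_eq_sg _ ha, map_sum, map_mul, Finset.sum_div, mul_div_assoc]

lemma norm_sumH_sub (hM : M ≠ 0) {m : ℕ} (hm : 0 < m) :
    ‖sumH ((AdjoinRoot.root M, 1) : RM M K) (1, AdjoinRoot.root (X ^ K)) χ M n n₂ m -
      PS M (fun p => χ (clM M K p) * gH M n n₂ p) m‖ ≤
      2 ^ ρ * (Fintype.card k * √(Fintype.card k) ^ m) := by
  have := Lp.finite_RM hM K
  convert Lp.norm_sum_sub_PS M hm (fun p => χ (clM M K p) * gH M n n₂ p)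
    (fun a => ∑ t ∈ (Fintype.piFinset fun _ : Fin ρ => fixF k m).filter
      (fun t => ∀ i, t i ^ 2 + t i = aeval a (n i) / aeval a M),
      term χ m a (∑ i, t i * (aeval a (n₂ i) / aeval a M))) (2 ^ ρ) (fun a => ?_)
      (fun a ha h => ?_) using 3
  · simp only [sumH, Finset.sum_filter, Finset.sum_product, ite_and, term]
    refine Finset.sum_congr rfl fun a _ => ?_
    split_ifs <;> simp
  · refine (norm_sum_le _ _).trans ((Finset.sum_le_card_nsmul _ _ 1 fun t _ =>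
      Rh.norm_term_le _ _ χ m _ _).trans ?_)
    rw [nsmul_eq_mul, mul_one]
    have h1 := (Fintype.card_piFinset fun i : Fin ρ => (fixF k m).filter
      fun t => t ^ 2 + t = aeval a (n i) / aeval a M).le.trans (Finset.prod_le_pow_card _ _ 2
        fun i _ => Rh.card_quad_le _ _ fun t ht => (Finset.mem_filter.1 ht).2)
    rw [Finset.card_univ, Fintype.card_fin] at h1
    refine le_trans (Nat.cast_le.2 (Finset.card_le_card fun t ht => ?_)) (by exact_mod_cast h1)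
    rw [Finset.mem_filter, Fintype.mem_piFinset] at ht
    exact Fintype.mem_piFinset.2 fun i => Finset.mem_filter.2 ⟨ht.1 i, ht.2 i⟩
  · rw [← h, sum_term n₂ χ ha]
  · infer_instance

theorem primeH (hE : Euler) (hR : RhH) : PrimeH := by
  intro k _ _ _ ρ
  refine ⟨2 ^ ρ * (2 * ρ + 4 + Fintype.card k), fun M n n₂ K A χ hM hW hA h m hm => ?_⟩
  obtain ⟨C⟩ := covEx hM hW
  obtain ⟨γ, h1, h2⟩ := exists_γ n₂ χ hE C h
  have := Lp.finite_RM hM K
  have h3 := hR k _ _ _ χ M ρ n n₂ hM (fun p h4 h5 h6 => by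
    rw [Lp.cl_eq_clM]; exact Lp.isUnit_clM K h4 (Lp.GoodP.isCoprime ⟨h4, h5, h6⟩)) γ h2
  have h4 := norm_sumH_sub (n := n) n₂ χ hM hm
  have h5 : ‖(γ.map (· ^ m)).sum‖ ≤ γ.card * √(Fintype.card k) ^ m := by
    refine (norm_multiset_sum_le _).trans ((Multiset.sum_le_card_nsmul _ (√(Fintype.card k) ^ m)
      fun x hx => ?_).trans (by simp))
    simp only [Multiset.map_map, Multiset.mem_map, Function.comp_apply, norm_pow] at hx
    obtain ⟨z, hz, rfl⟩ := hx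
    exact pow_le_pow_left₀ (norm_nonneg _) (h3 z hz) m
  rw [h2 m hm, ← neg_add', norm_neg] at h4
  have h6 := norm_sub_le_of_le h4 h5
  rw [add_sub_cancel_left] at h6
  have a1 : dA n ≤ A := Finset.sup_le fun i _ => (hA i).1
  have a2 : dA n₂ ≤ A := Finset.sup_le fun i _ => (hA i).2
  have h7 : (γ.card : ℝ) ≤ 2 ^ ρ * ((2 * ρ + 4) * (M.natDegree + K + A + 1)) := by
    have : γ.card ≤ 2 ^ ρ * ((2 * ρ + 4) * (M.natDegree + K + A + 1)) :=
      h1.trans (Nat.mul_le_mul_left _ (by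
        have := Nat.mul_le_mul_left ρ a1
        rw [Cov.gap]
        nlinarith [Nat.zero_le (ρ * K)]))
    exact_mod_cast this
  have h8 : (1 : ℝ) ≤ M.natDegree + K + A + 1 := le_add_of_nonneg_left (by positivity)
  refine h6.trans ?_
  rw [← mul_assoc, ← add_mul]
  gcongr
  have h9 := mul_le_mul_of_nonneg_left h8 (show (0 : ℝ) ≤ 2 ^ ρ * Fintype.card k by positivity)
  linarith

end Pool.Agent.Lib.MP_a3f657_nt.Two.Win
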