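import Pool.Agent.Lib.MP_a3f657_nt.WAlgDefs

/-!
The limit law is a probability with equal mass on the two parity classes.
-/

namespace Pool.Agent.Lib.MP_a3f657_nt.Two.Win

open Filter Topology

namespace LawA

/-- The coefficients. -/
noncomputable def cf (r : ℕ) : ℝ := ∏ i ∈ Finset.range r, 1 / ((2 : ℝ) ^ (i + 1) - 1)

theorem den_pos (i : ℕ) : 0 < (2 : ℝ) ^ (i + 1) - 1 :=
  sub_pos.2 (one_lt_pow₀ one_lt_two (Nat.succ_ne_zero i))

theorem cf_pos (r : ℕ) : 0 < cf r :=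
  Finset.prod_pos fun i _ => one_div_pos.2 (den_pos i)

theorem cf_zero : cf 0 = 1 := Finset.prod_range_zero _

theorem cf_succ (r : ℕ) : cf (r + 1) * ((2 : ℝ) ^ (r + 1) - 1) = cf r := by
  rw [cf, Finset.prod_range_succ, mul_assoc, one_div_mul_cancel (den_pos r).ne', mul_one, cf]

theorem summable_cf (z : ℝ) : Summable fun r => cf r * z ^ r := by
  refine summable_of_ratio_norm_eventually_le (r := 1 / 2) (by norm_num) ?_
  have h1 : ∀ᶠ n : ℕ in atTop, 2 * |z| + 1 ≤ (2 : ℝ) ^ n :=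
    (tendsto_pow_atTop_atTop_of_one_lt one_lt_two).eventually_ge_atTop _
  filter_upwards [h1] with n hn
  have h2 : 2 * |z| ≤ (2 : ℝ) ^ (n + 1) - 1 := by
    have : (0 : ℝ) < 2 ^ n := by positivity
    rw [pow_succ]
    linarith
  rw [Real.norm_eq_abs, Real.norm_eq_abs, abs_mul, abs_mul, abs_of_pos (cf_pos _),
    abs_of_pos (cf_pos _), ← cf_succ n, pow_succ z, abs_mul]
  have h3 : 0 ≤ cf (n + 1) * |z ^ n| := mul_nonneg (cf_pos _).le (abs_nonneg _)
  nlinarith [mul_le_mul_of_nonneg_left h2 h3]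

/-- The generating function. -/
noncomputable def gf (z : ℝ) : ℝ := ∑' r, cf r * z ^ r

theorem gf_eq (z : ℝ) : gf z = 1 + ∑' r, cf (r + 1) * z ^ (r + 1) := by
  rw [gf, (summable_cf z).tsum_eq_zero_add, cf_zero, pow_zero, mul_one]

theorem summable_succ (z : ℝ) : Summable fun r => cf (r + 1) * z ^ (r + 1) :=
  (summable_nat_add_iff (f := fun r => cf r * z ^ r) 1).2 (summable_cf z)

theorem gf_two_mul (z : ℝ) : gf (2 * z) = (1 + z) * gf z := by
  have h1 : ∑' r, cf (r + 1) * (2 * z) ^ (r + 1)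
      = ∑' r, cf (r + 1) * z ^ (r + 1) + z * gf z := by
    rw [gf, ← tsum_mul_left, ← (summable_succ z).tsum_add ((summable_cf z).mul_left z)]
    refine tsum_congr fun r => ?_
    rw [← cf_succ r, mul_pow]
    ring
  rw [gf_eq (2 * z), h1, add_mul, one_mul, ← add_assoc, ← gf_eq z]

theorem gf_neg_two : gf (-2) = 0 := by
  have := gf_two_mul (-1)
  norm_num at this
  exact this

theorem gf_two (m : ℕ) :
    gf 2 = (∏ j ∈ Finset.range m, (1 + (2 : ℝ)⁻¹ ^ j)) * gf (2 * 2⁻¹ ^ m) := by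
  induction m with
  | zero => simp
  | succ m ih =>
    have e : (2 : ℝ) * 2⁻¹ ^ (m + 1) = 2⁻¹ ^ m := by
      rw [pow_succ]
      ring
    rw [Finset.prod_range_succ, e, mul_assoc, ← gf_two_mul, ← ih]

theorem gf_bound {x : ℝ} (h0 : 0 ≤ x) (h1 : x ≤ 1) : 1 ≤ gf x ∧ gf x ≤ 1 + x * gf 1 := by
  rw [gf_eq x]
  refine ⟨le_add_of_nonneg_right (tsum_nonneg fun r => mul_nonneg (cf_pos _).le (by positivity)),
    ?_⟩
  rw [add_le_add_iff_left, gf, ← tsum_mul_left]
  refine (summable_succ x).tsum_le_tsum (fun r => ?_) ((summable_cf 1).mul_left x)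
  have h2 : cf (r + 1) ≤ cf r := by
    rw [← cf_succ r]
    refine le_mul_of_one_le_right (cf_pos _).le ?_
    have : (1 : ℝ) ≤ 2 ^ r := one_le_pow₀ one_le_two
    rw [pow_succ]
    linarith
  have h3 : x ^ (r + 1) ≤ x := pow_le_of_le_one h0 h1 (Nat.succ_ne_zero r)
  rw [one_pow, mul_one, mul_comm x]
  exact mul_le_mul h2 h3 (by positivity) (cf_pos r).le

theorem tendsto_gf : Tendsto (fun m : ℕ => gf (2⁻¹ ^ m)) atTop (𝓝 1) := by
  have h0 : Tendsto (fun m : ℕ => (2 : ℝ)⁻¹ ^ m) atTop (𝓝 0) :=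
    tendsto_pow_atTop_nhds_zero_of_lt_one (by norm_num) (by norm_num)
  have h1 : Tendsto (fun m : ℕ => 1 + (2 : ℝ)⁻¹ ^ m * gf 1) atTop (𝓝 1) := by
    simpa using (h0.mul_const (gf 1)).const_add 1
  have h2 : ∀ m : ℕ, 0 ≤ (2 : ℝ)⁻¹ ^ m ∧ (2 : ℝ)⁻¹ ^ m ≤ 1 := fun m =>
    ⟨by positivity, pow_le_one₀ (by norm_num) (by norm_num)⟩
  exact tendsto_of_tendsto_of_tendsto_of_le_of_le tendsto_const_nhds h1
    (fun m => (gf_bound (h2 m).1 (h2 m).2).1) fun m => (gf_bound (h2 m).1 (h2 m).2).2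

theorem tprod_eq : ∏' j : ℕ, (1 + (2 : ℝ)⁻¹ ^ j) = gf 2 := by
  have hm : Multipliable fun j : ℕ => 1 + (2 : ℝ)⁻¹ ^ j :=
    Real.multipliable_one_add_of_summable
      (summable_geometric_of_lt_one (by norm_num) (by norm_num))
  have h1 := (hm.hasProd.tendsto_prod_nat.comp (tendsto_add_atTop_nat 1)).mul tendsto_gf
  rw [mul_one] at h1
  refine tendsto_nhds_unique h1 (tendsto_const_nhds.congr fun m => ?_)
  have e : (2 : ℝ) * 2⁻¹ ^ (m + 1) = 2⁻¹ ^ m := by
    rw [pow_succ]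
    ring
  rw [gf_two (m + 1), e]
  rfl

theorem gf_two_pos : 0 < gf 2 := by
  have h1 := gf_two_mul 1
  have h2 := (gf_bound zero_le_one le_rfl).1
  rw [mul_one] at h1
  linarith

theorem PR_eq (r : ℕ) : PR r = (gf 2)⁻¹ * (cf r * 2 ^ r) := by
  rw [PR, tprod_eq, cf]
  congr 1
  rw [← Finset.card_range r, ← Finset.prod_const, Finset.card_range, ← Finset.prod_mul_distrib]
  exact Finset.prod_congr rfl fun i _ => by ring

end LawA

open LawA in
theorem lawA : LawA := by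
  constructor
  · have h := (summable_cf 2).hasSum.mul_left (gf 2)⁻¹
    rw [← gf, inv_mul_cancel₀ gf_two_pos.ne'] at h
    rw [funext PR_eq]
    exact h
  · have h := (summable_cf (-2)).hasSum.mul_left (gf 2)⁻¹
    rw [← gf, gf_neg_two, mul_zero] at h
    have e : (fun r => (-1) ^ r * PR r) = fun r => (gf 2)⁻¹ * (cf r * (-2) ^ r) := by
      funext r
      rw [PR_eq, neg_pow 2]
      ring
    rw [e]
    exact h

end Pool.Agent.Lib.MP_a3f657_nt.Two.Win
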