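import Pool.Agent.Lib.MP_a3f657_nt.WDefs

/-!
Explicit points at infinity: the local image is large and kills few sets of primes.
-/

set_option linter.unusedSectionVars false

namespace Pool.Agent.Lib.MP_a3f657_nt.Two.Win

open Polynomial UniqueFactorizationMonoid

open scoped Classical

namespace LocC

lemma pt {F : Type} [Field F] [CharP F 2] {L : PreLoc F} (C : Cmp L) (P : PB F) {A x : F}
    (hx : x ≠ 0) (h : x + A + P.b / x ^ 2 ∈ L.PW) : P.b / x ^ 2 ∈ C.AA P A := by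
  obtain ⟨l, hl⟩ := C.L'.PW_eq C.h.cpl ▸ C.h.mem_PW.2 h
  refine Cmp.mem_AA'.2 (mem_AA.2 ⟨_, mem_Lt.2 (Or.inr ⟨C.f x, l, 0, by simpa using hx, ?_, ?_,
    rfl⟩)⟩)
  · rw [C.Q_b, ← wpH_apply, hl]; simp
  · rw [C.Q_b]; simp [two_K]

lemma pt' {F : Type} [Field F] [CharP F 2] {L : PreLoc F} (C : Cmp L) (P : PB F) {A z : F}
    {κ n : ℤ} (hκ : 0 < κ) (hz : ord L.w z = -κ) (hA : A ∈ Fil L.w (1 - 2 * κ))
    (hB : P.b ∈ Fil L.w (-n)) (hn : n ≤ 5 * κ) : P.b / (A ^ 2 + z ^ 4) ∈ C.AA P A := by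
  have hz0 : z ≠ 0 := by rintro rfl; simp at hz; omega
  obtain ⟨w0, w1⟩ := ord_wp (w := L.w) (x := z) (by omega)
  obtain ⟨x0, x1⟩ := ord_add w0 (y := A) (Fil.mono hA (by omega))
  have z4 : ord L.w (z ^ 4) = -(4 * κ) := by rw [ord_pow, hz]; push_cast; ring
  obtain ⟨d0, d1⟩ := ord_add (w := L.w) (pow_ne_zero 4 hz0) (y := A ^ 2) (Fil.sq hA (by omega))
  rw [add_comm] at d0 d1
  have e0 : (wp z + A) ^ 2 = A ^ 2 + z ^ 4 + z ^ 2 := by unfold wp; grind
  have e1 : wp z = wp z + A + A := by rw [add_assoc, two_K, add_zero]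
  rw [w1, hz] at x1
  generalize wp z + A = y at x0 x1 e0 e1
  have y2 : ord L.w (y ^ 2) = -(4 * κ) := by rw [ord_sq]; omega
  have hδ : P.b / y ^ 2 ∈ Fil L.w (4 * κ - n) := Fil.div hB (by omega)
  obtain ⟨u0, u1⟩ := ord_add x0 (y := P.b / y ^ 2) (Fil.mono hδ (by omega))
  have hxy : y + P.b / y ^ 2 + y = P.b / y ^ 2 := by rw [add_right_comm, two_K, zero_add]
  have hx' : y + P.b / y ^ 2 + A = wp z + P.b / y ^ 2 := by rw [e1]; ring
  generalize y + P.b / y ^ 2 = x at u0 u1 hxy hx'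
  have h1 : P.b / y ^ 2 + P.b / x ^ 2 ∈ Fil L.w 1 := by
    rw [show P.b / y ^ 2 + P.b / x ^ 2 = P.b * (x + y) ^ 2 / y ^ 2 / x ^ 2 by field_simp; grind,
      hxy]
    exact Fil.div (Fil.div (Fil.mul hB (Fil.sq hδ le_rfl) le_rfl) le_rfl)
      (by rw [y2, ord_sq]; omega)
  have h2 : P.b / (A ^ 2 + z ^ 4) + P.b / y ^ 2 ∈ Fil L.w 1 := by
    have y0 : A ^ 2 + z ^ 4 + z ^ 2 ≠ 0 := e0 ▸ pow_ne_zero 2 x0
    rw [show P.b / (A ^ 2 + z ^ 4) + P.b / y ^ 2 = P.b * z ^ 2 / y ^ 2 / (A ^ 2 + z ^ 4) by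
      rw [e0]; field_simp; grind]
    exact Fil.div (Fil.div (Fil.mul hB (mem_Fil_ord _) le_rfl) le_rfl)
      (by rw [y2, ord_sq]; omega)
  have h3 := pt C P (A := A) u0 (by
    rw [hx', add_assoc]; exact add_mem (L.wp_mem_PW z) (L.Fil_le_PW h1))
  have h4 := add_mem (Cmp.PW_le_AA (C := C) (P := P) (A := A) (L.Fil_le_PW (add_mem h2 h1))) h3
  rwa [add_assoc, add_assoc, add_assoc, two_K, add_zero, two_K, add_zero] at h4

variable {k : Type} [Field k] [Fintype k] [CharP k 2] {a b : k[X]}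

lemma PD_b (h : Odd b.natDegree) : (PD b).b = ι b := by
  have h0 : b ≠ 0 := by rintro rfl; simp at h
  rw [PD, dif_pos]
  · rfl
  intro r hr
  have := ord_none h0
  rw [← hr, ord_sq] at this
  obtain ⟨m, hm⟩ := h
  omega

lemma ord_z {c : k} (hc : c ≠ 0) (κ : ℕ) : ord (val none) (ι (C c * X ^ κ)) = -κ := by
  rw [ord_none (by simp [hc]), natDegree_C_mul_X_pow _ _ hc]

lemma Y_mem (h : Dg a b.natDegree) {κ : ℕ} {c : k} (hκ : a.natDegree < 2 * κ) (hc : c ≠ 0) :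
    ι b / ι (a ^ 2 + (C c * X ^ κ) ^ 4) ∈ (cmp none).AA (PD b) (ι a) := by
  have := pt' (cmp none) (PD b) (A := ι a) (z := ι (C c * X ^ κ)) (κ := κ) (n := b.natDegree)
    (by omega) (ord_z hc κ) (Fil.mono (ι_mem_none_self a) (by omega))
    (by rw [PD_b h.2.1]; exact ι_mem_none_self b) (by have := h.2.2.2; omega)
  rw [PD_b h.2.1] at this
  simpa only [ι, map_add, map_pow] using this

lemma ord_den {κ : ℕ} {c : k} (hκ : a.natDegree < 2 * κ) (hc : c ≠ 0) :
    ι (a ^ 2 + (C c * X ^ κ) ^ 4) ≠ 0 ∧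
      ord (val none) (ι (a ^ 2 + (C c * X ^ κ) ^ 4)) = -(4 * κ) := by
  have z4 : ord (val none) (ι (C c * X ^ κ) ^ 4) = -(4 * κ) := by
    rw [ord_pow, ord_z hc]; push_cast; ring
  have := ord_add (w := val none) (pow_ne_zero 4 (ι_ne (a := C c * X ^ κ) (by simp [hc])))
    (y := ι a ^ 2) (Fil.sq (ι_mem_none_self a) (by omega))
  rw [add_comm, z4] at this
  simpa only [ι, map_add, map_pow] using this

lemma mem_WW {r : k[X]} {Y : RatFunc k} (hr : r ∈ Red k) (hY : Y ∈ (cmp none).AA (PD b) (ι a))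
    (h : ι r + Y ∈ (pl none).PW) : r ∈ WW a b := by
  refine ⟨hr, ?_⟩
  have := add_mem (Cmp.PW_le_AA (C := cmp none) (P := PD b) (A := ι a) h) hY
  rwa [add_assoc, two_K, add_zero] at this

lemma red (h : RedP) (Y : RatFunc k) :
    ∃ r ∈ Red k, ι r + Y ∈ (pl none).PW ∧ r.natDegree ≤ (pol Y).natDegree := by
  obtain ⟨r, h1, c, h2, h3⟩ := (h k).1 (pol Y)
  refine ⟨r, h1, (pl none).mem_PW.2 ⟨ι c, ?_⟩, h3⟩
  have := pol_spec Y
  rw [h2, CharTwo.sub_eq_add] at this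
  rw [add_right_comm, add_comm]
  simpa only [ι, wp, map_add, map_pow, pl_w] using this

lemma lead (h : RedP) (hD : Dg a b.natDegree) {κ : ℕ} (hκ : a.natDegree < 2 * κ)
    (hn : 4 * κ < b.natDegree) (d : k) : ∃ r ∈ WW a b, r.coeff (b.natDegree - 4 * κ) = d ∧
      ∀ j, b.natDegree - 4 * κ < j → r.coeff j = 0 := by
  by_cases hd : d = 0
  · exact ⟨0, zero_mem _, by simp [hd], by simp⟩
  obtain ⟨m, hm⟩ : ∃ m, b.natDegree = m + 4 * κ := ⟨b.natDegree - 4 * κ, by omega⟩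
  have hb : b ≠ 0 := by rintro rfl; simp at hn
  obtain ⟨c₁, e1⟩ := exists_sqrt (b.leadingCoeff / d)
  obtain ⟨c, rfl⟩ := exists_sqrt c₁
  have hc : c ≠ 0 := by
    rintro rfl
    exact div_ne_zero (leadingCoeff_ne_zero.2 hb) hd (by simpa using e1.symm)
  have e2 : d * c ^ 4 = b.leadingCoeff := by
    rw [← pow_mul, eq_div_iff hd] at e1
    rw [← e1, mul_comm]
  obtain ⟨d0, d1⟩ := ord_den hκ hc
  have hY := Y_mem hD hκ hc
  have hmo : Odd m := by
    obtain ⟨j, hj⟩ := hD.2.1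
    exact ⟨j - 2 * κ, by omega⟩
  have hm1 := hmo.pos
  have e3 : b + C d * X ^ m * (a ^ 2 + (C c * X ^ κ) ^ 4) =
      (b - C b.leadingCoeff * X ^ b.natDegree) + C d * X ^ m * a ^ 2 := by
    rw [CharTwo.sub_eq_add, ← e2, hm, map_mul, map_pow]; ring
  have h1 : ι b / ι (a ^ 2 + (C c * X ^ κ) ^ 4) + ι (C d * X ^ m) ∈ Fil (val none) (1 - m) := by
    rw [div_add' _ _ _ d0, ← map_mul, ← map_add, e3, map_add, map_mul, map_pow]
    refine Fil.div (a := 1 - b.natDegree) (add_mem (ι_mem_none'.2 ?_) ?_) (by omega)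
    · rw [self_sub_C_mul_X_pow, ← degree_eq_natDegree hb]; exact degree_eraseLead_lt hb
    · exact Fil.mul (ι_mem_none.2 (natDegree_C_mul_X_pow_le d m))
        (Fil.sq (ι_mem_none_self a) le_rfl) (by omega)
  generalize ι b / ι (a ^ 2 + (C c * X ^ κ) ^ 4) = Y at hY h1
  obtain ⟨r, g1, g2, g3⟩ := red h (Y + ι (C d * X ^ m))
  have g4 : r.natDegree < m := by
    have := sub_mem h1 (Fil.mono (pol_spec (Y + ι (C d * X ^ m))) (by omega))
    rw [sub_sub_cancel, show (1 : ℤ) - m = -(m - 1 : ℕ) by omega, ι_mem_none] at this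
    omega
  have g5 : C d * X ^ m ∈ Red k := by
    refine ⟨fun i hi _ => ?_, Or.inl ?_⟩ <;> rw [coeff_C_mul_X_pow, if_neg]
    · rintro rfl; exact Nat.not_odd_iff_even.2 hi hmo
    · omega
  rw [hm, Nat.add_sub_cancel]
  refine ⟨r + C d * X ^ m, mem_WW (add_mem g1 g5) hY ?_, ?_, fun j hj => ?_⟩
  · rwa [ι, map_add, add_assoc, add_comm _ Y]
  · rw [coeff_add, coeff_eq_zero_of_natDegree_lt g4, coeff_C_mul_X_pow, if_pos rfl, zero_add]
  · rw [coeff_add, coeff_eq_zero_of_natDegree_lt (g4.trans hj), coeff_C_mul_X_pow, if_neg hj.ne',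
      zero_add]

lemma card_le (W : AddSubgroup k[X]) (hW : (W : Set k[X]).Finite) (S : Finset ℕ)
    (h : ∀ m ∈ S, ∀ d, ∃ r ∈ W, r.coeff m = d ∧ ∀ j, m < j → r.coeff j = 0) :
    Fintype.card k ^ S.card ≤ Nat.card W := by
  have key : ∀ t : ℕ → k, ∃ r ∈ W, (∀ m ∈ S, r.coeff m = t m) ∧
      ∀ j, (∀ m ∈ S, m < j) → r.coeff j = 0 := by
    induction S using Finset.induction_on_max with
    | empty => exact fun t => ⟨0, zero_mem _, by simp, by simp⟩
    | insert m S hm ih =>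
      intro t
      obtain ⟨r, h1, h2, h3⟩ := h m (by simp) (t m)
      obtain ⟨r', g1, g2, g3⟩ := ih (fun m' hm' => h m' (by simp [hm'])) fun j => t j - r.coeff j
      refine ⟨r + r', add_mem h1 g1, fun j hj => ?_, fun j hj => ?_⟩
      · rcases Finset.mem_insert.1 hj with rfl | hj
        · rw [coeff_add, h2, g3 _ hm, add_zero]
        · rw [coeff_add, g2 j hj, add_sub_cancel]
      · rw [coeff_add, h3 j (hj m (by simp)), g3 j fun m' hm' => hj m' (by simp [hm']), add_zero]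
  have : Finite W := hW
  have := Nat.card_le_card_of_surjective (fun (r : W) (m : S) => r.1.coeff m) fun t => by
    obtain ⟨r, h1, h2, -⟩ := key fun m => if hm : m ∈ S then t ⟨m, hm⟩ else 0
    exact ⟨⟨r, h1⟩, funext fun m => by simp [h2 m m.2]⟩
  simpa using this

lemma res_prime {p : k[X]} (h1 : p.Monic) (h2 : Irreducible p) (r : k[X]) :
    res none (ι r * ((PX k).D (ι p) / ι p)) = tp p (ι r) := by
  obtain ⟨v, hv, rfl⟩ := plc_eq h1 h2
  have h0 := ι_ne h2.ne_zero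
  have := sum_res {none, some v} (x := ι r * ((PX k).D (ι (gen v)) / ι (gen v))) (by
    rintro (_ | u) hu
    · simp at hu
    · rw [res_dlog _ (ι_int u r) h0, ord_ι_unit fun e => hu (by simp [gen_dvd_gen e])]
      simp)
  rw [Finset.sum_pair (by simp), res_dlog _ (ι_int v r) h0, ord_gen] at this
  rw [tp, hv]
  simp only [Int.cast_one, one_mul] at this
  grind

lemma res_prod (s : Finset k[X]) (hs : ∀ p ∈ s, p.Monic ∧ Irreducible p) (r : k[X]) :
    res none (ι r * ((PX k).D (ι (∏ p ∈ s, p)) / ι (∏ p ∈ s, p))) = ∑ p ∈ s, tp p (ι r) := by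
  induction s using Finset.induction_on with
  | empty => simp
  | insert p s hp ih =>
    have h1 := hs p (by simp)
    have h2 := fun q hq => hs q (Finset.mem_insert_of_mem hq)
    have h3 := ι_ne h1.2.ne_zero
    have h4 := ι_ne (Finset.prod_ne_zero_iff.2 fun q hq => (h2 q hq).2.ne_zero)
    rw [Finset.prod_insert hp, Finset.sum_insert hp, ← ih h2, ← res_prime h1.1 h1.2, ← map_add,
      show ι (p * ∏ x ∈ s, x) = ι p * ι (∏ x ∈ s, x) from map_mul _ _ _, PB.D_mul]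
    congr 1
    field_simp
    ring

lemma bad (h : RedP) (hD : Dg a b.natDegree) {s : Finset k[X]} {g : k[X]}
    (hs : ∀ p ∈ s, p.Monic ∧ Irreducible p) (hne : s.Nonempty) (e : b = (∏ p ∈ s, p) * g)
    (h2 : 2 * (∏ p ∈ s, p).natDegree ≤ b.natDegree)
    (h0 : ∀ r ∈ WW a b, ∑ p ∈ s, tp p (ι r) = 0) : Bad a b := by
  have hm : (∏ p ∈ s, p).Monic := monic_prod_of_monic _ _ fun p hp => (hs p hp).1
  refine ⟨_, g, hm, ?_, h2, e, fun κ c hκ hc => ?_⟩
  · obtain ⟨p, hp⟩ := hne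
    exact (hs p hp).2.natDegree_pos.trans_le
      (natDegree_le_of_dvd (Finset.dvd_prod_of_mem _ hp) hm.ne_zero)
  have hY := Y_mem hD hκ hc
  obtain ⟨r, g1, g2, -⟩ := red h (ι b / ι (a ^ 2 + (C c * X ^ κ) ^ 4))
  have g3 := res_prod s hs r
  rw [h0 r (mem_WW g1 hY g2)] at g3
  have g4 := (pl none).r_PW_dlog g2 (ι (∏ p ∈ s, p))
  rw [← res_mul_dlog, add_mul, map_add, g3, zero_add, D_ι] at g4
  rw [← g4]
  congr 1
  have := ι_ne hm.ne_zero
  generalize ∏ p ∈ s, p = f at e this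
  rw [e]
  simp only [ι, map_mul] at this ⊢
  field_simp

end LocC

open LocC in
theorem locC (h : RedP) : LocC := by
  intro k _ _ _ a b hD hb hW hs
  obtain ⟨⟨e, he⟩, ⟨n, hn⟩, h1, h2⟩ := id hD
  constructor
  · have := card_le (WW a b) hW ((Finset.range ((b.natDegree - 2 * a.natDegree) / 4 - 1)).image
      fun i => b.natDegree - 4 * (e + 1 + i)) fun m hm d => by
        obtain ⟨i, hi, rfl⟩ := Finset.mem_image.1 hm
        rw [Finset.mem_range] at hi
        exact lead h hD (by omega) (by omega) d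
    rwa [Finset.card_image_of_injOn (fun i hi j hj e => by
      simp only [Finset.coe_range, Set.mem_Iio] at hi hj e
      omega), Finset.card_range] at this
  have hp : ∀ p ∈ pr b, p.Monic ∧ Irreducible p := fun p hp => by
    have := (Polynomial.mem_normalizedFactors_iff hb.ne_zero).1 (Multiset.mem_toFinset.1 hp)
    exact ⟨this.2.1, this.1⟩
  have hprod : C b.leadingCoeff * ∏ p ∈ pr b, p = b := by
    rw [pr, Finset.prod_eq_multiset_prod, Multiset.toFinset_val, Multiset.map_id',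
      Multiset.dedup_eq_self.2 ((squarefree_iff_nodup_normalizedFactors hb.ne_zero).1 hb)]
    exact leadingCoeff_mul_prod_normalizedFactors b
  have hne : ∅ ≠ pr b := fun e => by
    rw [← e, Finset.prod_empty, mul_one] at hprod
    have := congrArg natDegree hprod
    rw [natDegree_C] at this
    omega
  refine or_iff_not_imp_left.2 fun hJ => ?_
  obtain ⟨s, s1, s2, s3, s4⟩ : ∃ s, s ⊆ pr b ∧ (∀ r ∈ WW a b, ∑ p ∈ s, tp p (ι r) = 0) ∧
      s ≠ ∅ ∧ s ≠ pr b := by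
    by_contra hc
    refine hJ ((congrArg Finset.card (Finset.ext fun s => ?_)).trans (Finset.card_pair hne))
    simp only [Finset.mem_filter, Finset.mem_powerset, Finset.mem_insert, Finset.mem_singleton]
    refine ⟨fun ⟨g1, g2⟩ => ?_, ?_⟩
    · by_contra g
      exact hc ⟨s, g1, g2, fun e => g (Or.inl e), fun e => g (Or.inr e)⟩
    · rintro (rfl | rfl)
      exacts [⟨Finset.empty_subset _, by simp⟩, ⟨subset_rfl, hs⟩]
  have p1 := fun p hp' => hp p (s1 hp')
  have p2 := fun p (hp' : p ∈ pr b \ s) => hp p (Finset.mem_sdiff.1 hp').1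
  rw [← Finset.prod_sdiff s1] at hprod
  have hd := congrArg natDegree hprod
  rw [natDegree_C_mul (leadingCoeff_ne_zero.2 hb.ne_zero), Monic.natDegree_mul
    (monic_prod_of_monic _ _ fun p hp => (p2 p hp).1)
    (monic_prod_of_monic _ _ fun p hp => (p1 p hp).1)] at hd
  by_cases hle : 2 * (∏ p ∈ s, p).natDegree ≤ b.natDegree
  · exact bad h hD (g := C b.leadingCoeff * ∏ p ∈ pr b \ s, p) p1
      (Finset.nonempty_iff_ne_empty.2 s3) (hprod.symm.trans (by ring)) hle s2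
  · refine bad h hD (g := C b.leadingCoeff * ∏ p ∈ s, p) p2
      (Finset.sdiff_nonempty.2 fun g => s4 (s1.antisymm g)) (hprod.symm.trans (by ring))
      (by omega) fun r hr => ?_
    have := hs r hr
    rwa [← Finset.sum_sdiff s1, s2 r hr, add_zero] at this

end Pool.Agent.Lib.MP_a3f657_nt.Two.Win
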