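import Pool.Agent.Lib.MP_a3f657_nt.WAlgDefs

/-!
The moment identity for alternating forms over the field with two elements.
-/

namespace Pool.Agent.Lib.MP_a3f657_nt.Two.Win

open scoped Classical

open Finset

namespace Mom

variable {G : Type} [AddCommGroup G] {s : ℕ}

lemma mem_fs {V : AddSubgroup G} (hV : (V : Set G).Finite) {x : G} : x ∈ fs V ↔ x ∈ V := by
  rw [fs, dif_pos hV, Set.Finite.mem_toFinset, SetLike.mem_coe]

lemma card_fs {V : AddSubgroup G} (hV : (V : Set G).Finite) : (fs V).card = Nat.card V := by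
  rw [fs, dif_pos hV, ← Set.ncard_eq_toFinset_card _ hV]
  rfl

lemma eq_of_add (h2 : ∀ x : G, x + x = 0) {x y : G} (h : x + y = 0) : y = x := by
  rw [← h2 x] at h
  exact add_left_cancel h

lemma sum_cons (x : G) (v : Fin s → G) (t : Finset (Fin (s + 1))) :
    ∑ i ∈ t, (Fin.cons x v : Fin (s + 1) → G) i =
      (if 0 ∈ t then x else 0) + ∑ i ∈ univ.filter (fun i : Fin s => i.succ ∈ t), v i := by
  rw [← Finset.univ_inter t, ← Finset.sum_ite_mem, Fin.sum_univ_succ, Finset.univ_inter,
    Finset.sum_filter]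
  simp only [Fin.cons_zero, Fin.cons_succ]

lemma ind_cons (h2 : ∀ x : G, x + x = 0) (x : G) (v : Fin s → G) :
    Ind (Fin.cons x v : Fin (s + 1) → G) ↔ Ind v ∧ ∀ t : Finset (Fin s), ∑ i ∈ t, v i ≠ x := by
  constructor
  · intro h
    refine ⟨fun t ht => ?_, fun t ht => ?_⟩
    · have := h (t.image Fin.succ) (ht.image _)
      rw [sum_cons, if_neg (by simp), zero_add] at this
      convert this using 2
      ext i
      simp
    · have := h (insert 0 (t.image Fin.succ)) (insert_nonempty _ _)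
      rw [sum_cons, if_pos (mem_insert_self _ _)] at this
      apply this
      have e : (univ.filter fun i : Fin s => i.succ ∈ insert 0 (t.image Fin.succ)) = t := by
        ext i
        simp
      rw [e, ht, h2]
  · rintro ⟨h, h'⟩ t ht
    rw [sum_cons]
    by_cases h0 : 0 ∈ t
    · rw [if_pos h0]
      exact fun e => h' _ (eq_of_add h2 e)
    · rw [if_neg h0, zero_add]
      refine h _ ?_
      obtain ⟨i, hi⟩ := ht
      obtain ⟨j, rfl⟩ := Fin.exists_succ_eq.2 (fun e : i = 0 => h0 (e ▸ hi))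
      exact ⟨j, by simpa using hi⟩

lemma ind_inj (h2 : ∀ x : G, x + x = 0) {v : Fin s → G} (hv : Ind v) :
    Function.Injective fun t : Finset (Fin s) => ∑ i ∈ t, v i := by
  intro t u h
  simp only at h
  rw [← Finset.sum_inter_add_sum_sdiff t u, ← Finset.sum_inter_add_sum_sdiff u t,
    Finset.inter_comm u t, add_right_inj] at h
  have h0 : ∑ i ∈ (t \ u) ∪ (u \ t), v i = 0 := by
    rw [Finset.sum_union disjoint_sdiff_sdiff, h, h2]
  have h1 : (t \ u) ∪ (u \ t) = ∅ := by
    by_contra hne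
    exact hv _ (Finset.nonempty_iff_ne_empty.2 hne) h0
  rw [Finset.union_eq_empty, Finset.sdiff_eq_empty_iff_subset,
    Finset.sdiff_eq_empty_iff_subset] at h1
  exact Finset.Subset.antisymm h1.1 h1.2

omit [AddCommGroup G] in
lemma sum_pi_succ (F : Finset G) (f : (Fin (s + 1) → G) → ℝ) :
    ∑ v ∈ Fintype.piFinset fun _ : Fin (s + 1) => F, f v =
      ∑ v ∈ Fintype.piFinset fun _ : Fin s => F, ∑ x ∈ F, f (Fin.cons x v) := by
  rw [← Finset.sum_product']
  refine Finset.sum_nbij' (fun v => (Fin.tail v, v 0)) (fun p => Fin.cons p.2 p.1) ?_ ?_ ?_ ?_ ?_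
  · intro v hv
    simp only [Fintype.mem_piFinset, mem_product] at hv ⊢
    exact ⟨fun i => hv _, hv 0⟩
  · intro p hp
    simp only [Fintype.mem_piFinset, mem_product] at hp ⊢
    intro i
    refine Fin.cases ?_ (fun j => ?_) i
    · exact hp.2
    · exact hp.1 j
  · intro v _
    exact Fin.cons_self_tail v
  · intro p _
    simp
  · intro v _
    simp only [Fin.cons_self_tail]

lemma count_ind (h2 : ∀ x : G, x + x = 0) {W : AddSubgroup G} (hW : (W : Set G).Finite) (s : ℕ) :
    ∑ v ∈ Fintype.piFinset fun _ : Fin s => fs W, (if Ind v then (1 : ℝ) else 0) =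
      Is s (Nat.card W) := by
  induction s with
  | zero =>
    have h : ∀ v : Fin 0 → G, Ind v := fun v t ⟨i, _⟩ => i.elim0
    simp [Is, h]
  | succ s ih =>
    rw [sum_pi_succ, Is, Finset.prod_range_succ, ← Is, ← ih, Finset.sum_mul]
    refine Finset.sum_congr rfl fun v hv => ?_
    by_cases h : Ind v
    · rw [if_pos h, one_mul, Finset.sum_boole]
      have hsub : (univ.image fun t : Finset (Fin s) => ∑ i ∈ t, v i) ⊆ fs W := by
        intro y hy
        obtain ⟨t, -, rfl⟩ := mem_image.1 hy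
        exact (mem_fs hW).2 (sum_mem fun i _ => (mem_fs hW).1 (Fintype.mem_piFinset.1 hv i))
      have e : ((fs W).filter fun x => Ind (Fin.cons x v : Fin (s + 1) → G)) =
          fs W \ univ.image fun t : Finset (Fin s) => ∑ i ∈ t, v i := by
        ext x
        simp only [mem_filter, ind_cons h2, h, true_and, mem_sdiff, mem_image, mem_univ,
          not_exists]
      rw [e, Finset.cast_card_sdiff hsub, card_image_of_injective _ (ind_inj h2 h), card_fs hW,
        card_univ, Fintype.card_finset, Fintype.card_fin]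
      push_cast
      rfl
    · rw [if_neg h, zero_mul]
      refine Finset.sum_eq_zero fun x _ => if_neg fun h' => h ((ind_cons h2 x v).1 h').1

lemma count_dgn (h2 : ∀ x : G, x + x = 0) {V : AddSubgroup G} (hV : (V : Set G).Finite)
    {v : Fin s → G} (hv : Ind v) (hm : ∀ i, v i ∈ V) :
    ((Fintype.piFinset fun _ : Fin s => fs V).filter fun v' => Dgn v v').card =
      2 ^ (s * (s + 1) / 2) := by
  set g : Finset (Sym2 (Fin s)) → Fin s → G :=
    fun T i => ∑ l ∈ univ.filter (fun l => s(i, l) ∈ T), v l with hg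
  have e : ((Fintype.piFinset fun _ : Fin s => fs V).filter fun v' => Dgn v v') =
      univ.image g := by
    ext v'
    simp only [mem_filter, Fintype.mem_piFinset, mem_image, mem_univ, true_and]
    constructor
    · rintro ⟨-, S, hS, hv'⟩
      refine ⟨univ.filter fun e => ∃ i l, e = s(i, l) ∧ l ∈ S i, funext fun i => ?_⟩
      rw [hv' i, hg]
      refine Finset.sum_congr ?_ fun _ _ => rfl
      ext l
      simp only [mem_filter, mem_univ, true_and]
      constructor
      · rintro ⟨a, b, hab, hb⟩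
        rcases Sym2.eq_iff.1 hab with ⟨rfl, rfl⟩ | ⟨rfl, rfl⟩
        · exact hb
        · exact (hS _ _).1 hb
      · exact fun h => ⟨i, l, rfl, h⟩
    · rintro ⟨T, rfl⟩
      refine ⟨fun i => (mem_fs hV).2 (sum_mem fun l _ => hm l),
        fun i => univ.filter fun l => s(i, l) ∈ T, fun i l => ?_, fun i => rfl⟩
      simp only [mem_filter, mem_univ, true_and]
      rw [Sym2.eq_swap]
  have hinj : Function.Injective g := by
    intro T U h
    ext e
    induction e using Sym2.ind with
    | _ i l =>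
      have h1 := ind_inj h2 hv (congrFun h i)
      have h3 := Finset.ext_iff.1 h1 l
      simpa using h3
  rw [e, card_image_of_injective _ hinj, card_univ, Fintype.card_finset, Sym2.card,
    Fintype.card_fin, Nat.choose_two_right, Nat.add_sub_cancel, mul_comm]

/-- The bundled form. -/
def bil {V : AddSubgroup G} {B : G → G → ZMod 2} (h : Alt V B) : V →+ V →+ ZMod 2 :=
  AddMonoidHom.mk' (fun x => AddMonoidHom.mk' (fun y => B x y)
    fun y z => h.add₂ _ x.2 _ y.2 _ z.2) fun x y => AddMonoidHom.ext fun z =>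
      h.add₁ _ x.2 _ y.2 _ z.2

lemma bil_apply {V : AddSubgroup G} {B : G → G → ZMod 2} (h : Alt V B) (x y : V) :
    bil h x y = B x y := rfl

lemma alt_sym {V : AddSubgroup G} {B : G → G → ZMod 2} (h : Alt V B) {x y : G} (hx : x ∈ V)
    (hy : y ∈ V) : B x y + B y x = 0 := by
  have := h.alt _ (add_mem hx hy)
  rwa [h.add₁ _ hx _ hy _ (add_mem hx hy), h.add₂ _ hx _ hx _ hy, h.add₂ _ hy _ hx _ hy,
    h.alt _ hx, h.alt _ hy, zero_add, add_zero] at this

lemma dgn_zero {V : AddSubgroup G} {B : G → G → ZMod 2} (h : Alt V B) {v v' : Fin s → G}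
    (hm : ∀ i, v i ∈ V) (hd : Dgn v v') : ∑ i, B (v i) (v' i) = 0 := by
  obtain ⟨S, hS, hv'⟩ := hd
  have e : ∀ i, B (v i) (v' i) = ∑ l, if l ∈ S i then B (v i) (v l) else 0 := by
    intro i
    have h1 := map_sum (bil h ⟨v i, hm i⟩) (fun l => (⟨v l, hm l⟩ : V)) (S i)
    rw [bil_apply, AddSubgroup.val_finsetSum] at h1
    rw [Finset.sum_ite_mem, Finset.univ_inter, hv' i]
    exact h1
  simp only [e]
  rw [← Finset.sum_product']
  refine Finset.sum_involution (fun p _ => p.swap) ?_ ?_ (fun p _ => by simp) fun p _ => rfl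
  · rintro ⟨i, l⟩ _
    simp only [Prod.swap_prod_mk]
    by_cases hl : l ∈ S i
    · rw [if_pos hl, if_pos ((hS _ _).1 hl)]
      exact alt_sym h (hm i) (hm l)
    · rw [if_neg hl, if_neg fun h' => hl ((hS _ _).2 h'), add_zero]
  · rintro ⟨i, l⟩ _ hne he
    simp only [Prod.swap_prod_mk, Prod.mk.injEq] at he
    apply hne
    simp only [he.1, h.alt _ (hm i), ite_self]

lemma sum_one {V : AddSubgroup G} (hV : (V : Set G).Finite) {B : G → G → ZMod 2} (h : Alt V B)
    {x : G} (hx : x ∈ V) :
    ∑ y ∈ fs V, sr (B x y) = if x ∈ Rd V B then (Nat.card V : ℝ) else 0 := by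
  have : Finite V := hV
  let : Fintype V := Fintype.ofFinite V
  rw [Finset.sum_subtype (fs V) (p := (· ∈ V)) (fun _ => mem_fs hV) fun y => sr (B x y)]
  refine (sum_sr (bil h ⟨x, hx⟩)).trans (if_congr ?_ rfl rfl)
  constructor
  · exact fun e => ⟨hx, fun y hy => DFunLike.congr_fun e ⟨y, hy⟩⟩
  · exact fun e => AddMonoidHom.ext fun y => e.2 y y.2

end Mom

open Mom in
theorem momId : MomId := by
  intro G _ h2 V B hV h
  have : Finite V := hV
  set R : AddSubgroup G := (rad (bil h) ⊤).map V.subtype with hR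
  have hRm : ∀ x, x ∈ R ↔ x ∈ Rd V B := by
    intro x
    constructor
    · rintro ⟨y, hy, rfl⟩
      exact ⟨y.2, fun z hz => hy.2 ⟨z, hz⟩ trivial⟩
    · rintro ⟨hx, hx'⟩
      exact ⟨⟨x, hx⟩, ⟨trivial, fun z _ => hx' z z.2⟩, rfl⟩
  have hRf : (R : Set G).Finite := hV.subset fun x hx => ((hRm x).1 hx).1
  have : Finite R := hRf
  obtain ⟨r, hr⟩ := card_two_pow (V := R) fun x => Subtype.ext (h2 x)
  obtain ⟨j, hj⟩ := card_alt (bil h) (fun v => h.alt _ v.2) ⊤
  rw [AddSubgroup.card_top, ← AddSubgroup.card_map_of_injective V.subtype_injective, ← hR, hr,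
    show (4 : ℕ) = 2 ^ 2 by norm_num, ← pow_mul, ← pow_add] at hj
  refine ⟨r, r + 2 * j, ?_, hj, by omega, fun s => ?_⟩
  · rw [← hr, show Rd V B = (R : Set G) from Set.ext fun x => (hRm x).symm]
    rfl
  have cV : (Nat.card V : ℝ) = 2 ^ (r + 2 * j) := by rw [hj]; push_cast; rfl
  have cR : (Nat.card R : ℝ) = 2 ^ r := by rw [hr]; push_cast; rfl
  rw [← cV, ← cR, ← count_ind h2 hV, ← count_ind h2 hRf, Er, tup, Finset.sum_filter,
    Finset.sum_product, Finset.mul_sum, Finset.mul_sum, ← Finset.sum_add_distrib]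
  have hsub : (Fintype.piFinset fun _ : Fin s => fs R) ⊆ Fintype.piFinset fun _ => fs V :=
    Fintype.piFinset_subset _ _ fun _ x hx => (mem_fs hV).2 ((hRm x).1 ((mem_fs hRf).1 hx)).1
  have key : ∀ v ∈ Fintype.piFinset fun _ : Fin s => fs V,
      (2 : ℝ) ^ (s * (s + 1) / 2) * (if Ind v then (1 : ℝ) else 0) +
        ∑ v' ∈ Fintype.piFinset fun _ : Fin s => fs V,
          (if Ind v ∧ ¬ Dgn v v' then sr (∑ i, B (v i) (v' i)) else 0) =
      (if Ind v then (1 : ℝ) else 0) * ∏ i, if v i ∈ Rd V B then (Nat.card V : ℝ) else 0 := by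
    intro v hv
    have hm : ∀ i, v i ∈ V := fun i => (mem_fs hV).1 (Fintype.mem_piFinset.1 hv i)
    by_cases hi : Ind v
    · simp only [hi, if_true, true_and, mul_one, one_mul]
      rw [← Finset.prod_congr rfl fun i _ => sum_one hV h (hm i), Finset.prod_univ_sum]
      have c1 : (2 : ℝ) ^ (s * (s + 1) / 2) = ∑ v' ∈ Fintype.piFinset fun _ : Fin s => fs V,
          (if Dgn v v' then (1 : ℝ) else 0) := by
        rw [Finset.sum_boole, count_dgn h2 hV hi hm]
        push_cast
        rfl
      rw [c1, ← Finset.sum_add_distrib]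
      refine Finset.sum_congr rfl fun v' _ => ?_
      rw [← sr_sum]
      by_cases hd : Dgn v v'
      · rw [if_pos hd, if_neg (not_not.2 hd), dgn_zero h hm hd, sr_zero, add_zero]
      · rw [if_neg hd, if_pos hd, zero_add]
    · simp [hi]
  rw [Finset.sum_congr rfl key]
  symm
  rw [← Finset.sum_subset hsub]
  · refine Finset.sum_congr rfl fun v hv => ?_
    rw [Finset.prod_congr rfl fun i _ =>
      if_pos ((hRm _).1 ((mem_fs hRf).1 (Fintype.mem_piFinset.1 hv i))), Finset.prod_const,
      card_univ, Fintype.card_fin, mul_comm]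
  · intro v _ hv
    rw [Fintype.mem_piFinset] at hv
    push Not at hv
    obtain ⟨i, hi⟩ := hv
    rw [Finset.prod_eq_zero (mem_univ i) (if_neg fun h' => hi ((mem_fs hRf).2 ((hRm _).2 h'))),
      mul_zero]

end Pool.Agent.Lib.MP_a3f657_nt.Two.Win
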