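import Pool.Agent.Lib.MP_a3f657_nt.WAlgDefs

/-!
The normal form of a nondegenerate pair of tuples.
-/

namespace Pool.Agent.Lib.MP_a3f657_nt.Two.Win

open scoped Classical

namespace Nrm

open Submodule

theorem cases2 (c : ZMod 2) : c = 0 ∨ c = 1 := by revert c; decide

variable {G : Type} [AddCommGroup G] [Module (ZMod 2) G]

theorem self_add (x : G) : x + x = 0 := by
  rw [← two_smul (ZMod 2) x, show (2 : ZMod 2) = 0 from rfl, zero_smul]

theorem clo_eq (S : Set G) : AddSubgroup.closure S = (span (ZMod 2) S).toAddSubgroup :=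
  le_antisymm ((AddSubgroup.closure_le _).2 subset_span) fun _ hx =>
    (span_le (p := AddSubgroup.toZModSubmodule 2 (AddSubgroup.closure S))).2
      AddSubgroup.subset_closure hx

theorem smul_mem' (V : AddSubgroup G) (c : ZMod 2) {x : G} (hx : x ∈ V) : c • x ∈ V :=
  (AddSubgroup.toZModSubmodule 2 V).smul_mem c hx

theorem sum_eq {n : ℕ} (g : Fin n → ZMod 2) (v : Fin n → G) :
    ∑ i, g i • v i = ∑ i ∈ Finset.univ.filter (fun i => g i = 1), v i := by
  rw [Finset.sum_filter]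
  refine Finset.sum_congr rfl fun i _ => ?_
  rcases cases2 (g i) with h | h <;> simp [h]

theorem li_of_ind {n : ℕ} {v : Fin n → G} (h : Ind v) : LinearIndependent (ZMod 2) v := by
  refine Fintype.linearIndependent_iff.2 fun g hg i => ?_
  rw [sum_eq] at hg
  exact (cases2 (g i)).resolve_right fun e => h _ ⟨i, by simpa using e⟩ hg

theorem ind_of_li {n : ℕ} {v : Fin n → G} (h : LinearIndependent (ZMod 2) v) : Ind v := by
  rintro t ⟨i, hi⟩ e
  have := Fintype.linearIndependent_iff.1 h (fun j => if j ∈ t then 1 else 0)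
    (by simpa [ite_smul] using e) i
  simp [hi] at this

section alt

variable {V : AddSubgroup G} {B : G → G → ZMod 2} (h : Alt V B)
include h

omit [Module (ZMod 2) G] in
theorem symm {x y : G} (hx : x ∈ V) (hy : y ∈ V) : B x y = B y x := by
  have h1 := h.alt _ (V.add_mem hx hy)
  rw [h.add₁ _ hx _ hy _ (V.add_mem hx hy), h.add₂ _ hx _ hx _ hy, h.add₂ _ hy _ hx _ hy,
    h.alt _ hx, h.alt _ hy, zero_add, add_zero] at h1
  exact CharTwo.add_eq_zero.1 h1

theorem sum_right {ι : Type} (s : Finset ι) (c : ι → ZMod 2) {u : ι → G} (hu : ∀ i, u i ∈ V)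
    {x : G} (hx : x ∈ V) : B x (∑ i ∈ s, c i • u i) = ∑ i ∈ s, c i * B x (u i) := by
  have h0 : B x 0 = 0 := by simpa using h.add₂ x hx 0 V.zero_mem 0 V.zero_mem
  induction s using Finset.induction_on with
  | empty => simpa using h0
  | insert a s ha ih =>
    rw [Finset.sum_insert ha, Finset.sum_insert ha, h.add₂ _ hx _ (smul_mem' V _ (hu a)) _
      (V.sum_mem fun i _ => smul_mem' V _ (hu i)), ih]
    rcases cases2 (c a) with e | e <;> simp [e, h0]

theorem sum_both {n : ℕ} (c c' : Fin n → ZMod 2) {u : Fin n → G} (hu : ∀ i, u i ∈ V) :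
    B (∑ j, c j • u j) (∑ l, c' l • u l) = ∑ j, ∑ l, c j * c' l * B (u j) (u l) := by
  have h1 : ∀ d : Fin n → ZMod 2, ∑ j, d j • u j ∈ V := fun d =>
    V.sum_mem fun i _ => smul_mem' V _ (hu i)
  rw [symm h (h1 c) (h1 c'), sum_right h _ _ hu (h1 c')]
  refine Finset.sum_congr rfl fun j _ => ?_
  rw [symm h (h1 c') (hu j), sum_right h _ _ hu (hu j), Finset.mul_sum]
  exact Finset.sum_congr rfl fun l _ => (mul_assoc _ _ _).symm

end alt

theorem tri {n : ℕ} (M β : Fin n → Fin n → ZMod 2) (h1 : ∀ j l, β j l = β l j)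
    (h2 : ∀ j, β j j = 0) : ∑ j, ∑ l, (if j < l then M j l + M l j else 0) * β j l =
      ∑ j, ∑ l, M j l * β j l := by
  have e : ∀ j l, (if j < l then M j l + M l j else 0) * β j l =
      (if j < l then M j l * β j l else 0) + if j < l then M l j * β l j else 0 := fun j l => by
    split_ifs
    · rw [add_mul, h1 l j]
    · simp
  simp only [e, Finset.sum_add_distrib]
  rw [Finset.sum_comm (f := fun j l => if j < l then M l j * β l j else 0),
    ← Finset.sum_add_distrib]
  refine Finset.sum_congr rfl fun j _ => ?_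
  rw [← Finset.sum_add_distrib]
  refine Finset.sum_congr rfl fun l _ => ?_
  rcases lt_trichotomy j l with e | rfl | e
  · simp [e, e.not_gt]
  · simp [h2]
  · simp [e, e.not_gt]

theorem final (U₀ : AddSubgroup G) {ρ : ℕ} (u : Fin (ρ + 1) → G)
    (hu : LinearIndependent (ZMod 2) u) (h0 : ∀ l, l ≠ 0 → u l ∈ U₀)
    (M : Fin (ρ + 1) → Fin (ρ + 1) → ZMod 2) (j₀ : Fin (ρ + 1))
    (hM : M j₀ (Fin.last ρ) + M (Fin.last ρ) j₀ ≠ 0) :
    ∃ (a b : Fin ρ → G) (i₀ : Fin ρ), Ind a ∧ (∀ i, b i ∈ U₀) ∧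
      (∀ t : Finset (Fin ρ), b i₀ + ∑ i ∈ t, a i ≠ 0) ∧
      span (ZMod 2) (Set.range a ∪ Set.range b) = span (ZMod 2) (Set.range u) ∧
      ∀ (V : AddSubgroup G) (B : G → G → ZMod 2), Alt V B → (∀ l, u l ∈ V) →
        ∑ j, ∑ l, M j l * B (u j) (u l) = ∑ i, B (a i) (b i) := by
  obtain ⟨i₀, rfl⟩ := Fin.exists_castSucc_eq.2
    (show j₀ ≠ Fin.last ρ by rintro rfl; exact hM (CharTwo.add_self_eq_zero _))
  let N : Fin (ρ + 1) → Fin (ρ + 1) → ZMod 2 := fun j l => if j < l then M j l + M l j else 0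
  have hN : N i₀.castSucc (Fin.last ρ) = 1 := by
    simp only [N, if_pos i₀.castSucc_lt_last]
    exact (cases2 _).resolve_left hM
  have hb : ∑ l, N i₀.castSucc l • u l =
      ∑ l : Fin ρ, N i₀.castSucc l.castSucc • u l.castSucc + u (Fin.last ρ) := by
    rw [Fin.sum_univ_castSucc, hN, one_smul]
  refine ⟨fun i => u i.castSucc, fun i => ∑ l, N i.castSucc l • u l, i₀,
    ind_of_li (hu.comp _ (Fin.castSucc_injective ρ)), fun i => U₀.sum_mem fun l _ => ?_,
    fun t e => ?_, le_antisymm (span_le.2 ?_) (span_le.2 ?_), fun V B hB hV => ?_⟩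
  · by_cases e : i.castSucc < l
    · exact smul_mem' U₀ _ (h0 l (Fin.pos_iff_ne_zero.1 ((Fin.zero_le _).trans_lt e)))
    · simp only [N, if_neg e, zero_smul]
      exact U₀.zero_mem
  · have h1 := Fintype.linearIndependent_iff.1 hu
      (fun l => N i₀.castSucc l + Fin.lastCases 0 (fun i => if i ∈ t then 1 else 0) l) (by
        simp only [add_smul, Finset.sum_add_distrib]
        rw [← e, Fin.sum_univ_castSucc (fun l => Fin.lastCases (motive := fun _ => ZMod 2) 0
          (fun i => if i ∈ t then 1 else 0) l • u l)]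
        simp [ite_smul]) (Fin.last ρ)
    simp [hN] at h1
  · rintro _ (⟨i, rfl⟩ | ⟨i, rfl⟩)
    · exact subset_span ⟨_, rfl⟩
    · exact Submodule.sum_mem _ fun l _ => Submodule.smul_mem _ _ (subset_span ⟨_, rfl⟩)
  · rintro _ ⟨l, rfl⟩
    induction l using Fin.lastCases with
    | last =>
      rw [← sub_eq_iff_eq_add'.2 hb]
      exact Submodule.sub_mem _ (subset_span (Or.inr ⟨i₀, rfl⟩)) (Submodule.sum_mem _ fun l _ =>
        Submodule.smul_mem _ _ (subset_span (Or.inl ⟨l, rfl⟩)))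
    | cast l => exact subset_span (Or.inl ⟨l, rfl⟩)
  · rw [← tri M (fun j l => B (u j) (u l)) (fun j l => symm hB (hV j) (hV l))
      fun j => hB.alt _ (hV j), Fin.sum_univ_castSucc]
    simp only [sum_right hB _ _ hV (hV _), N, (Fin.le_last _).not_gt, if_false, zero_mul,
      Finset.sum_const_zero, add_zero]

theorem basis_sub (W : Submodule (ZMod 2) G) [Module.Finite (ZMod 2) W] :
    ∃ (D : ℕ) (u : Fin D → G), LinearIndependent (ZMod 2) u ∧ span (ZMod 2) (Set.range u) = W := by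
  let b := Module.finBasis (ZMod 2) W
  refine ⟨_, W.subtype ∘ b, b.linearIndependent.map' _ W.ker_subtype, ?_⟩
  rw [Set.range_comp, ← map_span, b.span_eq, map_subtype_top]

theorem basis_adapt (H : Submodule (ZMod 2) G) [Module.Finite (ZMod 2) H] (U₀ : AddSubgroup G)
    (h : ∀ x ∈ H, ∀ y ∈ H, x ∉ U₀ → y ∉ U₀ → x + y ∈ U₀) :
    ∃ (D : ℕ) (u : Fin D → G), LinearIndependent (ZMod 2) u ∧ span (ZMod 2) (Set.range u) = H ∧
      ∀ l, l.1 ≠ 0 → u l ∈ U₀ := by
  by_cases e : ∀ x ∈ H, x ∈ U₀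
  · obtain ⟨D, u, h1, h2⟩ := basis_sub H
    exact ⟨D, u, h1, h2, fun l _ => e _ (h2 ▸ subset_span ⟨l, rfl⟩)⟩
  · push Not at e
    obtain ⟨x, hx, hx'⟩ := e
    have : FiniteDimensional (ZMod 2) ↥(H ⊓ AddSubgroup.toZModSubmodule 2 U₀) :=
      finiteDimensional_inf_left _ _
    obtain ⟨D, u, h1, h2⟩ := basis_sub (H ⊓ AddSubgroup.toZModSubmodule 2 U₀)
    have h3 : ∀ l, u l ∈ H ⊓ AddSubgroup.toZModSubmodule 2 U₀ := fun l =>
      h2 ▸ subset_span ⟨l, rfl⟩
    refine ⟨D + 1, Fin.cons x u, h1.finCons (by rw [h2]; exact fun f => hx' f.2), ?_,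
      fun l hl => ?_⟩
    · rw [Fin.range_cons, span_insert, h2]
      refine le_antisymm (sup_le ((span_singleton_le_iff_mem _ _).2 hx) inf_le_left) fun y hy => ?_
      by_cases e : y ∈ U₀
      · exact mem_sup_right ⟨hy, e⟩
      · rw [show y = x + (x + y) by rw [← add_assoc, self_add, zero_add]]
        exact add_mem_sup (mem_span_singleton_self x) ⟨H.add_mem hx hy, h x hx y hy hx' e⟩
    · induction l using Fin.cases with
      | zero => exact absurd rfl hl
      | succ l => exact (h3 l).2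

theorem dgn {s D : ℕ} {v v' : Fin s → G} (hv : Ind v) (u : Fin D → G)
    (c c' : Fin s → Fin D → ZMod 2) (hc : ∀ i, ∑ j, c i j • u j = v i)
    (hc' : ∀ i, ∑ j, c' i j • u j = v' i)
    (h : ∀ j l, ∑ i, c i j * c' i l = ∑ i, c i l * c' i j) : Dgn v v' := by
  obtain ⟨g, hg⟩ := (Fintype.linearCombination (ZMod 2) v).exists_leftInverse_of_injective
    (LinearMap.ker_eq_bot.2 (linearIndependent_iff_injective_fintypeLinearCombination.1
      (li_of_ind hv)))
  have h1 : ∀ a : Fin s → ZMod 2, g (∑ i, a i • v i) = a := fun a => LinearMap.congr_fun hg a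
  have h2 : ∀ i k, g (v i) k = if i = k then 1 else 0 := fun i k => by
    have := congrFun (h1 (Pi.single i 1)) k
    simpa [Pi.single_apply, ite_smul, eq_comm] using this
  have h3 : ∀ (d : Fin D → ZMod 2) k, g (∑ j, d j • u j) k = ∑ j, d j * g (u j) k :=
    fun d k => by simp
  have h4 : ∀ k l, c' k l = ∑ i, g (v' i) k * c i l := fun k l => by
    calc c' k l = ∑ i, g (v i) k * c' i l := by simp [h2]
      _ = ∑ j, (∑ i, c i j * c' i l) * g (u j) k := by
        simp only [← hc, h3, Finset.sum_mul]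
        rw [Finset.sum_comm]
        exact Finset.sum_congr rfl fun _ _ => Finset.sum_congr rfl fun _ _ => by ring
      _ = _ := by
        simp only [h, ← hc', h3, Finset.sum_mul]
        rw [Finset.sum_comm]
        exact Finset.sum_congr rfl fun _ _ => Finset.sum_congr rfl fun _ _ => by ring
  have h5 : ∀ k, v' k = ∑ i, g (v' i) k • v i := fun k => by
    conv_lhs => rw [← hc']
    simp only [h4, Finset.sum_smul, ← hc, Finset.smul_sum, mul_smul]
    rw [Finset.sum_comm]
  refine ⟨fun k => Finset.univ.filter fun i => g (v' i) k = 1, fun i l => ?_,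
    fun k => by rw [← sum_eq, ← h5]⟩
  have := congrFun (h1 fun m => g (v' m) i) l
  rw [← h5] at this
  simp only [Finset.mem_filter, Finset.mem_univ, true_and, this]

end Nrm

open Nrm Submodule in
theorem normF : NormF := by
  intro G _ h2 U₀ s v v' hv hd hU
  let _ : Module (ZMod 2) G := AddCommGroup.zmodModule fun x => by rw [two_nsmul, h2]
  have hfin : (Set.range v ∪ Set.range v').Finite := (Set.finite_range v).union (Set.finite_range v')
  have := Module.Finite.span_of_finite (ZMod 2) hfin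
  simp only [clo_eq] at hU ⊢
  obtain ⟨D, u, u1, u2, u3⟩ := basis_adapt _ U₀ hU
  have hD : D ≤ 2 * s := by
    have h1 := finrank_range_le_card (R := ZMod 2) (Sum.elim v v')
    rw [Set.finrank, Set.Sum.elim_range, ← u2, finrank_span_eq_card u1] at h1
    simpa [two_mul] using h1
  choose c hc using fun i => (mem_span_range_iff_exists_fun (ZMod 2)).1
    (show v i ∈ span (ZMod 2) (Set.range u) from u2 ▸ subset_span (Or.inl ⟨i, rfl⟩))
  choose c' hc' using fun i => (mem_span_range_iff_exists_fun (ZMod 2)).1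
    (show v' i ∈ span (ZMod 2) (Set.range u) from u2 ▸ subset_span (Or.inr ⟨i, rfl⟩))
  obtain ⟨j₀, l₀, h0, hl⟩ : ∃ j l : Fin D, ∑ i, c i j * c' i l + ∑ i, c i l * c' i j ≠ 0 ∧
      l.1 ≠ 0 := by
    have h1 := mt (dgn hv u c c' hc hc') hd
    push Not at h1
    obtain ⟨j, l, h1⟩ := h1
    by_cases e : l.1 = 0
    · refine ⟨l, j, fun f => h1 (CharTwo.add_eq_zero.1 f).symm, fun f => h1 ?_⟩
      rw [show j = l from Fin.ext (f.trans e.symm)]
    · exact ⟨j, l, fun f => h1 (CharTwo.add_eq_zero.1 f), e⟩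
  obtain ⟨ρ, rfl⟩ : ∃ ρ, D = ρ + 1 := ⟨D - 1, by have := l₀.2; omega⟩
  let σ := Equiv.swap l₀ (Fin.last ρ)
  have hσ : σ 0 = 0 := Equiv.swap_apply_of_ne_of_ne (fun e => hl (by rw [← e]; rfl))
    (fun e => hl (by have := l₀.2; have := congrArg Fin.val e; simp at this; omega))
  obtain ⟨a, b, i₀, a1, a2, a3, a4, a5⟩ := final U₀ (u ∘ σ) (u1.comp _ σ.injective)
    (fun l e => u3 _ fun f => e (σ.injective ((Fin.ext f).trans hσ.symm)))
    (fun j l => ∑ i, c i (σ j) * c' i (σ l)) (σ j₀) (by simpa [σ] using h0)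
  refine ⟨ρ, a, b, i₀, by omega, a1, a2, a3, by rw [a4, σ.surjective.range_comp, u2],
    fun V B hB hV => ?_⟩
  have hu : ∀ l, u l ∈ V := fun l =>
    (span_le (p := AddSubgroup.toZModSubmodule 2 V)).2 (by
      rintro _ (⟨i, rfl⟩ | ⟨i, rfl⟩)
      exacts [(hV i).1, (hV i).2]) (u2.le (subset_span ⟨l, rfl⟩))
  rw [← a5 V B hB fun l => hu _]
  simp only [Function.comp]
  rw [Equiv.sum_comp σ fun j => ∑ l, (∑ i, c i j * c' i (σ l)) * B (u j) (u (σ l))]
  simp only [← hc, ← hc', sum_both hB _ _ hu]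
  rw [Finset.sum_comm]
  refine Finset.sum_congr rfl fun j _ => ?_
  rw [Equiv.sum_comp σ fun l => (∑ i, c i j * c' i l) * B (u j) (u l), Finset.sum_comm]
  simp only [Finset.sum_mul]

end Pool.Agent.Lib.MP_a3f657_nt.Two.Win
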