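import Pool.Agent.Lib.MP_a3f657_nt.WDefs

/-!
Reduced polynomials and the degrees of the elements of the local image.
-/

namespace Pool.Agent.Lib.MP_a3f657_nt.Two.Win

open Polynomial WithZero

open scoped Classical

namespace RedA

lemma odd_pole {K : Type} [Field K] {w : Valuation K ℤᵐ⁰} {x y z : K} (h1 : ord w x < 0)
    (h2 : ord w x % 2 = 1) (hy : y ∈ Fil w (ord w x + 1)) : wp z ≠ x + y := fun e => by
  obtain ⟨h3, h4⟩ := ord_add (by rintro rfl; simp at h1) hy
  rw [← e] at h3 h4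
  by_cases h5 : ord w z < 0
  · have := (ord_wp h5).2
    omega
  · have := (mem_Fil_iff h3).1 (Fil.wp (mem_Fil_ord (w := w) z) (c := 0) (by omega) (by omega))
    omega

variable {k : Type} [Field k] [Fintype k] [CharP k 2]

lemma tau_C (c : k) : (pl none).tau (ι (C c)) = tr k c := by
  have := RatFunc.X_ne_zero (K := k)
  rw [PreLoc.tau_apply, pl_r, pl_b, D_unif_none, res_none, resInf_apply, unif,
    show RatFunc.X * (ι (C c) / RatFunc.X⁻¹ * RatFunc.X⁻¹ ^ 2) = ι (C c) by field_simp, pol_ι,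
    coeff_C_zero]

lemma exists_wp {c : k} (h : tr k c = 0) : ∃ z, c = wp z := by
  obtain ⟨z, hz⟩ := (pl none).mem_PW.1
    (((pl none).tau_eq_zero (const_int none c)).1 ((tau_C c).trans h))
  have h1 : wp z ∈ Fil (val none) 0 := by
    simpa [← add_assoc, two_K] using add_mem (const_int none c) (Fil.mono hz (b := 0) (by omega))
  obtain ⟨a, ha⟩ := exists_rep_none (Fil.of_wp h1 (by omega) le_rfl)
  have h2 := eq_zero_of_none (a := C (c + wp a)) (by
    rw [show ι (C (c + wp a)) = ι (C c) + wp z + wp (z + ι (C a)) by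
      simp only [wp, ι, map_add, map_pow]; grind]
    exact add_mem hz (Fil.wp ha le_rfl (by omega)))
  exact ⟨a, by have := C_eq_zero.1 h2; grind⟩

lemma tr_dl : tr k (dl₀ k) ≠ 0 := (tr_ne (k := k)).choose_spec

lemma red_C (c : k) : ∃ r ∈ Red k, ∃ z : k[X], C c = r + wp z ∧ r.natDegree ≤ 0 := by
  by_cases h : tr k c = 0
  · obtain ⟨z, rfl⟩ := exists_wp h
    exact ⟨0, zero_mem _, C z, by simp [wp], by simp⟩
  · obtain ⟨z, hz⟩ := exists_wp (c := dl₀ k + c) (by
      rw [map_add, (z2_cases _).resolve_left h, (z2_cases _).resolve_left tr_dl]; rfl)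
    refine ⟨C (dl₀ k), ⟨fun i _ hi => coeff_C_of_ne_zero hi, Or.inr coeff_C_zero⟩, C z, ?_, by simp⟩
    rw [show wp (C z) = C (wp z) by simp [wp], ← hz, ← map_add, ← add_assoc, two_K, zero_add]

lemma red_mono (n : ℕ) (c : k) :
    ∃ r ∈ Red k, ∃ z : k[X], monomial n c = r + wp z ∧ r.natDegree ≤ n := by
  induction n using Nat.strong_induction_on generalizing c with
  | h n ih =>
  rcases Nat.eq_zero_or_pos n with rfl | hn
  · exact red_C c
  rcases Nat.even_or_odd' n with ⟨j, rfl | rfl⟩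
  · obtain ⟨g, rfl⟩ := exists_sqrt c
    obtain ⟨r, h1, z, h2, h3⟩ := ih j (by omega) g
    refine ⟨r, h1, z + monomial j g, ?_, by omega⟩
    rw [mul_comm, ← monomial_pow, h2]
    unfold wp
    grind
  · refine ⟨monomial _ c, ⟨fun i hi _ => ?_, Or.inl ?_⟩, 0, by simp [wp], natDegree_monomial_le c⟩
    · rw [coeff_monomial, if_neg]
      rintro rfl
      exact Nat.not_even_two_mul_add_one j hi
    · rw [coeff_monomial, if_neg (by omega)]

lemma odd_deg {r : k[X]} (hr : r ∈ Red k) (h : 0 < r.natDegree) : r.natDegree % 2 = 1 := by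
  by_contra h1
  exact leadingCoeff_ne_zero.2 (ne_zero_of_natDegree_gt h) (hr.1 _ (Nat.even_iff.2 (by omega)) h.ne')

lemma PD_b {b : k[X]} (h : Odd b.natDegree) : (PD b).b = ι b := by
  rw [PD, dif_pos]
  · rfl
  · intro r hr
    have := ord_none (a := b) (by rintro rfl; simp at h)
    rw [← hr, ord_sq] at this
    obtain ⟨j, hj⟩ := h
    omega

lemma ord_f {a : k[X]} (h : a ≠ 0) :
    ord (cmp (k := k) none).L'.w ((cmp none).f (ι a)) = -a.natDegree :=
  ((cmp none).h.ord_eq _).trans (ord_none h)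

lemma deg_le {r : k[X]} (hr : r ∈ Red k) {m : ℕ} {y z : (cmp (k := k) none).K}
    (hy : y ∈ Fil (cmp none).L'.w (-m)) (e : wp z = (cmp none).f (ι r) + y) : r.natDegree ≤ m := by
  by_contra h
  have h1 := odd_deg hr (by omega)
  have h2 := ord_f (a := r) (ne_zero_of_natDegree_gt (not_le.1 h))
  exact odd_pole (w := (cmp none).L'.w) (by omega) (by omega) (Fil.mono hy (by omega)) e

lemma cases {a b a₀ c h : k[X]} (h0 : a₀ ∈ Red k) (e : a = a₀ + wp c) (hd : Dg a b.natDegree)
    (hh : h ∈ WW a b) : h.natDegree ≤ b.natDegree - 2 * a.natDegree ∨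
      (h + a₀).natDegree ≤ (b.natDegree - a.natDegree) / 2 := by
  obtain ⟨ha, hb, h1, -⟩ := hd
  obtain ⟨u, hu⟩ := mem_AA.1 (Cmp.mem_AA'.1 (show ι h ∈ _ from hh.2))
  rcases mem_Lt.1 hu with e1 | ⟨x, l, l', hx, hl, hl', -⟩
  · exact Or.inl (deg_le hh.1 (zero_mem _) (e1.symm.trans (add_zero _).symm))
  rw [Cmp.Q_b, PD_b hb] at hl hl'
  have ha0 : a ≠ 0 := by rintro rfl; simp at ha
  have hb0 : b ≠ 0 := by rintro rfl; simp at hb
  have oa := ord_f ha0
  have ob : ord (cmp none).L'.w ((cmp none).f (ι b) / x ^ 2) =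
      -b.natDegree - 2 * ord (cmp none).L'.w x := by
    rw [ord_div ((_root_.map_ne_zero _).2 (ι_ne hb0)) (pow_ne_zero 2 hx), ord_f hb0, ord_sq]
  rw [Nat.odd_iff] at ha hb
  by_cases h2 : ord (cmp none).L'.w x ≤ -a.natDegree
  · exact Or.inl (deg_le hh.1 (mem_Fil_of_le (by omega)) hl')
  refine Or.inr (deg_le (add_mem hh.1 h0) (y := x) (z := l + l' + (cmp none).f (ι c))
    (mem_Fil_of_le ?_) ?_)
  · rcases lt_trichotomy (ord (cmp none).L'.w ((cmp none).f (ι b) / x ^ 2)) (-a.natDegree) with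
      h3 | h3 | h3
    · exact absurd (hl.trans (add_comm _ _)) (odd_pole (w := (cmp none).L'.w) (by omega) (by omega)
        (add_mem (mem_Fil_of_le (by omega)) (mem_Fil_of_le (by omega))))
    · omega
    · exact absurd (hl.trans (by rw [add_right_comm, add_comm])) (odd_pole (w := (cmp none).L'.w)
        (x := (cmp none).f (ι a)) (y := x + (cmp none).f (ι b) / x ^ 2) (by omega) (by omega)
        (add_mem (mem_Fil_of_le (by omega)) (mem_Fil_of_le (by omega))))
  · have e1 : (cmp none).f (ι a) = (cmp none).f (ι a₀) + wp ((cmp none).f (ι c)) := by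
      simp only [e, wp, ι, map_add, map_pow]
    rw [wp_add, wp_add, hl, hl', e1]
    simp only [ι, map_add]
    grind

end RedA

open RedA

theorem redP : RedP := by
  intro k _ _ _
  refine ⟨fun h => ?_, fun r hr hp => ?_⟩
  · suffices H : ∀ n, ∃ r ∈ Red k, ∃ c : k[X],
        ∑ i ∈ Finset.range (n + 1), monomial i (h.coeff i) = r + wp c ∧ r.natDegree ≤ n by
      simpa only [← h.as_sum_range] using H h.natDegree
    intro n
    induction n with
    | zero => simpa using red_C (h.coeff 0)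
    | succ n ih =>
      obtain ⟨r, h1, c, h2, h3⟩ := ih
      obtain ⟨r', g1, c', g2, g3⟩ := red_mono (n + 1) (h.coeff (n + 1))
      refine ⟨r + r', add_mem h1 g1, c + c', ?_, (natDegree_add_le _ _).trans (by omega)⟩
      rw [Finset.sum_range_succ, h2, g2]
      unfold wp
      grind
  · obtain ⟨z, hz⟩ := (cmp none).L'.PW_eq (cmp (k := k) none).h.cpl ▸ (cmp none).h.mem_PW.2 hp
    have h1 := eq_C_of_natDegree_le_zero
      (deg_le (m := 0) hr (zero_mem _) (hz.trans (add_zero _).symm))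
    rcases hr.2 with h2 | h2
    · rw [h1, h2, map_zero]
    · rw [h1, h2] at hp
      exact absurd ((tau_C _).symm.trans ((pl none).tau_PW hp)) tr_dl

theorem locA (h : RedP) : LocA := by
  intro k _ _ _ a
  obtain ⟨a₀, h0, c, e, h1⟩ := (h k).1 a
  refine ⟨a₀, h0, h1, fun b hd => ⟨fun _ => cases h0 e hd, fun g hg g' hg' h2 h3 => ?_⟩⟩
  refine (cases h0 e hd (add_mem hg hg')).resolve_right fun h4 => ?_
  have h5 := (cases h0 e hd hg).resolve_left (by omega)
  have h6 := (cases h0 e hd hg').resolve_left (by omega)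
  obtain ⟨ha, -, h7, h8⟩ := hd
  have h9 : a₀.natDegree ≤ (b.natDegree - a.natDegree) / 2 := by
    rw [show a₀ = g + g' + a₀ + (g + a₀ + (g' + a₀)) by grind]
    exact (natDegree_add_le _ _).trans (max_le h4 ((natDegree_add_le _ _).trans (max_le h5 h6)))
  have oa := ord_none (a := a) (by rintro rfl; simp at ha)
  rw [Nat.odd_iff] at ha
  refine odd_pole (w := val none) (x := ι a) (y := ι a₀) (z := ι c) (by omega) (by omega)
    (Fil.mono (ι_mem_none.2 h9) (by omega)) ?_
  simp only [e, wp, ι, map_add, map_pow]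
  grind

end Pool.Agent.Lib.MP_a3f657_nt.Two.Win
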