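import Pool.Agent.Lib.MP_a3f657_nt.C2CellDefs

/-!
Character sums on elementary abelian Artin-Schreier covers (definitions and statements).
-/

namespace Pool.Agent.Lib.MP_a3f657_nt.Two.Win

open Polynomial UniqueFactorizationMonoid

open scoped Classical

variable {k : Type} [Field k] {ρ : ℕ}

/-- Character sum on the curve `θ i ^ 2 + θ i = n₁ i / M`. -/
noncomputable def sumH [Fintype k] {R : Type} [CommRing R] [Algebra k R] (U V : R)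
    (χ : MulChar R ℂ) (M : k[X]) (n₁ n₂ : Fin ρ → k[X]) (m : ℕ) : ℂ :=
  ∑ x ∈ (fixF k m ×ˢ Fintype.piFinset fun _ : Fin ρ => fixF k m).filter
      (fun x => aeval x.1 M ≠ 0 ∧ ∀ i, x.2 i ^ 2 + x.2 i = aeval x.1 (n₁ i) / aeval x.1 M),
    chiN U V χ m x.1 * sg m (∑ i, x.2 i * (aeval x.1 (n₂ i) / aeval x.1 M))

/-- The sum over the roots `c i` of `c i ^ 2 + c i = n₁ i / M` modulo `p` of the sign of
`∑ c i n₂ i / M`. -/
noncomputable def gH (M : k[X]) (n₁ n₂ : Fin ρ → k[X]) (p : k[X]) : ℂ :=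
  ∑ᶠ c ∈ {c : Fin ρ → k[X] | ∀ i, (c i).degree < p.degree ∧ p ∣ M * (c i ^ 2 + c i) + n₁ i},
    sgP p M (∑ i, c i * n₂ i)

/-- The functions `n₁ i / M` are independent modulo the values of `c ^ 2 + c`. -/
def Indep (M : k[X]) (n₁ : Fin ρ → k[X]) : Prop :=
  ∀ s : Finset (Fin ρ), s.Nonempty → NotWp M (∑ i ∈ s, n₁ i)

/-- The set of monic prime factors. -/
noncomputable def pr (b : k[X]) : Finset k[X] := (normalizedFactors b).toFinset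

/-- The top `K` coefficients. -/
noncomputable def tc (K : ℕ) (b : k[X]) : AdjoinRoot (X ^ K : k[X]) :=
  AdjoinRoot.mk (X ^ K) b.reverse

variable (k) in
/-- The squarefree polynomials of degree `n`. -/
noncomputable def Om [Fintype k] (n : ℕ) : Finset k[X] :=
  (finite_natDegree_le n).toFinset.filter fun b => Squarefree b ∧ b.natDegree = n

/-- The Riemann hypothesis in the form needed. -/
def RhH : Prop :=
  ∀ (k : Type) [Field k] [Fintype k] [CharP k 2] (R : Type) [CommRing R] [Algebra k R] [Finite R]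
    (U V : R) (χ : MulChar R ℂ) (M : k[X]) (ρ : ℕ) (n₁ n₂ : Fin ρ → k[X]), M ≠ 0 →
    (∀ p : k[X], p.Monic → Irreducible p → ¬ p ∣ M → IsUnit (cl U V p)) →
    ∀ γ : Multiset ℂ, (∀ m, 1 ≤ m → sumH U V χ M n₁ n₂ m = -(γ.map (· ^ m)).sum) →
      ∀ z ∈ γ, ‖z‖ ≤ √(Fintype.card k)

/-- Prime sums on the cover. -/
def PrimeH : Prop :=
  ∀ (k : Type) [Field k] [Fintype k] [CharP k 2] (ρ : ℕ), ∃ c : ℝ, ∀ (M : k[X])
    (n₁ n₂ : Fin ρ → k[X]) (K A : ℕ) (χ : MulChar (RM M K) ℂ), M ≠ 0 → Indep M n₁ →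
    (∀ i, (n₁ i).natDegree ≤ A ∧ (n₂ i).natDegree ≤ A) →
    (∃ p i, GoodP M p ∧ (∀ l, sgP p M (n₁ l) = 1) ∧ sgP p M (n₂ i) = -1) →
    ∀ m, 1 ≤ m → ‖PS M (fun p => χ (clM M K p) * gH M n₁ n₂ p) m‖ ≤
      c * (M.natDegree + K + A + 1) * √(Fintype.card k) ^ m

/-- Existence of a prime with prescribed splitting. -/
def SplitH : Prop :=
  ∀ (k : Type) [Field k] [Fintype k] [CharP k 2] (ρ : ℕ) (M n : k[X]) (n₁ : Fin ρ → k[X]),
    M ≠ 0 → (∀ s : Finset (Fin ρ), NotWp M (n + ∑ i ∈ s, n₁ i)) →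
    ∃ p, GoodP M p ∧ (∀ l, sgP p M (n₁ l) = 1) ∧ sgP p M n = -1

/-- Square root cancellation passes from primes to squarefree polynomials. -/
def SFB : Prop :=
  ∀ (k : Type) [Field k] [Fintype k] [CharP k 2] (θ : ℝ), 1 < θ → ∀ B B₀ : ℝ,
    ∃ (T : ℕ) (C : ℝ), 0 ≤ C ∧ ∀ (M : k[X]) (h : k[X] → ℂ) (n Y : ℕ), SmallDvd T M →
      (∀ p, GoodP M p → ‖h p‖ ≤ B₀) →
      (∀ m, 1 ≤ m → ‖PS M h m‖ ≤ B * (Y + 1) * √(Fintype.card k) ^ m) →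
      ‖SF M h n‖ ≤ C * √(Fintype.card k) ^ n * θ ^ (n + Y)

/-- Cancellation of the twisted Moebius function. -/
def MuB : Prop :=
  ∀ (k : Type) [Field k] [Fintype k] [CharP k 2] (θ : ℝ), 1 < θ → ∃ (T : ℕ) (C : ℝ), 0 ≤ C ∧
    ∀ (M : k[X]) (K n : ℕ) (χ : MulChar (RM M K) ℂ), M ≠ 0 → SmallDvd T M →
      ‖SF M (fun p => χ (clM M K p) * (-1)) n‖ ≤
        C * √(Fintype.card k) ^ n * θ ^ (n + M.natDegree + K)

/-- Cancellation of the twisted weights `gH`. -/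
def AnH : Prop :=
  ∀ (k : Type) [Field k] [Fintype k] [CharP k 2] (θ : ℝ), 1 < θ → ∀ (R₀ : ℕ) (B₀ : ℝ),
    ∃ (T : ℕ) (C : ℝ), 0 ≤ C ∧ ∀ ρ, ρ ≤ R₀ → ∀ (M : k[X]) (n₁ n₂ : Fin ρ → k[X]) (i₀ : Fin ρ)
      (K A n : ℕ) (χ : MulChar (RM M K) ℂ) (lam : ℂ), M ≠ 0 → SmallDvd T M → Indep M n₁ →
      (∀ s : Finset (Fin ρ), NotWp M (n₂ i₀ + ∑ i ∈ s, n₁ i)) →
      (∀ i, (n₁ i).natDegree ≤ A ∧ (n₂ i).natDegree ≤ A) → ‖lam‖ * 2 ^ ρ ≤ B₀ →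
      ‖SF M (fun p => χ (clM M K p) * (lam * gH M n₁ n₂ p)) n‖ ≤
        C * √(Fintype.card k) ^ n * θ ^ (n + M.natDegree + K + A)

/-- Sums with a weight that depends only on the top coefficients. -/
def CellSum : Prop :=
  ∀ (k : Type) [Field k] [Fintype k] [CharP k 2] (T K n : ℕ) (h φ : k[X] → ℂ) (B B₀ : ℝ),
    1 ≤ B₀ → (∀ p : k[X], p.Monic → Irreducible p → ‖h p‖ ≤ B₀) →
    (∀ (χ : MulChar (RM (PiT k T) K) ℂ) (m : ℕ), m ≤ n →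
      ‖SF (PiT k T) (fun p => χ (clM (PiT k T) K p) * h p) m‖ ≤ B) →
    (∀ b, ‖φ b‖ ≤ 1) → (∀ b ∈ Om k n, ∀ b' ∈ Om k n, tc K b = tc K b' → φ b = φ b') →
    ‖∑ b ∈ Om k n, φ b * ∏ p ∈ pr b, h p‖ ≤ Fintype.card k * (2 * B₀) ^ (irrLe k T).card *
      √(Fintype.card k) ^ ((PiT k T).natDegree + K) * B

/-- Elementary counts. -/
def Cnt : Prop :=
  ∀ (k : Type) [Field k] [Fintype k] [CharP k 2] (n : ℕ), 1 ≤ n →
    Fintype.card k ^ n ≤ 4 * (Om k n).card ∧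
    ∀ B : ℕ, ∑ b ∈ Om k n, B ^ (pr b).card ≤ Fintype.card k ^ (n + 1) * (n + 1) ^ B

end Pool.Agent.Lib.MP_a3f657_nt.Two.Win
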