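import Pool.Agent.Lib.MP_a3f657_nt.WRhAux
import Pool.Agent.Lib.MP_a3f657_nt.WAnDefs

/-!
The Riemann hypothesis for the character sum on the elementary abelian cover.
-/

open Pool.Agent.Lib.MP_a3f657_nt.Two.Rh

namespace Pool.Agent.Lib.MP_a3f657_nt.Two.Win

open Polynomial

namespace Rh

variable {k : Type} [Field k] [Fintype k] [CharP k 2] {ρ : ℕ}

theorem card_roots_le {K : Type} [Field K] (b : Fin ρ → K) (s : Finset (Fin ρ → K))
    (hs : ∀ x ∈ s, ∀ i, x i ^ 2 + x i = b i) : s.card ≤ 2 ^ ρ := by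
  classical
  have h : s ⊆ Fintype.piFinset fun i => s.image (· i) := fun x hx =>
    Fintype.mem_piFinset.2 fun i => Finset.mem_image_of_mem _ hx
  refine (Finset.card_le_card h).trans ?_
  rw [Fintype.card_piFinset]
  refine (Finset.prod_le_pow_card _ _ 2 fun i _ => card_quad_le (b i) _ fun y hy => ?_).trans ?_
  · obtain ⟨x, hx, rfl⟩ := Finset.mem_image.1 hy
    exact hs x hx i
  · simp

theorem sg_shift {m : ℕ} (hm : 0 < m) {z : AlgebraicClosure k}
    {θ η β : Fin ρ → AlgebraicClosure k} {b : Fin ρ → ZMod 2} {c : ZMod 2}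
    (hη : ∀ i, η i ^ 2 + η i = β i) (hz : z ^ 2 + z = ∑ i, θ i * β i)
    (hη' : ∀ i, η i ^ Fintype.card k ^ m = η i + cz _ (b i))
    (hz' : z ^ Fintype.card k ^ m = z + cz _ c) (ε : Fin ρ → ZMod 2) :
    sg m (∑ i, (θ i + cz _ (ε i)) * β i) = sgn (c + ∑ i, ε i * b i) := by
  have h2 : (2 : AlgebraicClosure k) = 0 := CharTwo.two_eq_zero
  have hw := sum_as (1 : AlgebraicClosure k) ε (η := η) (c := β) fun i => by rw [one_mul, hη]
  refine sg_eq hm (u := z + ∑ i, cz _ (ε i) * η i) ?_ ?_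
  · simp only [add_mul, Finset.sum_add_distrib]
    linear_combination hz + hw + (z * ∑ i, cz _ (ε i) * η i) * h2
  · rw [← frob_pow_apply, map_add, map_sum]
    simp only [map_mul, map_cz, frob_pow_apply, hz', hη', cz_add, cz_sum, cz_mul, mul_add,
      Finset.sum_add_distrib]
    ring

theorem main : RhH := by
  classical
  intro k _ _ _ R _ _ _ U V χ M ρ n₁ n₂ hM hU γ hγ
  refine rh_aux U V M n₁ n₂ hM hU
    (fun m a => ∑ θ ∈ (Fintype.piFinset fun _ : Fin ρ => fixF k m).filter
      (fun θ => aeval a M ≠ 0 ∧ ∀ i, θ i ^ 2 + θ i = aeval a (n₁ i) / aeval a M),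
      chiN U V χ m a * sg m (∑ i, θ i * (aeval a (n₂ i) / aeval a M)))
    (fun γ => if γ.1.1 = 0 then
      ∑ ε : Fin ρ → ZMod 2, χ γ.2 * sgn (γ.1.2.2 + ∑ i, ε i * γ.1.2.1 i) else 0)
    (B := 2 ^ ρ) (by positivity) (fun m a => ?_) (fun γ => ?_) (fun G hG => ?_)
    (fun m hm a z θ η h g _ ha hθ hη hz hθ' hη' hz' hg => ?_) γ fun m hm => ?_
  · refine (norm_sum_le _ _).trans ((Finset.sum_le_card_nsmul _ _ 1 fun θ _ =>
      norm_term_le ..).trans ?_)
    rw [nsmul_eq_mul, mul_one]
    exact_mod_cast card_roots_le (fun i => aeval a (n₁ i) / aeval a M) _ fun x hx => by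
      rw [Finset.mem_filter] at hx
      exact hx.2.2
  · split_ifs
    · refine (norm_sum_le _ _).trans ((Finset.sum_le_card_nsmul _ _ 1 fun ε _ => ?_).trans ?_)
      · rw [norm_mul, norm_sgn, mul_one]
        exact Two.Rh.norm_chi_le ..
      · simp
    · simp
  · rw [← Finset.sum_filter, Finset.sum_comm, Complex.re_sum]
    have hG' : ∀ a ∈ G.filter (·.1.1 = 0), ∀ b ∈ G.filter (·.1.1 = 0),
        a * b ∈ G.filter (·.1.1 = 0) := fun a ha b hb => by
      rw [Finset.mem_filter] at ha hb ⊢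
      exact ⟨hG a ha.1 b hb.1, by rw [Prod.fst_mul, Hs.mul_1, ha.2, hb.2, add_zero]⟩
    refine Finset.sum_nonneg fun ε _ => re_sum_nonneg _ _ hG' fun a ha b _ => ?_
    simp only [Prod.snd_mul, Prod.fst_mul, Units.val_mul, map_mul, Hs.mul_2, Hs.mul_3,
      (Finset.mem_filter.1 ha).2, Pi.zero_apply, Pi.add_apply, zero_mul, Finset.sum_const_zero,
      add_zero, mul_add, Finset.sum_add_distrib, sgn_add]
    ring
  · beta_reduce
    have h2 : (2 : AlgebraicClosure k) = 0 := CharTwo.two_eq_zero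
    split_ifs with h1
    · have h1' : ∀ i, h.1 i = 0 := fun i => congrFun h1 i
      simp only [h1', cz_zero, zero_mul, Finset.sum_const_zero, add_zero] at hz'
      refine (Finset.sum_bij (fun (ε : Fin ρ → ZMod 2) _ i => θ i + cz _ (ε i)) (fun ε _ => ?_)
        (fun ε _ ε' _ hε => _root_.funext fun i => ?_) (fun x hx => ?_) fun ε _ => ?_).symm
      · have h3 : ∀ i, (θ i + cz _ (ε i)) ^ 2 + (θ i + cz _ (ε i)) = θ i ^ 2 + θ i := fun i => by
          rcases zmod_cases (ε i) with e | e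
          · rw [e, cz_zero, add_zero]
          · rw [e, cz_one]
            linear_combination (θ i + 1) * h2
        exact Finset.mem_filter.2 ⟨Fintype.mem_piFinset.2 fun i =>
          (mem_fixF_iff_of_quad hm (hθ' i) (h3 i)).2 (h1' i), ha, fun i => (h3 i).trans (hθ i)⟩
      · have h3 := add_left_cancel (congrFun hε i)
        rw [← CharTwo.add_eq_zero, ← cz_add] at h3
        exact CharTwo.add_eq_zero.1 (cz_eq_zero h3)
      · choose ε hε using fun i => exists_cz (μ := 1) (δ := x i - θ i) (by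
          linear_combination (Finset.mem_filter.1 hx).2.2 i - hθ i + (θ i ^ 2 - x i * θ i) * h2)
        exact ⟨ε, Finset.mem_univ _, _root_.funext fun i => by linear_combination -hε i⟩
      · rw [chiN, ← map_pow, hg, sg_shift hm hη hz hη' hz']
    · refine Finset.sum_eq_zero fun x hx => absurd (_root_.funext fun i => ?_) h1
      rw [Finset.mem_filter, Fintype.mem_piFinset] at hx
      exact (mem_fixF_iff_of_quad hm (hθ' i) ((hx.2.2 i).trans (hθ i).symm)).1 (hx.1 i)
  · rw [← hγ m hm, sumH, Finset.sum_filter, Finset.sum_product]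
    simp only [Finset.sum_filter]

end Rh

theorem rhH : RhH := Rh.main

end Pool.Agent.Lib.MP_a3f657_nt.Two.Win
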