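import Pool.Agent.Lib.MP_a3f657_nt.WDefs
import Pool.Agent.Lib.MP_a3f657_nt.C2SfFourier

/-!
Cancellation for one pair of tuples.
-/

set_option linter.unusedSectionVars false

namespace Pool.Agent.Lib.MP_a3f657_nt.Two.Win

open Polynomial UniqueFactorizationMonoid

open scoped Classical

namespace Tup

variable {k : Type} [Field k] [Fintype k] [CharP k 2] {ρ : ℕ}

lemma gH_eq {M p : k[X]} (hp : GoodP M p) (x y : Fin ρ → k[X]) :
    gH M (fun i => x i * M) (fun i => y i * M) p = (∏ i, gR (ι (x i)) (ι (y i)) p : ℝ) := by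
  have h0 : ι M ≠ 0 := ι_ne fun e => hp.2.2 (e ▸ dvd_zero _)
  have e : {c : Fin ρ → k[X] | ∀ i, (c i).degree < p.degree ∧ p ∣ M * (c i ^ 2 + c i) + x i * M}
      = Fintype.piFinset fun i => Rt p (ι (x i)) := by
    obtain ⟨v, h1, rfl⟩ := plc_eq hp.1 hp.2.1
    ext c
    rw [Finset.mem_coe, Fintype.mem_piFinset, Set.mem_ofPred_eq]
    refine forall_congr' fun i => ?_
    rw [mem_Rt, h1, ← ι_mem_one,
      show ι (M * (c i ^ 2 + c i) + x i * M) = (ι (x i) + wp (ι (c i))) * ι M by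
        simp only [ι, wp, map_add, map_mul, map_pow]
        ring]
    exact and_congr_right fun _ => ⟨fun h => Fil.of_mul h h0 (by rw [ord_ι_unit hp.2.2]; rfl),
      fun h => Fil.mul h (ι_int v M) (by omega)⟩
  rw [gH, e, finsum_mem_coe_finset]
  simp only [gR]
  rw [Finset.prod_univ_sum, Complex.ofReal_sum]
  refine Finset.sum_congr rfl fun c _ => ?_
  rw [sgP_eq_sr hp, ← sr_sum, ← map_sum]
  congr 3
  simp only [ι, map_sum, map_mul] at h0 ⊢
  rw [Finset.sum_div]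
  exact Finset.sum_congr rfl fun i _ => by rw [← mul_assoc, mul_div_cancel_right₀ _ h0]

lemma Rt_nonempty {p : k[X]} (h1 : p.Monic) (h2 : Irreducible p) {x : k[X]}
    (h : tp p (ι x) = 0) : (Rt p (ι x)).Nonempty := by
  obtain ⟨v, h3, rfl⟩ := plc_eq h1 h2
  rw [tp, h3, (pl (some v)).tau_eq_zero (ι_int v x), PreLoc.mem_PW] at h
  obtain ⟨z, hz⟩ := h
  have h4 : wp z ∈ Fil (val (some v)) 0 := by
    simpa [← add_assoc, two_K] using add_mem (ι_int v x) (Fil.mono hz (b := 0) (by omega))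
  obtain ⟨c, h5, h6⟩ := exists_rep v (Fil.of_wp h4 (by omega) le_rfl)
  refine ⟨c, mem_Rt.2 ⟨h5, ?_⟩⟩
  rw [h3, show ι x + wp (ι c) = ι x + wp z + wp (z + ι c) by rw [wp_add]; grind]
  exact add_mem hz (Fil.wp h6 le_rfl (by omega))

lemma gR_eq {p : k[X]} (h1 : p.Monic) (h2 : Irreducible p) (x y : k[X]) :
    gR (ι x) (ι y) p = if tp p (ι x) = 0 ∧ tp p (ι y) = 0 then
      2 * sr (tp p (ι (rt p x) * ι y)) else 0 := by
  rcases Rt_cases h1 h2 (ι x) with h | ⟨h, c, h4, h5⟩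
  · rw [gR, h, Finset.sum_empty, if_neg fun e => (Rt_nonempty h1 h2 e.1).ne_empty h]
  · have h6 : (Rt p (ι x)).Nonempty := Rt_nonempty h1 h2 h
    have h7 : rt p x ∈ Rt p (ι x) := by
      rw [rt, dif_pos h6]
      exact h6.choose_spec
    have h8 : tp p (ι (c + 1) * ι y) = tp p (ι c * ι y) + tp p (ι y) := by
      rw [ι, map_add, map_one, add_mul, map_add, one_mul]
    rw [gR, h5, Finset.sum_pair h4, h8]
    rw [h5, Finset.mem_insert, Finset.mem_singleton] at h7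
    rcases z2_cases (tp p (ι y)) with h9 | h9
    · rw [if_pos ⟨h, h9⟩]
      rcases h7 with e | e
      · rw [e, h9, add_zero]; ring
      · rw [e, h8, h9, add_zero]; ring
    · rw [if_neg fun e => one_ne_zero (h9.symm.trans e.2), h9, sr_add, sr_one]
      ring

lemma prod_gR {p : k[X]} (h1 : p.Monic) (h2 : Irreducible p) (x y : Fin ρ → k[X]) :
    ∏ i, gR (ι (x i)) (ι (y i)) p = if ∀ i, tp p (ι (x i)) = 0 ∧ tp p (ι (y i)) = 0 then
      2 ^ ρ * sr (∑ i, tp p (ι (rt p (x i)) * ι (y i))) else 0 := by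
  simp only [gR_eq h1 h2]
  rw [Fintype.prod_ite_zero, Finset.prod_mul_distrib, sr_sum]
  simp

lemma SF_congr {M : k[X]} {h h' : k[X] → ℂ} (H : ∀ p, GoodP M p → h p = h' p) (n : ℕ) :
    SF M h n = SF M h' n := by
  refine finsum_mem_congr rfl fun f hf => ?_
  refine if_congr Iff.rfl (Finset.prod_congr rfl fun p hp => H p ?_) rfl
  obtain ⟨h1, h2, h3⟩ := (Polynomial.mem_normalizedFactors_iff hf.1.ne_zero).1
    (Multiset.mem_toFinset.1 hp)
  exact ⟨h2, h1, fun e => h1.not_isUnit (hf.2.2.isUnit_of_dvd' h3 e)⟩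

lemma mem_pr {b p : k[X]} (hb : b ≠ 0) (hp : p ∈ pr b) : p.Monic ∧ Irreducible p := by
  obtain ⟨h1, h2, -⟩ := (Polynomial.mem_normalizedFactors_iff hb).1 (Multiset.mem_toFinset.1 hp)
  exact ⟨h2, h1⟩

lemma mem_VV {a b h : k[X]} : h ∈ VV a b ↔ h ∈ WW a b ∧ ∀ p ∈ pr b, tp p (ι h) = 0 := by
  simp [VV, AddSubgroup.mem_iInf]

lemma mem_Om {n : ℕ} {b : k[X]} : b ∈ Om k n ↔ Squarefree b ∧ b.natDegree = n := by
  simp only [Om, Finset.mem_filter, Set.Finite.mem_toFinset, Set.mem_ofPred_eq]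
  exact ⟨fun h => h.2, fun h => ⟨h.2.le, h⟩⟩

lemma notWp (h : RedP) {M r : k[X]} (hM : M ≠ 0) (h1 : r ∈ Red k) (h2 : r ≠ 0) :
    NotWp M (r * M) := fun c hc => by
  rw [map_mul, mul_div_cancel_right₀ _ (ι_ne hM)] at hc
  exact h2 ((h k).2 r h1 (by rw [ι, ← hc]; exact (pl none).wp_mem_PW c))

lemma forall_mem_iff {G : Type} [AddCommGroup G] {s : ℕ} (v v' : Fin s → G) (V : AddSubgroup G) :
    (∀ i, v i ∈ V ∧ v' i ∈ V) ↔ AddSubgroup.closure (Set.range v ∪ Set.range v') ≤ V := by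
  rw [AddSubgroup.closure_le, Set.union_subset_iff, Set.range_subset_iff, Set.range_subset_iff,
    forall_and]
  rfl

/-- The local weight. -/
noncomputable def hR (s j : ℕ) (x y : Fin ρ → k[X]) (p : k[X]) : ℝ :=
  (-1) ^ j * 2 ^ s / 2 ^ ρ * ∏ i, gR (ι (x i)) (ι (y i)) p

/-- The weight at infinity. -/
noncomputable def phR (s j : ℕ) (a : k[X]) (x y : Fin ρ → k[X]) (b : k[X]) : ℝ :=
  if ∀ i, x i ∈ WW a b ∧ y i ∈ WW a b then (-1) ^ ((Nat.log 2 (Nat.card (WW a b)) + 1) * j) *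
    ((Nat.card (WW a b) : ℝ)⁻¹ ^ s * sr (∑ i, cW a b (x i) (y i))) else 0

lemma hR_eq {p : k[X]} (h1 : p.Monic) (h2 : Irreducible p) (s j : ℕ) (x y : Fin ρ → k[X]) :
    hR s j x y p = if ∀ i, tp p (ι (x i)) = 0 ∧ tp p (ι (y i)) = 0 then
      (-1) ^ j * 2 ^ s * sr (∑ i, tp p (ι (rt p (x i)) * ι (y i))) else 0 := by
  rw [hR, prod_gR h1 h2]
  split_ifs
  · field_simp
  · rw [mul_zero]

lemma abs_hR {p : k[X]} (h1 : p.Monic) (h2 : Irreducible p) (s j : ℕ) (x y : Fin ρ → k[X]) :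
    |hR s j x y p| ≤ 2 ^ s := by
  rw [hR_eq h1 h2]
  split_ifs
  · simp [abs_mul, abs_sr]
  · simp

lemma abs_phR (s j : ℕ) (a : k[X]) (x y : Fin ρ → k[X]) (b : k[X]) : |phR s j a x y b| ≤ 1 := by
  rw [phR]
  split_ifs
  · rw [abs_mul, abs_mul, abs_sr, abs_neg_one_pow, one_mul, mul_one, abs_of_nonneg (by positivity)]
    exact pow_le_one₀ (by positivity) (Nat.cast_inv_le_one _)
  · simp

lemma term_eq {s j : ℕ} {a b : k[X]} (hb : b ≠ 0) (x y : Fin ρ → k[X]) :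
    (if ∀ i, x i ∈ VV a b ∧ y i ∈ VV a b then sgW a b ^ j *
      ((2 ^ (pr b).card / Nat.card (WW a b) : ℝ) ^ s * sr (∑ i, BB a b (x i) (y i))) else 0)
      = phR s j a x y b * ∏ p ∈ pr b, hR s j x y p := by
  rw [Finset.prod_congr rfl fun p hp => hR_eq (mem_pr hb hp).1 (mem_pr hb hp).2 s j x y,
    Finset.prod_ite_zero, phR]
  by_cases h1 : ∀ i, x i ∈ WW a b ∧ y i ∈ WW a b
  · by_cases h2 : ∀ p ∈ pr b, ∀ i, tp p (ι (x i)) = 0 ∧ tp p (ι (y i)) = 0
    · rw [if_pos h1, if_pos h2, if_pos fun i => ⟨mem_VV.2 ⟨(h1 i).1, fun p hp => (h2 p hp i).1⟩,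
        mem_VV.2 ⟨(h1 i).2, fun p hp => (h2 p hp i).2⟩⟩]
      simp only [BB]
      rw [Finset.sum_add_distrib, sr_add, Finset.sum_comm, sr_sum (pr b), Finset.prod_mul_distrib,
        Finset.prod_const, sgW, div_eq_mul_inv]
      simp only [mul_pow, ← pow_mul]
      rw [mul_comm j (pr b).card, mul_comm s (pr b).card]
      ring
    · rw [if_neg h2, mul_zero, if_neg fun h => h2 fun p hp i =>
        ⟨(mem_VV.1 (h i).1).2 p hp, (mem_VV.1 (h i).2).2 p hp⟩]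
  · rw [if_neg h1, zero_mul, if_neg fun h => h1 fun i =>
      ⟨(mem_VV.1 (h i).1).1, (mem_VV.1 (h i).2).1⟩]

lemma phR_congr (h : LocB) {s j n : ℕ} {a b b' : k[X]} (hd : Dg a n) (hb : b.natDegree = n)
    (hb' : b'.natDegree = n) (e : tc (n - a.natDegree + 1) b = tc (n - a.natDegree + 1) b')
    {x y : Fin ρ → k[X]} (hy : ∀ i, (y i).natDegree ≤ n - 2 * a.natDegree) :
    phR s j a x y b = phR s j a x y b' := by
  rw [tc, tc, AdjoinRoot.mk_eq_mk, reverse_congr hb hb',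
    show n + 1 - (n - a.natDegree + 1) = a.natDegree by have := hd.2.2.1; omega] at e
  obtain ⟨h1, h2⟩ := h k a b b' (hb ▸ hd) e
  rw [phR, phR, ← h1]
  split_ifs with h3
  · rw [Finset.sum_congr rfl fun i _ => h2 _ (h3 i).1 _ (h3 i).2 (hb ▸ hy i)]
  · rfl

end Tup

open Tup in
theorem tupB (h1 : AnH) (h2 : CellSum) (h3 : NormF) (h4 : LocA) (h5 : LocB) (h6 : RedP)
    (h7 : Arith) : TupB := by
  intro k _ _ _ s θ hθ
  obtain ⟨T, C, hC, H⟩ := h1 k θ hθ (2 * s) (2 ^ s)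
  set d := (PiT k T).natDegree with hd
  set q : ℝ := √(Fintype.card k) with hq
  have hq1 : 1 ≤ q := by
    rw [hq, Real.one_le_sqrt]
    exact_mod_cast Fintype.card_pos
  refine ⟨Fintype.card k * (2 * 2 ^ s) ^ (irrLe k T).card * q ^ (d + 1) * (C * θ ^ (2 * d + 1)),
    by positivity, fun a n hD j v v' hv hv' => ?_⟩
  rcases ((Om k n).filter fun b => ∀ i, v i ∈ VV a b ∧ v' i ∈ VV a b).eq_empty_or_nonempty with
    h0 | ⟨b₀, hb₀⟩
  · rw [h0, Finset.sum_empty, abs_zero]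
    positivity
  obtain ⟨hb₀, hv₀⟩ := Finset.mem_filter.1 hb₀
  obtain ⟨-, hn₀⟩ := mem_Om.1 hb₀
  have hcl : AddSubgroup.closure (Set.range v ∪ Set.range v') ≤ WW a b₀ :=
    ((forall_mem_iff v v' _).1 hv₀).trans inf_le_left
  obtain ⟨a₀, -, ha₀, hA⟩ := h4 k a
  obtain ⟨hA1, hA2⟩ := hA b₀ (hn₀ ▸ hD)
  rw [hn₀] at hA1 hA2
  have hU : ∀ x : k[X], x ∈ (degreeLE k (n - 2 * a.natDegree : ℕ)).toAddSubgroup ↔
      x.natDegree ≤ n - 2 * a.natDegree := fun x => by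
    rw [Submodule.mem_toAddSubgroup, mem_degreeLE, natDegree_le_iff_degree_le]
  obtain ⟨ρ, x, y, i₀, hρ, hx, hy, hxy, hcl', hB⟩ := h3 k[X] CharTwo.add_self_eq_zero
    (degreeLE k (n - 2 * a.natDegree : ℕ)).toAddSubgroup s v v' hv hv' fun x hx y hy e1 e2 => by
      rw [hU] at e1 e2 ⊢
      exact hA2 x (hcl hx) y (hcl hy) (not_le.1 e1) (not_le.1 e2)
  have hW : ∀ i, x i ∈ WW a b₀ ∧ y i ∈ WW a b₀ := (forall_mem_iff x y _).2 (hcl' ▸ hcl)
  have hdeg : ∀ h ∈ WW a b₀, h.natDegree ≤ a.natDegree := fun h hh => by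
    obtain ⟨-, -, e1, e2⟩ := hD
    rcases hA1 h hh with e | e
    · omega
    · have := natDegree_add_le (h + a₀) a₀
      rw [add_assoc, CharTwo.add_self_eq_zero, add_zero] at this
      omega
  have hM : PiT k T ≠ 0 := Finset.prod_ne_zero_iff.2 fun _ hp => (mem_irrLe.1 hp).2.2.ne_zero
  have hn : 0 < n := hD.2.1.pos
  have key := h2 k T (n - a.natDegree + 1) n (fun p => hR s j x y p) (fun b => phR s j a x y b)
    (C * q ^ n * θ ^ (2 * n + (2 * d + 1))) (2 ^ s) (one_le_pow₀ one_le_two)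
    (fun p e1 e2 => by rw [Complex.norm_real, Real.norm_eq_abs]; exact abs_hR e1 e2 s j x y)
    (fun χ m hm => ?_) (fun b => by rw [Complex.norm_real, Real.norm_eq_abs]; exact abs_phR ..)
    fun b hb b' hb' e => by
      rw [phR_congr h5 hD (mem_Om.1 hb).2 (mem_Om.1 hb').2 e fun i => (hU _).1 (hy i)]
  · simp only [← Complex.ofReal_prod, ← Complex.ofReal_mul, ← Complex.ofReal_sum,
      Complex.norm_real, Real.norm_eq_abs] at key
    rw [Finset.sum_filter, Finset.sum_congr rfl fun b hb => show _ = phR s j a x y b *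
      ∏ p ∈ pr b, hR s j x y p from ?_]
    · refine key.trans (le_of_eq ?_)
      rw [← hd, ← hq]
      ring
    · obtain ⟨e1, e2⟩ := mem_Om.1 hb
      rw [← term_eq e1.ne_zero]
      have e3 : (∀ i, v i ∈ VV a b ∧ v' i ∈ VV a b) ↔ ∀ i, x i ∈ VV a b ∧ y i ∈ VV a b := by
        rw [forall_mem_iff, forall_mem_iff, hcl']
      by_cases e4 : ∀ i, v i ∈ VV a b ∧ v' i ∈ VV a b
      · rw [if_pos e4, if_pos (e3.1 e4), hB _ _ (h7 k a b e1 (e2 ▸ hn)).2.1 e4]
      · rw [if_neg e4, if_neg (mt e3.2 e4)]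
  · have hred : ∀ t : Finset (Fin ρ), ∑ i ∈ t, x i ∈ Red k := fun t =>
      sum_mem fun i _ => (hW i).1.1
    have := H ρ hρ (PiT k T) (fun i => x i * PiT k T) (fun i => y i * PiT k T) i₀
      (n - a.natDegree + 1) (d + a.natDegree) m χ ((-1) ^ j * 2 ^ s / 2 ^ ρ) hM
      (fun p e1 e2 e3 => Finset.dvd_prod_of_mem _ (mem_irrLe.2 ⟨e3, e1, e2⟩))
      (fun t ht => by
        rw [← Finset.sum_mul]
        exact notWp h6 hM (hred t) (hx t ht))
      (fun t => by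
        rw [← Finset.sum_mul, ← add_mul]
        exact notWp h6 hM (add_mem (hW i₀).2.1 (hred t)) (hxy t))
      (fun i => ⟨natDegree_mul_le.trans (by have := hdeg _ (hW i).1; omega),
        natDegree_mul_le.trans (by have := hdeg _ (hW i).2; omega)⟩)
      (by simp)
    rw [SF_congr (h' := fun p => χ (clM (PiT k T) (n - a.natDegree + 1) p) * hR s j x y p)
      fun p hp => by rw [gH_eq hp, hR]; push_cast; ring] at this
    refine this.trans ?_
    have := hD.2.2.1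
    exact mul_le_mul (mul_le_mul_of_nonneg_left (pow_le_pow_right₀ hq1 hm) hC)
      (pow_le_pow_right₀ hθ.le (by omega)) (by positivity) (by positivity)

end Pool.Agent.Lib.MP_a3f657_nt.Two.Win
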