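import Pool.Agent.Lib.MP_a3f657_nt.WAsm
import Pool.Agent.Lib.MP_a3f657_nt.WLMain
import Pool.Agent.Lib.MP_a3f657_nt.WRhMain
import Pool.Agent.Lib.MP_a3f657_nt.WAnA
import Pool.Agent.Lib.MP_a3f657_nt.WAnB
import Pool.Agent.Lib.MP_a3f657_nt.WCell
import Pool.Agent.Lib.MP_a3f657_nt.WCnt
import Pool.Agent.Lib.MP_a3f657_nt.WMom
import Pool.Agent.Lib.MP_a3f657_nt.WNorm
import Pool.Agent.Lib.MP_a3f657_nt.WLawA
import Pool.Agent.Lib.MP_a3f657_nt.WRed
import Pool.Agent.Lib.MP_a3f657_nt.WLocB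
import Pool.Agent.Lib.MP_a3f657_nt.WLocC
import Pool.Agent.Lib.MP_a3f657_nt.WBad
import Pool.Agent.Lib.MP_a3f657_nt.WArith
import Pool.Agent.Lib.MP_a3f657_nt.WTup
import Pool.Agent.Lib.MP_a3f657_nt.C2LpNon
import Pool.Agent.Lib.MP_a3f657_nt.C2LpPrime
import Pool.Agent.Lib.MP_a3f657_nt.C2RhMain
import Pool.Agent.Lib.MP_a3f657_nt.C2SfEuler

/-!
The limit law, without hypotheses.
-/

namespace Pool.Agent.Lib.MP_a3f657_nt.Two.Win

open Polynomial

open scoped Classical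

theorem lawAll (k : Type) [Field k] [Fintype k] [CharP k 2] (r : ℕ) (ε : ℝ) (hε : 0 < ε) :
    ∃ M : ℕ, ∀ (a : k[X]) (n : ℕ), Wn M a n →
      |(((Om k n).filter fun b => selOrder (EE a b) = 2 ^ r).card : ℝ) / (Om k n).card - PR r| ≤
        ε :=
  have hP := primeP euler rhP
  lawW (arith redP) momId (locC redP) cnt badC
    (errP (tupB (anH (primeH euler rhH) (splitH hP nonDeg) sfB) cellSum normF (locA redP)
      (locB (locA redP)) redP (arith redP)) (locA redP) (arith redP))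
    (muP (muB hP) cellSum (locB (locA redP))) (law lawA) k r ε hε

end Pool.Agent.Lib.MP_a3f657_nt.Two.Win
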