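import Pool.Agent.Lib.MP_a3f657_nt.C2RhDefs

/-!
Sums over squarefree polynomials in characteristic two (definitions and statements).
-/

namespace Pool.Agent.Lib.MP_a3f657_nt.Two

open Polynomial

open scoped Classical

variable {k : Type} [Field k]

/-- `p` is a monic irreducible polynomial that does not divide `M`. -/
def GoodP (M p : k[X]) : Prop := p.Monic ∧ Irreducible p ∧ ¬ p ∣ M

/-- Every monic irreducible polynomial of degree at most `T` divides `M`. -/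
def SmallDvd (T : ℕ) (M : k[X]) : Prop :=
  ∀ p : k[X], p.Monic → Irreducible p → p.natDegree ≤ T → p ∣ M

/-- The multiplicative weight attached to `h`, supported on squarefree polynomials. -/
noncomputable def sfw (h : k[X] → ℂ) (f : k[X]) : ℂ :=
  if Squarefree f then ∏ p ∈ (UniqueFactorizationMonoid.normalizedFactors f).toFinset, h p else 0

/-- `1` if `z ^ 2 + z = n / M` is solvable modulo `p`, and `-1` otherwise. -/
noncomputable def sgP (p M n : k[X]) : ℂ :=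
  if ∃ z : k[X], p ∣ M * (z ^ 2 + z) + n then 1 else -1

/-- The sum over the roots `c` of `c ^ 2 + c = n₁ / M` modulo `p` of the sign of `c n₂ / M`. -/
noncomputable def gK (M n₁ n₂ p : k[X]) : ℂ :=
  ∑ᶠ c ∈ {c : k[X] | c.degree < p.degree ∧ p ∣ M * (c ^ 2 + c) + n₁}, sgP p M (c * n₂)

/-- The ring that records a residue class modulo `M` and the top `K` coefficients. -/
abbrev RM (M : k[X]) (K : ℕ) : Type := AdjoinRoot M × AdjoinRoot (X ^ K : k[X])

/-- The class of `f` in that ring. -/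
noncomputable def clM (M : k[X]) (K : ℕ) (f : k[X]) : RM M K :=
  (AdjoinRoot.mk M f, AdjoinRoot.mk (X ^ K) f.reverse)

/-- Sum over the primes of degree `m`. -/
noncomputable def PS (M : k[X]) (h : k[X] → ℂ) (m : ℕ) : ℂ :=
  m * ∑ᶠ p ∈ {p : k[X] | GoodP M p ∧ p.natDegree = m}, h p

/-- Sum over the squarefree monic polynomials of degree `n` prime to `M`. -/
noncomputable def SF (M : k[X]) (h : k[X] → ℂ) (n : ℕ) : ℂ :=
  ∑ᶠ f ∈ {f : k[X] | f.Monic ∧ f.natDegree = n ∧ IsCoprime f M}, sfw h f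

/-- `n / M` is not of the form `c ^ 2 + c` with `c` in `k(t)`. -/
def NotWp (M n : k[X]) : Prop :=
  ∀ c : RatFunc k, c ^ 2 + c ≠ algebraMap k[X] (RatFunc k) n / algebraMap k[X] (RatFunc k) M

/-- The family `f₀ + W` is a coset of a subgroup of the units of `RM M K`. -/
structure Fam (M : k[X]) (K n : ℕ) (f₀ : k[X]) (W : AddSubgroup k[X]) : Prop where
  M0 : M ≠ 0
  K1 : 1 ≤ K
  mon : f₀.Monic
  deg : f₀.natDegree = n
  cop : IsCoprime f₀ M
  low : ∀ w ∈ W, w.degree < (n + 1 - K : ℕ)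
  mul : ∀ y : k[X], (M * y).degree < (n + 1 - K : ℕ) → M * y ∈ W
  sq : ∀ w₁ ∈ W, ∀ w₂ ∈ W, M ∣ w₁ * w₂

/-- If the Euler product is a polynomial, the prime power sums are power sums of its roots. -/
def Euler : Prop :=
  ∀ (ι : Type) (deg : ι → ℕ) (Ψ : ι → ℂ) (Y : ℕ), (∀ i, 0 < deg i) →
    (∀ n, {i | deg i = n}.Finite) →
    (∀ n, Y < n → ∑ᶠ D ∈ {D : ι →₀ ℕ | (D.sum fun i e => e * deg i) = n},
      (D.prod fun i e => Ψ i ^ e) = 0) →
    ∃ γ : Multiset ℂ, γ.card ≤ Y ∧ ∀ m, 1 ≤ m →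
      ∑ᶠ i ∈ {i | deg i ∣ m}, (deg i : ℂ) * Ψ i ^ (m / deg i) = -(γ.map (· ^ m)).sum

/-- Prime sums on the line: a degree character, or square root cancellation. -/
def PrimeP : Prop :=
  ∀ (k : Type) [Field k] [Fintype k] [CharP k 2], ∃ c : ℝ, ∀ (M n₂ : k[X]) (K : ℕ)
    (χ : MulChar (RM M K) ℂ), M ≠ 0 →
    (∃ z : ℂ, ‖z‖ = 1 ∧ ∀ p, GoodP M p → χ (clM M K p) * sgP p M n₂ = z ^ p.natDegree) ∨
    ∀ m, 1 ≤ m → ‖PS M (fun p => χ (clM M K p) * sgP p M n₂) m‖ ≤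
      c * (M.natDegree + K + n₂.natDegree + 1) * √(Fintype.card k) ^ m

/-- A function that is an Artin-Schreier value at almost all primes is a global one. -/
def NonDeg : Prop :=
  ∀ (k : Type) [Field k] [Fintype k] [CharP k 2] (M n : k[X]), M ≠ 0 → NotWp M n →
    ∃ p, GoodP M p ∧ sgP p M n = -1

/-- Prime sums on the curve `θ ^ 2 + θ = n₁ / M`. -/
def PrimeK : Prop :=
  ∀ (k : Type) [Field k] [Fintype k] [CharP k 2], ∃ c : ℝ, ∀ (M n₁ n₂ : k[X]) (K : ℕ)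
    (χ : MulChar (RM M K) ℂ), M ≠ 0 → NotWp M n₁ →
    (∃ p, GoodP M p ∧ sgP p M n₁ = 1 ∧ sgP p M n₂ = -1) →
    ∀ m, 1 ≤ m → ‖PS M (fun p => χ (clM M K p) * gK M n₁ n₂ p) m‖ ≤
      c * (M.natDegree + K + n₁.natDegree + n₂.natDegree + 1) * √(Fintype.card k) ^ m

/-- Cancellation of the Moebius function in a family. -/
def AnMu : Prop :=
  ∀ (k : Type) [Field k] [Fintype k] [CharP k 2] (θ : ℝ), 1 < θ → ∃ (T : ℕ) (C : ℝ),
    ∀ (M : k[X]) (K n : ℕ) (f₀ : k[X]) (W : AddSubgroup k[X]), SmallDvd T M → Fam M K n f₀ W →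
      ‖∑ᶠ w ∈ (W : Set k[X]), sfw (fun _ => -1) (f₀ + w)‖ ≤
        C * √(Fintype.card k) ^ n * θ ^ (n + M.natDegree + K)

/-- Cancellation of an Artin-Schreier character. -/
def AnJ : Prop :=
  ∀ (k : Type) [Field k] [Fintype k] [CharP k 2] (θ : ℝ), 1 < θ → ∃ (T : ℕ) (C : ℝ),
    ∀ (M n₂ : k[X]) (n : ℕ), M ≠ 0 → SmallDvd T M → (∀ δ : k, NotWp M (n₂ + Polynomial.C δ * M)) →
      ‖SF M (fun p => sgP p M n₂) n‖ ≤
        C * √(Fintype.card k) ^ n * θ ^ (n + M.natDegree + n₂.natDegree)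

/-- Cancellation of the weights `gK` in a family. -/
def AnK : Prop :=
  ∀ (k : Type) [Field k] [Fintype k] [CharP k 2] (θ : ℝ), 1 < θ → ∃ (T : ℕ) (C : ℝ),
    ∀ (M n₁ n₂ : k[X]) (K n : ℕ) (f₀ : k[X]) (W : AddSubgroup k[X]) (ε : ℂ),
      SmallDvd T M → Fam M K n f₀ W → (ε = 1 ∨ ε = -1) →
      NotWp M n₁ → NotWp M n₂ → NotWp M (n₁ + n₂) →
      ‖∑ᶠ w ∈ (W : Set k[X]), sfw (fun p => ε * gK M n₁ n₂ p) (f₀ + w)‖ ≤
        C * √(Fintype.card k) ^ n * θ ^ (n + M.natDegree + K + n₁.natDegree + n₂.natDegree)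

end Pool.Agent.Lib.MP_a3f657_nt.Two
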