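import Pool.Agent.Lib.MP_a3f657_nt.C2BadDefs

/-!
Counting polynomials in residue classes.
-/

namespace Pool.Agent.Lib.MP_a3f657_nt.Two.Bad

open Polynomial

open scoped Classical

variable {k : Type} [Field k] [Fintype k]

lemma ncard_PL (n : ℕ) : {f : k[X] | f.degree < n}.ncard = Fintype.card k ^ n := by
  have : {f : k[X] | f.degree < n} = (Polynomial.degreeLT k n : Set k[X]) := by
    ext p
    simp only [Set.mem_ofPred_eq, SetLike.mem_coe, Polynomial.mem_degreeLT]
  rw [this, ← Nat.card_coe_set_eq, SetLike.coe_sort_coe,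
    Nat.card_congr (Polynomial.degreeLTEquiv k n).toEquiv]
  simp

lemma finite_PL (n : ℕ) : {f : k[X] | f.degree < n}.Finite :=
  Set.finite_of_ncard_pos (by rw [ncard_PL]; positivity)

/-- Polynomials of degree less than `n`. -/
noncomputable def PL (k : Type) [Field k] [Fintype k] (n : ℕ) : Finset k[X] :=
  (finite_PL (k := k) n).toFinset

lemma mem_PL {n : ℕ} {f : k[X]} : f ∈ PL k n ↔ f.degree < n := by simp [PL]

lemma card_PL (n : ℕ) : (PL k n).card = Fintype.card k ^ n := by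
  rw [← ncard_PL, PL, Set.ncard_eq_toFinset_card _ (finite_PL n)]

lemma mem_PL_succ {n : ℕ} {f : k[X]} : f ∈ PL k (n + 1) ↔ f.natDegree ≤ n := by
  rw [mem_PL]
  by_cases hp : f = 0
  · simp [hp]
  · rw [Polynomial.degree_eq_natDegree hp, Nat.cast_lt, Nat.lt_succ_iff]

lemma mem_PL_iff {n : ℕ} {f : k[X]} : f ∈ PL k n ↔ f = 0 ∨ f.natDegree < n := by
  rw [mem_PL]
  by_cases hp : f = 0
  · simp [hp]
  · rw [Polynomial.degree_eq_natDegree hp, Nat.cast_lt]
    simp [hp]

lemma sub_mem_PL {n : ℕ} {f g : k[X]} (hf : f ∈ PL k n) (hg : g ∈ PL k n) : f - g ∈ PL k n := by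
  rw [mem_PL] at *
  exact (degree_sub_le _ _).trans_lt (max_lt hf hg)

lemma card_le_of_sub (S : Finset k[X]) (m : k[X]) (n : ℕ)
    (h : ∀ f ∈ S, ∀ g ∈ S, ∃ e ∈ PL k n, f - g = m * e) : S.card ≤ Fintype.card k ^ n := by
  rcases S.eq_empty_or_nonempty with rfl | ⟨g, hg⟩
  · simp
  · rw [← card_PL (k := k) n]
    refine le_trans (Finset.card_le_card (t := (PL k n).image fun e => g + m * e) fun f hf => ?_)
      Finset.card_image_le
    obtain ⟨e, he, h1⟩ := h f hf g hg
    exact Finset.mem_image.2 ⟨e, he, by rw [← h1]; ring⟩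

lemma card_cong (S : Finset k[X]) {m : k[X]} (hm : m ≠ 0) {n : ℕ} (hS : S ⊆ PL k n)
    (h : ∀ f ∈ S, ∀ g ∈ S, m ∣ f - g) : S.card ≤ Fintype.card k ^ (n - m.natDegree) := by
  refine card_le_of_sub S m _ fun f hf g hg => ?_
  obtain ⟨e, he⟩ := h f hf g hg
  refine ⟨e, ?_, he⟩
  have h1 := mem_PL_iff.1 (sub_mem_PL (hS hf) (hS hg))
  rw [mem_PL_iff]
  by_cases h0 : e = 0
  · exact Or.inl h0
  · rw [he, natDegree_mul hm h0] at h1
    rcases h1 with h1 | h1
    · exact absurd h1 (mul_ne_zero hm h0)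
    · right; omega

lemma two_le_q : (2 : ℝ) ≤ Fintype.card k := by exact_mod_cast Fintype.one_lt_card

lemma q_pos : (0 : ℝ) < Fintype.card k := lt_of_lt_of_le two_pos two_le_q

lemma pow_sub_le {n j i : ℕ} (h1 : i ≤ n) (h2 : i ≤ j) :
    ((Fintype.card k ^ (n - j) : ℕ) : ℝ) ≤ (Fintype.card k : ℝ) ^ n / (Fintype.card k : ℝ) ^ i := by
  rw [le_div_iff₀ (pow_pos q_pos _)]
  push_cast
  rw [← pow_add]
  exact pow_le_pow_right₀ (le_trans one_le_two two_le_q) (by omega)

lemma div_le_two {n i : ℕ} :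
    (Fintype.card k : ℝ) ^ n / (Fintype.card k : ℝ) ^ i ≤ (Fintype.card k : ℝ) ^ n / 2 ^ i :=
  div_le_div_of_nonneg_left (pow_pos q_pos _).le (by positivity)
    (pow_le_pow_left₀ zero_le_two two_le_q _)

/-- At most `c` elements have the property `P`. -/
def Bd {α : Type} (P : α → Prop) (c : ℝ) : Prop :=
  ∀ B : Finset α, (∀ x ∈ B, P x) → (B.card : ℝ) ≤ c

section Bd

variable {α β : Type} {P Q : α → Prop} {c c' : ℝ}

lemma Bd.nonneg (h : Bd P c) : 0 ≤ c := by simpa using h ∅ (by simp)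

lemma Bd.mono (h : Bd Q c) (h' : ∀ x, P x → Q x) : Bd P c :=
  fun B hB => h B fun x hx => h' x (hB x hx)

lemma Bd.le (h : Bd P c) (h' : c ≤ c') : Bd P c' := fun B hB => (h B hB).trans h'

lemma Bd.empty (h : ∀ x, ¬ P x) (h' : 0 ≤ c) : Bd P c := fun B hB => by
  rw [Finset.eq_empty_of_forall_notMem fun x hx => h x (hB x hx)]
  simpa using h'

lemma Bd.or (h : Bd P c) (h' : Bd Q c') : Bd (fun x => P x ∨ Q x) (c + c') := fun B hB => by
  rw [← Finset.card_filter_add_card_filter_not (s := B) P]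
  push_cast
  exact add_le_add (h _ fun x hx => (Finset.mem_filter.1 hx).2) (h' _ fun x hx =>
    (hB x (Finset.mem_filter.1 hx).1).resolve_left (Finset.mem_filter.1 hx).2)

lemma Bd.union (I : Finset β) {R : β → α → Prop} {e : β → ℝ} (h : ∀ i ∈ I, Bd (R i) (e i)) :
    Bd (fun x => ∃ i ∈ I, R i x) (∑ i ∈ I, e i) := fun S hS => by
  have : S ⊆ I.biUnion fun i => S.filter (R i) := fun x hx => by
    obtain ⟨i, hi, h⟩ := hS x hx
    exact Finset.mem_biUnion.2 ⟨i, hi, Finset.mem_filter.2 ⟨hx, h⟩⟩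
  refine le_trans (Nat.cast_le.2 ((Finset.card_le_card this).trans Finset.card_biUnion_le)) ?_
  push_cast
  exact Finset.sum_le_sum fun i hi => h i hi _ fun x hx => (Finset.mem_filter.1 hx).2

lemma Bd.fib {R : α → β → Prop} (h : Bd P c) (h' : ∀ a, P a → Bd (R a) c') (h0 : 0 ≤ c') :
    Bd (fun x : α × β => P x.1 ∧ R x.1 x.2) (c * c') := fun S hS => by
  have h1 : ((S.image Prod.fst).card : ℝ) ≤ c := h _ fun a ha => by
    obtain ⟨x, hx, rfl⟩ := Finset.mem_image.1 ha
    exact (hS x hx).1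
  refine le_trans ?_ (mul_le_mul_of_nonneg_right h1 h0)
  rw [Finset.card_eq_sum_card_image Prod.fst]
  push_cast
  rw [← nsmul_eq_mul]
  refine Finset.sum_le_card_nsmul _ _ _ fun a ha => ?_
  obtain ⟨y, hy, rfl⟩ := Finset.mem_image.1 ha
  rw [← Finset.card_image_of_injOn (f := Prod.snd)]
  · refine h' _ (hS y hy).1 _ fun b hb => ?_
    obtain ⟨x, hx, rfl⟩ := Finset.mem_image.1 hb
    obtain ⟨h3, h4⟩ := Finset.mem_filter.1 hx
    exact h4 ▸ (hS x h3).2
  · intro x hx z hz hxz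
    exact Prod.ext ((Finset.mem_filter.1 hx).2.trans (Finset.mem_filter.1 hz).2.symm) hxz

lemma Bd.image (h : Bd P c) (f : α → β) : Bd (fun y => ∃ x, P x ∧ y = f x) c := fun S hS => by
  choose g hg using hS
  have h1 := h (S.attach.image fun y => g y.1 y.2) fun x hx => by
    obtain ⟨y, -, rfl⟩ := Finset.mem_image.1 hx
    exact (hg _ _).1
  rwa [Finset.card_image_of_injective _ fun y z hyz =>
    Subtype.ext (by rw [(hg _ y.2).2, (hg _ z.2).2]; exact congrArg f hyz), Finset.card_attach] at h1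

lemma Bd.ncard (h : Bd P c) : ({x | P x}.ncard : ℝ) ≤ c := by
  by_cases hf : {x | P x}.Finite
  · rw [Set.ncard_eq_toFinset_card _ hf]
    exact h _ fun x hx => by simpa using hx
  · rw [Set.Infinite.ncard hf]
    simpa using h.nonneg

end Bd

lemma bd_PL (n : ℕ) : Bd (fun f : k[X] => f ∈ PL k n) ((Fintype.card k : ℝ) ^ n) := fun B hB => by
  have := Finset.card_le_card (show B ⊆ PL k n from hB)
  rw [card_PL] at this
  exact_mod_cast this

/-- Elements of one residue class. -/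
lemma bd_cong {P : k[X] → Prop} {m : k[X]} (hm : m ≠ 0) {n i : ℕ} (hS : ∀ f, P f → f ∈ PL k n)
    (h : ∀ f g, P f → P g → m ∣ f - g) (h1 : i ≤ n) (h2 : i ≤ m.natDegree) :
    Bd P ((Fintype.card k : ℝ) ^ n / (Fintype.card k : ℝ) ^ i) := fun B hB =>
  le_trans (Nat.cast_le.2 (card_cong B hm (fun f hf => hS f (hB f hf))
    fun f hf g hg => h f g (hB f hf) (hB g hg))) (pow_sub_le h1 h2)

/-- Elements with the same top coefficients. -/
lemma bd_top {P : k[X] → Prop} {n i : ℕ} (h : ∀ f g, P f → P g → f - g ∈ PL k (n - i))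
    (h1 : i ≤ n) : Bd P ((Fintype.card k : ℝ) ^ n / (Fintype.card k : ℝ) ^ i) := fun B hB =>
  le_trans (Nat.cast_le.2 (card_le_of_sub B 1 _ fun f hf g hg =>
    ⟨_, h f g (hB f hf) (hB g hg), (one_mul _).symm⟩)) (pow_sub_le h1 le_rfl)

/-- Nonzero multiples of `m`. -/
lemma bd_mult {m : k[X]} (hm : m ≠ 0) (n : ℕ) {i : ℕ} (h2 : i ≤ m.natDegree) :
    Bd (fun f => f ∈ PL k n ∧ f ≠ 0 ∧ m ∣ f)
      ((Fintype.card k : ℝ) ^ n / (Fintype.card k : ℝ) ^ i) := by
  by_cases h : i ≤ n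
  · exact bd_cong hm (fun f hf => hf.1) (fun f g hf hg => dvd_sub hf.2.2 hg.2.2) h h2
  · refine Bd.empty ?_ (div_pos (pow_pos q_pos _) (pow_pos q_pos _)).le
    rintro f ⟨hf, h0, h1⟩
    have := natDegree_le_of_dvd h1 h0
    rcases mem_PL_iff.1 hf with h3 | h3
    · exact h0 h3
    · omega

lemma geo (T N : ℕ) : ∑ j ∈ Finset.Ioc T (T + N), (1 : ℝ) / 2 ^ j ≤ 1 / 2 ^ T - 1 / 2 ^ (T + N) := by
  induction N with
  | zero => simp
  | succ N ih =>
    rw [← add_assoc, Finset.sum_Ioc_succ_top (by omega)]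
    have : (1 : ℝ) / 2 ^ (T + N) = 1 / 2 ^ (T + N + 1) + 1 / 2 ^ (T + N + 1) := by
      rw [pow_succ]; field_simp; norm_num
    linarith

/-- The sum of the inverse squares of the norms over polynomials of large degree. -/
lemma sum_large (T n : ℕ) :
    ∑ p ∈ (PL k n).filter (fun p => T < p.natDegree),
      1 / (Fintype.card k : ℝ) ^ (2 * p.natDegree) ≤ (Fintype.card k : ℝ) / 2 ^ T := by
  rw [← Finset.sum_fiberwise_of_maps_to (t := Finset.Ioc T (T + n)) (g := natDegree)]
  · refine le_trans (Finset.sum_le_sum (g := fun j => (Fintype.card k : ℝ) * (1 / 2 ^ j))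
      fun j _ => ?_) ?_
    · rw [Finset.sum_congr rfl (g := fun _ => 1 / (Fintype.card k : ℝ) ^ (2 * j))
        fun p hp => by rw [(Finset.mem_filter.1 hp).2], Finset.sum_const, nsmul_eq_mul]
      have h1 : ((Finset.filter (fun p => p.natDegree = j)
          ((PL k n).filter fun p => T < p.natDegree)).card : ℝ) ≤ (Fintype.card k : ℝ) ^ (j + 1) := by
        have h0 : Finset.filter (fun p => p.natDegree = j)
            ((PL k n).filter fun p => T < p.natDegree) ⊆ PL k (j + 1) := fun p hp =>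
          mem_PL_succ.2 (Finset.mem_filter.1 hp).2.le
        have := Finset.card_le_card h0
        rw [card_PL] at this
        exact_mod_cast this
      have h2 := q_pos (k := k)
      calc _ ≤ (Fintype.card k : ℝ) ^ (j + 1) * (1 / (Fintype.card k : ℝ) ^ (2 * j)) := by gcongr
        _ = (Fintype.card k : ℝ) * (1 / (Fintype.card k : ℝ) ^ j) := by
          rw [two_mul, pow_add, pow_add]; field_simp
        _ ≤ _ := by
          gcongr
          exact two_le_q
    · rw [← Finset.mul_sum, div_eq_mul_one_div _ ((2 : ℝ) ^ T)]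
      have := geo T n
      have h2 : (0 : ℝ) < 1 / 2 ^ (T + n) := by positivity
      exact mul_le_mul_of_nonneg_left (by linarith) q_pos.le
  · intro p hp
    obtain ⟨h1, h2⟩ := Finset.mem_filter.1 hp
    rcases mem_PL_iff.1 h1 with h3 | h3
    · simp [h3] at h2
    · exact Finset.mem_Ioc.2 ⟨h2, by omega⟩

omit [Fintype k] in
/-- A nonzero polynomial has at most `deg` monic prime factors. -/
lemma card_primes (S : Finset k[X]) {D : k[X]} (hD : D ≠ 0)
    (h : ∀ p ∈ S, p.Monic ∧ Irreducible p ∧ p ∣ D) : S.card ≤ D.natDegree := by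
  have h1 : ∏ p ∈ S, p ∣ D := by
    refine Finset.prod_dvd_of_coprime (fun p hp r hr hne => ?_) fun p hp => (h p hp).2.2
    refine (h p hp).2.1.coprime_iff_not_dvd.2 fun h2 => hne ?_
    exact eq_of_monic_of_associated (h p hp).1 (h r hr).1
      ((h p hp).2.1.associated_of_dvd (h r hr).2.1 h2)
  refine le_trans ?_ (natDegree_le_of_dvd h1 hD)
  rw [natDegree_prod _ _ fun p hp => (h p hp).1.ne_zero, Finset.card_eq_sum_ones]
  exact Finset.sum_le_sum fun p hp => (h p hp).2.1.natDegree_pos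

omit [Fintype k] in
lemma pow_dvd_cancel {p a e : k[X]} (hp : Irreducible p) {b m : ℕ} (h1 : ¬ p ^ b ∣ a)
    (h2 : p ^ (m + b) ∣ a * e) : p ^ m ∣ e := by
  have ha : a ≠ 0 := by rintro rfl; exact h1 (dvd_zero _)
  obtain ⟨j, a', h3, rfl⟩ := WfDvdMonoid.max_power_factor ha hp
  have hj : j ≤ b := by
    by_contra h4
    exact h1 ((pow_dvd_pow p (by omega)).mul_right _)
  have h5 : p ^ j * p ^ m ∣ p ^ j * (a' * e) := by
    rw [← pow_add, ← mul_assoc]
    exact (pow_dvd_pow p (by omega)).trans h2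
  exact hp.prime.pow_dvd_of_dvd_mul_left m h3
    ((mul_dvd_mul_iff_left (pow_ne_zero j hp.ne_zero)).1 h5)

/-- Every polynomial is `g ^ 2 + X h ^ 2`. -/
lemma exists_gh [CharP k 2] (n : ℕ) {f : k[X]} (hf : f ∈ PL k (2 * n + 1)) :
    ∃ h ∈ PL k n, ∃ g ∈ PL k (n + 1), f = g ^ 2 + X * h ^ 2 := by
  have h2 := CharTwo.two_eq_zero (R := k[X])
  have key := Finset.surj_on_of_inj_on_of_card_le (s := PL k n ×ˢ PL k (n + 1))
    (t := PL k (2 * n + 1)) (fun x _ => x.2 ^ 2 + X * x.1 ^ 2) ?_ ?_ ?_ f hf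
  · obtain ⟨x, hx, h⟩ := key
    exact ⟨x.1, (Finset.mem_product.1 hx).1, x.2, (Finset.mem_product.1 hx).2, h⟩
  · intro x hx
    obtain ⟨h3, h4⟩ := Finset.mem_product.1 hx
    rw [mem_PL_succ] at h4 ⊢
    refine natDegree_add_le_of_degree_le (natDegree_pow_le.trans (by omega)) ?_
    rcases mem_PL_iff.1 h3 with h5 | h5
    · simp [h5]
    · refine natDegree_mul_le.trans ?_
      have := natDegree_pow_le (p := x.1) (n := 2)
      have := natDegree_X_le (R := k)
      omega
  · intro x y _ _ h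
    have h3 := congrArg derivative h
    have h4 : ∀ f : k[X], derivative (f ^ 2) = 0 := fun f => by
      rw [pow_two, derivative_mul]; linear_combination (derivative f * f) * h2
    simp only [derivative_add, derivative_mul, h4, derivative_X, zero_add, mul_zero, add_zero,
      one_mul] at h3
    have h5 : x.1 = y.1 := by
      have : (x.1 - y.1) ^ 2 = 0 := by linear_combination h3 + (y.1 ^ 2 - x.1 * y.1) * h2
      exact sub_eq_zero.1 (pow_eq_zero_iff two_ne_zero |>.1 this)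
    have h6 : x.2 = y.2 := by
      rw [h5] at h
      have : (x.2 - y.2) ^ 2 = 0 := by linear_combination h + (y.2 ^ 2 - x.2 * y.2) * h2
      exact sub_eq_zero.1 (pow_eq_zero_iff two_ne_zero |>.1 this)
    exact Prod.ext h5 h6
  · rw [Finset.card_product, card_PL, card_PL, card_PL, ← pow_add]
    exact le_of_eq (by congr 1; omega)

end Pool.Agent.Lib.MP_a3f657_nt.Two.Bad
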