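import Pool.Agent.Lib.MP_a3f657_nt.C2BadA

/-!
The two counting estimates for bad Weierstrass tuples.
-/

namespace Pool.Agent.Lib.MP_a3f657_nt.Two.Bad

open Polynomial

open scoped Classical

variable {k : Type} [Field k]

/-- The conditions on `a₁` and `a₃`. -/
def G13 (T m d : ℕ) (a₁ a₃ : k[X]) : Prop :=
  a₁ ≠ 0 ∧ d < a₁.natDegree + m ∧
    (∀ p : k[X], p.Monic → Irreducible p → p.natDegree ≤ T → ¬ p ^ m ∣ a₁) ∧
    ∀ p : k[X], p.Monic → Irreducible p → T < p.natDegree → p ∣ a₁ → ¬ p ∣ a₃ ∧ ¬ p ^ 2 ∣ a₁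

/-- The conditions on the discriminant `Δ` and its derivative `D`. -/
def G6 (T m d : ℕ) (D Δ : k[X]) : Prop :=
  12 * d < D.natDegree + 8 * m ∧
    (∀ p : k[X], p.Monic → Irreducible p → p.natDegree ≤ T → ¬ p ^ (8 * m) ∣ D) ∧
    ∀ p : k[X], p.Monic → Irreducible p → T < p.natDegree → ¬ p ^ 2 ∣ Δ

variable [Fintype k]

lemma bd_small {α : Type} (T : ℕ) {R : k[X] → α → Prop} {c : ℝ} (hc : 0 ≤ c)
    (h : ∀ p, Bd (R p) c) :
    Bd (fun x => ∃ p, p.natDegree ≤ T ∧ R p x) ((Fintype.card k : ℝ) ^ (T + 1) * c) := by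
  refine ((Bd.union (PL k (T + 1)) fun p _ => h p).mono ?_).le ?_
  · rintro x ⟨p, h1, h2⟩
    exact ⟨p, mem_PL_succ.2 h1, h2⟩
  · rw [Finset.sum_const, nsmul_eq_mul]
    exact mul_le_mul_of_nonneg_right (bd_PL _ _ fun p hp => hp) hc

lemma bd_large {α : Type} (T n : ℕ) {R : k[X] → α → Prop} {c : ℝ} (hc : 0 ≤ c)
    (h : ∀ p, p ≠ 0 → p.natDegree ≤ n →
      Bd (R p) (c / (Fintype.card k : ℝ) ^ (2 * p.natDegree))) :
    Bd (fun x => ∃ p, p.natDegree ≤ n ∧ T < p.natDegree ∧ R p x)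
      (c * ((Fintype.card k : ℝ) / 2 ^ T)) := by
  refine ((Bd.union ((PL k (n + 1)).filter fun p => T < p.natDegree) fun p hp =>
    h p ?_ (mem_PL_succ.1 (Finset.mem_filter.1 hp).1)).mono ?_).le ?_
  · rintro rfl
    simp at hp
  · rintro x ⟨p, h1, h2, h3⟩
    exact ⟨p, Finset.mem_filter.2 ⟨mem_PL_succ.2 h1, h2⟩, h3⟩
  · refine le_trans (le_of_eq ?_) (mul_le_mul_of_nonneg_left (sum_large T (n + 1)) hc)
    rw [Finset.mul_sum]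
    exact Finset.sum_congr rfl fun p _ => div_eq_mul_one_div _ _

lemma qp (n : ℕ) : (0 : ℝ) ≤ (Fintype.card k : ℝ) ^ n := (pow_pos q_pos n).le

lemma qd (n i : ℕ) : (0 : ℝ) ≤ (Fintype.card k : ℝ) ^ n / (Fintype.card k : ℝ) ^ i :=
  div_nonneg (qp n) (qp i)

omit [Field k] in
lemma qq (a b j : ℕ) : (Fintype.card k : ℝ) ^ a / (Fintype.card k : ℝ) ^ j *
    ((Fintype.card k : ℝ) ^ b / (Fintype.card k : ℝ) ^ j) ≤
    (Fintype.card k : ℝ) ^ a * (Fintype.card k : ℝ) ^ b / (Fintype.card k : ℝ) ^ (2 * j) :=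
  le_of_eq (by rw [two_mul, pow_add _ j j, div_mul_div_comm])

lemma bad13 (T : ℕ) {m d : ℕ} (hm : m ≤ d) :
    Bd (fun x : k[X] × k[X] => x.1 ∈ PL k (d + 1) ∧ x.2 ∈ PL k (3 * d + 1) ∧ ¬ G13 T m d x.1 x.2)
      ((Fintype.card k : ℝ) ^ (d + 1) * (Fintype.card k : ℝ) ^ (3 * d + 1) *
        (1 / 2 ^ m + (Fintype.card k : ℝ) ^ (T + 1) / 2 ^ m + 2 * ((Fintype.card k : ℝ) / 2 ^ T))) := by
  have B1 : Bd (fun x : k[X] × k[X] => x.1 ∈ PL k (d + 1 - m) ∧ x.2 ∈ PL k (3 * d + 1))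
      ((Fintype.card k : ℝ) ^ (d + 1) / 2 ^ m * (Fintype.card k : ℝ) ^ (3 * d + 1)) :=
    ((bd_top (P := fun f : k[X] => f ∈ PL k (d + 1 - m))
      (fun f g hf hg => sub_mem_PL hf hg) (by omega)).le div_le_two).fib
      (fun _ _ => bd_PL (3 * d + 1)) (qp _)
  have B2 : Bd (fun x : k[X] × k[X] => ∃ p : k[X], p.natDegree ≤ T ∧ ((x.1 ∈ PL k (d + 1) ∧
      x.1 ≠ 0 ∧ p ^ m ∣ x.1) ∧ Irreducible p) ∧ x.2 ∈ PL k (3 * d + 1))
      ((Fintype.card k : ℝ) ^ (T + 1) *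
        ((Fintype.card k : ℝ) ^ (d + 1) / 2 ^ m * (Fintype.card k : ℝ) ^ (3 * d + 1))) := by
    refine bd_small T B1.nonneg fun p => Bd.fib (P := fun f => (f ∈ PL k (d + 1) ∧
      f ≠ 0 ∧ p ^ m ∣ f) ∧ Irreducible p) ?_ (fun _ _ => bd_PL (3 * d + 1)) (qp _)
    by_cases hp : Irreducible p
    · refine ((bd_mult (pow_ne_zero m hp.ne_zero) (d + 1) (i := m) ?_).le div_le_two).mono
        fun f hf => hf.1
      rw [natDegree_pow]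
      exact Nat.le_mul_of_pos_right _ hp.natDegree_pos
    · exact Bd.empty (fun f hf => hp hf.2) (div_nonneg (qp _) (by positivity))
  have B3 : Bd (fun x : k[X] × k[X] => ∃ p : k[X], p.natDegree ≤ d ∧ T < p.natDegree ∧
      (x.1 ∈ PL k (d + 1) ∧ x.1 ≠ 0 ∧ p ∣ x.1) ∧ x.2 ∈ PL k (3 * d + 1) ∧ p ∣ x.2)
      ((Fintype.card k : ℝ) ^ (d + 1) * (Fintype.card k : ℝ) ^ (3 * d + 1) *
        ((Fintype.card k : ℝ) / 2 ^ T)) := by
    refine bd_large T d (mul_nonneg (qp _) (qp _)) fun p hp hp' => ?_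
    exact ((bd_mult hp (d + 1) le_rfl).fib (R := fun _ f => f ∈ PL k (3 * d + 1) ∧ p ∣ f)
      (fun _ _ => bd_cong hp (fun f hf => hf.1) (fun f g hf hg => dvd_sub hf.2 hg.2)
        (hp'.trans (by omega)) le_rfl) (qd _ _)).le (qq _ _ _)
  have B4 : Bd (fun x : k[X] × k[X] => ∃ p : k[X], p.natDegree ≤ d ∧ T < p.natDegree ∧
      (x.1 ∈ PL k (d + 1) ∧ x.1 ≠ 0 ∧ p ^ 2 ∣ x.1) ∧ x.2 ∈ PL k (3 * d + 1))
      ((Fintype.card k : ℝ) ^ (d + 1) * (Fintype.card k : ℝ) ^ (3 * d + 1) *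
        ((Fintype.card k : ℝ) / 2 ^ T)) := by
    refine bd_large T d (mul_nonneg (qp _) (qp _)) fun p hp _ => ?_
    exact ((bd_mult (pow_ne_zero 2 hp) (d + 1) (i := 2 * p.natDegree) (by rw [natDegree_pow])).fib
      (fun _ _ => bd_PL (3 * d + 1)) (qp _)).le (le_of_eq (div_mul_eq_mul_div _ _ _))
  refine ((((B1.or B2).or B3).or B4).mono ?_).le (le_of_eq (by ring))
  rintro ⟨a₁, a₃⟩ ⟨h1, h3, h⟩
  dsimp only at h1 h3 h ⊢
  by_cases h0 : a₁ = 0 ∨ a₁.natDegree < d + 1 - m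
  · exact Or.inl (Or.inl (Or.inl ⟨mem_PL_iff.2 h0, h3⟩))
  push Not at h0
  by_cases h4 : ∀ p : k[X], p.Monic → Irreducible p → p.natDegree ≤ T → ¬ p ^ m ∣ a₁
  · have h5 : ¬ ∀ p : k[X], p.Monic → Irreducible p → T < p.natDegree → p ∣ a₁ →
        ¬ p ∣ a₃ ∧ ¬ p ^ 2 ∣ a₁ := fun h5 => h ⟨h0.1, by have := h0.2; omega, h4, h5⟩
    push Not at h5
    obtain ⟨p, -, hp, hT, h6, h7⟩ := h5
    have h8 : p.natDegree ≤ d := (natDegree_le_of_dvd h6 h0.1).trans (mem_PL_succ.1 h1)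
    by_cases h9 : p ∣ a₃
    · exact Or.inl (Or.inr ⟨p, h8, hT, ⟨h1, h0.1, h6⟩, h3, h9⟩)
    · exact Or.inr ⟨p, h8, hT, ⟨h1, h0.1, h7 h9⟩, h3⟩
  · push Not at h4
    obtain ⟨p, -, hp, hT, h6⟩ := h4
    exact Or.inl (Or.inl (Or.inr ⟨p, hT, ⟨⟨h1, h0.1, h6⟩, hp⟩, h3⟩))

variable [CharP k 2]

omit [Fintype k] in
lemma e1 (a f g e : k[X]) : (a ^ 6 * f ^ 2 + e) - (a ^ 6 * g ^ 2 + e) = (a ^ 3 * (f - g)) ^ 2 := by
  linear_combination (a ^ 6 * (f * g - g ^ 2)) * CharTwo.two_eq_zero (R := k[X])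

omit [Fintype k] in
lemma e2 {a p f g e : k[X]} (hp : Irreducible p) (h3 : ¬ p ∣ a) (h4 : p ∣ a ^ 6 * f ^ 2 + e)
    (h5 : p ∣ a ^ 6 * g ^ 2 + e) : p ∣ f - g := by
  have h6 := dvd_sub h4 h5
  rw [e1] at h6
  exact (hp.prime.dvd_or_dvd (hp.prime.dvd_of_dvd_pow h6)).resolve_left
    fun h7 => h3 (hp.prime.dvd_of_dvd_pow h7)

omit [Fintype k] in
lemma e4 (a h g c : k[X]) :
    derivative (a ^ 6 * (g ^ 2 + X * h ^ 2) + c) = a ^ 6 * h ^ 2 + derivative c := by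
  have h2 := CharTwo.two_eq_zero (R := k[X])
  have h4 : ∀ f : k[X], derivative (f ^ 2) = 0 := fun f => by
    rw [pow_two, derivative_mul]; linear_combination (derivative f * f) * h2
  rw [show a ^ 6 = (a ^ 3) ^ 2 by ring]
  simp only [derivative_add, derivative_mul, h4, derivative_X]
  ring

omit [CharP k 2] in
lemma deg_D {a h c : k[X]} {d : ℕ} (h₁ : a.natDegree ≤ d) (hc : c.natDegree ≤ 12 * d)
    (hh : h ∈ PL k (3 * d)) : (a ^ 6 * h ^ 2 + derivative c).natDegree ≤ 12 * d := by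
  refine natDegree_add_le_of_degree_le (natDegree_mul_le.trans ?_)
    ((natDegree_derivative_le c).trans (by omega))
  rw [natDegree_pow, natDegree_pow]
  rcases mem_PL_iff.1 hh with h5 | h5
  · rw [h5, natDegree_zero]; omega
  · omega

lemma bad6 (T : ℕ) {m d : ℕ} (hm : m ≤ d) {a₁ a₃ c : k[X]} (hG : G13 T m d a₁ a₃)
    (h₁ : a₁.natDegree ≤ d) (hc : c.natDegree ≤ 12 * d) (hd : a₁ ∣ c - a₃ ^ 4) :
    Bd (fun x : k[X] × k[X] => x.1 ∈ PL k (3 * d) ∧ x.2 ∈ PL k (3 * d + 1) ∧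
        ¬ G6 T m d (a₁ ^ 6 * x.1 ^ 2 + derivative c) (a₁ ^ 6 * (x.2 ^ 2 + X * x.1 ^ 2) + c))
      ((Fintype.card k : ℝ) ^ (3 * d) * (Fintype.card k : ℝ) ^ (3 * d + 1) *
        (1 / 2 ^ m + (Fintype.card k : ℝ) ^ (T + 1) / 2 ^ m + (Fintype.card k : ℝ) / 2 ^ T) +
        (Fintype.card k : ℝ) ^ (3 * d) * (12 * d)) := by
  have e3 : ∀ h g : k[X], a₁ ^ 6 * (g ^ 2 + X * h ^ 2) + c =
      a₁ ^ 6 * g ^ 2 + (a₁ ^ 6 * (X * h ^ 2) + c) := fun h g => by ring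
  have C1 : Bd (fun x : k[X] × k[X] =>
      (a₁ ^ 6 * x.1 ^ 2 + derivative c).natDegree + 8 * m ≤ 12 * d ∧ x.2 ∈ PL k (3 * d + 1))
      ((Fintype.card k : ℝ) ^ (3 * d) / 2 ^ m * (Fintype.card k : ℝ) ^ (3 * d + 1)) := by
    refine Bd.fib (P := fun f => (a₁ ^ 6 * f ^ 2 + derivative c).natDegree + 8 * m ≤ 12 * d)
      ((bd_top (n := 3 * d) (i := m) (fun f g hf hg => ?_) (by omega)).le div_le_two)
      (fun _ _ => bd_PL (k := k) (3 * d + 1)) (qp _)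
    rw [mem_PL_iff, or_iff_not_imp_left]
    intro h0
    have h3 := natDegree_sub_le (a₁ ^ 6 * f ^ 2 + derivative c) (a₁ ^ 6 * g ^ 2 + derivative c)
    rw [e1, natDegree_pow, natDegree_mul (pow_ne_zero _ hG.1) h0, natDegree_pow] at h3
    have := hG.2.1
    omega
  have C2 : Bd (fun x : k[X] × k[X] => ∃ p : k[X], p.natDegree ≤ T ∧ (x.1 ∈ PL k (3 * d) ∧
      p ^ (8 * m) ∣ a₁ ^ 6 * x.1 ^ 2 + derivative c ∧ Irreducible p ∧ ¬ p ^ m ∣ a₁) ∧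
      x.2 ∈ PL k (3 * d + 1)) ((Fintype.card k : ℝ) ^ (T + 1) *
        ((Fintype.card k : ℝ) ^ (3 * d) / 2 ^ m * (Fintype.card k : ℝ) ^ (3 * d + 1))) := by
    refine bd_small T C1.nonneg fun p => Bd.fib (P := fun f => f ∈ PL k (3 * d) ∧
      p ^ (8 * m) ∣ a₁ ^ 6 * f ^ 2 + derivative c ∧ Irreducible p ∧ ¬ p ^ m ∣ a₁) ?_
      (fun _ _ => bd_PL (3 * d + 1)) (qp _)
    by_cases hp : Irreducible p
    · refine (bd_cong (pow_ne_zero m hp.ne_zero) (fun f hf => hf.1) (fun f g hf hg => ?_)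
        (by omega) ?_).le div_le_two
      · have h4 := hf.2.2.2
        have h6 := dvd_sub hf.2.1 hg.2.1
        rw [e1, show 8 * m = (m + m + m + m) * 2 by ring, pow_mul,
          IsIntegrallyClosed.pow_dvd_pow_iff two_ne_zero,
          show a₁ ^ 3 * (f - g) = a₁ * (a₁ * (a₁ * (f - g))) by ring] at h6
        exact pow_dvd_cancel hp h4 (pow_dvd_cancel hp h4 (pow_dvd_cancel hp h4 h6))
      · rw [natDegree_pow]
        exact Nat.le_mul_of_pos_right _ hp.natDegree_pos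
    · exact Bd.empty (fun f hf => hp hf.2.2.1) (div_nonneg (qp _) (by positivity))
  have C0 : ∀ (p h : k[X]) (i : ℕ), Irreducible p → ¬ p ∣ a₁ → i ≤ 3 * d + 1 → i ≤ p.natDegree →
      Bd (fun g => g ∈ PL k (3 * d + 1) ∧ p ∣ a₁ ^ 6 * g ^ 2 + (a₁ ^ 6 * (X * h ^ 2) + c))
        ((Fintype.card k : ℝ) ^ (3 * d + 1) / (Fintype.card k : ℝ) ^ i) := fun p h i hp h3 h4 h5 =>
    bd_cong hp.ne_zero (fun f hf => hf.1) (fun f g hf hg => e2 hp h3 hf.2 hg.2) h4 h5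
  have C3 : Bd (fun x : k[X] × k[X] => ∃ p : k[X], p.natDegree ≤ 3 * d ∧ T < p.natDegree ∧
      (x.1 ∈ PL k (3 * d) ∧ p ∣ a₁ ^ 6 * x.1 ^ 2 + derivative c ∧ Irreducible p ∧ ¬ p ∣ a₁) ∧
      x.2 ∈ PL k (3 * d + 1) ∧ p ∣ a₁ ^ 6 * x.2 ^ 2 + (a₁ ^ 6 * (X * x.1 ^ 2) + c))
      ((Fintype.card k : ℝ) ^ (3 * d) * (Fintype.card k : ℝ) ^ (3 * d + 1) *
        ((Fintype.card k : ℝ) / 2 ^ T)) := by
    refine bd_large T _ (mul_nonneg (qp _) (qp _)) fun p hp hp' => ?_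
    refine (Bd.fib (P := fun f => f ∈ PL k (3 * d) ∧ p ∣ a₁ ^ 6 * f ^ 2 + derivative c ∧
      Irreducible p ∧ ¬ p ∣ a₁) (bd_cong hp (fun f hf => hf.1)
        (fun f g hf hg => e2 hf.2.2.1 hf.2.2.2 hf.2.1 hg.2.1) hp' le_rfl)
      (fun h hh => C0 p h _ hh.2.2.1 hh.2.2.2 (by omega) le_rfl) (qd _ _)).le (qq _ _ _)
  have C4 : Bd (fun x : k[X] × k[X] => (x.1 ∈ PL k (3 * d) ∧ a₁ ^ 6 * x.1 ^ 2 + derivative c ≠ 0) ∧
      ∃ p ∈ (PL k (12 * d + 1)).filter fun p => (p.Monic ∧ Irreducible p ∧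
        p ∣ a₁ ^ 6 * x.1 ^ 2 + derivative c) ∧ 3 * d < p.natDegree ∧ ¬ p ∣ a₁,
      x.2 ∈ PL k (3 * d + 1) ∧ p ∣ a₁ ^ 6 * x.2 ^ 2 + (a₁ ^ 6 * (X * x.1 ^ 2) + c))
      ((Fintype.card k : ℝ) ^ (3 * d) * (12 * d)) := by
    refine Bd.fib (P := fun f => f ∈ PL k (3 * d) ∧ a₁ ^ 6 * f ^ 2 + derivative c ≠ 0)
      (R := fun h g => ∃ p ∈ (PL k (12 * d + 1)).filter fun p => (p.Monic ∧ Irreducible p ∧
        p ∣ a₁ ^ 6 * h ^ 2 + derivative c) ∧ 3 * d < p.natDegree ∧ ¬ p ∣ a₁,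
        g ∈ PL k (3 * d + 1) ∧ p ∣ a₁ ^ 6 * g ^ 2 + (a₁ ^ 6 * (X * h ^ 2) + c))
      ((bd_PL (3 * d)).mono fun f hf => hf.1) (fun h hh => ?_) (by positivity)
    refine (Bd.union _ (e := fun _ => 1) fun p hp => ?_).le ?_
    · obtain ⟨-, h3, h4, h5⟩ := Finset.mem_filter.1 hp
      exact (C0 p h _ h3.2.1 h5 le_rfl h4).le (div_self (pow_pos q_pos _).ne').le
    · rw [Finset.sum_const, nsmul_eq_mul, mul_one]
      refine le_trans (Nat.cast_le.2 (le_trans (card_primes _ hh.2 ?_) (deg_D h₁ hc hh.1))) (by simp)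
      intro p hp
      exact (Finset.mem_filter.1 hp).2.1
  refine ((((C1.or C2).or C3).or C4).mono ?_).le (le_of_eq (by ring))
  rintro ⟨h, g⟩ ⟨h1, h3, hb⟩
  dsimp only at h1 h3 hb ⊢
  by_cases h0 : (a₁ ^ 6 * h ^ 2 + derivative c).natDegree + 8 * m ≤ 12 * d
  · exact Or.inl (Or.inl (Or.inl ⟨h0, h3⟩))
  have hD : a₁ ^ 6 * h ^ 2 + derivative c ≠ 0 := fun h4 => h0 (by rw [h4, natDegree_zero]; omega)
  by_cases h4 : ∀ p : k[X], p.Monic → Irreducible p → p.natDegree ≤ T →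
      ¬ p ^ (8 * m) ∣ a₁ ^ 6 * h ^ 2 + derivative c
  · have h5 : ¬ ∀ p : k[X], p.Monic → Irreducible p → T < p.natDegree →
        ¬ p ^ 2 ∣ a₁ ^ 6 * (g ^ 2 + X * h ^ 2) + c := fun h5 => hb ⟨by omega, h4, h5⟩
    push Not at h5
    obtain ⟨p, hp', hp, hT, h6⟩ := h5
    have h7 : p ∣ a₁ ^ 6 * (g ^ 2 + X * h ^ 2) + c := (dvd_pow_self p two_ne_zero).trans h6
    have h8 : ¬ p ∣ a₁ := fun h8 => by
      refine (hG.2.2.2 p hp' hp hT h8).1 (hp.prime.dvd_of_dvd_pow (n := 4) ?_)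
      have h9 := dvd_sub ((dvd_add_right ((h8.trans (dvd_pow_self a₁ (n := 6) (by norm_num))).mul_right
        _)).1 h7) (h8.trans hd)
      rwa [sub_sub_cancel] at h9
    have h9 : p ∣ a₁ ^ 6 * h ^ 2 + derivative c := by
      have h10 := pow_sub_one_dvd_derivative_of_pow_dvd h6
      rwa [e4, Nat.add_one_sub_one, pow_one] at h10
    rw [e3] at h7
    by_cases h10 : p.natDegree ≤ 3 * d
    · exact Or.inl (Or.inr ⟨p, h10, hT, ⟨h1, h9, hp, h8⟩, h3, h7⟩)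
    · exact Or.inr ⟨⟨h1, hD⟩, p, Finset.mem_filter.2 ⟨mem_PL_succ.2 ((natDegree_le_of_dvd h9 hD).trans
        (deg_D h₁ hc h1)), ⟨hp', hp, h9⟩, by omega, h8⟩, h3, h7⟩
  · push Not at h4
    obtain ⟨p, hp', hp, hT, h6⟩ := h4
    exact Or.inl (Or.inl (Or.inr ⟨p, hT, ⟨h1, h6, hp, hG.2.2.1 p hp' hp hT⟩, h3⟩))

end Pool.Agent.Lib.MP_a3f657_nt.Two.Bad
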