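import Pool.Agent.Lib.MP_a3f657_nt.C2Defs

/-!
Good Weierstrass tuples (definitions and statement).
-/

namespace Pool.Agent.Lib.MP_a3f657_nt.Two

open Polynomial

variable {k : Type} [Field k]

/-- Bounded valuations of `a₁` and of the derivative of the discriminant at the small places. -/
def GoodT (T β d : ℕ) (a : WeierstrassCurve k[X]) : Prop :=
  a.a₁ ≠ 0 ∧ derivative a.Δ ≠ 0 ∧ d < a.a₁.natDegree + β ∧
    12 * d < (derivative a.Δ).natDegree + β ∧
    ∀ p : k[X], p.Monic → Irreducible p → p.natDegree ≤ T →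
      ¬ p ^ β ∣ a.a₁ ∧ ¬ p ^ β ∣ derivative a.Δ

/-- The large prime factors of `a₁` are simple and prime to `a₃`. -/
def GoodN (T : ℕ) (a : WeierstrassCurve k[X]) : Prop :=
  ∀ p : k[X], p.Monic → Irreducible p → T < p.natDegree → p ∣ a.a₁ → ¬ p ∣ a.a₃ ∧ ¬ p ^ 2 ∣ a.a₁

/-- The large prime factors of the discriminant are simple. -/
def GoodQ (T : ℕ) (a : WeierstrassCurve k[X]) : Prop :=
  ∀ p : k[X], p.Monic → Irreducible p → T < p.natDegree → ¬ p ^ 2 ∣ a.Δ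

/-- Most tuples are good. -/
def BadSmall : Prop :=
  ∀ (k : Type) [Field k] [Fintype k] [CharP k 2] (ε : ℝ), 0 < ε → ∀ T₀ : ℕ, ∃ T β : ℕ, T₀ ≤ T ∧
    ∀ᶠ d : ℕ in Filter.atTop,
      (Set.ncard {a : WeierstrassCurve k[X] |
        DegLE a d ∧ ¬ (GoodT T β d a ∧ GoodN T a ∧ GoodQ T a)} : ℝ) ≤
        ε * (Fintype.card k : ℝ) ^ (16 * d)

end Pool.Agent.Lib.MP_a3f657_nt.Two
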