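import Pool.Agent.Lib.MP_a3f657_nt.C2CellBase

/-!
The arithmetic of a cell.
-/

namespace Pool.Agent.Lib.MP_a3f657_nt.Two.Cel

open Polynomial

open scoped Classical

variable {k : Type} [Field k]

lemma cop_of_monic {x y : k[X]} (hx : x ≠ 0)
    (h : ∀ p : k[X], p.Monic → Irreducible p → p ∣ x → ¬ p ∣ y) : IsCoprime x y := by
  refine isCoprime_of_irreducible_dvd (fun h0 => hx h0.1) fun z hz h1 h2 => ?_
  exact h (normalize z) (monic_normalize hz.ne_zero) ((normalize_associated z).symm.irreducible hz)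
    ((normalize_associated z).dvd.trans h1) ((normalize_associated z).dvd.trans h2)

lemma sqf_of_monic {x : k[X]} (hx : x ≠ 0)
    (h : ∀ p : k[X], p.Monic → Irreducible p → ¬ p ^ 2 ∣ x) : Squarefree x := by
  refine (squarefree_iff_irreducible_sq_not_dvd_of_ne_zero hx).2 fun z hz h1 => ?_
  refine h (normalize z) (monic_normalize hz.ne_zero)
    ((normalize_associated z).symm.irreducible hz) ?_
  rw [pow_two]
  exact (mul_dvd_mul (normalize_associated z).dvd (normalize_associated z).dvd).trans h1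

variable [Fintype k]

/-- Splitting off the part supported at the small primes. -/
lemma exists_split {T b : ℕ} {x : k[X]}
    (h : ∀ p : k[X], p.Monic → Irreducible p → p.natDegree ≤ T → ¬ p ^ (b + 1) ∣ x) :
    ∃ s l : k[X], s ∣ PiT k T ^ b ∧ x = s * l ∧
      ∀ p : k[X], p.Monic → Irreducible p → p.natDegree ≤ T → ¬ p ∣ l := by
  obtain ⟨l, hl⟩ := gcd_dvd_left x (PiT k T ^ b)
  obtain ⟨u, hu⟩ := gcd_dvd_right x (PiT k T ^ b)
  have h0 : gcd x (PiT k T ^ b) ≠ 0 := gcd_ne_zero_of_right ((monic_PiT T).pow b).ne_zero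
  refine ⟨_, l, ⟨u, hu⟩, hl, fun p h1 h2 h3 h4 => ?_⟩
  by_cases h5 : p ∣ u
  · have h6 : gcd x (PiT k T ^ b) * p ∣ gcd x (PiT k T ^ b) * 1 := by
      rw [mul_one]
      refine dvd_gcd ?_ ?_
      · conv_rhs => rw [hl]
        exact mul_dvd_mul_left _ h4
      · conv_rhs => rw [hu]
        exact mul_dvd_mul_left _ h5
    exact h2.not_dvd_one ((mul_dvd_mul_iff_left h0).1 h6)
  · have h6 : p ^ b ∣ gcd x (PiT k T ^ b) * u := hu ▸ pow_dvd_pow_of_dvd ((dvd_PiT h1 h2).2 h3) b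
    have h7 := h2.prime.pow_dvd_of_dvd_mul_right b h5 h6
    refine h p h1 h2 h3 ?_
    rw [hl, pow_succ]
    exact mul_dvd_mul h7 h4

/-- The decomposition of the discriminant into a small and a large part. -/
structure Dec (T β : ℕ) (a : WeierstrassCurve k[X]) (g ν f₀ : k[X]) : Prop where
  eΔ : a.Δ = g * f₀
  mon : f₀.Monic
  eN : g * ν = NT k T β
  big : PiT k T ^ (RR β - β) ∣ ν
  lar : ∀ p : k[X], p.Monic → Irreducible p → p.natDegree ≤ T → ¬ p ∣ f₀

variable {T β d : ℕ} {a : WeierstrassCurve k[X]} {t : k[X] × k[X]} {g ν f₀ : k[X]}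

lemma exists_dec (hT : GoodT T β d a) : ∃ g ν f₀, Dec T β a g ν f₀ := by
  obtain ⟨s, l, ⟨u, hu⟩, h2, h3⟩ := exists_split (T := T) (b := β) (x := a.Δ)
    fun p h1 h2 h3 h4 => (hT.2.2.2.2 p h1 h2 h3).2
      (by simpa using pow_sub_one_dvd_derivative_of_pow_dvd h4)
  have h0 : l ≠ 0 := fun h => hT.2.1 (by rw [h2, h, mul_zero, derivative_zero])
  have h4 : C l.leadingCoeff * C l.leadingCoeff⁻¹ = 1 := by
    rw [← C_mul, mul_inv_cancel₀ (leadingCoeff_ne_zero.2 h0), C_1]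
  refine ⟨s * C l.leadingCoeff, PiT k T ^ (RR β - β) * (u * C l.leadingCoeff⁻¹),
    l * C l.leadingCoeff⁻¹, ?_, monic_mul_leadingCoeff_inv h0, ?_, dvd_mul_right _ _,
    fun p h5 h6 h7 h8 => h3 p h5 h6 h7 ?_⟩
  · rw [h2]
    linear_combination (-s * l) * h4
  · have h5 : NT k T β = PiT k T ^ (RR β - β) * (s * u) := by
      rw [← hu, ← pow_add, NT, Nat.sub_add_cancel (by unfold RR; omega)]
    rw [h5]
    linear_combination (PiT k T ^ (RR β - β) * s * u) * h4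
  · have h9 : l = l * C l.leadingCoeff⁻¹ * C l.leadingCoeff := by
      linear_combination (-l) * h4
    rw [h9]
    exact h8.mul_right _

/-- The large part of `a₁`. -/
lemma exists_large (hT : GoodT T β d a) : ∃ l : k[X], l ∣ a.a₁ ∧
    a.a₁.natDegree ≤ l.natDegree + β * (PiT k T).natDegree ∧
      ∀ p : k[X], p.Monic → Irreducible p → p.natDegree ≤ T → ¬ p ∣ l := by
  obtain ⟨s, l, h1, h2, h3⟩ := exists_split (T := T) (b := β) (x := a.a₁)
    fun p h1 h2 h3 h4 => (hT.2.2.2.2 p h1 h2 h3).1 ((pow_dvd_pow p (Nat.le_succ β)).trans h4)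
  refine ⟨l, ⟨s, by rw [h2, mul_comm]⟩, ?_, h3⟩
  have h4 := natDegree_le_of_dvd h1 ((monic_PiT T).pow β).ne_zero
  rw [natDegree_pow] at h4
  have h5 := natDegree_mul_le (p := s) (q := l)
  rw [← h2] at h5
  omega

/-- The displacement of the large part of the discriminant. -/
noncomputable def ww (a : WeierstrassCurve k[X]) (ν : k[X]) : k[X] × k[X] →+ k[X] where
  toFun t := ν * (a.a₁ ^ 4 * (a.a₃ ^ 2 * t.1 + a.a₁ ^ 2 * t.2))
  map_zero' := by simp
  map_add' s t := by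
    simp only [Prod.fst_add, Prod.snd_add]
    ring

omit [Fintype k] in
lemma ww_apply (a : WeierstrassCurve k[X]) (ν : k[X]) (t : k[X] × k[X]) :
    ww a ν t = ν * (a.a₁ ^ 4 * (a.a₃ ^ 2 * t.1 + a.a₁ ^ 2 * t.2)) := rfl

lemma Dec.g0 (D : Dec T β a g ν f₀) : g ≠ 0 := fun h =>
  (monic_NT (k := k) T β).ne_zero (by rw [← D.eN, h, zero_mul])

lemma Dec.ν0 (D : Dec T β a g ν f₀) : ν ≠ 0 := fun h =>
  (monic_NT (k := k) T β).ne_zero (by rw [← D.eN, h, mul_zero])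

lemma Dec.degN (D : Dec T β a g ν f₀) : g.natDegree + ν.natDegree = (NT k T β).natDegree := by
  rw [← D.eN, natDegree_mul D.g0 D.ν0]

lemma Dec.degΔ (D : Dec T β a g ν f₀) : g.natDegree + f₀.natDegree = a.Δ.natDegree := by
  rw [D.eΔ, natDegree_mul D.g0 D.mon.ne_zero]

lemma Dec.M0 (D : Dec T β a g ν f₀) (hT : GoodT T β d a) : a.a₁ ^ 6 * ν ≠ 0 :=
  mul_ne_zero (pow_ne_zero _ hT.1) D.ν0

lemma Dec.degM (D : Dec T β a g ν f₀) (hT : GoodT T β d a) :
    (a.a₁ ^ 6 * ν).natDegree = 6 * a.a₁.natDegree + ν.natDegree := by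
  rw [natDegree_mul (pow_ne_zero _ hT.1) D.ν0, natDegree_pow]

lemma Dec.dvdν (D : Dec T β a g ν f₀) {p : k[X]} (h1 : p.Monic) (h2 : Irreducible p) :
    p ∣ ν ↔ p.natDegree ≤ T := by
  rw [← dvd_PiT h1 h2]
  constructor
  · intro h
    exact h2.prime.dvd_of_dvd_pow (n := RR β) (h.trans ⟨g, by rw [mul_comm, D.eN, NT]⟩)
  · intro h
    exact (h.trans (dvd_pow_self _ (by unfold RR; omega))).trans D.big

lemma Dec.dvdM (D : Dec T β a g ν f₀) {p : k[X]} (h1 : p.Monic) (h2 : Irreducible p) :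
    p ∣ a.a₁ ^ 6 * ν ↔ p.natDegree ≤ T ∨ p ∣ a.a₁ := by
  rw [h2.prime.dvd_mul, h2.prime.dvd_pow_iff_dvd (by norm_num), D.dvdν h1 h2, or_comm]

lemma Dec.small (D : Dec T β a g ν f₀) {T' : ℕ} (h : T' ≤ T) : SmallDvd T' (a.a₁ ^ 6 * ν) :=
  fun _ h1 h2 h3 => (D.dvdM h1 h2).2 (Or.inl (h3.trans h))

variable [CharP k 2]

lemma Dec.diff (D : Dec T β a g ν f₀) (t : k[X] × k[X]) :
    (shift T β a t).Δ - a.Δ = g * ww a ν t := by
  rw [shift_Δ, ww_apply, ← D.eN]
  ring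

lemma Dec.fac (D : Dec T β a g ν f₀) (t : k[X] × k[X]) :
    (shift T β a t).Δ = g * (f₀ + ww a ν t) := by
  rw [mul_add, ← D.diff, ← D.eΔ]
  ring

lemma Dec.low (D : Dec T β a g ν f₀) (ha : DegLE a d) (hT : GoodT T β d a) (hd : RR β ≤ d)
    (ht : t ∈ cell T β d a) : ww a ν t = 0 ∨ (ww a ν t).natDegree + RR β ≤ f₀.natDegree := by
  by_cases h : ww a ν t = 0
  · exact Or.inl h
  · have h1 := deg_diff ha hT hd ht
    rw [D.diff, natDegree_mul D.g0 h, ← D.degΔ] at h1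
    right
    omega

lemma Dec.low' (D : Dec T β a g ν f₀) (ha : DegLE a d) (hT : GoodT T β d a) (hd : RR β ≤ d)
    (ht : t ∈ cell T β d a) : (ww a ν t).degree < (f₀.natDegree + 1 - RR β : ℕ) := by
  rw [← Bad.mem_PL, Bad.mem_PL_iff]
  rcases D.low ha hT hd ht with h | h
  · exact Or.inl h
  · right
    omega

lemma Dec.low'' (D : Dec T β a g ν f₀) (ha : DegLE a d) (hT : GoodT T β d a) (hd : RR β ≤ d)
    (ht : t ∈ cell T β d a) : (ww a ν t).degree < f₀.degree := by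
  rw [degree_eq_natDegree D.mon.ne_zero, ← Bad.mem_PL, Bad.mem_PL_iff]
  rcases D.low ha hT hd ht with h | h
  · exact Or.inl h
  · right
    unfold RR at h
    omega

lemma Dec.cop (D : Dec T β a g ν f₀) (hT : GoodT T β d a) (hN : GoodN T a) (t : k[X] × k[X]) :
    IsCoprime (f₀ + ww a ν t) (a.a₁ ^ 6 * ν) := by
  refine (cop_of_monic (D.M0 hT) fun p h1 h2 h3 h4 => ?_).symm
  have h5 : p ∣ ww a ν t := by
    rw [ww_apply]
    rcases h2.prime.dvd_or_dvd h3 with h | h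
    · exact (((h2.prime.dvd_of_dvd_pow h).trans (dvd_pow_self _ (by norm_num))).mul_right _).mul_left _
    · exact h.mul_right _
  have h6 := (dvd_add_left h5).1 h4
  by_cases h7 : p.natDegree ≤ T
  · exact D.lar p h1 h2 h7 h6
  · have h8 := ((D.dvdM h1 h2).1 h3).resolve_left h7
    refine (hN p h1 h2 (by omega) h8).1 (h2.prime.dvd_of_dvd_pow (n := 4) ?_)
    have h9 : p ∣ a.Δ := D.eΔ ▸ h6.mul_left g
    have h10 : a.Δ = a.a₁ * (a.a₁ ^ 3 * (a.a₁ ^ 2 * a.a₆ + a.a₁ * a.a₃ * a.a₄ +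
        a.a₂ * a.a₃ ^ 2 + a.a₄ ^ 2) + a.a₁ ^ 2 * a.a₃ ^ 3) + a.a₃ ^ 4 := by
      rw [Bad.disc]
      ring
    rw [h10] at h9
    exact (dvd_add_right (h8.mul_right _)).1 h9

lemma Dec.cellA (D : Dec T β a g ν f₀) (ha : DegLE a d) (hT : GoodT T β d a) (hN : GoodN T a)
    (hd : RR β ≤ d) : CellA T β d a (a.a₁ ^ 6 * ν) fun t => f₀ + ww a ν t where
  M0 := D.M0 hT
  dvdM _ h1 h2 := D.dvdM h1 h2
  bigM := by
    rw [mul_comm]
    exact mul_dvd_mul (dvd_pow_self _ (by norm_num)) D.big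
  good _ ht := ⟨degLE_shift ha hT hd ht, goodT_shift ha hT hd ht⟩
  dvd t _ := dvd_diff T β a t
  deg _ ht := deg_diff ha hT hd ht
  deg2 _ ht := deg_x' hd ht
  mon _ ht := D.mon.add_of_left (D.low'' ha hT hd ht)
  cop t _ := D.cop hT hN t
  fac t _ := ⟨g, ⟨ν, D.eN.symm⟩, D.fac t⟩
  sqf t ht := by
    constructor
    · intro h
      refine sqf_of_monic (D.mon.add_of_left (D.low'' ha hT hd ht)).ne_zero fun p h1 h2 h3 => ?_
      refine h p h1 h2 (lt_of_not_ge fun h4 => h2.not_isUnit ?_) (D.fac t ▸ h3.mul_left g)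
      exact (D.cop hT hN t).isUnit_of_dvd' ((dvd_pow_self p two_ne_zero).trans h3)
        ((D.dvdM h1 h2).2 (Or.inl h4))
    · intro h p h1 h2 h3 h4
      rw [D.fac] at h4
      have h5 : ¬ p ∣ g := fun h5 => by
        have h6 : p ∣ PiT k T ^ RR β := h5.trans ⟨ν, D.eN.symm⟩
        have := (dvd_PiT h1 h2).1 (h2.prime.dvd_of_dvd_pow h6)
        omega
      have h6 := h2.prime.pow_dvd_of_dvd_mul_left 2 h5 h4
      rw [pow_two] at h6
      exact h2.not_isUnit (h p h6)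

/-- The group of displacements. -/
noncomputable def WW (T β d : ℕ) (a : WeierstrassCurve k[X]) (ν : k[X]) : AddSubgroup k[X] :=
  ((degreeLT k (2 * d - ((NT k T β).natDegree + 2 * RR β))).toAddSubgroup.prod
    (degreeLT k (a.Δ.natDegree + 1 -
      (RR β + 6 * a.a₁.natDegree + (NT k T β).natDegree))).toAddSubgroup).map (ww a ν)

omit [CharP k 2] in
lemma mem_WW {w : k[X]} : w ∈ WW T β d a ν ↔ ∃ t ∈ cell T β d a, ww a ν t = w := by
  simp only [WW, AddSubgroup.mem_map, AddSubgroup.mem_prod, Submodule.mem_toAddSubgroup,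
    mem_degreeLT, mem_cell, Bad.mem_PL]

lemma Dec.fam (D : Dec T β a g ν f₀) (ha : DegLE a d) (hT : GoodT T β d a) (hN : GoodN T a)
    (hd : RR β ≤ d) : Fam (a.a₁ ^ 6 * ν) (RR β) f₀.natDegree f₀ (WW T β d a ν) where
  M0 := D.M0 hT
  K1 := by unfold RR; omega
  mon := D.mon
  deg := rfl
  cop := by simpa using D.cop hT hN 0
  low w hw := by
    obtain ⟨t, ht, rfl⟩ := mem_WW.1 hw
    exact D.low' ha hT hd ht
  mul y hy := by
    refine mem_WW.2 ⟨(0, y), mem_cell.2 ⟨Bad.mem_PL_iff.2 (Or.inl rfl), ?_⟩, ?_⟩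
    · rw [← Bad.mem_PL, Bad.mem_PL_iff] at hy
      rw [Bad.mem_PL_iff]
      by_cases h0 : y = 0
      · exact Or.inl h0
      · have h1 := hy.resolve_left (mul_ne_zero (D.M0 hT) h0)
        rw [natDegree_mul (D.M0 hT) h0, D.degM hT] at h1
        have := D.degN
        have := D.degΔ
        right
        dsimp only
        omega
    · rw [ww_apply]
      ring
  sq w₁ h₁ w₂ h₂ := by
    obtain ⟨s, -, rfl⟩ := mem_WW.1 h₁
    obtain ⟨t, -, rfl⟩ := mem_WW.1 h₂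
    exact ⟨ν * a.a₁ ^ 2 * (a.a₃ ^ 2 * s.1 + a.a₁ ^ 2 * s.2) * (a.a₃ ^ 2 * t.1 + a.a₁ ^ 2 * t.2), by
      rw [ww_apply, ww_apply]
      ring⟩

omit [CharP k 2] in
lemma Dec.ker (D : Dec T β a g ν f₀) (hT : GoodT T β d a) (hN : GoodN T a)
    (ht : t ∈ cell T β d a) (h : ww a ν t = 0) : t = 0 := by
  rw [ww_apply] at h
  have h1 := (mul_eq_zero.1 ((mul_eq_zero.1 h).resolve_left D.ν0)).resolve_left
    (pow_ne_zero _ hT.1)
  have h2 : t.1 = 0 := by
    by_contra h0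
    obtain ⟨l, h3, h4, h5⟩ := exists_large hT
    have h6 : IsCoprime l a.a₃ := cop_of_monic (ne_zero_of_dvd_ne_zero hT.1 h3) fun p h6 h7 h8 =>
      (hN p h6 h7 (lt_of_not_ge fun h9 => h5 p h6 h7 h9 h8) (h8.trans h3)).1
    have h7 : l ^ 2 ∣ a.a₃ ^ 2 * t.1 := by
      rw [eq_neg_of_add_eq_zero_left h1, dvd_neg]
      exact (pow_dvd_pow_of_dvd h3 2).mul_right _
    have h8 := natDegree_le_of_dvd (h6.pow.dvd_of_dvd_mul_left h7) h0
    rw [natDegree_pow] at h8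
    have h9 := (Bad.mem_PL_iff.1 (mem_cell.1 ht).1).resolve_left h0
    have h10 : (NT k T β).natDegree =
        260 * (β * (PiT k T).natDegree) + 12 * (PiT k T).natDegree := by
      rw [natDegree_NT, RR]
      ring
    have h11 := hT.2.2.1
    unfold RR at h9
    omega
  rw [h2, mul_zero, zero_add] at h1
  exact Prod.ext h2 ((mul_eq_zero.1 h1).resolve_left (pow_ne_zero _ hT.1))

omit [CharP k 2] in
lemma Dec.sum_eq (D : Dec T β a g ν f₀) (hT : GoodT T β d a) (hN : GoodN T a) (F : k[X] → ℂ) :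
    ∑ᶠ w ∈ (WW T β d a ν : Set k[X]), F w = ∑ t ∈ cell T β d a, F (ww a ν t) := by
  have h1 : (WW T β d a ν : Set k[X]) = ((cell T β d a).image (ww a ν) : Finset k[X]) := by
    ext w
    rw [SetLike.mem_coe, mem_WW, Finset.mem_coe, Finset.mem_image]
  rw [h1, finsum_mem_coe_finset, Finset.sum_image]
  intro s hs t ht h
  refine sub_eq_zero.1 (D.ker hT hN (mem_cell.2 ⟨?_, ?_⟩) (by rw [map_sub, h, sub_self]))
  · exact Bad.sub_mem_PL (mem_cell.1 hs).1 (mem_cell.1 ht).1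
  · exact Bad.sub_mem_PL (mem_cell.1 hs).2 (mem_cell.1 ht).2

omit [CharP k 2] in
lemma card_cell (ha : DegLE a d) (hT : GoodT T β d a) :
    (Fintype.card k : ℝ) ^ (8 * d) ≤
      (Fintype.card k : ℝ) ^ (2 * (NT k T β).natDegree + 4 * RR β) * (cell T β d a).card := by
  rw [cell, Finset.card_product, Bad.card_PL, Bad.card_PL]
  push_cast
  rw [← pow_add, ← pow_add]
  refine pow_le_pow_right₀ (le_trans one_le_two Bad.two_le_q) ?_
  have := lt_deg_Δ hT
  have := ha.1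
  unfold RR at *
  omega

end Pool.Agent.Lib.MP_a3f657_nt.Two.Cel
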