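import Pool.Agent.Lib.MP_a3f657_nt.C2CellDefs
import Pool.Agent.Lib.MP_a3f657_nt.C2BadMain

/-!
Basic facts on cells of Weierstrass tuples.
-/

namespace Pool.Agent.Lib.MP_a3f657_nt.Two.Cel

open Polynomial

open scoped Classical

variable {k : Type} [Field k] [Fintype k]

lemma monic_PiT (T : ℕ) : (PiT k T).Monic :=
  monic_prod_of_monic _ _ fun _ hp => (mem_irrLe.1 hp).2.1

lemma monic_NT (T β : ℕ) : (NT k T β).Monic := (monic_PiT T).pow _

lemma natDegree_NT (T β : ℕ) : (NT k T β).natDegree = RR β * (PiT k T).natDegree :=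
  natDegree_pow _ _

lemma dvd_PiT {T : ℕ} {p : k[X]} (h1 : p.Monic) (h2 : Irreducible p) :
    p ∣ PiT k T ↔ p.natDegree ≤ T := by
  constructor
  · intro h
    obtain ⟨p', h3, h4⟩ := (h2.prime.dvd_finsetProd_iff _).1 h
    obtain ⟨h5, h6, h7⟩ := mem_irrLe.1 h3
    rwa [eq_of_dvd_irr h1 h2 h6 h7 h4]
  · exact fun h => Finset.dvd_prod_of_mem _ (mem_irrLe.2 ⟨h, h1, h2⟩)

lemma mul_mem_PL {m f : k[X]} {i n : ℕ} (hf : f ∈ Bad.PL k (n - i)) (hm : m.natDegree ≤ i) :
    m * f = 0 ∨ (m * f).natDegree < n := by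
  rcases Bad.mem_PL_iff.1 hf with h | h
  · simp [h]
  · have := natDegree_mul_le (p := m) (q := f)
    right
    omega

variable {T β d : ℕ} {a : WeierstrassCurve k[X]} {t : k[X] × k[X]}

lemma mem_cell : t ∈ cell T β d a ↔
    t.1 ∈ Bad.PL k (2 * d - ((NT k T β).natDegree + 2 * RR β)) ∧
    t.2 ∈ Bad.PL k (a.Δ.natDegree + 1 - (RR β + 6 * a.a₁.natDegree + (NT k T β).natDegree)) :=
  Finset.mem_product

omit [Fintype k] in
lemma lt_deg_Δ (hT : GoodT T β d a) : 12 * d + 2 ≤ a.Δ.natDegree + β := by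
  have h1 := hT.2.2.2.1
  have h2 : a.Δ.natDegree ≠ 0 := fun h => hT.2.1 (by rw [eq_C_of_natDegree_eq_zero h]; simp)
  have := natDegree_derivative_lt h2
  omega

lemma deg_x (hd : RR β ≤ d) (ht : t ∈ cell T β d a) :
    (NT k T β * t.1).natDegree + 2 * RR β ≤ 2 * d := by
  rcases Bad.mem_PL_iff.1 (mem_cell.1 ht).1 with h | h
  · simp only [h, mul_zero, natDegree_zero]
    omega
  · have := natDegree_mul_le (p := NT k T β) (q := t.1)
    omega

lemma deg_x' (hd : RR β ≤ d) (ht : t ∈ cell T β d a) :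
    (NT k T β * t.1).natDegree + RR β ≤ 2 * d := by
  have := deg_x hd ht
  omega

lemma deg_y (ha : DegLE a d) (hT : GoodT T β d a) (hd : RR β ≤ d) (ht : t ∈ cell T β d a) :
    (NT k T β * t.2).natDegree + 6 * a.a₁.natDegree + RR β ≤ a.Δ.natDegree := by
  rcases Bad.mem_PL_iff.1 (mem_cell.1 ht).2 with h | h
  · simp only [h, mul_zero, natDegree_zero]
    have := lt_deg_Δ hT
    have := ha.1
    unfold RR at *
    omega
  · have := natDegree_mul_le (p := NT k T β) (q := t.2)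
    omega

variable [CharP k 2]

lemma shift_Δ (T β : ℕ) (a : WeierstrassCurve k[X]) (t : k[X] × k[X]) :
    (shift T β a t).Δ - a.Δ = NT k T β * (a.a₁ ^ 4 * (a.a₃ ^ 2 * t.1 + a.a₁ ^ 2 * t.2)) := by
  rw [Bad.disc, Bad.disc a]
  simp only [shift]
  ring

lemma dvd_diff (T β : ℕ) (a : WeierstrassCurve k[X]) (t : k[X] × k[X]) :
    NT k T β ∣ (shift T β a t).Δ - a.Δ := ⟨_, shift_Δ T β a t⟩

lemma deg_diff (ha : DegLE a d) (hT : GoodT T β d a) (hd : RR β ≤ d) (ht : t ∈ cell T β d a) :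
    ((shift T β a t).Δ - a.Δ).natDegree + RR β ≤ a.Δ.natDegree := by
  have h1 : (shift T β a t).Δ - a.Δ =
      a.a₁ ^ 4 * a.a₃ ^ 2 * (NT k T β * t.1) + a.a₁ ^ 6 * (NT k T β * t.2) := by
    rw [shift_Δ]
    ring
  have h2 := deg_x hd ht
  have h3 := deg_y ha hT hd ht
  have h4 := lt_deg_Δ hT
  have h5 := natDegree_mul_le (p := a.a₁ ^ 4 * a.a₃ ^ 2) (q := NT k T β * t.1)
  have h6 := natDegree_mul_le (p := a.a₁ ^ 4) (q := a.a₃ ^ 2)
  have h7 := natDegree_mul_le (p := a.a₁ ^ 6) (q := NT k T β * t.2)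
  have h8 := natDegree_add_le (a.a₁ ^ 4 * a.a₃ ^ 2 * (NT k T β * t.1))
    (a.a₁ ^ 6 * (NT k T β * t.2))
  rw [natDegree_pow] at h7
  rw [natDegree_pow, natDegree_pow] at h6
  have h9 := ha.1
  have h10 := ha.2.2.1
  rw [h1]
  unfold RR at *
  omega

lemma natDegree_Δ_shift (ha : DegLE a d) (hT : GoodT T β d a) (hd : RR β ≤ d)
    (ht : t ∈ cell T β d a) : (shift T β a t).Δ.natDegree = a.Δ.natDegree := by
  have h1 := deg_diff ha hT hd ht
  have h2 := lt_deg_Δ hT
  rw [← add_sub_cancel a.Δ (shift T β a t).Δ]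
  refine natDegree_add_eq_left_of_natDegree_lt ?_
  unfold RR at *
  omega

lemma degLE_shift (ha : DegLE a d) (hT : GoodT T β d a) (hd : RR β ≤ d)
    (ht : t ∈ cell T β d a) : DegLE (shift T β a t) d := by
  have h2 := deg_x hd ht
  have h3 := deg_y ha hT hd ht
  have h4 := ha.Δ
  have h5 := hT.2.2.1
  refine ⟨ha.1, natDegree_add_le_of_degree_le ha.2.1 (by omega), ha.2.2.1, ha.2.2.2.1,
    natDegree_add_le_of_degree_le ha.2.2.2.2 ?_⟩
  unfold RR at *
  omega

lemma goodT_shift (ha : DegLE a d) (hT : GoodT T β d a) (hd : RR β ≤ d)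
    (ht : t ∈ cell T β d a) : GoodT T β d (shift T β a t) := by
  have h1 := deg_diff ha hT hd ht
  have h2 : derivative (shift T β a t).Δ =
      derivative a.Δ + derivative ((shift T β a t).Δ - a.Δ) := by
    rw [derivative_sub]
    ring
  have h3 := natDegree_derivative_le ((shift T β a t).Δ - a.Δ)
  have h4 := ha.Δ
  have h5 := hT.2.2.2.1
  have h6 : (derivative ((shift T β a t).Δ - a.Δ)).natDegree < (derivative a.Δ).natDegree := by
    unfold RR at *
    omega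
  have h7 : (derivative (shift T β a t).Δ).natDegree = (derivative a.Δ).natDegree := by
    rw [h2, natDegree_add_eq_left_of_natDegree_lt h6]
  refine ⟨hT.1, fun h => ?_, hT.2.2.1, by rw [h7]; exact h5, fun p hp1 hp2 hp3 =>
    ⟨(hT.2.2.2.2 p hp1 hp2 hp3).1, fun h => (hT.2.2.2.2 p hp1 hp2 hp3).2 ?_⟩⟩
  · rw [h, natDegree_zero] at h7
    omega
  · have h8 : p ^ RR β ∣ (shift T β a t).Δ - a.Δ :=
      (pow_dvd_pow_of_dvd ((dvd_PiT hp1 hp2).2 hp3) _).trans (dvd_diff T β a t)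
    have h9 := (pow_dvd_pow p (show β ≤ RR β - 1 by unfold RR; omega)).trans
      (pow_sub_one_dvd_derivative_of_pow_dvd h8)
    rw [h2] at h
    exact (dvd_add_left h9).1 h

lemma cell_shift (ha : DegLE a d) (hT : GoodT T β d a) (hd : RR β ≤ d)
    (ht : t ∈ cell T β d a) : cell T β d (shift T β a t) = cell T β d a := by
  unfold cell
  rw [natDegree_Δ_shift ha hT hd ht]
  rfl

omit [CharP k 2] in
lemma goodN_shift (hN : GoodN T a) (β : ℕ) (t : k[X] × k[X]) : GoodN T (shift T β a t) := hN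

lemma shift_shift (T β : ℕ) (a : WeierstrassCurve k[X]) (t : k[X] × k[X]) :
    shift T β (shift T β a t) t = a := by
  ext1 <;> simp only [shift] <;> rw [add_assoc, CharTwo.add_self_eq_zero, add_zero]

end Pool.Agent.Lib.MP_a3f657_nt.Two.Cel
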