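import Pool.Agent.Lib.MP_a3f657_nt.C2Defs

/-!
Counting by Weierstrass coefficients (definitions).
-/

namespace Pool.Agent.Lib.MP_a3f657_nt.Two

open scoped Polynomial

variable {k : Type} [Field k]

/-- Coefficient tuples of level `d` with `a₁ ≠ 0` whose curve has height exactly `q ^ d`. -/
def MinTup (a : WeierstrassCurve k[X]) (d : ℕ) : Prop :=
  DegLE a d ∧ a.Δ ≠ 0 ∧ a.a₁ ≠ 0 ∧ (d = 0 ∨ ¬ HeightLE (a.baseChange (RatFunc k)) (d - 1))

/-- The number of such tuples with the property `P`. -/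
noncomputable def tupNum (P : WeierstrassCurve (RatFunc k) → Prop) (d : ℕ) : ℕ :=
  Set.ncard {a : WeierstrassCurve k[X] | MinTup a d ∧ P (a.baseChange (RatFunc k))}

/-- Transfer of linear inequalities from tuples to densities of isomorphism classes. -/
def Transfer : Prop :=
  ∀ (k : Type) [Field k] [Fintype k] [CharP k 2] (ι : Type) (s : Finset ι)
    (P : ι → WeierstrassCurve (RatFunc k) → Prop) (c : ι → ℝ) (c₀ : ℝ),
    (∀ i (C : WeierstrassCurve.VariableChange (RatFunc k)) (W : WeierstrassCurve (RatFunc k)),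
      P i (C • W) ↔ P i W) →
    (∀ ε : ℝ, 0 < ε → ∀ᶠ d : ℕ in Filter.atTop,
      ∑ i ∈ s, c i * (tupNum (P i) d : ℝ) ≤
        c₀ * (tupNum (k := k) (fun _ => True) d : ℝ) + ε * (Fintype.card k : ℝ) ^ (16 * d)) →
    ∀ ε : ℝ, 0 < ε → ∀ᶠ d : ℕ in Filter.atTop, ∑ i ∈ s, c i * dens (P i) d ≤ c₀ + ε

/-- Non-minimality only depends on congruence conditions at the places where it can occur. -/
def HeightCongr : Prop :=
  ∀ (k : Type) [Field k] [CharP k 2] (d : ℕ) (a b : WeierstrassCurve k[X]),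
    1 ≤ d → DegLE a d → DegLE b d → a.Δ ≠ 0 →
    b.a₁ = a.a₁ → b.a₃ = a.a₃ → b.a₄ = a.a₄ →
    (b.a₂ - a.a₂).natDegree + 6 ≤ 2 * d → (b.a₆ - a.a₆).natDegree + 6 ≤ 6 * d →
    (∀ p : k[X], Irreducible p → p ^ 12 ∣ a.Δ → p ^ 6 ∣ b.a₂ - a.a₂ ∧ p ^ 6 ∣ b.a₆ - a.a₆) →
    HeightLE (a.baseChange (RatFunc k)) (d - 1) → HeightLE (b.baseChange (RatFunc k)) (d - 1)

end Pool.Agent.Lib.MP_a3f657_nt.Two
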