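import Pool.Agent.Lib.MP_a3f657_nt.C2SfPrime
import Pool.Agent.Lib.MP_a3f657_nt.C2BadA
import Pool.Agent.Lib.MP_a3f657_nt.C2HtDefs

/-!
Cells of Weierstrass tuples (definitions and statements).
-/

namespace Pool.Agent.Lib.MP_a3f657_nt.Two

open Polynomial UniqueFactorizationMonoid

open scoped Classical

variable (k : Type) [Field k] [Fintype k]

/-- The product of the monic irreducible polynomials of degree at most `T`. -/
noncomputable def PiT (T : ℕ) : k[X] := ∏ p ∈ irrLe k T, p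

/-- The depth of the congruence conditions. -/
def RR (β : ℕ) : ℕ := 260 * β + 12

/-- The modulus of the congruence conditions. -/
noncomputable def NT (T β : ℕ) : k[X] := PiT k T ^ RR β

variable {k}

/-- Translation of `a₂` and `a₆` by multiples of the modulus. -/
noncomputable def shift (T β : ℕ) (a : WeierstrassCurve k[X]) (t : k[X] × k[X]) :
    WeierstrassCurve k[X] :=
  ⟨a.a₁, a.a₂ + NT k T β * t.1, a.a₃, a.a₄, a.a₆ + NT k T β * t.2⟩

/-- The admissible translations. -/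
noncomputable def cell (T β d : ℕ) (a : WeierstrassCurve k[X]) : Finset (k[X] × k[X]) :=
  Bad.PL k (2 * d - ((NT k T β).natDegree + 2 * RR β)) ×ˢ
    Bad.PL k (a.Δ.natDegree + 1 - (RR β + 6 * a.a₁.natDegree + (NT k T β).natDegree))

/-- Reduction of linear inequalities for densities to inequalities on cells. -/
def CellRed : Prop :=
  ∀ (k : Type) [Field k] [Fintype k] [CharP k 2] (ι : Type) (s : Finset ι)
    (P : ι → WeierstrassCurve (RatFunc k) → Prop) (c : ι → ℝ) (c₀ : ℝ),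
    (∀ i (C : WeierstrassCurve.VariableChange (RatFunc k)) (a : WeierstrassCurve k[X]),
      a.a₁ ≠ 0 → derivative a.Δ ≠ 0 →
      (P i (C • a.baseChange (RatFunc k)) ↔ P i (a.baseChange (RatFunc k)))) →
    (∃ T₀ : ℕ, ∀ T, T₀ ≤ T → ∀ (β : ℕ) (ε : ℝ), 0 < ε → ∀ᶠ d : ℕ in Filter.atTop,
      ∀ a : WeierstrassCurve k[X], DegLE a d → GoodT T β d a → GoodN T a →
        ∑ t ∈ (cell T β d a).filter (fun t => GoodQ T (shift T β a t)),
          (∑ i ∈ s, (if P i ((shift T β a t).baseChange (RatFunc k)) then c i else 0) - c₀) ≤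
          ε * (cell T β d a).card) →
    ∀ ε : ℝ, 0 < ε → ∀ᶠ d : ℕ in Filter.atTop, ∑ i ∈ s, c i * dens (P i) d ≤ c₀ + ε

/-- The arithmetic of a cell: `f t` is the large part of the discriminant. -/
structure CellA (T β d : ℕ) (a : WeierstrassCurve k[X]) (M : k[X]) (f : k[X] × k[X] → k[X]) :
    Prop where
  M0 : M ≠ 0
  dvdM : ∀ p : k[X], p.Monic → Irreducible p → (p ∣ M ↔ p.natDegree ≤ T ∨ p ∣ a.a₁)
  bigM : PiT k T ^ (RR β - β) * a.a₁ ∣ M
  good : ∀ t ∈ cell T β d a, DegLE (shift T β a t) d ∧ GoodT T β d (shift T β a t)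
  dvd : ∀ t ∈ cell T β d a, NT k T β ∣ (shift T β a t).Δ - a.Δ
  deg : ∀ t ∈ cell T β d a, ((shift T β a t).Δ - a.Δ).natDegree + RR β ≤ a.Δ.natDegree
  deg2 : ∀ t ∈ cell T β d a, (NT k T β * t.1).natDegree + RR β ≤ 2 * d
  mon : ∀ t ∈ cell T β d a, (f t).Monic
  cop : ∀ t ∈ cell T β d a, IsCoprime (f t) M
  fac : ∀ t ∈ cell T β d a, ∃ g, g ∣ NT k T β ∧ (shift T β a t).Δ = g * f t
  sqf : ∀ t ∈ cell T β d a, GoodQ T (shift T β a t) ↔ Squarefree (f t)

/-- The set `s` of primes is killed by the functions `PiT ^ β z / a₁`. -/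
def JJ (T β : ℕ) (a₁ M : k[X]) (s : Finset k[X]) : Prop :=
  ∀ z n : k[X], z.natDegree + β * (PiT k T).natDegree < a₁.natDegree →
    n * a₁ = PiT k T ^ β * z * M → ∏ p ∈ s, sgP p M n = 1

/-- The analytic estimates on cells. -/
def CellAn : Prop :=
  ∀ (k : Type) [Field k] [Fintype k] [CharP k 2], ∃ T₀ : ℕ, ∀ T, T₀ ≤ T → ∀ (β : ℕ) (ε : ℝ),
    0 < ε → ∀ᶠ d : ℕ in Filter.atTop, ∀ a : WeierstrassCurve k[X], DegLE a d → GoodT T β d a →
      GoodN T a → ∃ M f, CellA T β d a M f ∧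
        ‖∑ t ∈ cell T β d a, sfw (fun _ => -1) (f t)‖ ≤ ε * (cell T β d a).card ∧
        (∀ (n₁ n₂ : k[X]) (e : ℂ), (e = 1 ∨ e = -1) → n₁.natDegree ≤ M.natDegree + RR β →
          n₂.natDegree ≤ M.natDegree + RR β → NotWp M n₁ → NotWp M n₂ → NotWp M (n₁ + n₂) →
          ‖∑ t ∈ cell T β d a, sfw (fun p => e * gK M n₁ n₂ p) (f t)‖ * (Fintype.card k : ℝ) ^ d ≤
            ε * (cell T β d a).card) ∧
        ∑ t ∈ (cell T β d a).filter (fun t => Squarefree (f t)),
          ((((normalizedFactors (f t)).toFinset.powerset.filter fun s =>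
            s ≠ ∅ ∧ s ≠ (normalizedFactors (f t)).toFinset ∧ JJ T β a.a₁ M s ∧
              JJ T β a.a₁ M ((normalizedFactors (f t)).toFinset \ s)).card : ℕ) : ℝ) ≤
          ε * (cell T β d a).card

end Pool.Agent.Lib.MP_a3f657_nt.Two
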