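import Pool.Agent.Lib.MP_a3f657_nt.C2CellAri
import Pool.Agent.Lib.MP_a3f657_nt.C2SfMain

/-!
Divisors that are killed by a family of Artin-Schreier characters.
-/

namespace Pool.Agent.Lib.MP_a3f657_nt.Two.Cel

open Polynomial UniqueFactorizationMonoid Finset

open scoped Classical

variable {k : Type} [Field k]

lemma mem_nf {f p : k[X]} (hf : f ≠ 0) :
    p ∈ (normalizedFactors f).toFinset ↔ Irreducible p ∧ p.Monic ∧ p ∣ f := by
  rw [Multiset.mem_toFinset, Polynomial.mem_normalizedFactors_iff hf]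

lemma nf_prod {s : Finset k[X]} (h : ∀ p ∈ s, p.Monic ∧ Irreducible p) :
    (normalizedFactors (∏ p ∈ s, p)).toFinset = s := by
  ext p
  rw [mem_nf (monic_prod_of_monic _ _ fun p hp => (h p hp).1).ne_zero]
  constructor
  · rintro ⟨h2, h3, h4⟩
    obtain ⟨p', h5, h6⟩ := (h2.prime.dvd_finsetProd_iff _).1 h4
    rwa [eq_of_dvd_irr h3 h2 (h p' h5).1 (h p' h5).2 h6]
  · exact fun hp => ⟨(h p hp).2, (h p hp).1, dvd_prod_of_mem _ hp⟩

lemma sgP_congr {p n n' : k[X]} (M : k[X]) (h : p ∣ n - n') : sgP p M n = sgP p M n' := by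
  refine if_congr (exists_congr fun z => ?_) rfl rfl
  rw [show M * (z ^ 2 + z) + n = M * (z ^ 2 + z) + n' + (n - n') by ring]
  exact dvd_add_left h

lemma norm_sfw_le (M n f : k[X]) : ‖sfw (fun p => sgP p M n) f‖ ≤ 1 := by
  unfold sfw
  split_ifs
  · simp [norm_prod, norm_sgP]
  · simp

variable [Fintype k]

/-- The squarefree polynomials of degree `m` whose set of primes is killed. -/
noncomputable def EE (T β : ℕ) (a₁ M : k[X]) (m : ℕ) : Finset k[X] :=
  (finite_SF M m).toFinset.filter fun e => Squarefree e ∧ JJ T β a₁ M (normalizedFactors e).toFinset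

variable {T β : ℕ} {a₁ M M₁ : k[X]}

lemma mem_EE {m : ℕ} {e : k[X]} : e ∈ EE T β a₁ M m ↔
    (e.Monic ∧ e.natDegree = m ∧ IsCoprime e M) ∧ Squarefree e ∧
      JJ T β a₁ M (normalizedFactors e).toFinset := by
  simp [EE]

lemma count_le {f : k[X]} {L : ℕ} (h1 : f.Monic) (h2 : Squarefree f) (h3 : IsCoprime f M)
    (h4 : f.natDegree ≤ 2 * L) :
    ((normalizedFactors f).toFinset.powerset.filter fun s =>
      s ≠ ∅ ∧ s ≠ (normalizedFactors f).toFinset ∧ JJ T β a₁ M s ∧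
        JJ T β a₁ M ((normalizedFactors f).toFinset \ s)).card ≤
      2 * ∑ m ∈ Icc 1 L, ((EE T β a₁ M m).filter (· ∣ f)).card := by
  set F := (normalizedFactors f).toFinset with hF
  have hF1 : ∀ s ⊆ F, ∀ p ∈ s, p.Monic ∧ Irreducible p := fun s hs p hp =>
    have := (mem_nf h1.ne_zero).1 (hs hp)
    ⟨this.2.1, this.1⟩
  have hF2 : ∏ p ∈ F, p = f := prod_toFinset_nf h1 h2
  set A := F.powerset.filter fun s => s ≠ ∅ ∧ JJ T β a₁ M s ∧ (∏ p ∈ s, p).natDegree ≤ L with hA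
  have h5 : A.card ≤ ∑ m ∈ Icc 1 L, ((EE T β a₁ M m).filter (· ∣ f)).card := by
    refine le_trans (card_le_card_of_injOn (fun s => ∏ p ∈ s, p) (fun s hs => ?_) ?_)
      card_biUnion_le
    · obtain ⟨h6, h7, h8, h9⟩ := mem_filter.1 (mem_coe.1 hs)
      have h10 := hF1 s (mem_powerset.1 h6)
      have h11 : ∏ p ∈ s, p ∣ f := hF2 ▸ prod_dvd_prod_of_subset _ _ _ (mem_powerset.1 h6)
      have h12 := monic_prod_of_monic s (fun p => p) fun p hp => (h10 p hp).1
      refine mem_coe.2 (mem_biUnion.2 ⟨_, mem_Icc.2 ⟨?_, h9⟩, mem_filter.2 ⟨mem_EE.2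
        ⟨⟨h12, rfl, h3.of_isCoprime_of_dvd_left h11⟩, h2.squarefree_of_dvd h11, ?_⟩, h11⟩⟩)
      · obtain ⟨p, hp⟩ := nonempty_iff_ne_empty.2 h7
        exact le_trans (h10 p hp).2.natDegree_pos
          (natDegree_le_of_dvd (dvd_prod_of_mem _ hp) h12.ne_zero)
      · rwa [nf_prod h10]
    · intro s hs t ht h
      have h6 := hF1 s (mem_powerset.1 (mem_filter.1 (mem_coe.1 hs)).1)
      have h7 := hF1 t (mem_powerset.1 (mem_filter.1 (mem_coe.1 ht)).1)
      rw [← nf_prod h6, ← nf_prod h7]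
      exact congrArg (fun x => (normalizedFactors x).toFinset) h
  refine le_trans (card_le_card (t := A ∪ A.image fun s => F \ s) fun s hs => ?_)
    ((card_union_le _ _).trans ?_)
  · obtain ⟨h6, h7, h8, h9, h10⟩ := mem_filter.1 hs
    have h11 := mem_powerset.1 h6
    by_cases h12 : (∏ p ∈ s, p).natDegree ≤ L
    · exact mem_union_left _ (mem_filter.2 ⟨h6, h7, h9, h12⟩)
    · refine mem_union_right _ (mem_image.2 ⟨F \ s, mem_filter.2 ⟨mem_powerset.2 sdiff_subset,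
        fun h => h8 (h11.antisymm (sdiff_eq_empty_iff_subset.1 h)), h10, ?_⟩,
        Finset.sdiff_sdiff_eq_self h11⟩)
      have h13 := prod_sdiff (f := fun p : k[X] => p) h11
      rw [hF2] at h13
      rw [← h13, (monic_prod_of_monic _ _ fun p hp => (hF1 _ sdiff_subset p hp).1).natDegree_mul
        (monic_prod_of_monic _ _ fun p hp => (hF1 _ h11 p hp).1)] at h4
      omega
  · have := card_image_le (s := A) (f := fun s => F \ s)
    omega

lemma fiber_le {d : ℕ} {a : WeierstrassCurve k[X]} {ν f₀ e : k[X]} (ha : DegLE a d)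
    (hT : GoodT T β d a) (h0 : e ≠ 0) (h1 : IsCoprime e (a.a₁ ^ 6 * ν))
    (h2 : e.natDegree ≤ 6 * d) :
    (((cell T β d a).filter fun t => e ∣ f₀ + ww a ν t).card : ℝ) ≤
      (Fintype.card k : ℝ) ^ ((NT k T β).natDegree + 2 * RR β) * (cell T β d a).card /
        (Fintype.card k : ℝ) ^ e.natDegree := by
  set A := 2 * d - ((NT k T β).natDegree + 2 * RR β) with hA
  set B := a.Δ.natDegree + 1 - (RR β + 6 * a.a₁.natDegree + (NT k T β).natDegree) with hB
  have h3 := (Bad.bd_PL (k := k) A).fib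
    (R := fun x y => y ∈ Bad.PL k B ∧ e ∣ f₀ + ww a ν (x, y))
    (c' := (Fintype.card k : ℝ) ^ (B + ((NT k T β).natDegree + 2 * RR β)) /
      (Fintype.card k : ℝ) ^ e.natDegree) (fun x _ => ?_) (Bad.qd _ _)
  · refine (h3 _ fun t ht => ?_).trans (le_of_eq ?_)
    · obtain ⟨h4, h5⟩ := mem_filter.1 ht
      exact ⟨(mem_cell.1 h4).1, (mem_cell.1 h4).2, h5⟩
    · rw [cell, card_product, Bad.card_PL, Bad.card_PL]
      push_cast
      ring
  · refine Bad.bd_cong h0 (fun y hy => ?_) (fun y z hy hz => ?_) ?_ le_rfl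
    · exact Bad.mem_PL_iff.2 ((Bad.mem_PL_iff.1 hy.1).imp id fun h => by omega)
    · refine h1.dvd_of_dvd_mul_left ?_
      convert dvd_sub hy.2 hz.2 using 1
      rw [ww_apply, ww_apply]
      ring
    · have := lt_deg_Δ hT
      have := ha.1
      unfold RR at *
      omega

lemma notWp {l z : k[X]} (hM : a₁ * M₁ ≠ 0) (h1 : l ∣ a₁)
    (h2 : ∀ p : k[X], p.Monic → Irreducible p → p ∣ l → ¬ p.natDegree ≤ T ∧ ¬ p ^ 2 ∣ a₁)
    (h3 : ¬ l ∣ z) (δ : k) : NotWp (a₁ * M₁) (PiT k T ^ β * M₁ * z + C δ * (a₁ * M₁)) := by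
  intro c hc
  have ha := left_ne_zero_of_mul hM
  have hl := ne_zero_of_dvd_ne_zero ha h1
  have hinj := RatFunc.algebraMap_injective k
  have h4 : algebraMap k[X] (RatFunc k) c.denom ≠ 0 := RatFunc.algebraMap_ne_zero c.denom_ne_zero
  have h5 : algebraMap k[X] (RatFunc k) (a₁ * M₁) ≠ 0 := RatFunc.algebraMap_ne_zero hM
  have h6 : (c.num ^ 2 + c.num * c.denom) * a₁ = c.denom ^ 2 * (PiT k T ^ β * z + C δ * a₁) := by
    refine mul_right_cancel₀ (right_ne_zero_of_mul hM) (hinj ?_)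
    rw [← RatFunc.num_div_denom c, eq_div_iff h5] at hc
    have h7 : algebraMap k[X] (RatFunc k) ((c.num ^ 2 + c.num * c.denom) * a₁ * M₁) =
        algebraMap k[X] (RatFunc k) c.denom ^ 2 *
          (((algebraMap k[X] (RatFunc k) c.num / algebraMap k[X] (RatFunc k) c.denom) ^ 2 +
            algebraMap k[X] (RatFunc k) c.num / algebraMap k[X] (RatFunc k) c.denom) *
            algebraMap k[X] (RatFunc k) (a₁ * M₁)) := by
      simp only [map_mul, map_add, map_pow]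
      field_simp
    rw [h7, hc, ← map_pow, ← map_mul]
    congr 1
    ring
  have h7 : IsCoprime (c.denom ^ 2) (c.num ^ 2 + c.num * c.denom) :=
    IsCoprime.pow_left ((RatFunc.isCoprime_num_denom c).symm.pow_right.add_mul_right_right _)
  obtain ⟨a', h8⟩ := h7.dvd_of_dvd_mul_left ⟨_, h6⟩
  have h9 : (c.num ^ 2 + c.num * c.denom) * a' = PiT k T ^ β * z + C δ * a₁ := by
    refine mul_left_cancel₀ (pow_ne_zero 2 c.denom_ne_zero) ?_
    rw [← h6, h8]
    ring
  have h10 : IsCoprime l (c.denom ^ 2) := IsCoprime.pow_right (cop_of_monic hl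
    fun p h10 h11 h12 h13 => (h2 p h10 h11 h12).2 ((pow_dvd_pow_of_dvd h13 2).trans ⟨a', h8⟩))
  have h11 : IsCoprime l (PiT k T ^ β) := IsCoprime.pow_right (cop_of_monic hl
    fun p h10 h11 h12 h13 => (h2 p h10 h11 h12).1 ((dvd_PiT h10 h11).1 h13))
  have h12 : l ∣ a' := h10.dvd_of_dvd_mul_left (h8 ▸ h1)
  refine h3 (h11.dvd_of_dvd_mul_left ?_)
  exact (dvd_add_left (h1.mul_left _)).1 (h9 ▸ h12.mul_left _)

variable [CharP k 2]

lemma exists_neg {p : k[X]} (hp : GoodP M p) : ∃ n, sgP p M n = -1 := by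
  have := Fact.mk hp.2.1
  have : CharP (AdjoinRoot p) 2 := charP_of_injective_algebraMap (algebraMap k _).injective 2
  have := (AdjoinRoot.powerBasis hp.1.ne_zero).finite
  have : Finite (AdjoinRoot p) := Module.finite_of_finite k
  have h0 : AdjoinRoot.mk p M ≠ 0 := fun h => hp.2.2 (AdjoinRoot.mk_eq_zero.1 h)
  obtain ⟨δ, hδ⟩ : ∃ δ, δ ∉ (wpS (AdjoinRoot p)).range := by
    by_contra h
    push Not at h
    have h1 := index_wp (AdjoinRoot p)
    rw [(AddSubgroup.eq_top_iff' _).2 h, AddSubgroup.index_top] at h1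
    omega
  obtain ⟨c, rfl⟩ := AdjoinRoot.mk_surjective δ
  refine ⟨c * M, ?_⟩
  rw [sgP_eq hp.2.2, map_mul, mul_div_cancel_right₀ _ h0, if_neg hδ]

lemma EE_small {m : ℕ} (hP : PiT k T ∣ a₁ * M₁) (h1 : 1 ≤ m)
    (h2 : m + β * (PiT k T).natDegree ≤ a₁.natDegree) : EE T β a₁ (a₁ * M₁) m = ∅ := by
  refine eq_empty_of_forall_notMem fun e he => ?_
  obtain ⟨⟨h3, h4, h5⟩, h6, h7⟩ := mem_EE.1 he
  obtain ⟨p, hp⟩ := exists_mem_normalizedFactors h3.ne_zero fun h => by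
    have := natDegree_eq_zero_of_isUnit h
    omega
  have hp' := Multiset.mem_toFinset.2 hp
  obtain ⟨h8, h9, e', h10⟩ := (mem_nf h3.ne_zero).1 hp'
  have h11 : ¬ p ∣ a₁ * M₁ := fun h => h8.not_isUnit (h5.isUnit_of_dvd' ⟨e', h10⟩ h)
  obtain ⟨n, hn⟩ := exists_neg (M := a₁ * M₁) ⟨h9, h8, h11⟩
  obtain ⟨u, v, huv⟩ : IsCoprime p (PiT k T ^ β * M₁ * e') := by
    refine h8.coprime_iff_not_dvd.2 fun h => ?_
    rcases h8.prime.dvd_or_dvd h with h | h
    · rcases h8.prime.dvd_or_dvd h with h | h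
      · exact h11 ((h8.prime.dvd_of_dvd_pow h).trans hP)
      · exact h11 (h.mul_left _)
    · exact h8.not_isUnit (h6 p (h10 ▸ mul_dvd_mul_left p h))
  have h12 := natDegree_modByMonic_lt (v * n) h9 h8.ne_one
  have h13 := natDegree_mul_le (p := e') (q := (v * n) %ₘ p)
  have h14 : e' ≠ 0 := fun h => h3.ne_zero (by rw [h10, h, mul_zero])
  rw [h10, natDegree_mul h9.ne_zero h14] at h4
  have h15 := h7 (e' * ((v * n) %ₘ p)) (PiT k T ^ β * M₁ * (e' * ((v * n) %ₘ p))) (by omega)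
    (by ring)
  rw [← mul_prod_erase _ _ hp', prod_eq_one, sgP_congr (n' := n), hn] at h15
  · norm_num at h15
  · refine ⟨-(PiT k T ^ β * M₁ * e' * ((v * n) /ₘ p)) - u * n, ?_⟩
    rw [modByMonic_eq_sub_mul_div]
    linear_combination n * huv
  · intro p' h16
    obtain ⟨h17, h18⟩ := mem_erase.1 h16
    obtain ⟨h19, h20, h21⟩ := (mem_nf h3.ne_zero).1 h18
    rw [h10] at h21
    have h22 := (h19.prime.dvd_or_dvd h21).resolve_left fun h => h17 (eq_of_dvd_irr h20 h19 h9 h8 h)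
    rw [sgP_congr (n' := 0) _ (by rw [sub_zero]; exact (h22.mul_right _).mul_left _), sgP_zero]

lemma char_sum {e : k[X]} (u : k[X]) (n : ℕ) (h0 : e ≠ 0) (h1 : IsCoprime e M) :
    0 ≤ (∑ z ∈ Bad.PL k n, sfw (fun p => sgP p M (u * z)) e).re := by
  by_cases h2 : Squarefree e
  swap
  · simp [sfw, h2]
  simp only [sfw, if_pos h2]
  set χ : k[X] → ℂ := fun z => ∏ p ∈ (normalizedFactors e).toFinset, sgP p M (u * z) with hχ
  change 0 ≤ (∑ z ∈ Bad.PL k n, χ z).re
  by_cases h3 : ∀ z ∈ Bad.PL k n, χ z = 1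
  · rw [sum_congr rfl h3]
    simp
  push Not at h3
  obtain ⟨z₀, h3, h4⟩ := h3
  have h5 : ∀ z, χ (z - z₀) * χ z₀ = χ z := fun z => by
    rw [hχ, ← prod_mul_distrib]
    refine prod_congr rfl fun p hp => ?_
    obtain ⟨h5, h6, h7⟩ := (mem_nf h0).1 hp
    rw [← sgP_add ⟨h6, h5, fun h => h5.not_isUnit (h1.isUnit_of_dvd' h7 h)⟩, ← mul_add,
      sub_add_cancel]
  have h6 : ∑ z ∈ Bad.PL k n, χ (z - z₀) = ∑ z ∈ Bad.PL k n, χ z := by
    refine sum_nbij' (fun z => z - z₀) (fun z => z - (0 - z₀)) (fun z hz => Bad.sub_mem_PL hz h3)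
      (fun z hz => Bad.sub_mem_PL hz (Bad.sub_mem_PL (Bad.mem_PL_iff.2 (Or.inl rfl)) h3))
      (fun z _ => by ring) (fun z _ => by ring) fun z _ => rfl
  have h7 : (∑ z ∈ Bad.PL k n, χ z) * (χ z₀ - 1) = 0 := by
    rw [mul_sub, mul_one, sub_eq_zero]
    conv_lhs => rw [← h6, sum_mul]
    exact sum_congr rfl fun z _ => h5 z
  rw [(mul_eq_zero.1 h7).resolve_right (sub_ne_zero.2 h4)]
  simp

lemma EE_large {m n : ℕ} {B : ℝ} (hB : 0 ≤ B) (h1 : 1 ≤ n)
    (h2 : n + β * (PiT k T).natDegree ≤ a₁.natDegree)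
    (h3 : ∀ z ∈ Bad.PL k n, z ≠ 0 →
      ‖SF (a₁ * M₁) (fun p => sgP p (a₁ * M₁) (PiT k T ^ β * M₁ * z)) m‖ ≤ B) :
    (Fintype.card k : ℝ) ^ n * (EE T β a₁ (a₁ * M₁) m).card ≤
      (Fintype.card k : ℝ) ^ (m + 1) + (Fintype.card k : ℝ) ^ n * B := by
  set M := a₁ * M₁ with hM
  set U := (finite_SF M m).toFinset with hU
  have hU' : ∀ e ∈ U, e.Monic ∧ e.natDegree = m ∧ IsCoprime e M := fun e he =>
    (finite_SF M m).mem_toFinset.1 he
  have h4 : ∀ h, SF M h m = ∑ e ∈ U, sfw h e := fun h =>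
    finsum_mem_eq_finite_toFinset_sum _ (finite_SF M m)
  have hz : (0 : k[X]) ∈ Bad.PL k n := Bad.mem_PL_iff.2 (Or.inl rfl)
  calc (Fintype.card k : ℝ) ^ n * (EE T β a₁ M m).card
      = ∑ e ∈ EE T β a₁ M m,
          (∑ z ∈ Bad.PL k n, sfw (fun p => sgP p M (PiT k T ^ β * M₁ * z)) e).re := by
        rw [mul_comm, ← nsmul_eq_mul, ← sum_const]
        refine sum_congr rfl fun e he => ?_
        obtain ⟨-, h5, h6⟩ := mem_EE.1 he
        rw [sum_congr rfl (g := fun _ => 1) fun z hz => ?_]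
        · rw [sum_const, nsmul_eq_mul, mul_one, Complex.natCast_re, Bad.card_PL, Nat.cast_pow]
        · rw [sfw, if_pos h5]
          refine h6 z _ ?_ (by rw [hM]; ring)
          rcases Bad.mem_PL_iff.1 hz with h | h
          · rw [h, natDegree_zero]
            omega
          · omega
    _ ≤ ∑ e ∈ U, (∑ z ∈ Bad.PL k n, sfw (fun p => sgP p M (PiT k T ^ β * M₁ * z)) e).re :=
        sum_le_sum_of_subset_of_nonneg (filter_subset _ _) fun e he _ =>
          char_sum _ _ (hU' e he).1.ne_zero (hU' e he).2.2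
    _ = (∑ z ∈ Bad.PL k n, SF M (fun p => sgP p M (PiT k T ^ β * M₁ * z)) m).re := by
        rw [← Complex.re_sum, sum_comm]
        simp only [h4]
    _ ≤ ∑ z ∈ Bad.PL k n, ‖SF M (fun p => sgP p M (PiT k T ^ β * M₁ * z)) m‖ :=
        (Complex.re_le_norm _).trans (norm_sum_le _ _)
    _ ≤ _ := by
        rw [← add_sum_erase _ _ hz]
        refine add_le_add ?_ ?_
        · rw [h4]
          refine (norm_sum_le _ _).trans ((sum_le_card_nsmul _ _ 1 fun e _ =>
            norm_sfw_le _ _ _).trans ?_)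
          rw [nsmul_eq_mul, mul_one]
          exact Bad.bd_PL (m + 1) U fun e he => Bad.mem_PL_succ.2 (hU' e he).2.1.le
        · refine (sum_le_card_nsmul _ _ B fun z hz =>
            h3 z (mem_erase.1 hz).2 (mem_erase.1 hz).1).trans ?_
          rw [nsmul_eq_mul]
          exact mul_le_mul_of_nonneg_right
            (Bad.bd_PL n _ fun z hz => (mem_erase.1 hz).2) hB

end Pool.Agent.Lib.MP_a3f657_nt.Two.Cel
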