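import Pool.Agent.Lib.MP_a3f657_nt.C2Gp

/-!
Curves with prescribed local behaviour: parity and the pairing.
-/

set_option linter.unusedSectionVars false

namespace Pool.Agent.Lib.MP_a3f657_nt.Two

open Polynomial IsDedekindDomain

open scoped Classical

variable {k : Type} [Field k] [Finite k] [CharP k 2]

/-- The local data that are fixed on a cell. -/
structure Dat (k : Type) [Field k] [Finite k] [CharP k 2] where
  /-- The base value of `B`. -/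
  P : PB (RatFunc k)
  /-- The base value of `A`. -/
  A : RatFunc k
  /-- The small places. -/
  Sg : Finset (Pl k)
  /-- The large supersingular places. -/
  S1 : Finset (Pl k)
  /-- The bound for the valuations. -/
  β : ℤ
  inf : none ∈ Sg
  disj : ∀ v ∈ S1, v ∉ Sg
  bnd : ∀ v ∈ Sg, Bnd (pl v) P A β

/-- A curve of the cell with multiplicative places `Sf`. -/
structure Cfg (D : Dat k) (W : WeierstrassCurve (RatFunc k)) (P : PB (RatFunc k))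
    (Sf : Finset (Pl k)) : Prop where
  nd : Nd W P
  d2 : ∀ v ∈ Sf, v ∉ D.Sg
  d3 : ∀ v ∈ Sf, v ∉ D.S1
  bnd : ∀ v ∈ D.Sg, Bnd (pl v) P (nA W) D.β
  hA : ∀ v ∈ D.Sg, D.A + nA W ∈ Fil (val v) 1
  hB : ∀ v ∈ D.Sg, 1 + P.b / D.P.b ∈ Fil (val v) (21 * D.β + 7)
  ss : ∀ v ∈ D.S1, Intg (pl v) W ∧ ord (val v) W.a₁ = 1 ∧ ord (val v) W.a₃ = 0 ∧ W.a₃ ≠ 0
  int : ∀ v ∉ D.Sg, v ∉ D.S1 → nA W ∈ Fil (val v) 0
  mult : ∀ v ∈ Sf, ord (val v) P.b = 1
  good : ∀ v ∉ D.Sg, v ∉ D.S1 → v ∉ Sf → ord (val v) P.b = 0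

namespace Dat

variable (D : Dat k)

lemma nn : 0 ≤ D.β := (D.bnd _ D.inf).nn

/-- The product of the local indices. -/
noncomputable def n0 : ℕ := (∏ v ∈ D.Sg, (pl v).PW.relIndex ((cmp v).AA D.P D.A)) *
  ∏ v ∈ D.S1, (pl v).PW.relIndex (Fil (val v) (-1) ⊔ (pl v).PW)

/-- The sign of the cell. -/
noncomputable def sign : ℝ := (-1) ^ (D.Sg.card + D.S1.card + Nat.log 2 D.n0)

/-- The allowed pole orders. -/
noncomputable def lev (v : Pl k) : ℤ :=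
  if v ∈ D.Sg then -(7 * D.β + 2) else if v ∈ D.S1 then -1 else 0

/-- The space of first components. -/
noncomputable def V : AddSubgroup (RatFunc k) :=
  (⨅ v ∈ D.Sg, (cmp v).AA D.P D.A) ⊓ ⨅ v, Fil (val v) (D.lev v)

/-- The functions whose Artin-Schreier value lies in `V`. -/
noncomputable def C0 : AddSubgroup (RatFunc k) := D.V.comap wpH

/-- The contribution of the small places to the pairing. -/
noncomputable def CC (α : RatFunc k) : RatFunc k →+ ZMod 2 := ∑ v ∈ D.Sg, (cmp v).cc D.P D.A α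

variable {D} {α : RatFunc k} {v : Pl k}

lemma mem_V : α ∈ D.V ↔ (∀ v ∈ D.Sg, α ∈ (cmp v).AA D.P D.A) ∧ ∀ v, α ∈ Fil (val v) (D.lev v) := by
  simp [V, AddSubgroup.mem_iInf]

lemma lev_Sg (h : v ∈ D.Sg) : D.lev v = -(7 * D.β + 2) := if_pos h

lemma lev_S1 (h : v ∈ D.S1) : D.lev v = -1 := by rw [lev, if_neg (D.disj v h), if_pos h]

lemma lev_zero (h : v ∉ D.Sg) (h' : v ∉ D.S1) : D.lev v = 0 := by rw [lev, if_neg h, if_neg h']

lemma lev_le (v : Pl k) : D.lev v ≤ 0 := by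
  have := D.nn
  unfold lev
  split_ifs <;> omega

end Dat

lemma exists_lev {α : RatFunc k} (n : Pl k → ℤ) (hn : ∀ v, n v ≤ 0)
    (h : ∀ v, ∃ c, α + wp c ∈ Fil (val v) (n v)) : ∃ c, ∀ v, α + wp c ∈ Fil (val v) (n v) := by
  choose c hc using h
  obtain ⟨x, h1, h2⟩ := exists_principal (finite_poles α).toFinset c
  refine ⟨x, fun v => ?_⟩
  by_cases h : α ∈ Fil (val v) 0
  · exact Fil.mono (add_mem h (Fil.wp (h2 v (by simp [h])) le_rfl le_rfl)) (hn v)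
  · rw [show α + wp x = α + wp (c v) + wp (c v - x) by unfold wp; grind]
    exact add_mem (hc v) (Fil.wp (h1 v (by simp [h])) (hn v) (by have := hn v; omega))

variable {D : Dat k} {W : WeierstrassCurve (RatFunc k)} {P : PB (RatFunc k)} {Sf : Finset (Pl k)}
  {v : Pl k} {α α' u u' : RatFunc k}

variable (D W P) in
/-- The pairs that satisfy all local conditions. -/
noncomputable def ZZ : AddSubgroup (RatFunc k × RatFunc k) :=
  (⨅ v, (cmp v).Lt P (nA W)) ⊓ D.V.comap (AddMonoidHom.fst _ _)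

lemma mem_ZZ : (α, u) ∈ ZZ D W P ↔ (∀ v, (α, u) ∈ (cmp v).Lt P (nA W)) ∧ α ∈ D.V := by
  simp [ZZ, AddSubgroup.mem_iInf]

namespace Cfg

variable (h : Cfg D W P Sf)
include h

lemma AA_Sg (hv : v ∈ D.Sg) : (cmp v).AA P (nA W) = (cmp v).AA D.P D.A := by
  have := D.nn
  refine le_antisymm (Cmp.near_AA (N := 21 * D.β + 7) (h.bnd v hv) (add_comm D.A _ ▸ h.hA v hv) ?_
    (by omega)) (Cmp.near_AA (D.bnd v hv) (h.hA v hv) (h.hB v hv) (by omega))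
  obtain ⟨h1, h2⟩ := ord_one_add (Fil.mono (h.hB v hv) (by omega : (1 : ℤ) ≤ _))
  have h3 := P.b_ne
  have h4 := D.P.b_ne
  rw [← add_assoc, two_K, zero_add] at h1 h2
  rw [show 1 + D.P.b / P.b = (1 + P.b / D.P.b) / (P.b / D.P.b) by field_simp; ring]
  exact Fil.div (h.hB v hv) (by change _ ≤ _ - ord (val v) _; omega)

lemma AA_S1 (hv : v ∈ D.S1) : (cmp v).AA P (nA W) = Fil (val v) (-1) ⊔ (pl v).PW :=
  Cmp.ss_AA h.nd (h.ss v hv).1 (h.ss v hv).2.1 (h.ss v hv).2.2.1 (h.ss v hv).2.2.2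

lemma AA_Sf (hv : v ∈ Sf) : (cmp v).AA P (nA W) = (pl v).PW :=
  Cmp.mult_AA (h.int v (h.d2 v hv) (h.d3 v hv)) (h.mult v hv)

lemma goodOut : GoodOut P (nA W) (D.Sg ∪ D.S1 ∪ Sf) :=
  ⟨by simp [D.inf], fun v hv => h.int v (by simp_all) (by simp_all),
    fun v hv => h.good v (by simp_all) (by simp_all) (by simp_all)⟩

lemma disj1 : Disjoint D.Sg D.S1 := Finset.disjoint_right.2 D.disj

lemma disj2 : Disjoint (D.Sg ∪ D.S1) Sf :=
  Finset.disjoint_right.2 fun v hv => by simp [h.d2 v hv, h.d3 v hv]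

theorem parity : ∃ r, Nat.card (Sel P (nA W)) = 2 ^ r ∧
    (-1 : ℝ) ^ r = D.sign * (-1) ^ Sf.card := by
  obtain ⟨i, j, e⟩ := h.goodOut.sel_formula
  have e0 : ∏ v ∈ D.Sg ∪ D.S1 ∪ Sf, (pl v).PW.relIndex ((cmp v).AA P (nA W)) ≠ 0 :=
    Finset.prod_ne_zero_iff.2 fun v _ => by
      rw [Cmp.relIndex_eq]
      exact ((cmp v).dual P _).1
  have e1 : ∏ v ∈ D.Sg ∪ D.S1 ∪ Sf, (pl v).PW.relIndex ((cmp v).AA P (nA W)) = D.n0 := by
    rw [Finset.prod_union h.disj2, Finset.prod_union h.disj1, Dat.n0,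
      Finset.prod_congr rfl fun v hv => congrArg _ (h.AA_Sg hv),
      Finset.prod_congr rfl fun v hv => congrArg _ (h.AA_S1 hv),
      Finset.prod_eq_one (s := Sf) fun v hv => by rw [h.AA_Sf hv, AddSubgroup.relIndex_self], mul_one]
  rw [e1] at e e0
  have : Finite (Sel P (nA W)) := Nat.finite_of_card_ne_zero fun e2 => by
    rw [e2, zero_mul, zero_mul] at e
    exact mul_ne_zero (by positivity) e0 e.symm
  obtain ⟨r, hr⟩ := card_two_pow (V := Sel P (nA W)) fun x => Subtype.ext (two_K _)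
  rw [hr, Finset.card_union_of_disjoint h.disj2, Finset.card_union_of_disjoint h.disj1,
    show 4 = 2 ^ 2 by rfl, ← pow_mul, ← pow_mul, ← pow_add, ← pow_add] at e
  obtain ⟨m, -, hm⟩ := (Nat.dvd_prime_pow Nat.prime_two).1 (show D.n0 ∣ _ from ⟨_, by
    rw [e, mul_comm]⟩)
  rw [hm, ← pow_add] at e
  have e3 := Nat.pow_right_injective le_rfl e
  refine ⟨r, hr, ?_⟩
  rw [Dat.sign, hm, Nat.log_pow one_lt_two, ← pow_add, neg_one_pow_eq_pow_mod_two,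
    neg_one_pow_eq_pow_mod_two (n := _ + _ + _ + _)]
  congr 1
  omega

lemma exists_V (hα : ∀ v, α ∈ (cmp v).AA P (nA W)) : ∃ c, α + wp c ∈ D.V := by
  obtain ⟨c, hc⟩ := exists_lev (α := α) D.lev Dat.lev_le fun v => by
    have := D.nn
    by_cases h1 : v ∈ D.Sg
    · obtain ⟨c, hc⟩ := Cmp.bdd_AA (h.bnd v h1) (hα v)
      exact ⟨c, Fil.mono hc (by rw [Dat.lev_Sg h1])⟩
    by_cases h2 : v ∈ D.S1
    · obtain ⟨x, hx, y, hy, e⟩ := AddSubgroup.mem_sup.1 (h.AA_S1 h2 ▸ hα v)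
      obtain ⟨c, hc⟩ := (pl v).mem_PW.1 hy
      rw [Dat.lev_S1 h2, ← e]
      exact ⟨c, add_assoc x _ _ ▸ add_mem hx (Fil.mono hc (by omega))⟩
    rw [Dat.lev_zero h1 h2]
    by_cases h3 : v ∈ Sf
    · obtain ⟨c, hc⟩ := (pl v).mem_PW.1 (h.AA_Sf h3 ▸ hα v)
      exact ⟨c, Fil.mono hc (by omega)⟩
    · exact Cmp.good_AA (h.int v h1 h2) (h.good v h1 h2 h3) (hα v)
  exact ⟨c, Dat.mem_V.2 ⟨fun v hv => h.AA_Sg hv ▸
    add_mem (hα v) (Cmp.PW_le_AA ((pl v).wp_mem_PW c)), hc⟩⟩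

lemma card_ZZ : Nat.card (ZZ D W P) = Nat.card (Sel P (nA W)) * Nat.card D.C0 := by
  have e1 : (ZZ D W P).map (cls P) = Sel P (nA W) := by
    refine le_antisymm ?_ fun s hs => ?_
    · rintro _ ⟨⟨α, u⟩, hz, rfl⟩
      exact mem_Sel.2 fun v => (Cmp.mem_Lt.1 ((mem_ZZ.1 hz).1 v)).2
    · have h1 := fun v => Cmp.bsq_mem_Lt.2 (mem_Sel.1 hs v)
      obtain ⟨c, hc⟩ := h.exists_V fun v => Cmp.AA_of_Lt (h1 v)
      refine ⟨(P.b * s ^ 2 + wp c, c), mem_ZZ.2 ⟨fun v => ?_, hc⟩, ?_⟩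
      · simpa using add_mem (h1 v) (Cmp.wp_mem_Lt (C := cmp v) c)
      · rw [cls_apply, add_assoc, two_K, add_zero, PB.c1_b_sq]
  have e2 : (((cls P).ker.addSubgroupOf (ZZ D W P)).map (ZZ D W P).subtype) =
      D.C0.map (wpH.prod (AddMonoidHom.id _)) := by
    refine le_antisymm ?_ ?_
    · rintro _ ⟨⟨⟨α, u⟩, hz⟩, h1, rfl⟩
      have h2 := P.eq_b_sq (mem_Ht.1 (Cmp.Lt_le_Ht ((mem_ZZ.1 hz).1 none)))
      have h3 : P.c1 (α + wp u) = 0 := h1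
      rw [h3] at h2
      have h4 : wp u = α := by grind
      exact ⟨u, show wp u ∈ D.V from h4 ▸ (mem_ZZ.1 hz).2, Prod.ext h4 rfl⟩
    · rintro _ ⟨c, hc, rfl⟩
      exact ⟨⟨(wp c, c), mem_ZZ.2 ⟨fun v => Cmp.wp_mem_Lt c, hc⟩⟩, by
        change P.c1 (wp c + wp c) = 0
        simp [two_K], rfl⟩
  rw [← ((cls P).ker.addSubgroupOf (ZZ D W P)).index_mul_card, ← AddSubgroup.relIndex,
    AddSubgroup.relIndex_ker, e1, ← AddSubgroup.card_map_of_injective (ZZ D W P).subtype_injective,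
    e2, AddSubgroup.card_map_of_injective fun a b e => congrArg Prod.snd e]

lemma int_Sf (hz : (α, u) ∈ ZZ D W P) (hv : v ∈ Sf) :
    u ∈ Fil (val v) 0 ∧ α + wp u ∈ Fil (val v) 1 :=
  Ht_mult (L := pl v) (h.mult v hv) (Dat.lev_zero (h.d2 v hv) (h.d3 v hv) ▸
    (Dat.mem_V.1 (mem_ZZ.1 hz).2).2 v) (Cmp.Lt_le_Ht ((mem_ZZ.1 hz).1 v))

lemma pairing (hz : (α, u) ∈ ZZ D W P) (hα : α' ∈ D.V) :
    D.CC α α' + ∑ v ∈ Sf, (pl v).tau (u * α') = 0 := by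
  obtain ⟨h1, h2⟩ := mem_ZZ.1 hz
  obtain ⟨h2, h3⟩ := Dat.mem_V.1 h2
  obtain ⟨h4, h5⟩ := Dat.mem_V.1 hα
  have := D.nn
  rw [← sum_rho (P := P) (x := α' * u) (D.Sg ∪ Sf) fun v hv => ?_,
    Finset.sum_union (Finset.disjoint_right.2 h.d2), Dat.CC, AddMonoidHom.finsetSum_apply]
  · congr 1 <;> refine Finset.sum_congr rfl fun v hv => ?_
    · exact (Cmp.near_cc (b := 7 * D.β + 2) (D.bnd v hv) (h.hA v hv) (h.hB v hv) (by omega)
        (by omega) (by omega) (h2 v hv) (Dat.lev_Sg hv ▸ h3 v) (h.AA_Sg hv ▸ h4 v hv)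
        (Dat.lev_Sg hv ▸ h5 v) (h1 v)).symm
    · rw [mul_comm, rho_mult (h.mult v hv) (Fil.mul (h5 v) (h.int_Sf hz hv).1
        (by rw [Dat.lev_zero (h.d2 v hv) (h.d3 v hv)]; rfl))]
  · rw [Finset.mem_union, not_or] at hv
    rw [PreLoc.rho_apply, mul_assoc]
    refine (pl v).r_int _ ?_
    by_cases h6 : v ∈ D.S1
    · exact Fil.mul (h5 v) (Cmp.ss_Lt h.nd (h.ss v h6).1 (h.ss v h6).2.1 (h.ss v h6).2.2.1
        (h.ss v h6).2.2.2 (h1 v) (Dat.lev_S1 h6 ▸ h3 v)) (by rw [Dat.lev_S1 h6]; rfl)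
    · exact Fil.mul (h5 v) (Cmp.good_Lt (h.int v hv.1 h6) (h.good v hv.1 h6 hv.2) (h1 v)
        (Dat.lev_zero hv.1 h6 ▸ h3 v)) (by rw [Dat.lev_zero hv.1 h6]; rfl)

lemma inj (hz : (α, u) ∈ ZZ D W P) (hz' : (α, u') ∈ ZZ D W P)
    (he : ∀ v ∈ Sf, u + u' ∈ Fil (val v) 1) {x : RatFunc k} (h0 : x ≠ 0)
    (h1 : x ∈ Fil (val none) 0) (h2 : ∀ v, some v ∈ D.Sg → x ∈ Fil (val (some v)) 1)
    (h3 : ∀ v, x ∈ Fil (val v) (D.lev v)) : u = u' := by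
  have h4 : ∀ v, (0, u + u') ∈ (cmp v).Lt P (nA W) := fun v =>
    Cmp.mem_BB.1 (Cmp.sub_mem_BB ((mem_ZZ.1 hz).1 v) ((mem_ZZ.1 hz').1 v))
  have h5 : u + u' ∈ Log P := Cmp.BB_le_Log (Cmp.mem_BB.2 (h4 none))
  obtain ⟨a, ha⟩ := exists_poly (x := (u + u') * (PX k).dlg P.b * x) fun v => by
    have key : ∀ a, (u + u') * (pl (some v)).P.dlg P.b ∈ Fil (val (some v)) a →
        (u + u') * (PX k).dlg P.b ∈ Fil (val (some v)) a := fun a ha => by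
      simpa [eD] using mul_dlg_mem.2 ha
    by_cases h6 : some v ∈ D.Sg
    · exact Fil.mul (key _ ((pl _).Log_omega_mem P h5)) (h2 v h6) (by omega)
    by_cases h7 : some v ∈ D.S1
    · exact Fil.mul (key _ (Cmp.ss_Lt h.nd (h.ss _ h7).1 (h.ss _ h7).2.1 (h.ss _ h7).2.2.1
        (h.ss _ h7).2.2.2 (h4 _) (zero_mem _))) (h3 _) (by rw [Dat.lev_S1 h7]; rfl)
    refine Fil.mul (key 0 ?_) (h3 _) (by rw [Dat.lev_zero h6 h7]; rfl)
    by_cases h8 : some v ∈ Sf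
    · exact Fil.mul (he _ h8) (PreLoc.dlog_mem (L := pl (some v)) P.b) (by omega)
    · exact Cmp.good_Lt (h.int _ h6 h7) (h.good _ h6 h7 h8) (h4 _) (zero_mem _)
  have h6 := eq_zero_of_none (ha ▸ Fil.mul (Log_none h5) h1 (by omega))
  rw [h6, ι, map_zero] at ha
  have h7 := (mul_eq_zero.1 ((mul_eq_zero.1 ha.symm).resolve_right h0)).resolve_right (dlg_ne _ _)
  grind

end Cfg

end Pool.Agent.Lib.MP_a3f657_nt.Two
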