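import Pool.Agent.Lib.MP_a3f657_nt.C2Res

/-!
Completions.
-/

set_option linter.unusedSectionVars false

namespace Pool.Agent.Lib.MP_a3f657_nt.Two

open WithZero Polynomial IsDedekindDomain Filter Topology

open scoped Classical

variable {K : Type} [Field K]

/-- Completeness of a discrete valuation. -/
def Cpl (w : Valuation K ℤᵐ⁰) : Prop :=
  ∀ x : ℕ → K, (∀ n : ℕ, x (n + 1) - x n ∈ Fil w n) → ∃ l, ∀ n : ℕ, l - x n ∈ Fil w n

lemma Cpl.fix {w : Valuation K ℤᵐ⁰} (h : Cpl w) (φ : K → K) (a : ℤ)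
    (h1 : ∀ x ∈ Fil w a, φ x ∈ Fil w a)
    (h2 : ∀ x ∈ Fil w a, ∀ y ∈ Fil w a, ∀ n, x - y ∈ Fil w n → φ x - φ y ∈ Fil w (n + 1)) :
    ∃ z ∈ Fil w a, φ z = z := by
  have h3 : ∀ n : ℕ, φ^[n] 0 ∈ Fil w a := fun n => by
    induction n with
    | zero => exact zero_mem _
    | succ n ih => rw [Function.iterate_succ_apply']; exact h1 _ ih
  have h4 : ∀ n : ℕ, φ^[n + 1] 0 - φ^[n] 0 ∈ Fil w (a + n) := fun n => by
    induction n with
    | zero => exact Fil.mono (sub_mem (h3 _) (h3 _)) (by simp)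
    | succ n ih =>
      have := h2 _ (h3 _) _ (h3 _) _ ih
      rw [← Function.iterate_succ_apply' φ, ← Function.iterate_succ_apply' φ] at this
      exact Fil.mono this (by push_cast; omega)
  obtain ⟨l, hl⟩ := h (fun n => φ^[n + a.natAbs] 0) fun n => by
    rw [add_right_comm]; exact Fil.mono (h4 _) (by omega)
  have h5 : l ∈ Fil w a := by
    simpa using add_mem (Fil.mono (hl a.natAbs) (b := a) (by omega)) (h3 (a.natAbs + a.natAbs))
  refine ⟨l, h5, sub_eq_zero.1 (eq_zero_of_Fil (w := w) fun n => ?_)⟩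
  have h6 := h2 _ h5 _ (h3 _) _ (hl n)
  rw [← Function.iterate_succ_apply' φ] at h6
  have h7 := hl (n + 1)
  simp only [add_right_comm n 1] at h7
  simpa using sub_mem (Fil.mono h6 (b := n) (by omega)) (Fil.mono h7 (b := n) (by push_cast; omega))

lemma Cpl.fix4 {w : Valuation K ℤᵐ⁰} (h : Cpl w) {a : ℤ} {c₀ c₂ c₃ c₄ : K} (h0 : c₀ ∈ Fil w a)
    (h2 : c₂ ∈ Fil w (1 - a)) (h3 : c₃ ∈ Fil w (1 - 2 * a)) (h4 : c₄ ∈ Fil w (1 - 3 * a)) :
    ∃ z ∈ Fil w a, c₀ + c₂ * z ^ 2 + c₃ * z ^ 3 + c₄ * z ^ 4 = z := by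
  refine h.fix (fun z => c₀ + c₂ * z ^ 2 + c₃ * z ^ 3 + c₄ * z ^ 4) a (fun x hx => ?_)
    fun x hx y hy n hn => ?_
  · exact add_mem (add_mem (add_mem h0 (Fil.mul h2 (Fil.sq hx le_rfl) (by omega)))
      (Fil.mul h3 (Fil.pow hx 3 le_rfl) (by push_cast; omega)))
      (Fil.mul h4 (Fil.pow hx 4 le_rfl) (by push_cast; omega))
  · rw [show c₀ + c₂ * x ^ 2 + c₃ * x ^ 3 + c₄ * x ^ 4 - (c₀ + c₂ * y ^ 2 + c₃ * y ^ 3 + c₄ * y ^ 4) =
      (x - y) * (c₂ * (x + y) + c₃ * (x ^ 2 + x * y + y ^ 2) + c₄ * ((x + y) * (x ^ 2 + y ^ 2))) by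
        ring]
    have hx2 := Fil.sq hx le_rfl
    have hy2 := Fil.sq hy le_rfl
    exact Fil.mul hn (add_mem (add_mem (Fil.mul h2 (add_mem hx hy) (c := 1) (by omega))
      (Fil.mul h3 (add_mem (add_mem hx2 (Fil.mul hx hy (by omega))) hy2) (by omega)))
      (Fil.mul h4 (Fil.mul (add_mem hx hy) (add_mem hx2 hy2) le_rfl) (by omega))) le_rfl

section top

variable [Valued K ℤᵐ⁰] {π : K}

lemma Fil_nhds (hπ : ord Valued.v π = 1) (n : ℤ) :
    ((Fil Valued.v n : AddSubgroup K) : Set K) ∈ 𝓝 (0 : K) := by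
  have h0 : π ≠ 0 := by rintro rfl; simp at hπ
  have h1 : Valued.v.restrict (π ^ n) ≠ 0 := by simp [h0, zpow_ne_zero]
  refine Valued.mem_nhds_zero.2 ⟨Units.mk0 _ h1, fun x hx => ?_⟩
  have h2 : Valued.v x ≤ Valued.v (π ^ n) := (Valued.v.restrict_lt_iff.1 hx).le
  have h3 : π ^ n ∈ Fil Valued.v n := mem_Fil_of_le (by rw [ord_zpow, hπ, mul_one])
  exact h2.trans h3

lemma cpl_of_complete [CompleteSpace K] (hπ : ord Valued.v π = 1) :
    Cpl (Valued.v : Valuation K ℤᵐ⁰) := by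
  intro x hx
  have h1 : ∀ n m : ℕ, n ≤ m → x m - x n ∈ Fil Valued.v n := fun n m h => by
    induction h with
    | refl => simp
    | step h ih =>
      have := add_mem (Fil.mono (hx _) (by exact_mod_cast h)) ih
      rwa [sub_add_sub_cancel] at this
  have h2 : CauchySeq x := by
    rw [(Valued.hasBasis_uniformity K ℤᵐ⁰).cauchySeq_iff']
    intro γ _
    obtain ⟨N, hN⟩ := exists_exp_neg_natCast_lt
      (x := MonoidWithZeroHom.ValueGroup₀.embedding γ.1) (by simp)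
    refine ⟨N, fun n hn => ?_⟩
    have := neg_mem (h1 N n hn)
    rw [neg_sub] at this
    exact (Valuation.restrict_lt_iff_lt_embedding _).2 (lt_of_le_of_lt this hN)
  obtain ⟨l, hl⟩ := cauchySeq_tendsto_of_complete h2
  refine ⟨l, fun n => ?_⟩
  exact (AddSubgroup.isClosed_of_isOpen _
    (AddSubgroup.isOpen_of_mem_nhds _ (Fil_nhds hπ n))).mem_of_tendsto (hl.sub_const (x n))
    (eventually_atTop.2 ⟨n, fun m hm => h1 n m hm⟩)

lemma dense_of_denseRange {F : Type} {f : F → K} (hf : DenseRange f) (hπ : ord Valued.v π = 1)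
    (x : K) (n : ℤ) : ∃ y, x - f y ∈ Fil Valued.v n := by
  have h1 : (fun y => x - y) ⁻¹' ((Fil Valued.v n : AddSubgroup K) : Set K) ∈ 𝓝 x :=
    (continuous_const.sub continuous_id).continuousAt.preimage_mem_nhds
      (by simpa using Fil_nhds hπ n)
  obtain ⟨y, hy⟩ := hf.mem_nhds h1
  exact ⟨y, hy⟩

end top

variable [CharP K 2] {F : Type} [Field F] [CharP F 2]

lemma Cpl.exists_wp {w : Valuation K ℤᵐ⁰} (h : Cpl w) {x : K} {a : ℤ} (hx : x ∈ Fil w a)
    (ha : 1 ≤ a) : ∃ z ∈ Fil w a, wp z = x := by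
  obtain ⟨z, hz, e⟩ := h.fix4 (c₂ := 1) (c₃ := 0) (c₄ := 0) hx (Fil.one (by omega)) (zero_mem _)
    (zero_mem _)
  exact ⟨z, hz, by unfold wp; grind⟩

lemma PreLoc.PW_eq (L : PreLoc K) (h : Cpl L.w) : L.PW = wpH.range := by
  refine le_antisymm (sup_le le_rfl fun x hx => ?_) le_sup_left
  obtain ⟨z, -, e⟩ := h.exists_wp hx le_rfl
  exact ⟨z, e⟩

/-- `L'` is the completion of `L` along `f`. -/
structure IsCpl (L : PreLoc F) (L' : PreLoc K) (f : F →+* K) : Prop where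
  cpl : Cpl L'.w
  val : ∀ x, L'.w (f x) = L.w x
  b : L'.P.b = f L.P.b
  r : ∀ x, L'.r (f x) = L.r x
  dense : ∀ x n, ∃ y, x - f y ∈ Fil L'.w n

lemma exists_isCpl (L : PreLoc F) (f : F →+* K) (w : Valuation K ℤᵐ⁰) (hc : Cpl w)
    (hv : ∀ x, w (f x) = L.w x) (hd : ∀ x n, ∃ y, x - f y ∈ Fil w n) :
    ∃ L' : PreLoc K, IsCpl L L' f := by
  have hm : ∀ x n, f x ∈ Fil w n ↔ x ∈ Fil L.w n := fun x n => by rw [mem_Fil, hv, mem_Fil]
  have hπ : ord w (f L.P.b) = 1 := by rw [ord, hv]; exact L.hπ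
  choose ap hap using hd
  have hap2 : ∀ x n m, n ≤ m → ap x m + ap x n ∈ Fil L.w n := fun x n m h => by
    rw [← hm, map_add, show f (ap x m) + f (ap x n) = x - f (ap x n) - (x - f (ap x m)) by grind]
    exact sub_mem (hap x n) (Fil.mono (hap x m) h)
  let P : PB K :=
    { b := f L.P.b
      ns := fun r hr => by
        rw [← hr, ord_sq] at hπ
        omega
      ex := fun x => by
        obtain ⟨g, hg⟩ := hc (fun n => f (L.P.c0 (ap x (2 * n)))) fun n => by
          rw [← map_sub, hm, CharTwo.sub_eq_add, ← PB.c0_add]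
          exact PreLoc.c0_mem (hap2 x _ _ (by push_cast; omega)) (by omega)
        obtain ⟨h, hh⟩ := hc (fun n => f (L.P.c1 (ap x (2 * n)))) fun n => by
          rw [← map_sub, hm, CharTwo.sub_eq_add, ← PB.c1_add]
          exact PreLoc.c1_mem (hap2 x _ _ (by push_cast; omega)) (by omega)
        refine ⟨g, h, sub_eq_zero.1 (eq_zero_of_Fil (w := w) fun n => ?_)⟩
        have e := congrArg f (L.P.spec (ap x (2 * n)))
        rw [map_add, map_mul, map_pow, map_pow] at e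
        rw [show x - (g ^ 2 + f L.P.b * h ^ 2) = x - f (ap x (2 * n)) +
          (g - f (L.P.c0 (ap x (2 * n)))) ^ 2 + f L.P.b * (h - f (L.P.c1 (ap x (2 * n)))) ^ 2 by
            grind]
        exact add_mem (add_mem (Fil.mono (hap _ _) (by omega)) (Fil.sq (hg n) (by omega)))
          (Fil.mul (mem_Fil_of_le hπ.ge) (Fil.sq (hh n) le_rfl) (by omega)) }
  have hr : ∀ x y, x - f y ∈ Fil w 0 → L.r (ap x 0) = L.r y := fun x y h => L.r_congr (by
    rw [← hm, map_add, show f (ap x 0) + f y = x - f y - (x - f (ap x 0)) by grind]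
    exact sub_mem h (hap x 0))
  let r : K →+ ZMod 2 :=
    { toFun := fun x => L.r (ap x 0)
      map_zero' := by rw [hr 0 0 (by simp), map_zero]
      map_add' := fun x y => by
        rw [hr (x + y) (ap x 0 + ap y 0), map_add]
        convert add_mem (hap x 0) (hap y 0) using 1
        rw [map_add]; ring }
  have hrf : ∀ y, r (f y) = L.r y := fun y => hr _ y (by simp)
  have hfin : (Fil w 1).relIndex (Fil w 0) ≠ 0 := by
    have : Finite (Fil L.w 0 ⧸ (Fil L.w 1).addSubgroupOf (Fil L.w 0)) :=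
      AddSubgroup.index_ne_zero_iff_finite.1 L.fin
    refine relIndex_ne_of_rep (Set.finite_range
      fun c : Fil L.w 0 ⧸ (Fil L.w 1).addSubgroupOf (Fil L.w 0) => f c.out.1) fun x hx => ?_
    have h1 : ap x 1 ∈ Fil L.w 0 := by
      simpa [← hm] using sub_mem hx (Fil.mono (hap x 1) (b := 0) (by omega))
    refine ⟨_, ⟨QuotientAddGroup.mk ⟨_, h1⟩, rfl⟩, ?_⟩
    obtain ⟨z, hz⟩ := QuotientAddGroup.mk_out_eq_add ((Fil L.w 1).addSubgroupOf (Fil L.w 0)) ⟨_, h1⟩
    simp only [hz, AddSubgroup.coe_add, map_add, ← sub_sub]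
    exact sub_mem (hap x 1) ((hm _ _).2 z.2)
  refine ⟨⟨w, P, hπ, r, fun x => ?_, fun x hx => ?_, ?_, hfin⟩, hc, hv, rfl, hrf,
    fun x n => ⟨_, hap x n⟩⟩
  · refine (hr _ (L.P.c1 (ap x 0)) ?_).trans (L.r_c1 _)
    rw [← L.P.map_c1 (Q := P) rfl, CharTwo.sub_eq_add, ← PB.c1_add]
    have h1 := hap x 0
    rw [CharTwo.sub_eq_add] at h1
    generalize x + f (ap x 0) = y at h1
    by_contra hn
    obtain ⟨h2, h3⟩ := not_mem_Fil.1 hn
    have h4 := mul_ne_zero P.b_ne (pow_ne_zero 2 h2)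
    have h5 : ord w (P.b * P.c1 y ^ 2) = 1 + 2 * ord w (P.c1 y) := by
      rw [ord_mul P.b_ne (pow_ne_zero 2 h2), ord_sq]; exact congrArg (· + _) hπ
    have h6 := (ord_add h4 (Fil.mono h1 (b := ord w (P.b * P.c1 y ^ 2) + 1) (by omega))).2
    rw [show P.b * P.c1 y ^ 2 + y = P.c0 y ^ 2 by have := P.spec y; grind, ord_sq] at h6
    omega
  · exact (hr x 0 (by simpa using hx)).trans (map_zero _)
  · obtain ⟨x, h1, h2⟩ := L.r_ne
    exact ⟨f x, (hm _ _).2 h1, by rwa [hrf]⟩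

variable {k : Type} [Field k] [Finite k] [CharP k 2]

instance : CharP (RatFunc.CompletionAtInfty k) 2 :=
  charP_of_injective_algebraMap (algebraMap (RatFunc k) _).injective 2

instance (v : HeightOneSpectrum k[X]) : CharP (v.adicCompletion (RatFunc k)) 2 :=
  charP_of_injective_algebraMap (algebraMap (RatFunc k) _).injective 2

lemma exists_cpl_some (v : HeightOneSpectrum k[X]) : ∃ L' : PreLoc (v.adicCompletion (RatFunc k)),
    IsCpl (pl (some v)) L' (algebraMap _ _) := by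
  have hv : ∀ x, Valued.v (algebraMap (RatFunc k) (v.adicCompletion (RatFunc k)) x) =
      val (some v) x := fun x => HeightOneSpectrum.valuedAdicCompletion_eq_valuation' v x
  have hπ : ord Valued.v (algebraMap (RatFunc k) (v.adicCompletion (RatFunc k))
      (unif (some v))) = 1 := by rw [ord, hv]; exact ord_unif _
  exact exists_isCpl _ _ Valued.v (cpl_of_complete hπ) hv
    (dense_of_denseRange (HeightOneSpectrum.denseRange_algebraMap (RatFunc k) v) hπ)

attribute [-instance] RatFunc.valuedRatFunc in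
open RatFunc.CompletionAtInfty in
lemma exists_cpl_none : ∃ L' : PreLoc (RatFunc.CompletionAtInfty k),
    IsCpl (pl (k := k) none) L' (algebraMap _ _) := by
  let := RatFunc.inftyValued k
  have hv : ∀ x, Valued.v (algebraMap (RatFunc k) (RatFunc.CompletionAtInfty k) x) =
      val none x := fun x => Valued.valuedCompletion_apply x
  have hπ : ord Valued.v (algebraMap (RatFunc k) (RatFunc.CompletionAtInfty k) (unif none)) = 1 := by
    rw [ord, hv]; exact ord_unif _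
  have : CompleteSpace (RatFunc.CompletionAtInfty k) :=
    UniformSpace.Completion.completeSpace (RatFunc k)
  exact exists_isCpl _ _ Valued.v (cpl_of_complete hπ) hv
    (dense_of_denseRange (UniformSpace.Completion.denseRange_coe (α := RatFunc k)) hπ)

namespace IsCpl

variable {L : PreLoc F} {L' : PreLoc K} {f : F →+* K} (h : IsCpl L L' f)
include h

lemma mem {x : F} {n : ℤ} : f x ∈ Fil L'.w n ↔ x ∈ Fil L.w n := by rw [mem_Fil, h.val, mem_Fil]

lemma ord_eq (x : F) : ord L'.w (f x) = ord L.w x := by rw [ord, h.val, ord]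

lemma D (x : F) : L'.P.D (f x) = f (L.P.D x) := L.P.map_D h.b x

lemma mem_PW {x : F} : f x ∈ L'.PW ↔ x ∈ L.PW := by
  rw [L.mem_PW, L'.mem_PW]
  refine ⟨fun ⟨z, hz⟩ => ?_, fun ⟨z, hz⟩ => ⟨f z, by simpa [wp] using h.mem.2 hz⟩⟩
  obtain ⟨y, hy⟩ := h.dense z 1
  refine ⟨y, h.mem.1 ?_⟩
  rw [show f (x + wp y) = f x + wp z + wp (z - f y) by simp only [wp, map_add, map_pow]; grind]
  exact add_mem hz (Fil.wp hy le_rfl (by omega))

lemma exists_PB (Q : PB F) : ∃ Q' : PB K, Q'.b = f Q.b :=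
  ⟨L'.P.change (f Q.b) (L'.P.ns_of_D (by
    rw [h.D]; exact (map_ne_zero f).2 (L.P.D_ne_zero Q.ns))), rfl⟩

end IsCpl

end Pool.Agent.Lib.MP_a3f657_nt.Two
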