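import Mathlib

/-!
Two-Selmer order and height densities for elliptic curves over a rational function field.
-/

namespace Pool.Agent.Lib.MP_a3f657_nt.Two

open scoped Polynomial

attribute [local instance 10000] Classical.propDecidable

section Sha

variable {F : Type} [Field F]

/-- The group of `K`-points of `W`. -/
abbrev Pt (W : WeierstrassCurve F) (K : Type) [Field K] [Algebra F K] : Type :=
  (W.baseChange K).toAffine.Point

/-- The map on points induced by a field homomorphism. -/
noncomputable abbrev pm (W : WeierstrassCurve F) {K L : Type} [Field K] [Algebra F K] [Field L]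
    [Algebra F L] (g : K →ₐ[F] L) : Pt W K →+ Pt W L :=
  WeierstrassCurve.Affine.Point.map (W' := W.toAffine) g

variable (W : WeierstrassCurve F) (Ω : Type) [Field Ω] [Algebra F Ω]

/-- Continuous 1-cocycles of the Galois group of `Ω / F` (Krull topology). -/
noncomputable def cocycles : AddSubgroup ((Ω ≃ₐ[F] Ω) → Pt W Ω) where
  carrier := {ξ | IsLocallyConstant ξ ∧ ∀ σ τ, ξ (σ * τ) = ξ σ + pm W σ.toAlgHom (ξ τ)}
  zero_mem' := ⟨IsLocallyConstant.const 0, fun _ _ => by simp⟩
  add_mem' ha hb := ⟨ha.1.add hb.1, fun σ τ => by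
    simp only [Pi.add_apply, ha.2, hb.2, map_add]; abel⟩
  neg_mem' ha := ⟨ha.1.neg, fun σ τ => by simp only [Pi.neg_apply, ha.2, map_neg]; abel⟩

/-- Coboundaries. -/
noncomputable def cobound : AddSubgroup ((Ω ≃ₐ[F] Ω) → Pt W Ω) where
  carrier := {ξ | ∃ P : Pt W Ω, ∀ σ, ξ σ = pm W σ.toAlgHom P - P}
  zero_mem' := ⟨0, fun _ => by simp⟩
  add_mem' := by
    rintro ξ η ⟨P, hP⟩ ⟨Q, hQ⟩
    exact ⟨P + Q, fun σ => by rw [Pi.add_apply, hP, hQ, map_add]; abel⟩
  neg_mem' := by
    rintro ξ ⟨P, hP⟩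
    exact ⟨-P, fun σ => by rw [Pi.neg_apply, hP, map_neg]; abel⟩

/-- The maps that become coboundaries over `L / K`, for every embedding of `Ω` in `L`. -/
noncomputable def trivOver (K L : Type) [Field K] [Field L] [Algebra F K] [Algebra K L]
    [Algebra F L] [IsScalarTower F K L] : AddSubgroup ((Ω ≃ₐ[F] Ω) → Pt W Ω) where
  carrier := {ξ | ∀ i : Ω →ₐ[F] L, ∃ P : Pt W L, ∀ (τ : L ≃ₐ[K] L) (σ : Ω ≃ₐ[F] Ω),
    (∀ x, τ (i x) = i (σ x)) → pm W i (ξ σ) = pm W (τ.toAlgHom.restrictScalars F) P - P}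
  zero_mem' _ := ⟨0, fun _ _ _ => by simp⟩
  add_mem' h1 h2 i := by
    obtain ⟨P, hP⟩ := h1 i
    obtain ⟨Q, hQ⟩ := h2 i
    refine ⟨P + Q, fun τ σ h => ?_⟩
    rw [Pi.add_apply, map_add, map_add, hP τ σ h, hQ τ σ h]; abel
  neg_mem' h1 i := by
    obtain ⟨P, hP⟩ := h1 i
    refine ⟨-P, fun τ σ h => ?_⟩
    rw [Pi.neg_apply, map_neg, map_neg, hP τ σ h]; abel

/-- The number of classes killed by two in `Z` modulo `B`. -/
noncomputable def twoTors {G : Type} [AddCommGroup G] (B Z : AddSubgroup G) : ℕ :=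
  Nat.card {c : Z ⧸ B.addSubgroupOf Z // 2 • c = 0}

/-- The maps that become coboundaries over the separable closure of `K`. -/
noncomputable def trivSep (K : Type) [Field K] [Algebra F K] :
    AddSubgroup ((Ω ≃ₐ[F] Ω) → Pt W Ω) :=
  trivOver W Ω K (SeparableClosure K)

variable (K₀ : Type) [Field K₀] [Algebra F K₀] {ι : Type} (K : ι → Type) [∀ i, Field (K i)]
  [∀ i, Algebra F (K i)]

/-- The number of classes killed by two that are trivial over `K₀` and over all `K i`. -/
noncomputable def shaTwo : ℕ :=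
  twoTors (cobound W Ω) (cocycles W Ω ⊓ (trivSep W Ω K₀ ⊓ ⨅ i, trivSep W Ω (K i)))

/-- `#(E(F)/2E(F)) * #Sha[2]` for the local fields `K₀` and `K i` (zero if one is infinite). -/
noncomputable def selOf : ℕ :=
  Nat.card (W.toAffine.Point ⧸ (nsmulAddMonoidHom 2 : W.toAffine.Point →+ W.toAffine.Point).range) *
    shaTwo W (SeparableClosure F) K₀ K

end Sha

variable {k : Type} [Field k]

/-- The order of the 2-Selmer group of a curve over `k(t)`. -/
noncomputable def selOrder (W : WeierstrassCurve (RatFunc k)) : ℕ :=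
  selOf W (RatFunc.CompletionAtInfty k)
    fun v : IsDedekindDomain.HeightOneSpectrum k[X] => v.adicCompletion (RatFunc k)

/-- The coefficients `a_i` are polynomials of degree at most `i * d`. -/
def DegLE (a : WeierstrassCurve k[X]) (d : ℕ) : Prop :=
  a.a₁.natDegree ≤ d ∧ a.a₂.natDegree ≤ 2 * d ∧ a.a₃.natDegree ≤ 3 * d ∧
    a.a₄.natDegree ≤ 4 * d ∧ a.a₆.natDegree ≤ 6 * d

/-- The height of `W` is at most `q ^ d`. -/
def HeightLE (W : WeierstrassCurve (RatFunc k)) (d : ℕ) : Prop :=
  ∃ (C : WeierstrassCurve.VariableChange (RatFunc k)) (a : WeierstrassCurve k[X]),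
    DegLE a d ∧ C • W = a.baseChange (RatFunc k)

/-- The number of isomorphism classes of elliptic curves of height at most `q ^ d` with the
property `P`. -/
noncomputable def num (P : WeierstrassCurve (RatFunc k) → Prop) (d : ℕ) : ℕ :=
  Set.ncard {c : MulAction.orbitRel.Quotient (WeierstrassCurve.VariableChange (RatFunc k))
      (WeierstrassCurve (RatFunc k)) |
    ∃ W, Quotient.mk'' W = c ∧ W.Δ ≠ 0 ∧ HeightLE W d ∧ P W}

/-- The proportion of curves with the property `P` among those of height at most `q ^ d`. -/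
noncomputable def dens (P : WeierstrassCurve (RatFunc k) → Prop) (d : ℕ) : ℝ :=
  (num P d : ℝ) / num (k := k) (fun _ => True) d

end Pool.Agent.Lib.MP_a3f657_nt.Two
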