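import Mathlib

/-!
Duality for elementary abelian 2-groups.
-/

namespace Pool.Agent.Lib.MP_a3f657_nt.Two

variable {G H V : Type} [AddCommGroup G] [AddCommGroup H] [AddCommGroup V]

lemma z2_cases (a : ZMod 2) : a = 0 ∨ a = 1 := by revert a; decide

lemma z2_add_self (a : ZMod 2) : a + a = 0 := by revert a; decide

lemma card_hom (h2 : ∀ x : V, x + x = 0) [Finite V] : Nat.card (V →+ ZMod 2) = Nat.card V := by
  let : Module (ZMod 2) V := AddCommGroup.zmodModule fun x => by rw [two_nsmul, h2]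
  have : Module.Finite (ZMod 2) V := Module.Finite.of_finite
  rw [Nat.card_congr (AddMonoidHom.toZModLinearMapEquiv 2).toEquiv,
    Module.natCard_eq_pow_finrank (K := ZMod 2), Module.natCard_eq_pow_finrank (K := ZMod 2) (V := V)]
  congr 1
  exact Subspace.dual_finrank_eq

lemma card_two_pow (h2 : ∀ x : V, x + x = 0) [Finite V] : ∃ n, Nat.card V = 2 ^ n := by
  let : Module (ZMod 2) V := AddCommGroup.zmodModule fun x => by rw [two_nsmul, h2]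
  have : Module.Finite (ZMod 2) V := Module.Finite.of_finite
  exact ⟨_, by rw [Module.natCard_eq_pow_finrank (K := ZMod 2), Nat.card_zmod]⟩

lemma exists_sep_hom (h2 : ∀ x : V, x + x = 0) (U : AddSubgroup V) {v : V} (hv : v ∉ U) :
    ∃ χ : V →+ ZMod 2, χ v ≠ 0 ∧ ∀ u ∈ U, χ u = 0 := by
  let : Module (ZMod 2) V := AddCommGroup.zmodModule fun x => by rw [two_nsmul, h2]
  obtain ⟨f, h1, h3⟩ := Submodule.exists_le_ker_of_notMem (K := ZMod 2)
    (p := AddSubgroup.toZModSubmodule 2 U) (v := v) hv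
  exact ⟨f.toAddMonoidHom, h1, fun u hu => h3 hu⟩

lemma quot_two (h2 : ∀ x : V, x + x = 0) (U₁ U₀ : AddSubgroup V)
    (x : U₁ ⧸ U₀.addSubgroupOf U₁) : x + x = 0 := by
  induction x using QuotientAddGroup.induction_on with
  | H z => rw [← QuotientAddGroup.mk_add, show z + z = 0 from Subtype.ext (h2 z)]; rfl

lemma relIndex_two_pow (h2 : ∀ x : V, x + x = 0) {U₀ U₁ : AddSubgroup V}
    (h : U₀.relIndex U₁ ≠ 0) : ∃ n, U₀.relIndex U₁ = 2 ^ n := by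
  have : Finite (U₁ ⧸ U₀.addSubgroupOf U₁) := AddSubgroup.index_ne_zero_iff_finite.1 h
  exact card_two_pow (quot_two h2 U₁ U₀)

/-- The map to the dual of a subquotient induced by a pairing. -/
def toDual (φ : G →+ H →+ ZMod 2) (G₁ : AddSubgroup G) (H₀ H₁ : AddSubgroup H)
    (h : ∀ g ∈ G₁, ∀ y ∈ H₀, y ∈ H₁ → φ g y = 0) :
    G₁ →+ (H₁ ⧸ H₀.addSubgroupOf H₁) →+ ZMod 2 where
  toFun g := QuotientAddGroup.lift _ ((φ g).comp H₁.subtype) fun y hy => h g g.2 y hy y.2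
  map_zero' := by
    ext y
    simp
  map_add' a b := by
    ext y
    simp

lemma toDual_eq_zero {φ : G →+ H →+ ZMod 2} {G₁ : AddSubgroup G} {H₀ H₁ : AddSubgroup H}
    {h : ∀ g ∈ G₁, ∀ y ∈ H₀, y ∈ H₁ → φ g y = 0} {g : G₁} :
    toDual φ G₁ H₀ H₁ h g = 0 ↔ ∀ y ∈ H₁, φ g y = 0 := by
  refine ⟨fun e y hy => ?_, fun e => ?_⟩
  · exact DFunLike.congr_fun e (QuotientAddGroup.mk ⟨y, hy⟩)
  · ext y
    exact e y y.2

lemma dual_le (h2 : ∀ y : H, y + y = 0) (φ : G →+ H →+ ZMod 2) {G₀ G₁ : AddSubgroup G}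
    {H₀ H₁ : AddSubgroup H} (hfin : H₀.relIndex H₁ ≠ 0)
    (h : ∀ g ∈ G₁, ∀ y ∈ H₀, y ∈ H₁ → φ g y = 0)
    (hnd : ∀ g ∈ G₁, (∀ y ∈ H₁, φ g y = 0) → g ∈ G₀) :
    G₀.relIndex G₁ ≠ 0 ∧ G₀.relIndex G₁ ≤ Nat.card (toDual φ G₁ H₀ H₁ h).range ∧
      Nat.card (toDual φ G₁ H₀ H₁ h).range ≤ H₀.relIndex H₁ := by
  have : Finite (H₁ ⧸ H₀.addSubgroupOf H₁) := AddSubgroup.index_ne_zero_iff_finite.1 hfin
  have : Finite ((H₁ ⧸ H₀.addSubgroupOf H₁) →+ ZMod 2) := DFunLike.finite _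
  have h1 : (toDual φ G₁ H₀ H₁ h).ker ≤ G₀.addSubgroupOf G₁ := fun g hg =>
    hnd g g.2 (toDual_eq_zero.1 hg)
  have h3 : (toDual φ G₁ H₀ H₁ h).ker.index ≠ 0 := by
    rw [AddSubgroup.index_ker]; exact Nat.card_pos.ne'
  have : (toDual φ G₁ H₀ H₁ h).ker.FiniteIndex := ⟨h3⟩
  refine ⟨(AddSubgroup.finiteIndex_of_le h1).1, ?_, ?_⟩
  · rw [← AddSubgroup.index_ker]
    exact AddSubgroup.index_antitone h1
  · exact (Nat.card_le_card_of_injective _ Subtype.val_injective).trans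
      (card_hom (quot_two h2 H₁ H₀)).le

lemma dual_surj (h2 : ∀ y : H, y + y = 0) (φ : G →+ H →+ ZMod 2) {G₀ G₁ : AddSubgroup G}
    {H₀ H₁ : AddSubgroup H} (hfin : H₀.relIndex H₁ ≠ 0)
    (h : ∀ g ∈ G₁, ∀ y ∈ H₀, y ∈ H₁ → φ g y = 0)
    (hnd : ∀ g ∈ G₁, (∀ y ∈ H₁, φ g y = 0) → g ∈ G₀) (hle : H₀.relIndex H₁ ≤ G₀.relIndex G₁) :
    Function.Surjective (toDual φ G₁ H₀ H₁ h) := by
  have : Finite (H₁ ⧸ H₀.addSubgroupOf H₁) := AddSubgroup.index_ne_zero_iff_finite.1 hfin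
  have : Finite ((H₁ ⧸ H₀.addSubgroupOf H₁) →+ ZMod 2) := DFunLike.finite _
  rw [← AddMonoidHom.range_eq_top]
  refine AddSubgroup.eq_top_of_le_card _ ?_
  rw [card_hom (quot_two h2 H₁ H₀)]
  exact hle.trans (dual_le h2 φ hfin h hnd).2.1

lemma dual_rep (h2 : ∀ y : H, y + y = 0) (φ : G →+ H →+ ZMod 2) {G₀ G₁ : AddSubgroup G}
    {H₀ H₁ : AddSubgroup H} (hfin : H₀.relIndex H₁ ≠ 0)
    (h : ∀ g ∈ G₁, ∀ y ∈ H₀, y ∈ H₁ → φ g y = 0)
    (hnd : ∀ g ∈ G₁, (∀ y ∈ H₁, φ g y = 0) → g ∈ G₀) (hle : H₀.relIndex H₁ ≤ G₀.relIndex G₁)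
    (χ : H₁ →+ ZMod 2) (hχ : ∀ y : H₁, y.1 ∈ H₀ → χ y = 0) :
    ∃ g ∈ G₁, ∀ y : H₁, φ g y = χ y := by
  obtain ⟨g, hg⟩ := dual_surj h2 φ hfin h hnd hle (QuotientAddGroup.lift _ χ hχ)
  exact ⟨g, g.2, fun y => DFunLike.congr_fun hg (QuotientAddGroup.mk y)⟩

/-- The characters that vanish on `U`. -/
def ann (U : AddSubgroup V) : AddSubgroup (V →+ ZMod 2) where
  carrier := {χ | ∀ u ∈ U, χ u = 0}
  zero_mem' _ _ := rfl
  add_mem' ha hb u hu := by rw [AddMonoidHom.add_apply, ha u hu, hb u hu, add_zero]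
  neg_mem' ha u hu := by rw [AddMonoidHom.neg_apply, ha u hu, neg_zero]

lemma card_ann (h2 : ∀ x : V, x + x = 0) [Finite V] (U : AddSubgroup V) :
    Nat.card (ann U) * Nat.card U = Nat.card V := by
  have h3 : ∀ x : V ⧸ U, x + x = 0 := fun x => by
    induction x using QuotientAddGroup.induction_on with
    | H z => rw [← QuotientAddGroup.mk_add, h2]; rfl
  rw [← U.index_mul_card, AddSubgroup.index_eq_card, ← card_hom h3]
  congr 1
  refine Nat.card_congr ⟨fun χ => QuotientAddGroup.lift U χ.1 χ.2,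
    fun χ => ⟨χ.comp (QuotientAddGroup.mk' U), fun u hu => by
      simp [(QuotientAddGroup.eq_zero_iff u).2 hu]⟩, fun χ => ?_, fun χ => ?_⟩
  · ext; simp
  · ext; simp

/-- The radical of a pairing on the subgroup `S`. -/
def rad (ψ : V →+ V →+ ZMod 2) (S : AddSubgroup V) : AddSubgroup V where
  carrier := {v | v ∈ S ∧ ∀ w ∈ S, ψ v w = 0}
  zero_mem' := ⟨zero_mem _, by simp⟩
  add_mem' ha hb := ⟨add_mem ha.1 hb.1, fun w hw => by simp [ha.2 w hw, hb.2 w hw]⟩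
  neg_mem' ha := ⟨neg_mem ha.1, fun w hw => by simp [ha.2 w hw]⟩

lemma card_alt [Finite V] (ψ : V →+ V →+ ZMod 2) (hψ : ∀ v, ψ v v = 0) (S : AddSubgroup V) :
    ∃ i, Nat.card S = Nat.card (rad ψ S) * 4 ^ i := by
  have sym : ∀ v w, ψ v w = ψ w v := fun v w => by
    have := hψ (v + w)
    simp only [map_add, AddMonoidHom.add_apply, hψ] at this
    rcases z2_cases (ψ v w) with h | h <;> rcases z2_cases (ψ w v) with h' | h' <;>
      simp_all
  induction hn : Nat.card S using Nat.strong_induction_on generalizing S with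
  | _ n ih =>
  by_cases h : ∀ v ∈ S, ∀ w ∈ S, ψ v w = 0
  · refine ⟨0, ?_⟩
    rw [show rad ψ S = S from le_antisymm (fun _ h => h.1) fun v hv => ⟨hv, h v hv⟩, hn]
    simp
  push Not at h
  obtain ⟨a, ha, b, hb, hab⟩ := h
  have hab1 : ψ a b = 1 := (z2_cases _).resolve_left hab
  have hba1 : ψ b a = 1 := by rw [sym, hab1]
  let f : V →+ ZMod 2 × ZMod 2 := (ψ a).prod (ψ b)
  have e1 : S.map f = ⊤ := by
    rw [eq_top_iff]
    rintro ⟨x, y⟩ -
    refine ⟨x.val • b + y.val • a, add_mem (nsmul_mem hb _) (nsmul_mem ha _), ?_⟩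
    simp [f, hψ, hab1, hba1]
  have e2 : f.ker.relIndex S = 4 := by
    rw [AddSubgroup.relIndex_ker, e1]; simp
  have e3 : Nat.card (f.ker ⊓ S : AddSubgroup V) * 4 = Nat.card S := by
    rw [← e2, ← AddSubgroup.inf_relIndex_right, AddSubgroup.relIndex,
      ← Nat.card_congr (AddSubgroup.addSubgroupOfEquivOfLe (inf_le_right (a := f.ker))).toEquiv,
      AddSubgroup.card_mul_index]
  have e4 : rad ψ (f.ker ⊓ S) = rad ψ S := by
    refine le_antisymm (fun v hv => ?_) fun v hv => ?_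
    · refine ⟨hv.1.2, fun w hw => ?_⟩
      have h1 : ψ a v = 0 ∧ ψ b v = 0 := Prod.ext_iff.1 hv.1.1
      have := hv.2 (w + (ψ b w).val • a + (ψ a w).val • b) ⟨by
        simp [f, hψ, hab1, hba1, z2_add_self],
        add_mem (add_mem hw (nsmul_mem ha _)) (nsmul_mem hb _)⟩
      simpa [sym v a, sym v b, h1.1, h1.2] using this
    · refine ⟨⟨?_, hv.1⟩, fun w hw => hv.2 w hw.2⟩
      simp [f, sym a v, sym b v, hv.2 a ha, hv.2 b hb]
  obtain ⟨i, hi⟩ := ih _ (by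
    have : 0 < Nat.card (f.ker ⊓ S : AddSubgroup V) := Nat.card_pos
    omega) (f.ker ⊓ S) rfl
  exact ⟨i + 1, by rw [← hn, ← e3, hi, e4, pow_succ, mul_assoc]⟩

end Pool.Agent.Lib.MP_a3f657_nt.Two
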