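import Pool.Agent.Lib.MP_a3f657_nt.C2Li

/-!
The local conditions as subgroups of the global field.
-/

set_option linter.unusedSectionVars false

namespace Pool.Agent.Lib.MP_a3f657_nt.Two

open scoped Classical

variable {F : Type} [Field F] [CharP F 2]

/-- A completion. -/
structure Cmp (L : PreLoc F) : Type 1 where
  /-- The completed field. -/
  K : Type
  [fld : Field K]
  [chr : CharP K 2]
  /-- The embedding. -/
  f : F →+* K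
  /-- The local data of the completion. -/
  L' : PreLoc K
  h : IsCpl L L' f

attribute [instance] Cmp.fld Cmp.chr

namespace Cmp

variable {L : PreLoc F} (C : Cmp L) (P : PB F) (A : F)

/-- The 2-basis of the completion. -/
noncomputable def Q : PB C.K := (C.h.exists_PB P).choose

lemma Q_b : (C.Q P).b = C.f P.b := (C.h.exists_PB P).choose_spec

/-- The local image. -/
noncomputable def Im : AddSubgroup F := (LL (C.Q P) (C.f A)).comap C.f.toAddMonoidHom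

/-- The local image in terms of pairs. -/
noncomputable def Lt : AddSubgroup (F × F) :=
  (Two.Lt (C.Q P) (C.f A)).comap (C.f.toAddMonoidHom.prodMap C.f.toAddMonoidHom)

/-- First components. -/
noncomputable def AA : AddSubgroup F := (Two.AA (C.Q P) (C.f A)).comap C.f.toAddMonoidHom

/-- Second components of pairs with vanishing first component. -/
noncomputable def BB : AddSubgroup F := (C.Lt P A).comap (AddMonoidHom.inr F F)

variable {C P A} {α u s : F}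

lemma mem_Lt' : (α, u) ∈ C.Lt P A ↔ (C.f α, C.f u) ∈ Two.Lt (C.Q P) (C.f A) := Iff.rfl

lemma mem_AA' : α ∈ C.AA P A ↔ C.f α ∈ Two.AA (C.Q P) (C.f A) := Iff.rfl

lemma mem_BB : u ∈ C.BB P A ↔ (0, u) ∈ C.Lt P A := Iff.rfl

lemma mem_BB' : u ∈ C.BB P A ↔ C.f u ∈ Two.BB (C.Q P) (C.f A) := by
  rw [mem_BB, mem_Lt', map_zero, Two.mem_BB]

lemma f_wp (c : F) : C.f (wp c) = wp (C.f c) := by simp [wp]

lemma mem_Lt : (α, u) ∈ C.Lt P A ↔ (α, u) ∈ Ht P ∧ cls P (α, u) ∈ C.Im P A := by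
  refine and_congr (Ht_map (C.Q_b P)) ?_
  change (C.Q P).c1 (C.f α + wp (C.f u)) ∈ LL _ _ ↔ _
  rw [← f_wp, ← map_add, P.map_c1 (C.Q_b P)]
  rfl

lemma Lt_le_Ht : C.Lt P A ≤ Ht P := fun _ h => (mem_Lt.1 h).1

lemma bsq_mem_Lt : (P.b * s ^ 2, 0) ∈ C.Lt P A ↔ s ∈ C.Im P A := by
  simp [mem_Lt, bsq_mem_Ht, cls_apply]

lemma wp_mem_Lt (c : F) : (wp c, c) ∈ C.Lt P A := by rw [mem_Lt', f_wp]; exact Two.wp_mem_Lt _

lemma one_mem_BB : (1 : F) ∈ C.BB P A := by simpa [mem_BB] using wp_mem_Lt (C := C) (P := P) 1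

lemma AA_of_Lt (h : (α, u) ∈ C.Lt P A) : α ∈ C.AA P A := mem_AA.2 ⟨_, h⟩

lemma PW_le_AA : L.PW ≤ C.AA P A := fun α h => by
  obtain ⟨z, hz⟩ := C.L'.PW_eq C.h.cpl ▸ C.h.mem_PW.2 h
  rw [mem_AA', ← hz]
  exact wp_mem_AA z

lemma BB_le_Log : C.BB P A ≤ Log P := fun _ h => mem_Log'.2 (Lt_le_Ht h)

lemma sub_mem_BB {u' : F} (h : (α, u) ∈ C.Lt P A) (h' : (α, u') ∈ C.Lt P A) :
    u + u' ∈ C.BB P A := by simpa [mem_BB, two_K] using add_mem h h'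

lemma add_mem_Lt {u' : F} (h : (α, u) ∈ C.Lt P A) (h' : u' ∈ C.BB P A) :
    (α, u + u') ∈ C.Lt P A := by simpa using add_mem h h'

lemma f_dlg (x : F) : C.L'.P.dlg (C.f x) = C.f (L.P.dlg x) := by simp [PB.dlg, C.h.D]

lemma f_rho (x : F) : C.L'.rho (C.Q P) (C.f x) = L.rho P x := by
  rw [PreLoc.rho_apply, PreLoc.rho_apply, ← C.h.r, C.Q_b, C.h.D]; simp

lemma orth (h : α ∈ C.AA P A) (hu : u ∈ C.BB P A) : L.rho P (α * u) = 0 := by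
  rw [← f_rho (C := C), map_mul]
  exact rho_orth (C.L'.rho_c0 _) h (mem_BB'.1 hu)

lemma alt (h : (P.b * s ^ 2, u) ∈ C.Lt P A) : L.rho P (P.b * s ^ 2 * (u + P.dl s)) = 0 := by
  rw [mem_Lt', map_mul, map_pow, ← C.Q_b] at h
  have := rho_alt (C.L'.rho_c0 _) h
  rwa [P.map_dl (C.Q_b P), C.Q_b, ← map_pow, ← map_mul, ← map_add, ← map_mul, f_rho] at this

lemma lift (h : α ∈ C.AA P A) (hu : (α, u) ∈ Ht P) : ∃ u', (α, u') ∈ C.Lt P A := by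
  obtain ⟨w, hw⟩ := mem_AA.1 h
  obtain ⟨⟨j, hj⟩, -⟩ := local_duality C.h.cpl (C.Q P) (C.f A)
  obtain ⟨x, hx, e⟩ := (C.Q P).exists_dl (mem_Log.1 (sub_mem_Log hw.1 ((Ht_map (C.Q_b P)).2 hu)))
  have hb := (C.Q P).b_ne
  have h1 := c1_b_ne C.L'.P (C.Q P)
  obtain ⟨N, hN⟩ : ∃ N : ℤ, N = 2 * (j.natAbs + 2 * (ord C.L'.w (C.L'.P.c1 (C.Q P).b)).natAbs +
    (ord C.L'.w (C.Q P).b).natAbs + 1) := ⟨_, rfl⟩
  obtain ⟨y, hy⟩ := C.h.dense x (ord C.L'.w x + N)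
  have h2 : (x - C.f y) / x ∈ Fil C.L'.w N := Fil.div hy (by omega)
  obtain ⟨h3, h4⟩ := ord_one_add (Fil.mono h2 (by omega))
  have e1 : C.f y = x * (1 + (x - C.f y) / x) := by grind
  generalize (x - C.f y) / x = δ at h2 h3 h4 e1
  refine ⟨u + P.dl y, ?_⟩
  rw [mem_Lt', map_add, ← P.map_dl (C.Q_b P), e1, PB.dl_mul _ hx h3, e, ← add_assoc,
    show C.f u + (w + C.f u) = w by grind]
  refine Two.add_mem_Lt hw ⟨mem_Log'.1 (dl_mem_Log _), hj ?_⟩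
  change (C.Q P).c1 (0 + wp _) ∈ _
  have h5 : ∀ z, (C.Q P).c1 z = C.L'.P.c1 z / C.L'.P.c1 (C.Q P).b := fun z => by
    rw [C.L'.P.c1_chain (C.Q P) z, mul_div_cancel_right₀ _ h1]
  rw [zero_add, PB.c1_wp, h5, PB.dl, h5, PB.c1_add, PB.c1_one, zero_add]
  exact Fil.div (PreLoc.c1_mem (Fil.div (Fil.mul (mem_Fil_ord _) (Fil.sq (Fil.div
    (PreLoc.c1_mem h2 (c := N / 2) (by omega)) le_rfl) le_rfl) le_rfl) le_rfl)
    (c := j + ord C.L'.w (C.L'.P.c1 (C.Q P).b)) (by omega)) (by omega)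

variable (C P A)

lemma dual : (C.BB P A).relIndex (Log P) ≠ 0 ∧
    (C.BB P A).relIndex (Log P) ≤ L.PW.relIndex (C.AA P A) := by
  obtain ⟨-, h1, h2⟩ := local_duality C.h.cpl (C.Q P) (C.f A)
  have e : C.BB P A = (Two.BB (C.Q P) (C.f A)).comap C.f.toAddMonoidHom := by
    ext; exact mem_BB'
  have h3 : (Log P).map C.f.toAddMonoidHom ≤ Log (C.Q P) := by
    rintro _ ⟨u, hu, rfl⟩; exact (Log_map (C.Q_b P)).2 hu
  rw [e, AddSubgroup.relIndex_comap]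
  refine ⟨fun e0 => h1 (AddSubgroup.relIndex_eq_zero_of_le_right h3 e0),
    ((AddSubgroup.relIndex_le_of_le_right h3 h1).trans h2).trans_eq ?_⟩
  have e1 : L.PW = C.L'.PW.comap C.f.toAddMonoidHom := by ext; exact C.h.mem_PW.symm
  have h4 : C.L'.PW ≤ Two.AA (C.Q P) (C.f A) := by
    rw [C.L'.PW_eq C.h.cpl]; rintro _ ⟨z, rfl⟩; exact wp_mem_AA z
  rw [e1, AddSubgroup.relIndex_comap, ← AddSubgroup.relIndex_sup_right
    (AddSubgroup.map _ (C.AA P A))]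
  congr 1
  refine le_antisymm (fun x hx => ?_) (sup_le (AddSubgroup.map_comap_le _ _) h4)
  obtain ⟨y, hy⟩ := C.h.dense x 1
  have h5 := C.L'.Fil_le_PW hy
  exact AddSubgroup.mem_sup.2 ⟨_, ⟨y, by simpa [mem_AA'] using sub_mem hx (h4 h5), rfl⟩, _, h5,
    by simp⟩

lemma relIndex_eq : L.PW.relIndex (C.AA P A) = (C.BB P A).relIndex (Log P) := by
  obtain ⟨-, h1, h2⟩ := dual_le two_K (L.pair P) (G₀ := L.PW) (C.dual P A).1
    (fun α hα u hu _ => orth hα hu) fun α _ hα => L.PW_of_rho P hα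
  exact le_antisymm (h1.trans h2) (C.dual P A).2

variable {C P A}

lemma exists_rep (χ : Log P →+ ZMod 2) (hχ : ∀ u : Log P, u.1 ∈ C.BB P A → χ u = 0) :
    ∃ α ∈ C.AA P A, ∀ u : Log P, L.rho P (α * u) = χ u :=
  dual_rep two_K (L.pair P) (G₀ := L.PW) (C.dual P A).1 (fun _ hα _ hu _ => orth hα hu)
    (fun _ _ hα => L.PW_of_rho P hα) (C.dual P A).2 χ hχ

lemma BB_of_orth (hu : u ∈ Log P) (h : ∀ α ∈ C.AA P A, L.rho P (α * u) = 0) : u ∈ C.BB P A := by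
  by_contra hn
  obtain ⟨χ, h1, h2⟩ := exists_sep_hom two_K _ hn
  obtain ⟨α, h3, h4⟩ := exists_rep (χ.comp (Log P).subtype) fun u hu => h2 _ hu
  exact h1 ((h4 ⟨u, hu⟩).symm.trans (h α h3))

lemma AA_of_orth (h : ∀ u ∈ C.BB P A, L.rho P (α * u) = 0) : α ∈ C.AA P A := by
  obtain ⟨α', h3, h4⟩ := exists_rep ((L.pair P α).comp (Log P).subtype) fun u hu => h _ hu
  have := PW_le_AA (C := C) (P := P) (A := A) (L.PW_of_rho P (α := α + α') fun u hu => by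
    rw [add_mul, map_add, h4 ⟨u, hu⟩]; exact z2_add_self _)
  simpa [add_assoc, two_K] using add_mem this h3

lemma approx_wp {n : ℤ} (hn : n ≤ 0) {c : C.K} (h : C.f α + wp c ∈ Fil C.L'.w n) :
    ∃ c', α + wp c' ∈ Fil L.w n := by
  obtain ⟨y, hy⟩ := C.h.dense c 0
  refine ⟨y, C.h.mem.1 ?_⟩
  rw [map_add, f_wp, show C.f α + wp (C.f y) = C.f α + wp c + wp (c - C.f y) by unfold wp; grind]
  exact add_mem h (Fil.wp hy hn (by omega))

section good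

variable (hA : A ∈ Fil L.w 0) (hB : ord L.w P.b = 0)
include hA hB

lemma good_AA (h : α ∈ C.AA P A) : ∃ c, α + wp c ∈ Fil L.w 0 := by
  obtain ⟨u, hu⟩ := mem_AA.1 h
  obtain ⟨c, hc, -⟩ := Lt_good (C.h.mem.2 hA) (by rw [C.Q_b, C.h.ord_eq, hB]) hu
  exact approx_wp le_rfl hc

lemma good_Lt (h : (α, u) ∈ C.Lt P A) (hα : α ∈ Fil L.w 0) : u * L.P.dlg P.b ∈ Fil L.w 0 := by
  have hB' : ord C.L'.w (C.Q P).b = 0 := by rw [C.Q_b, C.h.ord_eq, hB]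
  obtain ⟨c, hc, hc'⟩ := Lt_good (C.h.mem.2 hA) hB' (mem_Lt'.1 h)
  have h1 : wp c ∈ Fil C.L'.w 0 := by
    simpa [← add_assoc, two_K] using add_mem (C.h.mem.2 hα) hc
  have h2 := add_mem hc' (Fil.mul (Fil.of_wp h1 (by omega) le_rfl)
    (PreLoc.dlog_mem_even (x := (C.Q P).b) (by omega)) le_rfl)
  change _ + c * C.L'.P.dlg _ ∈ _ at h2
  rwa [add_mul, add_assoc, two_K, add_zero, C.Q_b, f_dlg, ← map_mul, C.h.mem] at h2

lemma good_BB (hu : u ∈ Log P) (h : u * L.P.dlg P.b ∈ Fil L.w 0) : u ∈ C.BB P A := by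
  refine BB_of_orth hu fun α hα => ?_
  obtain ⟨c, hc⟩ := good_AA hA hB hα
  have := L.r_int _ (Fil.mul hc h le_rfl)
  rw [← mul_assoc, add_mul, add_mul, map_add] at this
  have e := rho_wp_Log (L.rho_c0 P) c hu
  rw [PreLoc.rho_apply] at e ⊢
  unfold PB.dlg at this
  rwa [e, add_zero] at this

lemma good_le_AA : Fil L.w 0 ≤ C.AA P A := fun α hα => AA_of_orth fun u hu => by
  rw [PreLoc.rho_apply, mul_assoc]
  exact L.r_int _ (Fil.mul hα (good_Lt hA hB hu (zero_mem _)) le_rfl)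

lemma good_mem_Lt (hα : α ∈ Fil L.w 0) (hu : (α, u) ∈ Ht P) (h : u * L.P.dlg P.b ∈ Fil L.w 0) :
    (α, u) ∈ C.Lt P A := by
  obtain ⟨u', hu'⟩ := lift (good_le_AA (C := C) hA hB hα) hu
  have := add_mem_Lt hu' (good_BB hA hB (sub_mem_Log (Lt_le_Ht hu') hu)
    (by rw [add_mul]; exact add_mem (good_Lt hA hB hu' hα) h))
  rwa [← add_assoc, two_K, zero_add] at this

end good

lemma mult_AA (hA : A ∈ Fil L.w 0) (hB : ord L.w P.b = 1) : C.AA P A = L.PW :=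
  le_antisymm (fun _ h => C.h.mem_PW.1 (AA_mult (C.h.mem.2 hA) (by rw [C.Q_b, C.h.ord_eq, hB]) h))
    PW_le_AA

section ss

variable {W : WeierstrassCurve F} (h : Nd W P) (hi : Intg L W) (h1 : ord L.w W.a₁ = 1)
  (h3 : ord L.w W.a₃ = 0) (h3' : W.a₃ ≠ 0)
include h hi h1 h3 h3'

lemma ss_aux : C.L'.P.dlg (C.Q P).b ∈ Fil C.L'.w 2 ∧ ∀ α u, (α, u) ∈ Two.Lt (C.Q P) (C.f (nA W)) →
    ∃ c, α + wp c ∈ Fil C.L'.w (-1) ∧ (u + c) * C.L'.P.dlg (C.Q P).b ∈ Fil C.L'.w 1 := by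
  rw [← nA_map]
  exact Lt_ss (h.map C.f (C.Q_b P)) ⟨C.h.mem.2 hi.a₁, C.h.mem.2 hi.a₂, C.h.mem.2 hi.a₃,
    C.h.mem.2 hi.a₄, C.h.mem.2 hi.a₆⟩ ((C.h.ord_eq _).trans h1) ((C.h.ord_eq _).trans h3)
    ((map_ne_zero C.f).2 h3')

lemma ss_Lt (hu : (α, u) ∈ C.Lt P (nA W)) (hα : α ∈ Fil L.w (-1)) :
    u * L.P.dlg P.b ∈ Fil L.w 1 := by
  obtain ⟨hω, H⟩ := ss_aux (C := C) h hi h1 h3 h3'
  obtain ⟨c, hc, hc'⟩ := H _ _ (mem_Lt'.1 hu)
  have h1 : wp c ∈ Fil C.L'.w (-1) := by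
    simpa [← add_assoc, two_K] using add_mem (C.h.mem.2 hα) hc
  have h2 := add_mem hc' (Fil.mul (Fil.of_wp h1 (by omega) le_rfl) hω (by omega))
  rwa [add_mul, add_assoc, two_K, add_zero, C.Q_b, f_dlg, ← map_mul, C.h.mem] at h2

lemma ss_AA : C.AA P (nA W) = Fil L.w (-1) ⊔ L.PW := by
  refine le_antisymm (fun α hα => ?_) (sup_le (fun α hα => AA_of_orth fun u hu => ?_) PW_le_AA)
  · obtain ⟨u, hu⟩ := mem_AA.1 hα
    obtain ⟨c, hc, -⟩ := (ss_aux (C := C) h hi h1 h3 h3').2 _ _ hu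
    obtain ⟨c', hc'⟩ := approx_wp (by omega) hc
    exact AddSubgroup.mem_sup.2 ⟨_, hc', _, L.wp_mem_PW c', by grind⟩
  · rw [PreLoc.rho_apply, mul_assoc]
    exact L.r_int _ (Fil.mul hα (ss_Lt h hi h1 h3 h3' hu (zero_mem _)) le_rfl)

end ss

variable {β : ℤ}

lemma bnd (h : Bnd L P A β) : Bnd C.L' (C.Q P) (C.f A) β :=
  ⟨h.nn, C.h.mem.2 h.hA, by rw [C.Q_b]; exact C.h.mem.2 h.hB, by
    rw [C.Q_b, L.P.map_c1 C.h.b, C.h.ord_eq]; exact h.he⟩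

lemma bdd_AA (h : Bnd L P A β) (hα : α ∈ C.AA P A) : ∃ c, α + wp c ∈ Fil L.w (-(7 * β + 2)) := by
  obtain ⟨u, hu⟩ := mem_AA.1 hα
  obtain ⟨c, hc⟩ := (bnd h).Lt_bdd hu
  exact approx_wp (by have := h.nn; omega) hc

variable (C P A) in
/-- The local term of the pairing. -/
noncomputable def cc (α : F) : F →+ ZMod 2 :=
  if h : α ∈ C.AA P A then
    ((C.L'.pair (C.Q P)) (mem_AA.1 h).choose).comp C.f.toAddMonoidHom else 0

section near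

variable (h : Bnd L P A β) {P' : PB F} {A' : F} {N : ℤ} (hA : A + A' ∈ Fil L.w 1)
  (hB : 1 + P'.b / P.b ∈ Fil L.w N) (hN : 7 * β + 3 ≤ N)
include h hA hB hN

lemma near_aux {α u : C.K} (hα : (α, u) ∈ Two.Lt (C.Q P) (C.f A)) :
    ∃ u', (α, u') ∈ Two.Lt (C.Q P') (C.f A') ∧ ∀ b : ℤ, 0 ≤ b → 2 * b + 7 * β + 3 ≤ N →
      α ∈ Fil C.L'.w (-b) →
      u * C.L'.P.dlg (C.Q P).b + u' * C.L'.P.dlg (C.Q P').b ∈ Fil C.L'.w b :=
  (bnd h).Lt_near C.h.cpl (by rw [← map_add]; exact C.h.mem.2 hA)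
    (by simpa [C.Q_b] using C.h.mem.2 hB) hN hα

lemma near_AA : C.AA P A ≤ C.AA P' A' := fun α hα => by
  obtain ⟨u, hu⟩ := mem_AA.1 hα
  obtain ⟨u', hu', -⟩ := near_aux h hA hB hN hu
  exact mem_AA.2 ⟨u', hu'⟩

lemma near_cc {b : ℤ} (hb : 0 ≤ b) (hbN : 2 * b + 7 * β + 3 ≤ N) {α' : F} (h1 : α ∈ C.AA P A)
    (h2 : α ∈ Fil L.w (-b)) (h3 : α' ∈ C.AA P' A') (h4 : α' ∈ Fil L.w (-b))
    (hu : (α, u) ∈ C.Lt P' A') : L.rho P' (α' * u) = C.cc P A α α' := by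
  obtain ⟨u', hu', H⟩ := near_aux h hA hB hN (mem_AA.1 h1).choose_spec
  have e1 := rho_orth (C.L'.rho_c0 _) (mem_AA'.1 h3) (Two.sub_mem_BB (mem_Lt'.1 hu) hu')
  have e2 := C.L'.r_int _ (Fil.mul (C.h.mem.2 h4) (H b hb hbN (C.h.mem.2 h2)) (by omega))
  rw [cc, dif_pos h1, ← f_rho (C := C), map_mul]
  change _ = C.L'.rho _ (_ * C.f α')
  rw [mul_add, map_add] at e1 e2
  rw [mul_comm _ (C.f α')]
  simp only [PreLoc.rho_apply, PB.dlg, mul_assoc] at e1 e2 ⊢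
  exact add_right_cancel (e1.trans e2.symm)

end near

end Cmp

end Pool.Agent.Lib.MP_a3f657_nt.Two
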