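import Pool.Agent.Lib.MP_a3f657_nt.C2Sum

/-!
Density statements.
-/

set_option linter.unusedSectionVars false

namespace Pool.Agent.Lib.MP_a3f657_nt.Two

open Polynomial Filter Topology

open scoped Classical

variable {k : Type} [Field k] [Fintype k] [CharP k 2]

lemma Sel_wp (P : PB (RatFunc k)) (A c : RatFunc k) : Sel P (A + wp c) = Sel P A := by
  ext s
  simp only [mem_Sel, Cmp.Im, map_add, Cmp.f_wp, LL_wp]

lemma selOrder_smul (C : WeierstrassCurve.VariableChange (RatFunc k)) {a : WeierstrassCurve k[X]}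
    (h1 : a.a₁ ≠ 0) (h2 : derivative a.Δ ≠ 0) : selOrder (C • bc a) = selOrder (bc a) := by
  obtain ⟨P, hP⟩ := exists_nd h1 h2
  obtain ⟨h3, h4, h5⟩ := nA_smul hP.a1 C
  rw [selOrder_eq' hP, selOrder_eq' (W := C • bc a) ⟨h3, hP.hb.trans h4.symm⟩, h5, Sel_wp]

/-- Pointwise inequalities give inequalities for densities. -/
theorem dens_le (hR : CellRed) (hA : CellAn) {ι : Type} (s : Finset ι) (S : ι → ℕ → Prop)
    (c : ι → ℝ) (e : ZMod 2) (x y : ℝ) (hy : 0 ≤ y)
    (h : ∀ r : ℕ, ∑ i ∈ s, (if S i (2 ^ r) then c i else 0) ≤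
      if (r : ZMod 2) = e then x + y * 2 ^ r else 0) :
    ∀ ε : ℝ, 0 < ε → ∀ᶠ d : ℕ in atTop,
      ∑ i ∈ s, c i * dens (k := k) (fun W => S i (selOrder W)) d ≤ x / 2 + 3 / 2 * y + ε := by
  refine hR k ι s _ c _ (fun i C a h1 h2 => by rw [selOrder_smul C h1 h2]) ?_
  obtain ⟨T₀, hT⟩ := cell_est hA k
  refine ⟨T₀, fun T hT₀ β ε hε => ?_⟩
  have h0 : 0 < |x| + y + 1 := by positivity
  filter_upwards [hT T hT₀ β (ε / (|x| + y + 1)) (by positivity)] with d H a h1 h2 h3
  obtain ⟨h4, h5⟩ := H a h1 h2 h3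
  obtain ⟨h5, h6⟩ := h5 e
  calc _ ≤ ∑ t ∈ cell T β d a with GoodQ T (shift T β a t),
        (x * (ind e (bc (shift T β a t)) - 1 / 2) +
          y * (ind e (bc (shift T β a t)) * selOrder (bc (shift T β a t)) - 3 / 2)) := by
        refine Finset.sum_le_sum fun t ht => ?_
        obtain ⟨r, hr⟩ := h4 t (Finset.mem_filter.1 ht).1 (Finset.mem_filter.1 ht).2
        have h7 := h r
        have h8 : Par e (bc (shift T β a t)) ↔ (r : ZMod 2) = e := ⟨fun ⟨n, h1, h2⟩ =>
          Nat.pow_right_injective le_rfl (hr.symm.trans h1) ▸ h2, fun h1 => ⟨r, hr, h1⟩⟩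
        rw [ind, h8, hr]
        push_cast
        split_ifs at h7 ⊢ <;> linarith
    _ ≤ |x| * (ε / (|x| + y + 1) * (cell T β d a).card) +
        y * (ε / (|x| + y + 1) * (cell T β d a).card) := by
        rw [Finset.sum_add_distrib, ← Finset.mul_sum, ← Finset.mul_sum]
        exact add_le_add ((le_abs_self _).trans (by rw [abs_mul]; gcongr)) (by gcongr)
    _ ≤ (|x| + y + 1) * (ε / (|x| + y + 1) * (cell T β d a).card) := by
        have : 0 ≤ ε / (|x| + y + 1) * (cell T β d a).card := by positivity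
        linarith
    _ = _ := by field_simp

lemma par_iff {r : ℕ} {e : ZMod 2} : (∃ n : ℕ, 2 ^ r = 2 ^ n ∧ (n : ZMod 2) = e) ↔ (r : ZMod 2) = e :=
  ⟨fun ⟨_, h1, h2⟩ => Nat.pow_right_injective le_rfl h1 ▸ h2, fun h => ⟨r, rfl, h⟩⟩

theorem parity_dens (hR : CellRed) (hA : CellAn) (e : ZMod 2) :
    Tendsto (dens (k := k) fun W => ∃ n : ℕ, selOrder W = 2 ^ n ∧ (n : ZMod 2) = e) atTop
      (𝓝 (1 / 2)) := by
  have key := fun c : ℝ => dens_le (k := k) hR hA (Finset.univ : Finset Unit)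
    (fun _ m => ∃ n : ℕ, m = 2 ^ n ∧ (n : ZMod 2) = e) (fun _ => c) e c 0 le_rfl fun r => by
      simp
  refine tendsto_order.2 ⟨fun b hb => ?_, fun b hb => ?_⟩
  · filter_upwards [key (-1) ((1 / 2 - b) / 2) (by linarith)] with d hd
    simp only [Finset.univ_unique, Finset.sum_singleton] at hd
    linarith
  · filter_upwards [key 1 ((b - 1 / 2) / 2) (by linarith)] with d hd
    simp only [Finset.univ_unique, Finset.sum_singleton] at hd
    linarith

theorem average_le (hR : CellRed) (hA : CellAn) (e : ZMod 2) (R : ℕ) (ε : ℝ) (hε : 0 < ε) :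
    ∀ᶠ d : ℕ in atTop, ∑ n ∈ (Finset.range R).filter (fun n : ℕ => (n : ZMod 2) = e),
      (2 : ℝ) ^ n * dens (k := k) (fun W => selOrder W = 2 ^ n) d ≤ 3 / 2 + ε := by
  simpa using dens_le (k := k) hR hA ((Finset.range R).filter fun n : ℕ => (n : ZMod 2) = e)
    (fun n m => m = 2 ^ n) (fun n => 2 ^ n) e 0 1 zero_le_one (fun r => by
      simp only [Nat.pow_right_inj one_lt_two, Finset.sum_ite_eq, Finset.mem_filter]
      split_ifs with h1 h2 h2
      · simp
      · exact absurd h1.2 h2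
      · positivity
      · rfl) ε hε

theorem trivial_ge (hR : CellRed) (hA : CellAn) (ε : ℝ) (hε : 0 < ε) :
    ∀ᶠ d : ℕ in atTop, 1 / 6 - ε ≤ dens (k := k) (fun W => selOrder W = 1) d := by
  refine (dens_le (k := k) hR hA (Finset.univ : Finset Unit) (fun _ m => m = 1)
    (fun _ => -1) 0 (-4 / 3) (1 / 3) (by norm_num) (fun r => ?_) ε hε).mono fun d hd => ?_
  · rcases r with _ | _ | r
    · norm_num
    · simp
    · have : (1 : ℝ) ≤ 2 ^ r := one_le_pow₀ one_le_two
      simp only [Finset.univ_unique, Finset.sum_singleton, pow_succ]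
      rw [if_neg (by omega)]
      split_ifs <;> linarith
  · simp only [Finset.univ_unique, Finset.sum_singleton] at hd
    linarith

theorem two_ge (hR : CellRed) (hA : CellAn) (ε : ℝ) (hε : 0 < ε) :
    ∀ᶠ d : ℕ in atTop, 5 / 12 - ε ≤ dens (k := k) (fun W => selOrder W = 2) d := by
  refine (dens_le (k := k) hR hA (Finset.univ : Finset Unit) (fun _ m => m = 2)
    (fun _ => -1) 1 (-4 / 3) (1 / 6) (by norm_num) (fun r => ?_) ε hε).mono fun d hd => ?_
  · rcases r with _ | _ | _ | r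
    · simp
    · norm_num
    · rw [if_neg (show ¬ ((0 + 1 + 1 : ℕ) : ZMod 2) = 1 by decide)]
      simp
    · have : (1 : ℝ) ≤ 2 ^ r := one_le_pow₀ one_le_two
      simp only [Finset.univ_unique, Finset.sum_singleton, pow_succ]
      rw [if_neg (by omega)]
      split_ifs <;> linarith
  · simp only [Finset.univ_unique, Finset.sum_singleton] at hd
    linarith

end Pool.Agent.Lib.MP_a3f657_nt.Two
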