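import Pool.Agent.Lib.MP_a3f657_nt.C2HtCount

/-!
Counting isomorphism classes by height.
-/

namespace Pool.Agent.Lib.MP_a3f657_nt.Two

open WeierstrassCurve
open scoped Polynomial

lemma ncard_eq_mul {α β : Type} {X : Set α} (hX : X.Finite) (f : α → β) {g m : ℕ}
    (h : ∀ x ∈ X, {x' ∈ X | f x' = f x}.ncard * m = g) : X.ncard * m = (f '' X).ncard * g := by
  rw [ncard_eq_sum hX f, Set.ncard_eq_toFinset_card _ (hX.image f), ← smul_eq_mul _ g,
    Finset.sum_mul, ← Finset.sum_const]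
  refine Finset.sum_congr rfl fun y hy => ?_
  obtain ⟨x, hx, rfl⟩ := (Set.Finite.mem_toFinset _).1 hy
  exact h x hx

lemma geom_le {x : ℕ} (hx : 2 ≤ x) (d : ℕ) : ∑ e ∈ Finset.range (d + 1), x ^ e ≤ 2 * x ^ d := by
  induction d with
  | zero => simp
  | succ d ih =>
    rw [Finset.sum_range_succ, pow_succ]
    nlinarith [Nat.zero_le (x ^ d)]

variable {k : Type} [Field k]

/-- Classes of height exactly `q ^ e` with `a₁ ≠ 0` and the property `P`. -/
def Mcl (P : WeierstrassCurve (RatFunc k) → Prop) (e : ℕ) :=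
  clq '' {a : WeierstrassCurve k[X] | MinTup a e ∧ P (a.baseChange (RatFunc k))}

/-- Classes of height at most `q ^ d` with `a₁ = 0`. -/
def Zcl (k : Type) [Field k] (d : ℕ) := clq '' {a : WeierstrassCurve k[X] | DegLE a d ∧ a.a₁ = 0}

lemma exists_min {W : WeierstrassCurve (RatFunc k)} {d : ℕ} (h : HeightLE W d) :
    ∃ e ≤ d, ∃ (C : VariableChange (RatFunc k)) (a : WeierstrassCurve k[X]), DegLE a e ∧
      C • W = a.baseChange (RatFunc k) ∧
      (e = 0 ∨ ¬ HeightLE (a.baseChange (RatFunc k)) (e - 1)) := by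
  classical
  have h1 : ∃ e, HeightLE W e := ⟨d, h⟩
  obtain ⟨C, a, h2, h3⟩ := Nat.find_spec h1
  refine ⟨_, Nat.find_min' h1 h, C, a, h2, h3, or_iff_not_imp_left.2 fun h0 h4 => ?_⟩
  rw [← h3, heightLE_smul] at h4
  exact Nat.find_min h1 (by omega) h4

variable [CharP k 2] {P : WeierstrassCurve (RatFunc k) → Prop}

lemma MinTup.of_cls {a a' : WeierstrassCurve k[X]} {e : ℕ} (h : MinTup a e) (h1 : DegLE a' e)
    (h2 : clq a' = clq a) : MinTup a' e :=
  ⟨h1, fun h3 => h.2.1 (cls_Δ h2.symm h3), fun h3 => h.2.2.1 (cls_a₁ h2.symm h3),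
    by rw [cls_height h2]; exact h.2.2.2⟩

omit [CharP k 2] in
lemma disjoint_Mcl {e e' : ℕ} (h : e < e') : Disjoint (Mcl P e) (Mcl P e') := by
  rw [Set.disjoint_left]
  rintro _ ⟨a, ⟨ha, -⟩, rfl⟩ ⟨a', ⟨ha', -⟩, h1⟩
  refine ha'.2.2.2.resolve_left (by omega) ((cls_height h1).2 ?_)
  exact HeightLE.mono ⟨1, a, ha.1, one_smul _ _⟩ (by omega)

variable [Fintype k]

omit [CharP k 2] in
lemma finite_tup (e : ℕ) :
    {a : WeierstrassCurve k[X] | MinTup a e ∧ P (a.baseChange (RatFunc k))}.Finite :=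
  (finite_degLE e).subset fun _ h => h.1.1

lemma tup_eq (hP : ∀ (C : VariableChange (RatFunc k)) W, P (C • W) ↔ P W) (e : ℕ) :
    tupNum P e * 2 = (Mcl P e).ncard * Nat.card (Grp k e) := by
  refine ncard_eq_mul (finite_tup e) clq fun a ha => ?_
  rw [← orbit_mul_stab e a, card_stab_min ha.1.1 ha.1.2.2.1, ← fibre_eq_orbit ha.1]
  congr 2
  ext a'
  refine ⟨fun h => ⟨h.1.1.1, h.2⟩, fun h => ⟨⟨ha.1.of_cls h.1 h.2, ?_⟩, h.2⟩⟩
  obtain ⟨C, hC⟩ := cls_eq.1 h.2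
  rw [← hC, hP]
  exact ha.2

omit [CharP k 2] in
lemma le_card_Grp (e : ℕ) : Fintype.card k ^ (6 * e + 3) ≤ Nat.card (Grp k e) := by
  rw [card_Grp]
  exact Nat.le_mul_of_pos_left _ Nat.card_pos

lemma card_Mcl_le (e : ℕ) :
    (Mcl (k := k) (fun _ => True) e).ncard ≤ 2 * Fintype.card k ^ (10 * e + 2) := by
  have h1 := tup_eq (k := k) (P := fun _ => True) (fun _ _ => Iff.rfl) e
  have h2 : tupNum (k := k) (fun _ => True) e ≤ Fintype.card k ^ (16 * e + 5) := by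
    rw [show 16 * e + 5 = e + 2 * e + 3 * e + 4 * e + 6 * e + 5 by ring, ← card_Box]
    exact Set.ncard_le_ncard (fun _ h => h.1.1) (finite_Box _ _ _ _ _)
  refine Nat.le_of_mul_le_mul_right (c := Fintype.card k ^ (6 * e + 3)) ?_ (by positivity)
  calc _ ≤ _ := Nat.mul_le_mul_left _ (le_card_Grp e)
    _ = _ := h1.symm
    _ ≤ Fintype.card k ^ (16 * e + 5) * 2 := Nat.mul_le_mul_right _ h2
    _ = _ := by ring

lemma card_Zcl_le (d : ℕ) : (Zcl k d).ncard ≤ 8 * Fintype.card k ^ (9 * d + 2) := by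
  have hX : {a : WeierstrassCurve k[X] | DegLE a d ∧ a.a₁ = 0}.Finite :=
    (finite_degLE d).subset fun _ h => h.1
  have h1 := mul_le_ncard hX clq (g := Fintype.card k ^ (6 * d + 3)) (m := 8) fun a ha => by
    have h2 := orbit_mul_stab d a
    have h3 : (MulAction.orbit (Grp k d) a).ncard ≤
        {a' ∈ {a : WeierstrassCurve k[X] | DegLE a d ∧ a.a₁ = 0} | clq a' = clq a}.ncard := by
      refine Set.ncard_le_ncard ?_ (hX.subset fun _ h => h.1)
      rintro _ ⟨C, rfl⟩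
      exact ⟨⟨ha.1.smul C, cls_a₁ (cls_smul C.1 a) ha.2⟩, cls_smul C.1 a⟩
    refine Nat.le_of_mul_le_mul_left (c := Nat.card k[X]ˣ) ?_ Nat.card_pos
    rw [← card_Grp, ← h2, ← mul_assoc, mul_comm]
    exact Nat.mul_le_mul (card_stab_zero d ha.2) h3
  have h2 : {a : WeierstrassCurve k[X] | DegLE a d ∧ a.a₁ = 0}.ncard ≤
      Fintype.card k ^ (0 + 2 * d + 3 * d + 4 * d + 6 * d + 5) := by
    rw [← card_Box]
    exact Set.ncard_le_ncard (fun a h => ⟨by simp [Pol, h.2], h.1.2⟩) (finite_Box _ _ _ _ _)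
  refine Nat.le_of_mul_le_mul_right (c := Fintype.card k ^ (6 * d + 3)) ?_ (by positivity)
  calc _ ≤ _ := h1
    _ ≤ _ := Nat.mul_le_mul_left _ h2
    _ = _ := by ring

lemma num_bounds (hP : ∀ (C : VariableChange (RatFunc k)) W, P (C • W) ↔ P W) (d : ℕ) :
    ∑ e ∈ Finset.range (d + 1), (Mcl P e).ncard ≤ num P d ∧
      num P d ≤ ∑ e ∈ Finset.range (d + 1), (Mcl P e).ncard + (Zcl k d).ncard := by
  have hM : ∀ e, (Mcl P e).Finite := fun e => (finite_tup e).image _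
  have hZ : (Zcl k d).Finite := ((finite_degLE d).subset fun _ h => h.1).image _
  have hU : (⋃ e ∈ Finset.range (d + 1), Mcl P e).Finite :=
    (Finset.range (d + 1)).finite_toSet.biUnion fun e _ => hM e
  have h1 : (⋃ e ∈ Finset.range (d + 1), Mcl P e).ncard =
      ∑ e ∈ Finset.range (d + 1), (Mcl P e).ncard := by
    rw [← finsum_mem_coe_finset]
    exact (Finset.range (d + 1)).finite_toSet.ncard_biUnion (fun e _ => hM e) fun e _ e' _ h =>
      (lt_or_gt_of_ne h).elim disjoint_Mcl fun h' => (disjoint_Mcl h').symm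
  have h2 : {c | ∃ W, Quotient.mk'' W = c ∧ W.Δ ≠ 0 ∧ HeightLE W d ∧ P W} ⊆
      (⋃ e ∈ Finset.range (d + 1), Mcl P e) ∪ Zcl k d := by
    rintro _ ⟨W, rfl, hΔ, hW, hPW⟩
    obtain ⟨e, he, C, a, h3, h4, h5⟩ := exists_min hW
    have h6 : clq a = Quotient.mk'' W := Quotient.eq''.2 (MulAction.orbitRel_apply.2 ⟨C, h4⟩)
    by_cases h0 : a.a₁ = 0
    · exact Or.inr ⟨a, ⟨h3.mono he, h0⟩, h6⟩
    · refine Or.inl (Set.mem_biUnion (Finset.mem_coe.2 (Finset.mem_range.2 (Nat.lt_succ_of_le he)))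
        ⟨a, ⟨⟨h3, fun h7 => hΔ ?_, h0, h5⟩, by rwa [← h4, hP]⟩, h6⟩)
      simpa [variableChange_Δ, baseChange, h7] using congrArg WeierstrassCurve.Δ h4
  rw [← h1]
  refine ⟨Set.ncard_le_ncard (Set.iUnion₂_subset ?_) ((hU.union hZ).subset h2),
    (Set.ncard_le_ncard h2 (hU.union hZ)).trans (Set.ncard_union_le _ _)⟩
  rintro e he _ ⟨a, ⟨ha, hPa⟩, rfl⟩
  refine ⟨_, rfl, by simpa [baseChange] using ha.2.1, HeightLE.mono ⟨1, a, ha.1, one_smul _ _⟩ ?_, hPa⟩
  exact Nat.lt_succ_iff.1 (Finset.mem_range.1 he)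

lemma card_level_le (d e : ℕ) :
    {a : WeierstrassCurve k[X] | DegLE a d ∧ clq a ∈ Mcl (k := k) (fun _ => True) e}.ncard ≤
      (Mcl (k := k) (fun _ => True) e).ncard * Fintype.card k ^ (d - e + 6 * d + 4) := by
  have hX : {a : WeierstrassCurve k[X] | DegLE a d ∧ clq a ∈ Mcl (fun _ => True) e}.Finite :=
    (finite_degLE d).subset fun _ h => h.1
  refine (ncard_le_mul hX clq (g := Fintype.card k ^ (d - e + 6 * d + 4)) ?_).trans
    (Nat.mul_le_mul_right _ (Set.ncard_le_ncard (by rintro _ ⟨a, ha, rfl⟩; exact ha.2)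
      ((finite_tup (P := fun _ => True) e).image clq)))
  rintro a ⟨-, a₀, ⟨h₀, -⟩, h1⟩
  have hY : (Pol k (d - e) ×ˢ Pol k (2 * d) ×ˢ Pol k d ×ˢ Pol k (3 * d)).Finite :=
    (finite_Pol _).prod ((finite_Pol _).prod ((finite_Pol _).prod (finite_Pol _)))
  refine (Set.ncard_le_ncard (t := (fun x : k[X] × k[X] × k[X] × k[X] =>
    (⟨1, x.2.1, x.2.2.1, x.2.2.2⟩ : VariableChange k[X])⁻¹ • sc x.1 a₀) '' _) ?_
    (hY.image _)).trans ((Set.ncard_image_le hY).trans (le_of_eq ?_))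
  · rintro a' ⟨⟨h2, -⟩, h3⟩
    obtain ⟨C, hC⟩ := cls_eq.1 (h1.trans h3.symm)
    obtain ⟨u, r, s, t, -, hu, hr, hs, ht, h4⟩ := of_min h2 h₀.1 h₀.2.1 h₀.2.2.2 hC
    exact ⟨(u, r, s, t), ⟨Nat.le_sub_of_add_le hu, hr, hs, ht⟩, inv_smul_eq_iff.2 h4.symm⟩
  · simp only [Set.ncard_prod, card_Pol]
    ring

lemma le_sum_level (d : ℕ) : Fintype.card k ^ (16 * d + 17) ≤ ∑ e ∈ Finset.range (d + 1 + 1),
    (Mcl (k := k) (fun _ => True) e).ncard * Fintype.card k ^ (d + 1 - e + 6 * (d + 1) + 4) := by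
  refine le_trans ?_ (Finset.sum_le_sum fun e _ => card_level_le (d + 1) e)
  refine le_trans ?_ (Finset.set_ncard_biUnion_le _ _)
  rw [show 16 * d + 17 = d + (2 * d + 2) + (3 * d + 2) + (4 * d + 3) + (6 * d + 5) + 5 by ring,
    ← card_Box]
  have key : ∀ {p : k[X]} {n : ℕ}, p.natDegree ≤ n → (Polynomial.X * p).natDegree ≤ n + 1 :=
    fun h => Polynomial.natDegree_mul_le.trans (by rw [Polynomial.natDegree_X]; omega)
  have key' : ∀ {p : k[X]} {n : ℕ}, p.natDegree ≤ n → (Polynomial.X * p + 1).natDegree ≤ n + 1 :=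
    fun h => Polynomial.natDegree_add_le_of_degree_le (key h) (by simp)
  refine Set.ncard_le_ncard_of_injOn (fun a => (⟨Polynomial.X * a.a₁ + 1, a.a₂, Polynomial.X * a.a₃,
    Polynomial.X * a.a₄, Polynomial.X * a.a₆ + 1⟩ : WeierstrassCurve k[X])) ?_ ?_
    ((finite_degLE (d + 1)).subset (Set.iUnion₂_subset fun _ _ _ h => h.1))
  · rintro a ⟨h₁, h₂, h₃, h₄, h₆⟩
    have h1 : DegLE (⟨Polynomial.X * a.a₁ + 1, a.a₂, Polynomial.X * a.a₃, Polynomial.X * a.a₄,
        Polynomial.X * a.a₆ + 1⟩ : WeierstrassCurve k[X]) (d + 1) :=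
      ⟨key' h₁, h₂, key h₃, key h₄, key' h₆⟩
    obtain ⟨e, he, C, a', h3, h4, h5⟩ := exists_min ⟨1, _, h1, one_smul _ _⟩
    have h6 := cls_eq.2 ⟨C, h4⟩
    refine Set.mem_biUnion (Finset.mem_coe.2 (Finset.mem_range.2 (Nat.lt_succ_of_le he)))
      ⟨h1, a', ⟨⟨h3, fun h7 => ?_, fun h7 => ?_, h5⟩, trivial⟩, h6⟩
    · have h8 := congrArg (Polynomial.eval 0) (cls_Δ h6.symm h7)
      rw [Δ_of_char_two, b₈_of_char_two] at h8
      simp at h8
    · simpa using congrArg (Polynomial.eval 0) (cls_a₁ h6.symm h7)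
  · intro a _ b _ h
    simpa [WeierstrassCurve.ext_iff] using h

lemma le_card_Mcl (d : ℕ) : Fintype.card k ^ (10 * (d + 1)) ≤
    2 * Fintype.card k ^ 3 * (Mcl (k := k) (fun _ => True) (d + 1)).ncard := by
  have hq : 2 ≤ Fintype.card k := Fintype.one_lt_card
  have h1 := le_sum_level (k := k) d
  rw [Finset.sum_range_succ] at h1
  have h2 : ∑ e ∈ Finset.range (d + 1), (Mcl (k := k) (fun _ => True) e).ncard *
      Fintype.card k ^ (d + 1 - e + 6 * (d + 1) + 4) ≤ 4 * Fintype.card k ^ (16 * d + 13) := by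
    calc _ ≤ ∑ e ∈ Finset.range (d + 1), 2 * Fintype.card k ^ (7 * d + 13) *
          (Fintype.card k ^ 9) ^ e := Finset.sum_le_sum fun e he => by
          refine (Nat.mul_le_mul_right _ (card_Mcl_le e)).trans (le_of_eq ?_)
          have := Finset.mem_range.1 he
          rw [mul_assoc, mul_assoc, ← pow_mul, ← pow_add, ← pow_add]
          congr 2
          omega
      _ ≤ 2 * Fintype.card k ^ (7 * d + 13) * (2 * (Fintype.card k ^ 9) ^ d) := by
          rw [← Finset.mul_sum]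
          exact Nat.mul_le_mul_left _ (geom_le (hq.trans (Nat.le_self_pow (by norm_num) _)) d)
      _ = _ := by ring
  have h3 : 2 ^ 4 * Fintype.card k ^ (16 * d + 13) ≤ Fintype.card k ^ (16 * d + 17) := by
    rw [show 16 * d + 17 = 4 + (16 * d + 13) by ring, pow_add _ 4]
    exact Nat.mul_le_mul_right _ (Nat.pow_le_pow_left hq 4)
  refine Nat.le_of_mul_le_mul_right (c := Fintype.card k ^ (6 * d + 7)) ?_ (by positivity)
  calc _ = Fintype.card k ^ (16 * d + 17) := by ring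
    _ ≤ 2 * ((Mcl (k := k) (fun _ => True) (d + 1)).ncard *
        Fintype.card k ^ (d + 1 - (d + 1) + 6 * (d + 1) + 4)) := by omega
    _ = _ := by rw [Nat.sub_self]; ring

end Pool.Agent.Lib.MP_a3f657_nt.Two
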