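import Pool.Agent.Lib.MP_a3f657_nt.C2HtMin

/-!
Counting Weierstrass equations and their orbits.
-/

namespace Pool.Agent.Lib.MP_a3f657_nt.Two

open WeierstrassCurve
open scoped Polynomial

lemma ncard_eq_sum {α β : Type} {X : Set α} (hX : X.Finite) (f : α → β) :
    X.ncard = ∑ y ∈ (hX.image f).toFinset, {x ∈ X | f x = y}.ncard := by
  classical
  rw [Set.ncard_eq_toFinset_card X hX, Finset.card_eq_sum_card_image f,
    hX.toFinset_image f (hX.image f)]
  refine Finset.sum_congr rfl fun y _ => ?_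
  rw [← Set.ncard_coe_finset]
  congr 1
  ext x
  simp

lemma ncard_le_mul {α β : Type} {X : Set α} (hX : X.Finite) (f : α → β) {g : ℕ}
    (h : ∀ x ∈ X, {x' ∈ X | f x' = f x}.ncard ≤ g) : X.ncard ≤ (f '' X).ncard * g := by
  rw [ncard_eq_sum hX f, Set.ncard_eq_toFinset_card _ (hX.image f), ← smul_eq_mul]
  refine Finset.sum_le_card_nsmul _ _ _ fun y hy => ?_
  obtain ⟨x, hx, rfl⟩ := (Set.Finite.mem_toFinset _).1 hy
  exact h x hx

lemma mul_le_ncard {α β : Type} {X : Set α} (hX : X.Finite) (f : α → β) {g m : ℕ}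
    (h : ∀ x ∈ X, g ≤ m * {x' ∈ X | f x' = f x}.ncard) : (f '' X).ncard * g ≤ m * X.ncard := by
  rw [ncard_eq_sum hX f, Set.ncard_eq_toFinset_card _ (hX.image f), ← smul_eq_mul, Finset.mul_sum]
  refine Finset.card_nsmul_le_sum _ _ _ fun y hy => ?_
  obtain ⟨x, hx, rfl⟩ := (Set.Finite.mem_toFinset _).1 hy
  exact h x hx

variable {k : Type} [Field k]

/-- Polynomials of bounded degree. -/
def Pol (k : Type) [Field k] (n : ℕ) : Set k[X] := {p | p.natDegree ≤ n}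

/-- Equations with coefficients of bounded degree. -/
def Box (k : Type) [Field k] (n₁ n₂ n₃ n₄ n₆ : ℕ) : Set (WeierstrassCurve k[X]) :=
  {a | a.a₁ ∈ Pol k n₁ ∧ a.a₂ ∈ Pol k n₂ ∧ a.a₃ ∈ Pol k n₃ ∧ a.a₄ ∈ Pol k n₄ ∧ a.a₆ ∈ Pol k n₆}

/-- The isomorphism class. -/
noncomputable def clq (a : WeierstrassCurve k[X]) :
    MulAction.orbitRel.Quotient (VariableChange (RatFunc k)) (WeierstrassCurve (RatFunc k)) :=
  Quotient.mk'' (a.baseChange (RatFunc k))

lemma cls_eq {a a' : WeierstrassCurve k[X]} : clq a' = clq a ↔ ∃ C : VariableChange (RatFunc k),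
    C • a.baseChange (RatFunc k) = a'.baseChange (RatFunc k) :=
  Quotient.eq''.trans MulAction.orbitRel_apply

lemma unit_deg (u : k[X]ˣ) : (u : k[X]).natDegree = 0 :=
  Polynomial.natDegree_eq_zero_of_isUnit u.isUnit

lemma deg_mul_unit {p : k[X]} {n : ℕ} (h : p.natDegree ≤ n) (u : k[X]ˣ) (m : ℕ) :
    (p * (u : k[X]) ^ m).natDegree ≤ n :=
  Polynomial.natDegree_mul_le.trans (by
    rw [← Units.val_pow_eq_pow_val, unit_deg]; exact h)

/-- The changes of variables of level `d`. -/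
def Grp (k : Type) [Field k] (d : ℕ) : Subgroup (VariableChange k[X]) where
  carrier := {C | C.r ∈ Pol k (2 * d) ∧ C.s ∈ Pol k d ∧ C.t ∈ Pol k (3 * d)}
  one_mem' := by simp [Pol, VariableChange.one_def]
  mul_mem' := by
    rintro C C' ⟨h1, h2, h3⟩ ⟨h4, h5, h6⟩
    refine ⟨Polynomial.natDegree_add_le_of_degree_le (deg_mul_unit h1 _ _) h4,
      Polynomial.natDegree_add_le_of_degree_le ?_ h5, Polynomial.natDegree_add_le_of_degree_le
      (Polynomial.natDegree_add_le_of_degree_le (deg_mul_unit h3 _ _) (deg_mul_unit ?_ _ _)) h6⟩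
    · simpa only [pow_one, mul_comm] using deg_mul_unit h2 C'.u 1
    · exact Polynomial.natDegree_mul_le.trans ((add_le_add h1 h5).trans (by omega))
  inv_mem' := by
    rintro C ⟨h1, h2, h3⟩
    refine ⟨deg_mul_unit (by rwa [Polynomial.natDegree_neg]) _ _, ?_,
      deg_mul_unit (Polynomial.natDegree_sub_le_of_le (m := 3 * d) ?_ h3 |>.trans (by simp)) _ _⟩
    · have := deg_mul_unit (p := -C.s) (n := d) (by rwa [Polynomial.natDegree_neg]) C.u⁻¹ 1
      rwa [pow_one] at this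
    · exact Polynomial.natDegree_mul_le.trans ((add_le_add h1 h2).trans (by omega))

lemma cls_smul (C : VariableChange k[X]) (a : WeierstrassCurve k[X]) : clq (C • a) = clq a :=
  cls_eq.2 ⟨C.map _, map_variableChange _ _ _⟩

lemma cls_a₁ [CharP k 2] {a a' : WeierstrassCurve k[X]} (h : clq a' = clq a) (h' : a.a₁ = 0) :
    a'.a₁ = 0 := by
  obtain ⟨C, hC⟩ := cls_eq.1 h
  have h1 := congrArg WeierstrassCurve.a₁ hC
  simpa [variableChange_a₁, baseChange, h', CharTwo.two_eq_zero] using h1.symm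

lemma cls_Δ {a a' : WeierstrassCurve k[X]} (h : clq a' = clq a) (h' : a.Δ = 0) : a'.Δ = 0 := by
  obtain ⟨C, hC⟩ := cls_eq.1 h
  have h1 := congrArg WeierstrassCurve.Δ hC
  simpa [variableChange_Δ, baseChange, h'] using h1.symm

lemma cls_height {a a' : WeierstrassCurve k[X]} (h : clq a' = clq a) {d : ℕ} :
    HeightLE (a'.baseChange (RatFunc k)) d ↔ HeightLE (a.baseChange (RatFunc k)) d := by
  obtain ⟨C, hC⟩ := cls_eq.1 h
  rw [← hC, heightLE_smul]

lemma DegLE.smul [CharP k 2] {a : WeierstrassCurve k[X]} {d : ℕ} (h : DegLE a d) (C : Grp k d) :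
    DegLE (C • a) d := by
  have h1 : (C.1 • a) = sc ((C.1.u⁻¹ : k[X]ˣ) : k[X]) (Two.trn C.1.r C.1.s C.1.t a) := by
    rw [(smul_eq_iff C.1 a _).1 rfl]
    simp [sc, ← mul_assoc, ← mul_pow]
  obtain ⟨h₁, h₂, h₃, h₄, h₆⟩ := h.tr C.2.1 C.2.2.1 C.2.2.2
  change DegLE (C.1 • a) d
  rw [h1]
  exact ⟨by simpa only [pow_one, mul_comm, sc] using deg_mul_unit h₁ C.1.u⁻¹ 1,
    by simpa only [mul_comm, sc] using deg_mul_unit h₂ C.1.u⁻¹ 2,
    by simpa only [mul_comm, sc] using deg_mul_unit h₃ C.1.u⁻¹ 3,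
    by simpa only [mul_comm, sc] using deg_mul_unit h₄ C.1.u⁻¹ 4,
    by simpa only [mul_comm, sc] using deg_mul_unit h₆ C.1.u⁻¹ 6⟩

lemma fibre_eq_orbit [CharP k 2] {a : WeierstrassCurve k[X]} {d : ℕ} (h : MinTup a d) :
    {a' | DegLE a' d ∧ clq a' = clq a} = MulAction.orbit (Grp k d) a := by
  ext a'
  constructor
  · rintro ⟨h1, h2⟩
    obtain ⟨C, hC⟩ := cls_eq.1 h2.symm
    obtain ⟨u, r, s, t, hu, hu', hr, hs, ht, h3⟩ := of_min h1 h.1 h.2.1 h.2.2.2 hC
    obtain ⟨u, rfl⟩ : IsUnit u := Polynomial.isUnit_iff_degree_eq_zero.2 (by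
      rw [Polynomial.degree_eq_natDegree hu, show u.natDegree = 0 by omega]; rfl)
    have h4 := (smul_eq_iff ⟨u, r, s, t⟩ a' a).2 h3
    exact ⟨(⟨⟨u, r, s, t⟩, hr, hs, ht⟩ : Grp k d)⁻¹, inv_smul_eq_iff.2 h4.symm⟩
  · rintro ⟨C, rfl⟩
    exact ⟨h.1.smul C, cls_smul C.1 a⟩

lemma stab_iff [CharP k 2] (a : WeierstrassCurve k[X]) (u : k[X]ˣ) (r s t : k[X]) :
    (⟨u, r, s, t⟩ : VariableChange k[X]) • a = a ↔ a.a₁ = u * a.a₁ ∧
      a.a₂ + s * a.a₁ + r + s * s = u ^ 2 * a.a₂ ∧ a.a₃ + r * a.a₁ = u ^ 3 * a.a₃ ∧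
      a.a₄ + s * a.a₃ + (t + r * s) * a.a₁ + r * r = u ^ 4 * a.a₄ ∧
      a.a₆ + r * a.a₄ + r * r * a.a₂ + r * r * r + t * a.a₃ + t * t + r * t * a.a₁ =
        u ^ 6 * a.a₆ := by
  rw [smul_eq_iff, WeierstrassCurve.ext_iff, tr_a₁, tr_a₂, tr_a₃, tr_a₄, tr_a₆]
  rfl

lemma card_stab_min [CharP k 2] {a : WeierstrassCurve k[X]} {d : ℕ} (h : DegLE a d)
    (h1 : a.a₁ ≠ 0) : Nat.card (MulAction.stabilizer (Grp k d) a) = 2 := by
  let C₀ : Grp k d := ⟨⟨1, 0, a.a₁, a.a₃⟩, by simp [Pol], h.1, h.2.2.1⟩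
  have h2 := CharTwo.two_eq_zero (R := k[X])
  have : (MulAction.stabilizer (Grp k d) a : Set (Grp k d)) = {1, C₀} := by
    ext ⟨⟨u, r, s, t⟩, hC⟩
    simp only [SetLike.mem_coe, MulAction.mem_stabilizer_iff, Set.mem_insert_iff,
      Set.mem_singleton_iff, Subtype.ext_iff, C₀, Subgroup.coe_one, VariableChange.one_def,
      VariableChange.mk.injEq, Subgroup.mk_smul, stab_iff]
    constructor
    · rintro ⟨e₁, e₂, e₃, e₄, -⟩
      obtain rfl : u = 1 := Units.ext (mul_right_cancel₀ h1 (e₁.symm.trans (one_mul _).symm))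
      simp only [Units.val_one, one_pow, one_mul] at e₂ e₃ e₄
      obtain rfl : r = 0 := (mul_eq_zero.1 (add_eq_left.1 e₃)).resolve_right h1
      have e₅ : s * (s - a.a₁) = 0 := by linear_combination e₂ - s * a.a₁ * h2
      rcases mul_eq_zero.1 e₅ with rfl | e₆
      · exact Or.inl ⟨rfl, rfl, rfl, mul_right_cancel₀ h1 (by linear_combination e₄)⟩
      · obtain rfl := sub_eq_zero.1 e₆
        exact Or.inr ⟨rfl, rfl, rfl, mul_right_cancel₀ h1
          (by linear_combination e₄ - a.a₁ * a.a₃ * h2)⟩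
    · rintro (⟨rfl, rfl, rfl, rfl⟩ | ⟨rfl, rfl, rfl, rfl⟩)
      · simp
      · simp only [Units.val_one]
        exact ⟨by ring, by linear_combination a.a₁ * a.a₁ * h2, by ring,
          by linear_combination a.a₁ * a.a₃ * h2, by linear_combination a.a₃ * a.a₃ * h2⟩
  rw [← SetLike.coe_sort_coe, Nat.card_coe_set_eq, this, Set.ncard_pair]
  intro h3
  exact h1 (congrArg (fun C : Grp k d => C.1.s) h3).symm

variable [Fintype k]

lemma card_Pol (n : ℕ) : (Pol k n).ncard = Fintype.card k ^ (n + 1) := by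
  have : Pol k n = (Polynomial.degreeLT k (n + 1) : Set k[X]) := by
    ext p
    simp only [Pol, Set.mem_setOf_eq, SetLike.mem_coe, Polynomial.mem_degreeLT]
    by_cases hp : p = 0
    · simp [hp]
    · rw [Polynomial.degree_eq_natDegree hp, Nat.cast_lt, Nat.lt_succ_iff]
  rw [this, ← Nat.card_coe_set_eq, SetLike.coe_sort_coe,
    Nat.card_congr (Polynomial.degreeLTEquiv k (n + 1)).toEquiv]
  simp

lemma finite_Pol (n : ℕ) : (Pol k n).Finite :=
  Set.finite_of_ncard_pos (by rw [card_Pol]; positivity)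

lemma card_Box (n₁ n₂ n₃ n₄ n₆ : ℕ) :
    (Box k n₁ n₂ n₃ n₄ n₆).ncard = Fintype.card k ^ (n₁ + n₂ + n₃ + n₄ + n₆ + 5) := by
  have : Box k n₁ n₂ n₃ n₄ n₆ = (fun x : k[X] × k[X] × k[X] × k[X] × k[X] =>
      (⟨x.1, x.2.1, x.2.2.1, x.2.2.2.1, x.2.2.2.2⟩ : WeierstrassCurve k[X])) ''
      (Pol k n₁ ×ˢ Pol k n₂ ×ˢ Pol k n₃ ×ˢ Pol k n₄ ×ˢ Pol k n₆) := by
    ext a
    exact ⟨fun h => ⟨(a.a₁, a.a₂, a.a₃, a.a₄, a.a₆), h, rfl⟩, by rintro ⟨x, hx, rfl⟩; exact hx⟩
  rw [this, Set.ncard_image_of_injective _ (fun x y h => by simpa [Prod.ext_iff] using h)]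
  simp only [Set.ncard_prod, card_Pol]
  ring

lemma finite_Box (n₁ n₂ n₃ n₄ n₆ : ℕ) : (Box k n₁ n₂ n₃ n₄ n₆).Finite :=
  Set.finite_of_ncard_pos (by rw [card_Box]; positivity)

lemma finite_degLE (d : ℕ) : {a : WeierstrassCurve k[X] | DegLE a d}.Finite :=
  finite_Box d (2 * d) (3 * d) (4 * d) (6 * d)

instance finite_units : Finite k[X]ˣ :=
  Set.finite_univ_iff.1 (Set.Finite.of_finite_image (f := Units.val)
    ((finite_Pol 0).subset (by rintro _ ⟨u, -, rfl⟩; exact (unit_deg u).le))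
    Units.val_injective.injOn)

lemma card_Grp (d : ℕ) : Nat.card (Grp k d) = Nat.card k[X]ˣ * Fintype.card k ^ (6 * d + 3) := by
  have : (Grp k d : Set (VariableChange k[X])) = (fun x : k[X]ˣ × k[X] × k[X] × k[X] =>
      (⟨x.1, x.2.1, x.2.2.1, x.2.2.2⟩ : VariableChange k[X])) ''
      (Set.univ ×ˢ Pol k (2 * d) ×ˢ Pol k d ×ˢ Pol k (3 * d)) := by
    ext a
    exact ⟨fun h => ⟨(a.u, a.r, a.s, a.t), ⟨trivial, h⟩, rfl⟩, by rintro ⟨x, hx, rfl⟩; exact hx.2⟩
  rw [← SetLike.coe_sort_coe, Nat.card_coe_set_eq, this,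
    Set.ncard_image_of_injective _ (fun x y h => by simpa [Prod.ext_iff] using h)]
  simp only [Set.ncard_prod, card_Pol, Set.ncard_univ]
  ring

omit [Fintype k] in
lemma orbit_mul_stab (d : ℕ) (a : WeierstrassCurve k[X]) : (MulAction.orbit (Grp k d) a).ncard *
    Nat.card (MulAction.stabilizer (Grp k d) a) = Nat.card (Grp k d) := by
  rw [← MulAction.index_stabilizer, Subgroup.index_mul_card]

lemma card_stab_zero [CharP k 2] {a : WeierstrassCurve k[X]} (d : ℕ)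
    (h1 : a.a₁ = 0) : Nat.card (MulAction.stabilizer (Grp k d) a) ≤ Nat.card k[X]ˣ * 8 := by
  classical
  have := Fintype.ofFinite k[X]ˣ
  have h2 := CharTwo.two_eq_zero (R := k[X])
  let f : k[X]ˣ → k[X][X] := fun u => Polynomial.X ^ 4 + (Polynomial.C a.a₃ * Polynomial.X +
    Polynomial.C (a.a₄ - u ^ 4 * a.a₄ + (u ^ 2 * a.a₂ - a.a₂) ^ 2))
  let ρ : k[X]ˣ → k[X] → k[X] := fun u s => u ^ 2 * a.a₂ - a.a₂ - s * s
  let g : k[X]ˣ → k[X] → k[X][X] := fun u s => Polynomial.X ^ 2 + (Polynomial.C a.a₃ * Polynomial.X +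
    Polynomial.C (a.a₆ + ρ u s * a.a₄ + ρ u s * ρ u s * a.a₂ + ρ u s * ρ u s * ρ u s - u ^ 6 * a.a₆))
  have hf : ∀ u, (f u).Monic ∧ (f u).natDegree ≤ 4 := fun u =>
    ⟨Polynomial.monic_X_pow_add (Polynomial.degree_linear_le.trans_lt (by norm_num)),
      by simp only [f]; compute_degree⟩
  have hg : ∀ u s, (g u s).Monic ∧ (g u s).natDegree ≤ 2 := fun u s =>
    ⟨Polynomial.monic_X_pow_add (Polynomial.degree_linear_le.trans_lt (by norm_num)),
      by simp only [g]; compute_degree⟩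
  let S : Finset (VariableChange k[X]) := Finset.univ.biUnion fun u =>
    (f u).roots.toFinset.biUnion fun s => (g u s).roots.toFinset.image fun t => ⟨u, ρ u s, s, t⟩
  have h3 : S.card ≤ Nat.card k[X]ˣ * 8 := by
    rw [Nat.card_eq_fintype_card]
    refine Finset.card_biUnion_le_card_mul _ _ _ fun u _ =>
      (Finset.card_biUnion_le_card_mul _ _ 2 fun s _ => Finset.card_image_le.trans
        ((Multiset.toFinset_card_le _).trans ((Polynomial.card_roots' _).trans (hg u s).2))).trans ?_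
    have := (Multiset.toFinset_card_le _).trans ((Polynomial.card_roots' _).trans (hf u).2)
    omega
  rw [← SetLike.coe_sort_coe, Nat.card_coe_set_eq]
  refine le_trans (Set.ncard_le_ncard_of_injOn Subtype.val ?_ Subtype.val_injective.injOn
    S.finite_toSet) (by rwa [Set.ncard_coe_finset])
  rintro ⟨⟨u, r, s, t⟩, hC⟩ h
  simp only [SetLike.mem_coe, MulAction.mem_stabilizer_iff, Subgroup.mk_smul, stab_iff, h1] at h
  obtain ⟨-, e₂, -, e₄, e₆⟩ := h
  obtain rfl : r = ρ u s := by simp only [ρ]; linear_combination e₂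
  simp only [S, Finset.coe_biUnion, Finset.coe_image, Set.mem_iUnion, Set.mem_image,
    Finset.mem_coe, Multiset.mem_toFinset, Polynomial.mem_roots (hf _).1.ne_zero,
    Polynomial.mem_roots (hg _ _).1.ne_zero]
  refine ⟨u, Finset.mem_univ _, s, ?_, t, ?_, rfl⟩
  · simp only [f, ρ, Polynomial.IsRoot, Polynomial.eval_add, Polynomial.eval_pow, Polynomial.eval_X,
      Polynomial.eval_mul, Polynomial.eval_C] at e₄ ⊢
    linear_combination e₄ + (s * s * (u ^ 2 * a.a₂ - a.a₂)) * h2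
  · simp only [g, Polynomial.IsRoot, Polynomial.eval_add, Polynomial.eval_pow, Polynomial.eval_X,
      Polynomial.eval_mul, Polynomial.eval_C]
    linear_combination e₆

end Pool.Agent.Lib.MP_a3f657_nt.Two
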