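import Pool.Agent.Lib.MP_a3f657_nt.C2HtDefs

/-!
Weierstrass equations in characteristic two and valuations.
-/

namespace Pool.Agent.Lib.MP_a3f657_nt.Two

open WeierstrassCurve

section ring

variable {R : Type} [CommRing R]

/-- Translation of coordinates. -/
def trn (r s t : R) (W : WeierstrassCurve R) : WeierstrassCurve R :=
  (⟨1, r, s, t⟩ : VariableChange R) • W

/-- Scaling of coefficients. -/
def sc (u : R) (W : WeierstrassCurve R) : WeierstrassCurve R :=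
  ⟨u * W.a₁, u ^ 2 * W.a₂, u ^ 3 * W.a₃, u ^ 4 * W.a₄, u ^ 6 * W.a₆⟩

lemma tr_tr (a b c r s t : R) (W : WeierstrassCurve R) :
    trn a b c (trn r s t W) = trn (a + r) (b + s) (c + a * s + t) W := by
  simp [trn, ← mul_smul, VariableChange.mul_def]

lemma smul_eq_iff (C : VariableChange R) (W W' : WeierstrassCurve R) :
    C • W = W' ↔ trn C.r C.s C.t W = sc (C.u : R) W' := by
  have h1 : ∀ V : WeierstrassCurve R, sc (C.u : R) V = (⟨C.u⁻¹, 0, 0, 0⟩ : VariableChange R) • V := by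
    intro V
    simp [sc, variableChange_def]
  have h2 : (⟨1, C.r, C.s, C.t⟩ : VariableChange R) = ⟨C.u⁻¹, 0, 0, 0⟩ * C := by
    simp [VariableChange.mul_def]
  rw [h1, trn, h2, mul_smul, smul_left_cancel_iff]

lemma tr_Δ (r s t : R) (W : WeierstrassCurve R) : (trn r s t W).Δ = W.Δ := by
  simp [trn, variableChange_Δ]

lemma sc_Δ (u : R) (W : WeierstrassCurve R) : (sc u W).Δ = u ^ 12 * W.Δ := by
  simp only [sc, Δ, b₂, b₄, b₆, b₈]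
  ring

lemma tr_map {A : Type} [CommRing A] (φ : R →+* A) (r s t : R) (W : WeierstrassCurve R) :
    (trn r s t W).map φ = trn (φ r) (φ s) (φ t) (W.map φ) := by
  rw [trn, ← map_variableChange, trn]
  simp [VariableChange.map]

lemma sc_map {A : Type} [CommRing A] (φ : R →+* A) (u : R) (W : WeierstrassCurve R) :
    (sc u W).map φ = sc (φ u) (W.map φ) := by
  simp [sc, map]

variable [CharP R 2] (r s t : R) (W : WeierstrassCurve R)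

lemma tr_a₁ : (trn r s t W).a₁ = W.a₁ := by
  simp [trn, variableChange_a₁, CharTwo.two_eq_zero]

lemma tr_a₂ : (trn r s t W).a₂ = W.a₂ + s * W.a₁ + r + s * s := by
  simp only [trn, variableChange_a₂, inv_one, Units.val_one]
  linear_combination (r - s * W.a₁ - s * s) * CharTwo.two_eq_zero (R := R)

lemma tr_a₃ : (trn r s t W).a₃ = W.a₃ + r * W.a₁ := by
  simp [trn, variableChange_a₃, CharTwo.two_eq_zero]

lemma tr_a₄ : (trn r s t W).a₄ = W.a₄ + s * W.a₃ + (t + r * s) * W.a₁ + r * r := by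
  simp only [trn, variableChange_a₄, inv_one, Units.val_one]
  linear_combination (r * W.a₂ - s * W.a₃ - (t + r * s) * W.a₁ + r * r - s * t) *
    CharTwo.two_eq_zero (R := R)

lemma tr_a₆ : (trn r s t W).a₆ =
    W.a₆ + r * W.a₄ + r * r * W.a₂ + r * r * r + t * W.a₃ + t * t + r * t * W.a₁ := by
  simp only [trn, variableChange_a₆, inv_one, Units.val_one]
  linear_combination (-t * W.a₃ - t * t - r * t * W.a₁) * CharTwo.two_eq_zero (R := R)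

end ring

variable {F Γ : Type} [Field F] [LinearOrderedCommGroupWithZero Γ] {ν : Valuation F Γ} {γ γ' : Γ}

/-- The valuation of `x` is at most `γ ^ n`. -/
def B (ν : Valuation F Γ) (γ : Γ) (n : ℕ) (x : F) : Prop := ν x ≤ γ ^ n

lemma B.add {n : ℕ} {x y : F} (hx : B ν γ n x) (hy : B ν γ n y) : B ν γ n (x + y) :=
  ν.map_add_le hx hy

lemma B.sub {n : ℕ} {x y : F} (hx : B ν γ n x) (hy : B ν γ n y) : B ν γ n (x - y) :=
  ν.map_sub_le hx hy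

lemma B.mul {m n : ℕ} {x y : F} (hx : B ν γ m x) (hy : B ν γ n y) : B ν γ (m + n) (x * y) := by
  rw [B, map_mul, pow_add]
  exact mul_le_mul' hx hy

lemma B.mono {n : ℕ} {x : F} (hx : B ν γ n x) (h : γ ≤ γ') : B ν γ' n x :=
  le_trans hx (pow_le_pow_left' h n)

lemma B.sc {n : ℕ} {x : F} (hx : B ν γ n x) (u : F) : B ν (ν u * γ) n (u ^ n * x) := by
  rw [B, map_mul, map_pow, mul_pow]
  exact mul_le_mul' le_rfl hx

lemma root_le {x c₀ c₁ c₂ c₃ : F} {δ : Γ} (h : x ^ 4 = c₀ + c₁ * x + c₂ * x ^ 2 + c₃ * x ^ 3)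
    (h₀ : ν c₀ ≤ δ ^ 4) (h₁ : ν c₁ ≤ δ ^ 3) (h₂ : ν c₂ ≤ δ ^ 2) (h₃ : ν c₃ ≤ δ) : ν x ≤ δ := by
  by_contra hx
  have hx := not_le.1 hx
  have h4 : ν x ^ 4 ≤ δ * ν x ^ 3 := by
    rw [← map_pow, h]
    refine ν.map_add_le (ν.map_add_le (ν.map_add_le (h₀.trans ?_) ?_) ?_) ?_
    · rw [pow_succ']
      exact mul_le_mul' le_rfl (pow_le_pow_left' hx.le 3)
    · rw [map_mul, pow_succ (ν x), ← mul_assoc]
      refine mul_le_mul' (h₁.trans ?_) le_rfl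
      rw [pow_succ']
      exact mul_le_mul' le_rfl (pow_le_pow_left' hx.le 2)
    · rw [map_mul, map_pow, pow_succ' (ν x) 2, ← mul_assoc]
      refine mul_le_mul' (h₂.trans ?_) le_rfl
      rw [pow_two]
      exact mul_le_mul' le_rfl hx.le
    · rw [map_mul, map_pow]
      exact mul_le_mul' h₃ le_rfl
  rw [pow_succ'] at h4
  exact absurd h4 (not_le.2 (mul_lt_mul_of_pos_right hx (pow_pos (zero_le.trans_lt hx) 3)))

lemma quad_le {n : ℕ} {x c₀ c₁ : F} (h : x * x = c₀ + c₁ * x) (h₀ : B ν γ (n + n) c₀)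
    (h₁ : B ν γ n c₁) : B ν γ n x :=
  root_le (c₀ := 0) (c₁ := 0) (c₂ := c₀) (c₃ := c₁) (by linear_combination x ^ 2 * h)
    (by simp) (by simp) (by rw [pow_two, ← pow_add]; exact h₀) h₁

/-- All coefficients are bounded according to their weights. -/
structure Bdd (ν : Valuation F Γ) (γ : Γ) (W : WeierstrassCurve F) : Prop where
  h₁ : B ν γ 1 W.a₁
  h₂ : B ν γ 2 W.a₂
  h₃ : B ν γ 3 W.a₃
  h₄ : B ν γ 4 W.a₄
  h₆ : B ν γ 6 W.a₆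

variable {W : WeierstrassCurve F} {r s t : F}

lemma Bdd.mono (h : Bdd ν γ W) (h' : γ ≤ γ') : Bdd ν γ' W :=
  ⟨h.h₁.mono h', h.h₂.mono h', h.h₃.mono h', h.h₄.mono h', h.h₆.mono h'⟩

lemma Bdd.sc (h : Bdd ν γ W) (u : F) : Bdd ν (ν u * γ) (sc u W) :=
  ⟨by simpa only [pow_one, Two.sc] using h.h₁.sc u, h.h₂.sc u, h.h₃.sc u, h.h₄.sc u, h.h₆.sc u⟩

variable [CharP F 2]

lemma Bdd.tr (h : Bdd ν γ W) (hr : B ν γ 2 r) (hs : B ν γ 1 s) (ht : B ν γ 3 t) :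
    Bdd ν γ (trn r s t W) := by
  refine ⟨?_, ?_, ?_, ?_, ?_⟩
  · rw [tr_a₁]; exact h.h₁
  · rw [tr_a₂]; exact ((h.h₂.add (hs.mul h.h₁)).add hr).add (hs.mul hs)
  · rw [tr_a₃]; exact h.h₃.add (hr.mul h.h₁)
  · rw [tr_a₄]
    exact ((h.h₄.add (hs.mul h.h₃)).add ((ht.add (hr.mul hs)).mul h.h₁)).add (hr.mul hr)
  · rw [tr_a₆]
    exact (((((h.h₆.add (hr.mul h.h₄)).add ((hr.mul hr).mul h.h₂)).add ((hr.mul hr).mul hr)).add
      (ht.mul h.h₃)).add (ht.mul ht)).add ((hr.mul ht).mul h.h₁)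

lemma Bdd.b₈ (h : Bdd ν γ W) : B ν γ 8 W.b₈ := by
  have : W.b₈ = W.a₁ * W.a₁ * W.a₆ + W.a₁ * W.a₃ * W.a₄ + W.a₂ * (W.a₃ * W.a₃) + W.a₄ * W.a₄ := by
    rw [b₈_of_char_two]; ring
  rw [this]
  exact ((((h.h₁.mul h.h₁).mul h.h₆).add ((h.h₁.mul h.h₃).mul h.h₄)).add
    (h.h₂.mul (h.h₃.mul h.h₃))).add (h.h₄.mul h.h₄)

lemma Bdd.Δ (h : Bdd ν γ W) : B ν γ 12 W.Δ := by
  have : W.Δ = W.a₁ * W.a₁ * (W.a₁ * W.a₁) * W.b₈ + W.a₃ * W.a₃ * (W.a₃ * W.a₃) +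
      W.a₁ * W.a₃ * (W.a₁ * W.a₃) * (W.a₁ * W.a₃) := by
    rw [Δ_of_char_two]; ring
  rw [this]
  exact ((((h.h₁.mul h.h₁).mul (h.h₁.mul h.h₁)).mul h.b₈).add
    ((h.h₃.mul h.h₃).mul (h.h₃.mul h.h₃))).add
    (((h.h₁.mul h.h₃).mul (h.h₁.mul h.h₃)).mul (h.h₁.mul h.h₃))

lemma Bdd.integral (h : Bdd ν γ W) (h' : Bdd ν γ (Two.trn r s t W)) :
    B ν γ 2 r ∧ B ν γ 1 s ∧ B ν γ 3 t := by
  have h2 := CharTwo.two_eq_zero (R := F)
  have hr : B ν γ 2 r := by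
    refine root_le (c₀ := (Two.trn r s t W).b₈ - W.b₈) (c₁ := W.a₃ * W.a₃) (c₂ := W.a₁ * W.a₃)
      (c₃ := W.a₁ * W.a₁) ?_ ?_ ?_ ?_ (h.h₁.mul h.h₁)
    · simp only [Two.trn, variableChange_b₈, inv_one, Units.val_one, b₂_of_char_two, b₄_of_char_two,
        b₆_of_char_two]
      linear_combination (-r ^ 4 - 2 * r * W.a₃ ^ 2 - 2 * r ^ 2 * W.a₁ * W.a₃ -
        r ^ 3 * W.a₁ ^ 2) * h2
    · rw [← pow_mul]; exact h'.b₈.sub h.b₈
    · rw [← pow_mul]; exact h.h₃.mul h.h₃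
    · rw [← pow_mul]; exact h.h₁.mul h.h₃
  have hs : B ν γ 1 s := by
    refine quad_le (c₀ := (Two.trn r s t W).a₂ - W.a₂ - r) (c₁ := W.a₁) ?_
      ((h'.h₂.sub h.h₂).sub hr) h.h₁
    rw [tr_a₂]
    linear_combination (-s * W.a₁) * h2
  refine ⟨hr, hs, quad_le (c₀ := (Two.trn r s t W).a₆ - (W.a₆ + r * W.a₄ + r * r * W.a₂ + r * r * r))
    (c₁ := W.a₃ + r * W.a₁) ?_ (h'.h₆.sub (((h.h₆.add (hr.mul h.h₄)).add
      ((hr.mul hr).mul h.h₂)).add ((hr.mul hr).mul hr))) (h.h₃.add (hr.mul h.h₁))⟩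
  rw [tr_a₆]
  linear_combination (-t * W.a₃ - r * t * W.a₁) * h2

lemma Bdd.approx (h : Bdd ν γ W) (hγ : γ' ≤ γ) (h' : Bdd ν γ' (Two.trn r s t W)) {ι : Type}
    (f : ι → F) (P : ℕ → ι → Prop)
    (hP : ∀ n x, B ν γ n x → ∃ y, P n y ∧ B ν γ' n (f y - x)) :
    ∃ r₀ s₀ t₀, P 2 r₀ ∧ P 1 s₀ ∧ P 3 t₀ ∧ Bdd ν γ' (Two.trn (f r₀) (f s₀) (f t₀) W) := by
  obtain ⟨hr, hs, ht⟩ := h.integral (h'.mono hγ)
  obtain ⟨r₀, hr₀, hr₁⟩ := hP 2 r hr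
  obtain ⟨s₀, hs₀, hs₁⟩ := hP 1 s hs
  obtain ⟨t₀, ht₀, ht₁⟩ := hP 3 _ (ht.add ((hr₁.mono hγ).mul hs))
  refine ⟨r₀, s₀, t₀, hr₀, hs₀, ht₀, ?_⟩
  have := h'.tr hr₁ hs₁ ht₁
  rw [tr_tr] at this
  convert this using 2 <;> ring

end Pool.Agent.Lib.MP_a3f657_nt.Two
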