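import Pool.Agent.Lib.MP_a3f657_nt.C2Lt
import Pool.Agent.Lib.MP_a3f657_nt.C2Cpl

/-!
Local duality: the image of the descent map is maximal isotropic.
-/

set_option linter.unusedSectionVars false

namespace Pool.Agent.Lib.MP_a3f657_nt.Two

open WeierstrassCurve WeierstrassCurve.Affine

open scoped Classical

variable {K : Type} [Field K] [CharP K 2]

/-- The inverse of the normalised abscissa. -/
def tP (W : WeierstrassCurve K) (R : W.toAffine.Point) : K := (xP W R)⁻¹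

@[simp] lemma tP_zero (W : WeierstrassCurve K) : tP W 0 = 0 := by simp [tP]

@[simp] lemma tP_neg (W : WeierstrassCurve K) (R : W.toAffine.Point) : tP W (-R) = tP W R := by
  simp [tP]

lemma Nd.s3t {W : WeierstrassCurve K} {P : PB K} (h : Nd W P) (R S : W.toAffine.Point) :
    (tP W R + tP W S + tP W (R + S)) ^ 2 + tP W R * tP W S * tP W (R + S) +
      P.b * (tP W R * tP W S * tP W (R + S)) ^ 2 = 0 := by
  by_cases hR : R = 0
  · simp [hR, two_K]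
  by_cases hS : S = 0
  · simp [hS, two_K]
  by_cases hRS : R + S = 0
  · simp [eq_neg_of_add_eq_zero_left hRS, two_K]
  have h1 := h.s3 hR hS hRS
  have h2 := h.xP_ne hR
  have h3 := h.xP_ne hS
  have h4 := h.xP_ne hRS
  unfold tP
  field_simp
  linear_combination h1

lemma relIndex_le_of_fun {G H : Type} [AddCommGroup G] [AddCommGroup H] {G₀ G₁ : AddSubgroup G}
    {H₀ H₁ : AddSubgroup H} (hG : G₀.relIndex G₁ ≠ 0) (f : H → G) (h1 : ∀ a ∈ H₁, f a ∈ G₁)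
    (h2 : ∀ a ∈ H₁, ∀ b ∈ H₁, f a - f b ∈ G₀ → a - b ∈ H₀) : H₀.relIndex H₁ ≤ G₀.relIndex G₁ := by
  have : Finite (G₁ ⧸ G₀.addSubgroupOf G₁) := AddSubgroup.index_ne_zero_iff_finite.1 hG
  refine Nat.card_le_card_of_injective (β := G₁ ⧸ G₀.addSubgroupOf G₁)
    (fun c : H₁ ⧸ H₀.addSubgroupOf H₁ => QuotientAddGroup.mk ⟨f c.out.1, h1 _ c.out.2⟩)
    fun a b e => ?_
  rw [← a.out_eq, ← b.out_eq]
  have e1 := QuotientAddGroup.eq_iff_sub_mem.1 e
  exact QuotientAddGroup.eq_iff_sub_mem.2 (h2 _ a.out.2 _ b.out.2 e1)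

lemma kap_alg {b0 b1 π g y σ : K} (hb1 : b1 ≠ 0) (hg : g ≠ 0)
    (ey : b1 * σ * g + b1 / g + (b1 * σ * π + b0 / b1) / g * y ^ 2 + π / g * y ^ 3 +
      b1 * σ * π ^ 2 / g * y ^ 4 = y) :
    1 + (g + π * y ^ 2 + b0 * (y / b1)) * (y / b1) =
      σ * ((g + π * y ^ 2 + b0 * (y / b1)) ^ 2 + (b0 ^ 2 + π * b1 ^ 2) * (y / b1) ^ 2) := by
  grind

/-- Bounds for the valuations of `A`, `B` and `dB`. -/
structure Bnd (L : PreLoc K) (P : PB K) (A : K) (β : ℤ) : Prop where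
  nn : 0 ≤ β
  hA : A ∈ Fil L.w (-β)
  hB : P.b ∈ Fil L.w (-β)
  he : ord L.w (L.P.c1 P.b) ≤ β

variable {L : PreLoc K} {P : PB K} {A : K} {β n : ℤ}

lemma exists_bnd (L : PreLoc K) (P : PB K) (A : K) : ∃ β, Bnd L P A β :=
  ⟨(ord L.w A).natAbs + (ord L.w P.b).natAbs + (ord L.w (L.P.c1 P.b)).natAbs, by omega,
    mem_Fil_of_le (by omega), mem_Fil_of_le (by omega), by omega⟩

lemma c1_b_ne (Q P : PB K) : Q.c1 P.b ≠ 0 := fun e => P.ns _ (Q.eq_sq e).symm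

namespace Bnd

variable (h : Bnd L P A β)
include h

lemma b0 : L.P.c0 P.b ∈ Fil L.w (-β) := PreLoc.c0_mem h.hB (by have := h.nn; omega)

lemma le_e : -β ≤ ord L.w (L.P.c1 P.b) :=
  (mem_Fil_iff (c1_b_ne _ _)).1 (PreLoc.c1_mem h.hB (by have := h.nn; omega))

lemma inv_mem {x l : K} (hl : wp l = x + A + P.b / x ^ 2) : x⁻¹ ∈ Fil L.w (-(3 * β + 1)) := by
  by_contra hn
  obtain ⟨h1, h2⟩ := not_mem_Fil.1 hn
  have h3 := h.nn
  have h4 := h.he
  have h5 : ord L.w x = -ord L.w x⁻¹ := by rw [ord_inv]; ring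
  have h6 := mul_ne_zero L.P.b_ne (pow_ne_zero 2 (mul_ne_zero (c1_b_ne L.P P) h1))
  have h7 : ord L.w (L.P.b * (L.P.c1 P.b * x⁻¹) ^ 2) =
      1 + 2 * (ord L.w (L.P.c1 P.b) + ord L.w x⁻¹) := by
    rw [ord_mul L.P.b_ne (pow_ne_zero 2 (mul_ne_zero (c1_b_ne L.P P) h1)), L.hπ, ord_sq,
      ord_mul (c1_b_ne L.P P) h1]
  obtain ⟨h8, h9⟩ := ord_add h6 (y := x + A + L.P.c0 P.b * x⁻¹) (add_mem (add_mem
    (mem_Fil_of_le (by omega)) (Fil.mono h.hA (by omega))) (Fil.mul h.b0 (mem_Fil_ord _) (by omega)))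
  have e : L.P.b * (L.P.c1 P.b * x⁻¹) ^ 2 + (x + A + L.P.c0 P.b * x⁻¹) =
      wp (l + L.P.c0 P.b * x⁻¹) := by
    have e0 := L.P.spec P.b
    rw [wp_add, hl, wp, div_eq_mul_inv, ← inv_pow]
    clear * - e0
    grind
  rw [e] at h8 h9
  by_cases h10 : l + L.P.c0 P.b * x⁻¹ ∈ Fil L.w 0
  · have := (mem_Fil_iff h8).1 (Fil.wp h10 le_rfl le_rfl)
    omega
  · have := (ord_wp (not_mem_Fil.1 h10).2).2
    omega

lemma tP_mem (R : (EW A P.b).toAffine.Point) : tP _ R ∈ Fil L.w (-(3 * β + 1)) := by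
  by_cases hR : R = 0
  · simp [hR]
  obtain ⟨-, l, hl⟩ := (nd_EW P A).onC hR
  rw [nA_EW] at hl
  exact h.inv_mem hl

lemma ord_one_add (u : K) : 1 + P.b * u ^ 2 ≠ 0 ∧ ord L.w (1 + P.b * u ^ 2) ≤ 1 + 4 * β := by
  have h3 := h.nn
  by_cases hu : u ∈ Fil L.w (β + 1)
  · obtain ⟨h1, h2⟩ := Two.ord_one_add (Fil.mul h.hB (Fil.sq hu le_rfl) (by omega))
    exact ⟨h1, by omega⟩
  obtain ⟨h1, h2⟩ := not_mem_Fil.1 hu
  have e : 1 + P.b * u ^ 2 = (1 + L.P.c0 P.b * u) ^ 2 + L.P.b * (L.P.c1 P.b * u) ^ 2 := by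
    have e0 := L.P.spec P.b
    clear * - e0
    grind
  have h6 := pow_ne_zero 2 (mul_ne_zero (c1_b_ne L.P P) h1)
  have h7 : ∀ a, 1 + P.b * u ^ 2 ∈ Fil L.w a → a ≤ 1 + 4 * β := fun a ha => by
    rw [e] at ha
    have := (PreLoc.parts_mem ha).2
    rw [mem_Fil_iff (mul_ne_zero L.P.b_ne h6), ord_mul L.P.b_ne h6, L.hπ, ord_sq,
      ord_mul (c1_b_ne L.P P) h1] at this
    have := h.he
    omega
  exact ⟨fun e0 => by have := h7 (2 + 4 * β) (by simp [e0]); omega, h7 _ (mem_Fil_ord _)⟩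

/-- The points close to the origin. -/
def EE (n : ℤ) (hn : β < n) : AddSubgroup (EW A P.b).toAffine.Point where
  carrier := {R | tP _ R ∈ Fil L.w n}
  zero_mem' := by simp
  neg_mem' hR := by simpa using hR
  add_mem' {R S} hR hS := by
    have h3 := h.nn
    have e := (nd_EW P A).s3t R S
    by_contra hn
    obtain ⟨h1, h2⟩ := not_mem_Fil.1 hn
    obtain ⟨h4, h5⟩ := ord_add h1 (Fil.mono (add_mem hR hS) (b := ord L.w (tP _ (R + S)) + 1)
      (by omega))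
    have h6 := Fil.mul (Fil.mul hR hS le_rfl) (mem_Fil_ord (tP _ (R + S))) le_rfl
    refine (ord_add (w := L.w) (pow_ne_zero 2 h4) (y := _ + P.b * _ ^ 2) (add_mem
      (Fil.mono h6 (by rw [ord_sq]; omega))
      (Fil.mul h.hB (Fil.sq h6 le_rfl) (by rw [ord_sq]; omega)))).1 ?_
    linear_combination e

lemma mem_EE {hn : β < n} {R : (EW A P.b).toAffine.Point} : R ∈ h.EE n hn ↔ tP _ R ∈ Fil L.w n :=
  Iff.rfl

lemma close (hn : β < n) {R S : (EW A P.b).toAffine.Point}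
    (hRS : tP _ R + tP _ S ∈ Fil L.w (n + 2 * β)) : R - S ∈ h.EE n hn ∨ R - -S ∈ h.EE n hn := by
  have h3 := h.nn
  have e1 := (nd_EW P A).s3t R (-S)
  have e2 := (nd_EW P A).s3t R S
  rw [tP_neg, ← sub_eq_add_neg] at e1
  rw [sub_neg_eq_add, mem_EE, mem_EE]
  by_cases he : tP _ (R - S) = tP _ (R + S)
  · have h4 : R = 0 ∨ S = 0 := by
      rcases (nd_EW P A).eq_of_xP (inv_injective he) with e | e
      · exact Or.inr ((nd_EW P A).two_tors (by rw [← sub_eq_zero] at e; rw [← neg_eq_zero, ← e]; abel))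
      · exact Or.inl ((nd_EW P A).two_tors (by rw [← sub_eq_zero] at e; rw [← e]; abel))
    rcases h4 with rfl | rfl
    · exact Or.inr (Fil.mono (by simpa using hRS) (by omega))
    · exact Or.inr (Fil.mono (by simpa using hRS) (by omega))
  by_contra hc
  rw [not_or, not_mem_Fil, not_mem_Fil] at hc
  obtain ⟨h4, h5⟩ := h.ord_one_add (tP _ R * tP _ S)
  have e3 : tP _ (R - S) * tP _ (R + S) * (1 + P.b * (tP _ R * tP _ S) ^ 2) =
      (tP _ R + tP _ S) ^ 2 := by grind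
  have h6 := Fil.sq hRS le_rfl
  rw [← e3, mem_Fil_iff (mul_ne_zero (mul_ne_zero hc.1.1 hc.2.1) h4),
    ord_mul (mul_ne_zero hc.1.1 hc.2.1) h4, ord_mul hc.1.1 hc.2.1] at h6
  omega

lemma index_EE (hn : β < n) : (h.EE n hn).index ≠ 0 := by
  rw [← AddSubgroup.relIndex_top_right]
  let G := Fil L.w (-(3 * β + 1)) ⧸ (Fil L.w (n + 2 * β)).addSubgroupOf (Fil L.w (-(3 * β + 1)))
  have : Finite G := AddSubgroup.index_ne_zero_iff_finite.1 (L.relIndex_Fil_ne _ _)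
  let g : (EW A P.b).toAffine.Point → G := fun R => QuotientAddGroup.mk ⟨_, h.tP_mem R⟩
  let s := Set.range (Function.invFun g)
  have hs : s.Finite := Set.finite_range _
  refine relIndex_ne_of_rep (hs.union hs.neg) fun R _ => ?_
  have e : g R = g (Function.invFun g (g R)) := (Function.invFun_eq ⟨R, rfl⟩).symm
  have e0 := QuotientAddGroup.eq_iff_sub_mem.1 e
  have e1 : tP _ R - tP _ (Function.invFun g (g R)) ∈ Fil L.w (n + 2 * β) := e0
  rw [CharTwo.sub_eq_add] at e1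
  rcases h.close hn e1 with e2 | e2
  · exact ⟨_, Or.inl ⟨_, rfl⟩, e2⟩
  · exact ⟨_, Or.inr (by simp [s]), e2⟩

lemma two_mem (hn : β < n) {R : (EW A P.b).toAffine.Point} (hR : tP _ R ∈ Fil L.w n) :
    tP _ (R + R) ∈ Fil L.w (2 * n) := by
  have h3 := h.nn
  have e := (nd_EW P A).s3t R R
  by_cases h0 : tP _ (R + R) = 0
  · simp [h0]
  obtain ⟨h1, h2⟩ := Two.ord_one_add (Fil.mul h.hB (Fil.pow hR 4 le_rfl) (c := 1)
    (by push_cast; omega))
  refine Fil.of_mul (a := 2 * n) ?_ h1 (by omega)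
  rw [show tP _ (R + R) * (1 + P.b * tP _ R ^ 4) = tP _ R ^ 2 by grind]
  exact Fil.sq hR le_rfl

lemma exists_pt (hc : Cpl L.w) (hn : β < n) {T : K} (hT : T ∈ Fil L.w n) :
    ∃ R : (EW A P.b).toAffine.Point, tP _ R * (1 + (T + A * T ^ 2)) = T ^ 2 ∧
      (T ≠ 0 → xP _ R = wp T⁻¹ + A) := by
  have h3 := h.nn
  by_cases h0 : T = 0
  · exact ⟨0, by simp [h0], fun e => absurd h0 e⟩
  obtain ⟨h1, h2⟩ := Two.ord_one_add (add_mem (Fil.mono hT (b := 1) (by omega))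
    (Fil.mul h.hA (Fil.sq hT le_rfl) (by omega)))
  have e : wp T⁻¹ + A = (1 + (T + A * T ^ 2)) / T ^ 2 := by unfold wp; field_simp; ring
  have h4 : wp T⁻¹ + A ≠ 0 := e ▸ div_ne_zero h1 (pow_ne_zero 2 h0)
  obtain ⟨z, -, hz⟩ := hc.exists_wp (x := P.b / (wp T⁻¹ + A) ^ 2) (a := 1) (Fil.div h.hB (by
    have := (mem_Fil_iff h0).1 hT
    rw [ord_sq, e, ord_div h1 (pow_ne_zero 2 h0), ord_sq]; omega)) le_rfl
  obtain ⟨R, -, hR⟩ := (nd_EW P A).exists_pt (x := wp T⁻¹ + A)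
    ⟨h4, T⁻¹ + z, by rw [wp_add, hz, nA_EW]; grind⟩
  exact ⟨R, by rw [tP, hR, e, inv_div, div_mul_cancel₀ _ h1], fun _ => hR⟩

lemma le_relIndex_EE (hc : Cpl L.w) (hn : β < n) (h2 : β < 2 * n) (h4 : β < 4 * n) :
    L.Q ^ n.toNat ≤ (h.EE (4 * n) h4).relIndex (h.EE (2 * n) h2) := by
  have h3 := h.nn
  have e := L.relIndex_Fil' (a := n) (b := 2 * n) (by omega)
  rw [show 2 * n - n = n by ring] at e
  choose! f hf _ using fun T => h.exists_pt hc hn (T := T)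
  have hu : ∀ T ∈ Fil L.w n, 1 + (T + A * T ^ 2) ≠ 0 ∧ ord L.w (1 + (T + A * T ^ 2)) = 0 :=
    fun T hT => Two.ord_one_add (add_mem (Fil.mono hT (b := 1) (by omega))
      (Fil.mul h.hA (Fil.sq hT le_rfl) (by omega)))
  have hm : ∀ T ∈ Fil L.w n, tP _ (f T) ∈ Fil L.w (2 * n) := fun T hT =>
    Fil.of_mul (hf T hT ▸ Fil.sq hT le_rfl) (hu T hT).1 (by rw [(hu T hT).2]; omega)
  rw [← e]
  refine relIndex_le_of_fun (fun e0 => h.index_EE h4
    (AddSubgroup.index_eq_zero_of_relIndex_eq_zero e0)) f hm fun T hT U hU hTU => ?_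
  have e1 := (nd_EW P A).s3t (f T) (-f U)
  rw [tP_neg, ← sub_eq_add_neg] at e1
  have h5 := Fil.mul (Fil.mul (hm T hT) (hm U hU) le_rfl) hTU le_rfl
  have h6 : tP _ (f T) + tP _ (f U) ∈ Fil L.w (4 * n) := by
    refine Fil.of_sq (a := 8 * n) ?_ (by omega)
    rw [show (tP _ (f T) + tP _ (f U)) ^ 2 = tP _ (f T - f U) ^ 2 +
      tP _ (f T) * tP _ (f U) * tP _ (f T - f U) +
      P.b * (tP _ (f T) * tP _ (f U) * tP _ (f T - f U)) ^ 2 by grind]
    exact add_mem (add_mem (Fil.sq hTU (by omega)) (Fil.mono h5 (by omega)))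
      (Fil.mul h.hB (Fil.sq h5 le_rfl) (by omega))
  have h7 := Fil.mul (Fil.mul h6 (mem_Fil_ord _) le_rfl) (mem_Fil_ord _) le_rfl
    (y := 1 + (U + A * U ^ 2)) (x := _ * (1 + (T + A * T ^ 2)))
  rw [(hu T hT).2, (hu U hU).2, show (tP _ (f T) + tP _ (f U)) * (1 + (T + A * T ^ 2)) *
    (1 + (U + A * U ^ 2)) = (T + U) * (T + U + T * U) by
      have := hf T hT; have := hf U hU; grind] at h7
  rw [CharTwo.sub_eq_add]
  by_contra hn'
  obtain ⟨h8, h9⟩ := not_mem_Fil.1 hn'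
  obtain ⟨h10, h11⟩ := ord_add h8 (Fil.mul hT hU (c := ord L.w (T + U) + 1) (by omega))
  rw [mem_Fil_iff (mul_ne_zero h8 h10), ord_mul h8 h10] at h7
  omega

lemma exists_kap (hc : Cpl L.w) (hn : 2 * β < n) {σ : K}
    (hσ : σ ∈ Fil L.w (n - ord L.w (L.P.c1 P.b))) :
    ∃ R : (EW A P.b).toAffine.Point, tP _ R ∈ Fil L.w (4 * n) ∧ (nd_EW P A).kap R = σ := by
  have h3 := h.nn
  have h4 := h.he
  have h5 := h.le_e
  have hb0 := h.b0
  have hb1 := c1_b_ne L.P P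
  have hπ := L.π_mem
  have hA0 : L.P.c0 A ∈ Fil L.w (-β) := PreLoc.c0_mem h.hA (by omega)
  have hA1 : L.P.c1 A ∈ Fil L.w (-β) := PreLoc.c1_mem h.hA (by omega)
  have eA := L.P.spec A
  have eB := L.P.spec P.b
  set b0 := L.P.c0 P.b
  set b1 := L.P.c1 P.b with hb1d
  set A0 := L.P.c0 A
  set A1 := L.P.c1 A
  set π := L.P.b with hπd
  have hz0 : π ^ (-n) ≠ 0 := zpow_ne_zero _ L.P.b_ne
  have hz : ord L.w (π ^ (-n)) = -n := L.ord_πz _
  generalize π ^ (-n) = z at hz0 hz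
  have hz2 := ord_sq (w := L.w) z
  obtain ⟨hg0, hg⟩ := ord_add (pow_ne_zero 2 hz0) (y := z + A0 + π * A1 ^ 2) (add_mem (add_mem
    (mem_Fil_of_le (by omega)) (Fil.mono hA0 (by omega))) (Fil.mul hπ (Fil.sq hA1 le_rfl) (by omega)))
  set g := z ^ 2 + (z + A0 + π * A1 ^ 2) with hgd
  have hgm := mem_Fil_ord (w := L.w) g
  have hbm := mem_Fil_ord (w := L.w) b1
  obtain ⟨y, hy, ey⟩ := hc.fix4 (a := -n) (c₀ := b1 * σ * g + b1 / g)
    (c₂ := (b1 * σ * π + b0 / b1) / g) (c₃ := π / g) (c₄ := b1 * σ * π ^ 2 / g)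
    (add_mem (Fil.mul (Fil.mul hbm hσ le_rfl) hgm (by omega)) (Fil.div hbm (by omega)))
    (Fil.div (a := -(2 * β)) (add_mem (Fil.mul (Fil.mul hbm hσ le_rfl) hπ (by omega))
      (Fil.div hb0 (by omega))) (by omega))
    (Fil.div hπ (by omega))
    (Fil.div (Fil.mul (Fil.mul hbm hσ le_rfl) (Fil.sq hπ le_rfl) le_rfl) (by omega))
  obtain ⟨hμ0, hμ⟩ := ord_add (pow_ne_zero 2 hz0) (y := π * (y + A1) ^ 2)
    (Fil.mul hπ (Fil.sq (add_mem hy (Fil.mono hA1 (by omega))) le_rfl) (by omega))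
  have hT : (z ^ 2 + π * (y + A1) ^ 2)⁻¹ ∈ Fil L.w (2 * n) :=
    mem_Fil_of_le (by rw [ord_inv]; omega)
  obtain ⟨R, h6, h7⟩ := h.exists_pt hc (by omega) hT
  obtain ⟨h8, h9⟩ := Two.ord_one_add (add_mem (Fil.mono hT (b := 1) (by omega))
    (Fil.mul h.hA (Fil.sq hT le_rfl) (by omega)))
  refine ⟨R, Fil.of_mul (h6 ▸ Fil.sq hT le_rfl) h8 (by omega), ?_⟩
  have ex := h7 (inv_ne_zero hμ0)
  rw [inv_inv] at ex
  have hR : R ≠ 0 := by
    rintro rfl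
    rw [tP_zero, zero_mul] at h6
    exact pow_ne_zero 2 (inv_ne_zero hμ0) h6.symm
  have hx := (nd_EW P A).xP_ne hR
  have ex2 : xP _ R = (g + π * y ^ 2 + b0 * (y / b1)) ^ 2 + P.b * (y / b1) ^ 2 := by
    rw [ex, wp, hgd]
    clear_value b0 b1 A0 A1 π
    clear * - eA eB hb1
    grind
  rw [Nd.kap_apply, PB.kap, (P.uniq ex2).1, (P.uniq ex2).2, div_eq_iff hx, ex2, eB]
  exact kap_alg hb1 hg0 ey

end Bnd

theorem local_duality (hc : Cpl L.w) (P : PB K) (A : K) :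
    (∃ j, Fil L.w j ≤ LL P A) ∧ (BB P A).relIndex (Log P) ≠ 0 ∧
      (BB P A).relIndex (Log P) ≤ L.PW.relIndex (AA P A) := by
  obtain ⟨β, h⟩ := exists_bnd L P A
  have h3 := h.nn
  have h4 := h.he
  have h5 := h.le_e
  have hb1 := c1_b_ne L.P P
  have hb := P.b_ne
  obtain ⟨n, hn⟩ : ∃ n : ℤ, n = 2 * β + 1 := ⟨_, rfl⟩
  set e := ord L.w (L.P.c1 P.b) with he
  let E := h.EE (4 * n) (by omega)
  let κ := (nd_EW P A).kap
  have a1 : Fil L.w (n - e) ≤ E.map κ := fun σ hσ => h.exists_kap hc (by omega) hσ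
  have a2 : E.map κ ≤ LL P A := AddSubgroup.map_le_range _ _
  have a3 : Fil L.w (n - e) ≤ NN P := fun s hs => by
    obtain ⟨z, -, hz⟩ := hc.exists_wp (Fil.mul h.hB (Fil.sq hs le_rfl) (c := 1) (by omega)) le_rfl
    exact ⟨z, hz⟩
  let φ : K →+ K →+ ZMod 2 := (L.pair P).comp (AddMonoidHom.mulLeft P.b)
  have hφ : ∀ s t, φ s t = L.r (s * (t * L.P.c1 P.b ^ 2)) := fun s t => by
    change L.r (P.b * s * t * (L.P.D P.b / P.b)) = _
    congr 1
    unfold PB.D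
    field_simp
  have hN : ∀ s ∈ NN P, ∀ t ∈ NN P, φ s t = 0 := fun s hs t ht => by
    have := rho_NN (L.rho_c0 P) hs ht
    rwa [← mul_assoc] at this
  have hnd : ∀ s j, (∀ t ∈ Fil L.w j, φ s t = 0) → s ∈ Fil L.w (-(j + 2 * e)) := fun s j hs =>
    L.mem_of_r fun y hy => by
      have := hs (y / L.P.c1 P.b ^ 2) (Fil.div hy (by rw [ord_sq]; omega))
      rwa [hφ, div_mul_cancel₀ _ (pow_ne_zero 2 hb1)] at this
  have a4 : NN P ≤ Fil L.w (-(n + e)) := fun s hs =>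
    Fil.mono (hnd s _ fun t ht => hN s hs t (a3 ht)) (by omega)
  have a5 := AddSubgroup.relIndex_mul_relIndex _ _ _ a3 a4
  rw [L.relIndex_Fil' (by omega), show (n - e - -(n + e)).toNat = n.toNat * 2 by omega,
    pow_mul] at a5
  have a6 := mul_ne_zero_iff.1 (a5 ▸ pow_ne_zero 2 (pow_ne_zero _ L.Q_ne))
  obtain ⟨-, a7, a8⟩ := dual_le two_K φ (G₀ := Fil L.w (n - e)) a6.2
    (fun s hs t ht _ => hN s hs t ht) fun s _ hs => Fil.mono (hnd s _ hs) (by omega)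
  have a9 : (Fil L.w (n - e)).relIndex (NN P) ≤ L.Q ^ n.toNat := by
    rw [← Nat.pow_le_pow_iff_left two_ne_zero, ← a5, sq]
    exact Nat.mul_le_mul_left _ (a7.trans a8)
  have b1 := AddSubgroup.relIndex_mul_relIndex _ _ _ (le_inf (a1.trans a2) a3) inf_le_right
  have b2 := AddSubgroup.relIndex_mul_relIndex _ _ _ (le_inf (a1.trans a2) a3) inf_le_left
  rw [AddSubgroup.inf_relIndex_right, ← relIndex_BB] at b1
  rw [AddSubgroup.inf_relIndex_left, ← relIndex_AA, ← L.PW_eq hc] at b2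
  have b3 := mul_ne_zero_iff.1 (b1 ▸ a6.1)
  have b4 := (dual_le two_K (L.pair P) (G₀ := L.PW) b3.2
    (fun α hα u hu _ => rho_orth (ρ := L.rho P) (L.rho_c0 P) hα hu) fun α _ hα => L.PW_of_rho P hα).1
  have b5 : L.Q ^ n.toNat ≤ (E.map κ).relIndex (LL P A) := by
    let two : (EW A P.b).toAffine.Point →+ _ := nsmulAddMonoidHom 2
    have c1 : κ.ker = two.range := by
      ext R; exact (nd_EW P A).kap_eq_zero
    have c2 : E ≤ E.comap two := fun R hR => nsmul_mem hR 2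
    have c3 := AddSubgroup.relIndex_mul_index (le_sup_left : E ≤ E ⊔ two.range)
    have c4 := AddSubgroup.relIndex_mul_index c2
    have c5 := h.index_EE (n := 4 * n) (by omega)
    rw [AddSubgroup.relIndex_sup_left, ← AddSubgroup.index_comap, ← c4, mul_comm] at c3
    have c6 := mul_ne_zero_iff.1 (c4 ▸ c5)
    rw [LL, AddMonoidHom.range_eq_map, AddSubgroup.relIndex_map_map, top_sup_eq,
      AddSubgroup.relIndex_top_right, c1, mul_right_cancel₀ c6.2 c3]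
    refine (h.le_relIndex_EE hc (by omega) (by omega) (by omega)).trans
      (AddSubgroup.relIndex_le_of_le_right (fun R hR => ?_) c6.1)
    have := h.two_mem (by omega) hR
    rwa [← two_nsmul, ← mul_assoc] at this
  refine ⟨⟨_, a1.trans a2⟩, b3.2, Nat.le_of_mul_le_mul_left ?_ (Nat.pos_of_ne_zero b3.1)⟩
  rw [b1, b2]
  exact a9.trans (b5.trans (AddSubgroup.relIndex_le_of_le_left a1 (b2 ▸ mul_ne_zero b3.1 b4)))

end Pool.Agent.Lib.MP_a3f657_nt.Two
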