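import Pool.Agent.Lib.MP_a3f657_nt.C2Ld

/-!
Explicit local images and local constancy.
-/

set_option linter.unusedSectionVars false

namespace Pool.Agent.Lib.MP_a3f657_nt.Two

open WeierstrassCurve WeierstrassCurve.Affine

open scoped Classical

variable {K : Type} [Field K] [CharP K 2]

/-- The logarithmic derivative. -/
noncomputable def PB.dlg (Q : PB K) (x : K) : K := Q.D x / x

lemma PB.dlg_mul (Q : PB K) {x y : K} (hx : x ≠ 0) (hy : y ≠ 0) :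
    Q.dlg (x * y) = Q.dlg x + Q.dlg y := by
  simp only [PB.dlg, PB.D_mul]; field_simp; ring

lemma PB.dlg_sq_mul (Q : PB K) {x : K} (hx : x ≠ 0) (y : K) : Q.dlg (x ^ 2 * y) = Q.dlg y := by
  simp only [PB.dlg, PB.D_sq_mul]
  exact mul_div_mul_left _ _ (pow_ne_zero 2 hx)

variable {L : PreLoc K} {P : PB K} {A α u : K}

lemma dl_mul_dlg (Q : PB K) (x : K) : P.dl x * Q.dlg P.b = Q.dlg x := by
  have hb := P.b_ne
  rw [PB.dl_eq, PB.dlg, PB.dlg, Q.D_chain P x]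
  by_cases hx : x = 0
  · simp [hx]
  · field_simp

lemma Lt_good (hA : A ∈ Fil L.w 0) (hB : ord L.w P.b = 0) (h : (α, u) ∈ Lt P A) :
    ∃ c, α + wp c ∈ Fil L.w 0 ∧ (u + c) * L.P.dlg P.b ∈ Fil L.w 0 := by
  have hb := P.b_ne
  rcases mem_Lt.1 h with rfl | ⟨x, l, l', hx, hl, hl', rfl⟩
  · exact ⟨u, by simp [two_K], by simp [two_K]⟩
  have hBx : ord L.w (P.b / x ^ 2) = -2 * ord L.w x := by
    rw [ord_div hb (pow_ne_zero 2 hx), ord_sq]; omega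
  by_cases h0 : ord L.w x ≤ 0
  · refine ⟨l', by rw [hl', ← add_assoc, two_K, zero_add]; exact mem_Fil_of_le (by omega), ?_⟩
    rw [show l' + P.dl x + l' = P.dl x by grind, dl_mul_dlg]
    refine PreLoc.dlog_mem_even ?_
    rcases eq_or_lt_of_le h0 with h1 | h1
    · omega
    obtain ⟨h2, h3⟩ := ord_add hx (y := A + P.b / x ^ 2)
      (add_mem (Fil.mono hA (by omega)) (mem_Fil_of_le (by omega)))
    rw [← add_assoc, ← hl] at h2 h3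
    by_cases h4 : l ∈ Fil L.w 0
    · have := (mem_Fil_iff h2).1 (Fil.wp h4 le_rfl le_rfl)
      omega
    · have := (ord_wp (not_mem_Fil.1 h4).2).2
      omega
  have hxm : x ∈ Fil L.w 1 := mem_Fil_of_le (by omega)
  obtain ⟨h2, h3⟩ := ord_add (div_ne_zero hb (pow_ne_zero 2 hx)) (y := x + A)
    (add_mem (Fil.mono hxm (by omega)) (Fil.mono hA (by omega)))
  rw [add_comm, ← hl] at h2 h3
  have h4 : l ∉ Fil L.w 0 := fun h4 => by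
    have := (mem_Fil_iff h2).1 (Fil.wp h4 le_rfl le_rfl)
    omega
  obtain ⟨h5, h6⟩ := not_mem_Fil.1 h4
  have h7 := (ord_wp h6).2
  have hz : (l + x + A) / l ^ 2 ∈ Fil L.w 1 := Fil.div (add_mem (add_mem (mem_Fil_ord l)
    (Fil.mono hxm (by omega))) (Fil.mono hA (by omega))) (by rw [ord_sq]; omega)
  obtain ⟨h8, h9⟩ := ord_one_add hz
  have e1 : P.b = (x * l) ^ 2 * (1 + (l + x + A) / l ^ 2) := by
    unfold wp at hl
    clear * - hl hx h5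
    field_simp at hl ⊢
    grind
  have e2 : L.P.D (1 + (l + x + A) / l ^ 2) = (L.P.D l + L.P.D x + L.P.D A) / l ^ 2 := by
    rw [PB.D_add, div_eq_mul_inv, ← inv_pow, mul_comm, PB.D_sq_mul, PB.D_add, PB.D_add]
    simp [div_eq_mul_inv, mul_comm]
  refine ⟨l' + l, by
    rw [show α + wp (l' + l) = x + A by rw [wp_add, hl, hl']; grind]
    exact add_mem (Fil.mono hxm (by omega)) hA, ?_⟩
  rw [show l' + P.dl x + (l' + l) = P.dl x + l by grind, add_mul, dl_mul_dlg]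
  have e3 : L.P.dlg P.b = (L.P.D l + L.P.D x + L.P.D A) / l ^ 2 / (1 + (l + x + A) / l ^ 2) := by
    rw [e1, L.P.dlg_sq_mul (mul_ne_zero hx h5), PB.dlg, e2]
  generalize (l + x + A) / l ^ 2 = z at hz h8 h9 e3
  have e4 : L.P.dlg x + l * L.P.dlg P.b = L.P.dlg (x * l) + z * L.P.dlg l / (1 + z) +
      (L.P.D x + L.P.D A) / (l * (1 + z)) := by
    rw [e3, L.P.dlg_mul hx h5]
    unfold PB.dlg
    clear * - h5 h8
    grind
  rw [e4]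
  refine add_mem (add_mem (PreLoc.dlog_mem_even (by rw [ord_mul hx h5]; omega))
    (Fil.div (Fil.mul hz (PreLoc.dlog_mem l) le_rfl) (by omega)))
    (Fil.div (add_mem (PreLoc.D_mem hxm le_rfl) (PreLoc.D_mem hA (by omega)))
      (by rw [ord_mul h5 h8]; omega))

lemma AA_mult (hA : A ∈ Fil L.w 0) (hB : ord L.w P.b = 1) : AA P A ≤ L.PW := by
  intro α h
  have hb := P.b_ne
  obtain ⟨u, h⟩ := mem_AA.1 h
  rcases mem_Lt.1 h with rfl | ⟨x, l, l', hx, hl, hl', rfl⟩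
  · exact L.wp_mem_PW _
  have hBx : ord L.w (P.b / x ^ 2) = 1 - 2 * ord L.w x := by
    rw [ord_div hb (pow_ne_zero 2 hx), ord_sq]; omega
  by_cases h0 : ord L.w x ≤ 0
  · exact L.mem_PW.2 ⟨l', by
      rw [hl', ← add_assoc, two_K, zero_add]; exact mem_Fil_of_le (by omega)⟩
  obtain ⟨h2, h3⟩ := ord_add (w := L.w) (div_ne_zero hb (pow_ne_zero 2 hx)) (y := x + A)
    (add_mem (mem_Fil_of_le (by omega)) (Fil.mono hA (by omega)))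
  rw [add_comm, ← hl] at h2 h3
  by_cases h4 : l ∈ Fil L.w 0
  · have := (mem_Fil_iff h2).1 (Fil.wp h4 le_rfl le_rfl)
    omega
  · have := (ord_wp (not_mem_Fil.1 h4).2).2
    omega

lemma Ht_mult (hB : ord L.w P.b = 1) (hα : α ∈ Fil L.w 0) (h : (α, u) ∈ Ht P) :
    u ∈ Fil L.w 0 ∧ α + wp u ∈ Fil L.w 1 := by
  have e := P.eq_b_sq (mem_Ht.1 h)
  generalize P.c1 (α + wp u) = s at e
  have h1 : α + wp u ≠ 0 → ord L.w (α + wp u) % 2 = 1 := fun h1 => by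
    rw [e] at h1 ⊢
    rw [ord_mul P.b_ne (right_ne_zero_of_mul h1), ord_sq]; omega
  have h2 : u ∈ Fil L.w 0 := by
    by_contra h2
    obtain ⟨h3, h4⟩ := ord_wp (not_mem_Fil.1 h2).2
    have h5 := (not_mem_Fil.1 h2).2
    obtain ⟨h6, h7⟩ := ord_add h3 (Fil.mono hα (b := ord L.w (wp u) + 1) (by omega))
    rw [add_comm] at h6 h7
    have := h1 h6
    omega
  refine ⟨h2, ?_⟩
  by_contra h3
  obtain ⟨h4, h5⟩ := ord_eq_of (add_mem hα (Fil.wp h2 le_rfl le_rfl)) h3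
  have := h1 h4
  omega

lemma rho_mult (hB : ord L.w P.b = 1) {x : K} (hx : x ∈ Fil L.w 0) : L.rho P x = L.tau x := by
  rw [PreLoc.rho_apply, L.r_dlog hx P.b_ne, hB, Int.cast_one, one_mul]

/-- Integrality of the coefficients. -/
structure Intg (L : PreLoc K) (W : WeierstrassCurve K) : Prop where
  a₁ : W.a₁ ∈ Fil L.w 0
  a₂ : W.a₂ ∈ Fil L.w 0
  a₃ : W.a₃ ∈ Fil L.w 0
  a₄ : W.a₄ ∈ Fil L.w 0
  a₆ : W.a₆ ∈ Fil L.w 0

variable {W : WeierstrassCurve K}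

lemma dlg_nB (Q : PB K) (h : Nd W P) : Q.dlg P.b = Q.dlg W.Δ := by
  rw [h.hb, nB, show W.Δ / W.a₁ ^ 12 = (W.a₁⁻¹ ^ 6) ^ 2 * W.Δ by have := h.a1; field_simp,
    Q.dlg_sq_mul (pow_ne_zero _ (inv_ne_zero h.a1))]

lemma dlg_X_mem (hi : Intg L W) (h1 : W.a₁ ∈ Fil L.w 1) {X Y : K} (e : W.toAffine.Equation X Y)
    (hX : ord L.w X < 0) : ord L.w X ≤ -2 ∧ L.P.dlg X ∈ Fil L.w 1 := by
  have h0 : X ≠ 0 := by rintro rfl; simp at hX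
  have hXm := mem_Fil_ord (w := L.w) X
  rw [equation_iff] at e
  have hg : W.a₁ * X + W.a₃ ∈ Fil L.w (1 + ord L.w X) :=
    add_mem (Fil.mul h1 hXm le_rfl) (Fil.mono hi.a₃ (by omega))
  have hz : W.a₂ / X + W.a₄ / X ^ 2 + W.a₆ / X ^ 3 ∈ Fil L.w (-ord L.w X) :=
    add_mem (add_mem (Fil.div hi.a₂ (by omega)) (Fil.div hi.a₄ (by rw [ord_sq]; omega)))
      (Fil.div hi.a₆ (by rw [ord_pow]; push_cast; omega))
  obtain ⟨h2, h3⟩ := ord_one_add (Fil.mono hz (by omega))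
  have e1 : Y * (Y + (W.a₁ * X + W.a₃)) =
      X ^ 3 * (1 + (W.a₂ / X + W.a₄ / X ^ 2 + W.a₆ / X ^ 3)) := by
    have e' : Y ^ 2 + W.a₁ * X * Y + W.a₃ * Y = X ^ 3 + W.a₂ * X ^ 2 + W.a₄ * X + W.a₆ := e
    clear * - e' h0
    field_simp
    grind
  have h4 := mul_ne_zero (pow_ne_zero 3 h0) h2
  have h5 : ord L.w (X ^ 3 * (1 + (W.a₂ / X + W.a₄ / X ^ 2 + W.a₆ / X ^ 3))) = 3 * ord L.w X := by
    rw [ord_mul (pow_ne_zero 3 h0) h2, ord_pow, h3]; simp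
  rw [← e1] at h4 h5
  have h6 : Y ∉ Fil L.w (1 + ord L.w X) := fun h6 => by
    have := (mem_Fil_iff h4).1 (Fil.mul h6 (add_mem h6 hg) le_rfl)
    omega
  obtain ⟨h7, h8⟩ := not_mem_Fil.1 h6
  obtain ⟨h9, h10⟩ := ord_add h7 (Fil.mono hg (b := ord L.w Y + 1) (by omega))
  rw [ord_mul h7 h9, h10] at h5
  have hz1 : (W.a₁ * X + W.a₃) / Y ∈ Fil L.w 2 := Fil.div hg (by omega)
  have h11 := (ord_one_add (Fil.mono hz1 (by omega))).1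
  have e2 : (Y / X) ^ 2 * (1 + (W.a₁ * X + W.a₃) / Y) =
      X * (1 + (W.a₂ / X + W.a₄ / X ^ 2 + W.a₆ / X ^ 3)) := by
    generalize W.a₂ / X + W.a₄ / X ^ 2 + W.a₆ / X ^ 3 = z at e1
    clear * - e1 h0 h7
    grind
  have e3 := congrArg L.P.dlg e2
  rw [L.P.dlg_sq_mul (div_ne_zero h7 h0), L.P.dlg_mul h0 h2] at e3
  refine ⟨by omega, ?_⟩
  have h12 := add_mem (PreLoc.dlog_one_add hz1 (by omega) (c := 1) (by omega))
    (PreLoc.dlog_one_add (Fil.mono hz (b := 2) (by omega)) (by omega) (c := 1) (by omega))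
  change L.P.dlg _ + L.P.dlg _ ∈ _ at h12
  rwa [e3, add_assoc, two_K, add_zero] at h12

lemma Lt_ss (h : Nd W P) (hi : Intg L W) (h1 : ord L.w W.a₁ = 1) (h3 : ord L.w W.a₃ = 0)
    (h3' : W.a₃ ≠ 0) : L.P.dlg P.b ∈ Fil L.w 2 ∧ ∀ α u, (α, u) ∈ Lt P (nA W) →
    ∃ c, α + wp c ∈ Fil L.w (-1) ∧ (u + c) * L.P.dlg P.b ∈ Fil L.w 1 := by
  have ha := h.a1
  have h1m : W.a₁ ∈ Fil L.w 1 := mem_Fil_of_le h1.ge
  obtain ⟨b, hbd⟩ : ∃ b, b = W.a₁ ^ 2 * W.a₆ + W.a₁ * W.a₃ * W.a₄ + W.a₂ * W.a₃ ^ 2 + W.a₄ ^ 2 :=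
    ⟨_, rfl⟩
  have hb : b ∈ Fil L.w 0 := hbd ▸ add_mem (add_mem (add_mem
    (Fil.mul (Fil.sq hi.a₁ le_rfl) hi.a₆ le_rfl) (Fil.mul (Fil.mul hi.a₁ hi.a₃ le_rfl) hi.a₄ le_rfl))
    (Fil.mul hi.a₂ (Fil.sq hi.a₃ le_rfl) le_rfl)) (Fil.sq hi.a₄ le_rfl)
  have eΔ := disc_eq W
  rw [← hbd] at eΔ
  have hδ : W.a₁ ^ 3 * (W.a₁ * b + W.a₃ ^ 3) ∈ Fil L.w 3 := Fil.mul (Fil.pow h1m 3 le_rfl)
    (add_mem (Fil.mul hi.a₁ hb le_rfl) (Fil.pow hi.a₃ 3 (by simp))) (by simp)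
  obtain ⟨hΔ0, hΔ⟩ := ord_add (pow_ne_zero 4 h3') (Fil.mono hδ (b := ord L.w (W.a₃ ^ 4) + 1)
    (by rw [ord_pow, h3]; omega))
  rw [show W.a₃ ^ 4 + W.a₁ ^ 3 * (W.a₁ * b + W.a₃ ^ 3) = W.Δ by rw [eΔ]; ring] at hΔ0 hΔ
  rw [ord_pow, h3, mul_zero] at hΔ
  have eD : L.P.D W.Δ = W.a₁ ^ 4 * L.P.D b + (W.a₁ * W.a₃) ^ 2 * L.P.D (W.a₁ * W.a₃) := by
    rw [show W.Δ = (W.a₁ ^ 2) ^ 2 * b + (W.a₃ ^ 2) ^ 2 + (W.a₁ * W.a₃) ^ 2 * (W.a₁ * W.a₃) by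
      rw [eΔ]; ring, PB.D_add, PB.D_add, PB.D_sq_mul, PB.D_sq_mul, PB.D_sq]
    ring
  have hDb := PreLoc.D_mem hb le_rfl
  have hD13 := PreLoc.D_mem (Fil.mul h1m hi.a₃ le_rfl) le_rfl
  have hω : L.P.dlg W.Δ ∈ Fil L.w 2 := by
    rw [PB.dlg, eD]
    exact Fil.div (a := 2) (add_mem (Fil.mul (Fil.pow h1m 4 le_rfl) hDb (by simp))
      (Fil.mul (Fil.sq (Fil.mul h1m hi.a₃ le_rfl) le_rfl) hD13 (by simp))) (by omega)
  rw [dlg_nB _ h]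
  refine ⟨hω, fun α u hα => ?_⟩
  suffices ∃ c, α + wp c ∈ Fil L.w (2 * -1) ∧ (u + c) * L.P.dlg W.Δ ∈ Fil L.w 1 by
    obtain ⟨c, h4, h5⟩ := this
    have h6 := PreLoc.c0_mem h4 (c := -1) (by omega)
    refine ⟨c + L.P.c0 (α + wp c), ?_, ?_⟩
    · rw [wp_add, ← add_assoc, wp, wp, ← add_assoc]
      exact add_mem (PreLoc.add_c0_sq_mem h4) h6
    · rw [← add_assoc, add_mul]
      exact add_mem h5 (Fil.mul h6 hω (by omega))
  rcases mem_Lt.1 hα with rfl | ⟨x, l, l', hx, hl, hl', rfl⟩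
  · exact ⟨u, by simp [two_K], by simp [two_K]⟩
  obtain ⟨R, hR, eR⟩ := h.exists_pt ⟨hx, l, hl⟩
  rcases R with _ | ⟨X, Y, hXY⟩
  · exact absurd rfl hR
  rw [xP_some, nx] at eR
  obtain ⟨g, hgd⟩ : ∃ g, g = W.a₁ * X + W.a₃ := ⟨_, rfl⟩
  rw [← hgd] at eR
  have hg : g ≠ 0 := fun e => hx (by simp [← eR, e])
  have e1 : α + wp (l' + W.a₃ ^ 2 / (W.a₁ ^ 3 * g)) = (W.a₃ ^ 2 * X + b) / (W.a₁ * g) ^ 2 := by
    rw [wp_add, hl', h.hb, nB, eΔ, ← eR, wp]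
    clear * - hgd hg ha
    field_simp
    grind
  have e2 : L.P.dlg x = (W.a₁ ^ 2 * L.P.D X + L.P.D (W.a₁ * W.a₃)) / (W.a₁ * g) := by
    rw [show x = (W.a₁⁻¹ ^ 2) ^ 2 * (W.a₁ * g) by rw [← eR]; field_simp,
      L.P.dlg_sq_mul (pow_ne_zero _ (inv_ne_zero ha)), PB.dlg, ← PB.D_sq_mul, ← PB.D_add]
    congr 2
    rw [hgd]; ring
  have e3 : (l' + P.dl x + (l' + W.a₃ ^ 2 / (W.a₁ ^ 3 * g))) * L.P.dlg W.Δ =
      W.a₁ * L.P.D X / g + W.a₁ * W.a₃ ^ 2 * L.P.D b / (g * W.Δ) +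
        L.P.D (W.a₁ * W.a₃) * (W.a₁ ^ 3 * (W.a₁ * b + W.a₃ ^ 3)) / (W.a₁ * g * W.Δ) := by
    rw [show l' + P.dl x + (l' + W.a₃ ^ 2 / (W.a₁ ^ 3 * g)) = P.dl x + W.a₃ ^ 2 / (W.a₁ ^ 3 * g) by
      grind, add_mul, ← dlg_nB _ h, dl_mul_dlg, dlg_nB _ h, e2, PB.dlg, eD]
    generalize L.P.D (W.a₁ * W.a₃) = d
    clear * - eΔ hg ha hΔ0
    field_simp
    grind
  have key : ord L.w g ≤ 0 ∧ W.a₃ ^ 2 * X + b ∈ Fil L.w (2 * ord L.w g) ∧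
      W.a₁ * L.P.D X / g ∈ Fil L.w 1 := by
    by_cases hX : X ∈ Fil L.w 0
    · have h4 := (ord_add h3' (Fil.mul h1m hX (c := ord L.w W.a₃ + 1) (by omega))).2
      rw [add_comm, ← hgd] at h4
      exact ⟨by omega, add_mem (Fil.mul (Fil.sq hi.a₃ le_rfl) hX (by omega)) (Fil.mono hb (by omega)),
        Fil.div (Fil.mul h1m (PreLoc.D_mem hX le_rfl) le_rfl) (by omega)⟩
    · obtain ⟨h4, h5⟩ := not_mem_Fil.1 hX
      obtain ⟨h6, h7⟩ := dlg_X_mem hi h1m hXY.1 h5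
      have h8 := ord_mul (w := L.w) ha h4
      have h9 := (ord_add (mul_ne_zero ha h4) (Fil.mono hi.a₃ (b := ord L.w (W.a₁ * X) + 1)
        (by omega))).2
      rw [← hgd] at h9
      refine ⟨by omega, add_mem (Fil.mul (Fil.sq hi.a₃ le_rfl) (mem_Fil_ord X) (by omega))
        (Fil.mono hb (by omega)), ?_⟩
      rw [show W.a₁ * L.P.D X / g = W.a₁ * X * L.P.dlg X / g by unfold PB.dlg; field_simp]
      exact Fil.div (Fil.mul (mem_Fil_ord _) h7 le_rfl) (by omega)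
  obtain ⟨k1, k2, k3⟩ := key
  refine ⟨l' + W.a₃ ^ 2 / (W.a₁ ^ 3 * g), ?_, ?_⟩
  · rw [e1]
    exact Fil.div k2 (by rw [ord_sq, ord_mul ha hg]; omega)
  · rw [e3]
    exact add_mem (add_mem k3 (Fil.div (Fil.mul (Fil.mul h1m (Fil.sq hi.a₃ le_rfl) le_rfl) hDb le_rfl)
      (by rw [ord_mul hg hΔ0]; omega))) (Fil.div (Fil.mul hD13 hδ le_rfl)
      (by rw [ord_mul (mul_ne_zero ha hg) hΔ0, ord_mul ha hg]; omega))

variable {β : ℤ}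

lemma Bnd.Lt_bdd (h : Bnd L P A β) (hα : (α, u) ∈ Lt P A) :
    ∃ c, α + wp c ∈ Fil L.w (-(7 * β + 2)) := by
  rcases mem_Lt.1 hα with rfl | ⟨x, l, l', -, hl, hl', rfl⟩
  · exact ⟨u, by simp [two_K]⟩
  refine ⟨l', ?_⟩
  rw [hl', ← add_assoc, two_K, zero_add, div_eq_mul_inv, ← inv_pow]
  exact Fil.mul h.hB (Fil.sq (h.inv_mem hl) le_rfl) (by omega)

lemma Bnd.Lt_near (h : Bnd L P A β) (hc : Cpl L.w) {P' : PB K} {A' : K} {N : ℤ}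
    (hA : A + A' ∈ Fil L.w 1) (hB : 1 + P'.b / P.b ∈ Fil L.w N) (hN : 7 * β + 3 ≤ N)
    (hα : (α, u) ∈ Lt P A) : ∃ u', (α, u') ∈ Lt P' A' ∧ ∀ b : ℤ, 0 ≤ b → 2 * b + 7 * β + 3 ≤ N →
      α ∈ Fil L.w (-b) → u * L.P.dlg P.b + u' * L.P.dlg P'.b ∈ Fil L.w b := by
  have hb := P.b_ne
  have h0 := h.nn
  have hω : L.P.dlg P.b + L.P.dlg P'.b ∈ Fil L.w (N - 1) := by
    have := PreLoc.dlog_one_add hB (by omega) (c := N - 1) (by omega)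
    rw [← add_assoc, two_K, zero_add] at this
    rwa [show P'.b = P.b * (P'.b / P.b) by field_simp, L.P.dlg_mul hb (div_ne_zero P'.b_ne hb),
      ← add_assoc, two_K, zero_add]
  rcases mem_Lt.1 hα with rfl | ⟨x, l, l', hx, hl, hl', rfl⟩
  · refine ⟨u, wp_mem_Lt u, fun b h1 h2 h3 => ?_⟩
    rw [← mul_add]
    exact Fil.mul (Fil.of_wp h3 (c := -b) (by omega) (by omega)) hω (by omega)
  have ht := Fil.mul h.hB (Fil.sq (h.inv_mem hl) le_rfl) le_rfl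
  rw [inv_pow, ← div_eq_mul_inv] at ht
  have hδ := Fil.mul ht hB le_rfl
  obtain ⟨z, -, hz⟩ := hc.exists_wp (add_mem hA (Fil.mono hδ (by omega))) le_rfl
  obtain ⟨z', hz1, hz'⟩ := hc.exists_wp hδ (by omega)
  refine ⟨l' + z' + P'.dl x, mem_Lt.2 (Or.inr ⟨x, l + z, l' + z', hx, ?_, ?_, rfl⟩),
    fun b h1 h2 h3 => ?_⟩
  · rw [wp_add, hl, hz]
    clear * - hb hx
    grind
  · rw [wp_add, hl', hz']
    clear * - hb hx
    grind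
  · rw [add_mul, add_mul (l' + z'), dl_mul_dlg, dl_mul_dlg, show l' * L.P.dlg P.b + L.P.dlg x +
      ((l' + z') * L.P.dlg P'.b + L.P.dlg x) = l' * (L.P.dlg P.b + L.P.dlg P'.b) +
        z' * L.P.dlg P'.b by grind]
    have h4 : l' ∈ Fil L.w (-(b + 7 * β + 2)) := Fil.of_wp (a := -(b + 7 * β + 2))
      (hl' ▸ add_mem (Fil.mono h3 (by omega)) (Fil.mono ht (by omega))) (by omega) (by omega)
    exact add_mem (Fil.mul h4 hω (by omega)) (Fil.mul hz1 (PreLoc.dlog_mem _) (by omega))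

end Pool.Agent.Lib.MP_a3f657_nt.Two
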