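import Mathlib

/-!
Abstract lemmas: orbits, counting, stabilisation of lattice counts, vanishing of divisor sums.
-/

namespace Pool.Agent.Lib.MP_a3f657_nt.Two.Lk

open Function

open scoped Classical

section Orbit

variable {α : Type} {f : α → α} (hf : ∀ x, x ∈ periodicPts f)

/-- Being in the same orbit. -/
def orbS : Setoid α where
  r x y := ∃ i, f^[i] x = y
  iseqv :=
    { refl := fun _ => ⟨0, rfl⟩
      symm := by
        rintro x _ ⟨i, rfl⟩
        refine ⟨minimalPeriod f x * i - i, ?_⟩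
        rw [← iterate_add_apply, Nat.sub_add_cancel
          (Nat.le_mul_of_pos_left _ (minimalPeriod_pos_of_mem_periodicPts (hf x)))]
        exact (isPeriodicPt_minimalPeriod f x).mul_const i
      trans := by
        rintro x _ _ ⟨i, rfl⟩ ⟨j, rfl⟩
        exact ⟨j + i, iterate_add_apply f j i x⟩ }

/-- The set of orbits. -/
def Orb : Type := Quotient (orbS hf)

/-- The orbit of a point. -/
def cls (x : α) : Orb hf := Quotient.mk (orbS hf) x

/-- A chosen point of an orbit. -/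
noncomputable def rep (P : Orb hf) : α := Quotient.out P

/-- The length of an orbit. -/
noncomputable def odeg (P : Orb hf) : ℕ := minimalPeriod f (rep hf P)

/-- The points of an orbit. -/
noncomputable def orb (P : Orb hf) : Finset α :=
  (Finset.range (odeg hf P)).image fun i => f^[i] (rep hf P)

variable {hf}

lemma cls_rep (P : Orb hf) : cls hf (rep hf P) = P := Quotient.out_eq P

lemma cls_eq {x y : α} : cls hf x = cls hf y ↔ ∃ i, f^[i] x = y := Quotient.eq

lemma exists_iter (x : α) : ∃ i, f^[i] (rep hf (cls hf x)) = x := cls_eq.1 (cls_rep _)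

lemma inv_rep {β : Type} {g : α → β} (hg : ∀ x, g (f x) = g x) (x : α) :
    g (rep hf (cls hf x)) = g x := by
  obtain ⟨i, hi⟩ := exists_iter (hf := hf) x
  conv_rhs => rw [← hi]
  clear hi
  induction i with
  | zero => rfl
  | succ i ih => rw [iterate_succ_apply', hg, ih]

lemma odeg_cls (x : α) : odeg hf (cls hf x) = minimalPeriod f x :=
  inv_rep (fun y => minimalPeriod_apply (hf y)) x

lemma odeg_pos (P : Orb hf) : 0 < odeg hf P := minimalPeriod_pos_of_mem_periodicPts (hf _)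

lemma odeg_dvd {x : α} {m : ℕ} : odeg hf (cls hf x) ∣ m ↔ f^[m] x = x := by
  rw [odeg_cls, ← isPeriodicPt_iff_minimalPeriod_dvd]; rfl

lemma iter_odeg (P : Orb hf) : f^[odeg hf P] (rep hf P) = rep hf P := iterate_minimalPeriod

lemma mem_orb {P : Orb hf} {x : α} : x ∈ orb hf P ↔ cls hf x = P := by
  rw [orb, Finset.mem_image]
  refine ⟨?_, ?_⟩
  · rintro ⟨i, -, rfl⟩
    exact (cls_eq.2 ⟨i, rfl⟩).symm.trans (cls_rep P)
  · rintro rfl
    obtain ⟨i, hi⟩ := exists_iter (hf := hf) x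
    exact ⟨i % _, Finset.mem_range.2 (Nat.mod_lt _ (odeg_pos _)),
      (iterate_mod_minimalPeriod_eq).trans hi⟩

lemma sum_orb {G : Type} [AddCommMonoid G] (P : Orb hf) (g : α → G) :
    ∑ x ∈ orb hf P, g x = ∑ i ∈ Finset.range (odeg hf P), g (f^[i] (rep hf P)) :=
  Finset.sum_image fun _ hi _ hj h => iterate_injOn_Iio_minimalPeriod
    (Finset.mem_range.1 hi) (Finset.mem_range.1 hj) h

lemma prod_orb {G : Type} [CommMonoid G] (P : Orb hf) (g : α → G) :
    ∏ x ∈ orb hf P, g x = ∏ i ∈ Finset.range (odeg hf P), g (f^[i] (rep hf P)) :=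
  Finset.prod_image fun _ hi _ hj h => iterate_injOn_Iio_minimalPeriod
    (Finset.mem_range.1 hi) (Finset.mem_range.1 hj) h

lemma card_orb (P : Orb hf) : (orb hf P).card = odeg hf P := by
  rw [Finset.card_eq_sum_ones, sum_orb]; simp

lemma sum_biUnion_orb {G : Type} [AddCommMonoid G] (S : Finset (Orb hf)) (g : α → G) :
    ∑ x ∈ S.biUnion (orb hf), g x = ∑ P ∈ S, ∑ x ∈ orb hf P, g x :=
  Finset.sum_biUnion fun _ _ _ _ h => Finset.disjoint_left.2 fun _ h1 h2 =>
    h ((mem_orb.1 h1).symm.trans (mem_orb.1 h2))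

lemma mem_biUnion_orb {S : Finset (Orb hf)} {x : α} : x ∈ S.biUnion (orb hf) ↔ cls hf x ∈ S := by
  simp [mem_orb]

lemma sum_fix (m : ℕ) (T : Finset α) (hT : ∀ x, x ∈ T ↔ f^[m] x = x) (g : Orb hf → ℂ) :
    {P | odeg hf P ∣ m}.Finite ∧
      ∑ x ∈ T, g (cls hf x) = ∑ᶠ P ∈ {P | odeg hf P ∣ m}, (odeg hf P : ℂ) * g P := by
  have h1 : {P | odeg hf P ∣ m} = (T.image (cls hf) : Set (Orb hf)) := by
    ext P
    simp only [Set.mem_ofPred_eq, Finset.coe_image, Set.mem_image, Finset.mem_coe, hT,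
      ← odeg_dvd (hf := hf)]
    exact ⟨fun h => ⟨rep hf P, by rwa [cls_rep], cls_rep P⟩, by rintro ⟨x, h, rfl⟩; exact h⟩
  have h2 : T = (T.image (cls hf)).biUnion (orb hf) := by
    ext x
    rw [mem_biUnion_orb, ← Finset.mem_coe (s := T.image _), ← h1, hT, ← odeg_dvd (hf := hf)]
    rfl
  refine ⟨h1 ▸ Finset.finite_toSet _, ?_⟩
  rw [h1, finsum_mem_coe_finset]
  conv_lhs => rw [h2, sum_biUnion_orb]
  refine Finset.sum_congr rfl fun P _ => ?_
  rw [Finset.sum_congr rfl fun x hx => congrArg g (mem_orb.1 hx), Finset.sum_const, card_orb,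
    nsmul_eq_mul]

end Orbit

section Card

variable {G H : Type} [AddCommGroup G] [AddCommGroup H]

lemma card_eq_ker_mul (V V' : AddSubgroup G) (f : G →+ H) (hV : ∀ x, x ∈ V ↔ x ∈ V' ∧ f x = 0) :
    Nat.card V' = Nat.card (V'.map f) * Nat.card V := by
  have h1 : V = f.ker ⊓ V' := by ext x; simp [hV, and_comm]
  have h2 : V ≤ V' := fun x hx => ((hV x).1 hx).1
  rw [← AddSubgroup.relIndex_ker, ← AddSubgroup.inf_relIndex_right, ← h1, mul_comm,
    ← Nat.card_congr (AddSubgroup.addSubgroupOfEquivOfLe h2).toEquiv]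
  exact (AddSubgroup.card_mul_index _).symm

lemma card_le_mul (V V' : AddSubgroup G) (f : G →+ H) (S : Finset H) [Finite V]
    (h1 : ∀ x ∈ V', f x ∈ S) (h2 : ∀ x ∈ V', f x = 0 → x ∈ V) :
    Finite V' ∧ Nat.card V' ≤ S.card * Nat.card V := by
  have h3 : (V'.map f : Set H) ⊆ S := by
    rintro _ ⟨x, hx, rfl⟩
    exact h1 x hx
  have h4 : ((f.ker ⊓ V' : AddSubgroup G) : Set G) ⊆ V := fun x hx => h2 x hx.2 hx.1
  have h5 : Finite (V'.map f) := S.finite_toSet.subset h3
  have h6 : Finite (f.ker ⊓ V' : AddSubgroup G) := (Set.toFinite (V : Set G)).subset h4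
  have h7 := card_eq_ker_mul (f.ker ⊓ V') V' f fun x => by simp [and_comm]
  refine ⟨Nat.finite_of_card_ne_zero (h7 ▸ mul_ne_zero Nat.card_pos.ne' Nat.card_pos.ne'), ?_⟩
  rw [h7]
  refine Nat.mul_le_mul ?_ (Nat.card_mono (Set.toFinite (V : Set G)) h4)
  exact (Nat.card_mono S.finite_toSet h3).trans_eq (by simp)

end Card

section Div

variable {ι : Type} (deg : ι → ℕ) (Ψ : ι → ℂ)

/-- The degree of a divisor. -/
noncomputable def degZ : (ι →₀ ℤ) →+ ℤ :=
  Finsupp.liftAddHom fun i => AddMonoidHom.mulRight (deg i : ℤ)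

lemma degZ_single (i : ι) (e : ℤ) : degZ deg (Finsupp.single i e) = e * deg i := by simp [degZ]

lemma degZ_apply (D : ι →₀ ℤ) : degZ deg D = ∑ i ∈ D.support, D i * deg i := rfl

/-- The value of a character at a divisor. -/
noncomputable def psiZ (D : ι →₀ ℤ) : ℂ := D.prod fun i e => Ψ i ^ e

variable {Ψ}

lemma psiZ_add (h : ∀ i, Ψ i ≠ 0) (D E : ι →₀ ℤ) : psiZ Ψ (D + E) = psiZ Ψ D * psiZ Ψ E :=
  Finsupp.prod_add_index' (fun _ => zpow_zero _) fun i _ _ => zpow_add₀ (h i) _ _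

lemma psiZ_single (i : ι) (e : ℤ) : psiZ Ψ (Finsupp.single i e) = Ψ i ^ e :=
  Finsupp.prod_single_index (zpow_zero _)

lemma rr (N : (ι →₀ ℤ) → ℤ → ℝ) {q : ℝ} (hq : 1 < q) (d : ℕ) (h1 : ∀ D i, 1 ≤ N D i)
    (ha : ∀ D i, N D (i + 1) ≤ q ^ 2 * N D i)
    (hs : ∀ D i l, 1 < N D i → i + d ≤ l → N D (l + 1) = q ^ 2 * N D l)
    (hne : ∀ D, ∃ i, 1 < N D i)
    (hb : ∀ D P i, N (D + Finsupp.single P 1) i ≤ q ^ deg P * N D i)
    (hc : ∀ P, ∃ (E : ι →₀ ℤ) (e : ℤ), Finsupp.single P 1 ≤ E ∧ degZ deg E = 2 * e ∧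
      ∀ D i, N (D + E) i = N D (i + e))
    (h0 : 1 < N 0 0) : ∃ c : ℝ, ∀ D i, 2 * d < 2 * i + degZ deg D →
      1 < N D i ∧ ∀ l, i + d ≤ l → N D l = c * q ^ (2 * l + degZ deg D) := by
  have q0 : 0 < q := zero_lt_one.trans hq
  set c : (ι →₀ ℤ) → ℤ → ℝ := fun D i => N D i / q ^ (2 * i + degZ deg D) with hcd
  have e1 : ∀ (D : ι →₀ ℤ) (i : ℤ), q ^ (2 * (i + 1) + degZ deg D) =
      q ^ 2 * q ^ (2 * i + degZ deg D) := fun D i => by
    rw [← zpow_natCast, ← zpow_add₀ q0.ne']; congr 1; push_cast; ring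
  have anti : ∀ D, Antitone (c D) := fun D => antitone_int_of_succ_le fun i => by
    simp only [hcd]
    rw [e1, div_le_div_iff₀ (by positivity) (by positivity), ← mul_assoc, mul_comm _ (q ^ 2)]
    exact mul_le_mul_of_nonneg_right (ha D i) (by positivity)
  have stab : ∀ D i l, 1 < N D i → i + d ≤ l → c D l = c D (i + d) := fun D i l hi hl => by
    induction l, hl using Int.leInduction with
    | base => rfl
    | succ l hl ih =>
      rw [← ih]
      simp only [hcd]
      rw [e1, hs D i l hi hl, mul_div_mul_left _ _ (by positivity)]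
  choose i₀ hi₀ using hne
  set cI : (ι →₀ ℤ) → ℝ := fun D => c D (i₀ D + d) with hcI
  have low : ∀ D i, cI D ≤ c D i := fun D i =>
    (stab D _ _ (hi₀ D) (le_max_left _ i)).symm.le.trans (anti D (le_max_right _ _))
  have mono1 : ∀ D P, cI (D + Finsupp.single P 1) ≤ cI D := fun D P => by
    refine (low _ (i₀ D + d)).trans ?_
    simp only [hcI, hcd]
    rw [map_add, degZ_single, one_mul, ← add_assoc, zpow_add₀ q0.ne', zpow_natCast,
      div_le_div_iff₀ (by positivity) (by positivity), mul_comm _ (q ^ deg P), ← mul_assoc,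
      mul_comm _ (q ^ deg P)]
    exact mul_le_mul_of_nonneg_right (hb D P _) (by positivity)
  have mono2 : ∀ (P) (n : ℕ) (D), cI (D + Finsupp.single P (n : ℤ)) ≤ cI D := fun P n => by
    induction n with
    | zero => simp
    | succ n ih =>
      intro D
      rw [Nat.cast_succ, Finsupp.single_add, ← add_assoc]
      exact (mono1 _ P).trans (ih D)
  have mono : ∀ E : ι →₀ ℤ, 0 ≤ E → ∀ D, cI (D + E) ≤ cI D := fun E => by
    induction E using Finsupp.induction with
    | zero => simp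
    | single_add P n E h2 h3 ih =>
      intro hE D
      have h4 : E P = 0 := Finsupp.notMem_support_iff.1 h2
      obtain ⟨n, rfl⟩ := Int.eq_ofNat_of_zero_le (a := n) (by simpa [h4] using hE P)
      rw [← add_assoc]
      refine (ih (fun Q => ?_) _).trans (mono2 P n D)
      by_cases h : P = Q
      · simp [← h, h4]
      · simpa [h] using hE Q
  have eq1 : ∀ D P, cI (D + Finsupp.single P 1) = cI D := fun D P => by
    obtain ⟨E, e, h2, h3, h4⟩ := hc P
    refine le_antisymm (mono1 D P) ?_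
    have h5 := mono _ (sub_nonneg.2 h2) (D + Finsupp.single P 1)
    rw [add_add_sub_cancel] at h5
    refine le_trans ((low D (i₀ (D + E) + d + e)).trans (le_of_eq ?_)) h5
    simp only [hcI, hcd]
    rw [h4, map_add, h3]
    congr 2
    ring
  have eq2 : ∀ D, cI D = cI 0 := fun D => by
    induction D using Finsupp.induction with
    | zero => rfl
    | single_add P n E h2 h3 ih =>
      rw [← ih, add_comm]
      clear h3
      induction n with
      | zero => simp
      | succ n ih2 => rw [Finsupp.single_add, ← add_assoc, eq1, ih2]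
      | pred n ih2 =>
        rw [← ih2, ← eq1 _ P, add_assoc, ← Finsupp.single_add, sub_add_cancel]
  refine ⟨cI 0, fun D i hi => ?_⟩
  have h2 : 1 < N D i := by
    have h3 := low D i
    rw [eq2, hcI] at h3
    simp only at h3
    rw [← stab 0 _ _ (hi₀ 0) (le_max_left _ (0 + (d : ℤ))), stab 0 _ _ h0 (le_max_right _ _)] at h3
    simp only [hcd, map_zero, zero_add, add_zero] at h3
    rw [div_le_div_iff₀ (by positivity) (by positivity)] at h3
    have h4 := zpow_lt_zpow_right₀ hq hi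
    have h5 : 0 < q ^ (2 * (d : ℤ)) := by positivity
    nlinarith [h1 0 d]
  refine ⟨h2, fun l hl => ?_⟩
  rw [← eq2 D, hcI]
  simp only
  rw [← stab D _ _ (hi₀ D) (le_max_left _ l), stab D _ _ h2 (hl.trans (le_max_right _ _)),
    ← stab D _ _ h2 hl]
  simp only [hcd]
  rw [div_mul_cancel₀ _ (by positivity)]

lemma card_fiber {U β : Type} (E : Finset β) (g : U → β) (h : Nat.card {x | g x ∈ E} ≠ 0) :
    Nat.card {x | g x ∈ E} = ∑ b ∈ E, Nat.card {x | g x = b} := by
  have h1 : {x | g x ∈ E}.Finite := Nat.finite_of_card_ne_zero h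
  rw [Nat.card_coe_set_eq, Set.ncard_eq_toFinset_card _ h1,
    Finset.card_eq_sum_card_fiberwise (f := g) (t := E) fun x hx => by simpa using hx]
  refine Finset.sum_congr rfl fun b hb => ?_
  rw [Nat.card_coe_set_eq, ← Set.ncard_coe_finset]
  congr 1
  ext x
  simp only [Finset.coe_filter, Set.Finite.mem_toFinset, Set.mem_ofPred_eq]
  exact ⟨fun h => h.2, fun h => ⟨h ▸ hb, h⟩⟩

lemma vanish {U : Type} (hΨ : ∀ i, Ψ i ≠ 0) (n : ℕ) (dv : U → ι →₀ ℤ) (iv : U → U)
    (hiv : ∀ x, iv (iv x) = x) (hdv : ∀ x, dv (iv x) = -dv x) (hdeg : ∀ x, degZ deg (dv x) = 0)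
    (hpsi : ∀ x, psiZ Ψ (dv x) = 1) {h : ℕ} (h0 : h ≠ 0)
    (hc : ∀ D : ι →₀ ℤ, degZ deg D = n → Nat.card {x | 0 ≤ D + dv x} = h)
    (δ : ι →₀ ℤ) (hδ1 : degZ deg δ = 0) (hδ2 : psiZ Ψ δ = -1) :
    ∑ᶠ D ∈ {D : ι →₀ ℕ | (D.sum fun i e => e * deg i) = n}, (D.prod fun i e => Ψ i ^ e) = 0 := by
  by_cases hfin : ¬ {D : ι →₀ ℕ | (D.sum fun i e => e * deg i) = n}.Finite
  · refine finsum_mem_eq_zero_of_infinite fun h1 => hfin (h1.subset fun D hD => ⟨hD, ?_⟩)
    exact Finsupp.prod_ne_zero_iff.2 fun i _ => pow_ne_zero _ (hΨ i)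
  rw [not_not] at hfin
  let up : (ι →₀ ℕ) → ι →₀ ℤ := Finsupp.mapRange Nat.cast Nat.cast_zero
  have u1 : ∀ D, degZ deg (up D) = (D.sum fun i e => e * deg i : ℕ) := fun D => by
    rw [degZ, Finsupp.liftAddHom_apply, Finsupp.sum_mapRange_index (by simp)]
    simp [Finsupp.sum]
  have u2 : ∀ D, psiZ Ψ (up D) = D.prod fun i e => Ψ i ^ e := fun D => by
    rw [psiZ, Finsupp.prod_mapRange_index (by simp)]
    simp
  set E := hfin.toFinset.image up with hE
  have mE : ∀ D, D ∈ E ↔ 0 ≤ D ∧ degZ deg D = n := fun D => by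
    simp only [hE, Finset.mem_image, Set.Finite.mem_toFinset, Set.mem_ofPred_eq]
    refine ⟨?_, fun ⟨h1, h2⟩ => ?_⟩
    · rintro ⟨D, h1, rfl⟩
      exact ⟨fun i => by simp [up], by rw [u1, h1]⟩
    · have h3 : up (D.mapRange Int.toNat rfl) = D := by
        ext i
        simpa [up] using h1 i
      exact ⟨_, by rw [← h3, u1] at h2; exact_mod_cast h2, h3⟩
  rw [finsum_mem_eq_finite_toFinset_sum _ hfin, ← Finset.sum_congr rfl fun D _ => u2 D,
    ← Finset.sum_image (Finsupp.mapRange_injective _ _ Nat.cast_injective).injOn, ← hE]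
  let c : (ι →₀ ℤ) → (ι →₀ ℤ) → ℕ := fun D D' => Nat.card {x | D + δ + dv x = D'}
  have c1 : ∀ D ∈ E, ∑ D' ∈ E, c D D' = h := fun D hD => by
    have h2 : degZ deg (D + δ) = n := by rw [map_add, hδ1, add_zero, ((mE D).1 hD).2]
    have h1 : Nat.card {x | D + δ + dv x ∈ E} = h := by
      rw [← hc _ h2]
      simp only [mE, map_add (degZ deg) (D + δ), h2, hdeg, add_zero, and_true]
    rw [← h1, card_fiber _ _ (h1 ▸ h0)]
  have c2 : ∀ D' ∈ E, ∑ D ∈ E, c D D' = h := fun D' hD => by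
    have h2 : degZ deg (D' - δ) = n := by rw [map_sub, hδ1, sub_zero, ((mE D').1 hD).2]
    have h1 : Nat.card {x | D' - δ + dv x ∈ E} = h := by
      rw [← hc _ h2]
      simp only [mE, map_add (degZ deg) (D' - δ), h2, hdeg, add_zero, and_true]
    rw [← h1, card_fiber _ _ (h1 ▸ h0)]
    refine Finset.sum_congr rfl fun D _ => Nat.card_congr
      ((Function.Involutive.toPerm iv hiv).subtypeEquiv fun x => ?_)
    simp only [Set.mem_ofPred_eq, Function.Involutive.coe_toPerm, hdv]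
    constructor <;> rintro rfl <;> abel
  have c3 : ∀ D D', (c D D' : ℂ) * psiZ Ψ D' = -(c D D' * psiZ Ψ D) := fun D D' => by
    by_cases h1 : c D D' = 0
    · simp [h1]
    obtain ⟨x, hx⟩ := (Nat.card_ne_zero.1 h1).1
    have : D + δ + dv x = D' := hx
    rw [← this, psiZ_add hΨ, psiZ_add hΨ, hδ2, hpsi]
    ring
  have h1 : (h : ℂ) * ∑ D ∈ E, psiZ Ψ D = -(h * ∑ D ∈ E, psiZ Ψ D) := by
    conv_lhs => rw [Finset.mul_sum, Finset.sum_congr rfl fun D hD => by
      rw [← c2 D hD, Nat.cast_sum, Finset.sum_mul, Finset.sum_congr rfl fun D' _ => c3 D' D]]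
    rw [Finset.sum_comm, Finset.mul_sum, ← Finset.sum_neg_distrib]
    refine Finset.sum_congr rfl fun D hD => ?_
    rw [← c1 D hD, Nat.cast_sum, Finset.sum_mul, Finset.sum_neg_distrib]
  have h2 : (h : ℂ) ≠ 0 := by exact_mod_cast h0
  exact (mul_eq_zero.1 (self_eq_neg.1 h1)).resolve_left h2

end Div

end Pool.Agent.Lib.MP_a3f657_nt.Two.Lk
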