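import Pool.Agent.Lib.MP_a3f657_nt.C2AnDefs
import Pool.Agent.Lib.MP_a3f657_nt.C2RhMain

/-!
The bridge between sums over finite fields and sums over prime polynomials.
-/

namespace Pool.Agent.Lib.MP_a3f657_nt.Two.Lp

open Polynomial Rh

open scoped Classical

variable {k : Type} [Field k] [Fintype k] [CharP k 2]

theorem pow_q_add (m : ℕ) (x y : AlgebraicClosure k) :
    (x + y) ^ Fintype.card k ^ m = x ^ Fintype.card k ^ m + y ^ Fintype.card k ^ m := by
  rw [← frob_pow_apply, map_add, frob_pow_apply, frob_pow_apply]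

theorem pow_q_cz (m : ℕ) (a : ZMod 2) :
    cz (AlgebraicClosure k) a ^ Fintype.card k ^ m = cz _ a := by
  rw [← frob_pow_apply, map_cz]

theorem pow_q_aeval (m : ℕ) (a : AlgebraicClosure k) (p : k[X]) :
    aeval a p ^ Fintype.card k ^ m = aeval (a ^ Fintype.card k ^ m) p := by
  rw [← frob_pow_apply, ← aeval_algHom_apply, frob_pow_apply]

theorem aeval_mem_fixF {m : ℕ} (hm : 0 < m) {a : AlgebraicClosure k} (ha : a ∈ fixF k m)
    (p : k[X]) : aeval a p ∈ fixF k m := by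
  rw [mem_fixF hm] at ha ⊢
  rw [pow_q_aeval, ha]

theorem add_mem_fixF {m : ℕ} (hm : 0 < m) {a b : AlgebraicClosure k} (ha : a ∈ fixF k m)
    (hb : b ∈ fixF k m) : a + b ∈ fixF k m := by
  rw [mem_fixF hm] at ha hb ⊢
  rw [pow_q_add, ha, hb]

theorem mul_mem_fixF {m : ℕ} (hm : 0 < m) {a b : AlgebraicClosure k} (ha : a ∈ fixF k m)
    (hb : b ∈ fixF k m) : a * b ∈ fixF k m := by
  rw [mem_fixF hm] at ha hb ⊢
  rw [mul_pow, ha, hb]

theorem div_mem_fixF {m : ℕ} (hm : 0 < m) {a b : AlgebraicClosure k} (ha : a ∈ fixF k m)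
    (hb : b ∈ fixF k m) : a / b ∈ fixF k m := by
  rw [mem_fixF hm] at ha hb ⊢
  rw [div_pow, ha, hb]

theorem exists_cz_of_mem {m : ℕ} (hm : 0 < m) {u : AlgebraicClosure k}
    (hu : u ^ 2 + u ∈ fixF k m) : ∃ a, u ^ Fintype.card k ^ m = u + cz _ a := by
  rw [mem_fixF hm, pow_q_add, ← pow_mul, mul_comm, pow_mul] at hu
  obtain ⟨a, ha⟩ := exists_cz (μ := 1) (δ := u ^ Fintype.card k ^ m - u) (by
    linear_combination hu + (u ^ 2 - u * u ^ Fintype.card k ^ m) *
      (CharTwo.two_eq_zero (R := AlgebraicClosure k)))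
  exact ⟨a, by linear_combination ha⟩

theorem exists_as {m : ℕ} (hm : 0 < m) {b : AlgebraicClosure k} (hb : b ∈ fixF k m) :
    ∃ u a, u ^ 2 + u = b ∧ u ^ Fintype.card k ^ m = u + cz _ a := by
  obtain ⟨u, hu⟩ := exists_quad 1 b
  rw [one_mul] at hu
  obtain ⟨a, ha⟩ := exists_cz_of_mem hm (hu ▸ hb)
  exact ⟨u, a, hu, ha⟩

theorem sg_add {m : ℕ} (hm : 0 < m) {b b' : AlgebraicClosure k} (hb : b ∈ fixF k m)
    (hb' : b' ∈ fixF k m) : sg m (b + b') = sg m b * sg m b' := by
  obtain ⟨u, a, hu, ha⟩ := exists_as hm hb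
  obtain ⟨u', a', hu', ha'⟩ := exists_as hm hb'
  rw [sg_eq hm hu ha, sg_eq hm hu' ha', ← sgn_add]
  refine sg_eq hm (u := u + u') ?_ ?_
  · linear_combination hu + hu' + u * u' * (CharTwo.two_eq_zero (R := AlgebraicClosure k))
  · rw [pow_q_add, ha, ha', cz_add]
    ring

theorem pow_q_mul {e : ℕ} {u : AlgebraicClosure k} {a : ZMod 2}
    (hu : u ^ Fintype.card k ^ e = u + cz _ a) (j : ℕ) :
    u ^ Fintype.card k ^ (e * j) = u + cz _ (j * a) := by
  induction j with
  | zero => simp [cz_zero]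
  | succ j ih =>
    rw [mul_add, mul_one, pow_add, pow_mul, ih, pow_q_add, hu, pow_q_cz, Nat.cast_succ, add_mul,
      one_mul, cz_add]
    ring

theorem sgn_mul (j : ℕ) (a : ZMod 2) : sgn (j * a) = sgn a ^ j := by
  induction j with
  | zero => simp [sgn]
  | succ j ih => rw [Nat.cast_succ, add_mul, one_mul, sgn_add, ih, pow_succ]

theorem sg_mul_deg {e j : ℕ} (he : 0 < e) (hj : 0 < j) {b : AlgebraicClosure k}
    (hb : b ∈ fixF k e) : sg (e * j) b = sg e b ^ j := by
  obtain ⟨u, a, hu, ha⟩ := exists_as he hb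
  rw [sg_eq he hu ha, sg_eq (Nat.mul_pos he hj) hu (pow_q_mul ha j), sgn_mul]

theorem irreducible_minpoly (a : AlgebraicClosure k) : Irreducible (minpoly k a) :=
  minpoly.irreducible (Algebra.IsIntegral.isIntegral a)

theorem monic_minpoly (a : AlgebraicClosure k) : (minpoly k a).Monic :=
  minpoly.monic (Algebra.IsIntegral.isIntegral a)

theorem natDegree_minpoly_pos (a : AlgebraicClosure k) : 0 < (minpoly k a).natDegree :=
  (irreducible_minpoly a).natDegree_pos

theorem mem_fixF_iff_dvd {m : ℕ} (hm : 0 < m) {a : AlgebraicClosure k} :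
    a ∈ fixF k m ↔ (minpoly k a).natDegree ∣ m := by
  rw [mem_fixF hm, (irreducible_minpoly a).natDegree_dvd_iff_dvd_X_pow_card_pow_sub_X,
    minpoly.dvd_iff, Nat.card_eq_fintype_card, map_sub, map_pow, aeval_X, sub_eq_zero]

theorem mem_fixF_self (a : AlgebraicClosure k) : a ∈ fixF k (minpoly k a).natDegree :=
  (mem_fixF_iff_dvd (natDegree_minpoly_pos a)).2 dvd_rfl

theorem exists_aeval_eq {a c : AlgebraicClosure k} (hc : c ∈ fixF k (minpoly k a).natDegree) :
    ∃ z : k[X], aeval a z = c := by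
  have hint : IsIntegral k a := Algebra.IsIntegral.isIntegral a
  have := IntermediateField.adjoin.finiteDimensional hint
  have : Finite (IntermediateField.adjoin k {a}) := Module.finite_of_finite k
  have := Fintype.ofFinite (IntermediateField.adjoin k {a})
  rw [mem_fixF (natDegree_minpoly_pos a), ← IntermediateField.adjoin.finrank hint,
    ← Module.card_eq_pow_finrank] at hc
  obtain ⟨⟨y, hy⟩, rfl⟩ := mem_range_of_pow_card hc
  rw [← IntermediateField.mem_toSubalgebra,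
    IntermediateField.adjoin_simple_toSubalgebra_of_isAlgebraic hint.isAlgebraic,
    Algebra.adjoin_singleton_eq_range_aeval] at hy
  exact hy

theorem exists_minpoly_eq {p : k[X]} (h1 : p.Monic) (h2 : Irreducible p) :
    ∃ a : AlgebraicClosure k, minpoly k a = p := by
  obtain ⟨a, ha⟩ := IsAlgClosed.exists_aeval_eq_zero (AlgebraicClosure k) p
    (degree_pos_of_irreducible h2).ne'
  exact ⟨a, (minpoly.eq_of_irreducible_of_monic h2 ha h1).symm⟩

theorem goodP_minpoly {M : k[X]} {a : AlgebraicClosure k} :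
    GoodP M (minpoly k a) ↔ aeval a M ≠ 0 :=
  ⟨fun h => mt minpoly.dvd_iff.2 h.2.2,
    fun h => ⟨monic_minpoly a, irreducible_minpoly a, mt minpoly.dvd_iff.1 h⟩⟩

theorem dvd_quad_iff {M n z : k[X]} {a : AlgebraicClosure k} (ha : aeval a M ≠ 0) :
    minpoly k a ∣ M * (z ^ 2 + z) + n ↔ aeval a z ^ 2 + aeval a z = aeval a n / aeval a M := by
  rw [minpoly.dvd_iff, map_add, map_mul, map_add, map_pow, eq_div_iff ha, CharTwo.add_eq_zero,
    mul_comm]

theorem sgP_eq_sg {M : k[X]} (n : k[X]) {a : AlgebraicClosure k} (ha : aeval a M ≠ 0) :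
    sgP (minpoly k a) M n = sg (minpoly k a).natDegree (aeval a n / aeval a M) := by
  unfold sgP sg
  congr 1
  refine propext ⟨fun ⟨z, hz⟩ => ⟨_, aeval_mem_fixF (natDegree_minpoly_pos a) (mem_fixF_self a) z,
    (dvd_quad_iff ha).1 hz⟩, fun ⟨c, hc, hc'⟩ => ?_⟩
  obtain ⟨z, rfl⟩ := exists_aeval_eq hc
  exact ⟨z, (dvd_quad_iff ha).2 hc'⟩

theorem sg_eq_sgP_pow {M : k[X]} (n : k[X]) {m : ℕ} (hm : 0 < m) {a : AlgebraicClosure k}
    (ha : a ∈ fixF k m) (hM : aeval a M ≠ 0) :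
    sg m (aeval a n / aeval a M) = sgP (minpoly k a) M n ^ (m / (minpoly k a).natDegree) := by
  obtain ⟨j, rfl⟩ := (mem_fixF_iff_dvd hm).1 ha
  have he := natDegree_minpoly_pos a
  rw [Nat.mul_div_cancel_left _ he, sgP_eq_sg n hM, sg_mul_deg he (Nat.pos_of_mul_pos_left hm)
    (div_mem_fixF he (aeval_mem_fixF he (mem_fixF_self a) _)
      (aeval_mem_fixF he (mem_fixF_self a) _))]

theorem norm_sgP (p M n : k[X]) : ‖sgP p M n‖ = 1 := by
  unfold sgP
  split_ifs <;> simp

theorem sum_fixF (M : k[X]) {m : ℕ} (hm : 0 < m) (P : k[X] → Prop) (F : k[X] → ℂ)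
    {d : DecidablePred fun a : AlgebraicClosure k => aeval a M ≠ 0 ∧ P (minpoly k a)} :
    ∑ a ∈ (fixF k m).filter (fun a => aeval a M ≠ 0 ∧ P (minpoly k a)), F (minpoly k a) =
      ∑ᶠ p ∈ {p | GoodP M p ∧ p.natDegree ∣ m ∧ P p}, (p.natDegree : ℂ) * F p := by
  set s := (fixF k m).filter (fun a => aeval a M ≠ 0 ∧ P (minpoly k a)) with hs
  have h1 : {p | GoodP M p ∧ p.natDegree ∣ m ∧ P p} = (s.image (minpoly k) : Set k[X]) := by
    ext p
    simp only [hs, Set.mem_ofPred_eq, Finset.coe_image, Set.mem_image, Finset.mem_coe,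
      Finset.mem_filter, mem_fixF_iff_dvd hm, ← goodP_minpoly]
    constructor
    · rintro ⟨h1, h2, h3⟩
      obtain ⟨a, rfl⟩ := exists_minpoly_eq h1.1 h1.2.1
      exact ⟨a, ⟨h2, h1, h3⟩, rfl⟩
    · rintro ⟨a, ⟨h2, h1, h3⟩, rfl⟩
      exact ⟨h1, h2, h3⟩
  rw [h1, finsum_mem_coe_finset, Finset.sum_comp F (minpoly k)]
  refine Finset.sum_congr rfl fun p hp => ?_
  obtain ⟨a, ha, rfl⟩ := Finset.mem_image.1 hp
  rw [nsmul_eq_mul, ← card_rootSet_eq_natDegree (K := AlgebraicClosure k)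
    (PerfectField.separable_of_irreducible (irreducible_minpoly a)) (IsAlgClosed.splits _),
    ← Set.toFinset_card]
  congr 3
  ext b
  rw [Set.mem_toFinset, mem_rootSet_of_ne (irreducible_minpoly a).ne_zero, Finset.mem_filter]
  refine ⟨fun h => h.2 ▸ minpoly.aeval k b, fun h => ?_⟩
  have h2 := minpoly.eq_of_irreducible_of_monic (irreducible_minpoly a) h (monic_minpoly a)
  simp only [hs, Finset.mem_filter, mem_fixF_iff_dvd hm, ← goodP_minpoly] at ha ⊢
  rw [← h2]
  exact ⟨ha, rfl⟩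

theorem sum_fixF' (M : k[X]) {m : ℕ} (hm : 0 < m) (F : k[X] → ℂ)
    {_ : DecidablePred fun a : AlgebraicClosure k => aeval a M ≠ 0} :
    ∑ a ∈ (fixF k m).filter (fun a => aeval a M ≠ 0), F (minpoly k a) =
      ∑ᶠ p ∈ {p | GoodP M p ∧ p.natDegree ∣ m}, (p.natDegree : ℂ) * F p := by
  have := sum_fixF M hm (fun _ => True) F (d := inferInstance)
  simp only [and_true] at this
  convert this

theorem PS_eq (M : k[X]) {m : ℕ} (hm : 0 < m) (h : k[X] → ℂ)
    {d : DecidablePred fun a : AlgebraicClosure k => aeval a M ≠ 0 ∧ (minpoly k a).natDegree = m} :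
    PS M h m = ∑ a ∈ (fixF k m).filter
      (fun a => aeval a M ≠ 0 ∧ (minpoly k a).natDegree = m), h (minpoly k a) := by
  rw [sum_fixF M hm (fun p => p.natDegree = m), PS, mul_finsum_mem]
  refine finsum_mem_congr ?_ fun p hp => by rw [hp.2.2]
  ext p
  exact ⟨fun h => ⟨h.1, h.2 ▸ dvd_rfl, h.2⟩, fun h => ⟨h.1, h.2.2⟩⟩

theorem card_small_le {m : ℕ} (hm : 0 < m) :
    (((fixF k m).filter fun a => (minpoly k a).natDegree ≠ m).card : ℝ) ≤
      Fintype.card k * √(Fintype.card k) ^ m := by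
  have h1 : ((fixF k m).filter fun a => (minpoly k a).natDegree ≠ m) ⊆
      (Finset.Ioc 0 (m / 2)).biUnion (fixF k) := fun a ha => by
    rw [Finset.mem_filter, mem_fixF_iff_dvd hm] at ha
    obtain ⟨⟨j, hj⟩, ha⟩ := ha
    refine Finset.mem_biUnion.2 ⟨_, Finset.mem_Ioc.2 ⟨natDegree_minpoly_pos a, ?_⟩,
      mem_fixF_self a⟩
    have : 2 ≤ j := by
      rcases j with _ | _ | j
      · omega
      · omega
      · omega
    rw [Nat.le_div_iff_mul_le two_pos]
    exact (Nat.mul_le_mul_left _ this).trans hj.ge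
  have h2 := (Finset.card_le_card h1).trans Finset.card_biUnion_le
  rw [Finset.sum_congr rfl fun e he => card_fixF (Finset.mem_Ioc.1 he).1] at h2
  have h3 := h2.trans (Nat.geomSum_lt (n := m / 2 + 1) Fintype.one_lt_card
    fun e he => Nat.lt_succ_of_le (Finset.mem_Ioc.1 he).2).le
  refine (Nat.cast_le.2 h3).trans ?_
  have hq : (1 : ℝ) ≤ Fintype.card k := by exact_mod_cast Fintype.card_pos
  push_cast
  rw [pow_succ']
  gcongr
  conv_lhs => rw [← Real.sq_sqrt (zero_le_one.trans hq), ← pow_mul]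
  exact pow_le_pow_right₀ (Real.one_le_sqrt.2 hq) (Nat.mul_div_le m 2)

/-- Prime sums differ little from prime power sums. -/
theorem norm_sum_sub_PS (M : k[X]) {m : ℕ} (hm : 0 < m) (h : k[X] → ℂ)
    (H : AlgebraicClosure k → ℂ) (B : ℝ) (hB : ∀ a, ‖H a‖ ≤ B)
    (hH : ∀ a, aeval a M ≠ 0 → (minpoly k a).natDegree = m → H a = h (minpoly k a))
    {_ : DecidablePred fun a : AlgebraicClosure k => aeval a M ≠ 0} :
    ‖∑ a ∈ (fixF k m).filter (fun a => aeval a M ≠ 0), H a - PS M h m‖ ≤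
      B * (Fintype.card k * √(Fintype.card k) ^ m) := by
  rw [← Finset.sum_filter_add_sum_filter_not _ fun a => (minpoly k a).natDegree = m,
    Finset.filter_filter, Finset.sum_congr rfl fun a ha =>
      hH a (Finset.mem_filter.1 ha).2.1 (Finset.mem_filter.1 ha).2.2, ← PS_eq M hm,
    add_sub_cancel_left]
  refine (norm_sum_le _ _).trans ((Finset.sum_le_card_nsmul _ _ B fun a _ => hB a).trans ?_)
  rw [nsmul_eq_mul, mul_comm]
  refine mul_le_mul_of_nonneg_left (le_trans ?_ (card_small_le hm)) ((norm_nonneg _).trans (hB 0))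
  exact_mod_cast Finset.card_le_card (Finset.filter_subset_filter _ (Finset.filter_subset _ _))

section clM

omit [Fintype k] [CharP k 2]

theorem cl_eq_clM (M : k[X]) (K : ℕ) (f : k[X]) :
    cl ((AdjoinRoot.root M, 1) : RM M K) (1, AdjoinRoot.root (X ^ K)) f = clM M K f := by
  refine Prod.ext ?_ ?_
  · simp only [cl, clM, Prod.fst_sum, Prod.smul_fst, Prod.fst_mul, Prod.pow_fst, one_pow, mul_one]
    rw [← AdjoinRoot.aeval_eq, aeval_eq_sum_range]
  · simp only [cl, clM, Prod.snd_sum, Prod.smul_snd, Prod.snd_mul, Prod.pow_snd, one_pow, one_mul]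
    rw [← AdjoinRoot.aeval_eq, aeval_eq_sum_range' (Nat.lt_succ_of_le f.reverse_natDegree_le),
      ← Finset.sum_range_reflect]
    refine Finset.sum_congr rfl fun i hi => ?_
    have := Finset.mem_range.1 hi
    rw [coeff_reverse, revAt_le (by omega), Nat.add_sub_cancel]
    congr 2
    omega

theorem clM_mul (M : k[X]) (K : ℕ) (f g : k[X]) : clM M K (f * g) = clM M K f * clM M K g := by
  simp [clM, reverse_mul_of_domain]

theorem clM_one (M : k[X]) (K : ℕ) : clM M K 1 = 1 := by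
  rw [clM, ← C_1, reverse_C]
  simp

theorem isUnit_mk {M f : k[X]} (h : IsCoprime f M) : IsUnit (AdjoinRoot.mk M f) := by
  obtain ⟨a, b, hab⟩ := h
  have := congrArg (AdjoinRoot.mk M) hab
  rw [map_add, map_mul, map_mul, AdjoinRoot.mk_self, mul_zero, add_zero, map_one] at this
  exact IsUnit.of_mul_eq_one_right _ this

theorem isUnit_clM {M : k[X]} (K : ℕ) {f : k[X]} (h1 : f.Monic) (h2 : IsCoprime f M) :
    IsUnit (clM M K f) := by
  refine Prod.isUnit_iff.2 ⟨isUnit_mk h2, isUnit_mk (IsCoprime.pow_right ?_)⟩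
  refine ((irreducible_X.coprime_iff_not_dvd).2 ?_).symm
  rw [X_dvd_iff, coeff_zero_reverse, h1.leadingCoeff]
  exact one_ne_zero

theorem GoodP.isCoprime {M p : k[X]} (h : GoodP M p) : IsCoprime p M :=
  (h.2.1.coprime_iff_not_dvd).2 h.2.2

theorem clM_congr {M : k[X]} {K : ℕ} {f g : k[X]} (h1 : M ∣ f - g)
    (h2 : g.natDegree = f.natDegree) (h3 : (f - g).degree < (f.natDegree + 1 - K : ℕ)) :
    clM M K f = clM M K g := by
  refine Prod.ext (AdjoinRoot.mk_eq_mk.2 h1) (AdjoinRoot.mk_eq_mk.2 (X_pow_dvd_iff.2 fun i hi => ?_))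
  rw [reverse, reverse, h2, ← reflect_sub, coeff_reflect]
  by_cases hf : f - g = 0
  · rw [hf, coeff_zero]
  rw [degree_eq_natDegree hf, Nat.cast_lt] at h3
  rw [revAt_le (by omega)]
  exact coeff_eq_zero_of_natDegree_lt (by omega)

end clM

theorem finite_RM {M : k[X]} (hM : M ≠ 0) (K : ℕ) : Finite (RM M K) := by
  have h : ∀ f : k[X], f ≠ 0 → Finite (AdjoinRoot f) := fun f hf =>
    have := (AdjoinRoot.powerBasis hf).finite
    Module.finite_of_finite k
  have := h M hM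
  have := h (X ^ K) (pow_ne_zero _ X_ne_zero)
  infer_instance

theorem norm_chi_eq {R : Type} [CommRing R] [Finite R] (χ : MulChar R ℂ) {r : R} (h : IsUnit r) :
    ‖χ r‖ = 1 := by
  obtain ⟨u, rfl⟩ := h
  refine Complex.norm_eq_one_of_pow_eq_one (n := Nat.card Rˣ) ?_ Nat.card_pos.ne'
  rw [← map_pow, ← Units.val_pow_eq_pow_val, pow_card_eq_one', Units.val_one, map_one]

theorem finite_monic (n : ℕ) : {f : k[X] | f.Monic ∧ f.natDegree = n}.Finite := by
  have : Finite (degreeLT k n) := Finite.of_equiv _ (degreeLTEquiv k n).toEquiv.symm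
  exact Finite.of_equiv _ (monicEquivDegreeLT (R := k) n).symm

end Pool.Agent.Lib.MP_a3f657_nt.Two.Lp
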