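import Pool.Agent.Lib.MP_a3f657_nt.C2LkLine
import Pool.Agent.Lib.MP_a3f657_nt.C2LkAbs
import Pool.Agent.Lib.MP_a3f657_nt.C2LpBridge

/-!
Points, primes and divisors of the curve `θ ^ 2 + θ = n / M`.
-/

set_option linter.unusedSectionVars false

namespace Pool.Agent.Lib.MP_a3f657_nt.Two.Lk

open Polynomial HahnSeries Function

open scoped Classical

variable {k : Type} [Field k] [Fintype k] [CharP k 2]

/-- The geometric points of the affine curve. -/
structure Pt (M n : k[X]) where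
  /-- The point of the line below. -/
  a : AlgebraicClosure k
  /-- The value of `θ`. -/
  t : AlgebraicClosure k
  hM : aeval a M ≠ 0
  ht : t ^ 2 + t = aeval a n / aeval a M

variable (k) in
/-- The Frobenius map. -/
noncomputable abbrev σ : AlgebraicClosure k →ₐ[k] AlgebraicClosure k :=
  FiniteField.frobeniusAlgHom k (AlgebraicClosure k)

variable {M n : k[X]}

lemma Pt.ext' {Q Q' : Pt M n} (h : Q.a = Q'.a) (h' : Q.t = Q'.t) : Q = Q' := by
  cases Q; cases Q'; cases h; cases h'; rfl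

/-- Frobenius on points. -/
noncomputable def fr (Q : Pt M n) : Pt M n :=
  ⟨σ k Q.a, σ k Q.t, by rw [aeval_algHom_apply]; exact (_root_.map_ne_zero _).2 Q.hM, by
    rw [aeval_algHom_apply, aeval_algHom_apply, ← map_div₀, ← Q.ht, map_add, map_pow]⟩

/-- The conjugate point. -/
noncomputable def cj (Q : Pt M n) : Pt M n := ⟨Q.a, Q.t + 1, Q.hM, by rw [← Q.ht]; grind⟩

lemma cj_ne (Q : Pt M n) : Q ≠ cj Q := fun h => by simpa [cj] using congrArg Pt.t h

lemma eq_or_cj {Q Q' : Pt M n} (h : Q'.a = Q.a) : Q' = Q ∨ Q' = cj Q := by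
  have h1 := Q'.ht
  rw [h, ← Q.ht] at h1
  have h2 : (Q'.t - Q.t) * (Q'.t - (Q.t + 1)) = 0 := by grind
  refine (mul_eq_zero.1 h2).imp (fun h3 => ?_) fun h3 => ?_ <;> exact Pt.ext' h (sub_eq_zero.1 h3)

lemma exists_pt (n : k[X]) {a : AlgebraicClosure k} (ha : aeval a M ≠ 0) :
    ∃ Q : Pt M n, Q.a = a := by
  obtain ⟨θ, h⟩ := Rh.exists_quad 1 (aeval a n / aeval a M)
  exact ⟨⟨a, θ, ha, by simpa using h⟩, rfl⟩

lemma fr_iter (i : ℕ) (Q : Pt M n) :
    (fr^[i] Q).a = Q.a ^ Fintype.card k ^ i ∧ (fr^[i] Q).t = Q.t ^ Fintype.card k ^ i := by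
  induction i with
  | zero => simp
  | succ i ih =>
    rw [iterate_succ_apply', pow_succ, pow_mul, pow_mul, ← ih.1, ← ih.2]
    exact ⟨rfl, rfl⟩

lemma fr_fix {m : ℕ} (hm : 0 < m) {Q : Pt M n} : fr^[m] Q = Q ↔ Q.a ∈ fixF k m ∧ Q.t ∈ fixF k m := by
  rw [Rh.mem_fixF hm, Rh.mem_fixF hm, ← (fr_iter m Q).1, ← (fr_iter m Q).2]
  exact ⟨fun h => by rw [h]; exact ⟨rfl, rfl⟩, fun h => Pt.ext' h.1 h.2⟩

variable (M n) in
lemma fr_per (Q : Pt M n) : Q ∈ periodicPts fr := by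
  have h := Nat.mul_pos (Lp.natDegree_minpoly_pos Q.a) (Lp.natDegree_minpoly_pos Q.t)
  exact ⟨_, h, (fr_fix h).2 ⟨(Lp.mem_fixF_iff_dvd h).2 (dvd_mul_right _ _),
    (Lp.mem_fixF_iff_dvd h).2 (dvd_mul_left _ _)⟩⟩

lemma exists_th (Q : Pt M n) : ∃ θ : LaurentSeries (AlgebraicClosure k),
    θ ^ 2 + θ = ex Q.a (ι n / ι M) ∧ Ge θ 0 ∧ θ.coeff 0 = Q.t :=
  exists_root (ex_div Q.hM n).1 (by rw [(ex_div Q.hM n).2, Q.ht])

/-- The expansion of `θ` at a point. -/
noncomputable def th (Q : Pt M n) : LaurentSeries (AlgebraicClosure k) := (exists_th Q).choose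

lemma th_eq (Q : Pt M n) : th Q ^ 2 + th Q = ex Q.a (ι n / ι M) := (exists_th Q).choose_spec.1

lemma th_ge (Q : Pt M n) : Ge (th Q) 0 := (exists_th Q).choose_spec.2.1

lemma th_coeff (Q : Pt M n) : (th Q).coeff 0 = Q.t := (exists_th Q).choose_spec.2.2

lemma th_cj (Q : Pt M n) : th (cj Q) = th Q + 1 :=
  root_unique ((th_eq (cj Q)).trans ((th_eq Q).symm.trans (by grind)))
    (by rw [th_coeff, HahnSeries.coeff_add, th_coeff]; simp [cj])

lemma th_fr (Q : Pt M n) : th (fr Q) = lmap (σ k : _ →+* _) (th Q) :=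
  root_unique (by rw [th_eq, ← map_pow, ← map_add, th_eq, lmap_ex]; rfl)
    (by rw [th_coeff, coeff_lmap, th_coeff]; rfl)

/-- The expansion of `x₁ + x₂ θ` at a point. -/
noncomputable def φ (Q : Pt M n) : RatFunc k × RatFunc k →+ LaurentSeries (AlgebraicClosure k) where
  toFun x := ex Q.a x.1 + ex Q.a x.2 * th Q
  map_zero' := by simp
  map_add' x y := by simp only [Prod.fst_add, Prod.snd_add, map_add]; ring

lemma φ_apply (Q : Pt M n) (x : RatFunc k × RatFunc k) :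
    φ Q x = ex Q.a x.1 + ex Q.a x.2 * th Q := rfl

lemma φ_cj (Q : Pt M n) (x : RatFunc k × RatFunc k) :
    φ (cj Q) x = ex Q.a x.1 + ex Q.a x.2 * (th Q + 1) := by rw [φ_apply, th_cj]; rfl

lemma φ_smul (Q : Pt M n) (f : RatFunc k) (x : RatFunc k × RatFunc k) :
    φ Q (f • x) = ex Q.a f * φ Q x := by
  simp only [φ_apply, Prod.smul_fst, Prod.smul_snd, smul_eq_mul, map_mul]; ring

lemma φ_fr (Q : Pt M n) (x : RatFunc k × RatFunc k) :
    φ (fr Q) x = lmap (σ k : _ →+* _) (φ Q x) := by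
  rw [φ_apply, φ_apply, th_fr, map_add, map_mul, lmap_ex, lmap_ex]; rfl

variable (M n) in
/-- The norm. -/
noncomputable def Nm (x : RatFunc k × RatFunc k) : RatFunc k :=
  x.1 ^ 2 + x.1 * x.2 + ι n / ι M * x.2 ^ 2

lemma φ_mul_cj (Q : Pt M n) (x : RatFunc k × RatFunc k) :
    φ Q x * φ (cj Q) x = ex Q.a (Nm M n x) := by
  rw [φ_cj]
  simp only [φ_apply, Nm, map_add, map_mul, map_pow, ← th_eq]
  grind

lemma Nm_ne (hW : NotWp M n) {x : RatFunc k × RatFunc k} (hx : x ≠ 0) : Nm M n x ≠ 0 := fun h => by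
  by_cases h2 : x.2 = 0
  · exact hx (Prod.ext (by simpa [Nm, h2] using h) h2)
  · refine hW (x.1 / x.2) ?_
    change _ = ι n / ι M
    unfold Nm at h
    generalize ι n / ι M = c at h
    grind

lemma φ_ne (hW : NotWp M n) {x : RatFunc k × RatFunc k} (hx : x ≠ 0) (Q : Pt M n) : φ Q x ≠ 0 :=
  left_ne_zero_of_mul (φ_mul_cj Q x ▸ (_root_.map_ne_zero _).2 (Nm_ne hW hx))

lemma order_Nm (hW : NotWp M n) {x : RatFunc k × RatFunc k} (hx : x ≠ 0) (Q : Pt M n) :
    (ex Q.a (Nm M n x)).order = (φ Q x).order + (φ (cj Q) x).order := by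
  rw [← φ_mul_cj, order_mul (φ_ne hW hx _) (φ_ne hW hx _)]

lemma ge_φ {Q : Pt M n} {x : RatFunc k × RatFunc k} {l : ℤ} (h1 : Ge (ex Q.a x.1) l)
    (h2 : Ge (ex Q.a x.2) l) : Ge (φ Q x) l :=
  h1.add (by simpa using h2.mul (th_ge Q))

lemma ge_coord {Q : Pt M n} {x : RatFunc k × RatFunc k} {l : ℤ} (h1 : Ge (φ Q x) l)
    (h2 : Ge (φ (cj Q) x) l) : Ge (ex Q.a x.1) l ∧ Ge (ex Q.a x.2) l := by
  have h3 : Ge (ex Q.a x.2) l := by
    convert h2.sub h1 using 1
    rw [φ_cj, φ_apply]; ring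
  refine ⟨?_, h3⟩
  convert h1.sub ((th_ge Q).mul0 h3) using 1
  rw [φ_apply]; ring

variable (M n) in
/-- The primes of the affine curve. -/
abbrev Pr : Type := Orb (fr_per M n)

lemma finite_dv (hW : NotWp M n) (x : RatFunc k × RatFunc k) :
    (support fun P : Pr M n => (φ (rep _ P) x).order).Finite := by
  by_cases hx : x = 0
  · simp [hx]
  have h1 : {Q : Pt M n | (φ Q x).order ≠ 0}.Finite := by
    refine (Set.Finite.preimage' (f := fun Q : Pt M n => Q.a) (((finite_order x.1).union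
      (finite_order x.2)).union (finite_order (Nm M n x))) fun a _ => ?_).subset fun Q hQ => ?_
    · rcases Set.eq_empty_or_nonempty ((fun Q : Pt M n => Q.a) ⁻¹' {a}) with h | ⟨Q, hQ⟩
      · rw [h]; exact Set.finite_empty
      · exact (Set.toFinite {Q, cj Q}).subset fun Q' h => eq_or_cj (h.trans (Eq.symm hQ))
    · by_contra h
      simp only [Set.mem_preimage, Set.mem_union, Set.mem_ofPred_eq, not_or, not_not] at h
      have h1 : Ge (ex Q.a x.1) 0 := h.1.1 ▸ ge_order _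
      have h2 : Ge (ex Q.a x.2) 0 := h.1.2 ▸ ge_order _
      have h3 := (ge_iff (φ_ne hW hx Q)).1 (ge_φ h1 h2)
      have h4 := (ge_iff (φ_ne hW hx (cj Q))).1 (ge_φ h1 h2)
      have h5 := order_Nm hW hx Q
      exact hQ (by omega)
  exact h1.preimage (f := rep _) (LeftInverse.injective cls_rep).injOn

/-- The divisor of a function. -/
noncomputable def dv (hW : NotWp M n) (x : RatFunc k × RatFunc k) : Pr M n →₀ ℤ :=
  Finsupp.ofSupportFinite _ (finite_dv hW x)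

lemma dv_cls (hW : NotWp M n) (x : RatFunc k × RatFunc k) (Q : Pt M n) :
    dv hW x (cls _ Q) = (φ Q x).order :=
  inv_rep (g := fun Q => (φ Q x).order) (fun Q => by rw [φ_fr, order_lmap]) Q

lemma div_ext {D E : Pr M n →₀ ℤ} (h : ∀ Q, D (cls _ Q) = E (cls _ Q)) : D = E :=
  Finsupp.ext fun P => cls_rep P ▸ h _

lemma dv_le (hW : NotWp M n) {x : RatFunc k × RatFunc k} (hx : x ≠ 0) {D : Pr M n →₀ ℤ} :
    0 ≤ D + dv hW x ↔ ∀ Q, Ge (φ Q x) (-D (cls _ Q)) := by
  simp only [ge_iff (φ_ne hW hx _), ← dv_cls hW, Finsupp.le_def, Finsupp.coe_zero, Pi.zero_apply,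
    Finsupp.add_apply]
  exact ⟨fun h Q => by linarith [h (cls _ Q)], fun h P => by
    have := h (rep _ P); rw [cls_rep] at this; linarith⟩

lemma fiber_sum {G : Type} [AddCommMonoid G] (g : Pt M n → G) (T : Finset (Pt M n))
    (hT : ∀ Q ∉ T, g Q = 0) (Q : Pt M n) :
    ∑ Q' ∈ T.filter (·.a = Q.a), g Q' = g Q + g (cj Q) := by
  rw [← Finset.sum_pair (cj_ne Q)]
  refine Finset.sum_subset (fun Q' h => ?_) fun Q' h h' => hT _ fun h1 => h' ?_
  · simpa using eq_or_cj (Finset.mem_filter.1 h).2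
  · refine Finset.mem_filter.2 ⟨h1, ?_⟩
    rcases Finset.mem_insert.1 h with rfl | h
    · rfl
    · rw [Finset.mem_singleton.1 h]; rfl

lemma rep_fix (P : Pr M n) :
    (rep _ P).a ∈ fixF k (odeg _ P) ∧ (rep _ P).t ∈ fixF k (odeg _ P) :=
  (fr_fix (odeg_pos P)).1 (iter_odeg P)

/-- The norm of a prime. -/
noncomputable def nP (P : Pr M n) : k[X] :=
  minpoly k (rep _ P).a ^ (odeg _ P / (minpoly k (rep _ P).a).natDegree)

lemma nP_monic (P : Pr M n) : (nP P).Monic := (Lp.monic_minpoly _).pow _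

lemma nP_cop (P : Pr M n) : IsCoprime (nP P) M :=
  (Lp.GoodP.isCoprime (Lp.goodP_minpoly.2 (rep _ P).hM)).pow_left

lemma nP_deg (P : Pr M n) : (nP P).natDegree = odeg _ P := by
  rw [nP, natDegree_pow,
    Nat.div_mul_cancel ((Lp.mem_fixF_iff_dvd (odeg_pos P)).1 (rep_fix P).1)]

lemma nP_map (P : Pr M n) :
    (nP P).map (algebraMap k _) = ∏ Q ∈ orb _ P, (X - Polynomial.C Q.a) := by
  obtain ⟨h1, h2, h3⟩ := Rh.minpoly_eq_prod (odeg_pos P)
    ((Rh.mem_fixF (odeg_pos P)).1 (rep_fix P).1)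
  rw [nP, Polynomial.map_pow, h3, ← Rh.prod_range_periodic _ _ fun i => by
    rw [_root_.pow_add, pow_mul, h2], Nat.mul_div_cancel' h1, prod_orb]
  simp only [(fr_iter _ _).1]

lemma order_prod {K α : Type} [Field K] (s : Finset α) (y : α → LaurentSeries K)
    (h : ∀ i, y i ≠ 0) : (∏ i ∈ s, y i).order = ∑ i ∈ s, (y i).order := by
  induction s using Finset.induction_on with
  | empty => simp
  | insert i s hi ih =>
    rw [Finset.prod_insert hi, Finset.sum_insert hi,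
      order_mul (h i) (Finset.prod_ne_zero_iff.2 fun j _ => h j), ih]

lemma order_zpow {K : Type} [Field K] {y : LaurentSeries K} (h : y ≠ 0) (e : ℤ) :
    (y ^ e).order = e * y.order := by
  obtain ⟨e, rfl | rfl⟩ := e.eq_nat_or_neg
  · simp [order_pow]
  · simp [order_inv (pow_ne_zero e h), order_pow]

lemma order_nP (P : Pr M n) (a : AlgebraicClosure k) :
    (ex a (ι (nP P))).order = ∑ Q ∈ orb _ P, if Q.a = a then 1 else 0 := by
  rw [ex_ι, nP_map, map_prod, order_prod _ _ fun Q => (EP_order a (X_sub_C_ne_zero _)).1]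
  refine Finset.sum_congr rfl fun Q _ => ?_
  rw [(EP_order a (X_sub_C_ne_zero _)).2, rootMultiplicity_X_sub_C]
  simp [eq_comm]

lemma norm_eq (hW : NotWp M n) {x : RatFunc k × RatFunc k} (hx : x ≠ 0)
    (hM : ∀ a : AlgebraicClosure k, aeval a M = 0 → (ex a (Nm M n x)).order = 0) :
    ∃ c, Nm M n x = ι (Polynomial.C c) * ∏ P ∈ (dv hW x).support, ι (nP P) ^ dv hW x P := by
  have h0 : ∀ P : Pr M n, ι (nP P) ^ dv hW x P ≠ 0 := fun P =>
    zpow_ne_zero _ (ι_ne (nP_monic P).ne_zero)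
  have h1 := Finset.prod_ne_zero_iff.2 fun P (_ : P ∈ (dv hW x).support) => h0 P
  refine (const_of_order (K := AlgebraicClosure k) (div_ne_zero (Nm_ne hW hx) h1)
    fun a => ?_).imp fun c hc => by rw [hc, div_mul_cancel₀ _ h1]
  have h2 : (ex a (∏ P ∈ (dv hW x).support, ι (nP P) ^ dv hW x P)).order =
      ∑ Q ∈ ((dv hW x).support.biUnion (orb _)).filter (·.a = a), (φ Q x).order := by
    rw [map_prod, order_prod _ _ fun P => (_root_.map_ne_zero _).2 (h0 P), Finset.sum_filter,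
      sum_biUnion_orb]
    refine Finset.sum_congr rfl fun P _ => ?_
    rw [map_zpow₀, order_zpow ((_root_.map_ne_zero _).2 (ι_ne (nP_monic P).ne_zero)), order_nP,
      Finset.mul_sum]
    refine Finset.sum_congr rfl fun Q hQ => ?_
    rw [← mem_orb.1 hQ, dv_cls, mul_ite, mul_one, mul_zero]
  rw [div_eq_mul_inv, map_mul, map_inv₀, order_mul ((_root_.map_ne_zero _).2 (Nm_ne hW hx))
    (inv_ne_zero ((_root_.map_ne_zero _).2 h1)), order_inv ((_root_.map_ne_zero _).2 h1), h2]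
  by_cases ha : aeval a M = 0
  · rw [hM a ha, Finset.sum_eq_zero, neg_zero, add_zero]
    exact fun Q hQ => absurd ha ((Finset.mem_filter.1 hQ).2 ▸ Q.hM)
  · obtain ⟨Q, rfl⟩ := exists_pt n ha
    rw [fiber_sum _ _ fun Q hQ => ?_, order_Nm hW hx, add_neg_cancel]
    rwa [mem_biUnion_orb, Finsupp.notMem_support_iff, dv_cls] at hQ

lemma deg_dv (hW : NotWp M n) {x : RatFunc k × RatFunc k} (hx : x ≠ 0)
    (hM : ∀ a : AlgebraicClosure k, aeval a M = 0 → (ex a (Nm M n x)).order = 0) :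
    degZ (odeg _) (dv hW x) = -(eI (Nm M n x)).order := by
  obtain ⟨c, hc⟩ := norm_eq hW hx hM
  have h0 : ∀ P : Pr M n, eI (ι (nP P)) ≠ 0 := fun P =>
    (_root_.map_ne_zero _).2 (ι_ne (nP_monic P).ne_zero)
  have h1 : Polynomial.C c ≠ 0 := fun h => Nm_ne hW hx (by rw [hc, h, ι_zero, zero_mul])
  simp only [hc, map_mul, map_prod, map_zpow₀]
  rw [order_mul ((_root_.map_ne_zero _).2 (ι_ne h1))
    (Finset.prod_ne_zero_iff.2 fun P _ => zpow_ne_zero _ (h0 P)), order_eI_ι h1,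
    order_prod _ _ fun P => zpow_ne_zero _ (h0 P), degZ_apply]
  simp [order_zpow (h0 _), order_eI_ι (nP_monic _).ne_zero, nP_deg]

lemma exists_f (D : Pr M n →₀ ℤ) : ∃ f : k[X], f ≠ 0 ∧ IsCoprime f M ∧
    ∀ Q : Pt M n, Ge (ex Q.a (ι f)) |D (cls _ Q)| := by
  refine ⟨∏ P ∈ D.support, nP P ^ (D P).natAbs,
    Finset.prod_ne_zero_iff.2 fun P _ => pow_ne_zero _ (nP_monic P).ne_zero,
    IsCoprime.prod_left fun P _ => (nP_cop P).pow_left, fun Q => ?_⟩
  by_cases h : cls _ Q ∈ D.support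
  · rw [← Finset.mul_prod_erase _ _ h, ι_mul, ι_pow, map_mul, map_pow]
    have h1 : aeval Q.a (nP (cls (fr_per M n) Q)) = 0 := by
      rw [← eval_map_algebraMap, nP_map, eval_prod]
      exact Finset.prod_eq_zero (mem_orb.2 rfl) (by simp)
    refine (((ge_ex_root h1).pow _).mul (ge_ex_ι _ _)).mono ?_
    simp
  · rw [Finsupp.notMem_support_iff.1 h]
    exact ge_ex_ι _ _

end Pool.Agent.Lib.MP_a3f657_nt.Two.Lk
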