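import Pool.Agent.Lib.MP_a3f657_nt.C2RhSeries

/-!
Laurent expansions of rational functions at finite points and at infinity.
-/

set_option linter.unusedSectionVars false

namespace Pool.Agent.Lib.MP_a3f657_nt.Two.Lk

open Polynomial HahnSeries

section Laurent

variable {K : Type} [Field K]

/-- The series has order at least `n`. -/
def Ge (y : LaurentSeries K) (n : ℤ) : Prop := ∀ i < n, y.coeff i = 0

lemma Ge.zero (n : ℤ) : Ge (0 : LaurentSeries K) n := fun _ _ => rfl

lemma Ge.mono {y : LaurentSeries K} {n m : ℤ} (h : Ge y n) (hm : m ≤ n) : Ge y m :=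
  fun i hi => h i (hi.trans_le hm)

lemma Ge.add {y z : LaurentSeries K} {n : ℤ} (h : Ge y n) (h' : Ge z n) : Ge (y + z) n :=
  fun i hi => by rw [HahnSeries.coeff_add, h i hi, h' i hi, add_zero]

lemma Ge.neg {y : LaurentSeries K} {n : ℤ} (h : Ge y n) : Ge (-y) n :=
  fun i hi => by rw [HahnSeries.coeff_neg, h i hi, neg_zero]

lemma Ge.sub {y z : LaurentSeries K} {n : ℤ} (h : Ge y n) (h' : Ge z n) : Ge (y - z) n := by
  rw [sub_eq_add_neg]; exact h.add h'.neg

lemma ge_iff {y : LaurentSeries K} (hy : y ≠ 0) {n : ℤ} : Ge y n ↔ n ≤ y.order :=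
  (le_order_iff_forall hy).symm

lemma ge_order (y : LaurentSeries K) : Ge y y.order := fun _ hi => coeff_eq_zero_of_lt_order hi

lemma Ge.mul {y z : LaurentSeries K} {n m : ℤ} (h : Ge y n) (h' : Ge z m) : Ge (y * z) (n + m) := by
  by_cases hy : y = 0
  · rw [hy, zero_mul]; exact Ge.zero _
  by_cases hz : z = 0
  · rw [hz, mul_zero]; exact Ge.zero _
  rw [ge_iff (mul_ne_zero hy hz), order_mul hy hz]
  exact add_le_add ((ge_iff hy).1 h) ((ge_iff hz).1 h')

lemma Ge.succ {y : LaurentSeries K} {n : ℤ} (h : Ge y n) (h0 : y.coeff n = 0) : Ge y (n + 1) :=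
  fun i hi => by
    rcases (Int.lt_add_one_iff.1 hi).eq_or_lt with rfl | h1
    exacts [h0, h i h1]

lemma Ge.order_eq {y : LaurentSeries K} {n : ℤ} (h : Ge y n) (h0 : y.coeff n ≠ 0) :
    y.order = n :=
  le_antisymm (order_le_of_coeff_ne_zero h0) ((ge_iff (by rintro rfl; exact h0 rfl)).1 h)

lemma Ge.coeff_mul {y z : LaurentSeries K} {n m : ℤ} (h : Ge y n) (h' : Ge z m) :
    (y * z).coeff (n + m) = y.coeff n * z.coeff m := by
  by_cases hy : y.coeff n = 0
  · rw [hy, zero_mul]
    exact ((h.succ hy).mul h') _ (by omega)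
  by_cases hz : z.coeff m = 0
  · rw [hz, mul_zero]
    exact (h.mul (h'.succ hz)) _ (by omega)
  have := coeff_mul_order_add_order y z
  rwa [leadingCoeff_eq, leadingCoeff_eq, h.order_eq hy, h'.order_eq hz] at this

lemma ge_single (n : ℤ) (c : K) : Ge (single n c : LaurentSeries K) n := fun i hi => by
  rw [HahnSeries.coeff_single_of_ne hi.ne]

lemma ge_C (c : K) : Ge (HahnSeries.C c : LaurentSeries K) 0 := ge_single 0 c

lemma ge_one : Ge (1 : LaurentSeries K) 0 := ge_C 1

lemma Ge.mul0 {y z : LaurentSeries K} {n : ℤ} (h : Ge y 0) (h' : Ge z n) : Ge (y * z) n := by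
  simpa using h.mul h'

lemma Ge.pow {y : LaurentSeries K} {n : ℤ} (h : Ge y n) (e : ℕ) : Ge (y ^ e) (e * n) := by
  induction e with
  | zero => simpa using ge_one
  | succ e ih => rw [pow_succ]; convert ih.mul h using 1; push_cast; ring

lemma order_inv {y : LaurentSeries K} (hy : y ≠ 0) : y⁻¹.order = -y.order := by
  have := order_mul hy (inv_ne_zero hy)
  rw [mul_inv_cancel₀ hy, order_one] at this
  omega

lemma Ge.inv {y : LaurentSeries K} {n : ℤ} (h : Ge y n) (h0 : y.coeff n ≠ 0) : Ge y⁻¹ (-n) := by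
  have hy : y ≠ 0 := by rintro rfl; exact h0 rfl
  rw [ge_iff (inv_ne_zero hy), order_inv hy, h.order_eq h0]

lemma eq_zero_of_ge {y : LaurentSeries K} (h : ∀ n, Ge y n) : y = 0 := by
  ext i
  exact h (i + 1) i (by omega)

lemma order_add_left {y z : LaurentSeries K} (hy : y ≠ 0) (hz : Ge z (y.order + 1)) :
    (y + z).order = y.order := by
  refine ((ge_order y).add (hz.mono (by omega))).order_eq ?_
  rw [HahnSeries.coeff_add, hz _ (by omega), add_zero]
  exact coeff_order_eq_zero.not.2 hy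

/-- The logarithmic derivative has a simple pole whose residue is the order. -/
lemma ge_dlog [CharP K 2] (G H : LaurentSeries K) (h : G ^ 2 + single 1 1 * H ^ 2 ≠ 0) :
    Ge (H ^ 2 / (G ^ 2 + single 1 1 * H ^ 2) -
      single (-1) (((G ^ 2 + single 1 1 * H ^ 2).order : ℤ) : K)) 0 := by
  have hs : (single 1 1 : LaurentSeries K) ≠ 0 := single_ne_zero one_ne_zero
  have h2 : ((2 : ℤ) : K) = 0 := by exact_mod_cast CharTwo.two_eq_zero (R := K)
  set y := G ^ 2 + single 1 1 * H ^ 2 with hy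
  have oG : (G ^ 2).order = 2 * G.order := by rw [order_pow]; simp
  have oH : H ≠ 0 → (single 1 1 * H ^ 2 : LaurentSeries K).order = 2 * H.order + 1 := by
    intro hH
    rw [order_mul hs (pow_ne_zero 2 hH), order_pow, order_single one_ne_zero]
    simp [add_comm]
  have gi : Ge y⁻¹ (-y.order) := by rw [← order_inv h]; exact ge_order _
  by_cases hc : H ≠ 0 ∧ (G = 0 ∨ H.order < G.order)
  · have e1 : y.order = 2 * H.order + 1 := by
      rw [hy, add_comm, order_add_left (mul_ne_zero hs (pow_ne_zero 2 hc.1)), oH hc.1]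
      rcases hc.2 with h0 | h0
      · rw [h0, zero_pow two_ne_zero]; exact Ge.zero _
      · rw [oH hc.1]
        exact (ge_order _).mono (by rw [oG]; omega)
    have e2 : H ^ 2 / y - single (-1) ((y.order : ℤ) : K) = -(G ^ 2 * single (-1) 1 * y⁻¹) := by
      have e3 : ((y.order : ℤ) : K) = 1 := by rw [e1]; push_cast; exact_mod_cast (by
        rw [show (2 : K) = 0 from CharTwo.two_eq_zero]; simp)
      have e4 : (single (-1) 1 : LaurentSeries K) * single 1 1 = 1 := by
        rw [single_mul_single]; simp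
      rw [e3]
      field_simp
      rw [hy]
      linear_combination (-H ^ 2) * e4
    rw [e2]
    rcases hc.2 with h0 | h0
    · rw [h0]; simpa using Ge.zero _
    · refine Ge.neg ((((ge_order _).mul (ge_single _ _)).mul gi).mono ?_)
      rw [oG, e1]; omega
  · by_cases hH : H = 0
    · have e1 : y.order = 2 * G.order := by rw [hy, hH]; simp
      rw [e1, hH]
      push_cast
      rw [show (2 : K) = 0 from CharTwo.two_eq_zero]
      simpa using Ge.zero _
    have hc' : G ≠ 0 ∧ G.order ≤ H.order := by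
      by_contra h1
      refine hc ⟨hH, ?_⟩
      by_cases hG : G = 0
      · exact Or.inl hG
      · exact Or.inr (by by_contra h3; exact h1 ⟨hG, not_lt.1 h3⟩)
    have e1 : y.order = 2 * G.order := by
      rw [hy, order_add_left (pow_ne_zero 2 hc'.1), oG]
      exact (ge_order _).mono (by rw [oG, oH hH]; omega)
    have e3 : ((y.order : ℤ) : K) = 0 := by
      rw [e1]; push_cast; rw [show (2 : K) = 0 from CharTwo.two_eq_zero, zero_mul]
    rw [e3, map_zero, sub_zero, div_eq_mul_inv]
    refine (((ge_order H).pow 2).mul gi).mono ?_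
    rw [e1]; push_cast; omega

lemma exists_root [CharP K 2] {c : LaurentSeries K} (hc : Ge c 0) {θ₀ : K}
    (h : θ₀ ^ 2 + θ₀ = c.coeff 0) :
    ∃ θ : LaurentSeries K, θ ^ 2 + θ = c ∧ Ge θ 0 ∧ θ.coeff 0 = θ₀ := by
  obtain ⟨θ, h1, h2⟩ := Rh.exists_as (1 : PowerSeries K) (PowerSeries.mk fun n => c.coeff n) θ₀
    (by simp) (by simpa using h)
  have e : ofPowerSeries ℤ K (PowerSeries.mk fun n => c.coeff n) = c := by
    ext i
    rw [PowerSeries.coeff_coe]
    split_ifs with hi
    · exact (hc i hi).symm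
    · rw [PowerSeries.coeff_mk, Int.natCast_natAbs, abs_of_nonneg (not_lt.1 hi)]
  refine ⟨ofPowerSeries ℤ K θ, ?_, fun i hi => ?_, ?_⟩
  · rw [← e, ← h1]; simp
  · rw [PowerSeries.coeff_coe, if_pos hi]
  · rw [PowerSeries.coeff_coe]; simpa using h2

lemma root_unique [CharP K 2] {θ θ' : LaurentSeries K} (h : θ ^ 2 + θ = θ' ^ 2 + θ')
    (h0 : θ.coeff 0 = θ'.coeff 0) : θ = θ' := by
  have : CharP (LaurentSeries K) 2 :=
    charP_of_injective_ringHom (HahnSeries.C_injective (Γ := ℤ) (R := K)) 2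
  have h1 : (θ - θ') * (θ - θ' + 1) = 0 := by grind
  rcases mul_eq_zero.1 h1 with h2 | h2
  · exact sub_eq_zero.1 h2
  · have := congrArg (fun y : LaurentSeries K => y.coeff 0) h2
    simp [h0] at this

/-- `z` is the derivative of `y`. -/
def Dv (y z : LaurentSeries K) : Prop := ∃ G H, y = G ^ 2 + single 1 1 * H ^ 2 ∧ z = H ^ 2

instance [CharP K 2] : CharP (LaurentSeries K) 2 :=
  charP_of_injective_ringHom (HahnSeries.C_injective (Γ := ℤ) (R := K)) 2

lemma Dv.add [CharP K 2] {y z y' z' : LaurentSeries K} (h : Dv y z) (h' : Dv y' z') :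
    Dv (y + y') (z + z') := by
  obtain ⟨G, H, rfl, rfl⟩ := h
  obtain ⟨G', H', rfl, rfl⟩ := h'
  exact ⟨G + G', H + H', by grind, by grind⟩

lemma Dv.mul [CharP K 2] {y z y' z' : LaurentSeries K} (h : Dv y z) (h' : Dv y' z') :
    Dv (y * y') (y * z' + y' * z) := by
  obtain ⟨G, H, rfl, rfl⟩ := h
  obtain ⟨G', H', rfl, rfl⟩ := h'
  exact ⟨G * G' + single 1 1 * (H * H'), G * H' + H * G', by grind, by grind⟩

lemma Dv.root [CharP K 2] {y z θ : LaurentSeries K} (h : Dv y z) (e : θ ^ 2 + θ = y) : Dv θ z := by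
  obtain ⟨G, H, h1, rfl⟩ := h
  exact ⟨G + θ, H, by grind, rfl⟩

lemma Dv.dlog [CharP K 2] {y z : LaurentSeries K} (h : Dv y z) (hy : y ≠ 0) :
    Ge (z / y - single (-1) ((y.order : ℤ) : K)) 0 := by
  obtain ⟨G, H, rfl, rfl⟩ := h
  exact ge_dlog G H hy

lemma Dv.zero [CharP K 2] {z : LaurentSeries K} (h : Dv 0 z) : z = 0 := by
  obtain ⟨G, H, h1, rfl⟩ := h
  by_contra h2
  have hH : H ≠ 0 := by rintro rfl; simp at h2
  have h3 : G ^ 2 = single 1 1 * H ^ 2 := by grind
  have h4 := congrArg order h3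
  rw [order_mul (single_ne_zero one_ne_zero) h2, order_pow, order_pow,
    order_single one_ne_zero] at h4
  simp only [nsmul_eq_mul, Nat.cast_ofNat] at h4
  omega

lemma Dv.ge [CharP K 2] {y z : LaurentSeries K} {n : ℤ} (h : Dv y z) (hy : Ge y n) :
    Ge z (n - 1) := by
  by_cases h0 : y = 0
  · rw [h0] at h; rw [h.zero]; exact Ge.zero _
  have e : z = (z / y - single (-1) ((y.order : ℤ) : K)) * y +
      single (-1) ((y.order : ℤ) : K) * y := by field_simp; ring
  rw [e]
  exact (((h.dlog h0).mul hy).mono (by omega)).add (((ge_single _ _).mul hy).mono (by omega))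

lemma Dv.ge0 [CharP K 2] {y z : LaurentSeries K} (h : Dv y z) (hy : Ge y 0) : Ge z 0 := by
  by_cases h1 : y.coeff 0 = 0
  · simpa using h.ge (hy.succ h1)
  have h0 : y ≠ 0 := by rintro rfl; exact h1 rfl
  have h2 := (h.dlog h0).mul hy
  rw [hy.order_eq h1] at h2
  simpa [h0] using h2

variable {K' : Type} [Field K']

/-- Coefficientwise application of a field homomorphism. -/
noncomputable def lmap (σ : K →+* K') : LaurentSeries K →+* LaurentSeries K' where
  toFun y := y.map σ
  map_one' := HahnSeries.map_one σ.toMonoidWithZeroHom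
  map_mul' _ _ := HahnSeries.map_mul σ.toNonUnitalRingHom
  map_zero' := by ext; simp
  map_add' _ _ := HahnSeries.map_add σ.toAddMonoidHom

lemma coeff_lmap (σ : K →+* K') (y : LaurentSeries K) (i : ℤ) :
    (lmap σ y).coeff i = σ (y.coeff i) := rfl

lemma lmap_single (σ : K →+* K') (n : ℤ) (c : K) : lmap σ (single n c) = single n (σ c) :=
  HahnSeries.map_single σ.toZeroHom

lemma ge_lmap (σ : K →+* K') {y : LaurentSeries K} {n : ℤ} : Ge (lmap σ y) n ↔ Ge y n := by
  simp only [Ge, coeff_lmap, _root_.map_eq_zero]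

lemma order_lmap (σ : K →+* K') (y : LaurentSeries K) : (lmap σ y).order = y.order := by
  by_cases hy : y = 0
  · rw [hy, map_zero, order_zero, order_zero]
  refine ((ge_lmap σ).2 (ge_order y)).order_eq ?_
  rw [coeff_lmap, _root_.map_ne_zero]
  exact coeff_order_eq_zero.not.2 hy

/-- Expansion of a polynomial at a point. -/
noncomputable def EP (a : K) : K[X] →+* LaurentSeries K :=
  eval₂RingHom HahnSeries.C (HahnSeries.C a + single 1 1)

lemma EP_C (a c : K) : EP a (Polynomial.C c) = HahnSeries.C c := by simp [EP]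

lemma EP_X (a : K) : EP a X = HahnSeries.C a + single 1 1 := by simp [EP]

lemma EP_spec (a : K) (g : K[X]) : Ge (EP a g) 0 ∧ (EP a g).coeff 0 = g.eval a := by
  have hX : Ge (EP a X) 0 ∧ (EP a X).coeff 0 = a := by
    rw [EP_X]
    exact ⟨(ge_C a).add ((ge_single 1 1).mono zero_le_one), by simp⟩
  induction g using Polynomial.induction_on with
  | C c => rw [EP_C]; exact ⟨ge_C c, by simp⟩
  | add p q hp hq => rw [map_add]; exact ⟨hp.1.add hq.1, by simp [hp.2, hq.2]⟩
  | monomial n c ih =>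
    rw [pow_succ, ← mul_assoc, map_mul]
    refine ⟨ih.1.mul0 hX.1, ?_⟩
    have := ih.1.coeff_mul hX.1
    rw [add_zero] at this
    rw [this, ih.2, hX.2]
    simp [mul_assoc]

lemma EP_order (a : K) {g : K[X]} (hg : g ≠ 0) :
    EP a g ≠ 0 ∧ (EP a g).order = g.rootMultiplicity a := by
  obtain ⟨g₁, h1, h2⟩ := exists_eq_pow_rootMultiplicity_mul_and_not_dvd g hg a
  have h3 : (EP a g₁).coeff 0 ≠ 0 := by
    rw [(EP_spec a g₁).2]
    exact fun h => h2 (dvd_iff_isRoot.2 h)
  have h4 : EP a g₁ ≠ 0 := by intro h; rw [h] at h3; exact h3 rfl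
  have h5 : EP a (X - Polynomial.C a) = single 1 1 := by rw [map_sub, EP_X, EP_C]; simp
  have hs : (single 1 1 : LaurentSeries K) ≠ 0 := single_ne_zero one_ne_zero
  generalize g.rootMultiplicity a = r at h1
  rw [h1, map_mul, map_pow, h5]
  refine ⟨mul_ne_zero (pow_ne_zero _ hs) h4, ?_⟩
  rw [order_mul (pow_ne_zero _ hs) h4, order_pow, order_single one_ne_zero,
    (EP_spec a g₁).1.order_eq h3]
  simp

/-- Expansion of a polynomial at infinity. -/
noncomputable def EI : K[X] →+* LaurentSeries K :=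
  eval₂RingHom HahnSeries.C (single (-1) 1)

lemma EI_monomial (n : ℕ) (c : K) : EI (monomial n c) = single (-(n : ℤ)) c := by
  simp [EI, HahnSeries.C_apply, single_pow, single_mul_single]

lemma EI_coeff (g : K[X]) (n : ℕ) : (EI g).coeff (-(n : ℤ)) = g.coeff n := by
  induction g using Polynomial.induction_on' with
  | add p q hp hq => simp [hp, hq]
  | monomial e c =>
    rw [EI_monomial, coeff_monomial, HahnSeries.coeff_single]
    simp [eq_comm]

lemma EI_coeff_pos (g : K[X]) {i : ℤ} (hi : 0 < i) : (EI g).coeff i = 0 := by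
  induction g using Polynomial.induction_on' with
  | add p q hp hq => simp [hp, hq]
  | monomial e c => rw [EI_monomial, HahnSeries.coeff_single_of_ne (by omega)]

lemma ge_EI_iff {g : K[X]} {n : ℕ} : Ge (EI g) (-(n : ℤ) + 1) ↔ g.degree < n := by
  rw [degree_lt_iff_coeff_zero]
  refine ⟨fun h m hm => ?_, fun h i hi => ?_⟩
  · rw [← EI_coeff]; exact h _ (by omega)
  · obtain ⟨m, rfl⟩ : ∃ m : ℕ, i = -(m : ℤ) := ⟨(-i).toNat, by omega⟩
    rw [EI_coeff]; exact h m (by omega)

lemma ge_EI (g : K[X]) : Ge (EI g) (-(g.natDegree : ℤ)) := by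
  have := (ge_EI_iff (g := g) (n := g.natDegree + 1)).2
    (degree_le_natDegree.trans_lt (by exact_mod_cast Nat.lt_succ_self _))
  exact this.mono (by push_cast; omega)

lemma EI_order {g : K[X]} (hg : g ≠ 0) : EI g ≠ 0 ∧ (EI g).order = -(g.natDegree : ℤ) := by
  have h : (EI g).coeff (-(g.natDegree : ℤ)) ≠ 0 := by
    rw [EI_coeff]; exact leadingCoeff_ne_zero.2 hg
  exact ⟨fun h0 => h (by rw [h0]; rfl), (ge_EI g).order_eq h⟩

end Laurent

end Pool.Agent.Lib.MP_a3f657_nt.Two.Lk
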