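import Pool.Agent.Lib.MP_a3f657_nt.C2Pl

/-!
Residues on the projective line over a finite field of characteristic two.
-/

set_option linter.unusedSectionVars false

namespace Pool.Agent.Lib.MP_a3f657_nt.Two

open WithZero Polynomial IsDedekindDomain

open scoped Classical

variable {k : Type} [Field k] [Finite k] [CharP k 2]

lemma exists_sqrt (c : k) : ∃ r : k, r ^ 2 = c :=
  have : ExpChar k 2 := ExpChar.prime Nat.prime_two
  surjective_frobenius k 2 c

lemma exists_parts (f : k[X]) : ∃ g h : k[X], f = g ^ 2 + X * h ^ 2 := by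
  induction f using Polynomial.induction_on with
  | C a =>
    obtain ⟨r, rfl⟩ := exists_sqrt a
    exact ⟨C r, 0, by simp⟩
  | add p q hp hq =>
    obtain ⟨g, h, rfl⟩ := hp
    obtain ⟨g', h', rfl⟩ := hq
    exact ⟨g + g', h + h', by grind⟩
  | monomial n a ih =>
    obtain ⟨g, h, e⟩ := ih
    exact ⟨X * h, g, by rw [pow_succ, ← mul_assoc, e]; ring⟩

variable (k) in
/-- The 2-basis `t` of `k(t)`. -/
noncomputable def PX : PB (RatFunc k) where
  b := RatFunc.X
  ns r hr := by
    have := ord_X (k := k)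
    rw [← hr, ord_sq] at this
    omega
  ex x := by
    obtain ⟨g, h, e⟩ := exists_parts (x.num * x.denom)
    have h0 := ι_ne x.denom_ne_zero
    have e2 : x * ι x.denom = ι x.num := (div_eq_iff h0).1 x.num_div_denom ▸ rfl
    have e3 := congrArg ι e
    simp only [ι, map_add, map_mul, map_pow, RatFunc.algebraMap_X] at e2 e3 h0
    refine ⟨ι g / ι x.denom, ι h / ι x.denom, ?_⟩
    simp only [ι]
    field_simp
    rw [← e3, ← e2]
    ring

lemma PX_parts (g h : k[X]) : (PX k).c0 (ι (g ^ 2 + X * h ^ 2)) = ι g ∧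
    (PX k).c1 (ι (g ^ 2 + X * h ^ 2)) = ι h := (PX k).uniq (by simp [PX])

lemma D_ι (f : k[X]) : (PX k).D (ι f) = ι (derivative f) := by
  obtain ⟨g, h, rfl⟩ := exists_parts f
  rw [PB.D, (PX_parts g h).2, ← map_pow]
  congr 1
  simp only [derivative_add, derivative_mul, derivative_X, derivative_sq]
  have : (C 2 : k[X]) = 0 := by rw [CharTwo.two_eq_zero, map_zero]
  simp [this]

variable (k) in
lemma exists_tr : ∃ f : k →+ ZMod 2, (∀ c, f (c ^ 2) = f c) ∧ ∃ c, f c ≠ 0 := by
  have h : wpH.range ≠ (⊤ : AddSubgroup k) := fun e => by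
    have h1 : Function.Injective (wpH (K := k)) :=
      Finite.injective_iff_surjective.2 (AddMonoidHom.range_eq_top.1 e)
    exact one_ne_zero (h1 (a₁ := 1) (a₂ := 0) (by simp))
  obtain ⟨c, -, hc⟩ := SetLike.exists_of_lt (lt_top_iff_ne_top.2 h)
  obtain ⟨f, h1, h2⟩ := exists_sep_hom two_K _ hc
  refine ⟨f, fun c => ?_, c, h1⟩
  have := h2 _ ⟨c, rfl⟩
  rw [wpH_apply, wp, map_add] at this
  grind

variable (k) in
/-- The absolute trace. -/
noncomputable def tr : k →+ ZMod 2 := (exists_tr k).choose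

lemma tr_sq (c : k) : tr k (c ^ 2) = tr k c := (exists_tr k).choose_spec.1 c

lemma tr_ne : ∃ c, tr k c ≠ 0 := (exists_tr k).choose_spec.2

lemma pol_sq (x : RatFunc k) : pol (x ^ 2) = pol x ^ 2 := pol_eq (by
  rw [show x ^ 2 - ι (pol x ^ 2) = (x - ι (pol x)) ^ 2 by simp only [ι, map_pow]; grind]
  exact Fil.sq (pol_spec x) (by omega))

lemma resInf_parts (g h : RatFunc k) : resInf (g ^ 2 + RatFunc.X * h ^ 2) = resInf h ^ 2 := by
  have e1 : resInf (g ^ 2) = 0 := by
    rw [show g ^ 2 = ι (pol g ^ 2) + (g - ι (pol g)) ^ 2 by simp only [ι, map_pow]; grind, map_add,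
      resInf_ι, resInf_two (Fil.sq (pol_spec g) (by omega)), add_zero]
  rw [map_add, e1, zero_add, resInf_apply, resInf_apply,
    show RatFunc.X * (RatFunc.X * h ^ 2) = (RatFunc.X * h) ^ 2 by ring, pol_sq, sq, mul_coeff_zero,
    sq]

lemma pp_parts (v : HeightOneSpectrum k[X]) (g h : RatFunc k) :
    pp v (g ^ 2 + RatFunc.X * h ^ 2) = pp v g ^ 2 + RatFunc.X * pp v h ^ 2 := by
  have hX : ∀ u, RatFunc.X ∈ Fil (val (k := k) (some u)) 0 := fun u => by simpa using ι_int u X
  refine pp_eq (fun u hu => add_mem (Fil.sq (pp_int hu g) le_rfl)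
    (Fil.mul (hX u) (Fil.sq (pp_int hu h) le_rfl) le_rfl))
    (add_mem (Fil.sq (pp_none v g) (by omega))
      (Fil.mul (mem_Fil_ord _) (Fil.sq (pp_none v h) le_rfl) (by rw [ord_X]; omega))) ?_
  rw [show g ^ 2 + RatFunc.X * h ^ 2 - (pp v g ^ 2 + RatFunc.X * pp v h ^ 2) =
    (g - pp v g) ^ 2 + RatFunc.X * (h - pp v h) ^ 2 by grind]
  exact add_mem (Fil.sq (pp_spec v g) le_rfl) (Fil.mul (hX v) (Fil.sq (pp_spec v h) le_rfl) le_rfl)

/-- The absolute trace of the residue of the form `x dt`. -/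
noncomputable def res : Pl k → RatFunc k →+ ZMod 2
  | none => (tr k).comp resInf
  | some v => ((tr k).comp resInf).comp ⟨⟨pp v, pp_of_int (zero_mem _)⟩, pp_add v⟩

lemma res_none (x : RatFunc k) : res none x = tr k (resInf x) := rfl

lemma res_some (v : HeightOneSpectrum k[X]) (x : RatFunc k) :
    res (some v) x = tr k (resInf (pp v x)) := rfl

lemma res_c1 (v : Pl k) (x : RatFunc k) : res v ((PX k).c1 x) = res v x := by
  conv_rhs => rw [(PX k).spec x]
  cases v
  · rw [res_none, res_none]; exact (tr_sq _).symm.trans (congrArg _ (resInf_parts _ _).symm)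
  · rw [res_some, res_some]
    exact (tr_sq _).symm.trans (congrArg _ ((resInf_parts _ _).symm.trans
      (congrArg _ (pp_parts _ _ _).symm)))

lemma res_some_int {v : HeightOneSpectrum k[X]} {x : RatFunc k} (h : x ∈ Fil (val (some v)) 0) :
    res (some v) x = 0 := by rw [res_some, pp_of_int h, map_zero, map_zero]

lemma res_none_two {x : RatFunc k} (h : x ∈ Fil (val none) 2) : res none x = 0 := by
  rw [res_none, resInf_two h, map_zero]

/-- The residue theorem. -/
lemma sum_res (S : Finset (Pl k)) {x : RatFunc k} (h : ∀ v ∉ S, res v x = 0) :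
    ∑ v ∈ S, res v x = 0 := by
  let T := ((finite_poles x).preimage (Option.some_injective _).injOn).toFinset ∪ S.eraseNone
  have h1 : ∑ v ∈ T.insertNone, res v x = 0 := by
    rw [Finset.sum_insertNone, res_none, resInf_eq_sum T (x := x) (fun v hv => by
      by_contra h2
      exact hv (Finset.mem_union_left _ (by simpa using h2))), map_sum]
    exact z2_add_self _
  rw [← h1]
  refine Finset.sum_subset (fun v hv => ?_) fun v _ hv => h v hv
  cases v <;> simp [T, hv]

/-- The uniformizer of a place. -/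
noncomputable def unif : Pl k → RatFunc k
  | none => RatFunc.X⁻¹
  | some v => ι (gen v)

lemma ord_unif (v : Pl k) : ord (val v) (unif v) = 1 := by
  cases v
  · rw [unif, ord_inv, ord_X]; rfl
  · exact ord_gen _

lemma unif_ns (v : Pl k) (r : RatFunc k) : r ^ 2 ≠ unif v := fun hr => by
  have := ord_unif v
  rw [← hr, ord_sq] at this
  omega

lemma not_gen_dvd_derivative (v : HeightOneSpectrum k[X]) : ¬ gen v ∣ derivative (gen v) :=
  fun h => (gen_irr v).not_isUnit
    ((PerfectField.separable_of_irreducible (gen_irr v)).isUnit_of_dvd' dvd_rfl h)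

lemma D_unif_none : (PX k).D (unif none) = RatFunc.X⁻¹ ^ 2 := by
  have := RatFunc.X_ne_zero (K := k)
  rw [unif, show (RatFunc.X⁻¹ : RatFunc k) = RatFunc.X⁻¹ ^ 2 * (PX k).b by
    simp only [PX]; field_simp, PB.D_sq_mul, PB.D_b, mul_one]
  simp only [PX]
  field_simp

/-- The order of `dπ / dt`. -/
def eD : Pl k → ℤ
  | none => 2
  | some _ => 0

lemma D_unif_ne (v : Pl k) : (PX k).D (unif v) ≠ 0 := (PX k).D_ne_zero (unif_ns v)

lemma ord_D_unif (v : Pl k) : ord (val v) ((PX k).D (unif v)) = eD v := by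
  cases v
  · rw [D_unif_none, ord_sq, ord_inv, ord_X]; rfl
  · rw [unif, D_ι, ord_ι_unit (not_gen_dvd_derivative _)]; rfl

lemma res_int {v : Pl k} {x : RatFunc k} (h : x ∈ Fil (val v) (eD v)) : res v x = 0 := by
  cases v
  exacts [res_none_two h, res_some_int h]

lemma res_ne (v : Pl k) : ∃ x ∈ Fil (val v) (eD v - 1), res v x ≠ 0 := by
  obtain ⟨c, hc⟩ := tr_ne (k := k)
  have key : ∀ p : k[X], p.Monic → 0 < p.natDegree →
      ι (C c * X ^ (p.natDegree - 1)) / ι p ∈ Fil (val none) 1 ∧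
      resInf (ι (C c * X ^ (p.natDegree - 1)) / ι p) = c := fun p hp hd => by
    refine ⟨Fil.div (ι_mem_none.2 (natDegree_C_mul_X_pow_le _ _))
      (by rw [ord_none hp.ne_zero]; omega), ?_⟩
    rw [resInf_apply, pol_eq (a := C c), coeff_C_zero]
    have h0 := ι_ne hp.ne_zero
    have e : RatFunc.X * (ι (C c * X ^ (p.natDegree - 1)) / ι p) - ι (C c) =
        ι (C c) * (ι (X ^ p.natDegree - p) / ι p) := by
      obtain ⟨n, hn⟩ : ∃ n, p.natDegree = n + 1 := ⟨p.natDegree - 1, by omega⟩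
      simp only [hn, Nat.add_sub_cancel, ι, map_mul, map_pow, map_sub, RatFunc.algebraMap_X] at h0 ⊢
      field_simp
      ring
    rw [e]
    refine Fil.mul (const_int _ _) (Fil.div (a := 1 - p.natDegree) (c := 1) (ι_mem_none'.2 ?_)
      (by rw [ord_none hp.ne_zero]; omega)) (by omega)
    have := degree_sub_lt_left (p := X ^ p.natDegree) (q := p)
      (by rw [degree_X_pow, degree_eq_natDegree hp.ne_zero]) (pow_ne_zero _ X_ne_zero)
      (by rw [leadingCoeff_X_pow, hp.leadingCoeff])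
    rwa [degree_X_pow] at this
  rcases v with _ | v
  · obtain ⟨h1, h2⟩ := key X monic_X (by simp)
    exact ⟨_, h1, by rwa [res_none, h2]⟩
  · obtain ⟨h1, h2⟩ := key (gen v) (gen_monic v) (gen_deg_pos v)
    refine ⟨ι (C c * X ^ ((gen v).natDegree - 1)) / ι (gen v), Fil.div (ι_int _ _)
      (by rw [ord_gen]; rfl), ?_⟩
    rwa [res_some, pp_eq (fun u hu => div_int _ fun h => hu (gen_dvd_gen h)) h1 (by simp), h2]

lemma exists_rep (v : HeightOneSpectrum k[X]) {x : RatFunc k} (h : x ∈ Fil (val (some v)) 0) :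
    ∃ a : k[X], a.degree < (gen v).degree ∧ x + ι a ∈ Fil (val (some v)) 1 := by
  obtain ⟨a, ha⟩ := exists_approx h 1
  refine ⟨a % gen v, degree_mod_lt _ (gen_ne v), ?_⟩
  have e := congrArg ι (EuclideanDomain.div_add_mod a (gen v))
  rw [show x + ι (a % gen v) = ι a - x + ι (gen v * (a / gen v)) by
    simp only [ι, map_add] at e ⊢; grind]
  exact add_mem ha (ι_mem_one.2 (dvd_mul_right _ _))

lemma exists_rep_none {x : RatFunc k} (h : x ∈ Fil (val none) 0) :
    ∃ c : k, x + ι (C c) ∈ Fil (val none) 1 := by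
  have h1 : ι (pol x) ∈ Fil (val none) (-(0 : ℕ)) := by
    simpa using sub_mem h (Fil.mono (pol_spec x) (b := 0) (by omega))
  refine ⟨(pol x).coeff 0, ?_⟩
  rw [← eq_C_of_natDegree_le_zero (ι_mem_none.1 h1), ← CharTwo.sub_eq_add]
  exact pol_spec x

lemma finite_degree_lt (n : WithBot ℕ) : {a : k[X] | a.degree < n}.Finite := by
  rcases n with _ | n
  · exact Set.finite_empty.subset fun a ha => not_lt_bot (show a.degree < ⊥ from ha)
  · have : Finite (degreeLT k n) := Module.finite_of_finite k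
    exact (Set.toFinite (degreeLT k n : Set k[X])).subset fun a ha => mem_degreeLT.2 ha

lemma relIndex_ne_of_rep {G : Type} [AddCommGroup G] {H₀ H₁ : AddSubgroup G} {s : Set G}
    (hs : s.Finite) (h : ∀ x ∈ H₁, ∃ y ∈ s, x - y ∈ H₀) : H₀.relIndex H₁ ≠ 0 := by
  rw [← QuotientAddGroup.ker_mk' H₀, AddSubgroup.relIndex_ker]
  have : Finite (H₁.map (QuotientAddGroup.mk' H₀)) := by
    refine (hs.image (QuotientAddGroup.mk' H₀)).subset ?_
    rintro _ ⟨x, hx, rfl⟩
    obtain ⟨y, hy, e⟩ := h x hx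
    exact ⟨y, hy, (QuotientAddGroup.eq_iff_sub_mem.2 e).symm⟩
  exact Nat.card_pos.ne'

lemma r_change {K : Type} [Field K] [CharP K 2] {P Q : PB K} {r : K →+ ZMod 2}
    (h : ∀ x, r (P.c1 x) = r x) (x : K) : r (Q.c1 x * P.D Q.b) = r (x * P.D Q.b) := by
  rw [← h (x * _), mul_comm x, PB.D, PB.c1_sq_mul, P.c1_chain Q x]
  congr 1
  ring

/-- The local data at a place of `k(t)`. -/
noncomputable def pl (v : Pl k) : PreLoc (RatFunc k) where
  w := val v
  P := (PX k).change (unif v) (unif_ns v)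
  hπ := ord_unif v
  r := (res v).comp (AddMonoidHom.mulRight ((PX k).D (unif v)))
  r_c1 x := r_change (Q := (PX k).change (unif v) (unif_ns v)) (res_c1 v) x
  r_int x hx := res_int (Fil.mul hx (mem_Fil_ord _) (by rw [ord_D_unif]; omega))
  r_ne := by
    obtain ⟨x, h1, h2⟩ := res_ne v
    exact ⟨x / (PX k).D (unif v), Fil.div h1 (by rw [ord_D_unif]; omega), by
      simpa [D_unif_ne v] using h2⟩
  fin := by
    rcases v with _ | v
    · refine relIndex_ne_of_rep (Set.finite_range fun c : k => ι (C c)) fun x hx => ?_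
      obtain ⟨c, hc⟩ := exists_rep_none hx
      exact ⟨_, ⟨c, rfl⟩, by rwa [CharTwo.sub_eq_add]⟩
    · refine relIndex_ne_of_rep ((finite_degree_lt (gen v).degree).image ι) fun x hx => ?_
      obtain ⟨a, h1, h2⟩ := exists_rep v hx
      exact ⟨_, ⟨a, h1, rfl⟩, by rwa [CharTwo.sub_eq_add]⟩

@[simp] lemma pl_w (v : Pl k) : (pl v).w = val v := rfl

lemma pl_b (v : Pl k) : (pl v).P.b = unif v := rfl

lemma pl_r (v : Pl k) (x : RatFunc k) : (pl v).r x = res v (x * (PX k).D (unif v)) := rfl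

lemma D_eq (v : Pl k) (x : RatFunc k) : (PX k).D x = (pl v).P.D x * (PX k).D (unif v) :=
  (PX k).D_chain (pl v).P x

lemma res_mul_D (v : Pl k) (x y : RatFunc k) :
    res v (x * (PX k).D y) = (pl v).r (x * (pl v).P.D y) := by rw [pl_r, D_eq v y, mul_assoc]

lemma res_mul_dlog (v : Pl k) (x y : RatFunc k) :
    res v (x * ((PX k).D y / y)) = (pl v).r (x * ((pl v).P.D y / y)) := by
  rw [pl_r, D_eq v y]; congr 1; ring

lemma res_dlog (v : Pl k) {β x : RatFunc k} (hβ : β ∈ Fil (val v) 0) (hx : x ≠ 0) :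
    res v (β * ((PX k).D x / x)) = (ord (val v) x : ZMod 2) * (pl v).tau β := by
  rw [res_mul_dlog, (pl v).r_dlog hβ hx, pl_w]

lemma tau_eq_zero_iff {v : HeightOneSpectrum k[X]} {M : k[X]} (hM : ¬ gen v ∣ M) (n : k[X]) :
    (pl (some v)).tau (ι n / ι M) = 0 ↔ ∃ z : k[X], gen v ∣ M * (z ^ 2 + z) + n := by
  have h0 : ι M ≠ 0 := ι_ne fun e => hM (by simp [e])
  have key : ∀ z : k[X], gen v ∣ M * (z ^ 2 + z) + n ↔
      ι n / ι M + wp (ι z) ∈ Fil (val (some v)) 1 := fun z => by
    have e : ι (M * (z ^ 2 + z) + n) = (ι n / ι M + wp (ι z)) * ι M := by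
      simp only [ι, wp, map_add, map_mul, map_pow] at h0 ⊢
      field_simp
      ring
    rw [← ι_mem_one, e]
    exact ⟨fun h => Fil.of_mul h h0 (by rw [ord_ι_unit hM]; omega),
      fun h => Fil.mul h (ι_int _ _) (by omega)⟩
  rw [(pl (some v)).tau_eq_zero (div_int n hM), PreLoc.mem_PW]
  refine ⟨fun ⟨z, hz⟩ => ?_, fun ⟨z, hz⟩ => ⟨_, (key z).1 hz⟩⟩
  have h1 : wp z ∈ Fil (val (some v)) 0 := by
    simpa [← add_assoc, two_K] using add_mem (div_int n hM) (Fil.mono hz (b := 0) (by omega))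
  obtain ⟨a, -, ha⟩ := exists_rep v (Fil.of_wp h1 (by omega) le_rfl)
  refine ⟨a, (key a).2 ?_⟩
  rw [show ι n / ι M + wp (ι a) = ι n / ι M + wp z + wp (z + ι a) by rw [wp_add]; grind]
  exact add_mem hz (Fil.wp ha le_rfl (by omega))

end Pool.Agent.Lib.MP_a3f657_nt.Two
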