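import Pool.Agent.Lib.MP_a3f657_nt.C2LkLaur
import Pool.Agent.Lib.MP_a3f657_nt.C2Res

/-!
Expansions of rational functions, and the residue theorem for simple poles.
-/

set_option linter.unusedSectionVars false

namespace Pool.Agent.Lib.MP_a3f657_nt.Two.Lk

open Polynomial HahnSeries

variable {k K : Type} [Field k] [Field K] [Algebra k K]

lemma ι_zero : ι (0 : k[X]) = 0 := map_zero _

lemma ι_one : ι (1 : k[X]) = 1 := map_one _

lemma ι_add (f g : k[X]) : ι (f + g) = ι f + ι g := map_add _ _ _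

lemma ι_sub (f g : k[X]) : ι (f - g) = ι f - ι g := map_sub _ _ _

lemma ι_mul (f g : k[X]) : ι (f * g) = ι f * ι g := map_mul _ _ _

lemma ι_pow (f : k[X]) (n : ℕ) : ι (f ^ n) = ι f ^ n := map_pow _ _ _

lemma inj_comp {R : Type} [CommRing R] (e : K[X] →+* R) (he : ∀ g, g ≠ 0 → e g ≠ 0) :
    Function.Injective (e.comp (mapRingHom (algebraMap k K))) :=
  (injective_iff_map_eq_zero _).2 fun g hg => by
    by_contra h
    exact he _ (Polynomial.map_ne_zero h) hg

/-- Expansion of a rational function at a point. -/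
noncomputable def ex (a : K) : RatFunc k →+* LaurentSeries K :=
  IsFractionRing.lift (inj_comp (k := k) (EP a) fun _ h => (EP_order a h).1)

/-- Expansion of a rational function at infinity. -/
noncomputable def eI : RatFunc k →+* LaurentSeries k :=
  IsFractionRing.lift (g := EI (K := k)) ((injective_iff_map_eq_zero _).2 fun g hg => by
    by_contra h
    exact (EI_order h).1 hg)

/-- Extension of constants. -/
noncomputable def bc (K : Type) [Field K] [Algebra k K] : RatFunc k →+* RatFunc K :=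
  IsFractionRing.lift (inj_comp (k := k) (algebraMap K[X] (RatFunc K)) fun _ h => ι_ne h)

lemma ex_ι (a : K) (g : k[X]) : ex a (ι g) = EP a (g.map (algebraMap k K)) :=
  IsFractionRing.lift_algebraMap _ g

lemma eI_ι (g : k[X]) : eI (ι g) = EI g := IsFractionRing.lift_algebraMap _ g

lemma bc_ι (g : k[X]) : bc K (ι g) = ι (g.map (algebraMap k K)) :=
  IsFractionRing.lift_algebraMap _ g

lemma hom_ext {R : Type} [CommRing R] {e e' : RatFunc k →+* R}
    (hC : ∀ c, e (ι (Polynomial.C c)) = e' (ι (Polynomial.C c))) (hX : e (ι X) = e' (ι X)) :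
    e = e' :=
  IsLocalization.ringHom_ext (nonZeroDivisors k[X]) (Polynomial.ringHom_ext hC hX)

lemma ex_C (a : K) (c : k) : ex a (ι (Polynomial.C c)) = HahnSeries.C (algebraMap k K c) := by
  rw [ex_ι, Polynomial.map_C, EP_C]

lemma ex_X (a : K) : ex a (ι (X : k[X])) = HahnSeries.C a + single 1 1 := by
  rw [ex_ι, map_X, EP_X]

lemma eI_C (c : k) : eI (ι (Polynomial.C c)) = HahnSeries.C c := by
  rw [eI_ι]; simp [EI]

lemma eI_X : eI (ι (X : k[X])) = single (-1) 1 := by rw [eI_ι]; simp [EI]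

lemma ex_bc (a : K) (x : RatFunc k) : ex a (bc K x) = ex a x := by
  refine RingHom.congr_fun (hom_ext (e := (ex a).comp (bc K)) (fun c => ?_) ?_) x
  · rw [RingHom.comp_apply, bc_ι, Polynomial.map_C, ex_C, ex_C]; rfl
  · rw [RingHom.comp_apply, bc_ι, map_X, ex_X, ex_X]

lemma eI_bc (x : RatFunc k) : eI (bc K x) = lmap (algebraMap k K) (eI x) := by
  refine RingHom.congr_fun (hom_ext (e := eI.comp (bc K))
    (e' := (lmap (algebraMap k K)).comp eI) (fun c => ?_) ?_) x
  · rw [RingHom.comp_apply, RingHom.comp_apply, bc_ι, Polynomial.map_C, eI_C, eI_C, HahnSeries.C_apply,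
      HahnSeries.C_apply, lmap_single]
  · rw [RingHom.comp_apply, RingHom.comp_apply, bc_ι, map_X, eI_X, eI_X, lmap_single,
      (algebraMap k K).map_one]

lemma lmap_ex (σ : K →ₐ[k] K) (a : K) (x : RatFunc k) :
    lmap (σ : K →+* K) (ex a x) = ex (σ a) x := by
  refine RingHom.congr_fun (hom_ext (e := (lmap (σ : K →+* K)).comp (ex a)) (fun c => ?_) ?_) x
  · rw [RingHom.comp_apply, ex_C, ex_C, HahnSeries.C_apply, lmap_single]
    simp
  · rw [RingHom.comp_apply, ex_X, ex_X, map_add, HahnSeries.C_apply, HahnSeries.C_apply,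
      lmap_single, lmap_single]
    simp

lemma ge_ex_ι (a : K) (g : k[X]) : Ge (ex a (ι g)) 0 := by rw [ex_ι]; exact (EP_spec a _).1

lemma coeff_ex_ι (a : K) (g : k[X]) : (ex a (ι g)).coeff 0 = aeval a g := by
  rw [ex_ι, (EP_spec a _).2, eval_map_algebraMap]

lemma ge_ex_root {a : K} {g : k[X]} (h : aeval a g = 0) : Ge (ex a (ι g)) 1 :=
  (ge_ex_ι a g).succ (by rw [coeff_ex_ι, h])

lemma order_ex_unit {a : K} {g : k[X]} (h : aeval a g ≠ 0) : (ex a (ι g)).order = 0 :=
  (ge_ex_ι a g).order_eq (by rwa [coeff_ex_ι])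

lemma ge_ex_inv {a : K} {g : k[X]} (h : aeval a g ≠ 0) : Ge (ex a (ι g)⁻¹) 0 := by
  rw [map_inv₀]
  simpa using (ge_ex_ι a g).inv (by rwa [coeff_ex_ι])

lemma ex_div {a : K} {g : k[X]} (h : aeval a g ≠ 0) (n : k[X]) :
    Ge (ex a (ι n / ι g)) 0 ∧ (ex a (ι n / ι g)).coeff 0 = aeval a n / aeval a g := by
  have h1 : Ge (ex a (ι n / ι g)) 0 := by
    rw [div_eq_mul_inv, map_mul]; exact (ge_ex_ι a n).mul0 (ge_ex_inv h)
  refine ⟨h1, ?_⟩
  have h2 := h1.coeff_mul (ge_ex_ι a g)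
  rw [← map_mul, div_mul_cancel₀ _ (ι_ne (by rintro rfl; simp at h)), add_zero, coeff_ex_ι,
    coeff_ex_ι] at h2
  rw [h2, mul_div_cancel_right₀ _ h]

lemma ge_eI_ι (g : k[X]) : Ge (eI (ι g)) (-(g.natDegree : ℤ)) := by rw [eI_ι]; exact ge_EI g

lemma order_eI_ι {g : k[X]} (h : g ≠ 0) : (eI (ι g)).order = -(g.natDegree : ℤ) := by
  rw [eI_ι]; exact (EI_order h).2

lemma ge_eI_inv {g : k[X]} (h : g ≠ 0) : Ge (eI (ι g)⁻¹) g.natDegree := by
  have := ge_order (eI (ι g))⁻¹
  rwa [order_inv ((_root_.map_ne_zero _).2 (ι_ne h)), order_eI_ι h, neg_neg, ← map_inv₀] at this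

lemma eq_zero_of_eI {g : k[X]} (h : Ge (eI (ι g)) 1) : g = 0 := by
  by_contra h1
  rw [ge_iff ((_root_.map_ne_zero _).2 (ι_ne h1)), order_eI_ι h1] at h
  omega

lemma finite_order (x : RatFunc k) : {a : K | (ex a x).order ≠ 0}.Finite := by
  by_cases hx : x = 0
  · simp [hx]
  have h1 := mul_ne_zero (RatFunc.num_ne_zero hx) x.denom_ne_zero
  refine ((x.num * x.denom).rootSet_finite K).subset fun a ha => ?_
  rw [mem_rootSet_of_ne h1]
  by_contra h2
  rw [map_mul, mul_eq_zero, not_or] at h2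
  refine ha ?_
  rw [← x.num_div_denom]
  exact (ex_div h2.2 _).1.order_eq (by rw [(ex_div h2.2 _).2]; exact div_ne_zero h2.1 h2.2)

variable [IsAlgClosed K]

lemma poly_of_ge {x : RatFunc k} (h : ∀ a : K, Ge (ex a x) 0) : ∃ g, ι g = x := by
  have h1 : x.denom.degree = 0 := by
    by_contra h1
    obtain ⟨a, ha⟩ := IsAlgClosed.exists_aeval_eq_zero K _ h1
    have h2 := (h a).mul0 (ge_ex_root ha) 0 zero_lt_one
    rw [← map_mul, show x * ι x.denom = ι x.num from
      ((div_eq_iff (ι_ne x.denom_ne_zero)).1 x.num_div_denom).symm, coeff_ex_ι] at h2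
    exact (aeval_ne_zero_of_isCoprime x.isCoprime_num_denom a).elim (· h2) (· ha)
  have h2 : x.denom = 1 := (x.monic_denom.degree_le_zero_iff_eq_one).1 h1.le
  exact ⟨x.num, by simpa [h2] using x.num_div_denom⟩

lemma const_of_order {x : RatFunc k} (hx : x ≠ 0) (h : ∀ a : K, (ex a x).order = 0) :
    ∃ c, ι (Polynomial.C c) = x := by
  obtain ⟨g, rfl⟩ := poly_of_ge fun a : K => h a ▸ ge_order (ex a x)
  refine ⟨g.coeff 0, congrArg ι (eq_C_of_degree_eq_zero ?_).symm⟩
  by_contra h1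
  obtain ⟨a, ha⟩ := IsAlgClosed.exists_aeval_eq_zero K _ h1
  have := (ge_iff ((_root_.map_ne_zero _).2 hx)).1 (ge_ex_root ha)
  rw [h a] at this
  omega

/-- The residue theorem for simple poles. -/
lemma sum_res0 {x : RatFunc k} (S : Finset K) (r : K → K) (hS : ∀ a ∉ S, r a = 0)
    (h : ∀ a, Ge (ex a x - single (-1) (r a)) 0) (hI : Ge (eI x) 2) : ∑ a ∈ S, r a = 0 := by
  classical
  let t : K → RatFunc K := fun b => ι (Polynomial.C (r b)) / ι (X - Polynomial.C b)
  have t1 : ∀ a, ex a (t a) = single (-1) (r a) := fun a => by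
    have e : ex a (ι (X - Polynomial.C a)) = single 1 1 := by
      rw [ι_sub, map_sub, ex_X, ex_C]; simp
    rw [map_div₀, e, ex_C, div_eq_iff (single_ne_zero one_ne_zero), single_mul_single]
    simp [HahnSeries.C_apply]
  have t2 : ∀ a b, b ≠ a → Ge (ex a (t b)) 0 := fun a b hb =>
    (ex_div (by simpa [sub_eq_zero] using hb.symm) _).1
  have t3 : ∀ b, Ge (eI (t b)) 1 ∧ (eI (t b)).coeff 1 = r b := fun b => by
    have h1 : Ge (eI (t b)) 1 := by
      have := ge_eI_inv (X_sub_C_ne_zero b)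
      rw [natDegree_X_sub_C] at this
      rw [show t b = _ * _ from div_eq_mul_inv _ _, map_mul, eI_C]
      exact (ge_C _).mul0 this
    have h2 := ge_eI_ι (X - Polynomial.C b)
    rw [natDegree_X_sub_C] at h2
    have h3 := h1.coeff_mul h2
    rw [← map_mul, div_mul_cancel₀ _ (ι_ne (X_sub_C_ne_zero b)), eI_C, eI_ι, EI_coeff] at h3
    exact ⟨h1, by simpa using h3.symm⟩
  have sum_ge : ∀ (T : Finset K) (y : K → LaurentSeries K) (n : ℤ), (∀ b ∈ T, Ge (y b) n) →
      Ge (∑ b ∈ T, y b) n := fun T y n hy =>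
    Finset.sum_induction y (Ge · n) (fun _ _ => Ge.add) (Ge.zero n) hy
  obtain ⟨g, hg⟩ := poly_of_ge (K := K) (x := bc K x - ∑ b ∈ S, t b) fun a => by
    rw [map_sub, ex_bc, map_sum]
    by_cases ha : a ∈ S
    · rw [← Finset.add_sum_erase S _ ha, t1, ← sub_sub]
      exact (h a).sub (sum_ge _ _ _ fun b hb => t2 a b (Finset.ne_of_mem_erase hb))
    · refine Ge.sub (by simpa [hS a ha] using h a) (sum_ge _ _ _ fun b hb => t2 a b ?_)
      rintro rfl
      exact ha hb
  have h1 : Ge (eI (bc K x)) 2 := by rw [eI_bc, ge_lmap]; exact hI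
  have h2 : g = 0 := eq_zero_of_eI (by
    rw [hg, map_sub, map_sum]
    exact (h1.mono (by omega)).sub (sum_ge _ _ _ fun b _ => (t3 b).1))
  rw [h2, ι_zero, eq_comm, sub_eq_zero] at hg
  have h3 := h1 1 (by omega)
  rwa [hg, map_sum, HahnSeries.coeff_sum, Finset.sum_congr rfl fun b _ => (t3 b).2] at h3

variable [Finite k] [CharP k 2] [CharP K 2]

lemma dv_ex (a : K) (x : RatFunc k) : Dv (ex a x) (ex a ((PX k).D x)) := by
  obtain ⟨r, rfl⟩ := IsAlgClosed.exists_pow_nat_eq a two_pos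
  refine ⟨ex (r ^ 2) ((PX k).c0 x) + HahnSeries.C r * ex (r ^ 2) ((PX k).c1 x), _, ?_, map_pow _ _ _⟩
  have h1 := congrArg (ex (r ^ 2)) ((PX k).spec x)
  rw [map_add, map_mul, map_pow, map_pow, show (PX k).b = ι X from RatFunc.algebraMap_X.symm,
    ex_X, map_pow] at h1
  grind

omit [IsAlgClosed K] [CharP K 2]

lemma ge_eI_D {x : RatFunc k} {n : ℤ} (h : Ge (eI x) n) : Ge (eI ((PX k).D x)) (n + 1) := by
  have e : (single 1 1 : LaurentSeries k) * single (-1) 1 = 1 := by
    rw [single_mul_single]; simp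
  have h1 : Dv (eI x) ((single (-1) 1 * eI ((PX k).c1 x)) ^ 2) := by
    refine ⟨eI ((PX k).c0 x), _, ?_, rfl⟩
    have h1 := congrArg eI ((PX k).spec x)
    rw [map_add, map_mul, map_pow, map_pow, show (PX k).b = ι X from RatFunc.algebraMap_X.symm,
      eI_X] at h1
    grind
  have h2 := ((ge_single 1 (1 : k)).pow 2).mul (h1.ge h)
  rw [← mul_pow, ← mul_assoc, e, one_mul, ← map_pow] at h2
  exact h2.mono (by push_cast; omega)

end Pool.Agent.Lib.MP_a3f657_nt.Two.Lk
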