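import Pool.Agent.Lib.MP_a3f657_nt.C2LkCurve

/-!
Functions congruent to one, and reciprocity.
-/

set_option linter.unusedSectionVars false

namespace Pool.Agent.Lib.MP_a3f657_nt.Two.Lk

open Polynomial HahnSeries Function

open scoped Classical

variable {k : Type} [Field k] [Fintype k] [CharP k 2] {M n : k[X]}

variable (M) in
/-- The rational functions that are regular at the roots of `M`. -/
def OM : Subring (RatFunc k) where
  carrier := {x | ∀ a : AlgebraicClosure k, aeval a M = 0 → Ge (ex a x) 0}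
  mul_mem' h h' a ha := by rw [map_mul]; exact (h a ha).mul0 (h' a ha)
  one_mem' a _ := by rw [map_one]; exact ge_one
  add_mem' h h' a ha := by rw [map_add]; exact (h a ha).add (h' a ha)
  zero_mem' a _ := by rw [map_zero]; exact Ge.zero _
  neg_mem' h a ha := by rw [map_neg]; exact (h a ha).neg

lemma ι_mem (g : k[X]) : ι g ∈ OM M := fun a _ => ge_ex_ι a g

lemma D_mem {x : RatFunc k} (h : x ∈ OM M) : (PX k).D x ∈ OM M :=
  fun a ha => (dv_ex a x).ge0 (h a ha)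

lemma one_add_unit {K : Type} [Field K] {y : LaurentSeries K} (h : Ge y 1) :
    Ge (1 + y) 0 ∧ (1 + y).coeff 0 = 1 :=
  ⟨ge_one.add (h.mono zero_le_one), by simp [h 0 zero_lt_one]⟩

variable (M) in
/-- Functions congruent to one at the roots of `M` and at infinity. -/
def One (j : ℤ) (x : RatFunc k × RatFunc k) : Prop :=
  ∃ u v, u ∈ OM M ∧ v ∈ OM M ∧ Ge (eI u) j ∧ Ge (eI v) j ∧ x = (1 + ι M ^ 4 * u, ι M ^ 4 * v)

/-- The inverse. -/
noncomputable def iv (M n : k[X]) (x : RatFunc k × RatFunc k) : RatFunc k × RatFunc k :=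
  ((x.1 + x.2) / Nm M n x, x.2 / Nm M n x)

lemma iv_iv {x : RatFunc k × RatFunc k} (h : Nm M n x ≠ 0) : iv M n (iv M n x) = x := by
  have h1 : Nm M n (iv M n x) = (Nm M n x)⁻¹ := by
    rw [Nm, iv]
    have e : Nm M n x = x.1 ^ 2 + x.1 * x.2 + ι n / ι M * x.2 ^ 2 := rfl
    generalize Nm M n x = N at *
    generalize ι n / ι M = c at *
    grind
  rw [iv, h1, iv]
  ext <;> grind

lemma dv_iv (hW : NotWp M n) {x : RatFunc k × RatFunc k} (hx : x ≠ 0) :
    dv hW (iv M n x) = -dv hW x := div_ext fun Q => by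
  have h1 := φ_ne hW hx Q
  have h2 := φ_ne hW hx (cj Q)
  rw [Finsupp.neg_apply, dv_cls, dv_cls, ← order_inv h1]
  congr 1
  refine eq_inv_of_mul_eq_one_left ?_
  rw [φ_apply, iv, map_div₀, map_div₀, ← φ_mul_cj, map_add]
  field_simp
  rw [φ_cj]
  ring

lemma ge_a (hM : M ≠ 0) (n : k[X]) : Ge (eI (ι n / ι M)) (-(n.natDegree : ℤ)) := by
  rw [div_eq_mul_inv, map_mul]
  exact ((ge_eI_ι n).mul (ge_eI_inv hM)).mono (by omega)

section One

variable {j e : ℤ} {x : RatFunc k × RatFunc k}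

lemma One.coord (h : One M j x) : Ge (eI (x.1 - 1)) (j - 4 * M.natDegree) ∧
    Ge (eI x.2) (j - 4 * M.natDegree) := by
  obtain ⟨u, v, -, -, hu, hv, rfl⟩ := h
  simp only [add_sub_cancel_left, map_mul, map_pow]
  exact ⟨(((ge_eI_ι M).pow 4).mul hu).mono (by push_cast; omega),
    (((ge_eI_ι M).pow 4).mul hv).mono (by push_cast; omega)⟩

lemma One.fst (h : One M j x) (hj : 4 * M.natDegree ≤ j) : Ge (eI x.1) 0 := by
  simpa using (h.coord.1.mono (m := 0) (by omega)).add ge_one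

lemma One.inf (hM : M ≠ 0) (h : One M j x) (he : 0 ≤ e)
    (hj : e + 4 * M.natDegree + n.natDegree ≤ j) : Ge (eI (Nm M n x - 1)) e := by
  obtain ⟨h1, h2⟩ := h.coord
  rw [show Nm M n x - 1 = (x.1 - 1) ^ 2 + x.1 * x.2 + ι n / ι M * x.2 ^ 2 by
    unfold Nm; generalize ι n / ι M = c; grind]
  simp only [map_add, map_mul, map_pow]
  exact (((h1.pow 2).mono (by push_cast; omega)).add
    (((h.fst (by omega)).mul0 h2).mono (by omega))).add
    (((ge_a hM n).mul (h2.pow 2)).mono (by push_cast; omega))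

lemma One.loc (hM : M ≠ 0) (h : One M j x) : ∃ s ∈ OM M, Nm M n x = 1 + ι M * s := by
  obtain ⟨u, v, hu, hv, -, -, rfl⟩ := h
  have := ι_mem (M := M) M
  have := ι_mem (M := M) n
  refine ⟨ι M ^ 7 * u ^ 2 + (1 + ι M ^ 4 * u) * ι M ^ 3 * v + ι n * ι M ^ 6 * v ^ 2, by aesop, ?_⟩
  have := ι_ne hM
  unfold Nm
  grind

lemma One.unit (hM : M ≠ 0) (h : One M j x) {a : AlgebraicClosure k} (ha : aeval a M = 0) :
    Ge (ex a (Nm M n x)) 0 ∧ (ex a (Nm M n x)).coeff 0 = 1 := by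
  obtain ⟨s, hs, e⟩ := h.loc (n := n) hM
  rw [e, map_add, map_one, map_mul]
  exact one_add_unit (by simpa using (ge_ex_root ha).mul (hs a ha))

lemma One.inv_mem (hM : M ≠ 0) (h : One M j x) : (Nm M n x)⁻¹ ∈ OM M := fun a ha => by
  rw [map_inv₀]
  simpa using (h.unit hM ha).1.inv (by rw [(h.unit hM ha).2]; exact one_ne_zero)

lemma One.unit_inf (hM : M ≠ 0) (h : One M j x) (hj : 1 + 4 * M.natDegree + n.natDegree ≤ j) :
    Ge (eI (Nm M n x)) 0 ∧ (eI (Nm M n x)).coeff 0 = 1 := by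
  simpa using one_add_unit (h.inf hM zero_le_one hj)

lemma One.ge_inv (hM : M ≠ 0) (h : One M j x) (hj : 1 + 4 * M.natDegree + n.natDegree ≤ j) :
    Ge (eI (Nm M n x)⁻¹) 0 := by
  rw [map_inv₀]
  simpa using (h.unit_inf hM hj).1.inv (by rw [(h.unit_inf hM hj).2]; exact one_ne_zero)

lemma One.Nm_ne (hM : M ≠ 0) (h : One M j x) (hj : 1 + 4 * M.natDegree + n.natDegree ≤ j) :
    Nm M n x ≠ 0 := fun e => by simpa [e] using (h.unit_inf hM hj).2

lemma One.ne (hM : M ≠ 0) (h : One M j x) (hj : 1 + 4 * M.natDegree + n.natDegree ≤ j) :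
    x ≠ 0 := fun e => h.Nm_ne hM hj (by simp [e, Nm])

lemma One.iv (hM : M ≠ 0) (h : One M j x) (hj : 1 + 4 * M.natDegree + n.natDegree ≤ j) :
    One M j (iv M n x) := by
  have h1 := h.inv_mem (n := n) hM
  have h2 := h.ge_inv hM hj
  have h3 := h.Nm_ne hM hj
  have h4 := (h.fst (by omega)).add (h.coord.2.mono (by omega))
  obtain ⟨u, v, hu, hv, hu', hv', rfl⟩ := h
  have := ι_mem (M := M) M
  have := ι_mem (M := M) n
  refine ⟨_ * (u * (1 + ι M ^ 4 * u + ι M ^ 4 * v) + ι n * ι M ^ 3 * v ^ 2), _ * v,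
    mul_mem h1 (by aesop), mul_mem h1 hv, ?_, ?_, ?_⟩
  · rw [map_mul, map_add, map_mul, map_add, map_mul _ _ (v ^ 2), map_mul _ (ι n), map_pow,
      map_pow]
    exact h2.mul0 (((hu'.mul h4).mono (by omega)).add
      ((((ge_eI_ι n).mul ((ge_eI_ι M).pow 3)).mul (hv'.pow 2)).mono (by push_cast; omega)))
  · rw [map_mul]; exact h2.mul0 hv'
  · rw [Lk.iv]
    have e : Nm M n (1 + ι M ^ 4 * u, ι M ^ 4 * v) = (1 + ι M ^ 4 * u) ^ 2 +
      (1 + ι M ^ 4 * u) * (ι M ^ 4 * v) + ι n / ι M * (ι M ^ 4 * v) ^ 2 := rfl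
    have := ι_ne hM
    generalize Nm M n _ = N at *
    ext <;> grind

lemma One.deg (hW : NotWp M n) (hM : M ≠ 0) (h : One M j x)
    (hj : 1 + 4 * M.natDegree + n.natDegree ≤ j) : degZ (odeg _) (dv hW x) = 0 := by
  rw [deg_dv hW (h.ne hM hj) fun a ha => (h.unit hM ha).1.order_eq
    (by rw [(h.unit hM ha).2]; exact one_ne_zero), (h.unit_inf hM hj).1.order_eq
    (by rw [(h.unit_inf hM hj).2]; exact one_ne_zero), neg_zero]

variable {K : ℕ} (χ : MulChar (RM M K) ℂ)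

lemma chi_ne (hM : M ≠ 0) (P : Pr M n) : χ (clM M K (nP P)) ≠ 0 := by
  have := Lp.finite_RM hM K
  rw [← norm_ne_zero_iff, Lp.norm_chi_eq χ (Lp.isUnit_clM K (nP_monic P) (nP_cop P))]
  exact one_ne_zero

lemma chi_pow (f : k[X]) (e : ℕ) : χ (clM M K (f ^ e)) = χ (clM M K f) ^ e := by
  induction e with
  | zero => simp [Lp.clM_one]
  | succ e ih => rw [pow_succ, Lp.clM_mul, map_mul, ih, pow_succ]

lemma exists_frac (hM : M ≠ 0) (s : Finset (Pr M n)) (w : Pr M n → ℤ) :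
    ∃ g h : k[X], g.Monic ∧ h.Monic ∧ IsCoprime h M ∧ (∏ P ∈ s, ι (nP P) ^ w P) * ι h = ι g ∧
      (∏ P ∈ s, χ (clM M K (nP P)) ^ w P) * χ (clM M K h) = χ (clM M K g) := by
  induction s using Finset.induction_on with
  | empty => exact ⟨1, 1, monic_one, monic_one, isCoprime_one_left, by simp, by simp⟩
  | insert P s hP ih =>
    obtain ⟨g, h, h1, h2, h3, h4, h5⟩ := ih
    have h7 := ι_ne (nP_monic P).ne_zero
    have h8 := chi_ne χ hM P
    rw [Finset.prod_insert hP, Finset.prod_insert hP]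
    obtain ⟨e, he | he⟩ := (w P).eq_nat_or_neg <;> rw [he]
    · refine ⟨nP P ^ e * g, h, ((nP_monic P).pow e).mul h1, h2, h3, ?_, ?_⟩
      · rw [ι_mul, ι_pow, ← h4, zpow_natCast, mul_assoc]
      · rw [Lp.clM_mul, map_mul, chi_pow, ← h5, zpow_natCast, mul_assoc]
    · refine ⟨g, nP P ^ e * h, h1, ((nP_monic P).pow e).mul h2,
        (nP_cop P).pow_left.mul_left h3, ?_, ?_⟩
      · rw [ι_mul, ι_pow, ← h4, zpow_neg, zpow_natCast]; field_simp
      · rw [Lp.clM_mul, map_mul, chi_pow, ← h5, zpow_neg, zpow_natCast]; field_simp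

lemma One.chi (hW : NotWp M n) (hM : M ≠ 0) (h : One M j x)
    (hj : K + 1 + 4 * M.natDegree + n.natDegree ≤ j) :
    ∏ P ∈ (dv hW x).support, χ (clM M K (nP P)) ^ dv hW x P = 1 := by
  have hj' : 1 + 4 * M.natDegree + n.natDegree ≤ j := by omega
  obtain ⟨c, hc⟩ := norm_eq hW (h.ne hM hj') fun a ha => (h.unit hM ha).1.order_eq
    (by rw [(h.unit hM ha).2]; exact one_ne_zero)
  obtain ⟨g, f, h1, h2, h3, h4, h5⟩ := exists_frac χ hM (dv hW x).support (dv hW x)
  have e1 : ι (Polynomial.C c * g - f) = (Nm M n x - 1) * ι f := by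
    rw [ι_sub, ι_mul, ← h4, hc]; ring
  have e2 : ∀ e : ℕ, e ≤ K + 1 →
      (Polynomial.C c * g - f).degree < (f.natDegree + 1 - e : ℕ) := fun e he => by
    rw [← ge_EI_iff, ← eI_ι, e1, map_mul]
    exact ((h.inf hM (e := K + 1) (by omega) hj).mul (ge_eI_ι f)).mono (by omega)
  have e3 : (Polynomial.C c * g).Monic ∧ (Polynomial.C c * g).natDegree = f.natDegree := by
    have e4 := e2 1 (by omega)
    rw [Nat.add_sub_cancel, ← degree_eq_natDegree h2.ne_zero] at e4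
    rw [← sub_add_cancel (Polynomial.C c * g) f]
    exact ⟨h2.add_of_right e4, natDegree_add_eq_right_of_degree_lt e4⟩
  have e4 : c = 1 := by simpa [Monic.def, h1.leadingCoeff] using e3.1
  simp only [e4, map_one, one_mul] at e1 e2 e3
  obtain ⟨s, hs, e5⟩ := h.loc (n := n) hM
  obtain ⟨t, ht⟩ := poly_of_ge (K := AlgebraicClosure k) (x := s * ι f) fun a => by
    by_cases ha : aeval a M = 0
    · exact mul_mem hs (ι_mem f) a ha
    · have := ι_ne hM
      rw [show s * ι f = ι (g - f) / ι M by rw [e1, e5]; field_simp; ring]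
      exact (ex_div ha _).1
  have e6 : clM M K g = clM M K f := Lp.clM_congr
    ⟨t, ι_inj (by rw [e1, e5, ι_mul, ht]; ring)⟩ e3.2.symm (e3.2 ▸ e2 K (by omega))
  have := Lp.finite_RM hM K
  rw [e6, mul_eq_right₀] at h5
  · exact h5
  · rw [← norm_ne_zero_iff, Lp.norm_chi_eq χ (Lp.isUnit_clM K h2 h3)]
    exact one_ne_zero

end One

end Pool.Agent.Lib.MP_a3f657_nt.Two.Lk
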