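import Pool.Agent.Lib.MP_a3f657_nt.C2LkRec

/-!
Reciprocity of the Artin-Schreier sign.
-/

set_option linter.unusedSectionVars false

namespace Pool.Agent.Lib.MP_a3f657_nt.Two.Lk

open Polynomial HahnSeries Function

open scoped Classical

variable {k : Type} [Field k] [Fintype k] [CharP k 2] {M n : k[X]} (n₂ : k[X])

/-- The value of `θ n₂ / M` at a point. -/
noncomputable def β (Q : Pt M n) : AlgebraicClosure k := Q.t * (aeval Q.a n₂ / aeval Q.a M)

variable (M n) in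
/-- The trace of `θ (n₂ / M) (D x / x)`. -/
noncomputable def Φ (x : RatFunc k × RatFunc k) : RatFunc k :=
  ι n₂ / ι M * (x.1 * (PX k).D x.1 + x.1 * (PX k).D x.2 + x.1 * x.2 * (PX k).D (ι n / ι M) +
    ι n / ι M * x.2 * (PX k).D x.2) * (Nm M n x)⁻¹

lemma ge_res {K : Type} [Field K] {c u : LaurentSeries K} {w : K} (hc : Ge c 0)
    (hu : Ge (u - single (-1) w) 0) : Ge (c * u - single (-1) (w * c.coeff 0)) 0 := by
  have h1 : Ge (c - HahnSeries.C (c.coeff 0)) 1 := (hc.sub (ge_C _)).succ (by simp)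
  have e : c * u - single (-1) (w * c.coeff 0) =
      c * (u - single (-1) w) + (c - HahnSeries.C (c.coeff 0)) * single (-1) w := by
    rw [sub_mul, HahnSeries.C_apply, single_mul_single, zero_add, mul_comm w]; ring
  rw [e]
  exact (hc.mul0 hu).add (h1.mul (ge_single _ _))

lemma res_pt (hW : NotWp M n) {x : RatFunc k × RatFunc k} (hx : x ≠ 0) (Q : Pt M n) :
    Ge (ex Q.a (Φ M n n₂ x) - single (-1) (((φ Q x).order : ℤ) * β n₂ Q +
      ((φ (cj Q) x).order : ℤ) * β n₂ (cj Q))) 0 := by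
  have key : ∀ Q : Pt M n, Ge (th Q * ex Q.a (ι n₂ / ι M) * ((ex Q.a ((PX k).D x.1) +
      (ex Q.a x.2 * ex Q.a ((PX k).D (ι n / ι M)) + th Q * ex Q.a ((PX k).D x.2))) / φ Q x) -
      single (-1) (((φ Q x).order : ℤ) * β n₂ Q)) 0 := fun Q => by
    have h1 := ge_res ((th_ge Q).mul0 (ex_div Q.hM n₂).1) (((dv_ex Q.a x.1).add
      ((dv_ex Q.a x.2).mul ((dv_ex Q.a _).root (th_eq Q)))).dlog (φ_ne hW hx Q))
    have h2 := (th_ge Q).coeff_mul (ex_div Q.hM n₂).1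
    rw [add_zero, th_coeff, (ex_div Q.hM n₂).2] at h2
    rw [h2] at h1
    exact h1
  convert (key Q).add (key (cj Q)) using 1
  have h1 := φ_ne hW hx Q
  have h2 := φ_ne hW hx (cj Q)
  rw [HahnSeries.single_add, ← sub_sub, th_cj, show (cj Q).a = Q.a from rfl, Φ]
  simp only [map_mul, map_add, map_inv₀, ← φ_mul_cj, ← th_eq]
  rw [φ_cj] at *
  rw [φ_apply] at *
  grind

variable {j : ℤ} {x : RatFunc k × RatFunc k}

lemma One.Φ_mem (hM : M ≠ 0) (h : One M j x) : Φ M n n₂ x ∈ OM M := by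
  refine Φ.eq_1 M n n₂ x ▸ mul_mem ?_ (h.inv_mem hM)
  obtain ⟨u, v, hu, hv, -, -, rfl⟩ := h
  have h0 := ι_ne hM
  have h1 := (PX k).D_mul (ι M) (ι n / ι M)
  rw [mul_div_cancel₀ _ h0] at h1
  have h2 : ∀ u, (PX k).D (ι M ^ 4 * u) = ι M ^ 4 * (PX k).D u := fun u => by
    rw [show ι M ^ 4 = (ι M ^ 2) ^ 2 by ring, PB.D_sq_mul]
  have := ι_mem (M := M) M
  have := ι_mem (M := M) n
  have := ι_mem (M := M) n₂
  have := D_mem hu
  have := D_mem hv
  have := D_mem (ι_mem (M := M) M)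
  have := D_mem (ι_mem (M := M) n)
  have h3 : ι n₂ * ((1 + ι M ^ 4 * u) * (ι M ^ 3 * ((PX k).D u + (PX k).D v) + ι M * v *
    (ι M * (PX k).D (ι n) + ι n * (PX k).D (ι M))) + ι n * ι M ^ 6 * v * (PX k).D v) ∈ OM M := by
    aesop
  convert h3 using 1
  simp only [PB.D_add, PB.D_one, h2]
  grind

lemma One.Φ_inf (hM : M ≠ 0) (h : One M j x)
    (hj : 1 + 4 * M.natDegree + n.natDegree + n₂.natDegree ≤ j) : Ge (eI (Φ M n n₂ x)) 2 := by
  obtain ⟨h1, h2⟩ := h.coord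
  have h3 := h.fst (by omega)
  have h4 := ge_eI_D h1
  rw [CharTwo.sub_eq_add, PB.D_add, PB.D_one, add_zero] at h4
  have h5 := ge_eI_D h2
  simp only [Φ, map_mul, map_add]
  refine (((ge_a hM n₂).mul (m := j - 4 * M.natDegree - n.natDegree + 1) ?_).mul
    (h.ge_inv hM (by omega))).mono (by omega)
  exact ((((h3.mul h4).mono (by omega)).add ((h3.mul h5).mono (by omega))).add
    (((h3.mul h2).mul (ge_eI_D (ge_a hM n))).mono (by omega))).add
    ((((ge_a hM n).mul h2).mul h5).mono (by omega))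

lemma One.sum_β (hW : NotWp M n) (hM : M ≠ 0) (h : One M j x)
    (hj : 1 + 4 * M.natDegree + n.natDegree + n₂.natDegree ≤ j) :
    ∑ P ∈ (dv hW x).support, (dv hW x P : AlgebraicClosure k) * ∑ Q ∈ orb _ P, β n₂ Q = 0 := by
  set T := (dv hW x).support.biUnion (orb _) with hT
  have h1 := sum_res0 (T.image Pt.a)
    (fun a => ∑ Q ∈ T.filter (·.a = a), ((φ Q x).order : ℤ) * β n₂ Q)
    (fun a ha => Finset.sum_eq_zero fun Q hQ => (ha (Finset.mem_image.2
      ⟨Q, Finset.mem_filter.1 hQ⟩)).elim) (fun a => ?_) (h.Φ_inf n₂ hM hj)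
  · replace h1 := (Finset.sum_fiberwise_of_maps_to (s := T) (g := Pt.a)
      (fun Q hQ => Finset.mem_image_of_mem _ hQ) _).symm.trans h1
    rw [hT, sum_biUnion_orb] at h1
    refine (Finset.sum_congr rfl fun P _ => ?_).trans h1
    rw [Finset.mul_sum]
    exact Finset.sum_congr rfl fun Q hQ => by rw [← mem_orb.1 hQ, dv_cls]
  by_cases ha : aeval a M = 0
  · rw [Finset.sum_eq_zero, map_zero, sub_zero]
    · exact h.Φ_mem n₂ hM a ha
    · exact fun Q hQ => absurd ha ((Finset.mem_filter.1 hQ).2 ▸ Q.hM)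
  · obtain ⟨Q, rfl⟩ := exists_pt n ha
    rw [fiber_sum (fun Q => ((φ Q x).order : ℤ) * β n₂ Q) _ fun Q hQ => ?_]
    · exact res_pt n₂ hW (h.ne (n := n) hM (by omega)) Q
    · rw [hT, mem_biUnion_orb, Finsupp.notMem_support_iff, dv_cls] at hQ
      simp [hQ]

lemma β_fr (i : ℕ) (Q : Pt M n) : β n₂ (fr^[i] Q) = β n₂ Q ^ Fintype.card k ^ i := by
  rw [β, β, (fr_iter i Q).1, (fr_iter i Q).2, mul_pow, div_pow, Lp.pow_q_aeval, Lp.pow_q_aeval]

lemma β_mem {m : ℕ} (hm : 0 < m) {Q : Pt M n} (h : fr^[m] Q = Q) : β n₂ Q ∈ fixF k m := by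
  rw [Rh.mem_fixF hm, ← β_fr, h]

lemma sg_trace {d : ℕ} (hd : 0 < d) {b : AlgebraicClosure k} (hb : b ∈ fixF k d) :
    ∑ i ∈ Finset.range d, b ^ Fintype.card k ^ i ∈ fixF k 1 ∧
      sg 1 (∑ i ∈ Finset.range d, b ^ Fintype.card k ^ i) = sg d b := by
  have key : ∀ u : AlgebraicClosure k, (∑ i ∈ Finset.range d, u ^ Fintype.card k ^ i) ^
      Fintype.card k ^ 1 = ∑ i ∈ Finset.range d, u ^ Fintype.card k ^ i +
        (u ^ Fintype.card k ^ d - u) := fun u => by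
    have h1 := Finset.sum_range_succ' (fun i => u ^ Fintype.card k ^ i) d
    rw [Finset.sum_range_succ, pow_zero, pow_one] at h1
    rw [← Rh.frob_pow_apply, map_sum, add_sub, h1, add_sub_cancel_right]
    exact Finset.sum_congr rfl fun i _ => by rw [Rh.frob_pow_apply, ← pow_mul, ← _root_.pow_add]
  obtain ⟨u, a, h1, h2⟩ := Lp.exists_as hd hb
  refine ⟨?_, ?_⟩
  · rw [Rh.mem_fixF one_pos, key, (Rh.mem_fixF hd).1 hb, sub_self, add_zero]
  · rw [Rh.sg_eq hd h1 h2]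
    refine Rh.sg_eq one_pos (u := ∑ i ∈ Finset.range d, u ^ Fintype.card k ^ i) ?_
      (by rw [key, h2, add_sub_cancel_left])
    rw [CharTwo.sum_sq, ← Finset.sum_add_distrib]
    exact Finset.sum_congr rfl fun i _ => by rw [← h1, Lp.pow_q_add, ← pow_mul, ← pow_mul, mul_comm]

lemma zero_mem_fixF {m : ℕ} (hm : 0 < m) : (0 : AlgebraicClosure k) ∈ fixF k m := by
  rw [Rh.mem_fixF hm, zero_pow (pow_ne_zero _ Fintype.card_ne_zero)]

lemma sg_zero {m : ℕ} (hm : 0 < m) : sg m (0 : AlgebraicClosure k) = 1 :=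
  if_pos ⟨0, zero_mem_fixF hm, by simp⟩

lemma sg_zmul {b : AlgebraicClosure k} (hb : b ∈ fixF k 1) (w : ℤ) :
    w * b ∈ fixF k 1 ∧ sg 1 ((w : AlgebraicClosure k) * b) = sg 1 b ^ w := by
  have h1 : sg 1 b ^ (2 : ℤ) = 1 := by unfold sg; split_ifs <;> norm_num
  have h2 : sg 1 b ≠ 0 := by unfold sg; split_ifs <;> norm_num
  obtain ⟨e, rfl | rfl⟩ := w.even_or_odd'
  · simp [CharTwo.two_eq_zero, zero_mem_fixF, sg_zero, zpow_mul, h1]
  · simp [CharTwo.two_eq_zero, hb, zpow_add₀ h2, zpow_mul, h1]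

lemma One.sign (hW : NotWp M n) (hM : M ≠ 0) (h : One M j x)
    (hj : 1 + 4 * M.natDegree + n.natDegree + n₂.natDegree ≤ j) :
    ∏ P ∈ (dv hW x).support, sg (odeg _ P) (β n₂ (rep _ P)) ^ dv hW x P = 1 := by
  have key : ∀ s : Finset (Pr M n),
      ∑ P ∈ s, (dv hW x P : AlgebraicClosure k) * ∑ Q ∈ orb _ P, β n₂ Q ∈ fixF k 1 ∧
      sg 1 (∑ P ∈ s, (dv hW x P : AlgebraicClosure k) * ∑ Q ∈ orb _ P, β n₂ Q) =
        ∏ P ∈ s, sg (odeg _ P) (β n₂ (rep _ P)) ^ dv hW x P := fun s => by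
    induction s using Finset.induction_on with
    | empty => exact ⟨zero_mem_fixF one_pos, sg_zero one_pos⟩
    | insert P s hP ih =>
      have h1 := sg_trace (odeg_pos P) (β_mem n₂ (odeg_pos P) (iter_odeg P))
      simp only [← β_fr, ← sum_orb] at h1
      have h2 := sg_zmul h1.1 (dv hW x P)
      rw [Finset.sum_insert hP, Finset.prod_insert hP, Lp.sg_add one_pos h2.1 ih.1, h2.2, h1.2, ih.2]
      exact ⟨Lp.add_mem_fixF one_pos h2.1 ih.1, rfl⟩
  rw [← (key _).2, h.sum_β n₂ hW hM hj, sg_zero one_pos]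

end Pool.Agent.Lib.MP_a3f657_nt.Two.Lk
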