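import Pool.Agent.Lib.MP_a3f657_nt.C2PB
import Pool.Agent.Lib.MP_a3f657_nt.C2Dual

/-!
Discretely valued fields of characteristic two with a residue functional.
-/

set_option linter.unusedSectionVars false

namespace Pool.Agent.Lib.MP_a3f657_nt.Two

open WithZero

variable {K : Type} [Field K]

/-- The elements of order at least `n`. -/
def Fil (w : Valuation K ℤᵐ⁰) (n : ℤ) : AddSubgroup K := w.leAddSubgroup (exp (-n))

/-- The order of vanishing. -/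
def ord (w : Valuation K ℤᵐ⁰) (x : K) : ℤ := -log (w x)

section Fil

variable {w : Valuation K ℤᵐ⁰} {x y : K} {a b c : ℤ}

lemma mem_Fil : x ∈ Fil w a ↔ w x ≤ exp (-a) := Iff.rfl

lemma mem_Fil_iff (hx : x ≠ 0) : x ∈ Fil w a ↔ a ≤ ord w x := by
  rw [mem_Fil, ← log_le_iff_le_exp ((Valuation.ne_zero_iff w).2 hx), ord]; omega

lemma mem_Fil_of_le (h : a ≤ ord w x) : x ∈ Fil w a := by
  by_cases hx : x = 0
  · rw [hx]; exact zero_mem _
  · exact (mem_Fil_iff hx).2 h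

lemma mem_Fil_ord (x : K) : x ∈ Fil w (ord w x) := mem_Fil_of_le le_rfl

lemma not_mem_Fil : x ∉ Fil w a ↔ x ≠ 0 ∧ ord w x < a := by
  by_cases hx : x = 0
  · simp [hx]
  · simp [mem_Fil_iff hx, hx]

lemma Fil.mono (hx : x ∈ Fil w a) (h : b ≤ a) : x ∈ Fil w b :=
  le_trans (mem_Fil.1 hx) (exp_le_exp.2 (by omega))

lemma Fil_anti (h : b ≤ a) : Fil w a ≤ Fil w b := fun _ hx => Fil.mono hx h

lemma ord_mul (hx : x ≠ 0) (hy : y ≠ 0) : ord w (x * y) = ord w x + ord w y := by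
  simp only [ord, map_mul]
  rw [log_mul ((Valuation.ne_zero_iff w).2 hx) ((Valuation.ne_zero_iff w).2 hy)]; ring

@[simp] lemma ord_one : ord w 1 = 0 := by simp [ord]

@[simp] lemma ord_zero : ord w 0 = 0 := by simp [ord]

lemma ord_inv (x : K) : ord w x⁻¹ = -ord w x := by simp [ord, log_inv]

lemma ord_div (hx : x ≠ 0) (hy : y ≠ 0) : ord w (x / y) = ord w x - ord w y := by
  rw [div_eq_mul_inv, ord_mul hx (inv_ne_zero hy), ord_inv]; ring

lemma ord_pow (x : K) (n : ℕ) : ord w (x ^ n) = n * ord w x := by simp [ord, log_pow]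

lemma ord_zpow (x : K) (n : ℤ) : ord w (x ^ n) = n * ord w x := by simp [ord, log_zpow]

lemma ord_sq (x : K) : ord w (x ^ 2) = 2 * ord w x := ord_pow x 2

lemma Fil.mul (hx : x ∈ Fil w a) (hy : y ∈ Fil w b) (h : c ≤ a + b) : x * y ∈ Fil w c := by
  by_cases h1 : x = 0
  · simp [h1]
  by_cases h2 : y = 0
  · simp [h2]
  rw [mem_Fil_iff h1] at hx
  rw [mem_Fil_iff h2] at hy
  exact mem_Fil_of_le (by rw [ord_mul h1 h2]; omega)

lemma Fil.div (hx : x ∈ Fil w a) (h : c ≤ a - ord w y) : x / y ∈ Fil w c := by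
  rw [div_eq_mul_inv]
  exact Fil.mul hx (mem_Fil_ord _) (by rw [ord_inv]; omega)

lemma Fil.one (h : a ≤ 0) : (1 : K) ∈ Fil w a := mem_Fil_of_le (by simpa using h)

lemma Fil.pow (hx : x ∈ Fil w a) (n : ℕ) (h : c ≤ n * a) : x ^ n ∈ Fil w c := by
  refine Fil.mono (a := n * a) ?_ h
  clear h
  induction n with
  | zero => simpa using Fil.one le_rfl
  | succ n ih => rw [pow_succ]; exact Fil.mul ih hx (by push_cast; linarith)

lemma Fil.sq (hx : x ∈ Fil w a) (h : c ≤ 2 * a) : x ^ 2 ∈ Fil w c := Fil.pow hx 2 h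

lemma Fil.of_sq (hx : x ^ 2 ∈ Fil w a) (h : 2 * c ≤ a + 1) : x ∈ Fil w c := by
  by_cases h1 : x = 0
  · simp [h1]
  rw [mem_Fil_iff (pow_ne_zero 2 h1), ord_sq] at hx
  exact mem_Fil_of_le (by omega)

lemma ord_add (hx : x ≠ 0) (hy : y ∈ Fil w (ord w x + 1)) :
    x + y ≠ 0 ∧ ord w (x + y) = ord w x := by
  have h1 : w x ≠ 0 := (Valuation.ne_zero_iff w).2 hx
  have h2 : w y < w x := lt_of_le_of_lt (mem_Fil.1 hy) (by
    rw [← lt_log_iff_exp_lt h1, ord]; omega)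
  have h3 := w.map_add_eq_of_lt_left h2
  exact ⟨fun e => h1 (by rw [← h3, e, map_zero]), by rw [ord, h3, ord]⟩

lemma ord_one_add (hy : y ∈ Fil w 1) : 1 + y ≠ 0 ∧ ord w (1 + y) = 0 := by
  simpa using ord_add (w := w) (x := 1) one_ne_zero (by simpa using hy)

lemma Fil.of_mul (h : x * y ∈ Fil w a) (hy : y ≠ 0) (hc : c ≤ a - ord w y) : x ∈ Fil w c := by
  simpa [hy] using Fil.div h hc

lemma eq_zero_of_Fil (h : ∀ n : ℕ, x ∈ Fil w n) : x = 0 := by
  by_contra hx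
  have := (mem_Fil_iff hx).1 (h ((ord w x).toNat + 1))
  omega

lemma ord_eq_of (h1 : x ∈ Fil w a) (h2 : x ∉ Fil w (a + 1)) : x ≠ 0 ∧ ord w x = a := by
  obtain ⟨h3, h4⟩ := not_mem_Fil.1 h2
  rw [mem_Fil_iff h3] at h1
  exact ⟨h3, by omega⟩

lemma Fil.wp (hx : x ∈ Fil w a) (h : c ≤ a) (h' : c ≤ 2 * a) : wp x ∈ Fil w c :=
  add_mem (Fil.sq hx h') (Fil.mono hx h)

lemma ord_wp (h : ord w x < 0) : wp x ≠ 0 ∧ ord w (wp x) = 2 * ord w x := by
  have hx : x ≠ 0 := by rintro rfl; simp at h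
  rw [← ord_sq]
  exact ord_add (pow_ne_zero 2 hx) (mem_Fil_of_le (by rw [ord_sq]; omega))

lemma Fil.of_wp (hx : Two.wp x ∈ Fil w a) (h : 2 * c ≤ a + 1) (h0 : c ≤ 0) : x ∈ Fil w c := by
  by_contra hn
  obtain ⟨-, h2⟩ := not_mem_Fil.1 hn
  obtain ⟨h3, h4⟩ := ord_wp (w := w) (x := x) (by omega)
  rw [mem_Fil_iff h3] at hx
  omega

lemma Fil_map_mul (hx : x ≠ 0) (a : ℤ) :
    (Fil w a).map (AddMonoidHom.mulLeft x) = Fil w (a + ord w x) := by
  ext y
  refine ⟨?_, fun hy => ⟨y / x, Fil.div hy (by omega), by simp [mul_div_cancel₀, hx]⟩⟩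
  rintro ⟨z, hz, rfl⟩
  exact Fil.mul (mem_Fil_ord x) hz (by omega)

lemma relIndex_Fil_shift (hx : x ≠ 0) (a b : ℤ) :
    (Fil w (a + ord w x)).relIndex (Fil w (b + ord w x)) = (Fil w a).relIndex (Fil w b) := by
  rw [← Fil_map_mul hx, ← Fil_map_mul hx]
  exact AddSubgroup.relIndex_map_map_of_injective _ _ (mul_right_injective₀ hx)

end Fil

variable [CharP K 2]

/-- The Artin-Schreier operator as an additive map. -/
def wpH : K →+ K := ⟨⟨wp, wp_zero⟩, wp_add⟩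

@[simp] lemma wpH_apply (x : K) : wpH x = wp x := rfl

lemma two_K (x : K) : x + x = 0 := CharTwo.add_self_eq_zero x

/-- A discrete valuation with uniformizer `P.b`, finite residue field, and the functional
`r x = Tr res (x dπ)`. -/
structure PreLoc (K : Type) [Field K] [CharP K 2] where
  /-- The valuation. -/
  w : Valuation K ℤᵐ⁰
  /-- The uniformizer as a 2-basis. -/
  P : PB K
  hπ : ord w P.b = 1
  /-- The residue functional. -/
  r : K →+ ZMod 2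
  r_c1 : ∀ x, r (P.c1 x) = r x
  r_int : ∀ x ∈ Fil w 0, r x = 0
  r_ne : ∃ x ∈ Fil w (-1), r x ≠ 0
  fin : (Fil w 1).relIndex (Fil w 0) ≠ 0

namespace PreLoc

variable (L : PreLoc K) {x y : K} {a b c : ℤ}

/-- The size of the residue field. -/
noncomputable def Q : ℕ := (Fil L.w 1).relIndex (Fil L.w 0)

lemma π_mem : L.P.b ∈ Fil L.w 1 := mem_Fil_of_le L.hπ.ge

lemma ord_πz (n : ℤ) : ord L.w (L.P.b ^ n) = n := by rw [ord_zpow, L.hπ, mul_one]

lemma relIndex_succ (a : ℤ) : (Fil L.w (a + 1)).relIndex (Fil L.w a) = L.Q := by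
  have := relIndex_Fil_shift (w := L.w) (zpow_ne_zero a L.P.b_ne) 1 0
  rwa [L.ord_πz, zero_add, add_comm] at this

lemma relIndex_Fil (a : ℤ) (n : ℕ) : (Fil L.w (a + n)).relIndex (Fil L.w a) = L.Q ^ n := by
  induction n with
  | zero => simp
  | succ n ih =>
    rw [← AddSubgroup.relIndex_mul_relIndex _ (Fil L.w (a + n)) _ (Fil_anti (by push_cast; omega))
      (Fil_anti (by omega)), ih, pow_succ', Nat.cast_succ, ← add_assoc, relIndex_succ]

lemma relIndex_Fil' (h : a ≤ b) : (Fil L.w b).relIndex (Fil L.w a) = L.Q ^ (b - a).toNat := by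
  rw [← L.relIndex_Fil a]
  congr 2
  omega

lemma Q_ne : L.Q ≠ 0 := L.fin

lemma relIndex_Fil_ne (a b : ℤ) : (Fil L.w b).relIndex (Fil L.w a) ≠ 0 := by
  rcases le_total a b with h | h
  · rw [L.relIndex_Fil' h]; exact pow_ne_zero _ L.Q_ne
  · rw [AddSubgroup.relIndex_eq_one.2 (Fil_anti h)]; exact one_ne_zero

variable {L}

lemma parts_mem {g h : K} (hx : g ^ 2 + L.P.b * h ^ 2 ∈ Fil L.w a) :
    g ^ 2 ∈ Fil L.w a ∧ L.P.b * h ^ 2 ∈ Fil L.w a := by
  by_cases hg : g = 0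
  · simpa [hg] using hx
  by_cases hh : h = 0
  · simpa [hh] using hx
  have h1 := pow_ne_zero 2 hg
  have h2 := mul_ne_zero L.P.b_ne (pow_ne_zero 2 hh)
  have h3 : ord L.w (L.P.b * h ^ 2) = 1 + 2 * ord L.w h := by
    rw [ord_mul L.P.b_ne (pow_ne_zero 2 hh), L.hπ, ord_sq]
  have h4 := ord_sq (w := L.w) g
  rw [mem_Fil_iff h1, mem_Fil_iff h2]
  rcases le_total (ord L.w g) (ord L.w h) with h5 | h5
  · obtain ⟨h6, h7⟩ := ord_add (w := L.w) h1 (y := L.P.b * h ^ 2) (mem_Fil_of_le (by omega))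
    rw [mem_Fil_iff h6] at hx
    omega
  · rcases eq_or_lt_of_le h5 with h5 | h5
    · obtain ⟨h6, h7⟩ := ord_add (w := L.w) h1 (y := L.P.b * h ^ 2) (mem_Fil_of_le (by omega))
      rw [mem_Fil_iff h6] at hx
      omega
    obtain ⟨h6, h7⟩ := ord_add (w := L.w) h2 (y := g ^ 2) (mem_Fil_of_le (by omega))
    rw [add_comm] at h6 h7
    rw [mem_Fil_iff h6] at hx
    omega

lemma c0_mem (hx : x ∈ Fil L.w a) (h : 2 * c ≤ a + 1) : L.P.c0 x ∈ Fil L.w c := by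
  rw [L.P.spec x] at hx
  exact Fil.of_sq (parts_mem hx).1 h

lemma c1_mem (hx : x ∈ Fil L.w a) (h : 2 * c ≤ a) : L.P.c1 x ∈ Fil L.w c := by
  rw [L.P.spec x] at hx
  have := (parts_mem hx).2
  rw [mul_comm] at this
  exact Fil.of_sq (Fil.of_mul this L.P.b_ne le_rfl) (by rw [L.hπ]; omega)

lemma D_mem (hx : x ∈ Fil L.w a) (h : c ≤ 2 * (a / 2)) : L.P.D x ∈ Fil L.w c :=
  Fil.sq (c1_mem hx (c := a / 2) (by omega)) h

lemma add_c0_sq_mem (hx : x ∈ Fil L.w (2 * a)) : x + L.P.c0 x ^ 2 ∈ Fil L.w (2 * a + 1) := by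
  have e : x + L.P.c0 x ^ 2 = L.P.b * L.P.c1 x ^ 2 := by have := L.P.spec x; grind
  rw [e]
  exact Fil.mul L.π_mem (Fil.sq (c1_mem hx le_rfl) le_rfl) (by omega)

lemma dlog_mem (x : K) : L.P.D x / x ∈ Fil L.w (-1) :=
  Fil.div (D_mem (mem_Fil_ord x) le_rfl) (by omega)

lemma dlog_mem_even (h : ord L.w x % 2 = 0) : L.P.D x / x ∈ Fil L.w 0 :=
  Fil.div (D_mem (mem_Fil_ord x) le_rfl) (by omega)

lemma dlog_one_add (hx : x ∈ Fil L.w a) (h1 : 1 ≤ a) (h : c ≤ 2 * (a / 2)) :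
    L.P.D (1 + x) / (1 + x) ∈ Fil L.w c := by
  rw [PB.D_add, PB.D_one, zero_add]
  exact Fil.div (D_mem hx h) (by rw [(ord_one_add (Fil.mono hx h1)).2]; omega)

variable (L)

lemma r_sq (x : K) : L.r (x ^ 2) = 0 := by rw [← L.r_c1]; simp

lemma r_D (x : K) : L.r (L.P.D x) = 0 := L.r_sq _

lemma r_congr (h : x + y ∈ Fil L.w 0) : L.r x = L.r y := by
  have := L.r_int _ h
  rw [map_add] at this
  grind

lemma mem_of_r (h : ∀ y ∈ Fil L.w a, L.r (x * y) = 0) : x ∈ Fil L.w (-a) := by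
  by_contra hn
  obtain ⟨h1, h2⟩ := not_mem_Fil.1 hn
  obtain ⟨z, hz, hz'⟩ := L.r_ne
  exact hz' (by simpa [mul_div_cancel₀, h1] using h (z / x) (Fil.div hz (by omega)))

/-- The absolute trace of the value at the place. -/
noncomputable def tau : K →+ ZMod 2 := L.r.comp (AddMonoidHom.mulRight L.P.b⁻¹)

lemma tau_apply (x : K) : L.tau x = L.r (x / L.P.b) := by simp [tau, div_eq_mul_inv]

lemma tau_sq (x : K) : L.tau (x ^ 2) = L.tau x := by
  have hb := L.P.b_ne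
  rw [tau_apply, tau_apply, ← L.r_c1, show x ^ 2 / L.P.b = L.P.b * (x / L.P.b) ^ 2 by field_simp,
    PB.c1_b_sq]

lemma tau_wp (x : K) : L.tau (wp x) = 0 := by rw [wp, map_add, tau_sq, z2_add_self]

lemma tau_one (hx : x ∈ Fil L.w 1) : L.tau x = 0 :=
  L.r_int _ (by rw [AddMonoidHom.mulRight_apply, ← div_eq_mul_inv]
                exact Fil.div hx (by rw [L.hπ]; omega))

lemma tau_congr (h : x + y ∈ Fil L.w 1) : L.tau x = L.tau y := by
  have := L.tau_one h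
  rw [map_add] at this
  grind

lemma tau_ne : ∃ x ∈ Fil L.w 0, L.tau x ≠ 0 := by
  obtain ⟨z, hz, hz'⟩ := L.r_ne
  exact ⟨z * L.P.b, Fil.mul hz L.π_mem (by omega), by simpa [tau_apply, L.P.b_ne] using hz'⟩

lemma r_dlog {β : K} (hβ : β ∈ Fil L.w 0) (hx : x ≠ 0) :
    L.r (β * (L.P.D x / x)) = (ord L.w x : ZMod 2) * L.tau β := by
  have hb := L.P.b_ne
  rcases Int.emod_two_eq_zero_or_one (ord L.w x) with h | h
  · rw [L.r_int _ (Fil.mul hβ (dlog_mem_even h) le_rfl),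
      (ZMod.intCast_zmod_eq_zero_iff_dvd _ 2).2 (by omega), zero_mul]
  · have h1 : ((ord L.w x : ℤ) : ZMod 2) = 1 := by
      rw [← Int.cast_one, ZMod.intCast_eq_intCast_iff']; omega
    have h2 : ord L.w (x / L.P.b) % 2 = 0 := by rw [ord_div hx hb, L.hπ]; omega
    have h3 : L.P.D x = L.P.b * L.P.D (x / L.P.b) + x / L.P.b := by
      conv_lhs => rw [show x = L.P.b * (x / L.P.b) by field_simp, PB.D_mul]
      simp
    rw [h1, one_mul, tau_apply]
    refine L.r_congr ?_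
    rw [show β * (L.P.D x / x) + β / L.P.b = β * (L.P.D (x / L.P.b) / (x / L.P.b)) by
      rw [h3]; field_simp; grind]
    exact Fil.mul hβ (dlog_mem_even h2) le_rfl

/-- The elements that are Artin-Schreier values in the completion. -/
def PW : AddSubgroup K := wpH.range ⊔ Fil L.w 1

lemma mem_PW : x ∈ L.PW ↔ ∃ z, x + wp z ∈ Fil L.w 1 := by
  rw [PW, AddSubgroup.mem_sup]
  refine ⟨?_, fun ⟨z, hz⟩ => ⟨wp z, ⟨z, rfl⟩, _, hz, by grind⟩⟩
  rintro ⟨_, ⟨z, rfl⟩, y, hy, rfl⟩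
  exact ⟨z, by rwa [show wpH z + y + wp z = y by simp only [wpH_apply]; grind]⟩

lemma wp_mem_PW (z : K) : wp z ∈ L.PW := L.mem_PW.2 ⟨z, by simp [two_K]⟩

lemma Fil_le_PW : Fil L.w 1 ≤ L.PW := le_sup_right

lemma tau_PW (hx : x ∈ L.PW) : L.tau x = 0 := by
  obtain ⟨z, hz⟩ := L.mem_PW.1 hx
  rw [L.tau_congr hz, tau_wp]

lemma relIndex_PW : L.PW.relIndex (Fil L.w 0) = 2 := by
  let G := Fil L.w 0 ⧸ (Fil L.w 1).addSubgroupOf (Fil L.w 0)
  have : Finite G := AddSubgroup.index_ne_zero_iff_finite.1 L.fin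
  let f0 : Fil L.w 0 →+ Fil L.w 0 :=
    (wpH.comp (Fil L.w 0).subtype).codRestrict _ fun z => Fil.wp z.2 le_rfl le_rfl
  let f : G →+ G := QuotientAddGroup.map _ _ f0 fun z hz => Fil.wp (a := 1) hz le_rfl (by omega)
  let o : G := QuotientAddGroup.mk ⟨1, Fil.one le_rfl⟩
  have hz0 : ∀ z : Fil L.w 0, (QuotientAddGroup.mk z : G) = 0 ↔ z.1 ∈ Fil L.w 1 := fun z =>
    QuotientAddGroup.eq_zero_iff z
  have heq : ∀ z y : Fil L.w 0, (QuotientAddGroup.mk z : G) = QuotientAddGroup.mk y ↔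
      z.1 + y.1 ∈ Fil L.w 1 := fun z y => by
    rw [← CharTwo.neg_eq z.1]; exact QuotientAddGroup.eq
  have e1 : Nat.card f.ker = 2 := by
    have ho : (0 : G) ≠ o := fun e => by
      have : (1 : K) ∈ Fil L.w 1 := (hz0 _).1 e.symm
      simp [mem_Fil_iff] at this
    rw [← SetLike.coe_sort_coe, Nat.card_coe_set_eq, ← Set.ncard_pair ho]
    congr 1
    ext z
    induction z using QuotientAddGroup.induction_on with
    | H z =>
    have : f (QuotientAddGroup.mk z) = 0 ↔ wp z.1 ∈ Fil L.w 1 := hz0 (f0 z)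
    simp only [SetLike.mem_coe, AddMonoidHom.mem_ker, this, Set.mem_insert_iff,
      Set.mem_singleton_iff, o, hz0, heq]
    refine ⟨fun h => ?_, ?_⟩
    · by_cases h1 : z.1 ∈ Fil L.w 1
      · exact Or.inl h1
      obtain ⟨h2, h3⟩ := ord_eq_of z.2 h1
      exact Or.inr (Fil.of_mul (y := z.1) (by rwa [show (z.1 + 1) * z.1 = wp z.1 by
        unfold wp; ring]) h2 (by omega))
    · rintro (h | h)
      · exact Fil.wp h le_rfl (by omega)
      · rw [show wp z.1 = wp (z.1 + 1) by simp [wp_add]]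
        exact Fil.wp h le_rfl (by omega)
  have e2 : f.range.index = 2 := by rw [AddSubgroup.index_range, e1]
  rw [← e2, AddSubgroup.relIndex, ← AddSubgroup.index_comap_of_surjective _
    (QuotientAddGroup.mk'_surjective _)]
  congr 1
  ext z
  simp only [AddSubgroup.mem_addSubgroupOf, AddSubgroup.mem_comap, mem_PW]
  refine ⟨fun ⟨y, hy⟩ => ?_, fun ⟨y, hy⟩ => ?_⟩
  · have h1 : wp y ∈ Fil L.w 0 := by
      simpa [← add_assoc, two_K] using add_mem z.2 (Fil.mono hy (b := 0) (by omega))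
    exact ⟨QuotientAddGroup.mk ⟨y, Fil.of_wp h1 (by omega) le_rfl⟩,
      (heq (f0 _) z).2 (by rwa [add_comm] at hy)⟩
  · induction y using QuotientAddGroup.induction_on with
    | H y =>
    have : wp y.1 + z.1 ∈ Fil L.w 1 := (heq (f0 y) z).1 hy
    exact ⟨y, by rwa [add_comm] at this⟩

lemma tau_eq_zero (hx : x ∈ Fil L.w 0) : L.tau x = 0 ↔ x ∈ L.PW := by
  refine ⟨fun h => ?_, L.tau_PW⟩
  obtain ⟨z, hz, hz'⟩ := L.tau_ne
  have h1 := AddSubgroup.add_mem_iff_of_index_two L.relIndex_PW (a := ⟨x, hx⟩) (b := ⟨z, hz⟩)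
  simp only [AddSubgroup.mem_addSubgroupOf, AddMemClass.mk_add_mk] at h1
  by_contra hn
  have h2 := L.tau_PW (h1.2 ⟨fun h => absurd h hn, fun h => absurd (L.tau_PW h) hz'⟩)
  rw [map_add, h, zero_add] at h2
  exact hz' h2

lemma exists_reduced (x : K) :
    ∃ z, x + wp z ∈ Fil L.w 0 ∨ (ord L.w (x + wp z) < 0 ∧ ord L.w (x + wp z) % 2 = 1) := by
  obtain ⟨n, hn⟩ : ∃ n : ℕ, x ∈ Fil L.w (-n) :=
    ⟨(ord L.w x).natAbs, mem_Fil_of_le (by omega)⟩
  induction n generalizing x with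
  | zero => exact ⟨0, Or.inl (by simpa using hn)⟩
  | succ n ih =>
    by_cases h1 : x ∈ Fil L.w (-n)
    · exact ih x h1
    obtain ⟨h2, h3⟩ := ord_eq_of hn (by simpa using h1)
    rcases Int.emod_two_eq_zero_or_one (ord L.w x) with h | h
    · have h4 : x ∈ Fil L.w (2 * (ord L.w x / 2)) := mem_Fil_of_le (by omega)
      obtain ⟨z, hz⟩ := ih (x + wp (L.P.c0 x)) (by
        rw [wp, ← add_assoc]
        exact add_mem (Fil.mono (add_c0_sq_mem h4) (by omega)) (c0_mem h4 (by omega)))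
      exact ⟨L.P.c0 x + z, by rwa [wp_add, ← add_assoc]⟩
    · exact ⟨0, Or.inr (by simp only [wp_zero, add_zero]; omega)⟩

lemma r_wp_dlog (z x : K) : L.r (wp z * (L.P.D x / x)) = 0 := by
  have e : L.P.c1 (L.P.D x / x) = L.P.D x / x := by
    by_cases hx : x = 0
    · simp [hx]
    rw [show L.P.D x / x = (L.P.c1 x / x) ^ 2 * x by unfold PB.D; field_simp, PB.c1_sq_mul]
    field_simp
  rw [wp, add_mul, map_add, ← L.r_c1 (z ^ 2 * _), PB.c1_sq_mul, e, z2_add_self]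

lemma r_PW_dlog {α : K} (h : α ∈ L.PW) (x : K) : L.r (α * (L.P.D x / x)) = 0 := by
  obtain ⟨z, hz⟩ := L.mem_PW.1 h
  rw [← L.r_wp_dlog z x]
  exact L.r_congr (by rw [← add_mul]; exact Fil.mul hz (dlog_mem x) (by omega))

lemma int_of_r_dlog {α : K} (h : ∀ x, x ≠ 0 → ord L.w x = 0 → L.r (α * (L.P.D x / x)) = 0) :
    ∃ z, α + wp z ∈ Fil L.w 0 := by
  obtain ⟨z, hz | ⟨h1, h2⟩⟩ := L.exists_reduced α
  · exact ⟨z, hz⟩
  exfalso
  set β := α + wp z with hβ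
  have h0 : β ≠ 0 := fun e => by simp [e] at h1
  obtain ⟨y, hy, hy'⟩ := L.r_ne
  have h3 : y / β ∈ Fil L.w (2 * ((-1 - ord L.w β) / 2)) := Fil.div hy (by omega)
  have h4 := c0_mem h3 (c := (-1 - ord L.w β) / 2) (by omega)
  have h5 := add_c0_sq_mem h3
  set g := L.P.c0 (y / β)
  have h6 : L.P.b * g ^ 2 ∈ Fil L.w (-ord L.w β) :=
    Fil.mul L.π_mem (Fil.sq h4 le_rfl) (by omega)
  obtain ⟨h7, h8⟩ := ord_one_add (Fil.mono h6 (by omega))
  have h9 := h _ h7 h8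
  have h10 := L.r_wp_dlog z (1 + L.P.b * g ^ 2)
  have h11 : L.r (β * (L.P.D (1 + L.P.b * g ^ 2) / (1 + L.P.b * g ^ 2))) = 0 := by
    rw [hβ, add_mul, map_add, h9, h10, add_zero]
  refine hy' (by
    rw [← h11]
    refine L.r_congr ?_
    have e : L.P.D (1 + L.P.b * g ^ 2) = g ^ 2 := by simp [PB.D_add, PB.D_mul]
    rw [e, show y + β * (g ^ 2 / (1 + L.P.b * g ^ 2)) = β * (y / β + g ^ 2) +
      β * g ^ 2 * (L.P.b * g ^ 2) / (1 + L.P.b * g ^ 2) by field_simp; grind]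
    exact add_mem (Fil.mul (mem_Fil_ord β) h5 (by omega))
      (Fil.div (Fil.mul (Fil.mul (mem_Fil_ord β) (Fil.sq h4 le_rfl) le_rfl) h6 le_rfl) (by omega)))

lemma PW_of_r_dlog {α : K} (h : ∀ x, x ≠ 0 → L.r (α * (L.P.D x / x)) = 0) : α ∈ L.PW := by
  obtain ⟨z, hz⟩ := L.int_of_r_dlog fun x hx _ => h x hx
  have h1 := L.r_dlog hz L.P.b_ne
  rw [add_mul, map_add, h _ L.P.b_ne, r_wp_dlog, L.hπ, add_zero, Int.cast_one, one_mul] at h1
  simpa [add_assoc, two_K] using add_mem ((L.tau_eq_zero hz).1 h1.symm) (L.wp_mem_PW z)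

end PreLoc

end Pool.Agent.Lib.MP_a3f657_nt.Two
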