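import Pool.Agent.Lib.MP_a3f657_nt.C2Kap
import Pool.Agent.Lib.MP_a3f657_nt.C2Loc

/-!
The image of the descent map in terms of pairs (function, form).
-/

set_option linter.unusedSectionVars false

namespace Pool.Agent.Lib.MP_a3f657_nt.Two

variable {K : Type} [Field K] [CharP K 2] (P : PB K) (A : K)

/-- `(α, u) ↦ α + u ^ 2 + u`. -/
def awp : K × K →+ K := AddMonoidHom.fst K K + wpH.comp (AddMonoidHom.snd K K)

@[simp] lemma awp_apply (α u : K) : awp (α, u) = α + wp u := rfl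

/-- The pairs that represent a class of the first cohomology of the 2-torsion. -/
noncomputable def Ht : AddSubgroup (K × K) := (P.c0h.comp awp).ker

/-- The class of a pair. -/
noncomputable def cls : K × K →+ K := P.c1h.comp awp

/-- The pairs that represent a class in the image of the descent map. -/
noncomputable def Lt : AddSubgroup (K × K) := Ht P ⊓ (LL P A).comap (cls P)

/-- First components. -/
noncomputable def AA : AddSubgroup K := (Lt P A).map (AddMonoidHom.fst K K)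

/-- Second components of the pairs with vanishing first component. -/
noncomputable def BB : AddSubgroup K := (Lt P A).comap (AddMonoidHom.inr K K)

/-- Logarithmic forms. -/
noncomputable def Log : AddSubgroup K := (P.c0h + AddMonoidHom.id K).ker

/-- `s ↦ B s ^ 2`. -/
def bsq : K →+ K where
  toFun s := P.b * s ^ 2
  map_zero' := by simp
  map_add' x y := by grind

/-- The classes that come from `μ₂`. -/
def NN : AddSubgroup K := wpH.range.comap (bsq P)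

variable {P A} {α u s : K}

lemma mem_Ht : (α, u) ∈ Ht P ↔ P.c0 (α + wp u) = 0 := Iff.rfl

lemma cls_apply : cls P (α, u) = P.c1 (α + wp u) := rfl

lemma bsq_apply : bsq P s = P.b * s ^ 2 := rfl

lemma mem_Lt' : (α, u) ∈ Lt P A ↔ P.c0 (α + wp u) = 0 ∧ P.c1 (α + wp u) ∈ LL P A := Iff.rfl

lemma mem_Lt'' : (α, u) ∈ Lt P A ↔ ∃ s ∈ LL P A, α + wp u = P.b * s ^ 2 :=
  ⟨fun h => ⟨_, h.2, P.eq_b_sq h.1⟩, fun ⟨s, hs, e⟩ => mem_Lt'.2 (by simpa [e] using hs)⟩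

lemma mem_Log : u ∈ Log P ↔ P.c0 u = u := by
  change P.c0 u + u = 0 ↔ _
  grind

lemma mem_Log' : u ∈ Log P ↔ (0, u) ∈ Ht P := by
  rw [mem_Log, mem_Ht, zero_add, PB.c0_wp]; grind

lemma dl_mem_Log (x : K) : P.dl x ∈ Log P := mem_Log.2 (P.c0_dl x)

lemma mem_AA : α ∈ AA P A ↔ ∃ u, (α, u) ∈ Lt P A :=
  ⟨fun ⟨⟨_, u⟩, h, e⟩ => ⟨u, by cases e; exact h⟩, fun ⟨_, h⟩ => ⟨_, h, rfl⟩⟩

lemma mem_BB : u ∈ BB P A ↔ (0, u) ∈ Lt P A := Iff.rfl

lemma BB_le_Log : BB P A ≤ Log P := fun _ h => mem_Log'.2 h.1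

lemma wp_mem_Lt (c : K) : (wp c, c) ∈ Lt P A := mem_Lt''.2 ⟨0, zero_mem _, by simp [two_K]⟩

lemma one_mem_BB : (1 : K) ∈ BB P A := by simpa [mem_BB] using wp_mem_Lt (P := P) (A := A) 1

lemma wp_mem_AA (c : K) : wp c ∈ AA P A := mem_AA.2 ⟨c, wp_mem_Lt c⟩

lemma bsq_mem_Ht (s : K) : (P.b * s ^ 2, 0) ∈ Ht P := by simp [mem_Ht]

lemma bsq_mem_Lt : (P.b * s ^ 2, 0) ∈ Lt P A ↔ s ∈ LL P A := by simp [mem_Lt']

lemma mem_Lt : (α, u) ∈ Lt P A ↔ α = wp u ∨ ∃ x l l' : K, x ≠ 0 ∧ wp l = x + A + P.b / x ^ 2 ∧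
    wp l' = α + P.b / x ^ 2 ∧ u = l' + P.dl x := by
  rw [mem_Lt'']
  refine ⟨?_, ?_⟩
  · rintro ⟨s, hs, e⟩
    rcases mem_LL.1 hs with rfl | ⟨x, ⟨hx, l, hl⟩, rfl⟩
    · exact Or.inl (by grind)
    · refine Or.inr ⟨x, l, u + P.dl x, hx, hl, ?_, by grind⟩
      rw [P.b_kap_sq hx] at e
      rw [wp_add]
      grind
  · rintro (rfl | ⟨x, l, l', hx, hl, hl', rfl⟩)
    · exact ⟨0, zero_mem _, by simp [two_K]⟩
    · exact ⟨P.kap x, mem_LL.2 (Or.inr ⟨x, ⟨hx, l, hl⟩, rfl⟩), by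
        rw [P.b_kap_sq hx, wp_add, hl']; grind⟩

lemma sub_mem_BB {u' : K} (h : (α, u) ∈ Lt P A) (h' : (α, u') ∈ Lt P A) : u + u' ∈ BB P A := by
  simpa [mem_BB, two_K] using add_mem h h'

lemma add_mem_Lt {u' : K} (h : (α, u) ∈ Lt P A) (h' : u' ∈ BB P A) : (α, u + u') ∈ Lt P A := by
  simpa using add_mem h h'

lemma sub_mem_Log {u' : K} (h : (α, u) ∈ Ht P) (h' : (α, u') ∈ Ht P) : u + u' ∈ Log P := by
  simpa [mem_Log', two_K] using add_mem h h'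

section rho

variable {ρ : K →+ ZMod 2} (hρ : ∀ x, ρ (P.c0 x) = ρ x)
include hρ

lemma rho_wp_Log (c : K) (h : u ∈ Log P) : ρ (wp c * u) = 0 := PB.rho_wp_mul hρ (mem_Log.1 h) c

lemma rho_orth' {u' : K} (h : (α, u) ∈ Lt P A) (h' : (α, u') ∈ Lt P A) : ρ (α * (u + u')) = 0 := by
  have hL := sub_mem_Log h.1 h'.1
  rcases mem_Lt.1 h with rfl | ⟨x, l, l', hx, -, hl', rfl⟩
  · exact rho_wp_Log hρ _ hL
  rcases mem_Lt.1 h' with rfl | ⟨y, m, m', hy, -, hm', rfl⟩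
  · exact rho_wp_Log hρ _ hL
  exact PB.two_con hρ ⟨x, l', hx, hl', rfl⟩ ⟨y, m', hy, hm', rfl⟩

lemma rho_orth (h : α ∈ AA P A) (h' : u ∈ BB P A) : ρ (α * u) = 0 := by
  obtain ⟨u', h⟩ := mem_AA.1 h
  simpa [← add_assoc, two_K] using rho_orth' hρ h (add_mem_Lt h h')

lemma rho_alt (h : (P.b * s ^ 2, u) ∈ Lt P A) : ρ (P.b * s ^ 2 * (u + P.dl s)) = 0 := by
  by_cases hs : s = 0
  · simp [hs]
  have hL : u ∈ Log P := by simpa using sub_mem_Log h.1 (bsq_mem_Ht s)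
  rcases mem_Lt.1 h with e | ⟨x, l, l', hx, -, hl', rfl⟩
  · rw [e]; exact rho_wp_Log hρ _ (add_mem hL (dl_mem_Log s))
  simpa [PB.dl_inv] using PB.two_con hρ ⟨x, l', hx, hl', rfl⟩
    ⟨s⁻¹, 0, inv_ne_zero hs, by simp [two_K], rfl⟩

lemma rho_NN {s' : K} (h : s ∈ NN P) (h' : s' ∈ NN P) : ρ (P.b * (s * s')) = 0 := by
  obtain ⟨u, hu⟩ := h
  obtain ⟨u', hu'⟩ := h'
  rw [wpH_apply, bsq_apply] at hu hu'
  have e1 : P.c1 u = s := by rw [← PB.c1_wp, hu, PB.c1_b_sq]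
  have e2 : P.c1 u' = s' := by rw [← PB.c1_wp, hu', PB.c1_b_sq]
  have e3 : P.c0 u = u := by have := P.c0_wp u; rw [hu, PB.c0_b_sq] at this; grind
  have e4 : P.c0 u' = u' := by have := P.c0_wp u'; rw [hu', PB.c0_b_sq] at this; grind
  have := hρ (u * u')
  rw [PB.c0_mul, e1, e2, e3, e4, map_add] at this
  simpa using this

end rho

variable (P A)

lemma AA_eq : AA P A = (LL P A).map (bsq P) ⊔ wpH.range := by
  refine le_antisymm (fun α h => ?_) (sup_le ?_ ?_)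
  · obtain ⟨u, h⟩ := mem_AA.1 h
    obtain ⟨s, hs, e⟩ := mem_Lt''.1 h
    exact AddSubgroup.mem_sup.2 ⟨_, ⟨s, hs, rfl⟩, _, ⟨u, rfl⟩, by
      rw [bsq_apply, ← e, wpH_apply]; grind⟩
  · rintro _ ⟨s, hs, rfl⟩
    exact mem_AA.2 ⟨0, bsq_mem_Lt.2 hs⟩
  · rintro _ ⟨c, rfl⟩
    exact wp_mem_AA c

lemma relIndex_AA : wpH.range.relIndex (AA P A) = (NN P).relIndex (LL P A) := by
  rw [AA_eq, AddSubgroup.relIndex_sup_right, NN, AddSubgroup.relIndex_comap]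

lemma NN_eq : NN P = (Log P).map P.c1h := by
  ext s
  refine ⟨fun ⟨u, hu⟩ => ?_, ?_⟩
  · rw [wpH_apply, bsq_apply] at hu
    refine ⟨u, mem_Log'.2 (by rw [mem_Ht, zero_add, hu, PB.c0_b_sq]), ?_⟩
    change P.c1 u = s
    rw [← PB.c1_wp, hu, PB.c1_b_sq]
  · rintro ⟨u, hu, rfl⟩
    refine ⟨u, ?_⟩
    have := P.eq_b_sq (mem_Ht.1 (mem_Log'.1 hu))
    rwa [zero_add, PB.c1_wp] at this

lemma relIndex_BB : (BB P A).relIndex (Log P) = (LL P A).relIndex (NN P) := by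
  rw [NN_eq, ← AddSubgroup.relIndex_comap, ← AddSubgroup.inf_relIndex_right (BB P A),
    ← AddSubgroup.inf_relIndex_right ((LL P A).comap _)]
  congr 1
  ext u
  simp only [AddSubgroup.mem_inf, mem_BB, mem_Lt', zero_add, PB.c1_wp, AddSubgroup.mem_comap]
  exact and_congr_left fun h => and_iff_right (by simpa [mem_Ht] using mem_Log'.1 h)

variable {P A}

section map

variable {L : Type} [Field L] [CharP L 2] {Q : PB L} {f : K →+* L} (h : Q.b = f P.b)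
include h

lemma Ht_map : (f α, f u) ∈ Ht Q ↔ (α, u) ∈ Ht P := by
  rw [mem_Ht, mem_Ht, show f α + wp (f u) = f (α + wp u) by simp [wp], P.map_c0 h, map_eq_zero]

lemma Log_map : f u ∈ Log Q ↔ u ∈ Log P := by
  rw [mem_Log, mem_Log, P.map_c0 h, f.injective.eq_iff]

end map

namespace PreLoc

variable (L : PreLoc K) (P)

/-- The absolute trace of the residue of `x dB / B`. -/
noncomputable def rho : K →+ ZMod 2 := L.r.comp (AddMonoidHom.mulRight (L.P.D P.b / P.b))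

lemma rho_apply (x : K) : L.rho P x = L.r (x * (L.P.D P.b / P.b)) := rfl

lemma rho_c0 (x : K) : L.rho P (P.c0 x) = L.rho P x := by
  have hb := P.b_ne
  rw [rho_apply, rho_apply, ← L.r_c1 (x * _)]
  congr 1
  conv_rhs => rw [P.spec x]
  rw [show (P.c0 x ^ 2 + P.b * P.c1 x ^ 2) * (L.P.D P.b / P.b) =
    (P.c0 x * L.P.c1 P.b / P.b) ^ 2 * P.b + (P.c1 x * L.P.c1 P.b) ^ 2 by
      unfold PB.D; field_simp, PB.c1_add, PB.c1_sq, PB.c1_sq_mul, PB.D]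
  ring

lemma dl_mul_omega (x : K) : P.dl x * (L.P.D P.b / P.b) = L.P.D x / x := by
  have hb := P.b_ne
  rw [PB.dl_eq, L.P.D_chain P x]
  by_cases hx : x = 0
  · simp [hx]
  · field_simp

lemma rho_dl (α x : K) : L.rho P (α * P.dl x) = L.r (α * (L.P.D x / x)) := by
  rw [rho_apply, mul_assoc, dl_mul_omega]

/-- The pairing `(x, y) ↦ ρ (x y)`. -/
noncomputable def pair : K →+ K →+ ZMod 2 := AddMonoidHom.mul.compr₂ (L.rho P)

@[simp] lemma pair_apply (x y : K) : L.pair P x y = L.rho P (x * y) := rfl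

lemma PW_of_rho (h : ∀ u ∈ Log P, L.rho P (α * u) = 0) : α ∈ L.PW :=
  L.PW_of_r_dlog fun x _ => by rw [← L.rho_dl P]; exact h _ (dl_mem_Log x)

lemma rho_PW (h : α ∈ L.PW) (hu : u ∈ Log P) : L.rho P (α * u) = 0 := by
  obtain ⟨x, -, rfl⟩ := P.exists_dl (mem_Log.1 hu)
  rw [rho_dl, L.r_PW_dlog h]

lemma Log_omega_mem (hu : u ∈ Log P) : u * (L.P.D P.b / P.b) ∈ Fil L.w (-1) := by
  obtain ⟨x, -, rfl⟩ := P.exists_dl (mem_Log.1 hu)
  rw [dl_mul_omega]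
  exact dlog_mem x

end PreLoc

end Pool.Agent.Lib.MP_a3f657_nt.Two
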