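import Pool.Agent.Lib.MP_a3f657_nt.C2Cfg
import Pool.Agent.Lib.MP_a3f657_nt.C2AnDefs

/-!
The order of the Selmer group as a character sum.
-/

set_option linter.unusedSectionVars false

namespace Pool.Agent.Lib.MP_a3f657_nt.Two

open Polynomial IsDedekindDomain

open scoped Classical

/-- The real sign character. -/
def sr (a : ZMod 2) : ℝ := if a = 0 then 1 else -1

lemma sr_zero : sr 0 = 1 := if_pos rfl

lemma sr_one : sr 1 = -1 := if_neg one_ne_zero

lemma sr_add (a b : ZMod 2) : sr (a + b) = sr a * sr b := by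
  rcases z2_cases a with rfl | rfl <;> rcases z2_cases b with rfl | rfl <;>
    simp [sr_zero, sr_one, z2_add_self]

lemma abs_sr (a : ZMod 2) : |sr a| = 1 := by
  rcases z2_cases a with rfl | rfl <;> simp [sr_zero, sr_one]

lemma sr_sum {ι : Type} (s : Finset ι) (f : ι → ZMod 2) : sr (∑ i ∈ s, f i) = ∏ i ∈ s, sr (f i) := by
  induction s using Finset.induction_on with
  | empty => simp [sr_zero]
  | insert a s ha ih => rw [Finset.sum_insert ha, Finset.prod_insert ha, sr_add, ih]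

lemma sum_sr {G : Type} [AddCommGroup G] [Fintype G] (φ : G →+ ZMod 2) :
    ∑ g, sr (φ g) = if φ = 0 then (Nat.card G : ℝ) else 0 := by
  split_ifs with h
  · simp [h, sr_zero]
  · obtain ⟨g, hg⟩ := DFunLike.ne_iff.1 h
    have := Equiv.sum_comp (Equiv.addRight g) fun x => sr (φ x)
    simp only [Equiv.coe_addRight, map_add, sr_add, (z2_cases _).resolve_left hg, sr_one,
      mul_neg, mul_one, Finset.sum_neg_distrib] at this
    linarith

variable {k : Type} [Field k] [Finite k] [CharP k 2]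

/-- The place of a prime polynomial. -/
noncomputable def plc (p : k[X]) : Pl k := if h : Irreducible p then some (ofIrr p h) else none

/-- The trace of the value at a prime polynomial. -/
noncomputable def tp (p : k[X]) : RatFunc k →+ ZMod 2 := (pl (plc p)).tau

/-- The numerator with respect to the denominator `M`. -/
noncomputable def nm (M : k[X]) (α : RatFunc k) : k[X] := pol (α * ι M)

/-- The roots of the Artin-Schreier equation modulo `p`. -/
noncomputable def Rt (p : k[X]) (α : RatFunc k) : Finset k[X] :=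
  (finite_degree_lt p.degree).toFinset.filter fun c => α + wp (ι c) ∈ Fil (val (plc p)) 1

/-- The local weight. -/
noncomputable def gR (α α' : RatFunc k) (p : k[X]) : ℝ := ∑ c ∈ Rt p α, sr (tp p (ι c * α'))

variable {M p : k[X]} {α α' : RatFunc k}

lemma plc_eq (h1 : p.Monic) (h2 : Irreducible p) : ∃ v, plc p = some v ∧ gen v = p :=
  ⟨_, dif_pos h2, gen_ofIrr h2 h1⟩

lemma plc_gen (v : HeightOneSpectrum k[X]) : plc (gen v) = some v := by
  obtain ⟨u, h1, h2⟩ := plc_eq (gen_monic v) (gen_irr v)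
  rw [h1, gen_inj h2]

lemma plc_inj {F : Finset k[X]} (hF : ∀ p ∈ F, p.Monic ∧ Irreducible p) :
    Set.InjOn plc (F : Set k[X]) := fun p hp p' hp' e => by
  obtain ⟨v, h1, rfl⟩ := plc_eq (hF p hp).1 (hF p hp).2
  obtain ⟨v', h2, rfl⟩ := plc_eq (hF p' hp').1 (hF p' hp').2
  rw [h1, h2] at e
  rw [Option.some.inj e]

lemma mem_Rt {c : k[X]} :
    c ∈ Rt p α ↔ c.degree < p.degree ∧ α + wp (ι c) ∈ Fil (val (plc p)) 1 := by
  simp [Rt]

lemma sgP_eq_sr (hp : GoodP M p) (n : k[X]) : sgP p M n = sr (tp p (ι n / ι M)) := by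
  obtain ⟨v, h1, rfl⟩ := plc_eq hp.1 hp.2.1
  rw [sgP, tp, h1, sr, ← tau_eq_zero_iff hp.2.2]
  split_ifs <;> simp

lemma gK_eq (hp : GoodP M p) {n n' : k[X]} (hn : ι n = α * ι M) (hn' : ι n' = α' * ι M) :
    gK M n n' p = gR α α' p := by
  have h0 : ι M ≠ 0 := ι_ne fun e => hp.2.2 (e ▸ dvd_zero _)
  have e : {c : k[X] | c.degree < p.degree ∧ p ∣ M * (c ^ 2 + c) + n} = Rt p α := by
    obtain ⟨v, h1, rfl⟩ := plc_eq hp.1 hp.2.1
    ext c
    rw [Finset.mem_coe, mem_Rt, h1, Set.mem_ofPred_eq, ← ι_mem_one,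
      show ι (M * (c ^ 2 + c) + n) = (α + wp (ι c)) * ι M by
        simp only [ι, wp, map_add, map_mul, map_pow] at hn ⊢
        rw [hn]
        ring]
    exact and_congr_right fun _ => ⟨fun h => Fil.of_mul h h0 (by rw [ord_ι_unit hp.2.2]; rfl),
      fun h => Fil.mul h (ι_int v M) (by omega)⟩
  rw [gK, e, finsum_mem_coe_finset, gR, Complex.ofReal_sum]
  refine Finset.sum_congr rfl fun c _ => ?_
  rw [sgP_eq_sr hp, ι, map_mul, mul_div_assoc, ← ι, ← ι, hn', mul_div_cancel_right₀ _ h0]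

lemma Rt_cases (h1 : p.Monic) (h2 : Irreducible p) (α : RatFunc k) :
    Rt p α = ∅ ∨ tp p α = 0 ∧ ∃ c, c ≠ c + 1 ∧ Rt p α = {c, c + 1} := by
  refine (Rt p α).eq_empty_or_nonempty.imp_right ?_
  rintro ⟨c, hc⟩
  obtain ⟨v, h3, rfl⟩ := plc_eq h1 h2
  obtain ⟨h4, h5⟩ := mem_Rt.1 hc
  have h6 : (1 : k[X]).degree < (gen v).degree := by
    rw [degree_one]
    exact degree_pos_of_irreducible h2
  have h7 := (degree_add_le _ _).trans_lt (max_lt h4 h6)
  refine ⟨(pl _).tau_PW ((pl _).mem_PW.2 ⟨_, h5⟩), c, by simp, Finset.ext fun c' => ?_⟩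
  rw [mem_Rt, Finset.mem_insert, Finset.mem_singleton]
  refine ⟨fun h => ?_, ?_⟩
  · have h8 := add_mem h.2 h5
    rw [h3, show α + wp (ι c') + (α + wp (ι c)) = ι ((c' - c) * (c' - (c + 1))) by
      simp only [ι, wp, map_add, map_mul, map_sub, map_one]
      grind, ι_mem_one] at h8
    refine ((gen_prime v).dvd_or_dvd h8).imp (fun h9 => ?_) fun h9 => ?_
    · exact sub_eq_zero.1 (eq_zero_of_dvd_of_degree_lt h9
        ((degree_sub_le _ _).trans_lt (max_lt h.1 h4)))
    · exact sub_eq_zero.1 (eq_zero_of_dvd_of_degree_lt h9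
        ((degree_sub_le _ _).trans_lt (max_lt h.1 h7)))
  · rintro (rfl | rfl)
    · exact ⟨h4, h5⟩
    · exact ⟨h7, by simpa [ι, wp_add] using h5⟩

lemma abs_gR_le (h1 : p.Monic) (h2 : Irreducible p) (α α' : RatFunc k) :
    |gR α α' p| ≤ 1 + sr (tp p α) ∧ |gR α α' p| ≤ 1 + sr (tp p α') := by
  have h3 := fun a => (abs_le.1 (abs_sr a).le).1
  rcases Rt_cases h1 h2 α with h | ⟨h, c, h4, h5⟩
  · rw [gR, h, Finset.sum_empty, abs_zero]
    exact ⟨by linarith [h3 (tp p α)], by linarith [h3 (tp p α')]⟩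
  · rw [gR, h5, Finset.sum_pair h4, h, ι, ι, map_add, map_one, add_mul, map_add, sr_add, one_mul,
      ← mul_one_add, abs_mul, abs_sr, one_mul, abs_of_nonneg (by linarith [h3 (tp p α')]), sr_zero]
    exact ⟨by linarith [(abs_le.1 (abs_sr (tp p α')).le).2], le_rfl⟩

variable (D : Dat k) (F : Finset k[X])

/-- The term of the double character sum. -/
noncomputable def Tm (α α' : RatFunc k) : ℝ := sr (D.CC α α') * ∏ p ∈ F, gR α α' p

/-- The functional attached to a function and residues. -/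
noncomputable def phi (α : RatFunc k) (r : F → k[X]) : D.V →+ ZMod 2 :=
  (D.CC α + ∑ p : F, (tp p.1).comp (AddMonoidHom.mulLeft (ι (r p)))).comp D.V.subtype

lemma phi_apply (α : RatFunc k) (r : F → k[X]) (α' : D.V) :
    phi D F α r α' = D.CC α α' + ∑ p : F, tp p.1 (ι (r p) * α') := by
  simp [phi]

/-- The subsets that are killed by `V`. -/
def Jv (s : Finset k[X]) : Prop := ∀ α ∈ D.V, ∑ p ∈ s, tp p α = 0

/-- The number of nontrivial subsets that are killed by `V`. -/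
noncomputable def nb : ℕ :=
  (F.powerset.filter fun s => s ≠ ∅ ∧ s ≠ F ∧ Jv D s ∧ Jv D (F \ s)).card

/-- Exceptional pairs. -/
def Exc (α α' : RatFunc k) : Prop := α ∈ wpH.range ∨ α' ∈ wpH.range ∨ α + α' ∈ wpH.range

variable [Fintype D.V]

/-- The virtual Selmer set. -/
noncomputable def Zv : Finset (Σ _ : D.V, F → k[X]) :=
  Finset.univ.sigma fun α => (Fintype.piFinset fun p : F => Rt p.1 α).filter fun r =>
    phi D F α r = 0

lemma sum_Tm : ∑ α : D.V, ∑ α' : D.V, Tm D F α α' = Nat.card D.V * (Zv D F).card := by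
  rw [Zv, Finset.card_sigma, Nat.cast_sum, Finset.mul_sum]
  refine Finset.sum_congr rfl fun α _ => ?_
  simp only [Tm, ← Finset.prod_coe_sort F, gR, Finset.prod_univ_sum, Finset.mul_sum, ← sr_sum,
    ← sr_add, ← phi_apply]
  rw [Finset.sum_comm]
  simp only [sum_sr]
  rw [← Finset.sum_filter, Finset.sum_const, nsmul_eq_mul, mul_comm]

variable {D F} (hF : ∀ p ∈ F, p.Monic ∧ Irreducible p)
include hF

lemma sum_w : ∑ α : D.V, ∏ p ∈ F, (1 + sr (tp p α)) =
    Nat.card D.V * (F.powerset.filter (Jv D)).card := by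
  simp only [Finset.prod_one_add, ← sr_sum]
  rw [Finset.sum_comm, mul_comm, ← nsmul_eq_mul, ← Finset.sum_const, Finset.sum_filter]
  refine Finset.sum_congr rfl fun s _ => ?_
  have := sum_sr ((∑ p ∈ s, tp p).comp D.V.subtype)
  simp only [AddMonoidHom.comp_apply, AddMonoidHom.finsetSum_apply, AddSubgroup.subtype_apply] at this
  rw [this]
  refine if_congr ⟨fun h α hα => ?_, fun h => AddMonoidHom.ext fun α => ?_⟩ rfl rfl
  · simpa using DFunLike.congr_fun h ⟨α, hα⟩
  · simpa using h α α.2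

lemma abs_Tm_le (α α' : RatFunc k) : |Tm D F α α'| ≤ ∏ p ∈ F, (1 + sr (tp p α)) ∧
    |Tm D F α α'| ≤ ∏ p ∈ F, (1 + sr (tp p α')) := by
  rw [Tm, abs_mul, abs_sr, one_mul, Finset.abs_prod]
  exact ⟨Finset.prod_le_prod (fun _ _ => abs_nonneg _) fun p hp =>
    (abs_gR_le (hF p hp).1 (hF p hp).2 α α').1, Finset.prod_le_prod (fun _ _ => abs_nonneg _)
    fun p hp => (abs_gR_le (hF p hp).1 (hF p hp).2 α α').2⟩

omit hF in
lemma card_E : 2 * (Finset.univ.filter fun α : D.V => α.1 ∈ wpH.range).card = Nat.card D.C0 := by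
  have e1 : D.C0.map wpH = (wpH.range.addSubgroupOf D.V).map D.V.subtype := by
    rw [Dat.C0, AddSubgroup.map_comap_eq, AddSubgroup.addSubgroupOf_map_subtype]
  have e2 : Nat.card (wpH.ker.addSubgroupOf D.C0) = 2 := by
    rw [← AddSubgroup.card_map_of_injective D.C0.subtype_injective, ← SetLike.coe_sort_coe,
      Nat.card_coe_set_eq]
    refine (congrArg Set.ncard (Set.ext fun u => ?_)).trans (Set.ncard_pair zero_ne_one)
    refine ⟨?_, fun hu => ⟨⟨u, ?_⟩, wp_eq_zero.2 hu, rfl⟩⟩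
    · rintro ⟨u, hu, rfl⟩
      exact wp_eq_zero.1 hu
    · change wp u ∈ D.V
      rw [wp_eq_zero.2 hu]
      exact zero_mem _
  rw [← (wpH.ker.addSubgroupOf D.C0).index_mul_card, e2, ← AddSubgroup.relIndex,
    AddSubgroup.relIndex_ker, e1, AddSubgroup.card_map_of_injective D.V.subtype_injective, mul_comm,
    ← Fintype.card_subtype, ← Nat.card_eq_fintype_card]
  rfl

lemma sum_exc : ∑ x : D.V × D.V with Exc x.1.1 x.2.1, Tm D F x.1 x.2 ≤
    3 / 2 * Nat.card D.C0 * (Nat.card D.V * (F.powerset.filter (Jv D)).card) := by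
  set w := fun α : D.V => ∏ p ∈ F, (1 + sr (tp p α))
  set e := fun α : D.V => if α.1 ∈ wpH.range then (1 : ℝ) else 0
  have hw : ∀ α, 0 ≤ w α := fun α => (abs_nonneg _).trans (abs_Tm_le (D := D) hF α α).1
  have he : ∀ α, 0 ≤ e α := fun α => by positivity
  have h1 : ∑ α, e α = Nat.card D.C0 / 2 := by
    rw [← card_E, ← Finset.sum_filter]
    simp
  have h2 : ∀ α, ∑ α', e (α + α') = Nat.card D.C0 / 2 := fun α =>
    (Equiv.sum_comp (Equiv.addLeft α) e).trans h1
  calc _ ≤ ∑ x : D.V × D.V, (e x.1 * w x.2 + w x.1 * e x.2 + w x.1 * e (x.1 + x.2)) := by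
        rw [Finset.sum_filter]
        refine Finset.sum_le_sum fun x _ => ?_
        have h3 := abs_Tm_le (D := D) hF x.1 x.2
        have h4 := le_abs_self (Tm D F x.1 x.2)
        have h5 := mul_nonneg (he x.1) (hw x.2)
        have h6 := mul_nonneg (hw x.1) (he x.2)
        have h7 := mul_nonneg (hw x.1) (he (x.1 + x.2))
        split_ifs with h
        · rcases h with h | h | h
          · have : e x.1 = 1 := if_pos h
            rw [this] at h5 ⊢
            linarith [h3.2]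
          · have : e x.2 = 1 := if_pos h
            rw [this] at h6 ⊢
            linarith [h3.1]
          · have : e (x.1 + x.2) = 1 := if_pos h
            rw [this] at h7 ⊢
            linarith [h3.1]
        · linarith
    _ = _ := by
        simp only [Fintype.sum_prod_type, Finset.sum_add_distrib, ← Finset.mul_sum, h1, h2,
          ← Finset.sum_mul]
        rw [sum_w hF]
        ring

variable {W : WeierstrassCurve (RatFunc k)} {P : PB (RatFunc k)} (h : Cfg D W P (F.image plc))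
include h

lemma Cfg.pairing' {u : RatFunc k} (hz : (α, u) ∈ ZZ D W P) (hα : α' ∈ D.V) :
    D.CC α α' + ∑ p ∈ F, tp p (u * α') = 0 := by
  rw [← h.pairing hz hα, Finset.sum_image (plc_inj hF)]
  rfl

lemma Cfg.Jv_all : Jv D F := fun α hα => by
  have h1 := h.pairing' hF (α := 0) (u := 0) (zero_mem _) hα
  have h2 := h.pairing' hF (mem_ZZ.2 ⟨fun v => Cmp.mem_BB.1 Cmp.one_mem_BB, zero_mem _⟩) hα
  simp only [zero_mul, map_zero, Finset.sum_const_zero, add_zero, one_mul] at h1 h2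
  rwa [h1, zero_add] at h2

lemma Cfg.card_Jv : (F.powerset.filter (Jv D)).card ≤ 2 + nb D F := by
  refine (Finset.card_le_card (t := {∅, F} ∪ _) fun s hs => ?_).trans
    ((Finset.card_union_le _ _).trans (add_le_add_left Finset.card_le_two _))
  rw [Finset.mem_filter] at hs
  simp only [Finset.mem_union, Finset.mem_insert, Finset.mem_singleton, Finset.mem_filter]
  by_cases h1 : s = ∅ ∨ s = F
  · exact Or.inl h1
  refine Or.inr ⟨hs.1, fun e => h1 (.inl e), fun e => h1 (.inr e), hs.2, fun α hα => ?_⟩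
  have := Finset.sum_sdiff (f := fun p => tp p α) (Finset.mem_powerset.1 hs.1)
  rwa [hs.2 α hα, h.Jv_all hF α hα, add_zero] at this

variable {x : RatFunc k} (h0 : x ≠ 0) (h2 : ∀ v ∈ D.Sg, x ∈ Fil (val v) 1) (h3 : x ∈ D.V)
include h0 h2 h3

lemma Cfg.card_le : Nat.card (ZZ D W P) ≤ (Zv D F).card := by
  have key : ∀ (z : ZZ D W P) (p : F), ∃ c ∈ Rt p.1 z.1.1, z.1.2 + ι c ∈ Fil (val (plc p.1)) 1 := by
    rintro ⟨⟨α, u⟩, hz⟩ ⟨p, hp⟩
    obtain ⟨h4, h5⟩ := h.int_Sf hz (Finset.mem_image_of_mem _ hp)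
    obtain ⟨v, h6, rfl⟩ := plc_eq (hF p hp).1 (hF p hp).2
    rw [h6] at h4 h5
    obtain ⟨c, h7, h8⟩ := exists_rep v h4
    refine ⟨c, mem_Rt.2 ⟨h7, ?_⟩, h6 ▸ h8⟩
    rw [h6, show α + wp (ι c) = α + wp u + wp (u + ι c) by unfold wp; grind]
    exact add_mem h5 (Fil.wp h8 le_rfl (by omega))
  choose r hr hr' using key
  rw [← Nat.card_eq_finsetCard]
  refine Nat.card_le_card_of_injective (fun z => ⟨⟨⟨z.1.1, (mem_ZZ.1 z.2).2⟩, r z⟩,
    Finset.mem_sigma.2 ⟨Finset.mem_univ _, Finset.mem_filter.2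
      ⟨Fintype.mem_piFinset.2 (hr z), AddMonoidHom.ext fun α' => ?_⟩⟩⟩) ?_
  · rw [phi_apply, AddMonoidHom.zero_apply, ← h.pairing' hF (u := z.1.2) z.2 α'.2,
      ← Finset.sum_coe_sort F]
    congr 1
    refine Finset.sum_congr rfl fun p _ => (pl _).tau_congr ?_
    have hp := Finset.mem_image_of_mem plc p.2
    rw [← add_mul, add_comm]
    exact Fil.mul (hr' z p) ((Dat.mem_V.1 α'.2).2 _)
      (by rw [Dat.lev_zero (h.d2 _ hp) (h.d3 _ hp)]; rfl)
  · rintro ⟨⟨α, u⟩, hz⟩ ⟨⟨α', u'⟩, hz'⟩ e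
    simp only [Subtype.mk.injEq, Sigma.mk.injEq, heq_eq_eq] at e
    obtain ⟨rfl, e⟩ := e
    refine Subtype.ext (Prod.ext rfl (h.inj hz hz' (fun v hv => ?_) h0
      (Fil.mono (h2 _ D.inf) (by omega)) (fun v => h2 _) (Dat.mem_V.1 h3).2))
    obtain ⟨p, hp, rfl⟩ := Finset.mem_image.1 hv
    have := add_mem (hr' ⟨_, hz⟩ ⟨p, hp⟩) (hr' ⟨_, hz'⟩ ⟨p, hp⟩)
    rwa [e, add_add_add_comm, two_K, add_zero] at this

theorem Cfg.mom : (Nat.card (Sel P (nA W)) : ℝ) * (Nat.card D.C0 * Nat.card D.V) ≤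
    ∑ x : D.V × D.V with ¬ Exc x.1.1 x.2.1, Tm D F x.1 x.2 +
      3 / 2 * (2 + nb D F) * (Nat.card D.C0 * Nat.card D.V) := by
  have e1 := sum_Tm D F
  rw [← Fintype.sum_prod_type', ← Finset.sum_filter_add_sum_filter_not _
    fun x : D.V × D.V => Exc x.1.1 x.2.1] at e1
  have e2 := sum_exc (D := D) hF
  have e3 : ((F.powerset.filter (Jv D)).card : ℝ) ≤ 2 + nb D F := by exact_mod_cast h.card_Jv hF
  have e4 : (Nat.card (Sel P (nA W)) : ℝ) * Nat.card D.C0 ≤ (Zv D F).card := by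
    exact_mod_cast h.card_ZZ ▸ h.card_le hF h0 h2 h3
  have e5 : (0 : ℝ) ≤ Nat.card D.V := by positivity
  have e6 : (0 : ℝ) ≤ Nat.card D.C0 := by positivity
  nlinarith [mul_le_mul_of_nonneg_left e4 e5, mul_le_mul_of_nonneg_left e3 (mul_nonneg e6 e5)]

end Pool.Agent.Lib.MP_a3f657_nt.Two
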