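import Mathlib

/-!
Fields of characteristic two with a 2-basis consisting of one element.
-/

set_option linter.unusedSectionVars false

namespace Pool.Agent.Lib.MP_a3f657_nt.Two

/-- A 2-basis `b` of the field `K`. -/
structure PB (K : Type) [Field K] where
  /-- The basis element. -/
  b : K
  ns : ∀ r : K, r ^ 2 ≠ b
  ex : ∀ x : K, ∃ g h : K, x = g ^ 2 + b * h ^ 2

/-- The Artin-Schreier operator. -/
def wp {K : Type} [CommRing K] (x : K) : K := x ^ 2 + x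

variable {K : Type} [Field K] [CharP K 2]

lemma sq_inj {x y : K} (h : x ^ 2 = y ^ 2) : x = y := by
  have : (x + y) ^ 2 = 0 := by grind
  have := pow_eq_zero_iff (two_ne_zero) |>.1 this
  grind

lemma wp_add (x y : K) : wp (x + y) = wp x + wp y := by unfold wp; grind

lemma wp_eq_zero {x : K} : wp x = 0 ↔ x = 0 ∨ x = 1 := by
  unfold wp
  refine ⟨fun h => ?_, by rintro (rfl | rfl) <;> grind⟩
  have : x * (x + 1) = 0 := by grind
  rcases mul_eq_zero.1 this with h | h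
  exacts [Or.inl h, Or.inr (by grind)]

@[simp] lemma wp_zero : wp (0 : K) = 0 := by simp [wp]

@[simp] lemma wp_one : wp (1 : K) = 0 := by unfold wp; grind

namespace PB

variable (P : PB K)

/-- First component. -/
noncomputable def c0 (x : K) : K := (P.ex x).choose

/-- Second component. -/
noncomputable def c1 (x : K) : K := (P.ex x).choose_spec.choose

omit [CharP K 2] in
lemma spec (x : K) : x = P.c0 x ^ 2 + P.b * P.c1 x ^ 2 := (P.ex x).choose_spec.choose_spec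

omit [CharP K 2] in
lemma b_ne : P.b ≠ 0 := fun h => P.ns 0 (by simp [h])

lemma uniq {x g h : K} (e : x = g ^ 2 + P.b * h ^ 2) : P.c0 x = g ∧ P.c1 x = h := by
  have e1 := P.spec x
  have h1 : P.c1 x = h := by
    by_contra hne
    have h2 : P.c1 x + h ≠ 0 := fun h3 => hne (by grind)
    refine P.ns ((P.c0 x + g) / (P.c1 x + h)) ?_
    rw [div_pow, div_eq_iff (pow_ne_zero 2 h2)]
    grind
  refine ⟨sq_inj ?_, h1⟩
  rw [h1] at e1
  grind

lemma c0_add (x y : K) : P.c0 (x + y) = P.c0 x + P.c0 y :=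
  (P.uniq (h := P.c1 x + P.c1 y) (by have := P.spec x; have := P.spec y; grind)).1

lemma c1_add (x y : K) : P.c1 (x + y) = P.c1 x + P.c1 y :=
  (P.uniq (g := P.c0 x + P.c0 y) (by have := P.spec x; have := P.spec y; grind)).2

lemma c0_mul (x y : K) : P.c0 (x * y) = P.c0 x * P.c0 y + P.b * (P.c1 x * P.c1 y) :=
  (P.uniq (h := P.c0 x * P.c1 y + P.c1 x * P.c0 y) (by
    conv_lhs => rw [P.spec x, P.spec y]
    grind)).1

lemma c1_mul (x y : K) : P.c1 (x * y) = P.c0 x * P.c1 y + P.c1 x * P.c0 y :=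
  (P.uniq (g := P.c0 x * P.c0 y + P.b * (P.c1 x * P.c1 y)) (by
    conv_lhs => rw [P.spec x, P.spec y]
    grind)).2

@[simp] lemma c0_sq (g : K) : P.c0 (g ^ 2) = g := (P.uniq (h := 0) (by simp)).1

@[simp] lemma c1_sq (g : K) : P.c1 (g ^ 2) = 0 := (P.uniq (g := g) (by simp)).2

@[simp] lemma c0_zero : P.c0 0 = 0 := by simpa using P.c0_sq 0

@[simp] lemma c1_zero : P.c1 0 = 0 := by simpa using P.c1_sq 0

@[simp] lemma c0_one : P.c0 1 = 1 := by simpa using P.c0_sq 1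

@[simp] lemma c1_one : P.c1 1 = 0 := by simpa using P.c1_sq 1

@[simp] lemma c0_b : P.c0 P.b = 0 := (P.uniq (h := 1) (by simp)).1

@[simp] lemma c1_b : P.c1 P.b = 1 := (P.uniq (g := 0) (by simp)).2

lemma c0_sq_mul (g x : K) : P.c0 (g ^ 2 * x) = g * P.c0 x := by simp [c0_mul]

lemma c1_sq_mul (g x : K) : P.c1 (g ^ 2 * x) = g * P.c1 x := by simp [c1_mul]

@[simp] lemma c0_b_sq (h : K) : P.c0 (P.b * h ^ 2) = 0 := by simp [c0_mul]

@[simp] lemma c1_b_sq (h : K) : P.c1 (P.b * h ^ 2) = h := by simp [c1_mul]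

lemma c0_b_mul (x : K) : P.c0 (P.b * x) = P.b * P.c1 x := by simp [c0_mul]

lemma c1_b_mul (x : K) : P.c1 (P.b * x) = P.c0 x := by simp [c1_mul]

lemma eq_b_sq {x : K} (h : P.c0 x = 0) : x = P.b * P.c1 x ^ 2 := by
  have := P.spec x
  rw [h] at this
  simpa using this

lemma eq_sq {x : K} (h : P.c1 x = 0) : x = P.c0 x ^ 2 := by
  have := P.spec x
  rw [h] at this
  simpa using this

/-- First component as an additive map. -/
noncomputable def c0h : K →+ K := ⟨⟨P.c0, P.c0_zero⟩, P.c0_add⟩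

/-- Second component as an additive map. -/
noncomputable def c1h : K →+ K := ⟨⟨P.c1, P.c1_zero⟩, P.c1_add⟩

/-- The derivation `d / d b`. -/
noncomputable def D (x : K) : K := P.c1 x ^ 2

lemma D_add (x y : K) : P.D (x + y) = P.D x + P.D y := by simp only [D, c1_add]; grind

lemma D_mul (x y : K) : P.D (x * y) = x * P.D y + y * P.D x := by
  simp only [D, c1_mul]
  have := P.spec x
  have := P.spec y
  grind

@[simp] lemma D_sq (x : K) : P.D (x ^ 2) = 0 := by simp [D]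

@[simp] lemma D_zero : P.D 0 = 0 := by simp [D]

@[simp] lemma D_one : P.D 1 = 0 := by simp [D]

@[simp] lemma D_b : P.D P.b = 1 := by simp [D]

lemma D_sq_mul (g x : K) : P.D (g ^ 2 * x) = g ^ 2 * P.D x := by simp [D_mul]

lemma D_eq_zero {x : K} (h : P.D x = 0) : x = P.c0 x ^ 2 :=
  P.eq_sq (pow_eq_zero_iff two_ne_zero |>.1 h)

lemma D_ne_zero {x : K} (h : ∀ r : K, r ^ 2 ≠ x) : P.D x ≠ 0 := fun e => h _ (P.D_eq_zero e).symm

lemma ns_of_D {x : K} (h : P.D x ≠ 0) (r : K) : r ^ 2 ≠ x := by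
  rintro rfl
  exact h (P.D_sq r)

/-- Change of basis element. -/
def change (c : K) (hc : ∀ r : K, r ^ 2 ≠ c) : PB K where
  b := c
  ns := hc
  ex x := by
    have h1 : P.c1 c ≠ 0 := fun e => hc _ (P.eq_sq e).symm
    refine ⟨P.c0 x + P.c0 c * (P.c1 x / P.c1 c), P.c1 x / P.c1 c, ?_⟩
    have := P.spec x
    have := P.spec c
    grind

lemma c1_chain (Q : PB K) (x : K) : P.c1 x = Q.c1 x * P.c1 Q.b := by
  conv_lhs => rw [Q.spec x, c1_add, c1_sq, zero_add, mul_comm, c1_sq_mul]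

lemma D_chain (Q : PB K) (x : K) : P.D x = Q.D x * P.D Q.b := by
  simp only [D]; rw [P.c1_chain Q x, mul_pow]

lemma ext' {P Q : PB K} (h : P.b = Q.b) : P = Q := by
  cases P; cases Q; cases h; rfl

section map

variable {L : Type} [Field L] [CharP L 2] {Q : PB L} {f : K →+* L}

lemma map_c0 (h : Q.b = f P.b) (x : K) : Q.c0 (f x) = f (P.c0 x) :=
  (Q.uniq (h := f (P.c1 x)) (by
    conv_lhs => rw [P.spec x]
    simp [h])).1

lemma map_c1 (h : Q.b = f P.b) (x : K) : Q.c1 (f x) = f (P.c1 x) :=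
  (Q.uniq (g := f (P.c0 x)) (by
    conv_lhs => rw [P.spec x]
    simp [h])).2

lemma map_D (h : Q.b = f P.b) (x : K) : Q.D (f x) = f (P.D x) := by
  simp [D, P.map_c1 h]

end map

/-- A 2-basis stays a 2-basis in a separable algebraic extension. -/
lemma exists_sep (L : Type) [Field L] [CharP L 2] [Algebra K L] [Algebra.IsSeparable K L] :
    ∃ Q : PB L, Q.b = algebraMap K L P.b := by
  have : ExpChar K 2 := ExpChar.prime Nat.prime_two
  have key := fun x : L =>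
    IntermediateField.adjoin_simple_eq_adjoin_pow_expChar_of_isSeparable K L
      (Algebra.IsSeparable.isSeparable K x) 2
  refine ⟨⟨algebraMap K L P.b, fun r hr => ?_, fun x => ?_⟩, rfl⟩
  · have h1 : r ∈ IntermediateField.adjoin K {r ^ 2} := by
      rw [← key]; exact IntermediateField.mem_adjoin_simple_self K r
    rw [hr, IntermediateField.adjoin_simple_eq_bot_iff.2 (IntermediateField.algebraMap_mem _ _)]
      at h1
    obtain ⟨s, rfl⟩ := IntermediateField.mem_bot.1 h1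
    exact P.ns s ((algebraMap K L).injective (by rw [map_pow, hr]))
  · let S : Subalgebra K L :=
      { carrier := {y | ∃ g h : L, y = g ^ 2 + algebraMap K L P.b * h ^ 2}
        mul_mem' := by
          rintro _ _ ⟨g, h, rfl⟩ ⟨g', h', rfl⟩
          exact ⟨g * g' + algebraMap K L P.b * (h * h'), g * h' + h * g', by grind⟩
        add_mem' := by
          rintro _ _ ⟨g, h, rfl⟩ ⟨g', h', rfl⟩
          exact ⟨g + g', h + h', by grind⟩
        algebraMap_mem' := fun a => ⟨algebraMap K L (P.c0 a), algebraMap K L (P.c1 a), by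
          conv_lhs => rw [P.spec a]
          simp⟩ }
    have h1 : x ∈ (IntermediateField.adjoin K {x ^ 2}).toSubalgebra := by
      rw [← key]; exact IntermediateField.mem_adjoin_simple_self K x
    rw [IntermediateField.adjoin_simple_toSubalgebra_of_isAlgebraic
      (Algebra.IsAlgebraic.isAlgebraic _)] at h1
    exact (Algebra.adjoin_le (S := S) (by rintro _ rfl; exact ⟨x, 0, by simp⟩)) h1

/-- The logarithmic derivative `(dx / x) / (db / b)`. -/
noncomputable def dl (x : K) : K := P.b * P.c1 x ^ 2 / x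

lemma dl_eq (x : K) : P.dl x = P.b * P.D x / x := rfl

lemma dl_mul {x y : K} (hx : x ≠ 0) (hy : y ≠ 0) : P.dl (x * y) = P.dl x + P.dl y := by
  simp only [dl_eq, D_mul]; field_simp; ring

@[simp] lemma dl_sq (x : K) : P.dl (x ^ 2) = 0 := by simp [dl]

@[simp] lemma dl_b : P.dl P.b = 1 := by simp [dl, P.b_ne]

@[simp] lemma dl_one : P.dl 1 = 0 := by simp [dl]

lemma dl_inv (x : K) : P.dl x⁻¹ = P.dl x := by
  by_cases hx : x = 0
  · simp [hx]
  have := P.dl_mul hx (inv_ne_zero hx)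
  rw [mul_inv_cancel₀ hx, dl_one] at this
  grind

lemma c0_dl (x : K) : P.c0 (P.dl x) = P.dl x := by
  by_cases hx : x = 0
  · simp [hx, dl]
  have : P.dl x = (P.c1 x / x) ^ 2 * (P.b * x) := by unfold dl; field_simp
  conv_lhs => rw [this, c0_sq_mul, c0_b_mul]
  unfold dl; field_simp

lemma c0_wp (e : K) : P.c0 (wp e) = e + P.c0 e := by simp [wp, c0_add]

lemma c1_wp (e : K) : P.c1 (wp e) = P.c1 e := by simp [wp, c1_add]

lemma exists_dl {e : K} (h : P.c0 e = e) : ∃ x : K, x ≠ 0 ∧ P.dl x = e := by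
  by_cases he : e = 0
  · exact ⟨1, one_ne_zero, by simp [he]⟩
  refine ⟨P.b * e, mul_ne_zero P.b_ne he, ?_⟩
  rw [dl, c1_b_mul, h]
  have := P.b_ne
  field_simp

lemma dl_of_wp {u z : K} (hu : u ≠ 0) (h : wp u = P.b * z ^ 2) : P.dl u = u + 1 := by
  have h1 : P.c1 u = z := by rw [← c1_wp, h, c1_b_sq]
  rw [dl, h1, ← h, wp]
  field_simp

lemma map_dl {L : Type} [Field L] [CharP L 2] {Q : PB L} {f : K →+* L} (h : Q.b = f P.b) (x : K) :
    Q.dl (f x) = f (P.dl x) := by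
  simp [dl, P.map_c1 h, h]

/-- The descent map on `x`-coordinates. -/
noncomputable def kap (x : K) : K := (1 + P.c0 x * P.c1 x) / x

lemma b_kap_sq {x : K} (hx : x ≠ 0) : P.b * P.kap x ^ 2 = P.b / x ^ 2 + wp (P.dl x) := by
  unfold kap wp dl
  have := P.spec x
  field_simp
  grind

lemma map_kap {L : Type} [Field L] [CharP L 2] {Q : PB L} {f : K →+* L} (h : Q.b = f P.b) (x : K) :
    Q.kap (f x) = f (P.kap x) := by
  simp [kap, P.map_c1 h, P.map_c0 h]

lemma kap_add {x₁ x₂ x₃ : K} (h₁ : x₁ ≠ 0) (h₂ : x₂ ≠ 0) (h₃ : x₃ ≠ 0)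
    (h : (x₁ * x₂ + x₁ * x₃ + x₂ * x₃) ^ 2 + x₁ * x₂ * x₃ + P.b = 0) :
    P.kap x₃ = P.kap x₁ + P.kap x₂ := by
  set ν := x₁ * x₂ + x₁ * x₃ + x₂ * x₃ with hν
  have e1 : x₁ * x₂ * x₃ = ν ^ 2 + P.b * 1 ^ 2 := by grind
  have e2 : P.dl x₁ + P.dl x₂ + P.dl x₃ = P.b / (x₁ * x₂ * x₃) := by
    rw [← P.dl_mul h₁ h₂, ← P.dl_mul (mul_ne_zero h₁ h₂) h₃, dl, (P.uniq e1).2]
    simp
  have e3 : P.b * (P.kap x₁ + P.kap x₂ + P.kap x₃) ^ 2 = 0 := by
    have : P.b * (P.kap x₁ + P.kap x₂ + P.kap x₃) ^ 2 =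
      P.b * P.kap x₁ ^ 2 + P.b * P.kap x₂ ^ 2 + P.b * P.kap x₃ ^ 2 := by grind
    rw [this, P.b_kap_sq h₁, P.b_kap_sq h₂, P.b_kap_sq h₃]
    have e4 : wp (P.dl x₁) + wp (P.dl x₂) + wp (P.dl x₃) = wp (P.b / (x₁ * x₂ * x₃)) := by
      rw [← e2, wp_add, wp_add]
    have e5 : wp (P.b / (x₁ * x₂ * x₃)) = P.b / x₁ ^ 2 + P.b / x₂ ^ 2 + P.b / x₃ ^ 2 := by
      unfold wp
      field_simp
      grind
    grind
  have := pow_eq_zero_iff two_ne_zero |>.1 ((mul_eq_zero.1 e3).resolve_left P.b_ne)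
  grind

section rho

variable {P} {ρ : K →+ ZMod 2}

lemma rho_b_sq (hρ : ∀ x, ρ (P.c0 x) = ρ x) (h : K) : ρ (P.b * h ^ 2) = 0 := by
  rw [← hρ]; simp

lemma rho_wp_mul (hρ : ∀ x, ρ (P.c0 x) = ρ x) {e : K} (he : P.c0 e = e) (y : K) :
    ρ (wp y * e) = 0 := by
  rw [wp, add_mul, map_add, ← hρ (y ^ 2 * e), c0_sq_mul, he]
  exact CharTwo.add_self_eq_zero _

lemma rho_norm (hρ : ∀ x, ρ (P.c0 x) = ρ x) (α m x : K) :
    ρ (α * P.dl (m ^ 2 + m * x + α * x ^ 2)) = 0 := by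
  by_cases hx : x = 0
  · simp [hx]
  by_cases hn : wp (m / x) + α = 0
  · have : m ^ 2 + m * x + α * x ^ 2 = 0 := by unfold wp at hn; grind
    simp [this, dl]
  have e1 : m ^ 2 + m * x + α * x ^ 2 = x ^ 2 * (wp (m / x) + α) := by unfold wp; grind
  rw [e1, P.dl_mul (pow_ne_zero 2 hx) hn, dl_sq, zero_add]
  set n := wp (m / x) + α with hn'
  have e2 : α * P.dl n = P.b * P.c1 n ^ 2 + wp (m / x) * P.dl n := by
    unfold dl
    grind
  rw [e2, map_add, rho_b_sq hρ, rho_wp_mul hρ (P.c0_dl n), add_zero]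

/-- `w` comes from a point of the conic attached to `α`. -/
def Con (P : PB K) (α w : K) : Prop :=
  ∃ x u : K, x ≠ 0 ∧ wp u = α + P.b / x ^ 2 ∧ w = u + P.dl x

lemma two_con (hρ : ∀ x, ρ (P.c0 x) = ρ x) {α w₁ w₂ : K} (h₁ : P.Con α w₁) (h₂ : P.Con α w₂) :
    ρ (α * (w₁ + w₂)) = 0 := by
  obtain ⟨x₁, u₁, hx₁, e₁, rfl⟩ := h₁
  obtain ⟨x₂, u₂, hx₂, e₂, rfl⟩ := h₂
  have e3 : wp (u₁ + u₂) = P.b * (x₁⁻¹ + x₂⁻¹) ^ 2 := by rw [wp_add, e₁, e₂]; grind
  by_cases hu : u₁ + u₂ = 0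
  · rw [hu, wp_zero] at e3
    have e4 := pow_eq_zero_iff two_ne_zero |>.1 ((mul_eq_zero.1 e3.symm).resolve_left P.b_ne)
    have e5 : x₁ = x₂ := by grind
    have e6 : u₁ + P.dl x₁ + (u₂ + P.dl x₂) = 0 := by rw [e5]; grind
    simp [e6]
  have e4 := P.dl_of_wp hu e3
  have e5 : x₁ * x₂ * (u₁ + u₂) =
      (u₁ * x₁ + u₂ * x₂) ^ 2 + (u₁ * x₁ + u₂ * x₂) * (x₁ + x₂) + α * (x₁ + x₂) ^ 2 := by
    unfold wp at e₁ e₂
    grind
  have e6 : P.b = (u₁ * x₁) ^ 2 + (u₁ * x₁) * x₁ + α * x₁ ^ 2 := by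
    unfold wp at e₁
    grind
  have e7 := rho_norm hρ α (u₁ * x₁ + u₂ * x₂) (x₁ + x₂)
  have e8 := rho_norm hρ α (u₁ * x₁) x₁
  rw [← e5, P.dl_mul (mul_ne_zero hx₁ hx₂) hu, P.dl_mul hx₁ hx₂, e4] at e7
  rw [← e6, dl_b] at e8
  have : α * (u₁ + P.dl x₁ + (u₂ + P.dl x₂)) =
    α * (P.dl x₁ + P.dl x₂ + (u₁ + u₂ + 1)) + α * 1 := by grind
  rw [this, map_add, e7, e8, add_zero]

end rho

end PB

end Pool.Agent.Lib.MP_a3f657_nt.Two
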