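import Pool.Agent.Lib.MP_a3f657_nt.C2Loc

/-!
The places of a rational function field, principal parts.
-/

set_option linter.unusedSectionVars false

namespace Pool.Agent.Lib.MP_a3f657_nt.Two

open WithZero Polynomial IsDedekindDomain

open scoped Classical

variable {k : Type} [Field k]

/-- The places of `k(t)`; `none` is the place at infinity. -/
abbrev Pl (k : Type) [Field k] : Type := Option (HeightOneSpectrum k[X])

/-- The valuation of a place. -/
noncomputable def val : Pl k → Valuation (RatFunc k) ℤᵐ⁰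
  | none => RatFunc.inftyValuation k
  | some v => v.valuation (RatFunc k)

/-- Polynomials as rational functions. -/
noncomputable abbrev ι (a : k[X]) : RatFunc k := algebraMap k[X] (RatFunc k) a

lemma ι_ne {a : k[X]} (h : a ≠ 0) : ι a ≠ 0 := RatFunc.algebraMap_ne_zero h

lemma ι_inj {a b : k[X]} (h : ι a = ι b) : a = b := RatFunc.algebraMap_injective k h

/-- The monic generator of a finite place. -/
noncomputable def gen (v : HeightOneSpectrum k[X]) : k[X] :=
  normalize (Submodule.IsPrincipal.generator v.asIdeal)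

lemma span_gen (v : HeightOneSpectrum k[X]) : v.asIdeal = Ideal.span {gen v} := by
  rw [gen, Ideal.span_singleton_eq_span_singleton.2 (normalize_associated _),
    Ideal.span_singleton_generator]

lemma gen_ne (v : HeightOneSpectrum k[X]) : gen v ≠ 0 := fun e =>
  v.ne_bot (by rw [span_gen, e]; simp)

lemma gen_monic (v : HeightOneSpectrum k[X]) : (gen v).Monic :=
  Polynomial.monic_normalize fun e => gen_ne v (by rw [gen, e]; simp)

lemma gen_prime (v : HeightOneSpectrum k[X]) : Prime (gen v) :=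
  (Ideal.span_singleton_prime (gen_ne v)).1 (span_gen v ▸ v.isPrime)

lemma gen_irr (v : HeightOneSpectrum k[X]) : Irreducible (gen v) := (gen_prime v).irreducible

lemma gen_deg_pos (v : HeightOneSpectrum k[X]) : 0 < (gen v).natDegree :=
  (gen_irr v).natDegree_pos

/-- The finite place of an irreducible polynomial. -/
noncomputable def ofIrr (p : k[X]) (hp : Irreducible p) : HeightOneSpectrum k[X] :=
  ⟨Ideal.span {p}, (Ideal.span_singleton_prime hp.ne_zero).2 hp.prime, by
    simpa using hp.ne_zero⟩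

lemma gen_ofIrr {p : k[X]} (hp : Irreducible p) (hm : p.Monic) : gen (ofIrr p hp) = p :=
  eq_of_monic_of_associated (gen_monic _) hm
    (Ideal.span_singleton_eq_span_singleton.1 (span_gen (ofIrr p hp)).symm)

lemma gen_inj {v u : HeightOneSpectrum k[X]} (h : gen v = gen u) : v = u :=
  HeightOneSpectrum.ext (by rw [span_gen, span_gen, h])

lemma gen_dvd_gen {v u : HeightOneSpectrum k[X]} (h : gen v ∣ gen u) : v = u :=
  gen_inj (eq_of_monic_of_associated (gen_monic _) (gen_monic _)
    ((gen_irr v).associated_of_dvd (gen_irr u) h))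

lemma ι_mem_some {v : HeightOneSpectrum k[X]} {a : k[X]} {n : ℕ} :
    ι a ∈ Fil (val (some v)) n ↔ gen v ^ n ∣ a := by
  rw [mem_Fil, val, HeightOneSpectrum.valuation_of_algebraMap,
    HeightOneSpectrum.intValuation_le_pow_iff_mem, span_gen, Ideal.span_singleton_pow,
    Ideal.mem_span_singleton]

lemma ι_int (v : HeightOneSpectrum k[X]) (a : k[X]) : ι a ∈ Fil (val (some v)) 0 :=
  (ι_mem_some (n := 0)).2 (by simp)

lemma ι_mem_one {v : HeightOneSpectrum k[X]} {a : k[X]} :
    ι a ∈ Fil (val (some v)) 1 ↔ gen v ∣ a := by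
  simpa using ι_mem_some (v := v) (a := a) (n := 1)

lemma ord_ι_of_not_dvd {v : HeightOneSpectrum k[X]} {a : k[X]} {n : ℕ} (h1 : gen v ^ n ∣ a)
    (h2 : ¬ gen v ^ (n + 1) ∣ a) : ord (val (some v)) (ι a) = n :=
  (ord_eq_of (ι_mem_some.2 h1) fun h => h2 (ι_mem_some.1 (by exact_mod_cast h))).2

lemma ord_ι_unit {v : HeightOneSpectrum k[X]} {a : k[X]} (h : ¬ gen v ∣ a) :
    ord (val (some v)) (ι a) = 0 :=
  ord_ι_of_not_dvd (n := 0) (by simp) (by simpa using h)

lemma ord_ι_nonneg (v : HeightOneSpectrum k[X]) (a : k[X]) : 0 ≤ ord (val (some v)) (ι a) := by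
  by_cases h : a = 0
  · simp [h]
  · exact (mem_Fil_iff (ι_ne h)).1 (ι_int v a)

lemma ord_ι_lt {v : HeightOneSpectrum k[X]} {a : k[X]} {n : ℕ} (h : ¬ gen v ^ n ∣ a) :
    ord (val (some v)) (ι a) < n := (not_mem_Fil.1 fun e => h (ι_mem_some.1 e)).2

lemma ord_gen (v : HeightOneSpectrum k[X]) : ord (val (some v)) (ι (gen v)) = 1 :=
  ord_ι_of_not_dvd (n := 1) (by simp) fun h => by
    have := natDegree_le_of_dvd h (gen_ne v)
    have := gen_deg_pos v
    rw [natDegree_pow] at *
    omega

lemma ord_none {a : k[X]} (h : a ≠ 0) : ord (val none) (ι a) = -a.natDegree := by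
  rw [ord, val, RatFunc.inftyValuation_apply, RatFunc.inftyValuation.polynomial _ h, log_exp]

lemma ι_mem_none {a : k[X]} {n : ℕ} : ι a ∈ Fil (val none) (-n) ↔ a.natDegree ≤ n := by
  by_cases h : a = 0
  · simp [h]
  · rw [mem_Fil_iff (ι_ne h), ord_none h]; omega

lemma ι_mem_none' {a : k[X]} {n : ℕ} : ι a ∈ Fil (val none) (1 - n) ↔ a.degree < n := by
  by_cases h : a = 0
  · simp [h]
  · rw [mem_Fil_iff (ι_ne h), ord_none h, degree_eq_natDegree h, Nat.cast_lt]; omega

lemma ι_mem_none_self (a : k[X]) : ι a ∈ Fil (val none) (-a.natDegree) := ι_mem_none.2 le_rfl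

lemma ord_X : ord (val (k := k) none) RatFunc.X = -1 := by
  simpa using ord_none (k := k) X_ne_zero

lemma eq_zero_of_none {a : k[X]} (h : ι a ∈ Fil (val none) 1) : a = 0 := by
  by_contra h1
  rw [mem_Fil_iff (ι_ne h1), ord_none h1] at h
  omega

lemma exists_poly {x : RatFunc k} (h : ∀ v, x ∈ Fil (val (some v)) 0) : ∃ a, ι a = x :=
  HeightOneSpectrum.mem_integers_of_valuation_le_one (RatFunc k) x fun v => by
    simpa [mem_Fil, val] using h v

lemma exists_const {x : RatFunc k} (h : ∀ v, x ∈ Fil (val v) 0) : ∃ c, ι (C c) = x := by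
  obtain ⟨a, rfl⟩ := exists_poly fun v => h (some v)
  exact ⟨a.coeff 0, by rw [← eq_C_of_natDegree_le_zero (ι_mem_none.1 (h none))]⟩

lemma const_int (v : Pl k) (c : k) : ι (C c) ∈ Fil (val v) 0 := by
  cases v
  · exact (ι_mem_none (n := 0)).2 (by simp)
  · exact ι_int _ _

lemma exists_approx {v : HeightOneSpectrum k[X]} {x : RatFunc k} (h : x ∈ Fil (val (some v)) 0)
    (n : ℤ) : ∃ a, ι a - x ∈ Fil (val (some v)) n := by
  obtain ⟨a, ha⟩ := v.exists_valuation_sub_lt_of_integer (x := x) (by simpa [mem_Fil, val] using h)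
    (Units.mk0 (exp (-n)) exp_ne_zero)
  exact ⟨a, ha.le⟩

lemma div_int {v : HeightOneSpectrum k[X]} (a : k[X]) {b : k[X]} (h : ¬ gen v ∣ b) :
    ι a / ι b ∈ Fil (val (some v)) 0 := Fil.div (ι_int v a) (by rw [ord_ι_unit h]; omega)

lemma finite_dvd {b : k[X]} (hb : b ≠ 0) : {v : HeightOneSpectrum k[X] | gen v ∣ b}.Finite := by
  refine (Ideal.finite_factors (I := Ideal.span {b}) (by simpa using hb)).subset fun v hv => ?_
  change v.asIdeal ∣ _
  rw [span_gen]
  exact Ideal.dvd_iff_le.2 (Ideal.span_singleton_le_span_singleton.2 hv)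

lemma finite_poles (x : RatFunc k) : {v : Pl k | x ∉ Fil (val v) 0}.Finite := by
  refine (((finite_dvd x.denom_ne_zero).image some).insert none).subset ?_
  rintro (_ | v) hv
  · exact Or.inl rfl
  · refine Or.inr ⟨v, ?_, rfl⟩
    by_contra h
    exact hv (by rw [← x.num_div_denom]; exact div_int _ h)

lemma exists_pol (x : RatFunc k) : ∃ a, x - ι a ∈ Fil (val none) 1 := by
  have hb := x.denom_ne_zero
  refine ⟨x.num / x.denom, ?_⟩
  have e : x - ι (x.num / x.denom) = ι (x.num % x.denom) / ι x.denom := by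
    have := ι_ne hb
    have e1 := congrArg ι (EuclideanDomain.div_add_mod x.num x.denom)
    have e2 : x * ι x.denom = ι x.num := (div_eq_iff this).1 x.num_div_denom ▸ rfl
    rw [eq_div_iff this, sub_mul, e2]
    simp only [ι, map_add, map_mul] at e1 ⊢
    linear_combination -e1
  rw [e]
  refine Fil.div (a := 1 - x.denom.natDegree) (ι_mem_none'.2 ?_) (by rw [ord_none hb]; omega)
  rw [← degree_eq_natDegree hb]
  exact degree_mod_lt _ hb

/-- The polynomial part at infinity. -/
noncomputable def pol (x : RatFunc k) : k[X] := (exists_pol x).choose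

lemma pol_spec (x : RatFunc k) : x - ι (pol x) ∈ Fil (val none) 1 := (exists_pol x).choose_spec

lemma pol_eq {x : RatFunc k} {a : k[X]} (h : x - ι a ∈ Fil (val none) 1) : pol x = a := by
  refine sub_eq_zero.1 (eq_zero_of_none ?_)
  simpa [ι] using sub_mem h (pol_spec x)

lemma pol_add (x y : RatFunc k) : pol (x + y) = pol x + pol y :=
  pol_eq (by convert add_mem (pol_spec x) (pol_spec y) using 1; simp only [ι, map_add]; ring)

lemma pol_ι (a : k[X]) : pol (ι a) = a := pol_eq (by simp)

/-- The coefficient of `1 / t` in the expansion at infinity. -/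
noncomputable def resInf : RatFunc k →+ k where
  toFun x := (pol (RatFunc.X * x)).coeff 0
  map_zero' := by simpa using congrArg (coeff · 0) (pol_ι (0 : k[X]))
  map_add' x y := by rw [mul_add, pol_add, coeff_add]

lemma resInf_apply (x : RatFunc k) : resInf x = (pol (RatFunc.X * x)).coeff 0 := rfl

lemma resInf_ι (a : k[X]) : resInf (ι a) = 0 := by
  rw [resInf_apply, ← RatFunc.algebraMap_X, ← map_mul, pol_ι]; simp

lemma resInf_two {x : RatFunc k} (h : x ∈ Fil (val none) 2) : resInf x = 0 := by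
  rw [resInf_apply, pol_eq (a := 0)]
  · simp
  · simpa using Fil.mul (mem_Fil_ord RatFunc.X) h (by rw [ord_X]; omega)

lemma exists_pp (v : HeightOneSpectrum k[X]) (x : RatFunc k) :
    ∃ y, (∀ u, u ≠ v → y ∈ Fil (val (some u)) 0) ∧ y ∈ Fil (val none) 1 ∧
      x - y ∈ Fil (val (some v)) 0 := by
  set n := (ord (val (some v)) x).natAbs
  have h0 : ι (gen v ^ n) ≠ 0 := ι_ne (pow_ne_zero _ (gen_ne v))
  have h1 : ord (val (some v)) (ι (gen v ^ n)) = n := by
    rw [ι, map_pow, ord_pow, ord_gen, mul_one]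
  obtain ⟨a, ha⟩ := exists_approx (v := v) (x := x * ι (gen v ^ n))
    (Fil.mul (mem_Fil_ord _) (mem_Fil_ord _) (by omega)) n
  refine ⟨ι a / ι (gen v ^ n) - ι (pol (ι a / ι (gen v ^ n))), fun u hu => sub_mem (div_int _ ?_)
    (ι_int _ _), pol_spec _, ?_⟩
  · exact fun h => hu (gen_dvd_gen ((gen_prime u).dvd_of_dvd_pow h))
  · rw [sub_sub_eq_add_sub, add_sub_right_comm]
    refine add_mem ?_ (ι_int _ _)
    rw [show x - ι a / ι (gen v ^ n) = -(ι a - x * ι (gen v ^ n)) / ι (gen v ^ n) by
      field_simp; ring]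
    exact Fil.div (neg_mem ha) (by omega)

/-- The principal part at a finite place. -/
noncomputable def pp (v : HeightOneSpectrum k[X]) (x : RatFunc k) : RatFunc k :=
  (exists_pp v x).choose

lemma pp_int {v u : HeightOneSpectrum k[X]} (h : u ≠ v) (x : RatFunc k) :
    pp v x ∈ Fil (val (some u)) 0 := (exists_pp v x).choose_spec.1 u h

lemma pp_none (v : HeightOneSpectrum k[X]) (x : RatFunc k) : pp v x ∈ Fil (val none) 1 :=
  (exists_pp v x).choose_spec.2.1

lemma pp_spec (v : HeightOneSpectrum k[X]) (x : RatFunc k) : x - pp v x ∈ Fil (val (some v)) 0 :=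
  (exists_pp v x).choose_spec.2.2

lemma pp_eq {v : HeightOneSpectrum k[X]} {x y : RatFunc k}
    (h1 : ∀ u, u ≠ v → y ∈ Fil (val (some u)) 0) (h2 : y ∈ Fil (val none) 1)
    (h3 : x - y ∈ Fil (val (some v)) 0) : pp v x = y := by
  obtain ⟨a, ha⟩ := exists_poly (x := pp v x - y) fun u => by
    by_cases h : u = v
    · simpa [h] using sub_mem h3 (pp_spec v x)
    · exact sub_mem (pp_int h x) (h1 u h)
  have h4 : a = 0 := eq_zero_of_none (ha ▸ sub_mem (pp_none v x) h2)
  rw [← sub_eq_zero, ← ha, h4, ι, map_zero]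

lemma pp_add (v : HeightOneSpectrum k[X]) (x y : RatFunc k) : pp v (x + y) = pp v x + pp v y :=
  pp_eq (fun _ h => add_mem (pp_int h x) (pp_int h y)) (add_mem (pp_none v x) (pp_none v y))
    (by convert add_mem (pp_spec v x) (pp_spec v y) using 1; ring)

lemma pp_of_int {v : HeightOneSpectrum k[X]} {x : RatFunc k} (h : x ∈ Fil (val (some v)) 0) :
    pp v x = 0 := pp_eq (fun _ _ => zero_mem _) (zero_mem _) (by simpa using h)

/-- The principal part at an arbitrary place. -/
noncomputable def ppl : Pl k → RatFunc k → RatFunc k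
  | none, x => ι (pol x)
  | some v, x => pp v x

lemma ppl_spec (v : Pl k) (x : RatFunc k) : x - ppl v x ∈ Fil (val v) 0 := by
  cases v
  · exact Fil.mono (pol_spec x) (by omega)
  · exact pp_spec _ x

lemma ppl_int {v u : Pl k} (h : u ≠ v) (x : RatFunc k) : ppl v x ∈ Fil (val u) 0 := by
  rcases v with _ | v <;> rcases u with _ | u
  · exact absurd rfl h
  · exact ι_int _ _
  · exact Fil.mono (pp_none v x) (by omega)
  · exact pp_int (fun e => h (by rw [e])) x

/-- Prescribed principal parts. -/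
lemma exists_principal (S : Finset (Pl k)) (c : Pl k → RatFunc k) :
    ∃ x, (∀ v ∈ S, c v - x ∈ Fil (val v) 0) ∧ ∀ v ∉ S, x ∈ Fil (val v) 0 := by
  refine ⟨∑ u ∈ S, ppl u (c u), fun v hv => ?_, fun v hv => sum_mem fun u hu =>
    ppl_int (fun e => hv (by rw [e]; exact hu)) _⟩
  rw [← Finset.add_sum_erase S _ hv, ← sub_sub]
  exact sub_mem (ppl_spec v _) (sum_mem fun u hu => ppl_int (Finset.ne_of_mem_erase hu).symm _)

lemma resInf_eq_sum (S : Finset (HeightOneSpectrum k[X])) {x : RatFunc k}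
    (h : ∀ v ∉ S, x ∈ Fil (val (some v)) 0) : resInf x = ∑ v ∈ S, resInf (pp v x) := by
  obtain ⟨a, ha⟩ := exists_poly (x := x - ∑ v ∈ S, pp v x) fun v => by
    by_cases hv : v ∈ S
    · rw [← Finset.add_sum_erase S _ hv, ← sub_sub]
      exact sub_mem (pp_spec v _) (sum_mem fun u hu => pp_int (Finset.ne_of_mem_erase hu).symm _)
    · exact sub_mem (h v hv) (sum_mem fun u hu => pp_int (fun e => hv (by rw [e]; exact hu)) _)
  rw [← sub_eq_zero, ← map_sum, ← map_sub, ← ha, resInf_ι]

end Pool.Agent.Lib.MP_a3f657_nt.Two
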