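import Pool.Agent.Lib.MP_a3f657_nt.C2Mom
import Pool.Agent.Lib.MP_a3f657_nt.C2CellDefs
import Pool.Agent.Lib.MP_a3f657_nt.C2HtMin

/-!
The local data of a cell.
-/

set_option linter.unusedSectionVars false

namespace Pool.Agent.Lib.MP_a3f657_nt.Two

open Polynomial IsDedekindDomain UniqueFactorizationMonoid

open scoped Classical

variable {k : Type} [Field k] [Fintype k] [CharP k 2] {T β d : ℕ} {a b : WeierstrassCurve k[X]}
  {u : HeightOneSpectrum k[X]}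

/-- The curve over the function field. -/
noncomputable abbrev bc (a : WeierstrassCurve k[X]) : WeierstrassCurve (RatFunc k) :=
  a.baseChange (RatFunc k)

lemma nA_bc (a : WeierstrassCurve k[X]) : nA (bc a) = ι (a.a₁ * a.a₂ + a.a₃) / ι (a.a₁ ^ 3) := by
  simp [nA, ι, WeierstrassCurve.baseChange]

lemma nB_bc (a : WeierstrassCurve k[X]) : nB (bc a) = ι a.Δ / ι (a.a₁ ^ 12) := by
  simp [nB, ι, WeierstrassCurve.baseChange]

lemma D_nB (a : WeierstrassCurve k[X]) :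
    (PX k).D (nB (bc a)) = ι (derivative a.Δ) / ι (a.a₁ ^ 12) := by
  rw [nB_bc, ← D_ι, show ι a.Δ / ι (a.a₁ ^ 12) = ((ι a.a₁ ^ 6)⁻¹) ^ 2 * ι a.Δ by
    simp only [ι, map_pow]; ring, PB.D_sq_mul]
  simp only [ι, map_pow]
  ring

lemma exists_nd (h1 : a.a₁ ≠ 0) (h2 : derivative a.Δ ≠ 0) : ∃ P, Nd (bc a) P :=
  ⟨(PX k).change (nB (bc a)) ((PX k).ns_of_D (by
    rw [D_nB]
    exact div_ne_zero (ι_ne h2) (ι_ne (pow_ne_zero _ h1)))), ι_ne h1, rfl⟩

variable (k T) in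
/-- The small places. -/
noncomputable def SgT : Finset (Pl k) := insert none ((irrLe k T).image plc)

variable (T) in
/-- The large places that divide `a₁`. -/
noncomputable def S1T (a₁ : k[X]) : Finset (Pl k) :=
  ((normalizedFactors a₁).toFinset.filter fun p => T < p.natDegree).image plc

lemma mem_image_plc {F : Finset k[X]} (hF : ∀ p ∈ F, p.Monic ∧ Irreducible p) :
    some u ∈ F.image plc ↔ gen u ∈ F := by
  refine ⟨fun h => ?_, fun h => plc_gen u ▸ Finset.mem_image_of_mem _ h⟩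
  obtain ⟨p, hp, e⟩ := Finset.mem_image.1 h
  obtain ⟨v, h1, rfl⟩ := plc_eq (hF p hp).1 (hF p hp).2
  rwa [← Option.some.inj (h1.symm.trans e)]

lemma none_not_mem {F : Finset k[X]} (hF : ∀ p ∈ F, p.Monic ∧ Irreducible p) :
    none ∉ F.image plc := fun h => by
  obtain ⟨p, hp, e⟩ := Finset.mem_image.1 h
  obtain ⟨v, h1, -⟩ := plc_eq (hF p hp).1 (hF p hp).2
  simp [h1] at e

lemma mem_nf {f p : k[X]} (hf : f ≠ 0) :
    p ∈ (normalizedFactors f).toFinset ↔ (p.Monic ∧ Irreducible p) ∧ p ∣ f := by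
  rw [Multiset.mem_toFinset, Polynomial.mem_normalizedFactors_iff hf]
  tauto

lemma mem_SgT : some u ∈ SgT k T ↔ (gen u).natDegree ≤ T := by
  simp [SgT, mem_image_plc fun p hp => (mem_irrLe.1 hp).2, mem_irrLe, gen_monic, gen_irr,
    -Finset.mem_image]

lemma S1_aux {a₁ : k[X]} (h : a₁ ≠ 0) : ∀ p ∈ (normalizedFactors a₁).toFinset.filter
    fun p => T < p.natDegree, p.Monic ∧ Irreducible p := fun _ hp =>
  ((mem_nf h).1 (Finset.mem_filter.1 hp).1).1

lemma mem_S1T {a₁ : k[X]} (h : a₁ ≠ 0) :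
    some u ∈ S1T T a₁ ↔ gen u ∣ a₁ ∧ T < (gen u).natDegree := by
  rw [S1T, mem_image_plc (S1_aux h), Finset.mem_filter, mem_nf h]
  simp [gen_monic, gen_irr]

lemma PiT_ne : PiT k T ≠ 0 :=
  Finset.prod_ne_zero_iff.2 fun _ hp => (mem_irrLe.1 hp).2.2.ne_zero

lemma dvd_PiT : gen u ∣ PiT k T ↔ (gen u).natDegree ≤ T := by
  refine ⟨fun h => ?_, fun h =>
    Finset.dvd_prod_of_mem _ (mem_irrLe.2 ⟨h, gen_monic u, gen_irr u⟩)⟩
  obtain ⟨p, hp, h1⟩ := (gen_prime u).exists_mem_finset_dvd h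
  obtain ⟨h2, h3, h4⟩ := mem_irrLe.1 hp
  rwa [eq_of_dvd_irr (gen_monic u) (gen_irr u) h3 h4 h1]

lemma PiT_pow_mem (h : (gen u).natDegree ≤ T) {n : ℕ} {g : k[X]} (hg : PiT k T ^ n ∣ g) :
    ι g ∈ Fil (val (some u)) n :=
  ι_mem_some.2 ((pow_dvd_pow_of_dvd (dvd_PiT.2 h) n).trans hg)

lemma ord_ι_pow (v : Pl k) (g : k[X]) (n : ℕ) : ord (val v) (ι (g ^ n)) = n * ord (val v) (ι g) := by
  rw [ι, map_pow, ord_pow]

namespace GoodT

variable (h : GoodT T β d a)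
include h

lemma Δ_ne : a.Δ ≠ 0 := fun e => h.2.1 (by rw [e, derivative_zero])

lemma ord_a1 (hu : (gen u).natDegree ≤ T) : ord (val (some u)) (ι a.a₁) < β :=
  ord_ι_lt (h.2.2.2.2 _ (gen_monic u) (gen_irr u) hu).1

lemma ord_Δ (hu : (gen u).natDegree ≤ T) : ord (val (some u)) (ι a.Δ) < (β + 1 : ℕ) :=
  ord_ι_lt fun e => (h.2.2.2.2 _ (gen_monic u) (gen_irr u) hu).2
    (by simpa using pow_sub_one_dvd_derivative_of_pow_dvd e)

lemma bnd (hd : DegLE a d) {P : PB (RatFunc k)} (hP : Nd (bc a) P) {v : Pl k} (hv : v ∈ SgT k T) :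
    Bnd (pl v) P (nA (bc a)) (12 * β) := by
  have e1 := congrArg (ord (val v)) (D_eq v P.b)
  rw [PB.D, PB.D, ord_mul (pow_ne_zero _ (c1_b_ne _ _)) (D_unif_ne v), ord_D_unif, ← PB.D, hP.hb,
    D_nB, ord_div (ι_ne h.2.1) (ι_ne (pow_ne_zero _ h.1)), ord_ι_pow, ord_sq, ← hP.hb] at e1
  obtain ⟨h1, h2, h3, -, -⟩ := id hd
  have h4 := h.2.2.1
  have h5 := h.2.2.2.1
  have h6 := hd.Δ
  rcases v with _ | u
  · rw [ord_none h.1, ord_none h.2.1, eD] at e1
    refine ⟨by omega, ?_, ?_, by change ord (val none) _ ≤ _; omega⟩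
    · rw [nA_bc]
      exact Fil.div (w := val none) (ι_mem_none.2 (natDegree_add_le_of_degree_le (natDegree_mul_le.trans
        (by omega : _ ≤ 3 * d)) h3)) (by rw [ord_ι_pow, ord_none h.1]; omega)
    · rw [hP.hb, nB_bc]
      exact Fil.div (w := val none) (ι_mem_none.2 h6) (by rw [ord_ι_pow, ord_none h.1]; omega)
  · have h7 := h.ord_a1 (mem_SgT.1 hv)
    have h8 := ord_ι_nonneg u a.a₁
    have h9 := ord_ι_lt (h.2.2.2.2 _ (gen_monic u) (gen_irr u) (mem_SgT.1 hv)).2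
    rw [eD] at e1
    refine ⟨by omega, ?_, ?_, by change ord (val (some u)) _ ≤ _; omega⟩
    · rw [nA_bc]
      exact Fil.div (w := val (some u)) (ι_int u _) (by rw [ord_ι_pow]; omega)
    · rw [hP.hb, nB_bc]
      exact Fil.div (w := val (some u)) (ι_int u _) (by rw [ord_ι_pow]; omega)

/-- The local data of the cell. -/
noncomputable def dat (hd : DegLE a d) : Dat k where
  P := (exists_nd h.1 h.2.1).choose
  A := nA (bc a)
  Sg := SgT k T
  S1 := S1T T a.a₁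
  β := 12 * β
  inf := Finset.mem_insert_self _ _
  disj := by
    rintro (_ | u) hv
    · exact absurd hv (none_not_mem (S1_aux h.1))
    · exact fun e => ((mem_S1T h.1).1 hv).2.not_ge (mem_SgT.1 e)
  bnd _ hv := h.bnd hd (exists_nd h.1 h.2.1).choose_spec hv

variable {hd : DegLE a d} {α : RatFunc k}

lemma nm_spec {G : k[X]} (hG : PiT k T ^ (84 * β + 2) * a.a₁ ∣ G) (hα : α ∈ (h.dat hd).V) :
    ι (nm G α) = α * ι G ∧ (nm G α).natDegree ≤ G.natDegree + (84 * β + 2) := by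
  have h1 := (Dat.mem_V.1 hα).2
  obtain ⟨n, hn⟩ := exists_poly (x := α * ι G) fun u => by
    by_cases h2 : some u ∈ (h.dat hd).Sg
    · exact Fil.mul (h1 _) (PiT_pow_mem (mem_SgT.1 h2) ((dvd_mul_right _ _).trans hG))
        (by rw [Dat.lev_Sg h2]; change _ ≤ -(7 * (12 * (β : ℤ)) + 2) + _; omega)
    by_cases h3 : some u ∈ (h.dat hd).S1
    · exact Fil.mul (h1 _) (ι_mem_one.2 ((((mem_S1T h.1).1 h3).1.mul_left _).trans hG))
        (by rw [Dat.lev_S1 h3]; rfl)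
    · exact Fil.mul (h1 _) (ι_int u G) (by rw [Dat.lev_zero h2 h3]; rfl)
  rw [nm, ← hn, pol_ι]
  refine ⟨rfl, ι_mem_none.1 (hn ▸ Fil.mul (h1 none) (ι_mem_none_self G) ?_)⟩
  rw [Dat.lev_Sg (h.dat hd).inf]
  change _ ≤ -(7 * (12 * (β : ℤ)) + 2) + _
  omega

lemma card_V : Finite (h.dat hd).V ∧ Nat.card (h.dat hd).V ≤
    Fintype.card k ^ (d + (84 * β + 2) * ((PiT k T).natDegree + 1) + 1) := by
  have h0 : PiT k T ^ (84 * β + 2) * a.a₁ ≠ 0 := mul_ne_zero (pow_ne_zero _ PiT_ne) h.1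
  let φ : (h.dat hd).V → Bad.PL k (d + (84 * β + 2) * ((PiT k T).natDegree + 1) + 1) := fun α =>
    ⟨nm (PiT k T ^ (84 * β + 2) * a.a₁) α, Bad.mem_PL_succ.2 ((h.nm_spec dvd_rfl α.2).2.trans (by
      rw [natDegree_mul (pow_ne_zero _ PiT_ne) h.1, natDegree_pow, mul_add]
      have := hd.1
      omega))⟩
  have hφ : Function.Injective φ := fun α α' e => Subtype.ext (mul_right_cancel₀ (ι_ne h0) (by
    rw [← (h.nm_spec dvd_rfl α.2).1, ← (h.nm_spec dvd_rfl α'.2).1]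
    exact congrArg ι (congrArg Subtype.val e)))
  exact ⟨Finite.of_injective φ hφ, (Nat.card_le_card_of_injective φ hφ).trans_eq (by
    rw [Nat.card_eq_finsetCard, Bad.card_PL])⟩

lemma mem_V0 {z : k[X]} (hz : z.natDegree + β * (PiT k T).natDegree < a.a₁.natDegree)
    (hN : GoodN T a) : (∀ v ∈ (h.dat hd).Sg, ι (PiT k T ^ β * z) / ι a.a₁ ∈ Fil (val v) 1) ∧
      ι (PiT k T ^ β * z) / ι a.a₁ ∈ (h.dat hd).V := by
  have h1 : ∀ v ∈ (h.dat hd).Sg, ι (PiT k T ^ β * z) / ι a.a₁ ∈ Fil (val v) 1 := by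
    rintro (_ | u) hv
    · refine Fil.div (ι_mem_none.2 (natDegree_mul_le.trans (add_le_add_left natDegree_pow_le _))) ?_
      rw [ord_none h.1]
      omega
    · exact Fil.div (PiT_pow_mem (mem_SgT.1 hv) (dvd_mul_right _ _))
        (by have := h.ord_a1 (mem_SgT.1 hv); omega)
  refine ⟨h1, Dat.mem_V.2 ⟨fun v hv => Cmp.PW_le_AA ((pl v).Fil_le_PW (h1 v hv)), fun v => ?_⟩⟩
  by_cases h2 : v ∈ (h.dat hd).Sg
  · exact Fil.mono (h1 v h2) ((Dat.lev_le v).trans zero_le_one)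
  obtain ⟨u, rfl⟩ := Option.ne_none_iff_exists'.1 fun e : v = none => h2 (e ▸ (h.dat hd).inf)
  have h4 := not_le.1 (mt mem_SgT.2 h2)
  by_cases h3 : gen u ∣ a.a₁
  · rw [Dat.lev_S1 ((mem_S1T h.1).2 ⟨h3, h4⟩)]
    exact Fil.div (ι_int u _)
      (by have := ord_ι_lt (hN _ (gen_monic u) (gen_irr u) h4 h3).2; omega)
  · exact Fil.mono (div_int _ h3) (Dat.lev_le _)

end GoodT

variable {M : k[X]} {f : k[X] × k[X] → k[X]} {t : k[X] × k[X]}

lemma CellA.goodP (hC : CellA T β d a M f) (ht : t ∈ cell T β d a) :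
    ∀ p ∈ (normalizedFactors (f t)).toFinset, GoodP M p := fun p hp => by
  obtain ⟨⟨h1, h2⟩, h3⟩ := (mem_nf (hC.mon t ht).ne_zero).1 hp
  exact ⟨h1, h2, fun e => h2.not_isUnit ((hC.cop t ht).isUnit_of_dvd' h3 e)⟩

lemma CellA.cfg (hC : CellA T β d a M f) (h : GoodT T β d a) (hd : DegLE a d) (hN : GoodN T a)
    (ht : t ∈ cell T β d a) (hQ : Squarefree (f t)) {P : PB (RatFunc k)}
    (hP : Nd (bc (shift T β a t)) P) :
    Cfg (h.dat hd) (bc (shift T β a t)) P ((normalizedFactors (f t)).toFinset.image plc) := by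
  have hF := hC.goodP ht
  have hF' : ∀ p ∈ (normalizedFactors (f t)).toFinset, p.Monic ∧ Irreducible p :=
    fun p hp => ⟨(hF p hp).1, (hF p hp).2.1⟩
  obtain ⟨h1, h2⟩ := hC.good t ht
  have hf : ∀ u, some u ∈ (normalizedFactors (f t)).toFinset.image plc ↔ gen u ∣ f t := fun u => by
    rw [mem_image_plc hF', mem_nf (hC.mon t ht).ne_zero]
    simp [gen_monic, gen_irr]
  have hM : ∀ u, gen u ∣ f t → T < (gen u).natDegree ∧ ¬ gen u ∣ a.a₁ := fun u hu => by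
    have := mt (hC.dvdM _ (gen_monic u) (gen_irr u)).2
      (hF _ ((mem_image_plc hF').1 ((hf u).2 hu))).2.2
    push Not at this
    exact this
  have hS : ∀ v ∉ (h.dat hd).Sg, v ∉ (h.dat hd).S1 →
      ∃ u, v = some u ∧ T < (gen u).natDegree ∧ ¬ gen u ∣ a.a₁ := fun v h3 h4 => by
    obtain ⟨u, rfl⟩ := Option.ne_none_iff_exists'.1 fun e : v = none => h3 (e ▸ (h.dat hd).inf)
    have h5 := not_le.1 (mt mem_SgT.2 h3)
    exact ⟨u, rfl, h5, fun e => h4 ((mem_S1T h.1).2 ⟨e, h5⟩)⟩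
  have hB : ∀ u, T < (gen u).natDegree → ¬ gen u ∣ a.a₁ →
      ord (val (some u)) P.b = ord (val (some u)) (ι (f t)) := fun u h3 h4 => by
    obtain ⟨g, h5, h6⟩ := hC.fac t ht
    have h7 : ¬ gen u ∣ g := fun e =>
      h3.not_ge (dvd_PiT.1 ((gen_prime u).dvd_of_dvd_pow (e.trans h5)))
    rw [hP.hb, nB_bc, ord_div (ι_ne h2.Δ_ne) (ι_ne (pow_ne_zero _ h2.1)), ord_ι_pow, h6, ι, map_mul,
      ord_mul (ι_ne fun e : g = 0 => h7 (e ▸ dvd_zero _)) (ι_ne (hC.mon t ht).ne_zero), ord_ι_unit h7,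
      show (shift T β a t).a₁ = a.a₁ from rfl, ord_ι_unit h4]
    simp
  have h3 := h.2.2.1
  refine ⟨hP, ?_, ?_, fun v hv => h2.bnd h1 hP hv, fun v hv => ?_, fun v hv => ?_, ?_,
    fun v h4 h5 => ?_, ?_, fun v h4 h5 h6 => ?_⟩
  · rintro (_ | u) hv
    · exact absurd hv (none_not_mem hF')
    · exact fun e => (hM u ((hf u).1 hv)).1.not_ge (mem_SgT.1 e)
  · rintro (_ | u) hv
    · exact absurd hv (none_not_mem hF')
    · exact fun e => (hM u ((hf u).1 hv)).2 ((mem_S1T h.1).1 e).1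
  · have e : (h.dat hd).A + nA (bc (shift T β a t)) = ι (NT k T β * t.1) / ι (a.a₁ ^ 2) := by
      change nA (bc a) + _ = _
      have := ι_ne h.1
      simp only [nA_bc, shift, ι, map_add, map_mul, map_pow] at this ⊢
      grind
    rw [e]
    rcases v with _ | u
    · exact Fil.div (ι_mem_none_self _) (by
        have := hC.deg2 t ht
        rw [ord_ι_pow, ord_none h.1]
        unfold RR at this
        omega)
    · exact Fil.div (PiT_pow_mem (mem_SgT.1 hv) (dvd_mul_right _ _)) (by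
        have := h.ord_a1 (mem_SgT.1 hv)
        rw [ord_ι_pow]
        unfold RR
        omega)
  · have e : 1 + P.b / (h.dat hd).P.b = ι ((shift T β a t).Δ - a.Δ) / ι a.Δ := by
      have h4 := ι_ne h.1
      have h5 := ι_ne h.Δ_ne
      rw [hP.hb, show (h.dat hd).P.b = _ from (exists_nd h.1 h.2.1).choose_spec.hb, nB_bc, nB_bc,
        show (shift T β a t).a₁ = a.a₁ from rfl]
      simp only [ι, map_sub, map_pow] at h4 h5 ⊢
      grind
    rw [e, show (h.dat hd).β = 12 * β from rfl]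
    rcases v with _ | u
    · exact Fil.div (ι_mem_none_self _) (by
        have := hC.deg t ht
        rw [ord_none h.Δ_ne]
        unfold RR at this
        omega)
    · exact Fil.div (PiT_pow_mem (mem_SgT.1 hv) (hC.dvd t ht)) (by
        have := h.ord_Δ (mem_SgT.1 hv)
        unfold RR
        omega)
  · rintro (_ | u) hv
    · exact absurd hv (none_not_mem (S1_aux h.1))
    obtain ⟨h4, h5⟩ := (mem_S1T h.1).1 hv
    obtain ⟨h6, h7⟩ := hN _ (gen_monic u) (gen_irr u) h5 h4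
    exact ⟨⟨ι_int u _, ι_int u _, ι_int u _, ι_int u _, ι_int u _⟩,
      ord_ι_of_not_dvd (n := 1) (by rwa [pow_one]) h7, ord_ι_unit h6,
      ι_ne fun e => h6 (e ▸ dvd_zero _)⟩
  · obtain ⟨u, rfl, -, h6⟩ := hS v h4 h5
    rw [nA_bc]
    exact div_int _ fun e => h6 ((gen_prime u).dvd_of_dvd_pow e)
  · rintro (_ | u) hv
    · exact absurd hv (none_not_mem hF')
    have h4 := (hf u).1 hv
    rw [hB u (hM u h4).1 (hM u h4).2]
    exact ord_ι_of_not_dvd (n := 1) (by rwa [pow_one]) fun e =>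
      (gen_irr u).not_isUnit (hQ _ (by rwa [← pow_two]))
  · obtain ⟨u, rfl, h7, h8⟩ := hS v h4 h5
    rw [hB u h7 h8, ord_ι_unit (mt (hf u).2 h6)]

end Pool.Agent.Lib.MP_a3f657_nt.Two
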