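import Pool.Agent.Lib.MP_a3f657_nt.C2QDefs
import Pool.Agent.Lib.MP_a3f657_nt.C2Tup

/-!
Transformations and invariants of generalised binary quartics.
-/

set_option linter.unusedSectionVars false

namespace Pool.Agent.Lib.MP_a3f657_nt.Two

open Polynomial

open scoped Classical

namespace QF

section ring

variable {R S : Type} [CommRing R] [CommRing S]

/-- Change of the coefficient ring. -/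
def map (φ : R →+* S) (Φ : QF R) : QF S :=
  ⟨φ Φ.l, φ Φ.m, φ Φ.n, φ Φ.f₀, φ Φ.f₁, φ Φ.f₂, φ Φ.f₃, φ Φ.f₄⟩

/-- The substitution `y ↦ y + r₀ x ^ 2 + r₁ x z + r₂ z ^ 2`. -/
def sh (r₀ r₁ r₂ : R) (Φ : QF R) : QF R :=
  ⟨Φ.l, Φ.m, Φ.n, Φ.f₀ + r₀ ^ 2 + Φ.l * r₀, Φ.f₁ + Φ.l * r₁ + Φ.m * r₀,
    Φ.f₂ + r₁ ^ 2 + Φ.l * r₂ + Φ.m * r₁ + Φ.n * r₀, Φ.f₃ + Φ.m * r₂ + Φ.n * r₁,
    Φ.f₄ + r₂ ^ 2 + Φ.n * r₂⟩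

/-- The substitution `x ↦ α x + β z`, `z ↦ γ x + δ z`. -/
def lin (α β γ δ : R) (Φ : QF R) : QF R :=
  ⟨Φ.l * α ^ 2 + Φ.m * α * γ + Φ.n * γ ^ 2, Φ.m * (α * δ + β * γ),
    Φ.l * β ^ 2 + Φ.m * β * δ + Φ.n * δ ^ 2,
    Φ.f₀ * α ^ 4 + Φ.f₁ * α ^ 3 * γ + Φ.f₂ * α ^ 2 * γ ^ 2 + Φ.f₃ * α * γ ^ 3 + Φ.f₄ * γ ^ 4,
    (α * δ + β * γ) * (Φ.f₁ * α ^ 2 + Φ.f₃ * γ ^ 2),
    (α * δ + β * γ) * (Φ.f₁ * α * β + Φ.f₃ * γ * δ) + (α * δ + β * γ) ^ 2 * Φ.f₂,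
    (α * δ + β * γ) * (Φ.f₁ * β ^ 2 + Φ.f₃ * δ ^ 2),
    Φ.f₀ * β ^ 4 + Φ.f₁ * β ^ 3 * δ + Φ.f₂ * β ^ 2 * δ ^ 2 + Φ.f₃ * β * δ ^ 3 + Φ.f₄ * δ ^ 4⟩

/-- The substitution `y ↦ y / u`. -/
def scl (u : R) (Φ : QF R) : QF R :=
  ⟨u * Φ.l, u * Φ.m, u * Φ.n, u ^ 2 * Φ.f₀, u ^ 2 * Φ.f₁, u ^ 2 * Φ.f₂, u ^ 2 * Φ.f₃, u ^ 2 * Φ.f₄⟩

variable (φ : R →+* S) (Φ : QF R)

lemma map_J : (Φ.map φ).J = φ Φ.J := by simp [map, J]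

lemma map_Ψ₀ : (Φ.map φ).Ψ₀ = φ Φ.Ψ₀ := by simp [map, Ψ₀, J]

lemma map_Ψ₄ : (Φ.map φ).Ψ₄ = φ Φ.Ψ₄ := by simp [map, Ψ₄, J]

lemma map_Δ : (Φ.map φ).Δ = φ Φ.Δ := by simp [map, Δ, Θ, Ψ₀, Ψ₄, J]

lemma map_sh (r₀ r₁ r₂ : R) : (Φ.sh r₀ r₁ r₂).map φ = (Φ.map φ).sh (φ r₀) (φ r₁) (φ r₂) := by
  simp [map, sh]

lemma map_lin (α β γ δ : R) :
    (Φ.lin α β γ δ).map φ = (Φ.map φ).lin (φ α) (φ β) (φ γ) (φ δ) := by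
  simp [map, lin]

lemma map_scl (u : R) : (Φ.scl u).map φ = (Φ.map φ).scl (φ u) := by simp [map, scl]

lemma scl_one : Φ.scl 1 = Φ := by simp [scl]

lemma scl_scl (u v : R) : (Φ.scl u).scl v = Φ.scl (v * u) := by
  ext <;> simp only [scl] <;> ring

lemma lin_scl (u α β γ δ : R) : (Φ.scl u).lin α β γ δ = (Φ.lin α β γ δ).scl u := by
  ext <;> simp only [scl, lin] <;> ring

lemma scl_sh (u r₀ r₁ r₂ : R) :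
    (Φ.sh r₀ r₁ r₂).scl u = (Φ.scl u).sh (u * r₀) (u * r₁) (u * r₂) := by
  ext <;> simp only [scl, sh] <;> ring

lemma scl_J (u : R) : (Φ.scl u).J = u ^ 3 * Φ.J := by simp only [scl, J]; ring

lemma scl_Ψ₀ (u : R) : (Φ.scl u).Ψ₀ = u ^ 5 * Φ.Ψ₀ := by simp only [scl, J, Ψ₀]; ring

lemma scl_Ψ₄ (u : R) : (Φ.scl u).Ψ₄ = u ^ 5 * Φ.Ψ₄ := by simp only [scl, J, Ψ₄]; ring

lemma lin_one : Φ.lin 1 0 0 1 = Φ := by simp [lin]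

lemma sh_zero : Φ.sh 0 0 0 = Φ := by simp [sh]

variable [CharP R 2]

lemma sh_sh (r₀ r₁ r₂ s₀ s₁ s₂ : R) :
    (Φ.sh r₀ r₁ r₂).sh s₀ s₁ s₂ = Φ.sh (r₀ + s₀) (r₁ + s₁) (r₂ + s₂) := by
  ext <;> simp only [sh] <;> grind

lemma lin_sh (r₀ r₁ r₂ α β γ δ : R) : (Φ.sh r₀ r₁ r₂).lin α β γ δ = (Φ.lin α β γ δ).sh
    (r₀ * α ^ 2 + r₁ * α * γ + r₂ * γ ^ 2) (r₁ * (α * δ + β * γ))
    (r₀ * β ^ 2 + r₁ * β * δ + r₂ * δ ^ 2) := by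
  ext <;> simp only [sh, lin] <;> grind

lemma lin_lin (α β γ δ α' β' γ' δ' : R) : (Φ.lin α β γ δ).lin α' β' γ' δ' =
    Φ.lin (α * α' + β * γ') (α * β' + β * δ') (γ * α' + δ * γ') (γ * β' + δ * δ') := by
  ext <;> simp only [lin] <;> grind

lemma sh_J (r₀ r₁ r₂ : R) : (Φ.sh r₀ r₁ r₂).J = Φ.J + Φ.m * r₁ ^ 2 + Φ.m ^ 2 * r₁ := by
  simp only [sh, J]; grind

lemma sh_Ψ₀ (r₀ r₁ r₂ : R) : (Φ.sh r₀ r₁ r₂).Ψ₀ = Φ.Ψ₀ := by simp only [sh, Ψ₀, J]; grind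

lemma sh_Ψ₄ (r₀ r₁ r₂ : R) : (Φ.sh r₀ r₁ r₂).Ψ₄ = Φ.Ψ₄ := by simp only [sh, Ψ₄, J]; grind

lemma lin_J (α β γ δ : R) : (Φ.lin α β γ δ).J = (α * δ + β * γ) ^ 3 * Φ.J := by
  simp only [lin, J]; grind

lemma lin_Ψ₀ (α β γ δ : R) :
    (Φ.lin α β γ δ).Ψ₀ = (α * δ + β * γ) ^ 3 * (α ^ 4 * Φ.Ψ₀ + γ ^ 4 * Φ.Ψ₄) := by
  simp only [lin, Ψ₀, Ψ₄, J]; grind

lemma lin_Ψ₄ (α β γ δ : R) :
    (Φ.lin α β γ δ).Ψ₄ = (α * δ + β * γ) ^ 3 * (β ^ 4 * Φ.Ψ₀ + δ ^ 4 * Φ.Ψ₄) := by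
  simp only [lin, Ψ₀, Ψ₄, J]; grind

lemma m_Θ : Φ.m * Φ.Θ = Φ.l ^ 2 * Φ.Ψ₄ + Φ.n ^ 2 * Φ.Ψ₀ := by simp only [Θ, Ψ₀, Ψ₄, J]; grind

end ring

variable {K : Type} [Field K]

/-- The normalised action of a matrix. -/
def act (M : Matrix (Fin 2) (Fin 2) K) (Φ : QF K) : QF K :=
  (Φ.lin (M 0 0) (M 0 1) (M 1 0) (M 1 1)).scl M.det⁻¹

/-- Weighted integrality. -/
structure Wt (w : Valuation K (WithZero (Multiplicative ℤ))) (e j : ℤ) (Φ : QF K) : Prop where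
  l : Φ.l ∈ Fil w (e + j)
  m : Φ.m ∈ Fil w e
  n : Φ.n ∈ Fil w (e - j)
  f₀ : Φ.f₀ ∈ Fil w (2 * e + 2 * j)
  f₁ : Φ.f₁ ∈ Fil w (2 * e + j)
  f₂ : Φ.f₂ ∈ Fil w (2 * e)
  f₃ : Φ.f₃ ∈ Fil w (2 * e - j)
  f₄ : Φ.f₄ ∈ Fil w (2 * e - 2 * j)

variable [CharP K 2]

/-- The model represents the class `s` of the curve with invariants `A`, `P.b`, and has middle
coefficient `m`. -/
structure Inv (P : PB K) (A s m : K) (Φ : QF K) : Prop where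
  m0 : m ≠ 0
  hm : Φ.m = m
  ex : ∃ g₀ h₀ g₂ h₂ : K, g₀ * h₂ + g₂ * h₀ = 1 ∧ Φ.Ψ₀ = m ^ 5 * (g₀ ^ 2 + P.b * h₀ ^ 2) ∧
    Φ.Ψ₄ = m ^ 5 * (g₂ ^ 2 + P.b * h₂ ^ 2) ∧
    Φ.l ^ 2 = m ^ 2 * (s * (g₀ ^ 2 + P.b * h₀ ^ 2) + g₀ * h₀) ∧
    Φ.n ^ 2 = m ^ 2 * (s * (g₂ ^ 2 + P.b * h₂ ^ 2) + g₂ * h₂)
  hA : ∃ c, Φ.J + Φ.l * Φ.n * m = m ^ 3 * (A + wp c)

lemma det_two (M : Matrix (Fin 2) (Fin 2) K) : M.det = M 0 0 * M 1 1 + M 0 1 * M 1 0 := by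
  rw [Matrix.det_fin_two, CharTwo.sub_eq_add]

lemma act_mul (M N : Matrix (Fin 2) (Fin 2) K) (Φ : QF K) : act (M * N) Φ = act N (act M Φ) := by
  simp only [act, lin_scl, scl_scl, lin_lin, Matrix.det_mul, Matrix.mul_apply, Fin.sum_univ_two,
    mul_inv, mul_comm M.det⁻¹]

lemma act_one (Φ : QF K) : act 1 Φ = Φ := by simp [act, lin_one, scl_one]

lemma act_sh (M : Matrix (Fin 2) (Fin 2) K) (Φ : QF K) (r₀ r₁ r₂ : K) :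
    ∃ s₀ s₁ s₂, act M (Φ.sh r₀ r₁ r₂) = (act M Φ).sh s₀ s₁ s₂ :=
  ⟨_, _, _, by rw [act, lin_sh, scl_sh]; rfl⟩

lemma map_act {L : Type} [Field L] (f : K →+* L) (M : Matrix (Fin 2) (Fin 2) K) (Φ : QF K) :
    (act M Φ).map f = act (M.map f) (Φ.map f) := by
  rw [act, map_scl, map_lin, act, map_inv₀, RingHom.map_det]
  rfl

variable {P P' : PB K} {A A' s s' m m' : K} {Φ Φ' : QF K}

lemma Inv.sh (h : Inv P A s m Φ) (r₀ r₁ r₂ : K) : Inv P A s m (Φ.sh r₀ r₁ r₂) := by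
  obtain ⟨h0, rfl, h2, c, hc⟩ := h
  refine ⟨h0, rfl, by rwa [sh_Ψ₀, sh_Ψ₄], c + r₁ / Φ.m, ?_⟩
  rw [sh_J, wp_add]
  simp only [QF.sh, wp] at hc ⊢
  grind

lemma Inv.lin (h : Inv P A s m Φ) {α β γ δ u : K} (hu : u * (α * δ + β * γ) = 1) :
    Inv P A s m ((Φ.lin α β γ δ).scl u) := by
  obtain ⟨h0, rfl, ⟨g₀, h₀, g₂, h₂, e1, e2, e3, e4, e5⟩, c, hc⟩ := h
  refine ⟨h0, by simp only [scl, QF.lin]; grind, ⟨u * (α ^ 2 * g₀ + γ ^ 2 * g₂),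
    u * (α ^ 2 * h₀ + γ ^ 2 * h₂), u * (β ^ 2 * g₀ + δ ^ 2 * g₂), u * (β ^ 2 * h₀ + δ ^ 2 * h₂),
    by grind, ?_, ?_, ?_, ?_⟩, c + u * (Φ.l * α * β + Φ.m * β * γ + Φ.n * γ * δ) / Φ.m, ?_⟩
  · rw [scl_Ψ₀, lin_Ψ₀, e2, e3]; grind
  · rw [scl_Ψ₄, lin_Ψ₄, e2, e3]; grind
  · simp only [scl, QF.lin]; grind
  · simp only [scl, QF.lin]; grind
  · rw [scl_J, lin_J, wp_add]
    simp only [scl, QF.lin, wp] at hc ⊢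
    grind

lemma Inv.act (h : Inv P A s m Φ) {M : Matrix (Fin 2) (Fin 2) K} (hM : M.det ≠ 0) :
    Inv P A s m (act M Φ) := h.lin (by rw [← det_two, inv_mul_cancel₀ hM])

lemma Inv.un (h : Inv P A s m Φ) (β : K) : Inv P A s m (Φ.lin 1 β 0 1) := by
  simpa [scl_one] using h.lin (α := 1) (β := β) (γ := 0) (δ := 1) (u := 1) (by simp)

lemma Inv.map (h : Inv P A s m Φ) {L : Type} [Field L] [CharP L 2] (f : K →+* L) {Q : PB L}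
    (hQ : Q.b = f P.b) : Inv Q (f A) (f s) (f m) (Φ.map f) := by
  obtain ⟨h0, rfl, ⟨g₀, h₀, g₂, h₂, e1, e2, e3, e4, e5⟩, c, hc⟩ := h
  refine ⟨(map_ne_zero f).2 h0, rfl, ⟨f g₀, f h₀, f g₂, f h₂, by simpa using congrArg f e1, ?_, ?_,
    ?_, ?_⟩, f c, ?_⟩
  · simp [map_Ψ₀, e2, hQ]
  · simp [map_Ψ₄, e3, hQ]
  · simpa [hQ, QF.map] using congrArg f e4
  · simpa [hQ, QF.map] using congrArg f e5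
  · rw [map_J]
    simpa [QF.map, wp] using congrArg f hc

lemma Inv.Δ (h : Inv P A s m Φ) : Φ.Δ = m ^ 12 * P.b := by
  obtain ⟨h0, rfl, ⟨g₀, h₀, g₂, h₂, e1, e2, e3, e4, e5⟩, -⟩ := h
  have e6 : Φ.Θ = Φ.m ^ 6 * (g₀ * g₂ + P.b * h₀ * h₂) := mul_left_cancel₀ h0 (by
    rw [m_Θ, e2, e3, e4, e5]; grind)
  rw [QF.Δ, e2, e3, e6]
  grind

lemma Inv.uniq (h : Inv P A s m Φ) (h' : Inv P' A' s' m' Φ) :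
    m = m' ∧ P = P' ∧ s = s' ∧ ∃ c, A' = A + wp c := by
  obtain rfl : m = m' := h.hm.symm.trans h'.hm
  obtain rfl : P = P' := PB.ext' (mul_left_cancel₀ (pow_ne_zero 12 h.m0) (h.Δ.symm.trans h'.Δ))
  obtain ⟨h0, -, ⟨g₀, h₀, g₂, h₂, e1, e2, -, e4, -⟩, c, hc⟩ := h
  obtain ⟨-, -, ⟨g₀', h₀', -, -, -, e2', -, e4', -⟩, c', hc'⟩ := h'
  have e5 := mul_left_cancel₀ (pow_ne_zero 5 h0) (e2.symm.trans e2')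
  obtain rfl : g₀ = g₀' := (P.uniq rfl).1.symm.trans (P.uniq e5).1
  obtain rfl : h₀ = h₀' := (P.uniq rfl).2.symm.trans (P.uniq e5).2
  have e6 : g₀ ^ 2 + P.b * h₀ ^ 2 ≠ 0 := fun e => by
    have := P.uniq e.symm
    simp only [PB.c0_zero, PB.c1_zero] at this
    rw [← this.1, ← this.2] at e1
    simp at e1
  have e7 := mul_left_cancel₀ (pow_ne_zero 2 h0) (e4.symm.trans e4')
  have e8 := mul_left_cancel₀ (pow_ne_zero 3 h0) (hc.symm.trans hc')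
  exact ⟨rfl, rfl, mul_right_cancel₀ e6 (add_right_cancel e7), c + c', by rw [wp_add]; grind⟩

lemma Inv.of_Δ (h0 : Φ.m ≠ 0) (hΔ : Φ.Δ = Φ.m ^ 12 * P.b) {x : K} (hx : Φ.Ψ₀ = Φ.m ^ 5 * x)
    (hs : Φ.l ^ 2 = Φ.m ^ 2 * (s * x + P.c0 x * P.c1 x))
    (hA : ∃ c, Φ.J + Φ.l * Φ.n * Φ.m = Φ.m ^ 3 * (A + wp c)) : Inv P A s Φ.m Φ := by
  obtain ⟨y, hy⟩ : ∃ y, Φ.Ψ₄ = Φ.m ^ 5 * y := ⟨Φ.Ψ₄ / Φ.m ^ 5, by field_simp⟩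
  obtain ⟨θ, hθ⟩ : ∃ θ, Φ.Θ = Φ.m ^ 6 * θ := ⟨Φ.Θ / Φ.m ^ 6, by field_simp⟩
  have e1 : x * y = θ ^ 2 + P.b * 1 ^ 2 := mul_left_cancel₀ (pow_ne_zero 12 h0) (by
    rw [QF.Δ, hx, hy, hθ] at hΔ; grind)
  obtain ⟨e2, e3⟩ := P.uniq e1
  rw [PB.c0_mul] at e2
  rw [PB.c1_mul] at e3
  have e4 := Φ.m_Θ
  have e5 := P.spec x
  have e6 := P.spec y
  have hx0 : x ≠ 0 := by rintro rfl; simp at e3
  refine ⟨h0, rfl, ⟨P.c0 x, P.c1 x, P.c0 y, P.c1 y, by grind, by rw [← e5, hx], by rw [← e6, hy],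
    by rw [← e5, hs], ?_⟩, hA⟩
  rw [← e6]
  refine mul_left_cancel₀ (mul_ne_zero (pow_ne_zero 5 h0) hx0) ?_
  rw [hx, hy, hθ, hs] at e4
  generalize P.c0 x = g₀ at *
  generalize P.c1 x = h₀ at *
  generalize P.c0 y = g₂ at *
  generalize P.c1 y = h₂ at *
  subst e2
  have e7 : g₀ * h₀ * y + g₂ * h₂ * x = g₀ * g₂ + P.b * (h₀ * h₂) := by rw [e5, e6]; grind
  linear_combination -e4 - Φ.m ^ 7 * e7 - Φ.m ^ 7 * s * x * y * CharTwo.two_eq_zero (R := K)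

lemma exists_sq_class {p q r t a b : K} (h1 : p * t + q * r = 1) (h2 : p * r = a ^ 2)
    (h3 : q * t = b ^ 2) : ∃ α β γ δ u : K, u * (α * δ + β * γ) = 1 ∧ p = u * α ^ 2 ∧
      q = u * β ^ 2 ∧ r = u * γ ^ 2 ∧ t = u * δ ^ 2 := by
  by_cases hp : p = 0
  · exact ⟨0, 1, r, b * r, q, by grind, by grind, by grind, by grind, by grind⟩
  · exact ⟨1, (p * b + q * a) / p, a / p, (p * t + a * b) / p, p, by grind, by grind, by grind,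
      by grind, by grind⟩

lemma eq_sh (h0 : Φ.m ≠ 0) (hl : Φ'.l = Φ.l) (hm : Φ'.m = Φ.m) (hn : Φ'.n = Φ.n)
    (h1 : Φ'.Ψ₀ = Φ.Ψ₀) (h2 : Φ'.Ψ₄ = Φ.Ψ₄) {c : K} (h3 : Φ'.J = Φ.J + Φ.m ^ 3 * wp c) :
    ∃ r₀ r₁ r₂, Φ' = Φ.sh r₀ r₁ r₂ := by
  refine ⟨(Φ.f₁ + Φ'.f₁) / Φ.m + Φ.l * c, Φ.m * c, (Φ.f₃ + Φ'.f₃) / Φ.m + Φ.n * c, ?_⟩
  generalize hΨ : Φ.sh ((Φ.f₁ + Φ'.f₁) / Φ.m + Φ.l * c) (Φ.m * c)
    ((Φ.f₃ + Φ'.f₃) / Φ.m + Φ.n * c) = Ψ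
  have e1 : Φ'.f₁ = Ψ.f₁ := by simp only [← hΨ, sh]; grind
  have e3 : Φ'.f₃ = Ψ.f₃ := by simp only [← hΨ, sh]; grind
  have e4 : Φ'.J = Ψ.J := by rw [← hΨ, sh_J, h3, wp]; ring
  have e5 : Φ'.Ψ₀ = Ψ.Ψ₀ := by rw [← hΨ, sh_Ψ₀, h1]
  have e6 : Φ'.Ψ₄ = Ψ.Ψ₄ := by rw [← hΨ, sh_Ψ₄, h2]
  have e7 : Φ'.l = Ψ.l ∧ Φ'.m = Ψ.m ∧ Φ'.n = Ψ.n := by rw [← hΨ]; exact ⟨hl, hm, hn⟩
  rw [← hm] at h0
  rw [Ψ₀, Ψ₀, ← e4, ← e1, ← e7.1, ← e7.2.1] at e5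
  rw [Ψ₄, Ψ₄, ← e4, ← e3, ← e7.2.2, ← e7.2.1] at e6
  rw [J, J, ← e1, ← e3, ← e7.1, ← e7.2.1, ← e7.2.2] at e4
  exact QF.ext e7.1 e7.2.1 e7.2.2 (mul_left_cancel₀ (pow_ne_zero 3 h0) (by linear_combination e5)) e1
    (mul_left_cancel₀ h0 (by linear_combination e4)) e3
    (mul_left_cancel₀ (pow_ne_zero 3 h0) (by linear_combination e6))

lemma Inv.eqv (h : Inv P A s m Φ) (h' : Inv P A s m Φ') :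
    ∃ (M : Matrix (Fin 2) (Fin 2) K) (r₀ r₁ r₂ : K), M.det ≠ 0 ∧ Φ' = (QF.act M Φ).sh r₀ r₁ r₂ := by
  obtain ⟨g₀, h₀, g₂, h₂, e1, e2, e3, e4, e5⟩ := h.ex
  obtain ⟨g₀', h₀', g₂', h₂', e1', e2', e3', e4', e5'⟩ := h'.ex
  have h0 := h.m0
  obtain ⟨p, q, r, t, rfl, rfl, rfl, rfl⟩ : ∃ p q r t, g₀' = p * g₀ + r * g₂ ∧ h₀' = p * h₀ + r * h₂ ∧
      g₂' = q * g₀ + t * g₂ ∧ h₂' = q * h₀ + t * h₂ :=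
    ⟨h₂ * g₀' + g₂ * h₀', h₂ * g₂' + g₂ * h₂', h₀ * g₀' + g₀ * h₀', h₀ * g₂' + g₀ * h₂', by grind,
      by grind, by grind, by grind⟩
  have e6 : Φ'.l ^ 2 = Φ.l ^ 2 * p ^ 2 + m ^ 2 * (p * r) + Φ.n ^ 2 * r ^ 2 := by
    rw [e4', e4, e5]; grind
  have e7 : Φ'.n ^ 2 = Φ.l ^ 2 * q ^ 2 + m ^ 2 * (q * t) + Φ.n ^ 2 * t ^ 2 := by
    rw [e5', e4, e5]; grind
  obtain ⟨α, β, γ, δ, u, hu, rfl, rfl, rfl, rfl⟩ := exists_sq_class (p := p) (q := q) (r := r) (t := t)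
    (a := (Φ'.l + Φ.l * p + Φ.n * r) / m) (b := (Φ'.n + Φ.l * q + Φ.n * t) / m) (by grind)
    (by grind) (by grind)
  have e8 : (!![α, β; γ, δ] : Matrix (Fin 2) (Fin 2) K).det = α * δ + β * γ := det_two _
  have e9 : QF.act !![α, β; γ, δ] Φ = (Φ.lin α β γ δ).scl u := by
    rw [QF.act, e8, ← eq_inv_of_mul_eq_one_left hu]; rfl
  have h1 := h.lin hu
  obtain ⟨c, hc⟩ := h1.hA
  obtain ⟨c', hc'⟩ := h'.hA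
  have hm := h.hm
  have e10 : Φ'.l = ((Φ.lin α β γ δ).scl u).l := sq_inj (by
    rw [e6]; simp only [scl, QF.lin, hm]; clear * -; grind)
  have e11 : Φ'.n = ((Φ.lin α β γ δ).scl u).n := sq_inj (by
    rw [e7]; simp only [scl, QF.lin, hm]; clear * -; grind)
  obtain ⟨r₀, r₁, r₂, e⟩ := eq_sh (c := c + c') (h1.hm ▸ h0) e10 (h'.hm.trans h1.hm.symm) e11
    (by rw [scl_Ψ₀, lin_Ψ₀, e2', e2, e3]; clear * - hu; grind)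
    (by rw [scl_Ψ₄, lin_Ψ₄, e3', e2, e3]; clear * - hu; grind)
    (by rw [h1.hm, wp_add]; grind)
  exact ⟨_, r₀, r₁, r₂, by rw [e8]; exact right_ne_zero_of_mul_eq_one hu, by rw [e9, e]⟩

/-- The action of a diagonal matrix. -/
def dg (c : K) (Φ : QF K) : QF K :=
  ⟨c * Φ.l, Φ.m, Φ.n / c, c ^ 2 * Φ.f₀, c * Φ.f₁, Φ.f₂, Φ.f₃ / c, Φ.f₄ / c ^ 2⟩

lemma act_diagonal {x y : K} (hx : x ≠ 0) (hy : y ≠ 0) (Φ : QF K) :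
    QF.act (Matrix.diagonal ![x, y]) Φ = Φ.dg (x / y) := by
  ext <;> simp [QF.act, QF.lin, scl, dg] <;> field_simp

lemma dg_sh {c : K} (hc : c ≠ 0) (Φ : QF K) (r₀ r₁ r₂ : K) :
    (Φ.sh r₀ r₁ r₂).dg c = (Φ.dg c).sh (c * r₀) r₁ (r₂ / c) := by
  ext <;> simp only [QF.sh, dg] <;> field_simp

lemma dg_dg {c : K} (hc : c ≠ 0) (Φ : QF K) : (Φ.dg c).dg c⁻¹ = Φ := by
  ext <;> simp only [dg] <;> field_simp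

variable {w : Valuation K (WithZero (Multiplicative ℤ))} {e j : ℤ}

lemma Wt.dg (h : Wt w e j Φ) (c : K) : Wt w e (j + ord w c) (Φ.dg c) :=
  ⟨Fil.mul (mem_Fil_ord c) h.l (by omega), h.m, Fil.div h.n (by omega),
    Fil.mul (Fil.sq (mem_Fil_ord c) le_rfl) h.f₀ (by omega), Fil.mul (mem_Fil_ord c) h.f₁ (by omega),
    h.f₂, Fil.div h.f₃ (by omega), Fil.div h.f₄ (by rw [ord_sq]; omega)⟩

lemma Wt.sh (h : Wt w e j Φ) {r₀ r₁ r₂ : K} (h0 : r₀ ∈ Fil w (e + j)) (h1 : r₁ ∈ Fil w e)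
    (h2 : r₂ ∈ Fil w (e - j)) : Wt w e j (Φ.sh r₀ r₁ r₂) :=
  ⟨h.l, h.m, h.n, add_mem (add_mem h.f₀ (Fil.sq h0 (by omega))) (Fil.mul h.l h0 (by omega)),
    add_mem (add_mem h.f₁ (Fil.mul h.l h1 (by omega))) (Fil.mul h.m h0 (by omega)),
    add_mem (add_mem (add_mem (add_mem h.f₂ (Fil.sq h1 (by omega))) (Fil.mul h.l h2 (by omega)))
      (Fil.mul h.m h1 (by omega))) (Fil.mul h.n h0 (by omega)),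
    add_mem (add_mem h.f₃ (Fil.mul h.m h2 (by omega))) (Fil.mul h.n h1 (by omega)),
    add_mem (add_mem h.f₄ (Fil.sq h2 (by omega))) (Fil.mul h.n h2 (by omega))⟩

lemma Wt.lin (h : Wt w e 0 Φ) {α β γ δ : K} (h1 : α ∈ Fil w 0) (h2 : β ∈ Fil w 0)
    (h3 : γ ∈ Fil w 0) (h4 : δ ∈ Fil w 0) : Wt w e 0 (Φ.lin α β γ δ) := by
  obtain ⟨a1, a2, a3, a4, a5, a6, a7, a8⟩ := h
  have m1 : ∀ {a : ℤ} {x y : K}, x ∈ Fil w a → y ∈ Fil w 0 → x * y ∈ Fil w a := fun hx hy =>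
    Fil.mul hx hy (by omega)
  have m2 : ∀ {a : ℤ} {x y : K}, x ∈ Fil w 0 → y ∈ Fil w a → x * y ∈ Fil w a := fun hx hy =>
    Fil.mul hx hy (by omega)
  have p : ∀ {x : K} (n : ℕ), x ∈ Fil w 0 → x ^ n ∈ Fil w 0 := fun n hx => Fil.pow hx n (by omega)
  have hD := add_mem (m1 h1 h4) (m1 h2 h3)
  simp only [add_zero, sub_zero, mul_zero] at a1 a3 a4 a5 a7 a8
  refine ⟨?_, m1 a2 hD, ?_, ?_, ?_, ?_, ?_, ?_⟩ <;> try simp only [add_zero, sub_zero, mul_zero]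
  · exact add_mem (add_mem (m1 a1 (p 2 h1)) (m1 (m1 a2 h1) h3)) (m1 a3 (p 2 h3))
  · exact add_mem (add_mem (m1 a1 (p 2 h2)) (m1 (m1 a2 h2) h4)) (m1 a3 (p 2 h4))
  · exact add_mem (add_mem (add_mem (add_mem (m1 a4 (p 4 h1)) (m1 (m1 a5 (p 3 h1)) h3))
      (m1 (m1 a6 (p 2 h1)) (p 2 h3))) (m1 (m1 a7 h1) (p 3 h3))) (m1 a8 (p 4 h3))
  · exact m2 hD (add_mem (m1 a5 (p 2 h1)) (m1 a7 (p 2 h3)))
  · exact add_mem (m2 hD (add_mem (m1 (m1 a5 h1) h2) (m1 (m1 a7 h3) h4))) (m2 (p 2 hD) a6)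
  · exact m2 hD (add_mem (m1 a5 (p 2 h2)) (m1 a7 (p 2 h4)))
  · exact add_mem (add_mem (add_mem (add_mem (m1 a4 (p 4 h2)) (m1 (m1 a5 (p 3 h2)) h4))
      (m1 (m1 a6 (p 2 h2)) (p 2 h4))) (m1 (m1 a7 h2) (p 3 h4))) (m1 a8 (p 4 h4))

lemma Wt.scl (h : Wt w e j Φ) {u : K} (hu : u ∈ Fil w 0) : Wt w e j (Φ.scl u) :=
  have h2 := Fil.sq hu (c := 0) le_rfl
  ⟨Fil.mul hu h.l (by omega), Fil.mul hu h.m (by omega), Fil.mul hu h.n (by omega),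
    Fil.mul h2 h.f₀ (by omega), Fil.mul h2 h.f₁ (by omega), Fil.mul h2 h.f₂ (by omega),
    Fil.mul h2 h.f₃ (by omega), Fil.mul h2 h.f₄ (by omega)⟩

lemma Wt.act (h : Wt w e 0 Φ) {M : Matrix (Fin 2) (Fin 2) K} (h1 : ∀ i j, M i j ∈ Fil w 0)
    (h2 : ord w M.det = 0) : Wt w e 0 (act M Φ) :=
  (h.lin (h1 _ _) (h1 _ _) (h1 _ _) (h1 _ _)).scl (mem_Fil_of_le (by rw [ord_inv]; omega))

end QF

/-- Locally soluble classes have locally integral models. -/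
def LocModel : Prop :=
  ∀ (F : Type) [Field F] [CharP F 2] (L : PreLoc F) (C : Cmp L) (W : WeierstrassCurve F)
    (P : PB F) (e : ℤ) (s : F) (Φ : QF F), Nd W P → W.a₁ ∈ Fil L.w e → W.a₂ ∈ Fil L.w (2 * e) →
    W.a₃ ∈ Fil L.w (3 * e) → W.a₄ ∈ Fil L.w (4 * e) → W.a₆ ∈ Fil L.w (6 * e) →
    s ∈ C.Im P (nA W) → s ≠ 0 → QF.Inv P (nA W) s W.a₁ Φ →
    ∃ (M : Matrix (Fin 2) (Fin 2) F) (r₀ r₁ r₂ : F), M.det ≠ 0 ∧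
      QF.Wt L.w e 0 ((QF.act M Φ).sh r₀ r₁ r₂)

/-- Nonzero Selmer elements have integral models. -/
def Param : Prop :=
  ∀ (k : Type) [Field k] [Fintype k] [CharP k 2] (d : ℕ) (a : WeierstrassCurve k[X])
    (P : PB (RatFunc k)) (s : RatFunc k), DegLE a d → Nd (bc a) P → s ∈ Sel P (nA (bc a)) → s ≠ 0 →
    ∃ j ≤ d, ∃ Φ : QF k[X], BoxQ d j Φ ∧
      QF.Inv P (nA (bc a)) s (ι a.a₁) (Φ.map (algebraMap k[X] (RatFunc k)))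

/-- The tail estimate. -/
def Tail : Prop :=
  ∀ (k : Type) [Field k] [Fintype k] [CharP k 2] (w : WeierstrassCurve (RatFunc k) → ℕ),
    (∀ W, w W = 0 ∨ ∃ P, Nd W P ∧ w W ≤ Nat.card (Sel P (nA W))) →
    ∀ ε : ℝ, 0 < ε → ∃ T₁ : ℕ, ∀ T, T₁ ≤ T → ∃ β : ℕ, ∀ᶠ d : ℕ in Filter.atTop,
      ∑ᶠ a ∈ {a : WeierstrassCurve k[X] |
        DegLE a d ∧ ¬ (GoodT T β d a ∧ GoodN T a ∧ GoodQ T a)},
          ((w (a.baseChange (RatFunc k)) - 1 : ℕ) : ℝ) ≤ ε * (Fintype.card k : ℝ) ^ (16 * d)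

end Pool.Agent.Lib.MP_a3f657_nt.Two
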