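import Pool.Agent.Lib.MP_a3f657_nt.C2QDefs
import Pool.Agent.Lib.MP_a3f657_nt.C2CellRed

/-!
Reduction of the average of an invariant to cells and a tail estimate.
-/

namespace Pool.Agent.Lib.MP_a3f657_nt.Two

open Polynomial Filter

open scoped Classical

namespace Avg

open Red

variable {k : Type} [Field k]

lemma good_mono {T β β' d : ℕ} {a : WeierstrassCurve k[X]} (h : GoodT T β d a) (hβ : β ≤ β') :
    GoodT T β' d a :=
  ⟨h.1, h.2.1, by have := h.2.2.1; omega, by have := h.2.2.2.1; omega, fun p p1 p2 p3 =>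
    ⟨fun c => (h.2.2.2.2 p p1 p2 p3).1 ((pow_dvd_pow p hβ).trans c),
      fun c => (h.2.2.2.2 p p1 p2 p3).2 ((pow_dvd_pow p hβ).trans c)⟩⟩

variable [Fintype k]

/-- The tuples of level `d`. -/
noncomputable def DD (k : Type) [Field k] [Fintype k] (d : ℕ) : Finset (WeierstrassCurve k[X]) :=
  (finite_degLE (k := k) d).toFinset

lemma mem_DD {d : ℕ} {a : WeierstrassCurve k[X]} : a ∈ DD k d ↔ DegLE a d := by simp [DD]

/-- The bad tuples of level `d`. -/
noncomputable def BB (k : Type) [Field k] [Fintype k] (T β d : ℕ) :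
    Finset (WeierstrassCurve k[X]) :=
  (DD k d).filter fun a => ¬ (GoodT T β d a ∧ GoodN T a ∧ GoodQ T a)

lemma coe_BB (T β d : ℕ) : {a : WeierstrassCurve k[X] |
    DegLE a d ∧ ¬ (GoodT T β d a ∧ GoodN T a ∧ GoodQ T a)} = (BB k T β d : Set _) := by
  ext a
  simp only [BB, Finset.coe_filter, mem_DD]

lemma BB_mono (T d : ℕ) {β β' : ℕ} (hβ : β ≤ β') : BB k T β' d ⊆ BB k T β d := fun a ha => by
  obtain ⟨h1, h2⟩ := Finset.mem_filter.1 ha
  exact Finset.mem_filter.2 ⟨h1, fun h => h2 ⟨good_mono h.1 hβ, h.2⟩⟩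

variable [CharP k 2]

lemma cellSum {T β d : ℕ} (hd : RR β ≤ d) (g : WeierstrassCurve k[X] → ℝ) {ε : ℝ} (hε : 0 ≤ ε)
    (hc : ∀ a : WeierstrassCurve k[X], DegLE a d → GoodT T β d a → GoodN T a →
      ∑ t ∈ (cell T β d a).filter (fun t => GoodQ T (shift T β a t)), g (shift T β a t) ≤
        ε * (cell T β d a).card) :
    ∑ a ∈ DD k d, (if MinTup a d then g a else 0) ≤ ∑ a ∈ BB k T β d, |g a| +
      ε * ((Fintype.card k : ℝ) ^ 5 * (Fintype.card k : ℝ) ^ (16 * d)) := by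
  have hd0 : d ≠ 0 := by unfold RR at hd; omega
  set φ : WeierstrassCurve k[X] → ℝ :=
    fun a => if GoodQ T a then (if MinTup a d then g a else 0) else 0 with hφ
  set Y := (DD k d).filter fun a => GoodT T β d a ∧ GoodN T a with hY
  have e2 : ∑ a ∈ DD k d, (if MinTup a d then g a else 0) ≤
      ∑ a ∈ BB k T β d, |g a| + ∑ a ∈ Y, φ a := by
    rw [hY, BB, Finset.sum_filter, Finset.sum_filter, ← Finset.sum_add_distrib]
    refine Finset.sum_le_sum fun a _ => ?_
    have : (if MinTup a d then g a else 0) ≤ |g a| := by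
      split_ifs
      exacts [le_abs_self _, abs_nonneg _]
    by_cases h1 : GoodT T β d a <;> by_cases h2 : GoodN T a <;> by_cases h3 : GoodQ T a <;>
      simp [hφ, h1, h2, h3, this]
  have memY : ∀ a, a ∈ Y ↔ DegLE a d ∧ GoodT T β d a ∧ GoodN T a := fun a => by
    rw [hY, Finset.mem_filter, mem_DD]
  have e4 : ∑ a ∈ Y, φ a ≤ ε * Y.card := by
    refine avg Y (cell T β d) (shift T β) φ _ (fun a _ => ⟨0, zero_mem_cell T β d a⟩)
      (fun a ha t ht => ?_) fun a ha => ?_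
    · obtain ⟨h1, h2, h3⟩ := (memY a).1 ha
      exact ⟨(memY _).2 ⟨degLE_shift hd h1 h2 ht, goodT_shift hd h1 h2 ht, h3⟩,
        cell_shift hd h1 h2 ht, shift_shift T β a t⟩
    obtain ⟨h1, h2, h3⟩ := (memY a).1 ha
    by_cases h : ∃ u ∈ cell T β d a, GoodQ T (shift T β a u) ∧
        HeightLE ((shift T β a u).baseChange (RatFunc k)) (d - 1)
    · obtain ⟨u, hu, h4, h5⟩ := h
      refine le_of_eq_of_le (Finset.sum_eq_zero fun t ht => ?_) (by positivity)
      have h6 := height_shift (t := t - u) hd (degLE_shift hd h1 h2 hu) (goodT_shift hd h1 h2 hu) h4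
        (by rw [cell_shift hd h1 h2 hu]; exact sub_mem_cell ht hu) h5
      rw [shift_sub] at h6
      have h7 : ¬ MinTup (shift T β a t) d := fun h8 => h8.2.2.2.elim hd0 fun h9 => h9 h6
      simp [hφ, h7]
    · refine le_of_eq_of_le ?_ (hc a h1 h2 h3)
      rw [Finset.sum_filter]
      refine Finset.sum_congr rfl fun t ht => ?_
      simp only [hφ]
      by_cases h4 : GoodQ T (shift T β a t)
      · have h5 := goodT_shift hd h1 h2 ht
        have h6 : MinTup (shift T β a t) d := ⟨degLE_shift hd h1 h2 ht,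
          fun h0 => h5.2.1 (by rw [h0, derivative_zero]), h5.1,
          Or.inr fun h7 => h ⟨t, ht, h4, h7⟩⟩
        simp only [h4, h6, if_true]
      · simp only [h4, if_false]
  have e5 : (Y.card : ℝ) ≤ (Fintype.card k : ℝ) ^ 5 * (Fintype.card k : ℝ) ^ (16 * d) := by
    have h1 : Y.card ≤ (DD k d).card := Finset.card_filter_le _ _
    have h2 : (DD k d).card = Fintype.card k ^ (d + 2 * d + 3 * d + 4 * d + 6 * d + 5) := by
      rw [← card_Box, DD, ← Set.ncard_eq_toFinset_card _ (finite_degLE d)]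
      rfl
    rw [← pow_add]
    exact_mod_cast h1.trans (by rw [h2]; exact le_of_eq (by congr 1; omega))
  linarith [mul_le_mul_of_nonneg_left e5 hε]

/-- The deviation summed over the minimal tuples of level `d`. -/
noncomputable def SS (w : WeierstrassCurve (RatFunc k) → ℕ) (c₀ : ℝ) (d : ℕ) : ℝ :=
  ∑ a ∈ DD k d, if MinTup a d then (w (a.baseChange (RatFunc k)) : ℝ) - c₀ else 0

lemma SS_small (w : WeierstrassCurve (RatFunc k) → ℕ) (c₀ : ℝ)
    (h1 : ∃ T₀ : ℕ, ∀ T, T₀ ≤ T → ∀ (β : ℕ) (ε : ℝ), 0 < ε → ∀ᶠ d : ℕ in atTop,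
      ∀ a : WeierstrassCurve k[X], DegLE a d → GoodT T β d a → GoodN T a →
        |∑ t ∈ (cell T β d a).filter (fun t => GoodQ T (shift T β a t)),
          ((w ((shift T β a t).baseChange (RatFunc k)) : ℝ) - c₀)| ≤ ε * (cell T β d a).card)
    (h2 : ∀ ε : ℝ, 0 < ε → ∃ T₁ : ℕ, ∀ T, T₁ ≤ T → ∃ β : ℕ, ∀ᶠ d : ℕ in atTop,
      ∑ᶠ a ∈ {a : WeierstrassCurve k[X] |
        DegLE a d ∧ ¬ (GoodT T β d a ∧ GoodN T a ∧ GoodQ T a)},
          ((w (a.baseChange (RatFunc k)) - 1 : ℕ) : ℝ) ≤ ε * (Fintype.card k : ℝ) ^ (16 * d))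
    {δ : ℝ} (hδ : 0 < δ) :
    ∀ᶠ d : ℕ in atTop, |SS w c₀ d| ≤ δ * (Fintype.card k : ℝ) ^ (16 * d) := by
  obtain ⟨T₀, hT₀⟩ := h1
  have hq : (0 : ℝ) < Fintype.card k := Bad.q_pos
  have hK : 0 < 1 + |c₀| := by positivity
  obtain ⟨T₁, hT₁⟩ := h2 (δ / 3) (by positivity)
  obtain ⟨T, β₁, hT, hb⟩ := badSmall k (δ / 3 / (1 + |c₀|)) (by positivity) (max T₀ T₁)
  obtain ⟨β₂, ht⟩ := hT₁ T (le_of_max_le_right hT)
  simp only [coe_BB, finsum_mem_coe_finset] at ht
  filter_upwards [hb, ht, hT₀ T (le_of_max_le_left hT) (max β₁ β₂)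
    (δ / 3 / (Fintype.card k : ℝ) ^ 5) (by positivity), eventually_ge_atTop (RR (max β₁ β₂))]
    with d hb ht hc hd
  rw [coe_BB, Set.ncard_coe_finset] at hb
  have e1 : ∑ a ∈ BB k T (max β₁ β₂) d, |(w (a.baseChange (RatFunc k)) : ℝ) - c₀| ≤
      δ / 3 * (Fintype.card k : ℝ) ^ (16 * d) + δ / 3 * (Fintype.card k : ℝ) ^ (16 * d) := by
    calc _ ≤ ∑ a ∈ BB k T (max β₁ β₂) d,
          (((w (a.baseChange (RatFunc k)) - 1 : ℕ) : ℝ) + (1 + |c₀|)) := by
          refine Finset.sum_le_sum fun a _ => (abs_sub _ _).trans ?_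
          have : (w (a.baseChange (RatFunc k)) : ℝ) ≤
              ((w (a.baseChange (RatFunc k)) - 1 : ℕ) : ℝ) + 1 := by
            exact_mod_cast (by omega)
          rw [Nat.abs_cast]
          linarith
      _ ≤ _ := by
          rw [Finset.sum_add_distrib, Finset.sum_const, nsmul_eq_mul]
          refine add_le_add ((Finset.sum_le_sum_of_subset_of_nonneg (BB_mono T d (le_max_right _ _))
            fun _ _ _ => Nat.cast_nonneg _).trans ht) ?_
          have h3 : ((BB k T (max β₁ β₂) d).card : ℝ) ≤ (BB k T β₁ d).card := by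
            exact_mod_cast Finset.card_le_card (BB_mono T d (le_max_left _ _))
          refine (mul_le_mul_of_nonneg_right (h3.trans hb) hK.le).trans (le_of_eq ?_)
          field_simp
  have e2 : δ / 3 / (Fintype.card k : ℝ) ^ 5 *
      ((Fintype.card k : ℝ) ^ 5 * (Fintype.card k : ℝ) ^ (16 * d)) =
      δ / 3 * (Fintype.card k : ℝ) ^ (16 * d) := by field_simp
  have e3 := cellSum hd (fun a => (w (a.baseChange (RatFunc k)) : ℝ) - c₀) (by positivity)
    fun a a1 a2 a3 => (le_abs_self _).trans (hc a a1 a2 a3)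
  have e4 := cellSum hd (fun a => -((w (a.baseChange (RatFunc k)) : ℝ) - c₀))
    (ε := δ / 3 / (Fintype.card k : ℝ) ^ 5) (by positivity)
    fun a a1 a2 a3 => by
      rw [Finset.sum_neg_distrib]
      exact (neg_le_abs _).trans (hc a a1 a2 a3)
  have e5 : ∑ a ∈ DD k d, (if MinTup a d then -((w (a.baseChange (RatFunc k)) : ℝ) - c₀) else 0) =
      -SS w c₀ d := by
    rw [SS, ← Finset.sum_neg_distrib]
    exact Finset.sum_congr rfl fun a _ => by split_ifs <;> simp
  simp only [abs_neg] at e4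
  rw [e2] at e3 e4
  rw [e5] at e4
  rw [abs_le, SS]
  rw [SS] at e4
  constructor <;> linarith

lemma num_eq {P : WeierstrassCurve (RatFunc k) → Prop}
    (hP : ∀ (C : WeierstrassCurve.VariableChange (RatFunc k)) W, P (C • W) ↔ P W)
    (h0 : ∀ W, P W → W.a₁ ≠ 0) (d : ℕ) :
    num P d = ∑ e ∈ Finset.range (d + 1), (Mcl P e).ncard := by
  refine le_antisymm (le_trans (Set.ncard_le_ncard ?_ ((Finset.range (d + 1)).finite_toSet.biUnion
    fun e _ => (finite_tup (P := P) e).image clq)) (Finset.set_ncard_biUnion_le _ _))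
    (num_bounds hP d).1
  rintro _ ⟨W, rfl, hΔ, hW, hPW⟩
  obtain ⟨e, he, C, a, h3, h4, h5⟩ := exists_min hW
  have h6 : clq a = Quotient.mk'' W := Quotient.eq''.2 (MulAction.orbitRel_apply.2 ⟨C, h4⟩)
  have h8 : P (a.baseChange (RatFunc k)) := by rwa [← h4, hP]
  refine Set.mem_biUnion (Finset.mem_coe.2 (Finset.mem_range.2 (Nat.lt_succ_of_le he)))
    ⟨a, ⟨⟨h3, fun h7 => hΔ ?_, fun h7 => h0 _ h8 ?_, h5⟩, h8⟩, h6⟩
  · simpa [WeierstrassCurve.variableChange_Δ, WeierstrassCurve.baseChange, h7] using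
      congrArg WeierstrassCurve.Δ h4
  · simp [WeierstrassCurve.baseChange, h7]

lemma tup_real {P : WeierstrassCurve (RatFunc k) → Prop}
    (hP : ∀ (C : WeierstrassCurve.VariableChange (RatFunc k)) W, P (C • W) ↔ P W) (e : ℕ) :
    (tupNum P e : ℝ) = (Mcl P e).ncard * ((Nat.card (Grp k e) : ℝ) / 2) := by
  have := congrArg (Nat.cast (R := ℝ)) (tup_eq hP e)
  push_cast at this
  linarith

lemma level {w : WeierstrassCurve (RatFunc k) → ℕ} (c₀ : ℝ)
    (hw : ∀ (C : WeierstrassCurve.VariableChange (RatFunc k)) W, w (C • W) = w W) {e N : ℕ}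
    (hN : ∀ a : WeierstrassCurve k[X], DegLE a e → w (a.baseChange (RatFunc k)) < N) :
    (∑ m ∈ Finset.range N, (m : ℝ) * (Mcl (fun W => w W = m) e).ncard -
      c₀ * (Mcl (k := k) (fun _ => True) e).ncard) * ((Nat.card (Grp k e) : ℝ) / 2) =
      SS w c₀ e := by
  rw [sub_mul, Finset.sum_mul, mul_assoc, ← tup_real fun _ _ => Iff.rfl,
    Finset.sum_congr rfl fun m _ => by rw [mul_assoc, ← tup_real fun C W => by rw [hw]]]
  simp only [tupNum_eq, Finset.mul_sum]
  rw [Finset.sum_comm, ← Finset.sum_sub_distrib]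
  refine Finset.sum_congr rfl fun a ha => ?_
  by_cases h : MinTup a e
  · simp [h, hN a h.1]
  · simp [h]

end Avg

open Avg in
theorem avgRed : AvgRed := by
  intro k _ _ _ w c₀ hw h0 h1 h2
  rw [Metric.tendsto_nhds]
  intro ε hε
  have hq : 2 ≤ Fintype.card k := Fintype.one_lt_card
  set Q : ℝ := (Fintype.card k : ℝ) with hQ
  have hQ1 : 1 < Q := by rw [hQ]; exact_mod_cast hq
  have hδ : 0 < ε / (2 * Q ^ 3) / 6 := by positivity
  set δ := ε / (2 * Q ^ 3) / 6 with hδ'
  obtain ⟨d₀, hd₀⟩ := eventually_atTop.1 (SS_small w c₀ h1 h2 hδ)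
  have g4 : ∀ e, Q ^ (6 * e) ≤ Nat.card (Grp k e) := fun e => by
    rw [hQ]
    exact_mod_cast (Nat.pow_le_pow_right (by omega) (by omega)).trans (le_card_Grp e)
  have g5 : ∀ e, 0 < (Nat.card (Grp k e) : ℝ) / 2 := fun e =>
    half_pos (lt_of_lt_of_le (by positivity) (g4 e))
  set f : ℕ → ℝ := fun e => SS w c₀ e / ((Nat.card (Grp k e) : ℝ) / 2) with hf
  have g1 : ∀ e, d₀ ≤ e → |f e| ≤ 2 * δ * Q ^ (10 * e) := by
    intro e he
    simp only [hf]
    rw [abs_div, abs_of_pos (g5 e), div_le_iff₀ (g5 e)]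
    calc _ ≤ δ * Q ^ (16 * e) := hd₀ e he
      _ = 2 * δ * Q ^ (10 * e) * (Q ^ (6 * e) / 2) := by ring
      _ ≤ _ := by gcongr; exact g4 e
  filter_upwards [eventually_small hQ1 (∑ e ∈ Finset.range d₀, |f e|) (|c₀| * (8 * Q ^ 2)) δ hδ,
    eventually_ge_atTop 1] with d hd hd1
  have g2 : ∑ e ∈ Finset.range (d + 1), |f e| ≤
      ∑ e ∈ Finset.range d₀, |f e| + 4 * δ * Q ^ (10 * d) := by
    have h3 : ∑ e ∈ Finset.range (d + 1), (Q ^ 10) ^ e ≤ 2 * (Q ^ 10) ^ d := by
      rw [hQ]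
      exact_mod_cast geom_le (hq.trans (Nat.le_self_pow (by norm_num) _)) d
    calc _ ≤ ∑ e ∈ Finset.range (d + 1), ((if e < d₀ then |f e| else 0) + 2 * δ * (Q ^ 10) ^ e) := by
          refine Finset.sum_le_sum fun e _ => ?_
          split_ifs with he
          · exact le_add_of_nonneg_right (by positivity)
          · rw [zero_add, ← pow_mul]; exact g1 e (not_lt.1 he)
      _ ≤ _ := by
          rw [Finset.sum_add_distrib, ← Finset.mul_sum, ← Finset.sum_filter, pow_mul]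
          refine add_le_add (Finset.sum_le_sum_of_subset_of_nonneg (fun e he => Finset.mem_range.2
            (Finset.mem_filter.1 he).2) fun _ _ _ => abs_nonneg _) ?_
          nlinarith
  have hZ : ((Zcl k d).ncard : ℝ) ≤ 8 * Q ^ 2 * Q ^ (9 * d) := by
    rw [hQ, mul_assoc, ← pow_add, add_comm]
    exact_mod_cast card_Zcl_le d
  obtain ⟨b4, b5⟩ := num_bounds (k := k) (P := fun _ => True) (fun _ _ => Iff.rfl) d
  have b4' : ∑ e ∈ Finset.range (d + 1), ((Mcl (k := k) (fun _ => True) e).ncard : ℝ) ≤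
      num (k := k) (fun _ => True) d := by exact_mod_cast b4
  have b5' : (num (k := k) (fun _ => True) d : ℝ) ≤
      ∑ e ∈ Finset.range (d + 1), ((Mcl (k := k) (fun _ => True) e).ncard : ℝ) +
        (Zcl k d).ncard := by exact_mod_cast b5
  have h4 : Q ^ (10 * d) ≤ 2 * Q ^ 3 * num (k := k) (fun _ => True) d := by
    obtain ⟨d, rfl⟩ : ∃ e, d = e + 1 := ⟨d - 1, by omega⟩
    rw [hQ]
    exact_mod_cast (le_card_Mcl d).trans (Nat.mul_le_mul_left _ ((Finset.single_le_sum
      (f := fun e => (Mcl (k := k) (fun _ => True) e).ncard) (fun _ _ => Nat.zero_le _)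
      (Finset.self_mem_range_succ _)).trans b4))
  have h5 : (0 : ℝ) < num (k := k) (fun _ => True) d :=
    (mul_pos_iff_of_pos_left (by positivity)).1 (lt_of_lt_of_le (by positivity) h4)
  set N := (DD k d).sup (fun a => w (a.baseChange (RatFunc k))) + 1 with hN'
  have hN : ∀ e ∈ Finset.range (d + 1), ∀ a : WeierstrassCurve k[X], DegLE a e →
      w (a.baseChange (RatFunc k)) < N := fun e he a ha => Nat.lt_succ_of_le
    (Finset.le_sup (f := fun a : WeierstrassCurve k[X] => w (a.baseChange (RatFunc k)))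
      (mem_DD.2 (ha.mono (Nat.lt_succ_iff.1 (Finset.mem_range.1 he)))))
  have n1 : ∀ m : ℕ, (m : ℝ) * num (fun W => w W = m) d =
      ∑ e ∈ Finset.range (d + 1), (m : ℝ) * (Mcl (fun W => w W = m) e).ncard := fun m => by
    rcases eq_or_ne m 0 with rfl | hm
    · simp
    · rw [num_eq (fun C W => by rw [hw]) (fun W e c => hm (e.symm.trans (h0 W c))), Nat.cast_sum,
        Finset.mul_sum]
  have n2 : ∑ᶠ m : ℕ, (m : ℝ) * dens (fun W => w W = m) d =
      (∑ m ∈ Finset.range N, (m : ℝ) * num (fun W => w W = m) d) /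
        num (k := k) (fun _ => True) d := by
    rw [finsum_eq_sum_of_support_subset (s := Finset.range N), Finset.sum_div]
    · exact Finset.sum_congr rfl fun m _ => by rw [dens, mul_div_assoc]
    · intro m hm
      by_contra c
      refine hm ?_
      simp only [dens, ← mul_div_assoc]
      rw [n1, Finset.sum_eq_zero fun e he => ?_, zero_div]
      rw [show Mcl (fun W => w W = m) e = ∅ from ?_, Set.ncard_empty, Nat.cast_zero, mul_zero]
      rw [Mcl, Set.image_eq_empty, Set.eq_empty_iff_forall_notMem]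
      rintro a ⟨a1, a2⟩
      exact c (Finset.mem_coe.2 (Finset.mem_range.2 (a2 ▸ hN e he a a1.1)))
  have n3 : ∑ m ∈ Finset.range N, (m : ℝ) * num (fun W => w W = m) d =
      ∑ e ∈ Finset.range (d + 1), f e +
        c₀ * ∑ e ∈ Finset.range (d + 1), ((Mcl (k := k) (fun _ => True) e).ncard : ℝ) := by
    simp only [n1]
    rw [Finset.sum_comm, Finset.mul_sum, ← Finset.sum_add_distrib]
    refine Finset.sum_congr rfl fun e he => ?_
    simp only [hf]
    rw [← level c₀ hw (hN e he), mul_div_cancel_right₀ _ (g5 e).ne', sub_add_cancel]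
  have h9 : 6 * δ * Q ^ (10 * d) ≤ ε * num (k := k) (fun _ => True) d := by
    calc _ ≤ 6 * δ * (2 * Q ^ 3 * num (k := k) (fun _ => True) d) := by gcongr
      _ = _ := by rw [hδ']; field_simp
  rw [n2, n3, Real.dist_eq, div_sub' h5.ne', abs_div, abs_of_pos h5, div_lt_iff₀ h5]
  have h10 := Finset.abs_sum_le_sum_abs f (Finset.range (d + 1))
  set M := ∑ e ∈ Finset.range (d + 1), ((Mcl (k := k) (fun _ => True) e).ncard : ℝ)
  have h11 : |c₀ * (M - num (k := k) (fun _ => True) d)| ≤ |c₀| * (8 * Q ^ 2 * Q ^ (9 * d)) := by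
    rw [abs_mul]
    exact mul_le_mul_of_nonneg_left (abs_le.2 ⟨by linarith, by
      linarith [show 0 ≤ 8 * Q ^ 2 * Q ^ (9 * d) by positivity]⟩) (abs_nonneg _)
  have h12 : 0 < δ * Q ^ (10 * d) := by positivity
  calc _ = |∑ e ∈ Finset.range (d + 1), f e + c₀ * (M - num (k := k) (fun _ => True) d)| := by
        congr 1; ring
    _ ≤ _ := abs_add_le _ _
    _ < _ := by linarith

end Pool.Agent.Lib.MP_a3f657_nt.Two
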