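import Pool.Agent.Lib.MP_a3f657_nt.C2CellDefs
import Pool.Agent.Lib.MP_a3f657_nt.C2Pl

/-!
Generalised binary quartics and the tail estimate (definitions and statements).
-/

namespace Pool.Agent.Lib.MP_a3f657_nt.Two

open Polynomial

open scoped Classical

/-- The model `y ^ 2 + (l x ^ 2 + m x z + n z ^ 2) y = f₀ x ^ 4 + f₁ x ^ 3 z + ... + f₄ z ^ 4`. -/
@[ext] structure QF (R : Type) where
  /-- Coefficient of `x ^ 2 y`. -/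
  l : R
  /-- Coefficient of `x z y`. -/
  m : R
  /-- Coefficient of `z ^ 2 y`. -/
  n : R
  /-- Coefficient of `x ^ 4`. -/
  f₀ : R
  /-- Coefficient of `x ^ 3 z`. -/
  f₁ : R
  /-- Coefficient of `x ^ 2 z ^ 2`. -/
  f₂ : R
  /-- Coefficient of `x z ^ 3`. -/
  f₃ : R
  /-- Coefficient of `z ^ 4`. -/
  f₄ : R

namespace QF

variable {R : Type} [CommRing R] (Φ : QF R)

/-- A covariant. -/
def J : R := Φ.m * Φ.f₂ + Φ.f₁ * Φ.n + Φ.f₃ * Φ.l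

/-- A covariant. -/
def Ψ₀ : R := Φ.m ^ 3 * Φ.f₀ + Φ.m * Φ.f₁ ^ 2 + Φ.m ^ 2 * Φ.f₁ * Φ.l + Φ.l ^ 2 * Φ.J

/-- A covariant. -/
def Ψ₄ : R := Φ.m ^ 3 * Φ.f₄ + Φ.m * Φ.f₃ ^ 2 + Φ.m ^ 2 * Φ.f₃ * Φ.n + Φ.n ^ 2 * Φ.J

/-- A covariant. -/
def Θ : R := Φ.l ^ 2 * (Φ.m ^ 2 * Φ.f₄ + Φ.f₃ ^ 2 + Φ.m * Φ.f₃ * Φ.n) +
  Φ.n ^ 2 * (Φ.m ^ 2 * Φ.f₀ + Φ.f₁ ^ 2 + Φ.m * Φ.f₁ * Φ.l)

/-- The discriminant in characteristic two. -/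
def Δ : R := Φ.m ^ 2 * Φ.Ψ₀ * Φ.Ψ₄ + Φ.Θ ^ 2

end QF

variable {k : Type} [Field k]

/-- Models of level `d` and splitting type `j ≤ d`. -/
def BoxQ (d j : ℕ) (Φ : QF k[X]) : Prop :=
  Φ.l.natDegree ≤ d - j ∧ Φ.m.natDegree ≤ d ∧ Φ.n.natDegree ≤ d + j ∧
    Φ.f₀.natDegree ≤ 2 * d - 2 * j ∧ Φ.f₁.natDegree ≤ 2 * d - j ∧ Φ.f₂.natDegree ≤ 2 * d ∧
    Φ.f₃.natDegree ≤ 2 * d + j ∧ Φ.f₄.natDegree ≤ 2 * d + 2 * j

/-- The goodness conditions in terms of `a₁` and the discriminant. -/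
def GoodI (T β d : ℕ) (m Δ : k[X]) : Prop :=
  m ≠ 0 ∧ derivative Δ ≠ 0 ∧ d < m.natDegree + β ∧ 12 * d < (derivative Δ).natDegree + β ∧
    (∀ p : k[X], p.Monic → Irreducible p → p.natDegree ≤ T → ¬ p ^ β ∣ m ∧ ¬ p ^ β ∣ derivative Δ) ∧
    ∀ p : k[X], p.Monic → Irreducible p → T < p.natDegree →
      ¬ p ^ 2 ∣ Δ ∧ ¬ p ^ 2 ∣ m ∧ ¬ (p ∣ m ∧ p ∣ Δ)

/-- Most models are good. -/
def BadForm : Prop :=
  ∀ (k : Type) [Field k] [Fintype k] [CharP k 2] (ε : ℝ), 0 < ε → ∀ j : ℕ, ∃ T₁ : ℕ, ∀ T, T₁ ≤ T →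
    ∃ β : ℕ, ∀ᶠ d : ℕ in Filter.atTop,
      (Set.ncard {Φ : QF k[X] | BoxQ d j Φ ∧ ¬ GoodI T β d Φ.m Φ.Δ} : ℝ) ≤
        ε * (Fintype.card k : ℝ) ^ (13 * d)

/-- The matrix is invertible over the valuation ring of `v`. -/
def GLO (v : Pl k) (M : Matrix (Fin 2) (Fin 2) (RatFunc k)) : Prop :=
  (∀ i j, M i j ∈ Fil (val v) 0) ∧ M.det ≠ 0 ∧ ord (val v) M.det = 0

/-- Vector bundles of rank two on the projective line split. -/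
def Birk : Prop :=
  ∀ (k : Type) [Field k] (S : Finset (Pl k)) (M : Pl k → Matrix (Fin 2) (Fin 2) (RatFunc k)),
    (∀ v, (M v).det ≠ 0) → (∀ v ∉ S, M v = 1) →
    ∃ (N : Matrix (Fin 2) (Fin 2) (RatFunc k)) (a b : ℤ), a ≤ b ∧
      (∀ u, GLO (some u) ((M (some u))⁻¹ * N)) ∧
      GLO none ((M none)⁻¹ * N * Matrix.diagonal ![RatFunc.X ^ b, RatFunc.X ^ a])

/-- Reduction of the average of an invariant to cells and a tail estimate. -/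
def AvgRed : Prop :=
  ∀ (k : Type) [Field k] [Fintype k] [CharP k 2] (w : WeierstrassCurve (RatFunc k) → ℕ) (c₀ : ℝ),
    (∀ (C : WeierstrassCurve.VariableChange (RatFunc k)) (W : WeierstrassCurve (RatFunc k)),
      w (C • W) = w W) →
    (∀ W : WeierstrassCurve (RatFunc k), W.a₁ = 0 → w W = 0) →
    (∃ T₀ : ℕ, ∀ T, T₀ ≤ T → ∀ (β : ℕ) (ε : ℝ), 0 < ε → ∀ᶠ d : ℕ in Filter.atTop,
      ∀ a : WeierstrassCurve k[X], DegLE a d → GoodT T β d a → GoodN T a →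
        |∑ t ∈ (cell T β d a).filter (fun t => GoodQ T (shift T β a t)),
          ((w ((shift T β a t).baseChange (RatFunc k)) : ℝ) - c₀)| ≤ ε * (cell T β d a).card) →
    (∀ ε : ℝ, 0 < ε → ∃ T₁ : ℕ, ∀ T, T₁ ≤ T → ∃ β : ℕ, ∀ᶠ d : ℕ in Filter.atTop,
      ∑ᶠ a ∈ {a : WeierstrassCurve k[X] |
        DegLE a d ∧ ¬ (GoodT T β d a ∧ GoodN T a ∧ GoodQ T a)},
          ((w (a.baseChange (RatFunc k)) - 1 : ℕ) : ℝ) ≤ ε * (Fintype.card k : ℝ) ^ (16 * d)) →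
    Filter.Tendsto (fun d => ∑ᶠ m : ℕ, (m : ℝ) * dens (fun W => w W = m) d) Filter.atTop (nhds c₀)

end Pool.Agent.Lib.MP_a3f657_nt.Two
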