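import Pool.Agent.Lib.MP_a3f657_nt.C2QBadA
import Pool.Agent.Lib.MP_a3f657_nt.C2QDefs

/-!
Most generalised binary quartics are good.
-/

namespace Pool.Agent.Lib.MP_a3f657_nt.Two

namespace BadQ

open Polynomial Bad Function

open scoped Classical

variable {k : Type} [Field k]

/-- The model with last coefficient `e`. -/
def mk (x : Fin 9 → k[X]) (e : k[X]) : QF k[X] := ⟨x 0, x 1, x 2, x 3, x 4, x 5, x 6, e⟩

/-- The last coefficient. -/
noncomputable def ee (x : Fin 9 → k[X]) : k[X] := x 8 ^ 2 + X * x 7 ^ 2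

/-- A covariant that does not involve the last coefficient. -/
noncomputable def ps (x : Fin 9 → k[X]) : k[X] := (mk x 0).Ψ₀

/-- Quadratic coefficient of the discriminant. -/
noncomputable def al (x : Fin 9 → k[X]) : k[X] := (x 0 * x 1) ^ 4

/-- Linear coefficient of the discriminant. -/
noncomputable def be (x : Fin 9 → k[X]) : k[X] := x 1 ^ 5 * ps x

/-- Constant coefficient of the discriminant. -/
noncomputable def ga (x : Fin 9 → k[X]) : k[X] := (mk x 0).Δ

/-- The discriminant as a function of the last coefficient. -/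
noncomputable def De (x : Fin 9 → k[X]) (e : k[X]) : k[X] := al x * e ^ 2 + be x * e + ga x

/-- The part of the derivative of the discriminant that does not involve `x 8`. -/
noncomputable def uu (x : Fin 9 → k[X]) : k[X] := be x * x 7 ^ 2 + derivative (ga x)

/-- The derivative of the discriminant. -/
noncomputable def Dd (x : Fin 9 → k[X]) (e : k[X]) : k[X] := derivative (be x) * e + uu x

/-- A resultant. -/
noncomputable def Rr (x : Fin 9 → k[X]) : k[X] :=
  al x * uu x ^ 2 + be x * derivative (be x) * uu x + ga x * derivative (be x) ^ 2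

lemma mk7 (x : Fin 9 → k[X]) (f e : k[X]) : mk (update x 7 f) e = mk x e := by simp [mk]

lemma mk8 (x : Fin 9 → k[X]) (f e : k[X]) : mk (update x 8 f) e = mk x e := by simp [mk]

/-- The sizes of the box. -/
def NN (d j : ℕ) : Fin 9 → ℕ :=
  ![d - j + 1, d + 1, d + j + 1, 2 * d - 2 * j + 1, 2 * d - j + 1, 2 * d + 1, 2 * d + j + 1,
    d + j, d + j + 1]

/-- Degree at most `t * D`. -/
def Dg (D : ℕ) (p : k[X]) (t : ℕ) : Prop := p.natDegree ≤ t * D

lemma Dg.add {D a b : ℕ} {p q : k[X]} (h : Dg D p a) (h' : Dg D q b) : Dg D (p + q) (max a b) :=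
  natDegree_add_le_of_degree_le (le_trans h (Nat.mul_le_mul_right _ (le_max_left _ _)))
    (le_trans h' (Nat.mul_le_mul_right _ (le_max_right _ _)))

lemma Dg.mul {D a b : ℕ} {p q : k[X]} (h : Dg D p a) (h' : Dg D q b) : Dg D (p * q) (a + b) :=
  natDegree_mul_le.trans ((add_le_add h h').trans_eq (add_mul _ _ _).symm)

lemma Dg.pow {D a n : ℕ} {p : k[X]} (h : Dg D p a) : Dg D (p ^ n) (n * a) :=
  natDegree_pow_le.trans ((Nat.mul_le_mul_left n h).trans_eq (mul_assoc _ _ _).symm)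

lemma Dg.der {D a : ℕ} {p : k[X]} (h : Dg D p a) : Dg D (derivative p) a :=
  ((natDegree_derivative_le p).trans (Nat.sub_le _ _)).trans h

lemma Dg.zero {D : ℕ} : Dg D (0 : k[X]) 1 := by simp [Dg]

lemma Dg.le {D a b : ℕ} {p : k[X]} (h : Dg D p a) (h' : a ≤ b) : p.natDegree ≤ b * D :=
  le_trans h (Nat.mul_le_mul_right _ h')

lemma deg_all {D : ℕ} {x : Fin 9 → k[X]} (h : ∀ i, Dg D (x i) 1) :
    (ps x).natDegree ≤ 40 * D ∧ (Rr x).natDegree ≤ 40 * D := by
  simp only [Rr, uu, al, be, ga, ps, mk, QF.Δ, QF.Ψ₀, QF.Ψ₄, QF.Θ, QF.J]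
  constructor
  all_goals
    apply Dg.le
    · with_reducible repeat' (first
        | exact h _
        | exact Dg.zero
        | apply Dg.add
        | apply Dg.mul
        | apply Dg.pow
        | apply Dg.der)
    · decide

variable [CharP k 2]

lemma disc (x : Fin 9 → k[X]) (e : k[X]) : (mk x e).Δ = De x e := by
  simp only [De, al, be, ga, ps, mk, QF.Δ, QF.Ψ₀, QF.Ψ₄, QF.Θ, QF.J]
  grind

lemma der_sq (f : k[X]) : derivative (f ^ 2) = 0 := by
  rw [pow_two, derivative_mul]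
  linear_combination (derivative f * f) * CharTwo.two_eq_zero (R := k[X])

lemma ddisc (x : Fin 9 → k[X]) : derivative (De x (ee x)) = Dd x (ee x) := by
  rw [De, show al x * ee x ^ 2 = ((x 0 * x 1) ^ 2 * ee x) ^ 2 by rw [al]; ring]
  simp only [Dd, uu, ee, derivative_add, derivative_mul, der_sq, derivative_X]
  ring

omit [CharP k 2] in
lemma dep_ps : Dep (k := k) 3 1 (fun x => x 1 ^ 3) ps :=
  ⟨one_ne_zero, fun _ _ => by simp, fun _ _ _ => by simp [ps, mk, QF.Ψ₀, QF.J]; ring⟩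

lemma dep_th : Dep (k := k) 8 2 (fun x => (x 0 * x 1) ^ 2) fun x => (mk x (ee x)).Θ :=
  ⟨two_ne_zero, fun _ _ => by simp, fun _ _ _ => by simp [ee, mk, QF.Θ]; grind⟩

lemma dep_g : Dep (k := k) 8 2 (fun x => derivative (be x)) fun x => Dd x (ee x) :=
  ⟨two_ne_zero, fun _ _ => by simp [be, ps, mk8], fun _ _ _ => by
    simp [Dd, uu, ee, be, ga, ps, mk8, -derivative_mul]; grind⟩

lemma dep_h : Dep (k := k) 7 2 (fun x => be x + X * derivative (be x)) fun x => Dd x (ee x) :=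
  ⟨two_ne_zero, fun _ _ => by simp [be, ps, mk7], fun _ _ _ => by
    simp [Dd, uu, ee, be, ga, ps, mk7, -derivative_mul]; grind⟩

omit [CharP k 2] in
lemma dep_l : Dep (k := k) 6 1 (fun x : Fin 9 → k[X] => x 0) fun x => x 0 * x 6 + x 2 * x 4 :=
  ⟨one_ne_zero, fun _ _ => by simp, fun _ _ _ => by simp; ring⟩

omit [CharP k 2] in
lemma dep_x (i : Fin 9) : Dep (k := k) i 1 (fun _ => 1) fun x => x i :=
  ⟨one_ne_zero, fun _ _ => rfl, fun _ _ _ => by simp⟩

lemma sq_sub {p a b c : k[X]} (hp : Irreducible p) (h : p ∣ (a ^ 2 + c) - (b ^ 2 + c)) :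
    p ∣ a - b := hp.prime.dvd_of_dvd_pow (n := 2) (by convert h using 1; grind)

/-- The prime `p` divides the discriminant and its derivative for some last coefficient. -/
def Eh (p : k[X]) (x : Fin 9 → k[X]) : Prop :=
  Irreducible p ∧ ¬ p ∣ be x ∧ ∃ e, p ∣ De x e ∧ p ∣ Dd x e

/-- The resultant vanishes. -/
def Er (x : Fin 9 → k[X]) : Prop := al x ≠ 0 ∧ be x ≠ 0 ∧ Rr x = 0

variable [Fintype k]

lemma bd_g (p : k[X]) (hp : p ≠ 0) {i n : ℕ} (hi : i ≤ n) (hi' : i ≤ p.natDegree)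
    (x : Fin 9 → k[X]) : Bd (fun f => f ∈ PL k n ∧
      Ev p be (fun x => De x (ee x)) (update x 8 f))
      (2 * (1 / (Fintype.card k : ℝ) ^ i) * (Fintype.card k : ℝ) ^ n) :=
  bd_cong2 hp (fun _ h => h.1) (fun a b c ha hb hc => by
    simp [Ev, De, al, be, ga, ps, ee, mk8] at ha hb hc
    exact (three_roots (fun _ _ => ha.2.1.prime.dvd_or_dvd) (fun h => ha.2.2.1 h.2) ha.2.2.2
      hb.2.2.2 hc.2.2.2).imp (sq_sub ha.2.1) (Or.imp (sq_sub ha.2.1) (sq_sub ha.2.1))) hi hi'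

lemma bd_h (p : k[X]) (hp : p ≠ 0) {i n : ℕ} (hi : i ≤ n) (hi' : i ≤ p.natDegree)
    (x : Fin 9 → k[X]) : Bd (fun f => f ∈ PL k n ∧ Eh p (update x 7 f))
      (2 * (1 / (Fintype.card k : ℝ) ^ i) * (Fintype.card k : ℝ) ^ n) := by
  have e1 : ∀ f, be (update x 7 f) = be x := fun f => by simp [be, ps, mk7]
  have e2 : ∀ f e, De (update x 7 f) e = De x e := fun f e => by simp [De, al, ga, e1, mk7]
  have e3 : ∀ f e, Dd (update x 7 f) e = derivative (be x) * e + (be x * f ^ 2 +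
    derivative (ga x)) := fun f e => by simp [Dd, uu, ga, e1, mk7]
  simp only [Eh, e1, e2, e3]
  refine bd_cong2 hp (fun _ h => h.1) ?_ hi hi'
  rintro a b c ⟨-, h1, h2, u, a1, a2⟩ ⟨-, -, -, v, b1, b2⟩ ⟨-, -, -, w, c1, c2⟩
  have key : ∀ {a b u v : k[X]}, p ∣ derivative (be x) * u + (be x * a ^ 2 + derivative (ga x)) →
      p ∣ derivative (be x) * v + (be x * b ^ 2 + derivative (ga x)) → p ∣ u - v → p ∣ a - b :=
    fun {a b u v} ha hb h => h1.prime.dvd_of_dvd_pow (n := 2) ((h1.prime.dvd_or_dvd (by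
      convert dvd_sub (dvd_sub ha hb) (h.mul_left (derivative (be x))) using 1
      grind)).resolve_left h2)
  exact (three_roots (fun _ _ => h1.prime.dvd_or_dvd) (fun h => h2 h.2) a1 b1 c1).imp (key a2 b2)
    (Or.imp (key a2 c2) (key b2 c2))

lemma bd_R {i n : ℕ} (hi : i ≤ n) (x : Fin 9 → k[X]) : Bd (fun f => f ∈ PL k n ∧ Er (update x 7 f))
      (2 * (1 / (Fintype.card k : ℝ) ^ i) * (Fintype.card k : ℝ) ^ n) := by
  have e1 : ∀ f, be (update x 7 f) = be x := fun f => by simp [be, ps, mk7]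
  have e2 : ∀ f, al (update x 7 f) = al x := fun f => by simp [al]
  have e3 : ∀ f, ga (update x 7 f) = ga x := fun f => by simp [ga, mk7]
  simp only [Er, Rr, uu, e1, e2, e3, update_self]
  refine bd_eq2 (fun a b c ha hb hc => ?_) hi
  have key : ∀ {a b : k[X]}, 0 ∣ (be x * a ^ 2 + derivative (ga x)) -
      (be x * b ^ 2 + derivative (ga x)) → a = b := fun {a b} h =>
    sub_eq_zero.1 ((pow_eq_zero_iff two_ne_zero).1 (mul_left_cancel₀ ha.2.2.1 (by
      rw [zero_dvd_iff] at h; grind)))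
  exact (three_roots (by simp) (fun h => ha.2.1 (zero_dvd_iff.1 h.1)) (zero_dvd_iff.2 ha.2.2.2)
    (zero_dvd_iff.2 hb.2.2.2) (zero_dvd_iff.2 hc.2.2.2)).imp key (Or.imp key key)

lemma bad_total (T : ℕ) {K d j : ℕ} (hK : K + 2 * j + 1 ≤ d) :
    Pr (k := k) (NN d j) (fun x => ¬ GoodI T (11 * K) d (x 1) (De x (ee x)))
      ((5 + 4 * (Fintype.card k : ℝ) ^ (T + 1)) / 2 ^ K + 9 * (Fintype.card k : ℝ) / 2 ^ T +
        362 * (d / 2 ^ d)) := by
  have hdeg : ∀ x : Fin 9 → k[X], Box (NN d j) x → (ps x).natDegree ≤ 40 * (3 * d) ∧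
      (Rr x).natDegree ≤ 40 * (3 * d) := fun x hx => deg_all fun i => by
    have := mem_PL_iff.1 (hx i)
    have h1 : NN d j i ≤ 3 * d := by fin_cases i <;> simp [NN] <;> omega
    rcases this with h | h
    · rw [h]; exact Dg.zero
    · exact (h.le.trans h1).trans_eq (one_mul _).symm
  have n0 : NN d j 0 = d - j + 1 := rfl
  have n1 : NN d j 1 = d + 1 := rfl
  have n3 : NN d j 3 = 2 * d - 2 * j + 1 := rfl
  have n6 : NN d j 6 = 2 * d + j + 1 := rfl
  have n7 : NN d j 7 = d + j := rfl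
  have n8 : NN d j 8 = d + j + 1 := rfl
  have A1 := (dep_x (k := k) 0).top (N := NN d j) (i := K) (by omega)
  have A2 := (dep_x (k := k) 1).top (N := NN d j) (i := K) (by omega)
  have A3 := (dep_ps (k := k)).top (N := NN d j) (i := K) (by omega)
  have A4 := (dep_g (k := k)).top (N := NN d j) (i := K) (by omega)
  have A5 := (dep_h (k := k)).top (N := NN d j) (i := K) (by omega)
  have B1 : Pr (k := k) (NN d j) (fun x => ∃ p, p.natDegree ≤ T ∧ Irreducible p ∧ x 1 ≠ 0 ∧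
      p ^ K ∣ x 1) _ := Pr.small T (c := 1 / 2 ^ K) (by positivity) fun p => by
    by_cases hp : Irreducible p
    · refine ((pr_mult 1 (pow_ne_zero K hp.ne_zero) ?_).le (iq2 K)).mono fun _ _ h => h.2
      rw [natDegree_pow]
      exact Nat.le_mul_of_pos_right _ hp.natDegree_pos
    · exact Bd.empty (fun f hf => hp hf.2.1) (mul_nonneg (by positivity) (qp _))
  have B2 := (dep_ps (k := k)).small (N := NN d j) T (3 * K) (i := K) (by omega)
  have B3 := (dep_g (k := k)).small (N := NN d j) T (9 * K) (i := K) (by omega)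
  have B4 := (dep_h (k := k)).small (N := NN d j) T (9 * K) (i := K) (by omega)
  have C1 := Pr.large (k := k) (N := NN d j) T d zero_le_one fun p hp _ =>
    (pr_mult 1 (pow_ne_zero 2 hp) (i := p.natDegree + p.natDegree)
      (by rw [natDegree_pow]; omega)).le (le_of_eq (by rw [pow_add]; ring))
  have C2 := Pr.large (k := k) (N := NN d j) T d zero_le_one fun p hp _ =>
    ((pr_mult 1 hp le_rfl).cond 0 (B := fun x => x 0 ≠ 0 ∧ p ∣ x 0) (by simp) (iq _) fun x _ _ => by
      simpa only [update_self] using (bd_mult hp _ le_rfl).le (dq _ _)).le (one_mul _).ge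
  have C3 := Pr.large (k := k) (N := NN d j) T d zero_le_one fun p hp h =>
    ((pr_mult 1 hp le_rfl).cond 6 (by simp) (iq _) fun x _ _ =>
      dep_l.bd p hp (by omega) le_rfl x).le (one_mul _).ge
  have C4 := Pr.large (k := k) (N := NN d j) T d zero_le_one fun p hp h =>
    ((pr_mult 0 hp le_rfl).cond 3 (by simp) (iq _) fun x _ _ =>
      dep_ps.bd p hp (by omega) le_rfl x).le (one_mul _).ge
  have C5 := Pr.large (k := k) (N := NN d j) T d zero_le_one fun p hp h =>
    ((Pr.coord 3 (iq _) fun x _ => dep_ps.bd p hp (by omega) le_rfl x).cond 8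
      (by simp [Ev, ps, mk8]) (iq _) fun x _ _ => dep_th.bd p hp (by omega) le_rfl x).le (one_mul _).ge
  have C6 := Pr.large (k := k) (N := NN d j) T d zero_le_four fun p hp h =>
    ((Pr.coord 7 (mul_nonneg zero_le_two (iq _)) fun x _ => bd_h p hp (by omega) le_rfl x).cond 8
      (by simp [Eh, De, Dd, uu, al, be, ga, ps, mk8]) (mul_nonneg zero_le_two (iq _))
      fun x _ _ => bd_g p hp (by omega) le_rfl x).le (le_of_eq (by ring))
  have D1 := Pr.few (N := NN d j) 8 (Z := ps) (fun _ _ => by simp [ps, mk8])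
    (fun x hx => (hdeg x hx).1) (iq d) (R := fun p x => d < p.natDegree ∧ Irreducible p ∧
      ¬ p ∣ (x 0 * x 1) ^ 2 ∧ p ∣ (mk x (ee x)).Θ) fun p x => by
    by_cases h : d < p.natDegree
    · exact (dep_th.bd p (by rintro rfl; simp at h) (by omega) h.le x).mono fun _ h => ⟨h.1, h.2.2⟩
    · exact Bd.empty (fun f hf => h hf.2.1) (mul_nonneg (iq _) (qp _))
  have D2 := Pr.few (N := NN d j) 8 (Z := Rr) (fun _ _ => by simp [Rr, uu, al, be, ga, ps, mk8])
    (fun x hx => (hdeg x hx).2) (mul_nonneg zero_le_two (iq d)) (R := fun p x =>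
      d < p.natDegree ∧ Irreducible p ∧ ¬ p ∣ be x ∧ p ∣ De x (ee x)) fun p x => by
    by_cases h : d < p.natDegree
    · exact (bd_g p (by rintro rfl; simp at h) (by omega) h.le x).mono fun _ h => ⟨h.1, h.2.2⟩
    · exact Bd.empty (fun f hf => h hf.2.1) (mul_nonneg (mul_nonneg zero_le_two (iq _)) (qp _))
  have D3 := Pr.coord (k := k) (N := NN d j) 7 (mul_nonneg zero_le_two (iq d)) fun x _ =>
    bd_R (by omega) x
  refine ((((((A1.or A2).or A3).or (A4.or A5)).or ((B1.or B2).or (B3.or B4))).or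
    ((((C1.or C2).or C3).or ((C4.or C5).or C6)).or ((D1.or D2).or D3))).mono
      fun x hx hb => ?_).le ?_
  swap
  · have h1 := iq2 (k := k) d
    have h2 : (1 : ℝ) ≤ d := by exact_mod_cast (show 1 ≤ d by omega)
    have h3 := mul_le_mul_of_nonneg_left h1 (zero_le_one.trans h2)
    have h4 := mul_le_mul_of_nonneg_right h2 (iq (k := k) d)
    push_cast
    simp only [div_eq_mul_inv] at *
    nlinarith
  by_contra hn
  simp only [Ev, Eh, Er, not_or, not_and, not_exists, not_lt, ne_eq, one_ne_zero, not_false_eq_true,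
    true_imp_iff, natDegree_one, n0, n1, n3, n7, n8, natDegree_pow, and_imp, forall_exists_index]
    at hn
  obtain ⟨⟨⟨⟨⟨a1, a2⟩, a3⟩, a4, a5⟩, ⟨b1, b2⟩, b3, b4⟩, ⟨⟨⟨c1, c2⟩, c3⟩, ⟨c4, c5⟩, c6⟩,
    ⟨d1, d2⟩, d3⟩ := hn
  have hl : x 0 ≠ 0 := fun h => by rw [h, natDegree_zero] at a1; omega
  have hm : x 1 ≠ 0 := fun h => by rw [h, natDegree_zero] at a2; omega
  replace a3 := a3 (pow_ne_zero 3 hm)
  have hψ : ps x ≠ 0 := fun h => by rw [h, natDegree_zero] at a3; omega
  have hbe : be x ≠ 0 := mul_ne_zero (pow_ne_zero _ hm) hψ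
  have hdb : (be x).natDegree = 5 * (x 1).natDegree + (ps x).natDegree := by
    rw [be, natDegree_mul (pow_ne_zero _ hm) hψ, natDegree_pow]
  have hsp : be x = (be x + X * derivative (be x)) - X * derivative (be x) := by ring
  have hD : 12 * d < (Dd x (ee x)).natDegree + 11 * K := by
    have h1 := natDegree_sub_le (be x + X * derivative (be x)) (X * derivative (be x))
    have h2 := natDegree_mul_le (p := X) (q := derivative (be x))
    rw [← hsp] at h1
    rw [natDegree_X] at h2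
    rcases le_max_iff.1 h1 with h3 | h3
    · have := a5 fun h => by rw [h, natDegree_zero] at h3; omega
      omega
    · have := a4 fun h => by rw [h, mul_zero, natDegree_zero] at h3; omega
      omega
  refine hb ⟨hm, fun h => ?_, by omega, ddisc x ▸ hD, fun p _ hp hT => ?_, fun p h0 hp hT => ?_⟩
  · rw [← ddisc, h, natDegree_zero] at hD
    omega
  · have h1 := b1 p hT hp hm
    have h2 := b2 p hT hp fun h => h1 ((IsIntegrallyClosed.pow_dvd_pow_iff three_ne_zero).1
      (by rwa [← pow_mul, mul_comm]))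
    refine ⟨fun h => h1 ((pow_dvd_pow p (by omega)).trans h), fun h => h2 ?_⟩
    rw [ddisc, show 11 * K = K * 2 + 9 * K by ring] at h
    have h3 := dvd_sub (not_not.1 fun h' => b4 p hT hp h' h)
      ((not_not.1 fun h' => b3 p hT hp h' h).mul_left X)
    rw [← hsp, be, show 9 * K = K * 1 + 3 * K + K + K + K + K + K by ring,
      show x 1 ^ 5 * ps x = x 1 * (x 1 * (x 1 * (x 1 * (x 1 * ps x)))) by ring] at h3
    exact pow_dvd_cancel hp h1 (pow_dvd_cancel hp h1 (pow_dvd_cancel hp h1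
      (pow_dvd_cancel hp h1 (pow_dvd_cancel hp h1 h3))))
  have hpm : p ∣ x 1 → p.natDegree ≤ d := fun h =>
    (natDegree_le_of_dvd h hm).trans (mem_PL_succ.1 (hx 1))
  have hθ : p ∣ x 1 ^ 2 * ps x → p ∣ De x (ee x) → p ∣ (mk x (ee x)).Θ := fun h h' =>
    hp.prime.dvd_of_dvd_pow (n := 2) ((dvd_add_right (by
      rw [mul_assoc, ← mul_assoc]; exact h.mul_right _)).1 (disc x _ ▸ h' : p ∣ (mk x (ee x)).Δ))
  have h1 : ¬ (p ∣ x 1 ∧ p ∣ De x (ee x)) := fun ⟨h1, h2⟩ => by
    have h3 := hθ ((h1.trans (dvd_pow_self _ two_ne_zero)).mul_right _) h2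
    refine c3 p (hpm h1) hT hm h1 hp (c2 p (hpm h1) hT hm h1 hl)
      (hp.prime.dvd_of_dvd_pow (n := 2) ?_)
    convert dvd_sub h3 (h1.mul_right (x 0 ^ 2 * (x 1 * ee x + x 6 * x 2) +
      x 2 ^ 2 * (x 1 * x 3 + x 4 * x 0))) using 1
    simp only [mk, QF.Θ]
    grind
  refine ⟨fun h2 => ?_, fun h2 => c1 p (hpm ((dvd_pow_self p two_ne_zero).trans h2)) hT hm h2, h1⟩
  have h3 : p ∣ De x (ee x) := (dvd_pow_self p two_ne_zero).trans h2
  have h4 : ¬ p ∣ x 1 := fun h => h1 ⟨h, h3⟩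
  have h5 : ¬ p ∣ x 1 ^ 3 := fun h => h4 (hp.prime.dvd_of_dvd_pow h)
  have h6 : p ∣ Dd x (ee x) := by
    have := pow_sub_one_dvd_derivative_of_pow_dvd h2
    rwa [ddisc, Nat.add_one_sub_one, pow_one] at this
  by_cases h7 : p ∣ ps x
  · have h8 := hθ (h7.mul_left _) h3
    have h9 : ¬ p ∣ (x 0 * x 1) ^ 2 := fun h => by
      have h9 := (hp.prime.dvd_or_dvd (hp.prime.dvd_of_dvd_pow h)).resolve_right h4
      have := (natDegree_le_of_dvd h9 hl).trans (mem_PL_succ.1 (hx 0))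
      exact c4 p (by omega) hT hl h9 hp h5 h7
    by_cases h10 : p.natDegree ≤ d
    · exact c5 p h10 hT hp h5 h7 hp h9 h8
    · exact d1 hψ p h0 hp h7 (by omega) hp h9 h8
  · have h8 : ¬ p ∣ be x := fun h => (hp.prime.dvd_or_dvd h).elim
      (fun h => h4 (hp.prime.dvd_of_dvd_pow h)) h7
    by_cases h10 : p.natDegree ≤ d
    · exact c6 p h10 hT hp h8 _ h3 h6 hp h8 h3
    · refine d2 (d3 (pow_ne_zero _ (mul_ne_zero hl hm)) hbe) p h0 hp ?_ (by omega) hp h8 h3
      convert dvd_add (h3.mul_left (derivative (be x) ^ 2))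
        (h6.mul_left (al x * Dd x (ee x) + be x * derivative (be x))) using 1
      simp only [Rr, De, Dd]
      grind

end BadQ

open Bad BadQ Polynomial in
theorem badForm : BadForm := by
  intro k _ _ _ ε hε j
  have hq := pow_pos (q_pos (k := k)) 8
  have hδ : 0 < ε / 3 / (Fintype.card k : ℝ) ^ 8 := by positivity
  have lim := fun A : ℝ => ((tendsto_pow_atTop_atTop_of_one_lt
    (one_lt_two (α := ℝ))).const_div_atTop A).eventually (ge_mem_nhds hδ)
  obtain ⟨T₁, h1⟩ := Filter.eventually_atTop.1 (lim (9 * (Fintype.card k : ℝ)))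
  refine ⟨T₁, fun T hT => ?_⟩
  obtain ⟨K, h2⟩ := (lim (5 + 4 * (Fintype.card k : ℝ) ^ (T + 1))).exists
  have h3 := ((tendsto_pow_const_div_const_pow_of_one_lt 1 (one_lt_two (α := ℝ))).const_mul
    362).eventually (ge_mem_nhds (by simpa using hδ))
  refine ⟨11 * K, ((Filter.eventually_ge_atTop (K + 2 * j + 1)).and h3).mono fun d hd => ?_⟩
  refine (((Bd.image (bad_total T hd.1) fun x => mk x (ee x)).mono ?_).le ?_).ncard
  · rintro Φ ⟨⟨b0, b1, b2, b3, b4, b5, b6, b7⟩, hb⟩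
    obtain ⟨h, hh, g, hg, e⟩ := exists_gh (d + j) (f := Φ.f₄) (mem_PL_succ.2 (by omega))
    have e' : Φ = mk ![Φ.l, Φ.m, Φ.n, Φ.f₀, Φ.f₁, Φ.f₂, Φ.f₃, h, g]
      (ee ![Φ.l, Φ.m, Φ.n, Φ.f₀, Φ.f₁, Φ.f₂, Φ.f₃, h, g]) := QF.ext rfl rfl rfl rfl rfl rfl rfl e
    refine ⟨_, ⟨fun i => ?_, fun h => hb ?_⟩, e'⟩
    · fin_cases i
      exacts [mem_PL_succ.2 b0, mem_PL_succ.2 b1, mem_PL_succ.2 b2, mem_PL_succ.2 b3,
        mem_PL_succ.2 b4, mem_PL_succ.2 b5, mem_PL_succ.2 b6, hh, hg]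
    · rwa [← BadQ.disc, ← e'] at h
  · have h4 : ∑ i, NN d j i = 8 + 13 * d := by
      have := hd.1
      simp [NN, Fin.sum_univ_succ]
      omega
    have h5 := add_le_add (add_le_add h2 (h1 T hT)) hd.2
    rw [h4, pow_add _ 8, ← mul_assoc]
    refine mul_le_mul_of_nonneg_right ((le_div_iff₀ hq).1 ?_) (qp (k := k) _)
    rw [pow_one] at h5
    exact h5.trans_eq (by ring)

end Pool.Agent.Lib.MP_a3f657_nt.Two
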