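import Pool.Agent.Lib.MP_a3f657_nt.C2BadMain

/-!
A calculus of proportions in a box of tuples of polynomials.
-/

namespace Pool.Agent.Lib.MP_a3f657_nt.Two.BadQ

open Polynomial Bad Function

open scoped Classical

variable {k : Type} [Field k] [Fintype k] {ι : Type} [Fintype ι] [DecidableEq ι]

/-- The box. -/
def Box (N : ι → ℕ) (x : ι → k[X]) : Prop := ∀ i, x i ∈ PL k (N i)

/-- The proportion of `P` in the box is at most `c`. -/
def Pr (N : ι → ℕ) (P : (ι → k[X]) → Prop) (c : ℝ) : Prop :=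
  Bd (fun x => Box N x ∧ P x) (c * (Fintype.card k : ℝ) ^ ∑ i, N i)

variable {N : ι → ℕ} {A B P Q : (ι → k[X]) → Prop} {c c' : ℝ}

omit [DecidableEq ι] in
lemma Pr.or (h : Pr N P c) (h' : Pr N Q c') : Pr N (fun x => P x ∨ Q x) (c + c') :=
  ((Bd.or h h').mono fun _ hx => and_or_left.1 hx).le (add_mul _ _ _).ge

omit [DecidableEq ι] in
lemma Pr.le (h : Pr N P c) (h' : c ≤ c') : Pr N P c' :=
  Bd.le h (mul_le_mul_of_nonneg_right h' (qp _))

omit [DecidableEq ι] in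
lemma Pr.mono (h : Pr N Q c) (h' : ∀ x, Box N x → P x → Q x) : Pr N P c :=
  Bd.mono h fun x hx => ⟨hx.1, h' x hx.1 hx.2⟩

lemma Pr.one : Pr (k := k) N (fun _ => True) 1 := fun S hS => by
  have := Finset.card_le_card (show S ⊆ Fintype.piFinset fun i => PL k (N i) from
    fun x hx => Fintype.mem_piFinset.2 (hS x hx).1)
  simp only [Fintype.card_piFinset, card_PL, Finset.prod_pow_eq_pow_sum] at this
  rw [one_mul]
  exact_mod_cast this

omit [Fintype ι] in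
lemma Box.update {x : ι → k[X]} (h : Box N x) {j : ι} {f : k[X]} (hf : f ∈ PL k (N j)) :
    Box N (update x j f) := fun i => by
  by_cases e : i = j
  · rw [e, update_self]; exact hf
  · rw [update_of_ne e]; exact h i

/-- Conditioning on all coordinates but one. -/
lemma Pr.cond (j : ι) (h : Pr N A c) (hA : ∀ x f, A x → A (update x j f)) (h0 : 0 ≤ c')
    (h' : ∀ x, Box N x → A x → Bd (fun f => f ∈ PL k (N j) ∧ B (update x j f))
      (c' * (Fintype.card k : ℝ) ^ N j)) : Pr N (fun x => A x ∧ B x) (c * c') := by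
  have h1 : Bd (fun y => (Box N y ∧ A y) ∧ y j = 0)
      (c * (Fintype.card k : ℝ) ^ (∑ i, N i) / (Fintype.card k : ℝ) ^ N j) := fun S hS => by
    rw [le_div_iff₀ (pow_pos q_pos _)]
    have := h ((S ×ˢ PL k (N j)).image fun z => update z.1 j z.2) fun x hx => by
      obtain ⟨z, hz, rfl⟩ := Finset.mem_image.1 hx
      obtain ⟨h2, h3⟩ := Finset.mem_product.1 hz
      exact ⟨(hS _ h2).1.1.update h3, hA _ _ (hS _ h2).1.2⟩
    rw [Finset.card_image_of_injOn, Finset.card_product, card_PL] at this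
    · exact_mod_cast this
    · intro z hz z' hz' e
      have h2 := (hS _ (Finset.mem_product.1 hz).1).2
      have h3 := (hS _ (Finset.mem_product.1 hz').1).2
      have h4 := congrArg (update · j 0) e
      simp only [update_idem] at h4
      rw [update_eq_self_iff.2 h2.symm, update_eq_self_iff.2 h3.symm] at h4
      exact Prod.ext h4 (by simpa using congrFun e j)
  refine (((h1.fib (fun y hy => h' y hy.1.1 hy.1.2) (mul_nonneg h0 (qp _))).image
    fun z => update z.1 j z.2).mono fun x hx => ⟨(update x j 0, x j), ⟨⟨⟨hx.1.update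
      (mem_PL_iff.2 (Or.inl rfl)), hA _ _ hx.2.1⟩, update_self ..⟩, hx.1 j, by
        simpa using hx.2.2⟩, by simp⟩).le (le_of_eq ?_)
  have := (pow_pos (q_pos (k := k)) (N j)).ne'
  field_simp

lemma Pr.coord (j : ι) (h0 : 0 ≤ c') (h' : ∀ x, Box N x →
    Bd (fun f => f ∈ PL k (N j) ∧ B (update x j f)) (c' * (Fintype.card k : ℝ) ^ N j)) :
    Pr N B c' :=
  ((Pr.one.cond j (fun _ _ h => h) h0 fun x hx _ => h' x hx).mono fun _ _ h => ⟨trivial, h⟩).le
    (one_mul _).le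

omit [DecidableEq ι] in
lemma Pr.small (T : ℕ) {R : k[X] → (ι → k[X]) → Prop} (hc : 0 ≤ c) (h : ∀ p, Pr N (R p) c) :
    Pr N (fun x => ∃ p, p.natDegree ≤ T ∧ R p x) ((Fintype.card k : ℝ) ^ (T + 1) * c) :=
  ((bd_small T (mul_nonneg hc (qp _)) h).mono fun _ ⟨hx, p, h1, h2⟩ => ⟨p, h1, hx, h2⟩).le
    (mul_assoc _ _ _).ge

omit [DecidableEq ι] in
lemma Pr.large (T n : ℕ) {R : k[X] → (ι → k[X]) → Prop} (hc : 0 ≤ c)
    (h : ∀ p, p ≠ 0 → p.natDegree ≤ n → Pr N (R p) (c * (1 / (Fintype.card k : ℝ) ^ p.natDegree *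
      (1 / (Fintype.card k : ℝ) ^ p.natDegree)))) :
    Pr N (fun x => ∃ p, p.natDegree ≤ n ∧ T < p.natDegree ∧ R p x)
      (c * ((Fintype.card k : ℝ) / 2 ^ T)) :=
  ((bd_large T n (mul_nonneg hc (qp (∑ i, N i))) fun p h1 h2 => Bd.le (h p h1 h2)
    (le_of_eq (by rw [two_mul, pow_add]; ring))).mono
      fun _ ⟨hx, p, h1, h2, h3⟩ => ⟨p, h1, h2, hx, h3⟩).le (le_of_eq (by ring))

omit [Field k] in
lemma dq (n i : ℕ) : (Fintype.card k : ℝ) ^ n / (Fintype.card k : ℝ) ^ i ≤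
    1 / (Fintype.card k : ℝ) ^ i * (Fintype.card k : ℝ) ^ n := le_of_eq (by ring)

lemma iq (i : ℕ) : 0 ≤ 1 / (Fintype.card k : ℝ) ^ i := div_nonneg zero_le_one (qp _)

lemma iq2 (i : ℕ) : 1 / (Fintype.card k : ℝ) ^ i ≤ 1 / 2 ^ i :=
  one_div_le_one_div_of_le (by positivity) (pow_le_pow_left₀ zero_le_two two_le_q _)

/-- `D` depends on the coordinate `j` through `w * x j ^ r`. -/
def Dep (j : ι) (r : ℕ) (w D : (ι → k[X]) → k[X]) : Prop :=
  r ≠ 0 ∧ (∀ x f, w (update x j f) = w x) ∧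
    ∀ x f g, D (update x j f) - D (update x j g) = w x * (f - g) ^ r

variable {j : ι} {r : ℕ} {w D : (ι → k[X]) → k[X]}

lemma Dep.top (h : Dep j r w D) {i : ℕ} (hi : i ≤ N j) :
    Pr N (fun x => w x ≠ 0 ∧ (D x).natDegree < (w x).natDegree + r * (N j - i)) (1 / 2 ^ i) :=
  (Pr.coord j (iq i) fun x _ => (bd_top (fun f g hf hg => by
    rw [mem_PL_iff, or_iff_not_imp_left]
    intro h0
    have h1 := natDegree_sub_le (D (update x j f)) (D (update x j g))
    simp only [h.2.1] at hf hg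
    rw [h.2.2, natDegree_mul hf.2.1 (pow_ne_zero _ h0), natDegree_pow] at h1
    exact Nat.lt_of_mul_lt_mul_left (a := r) (by have := hf.2.2; have := hg.2.2; omega))
      hi).le (dq _ _)).le (iq2 i)

lemma Dep.small (h : Dep j r w D) (T b : ℕ) {i : ℕ} (hi : i ≤ N j) :
    Pr N (fun x => ∃ p, p.natDegree ≤ T ∧ Irreducible p ∧ ¬ p ^ b ∣ w x ∧ p ^ (i * r + b) ∣ D x)
      ((Fintype.card k : ℝ) ^ (T + 1) * (1 / 2 ^ i)) :=
  Pr.small T (by positivity) fun p => (Pr.coord j (iq i) fun x _ => by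
    by_cases hp : Irreducible p
    · refine (bd_cong (pow_ne_zero i hp.ne_zero) (fun f hf => hf.1) (fun f g hf hg => ?_) hi
        ?_).le (dq _ _)
      · have h1 := dvd_sub hf.2.2.2 hg.2.2.2
        rw [h.2.2] at h1
        have h2 := pow_dvd_cancel hp (h.2.1 x f ▸ hf.2.2.1) h1
        rwa [pow_mul, IsIntegrallyClosed.pow_dvd_pow_iff h.1] at h2
      · rw [natDegree_pow]
        exact Nat.le_mul_of_pos_right _ hp.natDegree_pos
    · exact Bd.empty (fun f hf => hp hf.2.1) (mul_nonneg (iq _) (qp _))).le (iq2 i)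

/-- The prime `p` divides `D` but not `w`. -/
def Ev (p : k[X]) (w D : (ι → k[X]) → k[X]) (x : ι → k[X]) : Prop :=
  Irreducible p ∧ ¬ p ∣ w x ∧ p ∣ D x

omit [Fintype ι] in
lemma Dep.bd (h : Dep j r w D) (p : k[X]) (hp : p ≠ 0) {i n : ℕ} (hi : i ≤ n)
    (hi' : i ≤ p.natDegree) (x : ι → k[X]) : Bd (fun f => f ∈ PL k n ∧ Ev p w D (update x j f))
      (1 / (Fintype.card k : ℝ) ^ i * (Fintype.card k : ℝ) ^ n) :=
  (bd_cong hp (fun f hf => hf.1) (fun f g hf hg => by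
    have h1 := dvd_sub hf.2.2.2 hg.2.2.2
    rw [h.2.2] at h1
    exact hf.2.1.prime.dvd_of_dvd_pow
      ((hf.2.1.prime.dvd_or_dvd h1).resolve_left (h.2.1 x f ▸ hf.2.2.1))) hi hi').le (dq _ _)

lemma pr_mult (j : ι) {μ : k[X]} (hμ : μ ≠ 0) {i : ℕ} (hi : i ≤ μ.natDegree) :
    Pr N (fun x => x j ≠ 0 ∧ μ ∣ x j) (1 / (Fintype.card k : ℝ) ^ i) :=
  Pr.coord j (iq i) fun x _ => by simpa only [update_self] using (bd_mult hμ _ hi).le (dq _ _)

/-- Few primes divide a nonzero polynomial. -/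
lemma Pr.few (j : ι) {Z : (ι → k[X]) → k[X]} (hZ : ∀ x f, Z (update x j f) = Z x) {M : ℕ}
    (hM : ∀ x, Box N x → (Z x).natDegree ≤ M) {R : k[X] → (ι → k[X]) → Prop} (hc : 0 ≤ c)
    (h : ∀ p x, Bd (fun f => f ∈ PL k (N j) ∧ R p (update x j f))
      (c * (Fintype.card k : ℝ) ^ N j)) :
    Pr N (fun x => Z x ≠ 0 ∧ ∃ p, (p.Monic ∧ Irreducible p ∧ p ∣ Z x) ∧ R p x) (M * c) :=
  Pr.coord j (by positivity) fun x hx => by
    simp only [hZ]
    by_cases h0 : Z x = 0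
    · exact Bd.empty (fun f hf => hf.2.1 h0) (mul_nonneg (by positivity) (qp _))
    refine ((Bd.union ((PL k (M + 1)).filter fun p => p.Monic ∧ Irreducible p ∧ p ∣ Z x)
      fun p _ => h p x).mono fun f ⟨h1, _, p, h2, h3⟩ => ⟨p, Finset.mem_filter.2 ⟨mem_PL_succ.2
        ((natDegree_le_of_dvd h2.2.2 h0).trans (hM x hx)), h2⟩, h1, h3⟩).le ?_
    rw [Finset.sum_const, nsmul_eq_mul, mul_assoc]
    exact mul_le_mul_of_nonneg_right (Nat.cast_le.2 ((card_primes _ h0 fun p hp =>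
      (Finset.mem_filter.1 hp).2).trans (hM x hx))) (mul_nonneg hc (qp _))

/-- At most two classes. -/
lemma bd_two {α : Type} {P : α → Prop} {s : α → α → Prop} {c : ℝ}
    (h : ∀ a b e, P a → P b → P e → s a b ∨ s a e ∨ s b e)
    (h' : ∀ Q : α → Prop, (∀ a, Q a → P a) → (∃ e, ∀ a, Q a → s e a) ∨
      (∀ a b, Q a → Q b → s a b) → Bd Q c) : Bd P (2 * c) := by
  by_cases h0 : ∃ e, P e
  · obtain ⟨e, he⟩ := h0
    exact (((h' (fun a => P a ∧ s e a) (fun _ h => h.1) (.inl ⟨e, fun _ h => h.2⟩)).or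
      (h' (fun a => P a ∧ ¬ s e a) (fun _ h => h.1) (.inr fun a b ha hb =>
        ((h e a b he ha.1 hb.1).resolve_left ha.2).resolve_left hb.2))).mono
      fun a ha => and_or_left.1 ⟨ha, em _⟩).le (two_mul c).ge
  · exact Bd.empty (fun a ha => h0 ⟨a, ha⟩) (mul_nonneg zero_le_two
      (h' (fun _ => False) (fun _ h => h.elim) (.inr fun _ _ h => h.elim)).nonneg)

lemma bd_cong2 {P : k[X] → Prop} {p : k[X]} (hp : p ≠ 0) {n i : ℕ} (hS : ∀ f, P f → f ∈ PL k n)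
    (h : ∀ a b e, P a → P b → P e → p ∣ a - b ∨ p ∣ a - e ∨ p ∣ b - e) (h1 : i ≤ n)
    (h2 : i ≤ p.natDegree) : Bd P (2 * (1 / (Fintype.card k : ℝ) ^ i) * (Fintype.card k : ℝ) ^ n) :=
  (bd_two h fun Q hQ h3 => (bd_cong hp (fun f hf => hS f (hQ f hf)) (h3.elim
    (fun ⟨e, he⟩ a b ha hb => by simpa using dvd_sub (he b hb) (he a ha)) id) h1 h2).le
      (dq _ _)).le (mul_assoc _ _ _).ge

lemma bd_eq2 {P : k[X] → Prop} {n i : ℕ}
    (h : ∀ a b e, P a → P b → P e → a = b ∨ a = e ∨ b = e) (h1 : i ≤ n) :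
    Bd P (2 * (1 / (Fintype.card k : ℝ) ^ i) * (Fintype.card k : ℝ) ^ n) :=
  (bd_two h fun _ _ h3 => (bd_top (fun a b ha hb => mem_PL_iff.2 (.inl (sub_eq_zero.2 (h3.elim
    (fun ⟨_, he⟩ => (he a ha).symm.trans (he b hb)) fun h => h a b ha hb)))) h1).le
      (dq _ _)).le (mul_assoc _ _ _).ge

/-- A quadratic congruence has at most two roots. -/
lemma three_roots {R : Type} [CommRing R] {p a b c x y z : R}
    (hp : ∀ u v, p ∣ u * v → p ∣ u ∨ p ∣ v) (h : ¬ (p ∣ a ∧ p ∣ b))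
    (hx : p ∣ a * x ^ 2 + b * x + c) (hy : p ∣ a * y ^ 2 + b * y + c)
    (hz : p ∣ a * z ^ 2 + b * z + c) : p ∣ x - y ∨ p ∣ x - z ∨ p ∣ y - z := by
  by_contra hn
  simp only [not_or] at hn
  have h1 := (hp (x - y) (a * (x + y) + b) (by convert dvd_sub hx hy using 1; ring)).resolve_left
    hn.1
  have h2 := (hp (x - z) (a * (x + z) + b) (by convert dvd_sub hx hz using 1; ring)).resolve_left
    hn.2.1
  have h3 := (hp a (y - z) (by convert dvd_sub h1 h2 using 1; ring)).resolve_right hn.2.2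
  exact h ⟨h3, (dvd_add_right (h3.mul_right _)).1 h1⟩

end Pool.Agent.Lib.MP_a3f657_nt.Two.BadQ
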