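import Pool.Agent.Lib.MP_a3f657_nt.C2QDefs

/-!
Splitting of rank two vector bundles on the projective line.
-/

namespace Pool.Agent.Lib.MP_a3f657_nt.Two

open Polynomial

namespace Birkhoff

variable {k : Type} [Field k]

lemma det_int {v : Pl k} {M : Matrix (Fin 2) (Fin 2) (RatFunc k)}
    (h : ∀ i j, M i j ∈ Fil (val v) 0) : M.det ∈ Fil (val v) 0 := by
  rw [Matrix.det_fin_two]
  exact sub_mem (Fil.mul (h _ _) (h _ _) le_rfl) (Fil.mul (h _ _) (h _ _) le_rfl)

lemma mul_int {v : Pl k} {M N : Matrix (Fin 2) (Fin 2) (RatFunc k)}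
    (hM : ∀ i j, M i j ∈ Fil (val v) 0) (hN : ∀ i j, N i j ∈ Fil (val v) 0) (i j : Fin 2) :
    (M * N) i j ∈ Fil (val v) 0 := by
  rw [Matrix.mul_apply]
  exact sum_mem fun l _ => Fil.mul (hM _ _) (hN _ _) le_rfl

lemma glo_mul {v : Pl k} {M N : Matrix (Fin 2) (Fin 2) (RatFunc k)} (hM : GLO v M)
    (hN : GLO v N) : GLO v (M * N) := by
  refine ⟨mul_int hM.1 hN.1, ?_, ?_⟩
  · rw [Matrix.det_mul]; exact mul_ne_zero hM.2.1 hN.2.1
  · rw [Matrix.det_mul, ord_mul hM.2.1 hN.2.1, hM.2.2, hN.2.2, add_zero]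

lemma one_int (v : Pl k) (i j : Fin 2) :
    (1 : Matrix (Fin 2) (Fin 2) (RatFunc k)) i j ∈ Fil (val v) 0 := by
  rw [Matrix.one_apply]
  split_ifs
  · exact Fil.one le_rfl
  · exact zero_mem _

lemma glo_one (v : Pl k) : GLO v (1 : Matrix (Fin 2) (Fin 2) (RatFunc k)) :=
  ⟨one_int v, by simp, by simp⟩

/-- Approximation at one place by functions without poles at the other finite places. -/
lemma approx (v : Pl k) (x : RatFunc k) :
    ∃ y, (∀ u, some u ≠ v → y ∈ Fil (val (some u)) 0) ∧ x - y ∈ Fil (val v) 1 := by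
  rcases v with _ | v
  · exact ⟨ι (pol x), fun u _ => ι_int _ _, pol_spec x⟩
  · obtain ⟨a, ha⟩ := exists_approx (pp_spec v x) 1
    refine ⟨pp v x + ι a, fun u hu => add_mem (pp_int (fun e => hu (by rw [e])) x) (ι_int _ _), ?_⟩
    rw [show x - (pp v x + ι a) = -(ι a - (x - pp v x)) by ring]
    exact neg_mem ha

/-- One step of column reduction. -/
lemma step (v : Pl k) (c d : Fin 2 → RatFunc k) {e f : ℤ} (hef : e ≤ f)
    (hd : ∀ i, d i ∈ Fil (val v) f) (h : c 0 * d 1 - c 1 * d 0 ∈ Fil (val v) (e + f + 1)) :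
    (∀ i, d i ∈ Fil (val v) (f + 1)) ∨ ∃ y, (∀ u, some u ≠ v → y ∈ Fil (val (some u)) 0) ∧
      ∀ i, c i - y * d i ∈ Fil (val v) (e + 1) := by
  by_cases h1 : ∀ i, d i ∈ Fil (val v) (f + 1)
  · exact Or.inl h1
  right
  obtain ⟨i, hi⟩ := not_forall.1 h1
  obtain ⟨h2, h3⟩ := ord_eq_of (hd i) hi
  obtain ⟨y, hy, hy'⟩ := approx v (c i / d i)
  refine ⟨y, hy, fun j => ?_⟩
  have h4 : c j * d i - c i * d j ∈ Fil (val v) (e + f + 1) := by
    fin_cases i <;> fin_cases j
    · simp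
    · simpa using neg_mem h
    · simpa using h
    · simp
  rw [show c j - y * d j = (c j * d i - c i * d j) / d i + (c i / d i - y) * d j by
    field_simp; ring]
  exact add_mem (Fil.div h4 (by omega)) (Fil.mul hy' (hd j) (by omega))

/-- Column reduction. -/
lemma red (v : Pl k) (n : ℕ) : ∀ (G : Matrix (Fin 2) (Fin 2) (RatFunc k)) (e f : ℤ), G.det ≠ 0 →
    (∀ i, G i 0 ∈ Fil (val v) e) → (∀ i, G i 1 ∈ Fil (val v) f) →
    ord (val v) G.det ≤ e + f + n →
    ∃ (H : Matrix (Fin 2) (Fin 2) (RatFunc k)) (e' f' : ℤ),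
      (∀ u, some u ≠ v → ∀ i j, H i j ∈ Fil (val (some u)) 0) ∧ H.det = 1 ∧
      (∀ i, (G * H) i 0 ∈ Fil (val v) e') ∧ (∀ i, (G * H) i 1 ∈ Fil (val v) f') ∧
      ord (val v) G.det ≤ e' + f' := by
  induction n with
  | zero =>
    intro G e f _ h1 h2 h3
    exact ⟨1, e, f, fun u _ => one_int _, by simp, by simpa using h1, by simpa using h2,
      by simpa using h3⟩
  | succ n ih =>
    intro G e f h0 h1 h2 h3
    by_cases h4 : ord (val v) G.det ≤ e + f + n
    · exact ih G e f h0 h1 h2 h4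
    have h5 : G.det ∈ Fil (val v) (e + f + 1) := mem_Fil_of_le (by omega)
    have key : ∀ (E : Matrix (Fin 2) (Fin 2) (RatFunc k)) (e₁ f₁ : ℤ), e₁ + f₁ = e + f + 1 →
        (∀ u, some u ≠ v → ∀ i j, E i j ∈ Fil (val (some u)) 0) → E.det = 1 →
        (∀ i, (G * E) i 0 ∈ Fil (val v) e₁) → (∀ i, (G * E) i 1 ∈ Fil (val v) f₁) →
        ∃ (H : Matrix (Fin 2) (Fin 2) (RatFunc k)) (e' f' : ℤ),
          (∀ u, some u ≠ v → ∀ i j, H i j ∈ Fil (val (some u)) 0) ∧ H.det = 1 ∧
          (∀ i, (G * H) i 0 ∈ Fil (val v) e') ∧ (∀ i, (G * H) i 1 ∈ Fil (val v) f') ∧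
          ord (val v) G.det ≤ e' + f' := by
      intro E e₁ f₁ g1 g2 g3 g4 g5
      have g6 : (G * E).det = G.det := by rw [Matrix.det_mul, g3, mul_one]
      obtain ⟨H, e', f', k1, k2, k3, k4, k5⟩ := ih (G * E) e₁ f₁ (by rwa [g6]) g4 g5
        (by rw [g6]; push_cast at h3; omega)
      refine ⟨E * H, e', f', fun u hu => mul_int (g2 u hu) (k1 u hu), ?_, ?_, ?_, ?_⟩
      · rw [Matrix.det_mul, g3, k2, mul_one]
      · rwa [← Matrix.mul_assoc]
      · rwa [← Matrix.mul_assoc]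
      · rwa [g6] at k5
    rw [Matrix.det_fin_two] at h5
    rcases le_total e f with hef | hef
    · rcases step v (fun i => G i 0) (fun i => G i 1) hef h2 (by
        rwa [mul_comm (G 1 0)]) with h6 | ⟨y, hy, h6⟩
      · exact key 1 e (f + 1) (by ring) (fun u _ => one_int _) (by simp) (by simpa using h1)
          (by simpa using h6)
      · refine key !![1, 0; -y, 1] (e + 1) f (by ring) (fun u hu i j => ?_)
          (by simp [Matrix.det_fin_two]) (fun i => ?_) (fun i => ?_)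
        · fin_cases i <;> fin_cases j
          · exact Fil.one le_rfl
          · exact zero_mem _
          · exact neg_mem (hy u hu)
          · exact Fil.one le_rfl
        · convert h6 i using 1
          simp [Matrix.mul_apply, Fin.sum_univ_two]
          ring
        · convert h2 i using 1
          simp [Matrix.mul_apply, Fin.sum_univ_two]
    · rcases step v (fun i => G i 1) (fun i => G i 0) hef h1 (by
        rw [add_comm f e]
        convert neg_mem h5 using 1
        ring) with h6 | ⟨y, hy, h6⟩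
      · exact key 1 (e + 1) f (by ring) (fun u _ => one_int _) (by simp) (by simpa using h6)
          (by simpa using h2)
      · refine key !![1, -y; 0, 1] e (f + 1) (by ring) (fun u hu i j => ?_)
          (by simp [Matrix.det_fin_two]) (fun i => ?_) (fun i => ?_)
        · fin_cases i <;> fin_cases j
          · exact Fil.one le_rfl
          · exact neg_mem (hy u hu)
          · exact zero_mem _
          · exact Fil.one le_rfl
        · convert h1 i using 1
          simp [Matrix.mul_apply, Fin.sum_univ_two]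
        · convert h6 i using 1
          simp [Matrix.mul_apply, Fin.sum_univ_two]
          ring

lemma det_diag (t : RatFunc k) (ht : t ≠ 0) (e f : ℤ) :
    (Matrix.diagonal ![t ^ e, t ^ f]).det = t ^ (e + f) := by
  rw [Matrix.det_diagonal, Fin.prod_univ_two, zpow_add₀ ht]
  rfl

/-- The local normal form at one place. -/
lemma loc (v : Pl k) (t : RatFunc k) (ht : ord (val v) t = -1)
    (G : Matrix (Fin 2) (Fin 2) (RatFunc k)) (hG : G.det ≠ 0) :
    ∃ (H : Matrix (Fin 2) (Fin 2) (RatFunc k)) (e f : ℤ),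
      (∀ u, some u ≠ v → GLO (some u) H) ∧ GLO v (G * H * Matrix.diagonal ![t ^ e, t ^ f]) := by
  have ht0 : t ≠ 0 := by rintro rfl; simp at ht
  obtain ⟨H, e, f, h1, h2, h3, h4, h5⟩ := red v
    (ord (val v) G.det - (min (ord (val v) (G 0 0)) (ord (val v) (G 1 0)) +
      min (ord (val v) (G 0 1)) (ord (val v) (G 1 1)))).toNat G
    (min (ord (val v) (G 0 0)) (ord (val v) (G 1 0)))
    (min (ord (val v) (G 0 1)) (ord (val v) (G 1 1))) hG
    (fun i => by fin_cases i <;> exact mem_Fil_of_le (by simp))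
    (fun i => by fin_cases i <;> exact mem_Fil_of_le (by simp)) (by omega)
  have h6 : ∀ i j, (G * H * Matrix.diagonal ![t ^ e, t ^ f]) i j ∈ Fil (val v) 0 := by
    intro i j
    rw [Matrix.mul_diagonal]
    fin_cases j
    · exact Fil.mul (h3 i) (mem_Fil_ord (t ^ e)) (by rw [ord_zpow, ht]; omega)
    · exact Fil.mul (h4 i) (mem_Fil_ord (t ^ f)) (by rw [ord_zpow, ht]; omega)
  have h7 : (G * H * Matrix.diagonal ![t ^ e, t ^ f]).det = G.det * t ^ (e + f) := by
    rw [Matrix.det_mul, Matrix.det_mul, h2, mul_one, det_diag t ht0]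
  have h8 : G.det * t ^ (e + f) ≠ 0 := mul_ne_zero hG (zpow_ne_zero _ ht0)
  refine ⟨H, e, f, fun u hu => ⟨h1 u hu, by simp [h2], by simp [h2]⟩, h6, by rwa [h7], ?_⟩
  have h9 := det_int h6
  rw [h7, mem_Fil_iff h8] at h9
  rw [h7]
  rw [ord_mul hG (zpow_ne_zero _ ht0), ord_zpow, ht] at h9 ⊢
  omega

lemma glo_diag {v : Pl k} {t : RatFunc k} (ht0 : t ≠ 0) (ht : ord (val v) t = 0) (e f : ℤ) :
    GLO v (Matrix.diagonal ![t ^ e, t ^ f]) := by
  refine ⟨fun i j => ?_, ?_, ?_⟩
  · rw [Matrix.diagonal_apply]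
    split_ifs
    · fin_cases i
      · exact mem_Fil_of_le (x := t ^ e) (by rw [ord_zpow, ht]; simp)
      · exact mem_Fil_of_le (x := t ^ f) (by rw [ord_zpow, ht]; simp)
    · exact zero_mem _
  · rw [det_diag t ht0]; exact zpow_ne_zero _ ht0
  · rw [det_diag t ht0, ord_zpow, ht, mul_zero]

lemma det_inv_ne {M : Matrix (Fin 2) (Fin 2) (RatFunc k)} (h : M.det ≠ 0) : M⁻¹.det ≠ 0 := by
  rw [Matrix.det_nonsing_inv, Ring.inverse_eq_inv']
  exact inv_ne_zero h

/-- The finite places. -/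
lemma fin_places (M : Pl k → Matrix (Fin 2) (Fin 2) (RatFunc k)) (hM : ∀ v, (M v).det ≠ 0)
    (S : Finset (Pl k)) : ∃ N : Matrix (Fin 2) (Fin 2) (RatFunc k), N.det ≠ 0 ∧
      ∀ u, (some u ∈ S → GLO (some u) ((M (some u))⁻¹ * N)) ∧ (some u ∉ S → GLO (some u) N) := by
  classical
  induction S using Finset.induction_on with
  | empty => exact ⟨1, by simp, fun u => ⟨by simp, fun _ => glo_one _⟩⟩
  | insert v S hv ih =>
    obtain ⟨N, h0, h⟩ := ih
    rcases v with _ | v
    · exact ⟨N, h0, fun u => by simpa using h u⟩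
    have hg : ι (gen v) ≠ 0 := ι_ne (gen_ne v)
    obtain ⟨H, e, f, h1, h2⟩ := loc (some v) (ι (gen v))⁻¹ (by rw [ord_inv, ord_gen])
      ((M (some v))⁻¹ * N) (by rw [Matrix.det_mul]; exact mul_ne_zero (det_inv_ne (hM _)) h0)
    have h3 : ∀ u, u ≠ v → GLO (some u)
        (H * Matrix.diagonal ![(ι (gen v))⁻¹ ^ e, (ι (gen v))⁻¹ ^ f]) := fun u hu =>
      glo_mul (h1 u (by simpa using hu)) (glo_diag (inv_ne_zero hg) (by
        rw [ord_inv, ord_ι_unit fun e => hu (gen_dvd_gen e), neg_zero]) e f)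
    refine ⟨N * (H * Matrix.diagonal ![(ι (gen v))⁻¹ ^ e, (ι (gen v))⁻¹ ^ f]), ?_, fun u => ?_⟩
    · have := h2.2.1
      rw [Matrix.mul_assoc, Matrix.mul_assoc, Matrix.det_mul] at this
      exact right_ne_zero_of_mul this
    by_cases hu : u = v
    · subst hu
      refine ⟨fun _ => ?_, fun h4 => absurd (Finset.mem_insert_self _ _) h4⟩
      rwa [← Matrix.mul_assoc, ← Matrix.mul_assoc]
    · refine ⟨fun h4 => ?_, fun h4 => glo_mul ((h u).2 fun h5 => h4 (by simp [h5])) (h3 u hu)⟩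
      rw [← Matrix.mul_assoc]
      exact glo_mul ((h u).1 (by simpa [hu] using h4)) (h3 u hu)

lemma glo_swap (v : Pl k) : GLO v (!![0, 1; 1, 0] : Matrix (Fin 2) (Fin 2) (RatFunc k)) := by
  refine ⟨fun i j => ?_, by simp [Matrix.det_fin_two], by simp [Matrix.det_fin_two, ord]⟩
  fin_cases i <;> fin_cases j
  · exact zero_mem _
  · exact Fil.one le_rfl
  · exact Fil.one le_rfl
  · exact zero_mem _

lemma swap_diag (x y : RatFunc k) :
    (!![0, 1; 1, 0] : Matrix (Fin 2) (Fin 2) (RatFunc k)) * Matrix.diagonal ![y, x] =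
      Matrix.diagonal ![x, y] * !![0, 1; 1, 0] := by
  ext i j
  rw [Matrix.mul_diagonal, Matrix.diagonal_mul]
  fin_cases i <;> fin_cases j <;> simp

end Birkhoff

open Birkhoff

/-- Vector bundles of rank two on the projective line split. -/
theorem birk : Birk := by
  intro k _ S M hM hS
  obtain ⟨N, h0, h⟩ := fin_places M hM S
  have h1 : ∀ u, GLO (some u) ((M (some u))⁻¹ * N) := fun u => by
    by_cases hu : some u ∈ S
    · exact (h u).1 hu
    · rw [hS _ hu, inv_one, one_mul]; exact (h u).2 hu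
  obtain ⟨H, e, f, h2, h3⟩ := loc none RatFunc.X ord_X ((M none)⁻¹ * N)
    (by rw [Matrix.det_mul]; exact mul_ne_zero (det_inv_ne (hM _)) h0)
  rcases le_total f e with hef | hef
  · refine ⟨N * H, f, e, hef, fun u => ?_, ?_⟩
    · rw [← Matrix.mul_assoc]; exact glo_mul (h1 u) (h2 u (by simp))
    · rwa [← Matrix.mul_assoc]
  · refine ⟨N * H * !![0, 1; 1, 0], e, f, hef, fun u => ?_, ?_⟩
    · rw [← Matrix.mul_assoc, ← Matrix.mul_assoc]
      exact glo_mul (glo_mul (h1 u) (h2 u (by simp))) (glo_swap _)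
    · rw [← Matrix.mul_assoc, ← Matrix.mul_assoc, Matrix.mul_assoc _ _ (Matrix.diagonal _),
        swap_diag, ← Matrix.mul_assoc]
      exact glo_mul h3 (glo_swap _)

end Pool.Agent.Lib.MP_a3f657_nt.Two
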