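import Pool.Agent.Lib.MP_a3f657_nt.C2QSum
import Pool.Agent.Lib.MP_a3f657_nt.C2QAlg
import Pool.Agent.Lib.MP_a3f657_nt.C2All

/-!
The exact first moment.
-/

set_option linter.unusedSectionVars false

namespace Pool.Agent.Lib.MP_a3f657_nt.Two

open Polynomial Filter Topology

open scoped Classical

variable {k : Type} [Field k] [Fintype k] [CharP k 2] {W : WeierstrassCurve (RatFunc k)}

lemma j_eq (W : WeierstrassCurve (RatFunc k)) : W.c₄ ^ 3 / W.Δ = (nB W)⁻¹ := by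
  rw [nB, inv_div, WeierstrassCurve.c₄_of_char_two, ← pow_mul]

lemma nd_iff : ¬ IsSquare (W.c₄ ^ 3 / W.Δ) ↔ ∃ P, Nd W P := by
  rw [j_eq, isSquare_inv]
  refine ⟨fun h => ⟨(PX k).change (nB W) fun r hr => h ⟨r, by rw [← hr, pow_two]⟩, fun e => h ?_,
    rfl⟩, fun ⟨P, hP⟩ ⟨r, hr⟩ => P.ns r (by rw [hP.hb, hr, pow_two])⟩
  simp [nB, e]

lemma Nd.smul {P : PB (RatFunc k)} (h : Nd W P) (C : WeierstrassCurve.VariableChange (RatFunc k)) :
    Nd (C • W) P ∧ selOrder (C • W) = selOrder W := by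
  obtain ⟨h3, h4, h5⟩ := nA_smul h.a1 C
  have h6 : Nd (C • W) P := ⟨h3, h.hb.trans h4.symm⟩
  exact ⟨h6, by rw [selOrder_eq' h, selOrder_eq' h6, h5, Sel_wp]⟩

/-- The weight. -/
noncomputable def wt (e : ZMod 2) (W : WeierstrassCurve (RatFunc k)) : ℕ :=
  if (∃ P, Nd W P) ∧ Par e W then selOrder W else 0

lemma wt_smul (e : ZMod 2) (C : WeierstrassCurve.VariableChange (RatFunc k))
    (W : WeierstrassCurve (RatFunc k)) : wt e (C • W) = wt e W := by
  by_cases h : ∃ P, Nd W P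
  · obtain ⟨P, hP⟩ := h
    simp only [wt, Par, (hP.smul C).2, (⟨P, hP⟩ : ∃ P, Nd W P), (⟨P, (hP.smul C).1⟩ : ∃ P, Nd _ P)]
  · rw [wt, wt, if_neg fun e => h (e.1.imp fun P hP => by simpa using (hP.smul C⁻¹).1),
      if_neg fun e => h e.1]

theorem average_eq (hR : AvgRed) (hT : Tail) (hA : CellAn) (e : ZMod 2) :
    Tendsto (fun d => ∑ᶠ m : ℕ, (m : ℝ) * dens (k := k) (fun W => ¬ IsSquare (W.c₄ ^ 3 / W.Δ) ∧
      (∃ n : ℕ, selOrder W = 2 ^ n ∧ (n : ZMod 2) = e) ∧ selOrder W = m) d) atTop (𝓝 (3 / 2)) := by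
  have key := hR k (wt e) (3 / 2) (wt_smul e) (fun W h => if_neg fun ⟨⟨P, hP⟩, _⟩ => hP.a1 h) ?_
    (hT k (wt e) fun W => by
      unfold wt
      split_ifs with h
      · obtain ⟨⟨P, hP⟩, -⟩ := h
        exact Or.inr ⟨P, hP, (selOrder_eq' hP).le⟩
      · exact Or.inl rfl)
  · refine key.congr fun d => finsum_congr fun m => ?_
    rcases Nat.eq_zero_or_pos m with rfl | hm
    · simp
    congr 2
    ext W
    rw [nd_iff, wt, ← and_assoc]
    change _ ↔ (_ ∧ Par e W) ∧ _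
    split_ifs with h
    · simp only [h, true_and]
    · simp only [h, false_and, iff_false]
      omega
  obtain ⟨T₀, h0⟩ := cell_est hA k
  obtain ⟨T₁, h1⟩ := cell_low hA k
  refine ⟨max T₀ T₁, fun T hT β ε hε => ?_⟩
  filter_upwards [h0 T (le_of_max_le_left hT) β ε hε, h1 T (le_of_max_le_right hT) β ε hε,
    eventually_ge_atTop (RR β)] with d H H' hd a h2 h3 h4
  rw [Finset.sum_congr rfl fun t ht => show _ =
    ind e (bc (shift T β a t)) * selOrder (bc (shift T β a t)) - 3 / 2 by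
      have h5 := Red.goodT_shift hd h2 h3 (Finset.mem_filter.1 ht).1
      simp only [wt, ind, exists_nd h5.1 h5.2.1, true_and]
      split_ifs <;> simp]
  exact abs_le.2 ⟨H' a h2 h3 h4 e, ((H a h2 h3 h4).2 e).2⟩

end Pool.Agent.Lib.MP_a3f657_nt.Two
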