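import Pool.Agent.Lib.MP_a3f657_nt.C2QAlg

/-!
Locally soluble classes have locally integral models.
-/

set_option linter.unusedSectionVars false

namespace Pool.Agent.Lib.MP_a3f657_nt.Two

open WeierstrassCurve

open scoped Classical

namespace Loc

variable {K : Type} [Field K] [CharP K 2] {w : Valuation K (WithZero (Multiplicative ℤ))}
  {W : WeierstrassCurve K} {P : PB K} {e : ℤ}

lemma ord_quad {y c : K} {a : ℤ} (hc : c ∈ Fil w a) (hy : y ∉ Fil w a) :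
    y * (y + c) ≠ 0 ∧ ord w (y * (y + c)) = 2 * ord w y ∧ ord w y < a := by
  obtain ⟨h1, h2⟩ := not_mem_Fil.1 hy
  obtain ⟨h3, h4⟩ := ord_add (w := w) h1 (Fil.mono hc (b := ord w y + 1) (by omega))
  exact ⟨mul_ne_zero h1 h3, by rw [ord_mul h1 h3, h4]; ring, h2⟩

/-- The model attached to an affine point. -/
def mP (W : WeierstrassCurve K) (X Y : K) : QF K :=
  ⟨1, W.a₁, W.a₂ + X, 0, 0, 0, W.a₁ * X + W.a₃, W.a₄ + X ^ 2 + W.a₁ * Y⟩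

lemma inv_mP (h : Nd W P) {X Y : K} (hXY : W.toAffine.Equation X Y) :
    QF.Inv P (nA W) (P.kap (nx W X)) W.a₁ (mP W X Y) := by
  have h1 := h.a1
  have h2 := h.nx_ne hXY
  have h3 : Y ^ 2 + W.a₁ * X * Y + W.a₃ * Y = X ^ 3 + W.a₂ * X ^ 2 + W.a₄ * X + W.a₆ :=
    (Affine.equation_iff _ _).1 hXY
  refine QF.Inv.of_Δ (Φ := mP W X Y) h1 ?_ (x := (W.a₁⁻¹) ^ 2 * nx W X) ?_ ?_ ⟨0, ?_⟩
  · have e1 : (mP W X Y).m ^ 12 * P.b = W.Δ := by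
      rw [h.hb, nB]
      change W.a₁ ^ 12 * _ = _
      field_simp
    have e2 : W.a₆ = Y ^ 2 + W.a₁ * X * Y + W.a₃ * Y + (X ^ 3 + W.a₂ * X ^ 2 + W.a₄ * X) := by
      grind
    rw [e1, disc_eq, e2]
    simp only [mP, QF.Δ, QF.Θ, QF.Ψ₀, QF.Ψ₄, QF.J]
    clear * -
    grind
  · simp only [mP, QF.Ψ₀, QF.J, nx]
    field_simp
    ring
  · rw [PB.c0_sq_mul, PB.c1_sq_mul, PB.kap]
    simp only [mP]
    generalize nx W X = ξ at h2
    field_simp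
    grind
  · simp only [mP, QF.J, nA, wp_zero]
    field_simp
    grind

lemma stepA (h : Nd W P) (h1 : W.a₁ ∈ Fil w e) (h2 : W.a₂ ∈ Fil w (2 * e))
    (h3 : W.a₃ ∈ Fil w (3 * e)) (h4 : W.a₄ ∈ Fil w (4 * e)) (h6 : W.a₆ ∈ Fil w (6 * e)) {s : K}
    (hs : s ∈ LL P (nA W)) (hs0 : s ≠ 0) :
    ∃ (Φ : QF K) (j : ℤ), QF.Inv P (nA W) s W.a₁ Φ ∧ QF.Wt w e j Φ := by
  rw [← h.range_eq] at hs
  obtain ⟨R, rfl⟩ := hs
  rcases R with _ | ⟨X, Y, hR⟩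
  · exact absurd (map_zero h.kap) hs0
  have hI : QF.Inv P (nA W) (h.kap (.some X Y hR)) W.a₁ (mP W X Y) := inv_mP h hR.1
  have eq : Y ^ 2 + W.a₁ * X * Y + W.a₃ * Y = X ^ 3 + W.a₂ * X ^ 2 + W.a₄ * X + W.a₆ :=
    (Affine.equation_iff _ _).1 hR.1
  by_cases hX : X ∈ Fil w (2 * e)
  · have c1 : W.a₁ * X + W.a₃ ∈ Fil w (3 * e) := add_mem (Fil.mul h1 hX (by omega)) h3
    have hY : Y ∈ Fil w (3 * e) := by
      by_contra hY
      obtain ⟨c2, c3, c4⟩ := ord_quad c1 hY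
      have c5 : Y * (Y + (W.a₁ * X + W.a₃)) ∈ Fil w (6 * e) := by
        rw [show Y * (Y + (W.a₁ * X + W.a₃)) = X ^ 3 + W.a₂ * X ^ 2 + W.a₄ * X + W.a₆ by
          linear_combination eq]
        exact add_mem (add_mem (add_mem (Fil.pow hX 3 (by push_cast; omega))
          (Fil.mul h2 (Fil.sq hX le_rfl) (by omega))) (Fil.mul h4 hX (by omega))) h6
      rw [mem_Fil_iff c2] at c5
      omega
    refine ⟨_, -e, hI, Fil.one (by omega), h1, ?_, zero_mem _, zero_mem _, zero_mem _, ?_, ?_⟩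
    · exact Fil.mono (add_mem h2 hX) (by omega)
    · exact Fil.mono c1 (by omega)
    · exact add_mem (add_mem (Fil.mono h4 (by omega)) (Fil.sq hX (by omega)))
        (Fil.mul h1 hY (by omega))
  · obtain ⟨x0, x1⟩ := not_mem_Fil.1 hX
    obtain ⟨T, hT⟩ : ∃ T, T = X⁻¹ := ⟨_, rfl⟩
    obtain ⟨u, rfl⟩ : ∃ u, Y = u * X := ⟨Y / X, by field_simp⟩
    have hTX : T * X = 1 := by rw [hT, inv_mul_cancel₀ x0]
    have mT : T ∈ Fil w (-ord w X) := mem_Fil_of_le (by rw [hT, ord_inv])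
    have eq2 : u * (u + (W.a₁ + W.a₃ * T)) = X + (W.a₂ + W.a₄ * T + W.a₆ * T ^ 2) := by
      rw [hT]
      field_simp
      linear_combination eq
    obtain ⟨c1, c2⟩ := ord_add (w := w) x0 (y := W.a₂ + W.a₄ * T + W.a₆ * T ^ 2)
      (add_mem (add_mem (Fil.mono h2 (by omega)) (Fil.mul h4 mT (by omega)))
        (Fil.mul h6 (Fil.sq mT le_rfl) (by omega)))
    have c3 : W.a₁ + W.a₃ * T ∈ Fil w e := add_mem h1 (Fil.mul h3 mT (by omega))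
    have hu : u ∉ Fil w e := fun hu => by
      have c4 : u * (u + (W.a₁ + W.a₃ * T)) ∈ Fil w (2 * e) :=
        Fil.mul hu (add_mem hu c3) (by omega)
      rw [eq2, mem_Fil_iff c1] at c4
      omega
    obtain ⟨-, c4, c5⟩ := ord_quad c3 hu
    rw [eq2, c2] at c4
    rw [c4] at mT
    have mu := mem_Fil_ord (w := w) u
    generalize ord w u = o at c5 mT mu
    obtain ⟨n, hn⟩ : ∃ n, n = T * (W.a₃ * u + W.a₄ + W.a₆ * T) := ⟨_, rfl⟩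
    have mn : n ∈ Fil w (3 * e - o) := by
      rw [hn]
      exact Fil.mul mT (add_mem (add_mem (Fil.mul h3 mu le_rfl) (Fil.mono h4 (by omega)))
        (Fil.mul h6 mT (by omega))) (by omega)
    have e1 : u ^ 2 + W.a₁ * u + (W.a₂ + X) = n := by
      rw [hn]
      clear * - eq2
      grind
    have e2 : ((mP W X (u * X)).lin 1 u 0 1).sh 0 u X = ⟨1, W.a₁, n, 0, u, W.a₂ + n,
        W.a₃ * T * (W.a₁ * u + W.a₂ + n) + T * u * (W.a₄ + W.a₆ * T), W.a₆ * T⟩ := by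
      ext <;> simp only [mP, QF.lin, QF.sh] <;> clear * - e1 hn hTX <;> grind
    refine ⟨_, o - 2 * e, (hI.un u).sh 0 u X, ?_⟩
    rw [e2]
    refine ⟨Fil.one (by omega), h1, Fil.mono mn (by omega), zero_mem _, Fil.mono mu (by omega),
      add_mem h2 (Fil.mono mn (by omega)), ?_, Fil.mul h6 mT (by omega)⟩
    exact add_mem (Fil.mul (Fil.mul h3 mT le_rfl) (add_mem (add_mem (Fil.mul h1 mu le_rfl)
      (Fil.mono h2 (by omega))) (Fil.mono mn (by omega))) (by omega))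
      (Fil.mul (Fil.mul mT mu le_rfl) (add_mem h4 (Fil.mul h6 mT (by omega))) (by omega))

lemma stepA' (L : PreLoc K) (h : Nd W P) (h1 : W.a₁ ∈ Fil L.w e) (h2 : W.a₂ ∈ Fil L.w (2 * e))
    (h3 : W.a₃ ∈ Fil L.w (3 * e)) (h4 : W.a₄ ∈ Fil L.w (4 * e)) (h6 : W.a₆ ∈ Fil L.w (6 * e))
    {s : K} (hs : s ∈ LL P (nA W)) (hs0 : s ≠ 0) :
    ∃ Φ : QF K, QF.Inv P (nA W) s W.a₁ Φ ∧ QF.Wt L.w e 0 Φ := by
  obtain ⟨Φ, j, hI, hW⟩ := stepA h h1 h2 h3 h4 h6 hs hs0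
  have hc : L.P.b ^ (-j) ≠ 0 := zpow_ne_zero _ L.P.b_ne
  refine ⟨Φ.dg (L.P.b ^ (-j)), ?_, ?_⟩
  · have := hI.act (M := Matrix.diagonal ![L.P.b ^ (-j), 1]) (by simpa using hc)
    rwa [QF.act_diagonal hc one_ne_zero, div_one] at this
  · have := hW.dg (L.P.b ^ (-j))
    rwa [L.ord_πz, add_neg_cancel] at this

lemma sh_twice (Φ : QF K) (r₀ r₁ r₂ : K) : (Φ.sh r₀ r₁ r₂).sh r₀ r₁ r₂ = Φ := by
  rw [QF.sh_sh, two_K, two_K, two_K, QF.sh_zero]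

variable {F : Type} [Field F] [CharP F 2] {L : PreLoc F} {L' : PreLoc K} {f : F →+* K}

lemma wt_of_map (h : IsCpl L L' f) {Φ : QF F} {j : ℤ} (hW : QF.Wt L'.w e j (Φ.map f)) :
    QF.Wt L.w e j Φ :=
  ⟨h.mem.1 hW.l, h.mem.1 hW.m, h.mem.1 hW.n, h.mem.1 hW.f₀, h.mem.1 hW.f₁, h.mem.1 hW.f₂,
    h.mem.1 hW.f₃, h.mem.1 hW.f₄⟩

lemma approx (h : IsCpl L L' f) {M : Matrix (Fin 2) (Fin 2) K} (hM : M.det ≠ 0) :
    ∃ (M' : Matrix (Fin 2) (Fin 2) F) (U : Matrix (Fin 2) (Fin 2) K), M'.map f = M * U ∧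
      (∀ i j, U i j ∈ Fil L'.w 0) ∧ U.det ≠ 0 ∧ ord L'.w U.det = 0 := by
  obtain ⟨b, hb⟩ := (Set.finite_range fun x : Fin 2 × Fin 2 => ord L'.w (M⁻¹ x.1 x.2)).bddBelow
  have hb' : ∀ i j, M⁻¹ i j ∈ Fil L'.w b := fun i j =>
    mem_Fil_of_le (hb (Set.mem_range_self (i, j)))
  choose y hy using fun i j => h.dense (M i j) (1 - b)
  obtain ⟨E, hE⟩ : ∃ E : Matrix (Fin 2) (Fin 2) K, E = M⁻¹ * (M - (Matrix.of y).map f) := ⟨_, rfl⟩
  have mE : ∀ i j, E i j ∈ Fil L'.w 1 := fun i j => by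
    rw [hE, Matrix.mul_apply, Fin.sum_univ_two]
    exact add_mem (Fil.mul (hb' i 0) (hy 0 j) (by omega)) (Fil.mul (hb' i 1) (hy 1 j) (by omega))
  have hd : (1 - E).det = 1 + (E 0 0 + E 1 1 + E 0 0 * E 1 1 + E 0 1 * E 1 0) := by
    rw [Matrix.det_fin_two]
    simp only [Matrix.sub_apply, Matrix.one_apply_eq, Matrix.one_apply_ne (zero_ne_one' (Fin 2)),
      Matrix.one_apply_ne (one_ne_zero' (Fin 2))]
    grind
  refine ⟨Matrix.of y, 1 - E, ?_, fun i j => ?_, ?_⟩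
  · rw [hE, Matrix.mul_sub, Matrix.mul_one, ← Matrix.mul_assoc,
      Matrix.mul_nonsing_inv _ (Ne.isUnit hM), Matrix.one_mul, sub_sub_cancel]
  · rw [Matrix.sub_apply]
    refine sub_mem ?_ (Fil.mono (mE i j) (by omega))
    rw [Matrix.one_apply]
    split_ifs
    · exact Fil.one le_rfl
    · exact zero_mem _
  · rw [hd]
    exact ord_one_add (add_mem (add_mem (add_mem (mE 0 0) (mE 1 1))
      (Fil.mul (mE 0 0) (mE 1 1) (by omega))) (Fil.mul (mE 0 1) (mE 1 0) (by omega)))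

end Loc

theorem locModel : LocModel := by
  intro F _ _ L C W P e s Φ hN h1 h2 h3 h4 h6 hs hs0 hI
  have hs' : C.f s ∈ LL (C.Q P) (nA (W.map C.f)) := by rw [nA_map]; exact hs
  obtain ⟨Φ₂, hI₂, hW⟩ := Loc.stepA' (e := e) C.L' (hN.map C.f (C.Q_b P)) (C.h.mem.2 h1)
    (C.h.mem.2 h2) (C.h.mem.2 h3) (C.h.mem.2 h4) (C.h.mem.2 h6) hs' ((map_ne_zero C.f).2 hs0)
  rw [nA_map] at hI₂
  obtain ⟨M, r₀, r₁, r₂, hM, e1⟩ := (hI.map C.f (C.Q_b P)).eqv hI₂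
  obtain ⟨M', U, e2, hU1, hU2, hU3⟩ := Loc.approx C.h hM
  have e3 : QF.act M (Φ.map C.f) = Φ₂.sh r₀ r₁ r₂ := by rw [e1, Loc.sh_twice]
  obtain ⟨s₀, s₁, s₂, e4⟩ := QF.act_sh U Φ₂ r₀ r₁ r₂
  obtain ⟨y₀, hy₀⟩ := C.h.dense s₀ e
  obtain ⟨y₁, hy₁⟩ := C.h.dense s₁ e
  obtain ⟨y₂, hy₂⟩ := C.h.dense s₂ e
  rw [CharTwo.sub_eq_add] at hy₀ hy₁ hy₂
  refine ⟨M', y₀, y₁, y₂, fun h0 => ?_, Loc.wt_of_map C.h ?_⟩
  · have e5 : (M'.map C.f).det = 0 := by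
      have := RingHom.map_det C.f M'
      rw [h0, map_zero] at this
      exact this.symm
    rw [e2, Matrix.det_mul] at e5
    exact mul_ne_zero hM hU2 e5
  · rw [QF.map_sh, QF.map_act, e2, QF.act_mul, e3, e4, QF.sh_sh]
    exact (hW.act hU1 hU3).sh (by simpa using hy₀) hy₁ (by simpa using hy₂)

end Pool.Agent.Lib.MP_a3f657_nt.Two
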