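import Pool.Agent.Lib.MP_a3f657_nt.C2QAlg
import Pool.Agent.Lib.MP_a3f657_nt.C2Ga

/-!
Integral models of nonzero Selmer elements.
-/

set_option linter.unusedSectionVars false

namespace Pool.Agent.Lib.MP_a3f657_nt.Two

open Polynomial

open scoped Classical

namespace Par

section alg

variable {K : Type} [Field K] [CharP K 2]

lemma exists_model (P : PB K) (A : K) {s m g₀ h₀ lam : K} (hm : m ≠ 0) (h0 : g₀ ≠ 0 ∨ h₀ ≠ 0)
    (e : s * (g₀ ^ 2 + P.b * h₀ ^ 2) + g₀ * h₀ = lam ^ 2) : ∃ Φ : QF K, QF.Inv P A s m Φ := by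
  obtain ⟨g, h, e1⟩ : ∃ g h : K, g₀ * h + g * h₀ = 1 := by
    rcases h0 with h0 | h0
    · exact ⟨0, g₀⁻¹, by simp [h0]⟩
    · exact ⟨h₀⁻¹, 0, by simp [h0]⟩
  obtain ⟨t, ht⟩ : ∃ t, t = s * (g ^ 2 + P.b * h ^ 2) + g * h := ⟨_, rfl⟩
  refine ⟨⟨m * lam, m, m * (t * lam),
    m ^ 2 * (g₀ ^ 2 + P.b * h₀ ^ 2 + (A + lam * (t * lam)) * lam ^ 2), 0,
    m ^ 2 * (A + lam * (t * lam)), 0,
    m ^ 2 * ((g + t * g₀) ^ 2 + P.b * (h + t * h₀) ^ 2 + (A + lam * (t * lam)) * (t * lam) ^ 2)⟩,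
    hm, rfl, ⟨g₀, h₀, g + t * g₀, h + t * h₀, by clear * - e1; grind, ?_, ?_, ?_, ?_⟩, 0, ?_⟩
  · simp only [QF.Ψ₀, QF.J]; clear * -; grind
  · simp only [QF.Ψ₄, QF.J]; clear * -; grind
  · rw [e, mul_pow]
  · have e2 : s * ((g + t * g₀) ^ 2 + P.b * (h + t * h₀) ^ 2) + (g + t * g₀) * (h + t * h₀) =
        (s * (g ^ 2 + P.b * h ^ 2) + g * h) + t ^ 2 * (s * (g₀ ^ 2 + P.b * h₀ ^ 2) + g₀ * h₀) +
          t * (g₀ * h + g * h₀) := by clear * -; grind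
    rw [e2, ← ht, e, e1]
    clear * -; grind
  · simp only [QF.J, wp_zero]; clear * -; grind

lemma glue {w : Valuation K (WithZero (Multiplicative ℤ))} {e : ℤ} {Φ : QF K}
    {M N : Matrix (Fin 2) (Fin 2) K} (hM : M.det ≠ 0) (h1 : ∀ i j, (M⁻¹ * N) i j ∈ Fil w 0)
    (h2 : ord w (M⁻¹ * N).det = 0) {r₀ r₁ r₂ : K} (h : QF.Wt w e 0 ((QF.act M Φ).sh r₀ r₁ r₂)) :
    ∃ s₀ s₁ s₂, QF.Wt w e 0 ((QF.act N Φ).sh s₀ s₁ s₂) := by
  obtain ⟨s₀, s₁, s₂, e1⟩ := QF.act_sh (M⁻¹ * N) (QF.act M Φ) r₀ r₁ r₂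
  have h3 := h.act h1 h2
  rw [e1, ← QF.act_mul, Matrix.mul_nonsing_inv_cancel_left _ _ hM.isUnit] at h3
  exact ⟨_, _, _, h3⟩

lemma eq_zero_of_sq {P : PB K} {A s m c : K} {Φ : QF K} (h : QF.Inv P A s m Φ) (hl : Φ.l = 0)
    (hf : Φ.f₀ = c ^ 2) : s = 0 := by
  obtain ⟨h0, hm, ⟨g₀, h₀, g₂, h₂, e1, e2, -, e4, -⟩, -⟩ := h
  have e5 : g₀ ^ 2 + P.b * h₀ ^ 2 = (c / m + Φ.f₁ / m ^ 2) ^ 2 + P.b * 0 ^ 2 :=
    mul_left_cancel₀ (pow_ne_zero 5 h0) (by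
      rw [← e2, QF.Ψ₀, hl, hf, hm, CharTwo.add_sq]
      field_simp
      ring)
  obtain rfl : h₀ = 0 := (P.uniq rfl).2.symm.trans (P.uniq e5).2
  have hg : g₀ ≠ 0 := by rintro rfl; simp at e1
  rw [hl] at e4
  simpa [h0, hg] using e4.symm

end alg

variable {k : Type} [Field k] [Finite k] [CharP k 2]

lemma exists_iso {P : PB (RatFunc k)} {A s : RatFunc k} (hs : s ∈ Sel P A) (h0 : s ≠ 0) :
    ∃ g₀ h₀ lam : RatFunc k, (g₀ ≠ 0 ∨ h₀ ≠ 0) ∧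
      s * (g₀ ^ 2 + P.b * h₀ ^ 2) + g₀ * h₀ = lam ^ 2 := by
  by_cases hz : ∃ z, z ^ 2 = s
  · obtain ⟨z, rfl⟩ := hz
    exact ⟨1, 0, z, Or.inl one_ne_zero, by simp⟩
  push Not at hz
  let S : Finset (Pl k) := insert none ((finite_poles s).toFinset ∪ (finite_poles s⁻¹).toFinset ∪
    (finite_poles (P.b * s ^ 2)).toFinset)
  have hS : ∀ v ∉ S, s ∈ Fil (val v) 0 ∧ s⁻¹ ∈ Fil (val v) 0 ∧ P.b * s ^ 2 ∈ Fil (val v) 0 :=
    fun v hv => by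
      simp only [S, Finset.mem_insert, Finset.mem_union, Set.Finite.mem_toFinset, Set.mem_ofPred_eq,
        not_or, not_not] at hv
      exact ⟨hv.2.1.1, hv.2.1.2, hv.2.2⟩
  obtain ⟨u, hu, -⟩ := exists_Ht (P := (PX k).change s hz) (S := S) (α := P.b * s ^ 2)
    (Finset.mem_insert_self _ _) (fun v hv => by
      have h1 := (mem_Fil_iff h0).1 (hS v hv).1
      have h2 := (mem_Fil_iff (inv_ne_zero h0)).1 (hS v hv).2.1
      rw [ord_inv] at h2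
      change ord (val v) s = 0
      omega) (mem_OS.2 fun v hv => (hS v hv).2.2) fun v _ => by
      have h1 := Cmp.alt (Cmp.bsq_mem_Lt.2 (mem_Sel.1 hs v))
      rw [zero_add, PreLoc.rho_dl] at h1
      exact h1
  obtain ⟨u', e⟩ : ∃ u', P.b * s ^ 2 + wp u = s * u' ^ 2 := ⟨_, PB.eq_b_sq _ (mem_Ht.1 hu)⟩
  refine ⟨u, s, s * u', Or.inr h0, ?_⟩
  rw [wp] at e
  linear_combination s * e

lemma finite_bad (Φ : QF (RatFunc k)) : {v : Pl k | ¬ QF.Wt (val v) 0 0 Φ}.Finite := by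
  refine ((((((((finite_poles Φ.l).union (finite_poles Φ.m)).union (finite_poles Φ.n)).union
    (finite_poles Φ.f₀)).union (finite_poles Φ.f₁)).union (finite_poles Φ.f₂)).union
    (finite_poles Φ.f₃)).union (finite_poles Φ.f₄)).subset fun v hv => ?_
  by_contra hn
  simp only [Set.mem_union, Set.mem_ofPred_eq, not_or, not_not] at hn
  obtain ⟨⟨⟨⟨⟨⟨⟨h1, h2⟩, h3⟩, h4⟩, h5⟩, h6⟩, h7⟩, h8⟩ := hn
  exact hv ⟨h1, h2, h3, h4, h5, h6, h7, h8⟩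

lemma exists_deg {x : RatFunc k} {c : ℤ} (n : ℕ) (h : ∀ u, x ∈ Fil (val (some u)) 0)
    (h' : x ∈ Fil (val none) c) (hc : -(n : ℤ) ≤ c) : ∃ a : k[X], ι a = x ∧ a.natDegree ≤ n := by
  obtain ⟨a, rfl⟩ := exists_poly h
  exact ⟨a, rfl, ι_mem_none.1 (Fil.mono h' hc)⟩

lemma exists_box {d j : ℕ} (hj : j ≤ d) {Ψ : QF (RatFunc k)}
    (h : ∀ u, QF.Wt (val (some u)) 0 0 Ψ) (h' : QF.Wt (val none) (-d) j Ψ) :
    ∃ Φ : QF k[X], BoxQ d j Φ ∧ Φ.map (algebraMap k[X] (RatFunc k)) = Ψ := by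
  obtain ⟨a1, e1, b1⟩ := exists_deg (d - j) (fun u => (h u).l) h'.l (by omega)
  obtain ⟨a2, e2, b2⟩ := exists_deg d (fun u => (h u).m) h'.m (by omega)
  obtain ⟨a3, e3, b3⟩ := exists_deg (d + j) (fun u => (h u).n) h'.n (by omega)
  obtain ⟨a4, e4, b4⟩ := exists_deg (2 * d - 2 * j) (fun u => (h u).f₀) h'.f₀ (by omega)
  obtain ⟨a5, e5, b5⟩ := exists_deg (2 * d - j) (fun u => (h u).f₁) h'.f₁ (by omega)
  obtain ⟨a6, e6, b6⟩ := exists_deg (2 * d) (fun u => (h u).f₂) h'.f₂ (by omega)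
  obtain ⟨a7, e7, b7⟩ := exists_deg (2 * d + j) (fun u => (h u).f₃) h'.f₃ (by omega)
  obtain ⟨a8, e8, b8⟩ := exists_deg (2 * d + 2 * j) (fun u => (h u).f₄) h'.f₄ (by omega)
  exact ⟨⟨a1, a2, a3, a4, a5, a6, a7, a8⟩, ⟨b1, b2, b3, b4, b5, b6, b7, b8⟩,
    QF.ext e1 e2 e3 e4 e5 e6 e7 e8⟩

lemma exists_patch {d j : ℕ} (hj : j ≤ d) {Ψ : QF (RatFunc k)}
    (h : ∀ u, ∃ r₀ r₁ r₂, QF.Wt (val (some u)) 0 0 (Ψ.sh r₀ r₁ r₂))
    (h' : ∃ r₀ r₁ r₂, QF.Wt (val none) (-d) j (Ψ.sh r₀ r₁ r₂)) :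
    ∃ r₀ r₁ r₂, (∀ u, QF.Wt (val (some u)) 0 0 (Ψ.sh r₀ r₁ r₂)) ∧
      QF.Wt (val none) (-d) j (Ψ.sh r₀ r₁ r₂) := by
  choose c₀ c₁ c₂ hc using h
  obtain ⟨b₀, b₁, b₂, hb⟩ := h'
  let S : Finset (Pl k) := insert none (finite_bad Ψ).toFinset
  obtain ⟨r₀, p₀, q₀⟩ := exists_principal S fun v => v.elim b₀ c₀
  obtain ⟨r₁, p₁, q₁⟩ := exists_principal S fun v => v.elim b₁ c₁
  obtain ⟨r₂, p₂, q₂⟩ := exists_principal S fun v => v.elim b₂ c₂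
  have e : ∀ x y : RatFunc k, x + (x - y) = y := fun x y => by grind
  have hS : none ∈ S := Finset.mem_insert_self _ _
  refine ⟨r₀, r₁, r₂, fun u => ?_, ?_⟩
  · by_cases hu : some u ∈ S
    · have := (hc u).sh (p₀ _ hu) (p₁ _ hu) (p₂ _ hu)
      simp only [Option.elim_some] at this
      rwa [QF.sh_sh, e, e, e] at this
    · have h1 : QF.Wt (val (some u)) 0 0 Ψ := by
        by_contra hn
        exact hu (Finset.mem_insert_of_mem (by simpa using hn))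
      exact h1.sh (q₀ _ hu) (q₁ _ hu) (q₂ _ hu)
  · have := hb.sh (Fil.mono (p₀ _ hS) (by omega)) (Fil.mono (p₁ _ hS) (by omega))
      (Fil.mono (p₂ _ hS) (by omega))
    simp only [Option.elim_none] at this
    rwa [QF.sh_sh, e, e, e] at this

lemma eq_zero_of_Fil_all {x : RatFunc k} (h : ∀ u, x ∈ Fil (val (some u)) 0)
    (h' : x ∈ Fil (val none) 1) : x = 0 := by
  obtain ⟨a, rfl⟩ := exists_poly h
  rw [eq_zero_of_none h', ι, map_zero]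

lemma large {d : ℕ} {j : ℤ} (hj : d < j) {Ψ : QF (RatFunc k)}
    (h : ∀ u, ∃ r₀ r₁ r₂, QF.Wt (val (some u)) 0 0 (Ψ.sh r₀ r₁ r₂))
    (h' : ∃ r₀ r₁ r₂, QF.Wt (val none) (-d) j (Ψ.sh r₀ r₁ r₂)) :
    Ψ.l = 0 ∧ ∃ c, Ψ.f₀ = c ^ 2 := by
  choose c₀ c₁ c₂ hc using h
  obtain ⟨b₀, b₁, b₂, hb⟩ := h'
  have hl : Ψ.l = 0 := eq_zero_of_Fil_all (fun u => (hc u).l) (Fil.mono hb.l (by omega))
  have key : ∀ (v : Pl k) (r : RatFunc k), Ψ.f₀ + r ^ 2 + Ψ.l * r ∈ Fil (val v) 0 →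
      (PX k).D Ψ.f₀ ∈ Fil (val v) (0 + eD v) := fun v r hr => by
    rw [hl, zero_mul, add_zero] at hr
    have h1 := PreLoc.D_mem (L := pl v) (c := 0) hr (by omega)
    rw [PB.D_add, PB.D_sq, add_zero] at h1
    rw [D_eq v, mul_D_mem]
    exact h1
  exact ⟨hl, _, (PX k).D_eq_zero (eq_zero_of_Fil_all (fun u => key _ _ (hc u).f₀)
    (Fil.mono (key none _ (Fil.mono hb.f₀ (by omega))) (by simp [eD])))⟩

end Par

open Par in
theorem param (h1 : Birk) (h2 : LocModel) : Param := by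
  intro k _ _ _ d a P s hd hP hs h0
  obtain ⟨g₀, h₀, lam, e1, e2⟩ := exists_iso hs h0
  obtain ⟨Φ, hΦ⟩ := exists_model P (nA (bc a)) hP.a1 e1 e2
  let S : Finset (Pl k) := insert none (finite_bad Φ).toFinset
  have h3 : ∀ v : Pl k, ∃ (M : Matrix (Fin 2) (Fin 2) (RatFunc k)) (r₀ r₁ r₂ : RatFunc k),
      M.det ≠ 0 ∧ QF.Wt (val v) (v.elim (-(d : ℤ)) fun _ => 0) 0 ((QF.act M Φ).sh r₀ r₁ r₂) ∧
        (v ∉ S → M = 1) := fun v => by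
    by_cases hv : v ∈ S
    · obtain ⟨M, r₀, r₁, r₂, h4, h5⟩ := h2 _ (pl v) (cmp v) (bc a) P (v.elim (-(d : ℤ)) fun _ => 0)
        s Φ hP (by
          cases v
          exacts [ι_mem_none.2 hd.1, ι_int _ _]) (by
          cases v
          exacts [Fil.mono (ι_mem_none.2 hd.2.1) (by simp), ι_int _ _]) (by
          cases v
          exacts [Fil.mono (ι_mem_none.2 hd.2.2.1) (by simp), ι_int _ _]) (by
          cases v
          exacts [Fil.mono (ι_mem_none.2 hd.2.2.2.1) (by simp), ι_int _ _]) (by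
          cases v
          exacts [Fil.mono (ι_mem_none.2 hd.2.2.2.2) (by simp), ι_int _ _])
        (mem_Sel.1 hs v) h0 hΦ
      exact ⟨M, r₀, r₁, r₂, h4, h5, fun h => absurd hv h⟩
    · refine ⟨1, 0, 0, 0, by simp, ?_, fun _ => rfl⟩
      rw [QF.act_one, QF.sh_zero]
      rcases v with _ | v
      · exact absurd (Finset.mem_insert_self _ _) hv
      · by_contra hn
        exact hv (Finset.mem_insert_of_mem (by simpa using hn))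
  choose M r₀ r₁ r₂ h4 h5 h6 using h3
  obtain ⟨N, x, y, hxy, h7, h8⟩ := h1 k S M h4 h6
  have hN : N.det ≠ 0 := fun e => h8.2.1 (by simp [e])
  have hΨ := hΦ.act hN
  have h9 : ∀ u, ∃ s₀ s₁ s₂, QF.Wt (val (some u)) 0 0 ((QF.act N Φ).sh s₀ s₁ s₂) := fun u =>
    glue (h4 _) (h7 u).1 (h7 u).2.2 (h5 (some u))
  have h10 : ∃ s₀ s₁ s₂, QF.Wt (val none) (-d) (y - x) ((QF.act N Φ).sh s₀ s₁ s₂) := by
    rw [Matrix.mul_assoc] at h8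
    obtain ⟨s₀, s₁, s₂, h11⟩ := glue (h4 _) h8.1 h8.2.2 (h5 none)
    have hX : ∀ n : ℤ, (RatFunc.X : RatFunc k) ^ n ≠ 0 := fun n => zpow_ne_zero n RatFunc.X_ne_zero
    have hc := div_ne_zero (hX y) (hX x)
    have h12 := h11.dg (RatFunc.X ^ y / RatFunc.X ^ x)⁻¹
    rw [QF.act_mul, QF.act_diagonal (hX y) (hX x), QF.dg_sh (inv_ne_zero hc), QF.dg_dg hc, ord_inv,
      ord_div (hX y) (hX x), ord_zpow, ord_zpow, ord_X,
      show (0 : ℤ) + -(y * -1 - x * -1) = y - x by ring] at h12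
    exact ⟨_, _, _, h12⟩
  by_cases hj : y - x ≤ d
  · obtain ⟨j, hj'⟩ : ∃ j : ℕ, y - x = j := ⟨(y - x).toNat, by omega⟩
    rw [hj'] at h10
    obtain ⟨s₀, s₁, s₂, h11, h12⟩ := exists_patch (j := j) (by omega) h9 h10
    obtain ⟨Θ, h13, h14⟩ := exists_box (j := j) (by omega) h11 h12
    exact ⟨j, by omega, Θ, h13, h14 ▸ hΨ.sh s₀ s₁ s₂⟩
  · obtain ⟨h11, c, h12⟩ := large (by omega) h9 h10
    exact absurd (eq_zero_of_sq hΨ h11 h12) h0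

end Pool.Agent.Lib.MP_a3f657_nt.Two
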