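import Pool.Agent.Lib.MP_a3f657_nt.C2Sum
import Pool.Agent.Lib.MP_a3f657_nt.C2QLow

/-!
The lower bound for the first moment on a cell.
-/

set_option linter.unusedSectionVars false

namespace Pool.Agent.Lib.MP_a3f657_nt.Two

open Polynomial IsDedekindDomain UniqueFactorizationMonoid

open scoped Classical

variable {k : Type} [Field k] [Fintype k] [CharP k 2] {T β d : ℕ} {a : WeierstrassCurve k[X]}
  {M : k[X]} {f : k[X] × k[X] → k[X]} {t : k[X] × k[X]}

lemma GoodT.card_C0 (h : GoodT T β d a) (hd : DegLE a d) : Nat.card (h.dat hd).C0 ≤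
    Fintype.card k ^ ((84 * β + 2) * ((PiT k T).natDegree + 1) + 1) := by
  have h0 : PiT k T ^ (84 * β + 2) ≠ 0 := pow_ne_zero _ PiT_ne
  have key : ∀ c : (h.dat hd).C0, ∃ n ∈ Bad.PL k ((84 * β + 2) * ((PiT k T).natDegree + 1) + 1),
      ι n = c.1 * ι (PiT k T ^ (84 * β + 2)) := fun c => by
    have h1 : ∀ v, wp c.1 ∈ Fil (val v) ((h.dat hd).lev v) := (Dat.mem_V.1 c.2).2
    have h2 : ∀ v ∈ (h.dat hd).Sg, c.1 ∈ Fil (val v) (-(84 * β + 2)) := fun v hv =>
      Fil.of_wp (h1 v) (by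
        rw [Dat.lev_Sg hv]; change _ ≤ -(7 * (12 * (β : ℤ)) + 2) + 1; omega) (by omega)
    obtain ⟨n, hn⟩ := exists_poly (x := c.1 * ι (PiT k T ^ (84 * β + 2))) fun u => by
      by_cases h3 : some u ∈ (h.dat hd).Sg
      · exact Fil.mul (h2 _ h3) (PiT_pow_mem (mem_SgT.1 h3) dvd_rfl) (by omega)
      refine Fil.mul (Fil.of_wp (c := 0) (h1 _) ?_ le_rfl) (ι_int u _) le_rfl
      by_cases h4 : some u ∈ (h.dat hd).S1
      · rw [Dat.lev_S1 h4]; rfl
      · rw [Dat.lev_zero h3 h4]; omega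
    refine ⟨n, Bad.mem_PL_succ.2 (ι_mem_none.1 (hn ▸ Fil.mul (h2 _ (h.dat hd).inf)
      (ι_mem_none_self _) ?_)), hn⟩
    rw [natDegree_pow]
    push_cast
    linarith
  choose n hn hn' using key
  refine (Nat.card_le_card_of_injective (fun c => (⟨n c, hn c⟩ : Bad.PL k _)) fun c c' e =>
    Subtype.ext (mul_right_cancel₀ (ι_ne h0) ?_)).trans_eq (by
      rw [Nat.card_eq_finsetCard, Bad.card_PL])
  rw [← hn', ← hn', Subtype.mk.inj e]

lemma GoodT.le_card_V (h : GoodT T β d a) (hd : DegLE a d) (hN : GoodN T a)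
    (hd0 : β * (PiT k T).natDegree + β + 1 ≤ d) :
    Fintype.card k ^ (d - (β * (PiT k T).natDegree + β)) ≤ Nat.card (h.dat hd).V := by
  have := (h.card_V (hd := hd)).1
  rw [← Bad.card_PL, ← Nat.card_eq_finsetCard]
  refine Nat.card_le_card_of_injective (fun z => ⟨_, (h.mem_V0 (hd := hd) (z := z.1) (by
    have h1 := h.2.2.1
    rcases Bad.mem_PL_iff.1 z.2 with h2 | h2
    · rw [h2, natDegree_zero]; omega
    · omega) hN).2⟩) fun z z' e => Subtype.ext (mul_left_cancel₀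
      (pow_ne_zero β (PiT_ne (T := T))) (ι_inj ?_))
  exact (div_left_inj' (ι_ne h.1)).1 (Subtype.mk.inj e)

lemma CellA.card_F (hC : CellA T β d a M f) (ht : t ∈ cell T β d a) :
    (normalizedFactors (f t)).toFinset.card * (T + 1) ≤ 12 * d := by
  have h0 := (hC.mon t ht).ne_zero
  obtain ⟨g, -, h1⟩ := hC.fac t ht
  have h2 : ∏ p ∈ (normalizedFactors (f t)).toFinset, p ∣ (shift T β a t).Δ :=
    ((Multiset.toFinset_prod_dvd_prod _).trans (prod_normalizedFactors h0).dvd).trans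
      (h1 ▸ dvd_mul_left _ _)
  refine le_trans ?_ ((natDegree_le_of_dvd h2 (hC.good t ht).2.Δ_ne).trans (hC.good t ht).1.Δ)
  rw [natDegree_prod _ _ fun p hp => (hC.goodP ht p hp).1.ne_zero, ← smul_eq_mul]
  refine Finset.card_nsmul_le_sum _ _ _ fun p hp => ?_
  obtain ⟨h3, h4, h5⟩ := hC.goodP ht p hp
  exact not_le.1 fun e => h5 ((hC.dvdM p h3 h4).2 (.inl e))

lemma CellA.nonempty_F (hC : CellA T β d a M f) (ht : t ∈ cell T β d a)
    (hd : (NT k T β).natDegree + β ≤ d) : (normalizedFactors (f t)).toFinset.Nonempty := by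
  obtain ⟨g, h1, h2⟩ := hC.fac t ht
  have h3 := natDegree_le_of_dvd h1 (pow_ne_zero _ PiT_ne)
  have h4 := (hC.good t ht).2.2.2.2.1
  have h5 := natDegree_derivative_le (shift T β a t).Δ
  have h6 := natDegree_mul_le (p := g) (q := f t)
  rw [← h2] at h6
  obtain ⟨p, hp⟩ := exists_mem_normalizedFactors (hC.mon t ht).ne_zero fun e => by
    have := natDegree_eq_zero_of_isUnit e
    omega
  exact ⟨p, Multiset.mem_toFinset.2 hp⟩

theorem cell_low (hA : CellAn) (k : Type) [Field k] [Fintype k] [CharP k 2] :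
    ∃ T₀ : ℕ, ∀ T, T₀ ≤ T → ∀ (β : ℕ) (ε : ℝ), 0 < ε → ∀ᶠ d : ℕ in Filter.atTop,
      ∀ a : WeierstrassCurve k[X], DegLE a d → GoodT T β d a → GoodN T a → ∀ e : ZMod 2,
        -(ε * (cell T β d a).card) ≤ ∑ t ∈ cell T β d a with GoodQ T (shift T β a t),
          (ind e (bc (shift T β a t)) * selOrder (bc (shift T β a t)) - 3 / 2) := by
  obtain ⟨T₀, hT⟩ := hA k
  obtain ⟨T₁, hT'⟩ := cell_est hA k
  refine ⟨max (max T₀ T₁) 23, fun T hT₀ β ε hε => ?_⟩
  simp only [max_le_iff] at hT₀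
  set q : ℝ := (Fintype.card k : ℝ)
  have hq : 0 < q := Bad.q_pos
  have hq2 : 2 ≤ q := Bad.two_le_q
  set c := q ^ ((84 * β + 2) * ((PiT k T).natDegree + 1) + 1)
  have hc : 0 < c := by positivity
  set η := ε / (c + 4)
  have hη : 0 < η := by positivity
  set b := β * (PiT k T).natDegree + β
  obtain ⟨n, hn⟩ := pow_unbounded_of_one_lt (c * q ^ b / η) (one_lt_two (α := ℝ))
  filter_upwards [hT T hT₀.1.1 β η hη, hT' T hT₀.1.2 β η hη, Filter.eventually_ge_atTop (b + 1),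
    Filter.eventually_ge_atTop ((NT k T β).natDegree + β), Filter.eventually_ge_atTop (2 * n)]
    with d H H' hd0 hd1 hd2 a hd h hN e
  obtain ⟨M, f, hC, -, A2, -⟩ := H a hd h hN
  have B1 := ((H' a hd h hN).2 e).1
  set D := h.dat hd
  have := (h.card_V (hd := hd)).1
  have : Fintype D.V := Fintype.ofFinite _
  set F := fun t => (normalizedFactors (f t)).toFinset
  set c0 : ℝ := (Nat.card D.C0 : ℝ)
  set v : ℝ := (Nat.card D.V : ℝ)
  have hv0 : 0 < v := Nat.cast_pos.2 Nat.card_pos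
  have hc0 : 1 ≤ c0 := by
    have h1 := card_E (D := D)
    have h2 : 0 < (Finset.univ.filter fun α : D.V => α.1 ∈ wpH.range).card :=
      Finset.card_pos.2 ⟨0, Finset.mem_filter.2 ⟨Finset.mem_univ _, zero_mem _⟩⟩
    exact Nat.one_le_cast.2 (by omega)
  have key : ∀ t ∈ cell T β d a, Squarefree (f t) → (∃ r, selOrder (bc (shift T β a t)) = 2 ^ r ∧
      (-1 : ℝ) ^ r = D.sign * ∏ _ ∈ F t, (-1)) ∧
      ∑ x : D.V × D.V with ¬ Exc x.1.1 x.2.1, Tm D (F t) x.1 x.2 + (3 - η) * (c0 * v) ≤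
        (selOrder (bc (shift T β a t)) : ℝ) * (c0 * v) := fun t ht hQ => by
    obtain ⟨P, hP⟩ := exists_nd (hC.good t ht).2.1 (hC.good t ht).2.2.1
    have hF : ∀ p ∈ F t, p.Monic ∧ Irreducible p := fun p hp =>
      ⟨(hC.goodP ht p hp).1, (hC.goodP ht p hp).2.1⟩
    have h1 := hC.cfg h hd hN ht hQ hP
    rw [selOrder_eq' hP, Finset.prod_const, ← Finset.card_image_of_injOn (plc_inj hF)]
    refine ⟨h1.parity, le_trans ?_ (h1.mom_ge hF (hC.nonempty_F ht hd1))⟩
    have h2 : c0 ≤ c := by simp only [c0, c, q]; exact_mod_cast h.card_C0 hd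
    have h3 : q ^ (d - b) ≤ v := by simp only [v, q]; exact_mod_cast h.le_card_V hd hN hd0
    have h4 : (F t).card + n ≤ d := by
      have := (Nat.mul_le_mul_left _ (Nat.succ_le_succ hT₀.2)).trans (hC.card_F ht)
      simp only [F]
      omega
    have h5 : 2 ^ (F t).card * 2 ^ n ≤ q ^ (d - b) * q ^ b := by
      rw [← pow_add, ← pow_add, Nat.sub_add_cancel (by omega)]
      exact (pow_le_pow_right₀ one_le_two h4).trans (pow_le_pow_left₀ zero_le_two hq2 d)
    rw [div_lt_iff₀ hη] at hn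
    have h6 : c * 2 ^ (F t).card ≤ η * v := le_of_mul_le_mul_right (by
      calc c * 2 ^ (F t).card * q ^ b = c * q ^ b * 2 ^ (F t).card := by ring
        _ ≤ 2 ^ n * η * 2 ^ (F t).card := by gcongr
        _ = η * (2 ^ (F t).card * 2 ^ n) := by ring
        _ ≤ η * (v * q ^ b) := mul_le_mul_of_nonneg_left (h5.trans (by gcongr)) hη.le
        _ = _ := by ring) (pow_pos hq b)
    have h7 : c0 * 2 ^ (F t).card ≤ η * v := le_trans (by gcongr) h6
    have h8 : (0 : ℝ) ≤ c0 * (c0 * 2 ^ (F t).card) := by positivity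
    nlinarith [mul_le_mul_of_nonneg_left h7 (zero_le_one.trans hc0)]
  rw [hC.filter_eq] at B1 ⊢
  set G := (cell T β d a).filter fun t => Squarefree (f t)
  set N : ℝ := ((cell T β d a).card : ℝ)
  have hN0 : 0 ≤ η * N := by positivity
  have hε' : ε * N = (c + 4) * (η * N) := by
    simp only [η]
    field_simp
  set s := sr e * D.sign
  have hs : |s| = 1 := by rw [abs_mul, abs_sr, abs_sign, one_mul]
  have hi : ∀ t ∈ G, ind e (bc (shift T β a t)) = (1 + s * ∏ _ ∈ F t, (-1)) / 2 := fun t ht => by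
    obtain ⟨r, h1, h2⟩ := (key t (Finset.mem_filter.1 ht).1 (Finset.mem_filter.1 ht).2).1
    rw [ind_eq h1, h2, mul_assoc]
  have hi0 : ∀ t, 0 ≤ ind e (bc (shift T β a t)) ∧ ind e (bc (shift T β a t)) ≤ 1 := fun t => by
    unfold ind
    split_ifs <;> simp
  have hv : v ≤ q ^ d * c := by
    rw [← pow_add, ← add_assoc]
    simp only [v, q]
    exact_mod_cast (h.card_V (hd := hd)).2
  have B2 : ∀ x : D.V × D.V, ¬ Exc x.1.1 x.2.1 →
      |∑ t ∈ G, ind e (bc (shift T β a t)) * Tm D (F t) x.1 x.2| * q ^ d ≤ η * N := fun x hx => by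
    have hG : PiT k T ^ (84 * β + 2) * a.a₁ ∣ M :=
      (mul_dvd_mul_right (pow_dvd_pow _ (by unfold RR; omega)) _).trans hC.bigM
    obtain ⟨h1, h2⟩ := h.nm_spec hG x.1.2
    obtain ⟨h3, h4⟩ := h.nm_spec hG x.2.2
    simp only [Exc, not_or] at hx
    have h5 := fun e he => A2 _ _ e he (h2.trans (by unfold RR; omega))
      (h4.trans (by unfold RR; omega)) (notWp hC.M0 h1 hx.1) (notWp hC.M0 h3 hx.2.1)
      (notWp hC.M0 (by rw [ι, map_add, add_mul, ← h1, ← h3]) hx.2.2)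
    have h6 := h5 1 (.inl rfl)
    have h7 := h5 (-1) (.inr rfl)
    rw [← hC.abs_sum (g := gR x.1 x.2) fun p hp => by rw [gK_eq hp h1 h3, one_mul]] at h6
    rw [← hC.abs_sum (g := fun p => -1 * gR x.1 x.2 p) fun p hp => by
      rw [gK_eq hp h1 h3]; simp] at h7
    rw [Finset.sum_congr rfl fun t ht => show _ = sr (D.CC x.1 x.2) / 2 * (∏ p ∈ F t, gR x.1 x.2 p +
      s * ∏ p ∈ F t, (-1 * gR x.1 x.2 p)) by rw [hi t ht, Tm, Finset.prod_mul_distrib]; ring,
      ← Finset.mul_sum, Finset.sum_add_distrib, ← Finset.mul_sum, abs_mul, abs_div, abs_sr, abs_two]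
    have h8 := abs_add_le (∑ t ∈ G, ∏ p ∈ F t, gR x.1 x.2 p)
      (s * ∑ t ∈ G, ∏ p ∈ F t, (-1 * gR x.1.1 x.2.1 p))
    rw [abs_mul, hs, one_mul] at h8
    nlinarith [mul_le_mul_of_nonneg_right h8 (pow_pos hq d).le]
  have B3 : |∑ t ∈ G, ind e (bc (shift T β a t)) *
      ∑ x : D.V × D.V with ¬ Exc x.1.1 x.2.1, Tm D (F t) x.1 x.2| ≤ c * (η * N) * (c0 * v) := by
    simp only [Finset.mul_sum]
    rw [Finset.sum_comm]
    refine (Finset.abs_sum_le_sum_abs _ _).trans ((Finset.sum_le_card_nsmul _ _ (η * N / q ^ d)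
      fun x hx => (le_div_iff₀ (pow_pos hq d)).2 (B2 x (Finset.mem_filter.1 hx).2)).trans ?_)
    have h1 : ((Finset.univ.filter fun x : D.V × D.V => ¬ Exc x.1.1 x.2.1).card : ℝ) ≤ v * v := by
      simp only [v, Nat.card_eq_fintype_card]
      exact_mod_cast (Finset.card_le_univ _).trans_eq (Fintype.card_prod _ _)
    rw [nsmul_eq_mul]
    calc _ ≤ (q ^ d * c) * (c0 * v) * (η * N / q ^ d) := by
          gcongr
          exact h1.trans (by gcongr; nlinarith)
      _ = _ := by field_simp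
  have B4 : (G.card : ℝ) ≤ N := Nat.cast_le.2 (Finset.card_filter_le _ _)
  have B5 : ∑ t ∈ G, (ind e (bc (shift T β a t)) *
        ∑ x : D.V × D.V with ¬ Exc x.1.1 x.2.1, Tm D (F t) x.1 x.2 +
        (3 * (ind e (bc (shift T β a t)) - 1 / 2) - η) * (c0 * v)) ≤
      ∑ t ∈ G, (ind e (bc (shift T β a t)) * selOrder (bc (shift T β a t)) - 3 / 2) * (c0 * v) :=
    Finset.sum_le_sum fun t ht => by
      have h1 := (key t (Finset.mem_filter.1 ht).1 (Finset.mem_filter.1 ht).2).2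
      have h2 : 0 ≤ η * (c0 * v) := by positivity
      nlinarith [mul_le_mul_of_nonneg_left h1 (hi0 t).1, mul_le_mul_of_nonneg_right (hi0 t).2 h2]
  rw [Finset.sum_add_distrib, ← Finset.sum_mul, ← Finset.sum_mul, Finset.sum_sub_distrib,
    ← Finset.mul_sum, Finset.sum_const, nsmul_eq_mul] at B5
  refine le_of_mul_le_mul_right (le_trans ?_ B5) (by positivity : 0 < c0 * v)
  have B6 := (abs_le.1 B1).1
  have B7 := (abs_le.1 B3).1
  have B8 : -(4 * (η * N)) ≤ 3 * ∑ t ∈ G, (ind e (bc (shift T β a t)) - 1 / 2) - G.card * η := by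
    nlinarith
  rw [hε']
  linarith [mul_le_mul_of_nonneg_right B8 (by positivity : 0 ≤ c0 * v)]

end Pool.Agent.Lib.MP_a3f657_nt.Two
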