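import Pool.Agent.Lib.MP_a3f657_nt.C2QAlg
import Pool.Agent.Lib.MP_a3f657_nt.C2HtCount
import Pool.Agent.Lib.MP_a3f657_nt.C2BadMain

/-!
The tail estimate, by counting integral models in two ways.
-/

set_option linter.unusedSectionVars false

namespace Pool.Agent.Lib.MP_a3f657_nt.Two

open Polynomial Filter IsDedekindDomain

open scoped Classical

namespace TailAux

lemma sum_le_ncard {α β : Type} {U : Set (α × β)} (hU : U.Finite) (S : Finset α) (f : α → ℕ)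
    (h : ∀ a ∈ S, f a ≤ {x ∈ U | x.1 = a}.ncard) : ∑ a ∈ S, f a ≤ U.ncard := by
  lift U to Finset (α × β) using hU
  refine (Finset.sum_le_sum h).trans ?_
  have : ∀ a, {x ∈ (U : Set (α × β)) | x.1 = a}.ncard = (U.filter fun x => x.1 = a).card :=
    fun a => by rw [← Set.ncard_coe_finset, Finset.coe_filter]; rfl
  simp only [this]
  rw [Set.ncard_coe_finset]
  exact (Finset.sum_card_fiberwise_eq_card_filter U S Prod.fst).trans_le (Finset.card_filter_le _ _)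

lemma sum_split (f : ℕ → ℝ) {a C : ℝ} {n m : ℕ} (hC : 0 ≤ C) (hn : n ≤ m)
    (h1 : ∀ j < n, f j ≤ a) (h2 : ∀ j < m, f j ≤ C * (1 / 2) ^ (j + 1)) :
    ∑ j ∈ Finset.range m, f j ≤ n * a + C * (1 / 2) ^ n := by
  have : ∑ j ∈ Finset.range m, f j ≤ n * a + C * ((1 / 2) ^ n - (1 / 2) ^ m) := by
    induction m, hn using Nat.le_induction with
    | base =>
      have := Finset.sum_le_card_nsmul (Finset.range n) f a fun j hj => h1 j (Finset.mem_range.1 hj)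
      simpa using this
    | succ m hm ih =>
      rw [Finset.sum_range_succ]
      have e1 := ih fun j hj => h2 j (by omega)
      have e2 := h2 m (by omega)
      rw [pow_succ] at e2 ⊢
      linarith
  have e : 0 ≤ C * (1 / 2 : ℝ) ^ m := by positivity
  linarith

lemma exists_trn_field {K : Type} [Field K] [CharP K 2] {W W' : WeierstrassCurve K} {c : K}
    (h0 : W.a₁ ≠ 0) (h1 : W'.a₁ = W.a₁) (h2 : W'.Δ = W.Δ) (h3 : nA W' = nA W + wp c) :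
    ∃ r s t, W' = trn r s t W := by
  obtain ⟨r, hr⟩ : ∃ r, r * W.a₁ = W.a₃ + W'.a₃ := ⟨_, div_mul_cancel₀ _ h0⟩
  obtain ⟨t, ht⟩ : ∃ t, t * W.a₁ =
      W.a₄ + W'.a₄ + c * W.a₁ * W.a₃ + r * (c * W.a₁) * W.a₁ + r * r := ⟨_, div_mul_cancel₀ _ h0⟩
  have e1 : W'.a₁ = (trn r (c * W.a₁) t W).a₁ := by rw [tr_a₁, h1]
  have e3 : W'.a₃ = (trn r (c * W.a₁) t W).a₃ := by rw [tr_a₃, hr]; grind
  have e4 : W'.a₄ = (trn r (c * W.a₁) t W).a₄ := by rw [tr_a₄, add_mul, ht]; grind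
  have e2 : W'.a₂ = (trn r (c * W.a₁) t W).a₂ := by
    rw [tr_a₂]
    rw [nA, nA, h1, wp, div_add' _ _ _ (pow_ne_zero 3 h0), div_left_inj' (pow_ne_zero 3 h0)] at h3
    refine mul_left_cancel₀ h0 ?_
    clear * - h3 hr
    grind
  refine ⟨r, c * W.a₁, t, WeierstrassCurve.ext e1 e2 e3 e4 ?_⟩
  rw [← tr_Δ r (c * W.a₁) t W, disc_eq, disc_eq, ← e1, ← e2, ← e3, ← e4] at h2
  refine mul_left_cancel₀ (pow_ne_zero 6 (h1 ▸ h0 : W'.a₁ ≠ 0)) ?_
  linear_combination h2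

variable {k : Type} [Field k]

lemma dmul {p q : k[X]} {a b n : ℕ} (hp : p.natDegree ≤ a) (hq : q.natDegree ≤ b) (h : a + b ≤ n) :
    (p * q).natDegree ≤ n := natDegree_mul_le.trans ((add_le_add hp hq).trans h)

lemma dpow {p : k[X]} {a : ℕ} (hp : p.natDegree ≤ a) (e : ℕ) : (p ^ e).natDegree ≤ e * a :=
  natDegree_pow_le.trans (Nat.mul_le_mul_left e hp)

lemma dadd {p q : k[X]} {n : ℕ} (hp : p.natDegree ≤ n) (hq : q.natDegree ≤ n) :
    (p + q).natDegree ≤ n := natDegree_add_le_of_degree_le hp hq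

lemma box_lin {d j : ℕ} (hj : j ≤ d) {Φ : QF k[X]} (h : BoxQ d j Φ) {β : k[X]}
    (hβ : β.natDegree ≤ j) : BoxQ d j (Φ.lin 1 β 0 1) := by
  obtain ⟨a1, a2, a3, a4, a5, a6, a7, a8⟩ := h
  have : Φ.lin 1 β 0 1 = ⟨Φ.l, Φ.m, Φ.l * β ^ 2 + Φ.m * β + Φ.n, Φ.f₀, Φ.f₁, Φ.f₁ * β + Φ.f₂,
      Φ.f₁ * β ^ 2 + Φ.f₃, Φ.f₀ * β ^ 4 + Φ.f₁ * β ^ 3 + Φ.f₂ * β ^ 2 + Φ.f₃ * β + Φ.f₄⟩ := by
    simp [QF.lin]
  rw [this]
  exact ⟨a1, a2, dadd (dadd (dmul a1 (dpow hβ 2) (by omega)) (dmul a2 hβ le_rfl)) a3, a4, a5,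
    dadd (dmul a5 hβ (by omega)) a6, dadd (dmul a5 (dpow hβ 2) (by omega)) a7,
    dadd (dadd (dadd (dadd (dmul a4 (dpow hβ 4) (by omega)) (dmul a5 (dpow hβ 3) (by omega)))
      (dmul a6 (dpow hβ 2) (by omega))) (dmul a7 hβ (by omega))) a8⟩

lemma box_sh {d j : ℕ} (hj : j ≤ d) {Φ : QF k[X]} (h : BoxQ d j Φ) {r₀ r₁ r₂ : k[X]}
    (h0 : r₀.natDegree ≤ d - j) (h1 : r₁.natDegree ≤ d) (h2 : r₂.natDegree ≤ d + j) :
    BoxQ d j (Φ.sh r₀ r₁ r₂) := by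
  obtain ⟨a1, a2, a3, a4, a5, a6, a7, a8⟩ := h
  exact ⟨a1, a2, a3, dadd (dadd a4 ((dpow h0 2).trans (by omega))) (dmul a1 h0 (by omega)),
    dadd (dadd a5 (dmul a1 h1 (by omega))) (dmul a2 h0 (by omega)),
    dadd (dadd (dadd (dadd a6 (dpow h1 2)) (dmul a1 h2 (by omega))) (dmul a2 h1 (by omega)))
      (dmul a3 h0 (by omega)),
    dadd (dadd a7 (dmul a2 h2 (by omega))) (dmul a3 h1 (by omega)),
    dadd (dadd a8 ((dpow h2 2).trans (by omega))) (dmul a3 h2 (by omega))⟩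

lemma goodI_mono {T β β' d : ℕ} {m Δ : k[X]} (h : GoodI T β d m Δ) (hβ : β ≤ β') :
    GoodI T β' d m Δ :=
  ⟨h.1, h.2.1, by have := h.2.2.1; omega, by have := h.2.2.2.1; omega, fun p p1 p2 p3 =>
    ⟨fun c => (h.2.2.2.2.1 p p1 p2 p3).1 ((pow_dvd_pow p hβ).trans c),
      fun c => (h.2.2.2.2.1 p p1 p2 p3).2 ((pow_dvd_pow p hβ).trans c)⟩, h.2.2.2.2.2⟩

variable [CharP k 2]

lemma good_of_goodI {T β d : ℕ} {a : WeierstrassCurve k[X]} (h : GoodI T β d a.a₁ a.Δ) :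
    GoodT T β d a ∧ GoodN T a ∧ GoodQ T a := by
  obtain ⟨a1, a2, a3, a4, a5, a6⟩ := h
  refine ⟨⟨a1, a2, a3, a4, a5⟩, fun p p1 p2 p3 p4 => ⟨fun p5 => (a6 p p1 p2 p3).2.2 ⟨p4, ?_⟩,
    (a6 p p1 p2 p3).2.1⟩, fun p p1 p2 p3 => (a6 p p1 p2 p3).1⟩
  rw [Bad.disc]
  exact dvd_add (dvd_add ((dvd_pow p4 (by norm_num)).mul_right _) (dvd_pow p5 (by norm_num)))
    ((dvd_pow p4 (by norm_num)).mul_right _)

/-- The orbit map. -/
noncomputable def orb (Φ : QF k[X]) (y : k[X] × k[X] × k[X] × k[X]) : QF k[X] :=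
  (Φ.lin 1 y.1 0 1).sh y.2.1 y.2.2.1 y.2.2.2

lemma orb_fibre {Φ : QF k[X]} (h0 : Φ.m ≠ 0) (Y : Set (k[X] × k[X] × k[X] × k[X]))
    (y : k[X] × k[X] × k[X] × k[X]) : {y' ∈ Y | orb Φ y' = orb Φ y}.ncard ≤ 4 := by
  have key : ∀ z, orb Φ z = orb Φ y → (z.1 = y.1 ∨ Φ.l * (z.1 + y.1) = Φ.m) ∧
      (z.2.2.1 = y.2.2.1 ∨ z.2.2.1 = y.2.2.1 + Φ.m) := by
    intro z hz
    have e1 := congrArg QF.n hz
    have e2 := congrArg QF.J hz
    simp only [orb, QF.sh_J, QF.lin_J] at e2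
    simp only [orb, QF.sh, QF.lin] at e1 e2
    have e3 : (z.1 - y.1) * (Φ.l * (z.1 + y.1) - Φ.m) = 0 := by clear * - e1; grind
    have e4 : Φ.m * ((z.2.2.1 - y.2.2.1) * (z.2.2.1 - (y.2.2.1 + Φ.m))) = 0 := by
      clear * - e2; grind
    simpa only [mul_eq_zero, sub_eq_zero, h0, false_or] using And.intro e3 e4
  refine (Set.ncard_le_ncard_of_injOn (t := Set.univ)
    (fun z => (decide (z.1 = y.1), decide (z.2.2.1 = y.2.2.1))) (fun _ _ => trivial) ?_).trans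
    (by simp [Set.ncard_univ])
  rintro z ⟨-, hz⟩ z' ⟨-, hz'⟩ e
  simp only [Prod.mk.injEq, decide_eq_decide] at e
  obtain ⟨b1, b2⟩ := key z hz
  obtain ⟨c1, c2⟩ := key z' hz'
  have e1 : z.1 = z'.1 := by
    by_cases h : z.1 = y.1
    · rw [h, e.1.1 h]
    · have b3 := b1.resolve_left h
      have c3 := c1.resolve_left fun h' => h (e.1.2 h')
      exact add_right_cancel (mul_left_cancel₀ (fun hl => h0 (by rw [← b3, hl, zero_mul]))
        (b3.trans c3.symm))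
  have e2 : z.2.2.1 = z'.2.2.1 := by
    by_cases h : z.2.2.1 = y.2.2.1
    · rw [h, e.2.1 h]
    · rw [b2.resolve_left h, c2.resolve_left fun h' => h (e.2.2 h')]
  have e3 := congrArg QF.f₁ (hz.trans hz'.symm)
  have e4 := congrArg QF.f₃ (hz.trans hz'.symm)
  simp only [orb, QF.sh, QF.lin, e1, e2] at e3 e4
  exact Prod.ext e1 (Prod.ext (mul_left_cancel₀ h0 (by linear_combination e3)) (Prod.ext e2
    (mul_left_cancel₀ h0 (by linear_combination e4))))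

lemma exists_trn {d : ℕ} {a b : WeierstrassCurve k[X]} (ha : DegLE a d) (hb : DegLE b d)
    {r s t : RatFunc k}
    (h : b.baseChange (RatFunc k) = trn r s t (a.baseChange (RatFunc k))) :
    ∃ r s t : k[X], r.natDegree ≤ 2 * d ∧ s.natDegree ≤ d ∧ t.natDegree ≤ 3 * d ∧
      b = trn r s t a := by
  have h3 := fun v : HeightOneSpectrum k[X] => (bdd_adic v a).integral (r := r) (s := s)
    (t := t) (h ▸ bdd_adic v b)
  obtain ⟨r, rfl⟩ := HeightOneSpectrum.mem_integers_of_valuation_le_one (R := k[X]) _ r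
    fun v => by simpa [B] using (h3 v).1
  obtain ⟨s, rfl⟩ := HeightOneSpectrum.mem_integers_of_valuation_le_one (R := k[X]) _ s
    fun v => by simpa [B] using (h3 v).2.1
  obtain ⟨t, rfl⟩ := HeightOneSpectrum.mem_integers_of_valuation_le_one (R := k[X]) _ t
    fun v => by simpa [B] using (h3 v).2.2
  have h6 := (degLE_iff.1 ha).integral (h ▸ degLE_iff.1 hb)
  rw [B_inf, B_inf, B_inf, one_mul] at h6
  refine ⟨r, s, t, h6.1, h6.2.1, h6.2.2, ?_⟩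
  apply WeierstrassCurve.map_injective (IsFractionRing.injective k[X] (RatFunc k))
  simp only [tr_map]
  exact h

variable [Fintype k]

/-- The model represents the class `s` of the curve `a`. -/
def Rel (a : WeierstrassCurve k[X]) (s : RatFunc k) (Φ : QF k[X]) : Prop :=
  ∃ P, Nd (bc a) P ∧ QF.Inv P (nA (bc a)) s (ι a.a₁) (Φ.map (algebraMap k[X] (RatFunc k)))

variable {a b : WeierstrassCurve k[X]} {s s' : RatFunc k} {Φ : QF k[X]}

lemma Rel.m (h : Rel a s Φ) : Φ.m = a.a₁ := by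
  obtain ⟨P, -, h⟩ := h
  exact ι_inj h.hm

lemma Rel.m0 (h : Rel a s Φ) : Φ.m ≠ 0 := by
  rw [h.m]
  obtain ⟨P, -, h⟩ := h
  exact fun e => h.m0 (by rw [e, ι, map_zero])

lemma Rel.Δ (h : Rel a s Φ) : Φ.Δ = a.Δ := by
  obtain ⟨P, h1, h⟩ := h
  have h2 := h.Δ
  rw [QF.map_Δ, h1.hb, nB_bc, ι, ι, ι, map_pow, mul_div_cancel₀ _ (pow_ne_zero 12 h.m0)] at h2
  exact ι_inj h2

lemma Rel.orb (h : Rel a s Φ) (y : k[X] × k[X] × k[X] × k[X]) : Rel a s (orb Φ y) := by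
  obtain ⟨P, h1, h⟩ := h
  refine ⟨P, h1, ?_⟩
  rw [TailAux.orb, QF.map_sh, QF.map_lin, map_one, map_zero]
  exact (h.un _).sh _ _ _

lemma Rel.uniq {d : ℕ} (h : Rel a s Φ) (h' : Rel b s' Φ) (ha : DegLE a d) (hb : DegLE b d) :
    s' = s ∧ ∃ r s t : k[X], r.natDegree ≤ 2 * d ∧ s.natDegree ≤ d ∧ t.natDegree ≤ 3 * d ∧
      b = trn r s t a := by
  have e1 := h'.m.symm.trans h.m
  have e2 := h'.Δ.symm.trans h.Δ
  obtain ⟨P, h1, h⟩ := h
  obtain ⟨P', -, h'⟩ := h'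
  obtain ⟨e3, -, e4, c, hc⟩ := h.uniq h'
  obtain ⟨r, s, t, e5⟩ := exists_trn_field h1.a1 (W' := bc b) e3.symm
    (by simp only [WeierstrassCurve.baseChange, WeierstrassCurve.map_Δ, e2]) hc
  exact ⟨e4.symm, exists_trn ha hb e5⟩

lemma card_box (d j : ℕ) (hj : j ≤ d) :
    {Φ : QF k[X] | BoxQ d j Φ}.ncard = Fintype.card k ^ (13 * d + 8) := by
  have : {Φ : QF k[X] | BoxQ d j Φ} =
      (fun x : k[X] × k[X] × k[X] × k[X] × k[X] × k[X] × k[X] × k[X] =>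
        (⟨x.1, x.2.1, x.2.2.1, x.2.2.2.1, x.2.2.2.2.1, x.2.2.2.2.2.1, x.2.2.2.2.2.2.1,
          x.2.2.2.2.2.2.2⟩ : QF k[X])) ''
      (Pol k (d - j) ×ˢ Pol k d ×ˢ Pol k (d + j) ×ˢ Pol k (2 * d - 2 * j) ×ˢ Pol k (2 * d - j) ×ˢ
        Pol k (2 * d) ×ˢ Pol k (2 * d + j) ×ˢ Pol k (2 * d + 2 * j)) := by
    ext a
    exact ⟨fun h => ⟨(a.l, a.m, a.n, a.f₀, a.f₁, a.f₂, a.f₃, a.f₄), h, rfl⟩,
      by rintro ⟨x, hx, rfl⟩; exact hx⟩
  rw [this, Set.ncard_image_of_injective _ (fun x y h => by simpa [Prod.ext_iff] using h)]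
  simp only [Set.ncard_prod, card_Pol, ← pow_add]
  congr 1
  omega

lemma finite_box (d j : ℕ) (hj : j ≤ d) : {Φ : QF k[X] | BoxQ d j Φ}.Finite :=
  Set.finite_of_ncard_pos (by rw [card_box d j hj]; positivity)

/-- The triples that are counted. -/
def Tri (Bd : k[X] → k[X] → Prop) (d j : ℕ) :
    Set ((WeierstrassCurve k[X] × RatFunc k) × QF k[X]) :=
  {x | DegLE x.1.1 d ∧ Bd x.1.1.a₁ x.1.1.Δ ∧ BoxQ d j x.2 ∧ Rel x.1.1 x.1.2 x.2}

variable (Bd : k[X] → k[X] → Prop) {d j : ℕ}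

lemma finite_Tri (hj : j ≤ d) : (Tri Bd d j).Finite := by
  refine Set.Finite.of_finite_image (f := fun x => (x.1.1, x.2))
    (((finite_degLE d).prod (finite_box d j hj)).subset ?_) ?_
  · rintro _ ⟨x, hx, rfl⟩
    exact ⟨hx.1, hx.2.2.1⟩
  · rintro ⟨⟨a, s⟩, Φ⟩ hx ⟨⟨b, s'⟩, Φ'⟩ hy e
    obtain ⟨rfl, rfl⟩ : a = b ∧ Φ = Φ' := Prod.ext_iff.1 e
    obtain rfl : s = s' := (Rel.uniq hy.2.2.2 hx.2.2.2 hy.1 hx.1).1
    rfl

lemma key (hj : j ≤ d) : (Prod.fst '' Tri Bd d j).ncard * Fintype.card k ^ (j + 1) ≤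
    4 * Fintype.card k ^ (3 * d) * {Φ : QF k[X] | BoxQ d j Φ ∧ Bd Φ.m Φ.Δ}.ncard := by
  have hX := finite_Tri Bd hj
  have h1 := mul_le_ncard hX Prod.fst (g := Fintype.card k ^ (j + 1) * Fintype.card k ^ (3 * d + 3))
    (m := 4) (by
      rintro ⟨⟨a, s⟩, Φ⟩ ⟨x1, x2, x3, x4⟩
      have hY : (Pol k j ×ˢ Pol k (d - j) ×ˢ Pol k d ×ˢ Pol k (d + j)).Finite :=
        (finite_Pol _).prod ((finite_Pol _).prod ((finite_Pol _).prod (finite_Pol _)))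
      have h2 := ncard_le_mul hY (orb Φ) fun y _ => orb_fibre x4.m0 _ y
      simp only [Set.ncard_prod, card_Pol, ← pow_add] at h2
      rw [← pow_add, show j + 1 + (3 * d + 3) = j + 1 + (d - j + 1 + (d + 1 + (d + j + 1))) by omega,
        mul_comm]
      refine h2.trans (Nat.mul_le_mul_right _ (Set.ncard_le_ncard_of_injOn (fun Ψ => ((a, s), Ψ))
        ?_ (fun _ _ _ _ e => (Prod.ext_iff.1 e).2) (hX.subset fun _ h => h.1)))
      rintro _ ⟨y, hy, rfl⟩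
      exact ⟨⟨x1, x2, box_sh hj (box_lin hj x3 hy.1) hy.2.1 hy.2.2.1 hy.2.2.2, x4.orb y⟩, rfl⟩)
  have h2 := ncard_le_mul hX Prod.snd (g := Fintype.card k ^ (6 * d + 3)) (by
      rintro ⟨⟨a, s⟩, Φ⟩ ⟨x1, x2, x3, x4⟩
      have hY : (Pol k (2 * d) ×ˢ Pol k d ×ˢ Pol k (3 * d)).Finite :=
        (finite_Pol _).prod ((finite_Pol _).prod (finite_Pol _))
      refine (Set.ncard_le_ncard (t := (fun y : k[X] × k[X] × k[X] =>
        ((trn y.1 y.2.1 y.2.2 a, s), Φ)) '' _) ?_ (hY.image _)).trans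
        ((Set.ncard_image_le hY).trans_eq ?_)
      · rintro ⟨⟨b, s'⟩, Φ'⟩ ⟨⟨y1, -, -, y4⟩, rfl : Φ' = Φ⟩
        dsimp only at x1 x4 y1 y4
        obtain ⟨rfl, r, s, t, e1, e2, e3, rfl⟩ := Rel.uniq x4 y4 x1 y1
        exact ⟨(r, s, t), ⟨e1, e2, e3⟩, rfl⟩
      · simp only [Set.ncard_prod, card_Pol, ← pow_add]
        congr 1
        omega)
  have h3 : (Prod.snd '' Tri Bd d j).ncard ≤ {Φ : QF k[X] | BoxQ d j Φ ∧ Bd Φ.m Φ.Δ}.ncard := by
    refine Set.ncard_le_ncard ?_ ((finite_box d j hj).subset fun _ h => h.1)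
    rintro _ ⟨x, ⟨-, x2, x3, x4⟩, rfl⟩
    exact ⟨x3, by rwa [x4.m, x4.Δ]⟩
  refine Nat.le_of_mul_le_mul_right (c := Fintype.card k ^ (3 * d + 3)) ?_ (by positivity)
  calc _ = _ := mul_assoc _ _ _
    _ ≤ _ := h1
    _ ≤ 4 * (_ * _) := Nat.mul_le_mul_left _ (h2.trans (Nat.mul_le_mul_right _ h3))
    _ = _ := by ring

lemma sum_le (h1 : Param) (w : WeierstrassCurve (RatFunc k) → ℕ)
    (hw : ∀ W, w W = 0 ∨ ∃ P, Nd W P ∧ w W ≤ Nat.card (Sel P (nA W))) (d : ℕ)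
    (S : Finset (WeierstrassCurve k[X])) (hS : ∀ a ∈ S, DegLE a d ∧ Bd a.a₁ a.Δ) :
    ∑ a ∈ S, (w (a.baseChange (RatFunc k)) - 1) ≤
      ∑ j ∈ Finset.range (d + 1), (Prod.fst '' Tri Bd d j).ncard := by
  have hf : ∀ j ∈ Finset.range (d + 1), (Prod.fst '' Tri Bd d j).Finite := fun j hj =>
    (finite_Tri Bd (Nat.lt_succ_iff.1 (Finset.mem_range.1 hj))).image _
  have hU : (⋃ j ∈ Finset.range (d + 1), Prod.fst '' Tri Bd d j).Finite :=
    (Finset.finite_toSet _).biUnion hf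
  refine (sum_le_ncard hU S _ fun a ha => ?_).trans (Finset.set_ncard_biUnion_le _ _)
  obtain h | ⟨P, hP, h⟩ := hw (a.baseChange (RatFunc k))
  · omega
  have h2 : Nat.card (Sel P (nA (bc a))) - 1 = ((Sel P (nA (bc a)) : Set (RatFunc k)) \ {0}).ncard :=
    by rw [Set.ncard_sdiff_singleton_of_mem (zero_mem _), ← Nat.card_coe_set_eq]; rfl
  refine (Nat.sub_le_sub_right h 1).trans (h2.trans_le (Set.ncard_le_ncard_of_injOn
    (fun s => (a, s)) ?_ (fun _ _ _ _ e => (Prod.ext_iff.1 e).2) (hU.subset fun _ h => h.1)))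
  rintro s ⟨s1, s2⟩
  obtain ⟨j, hj, Φ, b1, b2⟩ := h1 k d a P s (hS a ha).1 hP s1 s2
  exact ⟨Set.mem_biUnion (Finset.mem_coe.2 (Finset.mem_range.2 (Nat.lt_succ_of_le hj)))
    ⟨((a, s), Φ), ⟨(hS a ha).1, (hS a ha).2, b1, P, hP, b2⟩, rfl⟩, rfl⟩

lemma bad_all (h2 : BadForm) {ε : ℝ} (hε : 0 < ε) (n : ℕ) : ∃ T₁ : ℕ, ∀ T, T₁ ≤ T → ∃ β : ℕ,
    ∀ᶠ d : ℕ in atTop, ∀ j < n,
      (Set.ncard {Φ : QF k[X] | BoxQ d j Φ ∧ ¬ GoodI T β d Φ.m Φ.Δ} : ℝ) ≤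
        ε * (Fintype.card k : ℝ) ^ (13 * d) := by
  choose T₁ hT using h2 k ε hε
  refine ⟨(Finset.range n).sup T₁, fun T h => ?_⟩
  have h3 : ∀ j : Fin n, T₁ j ≤ T := fun j =>
    (Finset.le_sup (f := T₁) (Finset.mem_range.2 j.2)).trans h
  choose β hβ using fun j : Fin n => hT j T (h3 j)
  refine ⟨Finset.univ.sup β, ?_⟩
  filter_upwards [eventually_all.2 hβ, eventually_ge_atTop n] with d hd hn j hj
  refine le_trans (Nat.cast_le.2 (Set.ncard_le_ncard ?_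
    ((finite_box d j (by omega)).subset fun _ h => h.1))) (hd ⟨j, hj⟩)
  exact fun Φ h => ⟨h.1, fun c => h.2 (goodI_mono c (Finset.le_sup (f := β) (Finset.mem_univ _)))⟩

end TailAux

open TailAux in
theorem tail (h1 : Param) (h2 : BadForm) : Tail := by
  intro k _ _ _ w hw ε hε
  have hq : (2 : ℝ) ≤ Fintype.card k := by exact_mod_cast Fintype.one_lt_card
  set q : ℝ := (Fintype.card k : ℝ) with hq'
  obtain ⟨n, hn⟩ := exists_pow_lt_of_lt_one (x := ε / 2 / (4 * q ^ 8)) (y := (1 / 2 : ℝ))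
    (by positivity) (by norm_num)
  obtain ⟨T₁, hT⟩ := bad_all (k := k) h2 (ε := ε / 2 / (4 * (n + 1))) (by positivity) n
  refine ⟨T₁, fun T h => ?_⟩
  obtain ⟨β, hβ⟩ := hT T h
  refine ⟨β, ?_⟩
  filter_upwards [hβ, eventually_ge_atTop n] with d hd hnd
  have hS : {a : WeierstrassCurve k[X] |
      DegLE a d ∧ ¬ (GoodT T β d a ∧ GoodN T a ∧ GoodQ T a)}.Finite :=
    (finite_degLE (k := k) d).subset fun _ h => h.1
  rw [← hq'] at hd
  refine (finsum_mem_eq_finite_toFinset_sum _ hS).trans_le ?_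
  rw [← Nat.cast_sum]
  have h3 := sum_le (fun m Δ => ¬ GoodI T β d m Δ) h1 w hw d hS.toFinset fun a ha => by
    have := hS.mem_toFinset.1 ha
    exact ⟨this.1, fun c => this.2 (good_of_goodI c)⟩
  refine (Nat.cast_le.2 h3).trans ?_
  rw [Nat.cast_sum]
  have h4 : ∀ j ≤ d, ((Prod.fst '' Tri (fun m Δ => ¬ GoodI T β d m Δ) d j).ncard : ℝ) * q ^ (j + 1) ≤
      4 * q ^ (3 * d) * {Φ : QF k[X] | BoxQ d j Φ ∧ ¬ GoodI T β d Φ.m Φ.Δ}.ncard := fun j hj => by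
    rw [hq']
    exact_mod_cast key (fun m Δ => ¬ GoodI T β d m Δ) hj
  have h5 : q ^ (16 * d) = q ^ (3 * d) * q ^ (13 * d) := by rw [← pow_add]; congr 1; omega
  refine (sum_split _ (a := 4 * (ε / 2 / (4 * (n + 1))) * q ^ (16 * d))
    (C := 4 * q ^ 8 * q ^ (16 * d)) (n := n) (by positivity) (by omega) (fun j hj => ?_)
    fun j hj => ?_).trans ?_
  · have e1 := (le_mul_of_one_le_right (Nat.cast_nonneg _) (one_le_pow₀ (by linarith))).trans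
      (h4 j (by omega))
    have e2 := mul_le_mul_of_nonneg_left (hd j hj) (show 0 ≤ 4 * q ^ (3 * d) by positivity)
    rw [h5]
    linarith
  · have e1 : ({Φ : QF k[X] | BoxQ d j Φ ∧ ¬ GoodI T β d Φ.m Φ.Δ}.ncard : ℝ) ≤ q ^ (13 * d + 8) := by
      rw [hq', ← Nat.cast_pow, ← card_box d j (by omega)]
      exact Nat.cast_le.2 (Set.ncard_le_ncard (fun _ h => h.1) (finite_box d j (by omega)))
    have e2 := (mul_le_mul_of_nonneg_left (pow_le_pow_left₀ (by norm_num) hq (j + 1))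
      (Nat.cast_nonneg _)).trans ((h4 j (by omega)).trans
        (mul_le_mul_of_nonneg_left e1 (by positivity)))
    rw [one_div, inv_pow, ← div_eq_mul_inv, le_div_iff₀ (by positivity), h5]
    rw [pow_add q (13 * d)] at e2
    linarith
  · rw [lt_div_iff₀ (by positivity)] at hn
    have e1 : (n : ℝ) * (4 * (ε / 2 / (4 * (n + 1)))) ≤ ε / 2 := by
      rw [show (n : ℝ) * (4 * (ε / 2 / (4 * (n + 1)))) = ε / 2 * (n / (n + 1)) by field_simp]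
      exact mul_le_of_le_one_right (by positivity) (div_le_one_of_le₀ (by linarith) (by positivity))
    have e2 : 0 ≤ q ^ (16 * d) := by positivity
    nlinarith [mul_le_mul_of_nonneg_right e1 e2, mul_le_mul_of_nonneg_right hn.le e2]

end Pool.Agent.Lib.MP_a3f657_nt.Two
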