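import Pool.Agent.Lib.MP_a3f657_nt.C2QFin

/-!
The exact first moment, for any set of parity classes.
-/

set_option linter.unusedSectionVars false

namespace Pool.Agent.Lib.MP_a3f657_nt.Two

open Polynomial Filter Topology

open scoped Classical

variable {k : Type} [Field k] [Fintype k] [CharP k 2]

/-- The weight. -/
noncomputable def wt' (S : Finset (ZMod 2)) (W : WeierstrassCurve (RatFunc k)) : ℕ :=
  if (∃ P, Nd W P) ∧ (Nat.log 2 (selOrder W) : ZMod 2) ∈ S then selOrder W else 0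

lemma wt'_smul (S : Finset (ZMod 2)) (C : WeierstrassCurve.VariableChange (RatFunc k))
    (W : WeierstrassCurve (RatFunc k)) : wt' S (C • W) = wt' S W := by
  by_cases h : ∃ P, Nd W P
  · obtain ⟨P, hP⟩ := h
    simp only [wt', (hP.smul C).2, (⟨P, hP⟩ : ∃ P, Nd W P), (⟨P, (hP.smul C).1⟩ : ∃ P, Nd _ P)]
  · rw [wt', wt', if_neg fun e => h (e.1.imp fun P hP => by simpa using (hP.smul C⁻¹).1),
      if_neg fun e => h e.1]

lemma sum_ind {W : WeierstrassCurve (RatFunc k)} {r : ℕ} (h : selOrder W = 2 ^ r)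
    (S : Finset (ZMod 2)) : ∑ e ∈ S, ind e W = if (r : ZMod 2) ∈ S then 1 else 0 := by
  rw [← Finset.sum_ite_eq S (r : ZMod 2) fun _ => (1 : ℝ)]
  refine Finset.sum_congr rfl fun e _ => if_congr ⟨fun ⟨n, h1, h2⟩ =>
    Nat.pow_right_injective le_rfl (h.symm.trans h1) ▸ h2, fun h1 => ⟨r, h, h1⟩⟩ rfl rfl

theorem average_set (hR : AvgRed) (hT : Tail) (hA : CellAn) (S : Finset (ZMod 2)) :
    Tendsto (fun d => ∑ᶠ (m : ℕ) (_ : (Nat.log 2 m : ZMod 2) ∈ S), (m : ℝ) * dens (k := k)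
      (fun W => ¬ IsSquare (W.c₄ ^ 3 / W.Δ) ∧ selOrder W = m) d) atTop (𝓝 (3 / 2 * S.card)) := by
  have key := hR k (wt' S) (3 / 2 * S.card) (wt'_smul S)
    (fun W h => if_neg fun ⟨⟨P, hP⟩, _⟩ => hP.a1 h) ?_
    (hT k (wt' S) fun W => by
      unfold wt'
      split_ifs with h
      · obtain ⟨⟨P, hP⟩, -⟩ := h
        exact Or.inr ⟨P, hP, (selOrder_eq' hP).le⟩
      · exact Or.inl rfl)
  · refine key.congr fun d => finsum_congr fun m => ?_
    rcases Nat.eq_zero_or_pos m with rfl | hm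
    · simp
    by_cases hS : (Nat.log 2 m : ZMod 2) ∈ S
    · rw [finsum_eq_if, if_pos hS]
      congr 2
      ext W
      rw [nd_iff, wt']
      split_ifs with h
      · simp only [h.1, true_and]
      · refine ⟨fun e => by omega, fun e => (h ⟨e.1, e.2 ▸ hS⟩).elim⟩
    · have : (fun W : WeierstrassCurve (RatFunc k) => wt' S W = m) = fun _ => False := by
        ext W
        rw [wt', iff_false]
        split_ifs with h
        · exact fun e => hS (e ▸ h.2)
        · omega
      rw [finsum_eq_if, if_neg hS, this]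
      simp [dens, num]
  obtain ⟨T₀, h0⟩ := cell_est hA k
  obtain ⟨T₁, h1⟩ := cell_low hA k
  refine ⟨max T₀ T₁, fun T hT β ε hε => ?_⟩
  filter_upwards [h0 T (le_of_max_le_left hT) β (ε / 2) (half_pos hε),
    h1 T (le_of_max_le_right hT) β (ε / 2) (half_pos hε),
    eventually_ge_atTop (RR β)] with d H H' hd a h2 h3 h4
  rw [Finset.sum_congr rfl fun t ht => show _ = ∑ e ∈ S,
    (ind e (bc (shift T β a t)) * selOrder (bc (shift T β a t)) - 3 / 2) by
      have h5 := Red.goodT_shift hd h2 h3 (Finset.mem_filter.1 ht).1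
      obtain ⟨r, hr⟩ := (H a h2 h3 h4).1 t (Finset.mem_filter.1 ht).1 (Finset.mem_filter.1 ht).2
      rw [Finset.sum_sub_distrib, ← Finset.sum_mul, sum_ind hr, Finset.sum_const, nsmul_eq_mul,
        mul_comm (S.card : ℝ)]
      simp only [wt', exists_nd h5.1 h5.2.1, true_and, hr, Nat.log_pow one_lt_two]
      split_ifs <;> simp, Finset.sum_comm]
  refine (Finset.abs_sum_le_sum_abs _ _).trans ((Finset.sum_le_card_nsmul _ _ _ fun e _ =>
    abs_le.2 ⟨H' a h2 h3 h4 e, ((H a h2 h3 h4).2 e).2⟩).trans ?_)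
  have : (S.card : ℝ) ≤ 2 := by exact_mod_cast (Finset.card_le_univ S).trans_eq (ZMod.card 2)
  rw [nsmul_eq_mul]
  nlinarith [mul_nonneg hε.le (Nat.cast_nonneg (α := ℝ) (cell T β d a).card)]

end Pool.Agent.Lib.MP_a3f657_nt.Two
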