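import Mathlib

/-!
Power sums: a one-sided bound on power sums bounds every base.
-/

namespace Pool.Agent.Lib.MP_a3f657_nt.Two.Rh

open Filter Topology

theorem exists_pow_near_one {κ : Type} [Fintype κ] (ω : κ → ℂ) (hω : ∀ i, ‖ω i‖ = 1) (N : ℕ) :
    ∃ j, N ≤ j ∧ ∀ i, 1 / 2 ≤ (ω i ^ j).re := by
  have hc : IsCompact (Metric.closedBall (0 : κ → ℂ) 1) := isCompact_closedBall _ _
  obtain ⟨a, -, φ, hφ, hlim⟩ := hc.tendsto_subseq (x := fun j i => ω i ^ j) (fun j => by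
    rw [mem_closedBall_zero_iff, pi_norm_le_iff_of_nonneg zero_le_one]
    intro i
    rw [norm_pow, hω, one_pow])
  obtain ⟨n, hn⟩ := Metric.tendsto_atTop.1 hlim (1 / 4) (by norm_num)
  have hle : φ n + N ≤ φ (n + N) := by
    induction N with
    | zero => simp
    | succ N ih =>
      have := hφ (show n + N < n + (N + 1) by omega)
      omega
  refine ⟨φ (n + N) - φ n, by omega, fun i => ?_⟩
  have h1 := (dist_le_pi_dist _ _ i).trans_lt (hn n le_rfl)
  have h2 := (dist_le_pi_dist _ _ i).trans_lt (hn (n + N) (by omega))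
  simp only [Function.comp] at h1 h2
  have h3 : dist (ω i ^ φ (n + N)) (ω i ^ φ n) < 1 / 2 := by
    have := dist_triangle_right (ω i ^ φ (n + N)) (ω i ^ φ n) (a i)
    linarith
  have h4 : ω i ^ φ (n + N) - ω i ^ φ n = ω i ^ φ n * (ω i ^ (φ (n + N) - φ n) - 1) := by
    rw [mul_sub, ← pow_add, Nat.add_sub_cancel' (by omega), mul_one]
  rw [dist_eq_norm, h4, norm_mul, norm_pow, hω, one_pow, one_mul] at h3
  have h5 := (Complex.abs_re_le_norm _).trans h3.le
  rw [Complex.sub_re, Complex.one_re, abs_le] at h5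
  linarith [h5.1]

theorem exists_pow_re (u : Multiset ℂ) (N : ℕ) :
    ∃ j, N ≤ j ∧ ∀ z ∈ u, ‖z‖ ^ j / 2 ≤ (z ^ j).re := by
  classical
  let ω : u.toFinset → ℂ := fun z => if (z : ℂ) = 0 then 1 else z / ‖(z : ℂ)‖
  obtain ⟨j, hj, h⟩ := exists_pow_near_one ω (fun z => by
    simp only [ω]
    split_ifs with hz
    · simp
    · rw [norm_div, Complex.norm_real, norm_norm, div_self (norm_ne_zero_iff.2 hz)]) (N + 1)
  refine ⟨j, by omega, fun z hz => ?_⟩
  by_cases h0 : z = 0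
  · subst h0
    simp [zero_pow (show j ≠ 0 by omega)]
  have h1 := h ⟨z, Multiset.mem_toFinset.2 hz⟩
  simp only [ω, h0, if_false] at h1
  have h2 : z ^ j = ((‖z‖ ^ j : ℝ) : ℂ) * (z / ‖z‖) ^ j := by
    have : (‖z‖ : ℂ) ≠ 0 := by exact_mod_cast norm_ne_zero_iff.2 h0
    push_cast
    rw [← mul_pow, mul_div_cancel₀ _ this]
  rw [h2, Complex.re_ofReal_mul]
  have : 0 ≤ ‖z‖ ^ j := by positivity
  nlinarith

theorem norm_le_of_power_sum (u : Multiset ℂ) (B C : ℝ) (hB : 0 < B) (N : ℕ)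
    (h : ∀ j, N ≤ j → ((u.map (· ^ j)).sum).re ≤ C * B ^ j) : ∀ z ∈ u, ‖z‖ ≤ B := by
  intro z hz
  by_contra hlt
  push Not at hlt
  have h1 : 1 < ‖z‖ / B := (one_lt_div hB).2 hlt
  obtain ⟨n, hn⟩ := eventually_atTop.1
    ((tendsto_pow_atTop_atTop_of_one_lt h1).eventually_gt_atTop (2 * C))
  obtain ⟨j, hj, hre⟩ := exists_pow_re u (max N n)
  have h2 := h j (le_of_max_le_left hj)
  have h3 := hn j (le_of_max_le_right hj)
  rw [div_pow, lt_div_iff₀ (by positivity)] at h3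
  have h4 : (z ^ j).re ≤ ((u.map (· ^ j)).sum).re := by
    have e : ((u.map (· ^ j)).sum).re = (u.map (fun z => (z ^ j).re)).sum := by
      rw [← Complex.reCLM_apply, map_multiset_sum, Multiset.map_map]
      rfl
    rw [e]
    refine Multiset.single_le_sum (fun x hx => ?_) _ (Multiset.mem_map_of_mem _ hz)
    obtain ⟨w, hw, rfl⟩ := Multiset.mem_map.1 hx
    exact le_trans (by positivity) (hre w hw)
  linarith [hre z hz]

end Pool.Agent.Lib.MP_a3f657_nt.Two.Rh
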