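import Pool.Agent.Lib.MP_a3f657_nt.C2RhPhi
import Pool.Agent.Lib.MP_a3f657_nt.C2RhPow

/-!
The Riemann hypothesis for sums of class functions on the cover.
-/

namespace Pool.Agent.Lib.MP_a3f657_nt.Two.Rh

open Polynomial Module TensorProduct

variable {k : Type} [Field k] [Fintype k] [CharP k 2]

theorem mem_fixF {m : ℕ} (hm : 0 < m) {a : AlgebraicClosure k} :
    a ∈ fixF k m ↔ a ^ Fintype.card k ^ m = a := by
  classical
  rw [fixF, Multiset.mem_toFinset, mem_roots
    (FiniteField.X_pow_card_pow_sub_X_ne_zero _ hm.ne' Fintype.one_lt_card), IsRoot, eval_sub,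
    eval_pow, eval_X, sub_eq_zero]

theorem card_fixF {m : ℕ} (hm : 0 < m) : (fixF k m).card = Fintype.card k ^ m := by
  classical
  obtain ⟨n, -, hn⟩ := FiniteField.card k 2
  have h1 : 2 ∣ Fintype.card k ^ m := by
    rw [hn, ← pow_mul]
    exact dvd_pow_self 2 (Nat.mul_pos n.pos hm).ne'
  rw [fixF, Multiset.toFinset_card_of_nodup (nodup_roots (galois_poly_separable 2 _ h1)),
    ← (IsAlgClosed.splits _).natDegree_eq_card_roots,
    FiniteField.X_pow_card_pow_sub_X_natDegree_eq _ hm.ne' Fintype.one_lt_card]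

theorem exists_quad {K : Type} [Field K] [IsAlgClosed K] (μ c : K) : ∃ x, x ^ 2 + μ * x = c := by
  obtain ⟨x, hx⟩ := IsAlgClosed.exists_root (C 1 * X ^ 2 + C μ * X + C (-c))
    (by rw [degree_quadratic one_ne_zero]; exact two_ne_zero)
  refine ⟨x, ?_⟩
  simp only [IsRoot, eval_add, eval_mul, eval_C, eval_pow, eval_X] at hx
  linear_combination hx

variable {R : Type} [CommRing R] [Algebra k R] [Finite R]

/-- The local description of the summand through the Frobenius element. -/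
def Loc (U V : R) (M n₁ n₂ : k[X]) (f : ℕ → AlgebraicClosure k → ℂ) (Ξ : Hs × Rˣ → ℂ) : Prop :=
  ∀ m, 0 < m → ∀ (a θ η z : AlgebraicClosure k) (h : Hs) (g : Rˣ), a ∈ fixF k m →
    aeval a M ≠ 0 → θ ^ 2 + θ = aeval a n₁ / aeval a M → η ^ 2 + η = aeval a n₂ / aeval a M →
    z ^ 2 + z = θ * (aeval a n₂ / aeval a M) →
    θ ^ Fintype.card k ^ m = θ + cz _ h.1 → η ^ Fintype.card k ^ m = η + cz _ h.2.1 →
    z ^ Fintype.card k ^ m = z + cz _ h.1 * η + cz _ h.2.2 →
    cl U V (minpoly k a) ^ (m / (minpoly k a).natDegree) = g → f m a = Ξ (h, g)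

theorem rh_aux_field (U V : R) (M n₁ n₂ : k[X]) (hM : M ≠ 0)
    (hU : ∀ p : k[X], p.Monic → Irreducible p → ¬ p ∣ M → IsUnit (cl U V p))
    (f : ℕ → AlgebraicClosure k → ℂ) (Ξ : Hs × Rˣ → ℂ) (hf : ∀ m a, ‖f m a‖ ≤ 2)
    (hΞ : ∀ γ, ‖Ξ γ‖ ≤ 2)
    (hsum : ∀ G : Finset (Hs × Rˣ), (∀ a ∈ G, ∀ b ∈ G, a * b ∈ G) → 0 ≤ (∑ γ ∈ G, Ξ γ).re)
    (hloc : Loc U V M n₁ n₂ f Ξ) (F : Type) [Field F] [Fintype F] [Algebra k F]
    [Algebra F (AlgebraicClosure k)] [IsScalarTower k F (AlgebraicClosure k)]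
    (t₀ θ₀ η₀ z₀ : F) (ht : aeval t₀ M ≠ 0)
    (h0 : θ₀ ^ 2 + aeval t₀ M * θ₀ = aeval t₀ M * aeval t₀ n₁)
    (h1 : η₀ ^ 2 + aeval t₀ M * η₀ = aeval t₀ M * aeval t₀ n₂)
    (h2 : z₀ ^ 2 + aeval t₀ M * z₀ = θ₀ * aeval t₀ n₂)
    (γ : Multiset ℂ) (hγ : ∀ m, 1 ≤ m → ∑ a ∈ fixF k m, f m a = -(γ.map (· ^ m)).sum) :
    ∀ z ∈ γ, ‖z‖ ≤ √(Fintype.card k) := by
  have : CharP F 2 := charP_of_injective_algebraMap (algebraMap k F).injective 2
  have : Module.Finite k R := Module.Finite.of_finite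
  have : Module.Finite k F := Module.Finite.of_finite
  let e := Module.finBasis k R
  set r := finrank k F with hr
  have hr0 : 0 < r := finrank_pos
  have hF : Fintype.card F = Fintype.card k ^ r := Module.card_eq_pow_finrank
  have htr : t₀ ^ Fintype.card k ^ r = t₀ := by rw [← hF, FiniteField.pow_card]
  have hint : IsIntegral k t₀ := Algebra.IsIntegral.isIntegral t₀
  obtain ⟨u, hu⟩ := hU (minpoly k t₀) (minpoly.monic hint) (minpoly.irreducible hint)
    fun h => ht (aeval_eq_zero_of_dvd_aeval_eq_zero h (minpoly.aeval k t₀))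
  obtain ⟨ν, hν⟩ : ∃ ν : F ⊗[k] R, ell U V t₀ * ν = 1 := by
    have h3 := prod_ell U V hr0 htr
    have h4 : IsUnit (∏ i ∈ Finset.range r, ell (k := k) U V (t₀ ^ Fintype.card k ^ i)) := by
      rw [h3, ← hu]
      exact (u.isUnit.pow _).map (Algebra.TensorProduct.includeRight (R := k) (A := F))
    have h5 := isUnit_of_dvd_unit (Finset.dvd_prod_of_mem _ (Finset.mem_range.2 hr0)) h4
    rw [pow_zero, pow_one] at h5
    exact h5.exists_right_inv
  obtain ⟨Φ, hb, hE, hn⟩ := exists_phi e t₀ θ₀ η₀ z₀ ht h0 h1 h2 hν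
  obtain ⟨C, S₀, hC⟩ := lower_bound (K := AlgebraicClosure k) hM Φ hb hE hn (fun γ => (Ξ γ).re)
    (fun γ => (Complex.re_le_norm _).trans (hΞ γ)) fun G hG => by
      rw [← Complex.re_sum]
      exact hsum G hG
  set E := Nat.card Rˣ with hE'
  have hE0 : 0 < E := Nat.card_pos
  have hq : (1 : ℝ) < Fintype.card k := by exact_mod_cast Fintype.one_lt_card
  have key := norm_le_of_power_sum (γ.map (· ^ (r * E * 2))) (Fintype.card k ^ (r * E)) C
    (by positivity) (max S₀ 1) fun j hj => by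
    have hj0 : 0 < j := le_of_max_le_right hj
    have hm : 0 < r * E * 2 * j := by positivity
    have hQ : (Fintype.card F ^ (E * j)) ^ 2 = Fintype.card k ^ (r * E * 2 * j) := by
      rw [hF, ← pow_mul, ← pow_mul]
      congr 1
      ring
    have h3 := hC (E * j) ((le_of_max_le_left hj).trans ((Nat.le_mul_of_pos_left j hE0).trans
      (Nat.lt_pow_self Fintype.one_lt_card).le)) (fixF k (r * E * 2 * j))
      (fun a => (f (r * E * 2 * j) a).re) (by rw [card_fixF hm, hQ])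
      (fun a ha => by rw [hQ, ← mem_fixF hm]; exact ha)
      (fun a => (abs_le.1 ((Complex.abs_re_le_norm _).trans (hf _ a))).1)
      fun ψ hψ hMa hy ha γ hγ => by
        rw [hQ] at hγ
        have ha' := (mem_fixF hm).1 ha
        have hMa' : aeval (ba ψ) M ^ Fintype.card k ^ (r * E * 2 * j) = aeval (ba ψ) M := by
          rw [← frob_pow_apply, ← aeval_algHom_apply, frob_pow_apply, ha']
        have hco : ∀ i, co ψ i ^ Fintype.card k ^ (r * E * 2 * j) = co (tw e M γ ψ) i :=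
          fun i => hγ _
        congr 1
        refine hloc _ hm (ba ψ) (co ψ 0 / aeval (ba ψ) M) (co ψ 1 / aeval (ba ψ) M)
          (co ψ 2 / aeval (ba ψ) M) γ.1 γ.2 ha hMa ?_ ?_ ?_ ?_ ?_ ?_ ?_
        · field_simp
          linear_combination hψ.e0
        · field_simp
          linear_combination hψ.e1
        · field_simp
          linear_combination hψ.e2
        · rw [div_pow, hMa', hco, co_tw0]
          field_simp
        · rw [div_pow, hMa', hco, co_tw1]
          field_simp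
        · rw [div_pow, hMa', hco, co_tw2]
          field_simp
        · have ht' : t₀ ^ Fintype.card k ^ (r * E * 2 * j) = t₀ := by
            rw [← hQ, ← pow_mul, FiniteField.pow_card_pow]
          rw [hψ.norm_rel hy hν hm (by rw [← map_pow, ht']) ha' (g := γ.2) (by
            rw [← yy_tw]
            refine (bs _ e).ext_elem fun i => ?_
            rw [repr_mp, repr_yy, repr_yy, frob_pow_apply, hγ]),
            minpoly.algebraMap_eq (algebraMap F _).injective, ← hu]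
          obtain ⟨s, hs⟩ := (minpoly_eq_prod hr0 htr).1
          have hd : 0 < (minpoly k t₀).natDegree := minpoly.natDegree_pos hint
          rw [show r * E * 2 * j / (minpoly k t₀).natDegree = E * (s * 2 * j) by
            rw [hs]
            exact Nat.div_eq_of_eq_mul_right hd (by ring), ← Units.val_pow_eq_pow_val, pow_mul,
            pow_card_eq_one', one_pow, Units.val_one, mul_one]
    rw [← Complex.re_sum, hγ _ hm, Complex.neg_re, hF] at h3
    rw [Multiset.map_map]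
    simp only [Function.comp_def, ← pow_mul]
    push_cast at h3
    rw [← pow_mul, ← mul_assoc] at h3
    linarith
  intro z hz
  have h3 := key _ (Multiset.mem_map_of_mem _ hz)
  rw [norm_pow, mul_comm _ 2, pow_mul, pow_le_pow_iff_left₀ (by positivity) (by positivity)
    (by positivity)] at h3
  exact Real.le_sqrt_of_sq_le h3

theorem rh_aux (U V : R) (M n₁ n₂ : k[X]) (hM : M ≠ 0)
    (hU : ∀ p : k[X], p.Monic → Irreducible p → ¬ p ∣ M → IsUnit (cl U V p))
    (f : ℕ → AlgebraicClosure k → ℂ) (Ξ : Hs × Rˣ → ℂ) (hf : ∀ m a, ‖f m a‖ ≤ 2)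
    (hΞ : ∀ γ, ‖Ξ γ‖ ≤ 2)
    (hsum : ∀ G : Finset (Hs × Rˣ), (∀ a ∈ G, ∀ b ∈ G, a * b ∈ G) → 0 ≤ (∑ γ ∈ G, Ξ γ).re)
    (hloc : Loc U V M n₁ n₂ f Ξ)
    (γ : Multiset ℂ) (hγ : ∀ m, 1 ≤ m → ∑ a ∈ fixF k m, f m a = -(γ.map (· ^ m)).sum) :
    ∀ z ∈ γ, ‖z‖ ≤ √(Fintype.card k) := by
  obtain ⟨t, ht⟩ := (M.rootSet_finite (AlgebraicClosure k)).exists_notMem
  rw [mem_rootSet_of_ne hM] at ht
  obtain ⟨θ, hθ⟩ := exists_quad (aeval t M) (aeval t M * aeval t n₁)
  obtain ⟨η, hη⟩ := exists_quad (aeval t M) (aeval t M * aeval t n₂)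
  obtain ⟨z, hz⟩ := exists_quad (aeval t M) (θ * aeval t n₂)
  let F := IntermediateField.adjoin k ({t, θ, η, z} : Set (AlgebraicClosure k))
  have : FiniteDimensional k F := IntermediateField.finiteDimensional_adjoin fun x _ =>
    Algebra.IsIntegral.isIntegral x
  have : Finite F := Module.finite_of_finite k
  have : Fintype F := Fintype.ofFinite F
  obtain ⟨t₀, ht₀⟩ : ∃ x : F, algebraMap F (AlgebraicClosure k) x = t :=
    ⟨⟨t, IntermediateField.subset_adjoin _ _ (by simp)⟩, rfl⟩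
  obtain ⟨θ₀, hθ₀⟩ : ∃ x : F, algebraMap F (AlgebraicClosure k) x = θ :=
    ⟨⟨θ, IntermediateField.subset_adjoin _ _ (by simp)⟩, rfl⟩
  obtain ⟨η₀, hη₀⟩ : ∃ x : F, algebraMap F (AlgebraicClosure k) x = η :=
    ⟨⟨η, IntermediateField.subset_adjoin _ _ (by simp)⟩, rfl⟩
  obtain ⟨z₀, hz₀⟩ : ∃ x : F, algebraMap F (AlgebraicClosure k) x = z :=
    ⟨⟨z, IntermediateField.subset_adjoin _ _ (by simp)⟩, rfl⟩
  have hinj := (algebraMap F (AlgebraicClosure k)).injective
  refine rh_aux_field U V M n₁ n₂ hM hU f Ξ hf hΞ hsum hloc F t₀ θ₀ η₀ z₀ (fun h => ht ?_)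
    (hinj ?_) (hinj ?_) (hinj ?_) γ hγ
  · rw [← ht₀, aeval_algebraMap_apply, h, map_zero]
  all_goals
    simp only [map_add, map_mul, map_pow, ← aeval_algebraMap_apply, ht₀, hθ₀, hη₀, hz₀]
    assumption

end Pool.Agent.Lib.MP_a3f657_nt.Two.Rh
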