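import Pool.Agent.Lib.MP_a3f657_nt.C2RhDeg

/-!
The Bombieri-Stepanov upper bound.
-/

namespace Pool.Agent.Lib.MP_a3f657_nt.Two.Rh

open Polynomial Module

theorem sum_ne_zero_of_orders {F : Type} [Field F] {κ : Type} [Fintype κ] (S : ℕ)
    (f g : κ → PowerSeries F) (o : κ → ℕ) (ho : ∀ i, (f i).order = o i) (hS : ∀ i, o i < S)
    (hinj : Function.Injective o) (hg : ∃ i, g i ≠ 0) : ∑ i, f i * g i ^ S ≠ 0 := by
  classical
  obtain ⟨i₁, hi₁⟩ := hg
  have hord : ∀ i, g i ≠ 0 →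
      (f i * g i ^ S).order = ((o i + S * (g i).order.toNat : ℕ) : ℕ∞) := fun i hi => by
    rw [PowerSeries.order_mul, PowerSeries.order_pow, ho,
      ← ENat.natCast_toNat (PowerSeries.order_eq_top.not.2 hi)]
    simp
  obtain ⟨i₀, hi₀, hmin⟩ := Finset.exists_min_image (Finset.univ.filter fun i => g i ≠ 0)
    (fun i => o i + S * (g i).order.toNat) ⟨i₁, by simpa using hi₁⟩
  have hi₀' : g i₀ ≠ 0 := by simpa using hi₀
  intro h
  have h2 := congrArg (PowerSeries.coeff (o i₀ + S * (g i₀).order.toNat)) h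
  rw [map_sum, Finset.sum_eq_single i₀, map_zero] at h2
  · have h3 := hord i₀ hi₀'
    have h4 : f i₀ * g i₀ ^ S ≠ 0 := by
      rw [Ne, ← PowerSeries.order_eq_top, h3]
      exact ENat.natCast_ne_top _
    have h5 := PowerSeries.coeff_order h4
    rw [h3, ENat.toNat_natCast] at h5
    exact h5 h2
  · intro j _ hj
    by_cases hgj : g j = 0
    · rw [hgj, zero_pow (by have := hS j; omega), mul_zero, map_zero]
    refine PowerSeries.coeff_of_lt_order _ ?_
    rw [hord j hgj]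
    have h6 := hmin j (by simpa using hgj)
    have h7 : o i₀ + S * (g i₀).order.toNat ≠ o j + S * (g j).order.toNat := fun h => by
      have := congrArg (· % S) h
      simp only [Nat.add_mul_mod_self_left, Nat.mod_eq_of_lt (hS _)] at this
      exact hj (hinj this).symm
    exact_mod_cast lt_of_le_of_ne h6 h7
  · simp

variable {F : Type} [Field F] {B : Type} [CommRing B] [Algebra F[X] B] [Algebra F B]
  [IsScalarTower F F[X] B] {n : ℕ} (e : Basis (Fin n) F[X] B) [IsDomain B]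

theorem exists_orders (ι : B →ₐ[F] PowerSeries F) (hι : Function.Injective ι) {π : B}
    (hπ : ι π = PowerSeries.X) {c : ℕ} (hc : ∀ i j, Dg e (e i * e j) c) (l S : ℕ)
    (hS : n * (l + c) < S) :
    ∃ (O : Finset ℕ) (f : O → B), n * (l + 1) ≤ O.card ∧ (∀ o ∈ O, o < S) ∧
      ∀ o, Dg e (f o) l ∧ (ι (f o)).order = (o : ℕ) := by
  classical
  let O := (Finset.range S).filter fun o => ∃ f, Dg e f l ∧ (ι f).order = (o : ℕ)
  have hO : ∀ o : O, ∃ f, Dg e f l ∧ (ι f).order = (o : ℕ) := fun o =>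
    (Finset.mem_filter.1 o.2).2
  choose f hf using hO
  refine ⟨O, f, ?_, fun o ho => Finset.mem_range.1 (Finset.mem_filter.1 ho).1, hf⟩
  let L : Vm e l →ₗ[F] (O → F) := LinearMap.pi fun o =>
    (PowerSeries.coeff (o : ℕ)) ∘ₗ ι.toLinearMap ∘ₗ (Vm e l).subtype
  have hL : Function.Injective L := by
    rw [injective_iff_map_eq_zero]
    intro b hb
    by_contra hb0
    have h1 : (b : B) ≠ 0 := fun h => hb0 (Subtype.ext h)
    have h2 : ι b ≠ 0 := fun h => h1 (hι (by rw [h, map_zero]))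
    have h3 := ENat.natCast_toNat (PowerSeries.order_eq_top.not.2 h2)
    have h4 := (order_le_norm e ι hπ h1 _ h3.le).trans (Dg.natDegree_norm hc b.2)
    have h5 : (ι b).order.toNat ∈ O :=
      Finset.mem_filter.2 ⟨Finset.mem_range.2 (by omega), b, b.2, h3.symm⟩
    exact PowerSeries.coeff_order h2 (congrFun hb ⟨_, h5⟩)
  have := LinearMap.finrank_le_finrank_of_injective hL
  rwa [finrank_Vm, finrank_fintype_fun_eq_card, Fintype.card_coe] at this

include e in
theorem bombieri [Fintype F] (ι : B →ₐ[F] PowerSeries F) (hι : Function.Injective ι) {π : B}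
    (hπ : ι π = PowerSeries.X) (σ : B →ₐ[F[X]] B) (K : Type) [Field K] [Algebra F K] :
    ∃ C S₀ : ℕ, ∀ j, S₀ ≤ Fintype.card F ^ j → ∀ s : Finset (B →ₐ[F] K),
      (∀ x ∈ s, ∀ b, x b ^ ((Fintype.card F ^ j) ^ 2) = x (σ b)) →
      s.card ≤ (Fintype.card F ^ j) ^ 2 + C * Fintype.card F ^ j := by
  classical
  have hn : 0 < n := by
    rcases Nat.eq_zero_or_pos n with h | h
    · subst h
      exact absurd (e.repr.injective (Subsingleton.elim _ _)) (zero_ne_one (α := B))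
    · exact h
  obtain ⟨c₁, hc₁⟩ := exists_dg (e := e) fun x : Fin n × Fin n => e x.1 * e x.2
  obtain ⟨c₂, hc₂⟩ := exists_dg (e := e) fun _ : Unit => (1 : B)
  obtain ⟨c₃, hc₃⟩ := exists_dg (e := e) fun j : Fin n => σ (e j)
  set c := c₁ + c₂ + c₃ with hcdef
  have hc : ∀ i j, Dg e (e i * e j) c := fun i j => (hc₁ (i, j)).mono (by omega)
  have h1 : Dg e 1 c := (hc₂ ()).mono (by omega)
  have hσ : ∀ j, Dg e (σ.toLinearMap (e j)) c := fun j => (hc₃ j).mono (by omega)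
  clear_value c
  refine ⟨1 + 2 * n * (c + 1) + 4 * (n * c), 2 * n * (c + 1) + 2 * c + 1, fun j hj s hs => ?_⟩
  have hfB : ∀ (κ : Type) [Fintype κ] (u : κ → K),
      (∑ i, u i) ^ Fintype.card F ^ j = ∑ i, u i ^ Fintype.card F ^ j := fun κ _ u => by
    have := map_sum (FiniteField.frobeniusAlgHom F K ^ j) u Finset.univ
    simpa only [AlgHom.coe_pow, FiniteField.coe_frobeniusAlgHom, pow_iterate] using this
  generalize Fintype.card F ^ j = S at hj hs hfB ⊢
  obtain ⟨l, hl1, hl2⟩ : ∃ l, 2 * n * l ≤ S ∧ S < 2 * n * (l + 1) :=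
    ⟨S / (2 * n), Nat.mul_div_le _ _, Nat.lt_mul_div_succ _ (by omega)⟩
  obtain ⟨m, hm1, hm2⟩ : ∃ m, n * m ≤ S + 2 * n * (c + 1) ∧ S + 2 * n * (c + 1) < n * (m + 1) :=
    ⟨_ / n, Nat.mul_div_le _ _, Nat.lt_mul_div_succ _ hn⟩
  obtain ⟨O, f, hO1, hO2, hf⟩ := exists_orders e ι hι hπ hc l S (by nlinarith)
  let Φ₀ : (O → Vm e m) →ₗ[F] B := ∑ o : O, (LinearMap.mulLeft F (f o ^ S)) ∘ₗ
    (σ.toLinearMap.restrictScalars F) ∘ₗ (Vm e m).subtype ∘ₗ LinearMap.proj o
  have hΦ₀ : ∀ g, Φ₀ g = ∑ o : O, f o ^ S * σ (g o) := fun g => by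
    simp [Φ₀, LinearMap.sum_apply]
  let Φ := Φ₀.codRestrict (Vm e (S * (l + c) + c + (m + c) + c)) fun g => by
    rw [hΦ₀]
    exact Dg.sum _ _ fun o _ => (Dg.pow hc h1 (hf o).1 S).mul hc (Dg.map (g o).2 _ hσ)
  have hker : LinearMap.ker Φ ≠ ⊥ := by
    refine LinearMap.ker_ne_bot_of_finrank_lt ?_
    rw [finrank_Vm, finrank_pi_fintype, Finset.sum_const, finrank_Vm, Finset.card_univ,
      Fintype.card_coe, smul_eq_mul]
    refine lt_of_lt_of_le ?_ (Nat.mul_le_mul_right _ hO1)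
    rw [mul_assoc]
    refine Nat.mul_lt_mul_of_pos_left ?_ hn
    have hm3 : m ≤ n * m := Nat.le_mul_of_pos_left _ hn
    have h2 : (l + 1) * (S + 2 * n * (c + 1) + 1) ≤ (l + 1) * (n * (m + 1)) :=
      Nat.mul_le_mul_left _ hm2
    have h3 : (S + 1) * (c + 1) ≤ 2 * n * (l + 1) * (c + 1) := Nat.mul_le_mul_right _ hl2
    nlinarith
  obtain ⟨g, hg, hg0⟩ := Submodule.exists_mem_ne_zero_of_ne_bot hker
  have hg1 : ∑ o : O, f o ^ S * σ (g o) = 0 := by
    rw [← hΦ₀]
    exact congrArg Subtype.val (LinearMap.mem_ker.1 hg)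
  have hΨ : ∑ o : O, f o * (g o : B) ^ S ≠ 0 := by
    intro h
    have h2 := congrArg ι h
    simp only [map_sum, map_mul, map_pow, map_zero] at h2
    refine sum_ne_zero_of_orders S (fun o : O => ι (f o)) (fun o => ι (g o)) (fun o => o)
      (fun o => (hf o).2) (fun o => hO2 o o.2) Subtype.val_injective ?_ h2
    obtain ⟨o, ho⟩ := Function.ne_iff.1 hg0
    exact ⟨o, fun h => ho (Subtype.ext (hι (by rw [h]; simp)))⟩
  have hD : Dg e (∑ o : O, f o * (g o : B) ^ S) (l + (S * (m + c) + c) + c) :=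
    Dg.sum _ _ fun o _ => (hf o).1.mul hc (Dg.pow hc h1 (g o).2 S)
  refine (card_zeros_le e hΨ s fun x hx => ?_).trans ((hD.natDegree_norm hc).trans ?_)
  · have h2 := congrArg x hg1
    rw [map_sum, map_zero] at h2
    refine pow_eq_zero_iff (n := S) (by omega) |>.1 ?_
    rw [map_sum, hfB, ← h2]
    refine Finset.sum_congr rfl fun o _ => ?_
    rw [map_mul, map_mul, map_pow, map_pow, mul_pow, ← hs x hx, ← pow_mul, sq]
  · have h2 : S * (n * m) ≤ S * (S + 2 * n * (c + 1)) := Nat.mul_le_mul_left _ hm1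
    have h3 : n * c ≤ n * c * S := Nat.le_mul_of_pos_right _ (by omega)
    nlinarith

end Pool.Agent.Lib.MP_a3f657_nt.Two.Rh
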