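import Mathlib

/-!
The counting step: upper bounds for all twists give a lower bound for a class function sum.
-/

namespace Pool.Agent.Lib.MP_a3f657_nt.Two.Rh

theorem cheb {Ω K Γ : Type} [Group Γ] [MulAction Γ Ω] (base : Ω → K) (Pt : Ω → Prop)
    (G : Finset Γ) (hG1 : 1 ∈ G) (Bad T : Finset K) (Fr : Ω → Ω) (W : ℝ) (f : K → ℝ) (Ξ : Γ → ℝ)
    (hbase : ∀ (γ : Γ) p, base (γ • p) = base p)
    (hfree : ∀ p, Pt p → base p ∉ Bad → ∀ γ : Γ, γ • p = p → γ = 1)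
    (htrans : ∀ p p', Pt p → Pt p' → base p ∉ Bad → base p' = base p → ∃ γ ∈ G, p' = γ • p)
    (hG : ∀ γ ∈ G, ∀ p, Pt p → Pt (γ • p)) (hex : ∀ a, ∃ p, Pt p ∧ base p = a)
    (hT : ∀ p, base p ∈ T → base (Fr p) = base p) (hFr : ∀ p, Pt p → Pt (Fr p))
    (hW : ∀ γ ∈ G, ∀ s : Finset Ω, (∀ p ∈ s, Pt p ∧ Fr p = γ • p) → (s.card : ℝ) ≤ W)
    (hf : ∀ a, -2 ≤ f a) (hΞ : ∀ γ, Ξ γ ≤ 2) (hsum : 0 ≤ ∑ γ ∈ G, Ξ γ)
    (hfΞ : ∀ p, Pt p → base p ∉ Bad → base p ∈ T → ∀ γ : Γ, Fr p = γ • p → f (base p) = Ξ γ) :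
    -2 * (W - T.card) - 4 * Bad.card ≤ ∑ a ∈ T, f a := by
  classical
  choose pt hpt hpt' using hex
  have hc : ∀ x : K × Γ, ∃ γ, x ∈ (T \ Bad) ×ˢ G →
      γ ∈ G ∧ Fr (x.2 • pt x.1) = γ • x.2 • pt x.1 := fun x => by
    by_cases hx : x ∈ (T \ Bad) ×ˢ G
    · obtain ⟨h1, h2⟩ := Finset.mem_product.1 hx
      obtain ⟨h3, h4⟩ := Finset.mem_sdiff.1 h1
      have h5 := hG _ h2 _ (hpt x.1)
      obtain ⟨γ, h6, h7⟩ := htrans _ _ h5 (hFr _ h5) (by rwa [hbase, hpt'])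
        (hT _ (by rwa [hbase, hpt']))
      exact ⟨γ, fun _ => ⟨h6, h7⟩⟩
    · exact ⟨1, fun h => absurd h hx⟩
  choose c hc using hc
  let N : Γ → ℝ := fun γ => (((T \ Bad) ×ˢ G).filter fun x => c x = γ).card
  have hN : ∀ γ ∈ G, N γ ≤ W := fun γ hγ => by
    have h1 := hW γ hγ ((((T \ Bad) ×ˢ G).filter fun x => c x = γ).image
      fun x => x.2 • pt x.1) fun p hp => by
        obtain ⟨x, hx, rfl⟩ := Finset.mem_image.1 hp
        obtain ⟨h1, h2⟩ := Finset.mem_filter.1 hx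
        exact ⟨hG _ (Finset.mem_product.1 h1).2 _ (hpt _), h2 ▸ (hc x h1).2⟩
    rwa [Finset.card_image_of_injOn] at h1
    rintro ⟨a, δ⟩ hx ⟨a', δ'⟩ - h
    have h2 : a = a' := by simpa only [hbase, hpt'] using congrArg base h
    subst h2
    have h3 := (Finset.mem_sdiff.1 (Finset.mem_product.1 (Finset.mem_filter.1 hx).1).1).2
    have h4 := hfree (pt a) (hpt a) (by rwa [hpt']) (δ'⁻¹ * δ) (by
      rw [mul_smul, inv_smul_eq_iff]; exact h)
    rw [inv_mul_eq_one] at h4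
    rw [h4]
  have hNsum : ∑ γ ∈ G, N γ = (T \ Bad).card * G.card := by
    have := Finset.card_eq_sum_card_fiberwise (f := c) (s := (T \ Bad) ×ˢ G) (t := G)
      fun x hx => (hc x hx).1
    rw [Finset.card_product] at this
    simp only [N]
    exact_mod_cast this.symm
  have hmain : G.card * ∑ a ∈ T \ Bad, f a = ∑ γ ∈ G, Ξ γ * N γ := by
    have h1 : ∑ x ∈ (T \ Bad) ×ˢ G, Ξ (c x) = G.card * ∑ a ∈ T \ Bad, f a := by
      rw [Finset.sum_product, Finset.mul_sum]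
      refine Finset.sum_congr rfl fun a ha => ?_
      rw [← nsmul_eq_mul, ← Finset.sum_const]
      refine Finset.sum_congr rfl fun δ hδ => ?_
      obtain ⟨h3, h4⟩ := Finset.mem_sdiff.1 ha
      have := hfΞ _ (hG _ hδ _ (hpt a)) (by rwa [hbase, hpt']) (by rwa [hbase, hpt']) _
        (hc (a, δ) (Finset.mem_product.2 ⟨ha, hδ⟩)).2
      rw [← this, hbase, hpt']
    rw [← h1, ← Finset.sum_fiberwise_of_maps_to (g := c) (t := G) fun x hx => (hc x hx).1]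
    refine Finset.sum_congr rfl fun γ _ => ?_
    rw [Finset.sum_congr rfl fun x hx => by rw [(Finset.mem_filter.1 hx).2], Finset.sum_const,
      nsmul_eq_mul, mul_comm]
  have hW0 : 0 ≤ W := le_trans (Nat.cast_nonneg _) (hN 1 hG1)
  have h2 : W * ∑ γ ∈ G, Ξ γ - 2 * (G.card * W - ∑ γ ∈ G, N γ) ≤ ∑ γ ∈ G, Ξ γ * N γ := by
    rw [← nsmul_eq_mul, ← Finset.sum_const, ← Finset.sum_sub_distrib, Finset.mul_sum,
      Finset.mul_sum, ← Finset.sum_sub_distrib]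
    refine Finset.sum_le_sum fun γ hγ => ?_
    nlinarith [hN γ hγ, hΞ γ]
  have hGpos : (0 : ℝ) < G.card := by exact_mod_cast Finset.card_pos.2 ⟨1, hG1⟩
  have h3 : -2 * (W - (T \ Bad).card) ≤ ∑ a ∈ T \ Bad, f a := by
    refine le_of_mul_le_mul_left ?_ hGpos
    rw [hmain]
    nlinarith [mul_nonneg hW0 hsum]
  have h4 : (T.card : ℝ) ≤ (T \ Bad).card + Bad.card := by
    exact_mod_cast Finset.card_le_card_sdiff_add_card
  have h5 : -2 * (Bad.card : ℝ) ≤ ∑ a ∈ T ∩ Bad, f a := by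
    have h6 := Finset.card_nsmul_le_sum (T ∩ Bad) f (-2) fun a _ => hf a
    have h7 : ((T ∩ Bad).card : ℝ) ≤ Bad.card := by
      exact_mod_cast Finset.card_le_card Finset.inter_subset_right
    rw [nsmul_eq_mul] at h6
    linarith
  rw [← Finset.sum_inter_add_sum_sdiff T Bad f]
  linarith

theorem re_sum_nonneg {Γ : Type} [Group Γ] [Finite Γ] (H : Finset Γ) (f : Γ → ℂ)
    (hH : ∀ a ∈ H, ∀ b ∈ H, a * b ∈ H) (hf : ∀ a ∈ H, ∀ b ∈ H, f (a * b) = f a * f b) :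
    0 ≤ (∑ γ ∈ H, f γ).re := by
  classical
  by_cases h : ∀ b ∈ H, f b = 1
  · rw [Finset.sum_congr rfl h]
    simp
  push Not at h
  obtain ⟨b, hb, hb1⟩ := h
  have h2 : H.image (b * ·) = H := by
    refine Finset.eq_of_subset_of_card_le (fun x hx => ?_) ?_
    · obtain ⟨y, hy, rfl⟩ := Finset.mem_image.1 hx
      exact hH _ hb _ hy
    · rw [Finset.card_image_of_injective _ (mul_right_injective b)]
  have h3 : ∑ γ ∈ H, f γ = f b * ∑ γ ∈ H, f γ := by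
    conv_lhs => rw [← h2]
    rw [Finset.sum_image (fun x _ y _ h => mul_right_injective b h), Finset.mul_sum]
    exact Finset.sum_congr rfl fun γ hγ => hf _ hb _ hγ
  have h4 : ∑ γ ∈ H, f γ = 0 := by
    by_contra h0
    exact hb1 (mul_right_cancel₀ h0 (by rw [← h3, one_mul]))
  rw [h4]
  simp

end Pool.Agent.Lib.MP_a3f657_nt.Two.Rh
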