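import Pool.Agent.Lib.MP_a3f657_nt.C2RhSeries

/-!
The explicit cover: equations, substitutions and the group action on solutions.
-/

namespace Pool.Agent.Lib.MP_a3f657_nt.Two.Rh

open Polynomial Module TensorProduct

/-- The Heisenberg group over the field with two elements. -/
def Hs : Type := ZMod 2 × ZMod 2 × ZMod 2

instance : DecidableEq Hs := inferInstanceAs (DecidableEq (ZMod 2 × ZMod 2 × ZMod 2))
instance : Fintype Hs := inferInstanceAs (Fintype (ZMod 2 × ZMod 2 × ZMod 2))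
instance : Mul Hs := ⟨fun a b => (a.1 + b.1, a.2.1 + b.2.1, a.2.2 + b.2.2 + a.1 * b.2.1)⟩
instance : One Hs := ⟨(0, 0, 0)⟩
instance : Inv Hs := ⟨fun a => (a.1, a.2.1, a.2.2 + a.1 * a.2.1)⟩
instance : Group Hs := Group.ofLeftAxioms (by decide) (by decide) (by decide)

theorem Hs.mul_1 (a b : Hs) : (a * b).1 = a.1 + b.1 := rfl
theorem Hs.mul_2 (a b : Hs) : (a * b).2.1 = a.2.1 + b.2.1 := rfl
theorem Hs.mul_3 (a b : Hs) : (a * b).2.2 = a.2.2 + b.2.2 + a.1 * b.2.1 := rfl

/-- The image of an element of `ZMod 2` in a ring. -/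
def cz (S : Type) [CommRing S] (a : ZMod 2) : S := (a.val : S)

section cz

variable {S : Type} [CommRing S]

theorem cz_zero : cz S 0 = 0 := by simp [cz]

theorem cz_one : cz S 1 = 1 := by simp [cz, ZMod.val_one]

theorem zmod_cases (a : ZMod 2) : a = 0 ∨ a = 1 := by
  revert a
  decide

theorem cz_mul (a b : ZMod 2) : cz S (a * b) = cz S a * cz S b := by
  rcases zmod_cases a with rfl | rfl <;> simp [cz_zero, cz_one]

theorem cz_add [CharP S 2] (a b : ZMod 2) : cz S (a + b) = cz S a + cz S b := by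
  rcases zmod_cases a with rfl | rfl <;> rcases zmod_cases b with rfl | rfl <;>
    simp [cz_zero, cz_one, CharTwo.add_self_eq_zero]

theorem cz_eq_zero [Nontrivial S] {a : ZMod 2} (h : cz S a = 0) : a = 0 := by
  rcases zmod_cases a with rfl | rfl
  · rfl
  · exact absurd (cz_one.symm.trans h) one_ne_zero

theorem exists_cz {K : Type} [Field K] [CharP K 2] {μ δ : K} (h : δ ^ 2 + μ * δ = 0) :
    ∃ a : ZMod 2, δ = cz K a * μ := by
  have : δ * (δ + μ) = 0 := by linear_combination h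
  rcases mul_eq_zero.1 this with h1 | h1
  · exact ⟨0, by rw [h1, cz_zero, zero_mul]⟩
  · exact ⟨1, by rw [cz_one, one_mul, ← CharTwo.add_eq_zero, h1]⟩

end cz

variable {k : Type} [Field k] {R : Type} [CommRing R] [Algebra k R] {d : ℕ}
  (e : Basis (Fin d) k R) (F : Type) [Field F] [Algebra k F]

/-- The polynomial ring in which the cover lives. -/
abbrev PP (d : ℕ) : Type := MvPolynomial (Fin 3 ⊕ Fin d) F[X]

/-- The generic element. -/
noncomputable def ygen : PP F d ⊗[k] R :=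
  (bs (PP F d) e).equivFun.symm fun j => MvPolynomial.X (Sum.inr j)

variable {F} {S S' : Type} [CommRing S] [Algebra k S] [Algebra F S] [IsScalarTower k F S]
  [CommRing S'] [Algebra k S'] [Algebra F S'] [IsScalarTower k F S']

/-- The base coordinate. -/
noncomputable def ba (ψ : PP F d →ₐ[F] S) : S := ψ (algebraMap F[X] (PP F d) X)

/-- The three Artin-Schreier coordinates. -/
noncomputable def co (ψ : PP F d →ₐ[F] S) (i : Fin 3) : S := ψ (MvPolynomial.X (Sum.inl i))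

/-- The Lang coordinate. -/
noncomputable def yy (ψ : PP F d →ₐ[F] S) : S ⊗[k] R := mp R (ψ.restrictScalars k) (ygen e F)

theorem repr_ygen (j : Fin d) :
    (bs (PP F d) e).repr (ygen e F) j = MvPolynomial.X (Sum.inr j) := by
  rw [ygen, ← Basis.equivFun_apply, LinearEquiv.apply_symm_apply]

theorem repr_yy (ψ : PP F d →ₐ[F] S) (j : Fin d) :
    (bs S e).repr (yy e ψ) j = ψ (MvPolynomial.X (Sum.inr j)) := by
  rw [yy, repr_mp, repr_ygen]
  rfl

theorem hom_ext {ψ ψ' : PP F d →ₐ[F] S} (h1 : ba ψ = ba ψ') (h2 : ∀ i, co ψ i = co ψ' i)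
    (h3 : yy e ψ = yy e ψ') : ψ = ψ' := by
  refine MvPolynomial.algHom_ext' (Polynomial.algHom_ext h1) ?_
  rintro (i | j)
  · exact h2 i
  · rw [← repr_yy e, ← repr_yy e, h3]

theorem ba_comp (φ : S →ₐ[F] S') (ψ : PP F d →ₐ[F] S) : ba (φ.comp ψ) = φ (ba ψ) := rfl

theorem co_comp (φ : S →ₐ[F] S') (ψ : PP F d →ₐ[F] S) (i : Fin 3) :
    co (φ.comp ψ) i = φ (co ψ i) := rfl

theorem yy_comp (φ : S →ₐ[F] S') (ψ : PP F d →ₐ[F] S) :
    yy e (φ.comp ψ) = mp R (φ.restrictScalars k) (yy e ψ) := by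
  rw [yy, yy, mp_mp]
  rfl

theorem aeval_ba (ψ : PP F d →ₐ[F] S) (p : k[X]) :
    ψ (aeval (algebraMap F[X] (PP F d) X) p) = aeval (ba ψ) p :=
  (aeval_algHom_apply (ψ.restrictScalars k) _ p).symm

variable (M : k[X])

variable (F) in
/-- The substitution attached to a group element. -/
noncomputable def tau (γ : Hs × Rˣ) : PP F d →ₐ[F[X]] PP F d :=
  MvPolynomial.aeval (Sum.elim
    ![MvPolynomial.X (Sum.inl 0) + cz _ γ.1.1 * aeval (algebraMap F[X] (PP F d) X) M,
      MvPolynomial.X (Sum.inl 1) + cz _ γ.1.2.1 * aeval (algebraMap F[X] (PP F d) X) M,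
      MvPolynomial.X (Sum.inl 2) + cz _ γ.1.1 * MvPolynomial.X (Sum.inl 1) +
        cz _ γ.1.2.2 * aeval (algebraMap F[X] (PP F d) X) M]
    fun j => (bs (PP F d) e).repr ((1 ⊗ₜ (γ.2 : R)) * ygen e F) j)

/-- The action on solutions. -/
noncomputable def tw (γ : Hs × Rˣ) (ψ : PP F d →ₐ[F] S) : PP F d →ₐ[F] S :=
  ψ.comp ((tau e F M γ).restrictScalars F)

theorem tw_apply (γ : Hs × Rˣ) (ψ : PP F d →ₐ[F] S) (f : PP F d) :
    tw e M γ ψ f = ψ (tau e F M γ f) := rfl

theorem ba_tw (γ : Hs × Rˣ) (ψ : PP F d →ₐ[F] S) : ba (tw e M γ ψ) = ba ψ := by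
  rw [ba, tw_apply, AlgHom.commutes, ba]

theorem map_cz (ψ : S →ₐ[F] S') (a : ZMod 2) : ψ (cz S a) = cz S' a := map_natCast ψ _

theorem co_tw0 (γ : Hs × Rˣ) (ψ : PP F d →ₐ[F] S) :
    co (tw e M γ ψ) 0 = co ψ 0 + cz S γ.1.1 * aeval (ba ψ) M := by
  rw [co, tw_apply, tau, MvPolynomial.aeval_X, Sum.elim_inl, Matrix.cons_val_zero, map_add,
    map_mul, map_cz, aeval_ba, co]

theorem co_tw1 (γ : Hs × Rˣ) (ψ : PP F d →ₐ[F] S) :
    co (tw e M γ ψ) 1 = co ψ 1 + cz S γ.1.2.1 * aeval (ba ψ) M := by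
  rw [co, tw_apply, tau, MvPolynomial.aeval_X, Sum.elim_inl, Matrix.cons_val_one,
    Matrix.cons_val_zero, map_add, map_mul, map_cz, aeval_ba, co]

theorem co_tw2 (γ : Hs × Rˣ) (ψ : PP F d →ₐ[F] S) :
    co (tw e M γ ψ) 2 = co ψ 2 + cz S γ.1.1 * co ψ 1 + cz S γ.1.2.2 * aeval (ba ψ) M := by
  rw [co, tw_apply, tau, MvPolynomial.aeval_X, Sum.elim_inl, Matrix.cons_val_two,
    Matrix.tail_cons, Matrix.head_cons, map_add, map_add, map_mul, map_mul, map_cz, map_cz,
    aeval_ba, co, co]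

theorem yy_tw (γ : Hs × Rˣ) (ψ : PP F d →ₐ[F] S) :
    yy e (tw e M γ ψ) = (1 ⊗ₜ (γ.2 : R)) * yy e ψ := by
  refine (bs S e).ext_elem fun j => ?_
  rw [repr_yy, tw_apply, tau, MvPolynomial.aeval_X, Sum.elim_inr]
  refine (repr_mp e (ψ.restrictScalars k) _ j).symm.trans ?_
  rw [map_mul (mp R _), mp_tmul, map_one, yy]

variable (F S) in
/-- The group action on solutions. -/
@[reducible] noncomputable def act [CharP S 2] : MulAction (Hs × Rˣ) (PP F d →ₐ[F] S) where
  smul := tw e M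
  one_smul ψ := by
    change tw e M 1 ψ = ψ
    refine hom_ext e (ba_tw ..) (fun i => ?_) ?_
    · fin_cases i
      · exact (co_tw0 ..).trans (by change _ + cz S 0 * _ = _; simp [cz_zero])
      · exact (co_tw1 ..).trans (by change _ + cz S 0 * _ = _; simp [cz_zero])
      · exact (co_tw2 ..).trans (by change _ + cz S 0 * _ + cz S 0 * _ = _; simp [cz_zero])
    · rw [yy_tw]
      exact one_mul _
  mul_smul γ γ' ψ := by
    change tw e M (γ * γ') ψ = tw e M γ (tw e M γ' ψ)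
    refine hom_ext e (by simp only [ba_tw]) (fun i => ?_) ?_
    · fin_cases i
      · change co _ 0 = co _ 0
        simp only [co_tw0, ba_tw, Prod.fst_mul, Hs.mul_1, cz_add]
        ring
      · change co _ 1 = co _ 1
        simp only [co_tw1, ba_tw, Prod.fst_mul, Hs.mul_2, cz_add]
        ring
      · change co _ 2 = co _ 2
        simp only [co_tw1, co_tw2, ba_tw, Prod.fst_mul, Hs.mul_1, Hs.mul_3, cz_add, cz_mul]
        ring
    · simp only [yy_tw, Prod.snd_mul, Units.val_mul, ← mul_assoc,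
        Algebra.TensorProduct.tmul_mul_tmul, mul_one]

variable [Fintype k] (U V : R) (n₁ n₂ : k[X]) (ν : F ⊗[k] R)

/-- The equations of the cover. -/
structure Eqs (ψ : PP F d →ₐ[F] S) : Prop where
  e0 : co ψ 0 ^ 2 + aeval (ba ψ) M * co ψ 0 = aeval (ba ψ) M * aeval (ba ψ) n₁
  e1 : co ψ 1 ^ 2 + aeval (ba ψ) M * co ψ 1 = aeval (ba ψ) M * aeval (ba ψ) n₂
  e2 : co ψ 2 ^ 2 + aeval (ba ψ) M * co ψ 2 = co ψ 0 * aeval (ba ψ) n₂
  ey : mp R (FiniteField.frobeniusAlgHom k S) (yy e ψ) =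
    ell U V (ba ψ) * mp R (IsScalarTower.toAlgHom k F S) ν * yy e ψ

variable {e M U V n₁ n₂ ν}

theorem Eqs.transfer {ψ : PP F d →ₐ[F] S} (h : Eqs e M U V n₁ n₂ ν ψ) {ψ' : PP F d →ₐ[F] S'}
    (hψ : ∀ f, ψ f = 0 → ψ' f = 0) : Eqs e M U V n₁ n₂ ν ψ' := by
  have key : ∀ f g, ψ f = ψ g → ψ' f = ψ' g := fun f g h => by
    rw [← sub_eq_zero, ← map_sub] at h ⊢
    exact hψ _ h
  let I := AlgHom.id F (PP F d)
  have ky : ∀ {S : Type} [CommRing S] [Algebra k S] [Algebra F S] [IsScalarTower k F S]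
      (ψ : PP F d →ₐ[F] S), mp R (FiniteField.frobeniusAlgHom k S) (yy e ψ) =
      ell U V (ba ψ) * mp R (IsScalarTower.toAlgHom k F S) ν * yy e ψ ↔
      ∀ j, ψ ((bs (PP F d) e).repr (mp R (FiniteField.frobeniusAlgHom k _) (ygen e F)) j) =
        ψ ((bs (PP F d) e).repr (ell U V (ba I) * mp R (IsScalarTower.toAlgHom k F _) ν *
          ygen e F) j) := fun {S} _ _ _ _ ψ => by
    rw [(bs S e).ext_elem_iff]
    refine forall_congr' fun j => ?_
    have h1 := repr_mp e (ψ.restrictScalars k)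
    simp only [AlgHom.restrictScalars_apply] at h1
    rw [← h1, ← h1, map_mul (mp R _), map_mul (mp R _), mp_ell, mp_mp, mp_mp, yy, mp_mp]
    have h2 : (FiniteField.frobeniusAlgHom k S).comp (ψ.restrictScalars k) =
        (ψ.restrictScalars k).comp (FiniteField.frobeniusAlgHom k _) := by
      refine AlgHom.ext fun x => ?_
      simp only [AlgHom.comp_apply, FiniteField.coe_frobeniusAlgHom, map_pow]
    have h3 : (ψ.restrictScalars k).comp (IsScalarTower.toAlgHom k F (PP F d)) =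
        IsScalarTower.toAlgHom k F S := AlgHom.ext fun x => ψ.commutes x
    rw [h2, h3]
    rfl
  refine ⟨?_, ?_, ?_, (ky ψ').2 fun j => key _ _ ((ky ψ).1 h.ey j)⟩
  · have := key (co I 0 ^ 2 + aeval (ba I) M * co I 0) (aeval (ba I) M * aeval (ba I) n₁)
    simp only [map_add, map_mul, map_pow, ba, co, I, AlgHom.id_apply, aeval_ba] at this
    exact this h.e0
  · have := key (co I 1 ^ 2 + aeval (ba I) M * co I 1) (aeval (ba I) M * aeval (ba I) n₂)
    simp only [map_add, map_mul, map_pow, ba, co, I, AlgHom.id_apply, aeval_ba] at this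
    exact this h.e1
  · have := key (co I 2 ^ 2 + aeval (ba I) M * co I 2) (co I 0 * aeval (ba I) n₂)
    simp only [map_add, map_mul, map_pow, ba, co, I, AlgHom.id_apply, aeval_ba] at this
    exact this h.e2

end Pool.Agent.Lib.MP_a3f657_nt.Two.Rh
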