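import Pool.Agent.Lib.MP_a3f657_nt.C2RhBomb

/-!
Curves given by the kernel of a map to a power series ring.
-/

namespace Pool.Agent.Lib.MP_a3f657_nt.Two.Rh

open Polynomial Module TensorProduct

theorem aeval_shift_injective {F : Type} [Field F] (t₀ : F) {p : F[X]}
    (h : aeval (PowerSeries.C t₀ + PowerSeries.X : PowerSeries F) p = 0) : p = 0 := by
  have h1 : (PowerSeries.C t₀ + PowerSeries.X : PowerSeries F) =
      coeToPowerSeries.algHom F (X + C t₀) := by
    simp [add_comm]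
  rw [h1, aeval_algHom_apply] at h
  have h2 : ((taylor t₀ p : F[X]) : PowerSeries F) = 0 := by
    simpa [taylor_apply, comp_eq_aeval] using h
  exact taylor_injective t₀ (by rw [Polynomial.coe_eq_zero_iff.1 h2, map_zero])

theorem exists_point {F : Type} [Field F] {B : Type} [CommRing B] [Nontrivial B] [Algebra F[X] B]
    [Algebra F B] [IsScalarTower F F[X] B] [Module.Finite F[X] B] [Module.Free F[X] B]
    {K : Type} [Field K] [IsAlgClosed K] [Algebra F K] (a : K) :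
    ∃ x : B →ₐ[F] K, x (algebraMap F[X] B X) = a := by
  letI : Algebra F[X] K := (aeval a : F[X] →ₐ[F] K).toRingHom.toAlgebra
  haveI : IsScalarTower F F[X] K := IsScalarTower.of_algebraMap_eq fun c =>
    ((aeval a : F[X] →ₐ[F] K).commutes c).symm
  obtain ⟨m, hm⟩ := Ideal.exists_maximal (K ⊗[F[X]] B)
  let ψ : K ≃ₐ[K] (K ⊗[F[X]] B) ⧸ m := AlgEquiv.ofBijective (Algebra.ofId _ _)
    IsAlgClosed.algebraMap_bijective_of_isIntegral
  let y : B →ₐ[F[X]] K := ((ψ.symm.toAlgHom.comp (Ideal.Quotient.mkₐ K m)).restrictScalars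
    F[X]).comp Algebra.TensorProduct.includeRight
  refine ⟨y.restrictScalars F, ?_⟩
  rw [AlgHom.restrictScalars_apply, AlgHom.commutes]
  exact aeval_X a

variable {F : Type} [Field F] {P : Type} [CommRing P] [Algebra F[X] P] [Algebra F P]
  [IsScalarTower F F[X] P] (Φ : P →ₐ[F] PowerSeries F) {t₀ : F}
  (hX : Φ (algebraMap F[X] P X) = PowerSeries.C t₀ + PowerSeries.X)
  (hfin : Module.Finite F[X] (P ⧸ RingHom.ker Φ)) (K : Type) [Field K] [Algebra F K]

theorem isDomain_quot : IsDomain (P ⧸ RingHom.ker Φ) :=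
  (Ideal.kerLiftAlg_injective Φ).isDomain (Ideal.kerLiftAlg Φ).toRingHom

include hX hfin in
theorem free_quot : Module.Free F[X] (P ⧸ RingHom.ker Φ) := by
  have := isDomain_quot Φ
  have : IsTorsionFree F[X] (P ⧸ RingHom.ker Φ) := by
    rw [isTorsionFree_iff_algebraMap_injective, injective_iff_map_eq_zero]
    intro p hp
    have h1 : Φ (algebraMap F[X] P p) = 0 := Ideal.Quotient.eq_zero_iff_mem.1 hp
    have h2 : Φ.comp (IsScalarTower.toAlgHom F F[X] P) =
        aeval (PowerSeries.C t₀ + PowerSeries.X : PowerSeries F) := by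
      ext1
      simpa using hX
    exact aeval_shift_injective t₀ ((DFunLike.congr_fun h2 p).symm.trans h1)
  infer_instance

/-- Points of the curve. -/
def IsPt (x : P →ₐ[F] K) : Prop := ∀ f, Φ f = 0 → x f = 0

/-- The point on the quotient. -/
noncomputable def liftPt (x : {x : P →ₐ[F] K // IsPt Φ K x}) : (P ⧸ RingHom.ker Φ) →ₐ[F] K :=
  Ideal.Quotient.liftₐ _ x.1 x.2

theorem liftPt_injective : Function.Injective (liftPt Φ K) := fun x y h => by
  ext b
  exact DFunLike.congr_fun h (Ideal.Quotient.mk _ b)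

theorem card_le_of_lift (s : Finset (P →ₐ[F] K)) (hs : ∀ x ∈ s, IsPt Φ K x) :
    ∃ t : Finset ((P ⧸ RingHom.ker Φ) →ₐ[F] K), t.card = s.card ∧
      ∀ y ∈ t, ∃ x ∈ s, ∀ f, y (Ideal.Quotient.mk _ f) = x f := by
  classical
  refine ⟨s.attach.image fun x => liftPt Φ K ⟨x.1, hs _ x.2⟩, ?_, fun y hy => ?_⟩
  · rw [Finset.card_image_of_injective, Finset.card_attach]
    intro x y h
    exact Subtype.ext (Subtype.mk.inj (liftPt_injective Φ K h))
  · obtain ⟨x, -, rfl⟩ := Finset.mem_image.1 hy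
    exact ⟨x.1, x.2, fun f => rfl⟩

include hX hfin in
theorem finite_zeros {f : P} (hf : Φ f ≠ 0) : {x : P →ₐ[F] K | IsPt Φ K x ∧ x f = 0}.Finite := by
  have := isDomain_quot Φ
  have := free_quot Φ hX hfin
  have hf' : Ideal.Quotient.mk (RingHom.ker Φ) f ≠ 0 := fun h =>
    hf (Ideal.Quotient.eq_zero_iff_mem.1 h)
  by_contra hinf
  obtain ⟨s, hs, hc⟩ := Set.Infinite.exists_subset_card_eq hinf
    ((Algebra.norm F[X] (Ideal.Quotient.mk (RingHom.ker Φ) f)).natDegree + 1)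
  obtain ⟨t, ht, ht'⟩ := card_le_of_lift Φ K s fun x hx => (hs hx).1
  have := card_zeros_le (Module.finBasis F[X] _) hf' t fun y hy => by
    obtain ⟨x, hx, h⟩ := ht' y hy
    rw [h, (hs hx).2]
  omega

include hX hfin in
theorem exists_isPt [IsAlgClosed K] (a : K) :
    ∃ x : P →ₐ[F] K, IsPt Φ K x ∧ x (algebraMap F[X] P X) = a := by
  have := isDomain_quot Φ
  have := free_quot Φ hX hfin
  obtain ⟨y, hy⟩ := exists_point (F := F) (B := P ⧸ RingHom.ker Φ) a
  refine ⟨y.comp (Ideal.Quotient.mkₐ F _), fun f hf => ?_, hy⟩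
  rw [AlgHom.comp_apply, Ideal.Quotient.mkₐ_eq_mk, Ideal.Quotient.eq_zero_iff_mem.2 hf, map_zero]

include hX hfin in
theorem count_le [Fintype F] (τ : P →ₐ[F[X]] P) (hτ : ∀ f, Φ f = 0 → Φ (τ f) = 0) :
    ∃ C S₀ : ℕ, ∀ j, S₀ ≤ Fintype.card F ^ j → ∀ s : Finset (P →ₐ[F] K),
      (∀ x ∈ s, IsPt Φ K x ∧ ∀ f, x f ^ ((Fintype.card F ^ j) ^ 2) = x (τ f)) →
      s.card ≤ (Fintype.card F ^ j) ^ 2 + C * Fintype.card F ^ j := by
  have := isDomain_quot Φ
  have := free_quot Φ hX hfin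
  let σ : (P ⧸ RingHom.ker Φ) →ₐ[F[X]] (P ⧸ RingHom.ker Φ) :=
    Ideal.quotientMapₐ _ τ fun f hf => hτ f hf
  obtain ⟨C, S₀, h⟩ := bombieri (Module.finBasis F[X] (P ⧸ RingHom.ker Φ)) (Ideal.kerLiftAlg Φ)
    (Ideal.kerLiftAlg_injective Φ)
    (π := Ideal.Quotient.mk _ (algebraMap F[X] P X - algebraMap F P t₀))
    (by rw [Ideal.kerLiftAlg_mk, map_sub, hX, AlgHom.commutes]; simp) σ K
  refine ⟨C, S₀, fun j hj s hs => ?_⟩
  obtain ⟨t, ht, ht'⟩ := card_le_of_lift Φ K s fun x hx => (hs x hx).1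
  rw [← ht]
  refine h j hj t fun y hy b => ?_
  obtain ⟨x, hx, h⟩ := ht' y hy
  obtain ⟨f, rfl⟩ := Ideal.Quotient.mk_surjective b
  rw [h, (hs x hx).2, ← h]
  rfl

end Pool.Agent.Lib.MP_a3f657_nt.Two.Rh
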