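import Mathlib

/-!
Character sums over finite fields of characteristic two (definitions).
-/

namespace Pool.Agent.Lib.MP_a3f657_nt.Two

open Polynomial

attribute [local instance 10000] Classical.propDecidable

variable (k : Type) [Field k] [Fintype k]

/-- The elements of the subfield with `q ^ m` elements of the algebraic closure. -/
noncomputable def fixF (m : ℕ) : Finset (AlgebraicClosure k) :=
  (X ^ (Fintype.card k) ^ m - X : (AlgebraicClosure k)[X]).roots.toFinset

variable {k}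

/-- `1` if `z ^ 2 + z = b` is solvable in the field with `q ^ m` elements, `-1` otherwise. -/
noncomputable def sg (m : ℕ) (b : AlgebraicClosure k) : ℂ :=
  if ∃ z ∈ fixF k m, z ^ 2 + z = b then 1 else -1

variable {R : Type} [CommRing R] [Algebra k R]

/-- Homogeneous evaluation `V ^ deg f * f (U / V)`. -/
noncomputable def cl (U V : R) (f : k[X]) : R :=
  ∑ i ∈ Finset.range (f.natDegree + 1), f.coeff i • (U ^ i * V ^ (f.natDegree - i))

/-- The value of `χ` at the norm of `U - a V` from the field with `q ^ m` elements. -/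
noncomputable def chiN (U V : R) (χ : MulChar R ℂ) (m : ℕ) (a : AlgebraicClosure k) : ℂ :=
  χ (cl U V (minpoly k a)) ^ (m / (minpoly k a).natDegree)

/-- Character sum on the line. -/
noncomputable def sumP (U V : R) (χ : MulChar R ℂ) (M n₂ : k[X]) (m : ℕ) : ℂ :=
  ∑ a ∈ (fixF k m).filter (fun a => aeval a M ≠ 0),
    chiN U V χ m a * sg m (aeval a n₂ / aeval a M)

/-- Character sum on the curve `θ ^ 2 + θ = n₁ / M`. -/
noncomputable def sumK (U V : R) (χ : MulChar R ℂ) (M n₁ n₂ : k[X]) (m : ℕ) : ℂ :=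
  ∑ x ∈ (fixF k m ×ˢ fixF k m).filter
      (fun x => aeval x.1 M ≠ 0 ∧ x.2 ^ 2 + x.2 = aeval x.1 n₁ / aeval x.1 M),
    chiN U V χ m x.1 * sg m (x.2 * (aeval x.1 n₂ / aeval x.1 M))

/-- The Riemann hypothesis in the form needed on the line. -/
def RhP : Prop :=
  ∀ (k : Type) [Field k] [Fintype k] [CharP k 2] (R : Type) [CommRing R] [Algebra k R] [Finite R]
    (U V : R) (χ : MulChar R ℂ) (M n₂ : k[X]), M ≠ 0 →
    (∀ p : k[X], p.Monic → Irreducible p → ¬ p ∣ M → IsUnit (cl U V p)) →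
    ∀ γ : Multiset ℂ, (∀ m, 1 ≤ m → sumP U V χ M n₂ m = -(γ.map (· ^ m)).sum) →
      ∀ z ∈ γ, ‖z‖ ≤ √(Fintype.card k)

/-- The Riemann hypothesis in the form needed on the curve `θ ^ 2 + θ = n₁ / M`. -/
def RhK : Prop :=
  ∀ (k : Type) [Field k] [Fintype k] [CharP k 2] (R : Type) [CommRing R] [Algebra k R] [Finite R]
    (U V : R) (χ : MulChar R ℂ) (M n₁ n₂ : k[X]), M ≠ 0 →
    (∀ p : k[X], p.Monic → Irreducible p → ¬ p ∣ M → IsUnit (cl U V p)) →
    ∀ γ : Multiset ℂ, (∀ m, 1 ≤ m → sumK U V χ M n₁ n₂ m = -(γ.map (· ^ m)).sum) →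
      ∀ z ∈ γ, ‖z‖ ≤ √(Fintype.card k)

end Pool.Agent.Lib.MP_a3f657_nt.Two
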