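import Mathlib

/-!
Degree filtration on a finite free algebra over a polynomial ring.
-/

namespace Pool.Agent.Lib.MP_a3f657_nt.Two.Rh

open Polynomial Module

variable {F : Type} [Field F] {B : Type} [CommRing B] [Algebra F[X] B] [Algebra F B]
  [IsScalarTower F F[X] B] {n : ℕ} (e : Basis (Fin n) F[X] B)

/-- All coordinates have degree at most `m`. -/
def Dg (b : B) (m : ℕ) : Prop := ∀ i, (e.repr b i).natDegree ≤ m

variable {e}

theorem Dg.mono {b : B} {m m' : ℕ} (h : Dg e b m) (hm : m ≤ m') : Dg e b m' :=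
  fun i => (h i).trans hm

theorem Dg.zero (m : ℕ) : Dg e 0 m := fun i => by simp

theorem Dg.add {b b' : B} {m : ℕ} (h : Dg e b m) (h' : Dg e b' m) : Dg e (b + b') m := fun i => by
  rw [map_add, Finsupp.add_apply]
  exact natDegree_add_le_of_degree_le (h i) (h' i)

theorem Dg.sum {κ : Type} (s : Finset κ) (b : κ → B) {m : ℕ} (h : ∀ i ∈ s, Dg e (b i) m) :
    Dg e (∑ i ∈ s, b i) m := by
  classical
  induction s using Finset.induction_on with
  | empty => simpa using Dg.zero m
  | insert a s ha ih =>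
    rw [Finset.sum_insert ha]
    exact (h a (by simp)).add (ih fun i hi => h i (by simp [hi]))

theorem Dg.smul {b : B} {m s : ℕ} (h : Dg e b m) {a : F[X]} (ha : a.natDegree ≤ s) :
    Dg e (a • b) (s + m) := fun i => by
  rw [map_smul, Finsupp.smul_apply, smul_eq_mul]
  exact natDegree_mul_le.trans (add_le_add ha (h i))

theorem Dg.basis (j : Fin n) : Dg e (e j) 0 := fun i => by
  classical
  rw [e.repr_self, Finsupp.single_apply]
  split_ifs <;> simp

theorem exists_dg {κ : Type} [Finite κ] (b : κ → B) : ∃ c, ∀ j, Dg e (b j) c := by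
  obtain ⟨c, hc⟩ := (Set.finite_range
    (fun x : κ × Fin n => (e.repr (b x.1) x.2).natDegree)).bddAbove
  exact ⟨c, fun j i => hc ⟨(j, i), rfl⟩⟩

theorem Dg.map {c m : ℕ} {b : B} (h : Dg e b m) (σ : B →ₗ[F[X]] B) (hσ : ∀ j, Dg e (σ (e j)) c) :
    Dg e (σ b) (m + c) := by
  rw [← e.sum_repr b, map_sum]
  refine Dg.sum _ _ fun j _ => ?_
  rw [map_smul]
  exact (hσ j).smul (h j)

theorem Dg.mul {c m m' : ℕ} (hc : ∀ i j, Dg e (e i * e j) c) {b b' : B} (h : Dg e b m)
    (h' : Dg e b' m') : Dg e (b * b') (m + m' + c) := by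
  have := h.map (c := m' + c) (LinearMap.mulRight F[X] b') fun i =>
    h'.map (LinearMap.mulLeft F[X] (e i)) fun j => hc i j
  simpa [add_assoc] using this

theorem Dg.pow {c m : ℕ} (hc : ∀ i j, Dg e (e i * e j) c) (h1 : Dg e 1 c) {b : B} (h : Dg e b m)
    (S : ℕ) : Dg e (b ^ S) (S * (m + c) + c) := by
  induction S with
  | zero => simpa using h1
  | succ S ih =>
    rw [pow_succ]
    exact (ih.mul hc h).mono (le_of_eq (by ring))

theorem Dg.natDegree_norm {c m : ℕ} (hc : ∀ i j, Dg e (e i * e j) c) {b : B} (h : Dg e b m) :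
    (Algebra.norm F[X] b).natDegree ≤ n * (m + c) := by
  classical
  rw [Algebra.norm_eq_matrix_det e, Matrix.det_apply']
  refine natDegree_sum_le_of_forall_le _ _ fun σ _ => ?_
  refine natDegree_mul_le.trans ?_
  rw [natDegree_intCast, zero_add]
  refine (natDegree_prod_le _ _).trans ?_
  refine (Finset.sum_le_card_nsmul _ _ (m + c) fun i _ => ?_).trans (by simp)
  rw [Algebra.leftMulMatrix_eq_repr_mul]
  simpa using (h.mul hc (Dg.basis i)) (σ i)

variable (e) in
/-- The space of elements with coordinates of degree at most `m`. -/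
def Vm (m : ℕ) : Submodule F B where
  carrier := {b | Dg e b m}
  add_mem' := fun h h' => Dg.add h h'
  zero_mem' := Dg.zero m
  smul_mem' := fun c b h => by
    have := Dg.smul (s := 0) h (a := algebraMap F F[X] c) (by simp)
    rwa [algebraMap_smul, zero_add] at this

theorem mem_Vm {m : ℕ} {b : B} : b ∈ Vm e m ↔ Dg e b m := Iff.rfl

variable (e) in
/-- Coordinates on `Vm`. -/
noncomputable def vmEquiv (m : ℕ) : Vm e m ≃ₗ[F] (Fin n → degreeLT F (m + 1)) where
  toFun b i := ⟨e.repr b i, by
    rw [mem_degreeLT]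
    exact degree_le_natDegree.trans_lt (by exact_mod_cast Nat.lt_succ_of_le (b.2 i))⟩
  map_add' b b' := by
    ext1 i
    simp
  map_smul' c b := by
    ext1 i
    ext1
    simp only [SetLike.val_smul, RingHom.id_apply, Pi.smul_apply]
    rw [← algebraMap_smul F[X] c (b : B), map_smul, Finsupp.smul_apply, algebraMap_smul]
  invFun v := ⟨e.equivFun.symm fun i => v i, fun i => by
    rw [← e.equivFun_apply, LinearEquiv.apply_symm_apply]
    have := mem_degreeLT.1 (v i).2
    by_cases h0 : (v i : F[X]) = 0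
    · simp [h0]
    · exact Nat.le_of_lt_succ ((natDegree_lt_iff_degree_lt h0).2 this)⟩
  left_inv b := by
    ext1
    simp only
    rw [LinearEquiv.symm_apply_eq]
    rfl
  right_inv v := by
    ext1 i
    ext1
    simp only
    rw [← e.equivFun_apply, LinearEquiv.apply_symm_apply]

instance (m : ℕ) : FiniteDimensional F (Vm e m) := by
  have : FiniteDimensional F (degreeLT F (m + 1)) := Module.Finite.equiv (degreeLTEquiv F _).symm
  exact Module.Finite.equiv (vmEquiv e m).symm

theorem finrank_Vm (m : ℕ) : finrank F (Vm e m) = n * (m + 1) := by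
  have : FiniteDimensional F (degreeLT F (m + 1)) := Module.Finite.equiv (degreeLTEquiv F _).symm
  rw [(vmEquiv e m).finrank_eq, finrank_pi_fintype, Finset.sum_const,
    (degreeLTEquiv F (m + 1)).finrank_eq]
  simp

variable [IsDomain B] (e)

include e in
theorem finite_quot {f : B} (hf : f ≠ 0) : Module.Finite F (B ⧸ Ideal.span {f}) :=
  Module.Finite.equiv (Ideal.quotientEquivDirectSum F e
    (Ideal.span_singleton_eq_bot.not.2 hf)).symm

include e in
theorem card_zeros_le {K : Type} [Field K] [Algebra F K] {f : B} (hf : f ≠ 0)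
    (s : Finset (B →ₐ[F] K)) (hs : ∀ x ∈ s, x f = 0) :
    s.card ≤ (Algebra.norm F[X] f).natDegree := by
  have := finite_quot e hf
  rw [← finrank_quotient_span_eq_natDegree_norm e hf]
  refine le_trans ?_ (card_algHom_le_finrank F (B ⧸ Ideal.span {f}) K)
  let φ : s → (B ⧸ Ideal.span {f} →ₐ[F] K) := fun x =>
    Ideal.Quotient.liftₐ _ x.1 fun a ha => by
      obtain ⟨b, rfl⟩ := Ideal.mem_span_singleton'.1 ha
      rw [map_mul, hs _ x.2, mul_zero]
  have hφ : Function.Injective φ := fun x y h => by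
    ext b
    exact DFunLike.congr_fun h (Ideal.Quotient.mk _ b)
  simpa using Nat.card_le_card_of_injective φ hφ

include e in
theorem order_le_norm (ι : B →ₐ[F] PowerSeries F) {π : B} (hπ : ι π = PowerSeries.X) {f : B}
    (hf : f ≠ 0) (v : ℕ) (hv : (v : ℕ∞) ≤ (ι f).order) :
    v ≤ (Algebra.norm F[X] f).natDegree := by
  have := finite_quot e hf
  rw [← finrank_quotient_span_eq_natDegree_norm e hf]
  have hli : LinearIndependent F
      (fun i : Fin v => Ideal.Quotient.mk (Ideal.span {f}) (π ^ (i : ℕ))) := by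
    rw [Fintype.linearIndependent_iff]
    intro g hg i
    have h1 : Ideal.Quotient.mk (Ideal.span {f}) (∑ i : Fin v, g i • π ^ (i : ℕ)) = 0 := by
      rw [← hg, ← Ideal.Quotient.mkₐ_eq_mk F, map_sum]
      simp only [map_smul]
    obtain ⟨b, hb⟩ := Ideal.mem_span_singleton'.1 (Ideal.Quotient.eq_zero_iff_mem.1 h1)
    have h2 := congrArg (fun z => PowerSeries.coeff (i : ℕ) (ι z)) hb
    simp only [map_mul, map_sum, map_smul, map_pow, hπ, PowerSeries.coeff_X_pow] at h2
    rw [PowerSeries.coeff_of_lt_order, Finset.sum_eq_single i] at h2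
    · simpa using h2.symm
    · intro j _ hj
      rw [if_neg (fun h => hj (Fin.ext h.symm)), smul_zero]
    · simp
    · rw [PowerSeries.order_mul]
      exact lt_of_lt_of_le (by exact_mod_cast i.2) (hv.trans le_add_self)
  simpa using hli.fintype_card_le_finrank

end Pool.Agent.Lib.MP_a3f657_nt.Two.Rh
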