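import Pool.Agent.Lib.MP_a3f657_nt.C2RhDefs

/-!
Base change of a finite algebra, Frobenius, and the norm of `U - a V`.
-/

namespace Pool.Agent.Lib.MP_a3f657_nt.Two.Rh

open Polynomial Module TensorProduct

section Field

variable {k : Type} [Field k] [Fintype k] {K : Type} [Field K] [Algebra k K]

theorem mem_range_of_pow_card {c : K} (hc : c ^ Fintype.card k = c) :
    c ∈ Set.range (algebraMap k K) := by
  classical
  by_contra h
  have h0 : (X ^ Fintype.card k - X : K[X]) ≠ 0 :=
    FiniteField.X_pow_card_sub_X_ne_zero K Fintype.one_lt_card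
  have h1 := card_le_degree_of_subset_roots (p := (X ^ Fintype.card k - X : K[X]))
    (Z := insert c (Finset.univ.image (algebraMap k K))) fun x hx => by
      rw [mem_roots h0, IsRoot, eval_sub, eval_pow, eval_X, sub_eq_zero]
      rcases Finset.mem_insert.1 hx with rfl | hx
      · exact hc
      · obtain ⟨y, -, rfl⟩ := Finset.mem_image.1 hx
        rw [← map_pow, FiniteField.pow_card]
  rw [FiniteField.X_pow_card_sub_X_natDegree_eq K Fintype.one_lt_card,
    Finset.card_insert_of_notMem (by simpa using h),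
    Finset.card_image_of_injective _ (algebraMap k K).injective, Finset.card_univ] at h1
  omega

theorem prod_range_periodic {M : Type} [CommMonoid M] (g : ℕ → M) (n : ℕ)
    (hg : ∀ i, g (n + i) = g i) (t : ℕ) :
    ∏ i ∈ Finset.range (n * t), g i = (∏ i ∈ Finset.range n, g i) ^ t := by
  induction t with
  | zero => simp
  | succ t ih =>
    rw [mul_add, mul_one, add_comm, Finset.prod_range_add, pow_succ', ← ih]
    simp only [hg]

theorem minpoly_eq_prod {a : K} {m : ℕ} (hm : 0 < m) (ha : a ^ Fintype.card k ^ m = a) :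
    (minpoly k a).natDegree ∣ m ∧ a ^ Fintype.card k ^ (minpoly k a).natDegree = a ∧
    (minpoly k a).map (algebraMap k K) =
      ∏ i ∈ Finset.range (minpoly k a).natDegree, (X - C (a ^ Fintype.card k ^ i)) := by
  have hper : Function.IsPeriodicPt (· ^ Fintype.card k) m a := by
    rw [Function.IsPeriodicPt, Function.IsFixedPt, pow_iterate]
    exact ha
  set n := Function.minimalPeriod (· ^ Fintype.card k) a with hn
  have hn1 : a ^ Fintype.card k ^ n = a := by
    have := Function.iterate_minimalPeriod (f := (· ^ Fintype.card k)) (x := a)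
    rwa [pow_iterate] at this
  have hn0 : 0 < n := hper.minimalPeriod_pos hm
  have hint : IsIntegral k a := by
    refine ⟨X ^ Fintype.card k ^ m - X, ?_, by simp [ha]⟩
    refine monic_X_pow_sub ?_
    rw [degree_X]
    exact_mod_cast Nat.one_lt_pow hm.ne' Fintype.one_lt_card
  set P : K[X] := ∏ i ∈ Finset.range n, (X - C (a ^ Fintype.card k ^ i)) with hP
  have hPm : P.Monic := monic_prod_of_monic _ _ fun i _ => monic_X_sub_C _
  have hfix : P.map (FiniteField.frobeniusAlgHom k K).toRingHom = P := by
    have h1 : P.map (FiniteField.frobeniusAlgHom k K).toRingHom =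
        ∏ i ∈ Finset.range n, (X - C (a ^ Fintype.card k ^ (i + 1))) := by
      rw [hP, Polynomial.map_prod]
      refine Finset.prod_congr rfl fun i _ => ?_
      rw [Polynomial.map_sub, map_X, map_C, pow_succ, pow_mul]
      rfl
    have h2 := Finset.prod_range_succ' (fun i => X - C (a ^ Fintype.card k ^ i)) n
    rw [Finset.prod_range_succ, hn1, pow_zero, pow_one] at h2
    rw [h1]
    exact (mul_right_cancel₀ (X_sub_C_ne_zero a) h2).symm
  obtain ⟨P₀, hP₀, -, -⟩ := lifts_and_natDegree_eq_and_monic (f := algebraMap k K)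
    ((lifts_iff_coeff_lifts P).2 fun i => mem_range_of_pow_card (by
      have := congrArg (coeff · i) hfix
      simpa using this)) hPm
  have h1 : (minpoly k a).map (algebraMap k K) ∣ P := by
    rw [← hP₀]
    refine Polynomial.map_dvd _ (minpoly.dvd k a ?_)
    rw [← eval_map_algebraMap, hP₀, hP, eval_prod]
    exact Finset.prod_eq_zero (Finset.mem_range.2 hn0) (by simp)
  have h2 : P ∣ (minpoly k a).map (algebraMap k K) := by
    refine Finset.prod_dvd_of_coprime (fun i hi j hj hij => ?_) fun i _ => ?_
    · refine isCoprime_X_sub_C_of_isUnit_sub (IsUnit.mk0 _ (sub_ne_zero.2 fun h => hij ?_))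
      refine Function.iterate_injOn_Iio_minimalPeriod (f := (· ^ Fintype.card k)) (x := a)
        (Finset.mem_range.1 hi) (Finset.mem_range.1 hj) ?_
      simpa only [pow_iterate] using h
    · rw [dvd_iff_isRoot, IsRoot, eval_map_algebraMap]
      have := aeval_algHom_apply (FiniteField.frobeniusAlgHom k K ^ i) a (minpoly k a)
      rw [minpoly.aeval, map_zero, AlgHom.coe_pow, FiniteField.coe_frobeniusAlgHom,
        pow_iterate] at this
      exact this
  have h3 : (minpoly k a).map (algebraMap k K) = P :=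
    eq_of_monic_of_associated ((minpoly.monic hint).map _) hPm (associated_of_dvd_dvd h1 h2)
  have h4 : (minpoly k a).natDegree = n := by
    rw [← natDegree_map (algebraMap k K), h3, hP,
      natDegree_prod_of_monic _ _ fun i _ => monic_X_sub_C _]
    simp only [natDegree_X_sub_C]
    simp
  rw [h4]
  exact ⟨hper.minimalPeriod_dvd, hn1, h3⟩

end Field

variable {k : Type} [Field k] {R : Type} [CommRing R] [Algebra k R]
  {S S' S'' : Type} [CommRing S] [Algebra k S] [CommRing S'] [Algebra k S'] [CommRing S'']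
  [Algebra k S'']

variable (R) in
/-- Base change along a map of coefficient rings. -/
noncomputable def mp (φ : S →ₐ[k] S') : S ⊗[k] R →ₐ[k] S' ⊗[k] R :=
  Algebra.TensorProduct.map φ (AlgHom.id k R)

@[simp] theorem mp_tmul (φ : S →ₐ[k] S') (s : S) (r : R) : mp R φ (s ⊗ₜ r) = φ s ⊗ₜ r := rfl

theorem mp_smul (φ : S →ₐ[k] S') (s : S) (y : S ⊗[k] R) : mp R φ (s • y) = φ s • mp R φ y := by
  induction y with
  | zero => simp
  | tmul a r => simp [smul_tmul']
  | add x y hx hy => simp [hx, hy]

theorem mp_mp (φ : S →ₐ[k] S') (ψ : S' →ₐ[k] S'') (y : S ⊗[k] R) :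
    mp R ψ (mp R φ y) = mp R (ψ.comp φ) y := by
  induction y with
  | zero => simp
  | tmul a r => simp
  | add x y hx hy => simp [hx, hy]

theorem mp_id (y : S ⊗[k] R) : mp R (AlgHom.id k S) y = y := by
  induction y with
  | zero => simp
  | tmul a r => simp
  | add x y hx hy => simp [hx, hy]

/-- The element `U - a V`. -/
noncomputable def ell (U V : R) (a : S) : S ⊗[k] R := 1 ⊗ₜ U - a ⊗ₜ V

theorem mp_ell (φ : S →ₐ[k] S') (U V : R) (a : S) :
    mp R φ (ell (k := k) U V a) = ell U V (φ a) := by
  simp [ell]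

variable {d : ℕ} (e : Basis (Fin d) k R)

variable (S) in
/-- The basis after base change. -/
noncomputable def bs : Basis (Fin d) S (S ⊗[k] R) := Algebra.TensorProduct.basis S e

theorem repr_tmul (s : S) (r : R) (i : Fin d) :
    (bs S e).repr (s ⊗ₜ r) i = s * algebraMap k S (e.repr r i) := by
  simp [bs]

theorem repr_mp (φ : S →ₐ[k] S') (y : S ⊗[k] R) (i : Fin d) :
    (bs S' e).repr (mp R φ y) i = φ ((bs S e).repr y i) := by
  induction y with
  | zero => simp
  | tmul a r => simp [repr_tmul]
  | add x y hx hy => simp [hx, hy]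

theorem mp_bs (φ : S →ₐ[k] S') (j : Fin d) : mp R φ (bs S e j) = bs S' e j := by
  simp [bs]

include e in
theorem mp_injective (φ : S →ₐ[k] S') (hφ : Function.Injective φ) :
    Function.Injective (mp R φ) := fun x y h => by
  refine (bs S e).ext_elem fun i => hφ ?_
  rw [← repr_mp, ← repr_mp, h]

theorem mp_symm (φ : S →ₐ[k] S') (v : Fin d → S) :
    mp R φ ((bs S e).equivFun.symm v) = (bs S' e).equivFun.symm fun i => φ (v i) := by
  refine (bs S' e).ext_elem fun i => ?_
  rw [repr_mp, ← Basis.equivFun_apply, ← Basis.equivFun_apply, LinearEquiv.apply_symm_apply,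
    LinearEquiv.apply_symm_apply]

include e in
theorem norm_mp (φ : S →ₐ[k] S') (y : S ⊗[k] R) :
    Algebra.norm S' (mp R φ y) = φ (Algebra.norm S y) := by
  rw [Algebra.norm_eq_matrix_det (bs S' e), Algebra.norm_eq_matrix_det (bs S e), AlgHom.map_det]
  congr 1
  ext i j
  rw [AlgHom.mapMatrix_apply, Matrix.map_apply, Algebra.leftMulMatrix_eq_repr_mul,
    Algebra.leftMulMatrix_eq_repr_mul, ← repr_mp, map_mul (mp R φ), mp_bs]

section K

variable {K : Type} [Field K] [Algebra k K]

include e in
theorem one_tmul_injective {r r' : R} (h : ((1 : K) ⊗ₜ[k] r) = 1 ⊗ₜ r') : r = r' := by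
  refine e.ext_elem fun i => (algebraMap k K).injective ?_
  have := congrArg (fun y => (bs K e).repr y i) h
  simpa only [repr_tmul, one_mul] using this

include e in
theorem isUnit_of_norm_ne_zero {y : K ⊗[k] R} (h : Algebra.norm K y ≠ 0) : IsUnit y := by
  have := Module.Finite.of_basis (bs K e)
  have h1 : IsUnit (LinearMap.mul K (K ⊗[k] R) y) :=
    (LinearMap.isUnit_iff_isUnit_det _).2 (IsUnit.mk0 _ h)
  obtain ⟨z, hz⟩ := ((Module.End.isUnit_iff _).1 h1).2 1
  exact IsUnit.of_mul_eq_one z hz

variable [Fintype k]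

include e in
theorem exists_of_fixed {y : K ⊗[k] R} (h : mp R (FiniteField.frobeniusAlgHom k K) y = y) :
    ∃ r : R, y = 1 ⊗ₜ r := by
  have h1 : ∀ i, ∃ c, algebraMap k K c = (bs K e).repr y i := fun i =>
    mem_range_of_pow_card (by
      have := repr_mp e (FiniteField.frobeniusAlgHom k K) y i
      rw [h] at this
      exact this.symm)
  choose c hc using h1
  refine ⟨e.equivFun.symm c, (bs K e).ext_elem fun i => ?_⟩
  rw [repr_tmul, one_mul, ← Basis.equivFun_apply e, LinearEquiv.apply_symm_apply, hc]

theorem prod_ell (U V : R) {a : K} {m : ℕ} (hm : 0 < m) (ha : a ^ Fintype.card k ^ m = a) :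
    ∏ i ∈ Finset.range m, ell (k := k) U V (a ^ Fintype.card k ^ i) =
      1 ⊗ₜ (cl U V (minpoly k a) ^ (m / (minpoly k a).natDegree)) := by
  obtain ⟨⟨t, ht⟩, h2, h3⟩ := minpoly_eq_prod hm ha
  have hn : 0 < (minpoly k a).natDegree := Nat.pos_of_ne_zero fun h => by
    rw [h, zero_mul] at ht
    omega
  have ht' : m / (minpoly k a).natDegree = t := by
    conv_lhs => rw [ht]
    exact Nat.mul_div_cancel_left _ hn
  have h4 := congrArg (fun p : K[X] => MvPolynomial.aeval ![(1 : K) ⊗ₜ[k] U, (1 : K) ⊗ₜ[k] V]
    (homogenize p (minpoly k a).natDegree)) h3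
  have h5 := homogenize_finsetProd (s := Finset.range (minpoly k a).natDegree)
    (p := fun i => X - C (a ^ Fintype.card k ^ i)) (n := fun _ => 1)
    fun i _ => (natDegree_X_sub_C _).le
  rw [Finset.sum_const, Finset.card_range, smul_eq_mul, mul_one] at h5
  rw [h5, map_prod, homogenize_map, MvPolynomial.aeval_map_algebraMap] at h4
  have h6 : ∏ i ∈ Finset.range (minpoly k a).natDegree,
      ell (k := k) U V (a ^ Fintype.card k ^ i) = 1 ⊗ₜ cl U V (minpoly k a) := by
    have h7 : ∀ p : k[X], homogenize p p.natDegree =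
        ∑ i ∈ Finset.range (p.natDegree + 1),
          homogenize (C (p.coeff i) * X ^ i) p.natDegree := fun p => by
      rw [← homogenize_finsetSum, ← as_sum_range_C_mul_X_pow]
    rw [h7, map_sum] at h4
    rw [cl, tmul_sum]
    refine Eq.trans (Finset.prod_congr rfl fun i _ => ?_)
      (h4.symm.trans (Finset.sum_congr rfl fun i hi => ?_))
    · rw [homogenize_sub, homogenize_X one_ne_zero, homogenize_C]
      simp [ell]
    · rw [homogenize_C_mul, homogenize_X_pow (Nat.lt_succ_iff.1 (Finset.mem_range.1 hi))]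
      simp [Algebra.algebraMap_eq_smul_one, smul_tmul']
  rw [ht']
  conv_lhs => rw [ht]
  rw [prod_range_periodic _ _ fun i => by rw [pow_add, pow_mul, h2], h6,
    Algebra.TensorProduct.tmul_pow, one_pow]

end K

end Pool.Agent.Lib.MP_a3f657_nt.Two.Rh
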