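import Pool.Agent.Lib.MP_a3f657_nt.C2RhPts
import Pool.Agent.Lib.MP_a3f657_nt.C2RhCurve
import Pool.Agent.Lib.MP_a3f657_nt.C2RhCheb

/-!
The power series point of the cover and the lower bound for class function sums.
-/

namespace Pool.Agent.Lib.MP_a3f657_nt.Two.Rh

open Polynomial Module TensorProduct

variable {k : Type} [Field k] [Fintype k] [CharP k 2] {R : Type} [CommRing R] [Algebra k R]
  {d : ℕ} (e : Basis (Fin d) k R) {F : Type} [Field F] [Algebra k F] {M : k[X]} {U V : R}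
  {n₁ n₂ : k[X]} {ν : F ⊗[k] R}

/-- The norm after base change. -/
noncomputable def nrm {S : Type} [CommRing S] [Algebra k S] (y : S ⊗[k] R) : S := Algebra.norm S y

theorem map_nrm {S : Type} [CommRing S] [Algebra k S] [Algebra F S] [IsScalarTower k F S]
    (ψ : PP F d →ₐ[F] S) : ψ (nrm (ygen e F)) = nrm (yy e ψ) :=
  (norm_mp e (ψ.restrictScalars k) _).symm

theorem map_nrm_ne_zero {S S' : Type} [CommRing S] [Algebra k S] [Algebra F S]
    [IsScalarTower k F S] [CommRing S'] [Algebra k S'] [Nontrivial S'] (ψ : PP F d →ₐ[F] S)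
    (c : S →ₐ[k] S') (h : mp R c (yy e ψ) = 1) : ψ (nrm (ygen e F)) ≠ 0 := fun h0 => by
  have h1 := norm_mp e c (yy e ψ)
  rw [map_nrm, nrm] at h0
  rw [h, h0, map_one, map_zero] at h1
  exact one_ne_zero h1

theorem exists_phi [CharP F 2] (t₀ θ₀ η₀ z₀ : F) (hM : aeval t₀ M ≠ 0)
    (h0 : θ₀ ^ 2 + aeval t₀ M * θ₀ = aeval t₀ M * aeval t₀ n₁)
    (h1 : η₀ ^ 2 + aeval t₀ M * η₀ = aeval t₀ M * aeval t₀ n₂)
    (h2 : z₀ ^ 2 + aeval t₀ M * z₀ = θ₀ * aeval t₀ n₂) (hν : ell U V t₀ * ν = 1) :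
    ∃ Φ : PP F d →ₐ[F] PowerSeries F, ba Φ = PowerSeries.C t₀ + PowerSeries.X ∧
      Eqs e M U V n₁ n₂ ν Φ ∧ Φ (nrm (ygen e F)) ≠ 0 := by
  let c : PowerSeries F →ₐ[k] F :=
    { PowerSeries.constantCoeff with
      commutes' := fun r => by simp [PowerSeries.algebraMap_apply] }
  have hc : ∀ x, c x = PowerSeries.constantCoeff x := fun x => rfl
  set t : PowerSeries F := PowerSeries.C t₀ + PowerSeries.X with ht
  have hct : ∀ p : k[X], PowerSeries.constantCoeff (aeval t p) = aeval t₀ p := fun p => by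
    rw [← hc, ← aeval_algHom_apply, hc, ht]
    simp
  obtain ⟨θ, hθ, hθ₀⟩ := exists_as (aeval t M) (aeval t M * aeval t n₁) θ₀ (by rwa [hct])
    (by rw [map_mul, hct, hct, h0])
  obtain ⟨η, hη, -⟩ := exists_as (aeval t M) (aeval t M * aeval t n₂) η₀ (by rwa [hct])
    (by rw [map_mul, hct, hct, h1])
  obtain ⟨z, hz, -⟩ := exists_as (aeval t M) (θ * aeval t n₂) z₀ (by rwa [hct])
    (by rw [map_mul, hct, hct, hθ₀, h2])
  obtain ⟨H, hH⟩ := exists_lang e (F := F)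
    (-(1 ⊗ₜ V * mp R (IsScalarTower.toAlgHom k F (PowerSeries F)) ν))
  let Φ : PP F d →ₐ[F] PowerSeries F := MvPolynomial.aevalTower (aeval t)
    (Sum.elim ![θ, η, z] fun j => (bs _ e).repr (1 + PowerSeries.X ⊗ₜ 1 * H) j)
  have hb : ba Φ = t := by
    rw [ba, MvPolynomial.algebraMap_eq, MvPolynomial.aevalTower_C, aeval_X]
  have hco : ∀ i, co Φ i = ![θ, η, z] i := fun i => by
    rw [co, MvPolynomial.aevalTower_X, Sum.elim_inl]
  have hy : yy e Φ = 1 + PowerSeries.X ⊗ₜ 1 * H := (bs _ e).ext_elem fun j => by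
    rw [repr_yy, MvPolynomial.aevalTower_X, Sum.elim_inr]
  refine ⟨Φ, hb, ⟨?_, ?_, ?_, ?_⟩, map_nrm_ne_zero e Φ c ?_⟩
  · rw [hb, hco]
    exact hθ
  · rw [hb, hco]
    exact hη
  · rw [hb, hco, hco]
    exact hz
  · rw [hy, hH, hb]
    congr 1
    have h3 := congrArg (mp R (IsScalarTower.toAlgHom k F (PowerSeries F))) hν
    rw [map_mul, map_one, mp_ell] at h3
    have h4 : ell (k := k) U V t = ell U V (IsScalarTower.toAlgHom k F (PowerSeries F) t₀) -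
        PowerSeries.X ⊗ₜ 1 * 1 ⊗ₜ V := by
      rw [ell, ell, ht, add_tmul, Algebra.TensorProduct.tmul_mul_tmul, mul_one, one_mul, sub_sub]
      rfl
    rw [h4]
    linear_combination -h3
  · rw [hy, map_add, map_one, map_mul, mp_tmul, hc, PowerSeries.constantCoeff_X, zero_tmul,
      zero_mul, add_zero]

variable {e}

theorem lower_bound [Finite R] [Fintype F] [CharP F 2] {K : Type} [Field K] [IsAlgClosed K]
    [Algebra k K]
    [Algebra F K] [IsScalarTower k F K] [CharP K 2] {t₀ : F} (hM : M ≠ 0)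
    (Φ : PP F d →ₐ[F] PowerSeries F) (hb : ba Φ = PowerSeries.C t₀ + PowerSeries.X)
    (hE : Eqs e M U V n₁ n₂ ν Φ) (hn : Φ (nrm (ygen e F)) ≠ 0) (Ξ : Hs × Rˣ → ℝ)
    (hΞ : ∀ γ, Ξ γ ≤ 2)
    (hsum : ∀ G : Finset (Hs × Rˣ), (∀ a ∈ G, ∀ b ∈ G, a * b ∈ G) → 0 ≤ ∑ γ ∈ G, Ξ γ) :
    ∃ (C : ℝ) (S₀ : ℕ), ∀ j, S₀ ≤ Fintype.card F ^ j → ∀ (T : Finset K) (f : K → ℝ),
      T.card = (Fintype.card F ^ j) ^ 2 → (∀ a ∈ T, a ^ (Fintype.card F ^ j) ^ 2 = a) →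
      (∀ a, -2 ≤ f a) →
      (∀ ψ : PP F d →ₐ[F] K, Eqs e M U V n₁ n₂ ν ψ → aeval (ba ψ) M ≠ 0 → IsUnit (yy e ψ) →
        ba ψ ∈ T → ∀ γ, (∀ g, ψ g ^ (Fintype.card F ^ j) ^ 2 = tw e M γ ψ g) → f (ba ψ) = Ξ γ) →
      -C * Fintype.card F ^ j ≤ ∑ a ∈ T, f a := by
  classical
  letI := act e F K M
  have hsm : ∀ (γ : Hs × Rˣ) (ψ : PP F d →ₐ[F] K), γ • ψ = tw e M γ ψ := fun _ _ => rfl
  have := Fintype.ofFinite Rˣ
  have hfin := hE.finite
  let G : Finset (Hs × Rˣ) := Finset.univ.filter fun γ => ∀ p, IsPt Φ K p → IsPt Φ K (γ • p)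
  have hG : ∀ γ, γ ∈ G ↔ ∀ p, IsPt Φ K p → IsPt Φ K (γ • p) := fun γ => by simp [G]
  have hdich : ∀ γ : Hs × Rˣ, (∀ f, Φ f = 0 → Φ (tau e F M γ f) = 0) ∨
      {p | IsPt Φ K p ∧ IsPt Φ K (γ • p)}.Finite := fun γ => by
    by_cases h : ∀ f, Φ f = 0 → Φ (tau e F M γ f) = 0
    · exact Or.inl h
    push Not at h
    obtain ⟨f, hf, hf'⟩ := h
    exact Or.inr ((finite_zeros Φ hb hfin K hf').subset fun p hp => ⟨hp.1, hp.2 f hf⟩)
  have hex := exists_isPt Φ hb hfin K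
  have hG1 : ∀ γ ∈ G, ∀ f, Φ f = 0 → Φ (tau e F M γ f) = 0 := fun γ hγ =>
    (hdich γ).resolve_right fun h => by
      refine Set.infinite_univ (α := K) ((h.image ba).subset fun a _ => ?_)
      obtain ⟨x, hx, hx'⟩ := hex a
      exact ⟨x, ⟨hx, (hG γ).1 hγ x hx⟩, hx'⟩
  have hG2 : ∀ γ ∉ G, {p | IsPt Φ K p ∧ IsPt Φ K (γ • p)}.Finite := fun γ hγ =>
    (hdich γ).resolve_left fun h => hγ ((hG γ).2 fun p hp f hf => hp _ (h f hf))
  have hBad : (M.rootSet K ∪ ba '' {x | IsPt Φ K x ∧ x (nrm (ygen e F)) = 0} ∪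
      ⋃ γ ∈ {γ | γ ∉ G}, ba '' {p | IsPt Φ K p ∧ IsPt Φ K (γ • p)}).Finite :=
    ((M.rootSet_finite K).union ((finite_zeros Φ hb hfin K hn).image _)).union
      ((Set.toFinite _).biUnion fun γ hγ => (hG2 γ hγ).image _)
  have hgood : ∀ p, IsPt Φ K p → ba p ∉ hBad.toFinset →
      aeval (ba p) M ≠ 0 ∧ IsUnit (yy e p) ∧ ∀ γ : Hs × Rˣ, IsPt Φ K (γ • p) → γ ∈ G :=
    fun p hp hp' => by
      rw [Set.Finite.mem_toFinset] at hp'
      refine ⟨fun h => hp' (Or.inl (Or.inl ((mem_rootSet_of_ne hM).2 h))),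
        isUnit_of_norm_ne_zero e fun h => hp' (Or.inl (Or.inr ⟨p, ⟨hp, ?_⟩, rfl⟩)),
        fun γ hγ => by_contra fun h => hp' (Or.inr (Set.mem_biUnion h ⟨p, ⟨hp, hγ⟩, rfl⟩))⟩
      rw [map_nrm]
      exact h
  have hcount := fun γ : G => count_le Φ hb hfin K (tau e F M γ) (hG1 γ γ.2)
  choose C S₀ hC using hcount
  refine ⟨2 * (∑ γ, C γ : ℕ) + 4 * hBad.toFinset.card, ∑ γ, S₀ γ, fun j hj T f hT hT' hf hfΞ => ?_⟩
  have hFr : ∀ (p : PP F d →ₐ[F] K) g, (FiniteField.frobeniusAlgHom F K ^ (j * 2)).comp p g =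
      p g ^ (Fintype.card F ^ j) ^ 2 := fun p g => by
    rw [AlgHom.comp_apply, frob_pow_apply, pow_mul]
  have hS : (1 : ℝ) ≤ Fintype.card F ^ j := one_le_pow₀ (by exact_mod_cast Fintype.card_pos)
  have key := cheb ba (IsPt Φ K) G ((hG 1).2 fun p hp => by rwa [one_smul]) hBad.toFinset T
    (FiniteField.frobeniusAlgHom F K ^ (j * 2)).comp
    ((Fintype.card F ^ j) ^ 2 + (∑ γ, C γ : ℕ) * Fintype.card F ^ j) f Ξ
    (fun γ p => ba_tw e M γ p)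
    (fun p hp hp' γ hγ => eq_one_of_tw (hgood p hp hp').1 (hgood p hp hp').2.1 hγ)
    (fun p p' hp hp' h1 h2 => by
      obtain ⟨γ, hγ⟩ := (hE.transfer hp).exists_tw (hE.transfer hp') h2 (hgood p hp h1).2.1
        (hgood p' hp' (h2 ▸ h1)).2.1
      exact ⟨γ, (hgood p hp h1).2.2 γ (by rwa [hsm, ← hγ]), hγ⟩)
    (fun γ hγ => (hG γ).1 hγ) hex
    (fun p hp => (hFr p _).trans (hT' _ hp))
    (fun p hp g hg => by rw [AlgHom.comp_apply, hp g hg, map_zero])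
    (fun γ hγ s hs => by
      have h1 := hC ⟨γ, hγ⟩ j ((Finset.single_le_sum (f := S₀) (fun _ _ => Nat.zero_le _)
        (Finset.mem_univ _)).trans hj) s fun x hx => ⟨(hs x hx).1, fun g => by
          rw [← hFr, (hs x hx).2]
          rfl⟩
      have h2 : C ⟨γ, hγ⟩ ≤ ∑ γ, C γ :=
        Finset.single_le_sum (f := C) (fun _ _ => Nat.zero_le _) (Finset.mem_univ _)
      exact_mod_cast h1.trans (Nat.add_le_add_left (Nat.mul_le_mul_right _ h2) _))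
    hf hΞ (hsum G fun a ha b hb => (hG _).2 fun p hp => by
      rw [mul_smul]
      exact (hG a).1 ha _ ((hG b).1 hb _ hp))
    (fun p hp h1 h2 γ hγ => hfΞ p (hE.transfer hp) (hgood p hp h1).1 (hgood p hp h1).2.1 h2 γ
      fun g => by rw [← hFr, hγ, hsm])
  rw [hT] at key
  push_cast at key ⊢
  have h3 : (0 : ℝ) ≤ hBad.toFinset.card := Nat.cast_nonneg _
  nlinarith

end Pool.Agent.Lib.MP_a3f657_nt.Two.Rh
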