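import Pool.Agent.Lib.MP_a3f657_nt.C2RhCover

/-!
Finiteness of the cover, and the action on good solutions.
-/

namespace Pool.Agent.Lib.MP_a3f657_nt.Two.Rh

open Polynomial Module TensorProduct

variable {k : Type} [Field k] [Fintype k] [CharP k 2] {R : Type} [CommRing R] [Algebra k R]
  {d : ℕ} {e : Basis (Fin d) k R} {F : Type} [Field F] [Algebra k F] {M : k[X]} {U V : R}
  {n₁ n₂ : k[X]} {ν : F ⊗[k] R}

theorem Eqs.isIntegral {B : Type} [CommRing B] [Algebra k B] [Algebra F B] [IsScalarTower k F B]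
    [Algebra F[X] B] [IsScalarTower k F[X] B] [IsScalarTower F F[X] B] {ψ : PP F d →ₐ[F] B}
    (h : Eqs e M U V n₁ n₂ ν ψ) (hb : ba ψ = algebraMap F[X] B X) (i : Fin 3 ⊕ Fin d) :
    IsIntegral F[X] (ψ (MvPolynomial.X i)) := by
  have ha : ∀ p : k[X], aeval (ba ψ) p = algebraMap F[X] B (aeval X p) := fun p => by
    rw [hb]
    exact aeval_algHom_apply (IsScalarTower.toAlgHom k F[X] B) _ p
  rcases i with i | i
  · have h2 : (2 : B) = 0 := by
      rw [← map_ofNat (algebraMap k B) 2, CharTwo.two_eq_zero, map_zero]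
    let g : Option (Fin 3) → B := fun o => o.elim 1 (co ψ)
    have hg : ∀ o, g o ∈ Submodule.span F[X] (Set.range g) := fun o =>
      Submodule.subset_span ⟨o, rfl⟩
    have hm : ∀ (p : k[X]) (x : B), x ∈ Submodule.span F[X] (Set.range g) →
        aeval (ba ψ) p * x ∈ Submodule.span F[X] (Set.range g) := fun p x hx => by
      rw [ha, ← Algebra.smul_def]
      exact Submodule.smul_mem _ _ hx
    refine isIntegral_of_pow_mem g 2 le_rfl (fun x y => by linear_combination x * y * h2) ?_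
      (some i)
    rintro (_ | j)
    · simpa [g] using hg none
    · fin_cases j
      · have : co ψ 0 ^ 2 = aeval (ba ψ) M * (aeval (ba ψ) n₁ * 1) - aeval (ba ψ) M * co ψ 0 := by
          linear_combination h.e0
        exact this ▸ Submodule.sub_mem _ (hm _ _ (hm _ _ (hg none))) (hm _ _ (hg (some 0)))
      · have : co ψ 1 ^ 2 = aeval (ba ψ) M * (aeval (ba ψ) n₂ * 1) - aeval (ba ψ) M * co ψ 1 := by
          linear_combination h.e1
        exact this ▸ Submodule.sub_mem _ (hm _ _ (hm _ _ (hg none))) (hm _ _ (hg (some 1)))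
      · have : co ψ 2 ^ 2 = aeval (ba ψ) n₂ * co ψ 0 - aeval (ba ψ) M * co ψ 2 := by
          linear_combination h.e2
        exact this ▸ Submodule.sub_mem _ (hm _ _ (hg (some 0))) (hm _ _ (hg (some 2)))
  · refine isIntegral_of_pow_mem (fun j => ψ (MvPolynomial.X (Sum.inr j))) (Fintype.card k)
      Fintype.one_lt_card (fun x y => map_add (FiniteField.frobeniusAlgHom k B) x y) (fun j => ?_) i
    have h1 := congrArg (fun y => (bs B e).repr y j) h.ey
    simp only [repr_mp, repr_yy, FiniteField.coe_frobeniusAlgHom] at h1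
    have h2 : ell U V (ba ψ) * mp R (IsScalarTower.toAlgHom k F B) ν =
        mp R (IsScalarTower.toAlgHom k F[X] B)
          (ell U V X * mp R (IsScalarTower.toAlgHom k F F[X]) ν) := by
      rw [map_mul, mp_ell, mp_mp, hb]
      congr 3
      exact AlgHom.ext fun x => IsScalarTower.algebraMap_apply F F[X] B x
    rw [h1, h2, ← (bs B e).sum_repr (yy e ψ), Finset.mul_sum, map_sum, Finsupp.finsetSum_apply]
    refine Submodule.sum_mem _ fun l _ => ?_
    rw [mul_smul_comm, map_smul, Finsupp.smul_apply, ← mp_bs e (IsScalarTower.toAlgHom k F[X] B),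
      ← map_mul, repr_mp, repr_yy, smul_eq_mul, mul_comm, IsScalarTower.toAlgHom_apply,
      ← Algebra.smul_def]
    exact Submodule.smul_mem _ _ (Submodule.subset_span ⟨l, rfl⟩)

theorem Eqs.finite_aux {B : Type} [CommRing B] [Algebra k B] [Algebra F B] [IsScalarTower k F B]
    [Algebra F[X] B] [IsScalarTower k F[X] B] [IsScalarTower F F[X] B] (ψ : PP F d →ₐ[F[X]] B)
    (h : Eqs e M U V n₁ n₂ ν (ψ.restrictScalars F)) (hs : Function.Surjective ψ) :
    Module.Finite F[X] B := by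
  have : Algebra.FiniteType F[X] B := Algebra.FiniteType.of_surjective ψ hs
  have : Algebra.IsIntegral F[X] B := ⟨fun b => by
    obtain ⟨f, rfl⟩ := hs b
    induction f using MvPolynomial.induction_on with
    | C a => exact (ψ.commutes a).symm ▸ isIntegral_algebraMap
    | add p q hp hq =>
      rw [map_add]
      exact hp.add hq
    | mul_X p i hp =>
      rw [map_mul]
      exact hp.mul (h.isIntegral (ψ.commutes X) i)⟩
  exact Algebra.IsIntegral.finite

theorem Eqs.finite {S : Type} [CommRing S] [Algebra k S] [Algebra F S] [IsScalarTower k F S]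
    {Φ : PP F d →ₐ[F] S} (h : Eqs e M U V n₁ n₂ ν Φ) :
    Module.Finite F[X] (PP F d ⧸ RingHom.ker Φ) :=
  Eqs.finite_aux (B := PP F d ⧸ RingHom.ker Φ) (Ideal.Quotient.mkₐ F[X] (RingHom.ker Φ))
    (h.transfer (S' := PP F d ⧸ RingHom.ker Φ) fun _ hf => Ideal.Quotient.eq_zero_iff_mem.2 hf)
    Ideal.Quotient.mk_surjective

variable {K : Type} [Field K] [Algebra k K] [Algebra F K] [IsScalarTower k F K] [CharP K 2]

theorem exists_unit_of_fixed {y y' w : K ⊗[k] R} (e : Basis (Fin d) k R) (hy : IsUnit y)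
    (hy' : IsUnit y') (h : mp R (FiniteField.frobeniusAlgHom k K) y = w * y)
    (h' : mp R (FiniteField.frobeniusAlgHom k K) y' = w * y') :
    ∃ g : Rˣ, y' = (1 ⊗ₜ (g : R)) * y := by
  have key : ∀ {y y' : K ⊗[k] R}, IsUnit y → mp R (FiniteField.frobeniusAlgHom k K) y = w * y →
      mp R (FiniteField.frobeniusAlgHom k K) y' = w * y' → ∃ g : R, y' = (1 ⊗ₜ g) * y := by
    intro y y' hy h h'
    obtain ⟨z, hz⟩ := hy.exists_right_inv
    have h1 := congrArg (mp R (FiniteField.frobeniusAlgHom k K)) hz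
    rw [map_mul, h, map_one] at h1
    obtain ⟨g, hg⟩ := exists_of_fixed e (y := y' * z) (by
      rw [map_mul, h']
      linear_combination y' * z * h1 -
        w * y' * mp R (FiniteField.frobeniusAlgHom k K) z * hz)
    exact ⟨g, by rw [← hg]; linear_combination (-y') * hz⟩
  obtain ⟨g, hg⟩ := key hy h h'
  obtain ⟨g', hg'⟩ := key hy' h' h
  have h1 : g * g' = 1 := by
    refine one_tmul_injective (K := K) e (hy'.mul_right_cancel ?_)
    rw [← mul_one (1 : K), ← Algebra.TensorProduct.tmul_mul_tmul, mul_assoc, ← hg', ← hg, mul_one,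
      ← Algebra.TensorProduct.one_def, one_mul]
  exact ⟨Units.mkOfMulEqOne g g' h1, hg⟩

theorem Eqs.exists_tw {ψ ψ' : PP F d →ₐ[F] K} (h : Eqs e M U V n₁ n₂ ν ψ)
    (h' : Eqs e M U V n₁ n₂ ν ψ') (hb : ba ψ' = ba ψ) (hy : IsUnit (yy e ψ))
    (hy' : IsUnit (yy e ψ')) : ∃ γ, ψ' = tw e M γ ψ := by
  have h2 : (2 : K) = 0 := CharTwo.two_eq_zero
  obtain ⟨h0, h1, h3, h4⟩ := h'
  rw [hb] at h0 h1 h3 h4
  obtain ⟨a, ha⟩ := exists_cz (μ := aeval (ba ψ) M) (δ := co ψ' 0 - co ψ 0) (by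
    linear_combination h0 - h.e0 + (co ψ 0 ^ 2 - co ψ 0 * co ψ' 0) * h2)
  obtain ⟨b, hb'⟩ := exists_cz (μ := aeval (ba ψ) M) (δ := co ψ' 1 - co ψ 1) (by
    linear_combination h1 - h.e1 + (co ψ 1 ^ 2 - co ψ 1 * co ψ' 1) * h2)
  have haa : cz K a * cz K a = cz K a := by
    rcases zmod_cases a with rfl | rfl <;> simp [cz_zero, cz_one]
  obtain ⟨c, hc⟩ := exists_cz (μ := aeval (ba ψ) M)
    (δ := co ψ' 2 - co ψ 2 - cz K a * co ψ 1) (by
    linear_combination h3 - h.e2 + aeval (ba ψ) n₂ * ha - cz K a * h.e1 + co ψ 1 ^ 2 * haa +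
      (co ψ 2 ^ 2 - co ψ 2 * co ψ' 2 + cz K a * co ψ 1 ^ 2 - cz K a * co ψ 1 * co ψ' 2 +
        cz K a * co ψ 1 * co ψ 2) * h2)
  obtain ⟨g, hg⟩ := exists_unit_of_fixed e hy hy' h.ey h4
  refine ⟨((a, b, c), g), hom_ext e (by rw [ba_tw, hb]) (fun i => ?_) (by rw [yy_tw, hg])⟩
  fin_cases i
  · exact (eq_add_of_sub_eq' ha).trans (co_tw0 e M ((a, b, c), g) ψ).symm
  · exact (eq_add_of_sub_eq' hb').trans (co_tw1 e M ((a, b, c), g) ψ).symm
  · refine Eq.trans ?_ (co_tw2 e M ((a, b, c), g) ψ).symm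
    change co ψ' 2 = co ψ 2 + cz K a * co ψ 1 + cz K c * _
    linear_combination hc

theorem eq_one_of_tw {ψ : PP F d →ₐ[F] K} (hM : aeval (ba ψ) M ≠ 0) (hy : IsUnit (yy e ψ))
    {γ : Hs × Rˣ} (h : tw e M γ ψ = ψ) : γ = 1 := by
  have h0 := co_tw0 e M γ ψ
  have h1 := co_tw1 e M γ ψ
  have h2 := co_tw2 e M γ ψ
  have h3 := yy_tw e M γ ψ
  rw [h] at h0 h1 h2 h3
  have e0 : γ.1.1 = 0 := cz_eq_zero (S := K) (by simpa [hM] using h0)
  have e1 : γ.1.2.1 = 0 := cz_eq_zero (S := K) (by simpa [hM] using h1)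
  have e2 : γ.1.2.2 = 0 := cz_eq_zero (S := K) (by simpa [hM, e0, cz_zero] using h2)
  refine Prod.ext (Prod.ext e0 (Prod.ext e1 e2)) (Units.ext ?_)
  refine one_tmul_injective (K := K) e (hy.mul_right_cancel ?_)
  rw [← h3]
  exact (one_mul _).symm

theorem mp_pow_frob {y w : K ⊗[k] R} (h : mp R (FiniteField.frobeniusAlgHom k K) y = w * y)
    (m : ℕ) : mp R (FiniteField.frobeniusAlgHom k K ^ m) y =
      (∏ i ∈ Finset.range m, mp R (FiniteField.frobeniusAlgHom k K ^ i) w) * y := by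
  induction m with
  | zero =>
    rw [Finset.prod_range_zero, one_mul]
    exact mp_id y
  | succ m ih =>
    rw [pow_succ, show ∀ φ ψ : K →ₐ[k] K, φ * ψ = φ.comp ψ from fun _ _ => rfl, ← mp_mp, h,
      map_mul, ih, Finset.prod_range_succ]
    ring

theorem frob_pow_apply (m : ℕ) (x : K) :
    (FiniteField.frobeniusAlgHom k K ^ m) x = x ^ Fintype.card k ^ m := by
  rw [AlgHom.coe_pow, FiniteField.coe_frobeniusAlgHom, pow_iterate]

theorem Eqs.norm_rel {ψ : PP F d →ₐ[F] K} (h : Eqs e M U V n₁ n₂ ν ψ) (hy : IsUnit (yy e ψ))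
    {t₀ : F} (hν : ell U V t₀ * ν = 1) {m : ℕ} (hm : 0 < m)
    (ht : algebraMap F K t₀ ^ Fintype.card k ^ m = algebraMap F K t₀)
    (ha : ba ψ ^ Fintype.card k ^ m = ba ψ) {g : R}
    (hg : mp R (FiniteField.frobeniusAlgHom k K ^ m) (yy e ψ) = (1 ⊗ₜ g) * yy e ψ) :
    cl U V (minpoly k (ba ψ)) ^ (m / (minpoly k (ba ψ)).natDegree) =
      g * cl U V (minpoly k (algebraMap F K t₀)) ^
        (m / (minpoly k (algebraMap F K t₀)).natDegree) := by
  rw [mp_pow_frob h.ey] at hg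
  have h1 := hy.mul_right_cancel hg
  refine one_tmul_injective (K := K) e ?_
  rw [← mul_one (1 : K), ← Algebra.TensorProduct.tmul_mul_tmul, mul_one, ← prod_ell U V hm ha,
    ← prod_ell U V hm ht, ← h1, ← Finset.prod_mul_distrib]
  refine Finset.prod_congr rfl fun i _ => ?_
  have h2 := congrArg (fun y => mp R (FiniteField.frobeniusAlgHom k K ^ i)
    (mp R (IsScalarTower.toAlgHom k F K) y)) hν
  simp only [map_mul, map_one, mp_ell, frob_pow_apply, IsScalarTower.toAlgHom_apply] at h2 ⊢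
  linear_combination (-ell U V (ba ψ ^ Fintype.card k ^ i)) * h2

end Pool.Agent.Lib.MP_a3f657_nt.Two.Rh
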