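import Pool.Agent.Lib.MP_a3f657_nt.C2RhNorm

/-!
Power series solutions of the equations of the cover, and an integrality criterion.
-/

namespace Pool.Agent.Lib.MP_a3f657_nt.Two.Rh

open Module TensorProduct PowerSeries

theorem exists_fixed {F : Type} [CommRing F] {M : Type} [AddCommGroup M] [Module F⟦X⟧ M]
    {κ : Type} [Fintype κ] (b : Basis κ F⟦X⟧ M) (T : M → M)
    (hT : ∀ n u v h, u - v = (X : F⟦X⟧) ^ n • h → ∃ h', T u - T v = (X : F⟦X⟧) ^ (n + 1) • h') :
    ∃ y, T y = y := by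
  have key : ∀ (n : ℕ) (u : M), (∃ h, u = (X : F⟦X⟧) ^ n • h) ↔
      ∀ i, ∀ m < n, coeff m (b.repr u i) = 0 := fun n u => by
    constructor
    · rintro ⟨h, rfl⟩ i
      rw [← X_pow_dvd_iff, map_smul, Finsupp.smul_apply, smul_eq_mul]
      exact dvd_mul_right _ _
    · intro h
      choose c hc using fun i => X_pow_dvd_iff.2 (h i)
      refine ⟨b.equivFun.symm c, b.ext_elem fun i => ?_⟩
      rw [map_smul, Finsupp.smul_apply, smul_eq_mul, hc, ← b.equivFun_apply,
        LinearEquiv.apply_symm_apply]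
  have h1 : ∀ n, ∃ h, T^[n + 1] 0 - T^[n] 0 = (X : F⟦X⟧) ^ n • h := fun n => by
    induction n with
    | zero => exact ⟨_, by rw [pow_zero, one_smul]⟩
    | succ n ih =>
      obtain ⟨h, hh⟩ := ih
      rw [Function.iterate_succ_apply' T (n + 1), Function.iterate_succ_apply' T n]
      rw [Function.iterate_succ_apply' T n] at hh
      exact hT _ _ _ _ hh
  have h2 : ∀ n j i, ∀ m < n, coeff m (b.repr (T^[n + j] 0) i) = coeff m (b.repr (T^[n] 0) i) :=
    fun n j i m hm => by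
      induction j with
      | zero => rfl
      | succ j ih =>
        have := (key _ _).1 (h1 (n + j)) i m (by omega)
        rw [map_sub, Finsupp.sub_apply, map_sub, sub_eq_zero] at this
        rw [← ih, ← this, add_assoc]
  let y : M := b.equivFun.symm fun i => mk fun m => coeff m (b.repr (T^[m + 1] 0) i)
  have hy : ∀ i m, coeff m (b.repr y i) = coeff m (b.repr (T^[m + 1] 0) i) := fun i m => by
    rw [← b.equivFun_apply, LinearEquiv.apply_symm_apply, coeff_mk]
  have h3 : ∀ n, ∃ h, y - T^[n] 0 = (X : F⟦X⟧) ^ n • h := fun n => (key _ _).2 fun i m hm => by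
    obtain ⟨j, rfl⟩ : ∃ j, n = m + 1 + j := ⟨n - (m + 1), by omega⟩
    rw [map_sub, Finsupp.sub_apply, map_sub, hy, h2 _ _ _ _ (Nat.lt_succ_self m), sub_self]
  refine ⟨y, b.ext_elem fun i => PowerSeries.ext fun m => ?_⟩
  obtain ⟨h, hh⟩ := h3 m
  have h4 := (key _ _).1 (hT _ _ _ _ hh) i m (Nat.lt_succ_self m)
  rw [map_sub, Finsupp.sub_apply, map_sub, sub_eq_zero] at h4
  rw [h4, hy, Function.iterate_succ_apply']

theorem exists_as {F : Type} [Field F] [CharP F 2] (μ c : F⟦X⟧) (θ₀ : F)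
    (hμ : constantCoeff μ ≠ 0) (h : θ₀ ^ 2 + constantCoeff μ * θ₀ = constantCoeff c) :
    ∃ θ : F⟦X⟧, θ ^ 2 + μ * θ = c ∧ constantCoeff θ = θ₀ := by
  obtain ⟨ν, hν⟩ := (isUnit_iff_constantCoeff.2 (IsUnit.mk0 _ hμ)).exists_right_inv
  obtain ⟨c', hc'⟩ : X ∣ c - C θ₀ ^ 2 - μ * C θ₀ := by
    rw [X_dvd_iff]
    simp [← h]
  have h2 : (2 : F⟦X⟧) = 0 := by
    rw [← map_ofNat (C : F →+* F⟦X⟧) 2, CharTwo.two_eq_zero, map_zero]
  obtain ⟨η, hη⟩ := exists_fixed (Basis.singleton Unit F⟦X⟧) (fun η => ν * (c' - X * η ^ 2))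
    fun n u v h hh => ⟨-ν * h * (u + v), by
      rw [smul_eq_mul] at hh ⊢
      linear_combination (-ν * X * (u + v)) * hh⟩
  refine ⟨C θ₀ + X * η, ?_, by simp⟩
  linear_combination (-1 : F⟦X⟧) * hc' - X * μ * hη + X * (c' - X * η ^ 2) * hν +
    C θ₀ * X * η * h2

theorem exists_lang_aux {k : Type} [Field k] [Fintype k] {R : Type} [CommRing R] [Algebra k R]
    {S : Type} [CommRing S] [Algebra k S] (x : S)
    (hfix : ∀ T : S ⊗[k] R → S ⊗[k] R,
      (∀ n u v h, u - v = x ^ n • h → ∃ h', T u - T v = x ^ (n + 1) • h') → ∃ y, T y = y)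
    (ρ : S ⊗[k] R) :
    ∃ H : S ⊗[k] R, mp R (FiniteField.frobeniusAlgHom k S) (1 + x ⊗ₜ 1 * H) =
      (1 + x ⊗ₜ 1 * ρ) * (1 + x ⊗ₜ 1 * H) := by
  obtain ⟨q, hq⟩ : ∃ q, Fintype.card k = q + 2 :=
    ⟨Fintype.card k - 2, by have := Fintype.one_lt_card (α := k); omega⟩
  have hF : ∀ s : S, FiniteField.frobeniusAlgHom k S s = s ^ (q + 2) := fun s => by
    rw [FiniteField.coe_frobeniusAlgHom, hq]
  obtain ⟨H, hH⟩ := hfix (fun H => x ^ (q + 1) •
      mp R (FiniteField.frobeniusAlgHom k S) H - ρ - x • (ρ * H))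
    fun n u v h hh => ⟨x ^ (q + n * (q + 1)) •
      mp R (FiniteField.frobeniusAlgHom k S) h - ρ * h, by
      rw [sub_eq_iff_eq_add] at hh
      rw [hh, map_add, mp_smul, hF]
      simp only [Algebra.smul_def, map_pow]
      ring⟩
  refine ⟨H, ?_⟩
  have hx : x ⊗ₜ[k] (1 : R) = algebraMap S _ x := rfl
  rw [hx, map_add, map_one, ← Algebra.smul_def x H, mp_smul, hF]
  simp only [Algebra.smul_def, map_pow] at hH ⊢
  linear_combination (algebraMap S (S ⊗[k] R) x) * hH

theorem exists_lang {k : Type} [Field k] [Fintype k] {R : Type} [CommRing R] [Algebra k R]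
    {d : ℕ} (e : Basis (Fin d) k R) {F : Type} [CommRing F] [Algebra k F] (ρ : F⟦X⟧ ⊗[k] R) :
    ∃ H : F⟦X⟧ ⊗[k] R, mp R (FiniteField.frobeniusAlgHom k F⟦X⟧) (1 + X ⊗ₜ 1 * H) =
      (1 + X ⊗ₜ 1 * ρ) * (1 + X ⊗ₜ 1 * H) :=
  exists_lang_aux X (fun T hT => exists_fixed (bs F⟦X⟧ e) T hT) ρ

theorem isIntegral_of_pow_mem {A B : Type} [CommRing A] [IsNoetherianRing A] [CommRing B]
    [Algebra A B] {κ : Type} [Finite κ] (g : κ → B) (Q : ℕ) (hQ : 2 ≤ Q)
    (hadd : ∀ x y : B, (x + y) ^ Q = x ^ Q + y ^ Q)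
    (h : ∀ i, g i ^ Q ∈ Submodule.span A (Set.range g)) (i : κ) : IsIntegral A (g i) := by
  set N := Submodule.span A (Set.range g) with hN
  have h1 : ∀ x ∈ N, x ^ Q ∈ N := fun x hx => by
    induction hx using Submodule.span_induction with
    | mem x hx =>
      obtain ⟨j, rfl⟩ := hx
      exact h j
    | zero =>
      rw [zero_pow (by omega)]
      exact N.zero_mem
    | add x y _ _ hx hy =>
      rw [hadd]
      exact N.add_mem hx hy
    | smul a x _ hx =>
      rw [smul_pow]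
      exact N.smul_mem _ hx
  have h2 : ∀ n, g i ^ Q ^ n ∈ N := fun n => by
    induction n with
    | zero =>
      rw [pow_zero, pow_one]
      exact Submodule.subset_span ⟨i, rfl⟩
    | succ n ih =>
      rw [pow_succ, pow_mul]
      exact h1 _ ih
  have : IsNoetherian A N := isNoetherian_span_of_finite A (Set.finite_range g)
  let u : ℕ → N := fun n => ⟨_, h2 n⟩
  obtain ⟨n, hn⟩ := monotone_stabilizes_iff_noetherian.2 this
    ⟨fun n => Submodule.span A (Set.range fun j : Fin n => u j), monotone_nat_of_le_succ fun n =>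
      Submodule.span_mono (by
        rintro _ ⟨j, rfl⟩
        exact ⟨j.castSucc, rfl⟩)⟩
  have h3 : u n ∈ Submodule.span A (Set.range fun j : Fin n => u j) := by
    have := hn (n + 1) (Nat.le_succ n)
    simp only [OrderHom.coe_mk] at this
    rw [this]
    exact Submodule.subset_span ⟨Fin.last n, rfl⟩
  obtain ⟨c, hc⟩ := (Submodule.mem_span_range_iff_exists_fun A).1 h3
  have h4 : ∑ j : Fin n, c j • g i ^ Q ^ (j : ℕ) = g i ^ Q ^ n := by
    simpa [u] using congrArg Subtype.val hc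
  refine ⟨Polynomial.X ^ Q ^ n - ∑ j : Fin n, Polynomial.monomial (Q ^ (j : ℕ)) (c j), ?_, ?_⟩
  · refine Polynomial.monic_X_pow_sub ?_
    refine (Polynomial.degree_sum_le _ _).trans_lt ?_
    rw [Finset.sup_lt_iff (WithBot.bot_lt_coe _)]
    intro j _
    refine (Polynomial.degree_monomial_le _ _).trans_lt ?_
    exact_mod_cast Nat.pow_lt_pow_right (by omega) j.2
  · rw [← Polynomial.aeval_def, map_sub, map_pow, Polynomial.aeval_X, map_sum, ← h4, sub_eq_zero]
    exact Finset.sum_congr rfl fun j _ => by rw [Polynomial.aeval_monomial, Algebra.smul_def]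

end Pool.Agent.Lib.MP_a3f657_nt.Two.Rh
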