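import Pool.Agent.Lib.MP_a3f657_nt.C2SfEuler

/-!
Majorants for the coefficients of a series with a given logarithmic derivative.
-/

namespace Pool.Agent.Lib.MP_a3f657_nt.Two

open PowerSeries Finset

theorem LogD.norm_le_choose {F G : ℂ⟦X⟧} (h : LogD F G) (hF : coeff 0 F = 1) (hG : coeff 0 G = 0)
    {c : ℝ} (hc : 0 < c) (y N : ℕ) (hψ : ∀ m, 1 ≤ m → m ≤ N → ‖coeff m G‖ ≤ y * c ^ m) :
    ∀ n ≤ N, ∑ i ∈ range (n + 1), ‖coeff i F‖ / c ^ i ≤ (n + y).choose n := by
  intro n hn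
  induction n with
  | zero => simp [hF]
  | succ n ih =>
    have h1 := ih (by omega)
    have h2 : ((n + 1 : ℕ) : ℝ) * (‖coeff (n + 1) F‖ / c ^ (n + 1)) ≤
        y * ∑ i ∈ range (n + 1), ‖coeff i F‖ / c ^ i := by
      have h3 := congrArg norm (h.rec (n + 1))
      rw [norm_mul, Complex.norm_natCast, Nat.sum_antidiagonal_eq_sum_range_succ_mk,
        sum_range_succ] at h3
      simp only [Nat.sub_self, hG, mul_zero, add_zero] at h3
      rw [← mul_div_assoc, h3, div_le_iff₀ (by positivity), mul_sum, sum_mul]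
      refine (norm_sum_le _ _).trans (sum_le_sum fun i hi => ?_)
      have h4 := mem_range.1 hi
      rw [norm_mul]
      calc ‖coeff i F‖ * ‖coeff (n + 1 - i) G‖ ≤ ‖coeff i F‖ * (y * c ^ (n + 1 - i)) := by
            gcongr
            exact hψ _ (by omega) (by omega)
        _ = y * (‖coeff i F‖ / c ^ i) * c ^ (n + 1) := by
            rw [show c ^ (n + 1) = c ^ i * c ^ (n + 1 - i) by rw [← pow_add]; congr 1; omega]
            field_simp
    have h3 : ((n + 1 + y).choose (n + 1) : ℝ) * (n + 1 : ℕ) = (n + y).choose n * (n + 1 + y) := by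
      have := Nat.add_one_mul_choose_eq (n + y) n
      rw [show n + 1 + y = n + y + 1 by ring]
      have h4 : (((n + y + 1) * (n + y).choose n : ℕ) : ℝ) =
        ((n + y + 1).choose (n + 1) * (n + 1) : ℕ) := by exact_mod_cast this
      push_cast at h4 ⊢
      linear_combination -h4
    rw [sum_range_succ]
    have h4 : (0 : ℝ) < (n + 1 : ℕ) := by positivity
    refine le_of_mul_le_mul_right ?_ h4
    rw [h3]
    push_cast at h2 ⊢
    have h5 : (0 : ℝ) ≤ y := by positivity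
    nlinarith [mul_le_mul_of_nonneg_left h1 h5, mul_le_mul_of_nonneg_left h1 h4.le]

theorem choose_le {η : ℝ} (hη : 0 < η) (n y : ℕ) :
    ((n + y).choose n : ℝ) ≤ (1 + η) ^ n * ((1 + η) / η) ^ y := by
  have h1 : (1 : ℝ) ^ n * η ^ (n + y - n) * (n + y).choose n ≤ (1 + η) ^ (n + y) := by
    rw [add_pow]
    exact single_le_sum (f := fun m => (1 : ℝ) ^ m * η ^ (n + y - m) * (n + y).choose m)
      (fun _ _ => by positivity) (mem_range.2 (by omega))
  rw [one_pow, one_mul, Nat.add_sub_cancel_left, pow_add] at h1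
  rw [div_pow, ← mul_div_assoc, le_div_iff₀ (by positivity)]
  linarith

theorem majorant {θ : ℝ} (hθ : 1 < θ) (B : ℝ) : ∃ T : ℕ, 1 ≤ T ∧ ∀ D : ℝ, 0 ≤ D → ∃ C : ℝ, 0 ≤ C ∧
    ∀ (F G : ℂ⟦X⟧) (c : ℝ) (n Y : ℕ), LogD F G → coeff 0 F = 1 → coeff 0 G = 0 → 0 < c →
      (∀ m, 1 ≤ m → m ≤ n →
        ‖coeff m G‖ ≤ ((if T < m then B * (Y + 1) else 0) + D * m) * c ^ m) →
      ‖coeff n F‖ ≤ C * c ^ n * θ ^ (n + Y) := by
  obtain ⟨η, hη, hη'⟩ : ∃ η : ℝ, 0 < η ∧ (1 + η) ^ 2 ≤ θ :=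
    ⟨√θ - 1, by rw [sub_pos, Real.lt_sqrt (by norm_num)]; simpa using hθ, by
      rw [add_sub_cancel, Real.sq_sqrt (by linarith)]⟩
  set K := (1 + η) / η with hK
  have hK1 : 1 ≤ K := by rw [hK, le_div_iff₀ hη]; linarith
  have hlK : 0 ≤ Real.log K := Real.log_nonneg hK1
  have hlθ : 0 < Real.log θ := Real.log_pos hθ
  obtain ⟨T, hT⟩ := pow_unbounded_of_one_lt (|B| * Real.log K / Real.log θ)
    (show 1 < 1 + η by linarith)
  refine ⟨T + 1, by omega, fun D hD => ⟨θ * Real.exp ((D / η + 1) * Real.log K), by positivity,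
    fun F G c n Y h hF hG hc hψ => ?_⟩⟩
  set y₀ : ℝ := |B| * (Y + 1) / (1 + η) ^ T + D / η with hy₀
  have hy₀0 : 0 ≤ y₀ := by positivity
  have h1 := h.norm_le_choose hF hG (c := (1 + η) * c) (by positivity) ⌈y₀⌉₊ n (fun m h1 h2 => by
    refine (hψ m h1 h2).trans ?_
    rw [mul_pow, ← mul_assoc]
    gcongr
    refine le_trans ?_ (mul_le_mul_of_nonneg_right (Nat.le_ceil y₀) (by positivity))
    rw [hy₀, add_mul]
    refine add_le_add ?_ ?_
    · split_ifs with h3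
      · rw [div_mul_eq_mul_div, le_div_iff₀ (by positivity)]
        have h4 : (1 + η) ^ T ≤ (1 + η) ^ m := pow_le_pow_right₀ (by linarith) (by omega)
        have h5 : B * (Y + 1) ≤ |B| * (Y + 1) := by gcongr; exact le_abs_self B
        gcongr
      · positivity
    · rw [div_mul_eq_mul_div, le_div_iff₀ hη, mul_assoc]
      gcongr
      have := one_add_mul_le_pow (show (-2 : ℝ) ≤ η by linarith) m
      linarith) n le_rfl
  have h2 : ‖coeff n F‖ / ((1 + η) * c) ^ n ≤ (1 + η) ^ n * K ^ ⌈y₀⌉₊ :=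
    (single_le_sum (f := fun i => ‖coeff i F‖ / ((1 + η) * c) ^ i) (fun _ _ => by positivity)
      (self_mem_range_succ n)).trans (h1.trans (choose_le hη n _))
  have h3 : K ^ ⌈y₀⌉₊ ≤ θ ^ (Y + 1) * Real.exp ((D / η + 1) * Real.log K) := by
    rw [← Real.exp_log (show 0 < K ^ ⌈y₀⌉₊ by positivity),
      ← Real.exp_log (show 0 < θ ^ (Y + 1) by positivity), ← Real.exp_add, Real.log_pow,
      Real.log_pow]
    apply Real.exp_le_exp.2
    have h4 := (Nat.ceil_lt_add_one hy₀0).le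
    have h5 : |B| * (Y + 1) / (1 + η) ^ T * Real.log K ≤ (Y + 1) * Real.log θ := by
      rw [div_lt_iff₀ hlθ] at hT
      rw [div_mul_eq_mul_div, div_le_iff₀ (by positivity)]
      have : (0 : ℝ) ≤ Y + 1 := by positivity
      nlinarith
    push_cast
    nlinarith [mul_le_mul_of_nonneg_right h4 hlK]
  rw [div_le_iff₀ (by positivity)] at h2
  calc ‖coeff n F‖ ≤ (1 + η) ^ n * K ^ ⌈y₀⌉₊ * ((1 + η) * c) ^ n := h2
    _ = ((1 + η) ^ 2) ^ n * K ^ ⌈y₀⌉₊ * c ^ n := by
        rw [mul_pow, ← pow_mul, mul_comm 2 n, pow_mul, sq]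
        ring
    _ ≤ θ ^ n * (θ ^ (Y + 1) * Real.exp ((D / η + 1) * Real.log K)) * c ^ n := by gcongr
    _ = _ := by ring

end Pool.Agent.Lib.MP_a3f657_nt.Two
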