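import Pool.Agent.Lib.MP_a3f657_nt.C2Tup

/-!
Parity and first moment on a cell.
-/

set_option linter.unusedSectionVars false

namespace Pool.Agent.Lib.MP_a3f657_nt.Two

open Polynomial IsDedekindDomain UniqueFactorizationMonoid

open scoped Classical

variable {k : Type} [Field k] [Fintype k] [CharP k 2] {T β d : ℕ} {a : WeierstrassCurve k[X]}
  {M : k[X]} {f : k[X] × k[X] → k[X]} {t : k[X] × k[X]}

/-- The 2-Selmer group is finite of dimension congruent to `e` modulo two. -/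
def Par (e : ZMod 2) (W : WeierstrassCurve (RatFunc k)) : Prop :=
  ∃ n : ℕ, selOrder W = 2 ^ n ∧ (n : ZMod 2) = e

/-- The indicator function of a parity class. -/
noncomputable def ind (e : ZMod 2) (W : WeierstrassCurve (RatFunc k)) : ℝ := if Par e W then 1 else 0

lemma sr_nat (n : ℕ) : sr n = (-1) ^ n := by
  induction n with
  | zero => simp [sr_zero]
  | succ n ih => rw [Nat.cast_succ, sr_add, ih, sr_one, pow_succ]

lemma ind_eq {W : WeierstrassCurve (RatFunc k)} {r : ℕ} (h : selOrder W = 2 ^ r) (e : ZMod 2) :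
    ind e W = (1 + sr e * (-1) ^ r) / 2 := by
  have : Par e W ↔ (r : ZMod 2) = e := ⟨fun ⟨n, h1, h2⟩ =>
    Nat.pow_right_injective le_rfl (h.symm.trans h1) ▸ h2, fun h1 => ⟨r, h, h1⟩⟩
  rw [ind, this, ← sr_nat]
  rcases z2_cases e with rfl | rfl <;> rcases z2_cases r with h1 | h1 <;>
    simp [h1, sr_zero, sr_one]

lemma CellA.filter_eq (hC : CellA T β d a M f) :
    (cell T β d a).filter (fun t => GoodQ T (shift T β a t)) =
      (cell T β d a).filter fun t => Squarefree (f t) :=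
  Finset.filter_congr hC.sqf

lemma CellA.abs_sum (hC : CellA T β d a M f) {h : k[X] → ℂ} {g : k[X] → ℝ}
    (H : ∀ p, GoodP M p → h p = g p) :
    |∑ t ∈ cell T β d a with Squarefree (f t), ∏ p ∈ (normalizedFactors (f t)).toFinset, g p| =
      ‖∑ t ∈ cell T β d a, sfw h (f t)‖ := by
  rw [← Real.norm_eq_abs, ← Complex.norm_real, Complex.ofReal_sum, Finset.sum_filter]
  congr 1
  refine Finset.sum_congr rfl fun t ht => if_congr Iff.rfl ?_ rfl
  rw [Complex.ofReal_prod]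
  exact Finset.prod_congr rfl fun p hp => (H p (hC.goodP ht p hp)).symm

lemma abs_sign (D : Dat k) : |D.sign| = 1 := by simp [Dat.sign]

lemma CellA.nb_le (hC : CellA T β d a M f) (h : GoodT T β d a) (hd : DegLE a d) (hN : GoodN T a)
    (ht : t ∈ cell T β d a) : nb (h.dat hd) (normalizedFactors (f t)).toFinset ≤
      ((normalizedFactors (f t)).toFinset.powerset.filter fun s =>
        s ≠ ∅ ∧ s ≠ (normalizedFactors (f t)).toFinset ∧ JJ T β a.a₁ M s ∧
          JJ T β a.a₁ M ((normalizedFactors (f t)).toFinset \ s)).card := by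
  have key : ∀ s ⊆ (normalizedFactors (f t)).toFinset, Jv (h.dat hd) s → JJ T β a.a₁ M s := by
    intro s hs hJ z n hz hn
    have e : ι n / ι M = ι (PiT k T ^ β * z) / ι a.a₁ := by
      rw [div_eq_div_iff (ι_ne hC.M0) (ι_ne h.1), ι, ι, ← map_mul, hn, map_mul]
    rw [Finset.prod_congr rfl fun p hp => sgP_eq_sr (hC.goodP ht p (hs hp)) n, ← Complex.ofReal_prod,
      ← sr_sum, e, hJ _ (h.mem_V0 hz hN).2, sr_zero, Complex.ofReal_one]
  refine Finset.card_le_card fun s hs => ?_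
  rw [Finset.mem_filter] at hs ⊢
  exact ⟨hs.1, hs.2.1, hs.2.2.1, key s (Finset.mem_powerset.1 hs.1) hs.2.2.2.1,
    key _ Finset.sdiff_subset hs.2.2.2.2⟩

lemma notWp {n : k[X]} {α : RatFunc k} (hM : M ≠ 0) (hn : ι n = α * ι M) (h : α ∉ wpH.range) :
    NotWp M n := fun c hc => h ⟨c, by
  rw [← ι, ← ι, hn, mul_div_cancel_right₀ _ (ι_ne hM)] at hc
  exact hc⟩

theorem cell_est (hA : CellAn) (k : Type) [Field k] [Fintype k] [CharP k 2] :
    ∃ T₀ : ℕ, ∀ T, T₀ ≤ T → ∀ (β : ℕ) (ε : ℝ), 0 < ε → ∀ᶠ d : ℕ in Filter.atTop,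
      ∀ a : WeierstrassCurve k[X], DegLE a d → GoodT T β d a → GoodN T a →
        (∀ t ∈ cell T β d a, GoodQ T (shift T β a t) →
          ∃ r, selOrder (bc (shift T β a t)) = 2 ^ r) ∧ ∀ e : ZMod 2,
        |∑ t ∈ cell T β d a with GoodQ T (shift T β a t), (ind e (bc (shift T β a t)) - 1 / 2)| ≤
          ε * (cell T β d a).card ∧
        ∑ t ∈ cell T β d a with GoodQ T (shift T β a t),
          (ind e (bc (shift T β a t)) * selOrder (bc (shift T β a t)) - 3 / 2) ≤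
          ε * (cell T β d a).card := by
  obtain ⟨T₀, hT⟩ := hA k
  refine ⟨T₀, fun T hT₀ β ε hε => ?_⟩
  set q : ℝ := (Fintype.card k : ℝ)
  have hq : 0 < q := Bad.q_pos
  set c := q ^ ((84 * β + 2) * ((PiT k T).natDegree + 1) + 1)
  have hc : 0 < c := by positivity
  set η := ε / (c + 3)
  have hη : 0 < η := by positivity
  filter_upwards [hT T hT₀ β η hη, Filter.eventually_ge_atTop (β * (PiT k T).natDegree + β + 1)]
    with d H hd0 a hd h hN
  obtain ⟨M, f, hC, A1, A2, A3⟩ := H a hd h hN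
  set D := h.dat hd
  have := (h.card_V (hd := hd)).1
  have : Fintype D.V := Fintype.ofFinite _
  obtain ⟨x1, x2⟩ := h.mem_V0 (hd := hd) (z := 1) (by
    have := h.2.2.1
    rw [natDegree_one]
    omega) hN
  have x0 : ι (PiT k T ^ β * 1) / ι a.a₁ ≠ 0 :=
    div_ne_zero (ι_ne (by simp [PiT_ne])) (ι_ne h.1)
  set F := fun t => (normalizedFactors (f t)).toFinset
  set c0 : ℝ := (Nat.card D.C0 : ℝ)
  set v : ℝ := (Nat.card D.V : ℝ)
  have key : ∀ t ∈ cell T β d a, Squarefree (f t) → (∃ r, selOrder (bc (shift T β a t)) = 2 ^ r ∧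
      (-1 : ℝ) ^ r = D.sign * ∏ _ ∈ F t, (-1)) ∧ (selOrder (bc (shift T β a t)) : ℝ) * (c0 * v) ≤
      ∑ x : D.V × D.V with ¬ Exc x.1.1 x.2.1, Tm D (F t) x.1 x.2 +
        3 / 2 * (2 + nb D (F t)) * (c0 * v) := fun t ht hQ => by
    obtain ⟨P, hP⟩ := exists_nd (hC.good t ht).2.1 (hC.good t ht).2.2.1
    have hF : ∀ p ∈ F t, p.Monic ∧ Irreducible p := fun p hp =>
      ⟨(hC.goodP ht p hp).1, (hC.goodP ht p hp).2.1⟩
    have h1 := hC.cfg h hd hN ht hQ hP
    rw [selOrder_eq' hP, Finset.prod_const, ← Finset.card_image_of_injOn (plc_inj hF)]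
    exact ⟨h1.parity, h1.mom hF x0 x1 x2⟩
  refine ⟨fun t ht hQ => ((key t ht ((hC.sqf t ht).1 hQ)).1.imp fun _ h => h.1), fun e => ?_⟩
  rw [hC.filter_eq]
  set G := (cell T β d a).filter fun t => Squarefree (f t)
  set N : ℝ := ((cell T β d a).card : ℝ)
  have hN0 : 0 ≤ η * N := by positivity
  have hε' : ε * N = (c + 3) * (η * N) := by
    simp only [η]
    field_simp
  set s := sr e * D.sign
  have hs : |s| = 1 := by rw [abs_mul, abs_sr, abs_sign, one_mul]
  have hi : ∀ t ∈ G, ind e (bc (shift T β a t)) = (1 + s * ∏ _ ∈ F t, (-1)) / 2 := fun t ht => by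
    obtain ⟨r, h1, h2⟩ := (key t (Finset.mem_filter.1 ht).1 (Finset.mem_filter.1 ht).2).1
    rw [ind_eq h1, h2, mul_assoc]
  have hi0 : ∀ t, 0 ≤ ind e (bc (shift T β a t)) ∧ ind e (bc (shift T β a t)) ≤ 1 := fun t => by
    unfold ind
    split_ifs <;> simp
  rw [← hC.abs_sum (g := fun _ => -1) (by simp)] at A1
  have B1 : |∑ t ∈ G, (ind e (bc (shift T β a t)) - 1 / 2)| ≤ η * N / 2 := by
    rw [Finset.sum_congr rfl fun t ht => show _ = s / 2 * ∏ _ ∈ F t, (-1 : ℝ) by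
      rw [hi t ht]; ring, ← Finset.mul_sum, abs_mul, abs_div, hs, abs_two]
    linarith
  refine ⟨B1.trans (by nlinarith), ?_⟩
  have hv : v ≤ q ^ d * c := by
    rw [← pow_add, ← add_assoc]
    simp only [v, q]
    exact_mod_cast (h.card_V (hd := hd)).2
  have hv0 : 0 < v := Nat.cast_pos.2 Nat.card_pos
  have hc0 : 1 ≤ c0 := by
    have h1 := card_E (D := D)
    have h2 : 0 < (Finset.univ.filter fun α : D.V => α.1 ∈ wpH.range).card :=
      Finset.card_pos.2 ⟨0, Finset.mem_filter.2 ⟨Finset.mem_univ _, zero_mem _⟩⟩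
    exact Nat.one_le_cast.2 (by omega)
  have B2 : ∀ x : D.V × D.V, ¬ Exc x.1.1 x.2.1 →
      |∑ t ∈ G, ind e (bc (shift T β a t)) * Tm D (F t) x.1 x.2| * q ^ d ≤ η * N := fun x hx => by
    have hG : PiT k T ^ (84 * β + 2) * a.a₁ ∣ M :=
      (mul_dvd_mul_right (pow_dvd_pow _ (by unfold RR; omega)) _).trans hC.bigM
    obtain ⟨h1, h2⟩ := h.nm_spec hG x.1.2
    obtain ⟨h3, h4⟩ := h.nm_spec hG x.2.2
    simp only [Exc, not_or] at hx
    have h5 := fun e he => A2 _ _ e he (h2.trans (by unfold RR; omega))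
      (h4.trans (by unfold RR; omega)) (notWp hC.M0 h1 hx.1) (notWp hC.M0 h3 hx.2.1)
      (notWp hC.M0 (by rw [ι, map_add, add_mul, ← h1, ← h3]) hx.2.2)
    have h6 := h5 1 (.inl rfl)
    have h7 := h5 (-1) (.inr rfl)
    rw [← hC.abs_sum (g := gR x.1 x.2) fun p hp => by rw [gK_eq hp h1 h3, one_mul]] at h6
    rw [← hC.abs_sum (g := fun p => -1 * gR x.1 x.2 p) fun p hp => by
      rw [gK_eq hp h1 h3]; simp] at h7
    rw [Finset.sum_congr rfl fun t ht => show _ = sr (D.CC x.1 x.2) / 2 * (∏ p ∈ F t, gR x.1 x.2 p +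
      s * ∏ p ∈ F t, (-1 * gR x.1 x.2 p)) by rw [hi t ht, Tm, Finset.prod_mul_distrib]; ring,
      ← Finset.mul_sum, Finset.sum_add_distrib, ← Finset.mul_sum, abs_mul, abs_div, abs_sr, abs_two]
    have h8 := abs_add_le (∑ t ∈ G, ∏ p ∈ F t, gR x.1 x.2 p)
      (s * ∑ t ∈ G, ∏ p ∈ F t, (-1 * gR x.1.1 x.2.1 p))
    rw [abs_mul, hs, one_mul] at h8
    nlinarith [mul_le_mul_of_nonneg_right h8 (pow_pos hq d).le]
  have B3 : |∑ t ∈ G, ind e (bc (shift T β a t)) *
      ∑ x : D.V × D.V with ¬ Exc x.1.1 x.2.1, Tm D (F t) x.1 x.2| ≤ c * (η * N) * (c0 * v) := by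
    simp only [Finset.mul_sum]
    rw [Finset.sum_comm]
    refine (Finset.abs_sum_le_sum_abs _ _).trans ((Finset.sum_le_card_nsmul _ _ (η * N / q ^ d)
      fun x hx => (le_div_iff₀ (pow_pos hq d)).2 (B2 x (Finset.mem_filter.1 hx).2)).trans ?_)
    have h1 : ((Finset.univ.filter fun x : D.V × D.V => ¬ Exc x.1.1 x.2.1).card : ℝ) ≤ v * v := by
      simp only [v, Nat.card_eq_fintype_card]
      exact_mod_cast (Finset.card_le_univ _).trans_eq (Fintype.card_prod _ _)
    rw [nsmul_eq_mul]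
    calc _ ≤ (q ^ d * c) * (c0 * v) * (η * N / q ^ d) := by
          gcongr
          exact h1.trans (by gcongr; nlinarith)
      _ = _ := by field_simp
  have B4 : ∑ t ∈ G, (nb D (F t) : ℝ) ≤ η * N := (Finset.sum_le_sum fun t ht => by
    exact_mod_cast hC.nb_le h hd hN (Finset.mem_filter.1 ht).1).trans A3
  have B5 : ∑ t ∈ G, (ind e (bc (shift T β a t)) * selOrder (bc (shift T β a t)) - 3 / 2) *
      (c0 * v) ≤ ∑ t ∈ G, (ind e (bc (shift T β a t)) *
        ∑ x : D.V × D.V with ¬ Exc x.1.1 x.2.1, Tm D (F t) x.1 x.2 +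
        (3 * (ind e (bc (shift T β a t)) - 1 / 2) + 3 / 2 * nb D (F t)) * (c0 * v)) :=
    Finset.sum_le_sum fun t ht => by
      have h1 := (key t (Finset.mem_filter.1 ht).1 (Finset.mem_filter.1 ht).2).2
      have h2 : 0 ≤ (nb D (F t) : ℝ) * (c0 * v) := by positivity
      nlinarith [mul_le_mul_of_nonneg_left h1 (hi0 t).1, mul_le_mul_of_nonneg_right (hi0 t).2 h2]
  rw [Finset.sum_add_distrib, ← Finset.sum_mul, ← Finset.sum_mul, Finset.sum_add_distrib,
    ← Finset.mul_sum, ← Finset.mul_sum] at B5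
  refine le_of_mul_le_mul_right (B5.trans ?_) (by positivity : 0 < c0 * v)
  rw [hε', add_mul c, add_mul (c * _)]
  have B6 := (abs_le.1 B1).2
  refine add_le_add (abs_le.1 B3).2 (mul_le_mul_of_nonneg_right ?_ (by positivity))
  linarith

end Pool.Agent.Lib.MP_a3f657_nt.Two
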