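import Pool.Agent.Lib.MP_a3f657_nt.C2XDefs

/-!
The divisor bound and the count for the Frobenius conditions.
-/

namespace Pool.Agent.Lib.MP_a3f657_nt.Two.Exc

open Polynomial Filter Topology Bad

open scoped Classical

namespace CntFAux

variable {k : Type} [Field k]

/-- At most `c` monic divisors. -/
def Tau (N : k[X]) (c : ℝ) : Prop := Bd (fun s : k[X] => s.Monic ∧ s ∣ N) c

lemma Tau.mul {A B : k[X]} {a b : ℝ} (hA : Tau A a) (hB : Tau B b) : Tau (A * B) (a * b) := by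
  refine ((Bd.fib (R := fun _ (s : k[X]) => s.Monic ∧ s ∣ B) hA (fun _ _ => hB) (Bd.nonneg hB)).image
    fun x => x.1 * x.2).mono ?_
  rintro s ⟨hs, hd⟩
  obtain ⟨u, v, hu, hv, rfl⟩ := exists_dvd_and_dvd_of_dvd_mul hd
  have hu0 : u ≠ 0 := left_ne_zero_of_mul hs.ne_zero
  have hv0 : v ≠ 0 := right_ne_zero_of_mul hs.ne_zero
  refine ⟨(normalize u, normalize v), ⟨⟨monic_normalize hu0, normalize_dvd_iff.2 hu⟩,
    monic_normalize hv0, normalize_dvd_iff.2 hv⟩, ?_⟩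
  show u * v = normalize u * normalize v
  rw [← normalize_mul, hs.normalize_eq_self]

lemma bd_finset {α : Type} (S : Finset α) : Bd (fun x => x ∈ S) S.card := fun _ hB =>
  Nat.cast_le.2 (Finset.card_le_card hB)

lemma tau_unit {N : k[X]} (h : IsUnit N) : Tau N 1 := by
  refine ((bd_finset {(1 : k[X])}).mono ?_).le (by simp)
  rintro s ⟨hs, hd⟩
  simpa using hs.isUnit_iff.1 (isUnit_of_dvd_unit hd h)

lemma tau_pow {p : k[X]} (hm : p.Monic) (hp : Irreducible p) (e : ℕ) : Tau (p ^ e) (e + 1) := by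
  refine (((bd_finset (Finset.range (e + 1))).image fun i => p ^ i).mono ?_).le (by simp)
  rintro s ⟨hs, hd⟩
  obtain ⟨i, hi, h⟩ := (dvd_prime_pow hp.prime e).1 hd
  exact ⟨i, Finset.mem_range.2 (by omega), eq_of_monic_of_associated hs (hm.pow i) h⟩

lemma tau_large {β : ℝ} (hβ : 1 ≤ β) {T : ℕ} (hT : 2 ≤ β ^ T) (n : ℕ) : ∀ N : k[X], N ≠ 0 →
    N.natDegree = n → (∀ p : k[X], p.Monic → Irreducible p → p ∣ N → T ≤ p.natDegree) →
    Tau N (β ^ n) := by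
  induction n using Nat.strong_induction_on with
  | _ n ih =>
    intro N h0 hn h
    by_cases hu : IsUnit N
    · exact (tau_unit hu).le (one_le_pow₀ hβ)
    · obtain ⟨p, hm, hp, M, rfl⟩ := exists_monic_irreducible_factor N hu
      have hM : M ≠ 0 := right_ne_zero_of_mul h0
      rw [natDegree_mul hm.ne_zero hM] at hn
      have h1 := hp.natDegree_pos
      have h2 := ih M.natDegree (by omega) M hM rfl fun r h3 h4 h5 => h r h3 h4 (h5.mul_left _)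
      have h3 := tau_pow hm hp 1
      rw [pow_one] at h3
      refine (h3.mul h2).le ?_
      rw [← hn, pow_add]
      have h4 := pow_le_pow_right₀ hβ (h p hm hp (dvd_mul_right _ _))
      exact mul_le_mul_of_nonneg_right (by push_cast; linarith) (by positivity)

lemma tau_gen {β C : ℝ} (hβ : 1 ≤ β) {T : ℕ} (hT : 2 ≤ β ^ T) (hC : ∀ e : ℕ, (e : ℝ) + 1 ≤ C * β ^ e)
    (S : Finset k[X]) : ∀ N : k[X], N ≠ 0 →
    (∀ p : k[X], p.Monic → Irreducible p → p ∣ N → p ∈ S ∨ T ≤ p.natDegree) →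
    Tau N (C ^ S.card * β ^ N.natDegree) := by
  have hC1 : 1 ≤ C := by simpa using hC 0
  induction S using Finset.induction_on with
  | empty =>
    intro N h0 h
    simpa using tau_large hβ hT _ N h0 rfl fun p h1 h2 h3 => by simpa using h p h1 h2 h3
  | insert p S hp ih =>
    intro N h0 h
    rw [Finset.card_insert_of_notMem hp, pow_succ]
    by_cases hq : p.Monic ∧ Irreducible p
    · obtain ⟨e, M, h1, rfl⟩ := WfDvdMonoid.max_power_factor h0 hq.2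
      have hM : M ≠ 0 := right_ne_zero_of_mul h0
      have h2 := ih M hM fun r h3 h4 h5 => by
        rcases h r h3 h4 (h5.mul_left _) with h6 | h6
        · rcases Finset.mem_insert.1 h6 with rfl | h7
          · exact absurd h5 h1
          · exact Or.inl h7
        · exact Or.inr h6
      refine ((tau_pow hq.1 hq.2 e).mul h2).le ?_
      rw [natDegree_mul (pow_ne_zero e hq.1.ne_zero) hM, natDegree_pow, pow_add]
      have h3 : β ^ e ≤ β ^ (e * p.natDegree) :=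
        pow_le_pow_right₀ hβ (Nat.le_mul_of_pos_right _ hq.2.natDegree_pos)
      have h4 : (e : ℝ) + 1 ≤ C * β ^ (e * p.natDegree) :=
        (hC e).trans (mul_le_mul_of_nonneg_left h3 (by linarith))
      calc _ ≤ (C * β ^ (e * p.natDegree)) * (C ^ S.card * β ^ M.natDegree) := by gcongr
        _ = _ := by ring
    · refine (ih N h0 fun r h3 h4 h5 => ?_).le ?_
      · rcases h r h3 h4 h5 with h6 | h6
        · rcases Finset.mem_insert.1 h6 with rfl | h7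
          · exact absurd ⟨h3, h4⟩ hq
          · exact Or.inl h7
        · exact Or.inr h6
      · gcongr
        exact le_mul_of_one_le_right (by positivity) hC1

end CntFAux

open CntFAux in
theorem tauB : TauB := by
  intro k _ _ θ hθ c
  obtain ⟨β, h1, h2⟩ : ∃ β : ℝ, β ^ c < θ ∧ 1 < β := by
    have h : ∀ᶠ β : ℝ in 𝓝 1, β ^ c < θ :=
      ((continuous_pow c).tendsto 1).eventually (gt_mem_nhds (by simpa using hθ))
    exact ((h.filter_mono nhdsWithin_le_nhds).and (self_mem_nhdsWithin (s := Set.Ioi 1))).exists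
  obtain ⟨T, hT⟩ := pow_unbounded_of_one_lt 2 h2
  have hC : ∀ e : ℕ, (e : ℝ) + 1 ≤ (1 + 1 / (β - 1)) * β ^ e := fun e => by
    have h3 := one_add_mul_le_pow (a := β - 1) (by linarith) e
    rw [add_sub_cancel] at h3
    have h4 : 0 < β - 1 := by linarith
    have h5 : 1 / (β - 1) * (1 + e * (β - 1)) = 1 / (β - 1) + e := by field_simp
    have h6 : 0 < 1 / (β - 1) := by positivity
    have h7 := mul_le_mul_of_nonneg_left h3 h6.le
    have h8 := one_le_pow₀ (n := e) h2.le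
    linarith
  have hb : 0 < β ^ c := by positivity
  have h3 := (tendsto_pow_atTop_atTop_of_one_lt ((one_lt_div hb).2 h1)).eventually_ge_atTop
    ((1 + 1 / (β - 1)) ^ (irrLe k T).card)
  filter_upwards [h3] with d hd N h0 hN
  refine (tau_gen h2.le hT.le hC (irrLe k T) N h0 fun p h4 h5 _ => ?_).le ?_
  · rcases le_total p.natDegree T with h | h
    · exact Or.inl (mem_irrLe.2 ⟨h, h4, h5⟩)
    · exact Or.inr h
  · rw [div_pow, le_div_iff₀ (by positivity), ← pow_mul] at hd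
    refine le_trans ?_ hd
    have h6 : 0 < β - 1 := by linarith
    gcongr
    exact h2.le

namespace CntFAux

variable {k : Type} [Field k]

lemma mul_dvd_of {p u N : k[X]} (hp : Irreducible p) {m : ℕ} (h1 : ¬ p ∣ u) (h2 : p ^ m ∣ N)
    (h3 : u ∣ N) : p ^ m * u ∣ N :=
  (hp.coprime_iff_not_dvd.2 h1).pow_left.mul_dvd h2 h3

lemma exists_root {N : k[X]} (hN : N ≠ 0) : ∃ s : k[X], s ≠ 0 ∧ 2 * s.natDegree ≤ N.natDegree ∧
    ∀ p : k[X], Irreducible p → ∀ j : ℕ, p ^ (2 * j) ∣ N → p ^ j ∣ s := by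
  have key : ∀ s : k[X], s ^ 2 ∣ N → 2 * s.natDegree ≤ N.natDegree := fun s hs => by
    simpa [natDegree_pow] using natDegree_le_of_dvd hs hN
  obtain ⟨_, ⟨s, hs, rfl⟩, hmax⟩ := Set.exists_max_image (natDegree '' {s : k[X] | s ^ 2 ∣ N}) id
    ((Set.finite_le_nat N.natDegree).subset (by
      rintro _ ⟨s, hs, rfl⟩
      have := key s hs
      show s.natDegree ≤ N.natDegree
      omega)) ⟨_, 1, by simp, rfl⟩
  replace hs : s ^ 2 ∣ N := hs
  have h0 : s ≠ 0 := by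
    rintro rfl
    exact hN (by simpa using hs)
  refine ⟨s, h0, key s hs, fun p hp j hj => ?_⟩
  obtain ⟨m, u, h1, rfl⟩ := WfDvdMonoid.max_power_factor h0 hp
  by_cases h : j ≤ m
  · exact (pow_dvd_pow p h).mul_right _
  · exfalso
    have h2 : (p * (p ^ m * u)) ^ 2 ∣ N := by
      have h3 : (p * (p ^ m * u)) ^ 2 = p ^ (2 * (m + 1)) * u ^ 2 := by ring
      rw [h3]
      refine mul_dvd_of hp (fun h4 => h1 (hp.prime.dvd_of_dvd_pow h4))
        ((pow_dvd_pow p (by omega)).trans hj) (Dvd.dvd.trans ?_ hs)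
      exact pow_dvd_pow_of_dvd (dvd_mul_left _ _) 2
    have h3 : (p * (p ^ m * u)).natDegree ≤ (p ^ m * u).natDegree := hmax _ ⟨_, h2, rfl⟩
    rw [natDegree_mul hp.ne_zero h0] at h3
    have := hp.natDegree_pos
    omega

lemma decomp {N H γ : k[X]} (hN : N ≠ 0) (hγ : γ ∣ H)
    (h : ∀ p : k[X], p.Monic → Irreducible p → ∀ j : ℕ, p ^ (2 * j) ∣ N → p ^ j ∣ H) :
    ∃ u f : k[X], u.Monic ∧ u ∣ H ^ 3 ∧ N = u * f ∧
      ∀ p : k[X], p.Monic → Irreducible p → p ∣ f → ¬ p ^ 2 ∣ N ∧ ¬ p ∣ γ := by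
  have h0 : gcd N (H ^ 3) ≠ 0 := gcd_ne_zero_of_left hN
  obtain ⟨f, hf⟩ := gcd_dvd_left N (H ^ 3)
  refine ⟨gcd N (H ^ 3), f, ?_, gcd_dvd_right _ _, hf, fun p hm hp hd => ?_⟩
  · rw [← normalize_gcd]
    exact monic_normalize h0
  obtain ⟨m, u, h1, h2⟩ := WfDvdMonoid.max_power_factor h0 hp
  have h3 : p ^ (m + 1) * u ∣ N := by
    rw [hf, h2, pow_succ, mul_right_comm]
    exact mul_dvd_mul_left _ hd
  have h4 : ¬ p ^ (m + 1) ∣ H ^ 3 := fun h5 => by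
    have h6 := dvd_gcd h3 (mul_dvd_of hp h1 h5
      ((Dvd.intro_left _ h2.symm).trans (gcd_dvd_right _ _)))
    rw [h2, pow_succ, mul_right_comm] at h6
    have h7 : p ^ m * u ≠ 0 := h2 ▸ h0
    nth_rewrite 2 [← mul_one (p ^ m * u)] at h6
    exact hp.not_isUnit (isUnit_of_dvd_one ((mul_dvd_mul_iff_left h7).1 h6))
  have h5 : ∀ j : ℕ, p ^ j ∣ H → m + 1 ≤ 3 * j → False := fun j hj hm' => by
    refine h4 ((pow_dvd_pow p (show m + 1 ≤ j * 3 by omega)).trans ?_)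
    rw [pow_mul]
    exact pow_dvd_pow_of_dvd hj 3
  have h6 : ¬ m + 1 ≤ 3 * ((m + 1) / 2) := h5 _ (h p hm hp _ ((pow_dvd_pow p (by omega)).trans
    ((dvd_mul_right _ _).trans h3)))
  have h7 : ¬ p ∣ H := fun h8 => h5 1 (by simpa using h8) (by omega)
  exact ⟨fun h8 => h7 (by simpa using h p hm hp 1 h8), fun h8 => h7 (h8.trans hγ)⟩

lemma dvd_of_primes {f D : k[X]}
    (h : ∀ p : k[X], p.Monic → Irreducible p → p ∣ f → ¬ p ^ 2 ∣ f ∧ p ∣ D) : f ∣ D := by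
  obtain ⟨g, hg⟩ := gcd_dvd_left f D
  by_cases hu : IsUnit g
  · rw [hg]
    exact (hu.mul_right_dvd).2 (gcd_dvd_right _ _)
  · obtain ⟨p, hm, hp, hd⟩ := exists_monic_irreducible_factor g hu
    have h1 : p ∣ f := hg ▸ hd.mul_left _
    refine absurd ?_ (h p hm hp h1).1
    rw [hg, pow_two]
    exact mul_dvd_mul (dvd_gcd h1 (h p hm hp h1).2) hd

/-- The second of the Frobenius conditions. -/
def Sec (a : WeierstrassCurve k[X]) (γ : k[X]) : Prop :=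
  ∀ p : k[X], p.Monic → Irreducible p → p ∣ a.a₃ → ¬ p ∣ γ → ∃ z y : k[X],
    p ∣ y ^ 2 + a.a₄ * z ^ 2 + a.a₂ * a.a₄ + a.a₆ ∧
    p ∣ γ ^ 2 + derivative a.a₃ * z + derivative a.a₄ ∧
    p ∣ derivative a.a₃ * y + γ ^ 2 * (z ^ 2 + a.a₂) + a.a₄ * derivative a.a₂ + derivative a.a₆

lemma deriv_gh [CharP k 2] (g h : k[X]) : derivative (g ^ 2 + X * h ^ 2) = h ^ 2 := by
  have h2 := CharTwo.two_eq_zero (R := k[X])
  have h4 : ∀ f : k[X], derivative (f ^ 2) = 0 := fun f => by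
    rw [pow_two, derivative_mul]; linear_combination (derivative f * f) * h2
  simp only [derivative_add, derivative_mul, h4, derivative_X, zero_add, mul_zero, add_zero,
    one_mul]

variable [Fintype k]

lemma not_dvd_deriv {p N : k[X]} (hp : Irreducible p) (h1 : p ∣ N) (h2 : ¬ p ^ 2 ∣ N) :
    ¬ p ∣ derivative N := by
  obtain ⟨g, rfl⟩ := h1
  intro h
  rw [derivative_mul, dvd_add_left (dvd_mul_right _ _)] at h
  rcases hp.prime.dvd_or_dvd h with h3 | h3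
  · exact hp.not_isUnit ((PerfectField.separable_of_irreducible hp).isUnit_of_dvd' dvd_rfl h3)
  · exact h2 (by rw [pow_two]; exact mul_dvd_mul_left _ h3)

lemma sec_cong [CharP k 2] {a₂ a₃ a₄ c c' c₁ γ p : k[X]} (hm : p.Monic) (hp : Irreducible p)
    (h1 : p ∣ a₃) (h2 : ¬ p ^ 2 ∣ a₃) (h3 : ¬ p ∣ γ)
    (h : Sec ⟨0, a₂, a₃, a₄, c ^ 2 + X * c₁ ^ 2⟩ γ)
    (h' : Sec ⟨0, a₂, a₃, a₄, c' ^ 2 + X * c₁ ^ 2⟩ γ) : p ∣ c - c' := by
  have h0 := CharTwo.two_eq_zero (R := k[X])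
  obtain ⟨z, y, e1, e2, e3⟩ := h p hm hp h1 h3
  obtain ⟨z', y', f1, f2, f3⟩ := h' p hm hp h1 h3
  simp only [deriv_gh] at e1 e2 e3 f1 f2 f3
  have h4 := not_dvd_deriv hp h1 h2
  have hz : p ∣ z - z' := by
    refine (hp.prime.dvd_or_dvd (a := derivative a₃) ?_).resolve_left h4
    convert dvd_sub e2 f2 using 1
    ring
  have hy : p ∣ y - y' := by
    refine (hp.prime.dvd_or_dvd (a := derivative a₃) ?_).resolve_left h4
    convert dvd_sub (dvd_sub e3 f3) (hz.mul_left (γ ^ 2 * (z + z'))) using 1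
    ring
  refine hp.prime.dvd_of_dvd_pow (n := 2) ?_
  convert dvd_sub (dvd_sub (dvd_sub e1 f1) (hz.mul_left (a₄ * (z + z')))) (hy.mul_left (y + y'))
    using 1
  linear_combination (c' ^ 2 - c * c') * h0

lemma inner [CharP k 2] (d : ℕ) (a₂ a₄ c₁ u γ : k[X]) :
    Bd (fun x : k[X] × k[X] => (x.1 ≠ 0 ∧ x.1.natDegree ≤ 3 * d ∧
      ∀ p : k[X], p.Monic → Irreducible p → p ∣ x.1 → ¬ p ^ 2 ∣ u * x.1 ∧ ¬ p ∣ γ) ∧
      x.2 ∈ PL k (3 * d + 1) ∧ Sec ⟨0, a₂, u * x.1, a₄, x.2 ^ 2 + X * c₁ ^ 2⟩ γ)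
      ((3 * d + 1) * (Fintype.card k : ℝ) ^ (3 * d + 2)) := by
  have hq := q_pos (k := k)
  have key : ∀ i ∈ Finset.range (3 * d + 1), Bd (fun x : k[X] × k[X] =>
      (x.1 ≠ 0 ∧ x.1.natDegree = i ∧
      ∀ p : k[X], p.Monic → Irreducible p → p ∣ x.1 → ¬ p ^ 2 ∣ u * x.1 ∧ ¬ p ∣ γ) ∧
      x.2 ∈ PL k (3 * d + 1) ∧ Sec ⟨0, a₂, u * x.1, a₄, x.2 ^ 2 + X * c₁ ^ 2⟩ γ)
      ((Fintype.card k : ℝ) ^ (3 * d + 2)) := by
    intro i hi
    have hi' := Finset.mem_range.1 hi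
    refine (Bd.fib (P := fun f : k[X] => f ≠ 0 ∧ f.natDegree = i ∧
      ∀ p : k[X], p.Monic → Irreducible p → p ∣ f → ¬ p ^ 2 ∣ u * f ∧ ¬ p ∣ γ)
      (R := fun f c : k[X] => c ∈ PL k (3 * d + 1) ∧
        Sec ⟨0, a₂, u * f, a₄, c ^ 2 + X * c₁ ^ 2⟩ γ)
      (c' := (Fintype.card k : ℝ) ^ (3 * d + 1) / (Fintype.card k : ℝ) ^ i)
      ((bd_PL (i + 1)).mono fun f hf => mem_PL_succ.2 hf.2.1.le) ?_ (by positivity)).le ?_
    · rintro f ⟨h0, h1, h2⟩
      refine bd_cong h0 (fun c hc => hc.1) (fun c c' hc hc' => ?_) hi'.le h1.ge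
      refine dvd_of_primes fun p hm hp hd => ⟨fun h3 => (h2 p hm hp hd).1 (h3.mul_left _), ?_⟩
      exact sec_cong hm hp (hd.mul_left _) (h2 p hm hp hd).1 (h2 p hm hp hd).2 hc.2 hc'.2
    · apply le_of_eq
      field_simp
      ring
  refine ((Bd.union _ key).mono ?_).le (by simp)
  rintro x ⟨⟨h1, h2, h3⟩, h4⟩
  exact ⟨_, Finset.mem_range.2 (by omega), ⟨h1, rfl, h3⟩, h4⟩

lemma core [CharP k 2] (d : ℕ) {t : ℝ} (e₁ γ H : k[X]) (hγ : γ ∣ H) (ht : Tau (H ^ 3) t) :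
    Bd (fun a : WeierstrassCurve k[X] => (DegLE a d ∧ a.a₁ = 0 ∧ a.a₃ ≠ 0) ∧
      (∃ e ∈ PL k (2 * d + 1), a.a₄ = e ^ 2 + X * e₁ ^ 2) ∧
      (∀ p : k[X], p.Monic → Irreducible p → ∀ j : ℕ, p ^ (2 * j) ∣ a.a₃ → p ^ j ∣ H) ∧ Sec a γ)
      ((3 * d + 1) * t * (Fintype.card k : ℝ) ^ (10 * d + 4)) := by
  have hq := q_pos (k := k)
  have h1 := Bd.fib (R := fun (_ : k[X]) e => e ∈ PL k (2 * d + 1)) (bd_PL (k := k) (2 * d + 1))
    (fun _ _ => bd_PL _) (by positivity)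
  have h2 := Bd.fib (R := fun _ c => c ∈ PL k (3 * d)) h1 (fun _ _ => bd_PL _) (by positivity)
  have h3 := Bd.fib (R := fun _ (s : k[X]) => s.Monic ∧ s ∣ H ^ 3) h2 (fun _ _ => ht) (Bd.nonneg ht)
  have h4 := Bd.fib h3 (fun y _ => inner d y.1.1.1 (y.1.1.2 ^ 2 + X * e₁ ^ 2) y.1.2 y.2 γ)
    (by positivity)
  refine ((h4.image fun y => (⟨0, y.1.1.1.1, y.1.2 * y.2.1, y.1.1.1.2 ^ 2 + X * e₁ ^ 2,
    y.2.2 ^ 2 + X * y.1.1.2 ^ 2⟩ : WeierstrassCurve k[X])).mono ?_).le (le_of_eq (by ring))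
  rintro ⟨a₁, a₂, a₃, a₄, a₆⟩ ⟨⟨⟨-, d2, d3, -, d6⟩, rfl, h0⟩, ⟨e, he, h5⟩, h6, h7⟩
  dsimp only at *
  obtain ⟨c₁, hc₁, c, hc, rfl⟩ := exists_gh (3 * d) (f := a₆) (mem_PL_succ.2 (by omega))
  obtain ⟨u, f, hu, hu', rfl, h8⟩ := decomp h0 hγ h6
  subst h5
  have h9 : f ≠ 0 := right_ne_zero_of_mul h0
  rw [natDegree_mul hu.ne_zero h9] at d3
  exact ⟨((((a₂, e), c₁), u), f, c), ⟨⟨⟨⟨mem_PL_succ.2 d2, he⟩, hc₁⟩, hu, hu'⟩,
    ⟨h9, by dsimp only; omega, h8⟩, hc, h7⟩, rfl⟩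

end CntFAux

open CntFAux in
theorem cntF : CntF := by
  intro k _ _ _ ε hε
  have hq := q_pos (k := k)
  have hq2 := two_le_q (k := k)
  set q : ℝ := (Fintype.card k : ℝ) with hqd
  have hl : Tendsto (fun d : ℕ => 2 * q ^ 5 * (3 * ((d : ℝ) * (5 / 8) ^ d) + (5 / 8) ^ d)) atTop
      (𝓝 (2 * q ^ 5 * (3 * 0 + 0))) :=
    (((tendsto_self_mul_const_pow_of_lt_one (by norm_num) (by norm_num)).const_mul 3).add
      (tendsto_pow_atTop_nhds_zero_of_lt_one (by norm_num) (by norm_num))).const_mul _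
  filter_upwards [tauB k (5 / 4) (by norm_num) 12,
    hl.eventually (ge_mem_nhds (by simpa using hε))] with d hd hd'
  have h0 := CharTwo.two_eq_zero (R := k[X])
  have h1 := Bd.fib (R := fun (_ : k[X]) w => w ∈ PL k (2 * d + 1)) (bd_PL (k := k) (2 * d))
    (fun _ _ => bd_PL _) (by positivity)
  have key : ∀ g H : k[X] × k[X] → k[X], (∀ y, g y ∣ H y) →
      Bd (fun x : WeierstrassCurve k[X] × k[X] => ∃ y : k[X] × k[X],
        (y.1 ∈ PL k (2 * d) ∧ y.2 ∈ PL k (2 * d + 1)) ∧ x.2 = g y ∧ H y ≠ 0 ∧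
        (H y).natDegree ≤ 4 * d ∧ (DegLE x.1 d ∧ x.1.a₁ = 0 ∧ x.1.a₃ ≠ 0) ∧
        (∃ e ∈ PL k (2 * d + 1), x.1.a₄ = e ^ 2 + X * y.1 ^ 2) ∧
        (∀ p : k[X], p.Monic → Irreducible p → ∀ j : ℕ, p ^ (2 * j) ∣ x.1.a₃ → p ^ j ∣ H y) ∧
        Sec x.1 (g y))
      (q ^ (2 * d) * q ^ (2 * d + 1) * ((3 * d + 1) * (5 / 4) ^ d * q ^ (10 * d + 4))) := by
    intro g H hg
    have h2 := Bd.fib (P := fun y : k[X] × k[X] => (y.1 ∈ PL k (2 * d) ∧ y.2 ∈ PL k (2 * d + 1)) ∧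
        H y ≠ 0 ∧ (H y).natDegree ≤ 4 * d) (h1.mono fun y hy => hy.1)
      (fun y hy => core d y.1 (g y) (H y) (hg y) (hd _ (pow_ne_zero 3 hy.2.1) (by
        rw [natDegree_pow]; have := hy.2.2; omega))) (by positivity)
    refine (h2.image fun z => (z.2, g z.1)).mono ?_
    rintro ⟨a, γ⟩ ⟨y, e1, rfl, e2, e3, e4⟩
    exact ⟨(y, a), ⟨⟨e1, e2, e3⟩, e4⟩, rfl⟩
  refine (((key (fun y => y.2) (fun y => y.2 * (y.2 + y.1)) fun y => dvd_mul_right _ _).or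
    (key (fun y => y.1) (fun y => y.1 * y.2) fun y => dvd_mul_right _ _)).mono ?_).le ?_
  · rintro ⟨a, γ⟩ ⟨ha, hγ, hγ0, hF1, hF2⟩
    dsimp only at *
    obtain ⟨e₁, he₁, e, he, h4⟩ := exists_gh (2 * d) (f := a.a₄)
      (mem_PL_succ.2 (by have := ha.1.2.2.2.1; omega))
    have hγd : γ.natDegree ≤ 2 * d := by
      rcases mem_PL_iff.1 hγ with h | h
      · exact absurd h hγ0
      · exact h.le
    by_cases h : γ + e₁ = 0
    · right
      obtain ⟨s, hs0, hs1, hs2⟩ := exists_root ha.2.2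
      have h5 : γ = e₁ := by linear_combination h - e₁ * h0
      have h6 := ha.1.2.2.1
      subst h5
      refine ⟨(γ, s), ⟨hγ, mem_PL_succ.2 (by dsimp only; omega)⟩, rfl, mul_ne_zero hγ0 hs0, ?_, ha,
        ⟨e, he, h4⟩, fun p _ hp j hj => (hs2 p hp j hj).mul_left _, hF2⟩
      rw [natDegree_mul hγ0 hs0]
      omega
    · left
      have he₁d : e₁.natDegree ≤ 2 * d := by
        rcases mem_PL_iff.1 he₁ with h | h
        · simp [h]
        · exact h.le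
      refine ⟨(e₁, γ), ⟨he₁, mem_PL_succ.2 hγd⟩, rfl, mul_ne_zero hγ0 h, ?_, ha,
        ⟨e, he, h4⟩, fun p hm hp j hj => ?_, hF2⟩
      · rw [natDegree_mul hγ0 h]
        have := natDegree_add_le_of_degree_le hγd he₁d
        omega
      · have h5 := hF1 p hm hp j hj
        have h6 : γ ^ 2 * (γ ^ 2 + derivative a.a₄) = (γ * (γ + e₁)) ^ 2 := by
          rw [h4, deriv_gh]
          linear_combination (-γ ^ 3 * e₁) * h0
        rw [h6, mul_comm 2 j, pow_mul] at h5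
        exact (UniqueFactorizationMonoid.pow_dvd_pow_iff_dvd two_ne_zero).1 h5
  · have h2 : (5 / 4 : ℝ) ^ d ≤ (5 / 8) ^ d * q ^ d := by
      rw [← mul_pow]
      exact pow_le_pow_left₀ (by norm_num) (by linarith) d
    calc _ = 2 * q ^ 5 * (3 * d + 1) * q ^ (14 * d) * (5 / 4) ^ d := by ring
      _ ≤ 2 * q ^ 5 * (3 * d + 1) * q ^ (14 * d) * ((5 / 8) ^ d * q ^ d) := by gcongr
      _ = 2 * q ^ 5 * (3 * ((d : ℝ) * (5 / 8) ^ d) + (5 / 8) ^ d) * q ^ (15 * d) := by ring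
      _ ≤ _ := by gcongr

end Pool.Agent.Lib.MP_a3f657_nt.Two.Exc
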