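import Pool.Agent.Lib.MP_a3f657_nt.C2XDefs

/-!
A sieve: the local conditions of the Verschiebung descent hold rarely.
-/

namespace Pool.Agent.Lib.MP_a3f657_nt.Two.Exc

open Polynomial Filter Topology Bad

open scoped Classical

namespace CntV

section Local

variable {κ : Type} [Field κ] [Fintype κ]

lemma sum_root (A : κ) : ∑ v : κ, (if A + v = 0 then (1 : ℝ) else 0) = 1 := by
  simp only [add_eq_zero_iff_neg_eq, Finset.sum_ite_eq, Finset.mem_univ, if_true]

lemma card_root {c4 : κ} (c3 c2 u v : κ) (h : c4 ≠ 0) :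
    (Finset.univ.filter fun x : κ =>
      c4 * x ^ 4 + c3 * x ^ 3 + c2 * x ^ 2 + u * x + v = 0).card ≤ 4 := by
  have h1 : (C c4 * X ^ 4 + C c3 * X ^ 3 + C c2 * X ^ 2 + C u * X + C v : κ[X]).natDegree = 4 := by
    compute_degree!
  have h2 : (C c4 * X ^ 4 + C c3 * X ^ 3 + C c2 * X ^ 2 + C u * X + C v : κ[X]) ≠ 0 := by
    intro h3
    rw [h3] at h1
    simp at h1
  refine le_of_le_of_eq (card_le_degree_of_subset_roots fun x hx => ?_) h1
  rw [mem_roots h2, IsRoot.def]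
  simpa using (Finset.mem_filter.1 hx).2

/-- Many quartics with given leading coefficients have no root. -/
lemma noroot {c4 : κ} (c3 c2 : κ) (h : c4 ≠ 0) :
    (Fintype.card κ : ℝ) ^ 2 ≤ 8 * ((Finset.univ : Finset (κ × κ)).filter fun z => ∀ x : κ,
      c4 * x ^ 4 + c3 * x ^ 3 + c2 * x ^ 2 + z.1 * x + z.2 ≠ 0).card := by
  obtain ⟨I, hI⟩ : ∃ I : κ × κ → κ → ℝ, I = fun z x =>
    if c4 * x ^ 4 + c3 * x ^ 3 + c2 * x ^ 2 + z.1 * x + z.2 = 0 then 1 else 0 := ⟨_, rfl⟩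
  have h0 : ∀ z x, 0 ≤ I z x := fun z x => by
    rw [hI]
    positivity
  have h1 : ∀ x, ∑ z, I z x = Fintype.card κ := fun x => by
    rw [Fintype.sum_prod_type, hI]
    simp only [sum_root]
    simp
  have h2 : ∀ x y, 1 + (if x = y then (Fintype.card κ : ℝ) - 1 else 0) ≤ ∑ z, I z x * I z y := by
    intro x y
    split_ifs with e
    · rw [← e, add_sub_cancel, ← h1 x]
      refine Finset.sum_le_sum fun z _ => ?_
      rw [hI]
      dsimp only
      split_ifs <;> simp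
    · obtain ⟨g, hg⟩ : ∃ g : κ → κ, g = fun x => c4 * x ^ 4 + c3 * x ^ 3 + c2 * x ^ 2 := ⟨_, rfl⟩
      have e1 : x - y ≠ 0 := sub_ne_zero.2 e
      refine le_trans ?_ (Finset.single_le_sum (f := fun z => I z x * I z y)
        (fun z _ => mul_nonneg (h0 z x) (h0 z y))
        (Finset.mem_univ ((g y - g x) / (x - y), -g x - (g y - g x) / (x - y) * x)))
      rw [hI]
      dsimp only
      rw [if_pos (by rw [hg]; ring), if_pos (by rw [hg]; field_simp; ring)]
      simp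
  have h3 : ∀ z, 4 - 5 * ∑ x, I z x + ∑ x, ∑ y, I z x * I z y ≤ 4 * (if ∀ x : κ,
      c4 * x ^ 4 + c3 * x ^ 3 + c2 * x ^ 2 + z.1 * x + z.2 ≠ 0 then 1 else 0) := by
    intro z
    rw [← Finset.sum_mul_sum]
    have e : ∑ x, I z x = ((Finset.univ.filter fun x : κ =>
        c4 * x ^ 4 + c3 * x ^ 3 + c2 * x ^ 2 + z.1 * x + z.2 = 0).card : ℕ) := by
      rw [hI, Finset.card_filter]
      push_cast
      rfl
    have e4 := card_root c3 c2 z.1 z.2 h
    rw [e]
    split_ifs with e5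
    · rw [Finset.filter_eq_empty_iff.2 fun x _ => e5 x]
      simp
    · push Not at e5
      obtain ⟨x, hx⟩ := e5
      have e6 : 0 < (Finset.univ.filter fun x : κ =>
          c4 * x ^ 4 + c3 * x ^ 3 + c2 * x ^ 2 + z.1 * x + z.2 = 0).card :=
        Finset.card_pos.2 ⟨x, Finset.mem_filter.2 ⟨Finset.mem_univ x, hx⟩⟩
      generalize (Finset.univ.filter fun x : κ =>
        c4 * x ^ 4 + c3 * x ^ 3 + c2 * x ^ 2 + z.1 * x + z.2 = 0).card = n at *
      interval_cases n <;> norm_num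
  have h4 := Finset.sum_le_sum fun z (_ : z ∈ Finset.univ) => h3 z
  have h5 : ∑ z, ∑ x, I z x = Fintype.card κ * Fintype.card κ := by
    rw [Finset.sum_comm]
    simp [h1]
  have h6 : (Fintype.card κ : ℝ) * (2 * Fintype.card κ - 1) ≤ ∑ z, ∑ x, ∑ y, I z x * I z y := by
    rw [Finset.sum_comm]
    refine le_trans (le_of_eq ?_) (Finset.sum_le_sum fun x _ => (Finset.sum_le_sum
      fun y (_ : y ∈ Finset.univ) => h2 x y).trans (Finset.sum_comm.le))
    simp only [Finset.sum_add_distrib, Finset.sum_ite_eq, Finset.mem_univ, if_true,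
      Finset.sum_const, Finset.card_univ, nsmul_eq_mul]
    ring
  rw [Finset.sum_add_distrib, Finset.sum_sub_distrib, ← Finset.mul_sum, ← Finset.mul_sum, h5,
    Finset.sum_const, Finset.card_univ, Fintype.card_prod, nsmul_eq_mul] at h4
  rw [Finset.card_filter]
  push_cast at h4 ⊢
  nlinarith [two_le_q (k := κ)]

/-- The residues for which the quartic has no root. -/
noncomputable def G (A D : κ) : Finset ((κ × κ) × κ × κ) :=
  Finset.univ.filter fun z => z.1.1 ≠ 0 ∧ z.1.2 ≠ 0 ∧ ∀ x : κ,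
    z.1.1 ^ 4 * x ^ 4 + z.1.2 ^ 2 * x ^ 3 + (D ^ 2 + z.1.2 ^ 2 * A) * x ^ 2 + z.2.1 * x + z.2.2 ≠ 0

lemma card_G (A D : κ) : (Fintype.card κ : ℝ) ^ 4 ≤ 32 * (G A D).card := by
  have h1 : ∀ s ∈ (Finset.univ.erase (0 : κ)) ×ˢ (Finset.univ.erase (0 : κ)),
      (Fintype.card κ : ℝ) ^ 2 / 8 ≤ ∑ z : κ × κ, if s.1 ≠ 0 ∧ s.2 ≠ 0 ∧ ∀ x : κ,
        s.1 ^ 4 * x ^ 4 + s.2 ^ 2 * x ^ 3 + (D ^ 2 + s.2 ^ 2 * A) * x ^ 2 + z.1 * x + z.2 ≠ 0
        then (1 : ℝ) else 0 := by
    intro s hs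
    have a1 := (Finset.mem_erase.1 (Finset.mem_product.1 hs).1).1
    have a2 := (Finset.mem_erase.1 (Finset.mem_product.1 hs).2).1
    have a3 := noroot (s.2 ^ 2) (D ^ 2 + s.2 ^ 2 * A) (pow_ne_zero 4 a1)
    rw [Finset.card_filter] at a3
    push_cast at a3
    simp only [a1, a2, ne_eq, not_false_eq_true, true_and] at a3 ⊢
    linarith
  have h2 := (Finset.card_nsmul_le_sum _ _ _ h1).trans (Finset.sum_le_sum_of_subset_of_nonneg
    (Finset.subset_univ _) fun s _ _ => Finset.sum_nonneg fun z _ => by positivity)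
  have h3 := two_le_q (k := κ)
  rw [G, Finset.card_filter, Fintype.sum_prod_type]
  rw [Finset.card_product, Finset.card_erase_of_mem (Finset.mem_univ _), Finset.card_univ,
    nsmul_eq_mul, Nat.cast_mul, Nat.cast_sub Fintype.one_lt_card.le] at h2
  push_cast at h2 ⊢
  generalize (Fintype.card κ : ℝ) = Q at *
  have h4 : Q ^ 2 ≤ 4 * ((Q - 1) * (Q - 1)) := by nlinarith
  nlinarith [mul_le_mul_of_nonneg_right h4 (sq_nonneg Q)]

end Local

variable {k : Type} [Field k]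

/-- The condition at one prime. -/
def E (p : k[X]) (z : WeierstrassCurve k[X] × k[X]) : Prop :=
  p ∣ z.1.a₃ → ¬ p ∣ z.2 → ∃ x y : k[X],
    p ∣ y ^ 2 + x ^ 3 + z.1.a₂ * x ^ 2 + z.1.a₄ * x + z.1.a₆ ∧
    p ∣ derivative z.1.a₃ * y + z.2 ^ 2 * x ^ 2 + derivative z.1.a₄ * x +
      z.1.a₄ * (z.2 ^ 2 + derivative z.1.a₂) + derivative z.1.a₆

/-- The translations. -/
noncomputable def sh (M : k[X]) (z : WeierstrassCurve k[X] × k[X]) (w : Fin 5 → k[X]) :
    WeierstrassCurve k[X] × k[X] :=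
  (⟨z.1.a₁, z.1.a₂, z.1.a₃ + ((M * w 1) ^ 2 + X * (M * w 2) ^ 2), z.1.a₄ + (M * w 3) ^ 2,
    z.1.a₆ + (M * w 4) ^ 2⟩, z.2 + M * w 0)

variable [CharP k 2]

lemma dsq (f : k[X]) : derivative (f ^ 2) = 0 := by
  rw [pow_two, derivative_mul, mul_comm, CharTwo.add_self_eq_zero]

lemma sh_sh (M : k[X]) (z : WeierstrassCurve k[X] × k[X]) (w : Fin 5 → k[X]) :
    sh M (sh M z w) w = z := by
  simp only [sh, CharTwo.add_cancel_right]

lemma d3 (M : k[X]) (z : WeierstrassCurve k[X] × k[X]) (w : Fin 5 → k[X]) :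
    derivative (sh M z w).1.a₃ = derivative z.1.a₃ + (M * w 2) ^ 2 := by
  simp only [sh, derivative_add, derivative_mul (f := X), dsq, derivative_X]
  ring

lemma d4 (M : k[X]) (z : WeierstrassCurve k[X] × k[X]) (w : Fin 5 → k[X]) :
    derivative (sh M z w).1.a₄ = derivative z.1.a₄ := by
  simp only [sh, derivative_add, dsq, add_zero]

lemma d6 (M : k[X]) (z : WeierstrassCurve k[X] × k[X]) (w : Fin 5 → k[X]) :
    derivative (sh M z w).1.a₆ = derivative z.1.a₆ := by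
  simp only [sh, derivative_add, dsq, add_zero]

lemma E_sh {p M : k[X]} (h : p ∣ M) {z : WeierstrassCurve k[X] × k[X]} (hz : E p z)
    (w : Fin 5 → k[X]) : E p (sh M z w) := by
  intro h1 h2
  rw [d3, d4, d6]
  simp only [sh] at h1 h2 ⊢
  obtain ⟨x, y, a1, a2⟩ := hz
    ((dvd_add_left (dvd_add (dvd_pow (h.mul_right _) two_ne_zero)
      ((dvd_pow (h.mul_right _) two_ne_zero).mul_left _))).1 h1)
    fun h3 => h2 (dvd_add h3 (h.mul_right _))
  refine ⟨x, y, ?_, ?_⟩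
  · convert dvd_add a1 (h.mul_right (M * w 3 ^ 2 * x + M * w 4 ^ 2)) using 1
    ring
  · convert dvd_add a2 (h.mul_right (M * w 2 ^ 2 * y + (2 * z.2 * w 0 + M * w 0 ^ 2) *
      (x ^ 2 + z.1.a₄) + M * w 3 ^ 2 * ((z.2 + M * w 0) ^ 2 + derivative z.1.a₂))) using 1
    ring

variable [Fintype k]

/-- The box of parameters. -/
noncomputable def W (k : Type) [Field k] [Fintype k] (n : ℕ) : Finset (Fin 5 → k[X]) :=
  Fintype.piFinset fun _ => PL k n

omit [CharP k 2] in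
lemma card_W (n : ℕ) : ((W k n).card : ℝ) = ((Fintype.card k : ℝ) ^ n) ^ 5 := by
  rw [W, Fintype.card_piFinset_const, card_PL]
  push_cast
  rfl

lemma fail {p M : k[X]} (hm : p.Monic) (hp : Irreducible p) (h : ¬ p ∣ M)
    (z : WeierstrassCurve k[X] × k[X]) : ((Fintype.card k : ℝ) ^ p.natDegree) ^ 4 ≤
      32 * ((W k p.natDegree).filter fun w => ¬ E p (sh M z w)).card := by
  have : Fact (Irreducible p) := ⟨hp⟩
  have : CharP (AdjoinRoot p) 2 := charP_of_injective_algebraMap (algebraMap k _).injective 2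
  have := (AdjoinRoot.powerBasis hm.ne_zero).finite
  have : Finite (AdjoinRoot p) := Module.finite_of_finite k
  have := Fintype.ofFinite (AdjoinRoot p)
  obtain ⟨π, hπ⟩ : ∃ π : k[X] →+* AdjoinRoot p, π = AdjoinRoot.mk p := ⟨_, rfl⟩
  have k0 : ∀ f, π f = 0 ↔ p ∣ f := fun f => by rw [hπ, AdjoinRoot.mk_eq_zero]
  have m0 : π M ≠ 0 := fun e => h ((k0 M).1 e)
  have hd := degree_eq_natDegree hm.ne_zero
  have l1 : ∀ s : AdjoinRoot p, ∃ w ∈ PL k p.natDegree, π M * π w = s := fun s => by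
    obtain ⟨f, hf⟩ := AdjoinRoot.mk_surjective (s / π M)
    refine ⟨f %ₘ p, mem_PL.2 (hd ▸ degree_modByMonic_lt f hm), ?_⟩
    have e := congrArg π (modByMonic_add_div f p)
    rw [map_add, map_mul, (k0 p).2 dvd_rfl, zero_mul, add_zero] at e
    rw [e, hπ, hf, ← hπ, mul_div_cancel₀ _ m0]
  have l2 : ∀ s : AdjoinRoot p, ∃ w ∈ PL k p.natDegree, (π M * π w) ^ 2 = s := fun s => by
    obtain ⟨r, hr⟩ := isSquare_of_charTwo' s
    obtain ⟨w, hw, e⟩ := l1 r
    exact ⟨w, hw, by rw [e, hr, sq]⟩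
  have c1 : Fintype.card k ^ p.natDegree ≤ Fintype.card (AdjoinRoot p) := by
    rw [← card_PL]
    refine Finset.card_le_card_of_injOn π (fun _ _ => Finset.mem_univ _) fun f hf g hg e => ?_
    refine sub_eq_zero.1 (eq_zero_of_dvd_of_degree_lt ((k0 _).1 (by rw [map_sub, e, sub_self])) ?_)
    rw [hd]
    exact mem_PL.1 (sub_mem_PL hf hg)
  have c2 : (G (π z.1.a₂) (π (derivative z.1.a₄))).card ≤
      ((W k p.natDegree).filter fun w => ¬ E p (sh M z w)).card := by
    refine Finset.card_le_card_of_surjOn (fun w => ((π (sh M z w).2,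
      π (derivative (sh M z w).1.a₃)), π (derivative (sh M z w).1.a₃) ^ 2 * π (sh M z w).1.a₄,
      π (sh M z w).1.a₄ ^ 2 * (π (sh M z w).2 ^ 2 + π (derivative z.1.a₂)) ^ 2
        + π (derivative z.1.a₆) ^ 2 + π (derivative (sh M z w).1.a₃) ^ 2 * π (sh M z w).1.a₆)) ?_
    rintro ⟨⟨g, l⟩, u, v⟩ hs
    obtain ⟨g0, l0, hq⟩ := (Finset.mem_filter.1 hs).2
    dsimp only at g0 l0 hq
    obtain ⟨w0, b0, e0⟩ := l1 (g - π z.2)
    obtain ⟨w2, b2, e2⟩ := l2 (l - π (derivative z.1.a₃))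
    obtain ⟨w1, b1, e1⟩ := l2 (-π z.1.a₃ - π X * (l - π (derivative z.1.a₃)))
    obtain ⟨w3, b3, e3⟩ := l2 (u / l ^ 2 - π z.1.a₄)
    obtain ⟨w4, b4, e4⟩ := l2 ((v - ((u / l ^ 2) ^ 2 * (g ^ 2 + π (derivative z.1.a₂)) ^ 2
      + π (derivative z.1.a₆) ^ 2)) / l ^ 2 - π z.1.a₆)
    obtain ⟨w, hw⟩ : ∃ w : Fin 5 → k[X], w = ![w0, w1, w2, w3, w4] := ⟨_, rfl⟩
    have f0 : π (sh M z w).2 = g := by
      simp only [sh, hw, map_add, map_mul, Matrix.cons_val_zero, e0, add_sub_cancel]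
    have f2 : π (derivative (sh M z w).1.a₃) = l := by
      rw [d3, hw]
      simp only [map_add, map_mul, map_pow, Matrix.cons_val, e2, add_sub_cancel]
    have f1 : π (sh M z w).1.a₃ = 0 := by
      simp only [sh, hw, map_add, map_mul, map_pow, Matrix.cons_val, e1, e2]
      ring
    have f3 : π (sh M z w).1.a₄ = u / l ^ 2 := by
      simp only [sh, hw, map_add, map_mul, map_pow, Matrix.cons_val, e3, add_sub_cancel]
    have f4 : π (sh M z w).1.a₆ = (v - ((u / l ^ 2) ^ 2 * (g ^ 2 + π (derivative z.1.a₂)) ^ 2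
        + π (derivative z.1.a₆) ^ 2)) / l ^ 2 := by
      simp only [sh, hw, map_add, map_mul, map_pow, Matrix.cons_val, e4, add_sub_cancel]
    have f5 : (sh M z w).1.a₂ = z.1.a₂ := rfl
    have g1 : l ^ 2 * (u / l ^ 2) = u := mul_div_cancel₀ _ (pow_ne_zero 2 l0)
    have g2 := mul_div_cancel₀ (v - ((u / l ^ 2) ^ 2 * (g ^ 2 + π (derivative z.1.a₂)) ^ 2
      + π (derivative z.1.a₆) ^ 2)) (pow_ne_zero 2 l0)
    refine ⟨w, Finset.mem_coe.2 (Finset.mem_filter.2 ⟨?_, fun hE => ?_⟩), ?_⟩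
    · refine Fintype.mem_piFinset.2 fun i => ?_
      rw [hw]
      fin_cases i <;> assumption
    · obtain ⟨x, y, a1, a2⟩ := hE ((k0 _).1 f1) fun e => g0 (f0 ▸ (k0 _).2 e)
      have a3 := (k0 _).2 a1
      have a4 := congrArg (· ^ 2) ((k0 _).2 a2)
      rw [d4, d6, f5] at a4
      simp only [map_add, map_mul, map_pow, f0, f2, f3, f4, f5] at a3 a4
      rw [CharTwo.add_sq, CharTwo.add_sq, CharTwo.add_sq, CharTwo.add_sq] at a4
      refine hq (π x) ?_
      linear_combination l ^ 2 * a3 + a4 - π x * g1 - g2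
        - (l * π y) ^ 2 * CharTwo.two_eq_zero (R := AdjoinRoot p)
    · dsimp only
      rw [f0, f2, f3, f4, g1, g2, add_sub_cancel]
  refine le_trans ?_ ((card_G (π z.1.a₂) (π (derivative z.1.a₄))).trans
    (mul_le_mul_of_nonneg_left (Nat.cast_le.2 c2) (by norm_num)))
  exact pow_le_pow_left₀ (by positivity) (by exact_mod_cast c1) 4

/-- The box of pairs. -/
noncomputable def Bx (k : Type) [Field k] [Fintype k] (d : ℕ) :
    Finset (WeierstrassCurve k[X] × k[X]) :=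
  ((Avg.DD k d).filter fun a => a.a₁ = 0) ×ˢ PL k d

omit [CharP k 2] in
lemma mem_Bx {d : ℕ} {z : WeierstrassCurve k[X] × k[X]} :
    z ∈ Bx k d ↔ (DegLE z.1 d ∧ z.1.a₁ = 0) ∧ z.2 ∈ PL k d := by
  rw [Bx, Finset.mem_product, Finset.mem_filter, Avg.mem_DD]

omit [CharP k 2] in
lemma card_Bx (d : ℕ) : ((Bx k d).card : ℝ) ≤ (Fintype.card k : ℝ) ^ (16 * d + 4) := by
  have h := (((bd_PL (k := k) (2 * d + 1)).fib (fun _ _ => (bd_PL (k := k) (3 * d + 1)).fib
    (fun _ _ => (bd_PL (k := k) (4 * d + 1)).fib (fun _ _ => (bd_PL (k := k) (6 * d + 1)).fib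
      (fun _ _ => bd_PL (k := k) d) (by positivity)) (by positivity)) (by positivity))
    (by positivity)).image fun x =>
      ((⟨0, x.1, x.2.1, x.2.2.1, x.2.2.2.1⟩ : WeierstrassCurve k[X]), x.2.2.2.2))
  refine (h _ fun z hz => ?_).trans (le_of_eq (by ring))
  obtain ⟨⟨⟨-, h2, h3, h4, h6⟩, h1⟩, h0⟩ := mem_Bx.1 hz
  refine ⟨(z.1.a₂, z.1.a₃, z.1.a₄, z.1.a₆, z.2), ⟨mem_PL_succ.2 h2, mem_PL_succ.2 h3,
    mem_PL_succ.2 h4, mem_PL_succ.2 h6, h0⟩, ?_⟩
  rw [← h1]

omit [CharP k 2] in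
lemma sh_mem {d n : ℕ} {M : k[X]} (hd : M.natDegree + n ≤ d) {z : WeierstrassCurve k[X] × k[X]}
    (hz : z ∈ Bx k d) {w : Fin 5 → k[X]} (hw : w ∈ W k n) : sh M z w ∈ Bx k d := by
  obtain ⟨⟨⟨h1, h2, h3, h4, h6⟩, h0⟩, h7⟩ := mem_Bx.1 hz
  have a1 : ∀ i, M * w i ∈ PL k d := fun i => by
    rcases mem_PL_iff.1 (Fintype.mem_piFinset.1 hw i) with e | e
    · exact mem_PL_iff.2 (Or.inl (by rw [e, mul_zero]))
    · exact mem_PL_iff.2 (Or.inr (natDegree_mul_le.trans_lt (by omega)))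
  have a2 : ∀ i, ((M * w i) ^ 2).natDegree ≤ 2 * d ∧ (X * (M * w i) ^ 2).natDegree ≤ 2 * d := by
    intro i
    rcases mem_PL_iff.1 (a1 i) with e | e
    · simp [e]
    · have b1 := natDegree_pow_le (p := M * w i) (n := 2)
      have b2 := natDegree_mul_le (p := X) (q := (M * w i) ^ 2)
      have b3 := natDegree_X_le (R := k)
      omega
  refine mem_Bx.2 ⟨⟨⟨h1, h2, natDegree_add_le_of_degree_le h3 (natDegree_add_le_of_degree_le
    ((a2 1).1.trans (by omega)) ((a2 2).2.trans (by omega))),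
    natDegree_add_le_of_degree_le h4 ((a2 3).1.trans (by omega)),
    natDegree_add_le_of_degree_le h6 ((a2 4).1.trans (by omega))⟩, h0⟩, ?_⟩
  exact mem_PL.2 ((degree_add_le _ _).trans_lt (max_lt (mem_PL.1 h7) (mem_PL.1 (a1 0))))

lemma sieve (d : ℕ) (S : Finset k[X]) (hS : ∀ p ∈ S, p.Monic ∧ Irreducible p)
    (hd : ∑ p ∈ S, p.natDegree ≤ d) :
    (((Bx k d).filter fun z => ∀ p ∈ S, E p z).card : ℝ) ≤
      (∏ p ∈ S, (1 - 1 / (32 * (Fintype.card k : ℝ) ^ p.natDegree))) * (Bx k d).card := by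
  induction S using Finset.induction_on with
  | empty => simp
  | insert p S hp ih =>
    rw [Finset.sum_insert hp] at hd
    have hS' : ∀ r ∈ S, r.Monic ∧ Irreducible r := fun r hr => hS r (Finset.mem_insert_of_mem hr)
    obtain ⟨hm, hi⟩ := hS p (Finset.mem_insert_self p S)
    obtain ⟨M, hM, hM1, hM2⟩ : ∃ M : k[X], ¬ p ∣ M ∧ (∀ r ∈ S, r ∣ M) ∧
        M.natDegree + p.natDegree ≤ d := by
      refine ⟨∏ r ∈ S, r, fun h => ?_, fun r hr => Finset.dvd_prod_of_mem (fun r => r) hr, ?_⟩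
      · obtain ⟨r, hr, e⟩ := (hi.prime.dvd_finsetProd_iff _).1 h
        exact hp (eq_of_dvd_irr hm hi (hS' r hr).1 (hS' r hr).2 e ▸ hr)
      · rw [natDegree_prod_of_monic _ _ fun r hr => (hS' r hr).1]
        omega
    have hQ : (1 : ℝ) ≤ (Fintype.card k : ℝ) ^ p.natDegree :=
      one_le_pow₀ (le_trans one_le_two two_le_q)
    have h1 := Red.avg ((Bx k d).filter fun z => ∀ r ∈ S, E r z) (fun _ => W k p.natDegree)
      (sh M) (fun z => if E p z then 1 else 0)
      (1 - 1 / (32 * (Fintype.card k : ℝ) ^ p.natDegree))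
      (fun _ _ => Finset.card_pos.1 (by
        have := card_W (k := k) p.natDegree
        exact_mod_cast (show (0 : ℝ) < (W k p.natDegree).card by rw [this]; positivity)))
      (fun z hz w hw => by
        rw [Finset.mem_filter] at hz ⊢
        exact ⟨⟨sh_mem hM2 hz.1 hw, fun r hr => E_sh (hM1 r hr) (hz.2 r hr) w⟩, rfl, sh_sh M z w⟩)
      (fun z _ => by
        have a1 := fail hm hi hM z
        have a2 := Finset.card_filter_add_card_filter_not (s := W k p.natDegree)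
          fun w => E p (sh M z w)
        have a3 := congrArg (Nat.cast (R := ℝ)) a2
        rw [Finset.sum_boole]
        push_cast at a3
        rw [card_W] at a3 ⊢
        generalize (Fintype.card k : ℝ) ^ p.natDegree = Q at *
        have a4 : (1 - 1 / (32 * Q)) * Q ^ 5 = Q ^ 5 - Q ^ 4 / 32 := by field_simp
        linarith)
    rw [Finset.sum_boole, Finset.filter_filter] at h1
    rw [Finset.prod_insert hp, mul_assoc]
    refine le_trans (le_of_eq ?_) (h1.trans (mul_le_mul_of_nonneg_left (ih hS' (by omega)) ?_))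
    · exact congrArg (fun s : Finset _ => (s.card : ℝ)) (Finset.filter_congr fun z _ => by
        rw [Finset.forall_mem_insert]
        exact and_comm)
    · rw [sub_nonneg, div_le_one (by positivity)]
      linarith

lemma count_deg {m : ℕ} (hm : 4 ≤ m) {N : ℕ} (hN : m ≤ N) : Fintype.card k ^ m ≤
    2 * (m * ((irrLe k N).filter fun p => p.natDegree = m).card) := by
  have h1 := sum_deg_eq (k := k) (show 1 ≤ m by omega) hN
  rw [← Finset.sum_filter_add_sum_filter_not _ (fun p => p.natDegree = m)] at h1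
  have h2 : ∑ p ∈ ((irrLe k N).filter fun p => p.natDegree ∣ m).filter
      (fun p => p.natDegree = m), p.natDegree ≤
      m * ((irrLe k N).filter fun p => p.natDegree = m).card := by
    rw [Finset.sum_congr rfl fun p hp => (Finset.mem_filter.1 hp).2, Finset.sum_const,
      smul_eq_mul, mul_comm]
    exact Nat.mul_le_mul_left _ (Finset.card_le_card
      (Finset.filter_subset_filter _ (Finset.filter_subset _ _)))
  have h4 : ∑ p ∈ ((irrLe k N).filter fun p => p.natDegree ∣ m).filter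
      (fun p => ¬ p.natDegree = m), p.natDegree ≤ Fintype.card k ^ (m / 2 + 1) := by
    rw [← Finset.sum_fiberwise_of_maps_to (g := natDegree) (t := Finset.Icc 1 (m / 2))
      (fun p hp => by
        obtain ⟨h5, h6⟩ := Finset.mem_filter.1 hp
        obtain ⟨h7, j, h8⟩ := Finset.mem_filter.1 h5
        have h9 := (mem_irrLe.1 h7).2.2.natDegree_pos
        have h10 : 2 ≤ j := by
          by_contra h10
          interval_cases j <;> omega
        refine Finset.mem_Icc.2 ⟨h9, (Nat.le_div_iff_mul_le two_pos).2 ?_⟩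
        rw [h8]
        gcongr)]
    refine (Finset.sum_le_sum fun e he => sum_deg_eq_le (Finset.mem_Icc.1 he).1 _
      fun p hp => ?_).trans (Nat.geomSum_lt Fintype.one_lt_card
        fun e he => Nat.lt_succ_of_le (Finset.mem_Icc.1 he).2).le
    obtain ⟨h5, h6⟩ := Finset.mem_filter.1 hp
    exact ⟨h6, (mem_irrLe.1 (Finset.mem_filter.1 (Finset.mem_filter.1 h5).1).1).2⟩
  have h5 : Fintype.card k ^ (m / 2 + 1) * 2 ≤ Fintype.card k ^ m :=
    (Nat.mul_le_mul_left _ Fintype.one_lt_card).trans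
      (Nat.pow_le_pow_right (n := Fintype.card k) Fintype.card_pos (show m / 2 + 1 + 1 ≤ m by omega))
  omega

lemma diverge (A : ℝ) :
    ∃ N, A ≤ ∑ p ∈ irrLe k N, 1 / (32 * (Fintype.card k : ℝ) ^ p.natDegree) := by
  obtain ⟨n, hn⟩ := (Real.tendsto_sum_range_one_div_nat_succ_atTop.eventually_ge_atTop
    (64 * A + 3)).exists
  refine ⟨n + 3, ?_⟩
  have hq := q_pos (k := k)
  have h1 : ∑ m ∈ Finset.Ico 4 (n + 4), (1 : ℝ) / (64 * m) ≤
      ∑ p ∈ irrLe k (n + 3), 1 / (32 * (Fintype.card k : ℝ) ^ p.natDegree) := by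
    refine le_trans ?_ (Finset.sum_le_sum_of_subset_of_nonneg (Finset.filter_subset
      (fun p => p.natDegree ∈ Finset.Ico 4 (n + 4)) _) fun _ _ _ => by positivity)
    rw [← Finset.sum_fiberwise_eq_sum_filter]
    refine Finset.sum_le_sum fun m hm => ?_
    obtain ⟨a1, a2⟩ := Finset.mem_Ico.1 hm
    have a3 : ((Fintype.card k ^ m : ℕ) : ℝ) ≤ _ :=
      Nat.cast_le.2 (count_deg (k := k) a1 (show m ≤ n + 3 by omega))
    have a4 : (0 : ℝ) < m := by exact_mod_cast (show 0 < m by omega)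
    rw [Finset.sum_congr rfl fun p hp => by rw [(Finset.mem_filter.1 hp).2], Finset.sum_const,
      nsmul_eq_mul, mul_one_div, div_le_div_iff₀ (by positivity) (by positivity)]
    push_cast at a3
    linarith
  refine le_trans ?_ h1
  rw [Finset.sum_Ico_eq_sum_range, Nat.add_sub_cancel]
  have h2 : ∑ i ∈ Finset.range (n + 3), (1 : ℝ) / (i + 1) =
      ∑ i ∈ Finset.range n, (1 : ℝ) / (((4 + i : ℕ) : ℝ)) + 11 / 6 := by
    rw [Finset.sum_range_succ', Finset.sum_range_succ', Finset.sum_range_succ', add_assoc,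
      add_assoc]
    congr 1
    · exact Finset.sum_congr rfl fun i _ => by push_cast; ring
    · norm_num
  have h3 : ∑ i ∈ Finset.range n, (1 : ℝ) / (i + 1) ≤
      ∑ i ∈ Finset.range (n + 3), (1 : ℝ) / (i + 1) :=
    Finset.sum_le_sum_of_subset_of_nonneg (Finset.range_subset_range.2 (by omega))
      fun _ _ _ => by positivity
  have h4 : ∑ i ∈ Finset.range n, (1 : ℝ) / (64 * ((4 + i : ℕ) : ℝ)) =
      1 / 64 * ∑ i ∈ Finset.range n, (1 : ℝ) / (((4 + i : ℕ) : ℝ)) := by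
    rw [Finset.mul_sum]
    exact Finset.sum_congr rfl fun i _ => by rw [one_div_mul_one_div]
  rw [h4]
  linarith

end CntV

open CntV in
theorem cntV : CntV := by
  intro k _ _ _ ε hε
  have hq := q_pos (k := k)
  obtain ⟨N, hN⟩ := diverge (k := k) (-Real.log (ε / (Fintype.card k : ℝ) ^ 4))
  have h1 : ∏ p ∈ irrLe k N, (1 - 1 / (32 * (Fintype.card k : ℝ) ^ p.natDegree)) ≤
      ε / (Fintype.card k : ℝ) ^ 4 := by
    refine (Finset.prod_le_prod (fun p _ => ?_) fun p _ => Real.one_sub_le_exp_neg _).trans ?_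
    · have : (1 : ℝ) ≤ (Fintype.card k : ℝ) ^ p.natDegree :=
        one_le_pow₀ (le_trans one_le_two two_le_q)
      rw [sub_nonneg, div_le_one (by positivity)]
      linarith
    · rw [← Real.exp_sum, Finset.sum_neg_distrib, ← Real.le_log_iff_exp_le (by positivity)]
      linarith
  filter_upwards [eventually_ge_atTop (∑ p ∈ irrLe k N, p.natDegree)] with d hd B hB
  have h2 : B ⊆ (Bx k d).filter fun z => ∀ p ∈ irrLe k N, E p z := fun z hz =>
    Finset.mem_filter.2 ⟨mem_Bx.2 ⟨(hB z hz).1, (hB z hz).2.1⟩, fun p hp =>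
      (hB z hz).2.2 p (mem_irrLe.1 hp).2.1 (mem_irrLe.1 hp).2.2⟩
  refine (Nat.cast_le.2 (Finset.card_le_card h2)).trans
    ((sieve d _ (fun p hp => (mem_irrLe.1 hp).2) hd).trans
      ((mul_le_mul h1 (card_Bx d) (by positivity) (by positivity)).trans (le_of_eq ?_)))
  rw [pow_add]
  field_simp

end Pool.Agent.Lib.MP_a3f657_nt.Two.Exc
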