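import Pool.Agent.Lib.MP_a3f657_nt.C2XDefs

/-!
An upper bound for the order of the 2-Selmer group from a descent in two steps.
-/

set_option linter.unusedSectionVars false

namespace Pool.Agent.Lib.MP_a3f657_nt.Two.Exc

open WeierstrassCurve WeierstrassCurve.Affine

open scoped Polynomial

attribute [local instance 10000] Classical.propDecidable

section gen

variable {F : Type} [Field F] [CharP F 2]

/-- Twice `ξ` is the coboundary of `R`. -/
def Dbl (W : WeierstrassCurve F) (ξ : Gal F → Pt W (SeparableClosure F))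
    (R : Pt W (SeparableClosure F)) : Prop := ∀ σ : Gal F, 2 • ξ σ = pm W σ.toAlgHom R - R

/-- The pair comes from a point. -/
def Triv (W : WeierstrassCurve F) (ξ : Gal F → Pt W (SeparableClosure F))
    (R : Pt W (SeparableClosure F)) : Prop :=
  ∃ S, (∀ σ : Gal F, ξ σ = pm W σ.toAlgHom S - S) ∧ R = 2 • S

variable {W : WeierstrassCurve F} {ξ ξ' : Gal F → Pt W (SeparableClosure F)}
  {R R' : Pt W (SeparableClosure F)}

lemma Dbl.sub (h : Dbl W ξ R) (h' : Dbl W ξ' R') : Dbl W (ξ - ξ') (R - R') := fun σ => by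
  rw [Pi.sub_apply, nsmul_sub, h σ, h' σ, map_sub]; abel

lemma Dbl.add (h : Dbl W ξ R) (h' : Dbl W ξ' R') : Dbl W (ξ + ξ') (R + R') := fun σ => by
  rw [Pi.add_apply, nsmul_add, h σ, h' σ, map_add]; abel

lemma loc_pt {K : Type} [Field K] [CharP K 2] [Algebra F K] (H : LocTriv W K ξ) (hξ : Dbl W ξ R) :
    ∃ (i : SeparableClosure F →ₐ[F] SeparableClosure K) (S : Pt W (SeparableClosure K))
      (R₀ : Pt W K), pm W (toSep F K) R₀ = pm W i R - 2 • S ∧ ∀ τ : Gal K, ∃ σ : Gal F,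
      (∀ x, τ (i x) = i (σ x)) ∧ pm W i (ξ σ) = pm W (τ.toAlgHom.restrictScalars F) S - S := by
  let i : SeparableClosure F →ₐ[F] SeparableClosure K := IsSepClosed.lift
  obtain ⟨S, hS⟩ := H i
  have key : ∀ τ : Gal K, ∃ σ : Gal F, ∀ x, τ (i x) = i (σ x) := fun τ => by
    let := i.toRingHom.toAlgebra
    have := IsScalarTower.of_algebraMap_eq (R := F) (S := SeparableClosure F)
      (A := SeparableClosure K) fun x => (i.commutes x).symm
    exact ⟨_, fun x => ((τ.restrictScalars F).restrictNormal_commutes (SeparableClosure F) x).symm⟩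
  obtain ⟨R₀, hR₀⟩ := exists_of_fixed (K := K) (T := pm W i R - 2 • S) fun τ => by
    obtain ⟨σ, e⟩ := key τ
    have e1 : 2 • pm W i (ξ σ) =
        pm W (τ.toAlgHom.restrictScalars F) (pm W i R) - pm W i R := by
      rw [← map_nsmul, hξ, map_sub, Point.map_map, Point.map_map]
      congr 3
      ext x
      exact congrArg Subtype.val (e x).symm
    rw [hS τ _ e] at e1
    rw [map_sub, map_nsmul, eq_sub_iff_add_eq.1 e1 |>.symm, nsmul_sub]
    abel
  exact ⟨i, S, R₀, hR₀, fun τ => (key τ).imp fun σ e => ⟨e, hS τ σ e⟩⟩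

end gen

variable {k : Type} [Field k] [CharP k 2] {W : WeierstrassCurve (RatFunc k)}

theorem selOrder_le {α β : Type} [AddCommGroup α] (T₁ : Finset α) (T₂ : Finset β)
    (φ : Pt W (SeparableClosure (RatFunc k)) →+ α)
    (r : (Gal (RatFunc k) → Pt W (SeparableClosure (RatFunc k))) →
      Pt W (SeparableClosure (RatFunc k)) → β → Prop)
    (h1 : ∀ ξ ∈ cocyc W, ∀ R, Dbl W ξ R → φ R ∈ T₁)
    (h2 : ∀ ξ ∈ cocyc W, ∀ R, Dbl W ξ R → φ R = 0 → ∃ b ∈ T₂, r ξ R b)
    (h3 : ∀ ξ R ξ' R' b, Dbl W ξ R → Dbl W ξ' R' → φ R = 0 → φ R' = 0 → r ξ R b → r ξ' R' b →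
      Triv W (ξ - ξ') (R - R')) : selOrder W ≤ T₁.card * T₂.card := by
  let Z := {z : (Gal (RatFunc k) → Pt W (SeparableClosure (RatFunc k))) ×
    Pt W (SeparableClosure (RatFunc k)) // z.1 ∈ cocyc W ∧ Dbl W z.1 z.2}
  have hrep : ∀ g : α, ∃ y : Z, ∀ z : Z, φ z.1.2 = g → φ y.1.2 = g := fun g => by
    by_cases h : ∃ z : Z, φ z.1.2 = g
    · exact h.imp fun y hy _ _ => hy
    · exact ⟨⟨(0, 0), zero_mem _, fun σ => by simp⟩, fun z hz => (h ⟨z, hz⟩).elim⟩
  choose rep hrep using hrep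
  have h0 : ∀ z : Z, φ (z.1.2 - (rep (φ z.1.2)).1.2) = 0 := fun z => by
    rw [map_sub, hrep _ z rfl, sub_self]
  have hb := fun z : Z => h2 _ (sub_mem z.2.1 (rep (φ z.1.2)).2.1) _
    (z.2.2.sub (rep (φ z.1.2)).2.2) (h0 z)
  choose b hb hr using hb
  have key : ∀ z y : Z, φ z.1.2 = φ y.1.2 → b z = b y → Triv W (z.1.1 - y.1.1) (z.1.2 - y.1.2) := by
    intro z y e1 e2
    have := h3 _ _ _ _ _ (z.2.2.sub (rep _).2.2) (y.2.2.sub (rep _).2.2) (h0 z) (h0 y) (hr z)
      (e2 ▸ hr y)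
    rwa [e1, sub_sub_sub_cancel_right, sub_sub_sub_cancel_right] at this
  have hc : ∀ c : {c : Sha W // 2 • c = 0}, ∃ z : Z, QuotientAddGroup.mk ⟨z.1.1, z.2.1⟩ = c.1 := by
    rintro ⟨c, hc⟩
    induction c using QuotientAddGroup.induction_on with
    | H η =>
    obtain ⟨R, hR⟩ := (QuotientAddGroup.eq_zero_iff (2 • η)).1 hc
    exact ⟨⟨(η.1, R), η.2, hR⟩, rfl⟩
  choose lift hlift using hc
  let j : W.toAffine.Point →+ Pt W (SeparableClosure (RatFunc k)) := pm W (toSep (RatFunc k) _)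
  have hj : ∀ (P : W.toAffine.Point) (σ : Gal (RatFunc k)), pm W σ.toAlgHom (j P) = j P :=
    fun P σ => pm_toSep (W := W) (K := RatFunc k) σ P
  let g : (W.toAffine.Point ⧸ (nsmulAddMonoidHom 2 : W.toAffine.Point →+ W.toAffine.Point).range) ×
      {c : Sha W // 2 • c = 0} → Z := fun x =>
    ⟨((lift x.2).1.1, (lift x.2).1.2 + j x.1.out), (lift x.2).2.1, fun σ => by
      rw [(lift x.2).2.2 σ, map_add, hj]; exact (add_sub_add_right_eq_sub _ _ _).symm⟩
  rw [selOrder_def, ← Nat.card_prod, ← Finset.card_product, ← Nat.card_eq_finsetCard]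
  refine Nat.card_le_card_of_injective (fun x => (⟨(φ (g x).1.2, b (g x)),
    Finset.mem_product.2 ⟨h1 _ (g x).2.1 _ (g x).2.2, hb _⟩⟩ : (T₁ ×ˢ T₂ : Finset _))) ?_
  rintro ⟨x, c⟩ ⟨y, c'⟩ e
  simp only [Subtype.mk.injEq, Prod.mk.injEq] at e
  obtain ⟨S, hS, hR⟩ := key _ _ e.1 e.2
  obtain rfl : c = c' := by
    refine Subtype.ext ?_
    rw [← hlift, ← hlift]
    exact QuotientAddGroup.eq_iff_sub_mem.2 ⟨S, hS⟩
  obtain ⟨S₀, rfl⟩ := exists_of_fixed (K := RatFunc k) (T := S) fun σ => by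
    have := hS σ
    simp only [g, sub_self, Pi.zero_apply] at this
    exact (sub_eq_zero.1 this.symm)
  refine Prod.ext ?_ rfl
  rw [← x.out_eq, ← y.out_eq]
  have hinj : Function.Injective j := Point.map_injective (W' := W.toAffine) (toSep (RatFunc k) _)
  refine QuotientAddGroup.eq_iff_sub_mem.2 ⟨S₀, hinj ?_⟩
  simp only [g, add_sub_add_left_eq_sub] at hR
  exact (map_nsmul j 2 S₀).trans (hR.symm.trans (map_sub j _ _).symm)

end Pool.Agent.Lib.MP_a3f657_nt.Two.Exc
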