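import Pool.Agent.Lib.MP_a3f657_nt.C2QThree
import Pool.Agent.Lib.MP_a3f657_nt.C2QAvg

/-!
The curves whose `j`-invariant is a square (definitions and statements).
-/

namespace Pool.Agent.Lib.MP_a3f657_nt.Two.Exc

open Polynomial Filter Topology Bad

open scoped Classical

variable {k : Type} [Field k]

/-- The local conditions of the Verschiebung descent at the primes dividing `a₃`. -/
def CondV (a : WeierstrassCurve k[X]) (γ : k[X]) : Prop :=
  ∀ p : k[X], p.Monic → Irreducible p → p ∣ a.a₃ → ¬ p ∣ γ → ∃ x y : k[X],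
    p ∣ y ^ 2 + x ^ 3 + a.a₂ * x ^ 2 + a.a₄ * x + a.a₆ ∧
    p ∣ derivative a.a₃ * y + γ ^ 2 * x ^ 2 + derivative a.a₄ * x +
      a.a₄ * (γ ^ 2 + derivative a.a₂) + derivative a.a₆

/-- The local conditions of the Frobenius descent at the primes dividing `a₃`. -/
def CondF (a : WeierstrassCurve k[X]) (γ : k[X]) : Prop :=
  (∀ p : k[X], p.Monic → Irreducible p → ∀ j : ℕ, p ^ (2 * j) ∣ a.a₃ →
    p ^ (2 * j) ∣ γ ^ 2 * (γ ^ 2 + derivative a.a₄)) ∧
  ∀ p : k[X], p.Monic → Irreducible p → p ∣ a.a₃ → ¬ p ∣ γ → ∃ z y : k[X],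
    p ∣ y ^ 2 + a.a₄ * z ^ 2 + a.a₂ * a.a₄ + a.a₆ ∧
    p ∣ γ ^ 2 + derivative a.a₃ * z + derivative a.a₄ ∧
    p ∣ derivative a.a₃ * y + γ ^ 2 * (z ^ 2 + a.a₂) + a.a₄ * derivative a.a₂ + derivative a.a₆

/-- The divisor bound. -/
def TauB : Prop :=
  ∀ (k : Type) [Field k] [Fintype k] (θ : ℝ), 1 < θ → ∀ c : ℕ, ∀ᶠ d : ℕ in atTop,
    ∀ N : k[X], N ≠ 0 → N.natDegree ≤ c * d → Bd (fun s : k[X] => s.Monic ∧ s ∣ N) (θ ^ d)

/-- The Verschiebung conditions hold rarely. -/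
def CntV : Prop :=
  ∀ (k : Type) [Field k] [Fintype k] [CharP k 2] (ε : ℝ), 0 < ε → ∀ᶠ d : ℕ in atTop,
    Bd (fun x : WeierstrassCurve k[X] × k[X] =>
      (DegLE x.1 d ∧ x.1.a₁ = 0) ∧ x.2 ∈ PL k d ∧ CondV x.1 x.2)
      (ε * (Fintype.card k : ℝ) ^ (16 * d))

/-- The Frobenius conditions hold rarely. -/
def CntF : Prop :=
  ∀ (k : Type) [Field k] [Fintype k] [CharP k 2] (ε : ℝ), 0 < ε → ∀ᶠ d : ℕ in atTop,
    Bd (fun x : WeierstrassCurve k[X] × k[X] =>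
      (DegLE x.1 d ∧ x.1.a₁ = 0 ∧ x.1.a₃ ≠ 0) ∧ x.2 ∈ PL k (2 * d) ∧ x.2 ≠ 0 ∧ CondF x.1 x.2)
      (ε * (Fintype.card k : ℝ) ^ (15 * d))

/-- The order of the Selmer group only depends on the isomorphism class. -/
def SelInv : Prop :=
  ∀ (k : Type) [Field k] (C : WeierstrassCurve.VariableChange (RatFunc k))
    (W : WeierstrassCurve (RatFunc k)), W.Δ ≠ 0 → selOrder (C • W) = selOrder W

/-- The bound for supersingular curves. -/
def SelSS : Prop :=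
  ∀ (k : Type) [Field k] [Fintype k] [CharP k 2] (d : ℕ) (a : WeierstrassCurve k[X]),
    DegLE a d → a.a₁ = 0 → a.a₃ ≠ 0 → selOrder (a.baseChange (RatFunc k)) ≤
      ((PL k d).filter (CondV a)).card *
        (((PL k (2 * d)).filter fun γ => γ ≠ 0 ∧ CondF a γ).card + 1)

/-- The bound for ordinary curves with a rational point of order two. -/
def SelOrd : Prop :=
  ∀ (k : Type) [Field k] [Fintype k] [CharP k 2] (d : ℕ) (a : WeierstrassCurve k[X]),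
    DegLE a d → a.a₁ ≠ 0 → a.Δ ≠ 0 → IsSquare (ι a.Δ) → ∀ T : Finset k[X],
    (∀ s : k[X], s.Monic → s ∣ a.a₁ * a.Δ → s ∈ T) →
    selOrder (a.baseChange (RatFunc k)) ≤ T.card * Fintype.card k ^ (2 * d + 1)

/-- The sum over the exceptional equations is negligible. -/
def TupSum : Prop :=
  ∀ (k : Type) [Field k] [Fintype k] [CharP k 2] (ε : ℝ), 0 < ε → ∀ᶠ d : ℕ in atTop,
    ∑ a ∈ (Avg.DD k d).filter (fun a => a.Δ ≠ 0 ∧ IsSquare
      ((a.baseChange (RatFunc k)).c₄ ^ 3 / (a.baseChange (RatFunc k)).Δ)),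
      (selOrder (a.baseChange (RatFunc k)) : ℝ) ≤ ε * (Fintype.card k : ℝ) ^ (16 * d)

/-- The average without the exceptional curves. -/
def OldMean : Prop :=
  ∀ (k : Type) [Field k] [Fintype k] [CharP k 2] (S : Finset (ZMod 2)),
    Tendsto (fun d => ∑ᶠ (m : ℕ) (_ : (Nat.log 2 m : ZMod 2) ∈ S), (m : ℝ) * dens (k := k)
      (fun W => ¬ IsSquare (W.c₄ ^ 3 / W.Δ) ∧ selOrder W = m) d) atTop (𝓝 (3 / 2 * S.card))

/-- The average over all curves. -/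
def NewMean : Prop :=
  ∀ (k : Type) [Field k] [Fintype k] [CharP k 2] (S : Finset (ZMod 2)),
    Tendsto (fun d => ∑ᶠ (m : ℕ) (_ : (Nat.log 2 m : ZMod 2) ∈ S), (m : ℝ) * dens (k := k)
      (fun W => selOrder W = m) d) atTop (𝓝 (3 / 2 * S.card))

end Pool.Agent.Lib.MP_a3f657_nt.Two.Exc
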