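import Pool.Agent.Lib.MP_a3f657_nt.C2XDefs

/-!
The order of the Selmer group is invariant under a change of variables.
-/

namespace Pool.Agent.Lib.MP_a3f657_nt.Two.Exc

open WeierstrassCurve WeierstrassCurve.Affine

namespace Inv

section Points

variable {K L : Type} [Field K] [Field L]

/-- The equations relating the coefficients of `W` and `W'`. -/
structure Rel (u r s t : K) (W W' : WeierstrassCurve K) : Prop where
  hu : u ≠ 0
  h₁ : W.a₁ = u * W'.a₁ - 2 * s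
  h₂ : W.a₂ = u ^ 2 * W'.a₂ + s * W.a₁ - 3 * r + s ^ 2
  h₃ : W.a₃ = u ^ 3 * W'.a₃ - r * W.a₁ - 2 * t
  h₄ : W.a₄ = u ^ 4 * W'.a₄ + s * W.a₃ - 2 * r * W.a₂ + (t + r * s) * W.a₁ - 3 * r ^ 2 + 2 * s * t
  h₆ : W.a₆ = u ^ 6 * W'.a₆ - r * W.a₄ - r ^ 2 * W.a₂ - r ^ 3 + t * W.a₃ + t ^ 2 + r * t * W.a₁

lemma rel_smul (C : VariableChange K) (W : WeierstrassCurve K) :
    Rel (C.u : K) C.r C.s C.t W (C • W) := by
  have hu : (C.u : K) ≠ 0 := C.u.ne_zero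
  refine ⟨hu, ?_, ?_, ?_, ?_, ?_⟩
  · rw [variableChange_a₁, Units.val_inv_eq_inv_val]; field_simp; ring
  · rw [variableChange_a₂, Units.val_inv_eq_inv_val]; field_simp; ring
  · rw [variableChange_a₃, Units.val_inv_eq_inv_val]; field_simp; ring
  · rw [variableChange_a₄, Units.val_inv_eq_inv_val]; field_simp; ring
  · rw [variableChange_a₆, Units.val_inv_eq_inv_val]; field_simp; ring

variable {u r s t : K} {W W' : WeierstrassCurve K}

lemma Rel.map (h : Rel u r s t W W') (φ : K →+* L) :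
    Rel (φ u) (φ r) (φ s) (φ t) (W.map φ) (W'.map φ) := by
  refine ⟨(map_ne_zero φ).2 h.hu, ?_, ?_, ?_, ?_, ?_⟩
  · simpa [map_ofNat] using congrArg φ h.h₁
  · simpa [map_ofNat] using congrArg φ h.h₂
  · simpa [map_ofNat] using congrArg φ h.h₃
  · simpa [map_ofNat] using congrArg φ h.h₄
  · simpa [map_ofNat] using congrArg φ h.h₆

lemma Rel.eF (h : Rel u r s t W W') (x y : K) :
    (u ^ 3 * y + u ^ 2 * s * x + t) ^ 2 + W.a₁ * (u ^ 2 * x + r) * (u ^ 3 * y + u ^ 2 * s * x + t) +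
      W.a₃ * (u ^ 3 * y + u ^ 2 * s * x + t) -
      ((u ^ 2 * x + r) ^ 3 + W.a₂ * (u ^ 2 * x + r) ^ 2 + W.a₄ * (u ^ 2 * x + r) + W.a₆) =
    u ^ 6 * (y ^ 2 + W'.a₁ * x * y + W'.a₃ * y - (x ^ 3 + W'.a₂ * x ^ 2 + W'.a₄ * x + W'.a₆)) := by
  rw [h.h₆, h.h₄, h.h₃, h.h₂, h.h₁]; ring

lemma Rel.eY (h : Rel u r s t W W') (x y : K) :
    2 * (u ^ 3 * y + u ^ 2 * s * x + t) + W.a₁ * (u ^ 2 * x + r) + W.a₃ =
      u ^ 3 * (2 * y + W'.a₁ * x + W'.a₃) := by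
  rw [h.h₃, h.h₁]; ring

lemma Rel.eX (h : Rel u r s t W W') (x y : K) :
    W.a₁ * (u ^ 3 * y + u ^ 2 * s * x + t) -
      (3 * (u ^ 2 * x + r) ^ 2 + 2 * W.a₂ * (u ^ 2 * x + r) + W.a₄) =
      u ^ 4 * (W'.a₁ * y - (3 * x ^ 2 + 2 * W'.a₂ * x + W'.a₄)) -
        s * u ^ 3 * (2 * y + W'.a₁ * x + W'.a₃) := by
  rw [h.h₄, h.h₃, h.h₂, h.h₁]; ring

lemma Rel.nonsing (h : Rel u r s t W W') (x y : K) :
    W.toAffine.Nonsingular (u ^ 2 * x + r) (u ^ 3 * y + u ^ 2 * s * x + t) ↔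
      W'.toAffine.Nonsingular x y := by
  have hu := h.hu
  rw [nonsingular_iff', nonsingular_iff', equation_iff', equation_iff']
  simp only [toAffine]
  rw [h.eF, h.eY, h.eX, mul_eq_zero, or_iff_right (pow_ne_zero 6 hu)]
  refine and_congr_right' ?_
  by_cases hy : 2 * y + W'.a₁ * x + W'.a₃ = 0
  · simp [hy, hu]
  · simp [hy, hu]

lemma Rel.negY (h : Rel u r s t W W') (x y : K) :
    W.toAffine.negY (u ^ 2 * x + r) (u ^ 3 * y + u ^ 2 * s * x + t) =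
      u ^ 3 * W'.toAffine.negY x y + u ^ 2 * s * x + t := by
  simp only [Affine.negY, toAffine]
  rw [h.h₃, h.h₁]; ring

lemma Rel.addX (h : Rel u r s t W W') (x₁ x₂ l : K) :
    W.toAffine.addX (u ^ 2 * x₁ + r) (u ^ 2 * x₂ + r) (u * l + s) =
      u ^ 2 * W'.toAffine.addX x₁ x₂ l + r := by
  simp only [Affine.addX, toAffine]
  rw [h.h₂, h.h₁]; ring

lemma Rel.addY (h : Rel u r s t W W') (x₁ x₂ y₁ l : K) :
    W.toAffine.addY (u ^ 2 * x₁ + r) (u ^ 2 * x₂ + r) (u ^ 3 * y₁ + u ^ 2 * s * x₁ + t) (u * l + s) =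
      u ^ 3 * W'.toAffine.addY x₁ x₂ y₁ l + u ^ 2 * s * W'.toAffine.addX x₁ x₂ l + t := by
  simp only [Affine.addY, Affine.negAddY, Affine.addX, Affine.negY, toAffine]
  rw [h.h₃, h.h₂, h.h₁]; ring

lemma Rel.X_inj (h : Rel u r s t W W') {x₁ x₂ : K} :
    u ^ 2 * x₁ + r = u ^ 2 * x₂ + r ↔ x₁ = x₂ := by
  rw [add_left_inj, mul_right_inj' (pow_ne_zero 2 h.hu)]

lemma Rel.Y_inj (h : Rel u r s t W W') {x y₁ y₂ : K} :
    u ^ 3 * y₁ + u ^ 2 * s * x + t = u ^ 3 * y₂ + u ^ 2 * s * x + t ↔ y₁ = y₂ := by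
  rw [add_left_inj, add_left_inj, mul_right_inj' (pow_ne_zero 3 h.hu)]

lemma Rel.cond (h : Rel u r s t W W') {x₁ x₂ y₁ y₂ : K} :
    (u ^ 2 * x₁ + r = u ^ 2 * x₂ + r ∧ u ^ 3 * y₁ + u ^ 2 * s * x₁ + t =
      W.toAffine.negY (u ^ 2 * x₂ + r) (u ^ 3 * y₂ + u ^ 2 * s * x₂ + t)) ↔
      (x₁ = x₂ ∧ y₁ = W'.toAffine.negY x₂ y₂) := by
  rw [h.X_inj, h.negY]
  refine and_congr_right fun hx => ?_
  rw [hx, h.Y_inj]

variable [DecidableEq K]

lemma Rel.slope (h : Rel u r s t W W') {x₁ x₂ y₁ y₂ : K} (h₁ : W'.toAffine.Equation x₁ y₁)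
    (h₂ : W'.toAffine.Equation x₂ y₂) (hxy : ¬(x₁ = x₂ ∧ y₁ = W'.toAffine.negY x₂ y₂)) :
    W.toAffine.slope (u ^ 2 * x₁ + r) (u ^ 2 * x₂ + r) (u ^ 3 * y₁ + u ^ 2 * s * x₁ + t)
      (u ^ 3 * y₂ + u ^ 2 * s * x₂ + t) = u * W'.toAffine.slope x₁ x₂ y₁ y₂ + s := by
  have hu := h.hu
  by_cases hx : x₁ = x₂
  · have hy : y₁ ≠ W'.toAffine.negY x₂ y₂ := fun hy => hxy ⟨hx, hy⟩
    have hyy : y₁ = y₂ := Y_eq_of_Y_ne h₁ h₂ hx hy
    subst hx hyy
    have hy' : u ^ 3 * y₁ + u ^ 2 * s * x₁ + t ≠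
        W.toAffine.negY (u ^ 2 * x₁ + r) (u ^ 3 * y₁ + u ^ 2 * s * x₁ + t) :=
      fun hh => hy (h.cond.1 ⟨rfl, hh⟩).2
    rw [slope_of_Y_ne rfl hy', slope_of_Y_ne rfl hy, h.negY]
    have e1 : y₁ - W'.toAffine.negY x₁ y₁ ≠ 0 := sub_ne_zero.2 hy
    have e2 : u ^ 3 * y₁ + u ^ 2 * s * x₁ + t - (u ^ 3 * W'.toAffine.negY x₁ y₁ + u ^ 2 * s * x₁ + t) =
        u ^ 3 * (y₁ - W'.toAffine.negY x₁ y₁) := by ring
    rw [e2, div_eq_iff (mul_ne_zero (pow_ne_zero 3 hu) e1), add_mul, mul_assoc u,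
      mul_left_comm _ (u ^ 3), div_mul_cancel₀ _ e1]
    have e3 := h.eX x₁ y₁
    simp only [Affine.negY, toAffine] at e3 ⊢
    linear_combination -e3
  · have hx' : u ^ 2 * x₁ + r ≠ u ^ 2 * x₂ + r := fun hh => hx (h.X_inj.1 hh)
    rw [slope_of_X_ne hx', slope_of_X_ne hx]
    have e1 : x₁ - x₂ ≠ 0 := sub_ne_zero.2 hx
    have e2 : u ^ 2 * x₁ + r - (u ^ 2 * x₂ + r) = u ^ 2 * (x₁ - x₂) := by ring
    rw [e2]
    field_simp
    ring

/-- The map on points. -/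
def Rel.fn (h : Rel u r s t W W') : W'.toAffine.Point → W.toAffine.Point
  | .zero => .zero
  | .some x y hxy => .some _ _ ((h.nonsing x y).2 hxy)

/-- The homomorphism on points. -/
noncomputable def Rel.hom (h : Rel u r s t W W') : W'.toAffine.Point →+ W.toAffine.Point where
  toFun := h.fn
  map_zero' := rfl
  map_add' := by
    rintro (_ | ⟨x₁, y₁, h₁⟩) (_ | ⟨x₂, y₂, h₂⟩)
    any_goals rfl
    by_cases hxy : x₁ = x₂ ∧ y₁ = W'.toAffine.negY x₂ y₂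
    · rw [Point.add_of_Y_eq hxy.1 hxy.2]
      exact (Point.add_of_Y_eq (h.cond.2 hxy).1 (h.cond.2 hxy).2).symm
    · rw [Point.add_some hxy]
      simp only [Rel.fn]
      rw [Point.add_some fun hh => hxy (h.cond.1 hh), Point.some.injEq, h.slope h₁.1 h₂.1 hxy,
        h.addX, h.addY]
      exact ⟨rfl, rfl⟩

lemma Rel.bij (h : Rel u r s t W W') : Function.Bijective h.hom := by
  have hu := h.hu
  constructor
  · rw [injective_iff_map_eq_zero]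
    rintro (_ | ⟨x, y, hxy⟩) hh
    · rfl
    · exact absurd hh (Point.some_ne_zero _)
  · rintro (_ | ⟨x, y, hxy⟩)
    · exact ⟨0, rfl⟩
    · have e1 : x = u ^ 2 * ((x - r) / u ^ 2) + r := by field_simp; ring
      have e2 : y = u ^ 3 * ((y - s * (x - r) - t) / u ^ 3) + u ^ 2 * s * ((x - r) / u ^ 2) + t := by
        field_simp; ring
      refine ⟨.some _ _ ((h.nonsing ((x - r) / u ^ 2) ((y - s * (x - r) - t) / u ^ 3)).1
        (by rw [← e1, ← e2]; exact hxy)), ?_⟩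
      show Point.some _ _ _ = _
      rw [Point.some.injEq]
      exact ⟨e1.symm, e2.symm⟩

/-- The isomorphism on points. -/
noncomputable def Rel.equiv (h : Rel u r s t W W') : W'.toAffine.Point ≃+ W.toAffine.Point :=
  AddEquiv.ofBijective h.hom h.bij

end Points

section Coh

attribute [local instance 10000] Classical.propDecidable

variable {F : Type} [Field F] {u r s t : F} {W W' : WeierstrassCurve F}

/-- The isomorphism on points after base change. -/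
noncomputable def Rel.eqv (h : Rel u r s t W W') (K : Type) [Field K] [Algebra F K] :
    Pt W' K ≃+ Pt W K :=
  (h.map (algebraMap F K)).equiv

lemma Rel.nat (h : Rel u r s t W W') {K L : Type} [Field K] [Algebra F K] [Field L] [Algebra F L]
    (g : K →ₐ[F] L) (P : Pt W' K) : pm W g (h.eqv K P) = h.eqv L (pm W' g P) := by
  rcases P with _ | ⟨x, y, hxy⟩
  · rfl
  · exact (Point.some.injEq ..).mpr ⟨by simp, by simp⟩

lemma card_quot {G G' : Type} [AddCommGroup G] [AddCommGroup G'] (E : G ≃+ G') :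
    Nat.card (G ⧸ (nsmulAddMonoidHom 2 : G →+ G).range) =
      Nat.card (G' ⧸ (nsmulAddMonoidHom 2 : G' →+ G').range) := by
  refine Nat.card_congr (QuotientAddGroup.congr _ _ E ?_).toEquiv
  ext y
  simp only [AddSubgroup.mem_map, AddMonoidHom.mem_range, nsmulAddMonoidHom_apply]
  constructor
  · rintro ⟨_, ⟨x, rfl⟩, rfl⟩
    exact ⟨E x, by simp⟩
  · rintro ⟨x, rfl⟩
    exact ⟨_, ⟨E.symm x, rfl⟩, by simp⟩

lemma twoTors_congr {G G' : Type} [AddCommGroup G] [AddCommGroup G'] (E : G ≃+ G')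
    {B Z : AddSubgroup G} {B' Z' : AddSubgroup G'} (hZ : ∀ x, E x ∈ Z' ↔ x ∈ Z)
    (hB : ∀ x, E x ∈ B' ↔ x ∈ B) : twoTors B Z = twoTors B' Z' := by
  let e : Z ≃+ Z' :=
    { toFun := fun x => ⟨E x, (hZ _).2 x.2⟩
      invFun := fun y => ⟨E.symm y, (hZ _).1 (by simp)⟩
      left_inv := fun x => by simp
      right_inv := fun y => by simp
      map_add' := fun x y => by simp }
  have he : (B.addSubgroupOf Z).map (e : Z →+ Z') = B'.addSubgroupOf Z' := by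
    ext y
    simp only [AddSubgroup.mem_map, AddSubgroup.mem_addSubgroupOf]
    constructor
    · rintro ⟨x, hx, rfl⟩
      exact (hB _).2 hx
    · intro hy
      refine ⟨e.symm y, (hB _).1 ?_, by simp⟩
      simpa [e] using hy
  let q := QuotientAddGroup.congr _ _ e he
  refine Nat.card_congr (q.toEquiv.subtypeEquiv fun c => ?_)
  show _ ↔ 2 • q c = 0
  rw [← map_nsmul, map_eq_zero_iff q q.injective]

variable (h : Rel u r s t W W') (Ω : Type) [Field Ω] [Algebra F Ω]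

/-- The isomorphism on maps from the Galois group. -/
noncomputable def Rel.big : ((Ω ≃ₐ[F] Ω) → Pt W' Ω) ≃+ ((Ω ≃ₐ[F] Ω) → Pt W Ω) :=
  AddEquiv.piCongrRight fun _ => h.eqv Ω

lemma Rel.big_apply (ξ : (Ω ≃ₐ[F] Ω) → Pt W' Ω) (σ : Ω ≃ₐ[F] Ω) :
    h.big Ω ξ σ = h.eqv Ω (ξ σ) := rfl

lemma Rel.mem_cocycles (ξ : (Ω ≃ₐ[F] Ω) → Pt W' Ω) :
    h.big Ω ξ ∈ cocycles W Ω ↔ ξ ∈ cocycles W' Ω := by
  refine and_congr ?_ (forall₂_congr fun σ τ => ?_)
  · constructor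
    · intro hl
      exact IsLocallyConstant.desc ξ (h.eqv Ω) hl (h.eqv Ω).injective
    · intro hl
      exact hl.comp (h.eqv Ω)
  · rw [h.big_apply, h.big_apply, h.big_apply, h.nat, ← map_add, (h.eqv Ω).apply_eq_iff_eq]

lemma Rel.mem_cobound (ξ : (Ω ≃ₐ[F] Ω) → Pt W' Ω) :
    h.big Ω ξ ∈ cobound W Ω ↔ ξ ∈ cobound W' Ω := by
  refine ((h.eqv Ω).toEquiv.exists_congr fun P => forall_congr' fun σ => ?_).symm
  show _ ↔ h.eqv Ω (ξ σ) = pm W σ.toAlgHom (h.eqv Ω P) - h.eqv Ω P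
  rw [h.nat, ← map_sub, (h.eqv Ω).apply_eq_iff_eq]

lemma Rel.mem_trivOver (K L : Type) [Field K] [Field L] [Algebra F K] [Algebra K L]
    [Algebra F L] [IsScalarTower F K L] (ξ : (Ω ≃ₐ[F] Ω) → Pt W' Ω) :
    h.big Ω ξ ∈ trivOver W Ω K L ↔ ξ ∈ trivOver W' Ω K L := by
  refine forall_congr' fun i => ((h.eqv L).toEquiv.exists_congr fun P =>
    forall₃_congr fun τ σ _ => ?_).symm
  show _ ↔ pm W i (h.eqv Ω (ξ σ)) =
    pm W (τ.toAlgHom.restrictScalars F) (h.eqv L P) - h.eqv L P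
  rw [h.nat, h.nat, ← map_sub, (h.eqv L).apply_eq_iff_eq]

include h in
lemma Rel.selOf (K₀ : Type) [Field K₀] [Algebra F K₀] {ι : Type} (K : ι → Type)
    [∀ i, Field (K i)] [∀ i, Algebra F (K i)] : selOf W' K₀ K = selOf W K₀ K := by
  unfold Two.selOf shaTwo
  rw [card_quot h.equiv, twoTors_congr (h.big (SeparableClosure F)) (fun ξ => ?_)
    (h.mem_cobound _)]
  simp only [AddSubgroup.mem_inf, AddSubgroup.mem_iInf, trivSep, h.mem_cocycles, h.mem_trivOver]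

end Coh

end Inv

theorem selInv : SelInv := fun _ _ C W _ => (Inv.rel_smul C W).selOf _ _

end Pool.Agent.Lib.MP_a3f657_nt.Two.Exc
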