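import Pool.Agent.Lib.MP_a3f657_nt.C2XCoh
import Pool.Agent.Lib.MP_a3f657_nt.C2QLoc

/-!
Local estimates for points and derivations.
-/

set_option linter.unusedSectionVars false

namespace Pool.Agent.Lib.MP_a3f657_nt.Two.Exc

open Polynomial

open scoped Classical

section pt

variable {K : Type} [Field K] [CharP K 2] {w : Valuation K (WithZero (Multiplicative ℤ))}

/-- A point is integral or lies in the formal group. -/
lemma pt_cases {e : ℤ} {a₁ a₂ a₃ a₄ a₆ x y : K} (h1 : a₁ ∈ Fil w e) (h2 : a₂ ∈ Fil w (2 * e))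
    (h3 : a₃ ∈ Fil w (3 * e)) (h4 : a₄ ∈ Fil w (4 * e)) (h6 : a₆ ∈ Fil w (6 * e))
    (eq : y ^ 2 + a₁ * x * y + a₃ * y = x ^ 3 + a₂ * x ^ 2 + a₄ * x + a₆) :
    (x ∈ Fil w (2 * e) ∧ y ∈ Fil w (3 * e)) ∨ ∃ m : ℤ, 1 ≤ m ∧ x ≠ 0 ∧ ord w x = 2 * e - 2 * m ∧
      y ∈ Fil w (3 * e - 3 * m) ∧ ∀ n : ℤ, a₃ ∈ Fil w (3 * e + n) → n ≤ 1 →
        x + a₂ + (y / x) ^ 2 + a₁ * (y / x) ∈ Fil w (2 * e + m + n) := by
  by_cases hX : x ∈ Fil w (2 * e)
  · have c1 : a₁ * x + a₃ ∈ Fil w (3 * e) := add_mem (Fil.mul h1 hX (by omega)) h3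
    refine Or.inl ⟨hX, ?_⟩
    by_contra hY
    obtain ⟨c2, c3, c4⟩ := Loc.ord_quad c1 hY
    have c5 : y * (y + (a₁ * x + a₃)) ∈ Fil w (6 * e) := by
      rw [show y * (y + (a₁ * x + a₃)) = x ^ 3 + a₂ * x ^ 2 + a₄ * x + a₆ by linear_combination eq]
      exact add_mem (add_mem (add_mem (Fil.pow hX 3 (by push_cast; omega))
        (Fil.mul h2 (Fil.sq hX le_rfl) (by omega))) (Fil.mul h4 hX (by omega))) h6
    rw [mem_Fil_iff c2] at c5
    omega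
  obtain ⟨x0, x1⟩ := not_mem_Fil.1 hX
  obtain ⟨T, hT⟩ : ∃ T, T = x⁻¹ := ⟨_, rfl⟩
  obtain ⟨u, rfl⟩ : ∃ u, y = u * x := ⟨y / x, by field_simp⟩
  have mT : T ∈ Fil w (-ord w x) := mem_Fil_of_le (by rw [hT, ord_inv])
  have eq2 : u * (u + (a₁ + a₃ * T)) = x + (a₂ + a₄ * T + a₆ * T ^ 2) := by
    rw [hT]
    field_simp
    linear_combination eq
  obtain ⟨c1, c2⟩ := ord_add (w := w) x0 (y := a₂ + a₄ * T + a₆ * T ^ 2)
    (add_mem (add_mem (Fil.mono h2 (by omega)) (Fil.mul h4 mT (by omega)))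
      (Fil.mul h6 (Fil.sq mT le_rfl) (by omega)))
  have c3 : a₁ + a₃ * T ∈ Fil w e := add_mem h1 (Fil.mul h3 mT (by omega))
  have hu : u ∉ Fil w e := fun hu => by
    have c4 : u * (u + (a₁ + a₃ * T)) ∈ Fil w (2 * e) := Fil.mul hu (add_mem hu c3) (by omega)
    rw [eq2, mem_Fil_iff c1] at c4
    omega
  obtain ⟨-, c4, c5⟩ := Loc.ord_quad c3 hu
  rw [eq2, c2] at c4
  have mu := mem_Fil_ord (w := w) u
  refine Or.inr ⟨e - ord w u, by omega, x0, by omega,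
    Fil.mul mu (mem_Fil_ord x) (by omega), fun n hn hn1 => ?_⟩
  rw [mul_div_cancel_right₀ _ x0, show x + a₂ + u ^ 2 + a₁ * u =
    a₃ * T * u + a₄ * T + a₆ * T ^ 2 by grind]
  exact add_mem (add_mem (Fil.mul (Fil.mul hn mT le_rfl) mu (by omega)) (Fil.mul h4 mT (by omega)))
    (Fil.mul h6 (Fil.sq mT le_rfl) (by omega))

end pt

variable {k : Type} [Field k] [Finite k] [CharP k 2]

/-- The derivation `d / d t` of the completion. -/
noncomputable abbrev QX (v : Pl k) : PB (cmp v).K := (cmp v).Q (PX k)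

lemma QX_f (v : Pl k) (x : RatFunc k) : (QX v).D ((cmp v).f x) = (cmp v).f ((PX k).D x) :=
  (PX k).map_D ((cmp v).Q_b _) x

lemma QX_ι (v : Pl k) (a : k[X]) : (QX v).D ((cmp v).f (ι a)) = (cmp v).f (ι (derivative a)) := by
  rw [QX_f, D_ι]

lemma QX_chain (v : Pl k) (x : (cmp v).K) :
    (QX v).D x = (cmp v).L'.P.D x * (cmp v).f ((PX k).D (unif v)) := by
  rw [(QX v).D_chain (cmp v).L'.P x, (cmp v).h.b, pl_b, QX_f]

lemma f_mem {v : Pl k} {x : RatFunc k} {n : ℤ} :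
    (cmp v).f x ∈ Fil (cmp v).L'.w n ↔ x ∈ Fil (val v) n := (cmp v).h.mem

lemma f_ord (v : Pl k) (x : RatFunc k) : ord (cmp v).L'.w ((cmp v).f x) = ord (val v) x :=
  (cmp v).h.ord_eq x

lemma QX_mem {v : Pl k} {x : (cmp v).K} {a c : ℤ} (hx : x ∈ Fil (cmp v).L'.w a)
    (h : c ≤ 2 * (a / 2) + eD v) : (QX v).D x ∈ Fil (cmp v).L'.w c := by
  rw [QX_chain]
  exact Fil.mul (PreLoc.D_mem hx le_rfl) (f_mem.2 (mem_Fil_ord _)) (by rw [ord_D_unif]; omega)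

/-- The level of a place for equations of level `d`. -/
def lev (d : ℕ) : Pl k → ℤ
  | none => -d
  | some _ => 0

lemma ι_lev (v : Pl k) {a : k[X]} {d : ℕ} (i : ℕ) (h : a.natDegree ≤ i * d) :
    (cmp v).f (ι a) ∈ Fil (cmp v).L'.w (i * lev d v) := by
  rw [f_mem]
  cases v
  · simpa [lev] using ι_mem_none.2 h
  · simpa [lev] using ι_int _ a

lemma exists_PL [Fintype k] {x : RatFunc k} {n : ℕ} (h1 : ∀ v, x ∈ Fil (val (some v)) 0)
    (h2 : x ∈ Fil (val none) (1 - n)) : ∃ a ∈ Bad.PL k n, ι a = x := by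
  obtain ⟨a, rfl⟩ := exists_poly h1
  exact ⟨a, Bad.mem_PL.2 (ι_mem_none'.1 h2), rfl⟩

lemma approx {v : IsDedekindDomain.HeightOneSpectrum k[X]} {x : (cmp (some v)).K}
    (h : x ∈ Fil (cmp (some v)).L'.w 0) :
    ∃ a : k[X], x + (cmp (some v)).f (ι a) ∈ Fil (cmp (some v)).L'.w 1 := by
  obtain ⟨y, hy⟩ := (cmp (some v)).h.dense x 1
  have h1 : y ∈ Fil (val (some v)) 0 := by
    rw [← f_mem]
    simpa using sub_mem h (Fil.mono hy (b := 0) (by omega))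
  obtain ⟨a, -, ha⟩ := exists_rep v h1
  refine ⟨a, ?_⟩
  rw [show x + (cmp (some v)).f (ι a) =
    x - (cmp (some v)).f y + (cmp (some v)).f (y + ι a) by rw [map_add]; ring]
  exact add_mem hy (f_mem.2 ha)

lemma dvd_of_mem {p a : k[X]} (hp : Irreducible p) (hm : p.Monic) {n : ℕ} :
    (cmp (some (ofIrr p hp))).f (ι a) ∈ Fil (cmp (some (ofIrr p hp))).L'.w n ↔ p ^ n ∣ a := by
  rw [f_mem, ι_mem_some, gen_ofIrr hp hm]

section ord

variable {F K : Type} [Field F] [Field K]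

/-- The local condition of the Frobenius descent of an ordinary curve with `c ^ 2 = B`. -/
def LocB [CharP F 2] [CharP K 2] (W : WeierstrassCurve F) (P : PB F) (c : F) (f : F →+* K)
    (Q : PB K) (u : F) : Prop :=
  u = 0 ∨ u = P.D c / c ∨ ∃ x μ : K, x ≠ 0 ∧ wp μ = x + f (nA W) + f c / x ∧ f u = Q.D x / x

/-- The local condition of the Verschiebung descent of an ordinary curve. -/
def LocA (W : WeierstrassCurve F) (f : F →+* K) (h : F) : Prop :=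
  ∃ e : K, f h = wp e ∨ ∃ x y : K, (W.map f).toAffine.Equation x y ∧
    f h + wp e = (x + f W.a₂) / f W.a₁ ^ 2

end ord

/-- The algebraic part of the bound for ordinary curves. -/
def OrdA : Prop :=
  ∀ (k : Type) [Field k] [Fintype k] [CharP k 2] (W : WeierstrassCurve (RatFunc k)) (c : RatFunc k),
    W.a₁ ≠ 0 → c ≠ 0 → c ^ 2 = nB W → ∀ T₁ T₂ : Finset (RatFunc k),
    (∀ u, (∀ v : Pl k, LocB W (PX k) c (cmp v).f (QX v) u) → u ∈ T₁) →
    (∀ h, (∀ v : Pl k, LocA W (cmp v).f h) → ∃ e, h + wp e ∈ T₂) →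
    selOrder W ≤ T₁.card * T₂.card

end Pool.Agent.Lib.MP_a3f657_nt.Two.Exc
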