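import Pool.Agent.Lib.MP_a3f657_nt.C2XLoc

/-!
The descent in two steps on an ordinary curve with a rational point of order two.
-/

set_option linter.unusedSectionVars false

namespace Pool.Agent.Lib.MP_a3f657_nt.Two.Exc

open WeierstrassCurve WeierstrassCurve.Affine

open scoped Polynomial

namespace OrdAux

section one

open scoped Classical

variable {K : Type} [Field K] [CharP K 2]

/-- Ordinary, with `c ^ 2 = B`. -/
structure Od (W : WeierstrassCurve K) (c : K) : Prop where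
  a1 : W.a₁ ≠ 0
  c0 : c ≠ 0
  hc : c ^ 2 = nB W

variable {W : WeierstrassCurve K} {c : K}

lemma Od.disc (h : Od W c) : W.Δ ≠ 0 := fun e =>
  pow_ne_zero 2 h.c0 (by rw [h.hc, nB, e, zero_div])

lemma Od.s3 (h : Od W c) {R S : W.toAffine.Point} (hR : R ≠ 0) (hS : S ≠ 0) (hRS : R + S ≠ 0) :
    (xP W R * xP W S + xP W R * xP W (R + S) + xP W S * xP W (R + S)) ^ 2 +
      xP W R * xP W S * xP W (R + S) + c ^ 2 = 0 := by
  rcases R with _ | ⟨X₁, Y₁, h₁⟩
  · exact absurd rfl hR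
  rcases S with _ | ⟨X₂, Y₂, h₂⟩
  · exact absurd rfl hS
  have hxy : ¬(X₁ = X₂ ∧ Y₁ = W.toAffine.negY X₂ Y₂) := fun e => hRS (Point.add_of_Y_eq e.1 e.2)
  have e := addPolynomial_slope h₁.1 h₂.1 hxy
  rw [addPolynomial_eq, neg_inj, Cubic.prod_X_sub_C_eq, Cubic.toPoly_injective] at e
  rw [Point.add_some hxy]
  simp only [xP_some]
  generalize W.toAffine.addX X₁ X₂ (W.toAffine.slope X₁ X₂ Y₁ Y₂) = X₃ at e ⊢
  generalize W.toAffine.slope X₁ X₂ Y₁ Y₂ = l at e
  simp only [Cubic.mk.injEq, true_and] at e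
  obtain ⟨e1, e2, e3⟩ := e
  have h1 := h.a1
  have e4 : ((W.a₁ * X₁ + W.a₃) * (W.a₁ * X₂ + W.a₃) + (W.a₁ * X₁ + W.a₃) * (W.a₁ * X₃ + W.a₃) +
      (W.a₁ * X₂ + W.a₃) * (W.a₁ * X₃ + W.a₃)) ^ 2 +
      W.a₁ ^ 3 * ((W.a₁ * X₁ + W.a₃) * (W.a₁ * X₂ + W.a₃) * (W.a₁ * X₃ + W.a₃)) + W.Δ = 0 := by
    rw [disc_eq]
    have e1' : W.a₂ = l ^ 2 + W.a₁ * l + X₁ + X₂ + X₃ := by
      have : -l ^ 2 - W.a₁ * l + W.a₂ = -(X₁ + X₂ + X₃) := e1
      grind
    have e2' : W.a₄ = X₁ * X₂ + X₁ * X₃ + X₂ * X₃ + (W.a₁ * X₁ + W.a₃) * l + W.a₁ * Y₁ := by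
      have : 2 * X₁ * l ^ 2 + (W.a₁ * X₁ - 2 * Y₁ - W.a₃) * l + (-W.a₁ * Y₁ + W.a₄) =
        X₁ * X₂ + X₁ * X₃ + X₂ * X₃ := e2
      grind
    have e3' : W.a₆ = X₁ * X₂ * X₃ + X₁ ^ 2 * l ^ 2 + W.a₃ * X₁ * l + Y₁ ^ 2 + W.a₃ * Y₁ := by
      have : -X₁ ^ 2 * l ^ 2 + (2 * X₁ * Y₁ + W.a₃ * X₁) * l - (Y₁ ^ 2 + W.a₃ * Y₁ - W.a₆) =
        -(X₁ * X₂ * X₃) := e3
      grind
    rw [e1', e2', e3']
    grind
  rw [h.hc]
  unfold nx nB
  field_simp
  linear_combination e4

lemma Od.nx_zero (h : Od W c) {X : K} : nx W X = 0 ↔ W.a₁ * X + W.a₃ = 0 := by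
  rw [nx, div_eq_zero_iff, or_iff_left (pow_ne_zero 3 h.a1)]

lemma Od.ny_eq (h : Od W c) {X Y : K} (e : W.toAffine.Equation X Y) (h0 : nx W X = 0) :
    ny W Y = c := by
  rw [eqn_iff h.a1, h0, ← h.hc] at e
  exact sq_inj (by simpa using e)

lemma Od.two_iff (h : Od W c) {R : W.toAffine.Point} : R + R = 0 ↔ xP W R = 0 := by
  rcases R with _ | ⟨X, Y, hR⟩
  · exact ⟨fun _ => rfl, fun _ => add_zero (0 : W.toAffine.Point)⟩
  rw [xP_some, h.nx_zero, add_eq_zero_iff_eq_neg, Point.neg_some, Point.some.injEq, negY]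
  constructor
  · intro this
    have h3 : Y = -Y - W.a₁ * X - W.a₃ := this.2
    grind
  · intro this
    refine ⟨rfl, ?_⟩
    change Y = -Y - W.a₁ * X - W.a₃
    grind

lemma Od.eq_of_xP (h : Od W c) {R S : W.toAffine.Point} (hR : R ≠ 0) (hS : S ≠ 0)
    (e : xP W R = xP W S) : R = S ∨ R = -S := by
  rcases R with _ | ⟨X, Y, hR'⟩
  · exact absurd rfl hR
  rcases S with _ | ⟨X', Y', hS'⟩
  · exact absurd rfl hS
  refine Point.X_eq_iff.1 ?_
  have h1 := h.a1
  simp only [xP_some, nx] at e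
  grind

lemma Od.uniq (h : Od W c) {R S : W.toAffine.Point} (hR : R ≠ 0) (hS : S ≠ 0)
    (e : R + R = 0) (e' : S + S = 0) : R = S := by
  rcases h.eq_of_xP hR hS ((h.two_iff.1 e).trans (h.two_iff.1 e').symm) with e1 | e1
  · exact e1
  · rw [e1, neg_eq_of_add_eq_zero_left e']

lemma Od.xP_two (h : Od W c) {R : W.toAffine.Point} (hR : xP W R ≠ 0) :
    xP W (R + R) = (xP W R + c / xP W R) ^ 2 := by
  have h0 : R ≠ 0 := fun e => hR (by rw [e, xP_zero])
  have h1 := h.s3 h0 h0 fun e => hR (h.two_iff.1 e)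
  grind

lemma Od.exists_pt (h : Od W c) {x l : K} (h0 : x ≠ 0) (hl : wp l = x + nA W + c ^ 2 / x ^ 2) :
    ∃ R : W.toAffine.Point, xP W R = x := by
  have h1 := h.a1
  have e1 : nx W ((W.a₁ ^ 3 * x + W.a₃) / W.a₁) = x := by unfold nx; field_simp; grind
  have e2 : ny W (W.a₁ ^ 3 * (x * l) + (W.a₁ ^ 2 * W.a₄ + W.a₃ ^ 2) / W.a₁ ^ 3) = x * l := by
    unfold ny; field_simp; grind
  exact ⟨.some _ _ ((equation_iff_nonsingular_of_Δ_ne_zero h.disc).1
    ((eqn_iff h1 _ _).2 (by rw [e1, e2, ← h.hc]; unfold wp at hl; grind))), e1⟩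

/-- The function with divisor twice `T - O`, modulo squares. -/
noncomputable def bx (W : WeierstrassCurve K) (c : K) (R : W.toAffine.Point) : K :=
  if R = 0 then 1 else if xP W R = 0 then c else xP W R

lemma Od.bx_ne (h : Od W c) (R : W.toAffine.Point) : bx W c R ≠ 0 := by
  unfold bx
  split_ifs with h1 h2
  exacts [one_ne_zero, h.c0, h2]

lemma bx_neg (R : W.toAffine.Point) : bx W c (-R) = bx W c R := by
  simp only [bx, neg_eq_zero, xP_neg]

lemma Od.bx_sq (h : Od W c) (R S : W.toAffine.Point) :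
    ∃ g, bx W c R * bx W c S * bx W c (R + S) = g ^ 2 := by
  have b0 : bx W c 0 = 1 := if_pos rfl
  by_cases hR : R = 0
  · exact ⟨bx W c S, by rw [hR, zero_add, b0]; ring⟩
  by_cases hS : S = 0
  · exact ⟨bx W c R, by rw [hS, add_zero, b0]; ring⟩
  by_cases hRS : R + S = 0
  · exact ⟨bx W c S, by rw [hRS, eq_neg_of_add_eq_zero_left hRS, bx_neg, b0]; ring⟩
  have e := h.s3 hR hS hRS
  have hc := h.c0
  simp only [bx, if_neg hR, if_neg hS, if_neg hRS]
  generalize xP W R = x₁ at e ⊢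
  generalize xP W S = x₂ at e ⊢
  generalize xP W (R + S) = x₃ at e ⊢
  have key : ∀ a b : K, (a * b) ^ 2 + c ^ 2 = 0 → a * b = c := fun a b e =>
    sq_inj (by grind)
  by_cases h1 : x₁ = 0
  · have := key x₂ x₃ (by rw [h1] at e; simpa using e)
    rw [if_pos h1, if_neg (by rintro rfl; grind), if_neg (by rintro rfl; grind)]
    exact ⟨c, by rw [mul_assoc, this, sq]⟩
  by_cases h2 : x₂ = 0
  · have := key x₁ x₃ (by rw [h2] at e; simpa using e)
    rw [if_neg h1, if_pos h2, if_neg (by rintro rfl; grind)]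
    exact ⟨c, by rw [mul_right_comm, this, sq]⟩
  by_cases h3 : x₃ = 0
  · have := key x₁ x₂ (by rw [h3] at e; simpa using e)
    rw [if_neg h1, if_neg h2, if_pos h3]
    exact ⟨c, by rw [this, sq]⟩
  rw [if_neg h1, if_neg h2, if_neg h3]
  exact ⟨x₁ * x₂ + x₁ * x₃ + x₂ * x₃ + c, by grind⟩

/-- The first descent map. -/
noncomputable def Od.beta (h : Od W c) (P : PB K) : W.toAffine.Point →+ K :=
  AddMonoidHom.mk' (fun R => P.D (bx W c R) / bx W c R) fun R S => by
    obtain ⟨g, hg⟩ := h.bx_sq R S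
    have e := congrArg P.D hg
    rw [P.D_sq, P.D_mul, P.D_mul] at e
    have h1 := h.bx_ne R
    have h2 := h.bx_ne S
    have h3 := h.bx_ne (R + S)
    field_simp
    grind

lemma Od.beta_apply (h : Od W c) (P : PB K) (R : W.toAffine.Point) :
    h.beta P R = P.D (bx W c R) / bx W c R := rfl

lemma Od.beta_two (h : Od W c) (P : PB K) (S : W.toAffine.Point) : h.beta P (2 • S) = 0 := by
  rw [map_nsmul, two_nsmul, CharTwo.add_self_eq_zero]

lemma Od.exists_half [IsSepClosed K] (h : Od W c) (P : PB K) {R : W.toAffine.Point}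
    (e : h.beta P R = 0) : ∃ S, R = 2 • S := by
  by_cases hR : R = 0
  · exact ⟨0, by simp [hR]⟩
  rw [h.beta_apply, div_eq_zero_iff, or_iff_left (h.bx_ne R)] at e
  have e1 := P.D_eq_zero e
  generalize P.c0 (bx W c R) = g at e1
  have hc := h.c0
  obtain ⟨z, w, hz, hw⟩ : ∃ z w : K, xP W R = z ^ 2 ∧ w ^ 2 + z * w + c = 0 := by
    rw [bx, if_neg hR] at e1
    split_ifs at e1 with h0
    · exact ⟨0, g, by simpa using h0, by grind⟩
    · obtain ⟨w, hw⟩ := IsSepClosed.exists_root_C_mul_X_pow_add_C_mul_X_add_C (n := 2) 1 g c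
        (CharP.cast_eq_zero K 2) le_rfl (by rintro rfl; exact h0 (by simpa using e1))
      exact ⟨g, w, e1, by grind⟩
  have hw0 : w ≠ 0 := by rintro rfl; exact hc (by simpa using hw)
  obtain ⟨l, hl⟩ := exists_wp (w + nA W + c ^ 2 / w ^ 2)
  obtain ⟨S, hS⟩ := h.exists_pt hw0 hl
  have h1 : xP W S ≠ 0 := hS ▸ hw0
  have e2 : xP W (S + S) = xP W R := by rw [h.xP_two h1, hS, hz]; congr 1; grind
  rcases h.eq_of_xP (fun e => h1 (h.two_iff.1 e)) hR e2 with e3 | e3
  · exact ⟨S, by rw [two_nsmul, e3]⟩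
  · exact ⟨-S, by rw [two_nsmul, ← neg_add, e3, neg_neg]⟩

/-- The slope of the line through the point of order two. -/
noncomputable def mu (W : WeierstrassCurve K) (c : K) : W.toAffine.Point → K
  | .zero => 0
  | .some X Y _ => (ny W Y + c) / nx W X

lemma Od.wp_mu (h : Od W c) {U : W.toAffine.Point} (hU : xP W U ≠ 0) :
    wp (mu W c U) = xP W U + nA W + c / xP W U := by
  rcases U with _ | ⟨X, Y, e⟩
  · exact absurd rfl hU
  have h2 := (eqn_iff h.a1 X Y).1 e.1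
  rw [← h.hc] at h2
  rw [xP_some] at hU ⊢
  simp only [mu, wp]
  field_simp
  grind

lemma Od.mu_add (h : Od W c) {T U : W.toAffine.Point} (hT : T ≠ 0) (hT2 : T + T = 0)
    (hU : xP W U ≠ 0) : mu W c (T + U) = mu W c U + 1 := by
  have h3 : xP W (T + U) ≠ 0 := fun e => hU (h.two_iff.1 (by
    have := h.two_iff.2 e
    rwa [add_add_add_comm, hT2, zero_add] at this))
  have h0 := h.two_iff.1 hT2
  rcases T with _ | ⟨X₁, Y₁, h₁⟩
  · exact absurd rfl hT
  rcases U with _ | ⟨X₂, Y₂, h₂⟩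
  · exact absurd rfl hU
  rw [xP_some] at h0 hU
  have hx : X₁ ≠ X₂ := by rintro rfl; exact hU h0
  rw [Point.add_of_X_ne hx] at h3 ⊢
  have e1 := h.ny_eq h₁.1 h0
  have e2 := h.nx_zero.1 h0
  rw [xP_some] at h3
  simp only [mu, addY, negAddY, negY]
  generalize W.toAffine.addX X₁ X₂ (W.toAffine.slope X₁ X₂ Y₁ Y₂) = X₃ at h3 ⊢
  rw [slope_of_X_ne hx, ← e1]
  have h1 := h.a1
  have e3 : W.a₃ = W.a₁ * X₁ := by grind
  have h4 : X₃ + X₁ ≠ 0 := fun e => h3 (h.nx_zero.2 (by grind))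
  have h5 : X₂ + X₁ ≠ 0 := fun e => hx (by grind)
  have e4 : ∀ X, nx W X = (X + X₁) / W.a₁ ^ 2 := fun X => by rw [nx, e3]; field_simp
  have e5 : ∀ Y, ny W Y + ny W Y₁ = (Y + Y₁) / W.a₁ ^ 3 := fun Y => by
    unfold ny; field_simp; grind
  rw [e4, e4, e5, e5, CharTwo.sub_eq_add X₁, add_comm X₁]
  change (-((Y₁ - Y₂) / (X₂ + X₁) * (X₃ - X₁) + Y₁) - W.a₁ * X₃ - W.a₃ + Y₁) / _ / _ = _
  rw [e3]
  field_simp
  grind

lemma wp_key (a b m : K) : m + wp (a + (wp a + b + m)) = (wp a + b + m) ^ 2 + b := by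
  generalize hz : wp a + b + m = z
  rw [wp_add, wp, wp] at *
  grind

end one

attribute [local instance 10000] Classical.propDecidable

section two

variable {F : Type} [Field F] [CharP F 2] {W : WeierstrassCurve F} {c : F} {P : PB F}

variable {K L : Type} [Field K] [CharP K 2] [Algebra F K] [Field L] [CharP L 2] [Algebra F L]

lemma Od.bc (h : Od W c) (K : Type) [Field K] [CharP K 2] [Algebra F K] :
    Od (W.baseChange K) (algebraMap F K c) :=
  ⟨by simpa using h.a1, by simpa using h.c0, by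
    rw [← map_pow, h.hc]; exact (nB_map _ W).symm⟩

lemma xP_pm (g : K →ₐ[F] L) (R : Pt W K) :
    xP (W.baseChange L) (pm W g R) = g (xP (W.baseChange K) R) := by
  rcases R with _ | ⟨X, Y, hR⟩
  · exact (map_zero g).symm
  · rw [Point.map_some, xP_some, xP_some]
    simp [nx, WeierstrassCurve.baseChange]

lemma mu_pm (g : K →ₐ[F] L) (R : Pt W K) :
    mu (W.baseChange L) (algebraMap F L c) (pm W g R) =
      g (mu (W.baseChange K) (algebraMap F K c) R) := by
  rcases R with _ | ⟨X, Y, hR⟩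
  · exact (map_zero g).symm
  · rw [Point.map_some]
    simp [mu, nx, ny, WeierstrassCurve.baseChange]

lemma pm_eq_zero (g : K →ₐ[F] L) {R : Pt W K} : pm W g R = 0 ↔ R = 0 :=
  map_eq_zero_iff _ (Point.map_injective (W' := W.toAffine) g)

lemma beta_pm (h : Od W c) {Q : PB K} (hQ : Q.b = algebraMap F K P.b) {Q' : PB L}
    (hQ' : Q'.b = algebraMap F L P.b) (g : K →ₐ[F] L) (R : Pt W K) :
    (h.bc L).beta Q' (pm W g R) = g ((h.bc K).beta Q R) := by
  have e : bx (W.baseChange L) (algebraMap F L c) (pm W g R) =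
      g (bx (W.baseChange K) (algebraMap F K c) R) := by
    simp only [bx, pm_eq_zero, xP_pm, map_eq_zero]
    split_ifs <;> simp
  rw [Od.beta_apply, Od.beta_apply, e, map_div₀]
  congr 1
  exact Q.map_D (f := (g : K →+* L)) (by simp [hQ, hQ']) _

lemma pm_tors (h : Od W c) (g : K →ₐ[F] K) {U : Pt W K} (e : U + U = 0) : pm W g U = U := by
  by_cases h0 : U = 0
  · rw [h0, map_zero]
  · exact (h.bc K).uniq (mt (pm_eq_zero g).1 h0) h0 (by rw [← map_add, e, map_zero]) e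

variable {ξ : Gal F → Pt W (SeparableClosure F)} {R S : Pt W (SeparableClosure F)}

lemma locB (h : Od W c) {Q : PB K} (hQ : Q.b = algebraMap F K P.b) {Ps : PB (SeparableClosure F)}
    (hPs : Ps.b = algebraMap F _ P.b) (H : LocTriv W K ξ) (hξ : Dbl W ξ R) {u : F}
    (hu : algebraMap F _ u = (h.bc _).beta Ps R) : LocB W P c (algebraMap F K) Q u := by
  obtain ⟨Qs, hQs⟩ := Q.exists_sep (SeparableClosure K)
  rw [hQ, ← IsScalarTower.algebraMap_apply] at hQs
  obtain ⟨i, S, R₀, e, -⟩ := loc_pt H hξ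
  have e1 := beta_pm h hQ hQs (toSep F K) R₀
  rw [e, map_sub, Od.beta_two, sub_zero, beta_pm h hPs hQs, ← hu, i.commutes,
    ← (toSep F K).commutes] at e1
  have e2 := (toSep F K).injective e1
  rw [Od.beta_apply, bx] at e2
  split_ifs at e2 with h1 h2
  · exact Or.inl ((algebraMap F K).injective (by simpa using e2))
  · exact Or.inr (Or.inl ((algebraMap F K).injective (by rw [e2, P.map_D hQ, map_div₀])))
  · exact Or.inr (Or.inr ⟨_, _, h2, ((h.bc K).wp_mu h2).trans (by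
      rw [show nA (W.baseChange K) = _ from nA_map _ W]), e2⟩)

/-- An open subgroup of index at most two of the Galois group is an Artin-Schreier group. -/
lemma exists_AS (p : Gal F → Prop) (h1 : p 1) (hm : ∀ σ τ, p (σ * τ) ↔ (p σ ↔ p τ))
    (ho : IsOpen {σ | p σ}) :
    ∃ z : SeparableClosure F, ∀ σ : Gal F, σ z + z = if p σ then 0 else 1 := by
  by_cases hall : ∀ σ, p σ
  · exact ⟨0, fun σ => by simp [hall σ]⟩
  obtain ⟨σ₀, h0⟩ := not_forall.1 hall
  have hi : ∀ σ, p σ⁻¹ ↔ p σ := fun σ => (hm _ _).1 (by rwa [inv_mul_cancel])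
  let H : Subgroup (Gal F) :=
    { carrier := {σ | p σ}
      mul_mem' := fun {a b} ha hb => (hm a b).2 (iff_of_true ha hb)
      one_mem' := h1
      inv_mem' := fun {a} ha => (hi a).2 ha }
  have hH := InfiniteGalois.fixingSubgroup_fixedField (k := F) (K := SeparableClosure F)
    ⟨H, H.isClosed_of_isOpen ho⟩
  have h2 : σ₀ ∉ (IntermediateField.fixedField H).fixingSubgroup := fun e => h0 (by
    have e' : σ₀ ∈ H := by
      have := hH ▸ e
      exact this
    exact e')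
  rw [IntermediateField.mem_fixingSubgroup_iff] at h2
  push Not at h2
  obtain ⟨y, hy, hne⟩ := h2
  have f1 : ∀ σ, p σ → σ y = y := fun σ hσ => (IntermediateField.mem_fixedField_iff H y).1 hy σ hσ
  have f2 : ∀ σ, ¬ p σ → σ y = σ₀ y := fun σ hσ => by
    have := f1 (σ₀⁻¹ * σ) ((hm _ _).2 ((hi _).trans (iff_of_false h0 hσ)))
    rw [← congrArg σ₀ this]
    exact (σ₀.apply_symm_apply _).symm
  have ht : σ₀ y + y ≠ 0 := fun e => hne (by grind)
  have f3 : ∀ σ : Gal F, σ (σ₀ y + y) = σ₀ y + y := fun σ => by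
    rw [map_add]
    change (σ * σ₀) y + _ = _
    by_cases hσ : p σ
    · rw [f1 σ hσ, f2 _ fun e => h0 (((hm _ _).1 e).1 hσ)]
    · rw [f2 σ hσ, f1 _ ((hm _ _).2 (iff_of_false hσ h0)), add_comm]
  refine ⟨y / (σ₀ y + y), fun σ => ?_⟩
  rw [map_div₀, f3, ← add_div]
  split_ifs with hσ
  · rw [f1 σ hσ, CharTwo.add_self_eq_zero, zero_div]
  · rw [f2 σ hσ, div_self ht]

lemma eta_tors (hξ : Dbl W ξ (2 • S)) (σ : Gal F) :
    (ξ σ - (pm W σ.toAlgHom S - S)) + (ξ σ - (pm W σ.toAlgHom S - S)) = 0 := by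
  rw [← two_nsmul, nsmul_sub, hξ σ, map_nsmul, nsmul_sub, sub_self]

lemma exists_z (h : Od W c) (hc : IsLocallyConstant ξ)
    (hm : ∀ σ τ : Gal F, ξ (σ * τ) = ξ σ + pm W σ.toAlgHom (ξ τ)) (hξ : Dbl W ξ (2 • S)) :
    ∃ z : SeparableClosure F, ∀ σ : Gal F,
      σ z + z = if ξ σ = pm W σ.toAlgHom S - S then 0 else 1 := by
  let η : Gal F → Pt W (SeparableClosure F) := fun σ => ξ σ - (pm W σ.toAlgHom S - S)
  have t : ∀ σ, η σ + η σ = 0 := eta_tors hξ
  have m : ∀ σ τ, η (σ * τ) = η σ + η τ := fun σ τ => by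
    rw [← pm_tors h σ.toAlgHom (t τ)]
    simp only [η]
    rw [hm, map_sub, map_sub, Point.map_map]
    change _ - (pm W (σ.toAlgHom.comp τ.toAlgHom) S - S) = _
    abel
  have lc : IsLocallyConstant η :=
    hc.sub ((pm_locConst S).sub (IsLocallyConstant.const S))
  obtain ⟨z, hz⟩ := exists_AS (F := F) (fun σ => η σ = 0) (by simpa using m 1 1)
    (fun σ τ => by
      rw [m]
      by_cases h1 : η σ = 0
      · simp [h1]
      by_cases h2 : η τ = 0
      · simp [h1, h2]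
      rw [(h.bc _).uniq h1 h2 (t σ) (t τ)]
      simp [t τ]) (lc.isOpen_fiber 0)
  exact ⟨z, fun σ => by simpa only [η, sub_eq_zero] using hz σ⟩

lemma locA (h : Od W c) (H : LocTriv W K ξ) (hξ : Dbl W ξ (2 • S)) {z : SeparableClosure F}
    (hz : ∀ σ : Gal F, σ z + z = if ξ σ = pm W σ.toAlgHom S - S then 0 else 1) {n : F}
    (hn : algebraMap F _ n = wp z) : LocA W (algebraMap F K) n := by
  obtain ⟨i, Sv, R₀, e, hτ⟩ := loc_pt H hξ
  obtain ⟨U, hU⟩ : ∃ U, U = Sv - pm W i S := ⟨_, rfl⟩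
  have hs := h.bc (SeparableClosure K)
  have e1 : U + U = -pm W (toSep F K) R₀ := by rw [e, hU, map_nsmul, two_nsmul, two_nsmul]; abel
  have e2 : ∀ τ : Gal K, ∃ T : Pt W (SeparableClosure K), T + T = 0 ∧
      pm W (τ.toAlgHom.restrictScalars F) U = T + U ∧
      τ (i z) + i z = if T = 0 then 0 else 1 := fun τ => by
    obtain ⟨σ, a1, a2⟩ := hτ τ
    refine ⟨pm W i (ξ σ - (pm W σ.toAlgHom S - S)), by
      rw [← map_add, eta_tors hξ, map_zero], ?_, ?_⟩
    · have a3 : pm W (τ.toAlgHom.restrictScalars F) (pm W i S) = pm W i (pm W σ.toAlgHom S) := by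
        rw [Point.map_map, Point.map_map]
        congr 2
        ext x
        exact congrArg Subtype.val (a1 x)
      rw [hU, map_sub, map_sub, map_sub, a2, a3]
      abel
    · rw [a1, ← map_add, hz]
      simp only [pm_eq_zero, sub_eq_zero]
      split_ifs <;> simp
  have e3 : wp (i z) = toSep F K (algebraMap F K n) := by
    rw [AlgHom.commutes, ← i.commutes, hn]; simp [wp]
  by_cases h0 : xP (W.baseChange _) U = 0
  · obtain ⟨e₀, he⟩ := (InfiniteGalois.mem_range_algebraMap_iff_fixed (k := K) (i z)).2 fun τ => by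
      obtain ⟨T, -, a2, a3⟩ := e2 τ
      rw [pm_tors h _ (hs.two_iff.2 h0), right_eq_add] at a2
      rw [if_pos a2] at a3
      grind
    refine ⟨e₀, Or.inl ((toSep F K).injective ?_)⟩
    change toSep F K _ = toSep F K _
    rw [← e3, ← he]
    simp [wp]
  obtain ⟨e₀, he⟩ := (InfiniteGalois.mem_range_algebraMap_iff_fixed (k := K)
    (mu (W.baseChange _) (algebraMap F _ c) U + i z)).2 fun τ => by
      obtain ⟨T, a1, a2, a3⟩ := e2 τ
      have a4 := mu_pm (c := c) (τ.toAlgHom.restrictScalars F) U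
      change _ = τ _ at a4
      rw [map_add, ← a4, a2]
      split_ifs at a3 with a5
      · rw [a5, zero_add]; grind
      · rw [hs.mu_add a5 a1 h0]; grind
  have e4 := hs.wp_mu h0
  have e5 := hs.xP_two h0
  rw [e1, xP_neg, xP_pm] at e5
  have e6 : R₀ ≠ 0 := by
    rintro rfl
    exact h0 (hs.two_iff.1 (by rw [e1, map_zero, neg_zero]))
  have e7 : nA (W.baseChange (SeparableClosure K)) = toSep F K (algebraMap F K (nA W)) := by
    rw [AlgHom.commutes]; exact nA_map _ W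
  have e8 : toSep F K (wp e₀ + algebraMap F K (nA W) + algebraMap F K n) =
      xP (W.baseChange _) U + algebraMap F _ c / xP (W.baseChange _) U := by
    have : toSep F K (wp e₀) = wp (mu (W.baseChange _) (algebraMap F _ c) U + i z) := by
      rw [← he]; simp [wp]
    rw [map_add, map_add, this, wp_add, e4, e3, e7]
    grind
  rw [← e8, ← map_pow] at e5
  have e9 := (toSep F K).injective e5
  rcases R₀ with _ | ⟨X, Y, hXY⟩
  · exact absurd rfl e6
  refine ⟨e₀ + (wp e₀ + algebraMap F K (nA W) + algebraMap F K n), Or.inr ⟨X, Y, hXY.1, ?_⟩⟩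
  rw [xP_some] at e9
  have e10 : nx (W.baseChange K) X + algebraMap F K (nA W) =
      (X + algebraMap F K W.a₂) / algebraMap F K W.a₁ ^ 2 := by
    have := (h.bc K).a1
    rw [← show nA (W.baseChange K) = _ from nA_map _ W]
    change _ = (X + (W.baseChange K).a₂) / (W.baseChange K).a₁ ^ 2
    unfold nx nA
    grind
  rw [← e10, e9]
  exact wp_key _ _ _

lemma triv (h : Od W c) {ξ' : Gal F → Pt W (SeparableClosure F)} {S' : Pt W (SeparableClosure F)}
    (hξ : Dbl W ξ (2 • S)) (hξ' : Dbl W ξ' (2 • S')) {z z' : SeparableClosure F}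
    (hz : ∀ σ : Gal F, σ z + z = if ξ σ = pm W σ.toAlgHom S - S then 0 else 1)
    (hz' : ∀ σ : Gal F, σ z' + z' = if ξ' σ = pm W σ.toAlgHom S' - S' then 0 else 1)
    (e : wp z = wp z') : Triv W (ξ - ξ') (2 • S - 2 • S') := by
  refine ⟨S - S', fun σ => ?_, (nsmul_sub _ _ _).symm⟩
  have e1 : σ (z + z') = z + z' := by
    rcases wp_eq_zero.1 (show wp (z + z') = 0 by rw [wp_add, e, CharTwo.add_self_eq_zero]) with
      a | a <;> simp [a]
  have e2 : σ z + z = σ z' + z' := by rw [map_add] at e1; grind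
  rw [hz, hz'] at e2
  have e3 : ξ σ - (pm W σ.toAlgHom S - S) = ξ' σ - (pm W σ.toAlgHom S' - S') := by
    split_ifs at e2 with a b b
    · rw [sub_eq_zero.2 a, sub_eq_zero.2 b]
    · exact absurd e2 zero_ne_one
    · exact absurd e2 one_ne_zero
    · exact (h.bc _).uniq (sub_ne_zero.2 a) (sub_ne_zero.2 b) (eta_tors hξ σ) (eta_tors hξ' σ)
  rw [Pi.sub_apply, map_sub, sub_eq_iff_eq_add.1 e3]
  abel

end two

end OrdAux

open OrdAux

attribute [local instance 10000] Classical.propDecidable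

theorem ordA : OrdA := by
  intro k _ _ _ W c h1 h2 h3 T₁ T₂ hT₁ hT₂
  have h : Od W c := ⟨h1, h2, h3⟩
  obtain ⟨Ps, hPs⟩ := (PX k).exists_sep (SeparableClosure (RatFunc k))
  refine (selOrder_le (T₁.image (algebraMap _ (SeparableClosure (RatFunc k)))) T₂
    ((h.bc _).beta Ps) (fun ξ R n => ∃ S z, R = 2 • S ∧ algebraMap _ _ n = wp z ∧
      ∀ σ : Gal (RatFunc k), σ z + z = if ξ σ = pm W σ.toAlgHom S - S then 0 else 1)
    (fun ξ hξ R hR => ?_) (fun ξ hξ R hR h0 => ?_) ?_).trans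
    (Nat.mul_le_mul_right _ Finset.card_image_le)
  · obtain ⟨u, hu⟩ := (InfiniteGalois.mem_range_algebraMap_iff_fixed (k := RatFunc k)
      ((h.bc _).beta Ps R)).2 fun σ => by
        have := (h.bc _).beta_two Ps (ξ σ)
        rwa [hR σ, map_sub, beta_pm h hPs hPs, sub_eq_zero] at this
    refine Finset.mem_image.2 ⟨u, hT₁ u fun v => ?_, hu⟩
    obtain ⟨-, a, b⟩ := mem_cocyc.1 hξ
    cases v with
    | none =>
      exact (fun (Q : PB (RatFunc.CompletionAtInfty k)) (hQ : Q.b = algebraMap _ _ (PX k).b) =>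
        locB h hQ hPs a hR hu) _ ((cmp none).Q_b _)
    | some v =>
      exact (fun (Q : PB (v.adicCompletion (RatFunc k))) (hQ : Q.b = algebraMap _ _ (PX k).b) =>
        locB h hQ hPs (b v) hR hu) _ ((cmp (some v)).Q_b _)
  · obtain ⟨S, rfl⟩ := (h.bc _).exists_half Ps h0
    obtain ⟨⟨a1, a2⟩, a, b⟩ := mem_cocyc.1 hξ
    obtain ⟨z, hz⟩ := exists_z h a1 a2 hR
    obtain ⟨n, hn⟩ := (InfiniteGalois.mem_range_algebraMap_iff_fixed (k := RatFunc k)
      (wp z)).2 fun σ => by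
        have e1 : σ (wp z) = wp (σ z) := by simp [wp]
        have e2 : wp (σ z + z) = 0 := by rw [hz]; split_ifs <;> simp
        rw [wp_add] at e2
        grind
    obtain ⟨e, he⟩ := hT₂ n fun v => by
      cases v with
      | none => exact locA h a hR hz hn
      | some v => exact locA h (b v) hR hz hn
    refine ⟨_, he, S, z + algebraMap _ _ e, rfl, by rw [wp_add, map_add, hn]; simp [wp],
      fun σ => ?_⟩
    rw [← hz, map_add, σ.commutes]
    grind
  · rintro ξ _ ξ' _ n hR hR' - - ⟨S, z, rfl, a1, a2⟩ ⟨S', z', rfl, b1, b2⟩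
    exact triv h hR hR' a2 b2 (a1.symm.trans b1)

end Pool.Agent.Lib.MP_a3f657_nt.Two.Exc
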