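import Pool.Agent.Lib.MP_a3f657_nt.C2XLoc

/-!
The bound for ordinary curves with a rational point of order two: local to global.
-/

set_option linter.unusedSectionVars false

namespace Pool.Agent.Lib.MP_a3f657_nt.Two.Exc

open Polynomial IsDedekindDomain

open scoped Classical

namespace OrdB

section loc

variable {K : Type} [Field K] [CharP K 2] {w : Valuation K (WithZero (Multiplicative ℤ))}

lemma even_of_wp {y z μ : K} (hy : y ≠ 0) (h0 : ord w y < 0) (hz : z ∈ Fil w 0)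
    (h : wp μ = y + z) : ord w y % 2 = 0 := by
  obtain ⟨h1, h2⟩ := ord_add (w := w) hy (Fil.mono hz (b := ord w y + 1) (by omega))
  rw [← h] at h1 h2
  by_cases hμ : μ ∈ Fil w 0
  · have := (mem_Fil_iff h1).1 (Fil.wp hμ le_rfl le_rfl)
    omega
  · have := (ord_wp (not_mem_Fil.1 hμ).2).2
    omega

lemma even_of_unit {x A c μ : K} (hx : x ≠ 0) (hA : A ∈ Fil w 0) (hc : c ≠ 0) (hc0 : ord w c = 0)
    (h : wp μ = x + A + c / x) : ord w x % 2 = 0 := by
  have h1 : ord w (c / x) = -ord w x := by rw [ord_div hc hx, hc0, zero_sub]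
  rcases lt_trichotomy (ord w x) 0 with h2 | h2 | h2
  · exact even_of_wp hx h2 (add_mem hA (mem_Fil_of_le (x := c / x) (by omega)))
      (by rw [h, add_assoc])
  · omega
  · have := even_of_wp (w := w) (div_ne_zero hc hx) (by omega)
      (add_mem (mem_Fil_of_le (x := x) h2.le) hA) (by rw [h, add_comm])
    omega

end loc

variable {k : Type} [Field k] [Fintype k] [CharP k 2]

lemma dlog_even (v : Pl k) {x : (cmp v).K} (h : ord (cmp v).L'.w x % 2 = 0) :
    (QX v).D x / x ∈ Fil (cmp v).L'.w (eD v) := by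
  rw [QX_chain, mul_div_right_comm]
  exact Fil.mul (PreLoc.dlog_mem_even h) (f_mem.2 (mem_Fil_ord _)) (by rw [ord_D_unif]; omega)

lemma unif_ne (v : Pl k) : unif v ≠ 0 := fun e => by simpa [e] using ord_unif v

lemma dlog_cases {v : Pl k} {x : (cmp v).K} {u : RatFunc k} (hx : x ≠ 0)
    (hu : (cmp v).f u = (QX v).D x / x) :
    u ∈ Fil (val v) (eD v) ∨ u + (PX k).D (unif v) / unif v ∈ Fil (val v) (eD v) := by
  rcases Int.emod_two_eq_zero_or_one (ord (cmp v).L'.w x) with h | h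
  · exact Or.inl (f_mem.1 (hu ▸ dlog_even v h))
  · have hb : (cmp v).f (unif v) ≠ 0 := (_root_.map_ne_zero _).2 (unif_ne v)
    obtain ⟨y, rfl⟩ : ∃ y, x = (cmp v).f (unif v) * y := ⟨x / (cmp v).f (unif v), by field_simp⟩
    have hy : y ≠ 0 := right_ne_zero_of_mul hx
    rw [ord_mul hb hy, f_ord, ord_unif] at h
    refine Or.inr (f_mem.1 ?_)
    rw [map_add, hu, map_div₀, ← QX_f, PB.D_mul]
    convert dlog_even v (x := y) (by omega) using 1
    field_simp
    grind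

lemma dlog_prod (S : Finset (HeightOneSpectrum k[X])) :
    ι (derivative (∏ v ∈ S, gen v)) / ι (∏ v ∈ S, gen v) =
      ∑ v ∈ S, ι (derivative (gen v)) / ι (gen v) := by
  induction S using Finset.induction_on with
  | empty => simp [ι]
  | insert v S hv ih =>
    have h1 := ι_ne (gen_ne v)
    have h2 := ι_ne (Finset.prod_ne_zero_iff.2 fun u (_ : u ∈ S) => gen_ne u)
    rw [Finset.prod_insert hv, Finset.sum_insert hv, ← ih, derivative_mul]
    simp only [ι, map_add, map_mul] at h1 h2 ⊢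
    field_simp

lemma dlog_none {p : k[X]} (hp : p ≠ 0) : ι (derivative p) / ι p ∈ Fil (val none) 1 := by
  refine Fil.div (a := 1 - p.natDegree) (ι_mem_none'.2 ?_) (by rw [ord_none hp]; omega)
  rw [← degree_eq_natDegree hp]
  exact degree_derivative_lt hp

lemma exists_s {u : RatFunc k} {N : k[X]} (h0 : u ∈ Fil (val none) 1)
    (h1 : ∀ v, u ∈ Fil (val (some v)) 0 ∨
      (gen v ∣ N ∧ u + ι (derivative (gen v)) / ι (gen v) ∈ Fil (val (some v)) 0)) :
    ∃ s : k[X], s.Monic ∧ s ∣ N ∧ ι (derivative s) / ι s = u := by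
  obtain ⟨S, hS⟩ : ∃ S : Finset (HeightOneSpectrum k[X]), ∀ v, v ∈ S ↔ u ∉ Fil (val (some v)) 0 :=
    ⟨((finite_poles u).preimage (Option.some_injective _).injOn).toFinset, fun v => by simp⟩
  have h2 := fun v (hv : v ∈ S) => (h1 v).resolve_left ((hS v).1 hv)
  refine ⟨∏ v ∈ S, gen v, monic_prod_of_monic _ _ fun v _ => gen_monic v,
    Finset.prod_dvd_of_coprime (fun v _ v' _ h => (gen_irr v).coprime_iff_not_dvd.2
      fun e => h (gen_dvd_gen e)) fun v hv => (h2 v hv).1, ?_⟩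
  rw [dlog_prod]
  obtain ⟨a, ha⟩ := exists_poly (x := u + ∑ v ∈ S, ι (derivative (gen v)) / ι (gen v)) fun v => by
    by_cases hv : v ∈ S
    · rw [← Finset.add_sum_erase S _ hv, ← add_assoc]
      exact add_mem (h2 v hv).2 (sum_mem fun v' hv' => div_int _ fun e =>
        Finset.ne_of_mem_erase hv' (gen_dvd_gen e).symm)
    · exact add_mem (not_not.1 fun e => hv ((hS v).2 e)) (sum_mem fun v' hv' => div_int _ fun e =>
        hv (by rw [gen_dvd_gen e]; exact hv'))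
  have h3 : a = 0 := eq_zero_of_none
    (ha ▸ add_mem h0 (sum_mem fun v _ => dlog_none (gen_ne v)))
  rw [h3, ι, map_zero] at ha
  grind

lemma stepB {a : WeierstrassCurve k[X]} {c u : RatFunc k} (hc : c ≠ 0) (hB : c ^ 2 = nB (bc a))
    (h : ∀ v : Pl k, LocB (bc a) (PX k) c (cmp v).f (QX v) u) :
    ∃ s : k[X], s.Monic ∧ s ∣ a.a₁ * a.Δ ∧ ι (derivative s) / ι s = u := by
  have hf : ∀ v : Pl k, (cmp v).f c ≠ 0 := fun v => (_root_.map_ne_zero _).2 hc
  have h1 : ∀ v : Pl k, ∃ x : (cmp v).K, x ≠ 0 ∧ (cmp v).f u = (QX v).D x / x ∧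
      (nA (bc a) ∈ Fil (val v) 0 → ord (val v) c = 0 → ord (cmp v).L'.w x % 2 = 0) := fun v => by
    rcases h v with h | h | ⟨x, μ, hx, e1, e2⟩
    · exact ⟨1, one_ne_zero, by simp [h], fun _ _ => by simp⟩
    · exact ⟨_, hf v, by rw [h, map_div₀, QX_f], fun _ e => by rw [f_ord, e]; rfl⟩
    · exact ⟨x, hx, e2, fun h2 h3 => even_of_unit hx (f_mem.2 h2) (hf v) (by rw [f_ord, h3]) e1⟩
  refine exists_s ?_ fun v => ?_
  · obtain ⟨x, hx, e, -⟩ := h1 none
    rcases dlog_cases hx e with h2 | h2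
    · exact Fil.mono h2 (by simp [eD])
    · have h3 : (PX k).D (unif none) / unif none ∈ Fil (val (k := k) none) 1 :=
        Fil.div (mem_Fil_ord _) (by rw [ord_D_unif, ord_unif]; simp [eD])
      simpa using sub_mem (Fil.mono h2 (b := 1) (by simp [eD])) h3
  · obtain ⟨x, hx, e, h2⟩ := h1 (some v)
    by_cases hv : gen v ∣ a.a₁ * a.Δ
    · refine (dlog_cases hx e).imp id fun h3 => ⟨hv, ?_⟩
      rwa [unif, D_ι] at h3
    · have h3 : ∀ n : ℕ, ¬ gen v ∣ a.a₁ ^ n := fun n e =>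
        hv (((gen_prime v).dvd_of_dvd_pow e).mul_right _)
      have h4 : ¬ gen v ∣ a.Δ := fun e => hv (e.mul_left _)
      have h5 : ord (val (some v)) (c ^ 2) = 0 := by
        rw [hB, nB_bc, ord_div (ι_ne fun e => h4 (by simp [e])) (ι_ne fun e => h3 12 (by simp [e])),
          ord_ι_unit h4, ord_ι_unit (h3 12), sub_zero]
      rw [ord_sq] at h5
      exact Or.inl (f_mem.1 (e ▸ dlog_even (some v)
        (h2 (by rw [nA_bc]; exact div_int _ (h3 3)) (by omega))))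

lemma locA {a : WeierstrassCurve k[X]} {d : ℕ} (hd : DegLE a d) (h1 : a.a₁ ≠ 0) {h : RatFunc k}
    {v : Pl k} (H : LocA (bc a) (cmp v).f h) :
    ∃ e : RatFunc k, (h + wp e) * ι a.a₁ ^ 2 ∈ Fil (val v) (2 * lev d v) := by
  have m1 := ι_lev v (a := a.a₁) (d := d) 1 (by simpa using hd.1)
  have m2 := ι_lev v 2 hd.2.1
  have m3 := ι_lev v 3 hd.2.2.1
  have m4 := ι_lev v 4 hd.2.2.2.1
  have m6 := ι_lev v 6 hd.2.2.2.2
  simp only [Nat.cast_one, one_mul, Nat.cast_ofNat] at m1 m2 m3 m4 m6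
  have h0 : (cmp v).f (ι a.a₁) ≠ 0 := (_root_.map_ne_zero _).2 (ι_ne h1)
  have key : ∃ e : (cmp v).K, ((cmp v).f h + wp e) * (cmp v).f (ι a.a₁) ^ 2 ∈
      Fil (cmp v).L'.w (2 * lev d v) := by
    obtain ⟨e, H | ⟨x, y, hxy, H⟩⟩ := H
    · exact ⟨e, by rw [H, two_K, zero_mul]; exact zero_mem _⟩
    have H' : ((cmp v).f h + wp e) * (cmp v).f (ι a.a₁) ^ 2 = x + (cmp v).f (ι a.a₂) := by
      rw [H]
      exact div_mul_cancel₀ _ (pow_ne_zero 2 h0)
    rcases pt_cases m1 m2 m3 m4 m6 ((WeierstrassCurve.Affine.equation_iff _ _).1 hxy) with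
      ⟨hx, -⟩ | ⟨m, hm, -, -, -, hx⟩
    · exact ⟨e, H' ▸ add_mem hx m2⟩
    · refine ⟨e + y / x / (cmp v).f (ι a.a₁), ?_⟩
      rw [wp_add, ← add_assoc, add_mul, H']
      convert Fil.mono (hx 0 (by simpa using m3) zero_le_one) (b := 2 * lev d v) (by omega) using 1
      generalize y / x = t
      unfold wp
      field_simp
      ring
  obtain ⟨e, he⟩ := key
  obtain ⟨e', he'⟩ := (cmp v).h.dense e 0
  refine ⟨e', f_mem.1 ?_⟩
  convert add_mem he (Fil.mul (Fil.wp he' le_rfl le_rfl) (Fil.sq m1 le_rfl) (zero_add _).ge) using 1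
  simp only [wp, map_mul, map_add, map_pow]
  grind

lemma stepA {a : WeierstrassCurve k[X]} {d : ℕ} (hd : DegLE a d) (h1 : a.a₁ ≠ 0) {h : RatFunc k}
    (H : ∀ v : Pl k, LocA (bc a) (cmp v).f h) :
    ∃ e : RatFunc k, ∃ n ∈ Bad.PL k (2 * d + 1), ι n / ι a.a₁ ^ 2 = h + wp e := by
  choose ev hev using fun v => locA hd h1 (H v)
  obtain ⟨e, e1, e2⟩ := exists_principal (finite_poles h).toFinset ev
  have m1 : ∀ v : Pl k, ι a.a₁ ^ 2 ∈ Fil (val v) (2 * lev d v) := fun v =>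
    Fil.sq (f_mem.1 (ι_lev v (a := a.a₁) (d := d) 1 (by simpa using hd.1))) (by simp)
  have key : ∀ v : Pl k, (h + wp e) * ι a.a₁ ^ 2 ∈ Fil (val v) (2 * lev d v) := fun v => by
    by_cases hv : v ∈ (finite_poles h).toFinset
    · convert add_mem (hev v) (Fil.mul (Fil.wp (e1 v hv) le_rfl le_rfl) (m1 v) (zero_add _).ge)
        using 1
      simp only [wp]
      grind
    · exact Fil.mul (add_mem (by simpa using hv) (Fil.wp (e2 v hv) le_rfl le_rfl)) (m1 v)
        (zero_add _).ge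
  obtain ⟨n, hn, e3⟩ := exists_PL (n := 2 * d + 1) (fun v => by simpa [lev] using key (some v))
    (Fil.mono (key none) (by simp [lev]))
  exact ⟨e, n, hn, by rw [e3, mul_div_cancel_right₀ _ (pow_ne_zero 2 (ι_ne h1))]⟩

end OrdB

theorem selOrd (h : OrdA) : SelOrd := by
  intro k _ _ _ d a hd h1 hΔ ⟨D₀, hD⟩ T hT
  have h2 := ι_ne h1
  have h3 : D₀ ≠ 0 := fun e => ι_ne hΔ (by rw [hD, e, zero_mul])
  have hc : D₀ / ι a.a₁ ^ 6 ≠ 0 := div_ne_zero h3 (pow_ne_zero 6 h2)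
  have hB : (D₀ / ι a.a₁ ^ 6) ^ 2 = nB (bc a) := by
    rw [nB_bc, hD, div_pow, ← pow_mul, sq, ι, ι, map_pow]
  refine (h k (bc a) _ h2 hc hB (T.image fun s => ι (derivative s) / ι s)
    ((Bad.PL k (2 * d + 1)).image fun n => ι n / ι a.a₁ ^ 2) (fun u hu => ?_) fun g hg => ?_).trans
    (Nat.mul_le_mul Finset.card_image_le (Finset.card_image_le.trans (Bad.card_PL _).le))
  · obtain ⟨s, s1, s2, s3⟩ := OrdB.stepB hc hB hu
    exact Finset.mem_image.2 ⟨s, hT s s1 s2, s3⟩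
  · obtain ⟨e, n, hn, e1⟩ := OrdB.stepA hd h1 hg
    exact ⟨e, Finset.mem_image.2 ⟨n, hn, e1⟩⟩

end Pool.Agent.Lib.MP_a3f657_nt.Two.Exc
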