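import Pool.Agent.Lib.MP_a3f657_nt.C2XLoc

/-!
The two descent maps of a supersingular curve in characteristic two.
-/

set_option linter.unusedSectionVars false

namespace Pool.Agent.Lib.MP_a3f657_nt.Two.Exc.Ss

open WeierstrassCurve WeierstrassCurve.Affine

open scoped Polynomial

attribute [local instance 10000] Classical.propDecidable

section alg

variable {K : Type} [Field K] [CharP K 2]

/-- The shifted abscissa. -/
def xa (W : WeierstrassCurve K) : W.toAffine.Point → K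
  | .zero => 0
  | .some x _ _ => x + W.a₂

/-- The second descent map. -/
noncomputable def ps (P : PB K) (W : WeierstrassCurve K) : W.toAffine.Point → K
  | .zero => 0
  | .some x _ _ => P.c1 (W.a₃ * P.c0 (x + W.a₂) + W.a₄)

variable {W : WeierstrassCurve K} {P : PB K} {R S : W.toAffine.Point}

@[simp] lemma xa_zero : xa W 0 = 0 := rfl

@[simp] lemma ps_zero : ps P W 0 = 0 := rfl

@[simp] lemma xa_neg (R : W.toAffine.Point) : xa W (-R) = xa W R := by cases R <;> rfl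

@[simp] lemma ps_neg (R : W.toAffine.Point) : ps P W (-R) = ps P W R := by cases R <;> rfl

lemma ps_eq (hR : R ≠ 0) : ps P W R = P.c1 (W.a₃ * P.c0 (xa W R) + W.a₄) := by
  cases R
  · exact absurd rfl hR
  · rfl

lemma s3 (h : W.a₁ = 0) (hR : R ≠ 0) (hS : S ≠ 0) (hRS : R + S ≠ 0) :
    ∃ l : K, xa W R + xa W S + xa W (R + S) = l ^ 2 ∧ W.a₃ * l + W.a₄ =
      xa W R * xa W S + xa W R * xa W (R + S) + xa W S * xa W (R + S) + W.a₂ ^ 2 := by
  rcases R with _ | ⟨X₁, Y₁, h₁⟩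
  · exact absurd rfl hR
  rcases S with _ | ⟨X₂, Y₂, h₂⟩
  · exact absurd rfl hS
  have hxy : ¬(X₁ = X₂ ∧ Y₁ = W.toAffine.negY X₂ Y₂) := fun e => hRS (Point.add_of_Y_eq e.1 e.2)
  have e := addPolynomial_slope h₁.1 h₂.1 hxy
  rw [addPolynomial_eq, neg_inj, Cubic.prod_X_sub_C_eq, Cubic.toPoly_injective] at e
  rw [Point.add_some hxy]
  simp only [xa]
  generalize W.toAffine.addX X₁ X₂ (W.toAffine.slope X₁ X₂ Y₁ Y₂) = X₃ at e ⊢
  generalize W.toAffine.slope X₁ X₂ Y₁ Y₂ = l at e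
  simp only [Cubic.mk.injEq, true_and] at e
  obtain ⟨e1, e2, -⟩ := e
  have e1' : -l ^ 2 - W.a₁ * l + W.a₂ = -(X₁ + X₂ + X₃) := e1
  have e2' : 2 * X₁ * l ^ 2 + (W.a₁ * X₁ - 2 * Y₁ - W.a₃) * l + (-W.a₁ * Y₁ + W.a₄) =
    X₁ * X₂ + X₁ * X₃ + X₂ * X₃ := e2
  rw [h] at e1' e2'
  exact ⟨l, by grind, by grind⟩

/-- The first descent map. -/
noncomputable def phi (P : PB K) (h : W.a₁ = 0) : W.toAffine.Point →+ K where
  toFun R := P.c1 (xa W R)
  map_zero' := by simp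
  map_add' R S := by
    by_cases hR : R = 0
    · simp [hR]
    by_cases hS : S = 0
    · simp [hS]
    by_cases hRS : R + S = 0
    · rw [hRS, eq_neg_of_add_eq_zero_left hRS, xa_neg, CharTwo.add_self_eq_zero]
      simp
    obtain ⟨l, e, -⟩ := s3 h hR hS hRS
    have := congrArg P.c1 e
    rw [P.c1_add, P.c1_add, P.c1_sq] at this
    grind

lemma phi_apply (h : W.a₁ = 0) (R : W.toAffine.Point) : phi P h R = P.c1 (xa W R) := rfl

lemma phi_two (h : W.a₁ = 0) (R : W.toAffine.Point) : phi P h (2 • R) = 0 := by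
  rw [map_nsmul, two_nsmul, CharTwo.add_self_eq_zero]

lemma ps_add (h : W.a₁ = 0) (h1 : phi P h R = 0) (h2 : phi P h S = 0) :
    ps P W (R + S) = ps P W R + ps P W S := by
  by_cases hR : R = 0
  · simp [hR]
  by_cases hS : S = 0
  · simp [hS]
  by_cases hRS : R + S = 0
  · rw [hRS, eq_neg_of_add_eq_zero_left hRS, ps_neg, CharTwo.add_self_eq_zero]
    simp
  have h3 : phi P h (R + S) = 0 := by rw [map_add, h1, h2, add_zero]
  obtain ⟨l, e, e'⟩ := s3 h hR hS hRS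
  rw [ps_eq hR, ps_eq hS, ps_eq hRS]
  have e1 := P.eq_sq h1
  have e2 := P.eq_sq h2
  have e3 := P.eq_sq h3
  generalize P.c0 (xa W R) = z₁ at e1
  generalize P.c0 (xa W S) = z₂ at e2
  generalize P.c0 (xa W (R + S)) = z₃ at e3
  rw [e1, e2, e3] at e e'
  obtain rfl : l = z₁ + z₂ + z₃ := sq_inj (by grind)
  have e4 : W.a₃ * z₁ + W.a₄ + (W.a₃ * z₂ + W.a₄) + (W.a₃ * z₃ + W.a₄) =
      (z₁ * z₂ + z₁ * z₃ + z₂ * z₃ + W.a₂) ^ 2 := by grind
  have := congrArg P.c1 e4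
  rw [P.c1_add _ (_ + _), P.c1_add (_ + _) (_ + _), P.c1_sq] at this
  grind

lemma ps_two (h : W.a₁ = 0) (S : W.toAffine.Point) : ps P W (2 • S) = 0 := by
  rw [two_nsmul]
  by_cases hS : S = 0
  · simp [hS]
  by_cases h2 : S + S = 0
  · simp [h2]
  obtain ⟨l, e, e'⟩ := s3 h hS hS h2
  rw [ps_eq h2, show xa W (S + S) = l ^ 2 by grind, P.c0_sq, show W.a₃ * l + W.a₄ =
    (xa W S + W.a₂) ^ 2 by grind, P.c1_sq]

lemma two_tors (h : W.a₁ = 0) (h3 : W.a₃ ≠ 0) (e : R + R = 0) : R = 0 := by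
  rcases R with _ | ⟨X, Y, hR⟩
  · rfl
  refine absurd ?_ h3
  have := eq_neg_of_add_eq_zero_left e
  rw [Point.neg_some, Point.some.injEq, negY] at this
  have h4 : Y = -Y - W.a₁ * X - W.a₃ := this.2
  rw [h] at h4
  grind

lemma two_inj (h : W.a₁ = 0) (h3 : W.a₃ ≠ 0) (e : 2 • R = 2 • S) : R = S := by
  refine sub_eq_zero.1 (two_tors h h3 ?_)
  rw [← two_nsmul, nsmul_sub, e, sub_self]

lemma exists_half [IsSepClosed K] (h : W.a₁ = 0) (h3 : W.a₃ ≠ 0) (h1 : phi P h R = 0)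
    (h2 : ps P W R = 0) : ∃ S, R = 2 • S := by
  by_cases hR : R = 0
  · exact ⟨0, by simp [hR]⟩
  have hΔ : W.Δ ≠ 0 := by rw [disc_eq, h]; simpa using h3
  rw [ps_eq hR] at h2
  have e1 := P.eq_sq h1
  have e2 := P.eq_sq h2
  generalize P.c0 (xa W R) = z at e1 e2
  generalize P.c0 (W.a₃ * z + W.a₄) = x at e2
  obtain ⟨y, hy⟩ := IsSepClosed.exists_root_C_mul_X_pow_add_C_mul_X_add_C (n := 2) 1 W.a₃
    (x ^ 3 + W.a₂ * x ^ 2 + W.a₄ * x + W.a₆) (CharP.cast_eq_zero K 2) le_rfl h3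
  let S : W.toAffine.Point := .some x y ((equation_iff_nonsingular_of_Δ_ne_zero hΔ).1 (by
    rw [equation_iff]
    change y ^ 2 + W.a₁ * x * y + W.a₃ * y = x ^ 3 + W.a₂ * x ^ 2 + W.a₄ * x + W.a₆
    rw [h]
    grind))
  have hS : S ≠ 0 := Point.some_ne_zero _
  have hS2 : S + S ≠ 0 := fun e => hS (two_tors h h3 e)
  obtain ⟨l, e, e'⟩ := s3 h hS hS hS2
  have e3 : xa W S = x + W.a₂ := rfl
  obtain rfl : l = z := mul_left_cancel₀ h3 (by grind)
  have e4 : xa W (S + S) = xa W R := by grind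
  have e5 : S + S = R ∨ S + S = -R := by
    generalize S + S = U at hS2 e4
    rcases R with _ | ⟨X, Y, hR'⟩
    · exact absurd rfl hR
    rcases U with _ | ⟨X', Y', hU⟩
    · exact absurd rfl hS2
    exact Point.X_eq_iff.1 (add_right_cancel e4)
  rcases e5 with e5 | e5
  · exact ⟨S, by rw [two_nsmul, e5]⟩
  · exact ⟨-S, by rw [two_nsmul, ← neg_add, e5, neg_neg]⟩

end alg

section nat

variable {F K L : Type} [Field F] [CharP F 2] [Field K] [CharP K 2] [Algebra F K] [Field L]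
  [CharP L 2] [Algebra F L] {W : WeierstrassCurve F} {Q : PB K} {Q' : PB L}

lemma bc1 (h : W.a₁ = 0) (K : Type) [Field K] [Algebra F K] : (W.baseChange K).a₁ = 0 := by
  simp [WeierstrassCurve.baseChange, h]

lemma bc3 (h : W.a₃ ≠ 0) (K : Type) [Field K] [Algebra F K] : (W.baseChange K).a₃ ≠ 0 := by
  simpa [WeierstrassCurve.baseChange] using h

lemma phi_pm (h : W.a₁ = 0) (g : K →ₐ[F] L) (hQ : Q'.b = g Q.b) (R : Pt W K) :
    phi Q' (bc1 h L) (pm W g R) = g (phi Q (bc1 h K) R) := by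
  rcases R with _ | ⟨X, Y, hR⟩
  · exact (map_zero _).trans ((map_zero g).symm.trans (congrArg g (map_zero _).symm))
  · rw [Point.map_some, phi_apply, phi_apply]
    refine Eq.trans ?_ (Q.map_c1 (f := (g : K →+* L)) hQ _)
    simp [xa, WeierstrassCurve.baseChange]

lemma ps_pm (g : K →ₐ[F] L) (hQ : Q'.b = g Q.b) (R : Pt W K) :
    ps Q' (W.baseChange L) (pm W g R) = g (ps Q (W.baseChange K) R) := by
  rcases R with _ | ⟨X, Y, hR⟩
  · exact (map_zero g).symm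
  · rw [Point.map_some]
    refine Eq.trans ?_ (Q.map_c1 (f := (g : K →+* L)) hQ _)
    rw [map_add, map_mul, ← Q.map_c0 (f := (g : K →+* L)) hQ]
    simp [ps, WeierstrassCurve.baseChange]

/-- The local condition of the first descent. -/
def LocV (W : WeierstrassCurve F) (f : F →+* K) (Q : PB K) (γ : F) : Prop :=
  γ = 0 ∨ ∃ x y : K, y ^ 2 + f W.a₃ * y = x ^ 3 + f W.a₂ * x ^ 2 + f W.a₄ * x + f W.a₆ ∧
    f γ = Q.c1 (x + f W.a₂)

/-- The local condition of the second descent. -/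
def LocF (W : WeierstrassCurve F) (f : F →+* K) (Q : PB K) (γ : F) : Prop :=
  γ = 0 ∨ ∃ z y : K, y ^ 2 + f W.a₃ * y =
    f W.a₃ * z ^ 3 + f W.a₄ * z ^ 2 + f W.a₂ * f W.a₃ * z + (f W.a₂ * f W.a₄ + f W.a₆) ∧
    f γ = Q.c1 (f W.a₃ * z + f W.a₄)

variable {P : PB F} {Ps : PB (SeparableClosure F)} {ξ : Gal F → Pt W (SeparableClosure F)}
  {R : Pt W (SeparableClosure F)} {γ : F}

lemma eqn (h : W.a₁ = 0) {x y : K} (e : (W.baseChange K).toAffine.Equation x y) :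
    y ^ 2 + algebraMap F K W.a₃ * y =
      x ^ 3 + algebraMap F K W.a₂ * x ^ 2 + algebraMap F K W.a₄ * x + algebraMap F K W.a₆ := by
  simpa [WeierstrassCurve.baseChange, h] using (equation_iff _ _).1 e

lemma locV (h : W.a₁ = 0) (hPs : Ps.b = algebraMap F _ P.b) (hQ : Q.b = algebraMap F K P.b)
    (H : LocTriv W K ξ) (hξ : Dbl W ξ R) (e : algebraMap F _ γ = phi Ps (bc1 h _) R) :
    LocV W (algebraMap F K) Q γ := by
  obtain ⟨Qs, hQs⟩ := Q.exists_sep (SeparableClosure K)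
  obtain ⟨i, S, R₀, h1, -⟩ := loc_pt H hξ
  have h2 : Qs.b = i Ps.b := by rw [hPs, i.commutes, hQs, hQ, ← IsScalarTower.algebraMap_apply]
  have h3 := phi_pm h (toSep F K) hQs R₀
  rw [h1, map_sub, phi_two, sub_zero, phi_pm h i h2, ← e, i.commutes,
    ← (toSep F K).commutes] at h3
  have h4 := (toSep F K).injective h3
  rcases R₀ with _ | ⟨x, y, hxy⟩
  · exact Or.inl ((algebraMap F K).injective (h4.trans ((map_zero _).trans (map_zero _).symm)))
  · exact Or.inr ⟨x, y, eqn h hxy.1, h4⟩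

lemma locF (h : W.a₁ = 0) (hPs : Ps.b = algebraMap F _ P.b) (hQ : Q.b = algebraMap F K P.b)
    (H : LocTriv W K ξ) (hξ : Dbl W ξ R) (e0 : phi Ps (bc1 h _) R = 0)
    (e : algebraMap F _ γ = ps Ps _ R) : LocF W (algebraMap F K) Q γ := by
  obtain ⟨Qs, hQs⟩ := Q.exists_sep (SeparableClosure K)
  obtain ⟨i, S, R₀, h1, -⟩ := loc_pt H hξ
  have h2 : Qs.b = i Ps.b := by rw [hPs, i.commutes, hQs, hQ, ← IsScalarTower.algebraMap_apply]
  have h0 : phi Qs (bc1 h _) (pm W i R) = 0 := by rw [phi_pm h i h2, e0, map_zero]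
  have h3 := phi_pm h (toSep F K) hQs R₀
  rw [h1, map_sub, phi_two, sub_zero, h0] at h3
  have h4 := (toSep F K).injective (h3.symm.trans (map_zero _).symm)
  have h5 := ps_pm (toSep F K) hQs R₀
  rw [h1, sub_eq_add_neg, ps_add (bc1 h _) h0 (by rw [map_neg, phi_two, neg_zero]), ps_neg,
    ps_two (bc1 h _), add_zero, ps_pm i h2, ← e, i.commutes, ← (toSep F K).commutes] at h5
  have h6 := (toSep F K).injective h5
  rcases R₀ with _ | ⟨x, y, hxy⟩
  · exact Or.inl ((algebraMap F K).injective (h6.trans (map_zero _).symm))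
  have h7 : x + algebraMap F K W.a₂ = Q.c0 (x + algebraMap F K W.a₂) ^ 2 := Q.eq_sq h4
  refine Or.inr ⟨Q.c0 (x + algebraMap F K W.a₂), y + x * Q.c0 (x + algebraMap F K W.a₂), ?_, h6⟩
  have h8 := eqn h hxy.1
  generalize Q.c0 (x + algebraMap F K W.a₂) = z at h7
  obtain rfl : x = z ^ 2 + algebraMap F K W.a₂ := by grind
  grind

end nat

variable {k : Type} [Field k] [Finite k] [CharP k 2] {W : WeierstrassCurve (RatFunc k)}

theorem sel_le (h : W.a₁ = 0) (h3 : W.a₃ ≠ 0) (T₁ T₂ : Finset (RatFunc k))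
    (h1 : ∀ γ, (∀ v : Pl k, LocV W (cmp v).f (QX v) γ) → γ ∈ T₁)
    (h2 : ∀ γ, (∀ v : Pl k, LocF W (cmp v).f (QX v) γ) → γ ∈ T₂) :
    selOrder W ≤ T₁.card * T₂.card := by
  obtain ⟨Ps, hPs⟩ := (PX k).exists_sep (SeparableClosure (RatFunc k))
  have hσ : ∀ σ : Gal (RatFunc k), Ps.b = σ.toAlgHom Ps.b := fun σ => by
    rw [hPs]; exact (σ.commutes _).symm
  have hR : ∀ {ξ R}, Dbl W ξ R → ∀ σ : Gal (RatFunc k), pm W σ.toAlgHom R = R + 2 • ξ σ :=
    fun hξ σ => by rw [hξ σ, add_sub_cancel]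
  refine le_trans (selOrder_le (T₁.image (algebraMap _ _)) T₂ (phi Ps (bc1 h _))
    (fun _ R γ => algebraMap _ _ γ = ps Ps _ R) (fun ξ hξ R hd => ?_) (fun ξ hξ R hd h0 => ?_)
    fun ξ R ξ' R' γ hd hd' e1 e2 e3 e4 => ?_) (Nat.mul_le_mul_right _ Finset.card_image_le)
  · obtain ⟨γ, hγ⟩ := (InfiniteGalois.mem_range_algebraMap_iff_fixed (k := RatFunc k)
      (phi Ps (bc1 h _) R)).2 fun σ => by
        have := phi_pm h σ.toAlgHom (hσ σ) R
        rw [hR hd, map_add, phi_two, add_zero] at this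
        exact this.symm
    refine Finset.mem_image.2 ⟨γ, h1 γ ?_, hγ⟩
    rintro (_ | v)
    · exact locV (K := RatFunc.CompletionAtInfty k) h hPs ((cmp none).Q_b _)
        (mem_cocyc.1 hξ).2.1 hd hγ
    · exact locV (K := v.adicCompletion (RatFunc k)) h hPs ((cmp (some v)).Q_b _)
        ((mem_cocyc.1 hξ).2.2 v) hd hγ
  · obtain ⟨γ, hγ⟩ := (InfiniteGalois.mem_range_algebraMap_iff_fixed (k := RatFunc k)
      (ps Ps _ R)).2 fun σ => by
        have := ps_pm σ.toAlgHom (hσ σ) R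
        rw [hR hd, ps_add (bc1 h _) h0 (phi_two _ _), ps_two (bc1 h _), add_zero] at this
        exact this.symm
    refine ⟨γ, h2 γ ?_, hγ⟩
    rintro (_ | v)
    · exact locF (K := RatFunc.CompletionAtInfty k) h hPs ((cmp none).Q_b _)
        (mem_cocyc.1 hξ).2.1 hd h0 hγ
    · exact locF (K := v.adicCompletion (RatFunc k)) h hPs ((cmp (some v)).Q_b _)
        ((mem_cocyc.1 hξ).2.2 v) hd h0 hγ
  · obtain ⟨S, hS⟩ := exists_half (P := Ps) (R := R - R') (bc1 h _) (bc3 h3 _)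
      (by rw [map_sub, e1, e2, sub_zero]) (by
        rw [sub_eq_add_neg, ps_add (bc1 h _) e1 (by rw [map_neg, e2, neg_zero]), ps_neg, ← e3, ← e4,
          CharTwo.add_self_eq_zero])
    refine ⟨S, fun σ => two_inj (bc1 h _) (bc3 h3 _) ?_, hS⟩
    rw [(hd.sub hd') σ, hS, map_nsmul, nsmul_sub]

end Pool.Agent.Lib.MP_a3f657_nt.Two.Exc.Ss
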