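import Pool.Agent.Lib.MP_a3f657_nt.C2XSsA

/-!
The bound for supersingular curves.
-/

set_option linter.unusedSectionVars false

namespace Pool.Agent.Lib.MP_a3f657_nt.Two.Exc

open Polynomial Bad

open scoped Classical

namespace Ss

section loc

variable {K : Type} [Field K] [CharP K 2] {w : Valuation K (WithZero (Multiplicative ℤ))}
  {Q : PB K} {ε e : ℤ} {a₂ a₃ a₄ a₆ x y z γ : K}

lemma m00 (hx : x ∈ Fil w 0) (hy : y ∈ Fil w 0) : x * y ∈ Fil w 0 := Fil.mul hx hy le_rfl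

lemma m10 (hx : x ∈ Fil w 1) (hy : y ∈ Fil w 0) : x * y ∈ Fil w 1 := Fil.mul hx hy le_rfl

lemma p0 (n : ℕ) (hx : x ∈ Fil w 0) : x ^ n ∈ Fil w 0 := Fil.pow hx n (by simp)

lemma D_add_sq (x u : K) : Q.D (x + u ^ 2 + 0 * u) = Q.D x := by simp [PB.D_add]

lemma v_mem (hD : ∀ (x : K) (a c : ℤ), x ∈ Fil w a → c ≤ 2 * (a / 2) + 2 * ε → Q.D x ∈ Fil w c)
    (h2 : a₂ ∈ Fil w (2 * e)) (h3 : a₃ ∈ Fil w (3 * e)) (h4 : a₄ ∈ Fil w (4 * e))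
    (h6 : a₆ ∈ Fil w (6 * e)) (eq : y ^ 2 + a₃ * y = x ^ 3 + a₂ * x ^ 2 + a₄ * x + a₆) :
    Q.c1 (x + a₂) ∈ Fil w (e + ε) := by
  refine Fil.of_sq (a := 2 * e + 2 * ε) ?_ (by omega)
  rcases pt_cases (a₁ := 0) (zero_mem _) h2 h3 h4 h6 (x := x) (y := y) (by simpa using eq) with
    ⟨hx, -⟩ | ⟨m, hm, -, -, -, h⟩
  · exact hD _ _ _ (add_mem hx h2) (by omega)
  · have := hD _ _ (2 * e + 2 * ε) (h 0 (by simpa using h3) (by omega)) (by omega)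
    rwa [D_add_sq] at this

lemma v_cong (hD : ∀ (x : K) (a c : ℤ), x ∈ Fil w a → c ≤ 2 * (a / 2) → Q.D x ∈ Fil w c)
    (h2 : a₂ ∈ Fil w 0) (h3 : a₃ ∈ Fil w 1) (h4 : a₄ ∈ Fil w 0)
    (h6 : a₆ ∈ Fil w 0) (eq : y ^ 2 + a₃ * y = x ^ 3 + a₂ * x ^ 2 + a₄ * x + a₆)
    (hγ : γ = Q.c1 (x + a₂)) (hn : γ ∉ Fil w 1) : x ∈ Fil w 0 ∧ y ∈ Fil w 0 ∧
    ∀ x₀ y₀, x + x₀ ∈ Fil w 1 → y + y₀ ∈ Fil w 1 →
      y₀ ^ 2 + x₀ ^ 3 + a₂ * x₀ ^ 2 + a₄ * x₀ + a₆ ∈ Fil w 1 ∧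
      Q.D a₃ * y₀ + γ ^ 2 * x₀ ^ 2 + Q.D a₄ * x₀ + a₄ * (γ ^ 2 + Q.D a₂) + Q.D a₆ ∈ Fil w 1 := by
  have h3' : a₃ ∈ Fil w 0 := Fil.mono h3 (by omega)
  have hg : γ ^ 2 = Q.D (x + a₂) := by rw [hγ]; rfl
  rcases pt_cases (e := 0) (a₁ := 0) (zero_mem _) h2 h3' h4 h6 (x := x) (y := y)
    (by simpa using eq) with ⟨hx, hy⟩ | ⟨m, hm, -, -, -, h⟩
  swap
  · have := hD _ _ 2 (h 1 h3 le_rfl) (by omega)
    rw [D_add_sq, ← hg] at this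
    exact absurd (Fil.of_sq this (by omega)) hn
  change x ∈ Fil w 0 at hx
  change y ∈ Fil w 0 at hy
  refine ⟨hx, hy, fun x₀ y₀ h7 h8 => ?_⟩
  obtain ⟨δ, rfl⟩ : ∃ δ, x₀ = x + δ := ⟨x + x₀, by grind⟩
  obtain ⟨η, rfl⟩ : ∃ η, y₀ = y + η := ⟨y + y₀, by grind⟩
  rw [← add_assoc, two_K, zero_add] at h7 h8
  have h7' : δ ∈ Fil w 0 := Fil.mono h7 (by omega)
  have h8' : η ∈ Fil w 0 := Fil.mono h8 (by omega)
  have d0 : ∀ x ∈ Fil w 0, Q.D x ∈ Fil w 0 := fun x hx => hD x 0 0 hx (by omega)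
  have hγ0 : γ ^ 2 ∈ Fil w 0 := hg ▸ d0 _ (add_mem hx h2)
  have e1 := congrArg Q.D eq
  rw [show x ^ 3 = x ^ 2 * x by ring, mul_comm a₂] at e1
  simp only [PB.D_add, PB.D_sq_mul, PB.D_sq, Q.D_mul a₃, Q.D_mul a₄] at e1 hg
  constructor
  · rw [show (y + η) ^ 2 + (x + δ) ^ 3 + a₂ * (x + δ) ^ 2 + a₄ * (x + δ) + a₆ =
      a₃ * y + η * η + δ * (x ^ 2 + x * δ + δ ^ 2 + a₂ * δ + a₄) by grind]
    exact add_mem (add_mem (m10 h3 hy) (m10 h8 h8'))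
      (m10 h7 (by apply_rules [add_mem, m00, p0]))
  · rw [show Q.D a₃ * (y + η) + γ ^ 2 * (x + δ) ^ 2 + Q.D a₄ * (x + δ) + a₄ * (γ ^ 2 + Q.D a₂) +
      Q.D a₆ = a₃ * Q.D y + η * Q.D a₃ + δ * (γ ^ 2 * δ + Q.D a₄) by grind]
    exact add_mem (add_mem (m10 h3 (d0 _ hy)) (m10 h8 (d0 _ h3')))
      (m10 h7 (add_mem (m00 hγ0 h7') (d0 _ h4)))

lemma f_eq (eq : y ^ 2 + a₃ * y = a₃ * z ^ 3 + a₄ * z ^ 2 + a₂ * a₃ * z + (a₂ * a₄ + a₆)) :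
    (a₃ * y) ^ 2 + a₃ ^ 2 * (a₃ * y) = (a₃ * z) ^ 3 + a₄ * (a₃ * z) ^ 2 + a₂ * a₃ ^ 2 * (a₃ * z) +
      a₃ ^ 2 * (a₂ * a₄ + a₆) := by linear_combination a₃ ^ 2 * eq

lemma f_der (eq : y ^ 2 + a₃ * y = a₃ * z ^ 3 + a₄ * z ^ 2 + a₂ * a₃ * z + (a₂ * a₄ + a₆)) :
    Q.D (a₃ * y + a₆ + a₂ * (a₃ * z + a₄)) = Q.D (a₃ * z + a₄) * z ^ 2 := by
  rw [show a₃ * y + a₆ + a₂ * (a₃ * z + a₄) = y ^ 2 + z ^ 2 * (a₃ * z + a₄) by grind, PB.D_add,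
    PB.D_sq, PB.D_sq_mul, zero_add, mul_comm]

lemma f_cases (hD : ∀ (x : K) (a c : ℤ), x ∈ Fil w a → c ≤ 2 * (a / 2) → Q.D x ∈ Fil w c) {n : ℤ}
    (hn : 0 ≤ n) (h2 : a₂ ∈ Fil w 0) (h3 : a₃ ∈ Fil w n) (h4 : a₄ ∈ Fil w 0) (h6 : a₆ ∈ Fil w 0)
    (eq : y ^ 2 + a₃ * y = a₃ * z ^ 3 + a₄ * z ^ 2 + a₂ * a₃ * z + (a₂ * a₄ + a₆))
    (hγ : γ = Q.c1 (a₃ * z + a₄)) : (a₃ * z ∈ Fil w 0 ∧ γ * z ∈ Fil w 0) ∨ γ ∈ Fil w n := by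
  have h3' : a₃ ∈ Fil w 0 := Fil.mono h3 hn
  have hg : γ ^ 2 = Q.D (a₃ * z + a₄) := by rw [hγ]; rfl
  have hd := f_der (Q := Q) eq
  rw [← hg, ← mul_pow] at hd
  rcases pt_cases (e := 0) (a₁ := 0) (zero_mem _) h4 (p0 2 h3') (m00 h2 (p0 2 h3'))
    (m00 (p0 2 h3') (add_mem (m00 h2 h4) h6)) (x := a₃ * z) (y := a₃ * y)
    (by simpa using f_eq eq) with ⟨hx, hy⟩ | ⟨m, hm, h0, h1, hy, -⟩
  · refine Or.inl ⟨hx, Fil.of_sq (a := 0) ?_ (by omega)⟩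
    rw [← hd]
    exact hD _ 0 _ (add_mem (add_mem hy h6) (m00 h2 (add_mem hx h4))) (by omega)
  · have h5 : (γ * z) ^ 2 ∈ Fil w (-3 * m - 1) := by
      rw [← hd]
      exact hD _ (-3 * m) _ (add_mem (add_mem (Fil.mono hy (by omega)) (Fil.mono h6 (by omega)))
        (Fil.mul h2 (add_mem (mem_Fil_ord _) (Fil.mono h4 (by omega))) (by omega))) (by omega)
    have h7 : γ ^ 2 * (a₃ * z) ^ 2 ∈ Fil w (2 * n - 3 * m - 1) := by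
      rw [show γ ^ 2 * (a₃ * z) ^ 2 = a₃ ^ 2 * (γ * z) ^ 2 by ring]
      exact Fil.mul (Fil.sq h3 le_rfl) h5 (by omega)
    exact Or.inr (Fil.of_sq (Fil.of_mul h7 (pow_ne_zero 2 h0) (c := 2 * n)
      (by rw [ord_sq]; omega)) (by omega))

lemma f_one (hD : ∀ (x : K) (a c : ℤ), x ∈ Fil w a → c ≤ 2 * (a / 2) → Q.D x ∈ Fil w c) {j : ℤ}
    (hj : 0 ≤ j) (h2 : a₂ ∈ Fil w 0) (h3 : a₃ ∈ Fil w (2 * j)) (h4 : a₄ ∈ Fil w 0)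
    (h6 : a₆ ∈ Fil w 0)
    (eq : y ^ 2 + a₃ * y = a₃ * z ^ 3 + a₄ * z ^ 2 + a₂ * a₃ * z + (a₂ * a₄ + a₆))
    (hγ : γ = Q.c1 (a₃ * z + a₄)) (h0 : γ ∈ Fil w 0) :
    γ ^ 2 * (γ ^ 2 + Q.D a₄) ∈ Fil w (2 * j) := by
  by_cases hz : γ = 0
  · simp [hz]
  rcases f_cases hD (by omega) h2 h3 h4 h6 eq hγ with ⟨-, h⟩ | h
  · have hg : γ ^ 2 + Q.D a₄ = Q.D (a₃ * z) := by
      have : γ ^ 2 = Q.D (a₃ * z + a₄) := by rw [hγ]; rfl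
      rw [this, PB.D_add, add_assoc, two_K, add_zero]
    have h5 : a₃ * z * γ ∈ Fil w (2 * j) := by
      rw [mul_assoc, mul_comm z]
      exact Fil.mul h3 h (by omega)
    have h7 := (mem_Fil_iff hz).1 h0
    rw [hg]
    exact Fil.mul (Fil.sq (mem_Fil_ord γ) le_rfl) (hD _ _ _ (Fil.of_mul h5 hz le_rfl) le_rfl)
      (by omega)
  · exact Fil.mul (Fil.sq h le_rfl) (add_mem (p0 2 h0) (hD _ 0 0 h4 (by omega))) (by omega)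

lemma f_two (hD : ∀ (x : K) (a c : ℤ), x ∈ Fil w a → c ≤ 2 * (a / 2) → Q.D x ∈ Fil w c)
    (h2 : a₂ ∈ Fil w 0) (h3 : a₃ ∈ Fil w 1) (h4 : a₄ ∈ Fil w 0) (h6 : a₆ ∈ Fil w 0)
    (eq : y ^ 2 + a₃ * y = a₃ * z ^ 3 + a₄ * z ^ 2 + a₂ * a₃ * z + (a₂ * a₄ + a₆))
    (hγ : γ = Q.c1 (a₃ * z + a₄)) (h0 : γ ∈ Fil w 0) (hn : γ ∉ Fil w 1) :
    z ∈ Fil w 0 ∧ y ∈ Fil w 0 ∧ ∀ z₀ y₀, z + z₀ ∈ Fil w 1 → y + y₀ ∈ Fil w 1 →
      y₀ ^ 2 + a₄ * z₀ ^ 2 + a₂ * a₄ + a₆ ∈ Fil w 1 ∧ γ ^ 2 + Q.D a₃ * z₀ + Q.D a₄ ∈ Fil w 1 ∧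
      Q.D a₃ * y₀ + γ ^ 2 * (z₀ ^ 2 + a₂) + a₄ * Q.D a₂ + Q.D a₆ ∈ Fil w 1 := by
  have h3' : a₃ ∈ Fil w 0 := Fil.mono h3 (by omega)
  obtain ⟨-, h5⟩ := (f_cases hD (by omega) h2 h3 h4 h6 eq hγ).resolve_right hn
  obtain ⟨g1, g2⟩ := ord_eq_of h0 hn
  have hz : z ∈ Fil w 0 := Fil.of_mul (mul_comm γ z ▸ h5) g1 (by omega)
  have hy : y ∈ Fil w 0 := by
    by_contra hy
    obtain ⟨c2, c3, c4⟩ := Loc.ord_quad h3' hy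
    have c5 : y * (y + a₃) ∈ Fil w 0 := by
      rw [show y * (y + a₃) = a₃ * z ^ 3 + a₄ * z ^ 2 + a₂ * a₃ * z + (a₂ * a₄ + a₆) by
        linear_combination eq]
      apply_rules [add_mem, m00, p0]
    rw [mem_Fil_iff c2] at c5
    omega
  refine ⟨hz, hy, fun z₀ y₀ h7 h8 => ?_⟩
  obtain ⟨δ, rfl⟩ : ∃ δ, z₀ = z + δ := ⟨z + z₀, by grind⟩
  obtain ⟨η, rfl⟩ : ∃ η, y₀ = y + η := ⟨y + y₀, by grind⟩
  rw [← add_assoc, two_K, zero_add] at h7 h8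
  have h7' : δ ∈ Fil w 0 := Fil.mono h7 (by omega)
  have h8' : η ∈ Fil w 0 := Fil.mono h8 (by omega)
  have d0 : ∀ x ∈ Fil w 0, Q.D x ∈ Fil w 0 := fun x hx => hD x 0 0 hx (by omega)
  have hg : γ ^ 2 = Q.D (a₃ * z + a₄) := by rw [hγ]; rfl
  have hd := f_der (Q := Q) eq
  rw [PB.D_add, PB.D_add, Q.D_mul a₂, ← hg, PB.D_mul] at hd
  rw [PB.D_add, PB.D_mul] at hg
  refine ⟨?_, ?_, ?_⟩
  · rw [show (y + η) ^ 2 + a₄ * (z + δ) ^ 2 + a₂ * a₄ + a₆ =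
      a₃ * (y + z ^ 3 + a₂ * z) + η * η + δ * (a₄ * δ) by grind]
    exact add_mem (add_mem (m10 h3 (by apply_rules [add_mem, m00, p0])) (m10 h8 h8'))
      (m10 h7 (m00 h4 h7'))
  · rw [show γ ^ 2 + Q.D a₃ * (z + δ) + Q.D a₄ = a₃ * Q.D z + δ * Q.D a₃ by grind]
    exact add_mem (m10 h3 (d0 _ hz)) (m10 h7 (d0 _ h3'))
  · rw [show Q.D a₃ * (y + η) + γ ^ 2 * ((z + δ) ^ 2 + a₂) + a₄ * Q.D a₂ + Q.D a₆ =
      a₃ * (Q.D y + z * Q.D a₂) + η * Q.D a₃ + δ * (γ ^ 2 * δ) by grind]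
    exact add_mem (add_mem (m10 h3 (add_mem (d0 _ hy) (m00 hz (d0 _ h2)))) (m10 h8 (d0 _ h3')))
      (m10 h7 (m00 (p0 2 h0) h7'))

end loc

variable {k : Type} [Field k] [Fintype k] [CharP k 2] {d : ℕ} {a : WeierstrassCurve k[X]}

/-- Half the order of the derivative of the uniformizer. -/
def eH : Pl k → ℤ
  | none => 1
  | some _ => 0

lemma hD (v : Pl k) (x : (cmp v).K) (b c : ℤ) (hx : x ∈ Fil (cmp v).L'.w b)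
    (h : c ≤ 2 * (b / 2) + 2 * eH v) : (QX v).D x ∈ Fil (cmp v).L'.w c :=
  QX_mem hx (by cases v <;> simpa [eD, eH] using h)

lemma hD0 (v : IsDedekindDomain.HeightOneSpectrum k[X]) (x : (cmp (some v)).K) (b c : ℤ)
    (hx : x ∈ Fil (cmp (some v)).L'.w b) (h : c ≤ 2 * (b / 2)) :
    (QX (some v)).D x ∈ Fil (cmp (some v)).L'.w c := QX_mem hx (by simpa [eD] using h)

lemma int0 (v : IsDedekindDomain.HeightOneSpectrum k[X]) (b : k[X]) :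
    (cmp (some v)).f (ι b) ∈ Fil (cmp (some v)).L'.w 0 := f_mem.2 (ι_int v b)

lemma memV (ha : DegLE a d) {γ : RatFunc k}
    (h : ∀ v : Pl k, LocV (a.baseChange (RatFunc k)) (cmp v).f (QX v) γ) :
    γ ∈ ((PL k d).filter (CondV a)).image ι := by
  by_cases h0 : γ = 0
  · exact Finset.mem_image.2 ⟨0, Finset.mem_filter.2 ⟨mem_PL_iff.2 (Or.inl rfl),
      fun p _ _ _ hp => absurd (dvd_zero p) hp⟩, by simp [h0]⟩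
  have h1 : ∀ v, γ ∈ Fil (val v) (lev d v + eH v) := fun v => by
    obtain ⟨x, y, e1, e2⟩ := (h v).resolve_left h0
    rw [← f_mem, e2]
    exact v_mem (hD v) (ι_lev v 2 ha.2.1) (ι_lev v 3 ha.2.2.1) (ι_lev v 4 ha.2.2.2.1)
      (ι_lev v 6 ha.2.2.2.2) e1
  obtain ⟨g, hg, rfl⟩ := exists_PL (n := d) (fun v => h1 (some v))
    (Fil.mono (h1 none) (by simp only [lev, eH]; omega))
  refine Finset.mem_image.2 ⟨g, Finset.mem_filter.2 ⟨hg, fun p hm hp h3 hn => ?_⟩, rfl⟩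
  obtain ⟨x, y, e1, e2⟩ := (h (some (ofIrr p hp))).resolve_left h0
  have key : ∀ b : k[X], (cmp (some (ofIrr p hp))).f (ι b) ∈ Fil (cmp (some (ofIrr p hp))).L'.w 1 ↔
      p ∣ b := fun b => by simpa using dvd_of_mem hp hm (a := b) (n := 1)
  obtain ⟨hx, hy, H⟩ := v_cong (hD0 _) (int0 _ a.a₂) ((key _).2 h3) (int0 _ a.a₄) (int0 _ a.a₆)
    e1 e2 fun e => hn ((key _).1 e)
  obtain ⟨x₀, hx₀⟩ := approx hx
  obtain ⟨y₀, hy₀⟩ := approx hy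
  obtain ⟨H1, H2⟩ := H _ _ hx₀ hy₀
  simp only [QX_ι] at H2
  refine ⟨x₀, y₀, (key _).1 ?_, (key _).1 ?_⟩ <;> simp only [ι, map_add, map_mul, map_pow]
  exacts [H1, H2]

lemma memF (ha : DegLE a d) {γ : RatFunc k}
    (h : ∀ v : Pl k, LocF (a.baseChange (RatFunc k)) (cmp v).f (QX v) γ) :
    γ ∈ insert 0 (((PL k (2 * d)).filter fun γ => γ ≠ 0 ∧ CondF a γ).image ι) := by
  by_cases h0 : γ = 0
  · exact Finset.mem_insert.2 (Or.inl h0)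
  have h1 : ∀ v, γ ∈ Fil (val v) (2 * lev d v + eH v) := fun v => by
    obtain ⟨z, y, e1, e2⟩ := (h v).resolve_left h0
    have c2 := ι_lev v 2 ha.2.1
    have c3 := ι_lev v 3 ha.2.2.1
    have c4 := ι_lev v 4 ha.2.2.2.1
    have c6 := ι_lev v 6 ha.2.2.2.2
    push_cast at c2 c3 c4 c6
    rw [← f_mem, e2]
    exact v_mem (hD v) (Fil.mono c4 (by omega)) (Fil.sq c3 (by omega))
      (Fil.mul c2 (Fil.sq c3 le_rfl) (by omega))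
      (Fil.mul (Fil.sq c3 le_rfl) (add_mem (Fil.mul c2 c4 (by omega)) c6) (by omega)) (f_eq e1)
  obtain ⟨g, hg, rfl⟩ := exists_PL (n := 2 * d) (fun v => h1 (some v))
    (Fil.mono (h1 none) (by simp only [lev, eH]; push_cast; omega))
  refine Finset.mem_insert_of_mem (Finset.mem_image.2 ⟨g, Finset.mem_filter.2
    ⟨hg, fun e => h0 (by simp [e]), fun p hm hp j h3 => ?_, fun p hm hp h3 hn => ?_⟩, rfl⟩)
  · obtain ⟨z, y, e1, e2⟩ := (h (some (ofIrr p hp))).resolve_left h0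
    have H := f_one (hD0 _) (j := j) (by omega) (int0 _ a.a₂)
      (by exact_mod_cast (dvd_of_mem hp hm).2 h3) (int0 _ a.a₄) (int0 _ a.a₆) e1 e2 (int0 _ g)
    simp only [QX_ι] at H
    refine (dvd_of_mem hp hm).1 ?_
    simp only [ι, map_add, map_mul, map_pow]
    exact_mod_cast H
  obtain ⟨z, y, e1, e2⟩ := (h (some (ofIrr p hp))).resolve_left h0
  have key : ∀ b : k[X], (cmp (some (ofIrr p hp))).f (ι b) ∈ Fil (cmp (some (ofIrr p hp))).L'.w 1 ↔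
      p ∣ b := fun b => by simpa using dvd_of_mem hp hm (a := b) (n := 1)
  obtain ⟨hz, hy, H⟩ := f_two (hD0 _) (int0 _ a.a₂) ((key _).2 h3) (int0 _ a.a₄) (int0 _ a.a₆)
    e1 e2 (int0 _ g) fun e => hn ((key _).1 e)
  obtain ⟨z₀, hz₀⟩ := approx hz
  obtain ⟨y₀, hy₀⟩ := approx hy
  obtain ⟨H1, H2, H3⟩ := H _ _ hz₀ hy₀
  simp only [QX_ι] at H2 H3
  refine ⟨z₀, y₀, (key _).1 ?_, (key _).1 ?_, (key _).1 ?_⟩ <;>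
    simp only [ι, map_add, map_mul, map_pow]
  exacts [H1, H2, H3]

end Ss

theorem selSS : SelSS := by
  intro k _ _ _ d a ha h1 h3
  refine (Ss.sel_le (by simp [WeierstrassCurve.baseChange, h1])
    (by simpa [WeierstrassCurve.baseChange] using h3) _ _ (fun γ => Ss.memV ha)
    fun γ => Ss.memF ha).trans (Nat.mul_le_mul Finset.card_image_le
      ((Finset.card_insert_le _ _).trans (Nat.succ_le_succ Finset.card_image_le)))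

end Pool.Agent.Lib.MP_a3f657_nt.Two.Exc
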