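import Pool.Agent.Lib.MP_a3f657_nt.C2XDefs

/-!
The curves whose `j`-invariant is a square do not contribute to the average.
-/

namespace Pool.Agent.Lib.MP_a3f657_nt.Two.Exc

open Polynomial Filter Topology Bad

open scoped Classical

namespace SumA

lemma card_pairs {α β : Type} (s : Finset α) (t : Finset β) (r : α → β → Prop)
    [∀ a, DecidablePred (r a)] [DecidablePred fun x : α × β => r x.1 x.2] :
    ((s ×ˢ t).filter fun x => r x.1 x.2).card = ∑ a ∈ s, (t.filter (r a)).card := by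
  simp only [Finset.card_filter, Finset.sum_product]
  exact Finset.sum_congr rfl fun _ _ => Finset.sum_congr rfl fun _ _ => by congr

variable {k : Type} [Field k] [Fintype k] [CharP k 2]

lemma der_zero {a : WeierstrassCurve k[X]} (h : IsSquare (ι a.Δ)) : derivative a.Δ = 0 := by
  obtain ⟨r, hr⟩ := h
  have h1 := D_ι a.Δ
  rw [hr, ← pow_two, PB.D_sq] at h1
  exact (map_eq_zero_iff _ (IsFractionRing.injective k[X] (RatFunc k))).1 h1.symm

lemma sq_disc {a : WeierstrassCurve k[X]} (h1 : a.a₁ ≠ 0) (h : IsSquare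
    ((a.baseChange (RatFunc k)).c₄ ^ 3 / (a.baseChange (RatFunc k)).Δ)) : IsSquare (ι a.Δ) := by
  rw [j_eq, isSquare_inv, nB] at h
  obtain ⟨r, hr⟩ := h
  have h2 : (a.baseChange (RatFunc k)).a₁ ≠ 0 := ι_ne h1
  rw [div_eq_iff (pow_ne_zero _ h2), WeierstrassCurve.baseChange, WeierstrassCurve.map_Δ] at hr
  exact ⟨r * (a.map (algebraMap k[X] (RatFunc k))).a₁ ^ 6, hr.trans (by ring)⟩

lemma bd_six (d : ℕ) {u : k[X]} (hu : u ≠ 0) (c : k[X]) :
    Bd (fun f : k[X] => f ∈ PL k (2 * (3 * d) + 1) ∧ derivative (u ^ 6 * f + c) = 0)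
      ((Fintype.card k : ℝ) ^ (3 * d + 1)) := by
  have h2 : (C 2 : k[X]) = 0 := by rw [CharTwo.two_eq_zero, map_zero]
  have h6 : derivative (u ^ 6) = 0 := by
    rw [show u ^ 6 = (u ^ 3) ^ 2 by ring, derivative_sq, h2, zero_mul, zero_mul]
  by_cases h : ∃ f₀ : k[X], derivative (u ^ 6 * f₀ + c) = 0
  · obtain ⟨f₀, h0⟩ := h
    refine ((bd_PL (3 * d + 1)).image fun g => g ^ 2 + X * derivative f₀).mono ?_
    rintro f ⟨hf, h1⟩
    obtain ⟨h, -, g, hg, e⟩ := exists_gh _ hf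
    refine ⟨g, hg, ?_⟩
    have e1 : derivative f = h ^ 2 := by
      rw [e]
      simp only [derivative_add, derivative_mul, derivative_X, derivative_sq, h2]
      ring
    rw [derivative_add, derivative_mul, h6] at h0 h1
    have e2 : derivative f = derivative f₀ :=
      mul_left_cancel₀ (pow_ne_zero 6 hu) (by linear_combination h1 - h0)
    rw [← e2, e1, ← e]
  · exact Bd.empty (fun f hf => h ⟨f, hf.2⟩) (pow_pos q_pos _).le

lemma bd_ord (d : ℕ) : Bd (fun a : WeierstrassCurve k[X] =>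
    DegLE a d ∧ a.a₁ ≠ 0 ∧ derivative a.Δ = 0) ((Fintype.card k : ℝ) ^ (13 * d + 5)) := by
  have hq := (q_pos (k := k)).le
  have h1 := (((bd_PL (k := k) (d + 1)).fib (R := fun _ f => f ∈ PL k (3 * d + 1))
    (fun _ _ => bd_PL _) (by positivity)).fib
    (R := fun _ (y : k[X] × k[X]) => y.1 ∈ PL k (2 * d + 1) ∧ y.2 ∈ PL k (4 * d + 1))
    (fun _ _ => (bd_PL _).fib (R := fun _ f => f ∈ PL k (4 * d + 1)) (fun _ _ => bd_PL _)
      (by positivity)) (by positivity))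
  have h2 := (h1.mono (P := fun y : (k[X] × k[X]) × k[X] × k[X] => y.1.1 ≠ 0 ∧
      (y.1.1 ∈ PL k (d + 1) ∧ y.1.2 ∈ PL k (3 * d + 1)) ∧ y.2.1 ∈ PL k (2 * d + 1) ∧
        y.2.2 ∈ PL k (4 * d + 1)) fun _ h => h.2).fib
    (R := fun y f => f ∈ PL k (2 * (3 * d) + 1) ∧ derivative (y.1.1 ^ 6 * f + c0 y) = 0)
    (fun y hy => bd_six d hy.1 _) (by positivity)
  refine ((h2.image fun x => (⟨x.1.1.1, x.1.2.1, x.1.1.2, x.1.2.2, x.2⟩ :
    WeierstrassCurve k[X])).mono ?_).le (le_of_eq (by ring))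
  rintro a ⟨⟨b1, b2, b3, b4, b6⟩, h3, h4⟩
  refine ⟨(((a.a₁, a.a₃), a.a₂, a.a₄), a.a₆), ⟨⟨h3, ⟨mem_PL_succ.2 b1, mem_PL_succ.2 b3⟩,
    mem_PL_succ.2 b2, mem_PL_succ.2 b4⟩, mem_PL_succ.2 (b6.trans (by omega)), ?_⟩, rfl⟩
  rwa [disc_c0] at h4

omit [CharP k 2] in
lemma ev_small {ε : ℝ} (hε : 0 < ε) : ∀ᶠ d : ℕ in atTop,
    (Fintype.card k : ℝ) ^ 6 * (3 / 2) ^ d ≤ ε * (Fintype.card k : ℝ) ^ d := by
  filter_upwards [(tendsto_pow_atTop_atTop_of_one_lt (show (1 : ℝ) < 4 / 3 by norm_num)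
    ).eventually_ge_atTop ((Fintype.card k : ℝ) ^ 6 / ε)] with d hd
  rw [div_le_iff₀ hε] at hd
  calc _ ≤ (4 / 3) ^ d * ε * (3 / 2) ^ d := by gcongr
    _ = ε * 2 ^ d := by rw [mul_right_comm, ← mul_pow, mul_comm]; norm_num
    _ ≤ _ := by gcongr; exact two_le_q

omit [Fintype k] [CharP k 2] in
lemma j_smul (C : WeierstrassCurve.VariableChange (RatFunc k)) (W : WeierstrassCurve (RatFunc k)) :
    (C • W).c₄ ^ 3 / (C • W).Δ = W.c₄ ^ 3 / W.Δ := by
  rw [WeierstrassCurve.variableChange_c₄, WeierstrassCurve.variableChange_Δ, mul_pow, ← pow_mul]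
  exact mul_div_mul_left _ _ (pow_ne_zero _ (Units.ne_zero _))

omit [Fintype k] [CharP k 2] in
lemma Δ_smul (C : WeierstrassCurve.VariableChange (RatFunc k)) {W : WeierstrassCurve (RatFunc k)}
    (h : W.Δ ≠ 0) : (C • W).Δ ≠ 0 := by
  rw [WeierstrassCurve.variableChange_Δ]
  exact mul_ne_zero (pow_ne_zero _ (Units.ne_zero _)) h

omit [Fintype k] [CharP k 2] in
lemma Δ_base {a : WeierstrassCurve k[X]} : (a.baseChange (RatFunc k)).Δ ≠ 0 ↔ a.Δ ≠ 0 := by
  rw [WeierstrassCurve.baseChange, WeierstrassCurve.map_Δ]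
  exact (map_ne_zero_iff _ (IsFractionRing.injective k[X] (RatFunc k)))

/-- The classes counted by `num`. -/
def Cl (P : WeierstrassCurve (RatFunc k) → Prop) (d : ℕ) : Set (MulAction.orbitRel.Quotient
    (WeierstrassCurve.VariableChange (RatFunc k)) (WeierstrassCurve (RatFunc k))) :=
  {c | ∃ W, Quotient.mk'' W = c ∧ W.Δ ≠ 0 ∧ HeightLE W d ∧ P W}

omit [Fintype k] [CharP k 2] in
lemma Cl_sub {P : WeierstrassCurve (RatFunc k) → Prop}
    (hP : ∀ (C : WeierstrassCurve.VariableChange (RatFunc k)) W, W.Δ ≠ 0 → P W → P (C • W))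
    (d : ℕ) : Cl P d ⊆ clq '' {a | DegLE a d ∧ a.Δ ≠ 0 ∧ P (a.baseChange (RatFunc k))} := by
  rintro _ ⟨W, rfl, h1, ⟨C, a, h2, h3⟩, h4⟩
  exact ⟨a, ⟨h2, Δ_base.1 (h3 ▸ Δ_smul C h1), h3 ▸ hP C W h1 h4⟩,
    Quotient.eq''.2 (MulAction.orbitRel_apply.2 ⟨C, h3⟩)⟩

omit [CharP k 2] in
lemma Cl_fin (P : WeierstrassCurve (RatFunc k) → Prop) (d : ℕ) : (Cl P d).Finite :=
  (((finite_degLE d).subset fun _ h => h.1).image clq).subset fun _ ⟨W, h1, h2, h3, _⟩ =>
    Cl_sub (P := fun _ => True) (fun _ _ _ _ => trivial) d ⟨W, h1, h2, h3, trivial⟩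

lemma num_le {P : WeierstrassCurve (RatFunc k) → Prop}
    (hP : ∀ (C : WeierstrassCurve.VariableChange (RatFunc k)) W, W.Δ ≠ 0 → P W → P (C • W))
    (d : ℕ) : num P d * Fintype.card k ^ (6 * d + 3) ≤ 8 * {a : WeierstrassCurve k[X] |
      DegLE a d ∧ a.Δ ≠ 0 ∧ P (a.baseChange (RatFunc k))}.ncard := by
  have hX : {a : WeierstrassCurve k[X] |
      DegLE a d ∧ a.Δ ≠ 0 ∧ P (a.baseChange (RatFunc k))}.Finite :=
    (finite_degLE d).subset fun _ h => h.1
  refine le_trans (Nat.mul_le_mul_right _ (Set.ncard_le_ncard (Cl_sub hP d) (hX.image _)))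
    (mul_le_ncard hX clq fun a ha => ?_)
  have h2 := orbit_mul_stab d a
  have h3 : (MulAction.orbit (Grp k d) a).ncard ≤ {a' ∈ {a : WeierstrassCurve k[X] |
      DegLE a d ∧ a.Δ ≠ 0 ∧ P (a.baseChange (RatFunc k))} | clq a' = clq a}.ncard := by
    refine Set.ncard_le_ncard ?_ (hX.subset fun _ h => h.1)
    rintro _ ⟨C, rfl⟩
    obtain ⟨C', hC⟩ := cls_eq.1 (cls_smul C.1 a)
    exact ⟨⟨ha.1.smul C, fun h => ha.2.1 (cls_Δ (cls_smul C.1 a).symm h),
      hC ▸ hP C' _ (Δ_base.2 ha.2.1) ha.2.2⟩, cls_smul C.1 a⟩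
  have h4 : Nat.card (MulAction.stabilizer (Grp k d) a) ≤ Nat.card k[X]ˣ * 8 := by
    by_cases h : a.a₁ = 0
    · exact card_stab_zero d h
    · rw [card_stab_min ha.1 h]
      have : 0 < Nat.card k[X]ˣ := Nat.card_pos
      omega
  refine Nat.le_of_mul_le_mul_left (c := Nat.card k[X]ˣ) ?_ Nat.card_pos
  rw [← card_Grp, ← h2, ← mul_assoc, mul_comm]
  exact Nat.mul_le_mul h4 h3

end SumA

open SumA

theorem tupSum (h1 : TauB) (h2 : CntV) (h3 : CntF) (h4 : SelSS) (h5 : SelOrd) : TupSum := by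
  intro k _ _ _ ε hε
  have hq := q_pos (k := k)
  filter_upwards [h1 k (3 / 2) (by norm_num) 13, h2 k (ε / 3) (by positivity),
    h3 k (ε / 3) (by positivity), ev_small (k := k) (ε := ε / 3) (by positivity)]
    with d h1 h2 h3 h6
  set E := (Avg.DD k d).filter (fun a => a.Δ ≠ 0 ∧ IsSquare
    ((a.baseChange (RatFunc k)).c₄ ^ 3 / (a.baseChange (RatFunc k)).Δ)) with hE
  have mE : ∀ a ∈ E, DegLE a d ∧ a.Δ ≠ 0 ∧ IsSquare
      ((a.baseChange (RatFunc k)).c₄ ^ 3 / (a.baseChange (RatFunc k)).Δ) := fun a ha =>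
    ⟨Avg.mem_DD.1 (Finset.mem_filter.1 ha).1, (Finset.mem_filter.1 ha).2⟩
  have m0 : ∀ a ∈ E.filter fun a => a.a₁ = 0, DegLE a d ∧ a.a₁ = 0 ∧ a.a₃ ≠ 0 := fun a ha => by
    obtain ⟨b1, b2⟩ := Finset.mem_filter.1 ha
    refine ⟨(mE a b1).1, b2, fun h => (mE a b1).2.1 ?_⟩
    rw [disc, b2, h]
    ring
  have e1 := h2 (((E.filter fun a => a.a₁ = 0) ×ˢ PL k d).filter fun x => CondV x.1 x.2)
    fun x hx => by
      obtain ⟨b1, b2⟩ := Finset.mem_filter.1 hx
      obtain ⟨b3, b4⟩ := Finset.mem_product.1 b1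
      exact ⟨⟨(m0 _ b3).1, (m0 _ b3).2.1⟩, b4, b2⟩
  have e2 := h3 (((E.filter fun a => a.a₁ = 0) ×ˢ PL k (2 * d)).filter
    fun x => x.2 ≠ 0 ∧ CondF x.1 x.2) fun x hx => by
      obtain ⟨b1, b2⟩ := Finset.mem_filter.1 hx
      obtain ⟨b3, b4⟩ := Finset.mem_product.1 b1
      exact ⟨m0 _ b3, b4, b2⟩
  rw [card_pairs _ _ CondV, Nat.cast_sum] at e1
  rw [card_pairs _ _ fun a γ => γ ≠ 0 ∧ CondF a γ, Nat.cast_sum] at e2
  have e3 : ∑ a ∈ E.filter fun a => a.a₁ = 0, (selOrder (a.baseChange (RatFunc k)) : ℝ) ≤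
      (Fintype.card k : ℝ) ^ d * (ε / 3 * (Fintype.card k : ℝ) ^ (15 * d)) +
        ε / 3 * (Fintype.card k : ℝ) ^ (16 * d) := by
    refine le_trans ?_ (add_le_add (mul_le_mul_of_nonneg_left e2 (by positivity)) e1)
    rw [Finset.mul_sum, ← Finset.sum_add_distrib]
    refine Finset.sum_le_sum fun a ha => ?_
    have b1 := h4 k d a (m0 a ha).1 (m0 a ha).2.1 (m0 a ha).2.2
    have b2 : ((PL k d).filter (CondV a)).card ≤ Fintype.card k ^ d :=
      (Finset.card_filter_le _ _).trans (card_PL d).le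
    rw [mul_add, mul_one] at b1
    exact_mod_cast b1.trans (Nat.add_le_add_right (Nat.mul_le_mul_right _ b2) _)
  have e4 : ∑ a ∈ E.filter fun a => ¬ a.a₁ = 0, (selOrder (a.baseChange (RatFunc k)) : ℝ) ≤
      (Fintype.card k : ℝ) ^ (13 * d + 5) * ((3 / 2) ^ d * (Fintype.card k : ℝ) ^ (2 * d + 1)) := by
    refine le_trans (Finset.sum_le_card_nsmul _ _
      ((3 / 2) ^ d * (Fintype.card k : ℝ) ^ (2 * d + 1)) fun a ha => ?_) ?_
    rotate_left
    · rw [nsmul_eq_mul]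
      refine mul_le_mul_of_nonneg_right (bd_ord d _ fun a ha => ?_) (by positivity)
      obtain ⟨b1, b2⟩ := Finset.mem_filter.1 ha
      exact ⟨(mE a b1).1, b2, der_zero (sq_disc b2 (mE a b1).2.2)⟩
    obtain ⟨b1, b2⟩ := Finset.mem_filter.1 ha
    obtain ⟨b3, b4, b5⟩ := mE a b1
    have b6 : (a.a₁ * a.Δ).natDegree ≤ 13 * d :=
      natDegree_mul_le.trans ((add_le_add b3.1 b3.Δ).trans (by omega))
    have b7 := h5 k d a b3 b2 b4 (sq_disc b2 b5)
      ((PL k (13 * d + 1)).filter fun s => s.Monic ∧ s ∣ a.a₁ * a.Δ) fun s s1 s2 =>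
        Finset.mem_filter.2 ⟨mem_PL_succ.2
          ((natDegree_le_of_dvd s2 (mul_ne_zero b2 b4)).trans b6), s1, s2⟩
    have b8 := h1 _ (mul_ne_zero b2 b4) b6
      ((PL k (13 * d + 1)).filter fun s => s.Monic ∧ s ∣ a.a₁ * a.Δ)
      fun s hs => (Finset.mem_filter.1 hs).2
    refine le_trans ?_ (mul_le_mul_of_nonneg_right b8 (by positivity))
    exact_mod_cast b7
  have e5 : (Fintype.card k : ℝ) ^ (13 * d + 5) *
      ((3 / 2) ^ d * (Fintype.card k : ℝ) ^ (2 * d + 1)) ≤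
      ε / 3 * (Fintype.card k : ℝ) ^ (16 * d) :=
    calc _ = (Fintype.card k : ℝ) ^ 6 * (3 / 2) ^ d * (Fintype.card k : ℝ) ^ (15 * d) := by ring
      _ ≤ ε / 3 * (Fintype.card k : ℝ) ^ d * (Fintype.card k : ℝ) ^ (15 * d) := by gcongr
      _ = _ := by ring
  have e6 : (Fintype.card k : ℝ) ^ d * (ε / 3 * (Fintype.card k : ℝ) ^ (15 * d)) =
      ε / 3 * (Fintype.card k : ℝ) ^ (16 * d) := by ring
  rw [← Finset.sum_filter_add_sum_filter_not E fun a => a.a₁ = 0]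
  linarith

theorem newMean (h1 : SelInv) (h2 : TupSum) (h3 : OldMean) : NewMean := by
  intro k _ _ _ S
  have key : Tendsto (fun d => ∑ᶠ (m : ℕ) (_ : (Nat.log 2 m : ZMod 2) ∈ S), (m : ℝ) * dens (k := k)
      (fun W => selOrder W = m) d - ∑ᶠ (m : ℕ) (_ : (Nat.log 2 m : ZMod 2) ∈ S), (m : ℝ) *
      dens (k := k) (fun W => ¬ IsSquare (W.c₄ ^ 3 / W.Δ) ∧ selOrder W = m) d) atTop (𝓝 0) := by
    rw [Metric.tendsto_nhds]
    intro ε hε
    have hq := q_pos (k := k)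
    filter_upwards [h2 k (ε / 32) (by positivity), eventually_ge_atTop 1] with d hd hd1
    set E := (Avg.DD k d).filter (fun a => a.Δ ≠ 0 ∧ IsSquare
      ((a.baseChange (RatFunc k)).c₄ ^ 3 / (a.baseChange (RatFunc k)).Δ)) with hE
    have h4 : (Fintype.card k : ℝ) ^ (10 * d) ≤
        2 * (Fintype.card k : ℝ) ^ 3 * num (k := k) (fun _ => True) d := by
      obtain ⟨d, rfl⟩ : ∃ e, d = e + 1 := ⟨d - 1, by omega⟩
      exact_mod_cast (le_card_Mcl d).trans (Nat.mul_le_mul_left _ ((Finset.single_le_sum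
        (f := fun e => (Mcl (k := k) (fun _ => True) e).ncard) (fun _ _ => Nat.zero_le _)
        (Finset.self_mem_range_succ _)).trans (num_bounds (fun _ _ => Iff.rfl) _).1))
    have h5 : (0 : ℝ) < num (k := k) (fun _ => True) d :=
      (mul_pos_iff_of_pos_left (by positivity)).1 (lt_of_lt_of_le (by positivity) h4)
    set N := (Avg.DD k d).sup (fun a => selOrder (a.baseChange (RatFunc k))) + 1 with hN'
    have hN : ∀ a : WeierstrassCurve k[X], DegLE a d → selOrder (a.baseChange (RatFunc k)) < N :=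
      fun a ha => Nat.lt_succ_of_le (Finset.le_sup
        (f := fun a : WeierstrassCurve k[X] => selOrder (a.baseChange (RatFunc k)))
        (Avg.mem_DD.2 ha))
    have n1 : ∀ (P : WeierstrassCurve (RatFunc k) → Prop) (m : ℕ),
        (∀ W, P W → selOrder W = m) → dens P d ≠ 0 → m < N := fun P m hP h => by
      have h6 : num P d ≠ 0 := fun c => h (by rw [dens, c, Nat.cast_zero, zero_div])
      obtain ⟨_, W, -, b1, ⟨C, a, b2, b3⟩, b4⟩ := Set.nonempty_of_ncard_ne_zero h6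
      rw [← hP W b4, ← h1 k C W b1, b3]
      exact hN a b2
    have n2 : ∀ P : ℕ → WeierstrassCurve (RatFunc k) → Prop, (∀ m W, P m W → selOrder W = m) →
        ∑ᶠ (m : ℕ) (_ : (Nat.log 2 m : ZMod 2) ∈ S), (m : ℝ) * dens (P m) d =
        (∑ m ∈ (Finset.range N).filter fun m => (Nat.log 2 m : ZMod 2) ∈ S,
          (m : ℝ) * num (P m) d) / num (k := k) (fun _ => True) d := fun P hP => by
      rw [finsum_cond_eq_sum_of_cond_iff _
        (t := (Finset.range N).filter fun m => (Nat.log 2 m : ZMod 2) ∈ S), Finset.sum_div]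
      · exact Finset.sum_congr rfl fun m _ => by rw [dens, mul_div_assoc]
      · intro m hm
        rw [Finset.mem_filter, Finset.mem_range]
        exact ⟨fun h => ⟨n1 _ m (hP m) (right_ne_zero_of_mul hm), h⟩, fun h => h.2⟩
    have n3 : ∀ m : ℕ, num (k := k) (fun W => ¬ IsSquare (W.c₄ ^ 3 / W.Δ) ∧ selOrder W = m) d ≤
        num (k := k) (fun W => selOrder W = m) d := fun m =>
      Set.ncard_le_ncard (fun _ ⟨W, b1, b2, b3, b4⟩ => ⟨W, b1, b2, b3, b4.2⟩) (Cl_fin _ d)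
    have n4 : ∀ m : ℕ, num (k := k) (fun W => selOrder W = m) d ≤
        num (k := k) (fun W => ¬ IsSquare (W.c₄ ^ 3 / W.Δ) ∧ selOrder W = m) d +
        num (k := k) (fun W => IsSquare (W.c₄ ^ 3 / W.Δ) ∧ selOrder W = m) d := fun m => by
      refine le_trans (Set.ncard_le_ncard ?_ ((Cl_fin _ d).union (Cl_fin _ d)))
        (Set.ncard_union_le _ _)
      rintro _ ⟨W, b1, b2, b3, b4⟩
      by_cases h : IsSquare (W.c₄ ^ 3 / W.Δ)
      · exact Or.inr ⟨W, b1, b2, b3, h, b4⟩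
      · exact Or.inl ⟨W, b1, b2, b3, h, b4⟩
    have n5 : ∀ m : ℕ, num (k := k) (fun W => IsSquare (W.c₄ ^ 3 / W.Δ) ∧ selOrder W = m) d *
        Fintype.card k ^ (6 * d + 3) ≤
        8 * (E.filter fun a => selOrder (a.baseChange (RatFunc k)) = m).card := fun m => by
      refine (num_le (fun C W b1 b2 => ⟨by rw [j_smul]; exact b2.1,
        (h1 k C W b1).trans b2.2⟩) d).trans (le_of_eq ?_)
      rw [← Set.ncard_coe_finset]
      congr 2
      ext a
      simp only [hE, Finset.coe_filter, Finset.mem_filter, Avg.mem_DD, Set.mem_ofPred_eq, and_assoc]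
    have n6 : (∑ m ∈ Finset.range N, (m : ℝ) *
        num (k := k) (fun W => IsSquare (W.c₄ ^ 3 / W.Δ) ∧ selOrder W = m) d) *
        (Fintype.card k : ℝ) ^ (6 * d + 3) ≤ 8 * (ε / 32 * (Fintype.card k : ℝ) ^ (16 * d)) := by
      refine le_trans ?_ (mul_le_mul_of_nonneg_left hd (by norm_num))
      rw [← Finset.sum_fiberwise_of_maps_to (s := E) (t := Finset.range N)
        (g := fun a => selOrder (a.baseChange (RatFunc k))) fun a ha => Finset.mem_range.2
          (hN a (Avg.mem_DD.1 (Finset.mem_filter.1 ha).1)), Finset.sum_mul, Finset.mul_sum]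
      refine Finset.sum_le_sum fun m _ => ?_
      rw [Finset.sum_congr rfl (g := fun _ => (m : ℝ)) fun a ha => by
        rw [(Finset.mem_filter.1 ha).2], Finset.sum_const, nsmul_eq_mul, mul_assoc, ← mul_assoc 8,
        mul_comm _ (m : ℝ)]
      refine mul_le_mul_of_nonneg_left ?_ (Nat.cast_nonneg _)
      exact_mod_cast n5 m
    rw [n2 (fun m W => selOrder W = m) fun _ _ h => h,
      n2 (fun m W => ¬ IsSquare (W.c₄ ^ 3 / W.Δ) ∧ selOrder W = m) fun _ _ h => h.2, ← sub_div,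
      ← Finset.sum_sub_distrib, Real.dist_eq, sub_zero, abs_div, abs_of_pos h5, div_lt_iff₀ h5,
      abs_of_nonneg (Finset.sum_nonneg fun m _ => sub_nonneg.2
        (mul_le_mul_of_nonneg_left (Nat.cast_le.2 (n3 m)) (Nat.cast_nonneg _)))]
    refine lt_of_le_of_lt (b := ∑ m ∈ Finset.range N, (m : ℝ) *
      num (k := k) (fun W => IsSquare (W.c₄ ^ 3 / W.Δ) ∧ selOrder W = m) d) ?_ ?_
    · refine le_trans (Finset.sum_le_sum fun m _ => ?_) (Finset.sum_le_sum_of_subset_of_nonneg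
        (Finset.filter_subset _ _) fun _ _ _ => by positivity)
      rw [← mul_sub]
      refine mul_le_mul_of_nonneg_left (sub_le_iff_le_add'.2 ?_) (Nat.cast_nonneg _)
      exact_mod_cast n4 m
    · refine lt_of_mul_lt_mul_right (n6.trans_lt ?_) (pow_pos hq (6 * d + 3)).le
      calc _ = ε / 4 * (Fintype.card k : ℝ) ^ (6 * d) * (Fintype.card k : ℝ) ^ (10 * d) := by ring
        _ ≤ ε / 4 * (Fintype.card k : ℝ) ^ (6 * d) *
            (2 * (Fintype.card k : ℝ) ^ 3 * num (k := k) (fun _ => True) d) := by gcongr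
        _ = ε / 2 * num (k := k) (fun _ => True) d * (Fintype.card k : ℝ) ^ (6 * d + 3) := by ring
        _ < _ := by gcongr; linarith
  simpa using (h3 k S).add key

end Pool.Agent.Lib.MP_a3f657_nt.Two.Exc
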