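import Pool.Agent.Lib.MP_a3f657_nt.C3Dual

/-!
The abstract parity formula.
-/

namespace Pool.Agent.Lib.MP_a3f657_nt.Three

/-- The data of the abstract parity formula. -/
structure Abs {V : Type} [AddCommGroup V] (B : V →+ V →+ ZMod 3) (p h m : V →+ V)
    (O Ω L U : AddSubgroup V) : Prop where
  h3 : ∀ x : V, 3 • x = 0
  comm : ∀ x y, B x y = B y x
  nd : ∀ x, (∀ y, B x y = 0) → x = 0
  rep : ∀ χ : V →+ ZMod 3, (∀ x ∈ U, χ x = 0) → ∃ u, ∀ x, χ x = B u x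
  U_le : U ≤ p.range
  U_inf : ∀ x ∈ Ω, x ∈ U → x = 0
  O_le : O ≤ Ω
  orthO : ∀ x, x ∈ Ω ↔ ∀ y ∈ O, B x y = 0
  orthΩ : ∀ x, (∀ y ∈ Ω, B x y = 0) → x ∈ O
  adj : ∀ w u, B (p w) u = -B (m w) (h u)
  m_surj : Function.Surjective m
  m_mem : ∀ w, m w ∈ O ↔ w ∈ O
  hΩ : ∀ u ∈ Ω, h u ∈ Ω
  cubeO : ∀ t ∈ O, p t ∈ O ∧ ∃ u ∈ Ω, u ∈ L ∧ h u = p t
  cube : p.range ≤ L.map h
  cnt : (Ω.map h).relIndex Ω ≠ 0 ∧ Nat.card (Ω ⊓ h.ker : AddSubgroup V) = (Ω.map h).relIndex Ω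
  ld : (L ⊓ h.ker).relIndex h.ker ≠ 0 ∧ (L ⊓ h.ker).relIndex h.ker ≤ p.range.relIndex (L.map h)
  orth : ∀ l ∈ L, ∀ l' ∈ L, h l' = 0 → B (h l) l' = 0
  alt : ∀ l ∈ L, B (h l) l = -B (h l) (h l)
  ker : ∀ t ∈ O, p t = 0 → t = 0

namespace Abs

variable {V : Type} [AddCommGroup V] {B : V →+ V →+ ZMod 3} {p h m : V →+ V}
  {O Ω L U : AddSubgroup V} (H : Abs B p h m O Ω L U)
include H

lemma ker_of_orth {u : V} (hu : ∀ w, B (p w) u = 0) : h u = 0 := by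
  refine H.nd _ fun y => ?_
  obtain ⟨w, rfl⟩ := H.m_surj y
  have e := H.adj w u
  rw [hu w] at e
  rw [H.comm]
  exact neg_eq_zero.1 e.symm

lemma range_of_orth {α : V} (hα : ∀ u, h u = 0 → B α u = 0) : α ∈ p.range := by
  by_contra hn
  obtain ⟨χ, h1, h2⟩ := exists_sep_hom H.h3 p.range hn
  obtain ⟨u, hu⟩ := H.rep χ fun x hx => h2 x (H.U_le hx)
  have h4 : h u = 0 := H.ker_of_orth fun w => by rw [H.comm, ← hu]; exact h2 _ ⟨w, rfl⟩
  exact h1 (by rw [hu, H.comm]; exact hα u h4)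

lemma L_of_orth {u : V} (hu : ∀ α ∈ L.map h, B α u = 0) : u ∈ L ⊓ h.ker := by
  have h0 : h u = 0 := H.ker_of_orth fun w => hu _ (H.cube ⟨w, rfl⟩)
  by_contra hn
  obtain ⟨χ, h1, h2⟩ := exists_sep_hom H.h3 (L ⊓ h.ker) hn
  obtain ⟨g, hg, e⟩ := dual_rep H.h3 B (G₀ := p.range) (G₁ := L.map h) (H₀ := L ⊓ h.ker)
    (H₁ := h.ker) H.ld.1
    (by
      rintro _ ⟨l, hl, rfl⟩ y hy -
      exact H.orth l hl y hy.1 hy.2)
    (fun g _ hg => H.range_of_orth fun u hu => hg u hu) H.ld.2 (χ.comp h.ker.subtype)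
    (fun y hy => h2 y hy)
  have e' := e ⟨u, h0⟩
  exact h1 (e'.symm.trans (hu g hg))

lemma sup_of_orth {α : V} (hα : ∀ u ∈ Ω, h u = 0 → B α u = 0) : α ∈ O ⊔ p.range := by
  by_contra hn
  obtain ⟨χ, h1, h2⟩ := exists_sep_hom H.h3 (O ⊔ p.range) hn
  obtain ⟨u, hu⟩ := H.rep χ fun x hx => h2 x (AddSubgroup.mem_sup_right (H.U_le hx))
  have h4 : h u = 0 := H.ker_of_orth fun w => by
    rw [H.comm, ← hu]; exact h2 _ (AddSubgroup.mem_sup_right ⟨w, rfl⟩)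
  have h5 : u ∈ Ω := (H.orthO u).2 fun y hy => by
    rw [← hu]; exact h2 _ (AddSubgroup.mem_sup_left hy)
  exact h1 (by rw [hu, H.comm]; exact hα u h5 h4)

lemma relIndex_comap : O.relIndex (O.comap p) = Nat.card (Ω ⊓ h.ker : AddSubgroup V) := by
  rw [H.cnt.2]
  have d1 := dual_le H.h3 (B.comp m) (G₀ := O) (G₁ := O.comap p) (H₀ := Ω.map h) (H₁ := Ω)
    H.cnt.1
    (by
      rintro w hw _ ⟨u, hu, rfl⟩ -
      have e := H.adj w u
      rw [H.comm, (H.orthO u).1 hu _ hw] at e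
      exact neg_eq_zero.1 e.symm)
    (fun w _ hw => (H.m_mem w).1 (H.orthΩ _ hw))
  have d2 := dual_le H.h3 (B.comp m).flip (G₀ := Ω.map h) (G₁ := Ω) (H₀ := O) (H₁ := O.comap p)
    d1.1
    (fun u hu w hw _ => by
      change B (m w) u = 0
      rw [H.comm]
      exact (H.orthO u).1 hu _ ((H.m_mem w).2 hw))
    (fun u hu hw => by
      by_contra hn
      have hn' : u ∉ Ω.map h ⊔ U := fun hm => by
        obtain ⟨_, ⟨x, hx, rfl⟩, y, hy, e⟩ := AddSubgroup.mem_sup.1 hm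
        have hy' : y ∈ Ω := by
          rw [show y = u - h x by rw [← e]; abel]
          exact sub_mem hu (H.hΩ x hx)
        rw [H.U_inf y hy' hy, add_zero] at e
        exact hn ⟨x, hx, e⟩
      obtain ⟨χ, h1, h2⟩ := exists_sep_hom H.h3 _ hn'
      obtain ⟨v, hv⟩ := H.rep χ fun x hx => h2 x (AddSubgroup.mem_sup_right hx)
      obtain ⟨w, rfl⟩ := H.m_surj v
      have h4 : p w ∈ O := H.orthΩ _ fun y hy => by
        rw [H.adj, ← hv, h2 _ (AddSubgroup.mem_sup_left ⟨y, hy, rfl⟩), neg_zero]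
      exact h1 (by rw [hv]; exact hw w h4))
  exact le_antisymm (d1.2.1.trans d1.2.2) (d2.2.1.trans d2.2.2)

lemma relIndex_range : (O.map p).relIndex (O ⊓ p.range) * Nat.card p.ker =
    Nat.card (Ω ⊓ h.ker : AddSubgroup V) := by
  have h1 : O ≤ O.comap p := fun t ht => (H.cubeO t ht).1
  have h2 : p.ker ≤ O.comap p := fun t ht => by
    change p t ∈ O
    rw [show p t = 0 from ht]
    exact zero_mem _
  have h4 : O ⊓ p.ker = ⊥ := eq_bot_iff.2 fun t ht => H.ker t ht.1 ht.2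
  rw [← H.relIndex_comap, ← AddSubgroup.relIndex_mul_relIndex O (O ⊔ p.ker) (O.comap p)
    le_sup_left (sup_le h1 h2), AddSubgroup.relIndex_sup_left, inf_comm O p.range,
    ← AddSubgroup.map_comap_eq, AddSubgroup.relIndex_map_map, sup_eq_left.2 h2,
    ← AddSubgroup.inf_relIndex_right O p.ker, h4, AddSubgroup.relIndex_bot_left, mul_comm]

lemma finite_Lam : Finite (Ω ⊓ h.ker : AddSubgroup V) :=
  Nat.finite_of_card_ne_zero (by rw [H.cnt.2]; exact H.cnt.1)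

lemma finite_Y : Finite (Ω ⊓ L ⊓ h.ker : AddSubgroup V) := by
  have : Finite (Ω ⊓ h.ker : AddSubgroup V) := H.finite_Lam
  have hY : Ω ⊓ L ⊓ h.ker ≤ Ω ⊓ h.ker := fun x hx => ⟨hx.1.1, hx.2⟩
  exact Finite.of_injective _ (AddSubgroup.inclusion_injective hY)

lemma relIndex_AA : (O ⊓ p.range).relIndex (O ⊓ L.map h) * Nat.card (Ω ⊓ h.ker : AddSubgroup V) =
    p.range.relIndex (L.map h) * Nat.card (Ω ⊓ L ⊓ h.ker : AddSubgroup V) := by
  have : Finite (Ω ⊓ h.ker : AddSubgroup V) := H.finite_Lam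
  have hY : Ω ⊓ L ⊓ h.ker ≤ Ω ⊓ h.ker := fun x hx => ⟨hx.1.1, hx.2⟩
  have e0 : Nat.card (Ω ⊓ L ⊓ h.ker : AddSubgroup V) * (Ω ⊓ L ⊓ h.ker).relIndex (Ω ⊓ h.ker) =
      Nat.card (Ω ⊓ h.ker : AddSubgroup V) := by
    rw [← AddSubgroup.relIndex_bot_left, ← AddSubgroup.relIndex_bot_left,
      AddSubgroup.relIndex_mul_relIndex _ _ _ bot_le hY]
  have f0 : (Ω ⊓ L ⊓ h.ker).relIndex (Ω ⊓ h.ker) ≠ 0 := fun e => by
    rw [e, mul_zero] at e0
    exact Nat.card_pos.ne e0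
  have d1 := dual_le H.h3 B (G₀ := O ⊔ p.range) (G₁ := L.map h) (H₀ := Ω ⊓ L ⊓ h.ker)
    (H₁ := Ω ⊓ h.ker) f0
    (by
      rintro _ ⟨l, hl, rfl⟩ y hy -
      exact H.orth l hl y hy.1.2 hy.2)
    (fun g _ hg => H.sup_of_orth fun u hu hu' => hg u ⟨hu, hu'⟩)
  have d2 := dual_le H.h3 B (G₀ := Ω ⊓ L ⊓ h.ker) (G₁ := Ω ⊓ h.ker) (H₀ := O ⊔ p.range)
    (H₁ := L.map h) d1.1
    (fun g hg y hy _ => by
      obtain ⟨o, ho, _, ⟨w, rfl⟩, rfl⟩ := AddSubgroup.mem_sup.1 hy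
      rw [map_add, (H.orthO g).1 hg.1 o ho, H.comm, H.adj, show h g = 0 from hg.2]
      simp)
    (fun g hg hy => ⟨⟨hg.1, (H.L_of_orth fun α hα => by rw [H.comm]; exact hy α hα).1⟩, hg.2⟩)
  have e1 : (O ⊔ p.range).relIndex (L.map h) = (Ω ⊓ L ⊓ h.ker).relIndex (Ω ⊓ h.ker) :=
    le_antisymm (d1.2.1.trans d1.2.2) (d2.2.1.trans d2.2.2)
  have e2 : (O ⊔ p.range) ⊓ L.map h = (O ⊓ L.map h) ⊔ p.range := by
    rw [sup_comm O, sup_inf_assoc_of_le _ H.cube, sup_comm]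
  have e3 : (O ⊓ p.range).relIndex (O ⊓ L.map h) = p.range.relIndex (O ⊓ L.map h) := by
    rw [← AddSubgroup.inf_relIndex_right p.range, ← inf_assoc, inf_comm p.range O,
      ← AddSubgroup.inf_relIndex_right (O ⊓ p.range)]
    congr 1
    rw [inf_assoc O, inf_assoc O, ← inf_assoc p.range, inf_comm p.range O, inf_assoc O,
      ← inf_assoc O O, inf_idem]
  rw [← AddSubgroup.relIndex_mul_relIndex p.range ((O ⊔ p.range) ⊓ L.map h) (L.map h)
    (le_inf le_sup_right H.cube) inf_le_right, AddSubgroup.inf_relIndex_right, e1, e2,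
    AddSubgroup.relIndex_sup_right, e3, ← e0]
  ring

lemma range_ne : (O.map p).relIndex (O ⊓ p.range) ≠ 0 := fun e => by
  have := H.relIndex_range
  rw [e, zero_mul, H.cnt.2] at this
  exact H.cnt.1 this.symm

lemma AA_ne : (O ⊓ p.range).relIndex (O ⊓ L.map h) ≠ 0 := fun e => by
  have : Finite (Ω ⊓ L ⊓ h.ker : AddSubgroup V) := H.finite_Y
  have e1 := H.relIndex_AA
  rw [e, zero_mul] at e1
  have h1 := H.ld.1
  have h2 := H.ld.2
  exact mul_ne_zero (by omega) Nat.card_pos.ne' e1.symm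

lemma relIndex_split : (O.map p).relIndex ((Ω ⊓ L ⊓ O.comap h).map h) *
    ((Ω ⊓ L ⊓ O.comap h).map h).relIndex (O ⊓ L.map h) =
      (O.map p).relIndex (O ⊓ p.range) * (O ⊓ p.range).relIndex (O ⊓ L.map h) := by
  rw [AddSubgroup.relIndex_mul_relIndex, AddSubgroup.relIndex_mul_relIndex]
  · rintro _ ⟨t, ht, rfl⟩
    exact ⟨(H.cubeO t ht).1, t, rfl⟩
  · exact inf_le_inf_left _ H.cube
  · rintro _ ⟨t, ht, rfl⟩
    obtain ⟨h1, u, h2, h4, h5⟩ := H.cubeO t ht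
    exact ⟨u, ⟨⟨h2, h4⟩, by change h u ∈ O; rwa [h5]⟩, h5⟩
  · rintro _ ⟨u, hu, rfl⟩
    exact ⟨hu.2, u, hu.1.2, rfl⟩

lemma relIndex_rad :
    ∃ i, ((Ω ⊓ L ⊓ O.comap h).map h).relIndex (O ⊓ L.map h) = 9 ^ i := by
  have hl : ∀ α : (O ⊓ L.map h : AddSubgroup V), ∃ l ∈ L, h l = α := fun α => α.2.2
  choose l hl1 hl2 using hl
  have hw : ∀ (β α : (O ⊓ L.map h : AddSubgroup V)) (u : V), u ∈ L → h u = α →
      B β (l α) = B β u := fun β α u hu e => by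
    have := H.orth (l β) (hl1 β) (l α - u) (sub_mem (hl1 α) hu) (by rw [map_sub, hl2, e, sub_self])
    rwa [hl2, map_sub, sub_eq_zero] at this
  let ψ : (O ⊓ L.map h : AddSubgroup V) →+ (O ⊓ L.map h : AddSubgroup V) →+ ZMod 3 :=
    { toFun := fun α => (B.flip (l α)).comp (O ⊓ L.map h).subtype
      map_zero' := by
        ext β
        change B β (l 0) = 0
        rw [hw β 0 0 (zero_mem _) (by simp), map_zero]
      map_add' := fun a b => by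
        ext β
        change B β (l (a + b)) = B β (l a) + B β (l b)
        rw [hw β (a + b) (l a + l b) (add_mem (hl1 a) (hl1 b)) (by
          rw [map_add, hl2, hl2]; rfl), map_add] }
  have hψ : ∀ α β, ψ α β = B β (l α) := fun _ _ => rfl
  have halt : ∀ α, ψ α α = 0 := fun α => by
    have e := H.alt (l α) (hl1 α)
    rw [hl2, (H.orthO α).1 (H.O_le α.2.1) α α.2.1, neg_zero] at e
    exact e
  have hrad : rad ψ ⊤ = ((Ω ⊓ L ⊓ O.comap h).map h).addSubgroupOf (O ⊓ L.map h) := by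
    refine le_antisymm (fun α hα => ?_) fun α hα => ?_
    · obtain ⟨χ, h1, h2⟩ := exists_ext_hom H.h3 (L.map h) O
        ((B.flip (l α)).comp (L.map h).subtype) fun u hu => hα.2 ⟨u, hu, u.2⟩ trivial
      have h4 : ∀ x ∈ L.map h, (B.flip (l α) - χ) x = 0 := fun x hx => by
        rw [AddMonoidHom.sub_apply, sub_eq_zero]
        exact (h1 ⟨x, hx⟩).symm
      obtain ⟨l', hl'⟩ := H.rep (B.flip (l α) - χ) fun x hx => h4 x (H.cube (H.U_le hx))
      have h5 : l' ∈ L ⊓ h.ker := H.L_of_orth fun x hx => by rw [H.comm, ← hl', h4 x hx]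
      have h6 : h (l α - l') = α := by rw [map_sub, hl2, show h l' = 0 from h5.2, sub_zero]
      refine ⟨l α - l', ⟨⟨(H.orthO _).2 fun y hy => ?_, L.sub_mem (hl1 α) h5.1⟩, ?_⟩, h6⟩
      · rw [map_sub, AddMonoidHom.sub_apply, ← hl', AddMonoidHom.sub_apply, h2 y hy, H.comm]
        simp
      · change h (l α - l') ∈ O
        rw [h6]
        exact α.2.1
    · obtain ⟨u, hu, e⟩ := hα
      refine ⟨trivial, fun β _ => ?_⟩
      rw [hψ, hw β α u hu.1.2 e, H.comm]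
      exact (H.orthO u).1 hu.1.1 β β.2.1
  have h0 : ((Ω ⊓ L ⊓ O.comap h).map h).relIndex (O ⊓ L.map h) ≠ 0 := fun e => by
    have := H.relIndex_split
    rw [e, mul_zero] at this
    exact mul_ne_zero H.range_ne H.AA_ne this.symm
  have := relIndex_alt ψ halt ⊤ (by rw [hrad, AddSubgroup.relIndex_top_right]; exact h0)
  rwa [hrad, AddSubgroup.relIndex_top_right] at this

theorem formula : ∃ i j : ℕ, Nat.card (Ω ⊓ L ⊓ h.ker : AddSubgroup V) *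
    (O.map p).relIndex ((Ω ⊓ L ⊓ O.comap h).map h) * Nat.card p.ker * 9 ^ i =
      9 ^ j * p.range.relIndex (L.map h) := by
  have : Finite (Ω ⊓ h.ker : AddSubgroup V) := H.finite_Lam
  have : Finite (Ω ⊓ L ⊓ h.ker : AddSubgroup V) := H.finite_Y
  obtain ⟨i, hi⟩ := H.relIndex_rad
  obtain ⟨j, hj⟩ := card_three_pow (V := (Ω ⊓ L ⊓ h.ker : AddSubgroup V))
    fun x => Subtype.ext (H.h3 x)
  refine ⟨i, j, ?_⟩
  have e1 := H.relIndex_split
  have e2 := H.relIndex_range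
  have e3 := H.relIndex_AA
  rw [hi] at e1
  rw [hj] at e3 ⊢
  rw [show (9 : ℕ) ^ j = 3 ^ j * 3 ^ j from mul_pow 3 3 j]
  calc _ = 3 ^ j * (((O.map p).relIndex ((Ω ⊓ L ⊓ O.comap h).map h) * 9 ^ i) * Nat.card p.ker) := by
        ring
    _ = 3 ^ j * ((O ⊓ p.range).relIndex (O ⊓ L.map h) *
        ((O.map p).relIndex (O ⊓ p.range) * Nat.card p.ker)) := by rw [e1]; ring
    _ = _ := by rw [e2, e3]; ring

end Abs

end Pool.Agent.Lib.MP_a3f657_nt.Three
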