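import Pool.Agent.Lib.MP_a3f657_nt.C2CellDefs
import Pool.Agent.Lib.MP_a3f657_nt.C2BadDefs

/-!
Counting by Weierstrass coefficients in characteristic three (definitions and statements).
-/

namespace Pool.Agent.Lib.MP_a3f657_nt.Three

open Pool.Agent.Lib.MP_a3f657_nt.Two

open Polynomial UniqueFactorizationMonoid

open scoped Classical

variable {k : Type} [Field k]

/-- Coefficient tuples of level `d` with `b₂ ≠ 0` whose curve has height exactly `q ^ d`. -/
def MinTup (a : WeierstrassCurve k[X]) (d : ℕ) : Prop :=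
  DegLE a d ∧ a.Δ ≠ 0 ∧ a.b₂ ≠ 0 ∧ (d = 0 ∨ ¬ HeightLE (a.baseChange (RatFunc k)) (d - 1))

/-- The number of such tuples with the property `P`. -/
noncomputable def tupNum (P : WeierstrassCurve (RatFunc k) → Prop) (d : ℕ) : ℕ :=
  Set.ncard {a : WeierstrassCurve k[X] | MinTup a d ∧ P (a.baseChange (RatFunc k))}

/-- Transfer of linear inequalities from tuples to densities of isomorphism classes. -/
def Transfer : Prop :=
  ∀ (k : Type) [Field k] [Fintype k] [CharP k 3] (ι : Type) (s : Finset ι)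
    (P : ι → WeierstrassCurve (RatFunc k) → Prop) (c : ι → ℝ) (c₀ : ℝ),
    (∀ i (C : WeierstrassCurve.VariableChange (RatFunc k)) (W : WeierstrassCurve (RatFunc k)),
      P i (C • W) ↔ P i W) →
    (∀ ε : ℝ, 0 < ε → ∀ᶠ d : ℕ in Filter.atTop,
      ∑ i ∈ s, c i * (tupNum (P i) d : ℝ) ≤
        c₀ * (tupNum (k := k) (fun _ => True) d : ℝ) + ε * (Fintype.card k : ℝ) ^ (16 * d)) →
    ∀ ε : ℝ, 0 < ε → ∀ᶠ d : ℕ in Filter.atTop, ∑ i ∈ s, c i * dens (P i) d ≤ c₀ + ε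

/-- Non-minimality only depends on congruence conditions at the places where it can occur. -/
def HeightCongr : Prop :=
  ∀ (k : Type) [Field k] [CharP k 3] (d : ℕ) (a b : WeierstrassCurve k[X]),
    1 ≤ d → DegLE a d → DegLE b d → a.Δ ≠ 0 →
    b.a₁ = a.a₁ → b.a₂ = a.a₂ → b.a₃ = a.a₃ →
    (b.a₄ - a.a₄).natDegree + 6 ≤ 4 * d → (b.a₆ - a.a₆).natDegree + 6 ≤ 6 * d →
    (∀ p : k[X], Irreducible p → p ^ 12 ∣ a.Δ → p ^ 6 ∣ b.a₄ - a.a₄ ∧ p ^ 6 ∣ b.a₆ - a.a₆) →
    HeightLE (a.baseChange (RatFunc k)) (d - 1) → HeightLE (b.baseChange (RatFunc k)) (d - 1)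

/-- Bounded valuations of `b₂` and of the derivative of the discriminant at the small places. -/
def GoodT (T β d : ℕ) (a : WeierstrassCurve k[X]) : Prop :=
  a.b₂ ≠ 0 ∧ derivative a.Δ ≠ 0 ∧ 2 * d < a.b₂.natDegree + β ∧
    12 * d < (derivative a.Δ).natDegree + β ∧
    ∀ p : k[X], p.Monic → Irreducible p → p.natDegree ≤ T →
      ¬ p ^ β ∣ a.b₂ ∧ ¬ p ^ β ∣ derivative a.Δ

/-- The large prime factors of `b₂` are simple. -/
def GoodN (T : ℕ) (a : WeierstrassCurve k[X]) : Prop :=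
  ∀ p : k[X], p.Monic → Irreducible p → T < p.natDegree → ¬ p ^ 2 ∣ a.b₂

/-- Most tuples are good. -/
def BadSmall : Prop :=
  ∀ (k : Type) [Field k] [Fintype k] [CharP k 3] (ε : ℝ), 0 < ε → ∀ T₀ : ℕ, ∃ T β : ℕ, T₀ ≤ T ∧
    ∀ᶠ d : ℕ in Filter.atTop,
      (Set.ncard {a : WeierstrassCurve k[X] |
        DegLE a d ∧ ¬ (GoodT T β d a ∧ GoodN T a ∧ GoodQ T a)} : ℝ) ≤
        ε * (Fintype.card k : ℝ) ^ (16 * d)

/-- `1` if `A` is a square modulo `p`, and `-1` otherwise. -/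
noncomputable def leg (A p : k[X]) : ℝ := if ∃ z : k[X], p ∣ z ^ 2 - A then 1 else -1

/-- The large prime factors. -/
noncomputable def bigP (T : ℕ) (f : k[X]) : Finset k[X] :=
  (normalizedFactors f).toFinset.filter fun p => T < p.natDegree

variable [Fintype k]

/-- Translation of `a₄` and `a₆` by multiples of the modulus. -/
noncomputable def shift (T β : ℕ) (a : WeierstrassCurve k[X]) (t : k[X] × k[X]) :
    WeierstrassCurve k[X] :=
  ⟨a.a₁, a.a₂, a.a₃, a.a₄ + NT k T β * t.1, a.a₆ + NT k T β * t.2⟩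

/-- The admissible translations. -/
noncomputable def cell (T β d : ℕ) (a : WeierstrassCurve k[X]) : Finset (k[X] × k[X]) :=
  Bad.PL k (4 * d - ((NT k T β).natDegree + 2 * RR β)) ×ˢ
    Bad.PL k (a.Δ.natDegree + 1 - (RR β + 3 * a.b₂.natDegree + (NT k T β).natDegree))

/-- Reduction of linear inequalities for densities to inequalities on cells. -/
def CellRed : Prop :=
  ∀ (k : Type) [Field k] [Fintype k] [CharP k 3] (ι : Type) (s : Finset ι)
    (P : ι → WeierstrassCurve (RatFunc k) → Prop) (c : ι → ℝ) (c₀ : ℝ),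
    (∀ i (C : WeierstrassCurve.VariableChange (RatFunc k)) (a : WeierstrassCurve k[X]),
      a.b₂ ≠ 0 → derivative a.Δ ≠ 0 →
      (P i (C • a.baseChange (RatFunc k)) ↔ P i (a.baseChange (RatFunc k)))) →
    (∃ T₀ : ℕ, ∀ T, T₀ ≤ T → ∀ (β : ℕ) (ε : ℝ), 0 < ε → ∀ᶠ d : ℕ in Filter.atTop,
      ∀ a : WeierstrassCurve k[X], DegLE a d → GoodT T β d a → GoodN T a →
        ∑ t ∈ (cell T β d a).filter (fun t => GoodQ T (shift T β a t)),
          (∑ i ∈ s, (if P i ((shift T β a t).baseChange (RatFunc k)) then c i else 0) - c₀) ≤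
          ε * (cell T β d a).card) →
    ∀ ε : ℝ, 0 < ε → ∀ᶠ d : ℕ in Filter.atTop, ∑ i ∈ s, c i * dens (P i) d ≤ c₀ + ε

/-- The analytic estimate on cells. -/
def CellAn : Prop :=
  ∀ (k : Type) [Field k] [Fintype k] [CharP k 3], ∃ T₀ : ℕ, ∀ T, T₀ ≤ T → ∀ (β : ℕ) (ε : ℝ),
    0 < ε → ∀ᶠ d : ℕ in Filter.atTop, ∀ a : WeierstrassCurve k[X], DegLE a d → GoodT T β d a →
      GoodN T a →
        |∑ t ∈ (cell T β d a).filter (fun t => GoodQ T (shift T β a t)),
          ∏ p ∈ bigP T (shift T β a t).Δ, -leg a.b₂ p| ≤ ε * (cell T β d a).card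

end Pool.Agent.Lib.MP_a3f657_nt.Three
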