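import Pool.Agent.Lib.MP_a3f657_nt.C2HtMin
import Pool.Agent.Lib.MP_a3f657_nt.C3HtDefs

/-!
Minimal models in characteristic three.
-/

set_option linter.unusedSectionVars false

namespace Pool.Agent.Lib.MP_a3f657_nt.Three

open Pool.Agent.Lib.MP_a3f657_nt.Two

open WeierstrassCurve

open scoped Polynomial

section ring

variable {R : Type} [CommRing R] [CharP R 3] (r s t : R) (W : WeierstrassCurve R)

lemma hm_three : (3 : R) = 0 := by exact_mod_cast CharP.cast_eq_zero R 3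

lemma hm_a₁ : (trn r s t W).a₁ = W.a₁ - s := by
  simp only [trn, variableChange_a₁, inv_one, Units.val_one]
  linear_combination s * hm_three (R := R)

lemma hm_a₂ : (trn r s t W).a₂ = W.a₂ - s * W.a₁ - s * s := by
  simp only [trn, variableChange_a₂, inv_one, Units.val_one]
  linear_combination r * hm_three (R := R)

lemma hm_a₃ : (trn r s t W).a₃ = W.a₃ + r * W.a₁ - t := by
  simp only [trn, variableChange_a₃, inv_one, Units.val_one]
  linear_combination t * hm_three (R := R)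

lemma hm_a₄ : (trn r s t W).a₄ = W.a₄ - s * W.a₃ - r * W.a₂ - (t + r * s) * W.a₁ + s * t := by
  simp only [trn, variableChange_a₄, inv_one, Units.val_one]
  linear_combination (r * W.a₂ + r * r - s * t) * hm_three (R := R)

lemma hm_a₆ : (trn r s t W).a₆ =
    W.a₆ + r * W.a₄ + r * r * W.a₂ + r * r * r - t * W.a₃ - t * t - r * t * W.a₁ := by
  simp only [trn, variableChange_a₆, inv_one, Units.val_one]
  ring

lemma hm_b₂ : W.b₂ = W.a₁ * W.a₁ + W.a₂ := by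
  rw [b₂]; linear_combination W.a₂ * hm_three (R := R)

lemma hm_b₄ : W.b₄ = W.a₁ * W.a₃ - W.a₄ := by
  rw [b₄]; linear_combination W.a₄ * hm_three (R := R)

lemma hm_b₆ : W.b₆ = W.a₃ * W.a₃ + W.a₆ := by
  rw [b₆]; linear_combination W.a₆ * hm_three (R := R)

lemma hm_disc : W.Δ = -(W.b₂ ^ 3 * W.b₆) + W.b₂ ^ 2 * W.b₄ ^ 2 + W.b₄ ^ 3 := by
  have h := W.b_relation
  rw [WeierstrassCurve.Δ]
  linear_combination (-W.b₂ ^ 2) * h + (W.b₂ ^ 2 * W.b₈ - 3 * W.b₄ ^ 3 - 9 * W.b₆ ^ 2 +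
    3 * W.b₂ * W.b₄ * W.b₆) * hm_three (R := R)

end ring

section val

variable {F Γ : Type} [Field F] [LinearOrderedCommGroupWithZero Γ] {ν : Valuation F Γ} {γ γ' : Γ}
  {W : WeierstrassCurve F} {r s t : F} [CharP F 3]

lemma hm_neg {n : ℕ} {x : F} (h : B ν γ n x) : B ν γ n (-x) := by rwa [B, Valuation.map_neg]

lemma hm_tr (h : Bdd ν γ W) (hr : B ν γ 2 r) (hs : B ν γ 1 s) (ht : B ν γ 3 t) :
    Bdd ν γ (trn r s t W) := by
  refine ⟨?_, ?_, ?_, ?_, ?_⟩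
  · rw [hm_a₁]; exact h.h₁.sub hs
  · rw [hm_a₂]; exact (h.h₂.sub (hs.mul h.h₁)).sub (hs.mul hs)
  · rw [hm_a₃]; exact (h.h₃.add (hr.mul h.h₁)).sub ht
  · rw [hm_a₄]
    exact (((h.h₄.sub (hs.mul h.h₃)).sub (hr.mul h.h₂)).sub ((ht.add (hr.mul hs)).mul h.h₁)).add
      (hs.mul ht)
  · rw [hm_a₆]
    exact (((((h.h₆.add (hr.mul h.h₄)).add ((hr.mul hr).mul h.h₂)).add ((hr.mul hr).mul hr)).sub
      (ht.mul h.h₃)).sub (ht.mul ht)).sub ((hr.mul ht).mul h.h₁)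

lemma hm_B₂ (h : Bdd ν γ W) : B ν γ 2 W.b₂ := by
  rw [hm_b₂]; exact (h.h₁.mul h.h₁).add h.h₂

lemma hm_B₄ (h : Bdd ν γ W) : B ν γ 4 W.b₄ := by
  rw [hm_b₄]; exact (h.h₁.mul h.h₃).sub h.h₄

lemma hm_B₆ (h : Bdd ν γ W) : B ν γ 6 W.b₆ := by
  rw [hm_b₆]; exact (h.h₃.mul h.h₃).add h.h₆

lemma hm_Δ (h : Bdd ν γ W) : B ν γ 12 W.Δ := by
  have : W.Δ = W.b₂ * W.b₂ * (W.b₄ * W.b₄) - W.b₂ * W.b₂ * W.b₂ * W.b₆ + W.b₄ * W.b₄ * W.b₄ := by
    rw [hm_disc]; ring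
  have h2 := hm_B₂ h
  have h4 := hm_B₄ h
  rw [this]
  exact (((h2.mul h2).mul (h4.mul h4)).sub (((h2.mul h2).mul h2).mul (hm_B₆ h))).add
    ((h4.mul h4).mul h4)

lemma hm_integral (h : Bdd ν γ W) (h' : Bdd ν γ (Two.trn r s t W)) :
    B ν γ 2 r ∧ B ν γ 1 s ∧ B ν γ 3 t := by
  have hr : B ν γ 2 r := by
    refine root_le (c₀ := 0) (c₁ := (Two.trn r s t W).b₆ - W.b₆) (c₂ := W.b₄)
      (c₃ := -W.b₂) ?_ (by simp) ?_ ?_ (hm_neg (hm_B₂ h))
    · simp only [Two.trn, variableChange_b₆, inv_one, Units.val_one]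
      linear_combination (-r ^ 4 - r ^ 2 * W.b₄) * hm_three (R := F)
    · rw [← pow_mul]; exact (hm_B₆ h').sub (hm_B₆ h)
    · rw [← pow_mul]; exact hm_B₄ h
  refine ⟨hr, ?_, ?_⟩
  · have := h.h₁.sub h'.h₁
    rwa [hm_a₁, sub_sub_cancel] at this
  · have := (h.h₃.add (hr.mul h.h₁)).sub h'.h₃
    rwa [hm_a₃, sub_sub_cancel] at this

lemma hm_approx (h : Bdd ν γ W) (hγ : γ' ≤ γ) (h' : Bdd ν γ' (Two.trn r s t W)) {ι : Type}
    (f : ι → F) (P : ℕ → ι → Prop)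
    (hP : ∀ n x, B ν γ n x → ∃ y, P n y ∧ B ν γ' n (f y - x)) :
    ∃ r₀ s₀ t₀, P 2 r₀ ∧ P 1 s₀ ∧ P 3 t₀ ∧ Bdd ν γ' (Two.trn (f r₀) (f s₀) (f t₀) W) := by
  obtain ⟨hr, hs, ht⟩ := hm_integral h (h'.mono hγ)
  obtain ⟨r₀, hr₀, hr₁⟩ := hP 2 r hr
  obtain ⟨s₀, hs₀, hs₁⟩ := hP 1 s hs
  obtain ⟨t₀, ht₀, ht₁⟩ := hP 3 _ (ht.add ((hr₁.mono hγ).mul hs))
  refine ⟨r₀, s₀, t₀, hr₀, hs₀, ht₀, ?_⟩
  have := hm_tr h' hr₁ hs₁ ht₁
  rw [tr_tr] at this
  convert this using 2 <;> ring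

end val

variable {k : Type} [Field k] [CharP k 3]

lemma degLE_tr {a : WeierstrassCurve k[X]} {r s t : k[X]} {d : ℕ} (h : DegLE a d)
    (hr : r.natDegree ≤ 2 * d) (hs : s.natDegree ≤ d) (ht : t.natDegree ≤ 3 * d) :
    DegLE (trn r s t a) d := by
  rw [degLE_iff, baseChange, tr_map]
  exact hm_tr (degLE_iff.1 h) (B_inf.2 hr) (B_inf.2 (by rwa [one_mul])) (B_inf.2 ht)

lemma deg_b₂ {a : WeierstrassCurve k[X]} {d : ℕ} (h : DegLE a d) : a.b₂.natDegree ≤ 2 * d := by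
  have := hm_B₂ (degLE_iff.1 h)
  rw [baseChange, map_b₂] at this
  exact B_inf.1 this

lemma deg_b₄ {a : WeierstrassCurve k[X]} {d : ℕ} (h : DegLE a d) : a.b₄.natDegree ≤ 4 * d := by
  have := hm_B₄ (degLE_iff.1 h)
  rw [baseChange, map_b₄] at this
  exact B_inf.1 this

lemma deg_b₆ {a : WeierstrassCurve k[X]} {d : ℕ} (h : DegLE a d) : a.b₆.natDegree ≤ 6 * d := by
  have := hm_B₆ (degLE_iff.1 h)
  rw [baseChange, map_b₆] at this
  exact B_inf.1 this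

lemma disc_poly (a : WeierstrassCurve k[X]) :
    a.Δ = -(a.b₂ ^ 3 * a.b₆) + a.b₂ ^ 2 * a.b₄ ^ 2 + a.b₄ ^ 3 := hm_disc a

lemma deg_Δ {a : WeierstrassCurve k[X]} {d : ℕ} (h : DegLE a d) : a.Δ.natDegree ≤ 12 * d := by
  have := hm_Δ (degLE_iff.1 h)
  rw [baseChange, map_Δ] at this
  exact B_inf.1 this

section min

open WithZero IsDedekindDomain

lemma hm_nonmin_fin {a a' : WeierstrassCurve k[X]} {d : ℕ} (ha : DegLE a d) (hΔ : a.Δ ≠ 0)
    {C : VariableChange (RatFunc k)} (h : C • a.baseChange (RatFunc k) = a'.baseChange (RatFunc k))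
    (v : HeightOneSpectrum k[X]) (hv : v.valuation (RatFunc k) (C.u : RatFunc k) < 1) :
    ∃ p r s t : k[X], Irreducible p ∧ p ^ 12 ∣ a.Δ ∧ 1 ≤ d ∧ r.natDegree ≤ 2 * d ∧
      s.natDegree ≤ d ∧ t.natDegree ≤ 3 * d ∧ Dvd p (trn r s t a) := by
  obtain ⟨p, hp, h1, h2⟩ := exists_gen v
  have h3 : Bdd (v.valuation (RatFunc k)) (exp (-1)) (trn C.r C.s C.t (a.baseChange (RatFunc k))) := by
    rw [(smul_eq_iff _ _ _).1 h]
    exact ((bdd_adic v a').sc _).mono (by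
      rw [mul_one, ← lt_mul_exp_iff_le exp_ne_zero, ← exp_add]; simpa using hv)
  have h4 : p ^ 12 ∣ a.Δ := by
    have := hm_Δ h3
    rwa [tr_Δ, baseChange, map_Δ, h1] at this
  have h5 : p.natDegree ≤ d := by
    have := (Polynomial.natDegree_le_of_dvd h4 hΔ).trans (deg_Δ ha)
    rw [Polynomial.natDegree_pow] at this
    omega
  obtain ⟨r, s, t, hr, hs, ht, h6⟩ := hm_approx (bdd_adic v a) (exp_le_exp.2 (by norm_num)) h3
    (algebraMap k[X] (RatFunc k)) (fun n q => q.natDegree ≤ n * p.natDegree) h2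
  rw [baseChange, ← tr_map] at h6
  exact ⟨p, r, s, t, hp, h4, hp.natDegree_pos.trans_le h5, by omega, by omega, by omega,
    by simpa using (h1 _ _).1 h6.h₁, (h1 _ _).1 h6.h₂, (h1 _ _).1 h6.h₃, (h1 _ _).1 h6.h₄,
    (h1 _ _).1 h6.h₆⟩

lemma hm_nonmin_inf {a a' : WeierstrassCurve k[X]} {d e : ℕ} (ha : DegLE a (d + 1)) (ha' : DegLE a' e)
    {C : VariableChange (RatFunc k)} (h : C • a.baseChange (RatFunc k) = a'.baseChange (RatFunc k))
    (hu : νi k (C.u : RatFunc k) * exp (e : ℤ) ≤ exp (d : ℤ)) :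
    ∃ r s t : k[X], r.natDegree ≤ 2 * (d + 1) ∧ DegLE (trn r s t a) d := by
  have h3 : Bdd (νi k) (exp (d : ℤ)) (trn C.r C.s C.t (a.baseChange (RatFunc k))) := by
    rw [(smul_eq_iff _ _ _).1 h]
    exact ((degLE_iff.1 ha').sc _).mono hu
  have h4 : exp (d : ℤ) ≤ exp ((d + 1 : ℕ) : ℤ) := exp_le_exp.2 (by omega)
  obtain ⟨r, s, t, -, -, -, h6⟩ := hm_approx (degLE_iff.1 ha) h4 h3 (algebraMap k[X] (RatFunc k))
    (fun _ _ => True) fun n x _ => by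
      obtain ⟨p, hp⟩ := approx_inf x
      exact ⟨p, trivial, hp.trans (one_le_pow_of_one_le' (exp_le_exp (a := 0).2 (by omega)) n)⟩
  refine ⟨r, s, t, B_inf.1 (hm_integral (degLE_iff.1 ha) (h6.mono h4)).1, degLE_iff.2 ?_⟩
  rwa [baseChange, tr_map]

theorem heightCongr : HeightCongr := by
  intro k _ _ d a b hd ha hb hΔ e₁ e₂ e₃ h₄ h₆ hp ⟨C, a', ha', h⟩
  have f₁ : ∀ r s t, (trn r s t b).a₁ = (trn r s t a).a₁ := fun r s t => by simp only [hm_a₁, e₁]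
  have f₂ : ∀ r s t, (trn r s t b).a₂ = (trn r s t a).a₂ := fun r s t => by
    simp only [hm_a₂, e₁, e₂]
  have f₃ : ∀ r s t, (trn r s t b).a₃ = (trn r s t a).a₃ := fun r s t => by
    simp only [hm_a₃, e₁, e₃]
  have f₄ : ∀ r s t, (trn r s t b).a₄ = (trn r s t a).a₄ + (b.a₄ - a.a₄) := fun r s t => by
    simp only [hm_a₄, e₁, e₂, e₃]; ring
  have f₆ : ∀ r s t, (trn r s t b).a₆ = (trn r s t a).a₆ + (b.a₆ - a.a₆) + r * (b.a₄ - a.a₄) :=
    fun r s t => by simp only [hm_a₆, e₁, e₂, e₃]; ring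
  by_cases hv : ∃ v : HeightOneSpectrum k[X], v.valuation (RatFunc k) (C.u : RatFunc k) < 1
  · obtain ⟨v, hv⟩ := hv
    obtain ⟨p, r, s, t, hp', h1, -, hr, hs, ht, d₁, d₂, d₃, d₄, d₆⟩ := hm_nonmin_fin ha hΔ h v hv
    obtain ⟨g₄, g₆⟩ := hp p hp' h1
    refine heightLE_of_dvd hp' (degLE_tr hb hr hs ht)
      ⟨by rw [f₁]; exact d₁, by rw [f₂]; exact d₂, by rw [f₃]; exact d₃, ?_, ?_⟩
    · rw [f₄]; exact dvd_add d₄ ((pow_dvd_pow p (by norm_num)).trans g₄)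
    · rw [f₆]; exact dvd_add (dvd_add d₆ g₆) (g₄.mul_left _)
  · obtain ⟨d, rfl⟩ : ∃ e, d = e + 1 := ⟨d - 1, by omega⟩
    push Not at hv
    obtain ⟨w, hw⟩ := HeightOneSpectrum.mem_integers_of_valuation_le_one (R := k[X]) (RatFunc k)
      (C.u : RatFunc k)⁻¹ fun v => by rw [map_inv₀]; exact inv_le_one_of_one_le₀ (hv v)
    have hw0 : w ≠ 0 := fun h0 => by simp [h0, eq_comm] at hw
    obtain ⟨r, s, t, hr, d₁, d₂, d₃, d₄, d₆⟩ := hm_nonmin_inf ha ha' h (mul_le_of_le_one_left' (by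
      rw [← inv_inv (C.u : RatFunc k), ← hw, map_inv₀, νi_poly hw0]
      exact inv_le_one_of_one_le₀ (exp_le_exp (a := 0).2 (by omega))))
    refine heightLE_of_tr (r := r) (s := s) (t := t)
      ⟨by rw [f₁]; exact d₁, by rw [f₂]; exact d₂, by rw [f₃]; exact d₃, ?_, ?_⟩
    · rw [f₄]
      exact Polynomial.natDegree_add_le_of_degree_le d₄ (by omega)
    · rw [f₆]
      refine Polynomial.natDegree_add_le_of_degree_le
        (Polynomial.natDegree_add_le_of_degree_le d₆ (by omega)) ?_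
      have h1 := Polynomial.natDegree_mul_le (p := r) (q := b.a₄ - a.a₄)
      omega

/-- Every model is obtained from a minimal one by an integral change of variables. -/
lemma of_min {a a' : WeierstrassCurve k[X]} {d e : ℕ} (ha : DegLE a d) (ha' : DegLE a' e)
    (hΔ : a'.Δ ≠ 0) (hmin : e = 0 ∨ ¬ HeightLE (a'.baseChange (RatFunc k)) (e - 1))
    {C : VariableChange (RatFunc k)} (h : C • a.baseChange (RatFunc k) = a'.baseChange (RatFunc k)) :
    ∃ u r s t : k[X], u ≠ 0 ∧ u.natDegree + e ≤ d ∧ r.natDegree ≤ 2 * d ∧ s.natDegree ≤ d ∧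
      t.natDegree ≤ 3 * d ∧ trn r s t a = sc u a' := by
  have h' : C⁻¹ • a'.baseChange (RatFunc k) = a.baseChange (RatFunc k) := by
    rw [← h, inv_smul_smul]
  have hinv : ((C⁻¹).u : RatFunc k) = (C.u : RatFunc k)⁻¹ := Units.val_inv_eq_inv_val _
  have h1 : ∀ v : HeightOneSpectrum k[X], v.valuation (RatFunc k) (C.u : RatFunc k) ≤ 1 := by
    intro v
    by_contra hv
    obtain ⟨p, r, s, t, hp, -, he, hr, hs, ht, hd⟩ := hm_nonmin_fin ha' hΔ h' v (by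
      rw [hinv, map_inv₀]; exact inv_lt_one_of_one_lt₀ (not_le.1 hv))
    exact hmin.resolve_left (by omega) (heightLE_of_dvd hp (degLE_tr ha' hr hs ht) hd)
  have h2 := (smul_eq_iff _ _ _).1 h
  have h3 := fun v : HeightOneSpectrum k[X] => hm_integral (bdd_adic v a) (r := C.r) (s := C.s)
    (t := C.t) (h2 ▸ ((bdd_adic v a').sc _).mono (by rw [mul_one]; exact h1 v))
  obtain ⟨u, hu⟩ := HeightOneSpectrum.mem_integers_of_valuation_le_one (R := k[X]) _ _ h1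
  obtain ⟨r, hr⟩ := HeightOneSpectrum.mem_integers_of_valuation_le_one (R := k[X]) _ C.r
    fun v => by simpa [B] using (h3 v).1
  obtain ⟨s, hs⟩ := HeightOneSpectrum.mem_integers_of_valuation_le_one (R := k[X]) _ C.s
    fun v => by simpa [B] using (h3 v).2.1
  obtain ⟨t, ht⟩ := HeightOneSpectrum.mem_integers_of_valuation_le_one (R := k[X]) _ C.t
    fun v => by simpa [B] using (h3 v).2.2
  have hu0 : u ≠ 0 := fun h0 => C.u.ne_zero (by rw [← hu, h0, map_zero])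
  have h4 : trn r s t a = sc u a' := by
    apply WeierstrassCurve.map_injective (IsFractionRing.injective k[X] (RatFunc k))
    simp only [tr_map, sc_map, hu, hr, hs, ht]
    exact h2
  have h5 : u.natDegree + e ≤ d := by
    by_contra hc
    rcases e with _ | e
    · have h6 := deg_Δ ha
      rw [← tr_Δ r s t, h4, sc_Δ, Polynomial.natDegree_mul (pow_ne_zero _ hu0) hΔ,
        Polynomial.natDegree_pow] at h6
      omega
    · obtain ⟨r, s, t, -, h6⟩ := hm_nonmin_inf ha' ha h' (by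
        rw [hinv, ← hu, map_inv₀, νi_poly hu0, ← exp_neg, ← exp_add, exp_le_exp]; omega)
      exact hmin.resolve_left (by omega) (heightLE_of_tr h6)
  have h6 := hm_integral (degLE_iff.1 ha) (r := C.r) (s := C.s) (t := C.t)
    (h2 ▸ ((degLE_iff.1 ha').sc _).mono (by
      rw [← hu, νi_poly hu0, ← exp_add, exp_le_exp]; omega))
  rw [← hr, ← hs, ← ht, B_inf, B_inf, B_inf, one_mul] at h6
  exact ⟨u, r, s, t, hu0, h5, h6.1, h6.2.1, h6.2.2, h4⟩

end min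

end Pool.Agent.Lib.MP_a3f657_nt.Three
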