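import Pool.Agent.Lib.MP_a3f657_nt.C2BadMain
import Pool.Agent.Lib.MP_a3f657_nt.C3HtMin

/-!
Most tuples are good.
-/

namespace Pool.Agent.Lib.MP_a3f657_nt.Three

open Pool.Agent.Lib.MP_a3f657_nt.Two

namespace Bad3

open Polynomial Pool.Agent.Lib.MP_a3f657_nt.Two.Bad

open scoped Classical

variable {k : Type} [Field k]

section Cube

variable [CharP k 3]

lemma three_eq : (3 : k[X]) = 0 := by exact_mod_cast CharP.cast_eq_zero k[X] 3

lemma der_cube (f : k[X]) : derivative (f ^ 3) = 0 := by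
  rw [show f ^ 3 = f * f * f by ring, derivative_mul, derivative_mul]
  linear_combination (derivative f * f * f) * three_eq (k := k)

lemma sub_cube (f g : k[X]) : (f - g) ^ 3 = f ^ 3 - g ^ 3 := by
  linear_combination (f * g ^ 2 - f ^ 2 * g) * three_eq (k := k)

lemma e1 (a f g e : k[X]) : (a ^ 3 * f ^ 3 + e) - (a ^ 3 * g ^ 3 + e) = (a * (f - g)) ^ 3 := by
  rw [mul_pow, sub_cube]
  ring

lemma e2 {a p f g e : k[X]} (hp : Irreducible p) (h3 : ¬ p ∣ a) (h4 : p ∣ a ^ 3 * f ^ 3 + e)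
    (h5 : p ∣ a ^ 3 * g ^ 3 + e) : p ∣ f - g := by
  have h6 := dvd_sub h4 h5
  rw [e1] at h6
  exact (hp.prime.dvd_or_dvd (hp.prime.dvd_of_dvd_pow h6)).resolve_left h3

lemma e4 (a h g c : k[X]) :
    derivative (a ^ 3 * (g ^ 3 + X * h ^ 3) + c) = a ^ 3 * h ^ 3 + derivative c := by
  simp only [derivative_add, derivative_mul, der_cube, derivative_X]
  ring

lemma cube_inj {u v w : k[X]} (h : u ^ 3 + X * v ^ 3 + X * (X * w ^ 3) = 0) :
    u = 0 ∧ v = 0 ∧ w = 0 := by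
  have h1 := congrArg derivative h
  simp only [derivative_add, derivative_mul, der_cube, derivative_X, derivative_zero, zero_add,
    mul_zero, add_zero, one_mul] at h1
  have h2 := congrArg derivative h1
  simp only [derivative_add, derivative_mul, der_cube, derivative_X, derivative_zero, zero_add,
    mul_zero, add_zero, one_mul] at h2
  have h3 : w ^ 3 = 0 := by linear_combination (w ^ 3) * three_eq (k := k) - h2
  have h4 : v ^ 3 = 0 := by linear_combination h1 - (2 * X) * h3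
  have h5 : u ^ 3 = 0 := by linear_combination h - X * h4 - X * X * h3
  exact ⟨pow_eq_zero_iff three_ne_zero |>.1 h5, pow_eq_zero_iff three_ne_zero |>.1 h4,
    pow_eq_zero_iff three_ne_zero |>.1 h3⟩

end Cube

variable [Fintype k]

lemma deg_cube {n : ℕ} {f : k[X]} (hf : f ∈ PL k n) : (X * (X * f ^ 3)).natDegree ≤ 3 * n ∧
    (X * f ^ 3).natDegree ≤ 3 * n ∧ (f ^ 3).natDegree ≤ 3 * n := by
  rcases mem_PL_iff.1 hf with h | h
  · simp [h]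
  · have h1 := natDegree_pow_le (p := f) (n := 3)
    have h2 := natDegree_X_le (R := k)
    have h3 := natDegree_mul_le (p := X) (q := f ^ 3)
    have h4 := natDegree_mul_le (p := X) (q := X * f ^ 3)
    omega

/-- Every polynomial is `g ^ 3 + X h ^ 3 + X ^ 2 w ^ 3`. -/
lemma exists_ghw [CharP k 3] (n : ℕ) {f : k[X]} (hf : f ∈ PL k (3 * n + 1)) :
    ∃ w ∈ PL k n, ∃ h ∈ PL k n, ∃ g ∈ PL k (n + 1),
      f = g ^ 3 + X * h ^ 3 + X * (X * w ^ 3) := by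
  have key := Finset.surj_on_of_inj_on_of_card_le (s := PL k n ×ˢ PL k n ×ˢ PL k (n + 1))
    (t := PL k (3 * n + 1)) (fun x _ => x.2.2 ^ 3 + X * x.2.1 ^ 3 + X * (X * x.1 ^ 3)) ?_ ?_ ?_ f hf
  · obtain ⟨x, hx, h⟩ := key
    obtain ⟨h1, h2⟩ := Finset.mem_product.1 hx
    exact ⟨x.1, h1, x.2.1, (Finset.mem_product.1 h2).1, x.2.2, (Finset.mem_product.1 h2).2, h⟩
  · intro x hx
    obtain ⟨h1, h2⟩ := Finset.mem_product.1 hx
    obtain ⟨h3, h4⟩ := Finset.mem_product.1 h2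
    rw [mem_PL_succ] at h4 ⊢
    exact natDegree_add_le_of_degree_le (natDegree_add_le_of_degree_le
      (natDegree_pow_le.trans (by omega)) (deg_cube h3).2.1) (deg_cube h1).1
  · intro x y _ _ h
    obtain ⟨h1, h2, h3⟩ := cube_inj (u := x.2.2 - y.2.2) (v := x.2.1 - y.2.1) (w := x.1 - y.1) (by
      rw [sub_cube, sub_cube, sub_cube]
      linear_combination h)
    exact Prod.ext (sub_eq_zero.1 h3) (Prod.ext (sub_eq_zero.1 h2) (sub_eq_zero.1 h1))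
  · rw [Finset.card_product, Finset.card_product, card_PL, card_PL, card_PL, ← pow_add, ← pow_add]
    exact le_of_eq (by congr 1; omega)

lemma bad24 (T : ℕ) {m d e : ℕ} (hm : m ≤ d) (he : d ≤ e) :
    Bd (fun x : k[X] × k[X] => x.1 ∈ PL k (d + 1) ∧ x.2 ∈ PL k (e + 1) ∧ ¬ G13 T m d x.1 x.2)
      ((Fintype.card k : ℝ) ^ (d + 1) * (Fintype.card k : ℝ) ^ (e + 1) *
        (1 / 2 ^ m + (Fintype.card k : ℝ) ^ (T + 1) / 2 ^ m + 2 * ((Fintype.card k : ℝ) / 2 ^ T))) := by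
  have B1 : Bd (fun x : k[X] × k[X] => x.1 ∈ PL k (d + 1 - m) ∧ x.2 ∈ PL k (e + 1))
      ((Fintype.card k : ℝ) ^ (d + 1) / 2 ^ m * (Fintype.card k : ℝ) ^ (e + 1)) :=
    ((bd_top (P := fun f : k[X] => f ∈ PL k (d + 1 - m))
      (fun f g hf hg => sub_mem_PL hf hg) (by omega)).le div_le_two).fib
      (fun _ _ => bd_PL (e + 1)) (qp _)
  have B2 : Bd (fun x : k[X] × k[X] => ∃ p : k[X], p.natDegree ≤ T ∧ ((x.1 ∈ PL k (d + 1) ∧
      x.1 ≠ 0 ∧ p ^ m ∣ x.1) ∧ Irreducible p) ∧ x.2 ∈ PL k (e + 1))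
      ((Fintype.card k : ℝ) ^ (T + 1) *
        ((Fintype.card k : ℝ) ^ (d + 1) / 2 ^ m * (Fintype.card k : ℝ) ^ (e + 1))) := by
    refine bd_small T B1.nonneg fun p => Bd.fib (P := fun f => (f ∈ PL k (d + 1) ∧
      f ≠ 0 ∧ p ^ m ∣ f) ∧ Irreducible p) ?_ (fun _ _ => bd_PL (e + 1)) (qp _)
    by_cases hp : Irreducible p
    · refine ((bd_mult (pow_ne_zero m hp.ne_zero) (d + 1) (i := m) ?_).le div_le_two).mono
        fun f hf => hf.1
      rw [natDegree_pow]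
      exact Nat.le_mul_of_pos_right _ hp.natDegree_pos
    · exact Bd.empty (fun f hf => hp hf.2) (div_nonneg (qp _) (by positivity))
  have B3 : Bd (fun x : k[X] × k[X] => ∃ p : k[X], p.natDegree ≤ d ∧ T < p.natDegree ∧
      (x.1 ∈ PL k (d + 1) ∧ x.1 ≠ 0 ∧ p ∣ x.1) ∧ x.2 ∈ PL k (e + 1) ∧ p ∣ x.2)
      ((Fintype.card k : ℝ) ^ (d + 1) * (Fintype.card k : ℝ) ^ (e + 1) *
        ((Fintype.card k : ℝ) / 2 ^ T)) := by
    refine bd_large T d (mul_nonneg (qp _) (qp _)) fun p hp hp' => ?_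
    exact ((bd_mult hp (d + 1) le_rfl).fib (R := fun _ f => f ∈ PL k (e + 1) ∧ p ∣ f)
      (fun _ _ => bd_cong hp (fun f hf => hf.1) (fun f g hf hg => dvd_sub hf.2 hg.2)
        (hp'.trans (by omega)) le_rfl) (qd _ _)).le (qq _ _ _)
  have B4 : Bd (fun x : k[X] × k[X] => ∃ p : k[X], p.natDegree ≤ d ∧ T < p.natDegree ∧
      (x.1 ∈ PL k (d + 1) ∧ x.1 ≠ 0 ∧ p ^ 2 ∣ x.1) ∧ x.2 ∈ PL k (e + 1))
      ((Fintype.card k : ℝ) ^ (d + 1) * (Fintype.card k : ℝ) ^ (e + 1) *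
        ((Fintype.card k : ℝ) / 2 ^ T)) := by
    refine bd_large T d (mul_nonneg (qp _) (qp _)) fun p hp _ => ?_
    exact ((bd_mult (pow_ne_zero 2 hp) (d + 1) (i := 2 * p.natDegree) (by rw [natDegree_pow])).fib
      (fun _ _ => bd_PL (e + 1)) (qp _)).le (le_of_eq (div_mul_eq_mul_div _ _ _))
  refine ((((B1.or B2).or B3).or B4).mono ?_).le (le_of_eq (by ring))
  rintro ⟨a₁, a₃⟩ ⟨h1, h3, h⟩
  dsimp only at h1 h3 h ⊢
  by_cases h0 : a₁ = 0 ∨ a₁.natDegree < d + 1 - m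
  · exact Or.inl (Or.inl (Or.inl ⟨mem_PL_iff.2 h0, h3⟩))
  push Not at h0
  by_cases h4 : ∀ p : k[X], p.Monic → Irreducible p → p.natDegree ≤ T → ¬ p ^ m ∣ a₁
  · have h5 : ¬ ∀ p : k[X], p.Monic → Irreducible p → T < p.natDegree → p ∣ a₁ →
        ¬ p ∣ a₃ ∧ ¬ p ^ 2 ∣ a₁ := fun h5 => h ⟨h0.1, by have := h0.2; omega, h4, h5⟩
    push Not at h5
    obtain ⟨p, -, hp, hT, h6, h7⟩ := h5
    have h8 : p.natDegree ≤ d := (natDegree_le_of_dvd h6 h0.1).trans (mem_PL_succ.1 h1)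
    by_cases h9 : p ∣ a₃
    · exact Or.inl (Or.inr ⟨p, h8, hT, ⟨h1, h0.1, h6⟩, h3, h9⟩)
    · exact Or.inr ⟨p, h8, hT, ⟨h1, h0.1, h7 h9⟩, h3⟩
  · push Not at h4
    obtain ⟨p, -, hp, hT, h6⟩ := h4
    exact Or.inl (Or.inl (Or.inr ⟨p, hT, ⟨⟨h1, h0.1, h6⟩, hp⟩, h3⟩))

lemma deg_D {a h c : k[X]} {d : ℕ} (h₁ : a.natDegree ≤ 2 * d) (hc : c.natDegree ≤ 12 * d)
    (hh : h ∈ PL k (2 * d)) : (a ^ 3 * h ^ 3 + derivative c).natDegree ≤ 12 * d := by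
  refine natDegree_add_le_of_degree_le (natDegree_mul_le.trans ?_)
    ((natDegree_derivative_le c).trans (by omega))
  have h1 := (deg_cube hh).2.2
  have h2 := natDegree_pow_le (p := a) (n := 3)
  omega

variable [CharP k 3]

lemma bad6 (T : ℕ) {m d : ℕ} (hm : m ≤ d) {A B c : k[X]} (hG : G13 T m (2 * d) A B)
    (h₁ : A.natDegree ≤ 2 * d) (hc : c.natDegree ≤ 12 * d) (hd : A ∣ c - B ^ 3) :
    Bd (fun x : k[X] × k[X] => x.1 ∈ PL k (2 * d) ∧ x.2 ∈ PL k (2 * d + 1) ∧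
        ¬ G6 T m d (A ^ 3 * x.1 ^ 3 + derivative c) (A ^ 3 * (x.2 ^ 3 + X * x.1 ^ 3) + c))
      ((Fintype.card k : ℝ) ^ (2 * d) * (Fintype.card k : ℝ) ^ (2 * d + 1) *
        (1 / 2 ^ m + (Fintype.card k : ℝ) ^ (T + 1) / 2 ^ m + (Fintype.card k : ℝ) / 2 ^ T) +
        (Fintype.card k : ℝ) ^ (2 * d) * (12 * d)) := by
  have e3 : ∀ h g : k[X], A ^ 3 * (g ^ 3 + X * h ^ 3) + c =
      A ^ 3 * g ^ 3 + (A ^ 3 * (X * h ^ 3) + c) := fun h g => by ring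
  have C1 : Bd (fun x : k[X] × k[X] =>
      (A ^ 3 * x.1 ^ 3 + derivative c).natDegree + 8 * m ≤ 12 * d ∧ x.2 ∈ PL k (2 * d + 1))
      ((Fintype.card k : ℝ) ^ (2 * d) / 2 ^ m * (Fintype.card k : ℝ) ^ (2 * d + 1)) := by
    refine Bd.fib (P := fun f => (A ^ 3 * f ^ 3 + derivative c).natDegree + 8 * m ≤ 12 * d)
      ((bd_top (n := 2 * d) (i := m) (fun f g hf hg => ?_) (by omega)).le div_le_two)
      (fun _ _ => bd_PL (k := k) (2 * d + 1)) (qp _)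
    rw [mem_PL_iff, or_iff_not_imp_left]
    intro h0
    have h3 := natDegree_sub_le (A ^ 3 * f ^ 3 + derivative c) (A ^ 3 * g ^ 3 + derivative c)
    rw [e1, natDegree_pow, natDegree_mul hG.1 h0] at h3
    have := hG.2.1
    omega
  have C2 : Bd (fun x : k[X] × k[X] => ∃ p : k[X], p.natDegree ≤ T ∧ (x.1 ∈ PL k (2 * d) ∧
      p ^ (8 * m) ∣ A ^ 3 * x.1 ^ 3 + derivative c ∧ Irreducible p ∧ ¬ p ^ m ∣ A) ∧
      x.2 ∈ PL k (2 * d + 1)) ((Fintype.card k : ℝ) ^ (T + 1) *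
        ((Fintype.card k : ℝ) ^ (2 * d) / 2 ^ m * (Fintype.card k : ℝ) ^ (2 * d + 1))) := by
    refine bd_small T C1.nonneg fun p => Bd.fib (P := fun f => f ∈ PL k (2 * d) ∧
      p ^ (8 * m) ∣ A ^ 3 * f ^ 3 + derivative c ∧ Irreducible p ∧ ¬ p ^ m ∣ A) ?_
      (fun _ _ => bd_PL (2 * d + 1)) (qp _)
    by_cases hp : Irreducible p
    · refine (bd_cong (pow_ne_zero m hp.ne_zero) (fun f hf => hf.1) (fun f g hf hg => ?_)
        (by omega) ?_).le div_le_two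
      · have h4 := hf.2.2.2
        have h6 := (pow_dvd_pow p (show (m + m) * 3 ≤ 8 * m by omega)).trans
          (dvd_sub hf.2.1 hg.2.1)
        rw [e1, pow_mul, IsIntegrallyClosed.pow_dvd_pow_iff three_ne_zero] at h6
        exact pow_dvd_cancel hp h4 h6
      · rw [natDegree_pow]
        exact Nat.le_mul_of_pos_right _ hp.natDegree_pos
    · exact Bd.empty (fun f hf => hp hf.2.2.1) (div_nonneg (qp _) (by positivity))
  have C0 : ∀ (p h : k[X]) (i : ℕ), Irreducible p → ¬ p ∣ A → i ≤ 2 * d + 1 → i ≤ p.natDegree →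
      Bd (fun g => g ∈ PL k (2 * d + 1) ∧ p ∣ A ^ 3 * g ^ 3 + (A ^ 3 * (X * h ^ 3) + c))
        ((Fintype.card k : ℝ) ^ (2 * d + 1) / (Fintype.card k : ℝ) ^ i) := fun p h i hp h3 h4 h5 =>
    bd_cong hp.ne_zero (fun f hf => hf.1) (fun f g hf hg => e2 hp h3 hf.2 hg.2) h4 h5
  have C3 : Bd (fun x : k[X] × k[X] => ∃ p : k[X], p.natDegree ≤ 2 * d ∧ T < p.natDegree ∧
      (x.1 ∈ PL k (2 * d) ∧ p ∣ A ^ 3 * x.1 ^ 3 + derivative c ∧ Irreducible p ∧ ¬ p ∣ A) ∧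
      x.2 ∈ PL k (2 * d + 1) ∧ p ∣ A ^ 3 * x.2 ^ 3 + (A ^ 3 * (X * x.1 ^ 3) + c))
      ((Fintype.card k : ℝ) ^ (2 * d) * (Fintype.card k : ℝ) ^ (2 * d + 1) *
        ((Fintype.card k : ℝ) / 2 ^ T)) := by
    refine bd_large T _ (mul_nonneg (qp _) (qp _)) fun p hp hp' => ?_
    refine (Bd.fib (P := fun f => f ∈ PL k (2 * d) ∧ p ∣ A ^ 3 * f ^ 3 + derivative c ∧
      Irreducible p ∧ ¬ p ∣ A) (bd_cong hp (fun f hf => hf.1)
        (fun f g hf hg => e2 hf.2.2.1 hf.2.2.2 hf.2.1 hg.2.1) hp' le_rfl)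
      (fun h hh => C0 p h _ hh.2.2.1 hh.2.2.2 (by omega) le_rfl) (qd _ _)).le (qq _ _ _)
  have C4 : Bd (fun x : k[X] × k[X] => (x.1 ∈ PL k (2 * d) ∧ A ^ 3 * x.1 ^ 3 + derivative c ≠ 0) ∧
      ∃ p ∈ (PL k (12 * d + 1)).filter fun p => (p.Monic ∧ Irreducible p ∧
        p ∣ A ^ 3 * x.1 ^ 3 + derivative c) ∧ 2 * d < p.natDegree ∧ ¬ p ∣ A,
      x.2 ∈ PL k (2 * d + 1) ∧ p ∣ A ^ 3 * x.2 ^ 3 + (A ^ 3 * (X * x.1 ^ 3) + c))
      ((Fintype.card k : ℝ) ^ (2 * d) * (12 * d)) := by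
    refine Bd.fib (P := fun f => f ∈ PL k (2 * d) ∧ A ^ 3 * f ^ 3 + derivative c ≠ 0)
      (R := fun h g => ∃ p ∈ (PL k (12 * d + 1)).filter fun p => (p.Monic ∧ Irreducible p ∧
        p ∣ A ^ 3 * h ^ 3 + derivative c) ∧ 2 * d < p.natDegree ∧ ¬ p ∣ A,
        g ∈ PL k (2 * d + 1) ∧ p ∣ A ^ 3 * g ^ 3 + (A ^ 3 * (X * h ^ 3) + c))
      ((bd_PL (2 * d)).mono fun f hf => hf.1) (fun h hh => ?_) (by positivity)
    refine (Bd.union _ (e := fun _ => 1) fun p hp => ?_).le ?_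
    · obtain ⟨-, h3, h4, h5⟩ := Finset.mem_filter.1 hp
      exact (C0 p h _ h3.2.1 h5 le_rfl h4).le (div_self (pow_pos q_pos _).ne').le
    · rw [Finset.sum_const, nsmul_eq_mul, mul_one]
      refine le_trans (Nat.cast_le.2 (le_trans (card_primes _ hh.2 ?_) (deg_D h₁ hc hh.1))) (by simp)
      intro p hp
      exact (Finset.mem_filter.1 hp).2.1
  refine ((((C1.or C2).or C3).or C4).mono ?_).le (le_of_eq (by ring))
  rintro ⟨h, g⟩ ⟨h1, h3, hb⟩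
  dsimp only at h1 h3 hb ⊢
  by_cases h0 : (A ^ 3 * h ^ 3 + derivative c).natDegree + 8 * m ≤ 12 * d
  · exact Or.inl (Or.inl (Or.inl ⟨h0, h3⟩))
  have hD : A ^ 3 * h ^ 3 + derivative c ≠ 0 := fun h4 => h0 (by rw [h4, natDegree_zero]; omega)
  by_cases h4 : ∀ p : k[X], p.Monic → Irreducible p → p.natDegree ≤ T →
      ¬ p ^ (8 * m) ∣ A ^ 3 * h ^ 3 + derivative c
  · have h5 : ¬ ∀ p : k[X], p.Monic → Irreducible p → T < p.natDegree →
        ¬ p ^ 2 ∣ A ^ 3 * (g ^ 3 + X * h ^ 3) + c := fun h5 => hb ⟨by omega, h4, h5⟩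
    push Not at h5
    obtain ⟨p, hp', hp, hT, h6⟩ := h5
    have h7 : p ∣ A ^ 3 * (g ^ 3 + X * h ^ 3) + c := (dvd_pow_self p two_ne_zero).trans h6
    have h8 : ¬ p ∣ A := fun h8 => by
      refine (hG.2.2.2 p hp' hp hT h8).1 (hp.prime.dvd_of_dvd_pow (n := 3) ?_)
      have h9 := dvd_sub ((dvd_add_right ((h8.trans (dvd_pow_self A (n := 3) (by norm_num))).mul_right
        _)).1 h7) (h8.trans hd)
      rwa [sub_sub_cancel] at h9
    have h9 : p ∣ A ^ 3 * h ^ 3 + derivative c := by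
      have h10 := pow_sub_one_dvd_derivative_of_pow_dvd h6
      rwa [e4, Nat.add_one_sub_one, pow_one] at h10
    rw [e3] at h7
    by_cases h10 : p.natDegree ≤ 2 * d
    · exact Or.inl (Or.inr ⟨p, h10, hT, ⟨h1, h9, hp, h8⟩, h3, h7⟩)
    · exact Or.inr ⟨⟨h1, hD⟩, p, Finset.mem_filter.2 ⟨mem_PL_succ.2 ((natDegree_le_of_dvd h9 hD).trans
        (deg_D h₁ hc h1)), ⟨hp', hp, h9⟩, by omega, h8⟩, h3, h7⟩
  · push Not at h4
    obtain ⟨p, hp', hp, hT, h6⟩ := h4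
    exact Or.inl (Or.inl (Or.inr ⟨p, hT, ⟨h1, h6, hp, hG.2.2.1 p hp' hp hT⟩, h3⟩))

/-- The part of the discriminant that is fixed in the inner count. -/
noncomputable def cc (A B w : k[X]) : k[X] := A ^ 3 * (X * (X * w ^ 3)) + A ^ 2 * B ^ 2 + B ^ 3

omit [CharP k 3] in
lemma deg_cc {A B w : k[X]} {d : ℕ} (hA : A ∈ PL k (2 * d + 1)) (hB : B ∈ PL k (4 * d + 1))
    (hw : w ∈ PL k (2 * d)) : (cc A B w).natDegree ≤ 12 * d := by
  rw [mem_PL_succ] at hA hB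
  have h1 := (deg_cube hw).1
  have h2 := natDegree_pow_le (p := A) (n := 3)
  have h3 := natDegree_pow_le (p := A) (n := 2)
  have h4 := natDegree_pow_le (p := B) (n := 3)
  have h5 := natDegree_pow_le (p := B) (n := 2)
  exact natDegree_add_le_of_degree_le (natDegree_add_le_of_degree_le
    (natDegree_mul_le.trans (by omega)) (natDegree_mul_le.trans (by omega))) (by omega)

omit [Fintype k] [CharP k 3] in
lemma dvd_cc (A B w : k[X]) : A ∣ cc A B w - B ^ 3 :=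
  ⟨A ^ 2 * (X * (X * w ^ 3)) + A * B ^ 2, by rw [cc]; ring⟩

omit [Fintype k] in
lemma recover (a : WeierstrassCurve k[X]) :
    a = ⟨a.a₁, a.b₂ - a.a₁ ^ 2, a.a₃, a.a₁ * a.a₃ - a.b₄, a.b₆ - a.a₃ ^ 2⟩ := by
  have h3 := three_eq (k := k)
  refine WeierstrassCurve.ext rfl ?_ rfl ?_ ?_
  · simp only [WeierstrassCurve.b₂]
    linear_combination (-a.a₂) * h3
  · simp only [WeierstrassCurve.b₄]
    linear_combination a.a₄ * h3
  · simp only [WeierstrassCurve.b₆]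
    linear_combination (-a.a₆) * h3

lemma bad_all (T : ℕ) {m d : ℕ} (hm : m ≤ d) :
    Bd (fun a : WeierstrassCurve k[X] =>
      DegLE a d ∧ ¬ (GoodT T (8 * m) d a ∧ GoodN T a ∧ GoodQ T a))
      ((Fintype.card k : ℝ) ^ (16 * d) * ((Fintype.card k : ℝ) ^ 5 *
        (2 + 2 * (Fintype.card k : ℝ) ^ (T + 1)) / 2 ^ m + 3 * (Fintype.card k : ℝ) ^ 6 / 2 ^ T) +
        (Fintype.card k : ℝ) ^ (14 * d) * (12 * (Fintype.card k : ℝ) ^ 4 * d)) := by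
  have P : ∀ i j : ℕ, Bd (fun x : k[X] × k[X] => x.1 ∈ PL k i ∧ x.2 ∈ PL k j)
      ((Fintype.card k : ℝ) ^ i * (Fintype.card k : ℝ) ^ j) := fun i j =>
    (bd_PL i).fib (fun _ _ => bd_PL j) (qp _)
  have B1 := ((bad24 (k := k) T (m := m) (d := 2 * d) (e := 4 * d) (by omega) (by omega)).fib
    (fun _ _ => bd_PL (k := k) (2 * d)) (qp _)).fib
    (fun _ _ => P (2 * d) (2 * d + 1)) (P _ _).nonneg
  have B2 := Bd.fib (P := fun y : (k[X] × k[X]) × k[X] =>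
      ((y.1.1 ∈ PL k (2 * d + 1) ∧ y.1.2 ∈ PL k (4 * d + 1)) ∧ y.2 ∈ PL k (2 * d)) ∧
        G13 T m (2 * d) y.1.1 y.1.2)
    (((P (2 * d + 1) (4 * d + 1)).fib (fun _ _ => bd_PL (k := k) (2 * d)) (qp _)).mono
      fun y hy => hy.1)
    (fun y hy => bad6 T hm hy.2 (mem_PL_succ.1 hy.1.1.1) (c := cc y.1.1 y.1.2 y.2)
      (deg_cc hy.1.1.1 hy.1.1.2 hy.1.2) (dvd_cc _ _ _)) (by positivity)
  have B3 := (B1.or B2).fib (fun _ _ => P (d + 1) (3 * d + 1)) (P _ _).nonneg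
  refine ((B3.image fun x => (⟨x.2.1, x.1.1.1.1 - x.2.1 ^ 2, x.2.2, x.2.1 * x.2.2 - x.1.1.1.2,
    -(x.1.2.2 ^ 3 + X * x.1.2.1 ^ 3 + X * (X * x.1.1.2 ^ 3)) - x.2.2 ^ 2⟩ :
      WeierstrassCurve k[X])).mono ?_).le (le_of_eq (by ring))
  rintro a ⟨ha, hb⟩
  have h2 := mem_PL_succ.2 (deg_b₂ ha)
  have h4 := mem_PL_succ.2 (deg_b₄ ha)
  have h6 := deg_b₆ ha
  obtain ⟨w, hw, h, hh, g, hg, e⟩ := exists_ghw (2 * d) (f := -a.b₆)
    (mem_PL_succ.2 (by rw [natDegree_neg]; omega))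
  refine ⟨((((a.b₂, a.b₄), w), h, g), a.a₁, a.a₃),
    ⟨?_, mem_PL_succ.2 ha.1, mem_PL_succ.2 ha.2.2.1⟩, ?_⟩
  swap
  · dsimp only
    rw [← e, neg_neg]
    exact recover a
  have hΔ : a.Δ = a.b₂ ^ 3 * (g ^ 3 + X * h ^ 3) + cc a.b₂ a.b₄ w := by
    rw [disc_poly, cc]
    linear_combination (a.b₂ ^ 3) * e
  by_cases hG : G13 T m (2 * d) a.b₂ a.b₄
  · refine Or.inr ⟨⟨⟨⟨h2, h4⟩, hw⟩, hG⟩, hh, hg, fun h7 => hb ?_⟩
    dsimp only at h7
    rw [← e4 a.b₂ h g, ← hΔ] at h7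
    obtain ⟨g1, g2, g3, g4⟩ := hG
    obtain ⟨k1, k2, k3⟩ := h7
    refine ⟨⟨g1, fun h0 => ?_, by omega, k1, fun p hp hp' hT => ⟨fun h8 => g3 p hp hp' hT
      ((pow_dvd_pow p (by omega)).trans h8), k2 p hp hp' hT⟩⟩, fun p hp hp' hT h8 =>
      (g4 p hp hp' hT ((dvd_pow_self p two_ne_zero).trans h8)).2 h8, k3⟩
    rw [h0, natDegree_zero] at k1
    omega
  · exact Or.inl ⟨⟨⟨h2, h4, hG⟩, hw⟩, hh, hg⟩

omit [CharP k 3] in
lemma two_pow_le (d : ℕ) : (2 : ℝ) ^ d ≤ (Fintype.card k : ℝ) ^ (2 * d) :=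
  (pow_le_pow_left₀ zero_le_two two_le_q d).trans
    (pow_le_pow_right₀ (le_trans one_le_two two_le_q) (by omega))

end Bad3

theorem badSmall : BadSmall := by
  intro k _ _ _ ε hε T₀
  obtain ⟨T, hT, h1⟩ := Bad.exists_pow (3 * (Fintype.card k : ℝ) ^ 6) (ε / 3) (by positivity) T₀
  obtain ⟨m, -, h2⟩ := Bad.exists_pow ((Fintype.card k : ℝ) ^ 5 *
    (2 + 2 * (Fintype.card k : ℝ) ^ (T + 1))) (ε / 3) (by positivity) 0
  have h3 := ((tendsto_pow_const_div_const_pow_of_one_lt 1 (one_lt_two (α := ℝ))).const_mul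
    (12 * (Fintype.card k : ℝ) ^ 4)).eventually (ge_mem_nhds (show _ < ε / 3 by simpa using hε))
  refine ⟨T, 8 * m, hT, ((Filter.eventually_ge_atTop m).and h3).mono fun d hd => ?_⟩
  refine (Bad3.bad_all T hd.1).ncard.trans ?_
  have h4 := Bad3.two_pow_le (k := k) d
  have h5 : 12 * (Fintype.card k : ℝ) ^ 4 * d ≤ ε / 3 * (Fintype.card k : ℝ) ^ (2 * d) := by
    have h6 := hd.2
    rw [pow_one, ← mul_div_assoc, div_le_iff₀ (by positivity)] at h6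
    exact h6.trans (mul_le_mul_of_nonneg_left h4 (by positivity))
  have h7 := mul_le_mul_of_nonneg_left h5 (Bad.qp (k := k) (14 * d))
  have h8 := mul_le_mul_of_nonneg_left (add_le_add h2 h1) (Bad.qp (k := k) (16 * d))
  have h9 : (Fintype.card k : ℝ) ^ (16 * d) =
      (Fintype.card k : ℝ) ^ (14 * d) * (Fintype.card k : ℝ) ^ (2 * d) := by ring
  calc _ ≤ (Fintype.card k : ℝ) ^ (16 * d) * (ε / 3 + ε / 3) +
        (Fintype.card k : ℝ) ^ (14 * d) * (ε / 3 * (Fintype.card k : ℝ) ^ (2 * d)) := add_le_add h8 h7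
    _ = _ := by rw [h9]; ring

end Pool.Agent.Lib.MP_a3f657_nt.Three
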