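import Pool.Agent.Lib.MP_a3f657_nt.C3HtDefs

/-!
Character sums in characteristic three (definitions and statements).
-/

namespace Pool.Agent.Lib.MP_a3f657_nt.Three

open Pool.Agent.Lib.MP_a3f657_nt.Two

open Polynomial UniqueFactorizationMonoid

attribute [local instance 10000] Classical.propDecidable

variable {k : Type} [Field k]

/-- Character sum on the line. -/
noncomputable def sumC [Fintype k] {R : Type} [CommRing R] [Algebra k R] (U V : R)
    (χ : MulChar R ℂ) (M : k[X]) (m : ℕ) : ℂ :=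
  ∑ a ∈ (fixF k m).filter (fun a => aeval a M ≠ 0), chiN U V χ m a

/-- The Moebius function summed over a class. -/
noncomputable def SFc (M : k[X]) (K n : ℕ) (c : RM M K) : ℂ :=
  ∑ᶠ f ∈ {f : k[X] | f.Monic ∧ f.natDegree = n ∧ IsCoprime f M ∧ clM M K f = c},
    sfw (fun _ => -1) f

/-- The Riemann hypothesis for Dirichlet characters. -/
def RhP : Prop :=
  ∀ (k : Type) [Field k] [Fintype k] [CharP k 3] (R : Type) [CommRing R] [Algebra k R] [Finite R]
    (U V : R) (χ : MulChar R ℂ) (M : k[X]), M ≠ 0 →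
    (∀ p : k[X], p.Monic → Irreducible p → ¬ p ∣ M → IsUnit (cl U V p)) →
    ∀ γ : Multiset ℂ, (∀ m, 1 ≤ m → sumC U V χ M m = -(γ.map (· ^ m)).sum) →
      ∀ z ∈ γ, ‖z‖ ≤ √(Fintype.card k)

/-- Prime sums: a degree character, or square root cancellation. -/
def PrimeP : Prop :=
  ∀ (k : Type) [Field k] [Fintype k] [CharP k 3], ∃ c : ℝ, ∀ (M : k[X]) (K : ℕ)
    (χ : MulChar (RM M K) ℂ), M ≠ 0 →
    (∃ z : ℂ, ‖z‖ = 1 ∧ ∀ p, GoodP M p → χ (clM M K p) = z ^ p.natDegree) ∨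
    ∀ m, 1 ≤ m → ‖PS M (fun p => χ (clM M K p)) m‖ ≤
      c * (M.natDegree + K + 1) * √(Fintype.card k) ^ m

/-- Cancellation of the Moebius function twisted by a character. -/
def AnChi : Prop :=
  ∀ (k : Type) [Field k] [Fintype k] [CharP k 3] (θ : ℝ), 1 < θ → ∃ (T : ℕ) (C : ℝ),
    ∀ (M : k[X]) (K n : ℕ) (χ : MulChar (RM M K) ℂ), M ≠ 0 → SmallDvd T M →
      ‖SF M (fun p => χ (clM M K p) * -1) n‖ ≤
        C * √(Fintype.card k) ^ n * θ ^ (n + M.natDegree + K)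

/-- Cancellation of the Moebius function on average over classes. -/
def AnPar : Prop :=
  ∀ (k : Type) [Field k] [Fintype k] [CharP k 3] (θ : ℝ), 1 < θ → ∃ (T : ℕ) (C : ℝ),
    ∀ (M : k[X]) (K n : ℕ) (I : Finset k[X]) (c : k[X] → RM M K) (ψ : k[X] → ℂ) (B : ℕ),
      M ≠ 0 → SmallDvd T M → (∀ i ∈ I, ‖ψ i‖ ≤ 1) →
      (∀ i ∈ I, (I.filter fun j => c j = c i).card ≤ B) →
      ‖∑ i ∈ I, ψ i * SFc M K n (c i)‖ ≤
        C * √(Fintype.card k) ^ n * θ ^ (n + M.natDegree + K) * √(I.card * B)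

/-- The Jacobi symbol is periodic in the denominator. -/
def Recip : Prop :=
  ∀ (k : Type) [Field k] [Fintype k] [CharP k 3] (A : k[X]), A ≠ 0 → ∃ ψ : k[X] → ℂ,
    (∀ f, ‖ψ f‖ ≤ 1) ∧
    (∀ f : k[X], f.Monic → Squarefree f → IsCoprime f A →
      ψ f = ∏ p ∈ (normalizedFactors f).toFinset, (leg A p : ℂ)) ∧
    ∀ f g : k[X], f.Monic → g.Monic → g.natDegree = f.natDegree → A ∣ f - g → ψ f = ψ g

end Pool.Agent.Lib.MP_a3f657_nt.Three
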