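import Pool.Agent.Lib.MP_a3f657_nt.C3CellBase
import Pool.Agent.Lib.MP_a3f657_nt.C3AnDefs

/-!
The analytic estimate on cells.
-/

set_option linter.unusedSectionVars false

namespace Pool.Agent.Lib.MP_a3f657_nt.Three

open Pool.Agent.Lib.MP_a3f657_nt.Two

open Polynomial UniqueFactorizationMonoid Finset Filter

open scoped Classical

namespace CA

open Cel (Dec monic_NT monic_PiT dvd_PiT cop_of_monic sqf_of_monic exists_split)

lemma ev (K : ℝ) {ε : ℝ} (hε : 0 < ε) : ∀ᶠ d : ℕ in atTop, K * (6 / 7 : ℝ) ^ d ≤ ε := by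
  have h2 := (tendsto_pow_atTop_nhds_zero_of_lt_one (r := (6 / 7 : ℝ)) (by norm_num)
    (by norm_num)).const_mul K
  rw [mul_zero] at h2
  exact h2.eventually (ge_mem_nhds hε)

lemma num {Q C x : ℝ} (hQ : 2 ≤ Q) {n e u v w c c' d : ℕ}
    (hx : x ≤ C * √Q ^ n * (101 / 100) ^ e * √(Q ^ u * Q ^ v))
    (h1 : n + u + v + 2 * d ≤ 2 * w + 2 * c) (h2 : e ≤ 18 * d + c') :
    x ≤ |C| * (101 / 100) ^ c' * Q ^ c * (6 / 7) ^ d * Q ^ w := by
  have h0 : 1 ≤ √Q := Real.one_le_sqrt.2 (by linarith)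
  have hs : ∀ m : ℕ, √Q ^ (2 * m) = Q ^ m := fun m => by
    rw [pow_mul, Real.sq_sqrt (by linarith)]
  have h3 : √(Q ^ u * Q ^ v) = √Q ^ (u + v) := by
    rw [← pow_add, ← hs, mul_comm 2, pow_mul, Real.sqrt_sq (by positivity)]
  have h4 : √Q ^ n * √Q ^ (u + v) * Q ^ d ≤ Q ^ c * Q ^ w := by
    rw [← hs d, ← pow_add, ← pow_add, ← pow_add, ← hs (c + w)]
    exact pow_le_pow_right₀ h0 (by omega)
  have h5 : (101 / 100 : ℝ) ^ e ≤ (6 / 7) ^ d * Q ^ d * (101 / 100) ^ c' := by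
    refine (pow_le_pow_right₀ (by norm_num) h2).trans ?_
    rw [pow_add, pow_mul, ← mul_pow]
    gcongr
    calc ((101 / 100 : ℝ)) ^ 18 ≤ 6 / 7 * 2 := by norm_num
      _ ≤ _ := by gcongr
  rw [h3] at hx
  calc x ≤ |C| * √Q ^ n * ((6 / 7) ^ d * Q ^ d * (101 / 100) ^ c') * √Q ^ (u + v) := by
        refine hx.trans ?_
        gcongr
        exact le_abs_self C
    _ = |C| * (101 / 100) ^ c' * (6 / 7) ^ d * (√Q ^ n * √Q ^ (u + v) * Q ^ d) := by ring
    _ ≤ |C| * (101 / 100) ^ c' * (6 / 7) ^ d * (Q ^ c * Q ^ w) := by gcongr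
    _ = _ := by ring

variable {k : Type} [Field k]

lemma mem_nf {f p : k[X]} (hf : f ≠ 0) :
    p ∈ (normalizedFactors f).toFinset ↔ Irreducible p ∧ p.Monic ∧ p ∣ f := by
  rw [Multiset.mem_toFinset, Polynomial.mem_normalizedFactors_iff hf]

lemma reverse_congr {f g : k[X]} {n K : ℕ} (hf : f.natDegree = n) (hg : g.natDegree = n) :
    X ^ K ∣ f.reverse - g.reverse ↔ (f - g).degree < (n + 1 - K : ℕ) := by
  rw [X_pow_dvd_iff, degree_lt_iff_coeff_zero]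
  simp only [coeff_sub, coeff_reverse, hf, hg]
  have h0 : ∀ j, n < j → f.coeff j - g.coeff j = 0 := fun j hj => by
    rw [coeff_eq_zero_of_natDegree_lt (hf ▸ hj), coeff_eq_zero_of_natDegree_lt (hg ▸ hj), sub_zero]
  constructor
  · intro h j hj
    rcases lt_or_ge n j with h1 | h1
    · exact h0 j h1
    · have := h (n - j) (by omega)
      rwa [revAt_le (by omega), Nat.sub_sub_self h1] at this
  · intro h d hd
    rcases lt_or_ge n d with h1 | h1
    · rw [revAt_eq_self_of_lt h1]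
      exact h0 d h1
    · rw [revAt_le h1]
      exact h _ (by omega)

lemma clM_eq {M f g : k[X]} {n K : ℕ} (hf : f.natDegree = n) (hg : g.natDegree = n) :
    clM M K f = clM M K g ↔ M ∣ f - g ∧ (f - g).degree < (n + 1 - K : ℕ) := by
  rw [clM, clM, Prod.mk.injEq, AdjoinRoot.mk_eq_mk, AdjoinRoot.mk_eq_mk, reverse_congr hf hg]

variable [Fintype k] [CharP k 3]

variable {T β d : ℕ} {a : WeierstrassCurve k[X]} {t : k[X] × k[X]} {g ν f₀ : k[X]}

lemma exists_dec (hT : GoodT T β d a) : ∃ g ν f₀, Dec T β a g ν f₀ := by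
  obtain ⟨s, l, ⟨u, hu⟩, h2, h3⟩ := exists_split (T := T) (b := β) (x := a.Δ)
    fun p h1 h2 h3 h4 => (hT.2.2.2.2 p h1 h2 h3).2
      (by simpa using pow_sub_one_dvd_derivative_of_pow_dvd h4)
  have h0 : l ≠ 0 := fun h => hT.2.1 (by rw [h2, h, mul_zero, derivative_zero])
  have h4 : C l.leadingCoeff * C l.leadingCoeff⁻¹ = 1 := by
    rw [← C_mul, mul_inv_cancel₀ (leadingCoeff_ne_zero.2 h0), C_1]
  refine ⟨s * C l.leadingCoeff, PiT k T ^ (RR β - β) * (u * C l.leadingCoeff⁻¹),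
    l * C l.leadingCoeff⁻¹, ?_, monic_mul_leadingCoeff_inv h0, ?_, dvd_mul_right _ _,
    fun p h5 h6 h7 h8 => h3 p h5 h6 h7 ?_⟩
  · rw [h2]
    linear_combination (-s * l) * h4
  · have h5 : NT k T β = PiT k T ^ (RR β - β) * (s * u) := by
      rw [← hu, ← pow_add, NT, Nat.sub_add_cancel (by unfold RR; omega)]
    rw [h5]
    linear_combination (PiT k T ^ (RR β - β) * s * u) * h4
  · have h9 : l = l * C l.leadingCoeff⁻¹ * C l.leadingCoeff := by
      linear_combination (-l) * h4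
    rw [h9]
    exact h8.mul_right _

/-- The displacement of the large part of the discriminant. -/
noncomputable def ww (T β : ℕ) (a : WeierstrassCurve k[X]) (ν : k[X]) (t : k[X] × k[X]) : k[X] :=
  ν * (-(a.b₂ ^ 3 * t.2) + a.b₂ ^ 2 * t.1 * (a.b₄ + NT k T β * t.1) - NT k T β ^ 2 * t.1 ^ 3)

lemma M0 (D : Dec T β a g ν f₀) (hT : GoodT T β d a) : a.b₂ ^ 3 * ν ≠ 0 :=
  mul_ne_zero (pow_ne_zero _ hT.1) D.ν0

lemma degM (D : Dec T β a g ν f₀) (hT : GoodT T β d a) :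
    (a.b₂ ^ 3 * ν).natDegree = 3 * a.b₂.natDegree + ν.natDegree := by
  rw [natDegree_mul (pow_ne_zero _ hT.1) D.ν0, natDegree_pow]

lemma small (D : Dec T β a g ν f₀) {T' : ℕ} (h : T' ≤ T) : SmallDvd T' (a.b₂ ^ 3 * ν) :=
  fun _ h1 h2 h3 => ((D.dvdν h1 h2).2 (h3.trans h)).mul_left _

lemma diff (D : Dec T β a g ν f₀) (t : k[X] × k[X]) :
    (shift T β a t).Δ - a.Δ = g * ww T β a ν t := by
  rw [shift_Δ, ww, ← mul_assoc g, D.eN]

lemma fac (D : Dec T β a g ν f₀) (t : k[X] × k[X]) :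
    (shift T β a t).Δ = g * (f₀ + ww T β a ν t) := by
  rw [mul_add, ← diff D, ← D.eΔ]
  ring

lemma low (D : Dec T β a g ν f₀) (ha : DegLE a d) (hT : GoodT T β d a) (hd : RR β ≤ d)
    (ht : t ∈ cell T β d a) :
    ww T β a ν t = 0 ∨ (ww T β a ν t).natDegree + RR β ≤ f₀.natDegree := by
  by_cases h : ww T β a ν t = 0
  · exact Or.inl h
  · have h1 := deg_diff ha hT hd ht
    rw [diff D, natDegree_mul D.g0 h, ← D.degΔ] at h1
    right
    omega

lemma low' (D : Dec T β a g ν f₀) (ha : DegLE a d) (hT : GoodT T β d a) (hd : RR β ≤ d)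
    (ht : t ∈ cell T β d a) : ww T β a ν t ∈ Bad.PL k (f₀.natDegree + 1 - RR β) := by
  rw [Bad.mem_PL_iff]
  rcases low D ha hT hd ht with h | h
  · exact Or.inl h
  · right
    omega

lemma low'' (D : Dec T β a g ν f₀) (ha : DegLE a d) (hT : GoodT T β d a) (hd : RR β ≤ d)
    (ht : t ∈ cell T β d a) : (ww T β a ν t).degree < f₀.degree := by
  rw [degree_eq_natDegree D.mon.ne_zero, ← Bad.mem_PL, Bad.mem_PL_iff]
  rcases low D ha hT hd ht with h | h
  · exact Or.inl h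
  · right
    unfold RR at h
    omega

lemma mon (D : Dec T β a g ν f₀) (ha : DegLE a d) (hT : GoodT T β d a) (hd : RR β ≤ d)
    (ht : t ∈ cell T β d a) : (f₀ + ww T β a ν t).Monic :=
  D.mon.add_of_left (low'' D ha hT hd ht)

lemma deg (D : Dec T β a g ν f₀) (ha : DegLE a d) (hT : GoodT T β d a) (hd : RR β ≤ d)
    (ht : t ∈ cell T β d a) : (f₀ + ww T β a ν t).natDegree = f₀.natDegree :=
  natDegree_add_eq_left_of_degree_lt (low'' D ha hT hd ht)

lemma large (D : Dec T β a g ν f₀) (t : k[X] × k[X]) {p : k[X]} (h1 : p.Monic)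
    (h2 : Irreducible p) (h3 : p ∣ f₀ + ww T β a ν t) : T < p.natDegree :=
  lt_of_not_ge fun h4 =>
    D.lar p h1 h2 h4 ((dvd_add_left (((D.dvdν h1 h2).2 h4).mul_right _)).1 h3)

lemma not_dvd_g (D : Dec T β a g ν f₀) {p : k[X]} (h1 : p.Monic) (h2 : Irreducible p)
    (h3 : T < p.natDegree) : ¬ p ∣ g := fun h5 => by
  have h6 : p ∣ PiT k T ^ RR β := h5.trans ⟨ν, D.eN.symm⟩
  have := (dvd_PiT h1 h2).1 (h2.prime.dvd_of_dvd_pow h6)
  omega

lemma sqf (D : Dec T β a g ν f₀) (ha : DegLE a d) (hT : GoodT T β d a) (hd : RR β ≤ d)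
    (ht : t ∈ cell T β d a) : GoodQ T (shift T β a t) ↔ Squarefree (f₀ + ww T β a ν t) := by
  constructor
  · intro h
    refine sqf_of_monic (mon D ha hT hd ht).ne_zero fun p h1 h2 h3 => ?_
    exact h p h1 h2 (large D t h1 h2 ((dvd_pow_self p two_ne_zero).trans h3))
      (fac D t ▸ h3.mul_left g)
  · intro h p h1 h2 h3 h4
    rw [fac D] at h4
    have h6 := h2.prime.pow_dvd_of_dvd_mul_left 2 (not_dvd_g D h1 h2 h3) h4
    rw [pow_two] at h6
    exact h2.not_isUnit (h p h6)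

lemma cop (D : Dec T β a g ν f₀) (hT : GoodT T β d a) (hQ : GoodQ T (shift T β a t)) :
    IsCoprime (f₀ + ww T β a ν t) (a.b₂ ^ 3 * ν) := by
  refine (cop_of_monic (M0 D hT) fun p h1 h2 h3 h4 => ?_).symm
  have h5 := large D t h1 h2 h4
  rcases h2.prime.dvd_or_dvd h3 with h | h
  · refine (not_dvd_of_goodQ hQ h1 h2 h5 (h2.prime.dvd_of_dvd_pow h)).2 ?_
    rw [fac D]
    exact h4.mul_left g
  · have := (D.dvdν h1 h2).1 h
    omega

lemma bigP_eq (D : Dec T β a g ν f₀) (ha : DegLE a d) (hT : GoodT T β d a) (hd : RR β ≤ d)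
    (ht : t ∈ cell T β d a) :
    bigP T (shift T β a t).Δ = (normalizedFactors (f₀ + ww T β a ν t)).toFinset := by
  have h0 := (mon D ha hT hd ht).ne_zero
  ext p
  rw [bigP, mem_filter, fac D, mem_nf (mul_ne_zero D.g0 h0), mem_nf h0]
  constructor
  · rintro ⟨⟨h1, h2, h3⟩, h4⟩
    exact ⟨h1, h2, (h1.prime.dvd_or_dvd h3).resolve_left (not_dvd_g D h2 h1 h4)⟩
  · rintro ⟨h1, h2, h3⟩
    exact ⟨⟨h1, h2, h3.mul_left g⟩, large D t h2 h1 h3⟩

lemma ww_sub (T β : ℕ) (a : WeierstrassCurve k[X]) (ν x y : k[X]) :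
    f₀ + ww T β a ν (x, y) = f₀ + ww T β a ν (x, 0) - a.b₂ ^ 3 * ν * y := by
  simp only [ww]
  ring

lemma fst_mem (ht : t ∈ cell T β d a) : (t.1, (0 : k[X])) ∈ cell T β d a :=
  mem_cell.2 ⟨(mem_cell.1 ht).1, Bad.mem_PL_iff.2 (Or.inl rfl)⟩

/-- The terms of the sum. -/
lemma term (D : Dec T β a g ν f₀) (ha : DegLE a d) (hT : GoodT T β d a) (hd : RR β ≤ d)
    {ψ : k[X] → ℂ} (h1 : ∀ f : k[X], f.Monic → Squarefree f → IsCoprime f a.b₂ →
      ψ f = ∏ p ∈ (normalizedFactors f).toFinset, (leg a.b₂ p : ℂ))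
    (h2 : ∀ f g : k[X], f.Monic → g.Monic → g.natDegree = f.natDegree → a.b₂ ∣ f - g → ψ f = ψ g)
    (ht : t ∈ cell T β d a) :
    (((if GoodQ T (shift T β a t) then ∏ p ∈ bigP T (shift T β a t).Δ, -leg a.b₂ p else 0 : ℝ)) :
      ℂ) = ψ (f₀ + ww T β a ν (t.1, 0)) * sfw (fun _ => -1) (f₀ + ww T β a ν t) := by
  rw [sfw]
  by_cases hQ : GoodQ T (shift T β a t)
  · have h3 := (sqf D ha hT hd ht).1 hQ
    have h4 : IsCoprime (f₀ + ww T β a ν t) a.b₂ :=
      (cop D hT hQ).of_isCoprime_of_dvd_right ((dvd_pow_self _ three_ne_zero).mul_right _)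
    rw [if_pos hQ, if_pos h3, bigP_eq D ha hT hd ht,
      ← h2 _ _ (mon D ha hT hd ht) (mon D ha hT hd (fst_mem ht))
        ((deg D ha hT hd (fst_mem ht)).trans (deg D ha hT hd ht).symm)
        ⟨-(a.b₂ ^ 2 * ν * t.2), by rw [ww_sub T β a ν t.1 t.2]; ring⟩,
      h1 _ (mon D ha hT hd ht) h3 h4, ← prod_mul_distrib]
    push_cast
    exact prod_congr rfl fun p _ => by ring
  · rw [if_neg hQ, if_neg fun h => hQ ((sqf D ha hT hd ht).2 h)]
    simp

/-- The inner sum. -/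
lemma inner (D : Dec T β a g ν f₀) (ha : DegLE a d) (hT : GoodT T β d a) (hd : RR β ≤ d)
    {x : k[X]} (hx : x ∈ Bad.PL k (4 * d - ((NT k T β).natDegree + 2 * RR β))) :
    SFc (a.b₂ ^ 3 * ν) (RR β) f₀.natDegree
        (clM (a.b₂ ^ 3 * ν) (RR β) (f₀ + ww T β a ν (x, 0))) =
      ∑ y ∈ Bad.PL k (a.Δ.natDegree + 1 - (RR β + 3 * a.b₂.natDegree + (NT k T β).natDegree)),
        sfw (fun _ => -1) (f₀ + ww T β a ν (x, y)) := by
  set J := Bad.PL k (a.Δ.natDegree + 1 - (RR β + 3 * a.b₂.natDegree + (NT k T β).natDegree))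
    with hJ
  have hc : ∀ y ∈ J, (x, y) ∈ cell T β d a := fun y hy => mem_cell.2 ⟨hx, hy⟩
  have h0 : (x, (0 : k[X])) ∈ cell T β d a := hc 0 (Bad.mem_PL_iff.2 (Or.inl rfl))
  have h1 : {f : k[X] | f.Monic ∧ f.natDegree = f₀.natDegree ∧ IsCoprime f (a.b₂ ^ 3 * ν) ∧
      clM (a.b₂ ^ 3 * ν) (RR β) f = clM (a.b₂ ^ 3 * ν) (RR β) (f₀ + ww T β a ν (x, 0))} =
      ((J.filter fun y => IsCoprime (f₀ + ww T β a ν (x, y)) (a.b₂ ^ 3 * ν)).image
        fun y => f₀ + ww T β a ν (x, y) : Finset k[X]) := by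
    ext f
    rw [Set.mem_ofPred_eq, mem_coe, mem_image]
    constructor
    · rintro ⟨h2, h3, h4, h5⟩
      obtain ⟨⟨y, hy⟩, h6⟩ := (clM_eq h3 (deg D ha hT hd h0)).1 h5
      have h7 : f₀ + ww T β a ν (x, 0 - y) = f := by
        rw [ww_sub]
        linear_combination -hy
      refine ⟨0 - y, mem_filter.2 ⟨Bad.sub_mem_PL (Bad.mem_PL_iff.2 (Or.inl rfl)) ?_, h7 ▸ h4⟩, h7⟩
      rw [hy, ← Bad.mem_PL, Bad.mem_PL_iff] at h6
      rw [Bad.mem_PL_iff]
      by_cases h8 : y = 0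
      · exact Or.inl h8
      · have h9 := h6.resolve_left (mul_ne_zero (M0 D hT) h8)
        rw [natDegree_mul (M0 D hT) h8, degM D hT] at h9
        have := D.degN
        have := D.degΔ
        right
        omega
    · rintro ⟨y, hy, rfl⟩
      obtain ⟨h2, h3⟩ := mem_filter.1 hy
      refine ⟨mon D ha hT hd (hc y h2), deg D ha hT hd (hc y h2), h3,
        (clM_eq (deg D ha hT hd (hc y h2)) (deg D ha hT hd h0)).2 ⟨⟨-y, ?_⟩, ?_⟩⟩
      · rw [ww_sub]
        ring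
      · rw [add_sub_add_left_eq_sub, ← Bad.mem_PL]
        exact Bad.sub_mem_PL (low' D ha hT hd (hc y h2)) (low' D ha hT hd h0)
  rw [SFc, h1, finsum_mem_coe_finset, sum_image, sum_filter_of_ne]
  · intro y hy h2
    refine cop D hT ((sqf D ha hT hd (hc y hy)).2 ?_)
    by_contra h3
    exact h2 (if_neg h3)
  · intro y _ z _ h
    simp only at h
    rw [ww_sub T β a ν x y, ww_sub T β a ν x z, sub_right_inj] at h
    exact mul_left_cancel₀ (M0 D hT) h

/-- The fibres of the class map. -/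
lemma fibre (D : Dec T β a g ν f₀) {l : k[X]} (h1 : l ∣ a.b₂)
    (h2 : Squarefree l) (h3 : ∀ p : k[X], p.Monic → Irreducible p → p.natDegree ≤ T → ¬ p ∣ l)
    {x y : k[X]} (h : clM (a.b₂ ^ 3 * ν) (RR β) (f₀ + ww T β a ν (x, 0)) =
      clM (a.b₂ ^ 3 * ν) (RR β) (f₀ + ww T β a ν (y, 0))) : l ∣ x - y := by
  obtain ⟨z, hz⟩ := AdjoinRoot.mk_eq_mk.1 (congrArg Prod.fst h)
  have h4 : (x - y) ^ 3 = x ^ 3 - y ^ 3 := sub_pow_char x y
  have h5 : NT k T β ^ 2 * (x - y) ^ 3 = a.b₂ * (a.b₂ * (x * (a.b₄ + NT k T β * x) -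
      y * (a.b₄ + NT k T β * y)) - a.b₂ ^ 2 * z) := by
    refine mul_left_cancel₀ D.ν0 ?_
    simp only [ww] at hz
    rw [h4]
    linear_combination -hz
  have h6 : IsCoprime l (NT k T β) := cop_of_monic h2.ne_zero fun p h6 h7 h8 h9 =>
    h3 p h6 h7 ((dvd_PiT h6 h7).1 (h7.prime.dvd_of_dvd_pow h9)) h8
  have h7 : l ∣ NT k T β ^ 2 * (x - y) ^ 3 := h5 ▸ h1.mul_right _
  exact (h2.dvd_pow_iff_dvd three_ne_zero).1 (h6.pow_right.dvd_of_dvd_mul_left h7)

end CA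

open CA

theorem cellAn (h1 : AnPar) (h2 : Recip) : CellAn := by
  intro k _ _ _
  obtain ⟨T₁, C₁, H₁⟩ := h1 k (101 / 100) (by norm_num)
  refine ⟨T₁, fun T hT₀ β ε hε => ?_⟩
  filter_upwards [eventually_ge_atTop (RR β),
    ev (|C₁| * (101 / 100) ^ ((NT k T β).natDegree + RR β) * (Fintype.card k : ℝ) ^
      (β + β * (PiT k T).natDegree + 2 * (NT k T β).natDegree + 2 * RR β)) hε]
    with d hd e₁ a ha hT hN
  obtain ⟨g, ν, f₀, D⟩ := exists_dec hT
  obtain ⟨ψ, p1, p2, p3⟩ := h2 k a.b₂ hT.1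
  obtain ⟨l, l1, l2, l3, l4⟩ := exists_large hT hN
  have H := H₁ (a.b₂ ^ 3 * ν) (RR β) f₀.natDegree
    (Bad.PL k (4 * d - ((NT k T β).natDegree + 2 * RR β)))
    (fun x => clM (a.b₂ ^ 3 * ν) (RR β) (f₀ + ww T β a ν (x, 0)))
    (fun x => ψ (f₀ + ww T β a ν (x, 0)))
    (Fintype.card k ^ (4 * d - ((NT k T β).natDegree + 2 * RR β) - l.natDegree))
    (M0 D hT) (small D hT₀) (fun i _ => p1 _) fun i _ =>
      Bad.card_cong _ l2.ne_zero (fun j hj => ((@mem_filter _ _ (_) _ _).1 hj).1) fun x hx y hy =>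
        fibre D l1 l2 l4
          (((@mem_filter _ _ (_) _ _).1 hx).2.trans ((@mem_filter _ _ (_) _ _).1 hy).2.symm)
  have e : ((∑ t ∈ (cell T β d a).filter (fun t => GoodQ T (shift T β a t)),
      ∏ p ∈ bigP T (shift T β a t).Δ, -leg a.b₂ p : ℝ) : ℂ) =
      ∑ x ∈ Bad.PL k (4 * d - ((NT k T β).natDegree + 2 * RR β)), ψ (f₀ + ww T β a ν (x, 0)) *
        SFc (a.b₂ ^ 3 * ν) (RR β) f₀.natDegree
          (clM (a.b₂ ^ 3 * ν) (RR β) (f₀ + ww T β a ν (x, 0))) := by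
    rw [sum_filter, Complex.ofReal_sum, sum_congr rfl fun t ht =>
      term D ha hT hd (fun f a b c => (p2 f a b c).trans (Finset.prod_congr (Finset.ext fun _ => by
        simp only [Multiset.mem_toFinset]) fun _ _ => rfl)) p3 ht, cell, sum_product]
    refine sum_congr rfl fun x hx => ?_
    rw [inner D ha hT hd hx, mul_sum]
  rw [← e, Complex.norm_real, Real.norm_eq_abs, Bad.card_PL] at H
  push_cast at H
  have h4 := D.degΔ
  have h5 := D.degN
  have h6 := degM D hT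
  have h7 := deg_Δ ha
  have h8 := deg_b₂ ha
  have h9 := lt_deg_Δ hT
  have h10 := hT.2.2.1
  have h11 := natDegree_le_of_dvd l1 hT.1
  have h12 := num (w := 4 * d - ((NT k T β).natDegree + 2 * RR β) +
      (a.Δ.natDegree + 1 - (RR β + 3 * a.b₂.natDegree + (NT k T β).natDegree)))
    (c := β + β * (PiT k T).natDegree + 2 * (NT k T β).natDegree + 2 * RR β)
    (c' := (NT k T β).natDegree + RR β) (d := d) Bad.two_le_q H (by omega) (by omega)
  refine h12.trans ?_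
  rw [cell, card_product, Bad.card_PL, Bad.card_PL, ← pow_add, Nat.cast_pow]
  exact mul_le_mul_of_nonneg_right e₁ (by positivity)

end Pool.Agent.Lib.MP_a3f657_nt.Three
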