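import Pool.Agent.Lib.MP_a3f657_nt.C2CellAri
import Pool.Agent.Lib.MP_a3f657_nt.C3HtMin

/-!
Basic properties of cells.
-/

set_option linter.unusedSectionVars false

namespace Pool.Agent.Lib.MP_a3f657_nt.Three

open Pool.Agent.Lib.MP_a3f657_nt.Two

open Polynomial

open scoped Classical

variable {k : Type} [Field k] [Fintype k] [CharP k 3] {T β d : ℕ} {a : WeierstrassCurve k[X]}
  {t u : k[X] × k[X]}

lemma mem_cell : t ∈ cell T β d a ↔
    t.1 ∈ Bad.PL k (4 * d - ((NT k T β).natDegree + 2 * RR β)) ∧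
    t.2 ∈ Bad.PL k (a.Δ.natDegree + 1 - (RR β + 3 * a.b₂.natDegree + (NT k T β).natDegree)) :=
  Finset.mem_product

lemma zero_mem_cell (T β d : ℕ) (a : WeierstrassCurve k[X]) :
    (0 : k[X] × k[X]) ∈ cell T β d a := by
  exact mem_cell.2 ⟨Bad.mem_PL_iff.2 (Or.inl rfl), Bad.mem_PL_iff.2 (Or.inl rfl)⟩

lemma sub_mem_cell (ht : t ∈ cell T β d a) (hu : u ∈ cell T β d a) : t - u ∈ cell T β d a := by
  exact mem_cell.2 ⟨Bad.sub_mem_PL (mem_cell.1 ht).1 (mem_cell.1 hu).1,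
    Bad.sub_mem_PL (mem_cell.1 ht).2 (mem_cell.1 hu).2⟩

lemma shift_sub (T β : ℕ) (a : WeierstrassCurve k[X]) (t u : k[X] × k[X]) :
    shift T β (shift T β a u) (t - u) = shift T β a t := by
  ext1 <;> simp only [shift, Prod.fst_sub, Prod.snd_sub] <;> ring

lemma shift_zero (T β : ℕ) (a : WeierstrassCurve k[X]) : shift T β a 0 = a := by
  ext1 <;> simp [shift]

lemma shift_b₂ (T β : ℕ) (a : WeierstrassCurve k[X]) (t : k[X] × k[X]) :
    (shift T β a t).b₂ = a.b₂ := rfl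

lemma shift_b₄ (T β : ℕ) (a : WeierstrassCurve k[X]) (t : k[X] × k[X]) :
    (shift T β a t).b₄ = a.b₄ - NT k T β * t.1 := by
  have h3 : (3 : k[X]) = 0 := CharP.cast_eq_zero k[X] 3
  simp only [shift, WeierstrassCurve.b₄]
  linear_combination (NT k T β * t.1) * h3

lemma shift_Δ (T β : ℕ) (a : WeierstrassCurve k[X]) (t : k[X] × k[X]) :
    (shift T β a t).Δ - a.Δ = NT k T β * (-(a.b₂ ^ 3 * t.2) +
      a.b₂ ^ 2 * t.1 * (a.b₄ + NT k T β * t.1) - NT k T β ^ 2 * t.1 ^ 3) := by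
  have h3 : (3 : k[X]) = 0 := CharP.cast_eq_zero k[X] 3
  have h6 : (shift T β a t).b₆ = a.b₆ + NT k T β * t.2 := by
    simp only [shift, WeierstrassCurve.b₆]
    linear_combination (NT k T β * t.2) * h3
  rw [disc_poly, disc_poly a, shift_b₂, shift_b₄, h6]
  linear_combination (-(a.b₂ ^ 2 * a.b₄ * (NT k T β * t.1)) - a.b₄ ^ 2 * (NT k T β * t.1) +
    a.b₄ * (NT k T β * t.1) ^ 2) * h3

lemma dvd_diff (T β : ℕ) (a : WeierstrassCurve k[X]) (t : k[X] × k[X]) :
    NT k T β ∣ (shift T β a t).Δ - a.Δ := ⟨_, shift_Δ T β a t⟩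

lemma lt_deg_Δ (hT : GoodT T β d a) : 12 * d + 2 ≤ a.Δ.natDegree + β := by
  have h1 := hT.2.2.2.1
  have h2 : a.Δ.natDegree ≠ 0 := fun h => hT.2.1 (by rw [eq_C_of_natDegree_eq_zero h]; simp)
  have := natDegree_derivative_lt h2
  omega

lemma deg_x (hd : RR β ≤ d) (ht : t ∈ cell T β d a) :
    (NT k T β * t.1).natDegree + 2 * RR β ≤ 4 * d := by
  rcases Bad.mem_PL_iff.1 (mem_cell.1 ht).1 with h | h
  · simp only [h, mul_zero, natDegree_zero]
    omega
  · have := natDegree_mul_le (p := NT k T β) (q := t.1)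
    omega

lemma deg_y (ha : DegLE a d) (hT : GoodT T β d a) (hd : RR β ≤ d) (ht : t ∈ cell T β d a) :
    (NT k T β * t.2).natDegree + 3 * a.b₂.natDegree + RR β ≤ a.Δ.natDegree := by
  rcases Bad.mem_PL_iff.1 (mem_cell.1 ht).2 with h | h
  · simp only [h, mul_zero, natDegree_zero]
    have := lt_deg_Δ hT
    have := deg_b₂ ha
    unfold RR at *
    omega
  · have := natDegree_mul_le (p := NT k T β) (q := t.2)
    omega

lemma deg_diff (ha : DegLE a d) (hT : GoodT T β d a) (hd : RR β ≤ d) (ht : t ∈ cell T β d a) :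
    ((shift T β a t).Δ - a.Δ).natDegree + RR β ≤ a.Δ.natDegree := by
  have h1 : (shift T β a t).Δ - a.Δ = a.b₂ ^ 2 * (NT k T β * t.1) * (a.b₄ + NT k T β * t.1) -
      a.b₂ ^ 3 * (NT k T β * t.2) - (NT k T β * t.1) ^ 3 := by
    rw [shift_Δ]
    ring
  have h2 := deg_x hd ht
  have h3 := deg_y ha hT hd ht
  have h4 := lt_deg_Δ hT
  rw [h1]
  generalize NT k T β * t.1 = x at *
  generalize NT k T β * t.2 = y at *
  have h5 := natDegree_mul_le (p := a.b₂ ^ 2 * x) (q := a.b₄ + x)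
  have h6 := natDegree_mul_le (p := a.b₂ ^ 2) (q := x)
  have h7 := natDegree_mul_le (p := a.b₂ ^ 3) (q := y)
  have h8 := natDegree_add_le a.b₄ x
  have h9 := natDegree_sub_le (a.b₂ ^ 2 * x * (a.b₄ + x)) (a.b₂ ^ 3 * y)
  have h10 := natDegree_sub_le (a.b₂ ^ 2 * x * (a.b₄ + x) - a.b₂ ^ 3 * y) (x ^ 3)
  rw [natDegree_pow] at h6 h7 h10
  have h11 := deg_b₂ ha
  have h12 := deg_b₄ ha
  unfold RR at *
  omega

lemma natDegree_Δ_shift (ha : DegLE a d) (hT : GoodT T β d a) (hd : RR β ≤ d)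
    (ht : t ∈ cell T β d a) : (shift T β a t).Δ.natDegree = a.Δ.natDegree := by
  have h1 := deg_diff ha hT hd ht
  have h2 := lt_deg_Δ hT
  rw [← add_sub_cancel a.Δ (shift T β a t).Δ]
  refine natDegree_add_eq_left_of_natDegree_lt ?_
  unfold RR at *
  omega

lemma degLE_shift (ha : DegLE a d) (hT : GoodT T β d a) (hd : RR β ≤ d)
    (ht : t ∈ cell T β d a) : DegLE (shift T β a t) d := by
  have h2 := deg_x hd ht
  have h3 := deg_y ha hT hd ht
  have h4 := deg_Δ ha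
  have h5 := hT.2.2.1
  refine ⟨ha.1, ha.2.1, ha.2.2.1, natDegree_add_le_of_degree_le ha.2.2.2.1 (by omega),
    natDegree_add_le_of_degree_le ha.2.2.2.2 ?_⟩
  unfold RR at *
  omega

lemma goodT_shift (ha : DegLE a d) (hT : GoodT T β d a) (hd : RR β ≤ d)
    (ht : t ∈ cell T β d a) : GoodT T β d (shift T β a t) := by
  have h1 := deg_diff ha hT hd ht
  have h2 : derivative (shift T β a t).Δ =
      derivative a.Δ + derivative ((shift T β a t).Δ - a.Δ) := by
    rw [derivative_sub]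
    ring
  have h3 := natDegree_derivative_le ((shift T β a t).Δ - a.Δ)
  have h4 := deg_Δ ha
  have h5 := hT.2.2.2.1
  have h6 : (derivative ((shift T β a t).Δ - a.Δ)).natDegree < (derivative a.Δ).natDegree := by
    unfold RR at *
    omega
  have h7 : (derivative (shift T β a t).Δ).natDegree = (derivative a.Δ).natDegree := by
    rw [h2, natDegree_add_eq_left_of_natDegree_lt h6]
  refine ⟨hT.1, fun h => ?_, hT.2.2.1, by rw [h7]; exact h5, fun p hp1 hp2 hp3 =>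
    ⟨(hT.2.2.2.2 p hp1 hp2 hp3).1, fun h => (hT.2.2.2.2 p hp1 hp2 hp3).2 ?_⟩⟩
  · rw [h, natDegree_zero] at h7
    omega
  · have h8 : p ^ RR β ∣ (shift T β a t).Δ - a.Δ :=
      (pow_dvd_pow_of_dvd ((Cel.dvd_PiT hp1 hp2).2 hp3) _).trans (dvd_diff T β a t)
    have h9 := (pow_dvd_pow p (show β ≤ RR β - 1 by unfold RR; omega)).trans
      (pow_sub_one_dvd_derivative_of_pow_dvd h8)
    rw [h2] at h
    exact (dvd_add_left h9).1 h

lemma cell_shift (ha : DegLE a d) (hT : GoodT T β d a) (hd : RR β ≤ d)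
    (ht : t ∈ cell T β d a) : cell T β d (shift T β a t) = cell T β d a := by
  unfold cell
  rw [natDegree_Δ_shift ha hT hd ht]
  rfl

lemma height_shift (ha : DegLE a d) (hT : GoodT T β d a) (hQ : GoodQ T a) (hd : RR β ≤ d)
    (ht : t ∈ cell T β d a) (h : HeightLE (a.baseChange (RatFunc k)) (d - 1)) :
    HeightLE ((shift T β a t).baseChange (RatFunc k)) (d - 1) := by
  have e4 : (shift T β a t).a₄ - a.a₄ = NT k T β * t.1 := add_sub_cancel_left _ _
  have e6 : (shift T β a t).a₆ - a.a₆ = NT k T β * t.2 := add_sub_cancel_left _ _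
  have h2 := deg_x hd ht
  have h3 := deg_y ha hT hd ht
  have h4 := deg_Δ ha
  have h5 := hT.2.2.1
  refine heightCongr k d a (shift T β a t) (by unfold RR at hd; omega) ha (degLE_shift ha hT hd ht)
    (fun h0 => hT.2.1 (by rw [h0, derivative_zero])) rfl rfl rfl
    (by rw [e4]; unfold RR at *; omega) (by rw [e6]; unfold RR at *; omega) (fun p hp hp2 => ?_) h
  have q1 : (normalize p).Monic := monic_normalize hp.ne_zero
  have q2 : Associated p (normalize p) := associated_normalize p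
  have q3 : Irreducible (normalize p) := q2.irreducible hp
  have q4 : (normalize p).natDegree ≤ T := by
    by_contra hc
    exact hQ _ q1 q3 (not_le.1 hc) (((pow_dvd_pow_of_dvd q2.symm.dvd 2).trans
      (pow_dvd_pow p (by norm_num))).trans hp2)
  have q5 : p ^ 6 ∣ NT k T β := ((pow_dvd_pow_of_dvd q2.dvd 6).trans
    (pow_dvd_pow _ (show 6 ≤ RR β by unfold RR; omega))).trans
      (pow_dvd_pow_of_dvd ((Cel.dvd_PiT q1 q3).2 q4) _)
  rw [e4, e6]
  exact ⟨q5.mul_right _, q5.mul_right _⟩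

/-- A large prime that divides `b₂` divides neither `b₄` nor the discriminant. -/
lemma not_dvd_of_goodQ (hQ : GoodQ T a) {p : k[X]} (h1 : p.Monic) (h2 : Irreducible p)
    (h3 : T < p.natDegree) (h4 : p ∣ a.b₂) : ¬ p ∣ a.b₄ ∧ ¬ p ∣ a.Δ := by
  have h5 : p ^ 2 ∣ -(a.b₂ ^ 3 * a.b₆) + a.b₂ ^ 2 * a.b₄ ^ 2 :=
    dvd_add (dvd_neg.2 (((pow_dvd_pow_of_dvd h4 2).trans
      (pow_dvd_pow _ (by norm_num))).mul_right _)) ((pow_dvd_pow_of_dvd h4 2).mul_right _)
  have h6 : ¬ p ∣ a.b₄ := fun h => hQ p h1 h2 h3 (by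
    rw [disc_poly]
    exact dvd_add h5 ((pow_dvd_pow_of_dvd h 2).trans (pow_dvd_pow _ (by norm_num))))
  refine ⟨h6, fun h => h6 ?_⟩
  rw [disc_poly, dvd_add_right ((dvd_pow_self p two_ne_zero).trans h5)] at h
  exact h2.prime.dvd_of_dvd_pow h

/-- The large part of `b₂`. -/
lemma exists_large (hT : GoodT T β d a) (hN : GoodN T a) : ∃ l : k[X], l ∣ a.b₂ ∧ Squarefree l ∧
    a.b₂.natDegree ≤ l.natDegree + β * (PiT k T).natDegree ∧
      ∀ p : k[X], p.Monic → Irreducible p → p.natDegree ≤ T → ¬ p ∣ l := by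
  obtain ⟨s, l, h1, h2, h3⟩ := Cel.exists_split (T := T) (b := β) (x := a.b₂)
    fun p h1 h2 h3 h4 => (hT.2.2.2.2 p h1 h2 h3).1 ((pow_dvd_pow p (Nat.le_succ β)).trans h4)
  have hl : l ∣ a.b₂ := ⟨s, by rw [h2, mul_comm]⟩
  refine ⟨l, hl, Cel.sqf_of_monic (ne_zero_of_dvd_ne_zero hT.1 hl) fun p p1 p2 p3 => ?_, ?_, h3⟩
  · exact hN p p1 p2 (lt_of_not_ge fun h =>
      h3 p p1 p2 h ((dvd_pow_self p two_ne_zero).trans p3)) (p3.trans hl)
  have h4 := natDegree_le_of_dvd h1 ((Cel.monic_PiT T).pow β).ne_zero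
  rw [natDegree_pow] at h4
  have h5 := natDegree_mul_le (p := s) (q := l)
  rw [← h2] at h5
  omega

end Pool.Agent.Lib.MP_a3f657_nt.Three
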