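import Pool.Agent.Lib.MP_a3f657_nt.C2CellRed
import Pool.Agent.Lib.MP_a3f657_nt.C3CellBase

/-!
Reduction of linear inequalities for densities to inequalities on cells.
-/

namespace Pool.Agent.Lib.MP_a3f657_nt.Three

open Pool.Agent.Lib.MP_a3f657_nt.Two

open Polynomial

open scoped Classical

/-- Averaging over a family of translations that is closed under inversion. -/
lemma red_avg {α γ : Type} [InvolutiveNeg γ] (X : Finset α) (I : α → Finset γ) (sh : α → γ → α)
    (φ : α → ℝ) (ε : ℝ) (hne : ∀ a ∈ X, (I a).Nonempty)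
    (hX : ∀ a ∈ X, ∀ t ∈ I a, sh a t ∈ X ∧ I (sh a t) = I a ∧ -t ∈ I a ∧ sh (sh a t) (-t) = a)
    (h : ∀ a ∈ X, ∑ t ∈ I a, φ (sh a t) ≤ ε * (I a).card) : ∑ a ∈ X, φ a ≤ ε * X.card := by
  have hpos : ∀ a ∈ X, (0 : ℝ) < (I a).card := fun a ha => by
    exact_mod_cast (hne a ha).card_pos
  have e1 : ∑ a ∈ X, φ a = ∑ a ∈ X, ∑ t ∈ I a, φ a / (I a).card :=
    Finset.sum_congr rfl fun a ha => by
      rw [Finset.sum_const, nsmul_eq_mul, mul_div_cancel₀ _ (hpos a ha).ne']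
  have e2 : ∑ a ∈ X, ∑ t ∈ I a, φ a / (I a).card =
      ∑ a ∈ X, ∑ t ∈ I a, φ (sh a t) / (I a).card := by
    rw [Finset.sum_sigma', Finset.sum_sigma']
    have m : ∀ x ∈ X.sigma I, (⟨sh x.1 x.2, -x.2⟩ : Σ _ : α, γ) ∈ X.sigma I := fun x hx => by
      obtain ⟨h1, h2⟩ := Finset.mem_sigma.1 hx
      obtain ⟨h3, h4, h5, -⟩ := hX _ h1 _ h2
      exact Finset.mem_sigma.2 ⟨h3, by rw [h4]; exact h5⟩
    have m2 : ∀ x ∈ X.sigma I,
        (⟨sh (sh x.1 x.2) (-x.2), - -x.2⟩ : Σ _ : α, γ) = x := fun x hx => by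
      obtain ⟨h1, h2⟩ := Finset.mem_sigma.1 hx
      rw [(hX _ h1 _ h2).2.2.2, neg_neg]
    refine Finset.sum_nbij' (fun x => ⟨sh x.1 x.2, -x.2⟩) (fun x => ⟨sh x.1 x.2, -x.2⟩) m m m2 m2
      fun x hx => ?_
    obtain ⟨h1, h2⟩ := Finset.mem_sigma.1 hx
    obtain ⟨-, h4, -, h5⟩ := hX _ h1 _ h2
    simp only [h4, h5]
  rw [e1, e2]
  calc _ ≤ ∑ _a ∈ X, ε := Finset.sum_le_sum fun a ha => by
        rw [← Finset.sum_div, div_le_iff₀ (hpos a ha)]
        exact h a ha
    _ = _ := by rw [Finset.sum_const, nsmul_eq_mul, mul_comm]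

lemma red_tupNum_eq {k : Type} [Field k] [Fintype k] (P : WeierstrassCurve (RatFunc k) → Prop)
    (d : ℕ) : (tupNum P d : ℝ) = ∑ a ∈ (finite_degLE (k := k) d).toFinset,
      if MinTup a d ∧ P (a.baseChange (RatFunc k)) then (1 : ℝ) else 0 := by
  rw [Finset.sum_boole, tupNum, ← Set.ncard_coe_finset]
  congr 2
  ext a
  simp only [Set.mem_ofPred_eq, Finset.coe_filter, Set.Finite.mem_toFinset]
  exact ⟨fun h => ⟨h.1.1, h⟩, fun h => h.2⟩

theorem cellRed (h1 : Transfer) (h2 : BadSmall) : CellRed := by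
  intro k _ _ _ ι s P c c₀ hP ⟨T₀, hT₀⟩ ε hε
  set P' : ι → WeierstrassCurve (RatFunc k) → Prop :=
    fun i W => ∃ C : WeierstrassCurve.VariableChange (RatFunc k), P i (C • W) with hP'
  have hd : ∀ i d, dens (P i) d = dens (P' i) d := fun i d => by
    unfold dens
    rw [hP', Red.num_sat]
  simp only [hd]
  refine h1 k ι s P' c c₀ (fun i C W => ⟨fun ⟨C', h⟩ => ⟨C' * C, by rwa [mul_smul]⟩,
    fun ⟨C', h⟩ => ⟨C' * C⁻¹, by rwa [mul_smul, inv_smul_smul]⟩⟩) (fun δ hδ => ?_) ε hε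
  set K : ℝ := ∑ i ∈ s, |c i| + |c₀| + 1 with hK
  have hK0 : 0 < K := by
    have : 0 ≤ ∑ i ∈ s, |c i| := Finset.sum_nonneg fun i _ => abs_nonneg _
    positivity
  have hq : (0 : ℝ) < Fintype.card k := Bad.q_pos
  obtain ⟨T, β, hT, hb⟩ := h2 k (δ / 2 / K) (by positivity) T₀
  filter_upwards [hb, hT₀ T hT β (δ / 2 / (Fintype.card k : ℝ) ^ 5) (by positivity),
    Filter.eventually_ge_atTop (RR β)] with d hb hc hd
  have hd0 : d ≠ 0 := by unfold RR at hd; omega
  set D := (finite_degLE (k := k) d).toFinset with hD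
  have memD : ∀ a, a ∈ D ↔ DegLE a d := fun a => by simp [hD]
  set ψ : WeierstrassCurve k[X] → ℝ := fun a => if MinTup a d then
    ∑ i ∈ s, (if P' i (a.baseChange (RatFunc k)) then c i else 0) - c₀ else 0 with hψ
  have hψK : ∀ a, ψ a ≤ K := fun a => by
    simp only [hψ]
    split_ifs
    · have h1 : ∑ i ∈ s, (if P' i (a.baseChange (RatFunc k)) then c i else 0) ≤ ∑ i ∈ s, |c i| :=
        Finset.sum_le_sum fun i _ => by
          split_ifs
          · exact le_abs_self _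
          · exact abs_nonneg _
      have h2 := neg_abs_le c₀
      linarith
    · exact hK0.le
  have e1 : ∑ i ∈ s, c i * (tupNum (P' i) d : ℝ) - c₀ * (tupNum (k := k) (fun _ => True) d : ℝ) =
      ∑ a ∈ D, ψ a := by
    simp only [red_tupNum_eq, Finset.mul_sum, ← hD]
    rw [Finset.sum_comm, ← Finset.sum_sub_distrib]
    refine Finset.sum_congr rfl fun a _ => ?_
    simp only [hψ]
    by_cases h : MinTup a d <;> simp [h]
  set φ : WeierstrassCurve k[X] → ℝ := fun a => if GoodQ T a then ψ a else 0 with hφ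
  set Y := D.filter fun a => GoodT T β d a ∧ GoodN T a with hY
  set B := D.filter fun a => ¬ (GoodT T β d a ∧ GoodN T a ∧ GoodQ T a) with hB
  have e2 : ∑ a ∈ D, ψ a ≤ K * B.card + ∑ a ∈ Y, φ a := by
    rw [hY, hB, Finset.sum_filter, Finset.card_filter, Nat.cast_sum, Finset.mul_sum,
      ← Finset.sum_add_distrib]
    refine Finset.sum_le_sum fun a _ => ?_
    have := hψK a
    by_cases h1 : GoodT T β d a <;> by_cases h2 : GoodN T a <;> by_cases h3 : GoodQ T a <;>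
      simp [hφ, h1, h2, h3, this]
  have e3 : (B.card : ℝ) ≤ δ / 2 / K * (Fintype.card k : ℝ) ^ (16 * d) := by
    refine le_of_eq_of_le ?_ hb
    rw [← Set.ncard_coe_finset]
    congr 2
    ext a
    simp only [hB, Finset.coe_filter, memD]
  have memY : ∀ a, a ∈ Y ↔ DegLE a d ∧ GoodT T β d a ∧ GoodN T a := fun a => by
    rw [hY, Finset.mem_filter, memD]
  have e4 : ∑ a ∈ Y, φ a ≤ δ / 2 / (Fintype.card k : ℝ) ^ 5 * Y.card := by
    refine red_avg Y (cell T β d) (shift T β) φ _ (fun a _ => ⟨0, zero_mem_cell T β d a⟩)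
      (fun a ha t ht => ?_) fun a ha => ?_
    · obtain ⟨h1, h2, h3⟩ := (memY a).1 ha
      refine ⟨(memY _).2 ⟨degLE_shift h1 h2 hd ht, goodT_shift h1 h2 hd ht, h3⟩,
        cell_shift h1 h2 hd ht, ?_, ?_⟩
      · exact zero_sub t ▸ sub_mem_cell (zero_mem_cell T β d a) ht
      · rw [← zero_sub t, shift_sub, shift_zero]
    obtain ⟨h1, h2, h3⟩ := (memY a).1 ha
    by_cases h : ∃ u ∈ cell T β d a, GoodQ T (shift T β a u) ∧
        HeightLE ((shift T β a u).baseChange (RatFunc k)) (d - 1)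
    · obtain ⟨u, hu, h4, h5⟩ := h
      refine le_of_eq_of_le (Finset.sum_eq_zero fun t ht => ?_) (by positivity)
      have h6 := height_shift (t := t - u) (degLE_shift h1 h2 hd hu) (goodT_shift h1 h2 hd hu) h4 hd
        (by rw [cell_shift h1 h2 hd hu]; exact sub_mem_cell ht hu) h5
      rw [shift_sub] at h6
      have h7 : ¬ MinTup (shift T β a t) d := fun h8 => h8.2.2.2.elim hd0 fun h9 => h9 h6
      simp [hφ, hψ, h7]
    · refine le_of_eq_of_le ?_ (hc a h1 h2 h3)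
      rw [Finset.sum_filter]
      refine Finset.sum_congr rfl fun t ht => ?_
      simp only [hφ]
      split_ifs with h4
      · have h5 := goodT_shift h1 h2 hd ht
        have h6 : MinTup (shift T β a t) d := ⟨degLE_shift h1 h2 hd ht,
          fun h0 => h5.2.1 (by rw [h0, derivative_zero]), h5.1,
          Or.inr fun h7 => h ⟨t, ht, h4, h7⟩⟩
        have h8 : ∀ i, P' i ((shift T β a t).baseChange (RatFunc k)) ↔
            P i ((shift T β a t).baseChange (RatFunc k)) := fun i =>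
          ⟨fun ⟨C, h9⟩ => (hP i C _ h5.1 h5.2.1).1 h9, fun h9 => ⟨1, by rwa [one_smul]⟩⟩
        simp only [hψ, h6, if_true, h8]
      · rfl
  have e5 : (Y.card : ℝ) ≤ (Fintype.card k : ℝ) ^ 5 * (Fintype.card k : ℝ) ^ (16 * d) := by
    have h1 : Y.card ≤ D.card := Finset.card_filter_le _ _
    have h2 : D.card = Fintype.card k ^ (d + 2 * d + 3 * d + 4 * d + 6 * d + 5) := by
      rw [← card_Box, hD, ← Set.ncard_eq_toFinset_card _ (finite_degLE d)]
      rfl
    rw [← pow_add]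
    exact_mod_cast h1.trans (by rw [h2]; exact le_of_eq (by congr 1; omega))
  have e6 : K * (δ / 2 / K * (Fintype.card k : ℝ) ^ (16 * d)) =
      δ / 2 * (Fintype.card k : ℝ) ^ (16 * d) := by field_simp
  have e7 : δ / 2 / (Fintype.card k : ℝ) ^ 5 *
      ((Fintype.card k : ℝ) ^ 5 * (Fintype.card k : ℝ) ^ (16 * d)) =
      δ / 2 * (Fintype.card k : ℝ) ^ (16 * d) := by field_simp
  have e8 := mul_le_mul_of_nonneg_left e3 hK0.le
  have e9 := mul_le_mul_of_nonneg_left e5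
    (show 0 ≤ δ / 2 / (Fintype.card k : ℝ) ^ 5 by positivity)
  linarith

end Pool.Agent.Lib.MP_a3f657_nt.Three
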