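import Pool.Agent.Lib.MP_a3f657_nt.C2HtMain
import Pool.Agent.Lib.MP_a3f657_nt.C3HtMin

/-!
Transfer from Weierstrass equations to densities of isomorphism classes.
-/

namespace Pool.Agent.Lib.MP_a3f657_nt.Three

open Pool.Agent.Lib.MP_a3f657_nt.Two

namespace HtM

open WeierstrassCurve
open scoped Polynomial

variable {k : Type} [Field k]

/-- Classes of height exactly `q ^ e` with `b₂ ≠ 0` and the property `P`. -/
def Mcl (P : WeierstrassCurve (RatFunc k) → Prop) (e : ℕ) :=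
  clq '' {a : WeierstrassCurve k[X] | MinTup a e ∧ P (a.baseChange (RatFunc k))}

/-- Classes of height at most `q ^ d` with `b₂ = 0`. -/
def Zcl (k : Type) [Field k] (d : ℕ) := clq '' {a : WeierstrassCurve k[X] | DegLE a d ∧ a.b₂ = 0}

lemma stab_iff (a : WeierstrassCurve k[X]) (u : k[X]ˣ) (r s t : k[X]) :
    (⟨u, r, s, t⟩ : VariableChange k[X]) • a = a ↔ a.a₁ + 2 * s = u * a.a₁ ∧
      a.a₂ - s * a.a₁ + 3 * r - s ^ 2 = u ^ 2 * a.a₂ ∧ a.a₃ + r * a.a₁ + 2 * t = u ^ 3 * a.a₃ ∧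
      a.a₄ - s * a.a₃ + 2 * r * a.a₂ - (t + r * s) * a.a₁ + 3 * r ^ 2 - 2 * s * t = u ^ 4 * a.a₄ ∧
      a.a₆ + r * a.a₄ + r ^ 2 * a.a₂ + r ^ 3 - t * a.a₃ - t ^ 2 - r * t * a.a₁ =
        u ^ 6 * a.a₆ := by
  rw [smul_eq_iff, WeierstrassCurve.ext_iff]
  simp only [trn, sc, variableChange_a₁, variableChange_a₂, variableChange_a₃, variableChange_a₄,
    variableChange_a₆, inv_one, Units.val_one, one_pow, one_mul]

variable {P : WeierstrassCurve (RatFunc k) → Prop}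

lemma disjoint_Mcl {e e' : ℕ} (h : e < e') : Disjoint (Mcl P e) (Mcl P e') := by
  rw [Set.disjoint_left]
  rintro _ ⟨a, ⟨ha, -⟩, rfl⟩ ⟨a', ⟨ha', -⟩, h1⟩
  refine ha'.2.2.2.resolve_left (by omega) ((cls_height h1).2 ?_)
  exact HeightLE.mono ⟨1, a, ha.1, one_smul _ _⟩ (by omega)

lemma finite_tup [Fintype k] (e : ℕ) :
    {a : WeierstrassCurve k[X] | MinTup a e ∧ P (a.baseChange (RatFunc k))}.Finite :=
  (finite_degLE e).subset fun _ h => h.1.1

variable [CharP k 3]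

lemma cls_b₂ {a a' : WeierstrassCurve k[X]} (h : clq a' = clq a) (h' : a.b₂ = 0) :
    a'.b₂ = 0 := by
  obtain ⟨C, hC⟩ := cls_eq.1 h
  have h1 := congrArg WeierstrassCurve.b₂ hC
  have h3 : (3 : RatFunc k) = 0 := CharP.cast_eq_zero (RatFunc k) 3
  have h12 : (12 : RatFunc k) = 0 := by linear_combination 4 * h3
  simpa [variableChange_b₂, baseChange, h', h12] using h1.symm

lemma degLE_smul {a : WeierstrassCurve k[X]} {d : ℕ} (h : DegLE a d) (C : Grp k d) :
    DegLE (C • a) d := by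
  have h1 : (C.1 • a) = sc ((C.1.u⁻¹ : k[X]ˣ) : k[X]) (Two.trn C.1.r C.1.s C.1.t a) := by
    rw [(smul_eq_iff C.1 a _).1 rfl]
    simp [sc, ← mul_assoc, ← mul_pow]
  obtain ⟨h₁, h₂, h₃, h₄, h₆⟩ := degLE_tr h C.2.1 C.2.2.1 C.2.2.2
  change DegLE (C.1 • a) d
  rw [h1]
  exact ⟨by simpa only [pow_one, mul_comm, sc] using deg_mul_unit h₁ C.1.u⁻¹ 1,
    by simpa only [mul_comm, sc] using deg_mul_unit h₂ C.1.u⁻¹ 2,
    by simpa only [mul_comm, sc] using deg_mul_unit h₃ C.1.u⁻¹ 3,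
    by simpa only [mul_comm, sc] using deg_mul_unit h₄ C.1.u⁻¹ 4,
    by simpa only [mul_comm, sc] using deg_mul_unit h₆ C.1.u⁻¹ 6⟩

lemma fibre_eq_orbit {a : WeierstrassCurve k[X]} {d : ℕ} (h : MinTup a d) :
    {a' | DegLE a' d ∧ clq a' = clq a} = MulAction.orbit (Grp k d) a := by
  ext a'
  constructor
  · rintro ⟨h1, h2⟩
    obtain ⟨C, hC⟩ := cls_eq.1 h2.symm
    obtain ⟨u, r, s, t, hu, hu', hr, hs, ht, h3⟩ := of_min h1 h.1 h.2.1 h.2.2.2 hC
    obtain ⟨u, rfl⟩ : IsUnit u := Polynomial.isUnit_iff_degree_eq_zero.2 (by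
      rw [Polynomial.degree_eq_natDegree hu, show u.natDegree = 0 by omega]; rfl)
    have h4 := (smul_eq_iff ⟨u, r, s, t⟩ a' a).2 h3
    exact ⟨(⟨⟨u, r, s, t⟩, hr, hs, ht⟩ : Grp k d)⁻¹, inv_smul_eq_iff.2 h4.symm⟩
  · rintro ⟨C, rfl⟩
    exact ⟨degLE_smul h.1 C, cls_smul C.1 a⟩

lemma card_stab_min {a : WeierstrassCurve k[X]} {d : ℕ} (h : DegLE a d)
    (h1 : a.b₂ ≠ 0) : Nat.card (MulAction.stabilizer (Grp k d) a) = 2 := by
  let C₀ : Grp k d := ⟨⟨-1, 0, -a.a₁, -a.a₃⟩, by simp [Pol],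
    by simpa only [Pol, Set.mem_ofPred_eq, Polynomial.natDegree_neg] using h.1,
    by simpa only [Pol, Set.mem_ofPred_eq, Polynomial.natDegree_neg] using h.2.2.1⟩
  have h3 : (3 : k[X]) = 0 := CharP.cast_eq_zero k[X] 3
  have : (MulAction.stabilizer (Grp k d) a : Set (Grp k d)) = {1, C₀} := by
    ext ⟨⟨u, r, s, t⟩, hC⟩
    simp only [SetLike.mem_coe, MulAction.mem_stabilizer_iff, Set.mem_insert_iff,
      Set.mem_singleton_iff, Subtype.ext_iff, C₀, Subgroup.coe_one, VariableChange.one_def,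
      VariableChange.mk.injEq, Subgroup.mk_smul, stab_iff]
    constructor
    · rintro ⟨e₁, e₂, e₃, e₄, -⟩
      have e₅ : (((u : k[X]) - 1) * (u + 1)) * a.b₂ = 0 := by
        rw [b₂]
        linear_combination (-(a.a₁ + 2 * s + u * a.a₁)) * e₁ - 4 * e₂ + 4 * r * h3
      rcases mul_eq_zero.1 ((mul_eq_zero.1 e₅).resolve_right h1) with e₆ | e₆
      · obtain rfl : u = 1 := Units.ext (sub_eq_zero.1 e₆)
        simp only [Units.val_one, one_pow, one_mul] at e₁ e₂ e₃ e₄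
        obtain rfl : s = 0 := by linear_combination -e₁ + s * h3
        obtain rfl : t = r * a.a₁ := by linear_combination -e₃ + t * h3
        obtain rfl : r = 0 := by
          refine (mul_eq_zero.1 (?_ : r * a.b₂ = 0)).resolve_right h1
          rw [b₂]
          linear_combination -e₄ + (2 * r * a.a₂ + r ^ 2) * h3
        exact Or.inl ⟨rfl, rfl, rfl, zero_mul _⟩
      · obtain rfl : u = -1 := Units.ext (eq_neg_of_add_eq_zero_left e₆)
        simp only [Units.val_neg, Units.val_one] at e₁ e₂ e₃ e₄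
        obtain rfl : s = -a.a₁ := by linear_combination -e₁ + (s + a.a₁) * h3
        obtain rfl : t = r * a.a₁ - a.a₃ := by linear_combination -e₃ + (t + a.a₃) * h3
        obtain rfl : r = 0 := by
          refine (mul_eq_zero.1 (?_ : r * a.b₂ = 0)).resolve_right h1
          rw [b₂]
          linear_combination -e₄ + (2 * r * a.a₂ + r ^ 2 + r * a.a₁ ^ 2) * h3
        exact Or.inr ⟨rfl, rfl, rfl, by ring⟩
    · rintro (⟨rfl, rfl, rfl, rfl⟩ | ⟨rfl, rfl, rfl, rfl⟩)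
      · simp
      · simp only [Units.val_neg, Units.val_one]
        exact ⟨by ring, by ring, by ring, by ring, by ring⟩
  rw [← SetLike.coe_sort_coe, Nat.card_coe_set_eq, this, Set.ncard_pair]
  intro h4
  have h5 : (1 : k[X]) = -1 := congrArg (fun C : Grp k d => (C.1.u : k[X])) h4
  exact one_ne_zero (by linear_combination h3 - h5 : (1 : k[X]) = 0)

lemma of_cls {a a' : WeierstrassCurve k[X]} {e : ℕ} (h : MinTup a e) (h1 : DegLE a' e)
    (h2 : clq a' = clq a) : MinTup a' e :=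
  ⟨h1, fun h3 => h.2.1 (cls_Δ h2.symm h3), fun h3 => h.2.2.1 (cls_b₂ h2.symm h3),
    by rw [cls_height h2]; exact h.2.2.2⟩

variable [Fintype k]

lemma card_stab_le (a : WeierstrassCurve k[X]) (d : ℕ) :
    Nat.card (MulAction.stabilizer (Grp k d) a) ≤ Nat.card k[X]ˣ * 3 := by
  classical
  have := Fintype.ofFinite k[X]ˣ
  have h3 : (3 : k[X]) = 0 := CharP.cast_eq_zero k[X] 3
  let f : k[X]ˣ → k[X][X] := fun u => Polynomial.X ^ 3 + (Polynomial.C a.b₂ * Polynomial.X ^ 2 +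
    Polynomial.C (2 * a.b₄) * Polynomial.X + Polynomial.C (a.b₆ - u ^ 6 * a.b₆))
  have hf : ∀ u, (f u).Monic ∧ (f u).natDegree ≤ 3 := fun u =>
    ⟨Polynomial.monic_X_pow_add (Polynomial.degree_quadratic_le.trans_lt (by norm_num)),
      by simp only [f]; compute_degree⟩
  let S : Finset (VariableChange k[X]) := Finset.univ.biUnion fun u =>
    (f u).roots.toFinset.image fun r =>
      ⟨u, r, a.a₁ - u * a.a₁, a.a₃ + r * a.a₁ - u ^ 3 * a.a₃⟩
  have h4 : S.card ≤ Nat.card k[X]ˣ * 3 := by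
    rw [Nat.card_eq_fintype_card]
    exact Finset.card_biUnion_le_card_mul _ _ _ fun u _ => Finset.card_image_le.trans
      ((Multiset.toFinset_card_le _).trans ((Polynomial.card_roots' _).trans (hf u).2))
  rw [← SetLike.coe_sort_coe, Nat.card_coe_set_eq]
  refine le_trans (Set.ncard_le_ncard_of_injOn Subtype.val ?_ Subtype.val_injective.injOn
    S.finite_toSet) (by rwa [Set.ncard_coe_finset])
  rintro ⟨⟨u, r, s, t⟩, hC⟩ h
  simp only [SetLike.mem_coe, MulAction.mem_stabilizer_iff, Subgroup.mk_smul, stab_iff] at h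
  obtain ⟨e₁, -, e₃, -, e₆⟩ := h
  simp only [S, Finset.coe_biUnion, Finset.coe_image, Set.mem_iUnion, Set.mem_image,
    Finset.mem_coe, Multiset.mem_toFinset, Polynomial.mem_roots (hf _).1.ne_zero]
  refine ⟨u, Finset.mem_univ _, r, ?_, ?_⟩
  · simp only [f, Polynomial.IsRoot, Polynomial.eval_add, Polynomial.eval_pow, Polynomial.eval_X,
      Polynomial.eval_mul, Polynomial.eval_C, b₂, b₄, b₆]
    linear_combination (a.a₃ + r * a.a₁ + 2 * t + u ^ 3 * a.a₃) * e₃ + 4 * e₆ - r ^ 3 * h3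
  · simp only [VariableChange.mk.injEq, true_and]
    exact ⟨by linear_combination e₁ - s * h3, by linear_combination e₃ - t * h3⟩

lemma tup_eq (hP : ∀ (C : VariableChange (RatFunc k)) W, P (C • W) ↔ P W) (e : ℕ) :
    tupNum P e * 2 = (Mcl P e).ncard * Nat.card (Grp k e) := by
  refine ncard_eq_mul (finite_tup e) clq fun a ha => ?_
  rw [← orbit_mul_stab e a, card_stab_min ha.1.1 ha.1.2.2.1, ← fibre_eq_orbit ha.1]
  congr 2
  ext a'
  refine ⟨fun h => ⟨h.1.1.1, h.2⟩, fun h => ⟨⟨of_cls ha.1 h.1 h.2, ?_⟩, h.2⟩⟩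
  obtain ⟨C, hC⟩ := cls_eq.1 h.2
  rw [← hC, hP]
  exact ha.2

lemma card_Mcl_le (e : ℕ) :
    (Mcl (k := k) (fun _ => True) e).ncard ≤ 2 * Fintype.card k ^ (10 * e + 2) := by
  have h1 := tup_eq (k := k) (P := fun _ => True) (fun _ _ => Iff.rfl) e
  have h2 : tupNum (k := k) (fun _ => True) e ≤ Fintype.card k ^ (16 * e + 5) := by
    rw [show 16 * e + 5 = e + 2 * e + 3 * e + 4 * e + 6 * e + 5 by ring, ← card_Box]
    exact Set.ncard_le_ncard (fun _ h => h.1.1) (finite_Box _ _ _ _ _)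
  refine Nat.le_of_mul_le_mul_right (c := Fintype.card k ^ (6 * e + 3)) ?_ (by positivity)
  calc _ ≤ _ := Nat.mul_le_mul_left _ (le_card_Grp e)
    _ = _ := h1.symm
    _ ≤ Fintype.card k ^ (16 * e + 5) * 2 := Nat.mul_le_mul_right _ h2
    _ = _ := by ring

lemma card_Zcl_le (d : ℕ) : (Zcl k d).ncard ≤ 8 * Fintype.card k ^ (9 * d + 2) := by
  have hX : {a : WeierstrassCurve k[X] | DegLE a d ∧ a.b₂ = 0}.Finite :=
    (finite_degLE d).subset fun _ h => h.1
  have h0 : (3 : k[X]) = 0 := CharP.cast_eq_zero k[X] 3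
  have h1 := mul_le_ncard hX clq (g := Fintype.card k ^ (6 * d + 3)) (m := 3) fun a ha => by
    have h2 := orbit_mul_stab d a
    have h3 : (MulAction.orbit (Grp k d) a).ncard ≤
        {a' ∈ {a : WeierstrassCurve k[X] | DegLE a d ∧ a.b₂ = 0} | clq a' = clq a}.ncard := by
      refine Set.ncard_le_ncard ?_ (hX.subset fun _ h => h.1)
      rintro _ ⟨C, rfl⟩
      exact ⟨⟨degLE_smul ha.1 C, cls_b₂ (cls_smul C.1 a) ha.2⟩, cls_smul C.1 a⟩
    refine Nat.le_of_mul_le_mul_left (c := Nat.card k[X]ˣ) ?_ Nat.card_pos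
    rw [← card_Grp, ← h2, ← mul_assoc, mul_comm]
    exact Nat.mul_le_mul (card_stab_le a d) h3
  have h2 : {a : WeierstrassCurve k[X] | DegLE a d ∧ a.b₂ = 0}.ncard ≤
      Fintype.card k ^ (d + 0 + 3 * d + 4 * d + 6 * d + 5) := by
    rw [← card_Box]
    refine Set.ncard_le_ncard_of_injOn
      (fun a => (⟨a.a₁, 0, a.a₃, a.a₄, a.a₆⟩ : WeierstrassCurve k[X]))
      (fun a h => ⟨h.1.1, by simp [Pol], h.1.2.2⟩) ?_ (finite_Box _ _ _ _ _)
    intro a ha b hb h
    simp only [WeierstrassCurve.mk.injEq, true_and] at h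
    obtain ⟨e₁, e₃, e₄, e₆⟩ := h
    have e₂ := ha.2.trans hb.2.symm
    rw [b₂, b₂, e₁] at e₂
    exact WeierstrassCurve.ext e₁ (by linear_combination e₂ - (a.a₂ - b.a₂) * h0) e₃ e₄ e₆
  refine Nat.le_of_mul_le_mul_right (c := Fintype.card k ^ (6 * d + 3)) ?_ (by positivity)
  calc _ ≤ _ := h1
    _ ≤ _ := Nat.mul_le_mul_left _ h2
    _ ≤ 8 * Fintype.card k ^ (15 * d + 5) :=
      Nat.mul_le_mul (by norm_num) (Nat.pow_le_pow_right Fintype.card_pos (by omega))
    _ = _ := by ring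

omit [CharP k 3] in
lemma num_bounds (hP : ∀ (C : VariableChange (RatFunc k)) W, P (C • W) ↔ P W) (d : ℕ) :
    ∑ e ∈ Finset.range (d + 1), (Mcl P e).ncard ≤ num P d ∧
      num P d ≤ ∑ e ∈ Finset.range (d + 1), (Mcl P e).ncard + (Zcl k d).ncard := by
  have hM : ∀ e, (Mcl P e).Finite := fun e => (finite_tup e).image _
  have hZ : (Zcl k d).Finite := ((finite_degLE d).subset fun _ h => h.1).image _
  have hU : (⋃ e ∈ Finset.range (d + 1), Mcl P e).Finite :=
    (Finset.range (d + 1)).finite_toSet.biUnion fun e _ => hM e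
  have h1 : (⋃ e ∈ Finset.range (d + 1), Mcl P e).ncard =
      ∑ e ∈ Finset.range (d + 1), (Mcl P e).ncard := by
    rw [← finsum_mem_coe_finset]
    exact (Finset.range (d + 1)).finite_toSet.ncard_biUnion (fun e _ => hM e) fun e _ e' _ h =>
      (lt_or_gt_of_ne h).elim disjoint_Mcl fun h' => (disjoint_Mcl h').symm
  have h2 : {c | ∃ W, Quotient.mk'' W = c ∧ W.Δ ≠ 0 ∧ HeightLE W d ∧ P W} ⊆
      (⋃ e ∈ Finset.range (d + 1), Mcl P e) ∪ Zcl k d := by
    rintro _ ⟨W, rfl, hΔ, hW, hPW⟩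
    obtain ⟨e, he, C, a, h3, h4, h5⟩ := exists_min hW
    have h6 : clq a = Quotient.mk'' W := Quotient.eq''.2 (MulAction.orbitRel_apply.2 ⟨C, h4⟩)
    by_cases h0 : a.b₂ = 0
    · exact Or.inr ⟨a, ⟨h3.mono he, h0⟩, h6⟩
    · refine Or.inl (Set.mem_biUnion (Finset.mem_coe.2 (Finset.mem_range.2 (Nat.lt_succ_of_le he)))
        ⟨a, ⟨⟨h3, fun h7 => hΔ ?_, h0, h5⟩, by rwa [← h4, hP]⟩, h6⟩)
      simpa [variableChange_Δ, baseChange, h7] using congrArg WeierstrassCurve.Δ h4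
  rw [← h1]
  refine ⟨Set.ncard_le_ncard (Set.iUnion₂_subset ?_) ((hU.union hZ).subset h2),
    (Set.ncard_le_ncard h2 (hU.union hZ)).trans (Set.ncard_union_le _ _)⟩
  rintro e he _ ⟨a, ⟨ha, hPa⟩, rfl⟩
  refine ⟨_, rfl, by simpa [baseChange] using ha.2.1, HeightLE.mono ⟨1, a, ha.1, one_smul _ _⟩ ?_, hPa⟩
  exact Nat.lt_succ_iff.1 (Finset.mem_range.1 he)

lemma card_level_le (d e : ℕ) :
    {a : WeierstrassCurve k[X] | DegLE a d ∧ clq a ∈ Mcl (k := k) (fun _ => True) e}.ncard ≤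
      (Mcl (k := k) (fun _ => True) e).ncard * Fintype.card k ^ (d - e + 6 * d + 4) := by
  have hX : {a : WeierstrassCurve k[X] | DegLE a d ∧ clq a ∈ Mcl (fun _ => True) e}.Finite :=
    (finite_degLE d).subset fun _ h => h.1
  refine (ncard_le_mul hX clq (g := Fintype.card k ^ (d - e + 6 * d + 4)) ?_).trans
    (Nat.mul_le_mul_right _ (Set.ncard_le_ncard (by rintro _ ⟨a, ha, rfl⟩; exact ha.2)
      ((finite_tup (P := fun _ => True) e).image clq)))
  rintro a ⟨-, a₀, ⟨h₀, -⟩, h1⟩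
  have hY : (Pol k (d - e) ×ˢ Pol k (2 * d) ×ˢ Pol k d ×ˢ Pol k (3 * d)).Finite :=
    (finite_Pol _).prod ((finite_Pol _).prod ((finite_Pol _).prod (finite_Pol _)))
  refine (Set.ncard_le_ncard (t := (fun x : k[X] × k[X] × k[X] × k[X] =>
    (⟨1, x.2.1, x.2.2.1, x.2.2.2⟩ : VariableChange k[X])⁻¹ • sc x.1 a₀) '' _) ?_
    (hY.image _)).trans ((Set.ncard_image_le hY).trans (le_of_eq ?_))
  · rintro a' ⟨⟨h2, -⟩, h3⟩
    obtain ⟨C, hC⟩ := cls_eq.1 (h1.trans h3.symm)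
    obtain ⟨u, r, s, t, -, hu, hr, hs, ht, h4⟩ := of_min h2 h₀.1 h₀.2.1 h₀.2.2.2 hC
    exact ⟨(u, r, s, t), ⟨Nat.le_sub_of_add_le hu, hr, hs, ht⟩, inv_smul_eq_iff.2 h4.symm⟩
  · simp only [Set.ncard_prod, card_Pol]
    ring

lemma le_sum_level (d : ℕ) : Fintype.card k ^ (16 * d + 16) ≤ ∑ e ∈ Finset.range (d + 1 + 1),
    (Mcl (k := k) (fun _ => True) e).ncard * Fintype.card k ^ (d + 1 - e + 6 * (d + 1) + 4) := by
  refine le_trans ?_ (Finset.sum_le_sum fun e _ => card_level_le (d + 1) e)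
  refine le_trans ?_ (Finset.set_ncard_biUnion_le _ _)
  rw [show 16 * d + 16 = d + (2 * d + 1) + (3 * d + 2) + (4 * d + 3) + (6 * d + 5) + 5 by ring,
    ← card_Box]
  have h0 : (3 : k) = 0 := CharP.cast_eq_zero k 3
  have key : ∀ {p : k[X]} {n : ℕ}, p.natDegree ≤ n → (Polynomial.X * p).natDegree ≤ n + 1 :=
    fun h => Polynomial.natDegree_mul_le.trans (by rw [Polynomial.natDegree_X]; omega)
  have key' : ∀ {p : k[X]} {n : ℕ}, p.natDegree ≤ n → (Polynomial.X * p + 1).natDegree ≤ n + 1 :=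
    fun h => Polynomial.natDegree_add_le_of_degree_le (key h) (by simp)
  refine Set.ncard_le_ncard_of_injOn (fun a => (⟨Polynomial.X * a.a₁, Polynomial.X * a.a₂ + 1,
    Polynomial.X * a.a₃, Polynomial.X * a.a₄, Polynomial.X * a.a₆ + 1⟩ :
      WeierstrassCurve k[X])) ?_ ?_
    ((finite_degLE (d + 1)).subset (Set.iUnion₂_subset fun _ _ _ h => h.1))
  · rintro a ⟨h₁, h₂, h₃, h₄, h₆⟩
    have h1 : DegLE (⟨Polynomial.X * a.a₁, Polynomial.X * a.a₂ + 1, Polynomial.X * a.a₃,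
        Polynomial.X * a.a₄, Polynomial.X * a.a₆ + 1⟩ : WeierstrassCurve k[X]) (d + 1) :=
      ⟨key h₁, key' h₂, key h₃, key h₄, key' h₆⟩
    obtain ⟨e, he, C, a', h3, h4, h5⟩ := exists_min ⟨1, _, h1, one_smul _ _⟩
    have h6 := cls_eq.2 ⟨C, h4⟩
    refine Set.mem_biUnion (Finset.mem_coe.2 (Finset.mem_range.2 (Nat.lt_succ_of_le he)))
      ⟨h1, a', ⟨⟨h3, fun h7 => ?_, fun h7 => ?_, h5⟩, trivial⟩, h6⟩
    · have h8 := congrArg (Polynomial.eval 0) (cls_Δ h6.symm h7)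
      simp only [Δ, b₂, b₄, b₆, b₈, Polynomial.eval_add, Polynomial.eval_sub, Polynomial.eval_mul,
        Polynomial.eval_pow, Polynomial.eval_neg, Polynomial.eval_X, Polynomial.eval_one,
        Polynomial.eval_ofNat, Polynomial.eval_zero] at h8
      exact one_ne_zero (by linear_combination -h8 - 165 * h0 : (1 : k) = 0)
    · have h8 := congrArg (Polynomial.eval 0) (cls_b₂ h6.symm h7)
      simp only [b₂, Polynomial.eval_add, Polynomial.eval_mul,
        Polynomial.eval_pow, Polynomial.eval_X, Polynomial.eval_one,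
        Polynomial.eval_ofNat, Polynomial.eval_zero] at h8
      exact one_ne_zero (by linear_combination h8 - h0 : (1 : k) = 0)
  · intro a _ b _ h
    simpa [WeierstrassCurve.ext_iff] using h

lemma le_card_Mcl (d : ℕ) : Fintype.card k ^ (10 * (d + 1)) ≤
    2 * Fintype.card k ^ 4 * (Mcl (k := k) (fun _ => True) (d + 1)).ncard := by
  have hq : 2 ≤ Fintype.card k := Fintype.one_lt_card
  have h1 := le_sum_level (k := k) d
  rw [Finset.sum_range_succ] at h1
  have h2 : ∑ e ∈ Finset.range (d + 1), (Mcl (k := k) (fun _ => True) e).ncard *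
      Fintype.card k ^ (d + 1 - e + 6 * (d + 1) + 4) ≤ 4 * Fintype.card k ^ (16 * d + 13) := by
    calc _ ≤ ∑ e ∈ Finset.range (d + 1), 2 * Fintype.card k ^ (7 * d + 13) *
          (Fintype.card k ^ 9) ^ e := Finset.sum_le_sum fun e he => by
          refine (Nat.mul_le_mul_right _ (card_Mcl_le e)).trans (le_of_eq ?_)
          have := Finset.mem_range.1 he
          rw [mul_assoc, mul_assoc, ← pow_mul, ← pow_add, ← pow_add]
          congr 2
          omega
      _ ≤ 2 * Fintype.card k ^ (7 * d + 13) * (2 * (Fintype.card k ^ 9) ^ d) := by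
          rw [← Finset.mul_sum]
          exact Nat.mul_le_mul_left _ (geom_le (hq.trans (Nat.le_self_pow (by norm_num) _)) d)
      _ = _ := by ring
  have h3 : 2 ^ 3 * Fintype.card k ^ (16 * d + 13) ≤ Fintype.card k ^ (16 * d + 16) := by
    rw [show 16 * d + 16 = 3 + (16 * d + 13) by ring, pow_add _ 3]
    exact Nat.mul_le_mul_right _ (Nat.pow_le_pow_left hq 3)
  refine Nat.le_of_mul_le_mul_right (c := Fintype.card k ^ (6 * d + 6)) ?_ (by positivity)
  calc _ = Fintype.card k ^ (16 * d + 16) := by ring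
    _ ≤ 2 * ((Mcl (k := k) (fun _ => True) (d + 1)).ncard *
        Fintype.card k ^ (d + 1 - (d + 1) + 6 * (d + 1) + 4)) := by omega
    _ = _ := by rw [Nat.sub_self]; ring

end HtM

open Filter

theorem transfer : Transfer := by
  intro k _ _ _ ι s P c c₀ hP h ε hε
  have hq : 2 ≤ Fintype.card k := Fintype.one_lt_card
  set Q : ℝ := (Fintype.card k : ℝ) with hQ
  have hQ1 : 1 < Q := by rw [hQ]; exact_mod_cast hq
  have hδ : 0 < ε / (2 * Q ^ 4) / 5 := by positivity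
  set δ := ε / (2 * Q ^ 4) / 5 with hδ'
  obtain ⟨d₀, hd₀⟩ := eventually_atTop.1 (h δ hδ)
  let f : ℕ → ℝ := fun e => ∑ i ∈ s, c i * ((HtM.Mcl (P i) e).ncard : ℝ) -
    c₀ * ((HtM.Mcl (k := k) (fun _ => True) e).ncard : ℝ)
  have h1 : ∀ e, d₀ ≤ e → f e ≤ 2 * δ * Q ^ (10 * e) := by
    intro e he
    have h2 := hd₀ e he
    have h3 : ∀ R : WeierstrassCurve (RatFunc k) → Prop,
        (∀ (C : WeierstrassCurve.VariableChange (RatFunc k)) W, R (C • W) ↔ R W) →
        (tupNum R e : ℝ) = (HtM.Mcl R e).ncard * ((Nat.card (Grp k e) : ℝ) / 2) := fun R hR => by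
      have := congrArg (Nat.cast (R := ℝ)) (HtM.tup_eq hR e)
      push_cast at this
      linarith
    have h4 : Q ^ (6 * e) ≤ Nat.card (Grp k e) := by
      rw [hQ]
      exact_mod_cast (Nat.pow_le_pow_right (by omega) (by omega)).trans (le_card_Grp e)
    have h5 : 0 < (Nat.card (Grp k e) : ℝ) / 2 := half_pos (lt_of_lt_of_le (by positivity) h4)
    rw [h3 _ fun _ _ => Iff.rfl, Finset.sum_congr rfl fun i _ => by rw [h3 _ (hP i), ← mul_assoc],
      ← Finset.sum_mul] at h2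
    refine le_of_mul_le_mul_right ?_ h5
    calc _ ≤ δ * Q ^ (16 * e) := by simp only [f]; linarith
      _ = 2 * δ * Q ^ (10 * e) * (Q ^ (6 * e) / 2) := by ring
      _ ≤ _ := by gcongr
  filter_upwards [eventually_small hQ1 (∑ e ∈ Finset.range d₀, |f e|)
    ((∑ i ∈ s, |c i| + |c₀|) * (8 * Q ^ 2)) δ hδ, eventually_ge_atTop 1] with d hd hd1
  have h2 : ∑ e ∈ Finset.range (d + 1), f e ≤
      ∑ e ∈ Finset.range d₀, |f e| + 4 * δ * Q ^ (10 * d) := by
    have h3 : ∑ e ∈ Finset.range (d + 1), (Q ^ 10) ^ e ≤ 2 * (Q ^ 10) ^ d := by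
      rw [hQ]
      exact_mod_cast geom_le (hq.trans (Nat.le_self_pow (by norm_num) _)) d
    calc _ ≤ ∑ e ∈ Finset.range (d + 1), ((if e < d₀ then |f e| else 0) + 2 * δ * (Q ^ 10) ^ e) := by
          refine Finset.sum_le_sum fun e _ => ?_
          split_ifs with he
          · exact (le_abs_self _).trans (le_add_of_nonneg_right (by positivity))
          · rw [zero_add, ← pow_mul]; exact h1 e (not_lt.1 he)
      _ ≤ _ := by
          rw [Finset.sum_add_distrib, ← Finset.mul_sum, ← Finset.sum_filter, pow_mul]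
          refine add_le_add (Finset.sum_le_sum_of_subset_of_nonneg (fun e he => Finset.mem_range.2
            (Finset.mem_filter.1 he).2) fun _ _ _ => abs_nonneg _) ?_
          nlinarith
  have hZ : ((HtM.Zcl k d).ncard : ℝ) ≤ 8 * Q ^ 2 * Q ^ (9 * d) := by
    rw [hQ, mul_assoc, ← pow_add, add_comm]
    exact_mod_cast HtM.card_Zcl_le d
  have h3 : ∀ (R : WeierstrassCurve (RatFunc k) → Prop) (a : ℝ),
      (∀ (C : WeierstrassCurve.VariableChange (RatFunc k)) W, R (C • W) ↔ R W) →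
      a * num R d ≤ ∑ e ∈ Finset.range (d + 1), a * ((HtM.Mcl R e).ncard : ℝ) +
        |a| * (8 * Q ^ 2 * Q ^ (9 * d)) := fun R a hR => by
    obtain ⟨h4, h5⟩ := HtM.num_bounds hR d
    have h4' : ∑ e ∈ Finset.range (d + 1), ((HtM.Mcl R e).ncard : ℝ) ≤ num R d := by exact_mod_cast h4
    have h5' : (num R d : ℝ) ≤ ∑ e ∈ Finset.range (d + 1), ((HtM.Mcl R e).ncard : ℝ) +
        (HtM.Zcl k d).ncard := by exact_mod_cast h5
    rw [← Finset.mul_sum, ← sub_le_iff_le_add', ← mul_sub]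
    exact (mul_le_mul_of_nonneg_right (le_abs_self a) (by linarith)).trans
      (mul_le_mul_of_nonneg_left (by linarith) (abs_nonneg a))
  have h4 : Q ^ (10 * d) ≤ 2 * Q ^ 4 * num (k := k) (fun _ => True) d := by
    obtain ⟨d, rfl⟩ : ∃ e, d = e + 1 := ⟨d - 1, by omega⟩
    rw [hQ]
    exact_mod_cast (HtM.le_card_Mcl d).trans (Nat.mul_le_mul_left _ ((Finset.single_le_sum
      (f := fun e => (HtM.Mcl (k := k) (fun _ => True) e).ncard) (fun _ _ => Nat.zero_le _)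
      (Finset.self_mem_range_succ _)).trans (HtM.num_bounds (fun _ _ => Iff.rfl) _).1))
  have h5 : (0 : ℝ) < num (k := k) (fun _ => True) d :=
    (mul_pos_iff_of_pos_left (by positivity)).1 (lt_of_lt_of_le (by positivity) h4)
  have h6 := Finset.sum_le_sum fun i (_ : i ∈ s) => h3 (P i) (c i) (hP i)
  have h7 := h3 (fun _ => True) (-c₀) fun _ _ => Iff.rfl
  rw [Finset.sum_add_distrib, Finset.sum_comm, ← Finset.sum_mul] at h6
  have h8 : ∑ e ∈ Finset.range (d + 1), f e =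
      ∑ e ∈ Finset.range (d + 1), ∑ i ∈ s, c i * ((HtM.Mcl (P i) e).ncard : ℝ) +
      ∑ e ∈ Finset.range (d + 1), -c₀ * ((HtM.Mcl (k := k) (fun _ => True) e).ncard : ℝ) := by
    rw [← Finset.sum_add_distrib]
    exact Finset.sum_congr rfl fun e _ => by simp only [f]; ring
  have h9 : 5 * δ * Q ^ (10 * d) ≤ ε * num (k := k) (fun _ => True) d := by
    calc _ ≤ 5 * δ * (2 * Q ^ 4 * num (k := k) (fun _ => True) d) := by gcongr
      _ = _ := by rw [hδ']; field_simp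
  simp only [dens, ← mul_div_assoc, ← Finset.sum_div]
  rw [div_le_iff₀ h5]
  rw [abs_neg] at h7
  nlinarith

end Pool.Agent.Lib.MP_a3f657_nt.Three
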