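import Pool.Agent.Lib.MP_a3f657_nt.C2LpPrime
import Pool.Agent.Lib.MP_a3f657_nt.C3AnDefs

/-!
Prime sums.
-/

namespace Pool.Agent.Lib.MP_a3f657_nt.Three

open Pool.Agent.Lib.MP_a3f657_nt.Two

namespace Lp

open Polynomial

open scoped Classical

variable {k : Type} [Field k] [Fintype k]

theorem mem_fixF {m : ℕ} (hm : 0 < m) {a : AlgebraicClosure k} :
    a ∈ fixF k m ↔ a ^ Fintype.card k ^ m = a := by
  rw [fixF, Multiset.mem_toFinset, mem_roots
    (FiniteField.X_pow_card_pow_sub_X_ne_zero _ hm.ne' Fintype.one_lt_card), IsRoot, eval_sub,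
    eval_pow, eval_X, sub_eq_zero]

theorem card_fixF_le {m : ℕ} (hm : 0 < m) : (fixF k m).card ≤ Fintype.card k ^ m := by
  rw [fixF]
  refine (Multiset.toFinset_card_le _).trans ((card_roots' _).trans ?_)
  rw [FiniteField.X_pow_card_pow_sub_X_natDegree_eq _ hm.ne' Fintype.one_lt_card]

omit [Fintype k] in
theorem irreducible_minpoly (a : AlgebraicClosure k) : Irreducible (minpoly k a) :=
  minpoly.irreducible (Algebra.IsIntegral.isIntegral a)

omit [Fintype k] in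
theorem monic_minpoly (a : AlgebraicClosure k) : (minpoly k a).Monic :=
  minpoly.monic (Algebra.IsIntegral.isIntegral a)

omit [Fintype k] in
theorem natDegree_minpoly_pos (a : AlgebraicClosure k) : 0 < (minpoly k a).natDegree :=
  (irreducible_minpoly a).natDegree_pos

theorem mem_fixF_iff_dvd {m : ℕ} (hm : 0 < m) {a : AlgebraicClosure k} :
    a ∈ fixF k m ↔ (minpoly k a).natDegree ∣ m := by
  rw [mem_fixF hm, (irreducible_minpoly a).natDegree_dvd_iff_dvd_X_pow_card_pow_sub_X,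
    minpoly.dvd_iff, Nat.card_eq_fintype_card, map_sub, map_pow, aeval_X, sub_eq_zero]

theorem mem_fixF_self (a : AlgebraicClosure k) : a ∈ fixF k (minpoly k a).natDegree :=
  (mem_fixF_iff_dvd (natDegree_minpoly_pos a)).2 dvd_rfl

omit [Fintype k] in
theorem exists_minpoly_eq {p : k[X]} (h1 : p.Monic) (h2 : Irreducible p) :
    ∃ a : AlgebraicClosure k, minpoly k a = p := by
  obtain ⟨a, ha⟩ := IsAlgClosed.exists_aeval_eq_zero (AlgebraicClosure k) p
    (degree_pos_of_irreducible h2).ne'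
  exact ⟨a, (minpoly.eq_of_irreducible_of_monic h2 ha h1).symm⟩

omit [Fintype k] in
theorem goodP_minpoly {M : k[X]} {a : AlgebraicClosure k} :
    GoodP M (minpoly k a) ↔ aeval a M ≠ 0 :=
  ⟨fun h => mt minpoly.dvd_iff.2 h.2.2,
    fun h => ⟨monic_minpoly a, irreducible_minpoly a, mt minpoly.dvd_iff.1 h⟩⟩

theorem sum_fixF (M : k[X]) {m : ℕ} (hm : 0 < m) (P : k[X] → Prop) (F : k[X] → ℂ)
    {d : DecidablePred fun a : AlgebraicClosure k => aeval a M ≠ 0 ∧ P (minpoly k a)} :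
    ∑ a ∈ (fixF k m).filter (fun a => aeval a M ≠ 0 ∧ P (minpoly k a)), F (minpoly k a) =
      ∑ᶠ p ∈ {p | GoodP M p ∧ p.natDegree ∣ m ∧ P p}, (p.natDegree : ℂ) * F p := by
  set s := (fixF k m).filter (fun a => aeval a M ≠ 0 ∧ P (minpoly k a)) with hs
  have h1 : {p | GoodP M p ∧ p.natDegree ∣ m ∧ P p} = (s.image (minpoly k) : Set k[X]) := by
    ext p
    simp only [hs, Set.mem_ofPred_eq, Finset.coe_image, Set.mem_image, Finset.mem_coe,
      Finset.mem_filter, mem_fixF_iff_dvd hm, ← goodP_minpoly]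
    constructor
    · rintro ⟨h1, h2, h3⟩
      obtain ⟨a, rfl⟩ := exists_minpoly_eq h1.1 h1.2.1
      exact ⟨a, ⟨h2, h1, h3⟩, rfl⟩
    · rintro ⟨a, ⟨h2, h1, h3⟩, rfl⟩
      exact ⟨h1, h2, h3⟩
  rw [h1, finsum_mem_coe_finset, Finset.sum_comp F (minpoly k)]
  refine Finset.sum_congr rfl fun p hp => ?_
  obtain ⟨a, ha, rfl⟩ := Finset.mem_image.1 hp
  rw [nsmul_eq_mul, ← card_rootSet_eq_natDegree (K := AlgebraicClosure k)
    (PerfectField.separable_of_irreducible (irreducible_minpoly a)) (IsAlgClosed.splits _),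
    ← Set.toFinset_card]
  congr 3
  ext b
  rw [Set.mem_toFinset, mem_rootSet_of_ne (irreducible_minpoly a).ne_zero, Finset.mem_filter]
  refine ⟨fun h => h.2 ▸ minpoly.aeval k b, fun h => ?_⟩
  have h2 := minpoly.eq_of_irreducible_of_monic (irreducible_minpoly a) h (monic_minpoly a)
  simp only [hs, Finset.mem_filter, mem_fixF_iff_dvd hm, ← goodP_minpoly] at ha ⊢
  rw [← h2]
  exact ⟨ha, rfl⟩

theorem sum_fixF' (M : k[X]) {m : ℕ} (hm : 0 < m) (F : k[X] → ℂ)
    {_ : DecidablePred fun a : AlgebraicClosure k => aeval a M ≠ 0} :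
    ∑ a ∈ (fixF k m).filter (fun a => aeval a M ≠ 0), F (minpoly k a) =
      ∑ᶠ p ∈ {p | GoodP M p ∧ p.natDegree ∣ m}, (p.natDegree : ℂ) * F p := by
  have := sum_fixF M hm (fun _ => True) F (d := inferInstance)
  simp only [and_true] at this
  convert this

theorem PS_eq (M : k[X]) {m : ℕ} (hm : 0 < m) (h : k[X] → ℂ)
    {d : DecidablePred fun a : AlgebraicClosure k => aeval a M ≠ 0 ∧ (minpoly k a).natDegree = m} :
    PS M h m = ∑ a ∈ (fixF k m).filter
      (fun a => aeval a M ≠ 0 ∧ (minpoly k a).natDegree = m), h (minpoly k a) := by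
  rw [sum_fixF M hm (fun p => p.natDegree = m), PS, mul_finsum_mem]
  refine finsum_mem_congr ?_ fun p hp => by rw [hp.2.2]
  ext p
  exact ⟨fun h => ⟨h.1, h.2 ▸ dvd_rfl, h.2⟩, fun h => ⟨h.1, h.2.2⟩⟩

theorem card_small_le {m : ℕ} (hm : 0 < m) :
    (((fixF k m).filter fun a => (minpoly k a).natDegree ≠ m).card : ℝ) ≤
      Fintype.card k * √(Fintype.card k) ^ m := by
  have h1 : ((fixF k m).filter fun a => (minpoly k a).natDegree ≠ m) ⊆
      (Finset.Ioc 0 (m / 2)).biUnion (fixF k) := fun a ha => by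
    rw [Finset.mem_filter, mem_fixF_iff_dvd hm] at ha
    obtain ⟨⟨j, hj⟩, ha⟩ := ha
    refine Finset.mem_biUnion.2 ⟨_, Finset.mem_Ioc.2 ⟨natDegree_minpoly_pos a, ?_⟩,
      mem_fixF_self a⟩
    have : 2 ≤ j := by
      rcases j with _ | _ | j
      · omega
      · omega
      · omega
    rw [Nat.le_div_iff_mul_le two_pos]
    exact (Nat.mul_le_mul_left _ this).trans hj.ge
  have h2 := ((Finset.card_le_card h1).trans Finset.card_biUnion_le).trans
    (Finset.sum_le_sum fun e he => card_fixF_le (Finset.mem_Ioc.1 he).1)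
  have h3 := h2.trans (Nat.geomSum_lt (n := m / 2 + 1) Fintype.one_lt_card
    fun e he => Nat.lt_succ_of_le (Finset.mem_Ioc.1 he).2).le
  refine (Nat.cast_le.2 h3).trans ?_
  have hq : (1 : ℝ) ≤ Fintype.card k := by exact_mod_cast Fintype.card_pos
  push_cast
  rw [pow_succ']
  gcongr
  conv_lhs => rw [← Real.sq_sqrt (zero_le_one.trans hq), ← pow_mul]
  exact pow_le_pow_right₀ (Real.one_le_sqrt.2 hq) (Nat.mul_div_le m 2)

/-- Prime sums differ little from prime power sums. -/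
theorem norm_sum_sub_PS (M : k[X]) {m : ℕ} (hm : 0 < m) (h : k[X] → ℂ)
    (H : AlgebraicClosure k → ℂ) (B : ℝ) (hB : ∀ a, ‖H a‖ ≤ B)
    (hH : ∀ a, aeval a M ≠ 0 → (minpoly k a).natDegree = m → H a = h (minpoly k a))
    {_ : DecidablePred fun a : AlgebraicClosure k => aeval a M ≠ 0} :
    ‖∑ a ∈ (fixF k m).filter (fun a => aeval a M ≠ 0), H a - PS M h m‖ ≤
      B * (Fintype.card k * √(Fintype.card k) ^ m) := by
  rw [← Finset.sum_filter_add_sum_filter_not _ fun a => (minpoly k a).natDegree = m,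
    Finset.filter_filter, Finset.sum_congr rfl fun a ha =>
      hH a (Finset.mem_filter.1 ha).2.1 (Finset.mem_filter.1 ha).2.2, ← PS_eq M hm,
    add_sub_cancel_left]
  refine (norm_sum_le _ _).trans ((Finset.sum_le_card_nsmul _ _ B fun a _ => hB a).trans ?_)
  rw [nsmul_eq_mul, mul_comm]
  refine mul_le_mul_of_nonneg_left (le_trans ?_ (card_small_le hm)) ((norm_nonneg _).trans (hB 0))
  exact_mod_cast Finset.card_le_card (Finset.filter_subset_filter _ (Finset.filter_subset _ _))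

theorem finite_RM {M : k[X]} (hM : M ≠ 0) (K : ℕ) : Finite (RM M K) := by
  have h : ∀ f : k[X], f ≠ 0 → Finite (AdjoinRoot f) := fun f hf =>
    have := (AdjoinRoot.powerBasis hf).finite
    Module.finite_of_finite k
  have := h M hM
  have := h (X ^ K) (pow_ne_zero _ X_ne_zero)
  infer_instance

theorem finite_monic (n : ℕ) : {f : k[X] | f.Monic ∧ f.natDegree = n}.Finite := by
  have : Finite (degreeLT k n) := Finite.of_equiv _ (degreeLTEquiv k n).toEquiv.symm
  exact Finite.of_equiv _ (monicEquivDegreeLT (R := k) n).symm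

theorem sum_eq_zero {M : k[X]} {Ψ : k[X] → ℂ} (hM : M ≠ 0) (K : ℕ)
    (hmul : ∀ f g : k[X], f.Monic → g.Monic → Ψ (f * g) = Ψ f * Ψ g)
    (hcon : ∀ f g : k[X], f.Monic → g.Monic → g.natDegree = f.natDegree → IsCoprime f M →
      IsCoprime g M → M ^ 2 ∣ f - g → (f - g).natDegree + K ≤ f.natDegree → Ψ f = Ψ g)
    {f₁ f₂ : k[X]} (h₁ : f₁.Monic) (h₂ : f₂.Monic)
    (hd : f₂.natDegree = f₁.natDegree) (c₁ : IsCoprime f₁ M) (c₂ : IsCoprime f₂ M)
    (hne : Ψ f₁ ≠ Ψ f₂) {N : ℕ} (hN : 2 * M.natDegree + K < N) :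
    ∑ᶠ f ∈ {f : k[X] | f.Monic ∧ f.natDegree = N ∧ IsCoprime f M}, Ψ f = 0 := by
  set s := {f : k[X] | f.Monic ∧ f.natDegree = N ∧ IsCoprime f M}
  have hs : s.Finite := (finite_monic N).subset fun f hf => ⟨hf.1, hf.2.1⟩
  have h1 : ∀ f ∈ s, ∃ f' ∈ s, ∃ y, f * f₁ - f' * f₂ = M ^ 2 * y ∧ y.degree < f₂.degree :=
    fun f hf => by
      have := Two.Lp.exists_shift h₁ h₂ hd c₁ c₂ hf.1 hf.2.2 (by rw [hf.2.1]; omega)
      rwa [hf.2.1] at this
  choose! T hT y hy hy' using h1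
  have h2 : Set.BijOn T s s := (hs.injOn_iff_bijOn_of_mapsTo hT).1 fun f hf g hg hfg => by
    have h3 : (f - g) * f₁ = M ^ 2 * (y f - y g) := by
      linear_combination hy f hf - hy g hg + f₂ * hfg
    obtain ⟨z, hz⟩ := (c₁.pow_right (n := 2)).symm.dvd_of_dvd_mul_right ⟨_, h3⟩
    rw [hz, mul_assoc, mul_right_inj' (pow_ne_zero 2 hM)] at h3
    have h4 : y f - y g = 0 := eq_zero_of_dvd_of_degree_lt ⟨z, by rw [← h3, mul_comm]⟩ (by
      rw [degree_eq_natDegree h₁.ne_zero, ← hd, ← degree_eq_natDegree h₂.ne_zero]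
      exact (degree_sub_le _ _).trans_lt (max_lt (hy' f hf) (hy' g hg)))
    rw [h4, mul_eq_zero, or_iff_left h₁.ne_zero] at h3
    rw [← sub_eq_zero, hz, h3, mul_zero]
  have h3 : Ψ f₁ * ∑ᶠ f ∈ s, Ψ f = Ψ f₂ * ∑ᶠ f ∈ s, Ψ f := by
    rw [mul_finsum_mem, mul_finsum_mem]
    refine finsum_mem_eq_of_bijOn T h2 fun f hf => ?_
    have h4 := hT f hf
    rw [mul_comm, ← hmul _ _ hf.1 h₁, mul_comm (Ψ f₂), ← hmul _ _ h4.1 h₂]
    refine hcon _ _ (hf.1.mul h₁) (h4.1.mul h₂) ?_ (hf.2.2.mul_left c₁) (h4.2.2.mul_left c₂)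
      ⟨_, hy f hf⟩ ?_
    · rw [hf.1.natDegree_mul h₁, h4.1.natDegree_mul h₂, hf.2.1, h4.2.1, hd]
    · have := natDegree_mul_le (p := M ^ 2) (q := y f)
      have := natDegree_pow_le (p := M) (n := 2)
      have := natDegree_le_natDegree (hy' f hf).le
      rw [hy f hf, hf.1.natDegree_mul h₁, hf.2.1]
      omega
  by_contra h0
  exact hne (mul_right_cancel₀ h0 h3)

end Lp

open Polynomial

theorem primeP (hR : RhP) : PrimeP := by
  intro k _ _ _
  refine ⟨2 + Fintype.card k, fun M K χ hM => ?_⟩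
  have hfin := Lp.finite_RM hM K
  have hone : (fun f : k[X] => χ (clM M K f)) 1 = 1 := by
    simp only [Two.Lp.clM_one, map_one]
  have hmul : ∀ f g : k[X], f.Monic → g.Monic →
      (fun f : k[X] => χ (clM M K f)) (f * g) =
        (fun f : k[X] => χ (clM M K f)) f * (fun f : k[X] => χ (clM M K f)) g :=
    fun f g _ _ => by simp only [Two.Lp.clM_mul, map_mul]
  have hnorm : ∀ f : k[X], f.Monic → IsCoprime f M → ‖(fun f : k[X] => χ (clM M K f)) f‖ = 1 :=
    fun f hf hc => Two.Lp.norm_chi_eq χ (Two.Lp.isUnit_clM K hf hc)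
  have hcon : ∀ f g : k[X], f.Monic → g.Monic → g.natDegree = f.natDegree → IsCoprime f M →
      IsCoprime g M → M ^ 2 ∣ f - g → (f - g).natDegree + (K + 1) ≤ f.natDegree →
      (fun f : k[X] => χ (clM M K f)) f = (fun f : k[X] => χ (clM M K f)) g :=
    fun f g _ _ hd _ _ h hfg => by
      simp only
      rw [Two.Lp.clM_congr ((dvd_pow_self M two_ne_zero).trans h) hd
        (degree_le_natDegree.trans_lt (Nat.cast_lt.2 (by omega)))]
  refine or_iff_not_imp_left.2 fun h0 m hm => ?_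
  obtain ⟨f₁, f₂, h₁, h₂, hd, c₁, c₂, hne⟩ : ∃ f₁ f₂ : k[X], f₁.Monic ∧ f₂.Monic ∧
      f₂.natDegree = f₁.natDegree ∧ IsCoprime f₁ M ∧ IsCoprime f₂ M ∧
      χ (clM M K f₁) ≠ χ (clM M K f₂) := by
    by_contra h
    push Not at h
    obtain ⟨z, hz, hz'⟩ := Two.Lp.exists_deg_char (Ψ := fun f : k[X] => χ (clM M K f)) hM hone
      hmul hnorm h
    exact h0 ⟨z, hz, fun p h => hz' p h.1 (Two.Lp.GoodP.isCoprime h)⟩
  obtain ⟨γ, hγ, hγ'⟩ := euler {p // GoodP M p} (fun p => p.1.natDegree)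
    (fun p => χ (clM M K p.1)) (2 * M.natDegree + (K + 1)) (fun p => p.2.2.1.natDegree_pos)
    (fun n => ((Lp.finite_monic (k := k) n).preimage Subtype.val_injective.injOn).subset
      fun p hp => ⟨p.2.1, hp⟩) fun n hn => by
      rw [Two.Lp.finsum_divisors (Ψ := fun f : k[X] => χ (clM M K f)) hone hmul]
      exact Lp.sum_eq_zero (Ψ := fun f : k[X] => χ (clM M K f)) hM _ hmul hcon h₁ h₂ hd c₁ c₂
        hne hn
  have hS : ∀ m, 1 ≤ m → sumC ((AdjoinRoot.root M, 1) : RM M K) (1, AdjoinRoot.root (X ^ K)) χ M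
      m = -(γ.map (· ^ m)).sum := fun m hm => by
    rw [← hγ' m hm, finsum_mem_eq_of_bijOn (s := {i : {p // GoodP M p} | i.1.natDegree ∣ m})
      (t := {p | GoodP M p ∧ p.natDegree ∣ m})
      (g := fun p => (p.natDegree : ℂ) * χ (clM M K p) ^ (m / p.natDegree)) Subtype.val
      ⟨fun p hp => ⟨p.2, hp⟩, Subtype.val_injective.injOn, fun p hp => ⟨⟨p, hp.1⟩, hp.2, rfl⟩⟩
      fun _ _ => rfl, sumC]
    refine (Finset.sum_congr rfl fun a _ => ?_).trans
      (Lp.sum_fixF' M hm fun p => χ (clM M K p) ^ (m / p.natDegree))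
    rw [chiN, Two.Lp.cl_eq_clM]
  have h1 := hR k _ _ _ χ M hM (fun p h1 h2 h3 => by
    rw [Two.Lp.cl_eq_clM]
    exact Two.Lp.isUnit_clM K h1 (Two.Lp.GoodP.isCoprime ⟨h1, h2, h3⟩)) γ hS
  have h2 : ‖sumC ((AdjoinRoot.root M, 1) : RM M K) (1, AdjoinRoot.root (X ^ K)) χ M m‖ ≤
      γ.card * √(Fintype.card k) ^ m := by
    rw [hS m hm, norm_neg]
    refine (norm_multiset_sum_le _).trans ((Multiset.sum_le_card_nsmul _ (√(Fintype.card k) ^ m)
      fun x hx => ?_).trans ?_)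
    · simp only [Multiset.map_map, Multiset.mem_map, Function.comp_apply] at hx
      obtain ⟨z, hz, rfl⟩ := hx
      rw [norm_pow]
      exact pow_le_pow_left₀ (norm_nonneg _) (h1 z hz) m
    · simp
  have h3 : ‖sumC ((AdjoinRoot.root M, 1) : RM M K) (1, AdjoinRoot.root (X ^ K)) χ M m -
      PS M (fun p => χ (clM M K p)) m‖ ≤ _ :=
    Lp.norm_sum_sub_PS M hm _ _ 1 (fun a => by
      rw [chiN, ← map_pow]
      exact Two.Rh.norm_chi_le χ _) fun a _ hd => by
      rw [chiN, Two.Lp.cl_eq_clM, hd, Nat.div_self hm, pow_one]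
  have h4 := norm_le_norm_add_norm_sub (sumC ((AdjoinRoot.root M, 1) : RM M K)
    (1, AdjoinRoot.root (X ^ K)) χ M m) (PS M (fun p => χ (clM M K p)) m)
  have h5 : (γ.card : ℝ) ≤ 2 * M.natDegree + (K + 1) := by exact_mod_cast hγ
  have h6 : (γ.card : ℝ) + Fintype.card k ≤ (2 + Fintype.card k) * (M.natDegree + K + 1) := by
    have : (0 : ℝ) ≤ Fintype.card k * (M.natDegree + K) := by positivity
    have : (0 : ℝ) ≤ K := by positivity
    linarith
  have h7 := mul_le_mul_of_nonneg_right h6 (pow_nonneg (Real.sqrt_nonneg (Fintype.card k)) m)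
  linarith

end Pool.Agent.Lib.MP_a3f657_nt.Three
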