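import Pool.Agent.Lib.MP_a3f657_nt.C2SfFourier
import Pool.Agent.Lib.MP_a3f657_nt.C3AnDefs

/-!
The Moebius function on average over classes.
-/

namespace Pool.Agent.Lib.MP_a3f657_nt.Three

open Pool.Agent.Lib.MP_a3f657_nt.Two

open Polynomial Finset

open scoped Classical

theorem par_orth {G : Type} [CommGroup G] [Finite G] [Fintype (G →* ℂˣ)] (g : G) :
    ∑ ψ : G →* ℂˣ, (ψ g : ℂ) = if g = 1 then (Fintype.card (G →* ℂˣ) : ℂ) else 0 := by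
  split_ifs with hg
  · simp [hg]
  · obtain ⟨ψ₀, h₀⟩ := CommGroup.exists_apply_ne_one_of_hasEnoughRootsOfUnity G ℂ hg
    have h2 : ∑ ψ : G →* ℂˣ, (ψ g : ℂ) = ψ₀ g * ∑ ψ : G →* ℂˣ, (ψ g : ℂ) := by
      rw [mul_sum]
      exact (Fintype.sum_equiv (Equiv.mulLeft ψ₀) _ _ fun ψ => by simp).symm
    have h3 : (ψ₀ g : ℂ) - 1 ≠ 0 := sub_ne_zero.2 fun h3 => h₀ (Units.ext h3)
    apply mul_left_cancel₀ h3
    linear_combination -h2

theorem par_parseval {G : Type} [CommGroup G] [Fintype G] (S : G → ℂ) (b : ℝ)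
    (h : ∀ ψ : G →* ℂˣ, ‖∑ g, S g * ψ g‖ ≤ b) : ∑ g, ‖S g‖ ^ 2 ≤ b ^ 2 := by
  have := Fintype.ofFinite (G →* ℂˣ)
  have h1 : ∀ (ψ : G →* ℂˣ) (g : G), (starRingEnd ℂ) (ψ g : ℂ) = ψ g⁻¹ := fun ψ g => by
    rw [map_inv, Units.val_inv_eq_inv_val, Complex.inv_eq_conj (norm_char ψ g)]
  have h2 : ∑ ψ : G →* ℂˣ, ((‖∑ g, S g * ψ g‖ ^ 2 : ℝ) : ℂ) =
      (Fintype.card (G →* ℂˣ) : ℂ) * ∑ g, ((‖S g‖ ^ 2 : ℝ) : ℂ) := by
    have h3 : ∀ ψ : G →* ℂˣ, ((‖∑ g, S g * ψ g‖ ^ 2 : ℝ) : ℂ) =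
        ∑ g, ∑ g', S g * (starRingEnd ℂ) (S g') * ψ (g * g'⁻¹) := fun ψ => by
      rw [Complex.ofReal_pow, ← Complex.mul_conj', map_sum, sum_mul_sum]
      refine sum_congr rfl fun g _ => sum_congr rfl fun g' _ => ?_
      rw [map_mul, h1, map_mul, Units.val_mul]
      ring
    simp only [h3]
    rw [sum_comm, mul_sum]
    refine sum_congr rfl fun g _ => ?_
    rw [sum_comm]
    simp only [← mul_sum, par_orth, mul_inv_eq_one]
    rw [sum_eq_single g (fun g' _ hg => by rw [if_neg (Ne.symm hg), mul_zero])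
      (fun hg => (hg (mem_univ _)).elim), if_pos rfl, Complex.mul_conj', Complex.ofReal_pow,
      mul_comm]
  have h3 : ∑ ψ : G →* ℂˣ, ‖∑ g, S g * ψ g‖ ^ 2 =
      (Fintype.card (G →* ℂˣ) : ℝ) * ∑ g, ‖S g‖ ^ 2 := by exact_mod_cast h2
  have h4 : (0 : ℝ) < Fintype.card (G →* ℂˣ) := by exact_mod_cast Fintype.card_pos
  refine le_of_mul_le_mul_left ?_ h4
  rw [← h3, ← card_univ, ← nsmul_eq_mul]
  exact sum_le_card_nsmul _ _ _ fun ψ _ => pow_le_pow_left₀ (norm_nonneg _) (h ψ) 2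

theorem par_fib {ι R : Type} [Fintype R] (I : Finset ι) (c : ι → R) (ψ : ι → ℂ) (S : R → ℂ)
    (B : ℕ) (b : ℝ) (hb : 0 ≤ b) (hψ : ∀ i ∈ I, ‖ψ i‖ ≤ 1)
    (hB : ∀ i ∈ I, (I.filter fun j => c j = c i).card ≤ B) (hS : ∑ r, ‖S r‖ ^ 2 ≤ b ^ 2) :
    ‖∑ i ∈ I, ψ i * S (c i)‖ ≤ b * √(I.card * B) := by
  have h1 : ‖∑ i ∈ I, ψ i * S (c i)‖ ≤ ∑ i ∈ I, ‖S (c i)‖ :=
    (norm_sum_le _ _).trans (sum_le_sum fun i hi => by
      rw [norm_mul]
      exact mul_le_of_le_one_left (norm_nonneg _) (hψ i hi))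
  have h2 : ∑ i ∈ I, ‖S (c i)‖ ^ 2 ≤ B * b ^ 2 := by
    rw [← sum_fiberwise I c]
    refine le_trans (sum_le_sum fun r _ => ?_) ((mul_sum _ _ _).ge.trans
      (mul_le_mul_of_nonneg_left hS (Nat.cast_nonneg B)))
    rw [sum_congr rfl (g := fun _ => ‖S r‖ ^ 2) fun i hi => by rw [(mem_filter.1 hi).2],
      sum_const, nsmul_eq_mul]
    refine mul_le_mul_of_nonneg_right ?_ (by positivity)
    rcases (I.filter fun i => c i = r).eq_empty_or_nonempty with h | ⟨i, hi⟩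
    · simp [h]
    · obtain ⟨h3, rfl⟩ := mem_filter.1 hi
      exact_mod_cast hB i h3
  refine h1.trans (Real.le_sqrt_of_sq_le ?_ |>.trans (le_of_eq (?_ : √(I.card * (B * b ^ 2)) = _)))
  · exact sq_sum_le_card_mul_sum_sq.trans (mul_le_mul_of_nonneg_left h2 (Nat.cast_nonneg _))
  · rw [← mul_assoc, Real.sqrt_mul' _ (sq_nonneg b), Real.sqrt_sq hb, mul_comm]

theorem anPar (h : AnChi) : AnPar := by
  intro k _ _ _ θ hθ
  obtain ⟨T, C, H⟩ := h k θ hθ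
  refine ⟨T, C, fun M K n I c ψ B hM hT hψ hB => ?_⟩
  have := finite_RM hM K
  have := Fintype.ofFinite (RM M K)
  have := Fintype.ofFinite (RM M K)ˣ
  have hb := (norm_nonneg _).trans (H M K n 1 hM hT)
  refine par_fib I c ψ (SFc M K n) B _ hb hψ (fun i hi => by convert hB i hi) ?_
  have h0 : ∀ r : RM M K, SFc M K n r =
      ∑ f ∈ (finite_SF M n).toFinset.filter (fun f => clM M K f = r), sfw (fun _ => -1) f := by
    intro r
    rw [SFc, ← finsum_mem_coe_finset]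
    refine finsum_mem_congr ?_ fun _ _ => rfl
    ext f
    simp [and_assoc]
  have h1 : ∑ r, ‖SFc M K n r‖ ^ 2 = ∑ g : (RM M K)ˣ, ‖SFc M K n g‖ ^ 2 := by
    symm
    refine sum_of_injOn (fun g : (RM M K)ˣ => (g : RM M K)) (fun _ _ _ _ h => Units.ext h)
      (fun _ _ => mem_univ _) (fun r _ hr => ?_) fun _ _ => rfl
    rw [h0, sum_eq_zero, norm_zero, zero_pow two_ne_zero]
    intro f hf
    obtain ⟨h2, rfl⟩ := mem_filter.1 hf
    obtain ⟨h3, -, h4⟩ := (Set.Finite.mem_toFinset _).1 h2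
    exact (hr ⟨(isUnit_clM K h3 h4).unit, mem_univ _, rfl⟩).elim
  rw [h1]
  refine par_parseval _ _ fun χ => ?_
  refine le_of_eq_of_le (congrArg norm ?_) (H M K n (MulChar.ofUnitHom χ) hM hT)
  let u : k[X] → (RM M K)ˣ := fun f => if hf : IsUnit (clM M K f) then hf.unit else 1
  have hu : ∀ f ∈ (finite_SF M n).toFinset, (u f : RM M K) = clM M K f := fun f hf => by
    obtain ⟨h3, -, h4⟩ := (Set.Finite.mem_toFinset _).1 hf
    simp [u, isUnit_clM K h3 h4]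
  rw [SF, finsum_mem_eq_finite_toFinset_sum _ (finite_SF M n), ← sum_fiberwise _ u]
  refine sum_congr rfl fun g _ => ?_
  rw [h0, sum_mul]
  refine sum_congr (filter_congr fun f hf => by rw [← hu f hf, Units.val_inj]) fun f hf => ?_
  obtain ⟨h2, rfl⟩ := mem_filter.1 hf
  rw [sfw_mul _ _ ((Set.Finite.mem_toFinset _).1 h2).1, ← hu f h2, MulChar.ofUnitHom_coe]

end Pool.Agent.Lib.MP_a3f657_nt.Three
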