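import Pool.Agent.Lib.MP_a3f657_nt.C3AnDefs

/-!
Periodicity of the Jacobi symbol.
-/

namespace Pool.Agent.Lib.MP_a3f657_nt.Three

open Pool.Agent.Lib.MP_a3f657_nt.Two

open Polynomial UniqueFactorizationMonoid

theorem rec_sq_norm {K L : Type} [Field K] [Field L] [Fintype K] [Fintype L] [Algebra K L]
    (hK : ringChar K ≠ 2) {x : L} (hx : x ≠ 0) :
    IsSquare (Algebra.norm K x) ↔ IsSquare x := by
  have hL : ringChar L ≠ 2 := by
    rwa [← Algebra.ringChar_eq K L]
  have hn : Algebra.norm K x ≠ 0 := Algebra.norm_ne_zero_iff.mpr hx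
  rw [FiniteField.isSquare_iff hK hn, FiniteField.isSquare_iff hL hx,
    ← (algebraMap K L).injective.eq_iff, map_pow, map_one, FiniteField.algebraMap_norm_eq_pow,
    ← pow_mul, ← Fintype.card_eq_nat_card, ← Fintype.card_eq_nat_card]
  have h1 := FiniteField.odd_card_of_char_ne_two hK
  have h2 := FiniteField.odd_card_of_char_ne_two hL
  have h3 : Fintype.card K - 1 ∣ Fintype.card L - 1 := by
    rw [Module.card_eq_pow_finrank (K := K) (V := L)]
    exact Nat.sub_one_dvd_pow_sub_one _ _
  have h4 : 1 < Fintype.card K := Fintype.one_lt_card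
  obtain ⟨c, hc⟩ := h3
  have h5 : (Fintype.card L - 1) / (Fintype.card K - 1) * (Fintype.card K / 2) =
      Fintype.card L / 2 := by
    rw [hc, Nat.mul_div_cancel_left _ (by omega)]
    obtain ⟨a, ha⟩ : ∃ a, Fintype.card K = 2 * a + 1 := ⟨Fintype.card K / 2, by omega⟩
    rw [ha] at hc ⊢
    have h6 : (2 * a + 1) / 2 = a := by omega
    rw [h6]
    have h7 : (2 * a + 1 - 1) * c = 2 * (c * a) := by
      rw [Nat.add_sub_cancel]; ring
    omega
  rw [h5]

attribute [local instance 10000] Classical.propDecidable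

variable {k : Type} [Field k]

theorem rec_res_norm [Fintype k] (p A : k[X]) [hp : Fact (Irreducible p)] (hm : p.Monic) :
    resultant p A p.natDegree A.natDegree = Algebra.norm k (AdjoinRoot.mk p A) := by
  have : Module.Finite k (AdjoinRoot p) := (AdjoinRoot.powerBasis hp.out.ne_zero).finite
  let E := AlgebraicClosure k
  apply (algebraMap k E).injective
  have hsep : p.Separable := PerfectField.separable_of_irreducible hp.out
  have h1 := resultant_eq_prod_eval (p.map (algebraMap k E)) (A.map (algebraMap k E)) A.natDegree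
    natDegree_map_le (IsAlgClosed.splits _)
  rw [natDegree_map, resultant_map_map, (hm.map _).leadingCoeff, one_pow, one_mul] at h1
  rw [h1, Algebra.norm_eq_prod_embeddings k E,
    Fintype.prod_equiv (AdjoinRoot.equiv E k p hp.out.ne_zero)
      (fun σ => σ (AdjoinRoot.mk p A)) (fun x => (A.map (algebraMap k E)).eval x.1) ?_,
    Finset.prod_mem_multiset _ _ (fun x => (A.map (algebraMap k E)).eval x) (fun _ => rfl),
    Finset.prod_eq_multiset_prod, Multiset.toFinset_val,
    Multiset.dedup_eq_self.mpr (nodup_roots (hsep.map))]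
  intro σ
  have h2 : ((AdjoinRoot.equiv E k p hp.out.ne_zero σ : {x // x ∈ p.aroots E}) : E) =
      σ (AdjoinRoot.root p) := by
    simp [AdjoinRoot.equiv]
  rw [h2, eval_map_algebraMap, ← AdjoinRoot.aeval_eq, aeval_algHom_apply]

theorem rec_leg [Fintype k] [CharP k 3] (p A : k[X]) (hp : Irreducible p) (hm : p.Monic)
    (hA : ¬ p ∣ A) :
    ((quadraticChar k (resultant p A p.natDegree A.natDegree) : ℤ) : ℂ) = (leg A p : ℂ) := by
  have : Fact (Irreducible p) := ⟨hp⟩
  have : Module.Finite k (AdjoinRoot p) := (AdjoinRoot.powerBasis hp.ne_zero).finite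
  have : Finite (AdjoinRoot p) := Module.finite_of_finite k
  let : Fintype (AdjoinRoot p) := Fintype.ofFinite _
  have hK : ringChar k ≠ 2 := by
    rw [ringChar.eq k 3]; norm_num
  have hx : AdjoinRoot.mk p A ≠ 0 := fun h => hA (AdjoinRoot.mk_eq_zero.mp h)
  have hn : Algebra.norm k (AdjoinRoot.mk p A) ≠ 0 := Algebra.norm_ne_zero_iff.mpr hx
  have hsq : (∃ z : k[X], p ∣ z ^ 2 - A) ↔ IsSquare (AdjoinRoot.mk p A) := by
    constructor
    · rintro ⟨z, hz⟩
      refine ⟨AdjoinRoot.mk p z, ?_⟩
      rw [← map_mul, ← pow_two]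
      exact (AdjoinRoot.mk_eq_mk.mpr hz).symm
    · rintro ⟨y, hy⟩
      obtain ⟨z, rfl⟩ := AdjoinRoot.mk_surjective y
      refine ⟨z, ?_⟩
      rw [← map_mul, ← pow_two] at hy
      exact AdjoinRoot.mk_eq_mk.mp hy.symm
  rw [rec_res_norm p A hm, leg]
  split_ifs with h
  · rw [(quadraticChar_one_iff_isSquare hn).mpr ((rec_sq_norm hK hx).mpr (hsq.mp h))]
    simp
  · rw [quadraticChar_neg_one_iff_not_isSquare.mpr
      (fun h' => h (hsq.mpr ((rec_sq_norm hK hx).mp h')))]
    simp

theorem recip : Recip := by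
  intro k _ _ _ A hA
  refine ⟨fun f => ((quadraticChar k (resultant f A f.natDegree A.natDegree) : ℤ) : ℂ), ?_, ?_, ?_⟩
  · intro f
    rcases quadraticChar_isQuadratic k (resultant f A f.natDegree A.natDegree) with h | h | h <;>
      simp only [h] <;> simp
  · intro f hf hsq hco
    have hnd := (squarefree_iff_nodup_normalizedFactors hf.ne_zero).mp hsq
    have hmem : ∀ p ∈ (normalizedFactors f).toFinset, Irreducible p ∧ p.Monic ∧ p ∣ f := by
      intro p hp
      rwa [Multiset.mem_toFinset, Polynomial.mem_normalizedFactors_iff hf.ne_zero] at hp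
    have hprod : ∏ p ∈ (normalizedFactors f).toFinset, p = f := by
      rw [Finset.prod_eq_multiset_prod, Multiset.toFinset_val, Multiset.dedup_eq_self.mpr hnd,
        Multiset.map_id']
      have := leadingCoeff_mul_prod_normalizedFactors f
      rwa [hf.leadingCoeff, map_one, one_mul] at this
    have h1 := resultant_prod_left (normalizedFactors f).toFinset (fun p => p) A A.natDegree
      (Finset.prod_ne_zero_iff.mpr fun p hp => by
        rw [(hmem p hp).2.1.leadingCoeff]; exact one_ne_zero) le_rfl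
    rw [hprod] at h1
    show ((quadraticChar k (resultant f A f.natDegree A.natDegree) : ℤ) : ℂ) = _
    rw [h1, map_prod, Int.cast_prod]
    refine Finset.prod_congr rfl fun p hp => ?_
    obtain ⟨h2, h3, h4⟩ := hmem p hp
    exact rec_leg p A h2 h3 fun h5 => h2.not_isUnit (hco.isUnit_of_dvd' h4 h5)
  · intro f g hf hg hdeg hdvd
    obtain ⟨c, hc⟩ := hdvd
    show ((quadraticChar k (resultant f A f.natDegree A.natDegree) : ℤ) : ℂ) =
      ((quadraticChar k (resultant g A g.natDegree A.natDegree) : ℤ) : ℂ)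
    have h1 : f = g + A * c := by rw [← hc]; ring
    by_cases h0 : c = 0
    · rw [h1, h0, mul_zero, add_zero]
    · have h2 : c.natDegree + A.natDegree ≤ f.natDegree := by
        rw [add_comm, ← natDegree_mul hA h0, ← hc]
        exact (natDegree_sub_le _ _).trans (max_le le_rfl hdeg.le)
      have h3 := resultant_add_mul_left g A c f.natDegree A.natDegree h2 le_rfl
      rw [← h1] at h3
      rw [h3, hdeg]

end Pool.Agent.Lib.MP_a3f657_nt.Three
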