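import Pool.Agent.Lib.MP_a3f657_nt.C2RhMain
import Pool.Agent.Lib.MP_a3f657_nt.C3AnDefs

/-!
The Riemann hypothesis for Dirichlet characters in characteristic three.
-/

namespace Pool.Agent.Lib.MP_a3f657_nt.Three

open Pool.Agent.Lib.MP_a3f657_nt.Two

namespace Rh

open Pool.Agent.Lib.MP_a3f657_nt.Two.Rh

open Polynomial Module TensorProduct

section Cover

variable {k : Type} [Field k] {R : Type} [CommRing R] [Algebra k R] {d : ℕ}
  (e : Basis (Fin d) k R) (F : Type) [Field F] [Algebra k F]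

/-- The polynomial ring in which the cover lives. -/
abbrev PP (d : ℕ) : Type := MvPolynomial (Fin d) F[X]

/-- The generic element. -/
noncomputable def ygen : PP F d ⊗[k] R :=
  (bs (PP F d) e).equivFun.symm fun j => MvPolynomial.X j

variable {F} {S S' : Type} [CommRing S] [Algebra k S] [Algebra F S] [IsScalarTower k F S]
  [CommRing S'] [Algebra k S'] [Algebra F S'] [IsScalarTower k F S']

/-- The base coordinate. -/
noncomputable def ba (ψ : PP F d →ₐ[F] S) : S := ψ (algebraMap F[X] (PP F d) X)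

/-- The Lang coordinate. -/
noncomputable def yy (ψ : PP F d →ₐ[F] S) : S ⊗[k] R := mp R (ψ.restrictScalars k) (ygen e F)

theorem repr_ygen (j : Fin d) : (bs (PP F d) e).repr (ygen e F) j = MvPolynomial.X j := by
  rw [ygen, ← Basis.equivFun_apply, LinearEquiv.apply_symm_apply]

theorem repr_yy (ψ : PP F d →ₐ[F] S) (j : Fin d) :
    (bs S e).repr (yy e ψ) j = ψ (MvPolynomial.X j) := by
  rw [yy, repr_mp, repr_ygen]
  rfl

theorem hom_ext {ψ ψ' : PP F d →ₐ[F] S} (h1 : ba ψ = ba ψ') (h3 : yy e ψ = yy e ψ') : ψ = ψ' := by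
  refine MvPolynomial.algHom_ext' (Polynomial.algHom_ext h1) fun j => ?_
  rw [← repr_yy e, ← repr_yy e, h3]

variable (F) in
/-- The substitution attached to a group element. -/
noncomputable def tau (γ : Rˣ) : PP F d →ₐ[F[X]] PP F d :=
  MvPolynomial.aeval fun j => (bs (PP F d) e).repr ((1 ⊗ₜ (γ : R)) * ygen e F) j

/-- The action on solutions. -/
noncomputable def tw (γ : Rˣ) (ψ : PP F d →ₐ[F] S) : PP F d →ₐ[F] S :=
  ψ.comp ((tau e F γ).restrictScalars F)

theorem tw_apply (γ : Rˣ) (ψ : PP F d →ₐ[F] S) (f : PP F d) :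
    tw e γ ψ f = ψ (tau e F γ f) := rfl

theorem ba_tw (γ : Rˣ) (ψ : PP F d →ₐ[F] S) : ba (tw e γ ψ) = ba ψ := by
  rw [ba, tw_apply, AlgHom.commutes, ba]

theorem yy_tw (γ : Rˣ) (ψ : PP F d →ₐ[F] S) :
    yy e (tw e γ ψ) = (1 ⊗ₜ (γ : R)) * yy e ψ := by
  refine (bs S e).ext_elem fun j => ?_
  rw [repr_yy, tw_apply, tau, MvPolynomial.aeval_X]
  refine (repr_mp e (ψ.restrictScalars k) _ j).symm.trans ?_
  rw [map_mul (mp R _), mp_tmul, map_one, yy]

variable (F S) in
/-- The group action on solutions. -/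
@[reducible] noncomputable def act : MulAction Rˣ (PP F d →ₐ[F] S) where
  smul := tw e
  one_smul ψ := by
    change tw e 1 ψ = ψ
    refine hom_ext e (ba_tw ..) ?_
    rw [yy_tw]
    exact one_mul _
  mul_smul γ γ' ψ := by
    change tw e (γ * γ') ψ = tw e γ (tw e γ' ψ)
    refine hom_ext e (by simp only [ba_tw]) ?_
    simp only [yy_tw, Units.val_mul, ← mul_assoc, Algebra.TensorProduct.tmul_mul_tmul, mul_one]

variable [Fintype k] (U V : R) (ν : F ⊗[k] R)

/-- The equation of the cover. -/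
structure Eqs (ψ : PP F d →ₐ[F] S) : Prop where
  ey : mp R (FiniteField.frobeniusAlgHom k S) (yy e ψ) =
    ell U V (ba ψ) * mp R (IsScalarTower.toAlgHom k F S) ν * yy e ψ

variable {e U V ν}

theorem Eqs.transfer {ψ : PP F d →ₐ[F] S} (h : Eqs e U V ν ψ) {ψ' : PP F d →ₐ[F] S'}
    (hψ : ∀ f, ψ f = 0 → ψ' f = 0) : Eqs e U V ν ψ' := by
  have key : ∀ f g, ψ f = ψ g → ψ' f = ψ' g := fun f g h => by
    rw [← sub_eq_zero, ← map_sub] at h ⊢
    exact hψ _ h
  let I := AlgHom.id F (PP F d)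
  have ky : ∀ {S : Type} [CommRing S] [Algebra k S] [Algebra F S] [IsScalarTower k F S]
      (ψ : PP F d →ₐ[F] S), mp R (FiniteField.frobeniusAlgHom k S) (yy e ψ) =
      ell U V (ba ψ) * mp R (IsScalarTower.toAlgHom k F S) ν * yy e ψ ↔
      ∀ j, ψ ((bs (PP F d) e).repr (mp R (FiniteField.frobeniusAlgHom k _) (ygen e F)) j) =
        ψ ((bs (PP F d) e).repr (ell U V (ba I) * mp R (IsScalarTower.toAlgHom k F _) ν *
          ygen e F) j) := fun {S} _ _ _ _ ψ => by
    rw [(bs S e).ext_elem_iff]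
    refine forall_congr' fun j => ?_
    have h1 := repr_mp e (ψ.restrictScalars k)
    simp only [AlgHom.restrictScalars_apply] at h1
    rw [← h1, ← h1, map_mul (mp R _), map_mul (mp R _), mp_ell, mp_mp, mp_mp, yy, mp_mp]
    have h2 : (FiniteField.frobeniusAlgHom k S).comp (ψ.restrictScalars k) =
        (ψ.restrictScalars k).comp (FiniteField.frobeniusAlgHom k _) := by
      refine AlgHom.ext fun x => ?_
      simp only [AlgHom.comp_apply, FiniteField.coe_frobeniusAlgHom, map_pow]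
    have h3 : (ψ.restrictScalars k).comp (IsScalarTower.toAlgHom k F (PP F d)) =
        IsScalarTower.toAlgHom k F S := AlgHom.ext fun x => ψ.commutes x
    rw [h2, h3]
    rfl
  exact ⟨(ky ψ').2 fun j => key _ _ ((ky ψ).1 h.ey j)⟩

end Cover

section Pts

variable {k : Type} [Field k] [Fintype k] {R : Type} [CommRing R] [Algebra k R]
  {d : ℕ} {e : Basis (Fin d) k R} {F : Type} [Field F] [Algebra k F] {U V : R} {ν : F ⊗[k] R}

theorem Eqs.isIntegral {B : Type} [CommRing B] [Algebra k B] [Algebra F B] [IsScalarTower k F B]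
    [Algebra F[X] B] [IsScalarTower k F[X] B] [IsScalarTower F F[X] B] {ψ : PP F d →ₐ[F] B}
    (h : Eqs e U V ν ψ) (hb : ba ψ = algebraMap F[X] B X) (i : Fin d) :
    IsIntegral F[X] (ψ (MvPolynomial.X i)) := by
  refine isIntegral_of_pow_mem (fun j => ψ (MvPolynomial.X j)) (Fintype.card k)
    Fintype.one_lt_card (fun x y => map_add (FiniteField.frobeniusAlgHom k B) x y) (fun j => ?_) i
  have h1 := congrArg (fun y => (bs B e).repr y j) h.ey
  simp only [repr_mp, repr_yy, FiniteField.coe_frobeniusAlgHom] at h1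
  have h2 : ell U V (ba ψ) * mp R (IsScalarTower.toAlgHom k F B) ν =
      mp R (IsScalarTower.toAlgHom k F[X] B)
        (ell U V X * mp R (IsScalarTower.toAlgHom k F F[X]) ν) := by
    rw [map_mul, mp_ell, mp_mp, hb]
    congr 3
    exact AlgHom.ext fun x => IsScalarTower.algebraMap_apply F F[X] B x
  rw [h1, h2, ← (bs B e).sum_repr (yy e ψ), Finset.mul_sum, map_sum, Finsupp.finsetSum_apply]
  refine Submodule.sum_mem _ fun l _ => ?_
  rw [mul_smul_comm, map_smul, Finsupp.smul_apply, ← mp_bs e (IsScalarTower.toAlgHom k F[X] B),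
    ← map_mul, repr_mp, repr_yy, smul_eq_mul, mul_comm, IsScalarTower.toAlgHom_apply,
    ← Algebra.smul_def]
  exact Submodule.smul_mem _ _ (Submodule.subset_span ⟨l, rfl⟩)

theorem Eqs.finite_aux {B : Type} [CommRing B] [Algebra k B] [Algebra F B] [IsScalarTower k F B]
    [Algebra F[X] B] [IsScalarTower k F[X] B] [IsScalarTower F F[X] B] (ψ : PP F d →ₐ[F[X]] B)
    (h : Eqs e U V ν (ψ.restrictScalars F)) (hs : Function.Surjective ψ) :
    Module.Finite F[X] B := by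
  have : Algebra.FiniteType F[X] B := Algebra.FiniteType.of_surjective ψ hs
  have : Algebra.IsIntegral F[X] B := ⟨fun b => by
    obtain ⟨f, rfl⟩ := hs b
    induction f using MvPolynomial.induction_on with
    | C a => exact (ψ.commutes a).symm ▸ isIntegral_algebraMap
    | add p q hp hq =>
      rw [map_add]
      exact hp.add hq
    | mul_X p i hp =>
      rw [map_mul]
      exact hp.mul (h.isIntegral (ψ.commutes X) i)⟩
  exact Algebra.IsIntegral.finite

theorem Eqs.finite {S : Type} [CommRing S] [Algebra k S] [Algebra F S] [IsScalarTower k F S]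
    {Φ : PP F d →ₐ[F] S} (h : Eqs e U V ν Φ) :
    Module.Finite F[X] (PP F d ⧸ RingHom.ker Φ) :=
  Eqs.finite_aux (B := PP F d ⧸ RingHom.ker Φ) (Ideal.Quotient.mkₐ F[X] (RingHom.ker Φ))
    (h.transfer (S' := PP F d ⧸ RingHom.ker Φ) fun _ hf => Ideal.Quotient.eq_zero_iff_mem.2 hf)
    Ideal.Quotient.mk_surjective

variable {K : Type} [Field K] [Algebra k K]

theorem exists_unit_of_fixed {y y' w : K ⊗[k] R} (e : Basis (Fin d) k R) (hy : IsUnit y)
    (hy' : IsUnit y') (h : mp R (FiniteField.frobeniusAlgHom k K) y = w * y)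
    (h' : mp R (FiniteField.frobeniusAlgHom k K) y' = w * y') :
    ∃ g : Rˣ, y' = (1 ⊗ₜ (g : R)) * y := by
  have key : ∀ {y y' : K ⊗[k] R}, IsUnit y → mp R (FiniteField.frobeniusAlgHom k K) y = w * y →
      mp R (FiniteField.frobeniusAlgHom k K) y' = w * y' → ∃ g : R, y' = (1 ⊗ₜ g) * y := by
    intro y y' hy h h'
    obtain ⟨z, hz⟩ := hy.exists_right_inv
    have h1 := congrArg (mp R (FiniteField.frobeniusAlgHom k K)) hz
    rw [map_mul, h, map_one] at h1
    obtain ⟨g, hg⟩ := exists_of_fixed e (y := y' * z) (by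
      rw [map_mul, h']
      linear_combination y' * z * h1 -
        w * y' * mp R (FiniteField.frobeniusAlgHom k K) z * hz)
    exact ⟨g, by rw [← hg]; linear_combination (-y') * hz⟩
  obtain ⟨g, hg⟩ := key hy h h'
  obtain ⟨g', hg'⟩ := key hy' h' h
  have h1 : g * g' = 1 := by
    refine one_tmul_injective (K := K) e (hy'.mul_right_cancel ?_)
    rw [← mul_one (1 : K), ← Algebra.TensorProduct.tmul_mul_tmul, mul_assoc, ← hg', ← hg, mul_one,
      ← Algebra.TensorProduct.one_def, one_mul]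
  exact ⟨Units.mkOfMulEqOne g g' h1, hg⟩

theorem mp_pow_frob {y w : K ⊗[k] R} (h : mp R (FiniteField.frobeniusAlgHom k K) y = w * y)
    (m : ℕ) : mp R (FiniteField.frobeniusAlgHom k K ^ m) y =
      (∏ i ∈ Finset.range m, mp R (FiniteField.frobeniusAlgHom k K ^ i) w) * y := by
  induction m with
  | zero =>
    rw [Finset.prod_range_zero, one_mul]
    exact mp_id y
  | succ m ih =>
    rw [pow_succ, show ∀ φ ψ : K →ₐ[k] K, φ * ψ = φ.comp ψ from fun _ _ => rfl, ← mp_mp, h,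
      map_mul, ih, Finset.prod_range_succ]
    ring

theorem frob_pow_apply (m : ℕ) (x : K) :
    (FiniteField.frobeniusAlgHom k K ^ m) x = x ^ Fintype.card k ^ m := by
  rw [AlgHom.coe_pow, FiniteField.coe_frobeniusAlgHom, pow_iterate]

variable [Algebra F K] [IsScalarTower k F K]

theorem Eqs.exists_tw {ψ ψ' : PP F d →ₐ[F] K} (h : Eqs e U V ν ψ)
    (h' : Eqs e U V ν ψ') (hb : ba ψ' = ba ψ) (hy : IsUnit (yy e ψ))
    (hy' : IsUnit (yy e ψ')) : ∃ γ, ψ' = tw e γ ψ := by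
  obtain ⟨h4⟩ := h'
  rw [hb] at h4
  obtain ⟨g, hg⟩ := exists_unit_of_fixed e hy hy' h.ey h4
  exact ⟨g, hom_ext e (by rw [ba_tw, hb]) (by rw [yy_tw, hg])⟩

omit [Fintype k] in
theorem eq_one_of_tw {ψ : PP F d →ₐ[F] K} (hy : IsUnit (yy e ψ))
    {γ : Rˣ} (h : tw e γ ψ = ψ) : γ = 1 := by
  have h3 := yy_tw e γ ψ
  rw [h] at h3
  refine Units.ext ?_
  refine one_tmul_injective (K := K) e (hy.mul_right_cancel ?_)
  rw [← h3]
  exact (one_mul _).symm

theorem Eqs.norm_rel {ψ : PP F d →ₐ[F] K} (h : Eqs e U V ν ψ) (hy : IsUnit (yy e ψ))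
    {t₀ : F} (hν : ell U V t₀ * ν = 1) {m : ℕ} (hm : 0 < m)
    (ht : algebraMap F K t₀ ^ Fintype.card k ^ m = algebraMap F K t₀)
    (ha : ba ψ ^ Fintype.card k ^ m = ba ψ) {g : R}
    (hg : mp R (FiniteField.frobeniusAlgHom k K ^ m) (yy e ψ) = (1 ⊗ₜ g) * yy e ψ) :
    cl U V (minpoly k (ba ψ)) ^ (m / (minpoly k (ba ψ)).natDegree) =
      g * cl U V (minpoly k (algebraMap F K t₀)) ^
        (m / (minpoly k (algebraMap F K t₀)).natDegree) := by
  rw [mp_pow_frob h.ey] at hg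
  have h1 := hy.mul_right_cancel hg
  refine one_tmul_injective (K := K) e ?_
  rw [← mul_one (1 : K), ← Algebra.TensorProduct.tmul_mul_tmul, mul_one, ← prod_ell U V hm ha,
    ← prod_ell U V hm ht, ← h1, ← Finset.prod_mul_distrib]
  refine Finset.prod_congr rfl fun i _ => ?_
  have h2 := congrArg (fun y => mp R (FiniteField.frobeniusAlgHom k K ^ i)
    (mp R (IsScalarTower.toAlgHom k F K) y)) hν
  simp only [map_mul, map_one, mp_ell, frob_pow_apply, IsScalarTower.toAlgHom_apply] at h2 ⊢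
  linear_combination (-ell U V (ba ψ ^ Fintype.card k ^ i)) * h2

end Pts

section Phi

variable {k : Type} [Field k] {R : Type} [CommRing R] [Algebra k R]
  {d : ℕ} (e : Basis (Fin d) k R) {F : Type} [Field F] [Algebra k F] {M : k[X]} {U V : R}
  {ν : F ⊗[k] R}

/-- The norm after base change. -/
noncomputable def nrm {S : Type} [CommRing S] [Algebra k S] (y : S ⊗[k] R) : S := Algebra.norm S y

theorem map_nrm {S : Type} [CommRing S] [Algebra k S] [Algebra F S] [IsScalarTower k F S]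
    (ψ : PP F d →ₐ[F] S) : ψ (nrm (ygen e F)) = nrm (yy e ψ) :=
  (norm_mp e (ψ.restrictScalars k) _).symm

theorem map_nrm_ne_zero {S S' : Type} [CommRing S] [Algebra k S] [Algebra F S]
    [IsScalarTower k F S] [CommRing S'] [Algebra k S'] [Nontrivial S'] (ψ : PP F d →ₐ[F] S)
    (c : S →ₐ[k] S') (h : mp R c (yy e ψ) = 1) : ψ (nrm (ygen e F)) ≠ 0 := fun h0 => by
  have h1 := norm_mp e c (yy e ψ)
  rw [map_nrm, nrm] at h0
  rw [h, h0, map_one, map_zero] at h1
  exact one_ne_zero h1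

variable [Fintype k]

theorem exists_phi (t₀ : F) (hν : ell U V t₀ * ν = 1) :
    ∃ Φ : PP F d →ₐ[F] PowerSeries F, ba Φ = PowerSeries.C t₀ + PowerSeries.X ∧
      Eqs e U V ν Φ ∧ Φ (nrm (ygen e F)) ≠ 0 := by
  let c : PowerSeries F →ₐ[k] F :=
    { PowerSeries.constantCoeff with
      commutes' := fun r => by simp [PowerSeries.algebraMap_apply] }
  have hc : ∀ x, c x = PowerSeries.constantCoeff x := fun x => rfl
  set t : PowerSeries F := PowerSeries.C t₀ + PowerSeries.X with ht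
  obtain ⟨H, hH⟩ := exists_lang e (F := F)
    (-(1 ⊗ₜ V * mp R (IsScalarTower.toAlgHom k F (PowerSeries F)) ν))
  let Φ : PP F d →ₐ[F] PowerSeries F := MvPolynomial.aevalTower (aeval t)
    fun j => (bs _ e).repr (1 + PowerSeries.X ⊗ₜ 1 * H) j
  have hb : ba Φ = t := by
    rw [ba, MvPolynomial.algebraMap_eq, MvPolynomial.aevalTower_C, aeval_X]
  have hy : yy e Φ = 1 + PowerSeries.X ⊗ₜ 1 * H := (bs _ e).ext_elem fun j => by
    rw [repr_yy, MvPolynomial.aevalTower_X]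
  refine ⟨Φ, hb, ⟨?_⟩, map_nrm_ne_zero e Φ c ?_⟩
  · rw [hy, hH, hb]
    congr 1
    have h3 := congrArg (mp R (IsScalarTower.toAlgHom k F (PowerSeries F))) hν
    rw [map_mul, map_one, mp_ell] at h3
    have h4 : ell (k := k) U V t = ell U V (IsScalarTower.toAlgHom k F (PowerSeries F) t₀) -
        PowerSeries.X ⊗ₜ 1 * 1 ⊗ₜ V := by
      rw [ell, ell, ht, add_tmul, Algebra.TensorProduct.tmul_mul_tmul, mul_one, one_mul, sub_sub]
      rfl
    rw [h4]
    linear_combination -h3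
  · rw [hy, map_add, map_one, map_mul, mp_tmul, hc, PowerSeries.constantCoeff_X, zero_tmul,
      zero_mul, add_zero]

variable {e}

theorem lower_bound [Finite R] [Fintype F] {K : Type} [Field K] [IsAlgClosed K] [Algebra k K]
    [Algebra F K] [IsScalarTower k F K] {t₀ : F} (hM : M ≠ 0)
    (Φ : PP F d →ₐ[F] PowerSeries F) (hb : ba Φ = PowerSeries.C t₀ + PowerSeries.X)
    (hE : Eqs e U V ν Φ) (hn : Φ (nrm (ygen e F)) ≠ 0) (Ξ : Rˣ → ℝ)
    (hΞ : ∀ γ, Ξ γ ≤ 2)
    (hsum : ∀ G : Finset Rˣ, (∀ a ∈ G, ∀ b ∈ G, a * b ∈ G) → 0 ≤ ∑ γ ∈ G, Ξ γ) :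
    ∃ (C : ℝ) (S₀ : ℕ), ∀ j, S₀ ≤ Fintype.card F ^ j → ∀ (T : Finset K) (f : K → ℝ),
      T.card = (Fintype.card F ^ j) ^ 2 → (∀ a ∈ T, a ^ (Fintype.card F ^ j) ^ 2 = a) →
      (∀ a, -2 ≤ f a) →
      (∀ ψ : PP F d →ₐ[F] K, Eqs e U V ν ψ → aeval (ba ψ) M ≠ 0 → IsUnit (yy e ψ) →
        ba ψ ∈ T → ∀ γ, (∀ g, ψ g ^ (Fintype.card F ^ j) ^ 2 = tw e γ ψ g) → f (ba ψ) = Ξ γ) →
      -C * Fintype.card F ^ j ≤ ∑ a ∈ T, f a := by
  classical
  letI := act e F K
  have hsm : ∀ (γ : Rˣ) (ψ : PP F d →ₐ[F] K), γ • ψ = tw e γ ψ := fun _ _ => rfl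
  have := Fintype.ofFinite Rˣ
  have hfin := hE.finite
  let G : Finset Rˣ := Finset.univ.filter fun γ => ∀ p, IsPt Φ K p → IsPt Φ K (γ • p)
  have hG : ∀ γ, γ ∈ G ↔ ∀ p, IsPt Φ K p → IsPt Φ K (γ • p) := fun γ => by simp [G]
  have hdich : ∀ γ : Rˣ, (∀ f, Φ f = 0 → Φ (tau e F γ f) = 0) ∨
      {p | IsPt Φ K p ∧ IsPt Φ K (γ • p)}.Finite := fun γ => by
    by_cases h : ∀ f, Φ f = 0 → Φ (tau e F γ f) = 0
    · exact Or.inl h
    push Not at h
    obtain ⟨f, hf, hf'⟩ := h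
    exact Or.inr ((finite_zeros Φ hb hfin K hf').subset fun p hp => ⟨hp.1, hp.2 f hf⟩)
  have hex := exists_isPt Φ hb hfin K
  have hG1 : ∀ γ ∈ G, ∀ f, Φ f = 0 → Φ (tau e F γ f) = 0 := fun γ hγ =>
    (hdich γ).resolve_right fun h => by
      refine Set.infinite_univ (α := K) ((h.image ba).subset fun a _ => ?_)
      obtain ⟨x, hx, hx'⟩ := hex a
      exact ⟨x, ⟨hx, (hG γ).1 hγ x hx⟩, hx'⟩
  have hG2 : ∀ γ ∉ G, {p | IsPt Φ K p ∧ IsPt Φ K (γ • p)}.Finite := fun γ hγ =>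
    (hdich γ).resolve_left fun h => hγ ((hG γ).2 fun p hp f hf => hp _ (h f hf))
  have hBad : (M.rootSet K ∪ ba '' {x | IsPt Φ K x ∧ x (nrm (ygen e F)) = 0} ∪
      ⋃ γ ∈ {γ | γ ∉ G}, ba '' {p | IsPt Φ K p ∧ IsPt Φ K (γ • p)}).Finite :=
    ((M.rootSet_finite K).union ((finite_zeros Φ hb hfin K hn).image _)).union
      ((Set.toFinite _).biUnion fun γ hγ => (hG2 γ hγ).image _)
  have hgood : ∀ p, IsPt Φ K p → ba p ∉ hBad.toFinset →
      aeval (ba p) M ≠ 0 ∧ IsUnit (yy e p) ∧ ∀ γ : Rˣ, IsPt Φ K (γ • p) → γ ∈ G :=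
    fun p hp hp' => by
      rw [Set.Finite.mem_toFinset] at hp'
      refine ⟨fun h => hp' (Or.inl (Or.inl ((mem_rootSet_of_ne hM).2 h))),
        isUnit_of_norm_ne_zero e fun h => hp' (Or.inl (Or.inr ⟨p, ⟨hp, ?_⟩, rfl⟩)),
        fun γ hγ => by_contra fun h => hp' (Or.inr (Set.mem_biUnion h ⟨p, ⟨hp, hγ⟩, rfl⟩))⟩
      rw [map_nrm]
      exact h
  have hcount := fun γ : G => count_le Φ hb hfin K (tau e F γ) (hG1 γ γ.2)
  choose C S₀ hC using hcount
  refine ⟨2 * (∑ γ, C γ : ℕ) + 4 * hBad.toFinset.card, ∑ γ, S₀ γ, fun j hj T f hT hT' hf hfΞ => ?_⟩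
  have hFr : ∀ (p : PP F d →ₐ[F] K) g, (FiniteField.frobeniusAlgHom F K ^ (j * 2)).comp p g =
      p g ^ (Fintype.card F ^ j) ^ 2 := fun p g => by
    rw [AlgHom.comp_apply, frob_pow_apply, pow_mul]
  have hS : (1 : ℝ) ≤ Fintype.card F ^ j := one_le_pow₀ (by exact_mod_cast Fintype.card_pos)
  have key := cheb ba (IsPt Φ K) G ((hG 1).2 fun p hp => by rwa [one_smul]) hBad.toFinset T
    (FiniteField.frobeniusAlgHom F K ^ (j * 2)).comp
    ((Fintype.card F ^ j) ^ 2 + (∑ γ, C γ : ℕ) * Fintype.card F ^ j) f Ξ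
    (fun γ p => ba_tw e γ p)
    (fun p hp hp' γ hγ => eq_one_of_tw (hgood p hp hp').2.1 hγ)
    (fun p p' hp hp' h1 h2 => by
      obtain ⟨γ, hγ⟩ := (hE.transfer hp).exists_tw (hE.transfer hp') h2 (hgood p hp h1).2.1
        (hgood p' hp' (h2 ▸ h1)).2.1
      exact ⟨γ, (hgood p hp h1).2.2 γ (by rwa [hsm, ← hγ]), hγ⟩)
    (fun γ hγ => (hG γ).1 hγ) hex
    (fun p hp => (hFr p _).trans (hT' _ hp))
    (fun p hp g hg => by rw [AlgHom.comp_apply, hp g hg, map_zero])
    (fun γ hγ s hs => by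
      have h1 := hC ⟨γ, hγ⟩ j ((Finset.single_le_sum (f := S₀) (fun _ _ => Nat.zero_le _)
        (Finset.mem_univ _)).trans hj) s fun x hx => ⟨(hs x hx).1, fun g => by
          rw [← hFr, (hs x hx).2]
          rfl⟩
      have h2 : C ⟨γ, hγ⟩ ≤ ∑ γ, C γ :=
        Finset.single_le_sum (f := C) (fun _ _ => Nat.zero_le _) (Finset.mem_univ _)
      exact_mod_cast h1.trans (Nat.add_le_add_left (Nat.mul_le_mul_right _ h2) _))
    hf hΞ (hsum G fun a ha b hb => (hG _).2 fun p hp => by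
      rw [mul_smul]
      exact (hG a).1 ha _ ((hG b).1 hb _ hp))
    (fun p hp h1 h2 γ hγ => hfΞ p (hE.transfer hp) (hgood p hp h1).1 (hgood p hp h1).2.1 h2 γ
      fun g => by rw [← hFr, hγ, hsm])
  rw [hT] at key
  push_cast at key ⊢
  have h3 : (0 : ℝ) ≤ hBad.toFinset.card := Nat.cast_nonneg _
  nlinarith

end Phi

section Aux

variable {k : Type} [Field k] [Fintype k]

theorem mem_fixF {m : ℕ} (hm : 0 < m) {a : AlgebraicClosure k} :
    a ∈ fixF k m ↔ a ^ Fintype.card k ^ m = a := by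
  classical
  rw [fixF, Multiset.mem_toFinset, mem_roots
    (FiniteField.X_pow_card_pow_sub_X_ne_zero _ hm.ne' Fintype.one_lt_card), IsRoot, eval_sub,
    eval_pow, eval_X, sub_eq_zero]

variable [CharP k 3]

theorem card_fixF {m : ℕ} (hm : 0 < m) : (fixF k m).card = Fintype.card k ^ m := by
  classical
  obtain ⟨n, -, hn⟩ := FiniteField.card k 3
  have h1 : 3 ∣ Fintype.card k ^ m := by
    rw [hn, ← pow_mul]
    exact dvd_pow_self 3 (Nat.mul_pos n.pos hm).ne'
  rw [fixF, Multiset.toFinset_card_of_nodup (nodup_roots (galois_poly_separable 3 _ h1)),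
    ← (IsAlgClosed.splits _).natDegree_eq_card_roots,
    FiniteField.X_pow_card_pow_sub_X_natDegree_eq _ hm.ne' Fintype.one_lt_card]

variable {R : Type} [CommRing R] [Algebra k R] [Finite R]

/-- The local description of the summand through the Frobenius element. -/
def Loc (U V : R) (M : k[X]) (f : ℕ → AlgebraicClosure k → ℂ) (Ξ : Rˣ → ℂ) : Prop :=
  ∀ m, 0 < m → ∀ (a : AlgebraicClosure k) (g : Rˣ), a ∈ fixF k m → aeval a M ≠ 0 →
    cl U V (minpoly k a) ^ (m / (minpoly k a).natDegree) = g → f m a = Ξ g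

theorem rh_aux_field (U V : R) (M : k[X]) (hM : M ≠ 0)
    (hU : ∀ p : k[X], p.Monic → Irreducible p → ¬ p ∣ M → IsUnit (cl U V p))
    (f : ℕ → AlgebraicClosure k → ℂ) (Ξ : Rˣ → ℂ) (hf : ∀ m a, ‖f m a‖ ≤ 2)
    (hΞ : ∀ γ, ‖Ξ γ‖ ≤ 2)
    (hsum : ∀ G : Finset Rˣ, (∀ a ∈ G, ∀ b ∈ G, a * b ∈ G) → 0 ≤ (∑ γ ∈ G, Ξ γ).re)
    (hloc : Loc U V M f Ξ) (F : Type) [Field F] [Fintype F] [Algebra k F]
    [Algebra F (AlgebraicClosure k)] [IsScalarTower k F (AlgebraicClosure k)]
    (t₀ : F) (ht : aeval t₀ M ≠ 0)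
    (γ : Multiset ℂ) (hγ : ∀ m, 1 ≤ m → ∑ a ∈ fixF k m, f m a = -(γ.map (· ^ m)).sum) :
    ∀ z ∈ γ, ‖z‖ ≤ √(Fintype.card k) := by
  have : Module.Finite k R := Module.Finite.of_finite
  have : Module.Finite k F := Module.Finite.of_finite
  let e := Module.finBasis k R
  set r := finrank k F with hr
  have hr0 : 0 < r := finrank_pos
  have hF : Fintype.card F = Fintype.card k ^ r := Module.card_eq_pow_finrank
  have htr : t₀ ^ Fintype.card k ^ r = t₀ := by rw [← hF, FiniteField.pow_card]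
  have hint : IsIntegral k t₀ := Algebra.IsIntegral.isIntegral t₀
  obtain ⟨u, hu⟩ := hU (minpoly k t₀) (minpoly.monic hint) (minpoly.irreducible hint)
    fun h => ht (aeval_eq_zero_of_dvd_aeval_eq_zero h (minpoly.aeval k t₀))
  obtain ⟨ν, hν⟩ : ∃ ν : F ⊗[k] R, ell U V t₀ * ν = 1 := by
    have h3 := prod_ell U V hr0 htr
    have h4 : IsUnit (∏ i ∈ Finset.range r, ell (k := k) U V (t₀ ^ Fintype.card k ^ i)) := by
      rw [h3, ← hu]
      exact (u.isUnit.pow _).map (Algebra.TensorProduct.includeRight (R := k) (A := F))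
    have h5 := isUnit_of_dvd_unit (Finset.dvd_prod_of_mem _ (Finset.mem_range.2 hr0)) h4
    rw [pow_zero, pow_one] at h5
    exact h5.exists_right_inv
  obtain ⟨Φ, hb, hE, hn⟩ := exists_phi e t₀ hν
  obtain ⟨C, S₀, hC⟩ := lower_bound (K := AlgebraicClosure k) hM Φ hb hE hn (fun γ => (Ξ γ).re)
    (fun γ => (Complex.re_le_norm _).trans (hΞ γ)) fun G hG => by
      rw [← Complex.re_sum]
      exact hsum G hG
  set E := Nat.card Rˣ with hE'
  have hE0 : 0 < E := Nat.card_pos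
  have hq : (1 : ℝ) < Fintype.card k := by exact_mod_cast Fintype.one_lt_card
  have key := norm_le_of_power_sum (γ.map (· ^ (r * E * 2))) (Fintype.card k ^ (r * E)) C
    (by positivity) (max S₀ 1) fun j hj => by
    have hj0 : 0 < j := le_of_max_le_right hj
    have hm : 0 < r * E * 2 * j := by positivity
    have hQ : (Fintype.card F ^ (E * j)) ^ 2 = Fintype.card k ^ (r * E * 2 * j) := by
      rw [hF, ← pow_mul, ← pow_mul]
      congr 1
      ring
    have h3 := hC (E * j) ((le_of_max_le_left hj).trans ((Nat.le_mul_of_pos_left j hE0).trans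
      (Nat.lt_pow_self Fintype.one_lt_card).le)) (fixF k (r * E * 2 * j))
      (fun a => (f (r * E * 2 * j) a).re) (by rw [card_fixF hm, hQ])
      (fun a ha => by rw [hQ, ← mem_fixF hm]; exact ha)
      (fun a => (abs_le.1 ((Complex.abs_re_le_norm _).trans (hf _ a))).1)
      fun ψ hψ hMa hy ha γ hγ => by
        rw [hQ] at hγ
        have ha' := (mem_fixF hm).1 ha
        congr 1
        refine hloc _ hm (ba ψ) γ ha hMa ?_
        have ht' : t₀ ^ Fintype.card k ^ (r * E * 2 * j) = t₀ := by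
          rw [← hQ, ← pow_mul, FiniteField.pow_card_pow]
        rw [hψ.norm_rel hy hν hm (by rw [← map_pow, ht']) ha' (g := γ) (by
          rw [← yy_tw]
          refine (bs _ e).ext_elem fun i => ?_
          rw [repr_mp, repr_yy, repr_yy, frob_pow_apply, hγ]),
          minpoly.algebraMap_eq (algebraMap F _).injective, ← hu]
        obtain ⟨s, hs⟩ := (minpoly_eq_prod hr0 htr).1
        have hd : 0 < (minpoly k t₀).natDegree := minpoly.natDegree_pos hint
        rw [show r * E * 2 * j / (minpoly k t₀).natDegree = E * (s * 2 * j) by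
          rw [hs]
          exact Nat.div_eq_of_eq_mul_right hd (by ring), ← Units.val_pow_eq_pow_val, pow_mul,
          pow_card_eq_one', one_pow, Units.val_one, mul_one]
    rw [← Complex.re_sum, hγ _ hm, Complex.neg_re, hF] at h3
    rw [Multiset.map_map]
    simp only [Function.comp_def, ← pow_mul]
    push_cast at h3
    rw [← pow_mul, ← mul_assoc] at h3
    linarith
  intro z hz
  have h3 := key _ (Multiset.mem_map_of_mem _ hz)
  rw [norm_pow, mul_comm _ 2, pow_mul, pow_le_pow_iff_left₀ (by positivity) (by positivity)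
    (by positivity)] at h3
  exact Real.le_sqrt_of_sq_le h3

theorem rh_aux (U V : R) (M : k[X]) (hM : M ≠ 0)
    (hU : ∀ p : k[X], p.Monic → Irreducible p → ¬ p ∣ M → IsUnit (cl U V p))
    (f : ℕ → AlgebraicClosure k → ℂ) (Ξ : Rˣ → ℂ) (hf : ∀ m a, ‖f m a‖ ≤ 2)
    (hΞ : ∀ γ, ‖Ξ γ‖ ≤ 2)
    (hsum : ∀ G : Finset Rˣ, (∀ a ∈ G, ∀ b ∈ G, a * b ∈ G) → 0 ≤ (∑ γ ∈ G, Ξ γ).re)
    (hloc : Loc U V M f Ξ)
    (γ : Multiset ℂ) (hγ : ∀ m, 1 ≤ m → ∑ a ∈ fixF k m, f m a = -(γ.map (· ^ m)).sum) :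
    ∀ z ∈ γ, ‖z‖ ≤ √(Fintype.card k) := by
  obtain ⟨t, ht⟩ := (M.rootSet_finite (AlgebraicClosure k)).exists_notMem
  rw [mem_rootSet_of_ne hM] at ht
  let F := IntermediateField.adjoin k ({t} : Set (AlgebraicClosure k))
  have : FiniteDimensional k F := IntermediateField.finiteDimensional_adjoin fun x _ =>
    Algebra.IsIntegral.isIntegral x
  have : Finite F := Module.finite_of_finite k
  have : Fintype F := Fintype.ofFinite F
  obtain ⟨t₀, ht₀⟩ : ∃ x : F, algebraMap F (AlgebraicClosure k) x = t :=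
    ⟨⟨t, IntermediateField.subset_adjoin _ _ (by simp)⟩, rfl⟩
  refine rh_aux_field U V M hM hU f Ξ hf hΞ hsum hloc F t₀ (fun h => ht ?_) γ hγ
  rw [← ht₀, aeval_algebraMap_apply, h, map_zero]

end Aux

theorem norm_chi_le {R : Type} [CommRing R] [Finite R] (χ : MulChar R ℂ) (r : R) : ‖χ r‖ ≤ 1 := by
  by_cases h : IsUnit r
  · obtain ⟨u, rfl⟩ := h
    refine (Complex.norm_eq_one_of_pow_eq_one (n := Nat.card Rˣ) ?_ Nat.card_pos.ne').le
    rw [← map_pow, ← Units.val_pow_eq_pow_val, pow_card_eq_one', Units.val_one, map_one]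
  · rw [χ.map_nonunit h, norm_zero]
    exact zero_le_one

end Rh

theorem rhP : RhP := by
  classical
  intro k _ _ _ R _ _ _ U V χ M hM hU γ hγ
  refine Rh.rh_aux U V M hM hU
    (fun m a => if Polynomial.aeval a M ≠ 0 then chiN U V χ m a else 0)
    (fun γ => χ γ) (fun m a => ?_) (fun γ => (Rh.norm_chi_le ..).trans one_le_two)
    (fun G hG => Two.Rh.re_sum_nonneg G _ hG fun a _ b _ => ?_)
    (fun m hm a g _ ha hg => ?_) γ fun m hm => ?_
  · split_ifs
    · rw [chiN, ← map_pow]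
      exact (Rh.norm_chi_le ..).trans one_le_two
    · simp
  · rw [Units.val_mul, map_mul]
  · beta_reduce
    rw [if_pos ha, chiN, ← map_pow, hg]
  · rw [← hγ m hm, sumC, Finset.sum_filter]
    exact Finset.sum_congr rfl fun a _ => by congr

end Pool.Agent.Lib.MP_a3f657_nt.Three
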