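import Pool.Agent.Lib.MP_a3f657_nt.C2SfFourier
import Pool.Agent.Lib.MP_a3f657_nt.C3AnDefs

/-!
The Moebius function twisted by a character.
-/

namespace Pool.Agent.Lib.MP_a3f657_nt.Three

open Pool.Agent.Lib.MP_a3f657_nt.Two

section

open Polynomial Finset UniqueFactorizationMonoid

open scoped Classical

variable {k : Type} [Field k] [Fintype k]

theorem sum_deg_eq3 [CharP k 3] {m N : ℕ} (hm : 1 ≤ m) (hN : m ≤ N) :
    ∑ p ∈ (irrLe k N).filter (fun p => p.natDegree ∣ m), p.natDegree = Fintype.card k ^ m := by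
  have hq : 1 < Fintype.card k ^ m := Nat.one_lt_pow (by omega) Fintype.one_lt_card
  have h1 : (X ^ Fintype.card k ^ m - X : k[X]).Monic :=
    monic_X_pow_sub (by rw [degree_X]; exact_mod_cast hq)
  have h2 : Squarefree (X ^ Fintype.card k ^ m - X : k[X]) := by
    obtain ⟨n, -, hn⟩ := FiniteField.card k 3
    refine (galois_poly_separable 3 _ ?_).squarefree
    rw [hn]
    exact dvd_pow (dvd_pow_self 3 n.ne_zero) (by omega)
  have h3 : (irrLe k N).filter (fun p => p.natDegree ∣ m) =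
      (normalizedFactors (X ^ Fintype.card k ^ m - X : k[X])).toFinset := by
    ext p
    rw [mem_filter, mem_irrLe, Multiset.mem_toFinset, Polynomial.mem_normalizedFactors_iff h1.ne_zero,
      ← Nat.card_eq_fintype_card]
    constructor
    · rintro ⟨⟨-, h4, h5⟩, h6⟩
      exact ⟨h5, h4, h5.natDegree_dvd_iff_dvd_X_pow_card_pow_sub_X.1 h6⟩
    · rintro ⟨h5, h4, h6⟩
      have h7 := h5.natDegree_dvd_iff_dvd_X_pow_card_pow_sub_X.2 h6
      exact ⟨⟨(Nat.le_of_dvd hm h7).trans hN, h4, h5⟩, h7⟩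
  rw [← natDegree_prod_of_monic _ _ fun p hp => (mem_irrLe.1 (mem_filter.1 hp).1).2.1, h3,
    prod_toFinset_nf h1 h2, FiniteField.X_pow_card_pow_sub_X_natDegree_eq _ (by omega)
    Fintype.one_lt_card]

theorem sum_deg_eq_le3 [CharP k 3] {e : ℕ} (he : 1 ≤ e) (s : Finset k[X])
    (hs : ∀ p ∈ s, p.natDegree = e ∧ p.Monic ∧ Irreducible p) :
    ∑ p ∈ s, p.natDegree ≤ Fintype.card k ^ e := by
  rw [← sum_deg_eq3 he le_rfl]
  exact sum_le_sum_of_subset fun p hp => mem_filter.2
    ⟨mem_irrLe.2 ⟨(hs p hp).1.le, (hs p hp).2⟩, (hs p hp).1 ▸ dvd_rfl⟩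

/-- Square root cancellation passes from primes to squarefree polynomials. -/
theorem SF_bound3 [CharP k 3] {θ : ℝ} (hθ : 1 < θ) (B : ℝ) : ∃ T₀ : ℕ, ∃ C : ℝ, 0 ≤ C ∧
    ∀ T, T₀ ≤ T → ∀ (M : k[X]) (h : k[X] → ℂ) (n Y : ℕ), SmallDvd T M →
      (∀ p, GoodP M p → ‖h p‖ ≤ 2) →
      (∀ m, 1 ≤ m → ‖PS M h m‖ ≤ B * (Y + 1) * √(Fintype.card k) ^ m) →
      ‖SF M h n‖ ≤ C * √(Fintype.card k) ^ n * θ ^ (n + Y) := by
  obtain ⟨T₀, hT₀, H⟩ := majorant hθ B
  obtain ⟨C, hC, H⟩ := H ((Fintype.card k : ℝ) ^ 2) (by positivity)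
  refine ⟨T₀, C, hC, fun T hT M h n Y hM hh hPS => ?_⟩
  have hq := one_lt_sqrt (k := k)
  have hdeg : ∀ p ∈ goodLe M n, T₀ < p.natDegree := fun p hp => by
    obtain ⟨-, h1, h2, h3⟩ := mem_goodLe.1 hp
    by_contra h4
    exact h3 (hM p h1 h2 (by omega))
  rw [SF_eq M h le_rfl]
  refine H _ _ _ n Y (logD_prod _ _ _ goodLe_pos) (coeff_zero_prod _ _ _ goodLe_pos)
    (by simp [coeff_zero_geo]) (by linarith) fun m hm hmn => ?_
  rw [map_neg, norm_neg, coeff_sum_geo _ _ _ hm,
    ← sum_filter_add_sum_filter_not _ (fun p => p.natDegree = m), add_mul]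
  refine (norm_add_le _ _).trans (add_le_add ?_ ?_)
  · have h1 : ∑ p ∈ ((goodLe M n).filter fun p => p.natDegree ∣ m).filter
        (fun p => p.natDegree = m), (p.natDegree : ℂ) * (-h p) ^ (m / p.natDegree) = -PS M h m := by
      rw [PS_eq M h hmn, filter_filter, mul_sum, ← sum_neg_distrib]
      refine sum_congr (filter_congr fun p _ => ⟨fun h => h.2, fun h => ⟨h ▸ dvd_rfl, h⟩⟩)
        fun p hp => ?_
      rw [(mem_filter.1 hp).2, Nat.div_self hm]
      ring
    split_ifs with h2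
    · rw [h1, norm_neg]
      exact hPS m hm
    · rw [sum_eq_zero fun p hp => ?_]
      · simp
      · have h3 := mem_filter.1 hp
        have h4 := hdeg p (mem_filter.1 h3.1).1
        omega
  · refine (norm_sum_le _ _).trans ?_
    rw [← sum_fiberwise_of_maps_to (g := natDegree) (t := range m) (fun p hp => by
      have h1 := mem_filter.1 hp
      have h2 := Nat.le_of_dvd hm (mem_filter.1 h1.1).2
      exact mem_range.2 (lt_of_le_of_ne h2 h1.2))]
    refine (sum_le_card_nsmul _ _ ((Fintype.card k : ℝ) ^ 2 * √(Fintype.card k) ^ m)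
      fun e he => ?_).trans (by rw [card_range, nsmul_eq_mul]; exact le_of_eq (by ring))
    set s := (((goodLe M n).filter fun p => p.natDegree ∣ m).filter
      fun p => ¬ p.natDegree = m).filter fun p => p.natDegree = e with hs
    rcases s.eq_empty_or_nonempty with h0 | ⟨p₀, hp₀⟩
    · rw [h0, sum_empty]
      positivity
    have hmem : ∀ p ∈ s, p ∈ goodLe M n ∧ p.natDegree ∣ m ∧ p.natDegree = e := fun p hp =>
      have h1 := mem_filter.1 hp
      have h2 := mem_filter.1 (mem_filter.1 h1.1).1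
      ⟨h2.1, h2.2, h1.2⟩
    obtain ⟨h1, h2, h3⟩ := hmem p₀ hp₀
    have h4 : 2 ≤ e := by have := hdeg p₀ h1; omega
    obtain ⟨j, hj⟩ := h3 ▸ h2
    have h5 : 2 ≤ j := by
      have := mem_range.1 he
      by_contra h5
      interval_cases j <;> omega
    have h6 : m / e = j := by rw [hj, Nat.mul_div_cancel_left _ (by omega)]
    have h7 := sum_deg_eq_le3 (by omega : 1 ≤ e) s fun p hp =>
      ⟨(hmem p hp).2.2, (mem_goodLe.1 (hmem p hp).1).2.1, (mem_goodLe.1 (hmem p hp).1).2.2.1⟩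
    have h8 : (2 : ℝ) ≤ Fintype.card k := by exact_mod_cast Fintype.one_lt_card
    calc ∑ p ∈ s, ‖(p.natDegree : ℂ) * (-h p) ^ (m / p.natDegree)‖
        ≤ ∑ p ∈ s, (p.natDegree : ℝ) * (Fintype.card k : ℝ) ^ j := by
          refine sum_le_sum fun p hp => ?_
          rw [norm_mul, Complex.norm_natCast, norm_pow, norm_neg, (hmem p hp).2.2, h6]
          gcongr
          exact (hh p (mem_goodLe.1 (hmem p hp).1).2).trans h8
      _ ≤ (Fintype.card k : ℝ) ^ e * (Fintype.card k : ℝ) ^ j := by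
          rw [← sum_mul]
          gcongr
          exact_mod_cast h7
      _ = √(Fintype.card k) ^ (2 * (e + j)) := by
          rw [pow_mul, Real.sq_sqrt (by positivity), pow_add]
      _ ≤ √(Fintype.card k) ^ (2 * 2 + m) := by
          refine pow_le_pow_right₀ hq.le ?_
          obtain ⟨e, rfl⟩ := Nat.exists_eq_add_of_le h4
          obtain ⟨j, rfl⟩ := Nat.exists_eq_add_of_le h5
          rw [hj]
          nlinarith [Nat.zero_le (e * j)]
      _ = _ := by rw [pow_add, pow_mul, Real.sq_sqrt (by positivity)]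

/-- The Moebius function twisted by a degree character. -/
theorem SF_bound_deg3 [CharP k 3] {θ : ℝ} (hθ : 1 < θ) : ∃ C : ℝ, 0 ≤ C ∧
    ∀ (M : k[X]) (h : k[X] → ℂ) (z : ℂ) (n : ℕ), M ≠ 0 → ‖z‖ = 1 →
      (∀ p, GoodP M p → h p = -z ^ p.natDegree) →
      ‖SF M h n‖ ≤ C * θ ^ (n + M.natDegree) := by
  obtain ⟨T, hT, H⟩ := majorant hθ 1
  obtain ⟨C, hC, H⟩ := H ((Fintype.card k : ℝ) ^ T) (by positivity)
  refine ⟨C * (1 + Fintype.card k), by positivity, fun M h z n hM hz hh => ?_⟩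
  set P := ∏ p ∈ goodLe M n, (1 - PowerSeries.C (-h p) * PowerSeries.X ^ p.natDegree) with hP
  set c : ℂ := Fintype.card k * z with hc
  have h1 : (1 - PowerSeries.C c * PowerSeries.X ^ 1) * PowerSeries.mk (fun i => c ^ i) = 1 := by
    ext i
    rw [sub_mul, one_mul, map_sub, mul_assoc, PowerSeries.coeff_C_mul,
      PowerSeries.coeff_X_pow_mul', PowerSeries.coeff_one]
    cases i <;> simp [pow_succ']
  have h2 := (logD_prod _ (fun p => -h p) _ (goodLe_pos (M := M) (N := n))).mul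
    ((logD_one_sub c one_pos).inv h1)
  have h3 : ∀ i ≤ n, ‖PowerSeries.coeff i (P * PowerSeries.mk fun i => c ^ i)‖ ≤
      C * θ ^ (n + M.natDegree) := by
    intro i hi
    refine (H _ _ 1 i M.natDegree h2 ?_ (by simp [coeff_zero_geo]) one_pos
      fun m hm hmi => ?_).trans ?_
    · rw [PowerSeries.coeff_zero_eq_constantCoeff_apply, map_mul,
        ← PowerSeries.coeff_zero_eq_constantCoeff_apply, coeff_zero_prod _ _ _ goodLe_pos]
      simp
    · have h4 := sum_deg_eq3 (k := k) hm (hmi.trans hi)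
      rw [← sum_filter_add_sum_filter_not _ (fun p => p ∣ M)] at h4
      set a := ∑ p ∈ ((irrLe k n).filter fun p => p.natDegree ∣ m).filter (fun p => p ∣ M),
        p.natDegree with ha
      have h5 : PowerSeries.coeff m (-∑ p ∈ goodLe M n, geo (-h p) p.natDegree + - -geo c 1) =
          z ^ m * a := by
        rw [neg_neg, map_add, map_neg, coeff_sum_geo _ _ _ hm]
        have h6 : ∑ p ∈ (goodLe M n).filter (fun p => p.natDegree ∣ m),
            (p.natDegree : ℂ) * (-h p) ^ (m / p.natDegree) = z ^ m *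
            (∑ p ∈ ((irrLe k n).filter fun p => p.natDegree ∣ m).filter (fun p => ¬ p ∣ M),
              p.natDegree : ℕ) := by
          rw [goodLe, filter_comm, Nat.cast_sum, mul_sum]
          refine sum_congr rfl fun p hp => ?_
          obtain ⟨h7, h8⟩ := mem_filter.1 hp
          obtain ⟨h9, h10⟩ := mem_filter.1 h7
          rw [hh p ⟨(mem_irrLe.1 h9).2.1, (mem_irrLe.1 h9).2.2, h8⟩, neg_neg, ← pow_mul,
            Nat.mul_div_cancel' h10, mul_comm]
        have h7 := congrArg (Nat.cast : ℕ → ℂ) h4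
        rw [h6]
        rw [geo, PowerSeries.coeff_mk, if_pos ⟨one_dvd _, by omega⟩, hc, mul_pow, Nat.div_one]
        push_cast at h7 ⊢
        linear_combination (-z ^ m) * h7
      rw [h5, norm_mul, norm_pow, hz, one_pow, one_mul, mul_one, Complex.norm_natCast]
      have h6 : (1 : ℝ) ≤ m := by exact_mod_cast hm
      split_ifs with h7
      · have h8 : a ≤ M.natDegree := sum_deg_le hM
          (fun p hp => (mem_irrLe.1 (mem_filter.1 (mem_filter.1 hp).1).1).2)
          fun p hp => (mem_filter.1 hp).2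
        have h9 : (a : ℝ) ≤ M.natDegree := by exact_mod_cast h8
        have h10 : (0 : ℝ) ≤ (Fintype.card k : ℝ) ^ T * m := by positivity
        linarith
      · have h8 : a ≤ Fintype.card k ^ T :=
          (Nat.le.intro h4).trans (Nat.pow_le_pow_right Fintype.card_pos (by omega))
        have h9 : (a : ℝ) ≤ (Fintype.card k : ℝ) ^ T := by exact_mod_cast h8
        have h10 : (0 : ℝ) ≤ (Fintype.card k : ℝ) ^ T := by positivity
        nlinarith
    · rw [one_pow, mul_one]
      exact mul_le_mul_of_nonneg_left (pow_le_pow_right₀ hθ.le (by omega)) hC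
  have h4 : P = (1 - PowerSeries.C c * PowerSeries.X ^ 1) *
      (P * PowerSeries.mk fun i => c ^ i) := by
    rw [mul_left_comm, h1, mul_one]
  rw [SF_eq M h le_rfl, ← hP, h4, sub_mul, one_mul, map_sub, mul_assoc, PowerSeries.coeff_C_mul,
    PowerSeries.coeff_X_pow_mul']
  refine (norm_sub_le _ _).trans ?_
  have h5 := h3 n le_rfl
  have h6 : ‖c‖ = Fintype.card k := by rw [hc, norm_mul, hz, mul_one, Complex.norm_natCast]
  have h7 : 0 ≤ C * θ ^ (n + M.natDegree) := by positivity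
  rw [norm_mul, h6]
  split_ifs
  · have := mul_le_mul_of_nonneg_left (h3 (n - 1) (by omega)) (Nat.cast_nonneg (Fintype.card k))
    nlinarith
  · have : (0 : ℝ) ≤ Fintype.card k := by positivity
    rw [norm_zero]
    nlinarith

end

theorem anChi (hP : PrimeP) : AnChi := by
  intro k _ _ _ θ hθ
  obtain ⟨c, hc⟩ := hP k
  obtain ⟨T, C₁, hC₁, H₁⟩ := SF_bound3 (k := k) hθ c
  obtain ⟨C₂, hC₂, H₂⟩ := SF_bound_deg3 (k := k) hθ
  refine ⟨T, C₁ + C₂, fun M K n χ hM0 hM => ?_⟩
  have hq : 1 ≤ √(Fintype.card k : ℝ) ^ n := one_le_pow₀ one_lt_sqrt.le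
  have h0 : 0 < θ ^ (n + M.natDegree + K) := by positivity
  rcases hc M K χ hM0 with ⟨z, hz, h1⟩ | h1
  · refine (H₂ M _ z n hM0 hz fun p hp => by rw [← h1 p hp]; ring).trans ?_
    have h2 : θ ^ (n + M.natDegree) ≤ θ ^ (n + M.natDegree + K) :=
      pow_le_pow_right₀ hθ.le (by omega)
    calc C₂ * θ ^ (n + M.natDegree) ≤ C₂ * 1 * θ ^ (n + M.natDegree + K) := by
          rw [mul_one]
          gcongr
      _ ≤ _ := by
          gcongr
          linarith
  · refine (H₁ T le_rfl M _ n (M.natDegree + K) hM (fun p _ => ?_) fun m hm => ?_).trans ?_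
    · simpa using (norm_chi_le hM0 χ _).trans one_le_two
    · rw [PS_congr (h' := fun p => χ (clM M K p)) (-1) (fun p _ => by ring), neg_one_mul, norm_neg]
      simpa using h1 m hm
    · rw [add_assoc]
      gcongr
      linarith

end Pool.Agent.Lib.MP_a3f657_nt.Three
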