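import Pool.Agent.Lib.MP_a3f657_nt.C3Fin
import Pool.Agent.Lib.MP_a3f657_nt.C3HtMain
import Pool.Agent.Lib.MP_a3f657_nt.C3Bad
import Pool.Agent.Lib.MP_a3f657_nt.C3CellRed
import Pool.Agent.Lib.MP_a3f657_nt.C3CellAn
import Pool.Agent.Lib.MP_a3f657_nt.C3Rh
import Pool.Agent.Lib.MP_a3f657_nt.C3Lp
import Pool.Agent.Lib.MP_a3f657_nt.C3Sf
import Pool.Agent.Lib.MP_a3f657_nt.C3Par
import Pool.Agent.Lib.MP_a3f657_nt.C3Rec

/-!
The inputs, unconditionally.
-/

namespace Pool.Agent.Lib.MP_a3f657_nt.Three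

theorem cellRed' : CellRed := cellRed transfer badSmall

theorem cellAn' : CellAn := cellAn (anPar (anChi (primeP rhP))) recip

end Pool.Agent.Lib.MP_a3f657_nt.Three
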