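import Pool.Agent.Lib.MP_a3f657_nt.C3Gb
import Pool.Agent.Lib.MP_a3f657_nt.C3CellBase

/-!
The parity of the Selmer rank on a cell.
-/

set_option linter.unusedSectionVars false

namespace Pool.Agent.Lib.MP_a3f657_nt.Three

open Pool.Agent.Lib.MP_a3f657_nt.Two

open Polynomial IsDedekindDomain UniqueFactorizationMonoid

open scoped Classical

variable {k : Type} [Field k] [Fintype k] [CharP k 3] {T β d : ℕ} {a : WeierstrassCurve k[X]}

/-- The curve over the function field. -/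
noncomputable abbrev bc (a : WeierstrassCurve k[X]) : WeierstrassCurve (RatFunc k) :=
  a.baseChange (RatFunc k)

lemma nA_bc (a : WeierstrassCurve k[X]) : nA (bc a) = ι a.b₂ := by
  simp [nA, ι, WeierstrassCurve.baseChange]

lemma nB_bc (a : WeierstrassCurve k[X]) : nB (bc a) = -ι a.Δ / ι a.b₂ ^ 6 := by
  simp [nB, ι, WeierstrassCurve.baseChange]

lemma exists_nd (h1 : a.b₂ ≠ 0) (h2 : derivative a.Δ ≠ 0) : ∃ P, Nd (bc a) P := by
  refine ⟨(PX k).change (nB (bc a)) ((PX k).ns_of_D ?_), ?_, rfl⟩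
  · rw [nB_bc, show -ι a.Δ / ι a.b₂ ^ 6 = (-(ι a.b₂ ^ 2)⁻¹) ^ 3 * ι a.Δ by ring, PB.D_cube_mul,
      D_ι]
    exact mul_ne_zero (pow_ne_zero _ (neg_ne_zero.2 (inv_ne_zero (pow_ne_zero _ (ι_ne h1)))))
      (ι_ne h2)
  · exact (nA_bc a).trans_ne (ι_ne h1)

lemma not_isSquare (hT : GoodT T β d a) (hN : GoodN T a)
    (hd : β + β * (PiT k T).natDegree ≤ d) : ¬ IsSquare (ι a.b₂) := by
  obtain ⟨l, h1, -, h3, h4⟩ := exists_large hT hN
  have h5 := hT.2.2.1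
  obtain ⟨p, h6, h7, h8⟩ := exists_monic_irreducible_factor l fun e => by
    have := natDegree_eq_zero_of_isUnit e
    omega
  have h9 := hN p h6 h7 (not_le.1 fun e => h4 p h6 h7 e h8)
  rw [← gen_ofIrr h7 h6] at h8 h9
  have h10 := ord_ι_of_not_dvd (n := 1) (by rw [pow_one]; exact h8.trans h1) h9
  rintro ⟨r, hr⟩
  rw [hr, ← sq, ord_sq] at h10
  omega

lemma isSquare_cmp {v : HeightOneSpectrum k[X]} {A : k[X]} (h : ¬ gen v ∣ A) :
    IsSquare ((cmp (some v)).f (ι A)) ↔ ∃ z : k[X], gen v ∣ z ^ 2 - A := by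
  have H := (cmp (some v)).h
  have h0 : A ≠ 0 := fun e => h (e ▸ dvd_zero _)
  have e : ∀ z : k[X], (cmp (some v)).f (ι z) ^ 2 - (cmp (some v)).f (ι A) ∈
      Fil (cmp (some v)).L'.w 1 ↔ gen v ∣ z ^ 2 - A := fun z => by
    rw [← map_pow, ← map_sub, H.mem, ← map_pow, ← map_sub]
    exact ι_mem_one
  rw [isSquare_iff H.cpl ((_root_.map_ne_zero _).2 (ι_ne h0))
    ((H.ord_eq _).trans (ord_ι_unit h))]
  refine ⟨fun ⟨z, h1, h2⟩ => ?_, fun ⟨z, hz⟩ => ⟨_, H.mem.2 (ι_int v z), (e z).2 hz⟩⟩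
  obtain ⟨y, hy⟩ := H.dense z 1
  have h3 : y ∈ Fil (val (some v)) 0 := H.mem.1 (by
    simpa using sub_mem h1 (Fil.mono hy (b := 0) (by omega)))
  obtain ⟨c, hc⟩ := exists_approx h3 1
  have h4 := sub_mem (H.mem.2 hc) hy
  refine ⟨c, (e c).1 ?_⟩
  have h5 := add_mem (Fil.mul h4 (add_mem (H.mem.2 (ι_int v c)) h1) (c := 1) (by omega)) h2
  rw [map_sub] at h5
  convert h5 using 1
  grind

namespace CellAlg

/-- The place of a prime polynomial. -/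
noncomputable def plc (p : k[X]) : Pl k := if h : Irreducible p then some (ofIrr p h) else none

variable {p f : k[X]} {u : HeightOneSpectrum k[X]} {F : Finset k[X]} {t : k[X] × k[X]}
  {P P₀ : PB (RatFunc k)}

lemma plc_eq (h1 : p.Monic) (h2 : Irreducible p) : ∃ v, plc p = some v ∧ gen v = p :=
  ⟨_, dif_pos h2, gen_ofIrr h2 h1⟩

lemma plc_gen (v : HeightOneSpectrum k[X]) : plc (gen v) = some v := by
  obtain ⟨u, h1, h2⟩ := plc_eq (gen_monic v) (gen_irr v)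
  rw [h1, gen_inj h2]

lemma plc_inj (hF : ∀ p ∈ F, p.Monic ∧ Irreducible p) : Set.InjOn plc (F : Set k[X]) :=
  fun p hp p' hp' e => by
    obtain ⟨v, h1, rfl⟩ := plc_eq (hF p hp).1 (hF p hp).2
    obtain ⟨v', h2, rfl⟩ := plc_eq (hF p' hp').1 (hF p' hp').2
    rw [h1, h2] at e
    rw [Option.some.inj e]

lemma mem_image_plc (hF : ∀ p ∈ F, p.Monic ∧ Irreducible p) :
    some u ∈ F.image plc ↔ gen u ∈ F := by
  refine ⟨fun h => ?_, fun h => plc_gen u ▸ Finset.mem_image_of_mem _ h⟩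
  obtain ⟨p, hp, e⟩ := Finset.mem_image.1 h
  obtain ⟨v, h1, rfl⟩ := plc_eq (hF p hp).1 (hF p hp).2
  rwa [← Option.some.inj (h1.symm.trans e)]

lemma none_not_mem (hF : ∀ p ∈ F, p.Monic ∧ Irreducible p) : none ∉ F.image plc := fun h => by
  obtain ⟨p, hp, e⟩ := Finset.mem_image.1 h
  obtain ⟨v, h1, -⟩ := plc_eq (hF p hp).1 (hF p hp).2
  simp [h1] at e

lemma mem_bigP (hf : f ≠ 0) :
    p ∈ bigP T f ↔ (p.Monic ∧ Irreducible p) ∧ p ∣ f ∧ T < p.natDegree := by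
  rw [bigP, Finset.mem_filter, Multiset.mem_toFinset, Polynomial.mem_normalizedFactors_iff hf]
  tauto

lemma bigP_aux (hf : f ≠ 0) : ∀ p ∈ bigP T f, p.Monic ∧ Irreducible p := fun _ hp =>
  ((mem_bigP hf).1 hp).1

variable (k T) in
/-- The small places. -/
noncomputable def Sg : Finset (Pl k) := insert none ((irrLe k T).image plc)

variable (T) in
/-- The large places that divide `f`. -/
noncomputable def Sb (f : k[X]) : Finset (Pl k) := (bigP T f).image plc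

lemma none_mem_Sg : none ∈ Sg k T := Finset.mem_insert_self _ _

lemma mem_Sg : some u ∈ Sg k T ↔ (gen u).natDegree ≤ T := by
  simp [Sg, mem_image_plc fun p hp => (mem_irrLe.1 hp).2, mem_irrLe, gen_monic, gen_irr,
    -Finset.mem_image]

lemma mem_Sb (hf : f ≠ 0) : some u ∈ Sb T f ↔ gen u ∣ f ∧ T < (gen u).natDegree := by
  rw [Sb, mem_image_plc (bigP_aux hf), mem_bigP hf]
  simp [gen_monic, gen_irr]

lemma of_mem_Sb (hf : f ≠ 0) {v : Pl k} (hv : v ∈ Sb T f) :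
    ∃ u, v = some u ∧ gen u ∣ f ∧ T < (gen u).natDegree := by
  rcases v with _ | u
  · exact absurd hv (none_not_mem (bigP_aux hf))
  · exact ⟨u, rfl, (mem_Sb hf).1 hv⟩

lemma Δ_ne (h : GoodT T β d a) : a.Δ ≠ 0 := fun e => h.2.1 (by rw [e, derivative_zero])

lemma ord_b (h : GoodT T β d a) (hP : Nd (bc a) P) (v : Pl k) :
    ord (val v) P.b = ord (val v) (ι a.Δ) - 6 * ord (val v) (ι a.b₂) := by
  rw [hP.hb, nB_bc, ord_div (neg_ne_zero.2 (ι_ne (Δ_ne h))) (pow_ne_zero _ (ι_ne h.1)), ord_neg,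
    ord_pow]
  rfl

/-- The local sign at a place. -/
noncomputable def sg (P : PB (RatFunc k)) (A : k[X]) (v : Pl k) : ℝ :=
  sgn ((cmp v).Q P) ((cmp v).f (ι A))

/-- The local sign at a large supersingular place. -/
noncomputable def ss (A : k[X]) (v : Pl k) : ℝ :=
  (-1) ^ Nat.log 3 ((WP ((cmp v).f (ι A))).relIndex (Fil (cmp v).L'.w 0 ⊔ WP ((cmp v).f (ι A))) *
    Nat.card (wpH ((cmp v).f (ι A))).ker)

lemma sg_small (ha : DegLE a d) (hT : GoodT T β d a) (hd : RR β ≤ d) (ht : t ∈ cell T β d a)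
    (h0 : Nd (bc a) P₀) (hP : Nd (bc (shift T β a t)) P) {v : Pl k} (hv : v ∈ Sg k T) :
    sg P a.b₂ v = sg P₀ a.b₂ v := by
  have H := (cmp v).h
  refine sgn_congr (AA_near H.cpl ((_root_.map_ne_zero _).2 (ι_ne hT.1)) ?_)
  have e : P.b - P₀.b = -(ι ((shift T β a t).Δ - a.Δ) / ι a.b₂ ^ 6) := by
    rw [hP.hb, h0.hb, nB_bc, nB_bc, shift_b₂]
    simp only [ι, map_sub]
    ring
  rw [Cmp.Q_b, Cmp.Q_b, ← map_sub, H.mem, e, pl_w]
  refine neg_mem ?_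
  rcases v with _ | u
  · have h1 := deg_diff ha hT hd ht
    have h2 := deg_Δ ha
    have h3 := hT.2.2.1
    refine Fil.div (ι_mem_none_self _) ?_
    rw [ord_pow, ord_none hT.1]
    unfold RR at h1
    push_cast
    omega
  · have h1 := mem_Sg.1 hv
    have h2 := ord_ι_lt (hT.2.2.2.2 _ (gen_monic u) (gen_irr u) h1).1
    refine Fil.div (ι_mem_some.2 ((pow_dvd_pow_of_dvd
      ((Cel.dvd_PiT (gen_monic u) (gen_irr u)).2 h1) (RR β)).trans (dvd_diff T β a t))) ?_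
    rw [ord_pow]
    unfold RR
    push_cast
    omega

lemma sg_ss (hT : GoodT T β d a) (hN : GoodN T a) (hQ : GoodQ T a) (hP : Nd (bc a) P) {v : Pl k}
    (hv : v ∈ Sb T a.b₂) : sg P a.b₂ v = ss a.b₂ v := by
  obtain ⟨u, rfl, h1, h2⟩ := of_mem_Sb hT.1 hv
  have H := (cmp (some u)).h
  have h3 := (not_dvd_of_goodQ hQ (gen_monic u) (gen_irr u) h2 h1).1
  have e : ι a.b₂ ^ 6 * P.b = ι a.b₂ ^ 3 * ι a.b₆ - ι a.b₂ ^ 2 * ι a.b₄ ^ 2 - ι a.b₄ ^ 3 := by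
    rw [hP.hb, nB_bc, mul_div_cancel₀ _ (pow_ne_zero _ (ι_ne hT.1)), disc_poly]
    simp only [ι, map_add, map_neg, map_mul, map_pow]
    ring
  rw [sg, sgn, AA_ss H.cpl (b₄ := (cmp (some u)).f (ι a.b₄)) (b₆ := (cmp (some u)).f (ι a.b₆))
    ((H.ord_eq _).trans (ord_ι_of_not_dvd (n := 1) (by rwa [pow_one])
      (hN _ (gen_monic u) (gen_irr u) h2)))
    ((_root_.map_ne_zero _).2 (ι_ne fun e => h3 (e ▸ dvd_zero _)))
    ((H.ord_eq _).trans (ord_ι_unit h3)) (H.mem.2 (ι_int u _))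
    (by simpa only [Cmp.Q_b, map_sub, map_mul, map_pow] using congrArg (cmp (some u)).f e)]
  rfl

lemma sg_mult (hT : GoodT T β d a) (hQ : GoodQ T a) (hP : Nd (bc a) P) (hp : p ∈ bigP T a.Δ) :
    sg P a.b₂ (plc p) = -leg a.b₂ p := by
  obtain ⟨⟨h1, h2⟩, h3, h4⟩ := (mem_bigP (Δ_ne hT)).1 hp
  obtain ⟨u, h5, rfl⟩ := plc_eq h1 h2
  have H := (cmp (some u)).h
  have h6 : ¬ gen u ∣ a.b₂ := fun e => (not_dvd_of_goodQ hQ h1 h2 h4 e).2 h3
  have h7 : ord (val (some u)) P.b = 1 := by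
    rw [ord_b hT hP, ord_ι_unit h6,
      ord_ι_of_not_dvd (n := 1) (by rwa [pow_one]) (hQ _ h1 h2 h4)]
    rfl
  rw [h5, sg, sgn_mult H.cpl ((_root_.map_ne_zero _).2 (ι_ne hT.1))
    ((H.ord_eq _).trans (ord_ι_unit h6)) (by rw [Cmp.Q_b, H.ord_eq]; exact h7), isSquare_cmp h6,
    leg]
  split_ifs <;> simp

lemma goodOut (hT : GoodT T β d a) (hP : Nd (bc a) P) :
    GoodOut P (ι a.b₂) (Sg k T ∪ Sb T a.b₂ ∪ Sb T a.Δ) := by
  have key : ∀ v ∉ Sg k T ∪ Sb T a.b₂ ∪ Sb T a.Δ,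
      ord (val v) (ι a.b₂) = 0 ∧ ord (val v) (ι a.Δ) = 0 := fun v hv => by
    rw [Finset.mem_union, Finset.mem_union, not_or, not_or] at hv
    rcases v with _ | u
    · exact absurd none_mem_Sg hv.1.1
    have h1 := not_le.1 (mt mem_Sg.2 hv.1.1)
    exact ⟨ord_ι_unit fun e => hv.1.2 ((mem_Sb hT.1).2 ⟨e, h1⟩),
      ord_ι_unit fun e => hv.2 ((mem_Sb (Δ_ne hT)).2 ⟨e, h1⟩)⟩
  refine ⟨Finset.mem_union_left _ (Finset.mem_union_left _ none_mem_Sg), ι_ne hT.1,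
    fun v hv => (key v hv).1, fun v hv => ?_⟩
  rw [ord_b hT hP, (key v hv).1, (key v hv).2]
  rfl

lemma disj_Sg (hf : f ≠ 0) : Disjoint (Sg k T) (Sb T f) := Finset.disjoint_right.2 fun v hv e => by
  obtain ⟨u, rfl, -, h2⟩ := of_mem_Sb hf hv
  exact h2.not_ge (mem_Sg.1 e)

lemma disj_Sb (hT : GoodT T β d a) (hQ : GoodQ T a) : Disjoint (Sb T a.b₂) (Sb T a.Δ) :=
  Finset.disjoint_left.2 fun v hv e => by
    obtain ⟨u, rfl, h1, h2⟩ := of_mem_Sb hT.1 hv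
    exact (not_dvd_of_goodQ hQ (gen_monic u) (gen_irr u) h2 h1).2 ((mem_Sb (Δ_ne hT)).1 e).1

lemma parity (hT : GoodT T β d a) (hN : GoodN T a) (hQ : GoodQ T a) (hP : Nd (bc a) P)
    (hd : β + β * (PiT k T).natDegree ≤ d) : ∃ r : ℕ, selThree (bc a) = 3 ^ r ∧
      (-1 : ℝ) ^ r = (∏ v ∈ Sg k T, sg P a.b₂ v) * (∏ v ∈ Sb T a.b₂, ss a.b₂ v) *
        ∏ p ∈ bigP T a.Δ, -leg a.b₂ p := by
  obtain ⟨r, h1, h2⟩ := (goodOut hT hP).parity (not_isSquare hT hN hd)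
  refine ⟨r, by rw [selThree_eq' hP, nA_bc, h1], h2.trans ?_⟩
  change ∏ v ∈ _, sg P a.b₂ v = _
  rw [Finset.prod_union (Finset.disjoint_union_left.2 ⟨disj_Sg (Δ_ne hT), disj_Sb hT hQ⟩),
    Finset.prod_union (disj_Sg hT.1), Finset.prod_congr rfl fun v hv => sg_ss hT hN hQ hP hv,
    Sb.eq_1 T a.Δ, Finset.prod_image (plc_inj (bigP_aux (Δ_ne hT))),
    Finset.prod_congr rfl fun p hp => sg_mult hT hQ hP hp]

end CellAlg

theorem cellAlg (T β : ℕ) : ∀ᶠ d : ℕ in Filter.atTop, ∀ a : WeierstrassCurve k[X], DegLE a d →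
    GoodT T β d a → GoodN T a → ∃ s : ℝ, |s| = 1 ∧ ∀ t ∈ cell T β d a, GoodQ T (shift T β a t) →
      ∃ r : ℕ, selThree (bc (shift T β a t)) = 3 ^ r ∧
        (-1 : ℝ) ^ r = s * ∏ p ∈ bigP T (shift T β a t).Δ, -leg a.b₂ p := by
  filter_upwards [Filter.eventually_ge_atTop (RR β),
    Filter.eventually_ge_atTop (β + β * (PiT k T).natDegree)] with d h1 h2 a ha hT hN
  obtain ⟨P₀, h0⟩ := exists_nd hT.1 hT.2.1
  refine ⟨(∏ v ∈ CellAlg.Sg k T, CellAlg.sg P₀ a.b₂ v) *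
    ∏ v ∈ CellAlg.Sb T a.b₂, CellAlg.ss a.b₂ v, ?_, fun t ht hQ => ?_⟩
  · simp [abs_mul, Finset.abs_prod, CellAlg.sg, CellAlg.ss, abs_sgn]
  · have hT' := goodT_shift ha hT h1 ht
    obtain ⟨P, hP⟩ := exists_nd hT'.1 hT'.2.1
    obtain ⟨r, h3, h4⟩ := CellAlg.parity hT' hN hQ hP h2
    refine ⟨r, h3, h4.trans ?_⟩
    rw [shift_b₂, Finset.prod_congr rfl fun v hv => CellAlg.sg_small ha hT h1 ht h0 hP hv]

end Pool.Agent.Lib.MP_a3f657_nt.Three
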