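import Pool.Agent.Lib.MP_a3f657_nt.C3Kap

/-!
The image of the descent map, its isotropy.
-/

set_option linter.unusedSectionVars false

namespace Pool.Agent.Lib.MP_a3f657_nt.Three

open scoped Classical

variable {K : Type} [Field K] [CharP K 3] (P : PB K) (A : K)

/-- The elements that represent a class in the image of the descent map. -/
noncomputable def Lt : AddSubgroup K :=
  AddSubgroup.closure {u | ∃ x y, OnC A P.b x y ∧ u = P.ku x y} ⊔ Cub K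

/-- The map `u ↦ u - A c₀(u)`. -/
noncomputable def hh : K →+ K := AddMonoidHom.id K - (AddMonoidHom.mulLeft A).comp P.c0h

/-- The image of `Lt`. -/
noncomputable def AA : AddSubgroup K := (Lt P A).map (hh P A)

/-- Twisted logarithmic forms. -/
noncomputable def Log : AddSubgroup K := (hh P A).ker

/-- The twisted logarithmic forms in `Lt`. -/
noncomputable def BB : AddSubgroup K := Lt P A ⊓ Log P A

variable {P A} {α u u' w x y : K} {W : WeierstrassCurve K}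

lemma hh_apply (u : K) : hh P A u = u - A * P.c0 u := rfl

lemma hh_cube (t : K) : hh P A (t ^ 3) = wp A t := by simp [hh_apply, wp]

lemma hh_ku (hA : A ≠ 0) (h : OnC A P.b x y) : hh P A (P.ku x y) = y := h.ku_sub hA

lemma mem_Log : u ∈ Log P A ↔ u = A * P.c0 u := by
  rw [Log, AddMonoidHom.mem_ker, hh_apply, sub_eq_zero]

lemma Cub_le_Lt : Cub K ≤ Lt P A := le_sup_right

lemma ku_mem_Lt (h : OnC A P.b x y) : P.ku x y ∈ Lt P A :=
  AddSubgroup.mem_sup_left (AddSubgroup.subset_closure ⟨x, y, h, rfl⟩)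

lemma sub_mem_Cub : u - u' ∈ Cub K ↔ P.cls u = P.cls u' := by
  rw [← P.ker_cls, AddMonoidHom.mem_ker, map_sub, sub_eq_zero]

lemma Nd.kuP_mem_Lt (h : Nd W P) (R : W.toAffine.Point) : kuP W P R ∈ Lt P (nA W) := by
  by_cases hR : R = 0
  · rw [hR, kuP_zero]
    exact zero_mem _
  · exact ku_mem_Lt (h.onC hR)

lemma Nd.Lt_le (h : Nd W P) : Lt P (nA W) ≤ h.kap.range.comap P.cls := by
  refine sup_le ((AddSubgroup.closure_le _).2 ?_) fun u hu => ?_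
  · rintro _ ⟨x, y, hxy, rfl⟩
    obtain ⟨R, -, rfl, rfl⟩ := h.exists_pt hxy
    exact ⟨R, rfl⟩
  · rw [← P.ker_cls, AddMonoidHom.mem_ker] at hu
    rw [AddSubgroup.mem_comap, hu]
    exact zero_mem _

lemma Nd.mem_Lt (h : Nd W P) : u ∈ Lt P (nA W) ↔ ∃ R, u - kuP W P R ∈ Cub K := by
  refine ⟨fun hu => ?_, fun ⟨R, hR⟩ => by simpa using add_mem (Cub_le_Lt hR) (h.kuP_mem_Lt R)⟩
  obtain ⟨R, hR⟩ := h.Lt_le hu
  exact ⟨R, sub_mem_Cub.2 (hR.symm.trans (h.kap_apply R))⟩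

lemma Nd.range_eq (h : Nd W P) : h.kap.range = (Lt P (nA W)).map P.cls := by
  refine le_antisymm ?_ (AddSubgroup.map_le_iff_le_comap.2 h.Lt_le)
  rintro _ ⟨R, rfl⟩
  exact ⟨_, h.kuP_mem_Lt R, rfl⟩

lemma Nd.mem_Lt' (h : Nd W P) : u ∈ Lt P (nA W) ↔ P.cls u ∈ h.kap.range := by
  refine ⟨fun hu => h.Lt_le hu, fun ⟨R, hR⟩ => h.mem_Lt.2 ⟨R, (sub_mem_Cub (P := P)).2 ?_⟩⟩
  exact hR.symm.trans (h.kap_apply R)

lemma mem_Lt (hA : A ≠ 0) :
    u ∈ Lt P A ↔ u ∈ Cub K ∨ ∃ x y, OnC A P.b x y ∧ u - P.ku x y ∈ Cub K := by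
  refine ⟨fun hu => ?_, ?_⟩
  · have h := nd_EW P hA
    rw [← nA_EW A P.b] at hu
    obtain ⟨R, hR⟩ := h.mem_Lt.1 hu
    by_cases h0 : R = 0
    · left
      simpa [h0] using hR
    · have h1 := h.onC h0
      rw [nA_EW] at h1
      exact Or.inr ⟨_, _, h1, hR⟩
  · rintro (h | ⟨x, y, h, h'⟩)
    · exact Cub_le_Lt h
    · simpa using add_mem (Cub_le_Lt (P := P) (A := A) h') (ku_mem_Lt h)

lemma WP_le_AA : WP A ≤ AA P A := by
  rintro _ ⟨t, rfl⟩
  exact ⟨t ^ 3, Cub_le_Lt (cube_mem t), hh_cube t⟩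

lemma mem_AA (hA : A ≠ 0) : α ∈ AA P A ↔ α ∈ WP A ∨ ∃ x y, OnC A P.b x y ∧ α - y ∈ WP A := by
  refine ⟨?_, ?_⟩
  · rintro ⟨u, hu, rfl⟩
    rcases (mem_Lt hA).1 hu with ⟨t, rfl⟩ | ⟨x, y, h, t, ht⟩
    · exact Or.inl ⟨t, (hh_cube t).symm⟩
    · refine Or.inr ⟨x, y, h, t, ?_⟩
      have e := congrArg (hh P A) ht
      rw [map_sub, hh_ku hA h] at e
      exact (hh_cube t).symm.trans e
  · rintro (h | ⟨x, y, h, h'⟩)
    · exact WP_le_AA h
    · have h1 : y ∈ AA P A := ⟨_, ku_mem_Lt h, hh_ku hA h⟩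
      simpa using add_mem (WP_le_AA (P := P) h') h1

lemma Lt_scale_aux (c : K) (hu : u ∈ Lt P A) : c ^ 3 * u ∈ Lt P (c ^ 2 * A) := by
  have key : Lt P A ≤ (Lt P (c ^ 2 * A)).comap (AddMonoidHom.mulLeft (c ^ 3)) := by
    refine sup_le ((AddSubgroup.closure_le _).2 ?_) ?_
    · rintro _ ⟨x, y, hxy, rfl⟩
      have h1 : OnC (c ^ 2 * A) P.b x (c ^ 3 * y) := by
        unfold OnC at hxy ⊢
        linear_combination c ^ 6 * hxy
      have h2 : P.ku x (c ^ 3 * y) = c ^ 3 * P.ku x y := by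
        simp only [PB.ku, PB.D_cube_mul]
        ring
      have h3 := ku_mem_Lt h1
      rw [h2] at h3
      exact h3
    · rintro _ ⟨t, rfl⟩
      have h1 : (c * t) ^ 3 ∈ Lt P (c ^ 2 * A) := Cub_le_Lt (cube_mem _)
      rw [mul_pow] at h1
      exact h1
  exact key hu

lemma Lt_scale {c : K} (hc : c ≠ 0) (hA : A ≠ 0) : c ^ 3 * u ∈ Lt P (c ^ 2 * A) ↔ u ∈ Lt P A := by
  refine ⟨fun h => ?_, Lt_scale_aux c⟩
  have h1 := Lt_scale_aux c⁻¹ h
  rwa [show c⁻¹ ^ 3 * (c ^ 3 * u) = u by field_simp, show c⁻¹ ^ 2 * (c ^ 2 * A) = A by field_simp]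
    at h1

section rho

variable {ρ : K →+ ZMod 3} (hρ : ∀ x, ρ (P.c0 x) = ρ x)
include hρ

lemma rho_dl (x : K) : ρ (P.dl x) = 0 := by rw [← hρ, PB.c0_dl, map_zero]

lemma rho_cube (x : K) : ρ (x ^ 3) = ρ x := by rw [← hρ, PB.c0_cube]

lemma rho_cube_mul (g x : K) : ρ (g ^ 3 * x) = ρ (g * P.c0 x) := by rw [← hρ, PB.c0_cube_mul]

lemma rho_adj (hA : A ≠ 0) (w u : K) :
    ρ (wp A w * u / A ^ 3) = -ρ (A * w * hh P A u / A ^ 3) := by
  have e1 := rho_cube_mul hρ (w / A) u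
  rw [show wp A w * u / A ^ 3 = (w / A) ^ 3 * u - A * w * u / A ^ 3 by unfold wp; field_simp,
    show A * w * hh P A u / A ^ 3 = A * w * u / A ^ 3 - w / A * P.c0 u by
      rw [hh_apply]; field_simp, map_sub, map_sub, e1, neg_sub]

lemma rho_dl_dl (hA : A ≠ 0) (u u' : K) :
    ρ (P.dl u * P.dl u' / A ^ 3) = ρ (P.c0 u * P.c0 u' / A) - ρ (u * u' / A ^ 3) := by
  have e1 := rho_cube_mul hρ (P.c0 u' / A) u
  have e2 := rho_dl hρ (A⁻¹ ^ 3 * (u * P.dl u'))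
  rw [PB.dl_mul, PB.dl_cube, PB.dl_mul, PB.dl_dl,
    show A⁻¹ ^ 3 * (u * (u' - P.c0 u' ^ 3) + P.dl u' * P.dl u) + u * P.dl u' * 0 =
      P.dl u * P.dl u' / A ^ 3 - ((P.c0 u' / A) ^ 3 * u - u * u' / A ^ 3) by field_simp; ring,
    map_sub, map_sub, sub_eq_zero, e1] at e2
  rw [e2, show P.c0 u' / A * P.c0 u = P.c0 u * P.c0 u' / A by ring]

lemma rho_self (hA : A ≠ 0) (h : u ∈ Lt P A) : ρ (P.dl u * P.dl u / A ^ 3) = 0 := by
  rcases (mem_Lt hA).1 h with ⟨t, rfl⟩ | ⟨x, y, h, t, ht⟩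
  · have e : P.dl (t ^ 3) = 0 := P.dl_cube t
    change ρ (P.dl (t ^ 3) * P.dl (t ^ 3) / A ^ 3) = 0
    simp [e]
  · have e : P.dl u = P.dl (P.ku x y) := by
      rw [← sub_eq_zero, ← map_sub, ← ht]
      exact P.dl_cube t
    rw [e]
    by_cases hy : y = 0
    · simp [hy]
    have e1 := congrArg ρ (h.ku_sq hA hy)
    have e2 : ρ P.b = 0 := by rw [← hρ, PB.c0_b, map_zero]
    rw [map_sub, map_sub, map_add, map_sub, rho_cube hρ, rho_dl hρ, e2] at e1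
    rw [rho_dl_dl hρ hA, ← sq, ← sq]
    linear_combination -e1

/-- Isotropy of the image of the descent map. -/
lemma rho_iso (hA : A ≠ 0) (h : u ∈ Lt P A) (h' : u' ∈ Lt P A) :
    ρ (P.dl u * P.dl u' / A ^ 3) = 0 := by
  have e1 := rho_self hρ hA h
  have e2 := rho_self hρ hA h'
  have e3 := rho_self hρ hA (add_mem h h')
  rw [map_add, show (P.dl u + P.dl u') * (P.dl u + P.dl u') / A ^ 3 =
    P.dl u * P.dl u / A ^ 3 + P.dl u' * P.dl u' / A ^ 3 +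
      (P.dl u * P.dl u' / A ^ 3 + P.dl u * P.dl u' / A ^ 3) by ring,
    map_add, map_add, map_add, e1, e2] at e3
  generalize ρ (P.dl u * P.dl u' / A ^ 3) = z at e3
  revert z
  decide

lemma rho_Log (hA : A ≠ 0) (u : K) (h' : u' ∈ Log P A) :
    ρ (P.dl u * P.dl u' / A ^ 3) = -ρ (hh P A u * u' / A ^ 3) := by
  have e := mem_Log.1 h'
  rw [rho_dl_dl hρ hA, show hh P A u * u' / A ^ 3 = u * u' / A ^ 3 - P.c0 u * P.c0 u' / A by
    rw [hh_apply]; field_simp; linear_combination (-A * P.c0 u) * e, map_sub, neg_sub]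

lemma rho_orth (hA : A ≠ 0) (h : α ∈ AA P A) (h' : u ∈ BB P A) : ρ (α * u / A ^ 3) = 0 := by
  obtain ⟨v, hv, rfl⟩ := h
  rw [← neg_eq_zero, ← rho_Log hρ hA v h'.2]
  exact rho_iso hρ hA hv h'.1

lemma rho_alt (hA : A ≠ 0) (h : u ∈ Lt P A) :
    ρ (hh P A u * u / A ^ 3) = -ρ (hh P A u * hh P A u / A ^ 3) := by
  have e1 := rho_iso hρ hA h h
  rw [rho_dl_dl hρ hA, show u * u / A ^ 3 = hh P A u * hh P A u / A ^ 3 +
    (hh P A u * P.c0 u / A ^ 2 + hh P A u * P.c0 u / A ^ 2) + P.c0 u * P.c0 u / A by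
      rw [hh_apply]; field_simp; ring, map_add, map_add, map_add] at e1
  rw [show hh P A u * u / A ^ 3 = hh P A u * hh P A u / A ^ 3 + hh P A u * P.c0 u / A ^ 2 by
    rw [hh_apply]; field_simp; ring, map_add]
  generalize ρ (hh P A u * hh P A u / A ^ 3) = a at e1 ⊢
  generalize ρ (hh P A u * P.c0 u / A ^ 2) = b at e1 ⊢
  generalize ρ (P.c0 u * P.c0 u / A) = c at e1
  revert a b c
  decide

end rho

section map

variable {L : Type} [Field L] [CharP L 3] {Q : PB L} {f : K →+* L} (h : Q.b = f P.b)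
include h

lemma hh_map (u : K) : hh Q (f A) (f u) = f (hh P A u) := by simp [hh_apply, P.map_c0 h]

lemma Lt_map (hu : u ∈ Lt P A) : f u ∈ Lt Q (f A) := by
  have key : Lt P A ≤ (Lt Q (f A)).comap f.toAddMonoidHom := by
    refine sup_le ((AddSubgroup.closure_le _).2 ?_) ?_
    · rintro _ ⟨x, y, hxy, rfl⟩
      have h1 := hxy.map f
      rw [← h] at h1
      have h3 := ku_mem_Lt h1
      rw [map_ku f h] at h3
      exact h3
    · rintro _ ⟨t, rfl⟩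
      have h1 : f t ^ 3 ∈ Lt Q (f A) := Cub_le_Lt (cube_mem _)
      rw [← map_pow] at h1
      exact h1
  exact key hu

lemma Cub_map : f u ∈ Cub L ↔ u ∈ Cub K := by
  rw [← P.ker_cls, ← Q.ker_cls, AddMonoidHom.mem_ker, AddMonoidHom.mem_ker, PB.cls_apply,
    PB.cls_apply, P.map_c1 h, P.map_c2 h, Prod.mk_eq_zero, Prod.mk_eq_zero, map_eq_zero,
    map_eq_zero]

end map

end Pool.Agent.Lib.MP_a3f657_nt.Three
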