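import Pool.Agent.Lib.MP_a3f657_nt.C3Kap

/-!
Multiplication by three, the kernel and the image of the descent map.
-/

set_option linter.unusedSectionVars false

namespace Pool.Agent.Lib.MP_a3f657_nt.Three

open WeierstrassCurve WeierstrassCurve.Affine

open scoped Classical

variable {K : Type} [Field K] [CharP K 3] {W : WeierstrassCurve K} {P : PB K}

lemma cube_add_b_ne (P : PB K) (x : K) : x ^ 3 + P.b ≠ 0 := fun e => P.ns (-x) (by grind)

lemma triA_three {a b x y x₂ x₃ μ ν μ' ν' : K} (ha : a ≠ 0) (hz : x ^ 3 + b ≠ 0)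
    (h0 : y ^ 2 = a * (x ^ 3 + x ^ 2 + b)) (l1 : y = μ * x + ν)
    (e1 : a * (x + x + x₂ + 1) = μ ^ 2) (e2 : a * (x * x + x * x₂ + x * x₂) = μ * ν)
    (l2 : -(μ * x₂ + ν) = μ' * x₂ + ν') (l3 : y = μ' * x + ν')
    (f1 : a * (x₂ + x + x₃ + 1) = μ' ^ 2) :
    x₃ = ((x ^ 3 + b) ^ 3 - b * x ^ 3) / (x ^ 3 + b) ^ 2 := by
  have t3 : (3 : K) = 0 := three_eq
  have h1 : μ * y = a * x := by
    linear_combination μ * l1 - x * e1 - e2 + a * (x ^ 2 + x * x₂) * t3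
  have h2 : μ ^ 2 * (x ^ 3 + x ^ 2 + b) = a * x ^ 2 := mul_left_cancel₀ ha (by
    linear_combination (-μ ^ 2) * h0 + (μ * y + a * x) * h1)
  have h3 : (x₂ - x) * (x ^ 3 + x ^ 2 + b) = -(x ^ 3 + b) := mul_left_cancel₀ ha (by
    linear_combination (x ^ 3 + x ^ 2 + b) * e1 + h2 - a * x * (x ^ 3 + x ^ 2 + b) * t3)
  have h4 : μ' * (x₂ - x) = -μ * (x₂ - x) + y := by linear_combination -l2 + l3 + l1 - y * t3
  have h5 : μ' * (x ^ 3 + b) = -μ * (x ^ 3 + b) - y * (x ^ 3 + x ^ 2 + b) := by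
    linear_combination (-(x ^ 3 + x ^ 2 + b)) * h4 + (μ' + μ) * h3
  have h6 : (μ' * (x ^ 3 + b)) ^ 2 = μ ^ 2 * (x ^ 3 + b) ^ 2 +
      2 * (a * x) * (x ^ 3 + b) * (x ^ 3 + x ^ 2 + b) + a * (x ^ 3 + x ^ 2 + b) ^ 3 := by
    rw [h5]
    linear_combination (2 * (x ^ 3 + b) * (x ^ 3 + x ^ 2 + b)) * h1 +
      (x ^ 3 + x ^ 2 + b) ^ 2 * h0
  rw [eq_div_iff (pow_ne_zero 2 hz)]
  refine mul_left_cancel₀ ha ?_
  linear_combination h6 + (x ^ 3 + b) ^ 2 * f1 - (x ^ 3 + b) ^ 2 * e1 +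
    a * (x ^ 3 + b) * (x * (x ^ 3 + b) + (x ^ 3 + b) * x ^ 2 + x ^ 4 + x ^ 3) * t3

lemma triA_y {R : W.toAffine.Point} (e : R + R = 0) : yP W R = 0 := by
  have h1 := yP_neg R
  rw [← eq_neg_of_add_eq_zero_left e] at h1
  grind

lemma Nd.three {R : W.toAffine.Point} (h : Nd W P) (hR : R ≠ 0) : 3 • R ≠ 0 ∧
    xP W (3 • R) = ((xP W R ^ 3 + P.b) ^ 3 - P.b * xP W R ^ 3) / (xP W R ^ 3 + P.b) ^ 2 := by
  have h3 : 3 • R = R + R + R := by abel
  have ha : nA W ^ 3 ≠ 0 := pow_ne_zero 3 h.nA_ne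
  have hz := cube_add_b_ne P (xP W R)
  have h0 := h.onC hR
  unfold OnC at h0
  rw [h3]
  by_cases h2 : R + R = 0
  · rw [h2, zero_add]
    refine ⟨hR, ?_⟩
    rw [triA_y h2, zero_pow two_ne_zero, eq_comm, mul_eq_zero] at h0
    have h1 := h0.resolve_left ha
    rw [eq_div_iff (pow_ne_zero 2 hz)]
    grind
  obtain ⟨μ, ν, l1, -, l2, e1, e2, e3⟩ := h.line hR hR h2
  have h4 : R + R + R ≠ 0 := fun e => by
    rw [eq_neg_of_add_eq_zero_left e, xP_neg] at e1 e2 e3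
    have h5 : μ ^ 2 = nA W ^ 3 := by grind
    have h6 : μ * ν = 0 := by grind
    have h7 : μ ≠ 0 := fun e0 => ha (by rw [← h5, e0, zero_pow two_ne_zero])
    rw [(mul_eq_zero.1 h6).resolve_left h7] at e3
    exact mul_ne_zero ha hz (by grind)
  refine ⟨h4, ?_⟩
  obtain ⟨μ', ν', m1, m2, -, f1, -, -⟩ := h.line h2 hR h4
  exact triA_three ha hz h0 l1 e1 e2 (by rw [← l2, neg_neg, m1]) m2 f1

lemma Nd.three_inj (h : Nd W P) {R S : W.toAffine.Point} (e : 3 • R = 3 • S) : R = S := by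
  by_contra hn
  exact (h.three (sub_ne_zero.2 hn)).1 (by rw [nsmul_sub, e, sub_self])

lemma triA_dl_b (P : PB K) : P.dl P.b = P.b := by rw [PB.dl_apply, PB.D_b, mul_one]

lemma triA_cube {x : K} (h : P.dl x = 0) : ∃ t : K, t ^ 3 = x :=
  ⟨_, (P.D_eq_zero ((mul_eq_zero.1 h).resolve_left P.b_ne)).symm⟩

/-- A point with trivial descent class is a third multiple, in coordinates. -/
lemma triA_div {A x y z : K} (hA : A ≠ 0) (hy : y ≠ 0) (h : OnC A P.b x y)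
    (hz : P.ku x y = z ^ 3) : ∃ x₀ y₀, OnC A P.b x₀ y₀ ∧
      ((x₀ ^ 3 + P.b) ^ 3 - P.b * x₀ ^ 3) / (x₀ ^ 3 + P.b) ^ 2 = x := by
  have e1 := h.ku_sub hA
  have e2 := h.c0_ku hA hy
  have e3 := h.y_dl
  rw [hz, PB.c0_cube] at e1 e2
  rw [eq_div_iff hy] at e2
  unfold OnC at h
  obtain ⟨H, hH⟩ : ∃ H, z ^ 2 = A * (x + 1 - H) := ⟨x + 1 - z ^ 2 / A, by field_simp; ring⟩
  have e4 : y ^ 2 = A ^ 3 * ((x + 1 - H) * (x - H) ^ 2) := by
    rw [← e1]
    linear_combination (z ^ 4 + z ^ 2 * (A * (x + 1 - H)) + (A * (x + 1 - H)) ^ 2 -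
      2 * A * (z ^ 2 + A * (x + 1 - H)) + A ^ 2) * hH
  have e5 : z * y = A ^ 2 * ((x + 1 - H) * (x - H)) := by
    rw [← e1]
    linear_combination (z ^ 2 + A * (x + 1 - H) - A) * hH
  have hb : P.b = H * (x + H - H * H) := by
    have := mul_left_cancel₀ (pow_ne_zero 3 hA) (h.symm.trans e4)
    grind
  have hp : P.dl x = H * (H + x - 1) := by
    have := mul_left_cancel₀ (pow_ne_zero 2 hA) (e2.symm.trans e5)
    grind
  have hx : x - H ≠ 0 := fun e => hy (pow_eq_zero_iff two_ne_zero |>.1 (by rw [e4, e]; ring))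
  have hd : P.dl H = H - H * H := by
    have h1 := congrArg P.dl hb
    rw [triA_dl_b, PB.dl_mul, map_sub, map_add, PB.dl_mul, hp] at h1
    refine mul_left_cancel₀ hx ?_
    grind
  have hq : P.dl (A * z) = -(A * z * H) := by
    have h1 : P.dl y = -P.dl (A * z) := by rw [← e1, map_sub, PB.dl_cube, zero_sub]
    rw [h1, hp] at e3
    refine mul_left_cancel₀ hy ?_
    have h2 : y * -(A * z * H) = -(A * H * (z * y)) := by ring
    rw [h2, e5]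
    grind
  have hζ : P.dl (x + H - H * H) = P.b := by
    rw [map_sub, map_add, PB.dl_mul, hp, hd]
    grind
  obtain ⟨x₀, h0⟩ := triA_cube (P := P) (x := x + H - H * H - P.b)
    (by rw [map_sub, hζ, triA_dl_b, sub_self])
  obtain ⟨w, hw⟩ := triA_cube (P := P) (x := A * z * (x + H - H * H))
    (by rw [PB.dl_mul, hζ, hq]; linear_combination (A * z) * hb)
  have hζ0 : x + H - H * H ≠ 0 := fun e => P.b_ne (by rw [hb, e, mul_zero])
  refine ⟨x₀, A * w, cube_inj ?_, ?_⟩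
  · have h1 : ((A * w) ^ 2) ^ 3 = A ^ 8 * z ^ 2 * (x + H - H * H) ^ 2 := by
      rw [show ((A * w) ^ 2) ^ 3 = A ^ 6 * (w ^ 3) ^ 2 by ring, hw]
      ring
    have h2 : (A ^ 3 * (x₀ ^ 3 + x₀ ^ 2 + P.b)) ^ 3 =
        A ^ 9 * ((x₀ ^ 3) ^ 3 + (x₀ ^ 3) ^ 2 + P.b ^ 3) := by
      rw [mul_pow, cube_add, cube_add]
      ring
    rw [h1, h2, h0, hH, cube_sub]
    generalize hs : x + H - H * H = ζ at hb ⊢
    rw [hb, show x = ζ - H + H * H by rw [← hs]; ring]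
    ring
  · rw [h0, sub_add_cancel, div_eq_iff (pow_ne_zero 2 hζ0)]
    generalize hs : x + H - H * H = ζ at hb ⊢
    rw [hb, show x = ζ - H + H * H by rw [← hs]; ring]
    ring

lemma Nd.ku_mem_Cub (h : Nd W P) {R : W.toAffine.Point} :
    kuP W P R ∈ Cub K ↔ ∃ S, 3 • S = R := by
  refine ⟨fun ⟨z, hz⟩ => ?_, ?_⟩
  swap
  · rintro ⟨S, rfl⟩
    rw [← P.ker_cls, AddMonoidHom.mem_ker, ← h.kap_apply, map_nsmul]
    exact Prod.ext (three_K _) (three_K _)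
  by_cases hR : R = 0
  · exact ⟨0, by simp [hR]⟩
  by_cases hy : yP W R = 0
  · have h1 : R = -R := h.eq_of_xy hR (neg_ne_zero.2 hR) (xP_neg R).symm
      (by rw [yP_neg, hy, neg_zero])
    refine ⟨R, ?_⟩
    rw [show 3 • R = R + R + R by abel, add_eq_zero_iff_eq_neg.2 h1, zero_add]
  obtain ⟨x₀, y₀, h1, h2⟩ := triA_div h.nA_ne hy (h.onC hR) (z := z) (Eq.symm hz)
  obtain ⟨S, hS, rfl, -⟩ := h.exists_pt h1
  obtain ⟨h3, h4⟩ := h.three hS
  rcases h.eq_of_xP h3 hR (h4.trans h2) with e | e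
  · exact ⟨S, e⟩
  · exact ⟨-S, by rw [neg_nsmul, e, neg_neg]⟩

lemma Nd.kap_eq_zero (h : Nd W P) {R : W.toAffine.Point} : h.kap R = 0 ↔ ∃ S, 3 • S = R := by
  rw [h.kap_apply, ← AddMonoidHom.mem_ker, P.ker_cls, h.ku_mem_Cub]

lemma exists_wp [IsSepClosed K] {A : K} (hA : A ≠ 0) (c : K) : ∃ t : K, wp A t = c := by
  obtain ⟨t, ht⟩ := IsSepClosed.exists_root_C_mul_X_pow_add_C_mul_X_add_C (n := 3) 1 (-A) (-c)
    (CharP.cast_eq_zero K 3) (by norm_num) (neg_ne_zero.2 hA)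
  exact ⟨t, by unfold wp; linear_combination ht⟩

/-- A point with prescribed descent class, in coordinates. -/
lemma triA_pt [IsSepClosed K] {g s f : K} (hf : f ≠ 0) (hb : f ≠ P.b) (hs : P.dl f = s * f) :
    ∃ x y z : K, OnC (g ^ 2) P.b x y ∧ P.ku x y = z ^ 3 + g ^ 3 * s := by
  obtain ⟨n, hn⟩ := exists_wp hf (f ^ 2 - f * P.b)
  unfold wp at hn
  have hn0 : n ≠ 0 := by
    rintro rfl
    exact mul_ne_zero hf (sub_ne_zero.2 hb) (by linear_combination -hn)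
  obtain ⟨H, hH⟩ : ∃ H, P.b = H * n := ⟨P.b / n, by field_simp⟩
  obtain ⟨Z, hZ⟩ : ∃ Z, f = Z * n + n - P.b := ⟨(f - n + P.b) / n, by field_simp; ring⟩
  have e1 : n = Z ^ 2 - (1 - H) ^ 2 := by
    refine mul_left_cancel₀ (pow_ne_zero 2 hn0) ?_
    rw [hZ, hH] at hn
    grind
  have d1 : P.dl n = n * (s * Z + H) := by
    have h1 := congrArg P.dl hn
    rw [map_sub, map_sub, PB.dl_cube, sq, PB.dl_mul, PB.dl_mul, PB.dl_mul, triA_dl_b, hs] at h1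
    refine mul_left_cancel₀ hf ?_
    have h2 : n * (s * Z + H) = s * (f - n + P.b) + P.b := by rw [hZ, hH]; ring
    rw [h2]
    grind
  have d2 : P.dl H = H * (1 - H - s * Z) := by
    have h1 := congrArg P.dl hH
    rw [triA_dl_b, PB.dl_mul, d1] at h1
    refine mul_left_cancel₀ hn0 ?_
    linear_combination hH - h1
  have d3 : P.dl Z = s * (1 - H) - Z * (s * Z + H) := by
    have h1 := congrArg P.dl hZ
    rw [hs, map_sub, map_add, triA_dl_b, PB.dl_mul, d1] at h1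
    refine mul_left_cancel₀ hn0 ?_
    linear_combination -h1 + s * hZ + (1 - s) * hH
  refine ⟨n - H + H * H, g ^ 3 * (Z ^ 3 - Z), g * Z, ?_, mul_left_cancel₀ P.b_ne ?_⟩
  · unfold OnC
    rw [hH, e1]
    grind
  · have h1 : ∀ x y : K, P.b * P.ku x y = y * (P.b + P.dl x) - (x ^ 2 + x) * P.dl y := fun x y => by
      simp only [PB.ku, PB.dl_apply]
      ring
    rw [h1, P.dl_mul (g ^ 3), PB.dl_cube, map_sub, PB.dl_cube, map_add, map_sub, PB.dl_mul, d1, d2, d3,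
      hH, e1]
    grind

lemma Nd.exists_ku [IsSepClosed K] (h : Nd W P) (u : K) : ∃ R, u - kuP W P R ∈ Cub K := by
  obtain ⟨t, ht⟩ := exists_wp h.nA_ne (u - nA W * P.c0 u)
  have h2 : (2 : K) ≠ 0 := fun e => one_ne_zero (α := K) (by linear_combination three_eq (K := K) - e)
  have : NeZero ((2 : ℕ) : K) := ⟨by exact_mod_cast h2⟩
  obtain ⟨g, hg⟩ := IsSepClosed.exists_pow_nat_eq (nA W) 2
  have hg0 : g ≠ 0 := by
    rintro rfl
    exact h.nA_ne (by rw [← hg, zero_pow two_ne_zero])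
  have hs : P.c0 (g⁻¹ ^ 3 * (u - t ^ 3)) = g⁻¹ ^ 3 * (u - t ^ 3) := by
    rw [PB.c0_cube_mul, PB.c0_sub, PB.c0_cube]
    unfold wp at ht
    rw [← hg] at ht
    field_simp
    linear_combination ht
  obtain ⟨f, hf, hb, hd⟩ : ∃ f, f ≠ 0 ∧ f ≠ P.b ∧ P.dl f = g⁻¹ ^ 3 * (u - t ^ 3) * f := by
    obtain ⟨f, hf, hd⟩ := P.exists_dl hs
    by_cases hb : f = P.b
    · refine ⟨-f, neg_ne_zero.2 hf, fun e => mul_ne_zero h2 hf ?_, by rw [map_neg, hd, mul_neg]⟩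
      linear_combination hb - e
    · exact ⟨f, hf, hb, hd⟩
  obtain ⟨x, y, z, h3, h4⟩ := triA_pt (g := g) hf hb hd
  rw [hg] at h3
  obtain ⟨R, -, rfl, rfl⟩ := h.exists_pt h3
  refine ⟨R, t - z, ?_⟩
  change (t - z) ^ 3 = u - P.ku (xP W R) (yP W R)
  rw [h4, cube_sub]
  field_simp
  ring

lemma Nd.kap_surj [IsSepClosed K] (h : Nd W P) : Function.Surjective h.kap := fun s => by
  obtain ⟨u, rfl⟩ := P.cls_surj s
  obtain ⟨R, hR⟩ := h.exists_ku u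
  rw [← P.ker_cls, AddMonoidHom.mem_ker, map_sub, sub_eq_zero] at hR
  exact ⟨R, hR.symm⟩

end Pool.Agent.Lib.MP_a3f657_nt.Three
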