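import Pool.Agent.Lib.MP_a3f657_nt.C2Gal
import Pool.Agent.Lib.MP_a3f657_nt.C3Defs
import Pool.Agent.Lib.MP_a3f657_nt.C3Tri
import Pool.Agent.Lib.MP_a3f657_nt.C3Lt

/-!
The order of the 3-Selmer group in terms of the explicit descent map.
-/

set_option linter.unusedSectionVars false

namespace Pool.Agent.Lib.MP_a3f657_nt.Three

open Pool.Agent.Lib.MP_a3f657_nt.Two (Pt pm cocycles cobound trivOver trivSep Gal LocTriv toSep)

open WeierstrassCurve WeierstrassCurve.Affine

open scoped Polynomial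

attribute [local instance 10000] Classical.propDecidable

section gen

variable {F : Type} [Field F] [CharP F 3]

/-- The elements of `F` that lie in the image of the descent map over `K`. -/
def LocT (P : PB F) (A : F) (K : Type) [Field K] [CharP K 3] [Algebra F K] : AddSubgroup F where
  carrier := {s | ∀ Q : PB K, Q.b = algebraMap F K P.b → algebraMap F K s ∈ Lt Q (algebraMap F K A)}
  zero_mem' Q _ := by simp
  add_mem' ha hb Q hQ := by rw [map_add]; exact add_mem (ha Q hQ) (hb Q hQ)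
  neg_mem' ha Q hQ := by rw [map_neg]; exact neg_mem (ha Q hQ)

lemma mem_LocT {P : PB F} {A s : F} {K : Type} [Field K] [CharP K 3] [Algebra F K] {Q : PB K}
    (hQ : Q.b = algebraMap F K P.b) :
    s ∈ LocT P A K ↔ algebraMap F K s ∈ Lt Q (algebraMap F K A) :=
  ⟨fun h => h Q hQ, fun h Q' hQ' => by rwa [PB.ext' (hQ'.trans hQ.symm)]⟩

instance sepChar (K : Type) [Field K] [CharP K 3] : CharP (SeparableClosure K) 3 :=
  charP_of_injective_algebraMap (algebraMap K _).injective 3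

/-- A field homomorphism acting on pairs. -/
def pq {K L : Type} [Field K] [Field L] (f : K →+* L) : K × K →+ L × L :=
  f.toAddMonoidHom.prodMap f.toAddMonoidHom

lemma pq_apply {K L : Type} [Field K] [Field L] (f : K →+* L) (s : K × K) :
    pq f s = (f s.1, f s.2) := rfl

lemma pq_inj {K L : Type} [Field K] [Field L] (f : K →+* L) : Function.Injective (pq f) :=
  fun _ _ e => Prod.ext (f.injective (congrArg Prod.fst e)) (f.injective (congrArg Prod.snd e))

variable {W : WeierstrassCurve F} {P : PB F}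

variable {K L : Type} [Field K] [CharP K 3] [Algebra F K] [Field L] [CharP L 3] [Algebra F L]

lemma pq_commutes (g : K →ₐ[F] L) (s : F × F) :
    pq (g : K →+* L) (pq (algebraMap F K) s) = pq (algebraMap F L) s :=
  Prod.ext (g.commutes s.1) (g.commutes s.2)

lemma cls_map {Q : PB K} {Q' : PB L} {f : K →+* L} (hQ : Q'.b = f Q.b) (u : K) :
    Q'.cls (f u) = pq f (Q.cls u) := by
  rw [PB.cls_apply, PB.cls_apply, pq_apply, Q.map_c1 hQ, Q.map_c2 hQ]

lemma Nd.bc (h : Nd W P) {Q : PB K} (hQ : Q.b = algebraMap F K P.b) : Nd (W.baseChange K) Q :=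
  h.map _ hQ

lemma kap_pm (h : Nd W P) {Q : PB K} (hQ : Q.b = algebraMap F K P.b) {Q' : PB L}
    (hQ' : Q'.b = algebraMap F L P.b) (g : K →ₐ[F] L) (R : Pt W K) :
    (h.bc hQ').kap (pm W g R) = pq (g : K →+* L) ((h.bc hQ).kap R) := by
  have e : xP (W.baseChange L) (pm W g R) = (g : K →+* L) (xP (W.baseChange K) R) := by
    rcases R with _ | ⟨X, Y, hR⟩
    · exact (map_zero g).symm
    · rw [Point.map_some, xP_some, xP_some]
      simp [nx, WeierstrassCurve.baseChange]
  have e' : yP (W.baseChange L) (pm W g R) = (g : K →+* L) (yP (W.baseChange K) R) := by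
    rcases R with _ | ⟨X, Y, hR⟩
    · exact (map_zero g).symm
    · rw [Point.map_some, yP_some, yP_some]
      simp [ny, WeierstrassCurve.baseChange, map_ofNat]
  have hb : Q'.b = (g : K →+* L) Q.b := by simp [hQ, hQ']
  rw [Nd.kap_apply, Nd.kap_apply, kuP, kuP, e, e', map_ku _ hb, cls_map hb]

lemma exists_of_fixed {T : Pt W (SeparableClosure K)}
    (hT : ∀ τ : Gal K, pm W (τ.toAlgHom.restrictScalars F) T = T) :
    ∃ R : Pt W K, pm W (toSep F K) R = T := by
  rcases T with _ | ⟨X, Y, hXY⟩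
  · exact ⟨0, rfl⟩
  have h1 := fun τ => Point.some.inj (hT τ)
  obtain ⟨X, rfl⟩ := (InfiniteGalois.mem_range_algebraMap_iff_fixed (k := K) X).2 fun τ => (h1 τ).1
  obtain ⟨Y, rfl⟩ := (InfiniteGalois.mem_range_algebraMap_iff_fixed (k := K) Y).2 fun τ => (h1 τ).2
  exact ⟨.some X Y ((W.toAffine.baseChange_nonsingular (toSep F K).injective X Y).1 hXY), rfl⟩

lemma exists_pair_of_fixed {s : SeparableClosure K × SeparableClosure K}
    (hs : ∀ τ : Gal K, pq (τ.toAlgHom : SeparableClosure K →+* SeparableClosure K) s = s) :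
    ∃ t : K × K, pq (algebraMap K (SeparableClosure K)) t = s := by
  obtain ⟨a, ha⟩ := (InfiniteGalois.mem_range_algebraMap_iff_fixed (k := K) s.1).2
    fun τ => congrArg Prod.fst (hs τ)
  obtain ⟨b, hb⟩ := (InfiniteGalois.mem_range_algebraMap_iff_fixed (k := K) s.2).2
    fun τ => congrArg Prod.snd (hs τ)
  exact ⟨(a, b), Prod.ext ha hb⟩

lemma pm_toSep (τ : Gal K) (R : Pt W K) :
    pm W (τ.toAlgHom.restrictScalars F) (pm W (toSep F K) R) = pm W (toSep F K) R := by
  rw [Point.map_map]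
  congr 2
  ext x
  simp

lemma locTriv_iff (h : Nd W P) {Q : PB K} (hQ : Q.b = algebraMap F K P.b)
    {Ps : PB (SeparableClosure F)} (hPs : Ps.b = algebraMap F _ P.b)
    {R : Pt W (SeparableClosure F)} {s : F × F}
    (hR : (h.bc hPs).kap R = pq (algebraMap F _) s)
    {ξ : Gal F → Pt W (SeparableClosure F)} (hξ : ∀ σ, 3 • ξ σ = pm W σ.toAlgHom R - R) :
    LocTriv W K ξ ↔ pq (algebraMap F K) s ∈ (h.bc hQ).kap.range := by
  obtain ⟨Qs, hQs⟩ := Q.exists_sep (SeparableClosure K)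
  rw [hQ, ← IsScalarTower.algebraMap_apply] at hQs
  have h1 : ∀ (i : SeparableClosure F →ₐ[F] SeparableClosure K) (τ : Gal K) (σ : Gal F),
      (∀ x, τ (i x) = i (σ x)) → 3 • pm W i (ξ σ) =
        pm W (τ.toAlgHom.restrictScalars F) (pm W i R) - pm W i R := fun i τ σ e => by
    rw [← map_nsmul, hξ, map_sub, Point.map_map, Point.map_map]
    congr 3
    ext x
    exact congrArg Subtype.val (e x).symm
  have h2 : ∀ i : SeparableClosure F →ₐ[F] SeparableClosure K,
      (h.bc hQs).kap (pm W i R) =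
        pq (toSep F K : K →+* SeparableClosure K) (pq (algebraMap F K) s) := fun i => by
    rw [kap_pm h hPs hQs, hR, pq_commutes, pq_commutes]
  refine ⟨fun H => ?_, fun ⟨R₀, hR₀⟩ i => ?_⟩
  · let i : SeparableClosure F →ₐ[F] SeparableClosure K := IsSepClosed.lift
    obtain ⟨S, hS⟩ := H i
    obtain ⟨R₀, hR₀⟩ := exists_of_fixed (K := K) (T := pm W i R - 3 • S) fun τ => by
      let := i.toRingHom.toAlgebra
      have := IsScalarTower.of_algebraMap_eq (R := F) (S := SeparableClosure F)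
        (A := SeparableClosure K) fun x => (i.commutes x).symm
      have e := fun x => ((τ.restrictScalars F).restrictNormal_commutes (SeparableClosure F) x).symm
      have e1 := h1 i τ _ e
      rw [hS τ _ e] at e1
      rw [map_sub, map_nsmul, eq_sub_iff_add_eq.1 e1 |>.symm, nsmul_sub]
      abel
    refine ⟨R₀, pq_inj (toSep F K : K →+* SeparableClosure K) ?_⟩
    have e2 := kap_pm h hQ hQs (toSep F K) R₀
    rw [hR₀, map_sub, h2, (h.bc hQs).kap_eq_zero.2 ⟨S, rfl⟩, sub_zero] at e2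
    exact e2.symm
  · obtain ⟨S, hS⟩ := (h.bc hQs).kap_eq_zero.1
      (show (h.bc hQs).kap (pm W i R - pm W (toSep F K) R₀) = 0 by
        rw [map_sub, h2, kap_pm h hQ hQs, hR₀, sub_self])
    refine ⟨S, fun τ σ e => (h.bc hQs).three_inj ?_⟩
    rw [h1 i τ σ e, nsmul_sub, ← map_nsmul, hS, map_sub, pm_toSep]
    abel

lemma mem_LocT_iff (h : Nd W P) {Q : PB K} (hQ : Q.b = algebraMap F K P.b) (u : F) :
    u ∈ LocT P (nA W) K ↔ pq (algebraMap F K) (P.cls u) ∈ (h.bc hQ).kap.range := by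
  rw [mem_LocT hQ, ← nA_map, ← cls_map hQ]
  exact (h.bc hQ).mem_Lt'

lemma pm_locConst (R : Pt W (SeparableClosure F)) :
    IsLocallyConstant fun σ : Gal F => pm W σ.toAlgHom R := by
  have key : ∀ x : SeparableClosure F, IsLocallyConstant fun σ : Gal F => σ x := fun x =>
    (IsLocallyConstant.iff_eventually_eq _).2 fun σ => by
      have h3 := (stabilizer_isOpen_of_isIntegral (K := F) x).preimage (continuous_const_mul σ⁻¹)
      filter_upwards [h3.mem_nhds (x := σ) (by simp)] with τ hτ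
      have h4 : σ.symm (τ x) = x := hτ
      rw [← σ.apply_symm_apply (τ x), h4]
  rcases R with _ | ⟨X, Y, hR⟩
  · exact IsLocallyConstant.const 0
  refine (IsLocallyConstant.iff_eventually_eq _).2 fun σ => ?_
  filter_upwards [(key X).eventually_eq σ, (key Y).eventually_eq σ] with τ h1 h2
  simp only [Point.map_some, Point.some.injEq]
  exact ⟨h1, h2⟩

end gen

variable {k : Type} [Field k] [CharP k 3]

instance infChar : CharP (RatFunc.CompletionAtInfty k) 3 :=
  charP_of_injective_algebraMap (algebraMap (RatFunc k) _).injective 3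

instance adicChar (v : IsDedekindDomain.HeightOneSpectrum k[X]) :
    CharP (v.adicCompletion (RatFunc k)) 3 :=
  charP_of_injective_algebraMap (algebraMap (RatFunc k) _).injective 3

/-- The representatives of the classes of the Selmer group. -/
noncomputable def SelT (P : PB (RatFunc k)) (A : RatFunc k) : AddSubgroup (RatFunc k) :=
  LocT P A (RatFunc.CompletionAtInfty k) ⊓
    ⨅ v : IsDedekindDomain.HeightOneSpectrum k[X], LocT P A (v.adicCompletion (RatFunc k))

theorem selThree_eq {W : WeierstrassCurve (RatFunc k)} {P : PB (RatFunc k)} (h : Nd W P)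
    (h1 : ∃ Q : PB (RatFunc.CompletionAtInfty k), Q.b = algebraMap _ _ P.b)
    (h2 : ∀ v : IsDedekindDomain.HeightOneSpectrum k[X],
      ∃ Q : PB (v.adicCompletion (RatFunc k)), Q.b = algebraMap _ _ P.b) :
    selThree W = (Cub (RatFunc k)).relIndex (SelT P (nA W)) := by
  obtain ⟨Ps, hPs⟩ := P.exists_sep (SeparableClosure (RatFunc k))
  obtain ⟨Q₁, hQ₁⟩ := h1
  choose Q₂ hQ₂ using h2
  let κ := (h.bc hPs).kap
  let j := pq (algebraMap (RatFunc k) (SeparableClosure (RatFunc k)))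
  have hj : Function.Injective j := pq_inj _
  let S2 : AddSubgroup (RatFunc k × RatFunc k) :=
    (h.bc hQ₁).kap.range.comap (pq (algebraMap _ _)) ⊓
      ⨅ v : IsDedekindDomain.HeightOneSpectrum k[X],
        (h.bc (hQ₂ v)).kap.range.comap (pq (algebraMap _ _))
  have hS2 : (Cub (RatFunc k)).relIndex (SelT P (nA W)) = Nat.card S2 := by
    have e : SelT P (nA W) = S2.comap P.cls := by
      ext u
      simp only [SelT, S2, AddSubgroup.mem_inf, AddSubgroup.mem_iInf, AddSubgroup.mem_comap]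
      exact and_congr (mem_LocT_iff h hQ₁ u) (forall_congr' fun v => mem_LocT_iff h (hQ₂ v) u)
    rw [e, ← P.ker_cls, AddSubgroup.relIndex_ker,
      AddSubgroup.map_comap_eq_self_of_surjective P.cls_surj]
  let Z := (S2.map j).comap κ
  have loc : ∀ {R s} {ξ : Gal (RatFunc k) → _}, κ R = j s → (∀ σ, 3 • ξ σ = pm W σ.toAlgHom R - R) →
      ((LocTriv W (RatFunc.CompletionAtInfty k) ξ ∧
        ∀ v : IsDedekindDomain.HeightOneSpectrum k[X], LocTriv W (v.adicCompletion (RatFunc k)) ξ) ↔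
        s ∈ S2) := fun hR hξ => by
    simp only [S2, AddSubgroup.mem_inf, AddSubgroup.mem_iInf, AddSubgroup.mem_comap]
    exact and_congr (locTriv_iff h hQ₁ hPs hR hξ)
      (forall_congr' fun v => locTriv_iff h (hQ₂ v) hPs hR hξ)
  have hex : ∀ (R : Z) (σ : Gal (RatFunc k)), ∃ S, 3 • S = pm W σ.toAlgHom R.1 - R.1 := by
    rintro ⟨R, s, -, hs⟩ σ
    refine (h.bc hPs).kap_eq_zero.1 ?_
    rw [map_sub, kap_pm h hPs hPs, sub_eq_zero]
    exact hs ▸ pq_commutes σ.toAlgHom s
  choose ξ hξ using hex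
  have inj := @Nd.three_inj _ _ _ _ _ (h.bc hPs)
  have hmem : ∀ R, ξ R ∈ Two.cocyc W := fun R => by
    obtain ⟨s, hs, e⟩ := R.2
    refine Two.mem_cocyc.2 ⟨⟨(IsLocallyConstant.iff_eventually_eq _).2 fun σ => ?_,
      fun σ τ => inj ?_⟩, (loc e.symm (hξ R)).2 hs⟩
    · filter_upwards [(pm_locConst R.1).eventually_eq σ] with τ hτ
      exact inj (by rw [hξ, hξ, hτ])
    · rw [nsmul_add, ← map_nsmul, hξ, hξ, hξ, map_sub, Point.map_map, add_comm, sub_add_sub_cancel]
      rfl
  let Φ₀ : Z →+ Two.cocyc W := AddMonoidHom.mk' (fun R => ⟨ξ R, hmem R⟩) fun R S =>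
    Subtype.ext (funext fun σ => inj (by
      change 3 • ξ (R + S) σ = 3 • (ξ R σ + ξ S σ)
      rw [nsmul_add, hξ, hξ, hξ, AddSubgroup.coe_add, map_add]
      abel))
  let Φ : Z →+ Two.Sha W := (QuotientAddGroup.mk' _).comp Φ₀
  have hΦ : ∀ R, Φ R = 0 ↔ ∃ S, ∀ σ : Gal (RatFunc k), ξ R σ = pm W σ.toAlgHom S - S := fun R =>
    QuotientAddGroup.eq_zero_iff (Φ₀ R)
  have e1 : ∀ c : Two.Sha W, c ∈ Φ.range ↔ 3 • c = 0 := fun c => by
    refine ⟨?_, fun hc => ?_⟩
    · rintro ⟨R, rfl⟩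
      exact (QuotientAddGroup.eq_zero_iff (3 • Φ₀ R)).2 ⟨R.1, hξ R⟩
    · induction c using QuotientAddGroup.induction_on with
      | H η =>
      obtain ⟨R, hR⟩ := (QuotientAddGroup.eq_zero_iff (3 • η)).1 hc
      have hR' : ∀ σ, 3 • η.1 σ = pm W σ.toAlgHom R - R := hR
      obtain ⟨s, hs⟩ := exists_pair_of_fixed (K := RatFunc k) (s := κ R)
        fun σ => by
          have := (h.bc hPs).kap_eq_zero.2 ⟨_, hR' σ⟩
          rwa [map_sub, kap_pm h hPs hPs, sub_eq_zero] at this
      refine ⟨⟨R, s, (loc hs.symm hR').1 (Two.mem_cocyc.1 η.2).2, hs⟩, congrArg QuotientAddGroup.mk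
        (Subtype.ext (funext fun σ => inj ?_))⟩
      exact (hξ _ σ).trans (hR' σ).symm
  have hP : P.b = algebraMap (RatFunc k) (RatFunc k) P.b := rfl
  have e2 : (Φ.ker.map Z.subtype).map κ = (h.bc hP).kap.range.map j := by
    refine le_antisymm ?_ ?_
    · rintro _ ⟨_, ⟨R, hR, rfl⟩, rfl⟩
      obtain ⟨S, hS⟩ := (hΦ R).1 hR
      obtain ⟨R₀, hR₀⟩ := exists_of_fixed (K := RatFunc k) (T := R.1 - 3 • S) fun σ => by
        have e := hξ R σ
        rw [hS] at e
        change pm W σ.toAlgHom _ = _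
        rw [map_sub, map_nsmul, eq_sub_iff_add_eq.1 e |>.symm, nsmul_sub]
        abel
      refine ⟨(h.bc hP).kap R₀, ⟨R₀, rfl⟩, ?_⟩
      have e := kap_pm h hP hPs (toSep _ _) R₀
      rw [hR₀, map_sub, (h.bc hPs).kap_eq_zero.2 ⟨S, rfl⟩, sub_zero] at e
      exact e.symm
    · rintro _ ⟨s, ⟨R₀, rfl⟩, rfl⟩
      have e := kap_pm h hP hPs (toSep _ _) R₀
      have e4 : ∀ σ : Gal (RatFunc k), pm W σ.toAlgHom (pm W (toSep _ _) R₀) -
        pm W (toSep _ _) R₀ = 0 := fun σ => sub_eq_zero.2 (pm_toSep σ R₀)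
      have hZ : pm W (toSep _ _) R₀ ∈ Z :=
        ⟨_, (loc (ξ := 0) e fun σ => by simp [e4]).1
          (Two.mem_cocyc.1 (zero_mem (Two.cocyc W))).2, e.symm⟩
      exact ⟨_, ⟨⟨_, hZ⟩, (hΦ _).2 ⟨0, fun σ => inj (by rw [hξ, e4]; simp)⟩, rfl⟩, e⟩
  have e3 : κ.ker ≤ Φ.ker.map Z.subtype := fun R hR => by
    obtain ⟨S, rfl⟩ := (h.bc hPs).kap_eq_zero.1 hR
    exact ⟨⟨3 • S, 0, zero_mem _, (map_zero j).trans hR.symm⟩, (hΦ _).2 ⟨S, fun σ => inj (by
      rw [hξ, nsmul_sub, ← map_nsmul])⟩, rfl⟩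
  have e4 := AddSubgroup.relIndex_mul_relIndex _ _ _ e3 (AddSubgroup.map_subtype_le Φ.ker)
  rw [AddSubgroup.relIndex_ker, AddSubgroup.relIndex_ker, e2,
    AddSubgroup.map_comap_eq_self_of_surjective (h.bc hPs).kap_surj,
    AddSubgroup.card_map_of_injective hj, AddSubgroup.card_map_of_injective hj,
    AddSubgroup.relIndex, AddSubgroup.addSubgroupOf,
    AddSubgroup.comap_map_eq_self_of_injective Z.subtype_injective, AddSubgroup.index_ker] at e4
  have e5 : (h.bc hP).kap.range = h.kap.range := rfl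
  have e6 : selThree W = Nat.card (W.toAffine.Point ⧸
      (nsmulAddMonoidHom 3 : W.toAffine.Point →+ W.toAffine.Point).range) *
      Nat.card {c : Two.Sha W // 3 • c = 0} := rfl
  rw [hS2, ← e4, e6, e5, ← AddSubgroup.index_ker, AddSubgroup.index_eq_card]
  congr 1
  · congr 2
    ext R
    exact h.kap_eq_zero.symm
  · exact Nat.card_congr (Equiv.subtypeEquivRight fun c => (e1 c).symm)

end Pool.Agent.Lib.MP_a3f657_nt.Three
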