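import Pool.Agent.Lib.MP_a3f657_nt.C3Res
import Pool.Agent.Lib.MP_a3f657_nt.C3Gal

/-!
Completions.
-/

set_option linter.unusedSectionVars false

namespace Pool.Agent.Lib.MP_a3f657_nt.Three

open Pool.Agent.Lib.MP_a3f657_nt.Two

open WithZero Polynomial IsDedekindDomain

open scoped Classical

section gen

variable {K : Type} [Field K] [CharP K 3] {F : Type} [Field F] [CharP F 3]

/-- `L'` is the completion of `L` along `f`. -/
structure IsCpl (L : PreLoc F) (L' : PreLoc K) (f : F →+* K) : Prop where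
  cpl : Cpl L'.w
  val : ∀ x, L'.w (f x) = L.w x
  b : L'.P.b = f L.P.b
  r : ∀ x, L'.r (f x) = L.r x
  dense : ∀ x n, ∃ y, x - f y ∈ Fil L'.w n

lemma exists_isCpl (L : PreLoc F) (f : F →+* K) (w : Valuation K ℤᵐ⁰) (hc : Cpl w)
    (hv : ∀ x, w (f x) = L.w x) (hd : ∀ x n, ∃ y, x - f y ∈ Fil w n) :
    ∃ L' : PreLoc K, IsCpl L L' f := by
  have hm : ∀ x n, f x ∈ Fil w n ↔ x ∈ Fil L.w n := fun x n => by rw [mem_Fil, hv, mem_Fil]
  have hπ : ord w (f L.P.b) = 1 := by rw [ord, hv]; exact L.hπ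
  choose ap hap using hd
  have hap2 : ∀ x n m, n ≤ m → ap x m - ap x n ∈ Fil L.w n := fun x n m h => by
    rw [← hm, map_sub, show f (ap x m) - f (ap x n) = x - f (ap x n) - (x - f (ap x m)) by ring]
    exact sub_mem (hap x n) (Fil.mono (hap x m) h)
  have hex : ∀ x, ∃ g₀ g₁ g₂ : K, x = g₀ ^ 3 + f L.P.b * g₁ ^ 3 + f L.P.b ^ 2 * g₂ ^ 3 ∧
      g₂ - f (L.P.c2 (ap x 0)) ∈ Fil w 0 := fun x => by
    obtain ⟨g₀, h₀⟩ := hc (fun n => f (L.P.c0 (ap x (3 * n)))) fun n => by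
      rw [← map_sub, hm, ← PB.c0_sub]
      exact PreLoc.c0_mem (hap2 x _ _ (by push_cast; omega)) (by omega)
    obtain ⟨g₁, h₁⟩ := hc (fun n => f (L.P.c1 (ap x (3 * n)))) fun n => by
      rw [← map_sub, hm, ← PB.c1_sub]
      exact PreLoc.c1_mem (hap2 x _ _ (by push_cast; omega)) (by omega)
    obtain ⟨g₂, h₂⟩ := hc (fun n => f (L.P.c2 (ap x (3 * n)))) fun n => by
      rw [← map_sub, hm, ← PB.c2_sub]
      exact PreLoc.c2_mem (hap2 x _ _ (by push_cast; omega)) (by omega)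
    refine ⟨g₀, g₁, g₂, sub_eq_zero.1 (eq_zero_of_Fil (w := w) fun n => ?_), by simpa using h₂ 0⟩
    have e := congrArg f (L.P.spec (ap x (3 * n)))
    simp only [map_add, map_mul, map_pow] at e
    have hb : f L.P.b ∈ Fil w 1 := mem_Fil_of_le hπ.ge
    rw [show x - (g₀ ^ 3 + f L.P.b * g₁ ^ 3 + f L.P.b ^ 2 * g₂ ^ 3) = x - f (ap x (3 * n)) -
      (g₀ - f (L.P.c0 (ap x (3 * n)))) ^ 3 - f L.P.b * (g₁ - f (L.P.c1 (ap x (3 * n)))) ^ 3 -
      f L.P.b ^ 2 * (g₂ - f (L.P.c2 (ap x (3 * n)))) ^ 3 by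
        rw [cube_sub, cube_sub, cube_sub]; linear_combination e]
    exact sub_mem (sub_mem (sub_mem (Fil.mono (hap _ _) (by omega)) (Fil_cube (h₀ n) (by omega)))
      (Fil.mul hb (Fil_cube (h₁ n) le_rfl) (by omega)))
      (Fil.mul (Fil.sq hb le_rfl) (Fil_cube (h₂ n) le_rfl) (by omega))
  let P : PB K :=
    { b := f L.P.b
      ns := fun r hr => by
        rw [← hr, ord_cube] at hπ
        omega
      ex := fun x => by
        obtain ⟨g₀, g₁, g₂, e, -⟩ := hex x
        exact ⟨g₀, g₁, g₂, e⟩ }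
  have hr : ∀ x y, x - f y ∈ Fil w 0 → L.r (ap x 0) = L.r y := fun x y h => by
    rw [← sub_eq_zero, ← map_sub]
    refine L.r_int _ ?_
    rw [← hm, map_sub, show f (ap x 0) - f y = x - f y - (x - f (ap x 0)) by ring]
    exact sub_mem h (hap x 0)
  let r : K →+ ZMod 3 :=
    { toFun := fun x => L.r (ap x 0)
      map_zero' := by rw [hr 0 0 (by simp), map_zero]
      map_add' := fun x y => by
        rw [hr (x + y) (ap x 0 + ap y 0), map_add]
        convert add_mem (hap x 0) (hap y 0) using 1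
        rw [map_add]; ring }
  have hrf : ∀ y, r (f y) = L.r y := fun y => hr _ y (by simp)
  have hfin : (Fil w 1).relIndex (Fil w 0) ≠ 0 := by
    have : Finite (Fil L.w 0 ⧸ (Fil L.w 1).addSubgroupOf (Fil L.w 0)) :=
      AddSubgroup.index_ne_zero_iff_finite.1 L.fin
    refine relIndex_ne_of_rep (Set.finite_range
      fun c : Fil L.w 0 ⧸ (Fil L.w 1).addSubgroupOf (Fil L.w 0) => f c.out.1) fun x hx => ?_
    have h1 : ap x 1 ∈ Fil L.w 0 := by
      simpa [← hm] using sub_mem hx (Fil.mono (hap x 1) (b := 0) (by omega))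
    refine ⟨_, ⟨QuotientAddGroup.mk ⟨_, h1⟩, rfl⟩, ?_⟩
    obtain ⟨z, hz⟩ := QuotientAddGroup.mk_out_eq_add ((Fil L.w 1).addSubgroupOf (Fil L.w 0)) ⟨_, h1⟩
    simp only [hz, AddSubgroup.coe_add, map_add, ← sub_sub]
    exact sub_mem (hap x 1) ((hm _ _).2 z.2)
  refine ⟨⟨w, P, hπ, r, fun x => ?_, fun x hx => ?_, ?_, hfin⟩, hc, hv, rfl, hrf,
    fun x n => ⟨_, hap x n⟩⟩
  · refine (hr _ (L.P.c2 (ap x 0)) ?_).trans (L.r_c2 _)
    obtain ⟨g₀, g₁, g₂, e, h⟩ := hex x
    rwa [(P.uniq e).2.2]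
  · exact (hr x 0 (by simpa using hx)).trans (map_zero _)
  · obtain ⟨x, h1, h2⟩ := L.r_ne
    exact ⟨f x, (hm _ _).2 h1, by rwa [hrf]⟩

namespace IsCpl

variable {L : PreLoc F} {L' : PreLoc K} {f : F →+* K} (h : IsCpl L L' f)
include h

lemma mem {x : F} {n : ℤ} : f x ∈ Fil L'.w n ↔ x ∈ Fil L.w n := by rw [mem_Fil, h.val, mem_Fil]

lemma ord_eq (x : F) : ord L'.w (f x) = ord L.w x := by rw [ord, h.val, ord]

lemma D (x : F) : L'.P.D (f x) = f (L.P.D x) := L.P.map_D h.b x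

lemma exists_PB (Q : PB F) : ∃ Q' : PB K, Q'.b = f Q.b :=
  ⟨L'.P.change (f Q.b) (L'.P.ns_of_D (by rw [h.D]; simpa using L.P.D_ne_zero Q.ns)), rfl⟩

end IsCpl

/-- A completion. -/
structure Cmp (L : PreLoc F) : Type 1 where
  /-- The completed field. -/
  K : Type
  [fld : Field K]
  [chr : CharP K 3]
  /-- The embedding. -/
  f : F →+* K
  /-- The local data of the completion. -/
  L' : PreLoc K
  h : IsCpl L L' f

attribute [instance] Cmp.fld Cmp.chr

namespace Cmp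

variable {L : PreLoc F} (C : Cmp L) (P : PB F) (A : F)

/-- The 3-basis of the completion. -/
noncomputable def Q : PB C.K := (C.h.exists_PB P).choose

lemma Q_b : (C.Q P).b = C.f P.b := (C.h.exists_PB P).choose_spec

lemma f_om : C.L'.om (C.Q P) = C.f (L.om P) := by simp [PreLoc.om, PB.dlg, Q_b, C.h.D]

lemma f_rho (x : F) : C.L'.rho (C.Q P) (C.f x) = L.rho P x := by
  rw [PreLoc.rho_apply, f_om, ← map_mul, C.h.r, PreLoc.rho_apply]

lemma f_pair (x y : F) : C.L'.pair (C.Q P) (C.f A) (C.f x) (C.f y) = L.pair P A x y := by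
  rw [PreLoc.pair_apply, PreLoc.pair_apply, ← C.f_rho P]; simp

lemma f_hh (u : F) : hh (C.Q P) (C.f A) (C.f u) = C.f (hh P A u) := hh_map (C.Q_b P) u

lemma f_wp (t : F) : wp (C.f A) (C.f t) = C.f (wp A t) := by simp [wp]

end Cmp

end gen

variable {k : Type} [Field k] [Finite k] [CharP k 3]

lemma exists_cpl_some (v : HeightOneSpectrum k[X]) : ∃ L' : PreLoc (v.adicCompletion (RatFunc k)),
    IsCpl (pl (some v)) L' (algebraMap _ _) := by
  have hv : ∀ x, Valued.v (algebraMap (RatFunc k) (v.adicCompletion (RatFunc k)) x) =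
      val (some v) x := fun x => HeightOneSpectrum.valuedAdicCompletion_eq_valuation' v x
  have hπ : ord Valued.v (algebraMap (RatFunc k) (v.adicCompletion (RatFunc k))
      (unif (some v))) = 1 := by rw [ord, hv]; exact ord_unif _
  exact exists_isCpl _ _ Valued.v (cpl_of_complete hπ) hv
    (dense_of_denseRange (HeightOneSpectrum.denseRange_algebraMap (RatFunc k) v) hπ)

attribute [-instance] RatFunc.valuedRatFunc in
open RatFunc.CompletionAtInfty in
lemma exists_cpl_none : ∃ L' : PreLoc (RatFunc.CompletionAtInfty k),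
    IsCpl (pl (k := k) none) L' (algebraMap _ _) := by
  let := RatFunc.inftyValued k
  have hv : ∀ x, Valued.v (algebraMap (RatFunc k) (RatFunc.CompletionAtInfty k) x) =
      val none x := fun x => Valued.valuedCompletion_apply x
  have hπ : ord Valued.v (algebraMap (RatFunc k) (RatFunc.CompletionAtInfty k) (unif none)) = 1 := by
    rw [ord, hv]; exact ord_unif _
  have : CompleteSpace (RatFunc.CompletionAtInfty k) :=
    UniformSpace.Completion.completeSpace (RatFunc k)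
  exact exists_isCpl _ _ Valued.v (cpl_of_complete hπ) hv
    (dense_of_denseRange (UniformSpace.Completion.denseRange_coe (α := RatFunc k)) hπ)

/-- The completion at a place. -/
noncomputable def cmp : (v : Pl k) → Cmp (pl v)
  | none => ⟨RatFunc.CompletionAtInfty k, algebraMap _ _, _, exists_cpl_none.choose_spec⟩
  | some v => ⟨v.adicCompletion (RatFunc k), algebraMap _ _, _, (exists_cpl_some v).choose_spec⟩

lemma mem_SelT {P : PB (RatFunc k)} {A s : RatFunc k} :
    s ∈ SelT P A ↔ ∀ v, (cmp v).f s ∈ Lt ((cmp v).Q P) ((cmp v).f A) := by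
  rw [SelT, AddSubgroup.mem_inf, AddSubgroup.mem_iInf, Option.forall]
  exact and_congr (mem_LocT ((cmp none).Q_b P))
    (forall_congr' fun v => mem_LocT ((cmp (some v)).Q_b P))

lemma selThree_eq' {W : WeierstrassCurve (RatFunc k)} {P : PB (RatFunc k)} (h : Nd W P) :
    selThree W = (Cub (RatFunc k)).relIndex (SelT P (nA W)) :=
  selThree_eq h ((cmp none).h.exists_PB P) fun v => (cmp (some v)).h.exists_PB P

lemma SelT_scale {P : PB (RatFunc k)} {A c : RatFunc k} (hc : c ≠ 0) (hA : A ≠ 0) :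
    (SelT P (c ^ 2 * A)).comap (AddMonoidHom.mulLeft (c ^ 3)) = SelT P A := by
  ext s
  simp only [AddSubgroup.mem_comap, AddMonoidHom.coe_mulLeft, mem_SelT, map_mul, map_pow]
  exact forall_congr' fun v => Lt_scale ((_root_.map_ne_zero _).2 hc)
    ((_root_.map_ne_zero _).2 hA)

lemma Cub_scale {c : RatFunc k} (hc : c ≠ 0) :
    (Cub (RatFunc k)).comap (AddMonoidHom.mulLeft (c ^ 3)) = Cub (RatFunc k) := by
  ext s
  simp only [AddSubgroup.mem_comap, AddMonoidHom.coe_mulLeft, mem_Cub]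
  refine ⟨fun ⟨t, ht⟩ => ⟨t / c, ?_⟩, fun ⟨t, ht⟩ => ⟨c * t, by rw [mul_pow, ht]⟩⟩
  rw [div_pow, ht, mul_div_cancel_left₀ _ (pow_ne_zero 3 hc)]

lemma selThree_smul {W : WeierstrassCurve (RatFunc k)} {P : PB (RatFunc k)} (h : Nd W P)
    (C : WeierstrassCurve.VariableChange (RatFunc k)) : selThree (C • W) = selThree W := by
  obtain ⟨h3, h4, h5⟩ := nA_smul h.b2 C
  have hc : ((C.u⁻¹ : (RatFunc k)ˣ) : RatFunc k) ≠ 0 := Units.ne_zero _
  rw [selThree_eq' h, selThree_eq' (W := C • W) ⟨h3, h.hb.trans h4.symm⟩, h5,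
    ← SelT_scale hc h.nA_ne]
  conv_rhs => rw [← Cub_scale hc]
  rw [AddSubgroup.relIndex_comap, AddSubgroup.map_comap_eq_self_of_surjective
    (mul_left_surjective₀ (pow_ne_zero 3 hc))]

end Pool.Agent.Lib.MP_a3f657_nt.Three
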