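import Mathlib

/-!
Duality for elementary abelian 3-groups.
-/

namespace Pool.Agent.Lib.MP_a3f657_nt.Three

variable {G H V : Type} [AddCommGroup G] [AddCommGroup H] [AddCommGroup V]

lemma card_hom (h3 : ∀ x : V, 3 • x = 0) [Finite V] : Nat.card (V →+ ZMod 3) = Nat.card V := by
  let : Module (ZMod 3) V := AddCommGroup.zmodModule h3
  have : Module.Finite (ZMod 3) V := Module.Finite.of_finite
  rw [Nat.card_congr (AddMonoidHom.toZModLinearMapEquiv 3).toEquiv,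
    Module.natCard_eq_pow_finrank (K := ZMod 3), Module.natCard_eq_pow_finrank (K := ZMod 3) (V := V)]
  congr 1
  exact Subspace.dual_finrank_eq

lemma card_three_pow (h3 : ∀ x : V, 3 • x = 0) [Finite V] : ∃ n, Nat.card V = 3 ^ n := by
  let : Module (ZMod 3) V := AddCommGroup.zmodModule h3
  have : Module.Finite (ZMod 3) V := Module.Finite.of_finite
  exact ⟨_, by rw [Module.natCard_eq_pow_finrank (K := ZMod 3), Nat.card_zmod]⟩

lemma exists_sep_hom (h3 : ∀ x : V, 3 • x = 0) (U : AddSubgroup V) {v : V} (hv : v ∉ U) :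
    ∃ χ : V →+ ZMod 3, χ v ≠ 0 ∧ ∀ u ∈ U, χ u = 0 := by
  let : Module (ZMod 3) V := AddCommGroup.zmodModule h3
  obtain ⟨f, h1, h2⟩ := Submodule.exists_le_ker_of_notMem (K := ZMod 3)
    (p := AddSubgroup.toZModSubmodule 3 U) (v := v) hv
  exact ⟨f.toAddMonoidHom, h1, fun u hu => h2 hu⟩

/-- Extension of a character that vanishes on `U ⊓ N` by zero on `N`. -/
lemma exists_ext_hom (h3 : ∀ x : V, 3 • x = 0) (U N : AddSubgroup V) (χ : U →+ ZMod 3)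
    (h : ∀ u : U, u.1 ∈ N → χ u = 0) :
    ∃ χ' : V →+ ZMod 3, (∀ u : U, χ' u = χ u) ∧ ∀ x ∈ N, χ' x = 0 := by
  let : Module (ZMod 3) V := AddCommGroup.zmodModule h3
  let π := (AddSubgroup.toZModSubmodule 3 N).mkQ ∘ₗ (AddSubgroup.toZModSubmodule 3 U).subtype
  let χ₀ : AddSubgroup.toZModSubmodule 3 U →+ ZMod 3 := χ
  have k : χ₀.toZModLinearMap 3 ∈ (LinearMap.ker π).dualAnnihilator :=
    (Submodule.mem_dualAnnihilator _).2 fun u hu =>
      h u ((Submodule.Quotient.mk_eq_zero (AddSubgroup.toZModSubmodule 3 N)).1 hu)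
  rw [← LinearMap.range_dualMap_eq_dualAnnihilator_ker] at k
  obtain ⟨g, hg⟩ := k
  refine ⟨(g ∘ₗ (AddSubgroup.toZModSubmodule 3 N).mkQ).toAddMonoidHom,
    fun u => DFunLike.congr_fun hg u, fun x hx => ?_⟩
  change g (Submodule.Quotient.mk x) = 0
  rw [(Submodule.Quotient.mk_eq_zero (AddSubgroup.toZModSubmodule 3 N)).2 hx, map_zero]

lemma quot_three (h3 : ∀ x : V, 3 • x = 0) (U₁ U₀ : AddSubgroup V)
    (x : U₁ ⧸ U₀.addSubgroupOf U₁) : 3 • x = 0 := by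
  induction x using QuotientAddGroup.induction_on with
  | H z => rw [← QuotientAddGroup.mk_nsmul, show 3 • z = 0 from Subtype.ext (h3 z)]; rfl

lemma relIndex_three_pow (h3 : ∀ x : V, 3 • x = 0) {U₀ U₁ : AddSubgroup V}
    (h : U₀.relIndex U₁ ≠ 0) : ∃ n, U₀.relIndex U₁ = 3 ^ n := by
  have : Finite (U₁ ⧸ U₀.addSubgroupOf U₁) := AddSubgroup.index_ne_zero_iff_finite.1 h
  exact card_three_pow (quot_three h3 U₁ U₀)

/-- The map to the dual of a subquotient induced by a pairing. -/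
def toDual (φ : G →+ H →+ ZMod 3) (G₁ : AddSubgroup G) (H₀ H₁ : AddSubgroup H)
    (h : ∀ g ∈ G₁, ∀ y ∈ H₀, y ∈ H₁ → φ g y = 0) :
    G₁ →+ (H₁ ⧸ H₀.addSubgroupOf H₁) →+ ZMod 3 where
  toFun g := QuotientAddGroup.lift _ ((φ g).comp H₁.subtype) fun y hy => h g g.2 y hy y.2
  map_zero' := by
    ext y
    simp
  map_add' a b := by
    ext y
    simp

lemma toDual_eq_zero {φ : G →+ H →+ ZMod 3} {G₁ : AddSubgroup G} {H₀ H₁ : AddSubgroup H}
    {h : ∀ g ∈ G₁, ∀ y ∈ H₀, y ∈ H₁ → φ g y = 0} {g : G₁} :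
    toDual φ G₁ H₀ H₁ h g = 0 ↔ ∀ y ∈ H₁, φ g y = 0 := by
  refine ⟨fun e y hy => ?_, fun e => ?_⟩
  · exact DFunLike.congr_fun e (QuotientAddGroup.mk ⟨y, hy⟩)
  · ext y
    exact e y y.2

lemma dual_le (h3 : ∀ y : H, 3 • y = 0) (φ : G →+ H →+ ZMod 3) {G₀ G₁ : AddSubgroup G}
    {H₀ H₁ : AddSubgroup H} (hfin : H₀.relIndex H₁ ≠ 0)
    (h : ∀ g ∈ G₁, ∀ y ∈ H₀, y ∈ H₁ → φ g y = 0)
    (hnd : ∀ g ∈ G₁, (∀ y ∈ H₁, φ g y = 0) → g ∈ G₀) :
    G₀.relIndex G₁ ≠ 0 ∧ G₀.relIndex G₁ ≤ Nat.card (toDual φ G₁ H₀ H₁ h).range ∧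
      Nat.card (toDual φ G₁ H₀ H₁ h).range ≤ H₀.relIndex H₁ := by
  have : Finite (H₁ ⧸ H₀.addSubgroupOf H₁) := AddSubgroup.index_ne_zero_iff_finite.1 hfin
  have : Finite ((H₁ ⧸ H₀.addSubgroupOf H₁) →+ ZMod 3) := DFunLike.finite _
  have h1 : (toDual φ G₁ H₀ H₁ h).ker ≤ G₀.addSubgroupOf G₁ := fun g hg =>
    hnd g g.2 (toDual_eq_zero.1 hg)
  have h2 : (toDual φ G₁ H₀ H₁ h).ker.index ≠ 0 := by
    rw [AddSubgroup.index_ker]; exact Nat.card_pos.ne'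
  have : (toDual φ G₁ H₀ H₁ h).ker.FiniteIndex := ⟨h2⟩
  refine ⟨(AddSubgroup.finiteIndex_of_le h1).1, ?_, ?_⟩
  · rw [← AddSubgroup.index_ker]
    exact AddSubgroup.index_antitone h1
  · exact (Nat.card_le_card_of_injective _ Subtype.val_injective).trans
      (card_hom (quot_three h3 H₁ H₀)).le

lemma dual_surj (h3 : ∀ y : H, 3 • y = 0) (φ : G →+ H →+ ZMod 3) {G₀ G₁ : AddSubgroup G}
    {H₀ H₁ : AddSubgroup H} (hfin : H₀.relIndex H₁ ≠ 0)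
    (h : ∀ g ∈ G₁, ∀ y ∈ H₀, y ∈ H₁ → φ g y = 0)
    (hnd : ∀ g ∈ G₁, (∀ y ∈ H₁, φ g y = 0) → g ∈ G₀) (hle : H₀.relIndex H₁ ≤ G₀.relIndex G₁) :
    Function.Surjective (toDual φ G₁ H₀ H₁ h) := by
  have : Finite (H₁ ⧸ H₀.addSubgroupOf H₁) := AddSubgroup.index_ne_zero_iff_finite.1 hfin
  have : Finite ((H₁ ⧸ H₀.addSubgroupOf H₁) →+ ZMod 3) := DFunLike.finite _
  rw [← AddMonoidHom.range_eq_top]
  refine AddSubgroup.eq_top_of_le_card _ ?_
  rw [card_hom (quot_three h3 H₁ H₀)]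
  exact hle.trans (dual_le h3 φ hfin h hnd).2.1

lemma dual_rep (h3 : ∀ y : H, 3 • y = 0) (φ : G →+ H →+ ZMod 3) {G₀ G₁ : AddSubgroup G}
    {H₀ H₁ : AddSubgroup H} (hfin : H₀.relIndex H₁ ≠ 0)
    (h : ∀ g ∈ G₁, ∀ y ∈ H₀, y ∈ H₁ → φ g y = 0)
    (hnd : ∀ g ∈ G₁, (∀ y ∈ H₁, φ g y = 0) → g ∈ G₀) (hle : H₀.relIndex H₁ ≤ G₀.relIndex G₁)
    (χ : H₁ →+ ZMod 3) (hχ : ∀ y : H₁, y.1 ∈ H₀ → χ y = 0) :
    ∃ g ∈ G₁, ∀ y : H₁, φ g y = χ y := by
  obtain ⟨g, hg⟩ := dual_surj h3 φ hfin h hnd hle (QuotientAddGroup.lift _ χ hχ)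
  exact ⟨g, g.2, fun y => DFunLike.congr_fun hg (QuotientAddGroup.mk y)⟩

/-- The characters that vanish on `U`. -/
def ann (U : AddSubgroup V) : AddSubgroup (V →+ ZMod 3) where
  carrier := {χ | ∀ u ∈ U, χ u = 0}
  zero_mem' _ _ := rfl
  add_mem' ha hb u hu := by rw [AddMonoidHom.add_apply, ha u hu, hb u hu, add_zero]
  neg_mem' ha u hu := by rw [AddMonoidHom.neg_apply, ha u hu, neg_zero]

lemma card_ann (h3 : ∀ x : V, 3 • x = 0) [Finite V] (U : AddSubgroup V) :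
    Nat.card (ann U) * Nat.card U = Nat.card V := by
  have h2 : ∀ x : V ⧸ U, 3 • x = 0 := fun x => by
    induction x using QuotientAddGroup.induction_on with
    | H z => rw [← QuotientAddGroup.mk_nsmul, h3]; rfl
  rw [← U.index_mul_card, AddSubgroup.index_eq_card, ← card_hom h2]
  congr 1
  refine Nat.card_congr ⟨fun χ => QuotientAddGroup.lift U χ.1 χ.2,
    fun χ => ⟨χ.comp (QuotientAddGroup.mk' U), fun u hu => by
      simp [(QuotientAddGroup.eq_zero_iff u).2 hu]⟩, fun χ => ?_, fun χ => ?_⟩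
  · ext; simp
  · ext; simp

/-- The radical of a pairing on the subgroup `S`. -/
def rad (ψ : V →+ V →+ ZMod 3) (S : AddSubgroup V) : AddSubgroup V where
  carrier := {v | v ∈ S ∧ ∀ w ∈ S, ψ v w = 0}
  zero_mem' := ⟨zero_mem _, by simp⟩
  add_mem' ha hb := ⟨add_mem ha.1 hb.1, fun w hw => by simp [ha.2 w hw, hb.2 w hw]⟩
  neg_mem' ha := ⟨neg_mem ha.1, fun w hw => by simp [ha.2 w hw]⟩

lemma relIndex_alt (ψ : V →+ V →+ ZMod 3) (hψ : ∀ v, ψ v v = 0) (S : AddSubgroup V)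
    (h0 : (rad ψ S).relIndex S ≠ 0) : ∃ i, (rad ψ S).relIndex S = 9 ^ i := by
  have sym : ∀ v w, ψ v w = -ψ w v := fun v w => by
    have := hψ (v + w)
    simp only [map_add, AddMonoidHom.add_apply, hψ] at this
    linear_combination this
  induction hn : (rad ψ S).relIndex S using Nat.strong_induction_on generalizing S with
  | _ n ih =>
  by_cases h : ∀ v ∈ S, ∀ w ∈ S, ψ v w = 0
  · exact ⟨0, by rw [← hn]; exact AddSubgroup.relIndex_eq_one.2 fun v hv => ⟨hv, h v hv⟩⟩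
  push Not at h
  obtain ⟨a, ha, b, hb, hab1⟩ : ∃ a ∈ S, ∃ b ∈ S, ψ a b = 1 := by
    obtain ⟨a, ha, b, hb, hab⟩ := h
    have k : ∀ c : ZMod 3, c ≠ 0 → c = 1 ∨ -c = 1 := by decide
    rcases k _ hab with j | j
    · exact ⟨a, ha, b, hb, j⟩
    · exact ⟨b, hb, a, ha, by rw [sym, j]⟩
  have hba1 : ψ b a = -1 := by rw [sym, hab1]
  let f : V →+ ZMod 3 × ZMod 3 := (ψ a).prod (ψ b)
  have e1 : S.map f = ⊤ := by
    rw [eq_top_iff]
    rintro ⟨x, y⟩ -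
    refine ⟨x.val • b - y.val • a, sub_mem (nsmul_mem hb _) (nsmul_mem ha _), ?_⟩
    simp [f, hψ, hab1, hba1]
  have e2 : (f.ker ⊓ S).relIndex S = 9 := by
    rw [AddSubgroup.inf_relIndex_right, AddSubgroup.relIndex_ker, e1]; simp
  have e4 : rad ψ (f.ker ⊓ S) = rad ψ S := by
    refine le_antisymm (fun v hv => ?_) fun v hv => ?_
    · refine ⟨hv.1.2, fun w hw => ?_⟩
      have h1 : ψ a v = 0 ∧ ψ b v = 0 := Prod.ext_iff.1 hv.1.1
      have := hv.2 (w + (ψ b w).val • a - (ψ a w).val • b) ⟨by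
        simp [f, hψ, hab1, hba1],
        S.sub_mem (add_mem hw (nsmul_mem ha _)) (nsmul_mem hb _)⟩
      simpa [sym v a, sym v b, h1.1, h1.2] using this
    · refine ⟨⟨?_, hv.1⟩, fun w hw => hv.2 w hw.2⟩
      simp [f, sym a v, sym b v, hv.2 a ha, hv.2 b hb]
  have e3 := AddSubgroup.relIndex_mul_relIndex (rad ψ (f.ker ⊓ S)) (f.ker ⊓ S) S
    (fun _ h => h.1) inf_le_right
  rw [e2] at e3
  conv_rhs at e3 => rw [e4]
  obtain ⟨i, hi⟩ := ih _ (by omega) (f.ker ⊓ S) (by omega) rfl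
  exact ⟨i + 1, by rw [← hn, ← e3, hi, pow_succ]⟩

lemma relIndex_ne_of_rep {H₀ H₁ : AddSubgroup G} {s : Set G} (hs : s.Finite)
    (h : ∀ x ∈ H₁, ∃ y ∈ s, x - y ∈ H₀) : H₀.relIndex H₁ ≠ 0 := by
  rw [← QuotientAddGroup.ker_mk' H₀, AddSubgroup.relIndex_ker]
  have : Finite (H₁.map (QuotientAddGroup.mk' H₀)) := by
    refine (hs.image (QuotientAddGroup.mk' H₀)).subset ?_
    rintro _ ⟨x, hx, rfl⟩
    obtain ⟨y, hy, e⟩ := h x hx
    exact ⟨y, hy, (QuotientAddGroup.eq_iff_sub_mem.2 e).symm⟩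
  exact Nat.card_pos.ne'

lemma relIndex_le_of_fun {G₀ G₁ : AddSubgroup G} {H₀ H₁ : AddSubgroup H}
    (hG : G₀.relIndex G₁ ≠ 0) (f : H → G) (h1 : ∀ a ∈ H₁, f a ∈ G₁)
    (h2 : ∀ a ∈ H₁, ∀ b ∈ H₁, f a - f b ∈ G₀ → a - b ∈ H₀) : H₀.relIndex H₁ ≤ G₀.relIndex G₁ := by
  have : Finite (G₁ ⧸ G₀.addSubgroupOf G₁) := AddSubgroup.index_ne_zero_iff_finite.1 hG
  refine Nat.card_le_card_of_injective (β := G₁ ⧸ G₀.addSubgroupOf G₁)
    (fun c : H₁ ⧸ H₀.addSubgroupOf H₁ => QuotientAddGroup.mk ⟨f c.out.1, h1 _ c.out.2⟩)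
    fun a b e => ?_
  rw [← a.out_eq, ← b.out_eq]
  have e1 := QuotientAddGroup.eq_iff_sub_mem.1 e
  exact QuotientAddGroup.eq_iff_sub_mem.2 (h2 _ a.out.2 _ b.out.2 e1)

/-- The relative index of product subgroups. -/
lemma relIndex_pi {ι : Type} [Fintype ι] {Z : ι → Type} [∀ i, AddCommGroup (Z i)]
    (U₀ U₁ : ∀ i, AddSubgroup (Z i)) :
    (AddSubgroup.pi Set.univ U₀).relIndex (AddSubgroup.pi Set.univ U₁) =
      ∏ i, (U₀ i).relIndex (U₁ i) := by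
  let e : (∀ i, U₁ i) →+ ∀ i, Z i :=
    AddMonoidHom.pi fun i => (U₁ i).subtype.comp (Pi.evalAddMonoidHom (fun i => U₁ i) i)
  have e1 : e.range = AddSubgroup.pi Set.univ U₁ := by
    ext x
    exact ⟨by rintro ⟨y, rfl⟩ i -; exact (y i).2, fun hx => ⟨fun i => ⟨x i, hx i trivial⟩, rfl⟩⟩
  have e2 : (AddSubgroup.pi Set.univ U₀).comap e =
      AddSubgroup.pi Set.univ fun i => (U₀ i).addSubgroupOf (U₁ i) := rfl
  rw [← e1, ← AddSubgroup.index_comap, e2]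
  simp_rw [AddSubgroup.relIndex, AddSubgroup.index, ← Nat.card_pi]
  refine Nat.card_congr
    ((Quotient.congrRight fun x y => ?_).trans (Setoid.piQuotientEquiv _).symm)
  rw [QuotientAddGroup.leftRel_pi]

/-- Kernel and cokernel of a map that is the identity on the graded pieces of a filtration. -/
lemma card_ker_eq (Ω : AddSubgroup V) (F : ℕ → AddSubgroup V) (h : V →+ V) [Finite (F 0)]
    (h1 : ∀ n, F n ≤ Ω) (h2 : Monotone F) (h3 : ∀ u ∈ Ω, ∃ n, u ∈ F n)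
    (h4 : ∀ u ∈ F 0, h u ∈ F 0) (h5 : ∀ n, ∀ u ∈ F (n + 1), u - h u ∈ F n) :
    (Ω.map h).relIndex Ω ≠ 0 ∧ Nat.card (Ω ⊓ h.ker : AddSubgroup V) = (Ω.map h).relIndex Ω := by
  have a1 : ∀ n, ∀ u ∈ F n, h u ∈ F n := by
    rintro (_ | n) u hu
    · exact h4 u hu
    · simpa using sub_mem hu (h2 n.le_succ (h5 n u hu))
  have a2 : ∀ n, ∀ u ∈ F n, u ∈ F 0 ⊔ Ω.map h := by
    intro n
    induction n with
    | zero => exact fun u hu => AddSubgroup.mem_sup_left hu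
    | succ n ih =>
      intro u hu
      simpa using add_mem (ih _ (h5 n u hu)) (AddSubgroup.mem_sup_right ⟨u, h1 _ hu, rfl⟩)
  have a3 : ∀ n, ∀ u ∈ F n, h u ∈ F 0 → u ∈ F 0 := by
    intro n
    induction n with
    | zero => exact fun u hu _ => hu
    | succ n ih =>
      intro u hu k
      exact ih u (by simpa using add_mem (h5 n u hu) (h2 n.zero_le k)) k
  have b1 : F 0 ⊔ Ω.map h = Ω := by
    refine le_antisymm (sup_le (h1 0) ?_) fun u hu => (h3 u hu).elim fun n k => a2 n u k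
    rintro _ ⟨u, hu, rfl⟩
    exact (h3 u hu).elim fun n k => h1 n (a1 n u k)
  have b2 : Ω.map h ⊓ F 0 = (F 0).map h := by
    refine le_antisymm ?_ ?_
    · rintro _ ⟨⟨u, hu, rfl⟩, k⟩
      exact ⟨u, (h3 u hu).elim fun n j => a3 n u j k, rfl⟩
    · rintro _ ⟨u, hu, rfl⟩
      exact ⟨⟨u, h1 0 hu, rfl⟩, h4 u hu⟩
  have b3 : Ω ⊓ h.ker = h.ker ⊓ F 0 := by
    refine le_antisymm (fun u hu => ⟨hu.2, (h3 u hu.1).elim fun n j => a3 n u j ?_⟩)
      fun u hu => ⟨h1 0 hu.2, hu.1⟩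
    rw [show h u = 0 from hu.2]
    exact zero_mem _
  have b4 : (Ω.map h).relIndex Ω = ((F 0).map h).relIndex (F 0) := by
    rw [← b2, AddSubgroup.inf_relIndex_right, ← AddSubgroup.relIndex_sup_right (F 0), b1]
  have c0 : ∀ K : AddSubgroup V, K ≤ F 0 → Nat.card K * K.relIndex (F 0) = Nat.card (F 0) := by
    intro K hK
    rw [AddSubgroup.relIndex, ← Nat.card_congr (AddSubgroup.addSubgroupOfEquivOfLe hK).toEquiv,
      AddSubgroup.card_mul_index]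
  have c1 := c0 _ (inf_le_right (a := h.ker))
  have c2 := c0 ((F 0).map h) (b2 ▸ inf_le_right)
  rw [AddSubgroup.inf_relIndex_right, AddSubgroup.relIndex_ker] at c1
  have c3 : 0 < Nat.card (F 0) := Nat.card_pos
  have c4 : Nat.card ((F 0).map h) ≠ 0 := fun k => by rw [k] at c2; omega
  rw [b4, b3]
  refine ⟨fun k => by rw [k] at c2; omega, mul_left_cancel₀ c4 ?_⟩
  rw [c2, mul_comm, c1]

end Pool.Agent.Lib.MP_a3f657_nt.Three
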