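import Pool.Agent.Lib.MP_a3f657_nt.C3Loc
import Pool.Agent.Lib.MP_a3f657_nt.C3Tri

/-!
The formal group.
-/

set_option linter.unusedSectionVars false

namespace Pool.Agent.Lib.MP_a3f657_nt.Three

open Pool.Agent.Lib.MP_a3f657_nt.Two

open WeierstrassCurve WeierstrassCurve.Affine

open scoped Classical

variable {K : Type} [Field K] [CharP K 3]

/-- The parameter of the formal group. -/
noncomputable def sP (W : WeierstrassCurve K) (R : W.toAffine.Point) : K := xP W R / yP W R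

/-- The level `n` is large. -/
structure Big (L : PreLoc K) (W : WeierstrassCurve K) (P : PB K) (n : ℤ) : Prop where
  nd : Nd W P
  h1 : 1 ≤ 2 * n + 3 * ord L.w (nA W)
  h2 : 1 ≤ 6 * n + 9 * ord L.w (nA W) + ord L.w P.b

/-- The point is close to the origin. -/
def Near (L : PreLoc K) (W : WeierstrassCurve K) (n : ℤ) (R : W.toAffine.Point) : Prop :=
  R = 0 ∨ (xP W R ≠ 0 ∧ 3 * ord L.w (nA W) + ord L.w (xP W R) ≤ -(2 * n))

variable {L : PreLoc K} {W : WeierstrassCurve K} {P : PB K} {n N : ℤ} {R S : W.toAffine.Point}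

@[simp] lemma sP_zero : sP W 0 = 0 := by simp [sP]

lemma sP_neg (R : W.toAffine.Point) : sP W (-R) = -sP W R := by simp [sP, div_neg]

lemma Near.mono (h : Near L W N R) (hn : n ≤ N) : Near L W n R :=
  h.imp id fun h => ⟨h.1, by have := h.2; omega⟩

lemma Near.neg (h : Near L W n R) : Near L W n (-R) :=
  h.imp (fun h => by simp [h]) fun h => by simpa using h

lemma not_near (h : ¬Near L W n R) : xP W R ∈ Fil L.w (1 - 2 * n - 3 * ord L.w (nA W)) := by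
  by_contra hn
  obtain ⟨h1, h2⟩ := not_mem_Fil.1 hn
  exact h (Or.inr ⟨h1, by omega⟩)

lemma sum_alg {A B x₁ x₂ x₃ y₁ y₂ y₃ μ ν : K} (hA : A ≠ 0) (h1 : y₁ ≠ 0) (h2 : y₂ ≠ 0)
    (h3 : y₃ ≠ 0) (l1 : y₁ = μ * x₁ + ν) (l2 : y₂ = μ * x₂ + ν) (l3 : -y₃ = μ * x₃ + ν)
    (e1 : A ^ 3 * (x₁ + x₂ + x₃ + 1) = μ ^ 2) (e2 : A ^ 3 * (x₁ * x₂ + x₁ * x₃ + x₂ * x₃) = μ * ν)
    (e3 : A ^ 3 * (x₁ * x₂ * x₃ + B) = ν ^ 2) :
    x₃ / y₃ - (x₁ / y₁ + x₂ / y₂) =
      -(A ^ 3 * (x₁ / y₁ * (x₂ / y₂) * (x₃ / y₃)) + A ^ 3 * B / y₁ / y₂ / y₃) := by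
  have e4 : μ * ν * (x₁ * x₂ + x₁ * x₃ + x₂ * x₃) = (x₁ + x₂ + x₃ + 1) * ν ^ 2 := by
    refine mul_left_cancel₀ (pow_ne_zero 3 hA) ?_
    linear_combination μ * ν * e2 - ν ^ 2 * e1
  have e5 : x₁ * y₂ * -y₃ + x₂ * y₁ * -y₃ + x₃ * y₁ * y₂ + A ^ 3 * (x₁ * x₂ * x₃ + B) = 0 := by
    rw [l3, l1, l2, e3]
    linear_combination (-1 : K) * e4 + (μ ^ 2 * (x₁ * x₂ * x₃) +
      μ * ν * (x₁ * x₂ + x₁ * x₃ + x₂ * x₃)) * three_eq (K := K)
  field_simp
  linear_combination e5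

lemma kd_alg {A x y : K} (hc : OnC A P.b x y) (hA : A ≠ 0) (hx : x ≠ 0) (hy : y ≠ 0) :
    P.dl (P.ku x y) - A ^ 3 * (x / y) =
      P.dl ((A ^ 3 * x ^ 2 * P.dl (x / y) - A ^ 3 * P.b * x / y) / (x ^ 3 + P.b) -
        A ^ 3 * P.b / x / y - P.b * y / x ^ 3) + (-(A * P.c0 (x / y))) ^ 3 := by
  have hb := cube_add_b_ne P x
  have e1 : P.dl x = x / y * P.dl y + y * P.dl (x / y) := by
    rw [← P.dl_mul, div_mul_cancel₀ _ hy]
  have e2 := hc.y_dl
  have e3 : y ^ 2 = A ^ 3 * (x ^ 3 + x ^ 2 + P.b) := hc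
  have e4 : P.dl x * y = x * P.dl y + y ^ 2 * P.dl (x / y) := by
    conv_lhs => rw [e1]
    field_simp
  have e5 : A ^ 3 * P.dl x / y - A ^ 3 * P.dl (x / y) =
      (A ^ 3 * x ^ 2 * P.dl (x / y) - A ^ 3 * P.b * x / y) / (x ^ 3 + P.b) := by
    rw [eq_div_iff hb]
    refine mul_left_cancel₀ hy ?_
    rw [mul_sub y, mul_div_cancel₀ _ hy, ← mul_assoc, mul_sub y, mul_div_cancel₀ _ hy]
    linear_combination y * e4 + x * e2 + (y * P.dl (x / y) - P.dl x) * e3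
  have e6 : P.ku x y = (y / (A * x)) ^ 3 + A ^ 3 * P.dl (x / y) +
      ((A ^ 3 * x ^ 2 * P.dl (x / y) - A ^ 3 * P.b * x / y) / (x ^ 3 + P.b) -
        A ^ 3 * P.b / x / y - P.b * y / x ^ 3) := by
    rw [eq_add_of_sub_eq (hc.ku_sub_cube hA hx hy), ← e5]
    field_simp
    ring
  rw [e6, map_add, map_add, P.dl_mul, P.dl_dl, PB.dl_cube, PB.dl_cube]
  ring

namespace Big

variable (h : Big L W P n)
include h

lemma mono (hn : n ≤ N) : Big L W P N := ⟨h.nd, by have := h.h1; omega, by have := h.h2; omega⟩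

lemma ord_y (hR : Near L W n R) (h0 : R ≠ 0) : yP W R ≠ 0 ∧
    2 * ord L.w (yP W R) = 3 * ord L.w (nA W) + 3 * ord L.w (xP W R) := by
  obtain ⟨hx, ho⟩ := hR.resolve_left h0
  have h1 := h.h1
  have h2 := h.h2
  have e : yP W R ^ 2 = nA W ^ 3 * (xP W R ^ 3 + (xP W R ^ 2 + P.b)) := by
    rw [← add_assoc]; exact h.nd.onC h0
  obtain ⟨h3, h4⟩ := ord_add (w := L.w) (pow_ne_zero 3 hx) (y := xP W R ^ 2 + P.b)
    (add_mem (mem_Fil_of_le (by rw [ord_sq, ord_cube]; omega))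
      (mem_Fil_of_le (by rw [ord_cube]; omega)))
  have h5 := pow_ne_zero 3 h.nd.nA_ne
  refine ⟨fun e0 => mul_ne_zero h5 h3 (by rw [← e, e0]; ring), ?_⟩
  rw [← ord_sq, e, ord_mul h5 h3, h4, ord_cube, ord_cube]

lemma near_add (hR : Near L W n R) (hS : Near L W n S) : Near L W n (R + S) := by
  by_cases hR0 : R = 0
  · simpa [hR0] using hS
  by_cases hS0 : S = 0
  · simpa [hS0] using hR
  by_cases hRS : R + S = 0
  · exact Or.inl hRS
  obtain ⟨hx1, ho1⟩ := hR.resolve_left hR0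
  obtain ⟨hx2, ho2⟩ := hS.resolve_left hS0
  have h1 := h.h1
  have h2 := h.h2
  obtain ⟨μ, ν, -, -, -, e1, e2, e3⟩ := h.nd.line hR0 hS0 hRS
  by_contra hn
  have h3 := not_near hn
  have h5 := pow_ne_zero 3 h.nd.nA_ne
  have m1 := mem_Fil_ord (w := L.w) (xP W R)
  have m2 := mem_Fil_ord (w := L.w) (xP W S)
  have h6 := ord_mul (w := L.w) hx1 hx2
  generalize xP W R = x₁ at *
  generalize xP W S = x₂ at *
  generalize xP W (R + S) = x₃ at *
  have e : (x₁ * x₂ + (x₁ * x₃ + x₂ * x₃)) ^ 2 = (x₁ + x₂ + x₃ + 1) * (x₁ * x₂ * x₃ + P.b) := by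
    refine mul_left_cancel₀ (pow_ne_zero 2 h5) ?_
    rw [← mul_pow, ← add_assoc, e2, mul_pow, ← e1, ← e3]
    ring
  obtain ⟨h7, h8⟩ := ord_add (w := L.w) (mul_ne_zero hx1 hx2) (y := x₁ * x₃ + x₂ * x₃)
    (add_mem (Fil.mul m1 h3 (by omega)) (Fil.mul m2 h3 (by omega)))
  have h9 : (x₁ + x₂ + x₃ + 1) * (x₁ * x₂ * x₃ + P.b) ∈
      Fil L.w (2 * ord L.w x₁ + 2 * ord L.w x₂ + 1) :=
    Fil.mul (a := min (ord L.w x₁) (ord L.w x₂))
      (b := ord L.w x₁ + ord L.w x₂ + max (ord L.w x₁) (ord L.w x₂) + 1)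
      (add_mem (add_mem (add_mem (Fil.mono m1 (by omega)) (Fil.mono m2 (by omega)))
        (Fil.mono h3 (by omega))) (Fil.one (by omega)))
      (add_mem (Fil.mul (Fil.mul m1 m2 le_rfl) h3 (by omega)) (mem_Fil_of_le (by omega)))
      (by omega)
  rw [← e, mem_Fil_iff (pow_ne_zero 2 h7), ord_sq] at h9
  omega

/-- The points close to the origin. -/
def EE : AddSubgroup W.toAffine.Point where
  carrier := {R | Near L W n R}
  zero_mem' := Or.inl rfl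
  add_mem' := h.near_add
  neg_mem' := Near.neg

lemma mem_EE : R ∈ h.EE ↔ Near L W n R := Iff.rfl

lemma y_bdd : ∃ c, ∀ R, ¬Near L W n R → yP W R ∈ Fil L.w c := by
  refine ⟨-(6 * (ord L.w (nA W)).natAbs + 3 * n.natAbs + (ord L.w P.b).natAbs), fun R hR => ?_⟩
  have h1 := h.h1
  have h3 := not_near hR
  have e : yP W R ^ 2 = _ := h.nd.onC fun e => hR (Or.inl e)
  refine Fil.of_sq
    (a := -(12 * (ord L.w (nA W)).natAbs + 6 * n.natAbs + (ord L.w P.b).natAbs)) ?_ (by omega)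
  rw [e]
  exact Fil.mul (Fil_cube (mem_Fil_ord _) le_rfl) (add_mem (add_mem
    (Fil_cube h3 (c := -(9 * (ord L.w (nA W)).natAbs + 6 * n.natAbs + (ord L.w P.b).natAbs))
      (by omega)) (Fil.sq h3 (by omega))) (mem_Fil_of_le (by omega))) (by omega)

lemma close : ∃ M, ∀ R S, ¬Near L W n R → ¬Near L W n S → xP W R - xP W S ∈ Fil L.w M →
    yP W R - yP W S ∈ Fil L.w M → Near L W n (R - S) := by
  refine ⟨9 * (ord L.w (nA W)).natAbs + (ord L.w P.b).natAbs + n.natAbs + 1,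
    fun R S hR hS hx hy => ?_⟩
  by_contra hT
  have h1 := h.h1
  have hR0 : R ≠ 0 := fun e => hR (Or.inl e)
  have hS0 : -S ≠ 0 := fun e => hS (Or.inl (neg_eq_zero.1 e))
  obtain ⟨μ, ν, l1, l2, -, e1, e2, -⟩ := h.nd.line hR0 hS0 fun e =>
    hT (Or.inl (by rwa [sub_eq_add_neg]))
  rw [← sub_eq_add_neg] at e1 e2
  rw [xP_neg] at l2 e1 e2
  rw [yP_neg] at l2
  have e3 : yP W R ^ 2 = _ := h.nd.onC hR0
  have m1 := not_near hR
  have m2 := not_near hS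
  have m3 := not_near hT
  have hA := pow_ne_zero 3 h.nd.nA_ne
  have oA := ord_cube (w := L.w) (nA W)
  have mA := mem_Fil_ord (w := L.w) (nA W ^ 3)
  have h3 := three_eq (K := K)
  generalize xP W R = x₁ at *
  generalize xP W S = x₂ at *
  generalize xP W (R - S) = x₃ at *
  generalize yP W R = y₁ at *
  generalize yP W S = y₂ at *
  generalize nA W ^ 3 = a at *
  have hμ : μ ∈ Fil L.w (-n.natAbs) := by
    refine Fil.of_sq (a := -(2 * n.natAbs)) ?_ (by omega)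
    rw [← e1]
    exact Fil.mul mA (add_mem (add_mem (add_mem m1 m2) m3) (Fil.one (by omega))) (by omega)
  have hy1 : y₁ ∈ Fil L.w (3 * (ord L.w (nA W)).natAbs + (ord L.w P.b).natAbs + 1) := by
    rw [show y₁ = -(μ * (x₁ - x₂) + (y₁ - y₂)) by linear_combination -l1 + l2 + y₁ * h3]
    exact neg_mem (add_mem (Fil.mul hμ hx (by omega)) (Fil.mono hy (by omega)))
  have hx1 : x₁ ∈ Fil L.w (3 * (ord L.w (nA W)).natAbs + (ord L.w P.b).natAbs + 1) := by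
    refine Fil.of_mul (y := a)
      (a := 6 * (ord L.w (nA W)).natAbs + (ord L.w P.b).natAbs + 1) ?_ hA (by omega)
    rw [show x₁ * a = a * (x₁ - x₂) ^ 2 - a * (x₁ - x₂) - μ * (y₁ - y₂) by
      rw [l1, show y₂ = -(μ * x₂ + ν) by rw [← l2, neg_neg]]
      linear_combination (-(x₁ + x₂)) * e1 - 2 * e2 +
        (a * x₁ + a * x₃ * (x₁ + x₂) + 2 * a * x₁ * x₂) * h3]
    exact sub_mem (sub_mem (Fil.mul mA (Fil.sq hx le_rfl) (by omega)) (Fil.mul mA hx (by omega)))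
      (Fil.mul hμ hy (by omega))
  have hb : a * P.b ∈ Fil L.w (3 * ord L.w (nA W) + ord L.w P.b + 1) := by
    rw [show a * P.b = y₁ ^ 2 - a * (x₁ ^ 3 + x₁ ^ 2) by linear_combination -e3]
    exact sub_mem (Fil.sq hy1 (by omega)) (Fil.mul mA (add_mem
      (Fil_cube hx1 (c := (ord L.w P.b).natAbs + 1) (by omega)) (Fil.sq hx1 (by omega))) (by omega))
  rw [mem_Fil_iff (mul_ne_zero hA P.b_ne), ord_mul hA P.b_ne] at hb
  omega

lemma index_EE : h.EE.index ≠ 0 := by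
  obtain ⟨M, hM⟩ := h.close
  obtain ⟨c, hc⟩ := h.y_bdd
  rw [← AddSubgroup.relIndex_top_right]
  let G₁ := Fil L.w (1 - 2 * n - 3 * ord L.w (nA W)) ⧸
    (Fil L.w M).addSubgroupOf (Fil L.w (1 - 2 * n - 3 * ord L.w (nA W)))
  let G₂ := Fil L.w c ⧸ (Fil L.w M).addSubgroupOf (Fil L.w c)
  have : Finite G₁ := AddSubgroup.index_ne_zero_iff_finite.1 (L.relIndex_Fil_ne _ _)
  have : Finite G₂ := AddSubgroup.index_ne_zero_iff_finite.1 (L.relIndex_Fil_ne _ _)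
  let g : W.toAffine.Point → Option (G₁ × G₂) := fun R =>
    if hR : Near L W n R then none
    else some (QuotientAddGroup.mk ⟨_, not_near hR⟩, QuotientAddGroup.mk ⟨_, hc R hR⟩)
  refine relIndex_ne_of_rep (Set.finite_range (Function.invFun g)) fun R _ =>
    ⟨_, ⟨g R, rfl⟩, ?_⟩
  have e : g R = g (Function.invFun g (g R)) := (Function.invFun_eq ⟨R, rfl⟩).symm
  generalize Function.invFun g (g R) = S at e
  by_cases hR : Near L W n R <;> by_cases hS : Near L W n S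
  · exact sub_mem (h.mem_EE.2 hR) (h.mem_EE.2 hS)
  · simp [g, hR, hS] at e
  · simp [g, hR, hS] at e
  · simp only [g, hR, hS, dite_false, Option.some.injEq, Prod.mk.injEq] at e
    have e1 := QuotientAddGroup.eq_iff_sub_mem.1 e.1
    have e2 := QuotientAddGroup.eq_iff_sub_mem.1 e.2
    exact hM R S hR hS e1 e2

lemma near_iff (hR : Near L W n R) (hn : n ≤ N) : Near L W N R ↔ sP W R ∈ Fil L.w N := by
  by_cases h0 : R = 0
  · simp [h0, Near]
  obtain ⟨hx, ho⟩ := hR.resolve_left h0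
  obtain ⟨hy, h1⟩ := h.ord_y hR h0
  rw [sP, mem_Fil_iff (div_ne_zero hx hy), ord_div hx hy]
  exact ⟨fun h2 => by have := (h2.resolve_left h0).2; omega, fun h2 => Or.inr ⟨hx, by omega⟩⟩

lemma sP_mem (hR : Near L W n R) : sP W R ∈ Fil L.w n := (h.near_iff hR le_rfl).1 hR

lemma sP_add (hR : Near L W n R) (hS : Near L W N S) (hn : n ≤ N) :
    sP W (R + S) - (sP W R + sP W S) ∈ Fil L.w (N + 1) := by
  by_cases hR0 : R = 0
  · simp [hR0]
  by_cases hS0 : S = 0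
  · simp [hS0]
  by_cases hRS : R + S = 0
  · simp [eq_neg_of_add_eq_zero_left hRS, sP_neg]
  have hT := h.near_add hR (hS.mono hn)
  obtain ⟨hy1, o1⟩ := h.ord_y hR hR0
  obtain ⟨hy2, o2⟩ := h.ord_y (hS.mono hn) hS0
  obtain ⟨hy3, o3⟩ := h.ord_y hT hRS
  have p1 := (hR.resolve_left hR0).2
  have p2 := (hS.resolve_left hS0).2
  have p3 := (hT.resolve_left hRS).2
  have m1 := h.sP_mem hR
  have m2 := (h.mono hn).sP_mem hS
  have m3 := h.sP_mem hT
  have h1 := h.h1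
  have h2 := h.h2
  obtain ⟨μ, ν, l1, l2, l3, e1, e2, e3⟩ := h.nd.line hR0 hS0 hRS
  have e : sP W (R + S) - (sP W R + sP W S) =
      -(nA W ^ 3 * (sP W R * sP W S * sP W (R + S)) +
        nA W ^ 3 * P.b / yP W R / yP W S / yP W (R + S)) :=
    sum_alg h.nd.nA_ne hy1 hy2 hy3 l1 l2 l3 e1 e2 e3
  have mA := Fil_cube (mem_Fil_ord (w := L.w) (nA W)) le_rfl
  rw [e]
  exact neg_mem (add_mem (Fil.mul mA (Fil.mul (Fil.mul m1 m2 le_rfl) m3 le_rfl) (by omega))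
    (Fil.div (Fil.div (Fil.div (Fil.mul mA (mem_Fil_ord _) le_rfl) le_rfl) le_rfl) (by omega)))

lemma near_sub (hR : Near L W n R) (hS : Near L W n S) (hn : n ≤ N) :
    Near L W N (R - S) ↔ sP W R - sP W S ∈ Fil L.w N := by
  have hT : Near L W n (R - S) := h.mem_EE.1 (sub_mem (h.mem_EE.2 hR) (h.mem_EE.2 hS))
  have key : ∀ M, n ≤ M → Near L W M (R - S) →
      sP W R - sP W S - sP W (R - S) ∈ Fil L.w (M + 1) := fun M hM hTM => by
    have := h.sP_add hS hTM hM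
    rwa [add_sub_cancel, ← sub_sub] at this
  refine ⟨fun h1 => ?_, fun h1 => ?_⟩
  · simpa using add_mem (Fil.mono (key N hn h1) (b := N) (by omega)) ((h.mono hn).sP_mem h1)
  rw [h.near_iff hT hn]
  by_contra h2
  obtain ⟨h3, h4⟩ := not_mem_Fil.1 h2
  have h5 := (mem_Fil_iff h3).1 (h.sP_mem hT)
  have h6 := sub_mem (Fil.mono h1 (b := ord L.w (sP W (R - S)) + 1) (by omega))
    (key _ h5 ((h.near_iff hT h5).2 (mem_Fil_ord _)))
  rw [sub_sub_cancel, mem_Fil_iff h3] at h6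
  omega

lemma exists_pt (hc : Cpl L.w) {σ : K} (hσ : σ ∈ Fil L.w n) : ∃ R, Near L W n R ∧ sP W R = σ := by
  by_cases h0 : σ = 0
  · exact ⟨0, Or.inl rfl, by simp [h0]⟩
  have h1 := h.h1
  have h2 := h.h2
  have h3 := (mem_Fil_iff h0).1 hσ
  have hA := pow_ne_zero 3 h.nd.nA_ne
  have mA := Fil_cube (mem_Fil_ord (w := L.w) (nA W)) le_rfl
  obtain ⟨h4, h5⟩ := ord_one_add (neg_mem (Fil.mul mA (Fil.sq hσ le_rfl) (c := 1) (by omega)))
  have h6 : nA W ^ 3 * σ ^ 3 / (1 + -(nA W ^ 3 * σ ^ 2)) ≠ 0 :=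
    div_ne_zero (mul_ne_zero hA (pow_ne_zero 3 h0)) h4
  have h7 : ord L.w (nA W ^ 3 * σ ^ 3 / (1 + -(nA W ^ 3 * σ ^ 2))) =
      3 * ord L.w (nA W) + 3 * ord L.w σ := by
    rw [ord_div (mul_ne_zero hA (pow_ne_zero 3 h0)) h4, ord_mul hA (pow_ne_zero 3 h0), h5,
      ord_cube, ord_cube, sub_zero]
  have h8 : nA W ^ 3 * P.b / (1 + -(nA W ^ 3 * σ ^ 2)) ∈
      Fil L.w (1 - 2 * (3 * ord L.w (nA W) + 3 * ord L.w σ)) :=
    Fil.div (Fil.mul mA (mem_Fil_ord _) le_rfl) (by omega)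
  obtain ⟨τ, hτ, e⟩ := hc.fix4 (c₂ := 0) (c₄ := 0) (mem_Fil_of_le h7.ge) (zero_mem _) h8
    (zero_mem _)
  simp only [zero_mul, add_zero] at e
  obtain ⟨h9, h10⟩ := ord_add (w := L.w) h6 (Fil.mul h8 (Fil_cube hτ le_rfl) (by omega))
  rw [e] at h9 h10
  have e' : τ = nA W ^ 3 * (σ ^ 3 + σ ^ 2 * τ + P.b * τ ^ 3) := by
    rw [div_mul_eq_mul_div, ← add_div, div_eq_iff h4] at e
    linear_combination -e
  obtain ⟨R, -, ex, ey⟩ := h.nd.exists_pt (x := σ / τ) (y := 1 / τ) (by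
    unfold OnC
    field_simp
    linear_combination e')
  refine ⟨R, Or.inr ⟨ex ▸ div_ne_zero h0 h9, ?_⟩, ?_⟩
  · rw [ex, ord_div h0 h9]
    omega
  · rw [sP, ex, ey]
    field_simp

lemma three_near (hR : Near L W n R) : Near L W (3 * n + 3 * ord L.w (nA W)) (3 • R) := by
  by_cases h0 : R = 0
  · exact Or.inl (by rw [h0, nsmul_zero])
  obtain ⟨hx, ho⟩ := hR.resolve_left h0
  have h1 := h.h1
  have h2 := h.h2
  have h3 := ord_cube (w := L.w) (xP W R)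
  obtain ⟨h4, h5⟩ := ord_add (w := L.w) (pow_ne_zero 3 hx) (y := P.b) (mem_Fil_of_le (by omega))
  have h6 := ord_cube (w := L.w) (xP W R ^ 3 + P.b)
  obtain ⟨h7, h8⟩ := ord_add (w := L.w) (pow_ne_zero 3 h4) (y := -(P.b * xP W R ^ 3))
    (neg_mem (Fil.mul (mem_Fil_ord _) (mem_Fil_ord _) (by omega)))
  rw [← sub_eq_add_neg] at h7 h8
  refine Or.inr ?_
  rw [(h.nd.three h0).2]
  refine ⟨div_ne_zero h7 (pow_ne_zero 2 h4), ?_⟩
  rw [ord_div h7 (pow_ne_zero 2 h4), ord_sq]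
  omega

lemma le_relIndex (hc : Cpl L.w) (hn : n ≤ N) :
    L.Q ^ (N - n).toNat ≤ (h.mono hn).EE.relIndex h.EE := by
  choose! f hf hf' using fun σ => h.exists_pt hc (σ := σ)
  rw [← L.relIndex_Fil' hn]
  refine relIndex_le_of_fun (fun e0 => (h.mono hn).index_EE
    (AddSubgroup.index_eq_zero_of_relIndex_eq_zero e0)) f hf fun a ha b hb hab => ?_
  rw [← hf' a ha, ← hf' b hb]
  exact (h.near_sub (hf a ha) (hf b hb) hn).1 hab

end Big

lemma Nd.exists_big (h : Nd W P) (L : PreLoc K) : ∃ n₀, Big L W P n₀ := by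
  exact ⟨3 * (ord L.w (nA W)).natAbs + (ord L.w P.b).natAbs + 1, h, by omega, by omega⟩

/-- The leading term of the descent map on the formal group. -/
lemma Nd.kd_near (h : Nd W P) (L : PreLoc K) : ∃ n₀, ∀ n, n₀ ≤ n → ∀ R, Near L W n R →
    h.kd R - nA W ^ 3 * sP W R ∈ L.FF (n + 3 * ord L.w (nA W) + 1) := by
  refine ⟨9 * (ord L.w (nA W)).natAbs + (ord L.w P.b).natAbs + 2 * (ord L.w (L.om P)).natAbs + 3,
    fun n hn R hR => ?_⟩
  by_cases h0 : R = 0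
  · simp [h0]
  have hB : Big L W P n := ⟨h, by omega, by omega⟩
  obtain ⟨hx, ho⟩ := hR.resolve_left h0
  obtain ⟨hy, oy⟩ := hB.ord_y hR h0
  have hc := h.onC h0
  have hA := h.nA_ne
  have h3 := ord_cube (w := L.w) (xP W R)
  obtain ⟨h4, h5⟩ := ord_add (w := L.w) (pow_ne_zero 3 hx) (y := P.b) (mem_Fil_of_le (by omega))
  have e := kd_alg hc hA hx hy
  have mA := Fil_cube (mem_Fil_ord (w := L.w) (nA W)) le_rfl
  have mx := mem_Fil_ord (w := L.w) (xP W R)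
  have my := mem_Fil_ord (w := L.w) (yP W R)
  have mb := mem_Fil_ord (w := L.w) P.b
  have ms := L.dl_mem P (Fil.div (y := yP W R) mx le_rfl) le_rfl
  rw [h.kd_apply, kuP, sP, e]
  refine add_mem (AddSubgroup.mem_sup_left (L.dl_mem P
    (a := n + 3 * ord L.w (nA W) + 2 + ord L.w (L.om P)) ?_ (by omega)))
    (AddSubgroup.mem_sup_right (cube_mem _))
  refine sub_mem (sub_mem (Fil.div (a := n + 3 * ord L.w (nA W) + 2 + ord L.w (L.om P) +
    3 * ord L.w (xP W R)) (sub_mem ?_ ?_) (by omega)) ?_) ?_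
  · exact Fil.mul (Fil.mul mA (Fil.sq mx le_rfl) le_rfl) ms (by omega)
  · exact Fil.div (Fil.mul (Fil.mul mA mb le_rfl) mx le_rfl) (by omega)
  · exact Fil.div (Fil.div (Fil.mul mA mb le_rfl) le_rfl) (by omega)
  · exact Fil.div (Fil.mul mb my le_rfl) (by omega)

lemma Nd.y_near (h : Nd W P) (L : PreLoc K) (hc : Cpl L.w) : ∃ n₀, ∀ n, n₀ ≤ n → ∀ R,
    Near L W n R → yP W R ∈ WP (nA W) := by
  refine ⟨9 * (ord L.w (nA W)).natAbs + (ord L.w P.b).natAbs + 1, fun n hn R hR => ?_⟩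
  by_cases h0 : R = 0
  · simp [h0]
  have hB : Big L W P n := ⟨h, by omega, by omega⟩
  obtain ⟨hx, ho⟩ := hR.resolve_left h0
  obtain ⟨hy, oy⟩ := hB.ord_y hR h0
  have e := (h.onC h0).sub_wp h.nA_ne hx
  have h3 := ord_cube (w := L.w) (xP W R)
  have h4 : P.b * yP W R / xP W R ^ 3 ∈ WP (nA W) :=
    Fil_le_WP hc h.nA_ne (a := n) (by omega)
      (Fil.div (Fil.mul (mem_Fil_ord _) (mem_Fil_ord _) le_rfl) (by omega))
  rw [eq_add_of_sub_eq e]
  exact add_mem (neg_mem h4) (mem_WP.2 ⟨_, rfl⟩)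

end Pool.Agent.Lib.MP_a3f657_nt.Three
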