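import Pool.Agent.Lib.MP_a3f657_nt.C3CellAlg

/-!
The density statement.
-/

namespace Pool.Agent.Lib.MP_a3f657_nt.Three

open Pool.Agent.Lib.MP_a3f657_nt.Two

open Polynomial Filter Topology

open scoped Classical

lemma fin_ind (e : ZMod 2) (c : ℝ) : ∃ σ : ℝ, |σ| = |c| / 2 ∧ ∀ r m : ℕ, m = 3 ^ r →
    (if ∃ n : ℕ, m = 3 ^ n ∧ (n : ZMod 2) = e then c else 0) - c / 2 = σ * (-1) ^ r := by
  have h1 : ∀ r m : ℕ, m = 3 ^ r → ((∃ n : ℕ, m = 3 ^ n ∧ (n : ZMod 2) = e) ↔ (r : ZMod 2) = e) :=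
    fun r m h => ⟨fun ⟨_, h1, h2⟩ => Nat.pow_right_injective (by norm_num : 2 ≤ 3)
      (h.symm.trans h1) ▸ h2, fun h1 => ⟨r, h, h1⟩⟩
  have h2 : ∀ x : ZMod 2, x = 0 ∨ x = 1 := by decide
  refine ⟨if e = 0 then c / 2 else -(c / 2), by split_ifs <;> simp [abs_div], fun r m h => ?_⟩
  rw [if_congr (h1 r m h) rfl rfl]
  rcases Nat.even_or_odd r with hr | hr
  · rw [hr.neg_one_pow, (ZMod.natCast_eq_zero_iff_even).2 hr]
    rcases h2 e with rfl | rfl
    · rw [if_pos rfl, if_pos rfl]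
      ring
    · rw [if_neg (by decide), if_neg (by decide)]
      ring
  · rw [hr.neg_one_pow, (ZMod.natCast_eq_one_iff_odd).2 hr]
    rcases h2 e with rfl | rfl
    · rw [if_neg (by decide), if_pos rfl]
      ring
    · rw [if_pos rfl, if_neg (by decide)]
      ring

theorem parity_dens (hR : CellRed) (hA : CellAn) (k : Type) [Field k] [Fintype k] [CharP k 3]
    (e : ZMod 2) :
    Tendsto (dens (k := k) fun W => ∃ n : ℕ, selThree W = 3 ^ n ∧ (n : ZMod 2) = e) atTop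
      (𝓝 (1 / 2)) := by
  have key : ∀ c : ℝ, |c| = 1 → ∀ ε : ℝ, 0 < ε → ∀ᶠ d : ℕ in atTop, ∑ _i : Unit,
      c * dens (k := k) (fun W => ∃ n : ℕ, selThree W = 3 ^ n ∧ (n : ZMod 2) = e) d ≤
        c / 2 + ε := fun c hc => by
    refine hR k Unit Finset.univ _ (fun _ => c) (c / 2) (fun _ C a h1 h2 => ?_) ?_
    · obtain ⟨P, hP⟩ := exists_nd h1 h2
      rw [selThree_smul hP]
    obtain ⟨T₀, hT⟩ := hA k
    obtain ⟨σ, hσ, hσ2⟩ := fin_ind e c
    refine ⟨T₀, fun T hT₀ β ε hε => ?_⟩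
    filter_upwards [hT T hT₀ β ε hε, cellAlg (k := k) T β] with d H1 H2 a h1 h2 h3
    obtain ⟨s, hs, H3⟩ := H2 a h1 h2 h3
    have H4 := H1 a h1 h2 h3
    rw [Finset.sum_congr rfl fun t ht => show _ = σ * s * ∏ p ∈ bigP T (shift T β a t).Δ,
      -leg a.b₂ p by
        obtain ⟨r, h4, h5⟩ := H3 t (Finset.mem_filter.1 ht).1 (Finset.mem_filter.1 ht).2
        rw [mul_assoc, ← h5, ← hσ2 r _ h4, Finset.univ_unique, Finset.sum_singleton],
      ← Finset.mul_sum]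
    refine (le_abs_self _).trans ?_
    rw [abs_mul, abs_mul, hσ, hs, hc]
    linarith [abs_nonneg (∑ t ∈ cell T β d a with GoodQ T (shift T β a t),
      ∏ p ∈ bigP T (shift T β a t).Δ, -leg a.b₂ p)]
  refine tendsto_order.2 ⟨fun b hb => ?_, fun b hb => ?_⟩
  · filter_upwards [key (-1) (by simp) ((1 / 2 - b) / 2) (by linarith)] with d hd
    simp only [Finset.univ_unique, Finset.sum_singleton] at hd
    linarith
  · filter_upwards [key 1 (by simp) ((b - 1 / 2) / 2) (by linarith)] with d hd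
    simp only [Finset.univ_unique, Finset.sum_singleton] at hd
    linarith

end Pool.Agent.Lib.MP_a3f657_nt.Three
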