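import Pool.Agent.Lib.MP_a3f657_nt.C3Ld

/-!
The local images at good, multiplicative and supersingular places.
-/

set_option linter.unusedSectionVars false

namespace Pool.Agent.Lib.MP_a3f657_nt.Three

open Pool.Agent.Lib.MP_a3f657_nt.Two

open scoped Classical

variable {K : Type} [Field K] [CharP K 3] {L : PreLoc K} {P P' : PB K} {A u : K}

lemma li_ord {B x y : K} (h : OnC A B x y) (hA : A ≠ 0) (hx : x ≠ 0) (h0 : ord L.w x < 0)
    (hB : B ∈ Fil L.w 0) : y ≠ 0 ∧ 2 * ord L.w y = 3 * ord L.w A + 3 * ord L.w x := by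
  have h1 := ord_add (w := L.w) (x := x ^ 3) (y := x ^ 2 + B) (pow_ne_zero 3 hx) (by
    rw [ord_cube]
    exact add_mem (Fil.sq (mem_Fil_ord x) (by omega)) (Fil.mono hB (by omega)))
  rw [← add_assoc, ord_cube] at h1
  have h2 : y ^ 2 = A ^ 3 * (x ^ 3 + x ^ 2 + B) := h
  refine ⟨fun e => mul_ne_zero (pow_ne_zero 3 hA) h1.1 (by rw [← h2, e]; ring), ?_⟩
  rw [← ord_sq, h2, ord_mul (pow_ne_zero 3 hA) h1.1, h1.2, ord_cube]

lemma li_D_om (x : K) : P.D x * L.om P = L.P.D x / P.b := by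
  rw [← L.dl_mul_om P, PB.dl_apply, eq_div_iff P.b_ne]
  ring

lemma Lt_good (hA : A ≠ 0) (h0 : ord L.w A = 0) (hB : ord L.w P.b = 0) (h : u ∈ Lt P A) :
    ∃ t, (u - t ^ 3) * L.om P ∈ Fil L.w 0 ∧ hh P A (u - t ^ 3) ∈ Fil L.w 0 := by
  have hA0 : A ∈ Fil L.w 0 := mem_Fil_of_le h0.ge
  have hb0 : P.b ∈ Fil L.w 0 := mem_Fil_of_le hB.ge
  have hom := L.om_int P hB
  rcases (mem_Lt hA).1 h with ⟨t, rfl⟩ | ⟨x, y, hxy, t, ht⟩
  · exact ⟨t, by simp, by simp⟩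
  have ht' : t ^ 3 = u - P.ku x y := ht
  by_cases hx : x ∈ Fil L.w 0
  · have hy : y ∈ Fil L.w 0 := by
      refine Fil.of_sq (a := 0) ?_ (by omega)
      rw [show y ^ 2 = _ from hxy]
      exact Fil.mul (Fil_cube hA0 le_rfl) (add_mem (add_mem (Fil_cube hx (by omega))
        (Fil.sq hx (by omega))) hb0) (by omega)
    refine ⟨t, ?_, ?_⟩
    · rw [ht', sub_sub_cancel, show P.ku x y * L.om P = y * L.om P + y * (P.D x * L.om P) -
        (x ^ 2 + x) * (P.D y * L.om P) by unfold PB.ku; ring, li_D_om, li_D_om]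
      exact sub_mem (add_mem (Fil.mul hy hom le_rfl)
        (Fil.mul hy (Fil.div (PreLoc.D_int hx) (c := 0) (by omega)) le_rfl))
        (Fil.mul (add_mem (Fil.sq hx (by omega)) hx) (Fil.div (PreLoc.D_int hy) (c := 0) (by omega))
          le_rfl)
    · rwa [ht', sub_sub_cancel, hh_ku hA hxy]
  · obtain ⟨hx0, hx1⟩ := not_mem_Fil.1 hx
    obtain ⟨hy0, hy1⟩ := li_ord hxy hA hx0 hx1 hb0
    have e : u - (t + y / (A * x)) ^ 3 = P.ku x y - (y / (A * x)) ^ 3 := by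
      rw [cube_add, ht']; ring
    have h3 : P.b * y / x ^ 3 ∈ Fil L.w 0 :=
      Fil.div (Fil.mul hb0 (mem_Fil_ord y) le_rfl) (by rw [ord_cube]; omega)
    refine ⟨t + y / (A * x), ?_, ?_⟩
    · rw [e, hxy.ku_sub_cube hA hx0 hy0, show (A ^ 3 * (x * P.dl x - P.b) / (x * y) -
        P.b * y / x ^ 3) * L.om P = A ^ 3 * ((P.dl x * L.om P) / y - P.b * L.om P / (x * y)) -
          P.b * y / x ^ 3 * L.om P by field_simp, L.dl_mul_om]
      refine sub_mem (Fil.mul (Fil_cube hA0 le_rfl) (sub_mem ?_ ?_) (b := 0) (by omega))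
        (Fil.mul h3 hom le_rfl)
      · exact Fil.div (PreLoc.D_mem (mem_Fil_ord x) le_rfl) (by omega)
      · exact Fil.div (Fil.mul hb0 hom le_rfl) (by rw [ord_mul hx0 hy0]; omega)
    · rw [e, map_sub, hh_ku hA hxy, hh_cube, hxy.sub_wp hA hx0]
      exact neg_mem h3

lemma li_int (hA : A ≠ 0) (h0 : ord L.w A = 0) (hB : ord L.w P.b = 0) (h : u ∈ Lt P A)
    (h2 : hh P A u ∈ Fil L.w 0) : u * L.om P ∈ Fil L.w 0 := by
  obtain ⟨t, h3, h4⟩ := Lt_good hA h0 hB h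
  have h5 : wp A t ∈ Fil L.w 0 := by
    have := sub_mem h2 h4
    rwa [map_sub, sub_sub_cancel, hh_cube] at this
  have h6 := Fil_of_wp (mem_Fil_of_le h0.ge) h5
  have := add_mem h3 (Fil.mul (Fil_cube h6 le_rfl) (L.om_int P hB) (by omega))
  rwa [← add_mul, sub_add_cancel] at this

lemma li_pair (h0 : ord L.w A = 0) {α : K} (h1 : α ∈ Fil L.w 0) (h2 : u * L.om P ∈ Fil L.w 0) :
    L.pair P A α u = 0 := by
  rw [PreLoc.pair_apply, PreLoc.rho_apply,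
    show α * u / A ^ 3 * L.om P = α * (u * L.om P) / A ^ 3 by ring]
  exact L.r_int _ (Fil.div (Fil.mul h1 h2 le_rfl) (by rw [ord_cube]; omega))

lemma good_mem_Lt (hc : Cpl L.w) (hA : A ≠ 0) (h0 : ord L.w A = 0) (hB : ord L.w P.b = 0)
    (h1 : u * L.om P ∈ Fil L.w 0) (h2 : hh P A u ∈ Fil L.w 0) : u ∈ Lt P A := by
  have h3 : hh P A u ∈ AA P A := AA_of_orth hc hA fun v hv =>
    li_pair h0 h2 (li_int hA h0 hB hv.1 (by
      rw [show hh P A v = 0 from hv.2]; exact zero_mem _))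
  obtain ⟨l, hl, e⟩ := h3
  have h4 : u - l ∈ Log P A := by
    rw [Log, AddMonoidHom.mem_ker, map_sub, e, sub_self]
  have h5 : (u - l) * L.om P ∈ Fil L.w 0 := by
    rw [sub_mul]
    exact sub_mem h1 (li_int hA h0 hB hl (e ▸ h2))
  have h6 : u - l ∈ BB P A := BB_of_orth hc hA h4 (by
    rintro _ ⟨l', hl', rfl⟩
    obtain ⟨t, -, ht⟩ := Lt_good hA h0 hB hl'
    rw [show hh P A l' = hh P A (l' - t ^ 3) + wp A t by rw [map_sub, hh_cube, sub_add_cancel],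
      map_add, AddMonoidHom.add_apply, li_pair h0 ht h5, L.pair_WP P hA (mem_WP.2 ⟨t, rfl⟩) h4,
      add_zero])
  simpa using add_mem h6.1 hl

lemma AA_mult (hc : Cpl L.w) (hA : A ≠ 0) (h0 : ord L.w A = 0) (hB : ord L.w P.b = 1) :
    AA P A = WP A := by
  refine le_antisymm (fun α hα => ?_) WP_le_AA
  rcases (mem_AA hA).1 hα with h | ⟨x, y, hxy, h⟩
  · exact h
  suffices hy : y ∈ WP A by simpa using add_mem h hy
  have h2 : y ^ 2 = A ^ 3 * (x ^ 3 + x ^ 2 + P.b) := hxy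
  by_cases hx : x ∈ Fil L.w 1
  · exfalso
    have h1 := ord_add (w := L.w) (x := P.b) (y := x ^ 3 + x ^ 2) P.b_ne (by
      rw [hB]
      exact add_mem (Fil_cube hx (by omega)) (Fil.sq hx (by omega)))
    rw [add_comm] at h1
    have h3 := congrArg (ord L.w) h2
    rw [ord_sq, ord_mul (pow_ne_zero 3 hA) h1.1, h1.2, ord_cube] at h3
    omega
  obtain ⟨hx0, hx1⟩ := not_mem_Fil.1 hx
  have hb1 : P.b ∈ Fil L.w 1 := mem_Fil_of_le hB.ge
  have hy : y ∈ Fil L.w (3 * ord L.w x) := by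
    refine Fil.of_sq (a := 3 * ord L.w x) ?_ (by omega)
    rw [h2]
    exact Fil.mul (Fil_cube (mem_Fil_ord A) le_rfl) (add_mem (add_mem
      (Fil_cube (mem_Fil_ord x) le_rfl) (Fil.sq (mem_Fil_ord x) (by omega)))
      (Fil.mono hb1 (by omega))) (by omega)
  have h3 : y - wp A (y / (A * x)) ∈ WP A := by
    rw [hxy.sub_wp hA hx0]
    exact Fil_le_WP hc hA (a := 1) (by omega)
      (neg_mem (Fil.div (Fil.mul hb1 hy le_rfl) (by rw [ord_cube]; omega)))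
  simpa using add_mem h3 (mem_WP.2 ⟨y / (A * x), rfl⟩)

lemma li_onC (hA : A ≠ 0) {B b₄ b₆ : K} (hb : A ^ 6 * B = A ^ 3 * b₆ - A ^ 2 * b₄ ^ 2 - b₄ ^ 3)
    (X : K) : A ^ 3 * (((X + b₄ / A) / A) ^ 3 + ((X + b₄ / A) / A) ^ 2 + B) =
      X ^ 3 + A * X ^ 2 - b₄ * X + b₆ := by
  have h3 : (3 : K) = 0 := three_eq
  field_simp
  linear_combination hb + (A ^ 2 * X ^ 2 * b₄ + A * X * b₄ ^ 2 + A ^ 3 * X * b₄) * h3

lemma li_sub_wp {b₄ b₆ X y : K} (hX : X ≠ 0) (h : y ^ 2 = X ^ 3 + A * X ^ 2 - b₄ * X + b₆) :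
    y - wp A (y / X) = b₄ * y / X ^ 2 - b₆ * y / X ^ 3 := by
  unfold wp
  field_simp
  linear_combination (-y) * h

lemma AA_ss (hc : Cpl L.w) (h1 : ord L.w A = 1) {b₄ b₆ : K} (h4 : b₄ ≠ 0) (h4' : ord L.w b₄ = 0)
    (h6 : b₆ ∈ Fil L.w 0) (hb : A ^ 6 * P.b = A ^ 3 * b₆ - A ^ 2 * b₄ ^ 2 - b₄ ^ 3) :
    AA P A = Fil L.w 0 ⊔ WP A := by
  have hA : A ≠ 0 := by rintro rfl; simp at h1
  have hA1 : A ∈ Fil L.w 1 := mem_Fil_of_le h1.ge
  have h40 : b₄ ∈ Fil L.w 0 := mem_Fil_of_le h4'.ge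
  have hW : Fil L.w 2 ≤ WP A := Fil_le_WP hc hA (by omega)
  refine le_antisymm (fun α hα => ?_) (sup_le (fun z hz => ?_) WP_le_AA)
  · rcases (mem_AA hA).1 hα with h | ⟨x, y, hxy, h⟩
    · exact AddSubgroup.mem_sup_right h
    suffices hy : y ∈ Fil L.w 0 ⊔ WP A by simpa using add_mem (AddSubgroup.mem_sup_right h) hy
    obtain ⟨X, rfl⟩ : ∃ X, x = (X + b₄ / A) / A := ⟨A * x - b₄ / A, by field_simp; ring⟩
    have h2 : y ^ 2 = X ^ 3 + A * X ^ 2 - b₄ * X + b₆ := by rw [← li_onC hA hb]; exact hxy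
    by_cases hX : X ∈ Fil L.w 0
    · refine AddSubgroup.mem_sup_left (Fil.of_sq (a := 0) ?_ (by omega))
      rw [h2]
      exact add_mem (sub_mem (add_mem (Fil_cube hX (by omega))
        (Fil.mul hA1 (Fil.sq hX le_rfl) (by omega))) (Fil.mul h40 hX le_rfl)) h6
    obtain ⟨hX0, hX1⟩ := not_mem_Fil.1 hX
    have hXo := mem_Fil_ord (w := L.w) X
    have hy : y ∈ Fil L.w (2 * ord L.w X) := by
      refine Fil.of_sq (a := 3 * ord L.w X) ?_ (by omega)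
      rw [h2]
      exact add_mem (sub_mem (add_mem (Fil_cube hXo le_rfl)
        (Fil.mul hA1 (Fil.sq hXo le_rfl) (by omega))) (Fil.mul h40 hXo (by omega)))
        (Fil.mono h6 (by omega))
    have h3 : y - wp A (y / X) ∈ Fil L.w 0 := by
      rw [li_sub_wp hX0 h2]
      exact sub_mem (Fil.div (Fil.mul h40 hy le_rfl) (by rw [ord_sq]; omega))
        (Fil.div (Fil.mul h6 hy le_rfl) (by rw [ord_cube]; omega))
    simpa using add_mem (AddSubgroup.mem_sup_left (T := WP A) h3)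
      (AddSubgroup.mem_sup_right (mem_WP.2 ⟨y / X, rfl⟩))
  · have key : ∀ z ∈ Fil L.w 1, z ∈ AA P A := by
      intro z hz
      by_cases hz2 : z ∈ Fil L.w (1 + 1)
      · exact WP_le_AA (hW hz2)
      obtain ⟨hz0, hz1⟩ := ord_eq_of hz hz2
      obtain ⟨s, rfl⟩ : ∃ s, z = b₄ * s := ⟨z / b₄, by field_simp⟩
      have hs0 : s ≠ 0 := right_ne_zero_of_mul hz0
      have hs1 : ord L.w s = 1 := by rw [ord_mul h4 hs0] at hz1; omega
      have hs : s ∈ Fil L.w 1 := mem_Fil_of_le hs1.ge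
      obtain ⟨hd0, hd1⟩ := ord_one_add (w := L.w) (y := -(A * s ^ 2))
        (neg_mem (Fil.mul hA1 (Fil.sq hs le_rfl) (by omega)))
      obtain ⟨τ, hτ, e⟩ := hc.fix4 (a := 3) (c₀ := s ^ 3 / (1 + -(A * s ^ 2)))
        (c₂ := -(b₄ * s) / (1 + -(A * s ^ 2))) (c₃ := b₆ / (1 + -(A * s ^ 2))) (c₄ := 0)
        (Fil.div (Fil_cube hs le_rfl) (by omega)) (Fil.div (neg_mem hz) (by omega))
        (Fil.div h6 (by omega)) (zero_mem _)
      have e1 : τ = s ^ 3 + A * s ^ 2 * τ - b₄ * s * τ ^ 2 + b₆ * τ ^ 3 := by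
        obtain ⟨d, hd⟩ : ∃ d, d = 1 + -(A * s ^ 2) := ⟨_, rfl⟩
        rw [← hd] at e hd0
        field_simp at e
        linear_combination -e - τ * hd
      have hτ0 : τ ≠ 0 := by
        rintro rfl
        exact pow_ne_zero 3 hs0 (by linear_combination -e1)
      have h2 : (1 / τ) ^ 2 = (s / τ) ^ 3 + A * (s / τ) ^ 2 - b₄ * (s / τ) + b₆ := by
        field_simp
        linear_combination e1
      have h3 : 1 / τ ∈ AA P A := (mem_AA hA).2 (Or.inr ⟨(s / τ + b₄ / A) / A, 1 / τ, by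
        unfold OnC; rw [li_onC hA hb]; exact h2, by simp⟩)
      have h5 := sub_mem h3 (WP_le_AA (mem_WP.2 ⟨1 / τ / (s / τ), rfl⟩))
      rw [li_sub_wp (div_ne_zero hs0 hτ0) h2] at h5
      have h7 : b₄ * s - (b₄ * (1 / τ) / (s / τ) ^ 2 - b₆ * (1 / τ) / (s / τ) ^ 3) ∈ Fil L.w 2 := by
        rw [show b₄ * s - (b₄ * (1 / τ) / (s / τ) ^ 2 - b₆ * (1 / τ) / (s / τ) ^ 3) =
          b₆ * τ ^ 2 / s ^ 3 - b₄ * (A * s ^ 2 * τ - b₄ * s * τ ^ 2 + b₆ * τ ^ 3) / s ^ 2 by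
            field_simp
            linear_combination (-(b₄ * s)) * e1]
        refine sub_mem (Fil.div (Fil.mul h6 (Fil.sq hτ le_rfl) le_rfl) (by rw [ord_cube]; omega))
          (Fil.div (Fil.mul h40 (b := 4) ?_ le_rfl) (by rw [ord_sq]; omega))
        exact add_mem (sub_mem (Fil.mul (Fil.mul hA1 (Fil.sq hs le_rfl) le_rfl) hτ (by omega))
          (Fil.mul hz (Fil.sq hτ le_rfl) (by omega))) (Fil.mul h6 (Fil_cube hτ le_rfl) (by omega))
      simpa using add_mem (WP_le_AA (hW h7)) h5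
    have h2 : z - wp A (L.P.c0 z) ∈ Fil L.w 1 := by
      rw [show z - wp A (L.P.c0 z) = L.P.b * L.P.c1 z ^ 3 + L.P.b ^ 2 * L.P.c2 z ^ 3 +
        A * L.P.c0 z by unfold wp; linear_combination L.P.spec z]
      exact add_mem (add_mem
        (Fil.mul L.π_mem (Fil_cube (PreLoc.c1_mem hz (c := 0) (by omega)) le_rfl) (by omega))
        (Fil.mul (Fil.sq L.π_mem le_rfl) (Fil_cube (PreLoc.c2_mem hz (c := 0) (by omega)) le_rfl)
          (by omega))) (Fil.mul hA1 (PreLoc.c0_mem hz (c := 0) (by omega)) (by omega))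
    simpa using add_mem (key _ h2) (WP_le_AA (mem_WP.2 ⟨L.P.c0 z, rfl⟩))

lemma li_near (hc : Cpl L.w) (hA : A ≠ 0) (h : P.b - P'.b ∈ Fil L.w 1) : AA P' A ≤ AA P A := by
  intro α hα
  rcases (mem_AA hA).1 hα with h1 | ⟨x, y, hxy, h1⟩
  · exact WP_le_AA h1
  by_cases hy : y = 0
  · exact WP_le_AA (by simpa [hy] using h1)
  by_cases h2 : 3 * ord L.w A + 1 ≤ 2 * ord L.w y
  · exact WP_le_AA (by simpa using add_mem h1 (Fil_le_WP hc hA h2 (mem_Fil_ord y)))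
  obtain ⟨z, hz, e⟩ := exists_sq_one_add hc (x := A ^ 3 * (P.b - P'.b) / y ^ 2)
    (a := 3 * ord L.w A + 1 - 2 * ord L.w y)
    (Fil.div (Fil.mul (Fil_cube (mem_Fil_ord A) le_rfl) h le_rfl) (by rw [ord_sq])) (by omega)
  have h3 : y ^ 2 = A ^ 3 * (x ^ 3 + x ^ 2 + P'.b) := hxy
  refine (mem_AA hA).2 (Or.inr ⟨x, y * (1 + z), ?_, ?_⟩)
  · unfold OnC
    rw [mul_pow, e, mul_add, mul_div_cancel₀ _ (pow_ne_zero 2 hy)]
    linear_combination h3
  · have h4 : y * z ∈ WP A := Fil_le_WP hc hA (by omega) (Fil.mul (mem_Fil_ord y) hz le_rfl)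
    have := sub_mem h1 h4
    rwa [show α - y - y * z = α - y * (1 + z) by ring] at this

lemma AA_near (hc : Cpl L.w) (hA : A ≠ 0) (h : P'.b - P.b ∈ Fil L.w 1) : AA P' A = AA P A :=
  le_antisymm (li_near hc hA (by simpa using neg_mem h)) (li_near hc hA h)

/-- The local sign. -/
noncomputable def sgn (P : PB K) (A : K) : ℝ :=
  (-1) ^ Nat.log 3 ((WP A).relIndex (AA P A) * Nat.card (wpH A).ker)

lemma sgn_congr (h : AA P' A = AA P A) : sgn P' A = sgn P A := by rw [sgn, h, sgn]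

lemma abs_sgn (P : PB K) (A : K) : |sgn P A| = 1 := by simp [sgn]

lemma exists_fac (L : PreLoc K) (hc : Cpl L.w) (P : PB K) (hA : A ≠ 0) :
    ∃ e, (WP A).relIndex (AA P A) * Nat.card (wpH A).ker = 3 ^ e ∧ sgn P A = (-1) ^ e := by
  obtain ⟨n, hn⟩ := relIndex_three_pow three_K (relIndex_AA_ne L hc P hA)
  obtain ⟨e, he⟩ : ∃ e, (WP A).relIndex (AA P A) * Nat.card (wpH A).ker = 3 ^ e := by
    rw [hn, card_ker_wpH hA]
    split_ifs
    · exact ⟨n + 1, rfl⟩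
    · exact ⟨n, mul_one _⟩
  exact ⟨e, he, by rw [sgn, he, Nat.log_pow (by norm_num)]⟩

lemma sgn_mult (hc : Cpl L.w) (hA : A ≠ 0) (h0 : ord L.w A = 0) (hB : ord L.w P.b = 1) :
    sgn P A = if IsSquare A then -1 else 1 := by
  rw [sgn, AA_mult hc hA h0 hB, AddSubgroup.relIndex_self, one_mul, card_ker_wpH hA]
  split_ifs
  · rw [show Nat.log 3 3 = 1 from Nat.log_pow (by norm_num) 1, pow_one]
  · simp

end Pool.Agent.Lib.MP_a3f657_nt.Three
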