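import Pool.Agent.Lib.MP_a3f657_nt.C3Cpl
import Pool.Agent.Lib.MP_a3f657_nt.C3Li
import Pool.Agent.Lib.MP_a3f657_nt.C3Abs

/-!
Global duality on the projective line.
-/

set_option linter.unusedSectionVars false

namespace Pool.Agent.Lib.MP_a3f657_nt.Three

open Pool.Agent.Lib.MP_a3f657_nt.Two

open Polynomial IsDedekindDomain

open scoped Classical

variable {k : Type} [Field k] [Finite k] [CharP k 3]

/-- The functions that are regular outside `S`. -/
noncomputable def OS (S : Finset (Pl k)) : AddSubgroup (RatFunc k) := ⨅ v ∉ S, Fil (val v) 0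

/-- The functions `u` such that `u dB / B` is regular outside `S`. -/
noncomputable def OmS (P : PB (RatFunc k)) (S : Finset (Pl k)) : AddSubgroup (RatFunc k) :=
  (OS S).comap (AddMonoidHom.mulRight ((PX k).dlg P.b))

/-- Good ordinary reduction outside `S`. -/
structure GoodOut (P : PB (RatFunc k)) (A : RatFunc k) (S : Finset (Pl k)) : Prop where
  inf : none ∈ S
  ne : A ≠ 0
  hA : ∀ v ∉ S, ord (val v) A = 0
  hB : ∀ v ∉ S, ord (val v) P.b = 0

/-- The product of the completions at the places of `S`. -/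
abbrev VS (S : Finset (Pl k)) : Type := ∀ v : S, (cmp v.1).K

/-- The diagonal embedding. -/
noncomputable def diag (S : Finset (Pl k)) : RatFunc k →+* VS S := RingHom.pi fun v => (cmp v.1).f

/-- The residue pairing on the product of the completions. -/
noncomputable def resS (S : Finset (Pl k)) : VS S →+ ZMod 3 :=
  ∑ v : S, ((cmp v.1).L'.r.comp
    (AddMonoidHom.mulRight ((cmp v.1).f ((PX k).D (unif v.1)))⁻¹)).comp (Pi.evalAddMonoidHom _ v)

variable {P : PB (RatFunc k)} {A u x : RatFunc k} {S : Finset (Pl k)}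

lemma mem_OS : x ∈ OS S ↔ ∀ v ∉ S, x ∈ Fil (val v) 0 := by simp [OS, AddSubgroup.mem_iInf]

lemma mem_OmS : u ∈ OmS P S ↔ u * (PX k).dlg P.b ∈ OS S := Iff.rfl

lemma ga_eD (hS : none ∈ S) {v : Pl k} (hv : v ∉ S) : eD v = 0 := by
  cases v
  · exact absurd hS hv
  · rfl

lemma ga_eD_nonneg (v : Pl k) : 0 ≤ eD v := by
  cases v <;> simp [eD]

lemma ga_OS_mul {y : RatFunc k} (hx : x ∈ OS S) (hy : y ∈ OS S) : x * y ∈ OS S :=
  mem_OS.2 fun v hv => Fil.mul (mem_OS.1 hx v hv) (mem_OS.1 hy v hv) le_rfl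

lemma ga_dlg_mem (hS : none ∈ S) {v : Pl k} (hv : v ∉ S) :
    u * (PX k).dlg P.b ∈ Fil (val v) 0 ↔ u * (pl v).om P ∈ Fil (val v) 0 := by
  have := mul_D_mem (v := v) (x := u * (pl v).om P) (a := 0)
  rw [ga_eD hS hv, add_zero] at this
  rw [dlg_eq v P, ← mul_assoc, this]

lemma mem_OmS' (hS : none ∈ S) : u ∈ OmS P S ↔ ∀ v ∉ S, u * (pl v).om P ∈ Fil (val v) 0 := by
  rw [mem_OmS, mem_OS]
  exact forall_congr' fun v => forall_congr' fun hv => ga_dlg_mem hS hv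

lemma resS_apply (z : VS S) :
    resS S z = ∑ v : S, (cmp v.1).L'.r (z v * ((cmp v.1).f ((PX k).D (unif v.1)))⁻¹) := by
  simp [resS]

lemma ga_diag_apply (x : RatFunc k) (v : S) : diag S x v = (cmp v.1).f x := rfl

lemma resS_diag (x : RatFunc k) : resS S (diag S x) = ∑ v ∈ S, res v x := by
  rw [resS_apply, ← Finset.sum_coe_sort S]
  refine Finset.sum_congr rfl fun v _ => ?_
  rw [ga_diag_apply, ← map_inv₀, ← map_mul, (cmp v.1).h.r, pl_r,
    inv_mul_cancel_right₀ (D_unif_ne _)]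

lemma diag_inj (hS : none ∈ S) : Function.Injective (diag S) := fun _ _ e =>
  (cmp none).f.injective (congrFun e ⟨none, hS⟩)

/-- The local residue at a completed place. -/
noncomputable def gaR (v : Pl k) (a : (cmp v).K) : ZMod 3 :=
  (cmp v).L'.r (a * ((cmp v).f ((PX k).D (unif v)))⁻¹)

lemma gaR_add (v : Pl k) (a b : (cmp v).K) : gaR v (a + b) = gaR v a + gaR v b := by
  rw [gaR, add_mul, map_add, gaR, gaR]

lemma gaR_int {v : Pl k} {a : (cmp v).K} (h : a ∈ Fil (cmp v).L'.w (eD v)) : gaR v a = 0 := by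
  refine (cmp v).L'.r_int _ ?_
  rw [← div_eq_mul_inv]
  refine Fil.div h ?_
  rw [(cmp v).h.ord_eq, pl_w, ord_D_unif]
  omega

lemma gaR_nd {v : Pl k} {a : (cmp v).K} (h : ∀ b, gaR v (a * b) = 0) : a = 0 := by
  have h0 : ((cmp v).f ((PX k).D (unif v)))⁻¹ ≠ 0 :=
    inv_ne_zero ((_root_.map_ne_zero _).2 (D_unif_ne v))
  refine (mul_eq_zero.1 (eq_zero_of_Fil (w := (cmp v).L'.w) fun n => ?_)).resolve_right h0
  have := (cmp v).L'.mem_of_r (x := a * ((cmp v).f ((PX k).D (unif v)))⁻¹) (a := -n)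
    fun y _ => by rw [mul_right_comm]; exact h y
  rwa [neg_neg] at this

lemma ga_resS (z : VS S) : resS S z = ∑ v : S, gaR v.1 (z v) := resS_apply z

lemma ga_vanish (hS : none ∈ S) (z : VS S) (h : ∀ y ∈ OS S, resS S (z * diag S y) = 0)
    (h0 : ∀ v : S, z v ∈ Fil (cmp v.1).L'.w 0)
    (h1 : z ⟨none, hS⟩ ∈ Fil (cmp (k := k) none).L'.w 1) : z = 0 := by
  have e1 : z ⟨none, hS⟩ = 0 := by
    refine gaR_nd (v := none) fun b => ?_
    obtain ⟨c, hc⟩ := (cmp (k := k) none).h.dense b 1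
    have h2 := h (ι (pol c)) (mem_OS.2 fun v hv => by
      rcases v with _ | v
      exacts [absurd hS hv, ι_int _ _])
    rw [ga_resS, Finset.sum_eq_single_of_mem ⟨none, hS⟩ (Finset.mem_univ _)] at h2
    · have h3 : b - (cmp none).f (ι (pol c)) ∈ Fil (cmp (k := k) none).L'.w 1 := by
        have := add_mem hc ((cmp (k := k) none).h.mem.2 (pol_spec c))
        rwa [map_sub, sub_add_sub_cancel] at this
      have h4 : gaR none (z ⟨none, hS⟩ * (b - (cmp none).f (ι (pol c)))) = 0 :=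
        gaR_int (Fil.mul h1 h3 (by simp [eD]))
      have h5 : gaR none (z ⟨none, hS⟩ * (cmp none).f (ι (pol c))) = 0 := h2
      rw [show z ⟨none, hS⟩ * b = z ⟨none, hS⟩ * (b - (cmp none).f (ι (pol c))) +
        z ⟨none, hS⟩ * (cmp none).f (ι (pol c)) by ring, gaR_add, h4, h5, add_zero]
    · rintro ⟨_ | v, hv⟩ - hne
      · exact absurd rfl hne
      · exact gaR_int (v := some v) (Fil.mul (h0 ⟨some v, hv⟩)
          ((cmp (some v)).h.mem.2 (ι_int _ _)) (by simp [eD]))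
  funext ⟨v, hv⟩
  rcases v with _ | v
  · exact e1
  refine gaR_nd (v := some v) fun b => ?_
  obtain ⟨c, hc⟩ := (cmp (some v)).h.dense b 0
  have h2 := h (Two.pp v c) (mem_OS.2 fun u hu => by
    rcases u with _ | u
    exacts [absurd hS hu, pp_int (fun e => hu (by rw [e]; exact hv)) _])
  rw [ga_resS, Finset.sum_eq_single_of_mem ⟨some v, hv⟩ (Finset.mem_univ _)] at h2
  · have h3 : b - (cmp (some v)).f (Two.pp v c) ∈ Fil (cmp (some v)).L'.w 0 := by
      have := add_mem hc ((cmp (some v)).h.mem.2 (pp_spec v c))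
      rwa [map_sub, sub_add_sub_cancel] at this
    have h4 : gaR (some v) (z ⟨some v, hv⟩ * (b - (cmp (some v)).f (Two.pp v c))) = 0 :=
      gaR_int (Fil.mul (h0 ⟨some v, hv⟩) h3 (by simp [eD]))
    have h5 : gaR (some v) (z ⟨some v, hv⟩ * (cmp (some v)).f (Two.pp v c)) = 0 := h2
    rw [show z ⟨some v, hv⟩ * b = z ⟨some v, hv⟩ * (b - (cmp (some v)).f (Two.pp v c)) +
      z ⟨some v, hv⟩ * (cmp (some v)).f (Two.pp v c) by ring, gaR_add, h4, h5, add_zero]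
  · rintro ⟨_ | u, hu⟩ - hne
    · refine gaR_int (v := none) ?_
      rw [Pi.mul_apply, show z ⟨none, hu⟩ = 0 from e1, zero_mul]
      exact zero_mem _
    · exact gaR_int (v := some u) (Fil.mul (h0 ⟨some u, hu⟩)
        ((cmp (some u)).h.mem.2 (pp_int (fun e => hne (by subst e; rfl)) _)) (by simp [eD]))

lemma ga_res_OS (hS : none ∈ S) (hx : x ∈ OS S) : resS S (diag S x) = 0 := by
  rw [resS_diag]
  exact sum_res S fun v hv => res_int (by rw [ga_eD hS hv]; exact mem_OS.1 hx v hv)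

/-- The ring of `S`-integers is its own annihilator. -/
lemma self_dual (hS : none ∈ S) (z : VS S) :
    (∀ y ∈ OS S, resS S (z * diag S y) = 0) ↔ ∃ x ∈ OS S, diag S x = z := by
  refine ⟨fun h => ?_, ?_⟩
  swap
  · rintro ⟨x, hx, rfl⟩ y hy
    rw [← map_mul]
    exact ga_res_OS hS (ga_OS_mul hx hy)
  have h1 : ∀ v : Pl k, ∃ c : RatFunc k, ∀ hv : v ∈ S,
      z ⟨v, hv⟩ - (cmp v).f c ∈ Fil (cmp v).L'.w 1 := fun v => by
    by_cases hv : v ∈ S
    · obtain ⟨c, hc⟩ := (cmp v).h.dense (z ⟨v, hv⟩) 1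
      exact ⟨c, fun _ => hc⟩
    · exact ⟨0, fun h => absurd h hv⟩
  choose c hc using h1
  obtain ⟨x, h2, h3⟩ := exists_principal S c
  have hx : x + ι (pol (c none - x)) ∈ OS S := mem_OS.2 fun v hv => add_mem (h3 v hv) (by
    rcases v with _ | v
    exacts [absurd hS hv, ι_int _ _])
  have h4 : c none - (x + ι (pol (c none - x))) ∈ Fil (val none) 1 := by
    rw [← sub_sub]; exact pol_spec _
  refine ⟨_, hx, (sub_eq_zero.1 (ga_vanish hS _ (fun y hy => ?_) ?_ ?_)).symm⟩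
  · rw [sub_mul, map_sub, h y hy, ← map_mul, ga_res_OS hS (ga_OS_mul hx hy), sub_zero]
  · rintro ⟨v, hv⟩
    have h5 : c v - (x + ι (pol (c none - x))) ∈ Fil (val v) 0 := by
      rcases v with _ | v
      · exact Fil.mono h4 (by omega)
      · rw [← sub_sub]; exact sub_mem (h2 _ hv) (ι_int _ _)
    have := add_mem (Fil.mono (hc v hv) (b := 0) (by omega)) ((cmp v).h.mem.2 h5)
    rwa [map_sub, sub_add_sub_cancel] at this
  · have := add_mem (hc none hS) ((cmp none).h.mem.2 h4)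
    rwa [map_sub, sub_add_sub_cancel] at this

lemma ga_c0_mul (P : PB (RatFunc k)) (A u : RatFunc k) :
    (u - hh P A u) * (PX k).dlg P.b = A * (PX k).c2 (u * (PX k).dlg P.b) := by
  rw [PB.c2_mul_dlg, hh_apply]; ring

namespace GoodOut

variable (h : GoodOut P A S)
include h

lemma ga_A (v : Pl k) (hv : v ∉ S) : A ∈ Fil (val v) 0 := mem_Fil_of_le (h.hA v hv).ge

lemma ga_om (v : Pl k) (hv : v ∉ S) : (pl v).om P ∈ Fil (val v) 0 := (pl v).om_int P (h.hB v hv)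

lemma OS_le : OS S ≤ OmS P S := fun _ hu =>
  (mem_OmS' h.inf).2 fun v hv => Fil.mul (mem_OS.1 hu v hv) (h.ga_om v hv) le_rfl

lemma ga_sub_mem (hu : u ∈ OmS P S) : u - hh P A u ∈ OmS P S := by
  rw [mem_OmS, ga_c0_mul]
  refine mem_OS.2 fun v hv => Fil.mul (h.ga_A v hv) (b := 0) ?_ le_rfl
  have := c2_mem_pl (v := v) (y := u * (PX k).dlg P.b) (a := 0) (c := 0)
    (by rw [ga_eD h.inf hv]; exact mem_OS.1 (mem_OmS.1 hu) v hv) le_rfl
  rwa [ga_eD h.inf hv] at this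

lemma hh_mem (hu : u ∈ OmS P S) : hh P A u ∈ OmS P S := by
  simpa using sub_mem hu (h.ga_sub_mem hu)

lemma count : ((OmS P S).map (hh P A)).relIndex (OmS P S) ≠ 0 ∧
    Nat.card (OmS P S ⊓ (hh P A).ker : AddSubgroup (RatFunc k)) =
      ((OmS P S).map (hh P A)).relIndex (OmS P S) := by
  let N : ℕ := ∑ v ∈ S, (2 * (ord (val v) A).natAbs + 2)
  have hN : ∀ v ∈ S, 2 * (ord (val v) A).natAbs + 2 ≤ N := fun v hv =>
    Finset.single_le_sum (f := fun v => 2 * (ord (val v) A).natAbs + 2) (fun _ _ => Nat.zero_le _) hv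
  let F : ℕ → AddSubgroup (RatFunc k) := fun n => OmS P S ⊓
    (⨅ v ∈ S, Fil (val v) (-(N + n : ℕ))).comap (AddMonoidHom.mulRight ((PX k).dlg P.b))
  have hF : ∀ n u, u ∈ F n ↔ u ∈ OmS P S ∧
      ∀ v ∈ S, u * (PX k).dlg P.b ∈ Fil (val v) (-(N + n : ℕ)) := fun n u => by
    simp [F, AddSubgroup.mem_iInf]
  have hm : Monotone F := fun n m hnm u hu => (hF _ _).2 ⟨((hF _ _).1 hu).1, fun v hv =>
    Fil.mono (((hF _ _).1 hu).2 v hv) (by push_cast; omega)⟩
  have h5 : ∀ n, ∀ u ∈ F (n + 1), u - hh P A u ∈ F n := fun n u hu => by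
    obtain ⟨h1, h2⟩ := (hF _ _).1 hu
    refine (hF _ _).2 ⟨h.ga_sub_mem h1, fun v hv => ?_⟩
    rw [ga_c0_mul]
    have h3 := hN v hv
    have h4 := ga_eD_nonneg v
    have h6 := c2_mem_pl (v := v) (y := u * (PX k).dlg P.b) (a := -(N + (n + 1) : ℕ) - eD v)
      (c := (-(N + (n + 1) : ℕ) - eD v) / 3) (by simpa using h2 v hv) (by omega)
    exact Fil.mul (mem_Fil_ord A) h6 (by push_cast; omega)
  have : Finite (F 0) := by
    have h1 := finite_bdd S (-(N + 0 : ℕ))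
    have h2 : ((F 0 : AddSubgroup (RatFunc k)) : Set (RatFunc k)).Finite := by
      refine Set.Finite.of_finite_image (f := fun u => u * (PX k).dlg P.b) (h1.subset ?_)
        (mul_left_injective₀ ((PX k).dlg_ne P)).injOn
      rintro _ ⟨u, hu, rfl⟩
      obtain ⟨h3, h4⟩ := (hF _ _).1 hu
      exact ⟨h4, mem_OS.1 (mem_OmS.1 h3)⟩
    exact h2
  refine card_ker_eq (OmS P S) F (hh P A) (fun n => inf_le_left) hm (fun u hu => ?_)
    (fun u hu => ?_) h5
  · refine ⟨∑ v ∈ S, (ord (val v) (u * (PX k).dlg P.b)).natAbs, (hF _ _).2 ⟨hu, fun v hv => ?_⟩⟩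
    have h1 := Finset.single_le_sum (f := fun v => (ord (val v) (u * (PX k).dlg P.b)).natAbs)
      (fun _ _ => Nat.zero_le _) hv
    exact mem_Fil_of_le (by omega)
  · simpa using sub_mem hu (h5 0 u (hm (Nat.zero_le _) hu))

lemma exists_inf (n : Pl k → ℤ) : ∃ N : Pl k → ℤ, (∀ v, n v ≤ N v) ∧
    ∀ u ∈ OmS P S, (∀ v ∈ S, u ∈ Fil (val v) (N v)) → u = 0 := by
  refine ⟨fun v => max (n v) (1 - ord (val v) ((PX k).dlg P.b)), fun v => le_max_left _ _,
    fun u hu h1 => ?_⟩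
  have h2 : ∀ v ∈ S, u * (PX k).dlg P.b ∈ Fil (val v) 1 := fun v hv =>
    Fil.mul (h1 v hv) (mem_Fil_ord _) (by
      have := le_max_right (n v) (1 - ord (val v) ((PX k).dlg P.b))
      beta_reduce
      omega)
  obtain ⟨a, ha⟩ := exists_poly (x := u * (PX k).dlg P.b) fun v => by
    by_cases hv : some v ∈ S
    · exact Fil.mono (h2 _ hv) (by omega)
    · exact mem_OS.1 (mem_OmS.1 hu) _ hv
  have h3 := eq_zero_of_none (ha ▸ h2 none h.inf)
  rw [h3, ι, map_zero] at ha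
  exact (mul_eq_zero.1 ha.symm).resolve_right ((PX k).dlg_ne P)

end GoodOut

variable (P A S)

/-- The representatives of Selmer classes that are regular outside `S`. -/
noncomputable def PS3 : AddSubgroup (RatFunc k) :=
  OmS P S ⊓ (⨅ v ∈ S, (Lt ((cmp v).Q P) ((cmp v).f A)).comap (cmp v).f.toAddMonoidHom) ⊓
    (OS S).comap (hh P A)

variable {P A S}

lemma mem_PS3 : u ∈ PS3 P A S ↔ (u ∈ OmS P S ∧ ∀ v ∈ S, (cmp v).f u ∈
    Lt ((cmp v).Q P) ((cmp v).f A)) ∧ hh P A u ∈ OS S := by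
  simp [PS3, AddSubgroup.mem_iInf]

lemma ga_wp_int {K : Type} [Field K] [CharP K 3] {w : Valuation K (WithZero (Multiplicative ℤ))}
    {A t : K} (hA : A ∈ Fil w 0) (ht : t ∈ Fil w 0) : wp A t ∈ Fil w 0 :=
  sub_mem (Fil_cube ht le_rfl) (Fil.mul hA ht le_rfl)

lemma ga_cube_Lt (v : Pl k) (t : RatFunc k) :
    (cmp v).f (t ^ 3) ∈ Lt ((cmp v).Q P) ((cmp v).f A) := by
  rw [map_pow]
  exact Cub_le_Lt (cube_mem _)

lemma GoodOut.ga_shift (h : GoodOut P A S) {v : Pl k} (hv : v ∉ S) {t : RatFunc k}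
    (ht : t ∈ Fil (val v) 0) (h1 : u * (pl v).om P ∈ Fil (val v) 0)
    (h2 : hh P A u ∈ Fil (val v) 0) :
    (u + t ^ 3) * (pl v).om P ∈ Fil (val v) 0 ∧ hh P A (u + t ^ 3) ∈ Fil (val v) 0 := by
  rw [add_mul, map_add, hh_cube]
  exact ⟨add_mem h1 (Fil.mul (Fil_cube ht le_rfl) (h.ga_om v hv) le_rfl),
    add_mem h2 (ga_wp_int (h.ga_A v hv) ht)⟩

lemma GoodOut.ga_local (h : GoodOut P A S) {v : Pl k} (hv : v ∉ S)
    (hu : (cmp v).f u ∈ Lt ((cmp v).Q P) ((cmp v).f A)) : ∃ c : RatFunc k,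
      (u - c ^ 3) * (pl v).om P ∈ Fil (val v) 0 ∧ hh P A (u - c ^ 3) ∈ Fil (val v) 0 := by
  have e0 : ord (cmp v).L'.w ((cmp v).f A) = 0 := ((cmp v).h.ord_eq A).trans (h.hA v hv)
  have eB : ord (cmp v).L'.w ((cmp v).Q P).b = 0 := by
    rw [Cmp.Q_b]; exact ((cmp v).h.ord_eq _).trans (h.hB v hv)
  obtain ⟨t, h1, h2⟩ := Lt_good ((_root_.map_ne_zero _).2 h.ne) e0 eB hu
  obtain ⟨c, hc⟩ := (cmp v).h.dense t 0
  have e : (cmp v).f (u - c ^ 3) = (cmp v).f u - t ^ 3 + (t - (cmp v).f c) ^ 3 := by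
    rw [cube_sub, map_sub, map_pow]; ring
  refine ⟨c, (cmp v).h.mem.1 ?_, (cmp v).h.mem.1 ?_⟩
  · rw [map_mul, ← Cmp.f_om, e, add_mul]
    exact add_mem h1 (Fil.mul (Fil_cube hc le_rfl) (PreLoc.om_int _ _ eB) le_rfl)
  · rw [← Cmp.f_hh, e, map_add, hh_cube]
    exact add_mem h2 (ga_wp_int (mem_Fil_of_le e0.ge) hc)

lemma GoodOut.ga_SelT (h : GoodOut P A S) : SelT P A = PS3 P A S ⊔ Cub (RatFunc k) := by
  refine le_antisymm (fun u hu => ?_) (sup_le (fun u hu => mem_SelT.2 fun v => ?_) ?_)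
  · have h1 : ∀ v : Pl k, ∃ c : RatFunc k, v ∉ S →
        (u - c ^ 3) * (pl v).om P ∈ Fil (val v) 0 ∧ hh P A (u - c ^ 3) ∈ Fil (val v) 0 :=
      fun v => by
        by_cases hv : v ∈ S
        · exact ⟨0, fun h => absurd hv h⟩
        · obtain ⟨c, hc⟩ := h.ga_local hv (mem_SelT.1 hu v)
          exact ⟨c, fun _ => hc⟩
    choose c hc using h1
    obtain ⟨t, h2, h3⟩ := exists_principal
      ((finite_poles (u * (PX k).dlg P.b)).toFinset ∪ (finite_poles (hh P A u)).toFinset) c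
    have h4 : ∀ v ∉ S, (u - t ^ 3) * (pl v).om P ∈ Fil (val v) 0 ∧
        hh P A (u - t ^ 3) ∈ Fil (val v) 0 := fun v hv => by
      by_cases hT : v ∈ (finite_poles (u * (PX k).dlg P.b)).toFinset ∪
        (finite_poles (hh P A u)).toFinset
      · have := h.ga_shift hv (h2 v hT) (hc v hv).1 (hc v hv).2
        rwa [cube_sub, sub_add_sub_cancel] at this
      · have h5 := neg_mem (h3 v hT)
        simp only [Finset.mem_union, Set.Finite.mem_toFinset, Set.mem_ofPred_eq, not_or,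
          not_not] at hT
        have := h.ga_shift hv h5 ((ga_dlg_mem h.inf hv).1 hT.1) hT.2
        rwa [Odd.neg_pow (by decide), ← sub_eq_add_neg] at this
    have h6 : u - t ^ 3 ∈ PS3 P A S := mem_PS3.2 ⟨⟨(mem_OmS' h.inf).2 fun v hv => (h4 v hv).1,
      fun v _ => by rw [map_sub]; exact sub_mem (mem_SelT.1 hu v) (ga_cube_Lt v t)⟩,
      mem_OS.2 fun v hv => (h4 v hv).2⟩
    simpa using add_mem (AddSubgroup.mem_sup_left h6) (AddSubgroup.mem_sup_right (cube_mem t))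
  · obtain ⟨⟨h1, h2⟩, h3⟩ := mem_PS3.1 hu
    by_cases hv : v ∈ S
    · exact h2 v hv
    refine good_mem_Lt (cmp v).h.cpl ((_root_.map_ne_zero _).2 h.ne)
      (((cmp v).h.ord_eq A).trans (h.hA v hv))
      (by rw [Cmp.Q_b]; exact ((cmp v).h.ord_eq _).trans (h.hB v hv)) ?_ ?_
    · rw [Cmp.f_om, ← map_mul]
      exact (cmp v).h.mem.2 ((mem_OmS' h.inf).1 h1 v hv)
    · rw [Cmp.f_hh]
      exact (cmp v).h.mem.2 (mem_OS.1 h3 v hv)
  · rintro _ ⟨t, rfl⟩
    exact mem_SelT.2 fun v => ga_cube_Lt v t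

lemma ga_relIndex {G : Type} [AddCommGroup G] (φ : G →+ G) {C H : AddSubgroup G} (hle : C ≤ H)
    (h0 : C ⊓ φ.ker = ⊥) : C.relIndex H =
      Nat.card (H ⊓ φ.ker : AddSubgroup G) * (C.map φ).relIndex (H.map φ) := by
  rw [← AddSubgroup.relIndex_comap, AddSubgroup.comap_map_eq,
    ← AddSubgroup.inf_relIndex_right (C ⊔ φ.ker), sup_inf_assoc_of_le _ hle,
    ← AddSubgroup.relIndex_mul_relIndex C (C ⊔ φ.ker ⊓ H) H le_sup_left (sup_le hle inf_le_right),
    AddSubgroup.relIndex_sup_left, ← AddSubgroup.inf_relIndex_right C, ← inf_assoc, h0, bot_inf_eq,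
    AddSubgroup.relIndex_bot_left, inf_comm]

lemma GoodOut.relIndex_SelT (h : GoodOut P A S) (hA : ¬ IsSquare A) :
    (Cub (RatFunc k)).relIndex (SelT P A) =
      Nat.card (PS3 P A S ⊓ (hh P A).ker : AddSubgroup (RatFunc k)) *
        ((OS S).map (wpH A)).relIndex ((PS3 P A S).map (hh P A)) := by
  have e1 : (Cub (RatFunc k) ⊓ PS3 P A S).map (hh P A) = (OS S).map (wpH A) := by
    refine le_antisymm ?_ ?_
    · rintro _ ⟨_, ⟨⟨t, rfl⟩, h1⟩, rfl⟩
      have h2 : hh P A (t ^ 3) ∈ OS S := (mem_PS3.1 h1).2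
      rw [hh_cube] at h2
      exact ⟨t, mem_OS.2 fun v hv => Fil_of_wp (h.ga_A v hv) (mem_OS.1 h2 v hv),
        (hh_cube t).symm⟩
    · rintro _ ⟨t, ht, rfl⟩
      refine ⟨t ^ 3, ⟨cube_mem t, mem_PS3.2 ⟨⟨h.OS_le (mem_OS.2 fun v hv =>
        Fil_cube (mem_OS.1 ht v hv) le_rfl), fun v _ => ga_cube_Lt v t⟩, ?_⟩⟩, hh_cube t⟩
      rw [hh_cube]
      exact mem_OS.2 fun v hv => ga_wp_int (h.ga_A v hv) (mem_OS.1 ht v hv)
  have e2 : Cub (RatFunc k) ⊓ PS3 P A S ⊓ (hh P A).ker = ⊥ := by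
    rw [eq_bot_iff]
    rintro _ ⟨⟨⟨t, rfl⟩, -⟩, h1⟩
    have h2 : hh P A (t ^ 3) = 0 := h1
    rw [hh_cube, wp] at h2
    have h3 : t = 0 := by
      by_contra h4
      exact hA ⟨t, mul_left_cancel₀ h4 (by linear_combination -h2)⟩
    change t ^ 3 = 0
    simp [h3]
  rw [h.ga_SelT, AddSubgroup.relIndex_sup_right, ← AddSubgroup.inf_relIndex_right,
    ga_relIndex (hh P A) inf_le_right e2, e1]

end Pool.Agent.Lib.MP_a3f657_nt.Three
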