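import Pool.Agent.Lib.MP_a3f657_nt.C3Ga

/-!
The parity formula.
-/

set_option linter.unusedSectionVars false

namespace Pool.Agent.Lib.MP_a3f657_nt.Three

open Pool.Agent.Lib.MP_a3f657_nt.Two

open Polynomial IsDedekindDomain

open scoped Classical

variable {k : Type} [Field k] [Finite k] [CharP k 3] (P : PB (RatFunc k)) (A : RatFunc k)
  (S : Finset (Pl k))

/-- The global pairing. -/
noncomputable def BS : VS S →+ VS S →+ ZMod 3 :=
  ∑ v : S, (((cmp v.1).L'.pair ((cmp v.1).Q P) ((cmp v.1).f A)).comp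
    (Pi.evalAddMonoidHom _ v)).compl₂ (Pi.evalAddMonoidHom _ v)

/-- A product of additive maps. -/
noncomputable def piH (g : ∀ v : S, (cmp v.1).K →+ (cmp v.1).K) : VS S →+ VS S :=
  AddMonoidHom.pi fun v => (g v).comp (Pi.evalAddMonoidHom _ v)

/-- The Artin-Schreier operator. -/
noncomputable def pS : VS S →+ VS S := piH S fun v => wpH ((cmp v.1).f A)

/-- Its adjoint. -/
noncomputable def hS : VS S →+ VS S := piH S fun v => hh ((cmp v.1).Q P) ((cmp v.1).f A)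

/-- Multiplication by `A`. -/
noncomputable def mS : VS S →+ VS S := AddMonoidHom.mulLeft (diag S A)

/-- The local conditions. -/
noncomputable def LS : AddSubgroup (VS S) :=
  AddSubgroup.pi Set.univ fun v => Lt ((cmp v.1).Q P) ((cmp v.1).f A)

/-- A neighbourhood of zero. -/
noncomputable def US (N : Pl k → ℤ) : AddSubgroup (VS S) :=
  AddSubgroup.pi Set.univ fun v => Fil (cmp v.1).L'.w (N v.1)

variable {P A S}

lemma BS_apply (x y : VS S) :
    BS P A S x y = ∑ v : S, (cmp v.1).L'.pair ((cmp v.1).Q P) ((cmp v.1).f A) (x v) (y v) := by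
  simp [BS]

lemma BS_eq (x y : VS S) :
    BS P A S x y = resS S (x * y * diag S ((PX k).dlg P.b / A ^ 3)) := by
  rw [BS_apply, resS_apply]
  refine Finset.sum_congr rfl fun v _ => ?_
  have h0 : (cmp v.1).f ((PX k).D (unif v.1)) ≠ 0 := (_root_.map_ne_zero _).2 (D_unif_ne v.1)
  rw [PreLoc.pair_apply, PreLoc.rho_apply, Cmp.f_om]
  congr 1
  change _ = x v * y v * (cmp v.1).f ((PX k).dlg P.b / A ^ 3) * _
  rw [dlg_eq v.1 P, map_div₀, map_mul, map_pow, div_eq_mul_inv, div_eq_mul_inv]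
  calc x v * y v * ((cmp v.1).f A ^ 3)⁻¹ * (cmp v.1).f ((pl v.1).om P)
      = x v * y v * ((cmp v.1).f A ^ 3)⁻¹ * (cmp v.1).f ((pl v.1).om P) *
        ((cmp v.1).f ((PX k).D (unif v.1)) * ((cmp v.1).f ((PX k).D (unif v.1)))⁻¹) := by
        rw [mul_inv_cancel₀ h0, mul_one]
    _ = _ := by ring

lemma diag_apply_Gb (x : RatFunc k) (v : S) : diag S x v = (cmp v.1).f x := rfl

lemma piH_apply_Gb (g : ∀ v : S, (cmp v.1).K →+ (cmp v.1).K) (x : VS S) (v : S) :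
    piH S g x v = g v (x v) := rfl

lemma mem_pi_Gb {U : ∀ v : S, AddSubgroup (cmp v.1).K} {x : VS S} :
    x ∈ AddSubgroup.pi Set.univ U ↔ ∀ v, x v ∈ U v := by simp [AddSubgroup.mem_pi]

lemma map_piH_Gb (g : ∀ v : S, (cmp v.1).K →+ (cmp v.1).K)
    (U : ∀ v : S, AddSubgroup (cmp v.1).K) :
    (AddSubgroup.pi Set.univ U).map (piH S g) =
      AddSubgroup.pi Set.univ fun v => (U v).map (g v) := by
  ext x
  rw [mem_pi_Gb]
  refine ⟨fun ⟨y, hy, e⟩ v => ⟨y v, mem_pi_Gb.1 hy v, congrFun e v⟩, fun h => ?_⟩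
  choose y hy e using h
  exact ⟨y, mem_pi_Gb.2 hy, funext e⟩

lemma range_piH_Gb (g : ∀ v : S, (cmp v.1).K →+ (cmp v.1).K) :
    (piH S g).range = AddSubgroup.pi Set.univ fun v => (g v).range := by
  ext x
  rw [mem_pi_Gb]
  refine ⟨fun ⟨y, e⟩ v => ⟨y v, congrFun e v⟩, fun h => ?_⟩
  choose y e using h
  exact ⟨y, funext e⟩

lemma ker_piH_Gb (g : ∀ v : S, (cmp v.1).K →+ (cmp v.1).K) :
    (piH S g).ker = AddSubgroup.pi Set.univ fun v => (g v).ker := by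
  ext x
  rw [mem_pi_Gb]
  exact funext_iff

lemma card_pi_Gb (U : ∀ v : S, AddSubgroup (cmp v.1).K) :
    Nat.card (AddSubgroup.pi Set.univ U) = ∏ v, Nat.card (U v) := by
  rw [← Nat.card_pi]
  exact Nat.card_congr ⟨fun x v => ⟨x.1 v, mem_pi_Gb.1 x.2 v⟩,
    fun x => ⟨fun v => x v, mem_pi_Gb.2 fun v => (x v).2⟩, fun _ => rfl, fun _ => rfl⟩

lemma range_pS_Gb : (pS A S).range = AddSubgroup.pi Set.univ fun v : S => WP ((cmp v.1).f A) :=
  range_piH_Gb _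

lemma ker_hS_Gb :
    (hS P A S).ker = AddSubgroup.pi Set.univ fun v : S => Log ((cmp v.1).Q P) ((cmp v.1).f A) :=
  ker_piH_Gb _

lemma map_LS_Gb : (LS P A S).map (hS P A S) =
    AddSubgroup.pi Set.univ fun v : S => AA ((cmp v.1).Q P) ((cmp v.1).f A) :=
  map_piH_Gb _ _

lemma inf_LS_Gb : LS P A S ⊓ (hS P A S).ker =
    AddSubgroup.pi Set.univ fun v : S => BB ((cmp v.1).Q P) ((cmp v.1).f A) := by
  ext x
  rw [ker_hS_Gb, AddSubgroup.mem_inf, LS, mem_pi_Gb, mem_pi_Gb, mem_pi_Gb, ← forall_and]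
  rfl

lemma hS_diag_Gb (u : RatFunc k) : hS P A S (diag S u) = diag S (hh P A u) :=
  funext fun v => (cmp v.1).f_hh P A u

lemma pS_diag_Gb (t : RatFunc k) : pS A S (diag S t) = diag S (wp A t) :=
  funext fun v => (cmp v.1).f_wp A t

lemma hS_comp_Gb : (hS P A S).comp (diag S).toAddMonoidHom =
    (diag S).toAddMonoidHom.comp (hh P A) := AddMonoidHom.ext hS_diag_Gb

lemma pS_comp_Gb : (pS A S).comp (diag S).toAddMonoidHom =
    (diag S).toAddMonoidHom.comp (wpH A) := AddMonoidHom.ext pS_diag_Gb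

lemma BS_single_Gb (x : VS S) (v : S) (y : (cmp v.1).K) :
    BS P A S x (Pi.single v y) = (cmp v.1).L'.pair ((cmp v.1).Q P) ((cmp v.1).f A) (x v) y := by
  rw [BS_apply, Finset.sum_eq_single v, Pi.single_eq_same]
  · intro w _ hw
    rw [Pi.single_eq_of_ne hw, map_zero]
  · simp

lemma OS_mul_Gb {x y : RatFunc k} (hx : x ∈ OS S) (hy : y ∈ OS S) : x * y ∈ OS S :=
  mem_OS.2 fun v hv => Fil.mul (mem_OS.1 hx v hv) (mem_OS.1 hy v hv) (by omega)

lemma GoodOut.A_mem_Gb (h : GoodOut P A S) : A ∈ OS S :=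
  mem_OS.2 fun v hv => mem_Fil_of_le (h.hA v hv).ge

lemma GoodOut.inv_mem_Gb (h : GoodOut P A S) : A⁻¹ ∈ OS S :=
  mem_OS.2 fun v hv => mem_Fil_of_le (by rw [ord_inv, h.hA v hv]; omega)

lemma OS_cube_Gb {x : RatFunc k} (hx : x ∈ OS S) : x ^ 3 ∈ OS S :=
  mem_OS.2 fun v hv => Fil_cube (mem_OS.1 hx v hv) (by omega)

lemma GoodOut.inf_ker_Gb (h : GoodOut P A S) (U : AddSubgroup (RatFunc k)) :
    U.map (diag S).toAddMonoidHom ⊓ (hS P A S).ker =
      (U ⊓ (hh P A).ker).map (diag S).toAddMonoidHom := by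
  ext x
  constructor
  · rintro ⟨⟨u, hu, rfl⟩, h2⟩
    refine ⟨u, ⟨hu, diag_inj h.inf ?_⟩, rfl⟩
    rw [← hS_diag_Gb, map_zero]
    exact h2
  · rintro ⟨u, ⟨hu, h2⟩, rfl⟩
    refine ⟨⟨u, hu, rfl⟩, (hS_diag_Gb u).trans ?_⟩
    rw [show hh P A u = 0 from h2, map_zero]

lemma GoodOut.PS3_map_Gb (h : GoodOut P A S) :
    (OmS P S).map (diag S).toAddMonoidHom ⊓ LS P A S ⊓
      ((OS S).map (diag S).toAddMonoidHom).comap (hS P A S) =
        (PS3 P A S).map (diag S).toAddMonoidHom := by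
  ext x
  constructor
  · rintro ⟨⟨⟨u, hu, rfl⟩, h2⟩, y, hy, h3⟩
    refine ⟨u, mem_PS3.2 ⟨⟨hu, fun v hv => mem_pi_Gb.1 h2 ⟨v, hv⟩⟩, ?_⟩, rfl⟩
    rwa [← diag_inj h.inf (h3.trans (hS_diag_Gb u))]
  · rintro ⟨u, hu, rfl⟩
    obtain ⟨⟨h1, h2⟩, h3⟩ := mem_PS3.1 hu
    exact ⟨⟨⟨u, h1, rfl⟩, mem_pi_Gb.2 fun v => h2 v.1 v.2⟩, _, h3, (hS_diag_Gb u).symm⟩

lemma GoodOut.abs (h : GoodOut P A S) (hA : ¬ IsSquare A) :
    ∃ N, Abs (BS P A S) (pS A S) (hS P A S) (mS A S) ((OS S).map (diag S).toAddMonoidHom)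
      ((OmS P S).map (diag S).toAddMonoidHom) (LS P A S) (US S N) := by
  obtain ⟨N, hN, hN'⟩ := h.exists_inf fun v => 2 * |ord (val v) A| + 1
  have hAv : ∀ v : S, (cmp v.1).f A ≠ 0 := fun v => (_root_.map_ne_zero _).2 h.ne
  have hd : (PX k).dlg P.b ≠ 0 := (PX k).dlg_ne P
  have hA0 : A ≠ 0 := h.ne
  have hi : Function.Injective (diag S).toAddMonoidHom := diag_inj h.inf
  refine ⟨N, {
    h3 := fun x => funext fun v => three_K (x v)
    comm := fun x y => ?_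
    nd := fun x hx => funext fun v => (cmp v.1).L'.eq_zero_of_pair ((cmp v.1).Q P) (hAv v)
      fun y => by rw [← BS_single_Gb, hx]
    rep := fun χ hχ => ?_
    U_le := fun x hx => ?_
    U_inf := ?_
    O_le := AddSubgroup.map_mono h.OS_le
    orthO := fun x => ⟨?_, fun hx => ?_⟩
    orthΩ := fun x hx => ?_
    adj := fun w u => ?_
    m_surj := fun w => ⟨diag S A⁻¹ * w, ?_⟩
    m_mem := fun w => ⟨?_, ?_⟩
    hΩ := ?_
    cubeO := ?_
    cube := ?_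
    cnt := ?_
    ld := ?_
    orth := fun l hl l' hl' e => ?_
    alt := fun l hl => ?_
    ker := ?_ }⟩
  · rw [BS_apply, BS_apply]
    exact Finset.sum_congr rfl fun v _ => PreLoc.pair_comm _ _ _ _ _
  · have h1 : ∀ v : S, ∃ u, ∀ x, χ (Pi.single v x) =
        (cmp v.1).L'.pair ((cmp v.1).Q P) ((cmp v.1).f A) u x := fun v =>
      (cmp v.1).L'.rep_pair ((cmp v.1).Q P) (cmp v.1).h.cpl (hAv v)
        (χ.comp (AddMonoidHom.single (fun v : S => (cmp v.1).K) v)) (a := N v.1) fun x hx =>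
          hχ _ (mem_pi_Gb.2 fun w => by
            change (Pi.single v x : VS S) w ∈ _
            by_cases hw : w = v
            · subst hw
              rwa [Pi.single_eq_same]
            · rw [Pi.single_eq_of_ne hw]
              exact zero_mem _)
    choose u hu using h1
    refine ⟨u, fun x => ?_⟩
    conv_lhs => rw [← Finset.univ_sum_single x]
    rw [map_sum, BS_apply]
    exact Finset.sum_congr rfl fun v _ => hu v (x v)
  · rw [range_pS_Gb, mem_pi_Gb]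
    refine fun v => Fil_le_WP (cmp v.1).h.cpl (hAv v) ?_ (mem_pi_Gb.1 hx v)
    have h1 := hN v.1
    have h2 := le_abs_self (ord (val v.1) A)
    have h3 := abs_nonneg (ord (val v.1) A)
    rw [(cmp v.1).h.ord_eq, pl_w]
    omega
  · rintro _ ⟨u, hu, rfl⟩ hx
    rw [hN' u hu fun v hv => (cmp v).h.mem.1 (mem_pi_Gb.1 hx ⟨v, hv⟩), map_zero]
  · rintro ⟨u, hu, rfl⟩ _ ⟨y, hy, rfl⟩
    have h1 := (self_dual h.inf _).2 ⟨_, mem_OmS.1 hu, rfl⟩ _
      (OS_mul_Gb hy (OS_cube_Gb h.inv_mem_Gb))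
    rw [BS_eq, ← h1]
    congr 1
    change diag S u * diag S y * _ = _
    simp only [← map_mul]
    congr 1
    rw [inv_pow, div_eq_mul_inv]
    ring
  · obtain ⟨x₀, h1, h2⟩ := (self_dual h.inf (x * diag S ((PX k).dlg P.b))).1 fun y hy => by
      rw [← hx _ ⟨_, OS_mul_Gb hy (OS_cube_Gb h.A_mem_Gb), rfl⟩, BS_eq]
      congr 1
      change _ = x * diag S (y * A ^ 3) * _
      rw [mul_assoc, mul_assoc, ← map_mul, ← map_mul]
      congr 2
      field_simp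
    refine ⟨x₀ / (PX k).dlg P.b, mem_OmS.2 (by rwa [div_mul_cancel₀ _ hd]), ?_⟩
    change diag S (x₀ / _) = x
    rw [div_eq_mul_inv, map_mul, h2, mul_assoc, ← map_mul, mul_inv_cancel₀ hd, map_one, mul_one]
  · obtain ⟨x₀, h1, h2⟩ := (self_dual h.inf x).1 fun y hy => by
      rw [← hx _ ⟨y * A ^ 3 / (PX k).dlg P.b, mem_OmS.2 (by
        rw [div_mul_cancel₀ _ hd]
        exact OS_mul_Gb hy (OS_cube_Gb h.A_mem_Gb)), rfl⟩, BS_eq]
      congr 1
      change _ = x * diag S (y * A ^ 3 / _) * _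
      rw [mul_assoc, ← map_mul]
      congr 2
      field_simp
    exact ⟨x₀, h1, h2⟩
  · rw [BS_apply, BS_apply, ← Finset.sum_neg_distrib]
    refine Finset.sum_congr rfl fun v _ => ?_
    rw [PreLoc.pair_apply, PreLoc.pair_apply]
    exact rho_adj ((cmp v.1).L'.rho_c0 _) (hAv v) (w v) (u v)
  · change diag S A * (diag S A⁻¹ * w) = w
    rw [← mul_assoc, ← map_mul, mul_inv_cancel₀ h.ne, map_one, one_mul]
  · rintro ⟨y, hy, e⟩
    refine ⟨A⁻¹ * y, OS_mul_Gb h.inv_mem_Gb hy, ?_⟩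
    change diag S (A⁻¹ * y) = w
    rw [map_mul, show diag S y = diag S A * w from e, ← mul_assoc, ← map_mul,
      inv_mul_cancel₀ h.ne, map_one, one_mul]
  · rintro ⟨y, hy, rfl⟩
    exact ⟨A * y, OS_mul_Gb h.A_mem_Gb hy, map_mul (diag S) A y⟩
  · rintro _ ⟨u, hu, rfl⟩
    exact ⟨_, h.hh_mem hu, (hS_diag_Gb u).symm⟩
  · rintro _ ⟨t, ht, rfl⟩
    refine ⟨⟨wp A t, sub_mem (OS_cube_Gb ht) (OS_mul_Gb h.A_mem_Gb ht), (pS_diag_Gb t).symm⟩,
      diag S (t ^ 3), ⟨_, h.OS_le (OS_cube_Gb ht), rfl⟩, mem_pi_Gb.2 fun v => ?_, ?_⟩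
    · rw [diag_apply_Gb, map_pow]
      exact Cub_le_Lt (cube_mem _)
    · rw [hS_diag_Gb, hh_cube]
      exact (pS_diag_Gb t).symm
  · rw [range_pS_Gb, map_LS_Gb]
    exact fun x hx => mem_pi_Gb.2 fun v => WP_le_AA (mem_pi_Gb.1 hx v)
  · rw [h.inf_ker_Gb, AddSubgroup.map_map, hS_comp_Gb, ← AddSubgroup.map_map,
      AddSubgroup.relIndex_map_map_of_injective _ _ hi, AddSubgroup.card_map_of_injective hi]
    exact h.count
  · rw [inf_LS_Gb, ker_hS_Gb, range_pS_Gb, map_LS_Gb, relIndex_pi, relIndex_pi]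
    have h1 := fun v : S => local_duality (cmp v.1).L' (cmp v.1).h.cpl ((cmp v.1).Q P) (hAv v)
    exact ⟨Finset.prod_ne_zero_iff.2 fun v _ => (h1 v).1, Finset.prod_le_prod' fun v _ => (h1 v).2⟩
  · rw [BS_apply]
    refine Finset.sum_eq_zero fun v _ => ?_
    rw [PreLoc.pair_apply]
    exact rho_orth ((cmp v.1).L'.rho_c0 _) (hAv v) ⟨l v, mem_pi_Gb.1 hl v, rfl⟩
      ⟨mem_pi_Gb.1 hl' v, congrFun e v⟩
  · rw [BS_apply, BS_apply, ← Finset.sum_neg_distrib]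
    refine Finset.sum_congr rfl fun v _ => ?_
    rw [PreLoc.pair_apply, PreLoc.pair_apply]
    exact rho_alt ((cmp v.1).L'.rho_c0 _) (hAv v) (mem_pi_Gb.1 hl v)
  · rintro _ ⟨t, -, rfl⟩ e
    have h1 : wp A t = 0 := diag_inj h.inf (by rw [← pS_diag_Gb, map_zero]; exact e)
    have h2 : t = 0 := by
      by_contra ht
      refine hA ⟨t, mul_left_cancel₀ ht ?_⟩
      rw [wp] at h1
      linear_combination -h1
    rw [h2, map_zero]

theorem GoodOut.formula (h : GoodOut P A S) (hA : ¬ IsSquare A) : ∃ i j : ℕ,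
    (Cub (RatFunc k)).relIndex (SelT P A) * (∏ v ∈ S, Nat.card (wpH ((cmp v).f A)).ker) * 9 ^ i =
      9 ^ j * ∏ v ∈ S, (WP ((cmp v).f A)).relIndex (AA ((cmp v).Q P) ((cmp v).f A)) := by
  obtain ⟨N, H⟩ := h.abs hA
  obtain ⟨i, j, e⟩ := H.formula
  have hi : Function.Injective (diag S).toAddMonoidHom := diag_inj h.inf
  have h1 : (OmS P S).map (diag S).toAddMonoidHom ⊓ LS P A S ⊓ (hS P A S).ker =
      (PS3 P A S ⊓ (hh P A).ker).map (diag S).toAddMonoidHom := by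
    rw [← h.inf_ker_Gb, ← h.PS3_map_Gb]
    refine le_antisymm (fun x hx => ⟨⟨hx.1, ?_⟩, hx.2⟩) fun x hx => ⟨hx.1.1, hx.2⟩
    refine AddSubgroup.mem_comap.2 ?_
    rw [show hS P A S x = 0 from hx.2]
    exact zero_mem _
  rw [h1, h.PS3_map_Gb, AddSubgroup.map_map, AddSubgroup.map_map, hS_comp_Gb, pS_comp_Gb,
    ← AddSubgroup.map_map, ← AddSubgroup.map_map,
    AddSubgroup.relIndex_map_map_of_injective _ _ hi, AddSubgroup.card_map_of_injective hi,
    ← h.relIndex_SelT hA, range_pS_Gb, map_LS_Gb, relIndex_pi, pS, ker_piH_Gb, card_pi_Gb,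
    Finset.prod_coe_sort S fun v => Nat.card (wpH ((cmp v).f A)).ker,
    Finset.prod_coe_sort S fun v =>
      (WP ((cmp v).f A)).relIndex (AA ((cmp v).Q P) ((cmp v).f A))] at e
  exact ⟨i, j, e⟩

theorem GoodOut.parity (h : GoodOut P A S) (hA : ¬ IsSquare A) : ∃ r : ℕ,
    (Cub (RatFunc k)).relIndex (SelT P A) = 3 ^ r ∧
      (-1 : ℝ) ^ r = ∏ v ∈ S, sgn ((cmp v).Q P) ((cmp v).f A) := by
  obtain ⟨i, j, e⟩ := h.formula hA
  have hAv : ∀ v : Pl k, (cmp v).f A ≠ 0 := fun v => (_root_.map_ne_zero _).2 h.ne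
  choose a ha ha' using fun v : Pl k =>
    exists_fac (cmp v).L' (cmp v).h.cpl ((cmp v).Q P) (hAv v)
  have hk : ∀ v : Pl k, ∃ c, Nat.card (wpH ((cmp v).f A)).ker = 3 ^ c := fun v => by
    rw [card_ker_wpH (hAv v)]
    split_ifs
    · exact ⟨1, rfl⟩
    · exact ⟨0, rfl⟩
  choose c hc using hk
  have h1 : (Cub (RatFunc k)).relIndex (SelT P A) * 3 ^ (2 * (∑ v ∈ S, c v + i)) =
      3 ^ (2 * j + ∑ v ∈ S, a v) := by
    have h2 := congrArg (· * ∏ v ∈ S, Nat.card (wpH ((cmp v).f A)).ker) e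
    simp only [mul_assoc (9 ^ j), ← Finset.prod_mul_distrib, ha] at h2
    simp only [hc, Finset.prod_pow_eq_pow_sum] at h2
    rw [pow_add 3 (2 * j), pow_mul 3 2 j, show 3 ^ 2 = 9 from rfl, ← h2, mul_add, pow_add,
      pow_mul 3 2 i, show 3 ^ 2 = 9 from rfl]
    ring
  obtain ⟨r, -, hr⟩ := (Nat.dvd_prime_pow Nat.prime_three).1 ⟨_, h1.symm⟩
  refine ⟨r, hr, ?_⟩
  rw [hr, ← pow_add] at h1
  have h3 := Nat.pow_right_injective (by norm_num : 2 ≤ 3) h1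
  have h4 : (-1 : ℝ) ^ (r + 2 * (∑ v ∈ S, c v + i)) = (-1) ^ (2 * j + ∑ v ∈ S, a v) := by rw [h3]
  simp only [pow_add, pow_mul, neg_one_sq, one_pow, mul_one, one_mul] at h4
  simp only [ha', Finset.prod_pow_eq_pow_sum, h4]

end Pool.Agent.Lib.MP_a3f657_nt.Three
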