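import Pool.Agent.Lib.MP_a3f657_nt.C3PB

/-!
The explicit 3-descent map of an ordinary elliptic curve in characteristic three.
-/

set_option linter.unusedSectionVars false

namespace Pool.Agent.Lib.MP_a3f657_nt.Three

open WeierstrassCurve WeierstrassCurve.Affine

open scoped Classical

variable {K : Type} [Field K] [CharP K 3]

/-- The coefficient `A` of the normal form `y ^ 2 = A ^ 3 (x ^ 3 + x ^ 2 + B)`. -/
def nA (W : WeierstrassCurve K) : K := W.b₂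

/-- The coefficient `B` of the normal form. -/
def nB (W : WeierstrassCurve K) : K := -W.Δ / W.b₂ ^ 6

/-- The `x`-coordinate in the normal form. -/
def nx (W : WeierstrassCurve K) (X : K) : K := (X + W.b₄ / W.b₂) / W.b₂

/-- The `y`-coordinate in the normal form. -/
def ny (W : WeierstrassCurve K) (X Y : K) : K := 2 * Y + W.a₁ * X + W.a₃

/-- `(x, y)` is a point of the normal form. -/
def OnC (A B x y : K) : Prop := y ^ 2 = A ^ 3 * (x ^ 3 + x ^ 2 + B)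

lemma disc_eq (W : WeierstrassCurve K) :
    W.Δ = -(W.b₂ ^ 3 * W.b₆) + W.b₂ ^ 2 * W.b₄ ^ 2 + W.b₄ ^ 3 := by
  simp only [WeierstrassCurve.Δ, b₂, b₄, b₆, b₈]
  grind

lemma eqn_iff {W : WeierstrassCurve K} (h : W.b₂ ≠ 0) (X Y : K) :
    W.toAffine.Equation X Y ↔ OnC (nA W) (nB W) (nx W X) (ny W X Y) := by
  have e : nA W ^ 3 * (nx W X ^ 3 + nx W X ^ 2 + nB W) =
      X ^ 3 + W.b₂ * X ^ 2 - W.b₄ * X + W.b₆ := by
    unfold nx nA nB
    rw [disc_eq]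
    field_simp
    grind
  rw [equation_iff, OnC, e, ← sub_eq_zero, ← sub_eq_zero (a := ny W X Y ^ 2)]
  have : ny W X Y ^ 2 - (X ^ 3 + W.b₂ * X ^ 2 - W.b₄ * X + W.b₆) =
      Y ^ 2 + W.a₁ * X * Y + W.a₃ * Y - (X ^ 3 + W.a₂ * X ^ 2 + W.a₄ * X + W.a₆) := by
    simp only [ny, b₂, b₄, b₆]
    grind
  rw [this]

/-- The nondegeneracy hypothesis: ordinary, with `B` the given 3-basis element. -/
structure Nd (W : WeierstrassCurve K) (P : PB K) : Prop where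
  b2 : W.b₂ ≠ 0
  hb : P.b = nB W

/-- The normalised abscissa of a point (zero for the origin). -/
def xP (W : WeierstrassCurve K) : W.toAffine.Point → K
  | .zero => 0
  | .some X _ _ => nx W X

/-- The normalised ordinate of a point (zero for the origin). -/
def yP (W : WeierstrassCurve K) : W.toAffine.Point → K
  | .zero => 0
  | .some X Y _ => ny W X Y

/-- The descent function. -/
noncomputable def PB.ku (P : PB K) (x y : K) : K := y * (1 + P.D x) - (x ^ 2 + x) * P.D y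

/-- The descent function on points. -/
noncomputable def kuP (W : WeierstrassCurve K) (P : PB K) (R : W.toAffine.Point) : K :=
  P.ku (xP W R) (yP W R)

variable {W : WeierstrassCurve K} {P : PB K} {A x y : K}

@[simp] lemma xP_zero : xP W 0 = 0 := rfl

@[simp] lemma yP_zero : yP W 0 = 0 := rfl

@[simp] lemma xP_some {X Y : K} (h : W.toAffine.Nonsingular X Y) : xP W (.some X Y h) = nx W X :=
  rfl

@[simp] lemma yP_some {X Y : K} (h : W.toAffine.Nonsingular X Y) : yP W (.some X Y h) = ny W X Y :=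
  rfl

@[simp] lemma xP_neg (R : W.toAffine.Point) : xP W (-R) = xP W R := by cases R <;> rfl

@[simp] lemma yP_neg (R : W.toAffine.Point) : yP W (-R) = -yP W R := by
  rcases R with _ | ⟨X, Y, h⟩
  · exact neg_zero.symm
  · change ny W X (W.toAffine.negY X Y) = -ny W X Y
    simp only [ny, negY]
    ring

@[simp] lemma ku_zero (x : K) : P.ku x 0 = 0 := by simp [PB.ku]

lemma ku_neg (x y : K) : P.ku x (-y) = -P.ku x y := by simp only [PB.ku, PB.D_neg]; ring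

@[simp] lemma kuP_zero : kuP W P 0 = 0 := by simp [kuP]

lemma kuP_neg (R : W.toAffine.Point) : kuP W P (-R) = -kuP W P R := by
  simp only [kuP, xP_neg, yP_neg, ku_neg]

lemma OnC.neg {B : K} (h : OnC A B x y) : OnC A B x (-y) := by rwa [OnC, neg_sq]

lemma OnC.y_D (h : OnC A P.b x y) : y * P.D y = A ^ 3 * (x * P.D x - 1) := by
  have e := congrArg P.D h
  simp only [PB.D_cube_mul, PB.D_add, PB.D_sq, PB.D_cube, PB.D_b] at e
  linear_combination -e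

lemma OnC.y_dl (h : OnC A P.b x y) : y * P.dl y = A ^ 3 * (x * P.dl x - P.b) := by
  have e := h.y_D
  simp only [PB.dl_apply]
  linear_combination P.b * e

lemma OnC.ku_eq (h : OnC A P.b x y) (hy : y ≠ 0) :
    P.ku x y = A ^ 3 * (x ^ 3 - x ^ 2 + x + P.b + P.dl x) / y := by
  have e := h.y_D
  rw [eq_div_iff hy, PB.ku, PB.dl_apply]
  unfold OnC at h
  linear_combination (norm := grind) (1 + P.D x) * h - (x ^ 2 + x) * e

lemma c0_aux (P : PB K) (x : K) :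
    P.c0 ((x ^ 3 - x ^ 2 + x + P.b + P.dl x) * (x ^ 3 + x ^ 2 + P.b)) = x ^ 2 + x + P.dl x := by
  have hb : P.dl P.b = P.b := by simp [PB.dl_apply]
  have h2 : ∀ u : K, P.dl (u ^ 2) = -(u * P.dl u) := fun u => by
    simp only [PB.dl_apply, PB.D_sq]
    ring
  have h3 : P.dl (P.dl (P.dl x)) = P.dl x := by
    rw [P.dl_dl (P.dl x), PB.c0_dl, zero_pow three_ne_zero, sub_zero]
  have e := P.dl_dl ((x ^ 3 - x ^ 2 + x + P.b + P.dl x) * (x ^ 3 + x ^ 2 + P.b))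
  generalize P.c0 ((x ^ 3 - x ^ 2 + x + P.b + P.dl x) * (x ^ 3 + x ^ 2 + P.b)) = z at e ⊢
  simp only [PB.dl_mul, map_add, map_sub, map_neg, map_zero, PB.dl_cube, h2, hb, h3] at e
  apply cube_inj
  generalize P.dl (P.dl x) = q at e
  generalize P.dl x = p at e ⊢
  linear_combination (norm := grind) e

lemma OnC.c0_ku (h : OnC A P.b x y) (hA : A ≠ 0) (hy : y ≠ 0) :
    P.c0 (P.ku x y) = A ^ 2 * (x ^ 2 + x + P.dl x) / y := by
  have e : P.ku x y = (A ^ 2 / y) ^ 3 *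
      ((x ^ 3 - x ^ 2 + x + P.b + P.dl x) * (x ^ 3 + x ^ 2 + P.b)) := by
    rw [h.ku_eq hy]
    unfold OnC at h
    field_simp
    linear_combination (x ^ 3 - x ^ 2 + x + P.b + P.dl x) * h
  rw [e, PB.c0_cube_mul, c0_aux]
  ring

lemma OnC.ku_sub (h : OnC A P.b x y) (hA : A ≠ 0) : P.ku x y - A * P.c0 (P.ku x y) = y := by
  by_cases hy : y = 0
  · simp [hy]
  rw [h.c0_ku hA hy, h.ku_eq hy]
  unfold OnC at h
  field_simp
  linear_combination (norm := grind) -h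

lemma OnC.ku_sq (h : OnC A P.b x y) (hA : A ≠ 0) (hy : y ≠ 0) :
    P.ku x y ^ 2 / A ^ 3 - P.c0 (P.ku x y) ^ 2 / A = x ^ 3 - x + P.b - P.dl x := by
  have e : P.ku x y = y + A * P.c0 (P.ku x y) := by linear_combination h.ku_sub hA
  have e' : y * P.c0 (P.ku x y) = A ^ 2 * (x ^ 2 + x + P.dl x) := by
    rw [h.c0_ku hA hy]
    field_simp
  generalize P.c0 (P.ku x y) = z at e e'
  rw [e]
  unfold OnC at h
  field_simp
  linear_combination (norm := grind) h - A * e'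

lemma OnC.ku_sub_cube (h : OnC A P.b x y) (hA : A ≠ 0) (hx : x ≠ 0) (hy : y ≠ 0) :
    P.ku x y - (y / (A * x)) ^ 3 =
      A ^ 3 * (x * P.dl x - P.b) / (x * y) - P.b * y / x ^ 3 := by
  rw [h.ku_eq hy]
  unfold OnC at h
  field_simp
  grind

lemma OnC.sub_wp {B : K} (h : OnC A B x y) (hA : A ≠ 0) (hx : x ≠ 0) :
    y - wp A (y / (A * x)) = -(B * y / x ^ 3) := by
  unfold OnC at h
  unfold wp
  field_simp
  linear_combination -y * h

lemma Nd.nA_ne (h : Nd W P) : nA W ≠ 0 := h.b2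

lemma Nd.disc (h : Nd W P) : W.Δ ≠ 0 := fun e => P.b_ne (by rw [h.hb, nB, e, neg_zero, zero_div])

lemma Nd.onC (h : Nd W P) {R : W.toAffine.Point} (hR : R ≠ 0) :
    OnC (nA W) P.b (xP W R) (yP W R) := by
  rcases R with _ | ⟨X, Y, e⟩
  · exact absurd rfl hR
  rw [h.hb]
  exact (eqn_iff h.b2 X Y).1 e.1

lemma Nd.exists_pt (h : Nd W P) (hx : OnC (nA W) P.b x y) :
    ∃ R : W.toAffine.Point, R ≠ 0 ∧ xP W R = x ∧ yP W R = y := by
  have h1 := h.b2
  have e1 : nx W (W.b₂ * x - W.b₄ / W.b₂) = x := by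
    unfold nx
    field_simp
    ring
  have e2 : ny W (W.b₂ * x - W.b₄ / W.b₂)
      (W.a₁ * (W.b₂ * x - W.b₄ / W.b₂) + W.a₃ - y) = y := by
    unfold ny
    generalize W.b₂ * x - W.b₄ / W.b₂ = X
    grind
  exact ⟨.some _ _ ((equation_iff_nonsingular_of_Δ_ne_zero h.disc).1
    ((eqn_iff h1 _ _).2 (by rw [e1, e2, ← h.hb]; exact hx))), Point.some_ne_zero _, e1, e2⟩

lemma nx_inj (h : W.b₂ ≠ 0) {X X' : K} (e : nx W X = nx W X') : X = X' := by
  rwa [nx, nx, div_left_inj' h, add_left_inj] at e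

lemma Nd.eq_of_xy (h : Nd W P) {R S : W.toAffine.Point} (hR : R ≠ 0) (hS : S ≠ 0)
    (e : xP W R = xP W S) (e' : yP W R = yP W S) : R = S := by
  rcases R with _ | ⟨X, Y, h₁⟩
  · exact absurd rfl hR
  rcases S with _ | ⟨X', Y', h₂⟩
  · exact absurd rfl hS
  obtain rfl : X = X' := nx_inj h.b2 e
  obtain rfl : Y = Y' := by
    simp only [yP_some, ny] at e'
    grind
  rfl

lemma Nd.eq_of_xP (h : Nd W P) {R S : W.toAffine.Point} (hR : R ≠ 0) (hS : S ≠ 0)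
    (e : xP W R = xP W S) : R = S ∨ R = -S := by
  rcases R with _ | ⟨X, Y, h₁⟩
  · exact absurd rfl hR
  rcases S with _ | ⟨X', Y', h₂⟩
  · exact absurd rfl hS
  exact Point.X_eq_iff.1 (nx_inj h.b2 e)

lemma line_aux {X₁ X₂ X₃ x₁ x₂ x₃ b b₄ b₆ c l k : K} (x1 : X₁ = A * x₁ - c) (x2 : X₂ = A * x₂ - c)
    (x3 : X₃ = A * x₃ - c) (ec : b₄ = A * c) (eb : A ^ 3 * b = b₆ - A * c ^ 2 - c ^ 3)
    (e1 : A + (X₁ + X₂ + X₃) = l ^ 2) (e2 : b₄ + (X₁ * X₂ + X₁ * X₃ + X₂ * X₃) = l * k)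
    (e3 : b₆ + X₁ * X₂ * X₃ = k ^ 2) :
    A ^ 3 * (x₁ + x₂ + x₃ + 1) = (l * A) ^ 2 ∧
      A ^ 3 * (x₁ * x₂ + x₁ * x₃ + x₂ * x₃) = l * A * (k - l * c) ∧
      A ^ 3 * (x₁ * x₂ * x₃ + b) = (k - l * c) ^ 2 := by
  subst x1 x2 x3 ec
  refine ⟨?_, ?_, ?_⟩
  · linear_combination (norm := grind) A ^ 2 * e1
  · linear_combination (norm := grind) A * e2 - A * c * e1
  · linear_combination (norm := grind) eb + e3 + c * e2 + c ^ 2 * e1

/-- The chord and tangent construction in the normal form. -/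
lemma Nd.line (h : Nd W P) {R S : W.toAffine.Point} (hR : R ≠ 0) (hS : S ≠ 0) (hRS : R + S ≠ 0) :
    ∃ μ ν : K, yP W R = μ * xP W R + ν ∧ yP W S = μ * xP W S + ν ∧
      -yP W (R + S) = μ * xP W (R + S) + ν ∧
      nA W ^ 3 * (xP W R + xP W S + xP W (R + S) + 1) = μ ^ 2 ∧
      nA W ^ 3 * (xP W R * xP W S + xP W R * xP W (R + S) + xP W S * xP W (R + S)) = μ * ν ∧
      nA W ^ 3 * (xP W R * xP W S * xP W (R + S) + P.b) = ν ^ 2 := by
  rcases R with _ | ⟨X₁, Y₁, h₁⟩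
  · exact absurd rfl hR
  rcases S with _ | ⟨X₂, Y₂, h₂⟩
  · exact absurd rfl hS
  have hxy : ¬(X₁ = X₂ ∧ Y₁ = W.toAffine.negY X₂ Y₂) := fun e => hRS (Point.add_of_Y_eq e.1 e.2)
  have e := addPolynomial_slope h₁.1 h₂.1 hxy
  rw [addPolynomial_eq, neg_inj, Cubic.prod_X_sub_C_eq, Cubic.toPoly_injective] at e
  have e0 : Y₂ = W.toAffine.slope X₁ X₂ Y₁ Y₂ * (X₂ - X₁) + Y₁ := by
    by_cases hx : X₁ = X₂
    · rw [Y_eq_of_Y_ne h₁.1 h₂.1 hx fun hy => hxy ⟨hx, hy⟩, hx, sub_self, mul_zero, zero_add]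
    · have := sub_ne_zero.2 hx
      rw [slope_of_X_ne hx]
      field_simp
      ring
  rw [Point.add_some hxy]
  simp only [xP_some, yP_some, addY, negAddY, negY]
  generalize W.toAffine.addX X₁ X₂ (W.toAffine.slope X₁ X₂ Y₁ Y₂) = X₃ at e ⊢
  generalize W.toAffine.slope X₁ X₂ Y₁ Y₂ = l at e e0 ⊢
  simp only [Cubic.mk.injEq, true_and] at e
  obtain ⟨e1, e2, e3⟩ := e
  have e1' : W.b₂ + (X₁ + X₂ + X₃) = (2 * l + W.a₁) ^ 2 := by
    have : -l ^ 2 - W.a₁ * l + W.a₂ = -(X₁ + X₂ + X₃) := e1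
    rw [b₂]
    linear_combination (norm := grind) this
  have e2' : W.b₄ + (X₁ * X₂ + X₁ * X₃ + X₂ * X₃) =
      (2 * l + W.a₁) * (2 * (Y₁ - l * X₁) + W.a₃) := by
    have : 2 * X₁ * l ^ 2 + (W.a₁ * X₁ - 2 * Y₁ - W.a₃) * l + (-W.a₁ * Y₁ + W.a₄) =
      X₁ * X₂ + X₁ * X₃ + X₂ * X₃ := e2
    rw [b₄]
    linear_combination (norm := grind) -this
  have e3' : W.b₆ + X₁ * X₂ * X₃ = (2 * (Y₁ - l * X₁) + W.a₃) ^ 2 := by
    have : -X₁ ^ 2 * l ^ 2 + (2 * X₁ * Y₁ + W.a₃ * X₁) * l - (Y₁ ^ 2 + W.a₃ * Y₁ - W.a₆) =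
      -(X₁ * X₂ * X₃) := e3
    rw [b₆]
    linear_combination (norm := grind) this
  have h1 := h.b2
  have ex : ∀ X, X = W.b₂ * nx W X - W.b₄ / W.b₂ := fun X => by
    unfold nx
    field_simp
    ring
  have ec : W.b₄ = W.b₂ * (W.b₄ / W.b₂) := by field_simp
  have eb : W.b₂ ^ 3 * P.b = W.b₆ - W.b₂ * (W.b₄ / W.b₂) ^ 2 - (W.b₄ / W.b₂) ^ 3 := by
    rw [h.hb, nB, disc_eq]
    field_simp
    ring
  have x1 := ex X₁
  have x2 := ex X₂
  have x3 := ex X₃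
  refine ⟨(2 * l + W.a₁) * W.b₂, 2 * (Y₁ - l * X₁) + W.a₃ - (2 * l + W.a₁) * (W.b₄ / W.b₂),
    ?_, ?_, ?_, line_aux x1 x2 x3 ec eb e1' e2' e3'⟩
  · unfold ny
    linear_combination (2 * l + W.a₁) * x1
  · unfold ny
    linear_combination (2 * l + W.a₁) * x2 + 2 * e0
  · unfold ny
    linear_combination (2 * l + W.a₁) * x3

/-- The descent function on a line. -/
lemma ku_line {x₁ x₂ x₃ μ ν : K} (hA : A ≠ 0) (e1 : A ^ 3 * (x₁ + x₂ + x₃ + 1) = μ ^ 2)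
    (e2 : A ^ 3 * (x₁ * x₂ + x₁ * x₃ + x₂ * x₃) = μ * ν)
    (e3 : A ^ 3 * (x₁ * x₂ * x₃ + P.b) = ν ^ 2) :
    P.ku x₁ (μ * x₁ + ν) + P.ku x₂ (μ * x₂ + ν) + P.ku x₃ (μ * x₃ + ν) = (μ / A) ^ 3 := by
  have d1 := congrArg P.D e1
  have d2 := congrArg P.D e2
  have d3 := congrArg P.D e3
  simp only [PB.D_cube_mul, PB.D_add, PB.D_sq, PB.D_one, PB.D_b] at d1 d2 d3
  simp only [PB.D_mul] at d2 d3
  simp only [PB.ku, PB.D_add, PB.D_mul]
  rw [div_pow, eq_div_iff (pow_ne_zero 3 hA)]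
  generalize P.D x₁ = p₁ at *
  generalize P.D x₂ = p₂ at *
  generalize P.D x₃ = p₃ at *
  generalize P.D μ = m at *
  generalize P.D ν = n at *
  generalize A ^ 3 = a at *
  linear_combination (norm := grind)
    (μ - m * ((x₁ + x₂ + x₃) ^ 2 - (x₁ * x₂ + x₁ * x₃ + x₂ * x₃)) - n * (x₁ + x₂ + x₃)) * e1 -
    (m + n + m * (x₁ + x₂ + x₃ + 1)) * e2 +
    (ν - μ * ((x₁ + x₂ + x₃) ^ 2 - (x₁ * x₂ + x₁ * x₃ + x₂ * x₃))) * d1 +
    μ * (x₁ + x₂ + x₃) * d2 - μ * d3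

lemma Nd.ku_add (h : Nd W P) (R S : W.toAffine.Point) :
    kuP W P (R + S) - (kuP W P R + kuP W P S) ∈ Cub K := by
  by_cases hR : R = 0
  · simp [hR]
  by_cases hS : S = 0
  · simp [hS]
  by_cases hRS : R + S = 0
  · rw [hRS, eq_neg_of_add_eq_zero_left hRS, kuP_neg]
    simp
  obtain ⟨μ, ν, y1, y2, y3, e1, e2, e3⟩ := h.line hR hS hRS
  have e := ku_line (P := P) h.nA_ne e1 e2 e3
  rw [← y1, ← y2, ← y3, ku_neg] at e
  refine mem_Cub.2 ⟨-(μ / nA W), ?_⟩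
  unfold kuP
  linear_combination e

/-- The descent homomorphism. -/
noncomputable def Nd.kap (h : Nd W P) : W.toAffine.Point →+ K × K :=
  AddMonoidHom.mk' (fun R => P.cls (kuP W P R)) fun R S => by
    rw [← map_add, ← sub_eq_zero, ← map_sub, ← AddMonoidHom.mem_ker, P.ker_cls]
    exact h.ku_add R S

lemma Nd.kap_apply (h : Nd W P) (R : W.toAffine.Point) : h.kap R = P.cls (kuP W P R) := rfl

/-- The derivative of the descent function. -/
noncomputable def Nd.kd (h : Nd W P) : W.toAffine.Point →+ K :=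
  AddMonoidHom.mk' (fun R => P.dl (kuP W P R)) fun R S => by
    obtain ⟨t, ht⟩ := mem_Cub.1 (h.ku_add R S)
    rw [← map_add, ← sub_eq_zero, ← map_sub, ← ht, PB.dl_cube]

lemma Nd.kd_apply (h : Nd W P) (R : W.toAffine.Point) : h.kd R = P.dl (kuP W P R) := rfl

/-- The normal form. -/
def EW (A B : K) : WeierstrassCurve K := ⟨0, A, 0, 0, A ^ 3 * B⟩

lemma nA_EW (A B : K) : nA (EW A B) = A := by
  simp only [nA, EW, b₂]
  grind

lemma nd_EW (P : PB K) (hA : A ≠ 0) : Nd (EW A P.b) P := by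
  have e2 : (EW A P.b).b₂ = A := nA_EW A P.b
  have e4 : (EW A P.b).b₄ = 0 := by simp [EW, b₄]
  have e6 : (EW A P.b).b₆ = A ^ 3 * P.b := by
    simp only [EW, b₆]
    grind
  refine ⟨by rwa [e2], ?_⟩
  rw [nB, disc_eq, e2, e4, e6]
  field_simp
  ring

lemma nA_smul (h : W.b₂ ≠ 0) (C : VariableChange K) :
    (C • W).b₂ ≠ 0 ∧ nB (C • W) = nB W ∧ nA (C • W) = ((C.u⁻¹ : Kˣ) : K) ^ 2 * nA W := by
  have hu : ((C.u⁻¹ : Kˣ) : K) ≠ 0 := Units.ne_zero _
  have e1 : (C • W).b₂ = ((C.u⁻¹ : Kˣ) : K) ^ 2 * W.b₂ := by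
    rw [variableChange_b₂]
    grind
  refine ⟨by rw [e1]; exact mul_ne_zero (pow_ne_zero 2 hu) h, ?_, e1⟩
  rw [nB, nB, e1, variableChange_Δ]
  field_simp

section map

variable {L : Type} [Field L] [CharP L 3] (f : K →+* L)

lemma nA_map (W : WeierstrassCurve K) : nA (W.map f) = f (nA W) := by simp [nA]

lemma nB_map (W : WeierstrassCurve K) : nB (W.map f) = f (nB W) := by simp [nB]

lemma nx_map (W : WeierstrassCurve K) (X : K) : nx (W.map f) (f X) = f (nx W X) := by simp [nx]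

lemma ny_map (W : WeierstrassCurve K) (X Y : K) : ny (W.map f) (f X) (f Y) = f (ny W X Y) := by
  simp [ny, map_ofNat]

lemma Nd.map (h : Nd W P) {Q : PB L} (hQ : Q.b = f P.b) : Nd (W.map f) Q :=
  ⟨by simpa using h.b2, by rw [hQ, nB_map, h.hb]⟩

lemma OnC.map {B : K} (h : OnC A B x y) : OnC (f A) (f B) (f x) (f y) := by
  simpa [OnC] using congrArg f h

lemma map_ku {Q : PB L} (hQ : Q.b = f P.b) (x y : K) : Q.ku (f x) (f y) = f (P.ku x y) := by
  simp [PB.ku, P.map_D hQ]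

end map

end Pool.Agent.Lib.MP_a3f657_nt.Three
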