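import Pool.Agent.Lib.MP_a3f657_nt.C3Fg

/-!
Local duality: the image of the descent map is maximal isotropic.
-/

set_option linter.unusedSectionVars false

namespace Pool.Agent.Lib.MP_a3f657_nt.Three

open Pool.Agent.Lib.MP_a3f657_nt.Two

open scoped Classical

variable {K : Type} [Field K] [CharP K 3] {L : PreLoc K} {W : WeierstrassCurve K} {P : PB K}
  {A α u : K}

lemma ld_FF_anti (L : PreLoc K) {a b : ℤ} (h : b ≤ a) : L.FF a ≤ L.FF b :=
  sup_le_sup_right (Fil_anti h) _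

lemma ld_Fil_le (L : PreLoc K) (a : ℤ) : Fil L.w a ≤ L.FF a := le_sup_left

lemma ld_Cub_le (L : PreLoc K) (a : ℤ) : Cub K ≤ L.FF a := le_sup_right

lemma ld_dl_Cub (P : PB K) (h : u ∈ Cub K) : P.dl u = 0 := by
  obtain ⟨t, rfl⟩ := mem_Cub.1 h
  exact P.dl_cube t

lemma ld_Cub_of_dl (P : PB K) (h : P.dl u ∈ Cub K) : u ∈ Cub K := by
  have e := ld_dl_Cub P h
  rw [P.dl_dl, sub_eq_zero] at e
  exact mem_Cub.2 ⟨_, e.symm⟩

lemma ld_cube_mem (L : PreLoc K) (A : K) : A ^ 3 ∈ Fil L.w (3 * ord L.w A) :=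
  Fil_cube (mem_Fil_ord A) le_rfl

/-- The image of the points close to the origin. -/
lemma Nd.kd_surj (h : Nd W P) (hc : Cpl L.w) : ∃ n₀, ∀ n, n₀ ≤ n →
    (∀ R, Near L W n R → h.kd R ∈ L.FF (n + 3 * ord L.w (nA W))) ∧
    ∀ x ∈ L.FF (n + 3 * ord L.w (nA W)), ∃ R, Near L W n R ∧ h.kd R - x ∈ Cub K := by
  obtain ⟨n₁, h1⟩ := h.exists_big L
  obtain ⟨n₂, h2⟩ := h.kd_near L
  have hA := h.nA_ne
  set al := ord L.w (nA W) with hal
  have H1 : ∀ n, max (max n₁ n₂) 0 ≤ n → ∀ R, Near L W n R → h.kd R ∈ L.FF (n + 3 * al) :=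
    fun n hn R hR => by
      have e := add_mem (ld_FF_anti L (by omega) (h2 n (by omega) R hR))
        (ld_Fil_le L _ (Fil.mul (ld_cube_mem L (nA W)) ((h1.mono (by omega)).sP_mem hR)
          (c := n + 3 * al) (by omega)))
      rwa [sub_add_cancel] at e
  have H2 : ∀ n, max (max n₁ n₂) 0 ≤ n → ∀ x ∈ L.FF (n + 3 * al),
      ∃ R, Near L W n R ∧ x - h.kd R ∈ L.FF (n + 1 + 3 * al) := fun n hn x hx => by
    obtain ⟨f, hf, c, hc', rfl⟩ := AddSubgroup.mem_sup.1 hx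
    obtain ⟨R, hR, e⟩ := (h1.mono (N := n) (by omega)).exists_pt hc (σ := f / nA W ^ 3)
      (Fil.div hf (by rw [ord_cube]; omega))
    have e1 := h2 n (by omega) R hR
    rw [e, mul_div_cancel₀ _ (pow_ne_zero 3 hA)] at e1
    refine ⟨R, hR, ?_⟩
    rw [show f + c - h.kd R = c - (h.kd R - f) by ring]
    exact sub_mem (ld_Cub_le L _ hc') (ld_FF_anti L (by omega) e1)
  refine ⟨max (max n₁ n₂) 0, fun n hn => ⟨H1 n hn, fun x hx => ?_⟩⟩
  choose! g hg1 hg2 using H2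
  have hb := h1.mono (N := n) (by omega)
  let T : ℕ → W.toAffine.Point := fun k =>
    Nat.rec 0 (fun k R => R + g (n + k) (x - h.kd R)) k
  have hT : ∀ k : ℕ, T (k + 1) = T k + g (n + k) (x - h.kd (T k)) := fun k => rfl
  have H3 : ∀ k : ℕ, Near L W n (T k) ∧ x - h.kd (T k) ∈ L.FF (n + k + 3 * al) := fun k => by
    induction k with
    | zero => exact ⟨Or.inl rfl, by simpa [T] using hx⟩
    | succ k ih =>
      rw [hT]
      refine ⟨hb.near_add ih.1 ((hg1 _ (by omega) _ ih.2).mono (by omega)), ?_⟩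
      have := hg2 _ (by omega) _ ih.2
      rw [map_add, ← sub_sub]
      exact ld_FF_anti L (by push_cast; omega) this
  obtain ⟨l, hl⟩ := hc (fun k => sP W (T k)) fun k => by
    refine Fil.mono ((hb.near_sub (N := n + k) (H3 (k + 1)).1 (H3 k).1 (by omega)).1 ?_)
      (by omega)
    rw [hT, add_sub_cancel_left]
    exact hg1 _ (by omega) _ (H3 k).2
  have hl' : l ∈ Fil L.w n := by
    have := add_mem (Fil.mono (hl n.toNat) (b := n) (by omega)) (hb.sP_mem (H3 n.toNat).1)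
    rwa [sub_add_cancel] at this
  obtain ⟨R, hR, e⟩ := hb.exists_pt hc hl'
  refine ⟨R, hR, L.Cub_of_FF fun m => ?_⟩
  obtain ⟨k, hk⟩ : ∃ k : ℕ, k = m + n.toNat + (3 * al).natAbs := ⟨_, rfl⟩
  have e1 := H1 k (by omega) _ ((hb.near_sub (N := k) hR (H3 k).1 (by omega)).2 (e ▸ hl k))
  rw [show h.kd R - x = h.kd (R - T k) - (x - h.kd (T k)) by rw [map_sub]; ring]
  exact sub_mem (ld_FF_anti L (by omega) e1) (ld_FF_anti L (by omega) (H3 k).2)

lemma relIndex_comap_dl (L : PreLoc K) (P : PB K) {i j : ℤ} (hij : i ≤ j)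
    (h : (L.FF j).comap P.dl ≤ L.FF i) :
    ((L.FF j).comap P.dl).relIndex (L.FF i) = (L.FF j).relIndex (L.FF i) := by
  have e1 : (L.FF j).map P.dl ⊔ L.FF j = (L.FF j).comap P.dl ⊔ L.FF j := by
    refine le_antisymm (sup_le_sup_right ?_ _) (sup_le (fun x hx => ?_) le_sup_right)
    · rintro _ ⟨x, hx, rfl⟩
      rw [AddSubgroup.mem_comap, P.dl_dl]
      exact sub_mem hx (ld_Cub_le L _ (cube_mem _))
    · refine AddSubgroup.mem_sup.2 ⟨_, ⟨_, hx, rfl⟩, _, ld_Cub_le L _ (cube_mem (P.c0 x)), ?_⟩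
      rw [P.dl_dl, sub_add_cancel]
  have e2 : ((L.FF j).comap P.dl).relIndex (L.FF j) = (L.FF j).relIndex ((L.FF j).comap P.dl) := by
    rw [AddSubgroup.relIndex_comap, ← AddSubgroup.relIndex_sup_right ((L.FF j).map P.dl), e1,
      AddSubgroup.relIndex_sup_right]
  have e3 : (L.FF j).relIndex ((L.FF j).comap P.dl) ≠ 0 := fun e =>
    L.relIndex_FF_ne _ _ (AddSubgroup.relIndex_eq_zero_of_le_right h e)
  have e4 := AddSubgroup.relIndex_mul_relIndex (L.FF j ⊓ (L.FF j).comap P.dl) _ _ inf_le_left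
    (ld_FF_anti L hij)
  have e5 := AddSubgroup.relIndex_mul_relIndex (L.FF j ⊓ (L.FF j).comap P.dl) _ _ inf_le_right h
  rw [AddSubgroup.inf_relIndex_left, e2] at e4
  rw [AddSubgroup.inf_relIndex_right] at e5
  exact mul_left_cancel₀ e3 (e5.trans e4.symm)

lemma FF_of_orth (hA : A ≠ 0) {j : ℤ}
    (h : ∀ x ∈ (L.FF j).comap P.dl, L.pair P A (P.dl u) (P.dl x) = 0) :
    u ∈ L.FF (3 * ord L.w A - j + 1) := by
  rw [L.mem_FF, show 3 * ord L.w A - j + 1 - 1 = -(j - 3 * ord L.w A) by ring]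
  refine L.mem_of_r fun y hy => ?_
  have h1 : A ^ 3 * y ∈ Fil L.w j := Fil.mul (ld_cube_mem L A) hy (by omega)
  have h2 := h (P.dl (A ^ 3 * y)) (by
    rw [AddSubgroup.mem_comap, P.dl_dl]
    exact sub_mem (ld_Fil_le L _ h1) (ld_Cub_le L _ (cube_mem _)))
  have h3 : L.rho P ((P.c0 (A ^ 3 * y) / A) ^ 3 * P.dl u) = 0 := by
    rw [← L.rho_c0, P.c0_cube_mul, P.c0_dl, mul_zero, map_zero]
  rw [L.pair_apply, P.dl_dl, show P.dl u * (A ^ 3 * y - P.c0 (A ^ 3 * y) ^ 3) / A ^ 3 =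
    P.dl u * y - (P.c0 (A ^ 3 * y) / A) ^ 3 * P.dl u by field_simp, map_sub, h3, sub_zero,
    L.rho_apply, mul_right_comm, L.dl_mul_om] at h2
  exact h2

lemma comap_of_orth (hA : A ≠ 0) {i : ℤ}
    (h : ∀ x ∈ L.FF i, L.pair P A (P.dl u) (P.dl x) = 0) :
    u ∈ (L.FF (3 * ord L.w A - i + 1)).comap P.dl := by
  rw [AddSubgroup.mem_comap, L.mem_FF,
    show 3 * ord L.w A - i + 1 - 1 = -(i - 3 * ord L.w A) by ring]
  refine L.mem_of_r fun y hy => ?_
  have h2 := h (A ^ 3 * y) (ld_Fil_le L _ (Fil.mul (ld_cube_mem L A) hy (by omega)))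
  rw [L.pair_apply, P.dl_mul, P.dl_cube, mul_zero, add_zero,
    show P.dl u * (A ^ 3 * P.dl y) / A ^ 3 = P.dl u * P.dl y by field_simp, L.rho_apply,
    mul_assoc, L.dl_mul_om] at h2
  have h3 := L.r_D (P.dl u * y)
  rwa [L.P.D_mul, map_add, h2, zero_add, mul_comm] at h3

lemma index_sup_three {G : Type} [AddCommGroup G] {E : AddSubgroup G} (h : E.index ≠ 0) :
    (E ⊔ (nsmulAddMonoidHom 3 : G →+ G).range).index =
      E.relIndex (E.comap (nsmulAddMonoidHom 3 : G →+ G)) := by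
  have h1 : E ≤ E.comap (nsmulAddMonoidHom 3 : G →+ G) := fun x hx => nsmul_mem hx 3
  have e1 := AddSubgroup.relIndex_mul_index h1
  have e2 := AddSubgroup.relIndex_mul_index
    (le_sup_left : E ≤ E ⊔ (nsmulAddMonoidHom 3 : G →+ G).range)
  rw [AddSubgroup.relIndex_sup_left, AddMonoidHom.range_eq_map, ← AddSubgroup.relIndex_comap,
    AddSubgroup.relIndex_top_right, ← AddMonoidHom.range_eq_map, mul_comm] at e2
  exact mul_right_cancel₀ (fun e => h (by rw [← e1, e, mul_zero])) (e2.trans e1.symm)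

lemma Nd.ld_map_dl (h : Nd W P) : (Lt P (nA W)).map P.dl = h.kd.range := by
  refine le_antisymm ?_ ?_
  · rintro _ ⟨u, hu, rfl⟩
    obtain ⟨R, hR⟩ := h.mem_Lt.1 hu
    have e := ld_dl_Cub P hR
    rw [map_sub, sub_eq_zero] at e
    exact ⟨R, e.symm⟩
  · rintro _ ⟨R, rfl⟩
    exact ⟨_, h.mem_Lt.2 ⟨R, by rw [sub_self]; exact zero_mem _⟩, rfl⟩

/-- The image of the descent map is maximal isotropic. -/
theorem Lt_of_orth (hc : Cpl L.w) (hA : A ≠ 0)
    (h : ∀ l ∈ Lt P A, L.pair P A (P.dl u) (P.dl l) = 0) : u ∈ Lt P A := by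
  have hW := nd_EW P hA
  obtain ⟨n₁, h1⟩ := hW.exists_big L
  obtain ⟨n₂, h2⟩ := hW.kd_surj hc
  obtain ⟨m, hm⟩ : ∃ m : ℤ, m = max n₁ n₂ := ⟨_, rfl⟩
  have hb := h1.mono (N := m) (by omega)
  have h3 := hb.h1
  have h4 := fun R => hb.three_near (R := R)
  have h5 := fun u => hW.mem_Lt (u := u)
  have h6 := hW.ld_map_dl
  rw [nA_EW] at h2 h3 h6
  simp only [nA_EW] at h4 h5
  set al := ord L.w A with hal
  obtain ⟨h7, h8⟩ := h2 (3 * m + 3 * al) (by omega)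
  have hmn : m ≤ 3 * m + 3 * al := by omega
  let φ : K →+ K →+ ZMod 3 := ((L.pair P A).comp P.dl).compl₂ P.dl
  have hφ : ∀ x y, φ x y = L.pair P A (P.dl x) (P.dl y) := fun x y => rfl
  let F := L.FF (3 * m + 3 * al + 3 * al)
  let Lp := (ann (Lt P A)).comap φ
  have hLp : ∀ x, x ∈ Lp ↔ ∀ l ∈ Lt P A, φ x l = 0 := fun x => Iff.rfl
  have a1 : F.comap P.dl ≤ Lt P A := fun x hx => by
    obtain ⟨R, -, hR⟩ := h8 _ hx
    rw [hW.kd_apply, ← map_sub] at hR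
    have := neg_mem (ld_Cub_of_dl P hR)
    rw [neg_sub] at this
    exact (h5 x).2 ⟨R, this⟩
  have a2 : Lt P A ≤ Lp := fun x hx => (hLp x).2 fun l hl => by
    rw [hφ, L.pair_apply]
    exact rho_iso (L.rho_c0 P) hA hx hl
  have a3 : Lp ≤ L.FF (3 * (-m - al) + 1) := fun x hx =>
    ld_FF_anti L (by omega) (FF_of_orth hA fun y hy => (hLp x).1 hx y (a1 hy))
  have b1 : (F.comap P.dl).relIndex (L.FF (3 * (-m - al) + 1)) =
      L.Q ^ (2 * (2 * m + 3 * al).toNat) := by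
    rw [relIndex_comap_dl L P (by omega) (a1.trans (a2.trans a3)), L.FF_three,
      show 3 * m + 3 * al + 3 * al = 3 * (m + 2 * al) by ring, L.relIndex_FF (by omega)]
    congr 3
    ring
  have b2 : F.comap hW.kd = (hb.mono hmn).EE ⊔ (nsmulAddMonoidHom 3).range := by
    refine le_antisymm (fun R hR => ?_) (sup_le (fun R hR => h7 R hR) ?_)
    · obtain ⟨S, hS, e⟩ := h8 _ hR
      rw [← map_sub, hW.kd_apply] at e
      obtain ⟨T, hT⟩ := hW.ku_mem_Cub.1 (ld_Cub_of_dl P e)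
      refine AddSubgroup.mem_sup.2 ⟨S, hS, _, neg_mem ⟨T, rfl⟩, ?_⟩
      rw [nsmulAddMonoidHom_apply, hT]
      abel
    · rintro _ ⟨R, rfl⟩
      rw [AddSubgroup.mem_comap, nsmulAddMonoidHom_apply, map_nsmul, three_K]
      exact zero_mem _
  have b3 : L.Q ^ (2 * m + 3 * al).toNat ≤ (F.comap P.dl).relIndex (Lt P A) := by
    have e := (hb.mono hmn).index_EE
    rw [AddSubgroup.relIndex_comap, h6, AddMonoidHom.range_eq_map, ← AddSubgroup.relIndex_comap,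
      AddSubgroup.relIndex_top_right, b2, index_sup_three e,
      show 2 * m + 3 * al = 3 * m + 3 * al - m by ring]
    exact (hb.le_relIndex hc hmn).trans (AddSubgroup.relIndex_le_of_le_right
      (fun R hR => h4 R hR) fun e0 => e (AddSubgroup.index_eq_zero_of_relIndex_eq_zero e0))
  have b4 : L.Q ^ (2 * (2 * m + 3 * al).toNat) ≠ 0 := pow_ne_zero _ L.Q_ne
  obtain ⟨-, c1, c2⟩ := dual_le three_K φ (G₀ := F.comap P.dl) (G₁ := Lt P A) (H₀ := Lp)
    (H₁ := L.FF (3 * (-m - al) + 1))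
    (fun e => b4 (b1 ▸ AddSubgroup.relIndex_eq_zero_of_le_left (a1.trans a2) e))
    (fun g hg y hy _ => by rw [hφ, L.pair_comm]; exact (hLp y).1 hy g hg)
    (fun g _ hg => ld_FF_anti L (by omega) (comap_of_orth hA hg))
  have b5 := b3.trans (c1.trans c2)
  have e1 := AddSubgroup.relIndex_mul_relIndex _ _ _ (a1.trans a2) a3
  rw [← AddSubgroup.relIndex_mul_relIndex _ _ _ a1 a2, b1] at e1
  have e2 : (Lt P A).relIndex Lp = 1 := by
    have e3 : (Lt P A).relIndex Lp ≠ 0 := fun e => b4 (by rw [← e1, e, mul_zero, zero_mul])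
    have e4 := Nat.mul_le_mul (Nat.mul_le_mul_right ((Lt P A).relIndex Lp) b3) b5
    rw [e1, mul_right_comm, ← pow_add, ← two_mul] at e4
    have e5 := Nat.le_of_mul_le_mul_left (e4.trans_eq (mul_one _).symm) (Nat.pos_of_ne_zero b4)
    omega
  exact AddSubgroup.relIndex_eq_one.1 e2 ((hLp u).2 h)

lemma ld_hh_Cub (h : u ∈ Cub K) : hh P A u ∈ WP A := by
  obtain ⟨t, rfl⟩ := mem_Cub.1 h
  exact ⟨t, (hh_cube t).symm⟩

lemma Nd.ld_hh_kuP (h : Nd W P) (R : W.toAffine.Point) : hh P (nA W) (kuP W P R) = yP W R := by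
  by_cases hR : R = 0
  · simp [hR]
  · exact hh_ku h.nA_ne (h.onC hR)

theorem relIndex_AA_ne (L : PreLoc K) (hc : Cpl L.w) (P : PB K) (hA : A ≠ 0) :
    (WP A).relIndex (AA P A) ≠ 0 := by
  have hW := nd_EW P hA
  obtain ⟨n₁, h1⟩ := hW.exists_big L
  obtain ⟨n₂, h2⟩ := hW.y_near L hc
  have hb := h1.mono (N := max n₁ n₂) (by omega)
  have h5 := fun u => hW.mem_Lt (u := u)
  have h6 := hW.ld_hh_kuP
  simp only [nA_EW] at h2 h5 h6
  have : Finite (_ ⧸ hb.EE) := AddSubgroup.index_ne_zero_iff_finite.1 hb.index_EE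
  refine relIndex_ne_of_rep
    (Set.finite_range fun c : _ ⧸ hb.EE => hh P A (kuP _ P c.out)) ?_
  rintro _ ⟨u, hu, rfl⟩
  obtain ⟨R, hR⟩ := (h5 u).1 hu
  refine ⟨_, ⟨(R : _ ⧸ hb.EE), rfl⟩, ?_⟩
  have e : R - (R : _ ⧸ hb.EE).out ∈ hb.EE :=
    QuotientAddGroup.eq_iff_sub_mem.1 (QuotientAddGroup.out_eq' _).symm
  beta_reduce
  generalize (R : _ ⧸ hb.EE).out = S at e ⊢
  have e1 := ld_hh_Cub (P := P) (A := A) (add_mem hR (hW.ku_add S (R - S)))
  have e2 := h2 _ (le_max_right _ _) _ e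
  rw [← h6] at e2
  have e3 := add_mem e1 e2
  rw [add_sub_cancel, ← map_add] at e3
  rw [← map_sub]
  convert e3 using 2
  ring

lemma BB_of_orth (hc : Cpl L.w) (hA : A ≠ 0) (hu : u ∈ Log P A)
    (h : ∀ α ∈ AA P A, L.pair P A α u = 0) : u ∈ BB P A := by
  refine ⟨Lt_of_orth hc hA fun l hl => ?_, hu⟩
  rw [L.pair_comm, L.pair_apply, rho_Log (L.rho_c0 P) hA l hu, ← L.pair_apply,
    h _ ⟨l, hl, rfl⟩, neg_zero]

theorem local_duality (L : PreLoc K) (hc : Cpl L.w) (P : PB K) (hA : A ≠ 0) :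
    (BB P A).relIndex (Log P A) ≠ 0 ∧ (BB P A).relIndex (Log P A) ≤ (WP A).relIndex (AA P A) := by
  obtain ⟨h1, h2, h3⟩ := dual_le three_K (L.pair P A) (G₀ := BB P A) (G₁ := Log P A)
    (relIndex_AA_ne L hc P hA)
    (fun u hu α hα _ => by rw [L.pair_comm]; exact L.pair_WP P hA hα hu)
    (fun u hu H => BB_of_orth hc hA hu fun α hα => by rw [L.pair_comm]; exact H α hα)
  exact ⟨h1, h2.trans h3⟩

lemma AA_of_orth (hc : Cpl L.w) (hA : A ≠ 0) (h : ∀ u ∈ BB P A, L.pair P A α u = 0) :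
    α ∈ AA P A := by
  obtain ⟨h1, h2⟩ := local_duality L hc P hA
  obtain ⟨α', h3, h4⟩ := dual_rep three_K (L.pair P A) (G₀ := WP A) (G₁ := AA P A) h1
    (fun β hβ u hu _ => by rw [L.pair_apply]; exact rho_orth (L.rho_c0 P) hA hβ hu)
    (fun β _ hβ => L.WP_of_pair P hc hA hβ) h2 ((L.pair P A α).comp (Log P A).subtype)
    fun u hu => h _ hu
  have h5 := WP_le_AA (P := P) (L.WP_of_pair P hc hA (α := α - α') fun u hu => by
    rw [map_sub, AddMonoidHom.sub_apply, h4 ⟨u, hu⟩]; exact sub_self _)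
  simpa using add_mem h5 h3

end Pool.Agent.Lib.MP_a3f657_nt.Three
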