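import Pool.Agent.Lib.MP_a3f657_nt.C2Cpl
import Pool.Agent.Lib.MP_a3f657_nt.C3Lt
import Pool.Agent.Lib.MP_a3f657_nt.C3Dual

/-!
Discretely valued fields of characteristic three with a residue functional.
-/

set_option linter.unusedSectionVars false

namespace Pool.Agent.Lib.MP_a3f657_nt.Three

open Pool.Agent.Lib.MP_a3f657_nt.Two

open WithZero

variable {K : Type} [Field K] [CharP K 3]

section Fil

variable {w : Valuation K ℤᵐ⁰} {A x y : K} {a b c : ℤ}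

lemma ord_cube (x : K) : ord w (x ^ 3) = 3 * ord w x := ord_pow x 3

lemma ord_neg (x : K) : ord w (-x) = ord w x := by simp [ord]

lemma Fil_cube (hx : x ∈ Fil w a) (h : c ≤ 3 * a) : x ^ 3 ∈ Fil w c := Fil.pow hx 3 h

lemma Fil_of_cube (hx : x ^ 3 ∈ Fil w a) (h : 3 * c ≤ a + 2) : x ∈ Fil w c := by
  by_cases h1 : x = 0
  · simp [h1]
  rw [mem_Fil_iff (pow_ne_zero 3 h1), ord_cube] at hx
  exact mem_Fil_of_le (by omega)

lemma Fil_of_wp (hA : A ∈ Fil w 0) (hx : wp A x ∈ Fil w 0) : x ∈ Fil w 0 := by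
  by_contra hn
  obtain ⟨h1, h2⟩ := not_mem_Fil.1 hn
  obtain ⟨h3, h4⟩ := ord_add (w := w) (pow_ne_zero 3 h1) (y := -(A * x))
    (neg_mem (Fil.mul hA (mem_Fil_ord x) (by rw [ord_cube]; omega)))
  rw [wp, sub_eq_add_neg, mem_Fil_iff h3, h4, ord_cube] at hx
  omega

lemma Fil_le_WP (h : Cpl w) (hA : A ≠ 0) (hN : 3 * ord w A + 1 ≤ 2 * a) : Fil w a ≤ WP A := by
  intro x hx
  obtain ⟨z, -, e⟩ := h.fix4 (a := a - ord w A) (c₀ := -x / A) (c₂ := 0) (c₃ := A⁻¹) (c₄ := 0)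
    (Fil.div (neg_mem hx) le_rfl) (zero_mem _) (mem_Fil_of_le (by rw [ord_inv]; omega)) (zero_mem _)
  refine ⟨z, ?_⟩
  rw [wpH_apply, wp]
  field_simp at e
  linear_combination e

lemma exists_sq_one_add (h : Cpl w) (hx : x ∈ Fil w a) (ha : 1 ≤ a) :
    ∃ z ∈ Fil w a, (1 + z) ^ 2 = 1 + x := by
  obtain ⟨z, hz, e⟩ := h.fix4 (c₂ := 1) (c₃ := 0) (c₄ := 0) (neg_mem hx) (Fil.one (by omega))
    (zero_mem _) (zero_mem _)
  exact ⟨z, hz, by linear_combination e + z * (three_eq (K := K))⟩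

lemma isSquare_iff (h : Cpl w) (hA : A ≠ 0) (h0 : ord w A = 0) :
    IsSquare A ↔ ∃ z ∈ Fil w 0, z ^ 2 - A ∈ Fil w 1 := by
  refine ⟨fun ⟨z, hz⟩ => ⟨z, Fil.of_sq (a := 0) (mem_Fil_of_le ?_) (by omega), ?_⟩,
    fun ⟨z, _, hz⟩ => ?_⟩
  · rw [sq, ← hz, h0]
  · rw [sq, ← hz, sub_self]
    exact zero_mem _
  · obtain ⟨t, ht, e⟩ := exists_sq_one_add h (Fil.div hz (y := A) (c := 1) (by omega)) le_rfl
    have h1 := (ord_one_add ht).1
    refine ⟨z / (1 + t), ?_⟩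
    field_simp at e ⊢
    linear_combination e

omit [CharP K 3] in
private lemma ord_add_min (hx : x ≠ 0) (hy : y ≠ 0) (h : ord w x ≠ ord w y) :
    x + y ≠ 0 ∧ ord w (x + y) = min (ord w x) (ord w y) := by
  rcases lt_or_gt_of_ne h with h | h
  · rw [min_eq_left h.le]
    exact ord_add hx (mem_Fil_of_le h)
  · rw [min_eq_right h.le, add_comm]
    exact ord_add hy (mem_Fil_of_le h)

omit [CharP K 3] in
private lemma Fil_parts (hxy : x + y ∈ Fil w a) (h : x ≠ 0 → y ≠ 0 → ord w x ≠ ord w y) :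
    x ∈ Fil w a ∧ y ∈ Fil w a := by
  by_cases hx : x = 0
  · simpa [hx] using hxy
  by_cases hy : y = 0
  · simpa [hy] using hxy
  obtain ⟨h1, h2⟩ := ord_add_min hx hy (h hx hy)
  rw [mem_Fil_iff h1, h2, le_min_iff] at hxy
  exact ⟨mem_Fil_of_le hxy.1, mem_Fil_of_le hxy.2⟩

end Fil

/-- The relative index of a product of two subgroups. -/
private lemma relIndex_prod {G H : Type} [AddCommGroup G] [AddCommGroup H] (G₀ G₁ : AddSubgroup G)
    (H₀ H₁ : AddSubgroup H) :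
    (G₀.prod H₀).relIndex (G₁.prod H₁) = G₀.relIndex G₁ * H₀.relIndex H₁ := by
  rw [AddSubgroup.relIndex, AddSubgroup.relIndex, AddSubgroup.relIndex, ← AddSubgroup.index_prod,
    ← AddSubgroup.index_comap_of_surjective _ (f := (G₁.prodEquiv H₁).toAddMonoidHom)
      (G₁.prodEquiv H₁).surjective]
  rfl

/-- A discrete valuation with uniformizer `P.b`, finite residue field, and the functional
`r x = Tr res (x dπ)`. -/
structure PreLoc (K : Type) [Field K] [CharP K 3] where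
  /-- The valuation. -/
  w : Valuation K ℤᵐ⁰
  /-- The uniformizer as a 3-basis. -/
  P : PB K
  hπ : ord w P.b = 1
  /-- The residue functional. -/
  r : K →+ ZMod 3
  r_c2 : ∀ x, r (P.c2 x) = r x
  r_int : ∀ x ∈ Fil w 0, r x = 0
  r_ne : ∃ x ∈ Fil w (-1), r x ≠ 0
  fin : (Fil w 1).relIndex (Fil w 0) ≠ 0

namespace PreLoc

variable (L : PreLoc K) {A α u x y : K} {a b c : ℤ}

/-- The size of the residue field. -/
noncomputable def Q : ℕ := (Fil L.w 1).relIndex (Fil L.w 0)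

lemma π_mem : L.P.b ∈ Fil L.w 1 := mem_Fil_of_le L.hπ.ge

lemma ord_πz (n : ℤ) : ord L.w (L.P.b ^ n) = n := by rw [ord_zpow, L.hπ, mul_one]

lemma Q_ne : L.Q ≠ 0 := L.fin

private lemma relIndex_succ (a : ℤ) : (Fil L.w (a + 1)).relIndex (Fil L.w a) = L.Q := by
  have := relIndex_Fil_shift (w := L.w) (zpow_ne_zero a L.P.b_ne) 1 0
  rwa [L.ord_πz, zero_add, add_comm] at this

private lemma relIndex_Fil (a : ℤ) (n : ℕ) : (Fil L.w (a + n)).relIndex (Fil L.w a) = L.Q ^ n := by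
  induction n with
  | zero => simp
  | succ n ih =>
    rw [← AddSubgroup.relIndex_mul_relIndex _ (Fil L.w (a + n)) _ (Fil_anti (by push_cast; omega))
      (Fil_anti (by omega)), ih, pow_succ', Nat.cast_succ, ← add_assoc, relIndex_succ]

lemma relIndex_Fil' (h : a ≤ b) : (Fil L.w b).relIndex (Fil L.w a) = L.Q ^ (b - a).toNat := by
  rw [← L.relIndex_Fil a]
  congr 2
  omega

lemma relIndex_Fil_ne (a b : ℤ) : (Fil L.w b).relIndex (Fil L.w a) ≠ 0 := by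
  rcases le_total a b with h | h
  · rw [L.relIndex_Fil' h]; exact pow_ne_zero _ L.Q_ne
  · rw [AddSubgroup.relIndex_eq_one.2 (Fil_anti h)]; exact one_ne_zero

variable {L}

private lemma ord_π_cube (hx : x ≠ 0) : ord L.w (L.P.b * x ^ 3) = 1 + 3 * ord L.w x := by
  rw [ord_mul L.P.b_ne (pow_ne_zero 3 hx), L.hπ, ord_cube]

private lemma ord_π_sq_cube (hx : x ≠ 0) : ord L.w (L.P.b ^ 2 * x ^ 3) = 2 + 3 * ord L.w x := by
  rw [ord_mul (pow_ne_zero 2 L.P.b_ne) (pow_ne_zero 3 hx), ord_sq, L.hπ, ord_cube, mul_one]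

private lemma parts_mem {g₀ g₁ g₂ : K} (hx : g₀ ^ 3 + L.P.b * g₁ ^ 3 + L.P.b ^ 2 * g₂ ^ 3 ∈ Fil L.w a) :
    g₀ ^ 3 ∈ Fil L.w a ∧ L.P.b * g₁ ^ 3 ∈ Fil L.w a ∧ L.P.b ^ 2 * g₂ ^ 3 ∈ Fil L.w a := by
  have h12 : L.P.b * g₁ ^ 3 ≠ 0 → L.P.b ^ 2 * g₂ ^ 3 ≠ 0 →
      ord L.w (L.P.b * g₁ ^ 3) ≠ ord L.w (L.P.b ^ 2 * g₂ ^ 3) := fun h1 h2 => by
    rw [ord_π_cube (by rintro rfl; simp at h1), ord_π_sq_cube (by rintro rfl; simp at h2)]
    omega
  rw [add_assoc] at hx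
  have h := Fil_parts hx fun _ h2 => by
    rw [ord_cube]
    by_cases e1 : g₁ = 0
    · have e2 : g₂ ≠ 0 := by rintro rfl; simp [e1] at h2
      rw [e1, zero_pow three_ne_zero, mul_zero, zero_add, ord_π_sq_cube e2]
      omega
    by_cases e2 : g₂ = 0
    · rw [e2, zero_pow three_ne_zero, mul_zero, add_zero, ord_π_cube e1]
      omega
    have n1 := mul_ne_zero L.P.b_ne (pow_ne_zero 3 e1)
    have n2 := mul_ne_zero (pow_ne_zero 2 L.P.b_ne) (pow_ne_zero 3 e2)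
    rw [(ord_add_min n1 n2 (h12 n1 n2)).2, ord_π_cube e1, ord_π_sq_cube e2]
    omega
  exact ⟨h.1, Fil_parts h.2 h12⟩

lemma c0_mem (hx : x ∈ Fil L.w a) (h : 3 * c ≤ a + 2) : L.P.c0 x ∈ Fil L.w c := by
  rw [L.P.spec x] at hx
  exact Fil_of_cube (parts_mem hx).1 h

lemma c1_mem (hx : x ∈ Fil L.w a) (h : 3 * c ≤ a + 1) : L.P.c1 x ∈ Fil L.w c := by
  rw [L.P.spec x] at hx
  have := (parts_mem hx).2.1
  rw [mul_comm] at this
  exact Fil_of_cube (Fil.of_mul this L.P.b_ne le_rfl) (by rw [L.hπ]; omega)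

lemma c2_mem (hx : x ∈ Fil L.w a) (h : 3 * c ≤ a) : L.P.c2 x ∈ Fil L.w c := by
  rw [L.P.spec x] at hx
  have := (parts_mem hx).2.2
  rw [mul_comm] at this
  exact Fil_of_cube (Fil.of_mul this (pow_ne_zero 2 L.P.b_ne) le_rfl)
    (by rw [ord_sq, L.hπ]; omega)

lemma D_mem (hx : x ∈ Fil L.w a) (h : c ≤ a - 1) : L.P.D x ∈ Fil L.w c := by
  have hx' := hx
  rw [L.P.spec x] at hx'
  obtain ⟨-, h1, h2⟩ := parts_mem hx'
  refine Fil.of_mul (y := L.P.b) (a := a) ?_ L.P.b_ne (by rw [L.hπ]; exact h)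
  rw [show L.P.D x * L.P.b = L.P.b * L.P.c1 x ^ 3 - L.P.b ^ 2 * L.P.c2 x ^ 3 by rw [PB.D]; ring]
  exact sub_mem h1 h2

lemma D_int (hx : x ∈ Fil L.w 0) : L.P.D x ∈ Fil L.w 0 := by
  exact sub_mem (Fil_cube (c1_mem hx (c := 0) (by omega)) (by omega))
    (Fil.mul L.π_mem (Fil_cube (c2_mem hx (c := 0) (by omega)) le_rfl) (by omega))

variable (L)

/-- The filtration modulo cubes. -/
noncomputable def FF (j : ℤ) : AddSubgroup K := Fil L.w j ⊔ Cub K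

lemma mem_FF : x ∈ L.FF a ↔ L.P.D x ∈ Fil L.w (a - 1) := by
  refine ⟨fun h => ?_, fun h => ?_⟩
  · obtain ⟨y, hy, _, ⟨t, rfl⟩, rfl⟩ := AddSubgroup.mem_sup.1 h
    change L.P.D (y + t ^ 3) ∈ _
    rw [PB.D_add, PB.D_cube, add_zero]
    exact D_mem hy le_rfl
  · have h1 : (0 : K) ^ 3 + L.P.b * L.P.c1 x ^ 3 + L.P.b ^ 2 * (-L.P.c2 x) ^ 3 ∈ Fil L.w a := by
      rw [show (0 : K) ^ 3 + L.P.b * L.P.c1 x ^ 3 + L.P.b ^ 2 * (-L.P.c2 x) ^ 3 =
        L.P.b * L.P.D x by rw [PB.D]; ring]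
      exact Fil.mul L.π_mem h (by omega)
    obtain ⟨-, h2, h3⟩ := parts_mem h1
    refine AddSubgroup.mem_sup.2 ⟨_, sub_mem h2 h3, _, cube_mem (L.P.c0 x), ?_⟩
    conv_rhs => rw [L.P.spec x]
    ring

private lemma FF_anti (h : b ≤ a) : L.FF a ≤ L.FF b := sup_le_sup_right (Fil_anti h) _

private lemma mem_FF_of (h1 : L.P.c1 x ∈ Fil L.w a) (h2 : L.P.c2 x ∈ Fil L.w a) :
    x ∈ L.FF (3 * a + 1) := by
  rw [mem_FF]
  exact sub_mem (Fil_cube h1 (by omega)) (Fil.mul L.π_mem (Fil_cube h2 le_rfl) (by omega))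

private lemma mem_FF_three : x ∈ L.FF (3 * a) ↔ L.P.c1 x ∈ Fil L.w a ∧ L.P.c2 x ∈ Fil L.w a := by
  refine ⟨fun h => ?_, fun h => L.FF_anti (by omega) (L.mem_FF_of h.1 h.2)⟩
  obtain ⟨y, hy, _, ⟨t, rfl⟩, rfl⟩ := AddSubgroup.mem_sup.1 h
  change L.P.c1 (y + t ^ 3) ∈ _ ∧ L.P.c2 (y + t ^ 3) ∈ _
  rw [PB.c1_add, PB.c2_add, PB.c1_cube, PB.c2_cube, add_zero, add_zero]
  exact ⟨c1_mem hy (by omega), c2_mem hy le_rfl⟩

private lemma FF_eq_comap (a : ℤ) : L.FF (3 * a) = ((Fil L.w a).prod (Fil L.w a)).comap L.P.cls := by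
  ext x
  rw [mem_FF_three, AddSubgroup.mem_comap, AddSubgroup.mem_prod, PB.cls_apply]

lemma FF_three (a : ℤ) : L.FF (3 * a + 1) = L.FF (3 * a) := by
  refine le_antisymm (L.FF_anti (by omega)) fun x hx => ?_
  obtain ⟨h1, h2⟩ := L.mem_FF_three.1 hx
  exact L.mem_FF_of h1 h2

lemma relIndex_FF (h : a ≤ c) :
    (L.FF (3 * c)).relIndex (L.FF (3 * a)) = L.Q ^ (2 * (c - a).toNat) := by
  rw [FF_eq_comap, FF_eq_comap, AddSubgroup.relIndex_comap,
    AddSubgroup.map_comap_eq_self_of_surjective L.P.cls_surj, relIndex_prod, L.relIndex_Fil' h,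
    two_mul, pow_add]

lemma relIndex_FF_ne (a b : ℤ) : (L.FF b).relIndex (L.FF a) ≠ 0 := by
  intro h
  have h1 := AddSubgroup.relIndex_eq_zero_of_le_left
    (L.FF_anti (a := 3 * (a.natAbs + b.natAbs : ℤ)) (b := b) (by omega)) h
  have h2 := AddSubgroup.relIndex_eq_zero_of_le_right
    (L.FF_anti (a := a) (b := 3 * (-a.natAbs : ℤ)) (by omega)) h1
  rw [L.relIndex_FF (by omega)] at h2
  exact pow_ne_zero _ L.Q_ne h2

lemma Cub_of_FF (h : ∀ n : ℕ, x ∈ L.FF n) : x ∈ Cub K := by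
  have h1 : L.P.D x = 0 := eq_zero_of_Fil (w := L.w) fun n =>
    Fil.mono (L.mem_FF.1 (h (n + 1))) (by push_cast; omega)
  exact ⟨_, (L.P.D_eq_zero h1).symm⟩

lemma r_D (x : K) : L.r (L.P.D x) = 0 := by rw [← L.r_c2, PB.c2_D, map_zero]

lemma mem_of_r (h : ∀ y ∈ Fil L.w a, L.r (x * y) = 0) : x ∈ Fil L.w (-a) := by
  by_contra hn
  obtain ⟨h1, h2⟩ := not_mem_Fil.1 hn
  obtain ⟨z, hz, hz'⟩ := L.r_ne
  exact hz' (by simpa [mul_div_cancel₀, h1] using h (z / x) (Fil.div hz (by omega)))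

/-- Every continuous character is given by the residue pairing. -/
lemma rep (hc : Cpl L.w) (χ : K →+ ZMod 3) (h : ∀ x ∈ Fil L.w a, χ x = 0) :
    ∃ u, ∀ x, χ x = L.r (x * u) := by
  have key : ∀ n : ℕ, ∃ u, ∀ y ∈ Fil L.w (-(n + a.natAbs : ℤ)), L.r (u * y) = χ y := fun n => by
    obtain ⟨u, -, hu⟩ := dual_rep three_K (AddMonoidHom.mul.compr₂ L.r)
      (G₀ := Fil L.w (n + a.natAbs : ℤ)) (G₁ := Fil L.w (-a)) (H₀ := Fil L.w a)
      (H₁ := Fil L.w (-(n + a.natAbs : ℤ))) (L.relIndex_Fil_ne _ _)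
      (fun g hg y hy _ => L.r_int _ (Fil.mul hg hy (by omega)))
      (fun g _ hg => by simpa using L.mem_of_r hg)
      (by
        rw [L.relIndex_Fil' (by omega), L.relIndex_Fil' (by omega)]
        exact le_of_eq (by congr 2; omega))
      (χ.comp (AddSubgroup.subtype _)) fun y hy => h _ hy
    exact ⟨u, fun y hy => hu ⟨y, hy⟩⟩
  choose u hu using key
  obtain ⟨l, hl⟩ := hc u fun n => by
    have := L.mem_of_r (x := u (n + 1) - u n) (a := -n) fun y hy => by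
      rw [sub_mul, map_sub, hu _ _ (Fil.mono hy (by omega)),
        hu _ _ (Fil.mono hy (by omega)), sub_self]
    rwa [neg_neg] at this
  refine ⟨l, fun x => ?_⟩
  have hx : x ∈ Fil L.w (-((ord L.w x).natAbs : ℤ)) := mem_Fil_of_le (by omega)
  have h1 := L.r_int _ (Fil.mul (hl (ord L.w x).natAbs) hx (by omega))
  rw [sub_mul, map_sub, hu _ _ (Fil.mono hx (by omega)), sub_eq_zero] at h1
  rw [mul_comm, h1]

variable (P : PB K)

/-- The form `dB / B` in terms of the uniformizer. -/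
noncomputable def om : K := L.P.dlg P.b

lemma om_ne : L.om P ≠ 0 := L.P.dlg_ne P

/-- The absolute trace of the residue of `x dB / B`. -/
noncomputable def rho : K →+ ZMod 3 := L.r.comp (AddMonoidHom.mulRight (L.om P))

lemma rho_apply (x : K) : L.rho P x = L.r (x * L.om P) := rfl

lemma rho_c0 (x : K) : L.rho P (P.c0 x) = L.rho P x := by
  rw [rho_apply, rho_apply, ← L.r_c2 (x * _), om, PB.c2_mul_dlg]

lemma dl_mul_om (x : K) : P.dl x * L.om P = L.P.D x := L.P.dl_mul_dlg P x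

lemma dl_mem (hx : x ∈ Fil L.w a) (h : c ≤ a - 1 - ord L.w (L.om P)) : P.dl x ∈ Fil L.w c :=
  Fil.of_mul (by rw [dl_mul_om]; exact D_mem hx le_rfl) (L.om_ne P) h

lemma om_int (h : ord L.w P.b = 0) : L.om P ∈ Fil L.w 0 :=
  Fil.div (D_int (mem_Fil_of_le h.ge)) (by omega)

/-- The pairing `(x, y) ↦ ρ (x y / A ^ 3)`. -/
noncomputable def pair (A : K) : K →+ K →+ ZMod 3 :=
  AddMonoidHom.mul.compr₂ ((L.rho P).comp (AddMonoidHom.mulRight (A ^ 3)⁻¹))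

lemma pair_apply (A x y : K) : L.pair P A x y = L.rho P (x * y / A ^ 3) := by
  simp [pair, div_eq_mul_inv]

lemma pair_comm (A x y : K) : L.pair P A x y = L.pair P A y x := by
  rw [pair_apply, pair_apply, mul_comm]

lemma eq_zero_of_pair (hA : A ≠ 0) (h : ∀ y, L.pair P A x y = 0) : x = 0 := by
  refine eq_zero_of_Fil (w := L.w) fun n => ?_
  have ho := L.om_ne P
  have := L.mem_of_r (x := x) (a := -n) fun y _ => by
    rw [← h (y * A ^ 3 / L.om P), pair_apply, rho_apply]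
    congr 1
    field_simp
  rwa [neg_neg] at this

lemma rep_pair (hc : Cpl L.w) (hA : A ≠ 0) (χ : K →+ ZMod 3) (h : ∀ x ∈ Fil L.w a, χ x = 0) :
    ∃ u, ∀ x, χ x = L.pair P A u x := by
  obtain ⟨u, hu⟩ := L.rep hc χ h
  have ho := L.om_ne P
  refine ⟨u * A ^ 3 / L.om P, fun x => ?_⟩
  rw [hu, pair_apply, rho_apply]
  congr 1
  field_simp

lemma WP_of_pair (hc : Cpl L.w) (hA : A ≠ 0) (h : ∀ u ∈ Log P A, L.pair P A α u = 0) :
    α ∈ WP A := by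
  by_contra hn
  obtain ⟨χ, h1, h2⟩ := exists_sep_hom three_K (WP A) hn
  obtain ⟨u, hu⟩ := L.rep_pair P hc hA χ (a := 2 * (ord L.w A).natAbs + 1) fun x hx =>
    h2 x (Fil_le_WP hc hA (by omega) hx)
  have h3 : hh P A u = 0 := L.eq_zero_of_pair P hA fun y => by
    have h4 := h2 (wp A (y / A)) ⟨y / A, rfl⟩
    rw [hu, pair_comm, pair_apply, rho_adj (L.rho_c0 P) hA, neg_eq_zero,
      mul_div_cancel₀ _ hA] at h4
    rw [pair_comm, pair_apply, h4]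
  exact h1 (by rw [hu, pair_comm, h u h3])

lemma pair_WP (hA : A ≠ 0) (h : α ∈ WP A) (hu : u ∈ Log P A) : L.pair P A α u = 0 := by
  obtain ⟨t, rfl⟩ := h
  have h1 : hh P A u = 0 := hu
  rw [pair_apply, wpH_apply, rho_adj (L.rho_c0 P) hA, h1, mul_zero, zero_div, map_zero, neg_zero]

end PreLoc

end Pool.Agent.Lib.MP_a3f657_nt.Three
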