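import Mathlib

/-!
Fields of characteristic three with a 3-basis consisting of one element.
-/

set_option linter.unusedSectionVars false

namespace Pool.Agent.Lib.MP_a3f657_nt.Three

/-- A 3-basis `b` of the field `K`. -/
structure PB (K : Type) [Field K] where
  /-- The basis element. -/
  b : K
  ns : ∀ r : K, r ^ 3 ≠ b
  ex : ∀ x : K, ∃ g₀ g₁ g₂ : K, x = g₀ ^ 3 + b * g₁ ^ 3 + b ^ 2 * g₂ ^ 3

/-- The twisted Artin-Schreier operator. -/
def wp {K : Type} [CommRing K] (A x : K) : K := x ^ 3 - A * x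

variable {K : Type} [Field K] [CharP K 3]

lemma three_eq : (3 : K) = 0 := by exact_mod_cast CharP.cast_eq_zero K 3

lemma three_K (x : K) : 3 • x = 0 := by rw [nsmul_eq_mul, Nat.cast_ofNat, three_eq, zero_mul]

lemma cube_add (x y : K) : (x + y) ^ 3 = x ^ 3 + y ^ 3 := by grind

lemma cube_sub (x y : K) : (x - y) ^ 3 = x ^ 3 - y ^ 3 := by grind

lemma cube_inj {x y : K} (h : x ^ 3 = y ^ 3) : x = y :=
  sub_eq_zero.1 (pow_eq_zero_iff three_ne_zero |>.1 (by rw [cube_sub, h, sub_self]))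

lemma wp_add (A x y : K) : wp A (x + y) = wp A x + wp A y := by unfold wp; grind

@[simp] lemma wp_zero (A : K) : wp A 0 = 0 := by simp [wp]

/-- The twisted Artin-Schreier operator as an additive map. -/
def wpH (A : K) : K →+ K := ⟨⟨wp A, wp_zero A⟩, wp_add A⟩

@[simp] lemma wpH_apply (A x : K) : wpH A x = wp A x := rfl

/-- The values of the twisted Artin-Schreier operator. -/
def WP (A : K) : AddSubgroup K := (wpH A).range

lemma mem_WP {A x : K} : x ∈ WP A ↔ ∃ z, wp A z = x := Iff.rfl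

variable (K) in
/-- The cubes. -/
def Cub : AddSubgroup K := (AddMonoidHom.mk' (fun x : K => x ^ 3) cube_add).range

lemma mem_Cub {x : K} : x ∈ Cub K ↔ ∃ t, t ^ 3 = x := Iff.rfl

lemma cube_mem (t : K) : t ^ 3 ∈ Cub K := ⟨t, rfl⟩

open scoped Classical in
lemma card_ker_wpH {A : K} (hA : A ≠ 0) :
    Nat.card (wpH A).ker = if IsSquare A then 3 else 1 := by
  have hk : ∀ x : K, x ∈ (wpH A).ker ↔ x = 0 ∨ x * x = A := by
    intro x
    rw [AddMonoidHom.mem_ker, wpH_apply, wp]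
    have : x ^ 3 - A * x = x * (x * x - A) := by ring
    rw [this, mul_eq_zero, sub_eq_zero]
  split_ifs with h
  · obtain ⟨r, rfl⟩ := h
    have hr : r ≠ 0 := fun e => hA (by rw [e, mul_zero])
    have h1 : ((wpH (r * r)).ker : Set K) = {0, r, -r} := by
      ext x
      rw [SetLike.mem_coe, hk, mul_self_eq_mul_self_iff]
      simp
    have h2 : Nat.card (wpH (r * r)).ker = ((wpH (r * r)).ker : Set K).ncard :=
      Nat.card_coe_set_eq _
    rw [h2, h1, Set.ncard_eq_three]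
    refine ⟨0, r, -r, hr.symm, (neg_ne_zero.2 hr).symm, fun e => hr ?_, rfl⟩
    grind
  · have h1 : (wpH A).ker = ⊥ := by
      refine (AddSubgroup.eq_bot_iff_forall _).2 fun x hx => ?_
      exact ((hk x).1 hx).resolve_right fun e => h ⟨x, e.symm⟩
    rw [h1, AddSubgroup.card_bot]

namespace PB

variable (P : PB K)

/-- First component. -/
noncomputable def c0 (x : K) : K := (P.ex x).choose

/-- Second component. -/
noncomputable def c1 (x : K) : K := (P.ex x).choose_spec.choose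

/-- Third component. -/
noncomputable def c2 (x : K) : K := (P.ex x).choose_spec.choose_spec.choose

omit [CharP K 3] in
lemma spec (x : K) : x = P.c0 x ^ 3 + P.b * P.c1 x ^ 3 + P.b ^ 2 * P.c2 x ^ 3 :=
  (P.ex x).choose_spec.choose_spec.choose_spec

omit [CharP K 3] in
lemma b_ne : P.b ≠ 0 := fun h => P.ns 0 (by simp [h])

lemma indep {u v w : K} (e : u ^ 3 + P.b * v ^ 3 + P.b ^ 2 * w ^ 3 = 0) :
    u = 0 ∧ v = 0 ∧ w = 0 := by
  have hw : w = 0 := by
    by_contra hw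
    obtain ⟨s, rfl⟩ : ∃ s, v = -s * w := ⟨-v / w, by field_simp⟩
    obtain ⟨t, rfl⟩ : ∃ t, u = -t * w := ⟨-u / w, by field_simp⟩
    have hb : P.b ^ 2 = s ^ 3 * P.b + t ^ 3 := by
      refine mul_right_cancel₀ (pow_ne_zero 3 hw) ?_
      linear_combination e
    by_cases h : s ^ 2 + t = 0
    · refine P.ns (-s) ?_
      have h1 : t = -s ^ 2 := by linear_combination h
      have h2 : (P.b + s ^ 3) ^ 2 = 0 := by
        rw [h1] at hb
        linear_combination hb + (P.b * s ^ 3) * (three_eq : (3 : K) = 0)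
      have h3 := pow_eq_zero_iff two_ne_zero |>.1 h2
      linear_combination -h3
    · refine P.ns ((P.b - s * t) / (s ^ 2 + t)) ?_
      rw [div_pow, div_eq_iff (pow_ne_zero 3 h), cube_sub, cube_add]
      linear_combination (P.b + s ^ 3) * hb
  subst hw
  have hv : v = 0 := by
    by_contra hv
    refine P.ns (-u / v) ?_
    rw [div_pow, div_eq_iff (pow_ne_zero 3 hv)]
    linear_combination -e
  subst hv
  refine ⟨pow_eq_zero_iff three_ne_zero |>.1 ?_, rfl, rfl⟩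
  linear_combination e

lemma uniq {x g₀ g₁ g₂ : K} (e : x = g₀ ^ 3 + P.b * g₁ ^ 3 + P.b ^ 2 * g₂ ^ 3) :
    P.c0 x = g₀ ∧ P.c1 x = g₁ ∧ P.c2 x = g₂ := by
  have h := P.indep (u := P.c0 x - g₀) (v := P.c1 x - g₁) (w := P.c2 x - g₂) (by
    rw [cube_sub, cube_sub, cube_sub]
    linear_combination e - P.spec x)
  exact ⟨sub_eq_zero.1 h.1, sub_eq_zero.1 h.2.1, sub_eq_zero.1 h.2.2⟩

lemma c_add (x y : K) : P.c0 (x + y) = P.c0 x + P.c0 y ∧ P.c1 (x + y) = P.c1 x + P.c1 y ∧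
    P.c2 (x + y) = P.c2 x + P.c2 y :=
  P.uniq (by
    rw [cube_add, cube_add, cube_add]
    linear_combination P.spec x + P.spec y)

lemma c_mul (x y : K) :
    P.c0 (x * y) = P.c0 x * P.c0 y + P.b * (P.c1 x * P.c2 y + P.c2 x * P.c1 y) ∧
    P.c1 (x * y) = P.c0 x * P.c1 y + P.c1 x * P.c0 y + P.b * (P.c2 x * P.c2 y) ∧
    P.c2 (x * y) = P.c0 x * P.c2 y + P.c1 x * P.c1 y + P.c2 x * P.c0 y :=
  P.uniq (by
    conv_lhs => rw [P.spec x, P.spec y]
    simp only [cube_add, mul_pow]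
    ring)

lemma c0_add (x y : K) : P.c0 (x + y) = P.c0 x + P.c0 y := (P.c_add x y).1

lemma c1_add (x y : K) : P.c1 (x + y) = P.c1 x + P.c1 y := (P.c_add x y).2.1

lemma c2_add (x y : K) : P.c2 (x + y) = P.c2 x + P.c2 y := (P.c_add x y).2.2

lemma c0_mul (x y : K) :
    P.c0 (x * y) = P.c0 x * P.c0 y + P.b * (P.c1 x * P.c2 y + P.c2 x * P.c1 y) :=
  (P.c_mul x y).1

lemma c1_mul (x y : K) :
    P.c1 (x * y) = P.c0 x * P.c1 y + P.c1 x * P.c0 y + P.b * (P.c2 x * P.c2 y) :=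
  (P.c_mul x y).2.1

lemma c2_mul (x y : K) :
    P.c2 (x * y) = P.c0 x * P.c2 y + P.c1 x * P.c1 y + P.c2 x * P.c0 y :=
  (P.c_mul x y).2.2

@[simp] lemma c0_cube (g : K) : P.c0 (g ^ 3) = g := (P.uniq (g₁ := 0) (g₂ := 0) (by simp)).1

@[simp] lemma c1_cube (g : K) : P.c1 (g ^ 3) = 0 := (P.uniq (g₀ := g) (g₂ := 0) (by simp)).2.1

@[simp] lemma c2_cube (g : K) : P.c2 (g ^ 3) = 0 := (P.uniq (g₀ := g) (g₁ := 0) (by simp)).2.2

@[simp] lemma c0_zero : P.c0 0 = 0 := by simpa using P.c0_cube 0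

@[simp] lemma c1_zero : P.c1 0 = 0 := by simpa using P.c1_cube 0

@[simp] lemma c2_zero : P.c2 0 = 0 := by simpa using P.c2_cube 0

@[simp] lemma c0_one : P.c0 1 = 1 := by simpa using P.c0_cube 1

@[simp] lemma c1_one : P.c1 1 = 0 := by simpa using P.c1_cube 1

@[simp] lemma c2_one : P.c2 1 = 0 := by simpa using P.c2_cube 1

@[simp] lemma c0_b : P.c0 P.b = 0 := (P.uniq (g₁ := 1) (g₂ := 0) (by simp)).1

@[simp] lemma c1_b : P.c1 P.b = 1 := (P.uniq (g₀ := 0) (g₂ := 0) (by simp)).2.1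

@[simp] lemma c2_b : P.c2 P.b = 0 := (P.uniq (g₀ := 0) (g₁ := 1) (by simp)).2.2

lemma c0_cube_mul (g x : K) : P.c0 (g ^ 3 * x) = g * P.c0 x := by simp [c0_mul]

lemma c1_cube_mul (g x : K) : P.c1 (g ^ 3 * x) = g * P.c1 x := by simp [c1_mul]

lemma c2_cube_mul (g x : K) : P.c2 (g ^ 3 * x) = g * P.c2 x := by simp [c2_mul]

/-- First component as an additive map. -/
noncomputable def c0h : K →+ K := ⟨⟨P.c0, P.c0_zero⟩, P.c0_add⟩

/-- Second component as an additive map. -/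
noncomputable def c1h : K →+ K := ⟨⟨P.c1, P.c1_zero⟩, P.c1_add⟩

/-- Third component as an additive map. -/
noncomputable def c2h : K →+ K := ⟨⟨P.c2, P.c2_zero⟩, P.c2_add⟩

lemma c0_neg (x : K) : P.c0 (-x) = -P.c0 x := map_neg P.c0h x

lemma c1_neg (x : K) : P.c1 (-x) = -P.c1 x := map_neg P.c1h x

lemma c2_neg (x : K) : P.c2 (-x) = -P.c2 x := map_neg P.c2h x

lemma c0_sub (x y : K) : P.c0 (x - y) = P.c0 x - P.c0 y := map_sub P.c0h x y

lemma c1_sub (x y : K) : P.c1 (x - y) = P.c1 x - P.c1 y := map_sub P.c1h x y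

lemma c2_sub (x y : K) : P.c2 (x - y) = P.c2 x - P.c2 y := map_sub P.c2h x y

/-- The class modulo cubes. -/
noncomputable def cls : K →+ K × K := P.c1h.prod P.c2h

lemma cls_apply (x : K) : P.cls x = (P.c1 x, P.c2 x) := rfl

lemma eq_cube {x : K} (h1 : P.c1 x = 0) (h2 : P.c2 x = 0) : x = P.c0 x ^ 3 := by
  have := P.spec x
  rw [h1, h2] at this
  simpa using this

lemma ker_cls : P.cls.ker = Cub K := by
  ext x
  rw [AddMonoidHom.mem_ker, cls_apply, mem_Cub, Prod.mk_eq_zero]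
  constructor
  · rintro ⟨h1, h2⟩
    exact ⟨_, (P.eq_cube h1 h2).symm⟩
  · rintro ⟨t, rfl⟩
    exact ⟨P.c1_cube t, P.c2_cube t⟩

lemma cls_surj : Function.Surjective P.cls := by
  rintro ⟨u, v⟩
  have h := P.uniq (x := 0 ^ 3 + P.b * u ^ 3 + P.b ^ 2 * v ^ 3) rfl
  exact ⟨_, Prod.ext h.2.1 h.2.2⟩

/-- The derivation `d / d b`. -/
noncomputable def D (x : K) : K := P.c1 x ^ 3 - P.b * P.c2 x ^ 3

lemma D_add (x y : K) : P.D (x + y) = P.D x + P.D y := by
  simp only [D, c1_add, c2_add, cube_add]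
  ring

lemma D_mul (x y : K) : P.D (x * y) = x * P.D y + y * P.D x := by
  simp only [D, c1_mul, c2_mul, cube_add, mul_pow]
  linear_combination (-(P.c1 y ^ 3 - P.b * P.c2 y ^ 3)) * P.spec x -
    (P.c1 x ^ 3 - P.b * P.c2 x ^ 3) * P.spec y +
    (P.b ^ 3 * P.c2 x ^ 3 * P.c2 y ^ 3 - P.b * P.c1 x ^ 3 * P.c1 y ^ 3) * (three_eq : (3 : K) = 0)

@[simp] lemma D_cube (x : K) : P.D (x ^ 3) = 0 := by simp [D]

@[simp] lemma D_zero : P.D 0 = 0 := by simp [D]

@[simp] lemma D_one : P.D 1 = 0 := by simp [D]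

@[simp] lemma D_b : P.D P.b = 1 := by simp [D]

lemma D_neg (x : K) : P.D (-x) = -P.D x := by simp only [D, c1_neg, c2_neg]; ring

lemma D_sub (x y : K) : P.D (x - y) = P.D x - P.D y := by
  rw [sub_eq_add_neg, D_add, D_neg, sub_eq_add_neg]

lemma D_sq (x : K) : P.D (x ^ 2) = -(x * P.D x) := by rw [sq, D_mul]; grind

lemma D_cube_mul (g x : K) : P.D (g ^ 3 * x) = g ^ 3 * P.D x := by simp [D_mul]

lemma D_div (x : K) {y : K} (hy : y ≠ 0) : P.D (x / y) = (y * P.D x - x * P.D y) / y ^ 2 := by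
  have h := P.D_mul (x / y) y
  rw [div_mul_cancel₀ _ hy] at h
  rw [eq_div_iff (pow_ne_zero 2 hy), h]
  field_simp
  ring

lemma c_D (x : K) : P.c0 (P.D x) = P.c1 x ∧ P.c1 (P.D x) = -P.c2 x ∧ P.c2 (P.D x) = 0 :=
  P.uniq (by unfold D; ring)

lemma c0_D (x : K) : P.c0 (P.D x) = P.c1 x := (P.c_D x).1

lemma c1_D (x : K) : P.c1 (P.D x) = -P.c2 x := (P.c_D x).2.1

@[simp] lemma c2_D (x : K) : P.c2 (P.D x) = 0 := (P.c_D x).2.2

lemma D_eq_zero {x : K} (h : P.D x = 0) : x = P.c0 x ^ 3 := by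
  have h1 := P.c0_D x
  have h2 := P.c1_D x
  rw [h, c0_zero] at h1
  rw [h, c1_zero] at h2
  exact P.eq_cube h1.symm (neg_eq_zero.1 h2.symm)

lemma D_ne_zero {x : K} (h : ∀ r : K, r ^ 3 ≠ x) : P.D x ≠ 0 := fun e => h _ (P.D_eq_zero e).symm

lemma ns_of_D {x : K} (h : P.D x ≠ 0) (r : K) : r ^ 3 ≠ x := by
  rintro rfl
  exact h (P.D_cube r)

/-- The derivation `b d / d b` as an additive map. -/
noncomputable def dl : K →+ K := AddMonoidHom.mk' (fun x => P.b * P.D x) fun x y => by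
  rw [D_add, mul_add]

lemma dl_apply (x : K) : P.dl x = P.b * P.D x := rfl

@[simp] lemma dl_cube (x : K) : P.dl (x ^ 3) = 0 := by simp [dl_apply]

lemma dl_mul (x y : K) : P.dl (x * y) = x * P.dl y + y * P.dl x := by
  simp only [dl_apply, D_mul]; ring

lemma c_dl (x : K) : P.c0 (P.dl x) = 0 ∧ P.c1 (P.dl x) = P.c1 x ∧ P.c2 (P.dl x) = -P.c2 x :=
  P.uniq (by rw [dl_apply]; unfold D; ring)

@[simp] lemma c0_dl (x : K) : P.c0 (P.dl x) = 0 := (P.c_dl x).1

lemma dl_dl (x : K) : P.dl (P.dl x) = x - P.c0 x ^ 3 := by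
  rw [P.dl_apply (P.dl x), D, (P.c_dl x).2.1, (P.c_dl x).2.2]
  linear_combination -P.spec x

/-- Logarithmic differentials. -/
lemma exists_dl {σ : K} (h : P.c0 σ = σ) : ∃ f : K, f ≠ 0 ∧ P.dl f = σ * f := by
  have h1 : P.dl 1 = 0 := by simp [dl_apply]
  have hb : P.dl P.b = P.b := by simp [dl_apply]
  by_cases hf : σ * σ - P.dl σ - 1 = 0
  · by_cases hs : σ + 1 = 0
    · refine ⟨P.b * P.b, mul_ne_zero P.b_ne P.b_ne, ?_⟩
      rw [dl_mul, hb]
      linear_combination (-(P.b * P.b)) * hs + (P.b * P.b) * (three_eq : (3 : K) = 0)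
    · refine ⟨P.b * (σ + 1), mul_ne_zero P.b_ne hs, ?_⟩
      rw [dl_mul, map_add, h1, hb]
      linear_combination (-P.b) * hf
  · refine ⟨_, hf, ?_⟩
    rw [map_sub, map_sub, dl_mul, dl_dl, h, h1]
    linear_combination (σ * P.dl σ) * (three_eq : (3 : K) = 0)

include P in
lemma change_ex {c : K} (hc : ∀ r : K, r ^ 3 ≠ c) (x : K) :
    ∃ g₀ g₁ g₂ : K, x = g₀ ^ 3 + c * g₁ ^ 3 + c ^ 2 * g₂ ^ 3 := by
  have hD := P.D_ne_zero hc
  obtain ⟨g₁, h₁⟩ : ∃ g₁, g₁ * P.D c = P.c1 x * P.c2 (c * c) - P.c2 x * P.c1 (c * c) :=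
    ⟨_, div_mul_cancel₀ _ hD⟩
  obtain ⟨g₂, h₂⟩ : ∃ g₂, g₂ * P.D c = P.c1 c * P.c2 x - P.c2 c * P.c1 x :=
    ⟨_, div_mul_cancel₀ _ hD⟩
  have hd : P.D c = P.c1 c * P.c2 (c * c) - P.c2 c * P.c1 (c * c) := by
    rw [c1_mul, c2_mul, D]
    ring
  have e1 : P.c1 (x - g₁ ^ 3 * c - g₂ ^ 3 * (c * c)) = 0 := by
    rw [c1_sub, c1_sub, c1_cube_mul, c1_cube_mul]
    refine mul_right_cancel₀ hD ?_
    linear_combination P.c1 x * hd - P.c1 c * h₁ - P.c1 (c * c) * h₂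
  have e2 : P.c2 (x - g₁ ^ 3 * c - g₂ ^ 3 * (c * c)) = 0 := by
    rw [c2_sub, c2_sub, c2_cube_mul, c2_cube_mul]
    refine mul_right_cancel₀ hD ?_
    linear_combination P.c2 x * hd - P.c2 c * h₁ - P.c2 (c * c) * h₂
  have e3 := P.eq_cube e1 e2
  generalize P.c0 (x - g₁ ^ 3 * c - g₂ ^ 3 * (c * c)) = g₀ at e3
  exact ⟨g₀, g₁, g₂, by linear_combination e3⟩

/-- Change of basis element. -/
def change (c : K) (hc : ∀ r : K, r ^ 3 ≠ c) : PB K := ⟨c, hc, P.change_ex hc⟩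

lemma D_chain (Q : PB K) (x : K) : P.D x = Q.D x * P.D Q.b := by
  conv_lhs => rw [Q.spec x, D_add, D_add, D_cube, mul_comm Q.b, D_cube_mul, mul_comm (Q.b ^ 2),
    D_cube_mul, D_sq]
  rw [show Q.D x = Q.c1 x ^ 3 - Q.b * Q.c2 x ^ 3 from rfl]
  ring

lemma c2_sq_D (y : K) : P.c2 (y * y * P.D y) = P.D y := by
  rw [c2_mul, c0_D, c1_D, c2_D, c1_mul, c2_mul, D]
  ring

/-- The Cartier operator does not depend on the basis. -/
lemma c2_mul_D (Q : PB K) (x : K) : P.c2 (x * P.D Q.b) = Q.c2 x * P.D Q.b := by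
  have e : x * P.D Q.b = Q.c0 x ^ 3 * P.D Q.b - Q.c1 x ^ 3 * P.D (Q.b ^ 2) +
      Q.c2 x ^ 3 * (Q.b * Q.b * P.D Q.b) := by
    rw [D_sq]
    linear_combination P.D Q.b * Q.spec x
  rw [e, c2_add, c2_sub, c2_cube_mul, c2_cube_mul, c2_cube_mul, c2_D, c2_D, c2_sq_D]
  ring

/-- The logarithmic derivative. -/
noncomputable def dlg (x : K) : K := P.D x / x

lemma dlg_ne (Q : PB K) : P.dlg Q.b ≠ 0 := div_ne_zero (P.D_ne_zero Q.ns) Q.b_ne

lemma c2_mul_dlg (Q : PB K) (x : K) : P.c2 (x * P.dlg Q.b) = Q.c0 x * P.dlg Q.b := by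
  have hb := Q.b_ne
  have e : Q.c2 (x / Q.b) = Q.c0 x / Q.b :=
    (Q.uniq (g₀ := Q.c1 x) (g₁ := Q.c2 x) (by
      conv_lhs => rw [Q.spec x]
      field_simp
      ring)).2.2
  have e2 : x * P.dlg Q.b = x / Q.b * P.D Q.b := by
    unfold dlg
    ring
  rw [e2, c2_mul_D, e, dlg]
  ring

lemma dl_mul_dlg (Q : PB K) (x : K) : Q.dl x * P.dlg Q.b = P.D x := by
  have hb := Q.b_ne
  rw [P.D_chain Q x, dl_apply, dlg]
  field_simp

lemma ext' {P Q : PB K} (h : P.b = Q.b) : P = Q := by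
  cases P; cases Q; cases h; rfl

section map

variable {L : Type} [Field L] [CharP L 3] {Q : PB L} {f : K →+* L}

lemma map_c (h : Q.b = f P.b) (x : K) :
    Q.c0 (f x) = f (P.c0 x) ∧ Q.c1 (f x) = f (P.c1 x) ∧ Q.c2 (f x) = f (P.c2 x) :=
  Q.uniq (by
    conv_lhs => rw [P.spec x]
    simp [h])

lemma map_c0 (h : Q.b = f P.b) (x : K) : Q.c0 (f x) = f (P.c0 x) := (P.map_c h x).1

lemma map_c1 (h : Q.b = f P.b) (x : K) : Q.c1 (f x) = f (P.c1 x) := (P.map_c h x).2.1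

lemma map_c2 (h : Q.b = f P.b) (x : K) : Q.c2 (f x) = f (P.c2 x) := (P.map_c h x).2.2

lemma map_D (h : Q.b = f P.b) (x : K) : Q.D (f x) = f (P.D x) := by
  simp [D, P.map_c1 h, P.map_c2 h, h]

end map

/-- A 3-basis stays a 3-basis in a separable algebraic extension. -/
lemma exists_sep (L : Type) [Field L] [CharP L 3] [Algebra K L] [Algebra.IsSeparable K L] :
    ∃ Q : PB L, Q.b = algebraMap K L P.b := by
  have : ExpChar K 3 := ExpChar.prime Nat.prime_three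
  have key := fun x : L =>
    IntermediateField.adjoin_simple_eq_adjoin_pow_expChar_of_isSeparable K L
      (Algebra.IsSeparable.isSeparable K x) 3
  refine ⟨⟨algebraMap K L P.b, fun r hr => ?_, fun x => ?_⟩, rfl⟩
  · have h1 : r ∈ IntermediateField.adjoin K {r ^ 3} := by
      rw [← key]; exact IntermediateField.mem_adjoin_simple_self K r
    rw [hr, IntermediateField.adjoin_simple_eq_bot_iff.2 (IntermediateField.algebraMap_mem _ _)]
      at h1
    obtain ⟨s, rfl⟩ := IntermediateField.mem_bot.1 h1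
    exact P.ns s ((algebraMap K L).injective (by rw [map_pow, hr]))
  · let S : Subalgebra K L :=
      { carrier := {y | ∃ g₀ g₁ g₂ : L,
          y = g₀ ^ 3 + algebraMap K L P.b * g₁ ^ 3 + algebraMap K L P.b ^ 2 * g₂ ^ 3}
        mul_mem' := by
          rintro _ _ ⟨g₀, g₁, g₂, rfl⟩ ⟨h₀, h₁, h₂, rfl⟩
          refine ⟨g₀ * h₀ + algebraMap K L P.b * (g₁ * h₂ + g₂ * h₁),
            g₀ * h₁ + g₁ * h₀ + algebraMap K L P.b * (g₂ * h₂), g₀ * h₂ + g₁ * h₁ + g₂ * h₀, ?_⟩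
          simp only [cube_add, mul_pow]
          ring
        add_mem' := by
          rintro _ _ ⟨g₀, g₁, g₂, rfl⟩ ⟨h₀, h₁, h₂, rfl⟩
          refine ⟨g₀ + h₀, g₁ + h₁, g₂ + h₂, ?_⟩
          simp only [cube_add]
          ring
        algebraMap_mem' := fun a => ⟨algebraMap K L (P.c0 a), algebraMap K L (P.c1 a),
          algebraMap K L (P.c2 a), by
          conv_lhs => rw [P.spec a]
          simp⟩ }
    have h1 : x ∈ (IntermediateField.adjoin K {x ^ 3}).toSubalgebra := by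
      rw [← key]; exact IntermediateField.mem_adjoin_simple_self K x
    rw [IntermediateField.adjoin_simple_toSubalgebra_of_isAlgebraic
      (Algebra.IsAlgebraic.isAlgebraic _)] at h1
    exact (Algebra.adjoin_le (S := S) (by rintro _ rfl; exact ⟨x, 0, 0, by simp⟩)) h1

end PB

end Pool.Agent.Lib.MP_a3f657_nt.Three
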