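import Pool.Agent.Lib.MP_a3f657_nt.C3Loc

/-!
Residues on the rational function field in characteristic three.
-/

set_option linter.unusedSectionVars false

namespace Pool.Agent.Lib.MP_a3f657_nt.Three

open Pool.Agent.Lib.MP_a3f657_nt.Two

open WithZero Polynomial IsDedekindDomain

open scoped Classical

variable {k : Type} [Field k] [Finite k] [CharP k 3]

lemma exists_cbrt (c : k) : ∃ r : k, r ^ 3 = c := by
  have : ExpChar k 3 := ExpChar.prime Nat.prime_three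
  exact surjective_frobenius k 3 c

lemma exists_parts (f : k[X]) : ∃ g₀ g₁ g₂ : k[X], f = g₀ ^ 3 + X * g₁ ^ 3 + X ^ 2 * g₂ ^ 3 := by
  induction f using Polynomial.induction_on with
  | C a =>
    obtain ⟨r, rfl⟩ := exists_cbrt a
    exact ⟨C r, 0, 0, by simp⟩
  | add p q hp hq =>
    obtain ⟨g₀, g₁, g₂, rfl⟩ := hp
    obtain ⟨h₀, h₁, h₂, rfl⟩ := hq
    exact ⟨g₀ + h₀, g₁ + h₁, g₂ + h₂, by grind⟩
  | monomial n a ih =>
    obtain ⟨g₀, g₁, g₂, e⟩ := ih
    exact ⟨X * g₂, g₀, g₁, by rw [pow_succ, ← mul_assoc, e]; ring⟩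

lemma X_ns (r : RatFunc k) : r ^ 3 ≠ RatFunc.X := fun hr => by
  have := ord_X (k := k)
  rw [← hr, ord_cube] at this
  omega

lemma X_ex (x : RatFunc k) :
    ∃ g₀ g₁ g₂ : RatFunc k, x = g₀ ^ 3 + RatFunc.X * g₁ ^ 3 + RatFunc.X ^ 2 * g₂ ^ 3 := by
  obtain ⟨g₀, g₁, g₂, e⟩ := exists_parts (x.num * x.denom ^ 2)
  have h0 := ι_ne x.denom_ne_zero
  have e2 : x * ι x.denom = ι x.num := (div_eq_iff h0).1 x.num_div_denom ▸ rfl
  have e3 := congrArg ι e
  simp only [ι, map_add, map_mul, map_pow, RatFunc.algebraMap_X] at e2 e3 h0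
  refine ⟨ι g₀ / ι x.denom, ι g₁ / ι x.denom, ι g₂ / ι x.denom, ?_⟩
  simp only [ι]
  field_simp
  rw [← e3, ← e2]
  ring

variable (k) in
/-- The 3-basis `t` of `k(t)`. -/
noncomputable def PX : PB (RatFunc k) := ⟨RatFunc.X, X_ns, X_ex⟩

lemma PX_parts (g₀ g₁ g₂ : k[X]) :
    (PX k).c0 (ι (g₀ ^ 3 + X * g₁ ^ 3 + X ^ 2 * g₂ ^ 3)) = ι g₀ ∧
    (PX k).c1 (ι (g₀ ^ 3 + X * g₁ ^ 3 + X ^ 2 * g₂ ^ 3)) = ι g₁ ∧
    (PX k).c2 (ι (g₀ ^ 3 + X * g₁ ^ 3 + X ^ 2 * g₂ ^ 3)) = ι g₂ := (PX k).uniq (by simp [PX])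

lemma D_ι (f : k[X]) : (PX k).D (ι f) = ι (derivative f) := by
  obtain ⟨g₀, g₁, g₂, rfl⟩ := exists_parts f
  have e : derivative (g₀ ^ 3 + X * g₁ ^ 3 + X ^ 2 * g₂ ^ 3) = g₁ ^ 3 - X * g₂ ^ 3 := by
    have h3 : (3 : k[X]) = 0 := by exact_mod_cast CharP.cast_eq_zero k[X] 3
    simp only [derivative_add, derivative_mul, derivative_X, pow_succ, pow_zero, derivative_one,
      one_mul]
    linear_combination (g₀ ^ 2 * derivative g₀ + X * g₁ ^ 2 * derivative g₁ +
      X ^ 2 * g₂ ^ 2 * derivative g₂ + X * g₂ ^ 3) * h3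
  rw [PB.D, (PX_parts g₀ g₁ g₂).2.1, (PX_parts g₀ g₁ g₂).2.2, e]
  simp [PX, ι]

variable (k) in
lemma exists_tr : ∃ f : k →+ ZMod 3, (∀ c, f (c ^ 3) = f c) ∧ ∃ c, f c ≠ 0 := by
  have h : (wpH (1 : k)).range ≠ (⊤ : AddSubgroup k) := fun e => by
    have h1 : Function.Injective (wpH (1 : k)) :=
      Finite.injective_iff_surjective.2 (AddMonoidHom.range_eq_top.1 e)
    exact one_ne_zero (h1 (a₁ := 1) (a₂ := 0) (by simp [wp]))
  obtain ⟨c, -, hc⟩ := SetLike.exists_of_lt (lt_top_iff_ne_top.2 h)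
  obtain ⟨f, h1, h2⟩ := exists_sep_hom three_K _ hc
  refine ⟨f, fun c => ?_, c, h1⟩
  have := h2 _ ⟨c, rfl⟩
  rw [wpH_apply, wp, one_mul, map_sub] at this
  exact sub_eq_zero.1 this

variable (k) in
/-- The absolute trace. -/
noncomputable def tr : k →+ ZMod 3 := (exists_tr k).choose

lemma tr_cube (c : k) : tr k (c ^ 3) = tr k c := (exists_tr k).choose_spec.1 c

lemma tr_ne : ∃ c, tr k c ≠ 0 := (exists_tr k).choose_spec.2

/-- The absolute trace of the residue of the form `x dt`. -/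
noncomputable def res : Pl k → RatFunc k →+ ZMod 3
  | none => -(tr k).comp resInf
  | some v => ((tr k).comp resInf).comp ⟨⟨pp v, pp_of_int (zero_mem _)⟩, pp_add v⟩

lemma res_none (x : RatFunc k) : res none x = -tr k (resInf x) := rfl

lemma res_some (v : HeightOneSpectrum k[X]) (x : RatFunc k) :
    res (some v) x = tr k (resInf (pp v x)) := rfl

lemma pol_cube (x : RatFunc k) : pol (x ^ 3) = pol x ^ 3 := pol_eq (by
  rw [show x ^ 3 - ι (pol x ^ 3) = (x - ι (pol x)) ^ 3 by rw [cube_sub, ι, map_pow]]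
  exact Fil_cube (pol_spec x) (by omega))

lemma resInf_parts (g₀ g₁ g₂ : RatFunc k) :
    resInf (g₀ ^ 3 + RatFunc.X * g₁ ^ 3 + RatFunc.X ^ 2 * g₂ ^ 3) = resInf g₂ ^ 3 := by
  have e0 : resInf (g₀ ^ 3) = 0 := by
    rw [show g₀ ^ 3 = ι (pol g₀ ^ 3) + (g₀ - ι (pol g₀)) ^ 3 by rw [cube_sub, ι, map_pow]; ring,
      map_add, resInf_ι, resInf_two (Fil_cube (pol_spec g₀) (by omega)), add_zero]
  have e1 : resInf (RatFunc.X * g₁ ^ 3) = 0 := by
    rw [show RatFunc.X * g₁ ^ 3 = ι (X * pol g₁ ^ 3) + RatFunc.X * (g₁ - ι (pol g₁)) ^ 3 by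
        rw [cube_sub, ι, map_mul, map_pow, RatFunc.algebraMap_X]; ring,
      map_add, resInf_ι, resInf_two (Fil.mul (mem_Fil_ord _) (Fil_cube (pol_spec g₁) le_rfl)
        (by rw [ord_X]; omega)), add_zero]
  rw [map_add, map_add, e0, e1, zero_add, zero_add, resInf_apply, resInf_apply,
    show RatFunc.X * (RatFunc.X ^ 2 * g₂ ^ 3) = (RatFunc.X * g₂) ^ 3 by ring, pol_cube,
    coeff_zero_eq_eval_zero, coeff_zero_eq_eval_zero, eval_pow]

lemma pp_parts (v : HeightOneSpectrum k[X]) (g₀ g₁ g₂ : RatFunc k) :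
    pp v (g₀ ^ 3 + RatFunc.X * g₁ ^ 3 + RatFunc.X ^ 2 * g₂ ^ 3) =
      pp v g₀ ^ 3 + RatFunc.X * pp v g₁ ^ 3 + RatFunc.X ^ 2 * pp v g₂ ^ 3 := by
  have hX : ∀ u, RatFunc.X ∈ Fil (val (k := k) (some u)) 0 := fun u => by simpa using ι_int u X
  have hN : RatFunc.X ∈ Fil (val (k := k) none) (-1) := mem_Fil_of_le ord_X.ge
  refine pp_eq (fun u hu => add_mem (add_mem (Fil_cube (pp_int hu g₀) le_rfl)
    (Fil.mul (hX u) (Fil_cube (pp_int hu g₁) le_rfl) le_rfl))
    (Fil.mul (Fil.sq (hX u) le_rfl) (Fil_cube (pp_int hu g₂) le_rfl) le_rfl))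
    (add_mem (add_mem (Fil_cube (pp_none v g₀) (by omega))
      (Fil.mul hN (Fil_cube (pp_none v g₁) le_rfl) (by omega)))
      (Fil.mul (Fil.sq hN le_rfl) (Fil_cube (pp_none v g₂) le_rfl) (by omega))) ?_
  rw [show g₀ ^ 3 + RatFunc.X * g₁ ^ 3 + RatFunc.X ^ 2 * g₂ ^ 3 -
      (pp v g₀ ^ 3 + RatFunc.X * pp v g₁ ^ 3 + RatFunc.X ^ 2 * pp v g₂ ^ 3) =
    (g₀ - pp v g₀) ^ 3 + RatFunc.X * (g₁ - pp v g₁) ^ 3 + RatFunc.X ^ 2 * (g₂ - pp v g₂) ^ 3 by
      rw [cube_sub, cube_sub, cube_sub]; ring]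
  exact add_mem (add_mem (Fil_cube (pp_spec v g₀) le_rfl)
    (Fil.mul (hX v) (Fil_cube (pp_spec v g₁) le_rfl) le_rfl))
    (Fil.mul (Fil.sq (hX v) le_rfl) (Fil_cube (pp_spec v g₂) le_rfl) le_rfl)

lemma res_some_int {v : HeightOneSpectrum k[X]} {x : RatFunc k} (h : x ∈ Fil (val (some v)) 0) :
    res (some v) x = 0 := by rw [res_some, pp_of_int h, map_zero, map_zero]

lemma res_none_two {x : RatFunc k} (h : x ∈ Fil (val none) 2) : res none x = 0 := by
  rw [res_none, resInf_two h, map_zero, neg_zero]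

lemma res_c2 (v : Pl k) (x : RatFunc k) : res v ((PX k).c2 x) = res v x := by
  conv_rhs => rw [(PX k).spec x]
  cases v
  · rw [res_none, res_none]
    exact congrArg _ ((tr_cube _).symm.trans (congrArg _ (resInf_parts _ _ _).symm))
  · rw [res_some, res_some]
    exact (tr_cube _).symm.trans (congrArg _ ((resInf_parts _ _ _).symm.trans
      (congrArg _ (pp_parts _ _ _ _).symm)))

/-- The residue theorem. -/
lemma sum_res (S : Finset (Pl k)) {x : RatFunc k} (h : ∀ v ∉ S, res v x = 0) :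
    ∑ v ∈ S, res v x = 0 := by
  let T := ((finite_poles x).preimage (Option.some_injective _).injOn).toFinset ∪ S.eraseNone
  have h1 : ∑ v ∈ T.insertNone, res v x = 0 := by
    rw [Finset.sum_insertNone, res_none, resInf_eq_sum T (x := x) (fun v hv => by
      by_contra h2
      exact hv (Finset.mem_union_left _ (by simpa using h2))), map_sum]
    exact neg_add_cancel _
  rw [← h1]
  refine Finset.sum_subset (fun v hv => ?_) fun v _ hv => h v hv
  cases v <;> simp [T, hv]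

lemma ord_unif (v : Pl k) : ord (val v) (unif v) = 1 := by
  cases v
  · rw [unif, ord_inv, ord_X]; rfl
  · exact ord_gen _

lemma unif_ns (v : Pl k) (r : RatFunc k) : r ^ 3 ≠ unif v := fun hr => by
  have := ord_unif v
  rw [← hr, ord_cube] at this
  omega

lemma D_unif_ne (v : Pl k) : (PX k).D (unif v) ≠ 0 := (PX k).D_ne_zero (unif_ns v)

lemma not_gen_dvd_derivative (v : HeightOneSpectrum k[X]) : ¬ gen v ∣ derivative (gen v) :=
  fun h => (gen_irr v).not_isUnit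
    ((PerfectField.separable_of_irreducible (gen_irr v)).isUnit_of_dvd' dvd_rfl h)

lemma D_unif_none : (PX k).D (unif none) = -RatFunc.X⁻¹ ^ 2 := by
  have := RatFunc.X_ne_zero (K := k)
  rw [unif, show (RatFunc.X⁻¹ : RatFunc k) = RatFunc.X⁻¹ ^ 3 * (PX k).b ^ 2 by
    simp only [PX]; field_simp, PB.D_cube_mul, PB.D_sq, PB.D_b, mul_one]
  simp only [PX]
  field_simp

lemma ord_D_unif (v : Pl k) : ord (val v) ((PX k).D (unif v)) = eD v := by
  cases v
  · rw [D_unif_none, ord_neg, ord_sq, ord_inv, ord_X]; rfl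
  · rw [unif, D_ι, ord_ι_unit (not_gen_dvd_derivative _)]; rfl

lemma res_int {v : Pl k} {x : RatFunc k} (h : x ∈ Fil (val v) (eD v)) : res v x = 0 := by
  cases v
  exacts [res_none_two h, res_some_int h]

lemma res_ne (v : Pl k) : ∃ x ∈ Fil (val v) (eD v - 1), res v x ≠ 0 := by
  obtain ⟨c, hc⟩ := tr_ne (k := k)
  have key : ∀ p : k[X], p.Monic → 0 < p.natDegree →
      ι (C c * X ^ (p.natDegree - 1)) / ι p ∈ Fil (val none) 1 ∧
      resInf (ι (C c * X ^ (p.natDegree - 1)) / ι p) = c := fun p hp hd => by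
    refine ⟨Fil.div (ι_mem_none.2 (natDegree_C_mul_X_pow_le _ _))
      (by rw [ord_none hp.ne_zero]; omega), ?_⟩
    rw [resInf_apply, pol_eq (a := C c), coeff_C_zero]
    have h0 := ι_ne hp.ne_zero
    have e : RatFunc.X * (ι (C c * X ^ (p.natDegree - 1)) / ι p) - ι (C c) =
        ι (C c) * (ι (X ^ p.natDegree - p) / ι p) := by
      obtain ⟨n, hn⟩ : ∃ n, p.natDegree = n + 1 := ⟨p.natDegree - 1, by omega⟩
      simp only [hn, Nat.add_sub_cancel, ι, map_mul, map_pow, map_sub, RatFunc.algebraMap_X] at h0 ⊢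
      field_simp
      ring
    rw [e]
    refine Fil.mul (const_int _ _) (Fil.div (a := 1 - p.natDegree) (c := 1) (ι_mem_none'.2 ?_)
      (by rw [ord_none hp.ne_zero]; omega)) (by omega)
    have := degree_sub_lt_left (p := X ^ p.natDegree) (q := p)
      (by rw [degree_X_pow, degree_eq_natDegree hp.ne_zero]) (pow_ne_zero _ X_ne_zero)
      (by rw [leadingCoeff_X_pow, hp.leadingCoeff])
    rwa [degree_X_pow] at this
  rcases v with _ | v
  · obtain ⟨h1, h2⟩ := key X monic_X (by simp)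
    exact ⟨_, h1, by rwa [res_none, h2, neg_ne_zero]⟩
  · obtain ⟨h1, h2⟩ := key (gen v) (gen_monic v) (gen_deg_pos v)
    refine ⟨ι (C c * X ^ ((gen v).natDegree - 1)) / ι (gen v), Fil.div (ι_int _ _)
      (by rw [ord_gen]; rfl), ?_⟩
    rwa [res_some, pp_eq (fun u hu => div_int _ fun h => hu (gen_dvd_gen h)) h1 (by simp), h2]

lemma exists_rep (v : HeightOneSpectrum k[X]) {x : RatFunc k} (h : x ∈ Fil (val (some v)) 0) :
    ∃ a : k[X], a.degree < (gen v).degree ∧ x - ι a ∈ Fil (val (some v)) 1 := by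
  obtain ⟨a, ha⟩ := exists_approx h 1
  refine ⟨a % gen v, degree_mod_lt _ (gen_ne v), ?_⟩
  have e := congrArg ι (EuclideanDomain.div_add_mod a (gen v))
  rw [show x - ι (a % gen v) = ι (gen v * (a / gen v)) - (ι a - x) by
    simp only [ι, map_add] at e ⊢; linear_combination -e]
  exact sub_mem (ι_mem_one.2 (dvd_mul_right _ _)) ha

lemma exists_rep_none {x : RatFunc k} (h : x ∈ Fil (val none) 0) :
    ∃ c : k, x - ι (C c) ∈ Fil (val none) 1 := by
  have h1 : ι (pol x) ∈ Fil (val none) (-(0 : ℕ)) := by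
    simpa using sub_mem h (Fil.mono (pol_spec x) (b := 0) (by omega))
  refine ⟨(pol x).coeff 0, ?_⟩
  rw [← eq_C_of_natDegree_le_zero (ι_mem_none.1 h1)]
  exact pol_spec x

lemma finite_degree_lt (n : WithBot ℕ) : {a : k[X] | a.degree < n}.Finite := by
  rcases n with _ | n
  · exact Set.finite_empty.subset fun a ha => not_lt_bot (show a.degree < ⊥ from ha)
  · have : Finite (degreeLT k n) := Module.finite_of_finite k
    exact (Set.toFinite (degreeLT k n : Set k[X])).subset fun a ha => mem_degreeLT.2 ha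

lemma fin_val (v : Pl k) : (Fil (val v) 1).relIndex (Fil (val v) 0) ≠ 0 := by
  rcases v with _ | v
  · refine relIndex_ne_of_rep (Set.finite_range fun c : k => ι (C c)) fun x hx => ?_
    obtain ⟨c, hc⟩ := exists_rep_none hx
    exact ⟨_, ⟨c, rfl⟩, hc⟩
  · refine relIndex_ne_of_rep ((finite_degree_lt (gen v).degree).image ι) fun x hx => ?_
    obtain ⟨a, h1, h2⟩ := exists_rep v hx
    exact ⟨_, ⟨a, h1, rfl⟩, h2⟩

/-- The local data at a place of `k(t)`. -/
noncomputable def pl (v : Pl k) : PreLoc (RatFunc k) where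
  w := val v
  P := (PX k).change (unif v) (unif_ns v)
  hπ := ord_unif v
  r := (res v).comp (AddMonoidHom.mulRight ((PX k).D (unif v)))
  r_c2 x := by
    change res v (_ * _) = res v (_ * _)
    rw [← res_c2 v (x * _)]
    exact congrArg _ ((PX k).c2_mul_D ((PX k).change (unif v) (unif_ns v)) x).symm
  r_int x hx := res_int (Fil.mul hx (mem_Fil_ord _) (by rw [ord_D_unif]; omega))
  r_ne := by
    obtain ⟨x, h1, h2⟩ := res_ne v
    exact ⟨x / (PX k).D (unif v), Fil.div h1 (by rw [ord_D_unif]; omega), by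
      simpa [D_unif_ne v] using h2⟩
  fin := fin_val v

lemma pl_w (v : Pl k) : (pl v).w = val v := rfl

lemma pl_b (v : Pl k) : (pl v).P.b = unif v := rfl

lemma pl_r (v : Pl k) (x : RatFunc k) : (pl v).r x = res v (x * (PX k).D (unif v)) := rfl

lemma D_eq (v : Pl k) (x : RatFunc k) : (PX k).D x = (pl v).P.D x * (PX k).D (unif v) :=
  (PX k).D_chain (pl v).P x

lemma dlg_eq (v : Pl k) (P : PB (RatFunc k)) :
    (PX k).dlg P.b = (pl v).om P * (PX k).D (unif v) := by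
  rw [PB.dlg, D_eq v, PreLoc.om, PB.dlg]; ring

lemma rho_eq (v : Pl k) (P : PB (RatFunc k)) (x : RatFunc k) :
    (pl v).rho P x = res v (x * (PX k).dlg P.b) := by
  rw [PreLoc.rho_apply, pl_r, dlg_eq v, mul_assoc]

lemma mul_D_mem {v : Pl k} {x : RatFunc k} {a : ℤ} :
    x * (PX k).D (unif v) ∈ Fil (val v) (a + eD v) ↔ x ∈ Fil (val v) a :=
  ⟨fun h => Fil.of_mul h (D_unif_ne v) (by rw [ord_D_unif]; omega),
    fun h => Fil.mul h (mem_Fil_ord _) (by rw [ord_D_unif])⟩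

lemma c2_mem_pl {v : Pl k} {y : RatFunc k} {a c : ℤ} (h : y ∈ Fil (val v) (a + eD v))
    (hc : 3 * c ≤ a) : (PX k).c2 y ∈ Fil (val v) (c + eD v) := by
  obtain ⟨x, rfl⟩ : ∃ x, y = x * (PX k).D (unif v) :=
    ⟨y / (PX k).D (unif v), (div_mul_cancel₀ _ (D_unif_ne v)).symm⟩
  have e : (PX k).c2 (x * (PX k).D (unif v)) = (pl v).P.c2 x * (PX k).D (unif v) :=
    (PX k).c2_mul_D (pl v).P x
  rw [e]
  exact mul_D_mem.2 (PreLoc.c2_mem (L := pl v) (mul_D_mem.1 h) hc)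

/-- Functions with bounded poles form a finite set. -/
lemma finite_bdd (S : Finset (Pl k)) (n : ℤ) :
    {x : RatFunc k | (∀ v ∈ S, x ∈ Fil (val v) n) ∧ ∀ v ∉ S, x ∈ Fil (val v) 0}.Finite := by
  obtain ⟨M, hM⟩ : ∃ M : k[X], M = ∏ u ∈ S.eraseNone, gen u ^ n.natAbs := ⟨_, rfl⟩
  have h0 : ι M ≠ 0 :=
    ι_ne (hM ▸ Finset.prod_ne_zero_iff.2 fun u _ => pow_ne_zero _ (gen_ne u))
  refine ((finite_degree_lt ((n.natAbs + M.natDegree + 1 : ℕ) : WithBot ℕ)).image
    fun a => ι a / ι M).subset ?_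
  rintro x ⟨h1, h2⟩
  obtain ⟨a, ha⟩ := exists_poly (x := x * ι M) fun u => by
    by_cases hu : some u ∈ S
    · refine Fil.mul (h1 _ hu) ((ι_mem_some (n := n.natAbs)).2 ?_) (by omega)
      rw [hM]
      exact Finset.dvd_prod_of_mem _ (Finset.mem_eraseNone.2 hu)
    · exact Fil.mul (h2 _ hu) (ι_int u M) le_rfl
  have h3 : x ∈ Fil (val none) (-(n.natAbs : ℤ)) := by
    by_cases hu : none ∈ S
    · exact Fil.mono (h1 _ hu) (by omega)
    · exact Fil.mono (h2 _ hu) (by omega)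
  refine ⟨a, ι_mem_none'.1 ?_, by simp only [ha]; exact mul_div_cancel_right₀ _ h0⟩
  rw [ha]
  exact Fil.mul h3 (ι_mem_none_self M) (by push_cast; omega)

end Pool.Agent.Lib.MP_a3f657_nt.Three
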