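import Pool.Agent.Lib.MP_a3f657_nt.Torsor

/-!
Descent by a 2-isogeny for the Tate-Shafarevich group.
-/

namespace Pool.Agent.Lib.MP_a3f657_nt

open WeierstrassCurve WeierstrassCurve.Affine
open scoped Classical

instance algQb : Algebra.IsAlgebraic ℚ Qb := AlgebraicClosure.isAlgebraic ℚ

instance galQb : IsGalois ℚ Qb :=
  haveI : IsAlgClosure ℚ Qb := ⟨inferInstance, algQb⟩
  inferInstance

/-- Homomorphisms on points that commute with field homomorphisms. -/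
structure NatHom (W W' : WeierstrassCurve ℚ) where
  /-- The map on `K`-points. -/
  f : ∀ (K : Type) [Field K] [Algebra ℚ K], Pt W K →+ Pt W' K
  nat : ∀ {K L : Type} [Field K] [Algebra ℚ K] [Field L] [Algebra ℚ L] (g : K →ₐ[ℚ] L)
    (P : Pt W K), pm W' g (f K P) = f L (pm W g P)

variable {W W' : WeierstrassCurve ℚ}

lemma NatHom.loc (φ : NatHom W W') {F : Type} [Field F] [Algebra ℚ F] {ξ : GQ → Pt W Qb}
    (h : LocTriv W F ξ) : LocTriv W' F fun σ => φ.f Qb (ξ σ) := fun i => by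
  obtain ⟨P, hP⟩ := h i
  exact ⟨φ.f _ P, fun τ σ e => by rw [φ.nat, hP τ σ e, map_sub, φ.nat]⟩

/-- The induced map on cocycles. -/
noncomputable def NatHom.coc (φ : NatHom W W') : cocyc W →+ cocyc W' where
  toFun ξ := ⟨fun σ => φ.f Qb (ξ.1 σ), ξ.2.1.comp _, fun σ τ => by
    simp only [ξ.2.2.1 σ τ, map_add, φ.nat], φ.loc ξ.2.2.2.1, fun p _ => φ.loc (ξ.2.2.2.2 p)⟩
  map_zero' := by ext; simp
  map_add' _ _ := by ext; simp

/-- The induced map on Tate-Shafarevich groups. -/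
noncomputable def NatHom.sha (φ : NatHom W W') : Sha W →+ Sha W' :=
  QuotientAddGroup.map _ _ φ.coc (by
    rintro ξ ⟨P, hP⟩
    exact ⟨φ.f _ P, fun σ => by rw [φ.nat, ← map_sub, ← hP]; rfl⟩)

lemma sh_le (φ : NatHom W W') (ψ : NatHom W' W) (h : ∀ P, ψ.f Qb (φ.f Qb P) = P)
    (hf : (ShaTwo W').Finite) : (ShaTwo W).Finite ∧ (ShaTwo W).ncard ≤ (ShaTwo W').ncard := by
  have h1 : Function.LeftInverse ψ.sha φ.sha := fun c => by
    induction c using QuotientAddGroup.induction_on with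
    | H ξ => exact congrArg QuotientAddGroup.mk (Subtype.ext (funext fun σ => h _))
  have h2 : Set.MapsTo φ.sha (ShaTwo W) (ShaTwo W') := fun c (hc : 2 • c = 0) =>
    show 2 • φ.sha c = 0 by rw [← map_nsmul, hc, map_zero]
  exact ⟨hf.of_injOn h2 h1.injective.injOn, Set.ncard_le_ncard_of_injOn _ h2 h1.injective.injOn hf⟩

lemma change_nat {a b c a' b' c' u r : ℚ} (hu : u ≠ 0)
    (ha : a' = u ^ 2 * (a + 3 * r)) (hb : b' = u ^ 4 * (b + 2 * a * r + 3 * r ^ 2))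
    (hc : c' = u ^ 6 * (c + b * r + a * r ^ 2 + r ^ 3)) : ∃ φ : NatHom (wc a b c) (wc a' b' c'),
      ∀ x y h, ∃ h', φ.f Qb (.some x y h) =
        .some (algebraMap ℚ Qb u ^ 2 * (x - algebraMap ℚ Qb r)) (algebraMap ℚ Qb u ^ 3 * y) h' := by
  have key := fun (K : Type) [Field K] [Algebra ℚ K] =>
    haveI := algebraRat.charZero K
    change0 (bc a b c K) (bc a' b' c' K) (u := algebraMap ℚ K u) (r := algebraMap ℚ K r)
      ((map_ne_zero _).2 hu) (by simp [ha, map_ofNat]) (by simp [hb, map_ofNat]) (by simp [hc])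
  choose f hf using key
  refine ⟨⟨f, fun {K L} _ _ _ _ g P => ?_⟩, hf Qb⟩
  rcases P with _ | ⟨x, y, h⟩
  · rw [← Point.zero_def]; simp
  · obtain ⟨h1, e1⟩ := hf K x y h
    rw [e1, Point.map_some, Point.map_some, (hf L _ _ _).2]
    simp

lemma sh_change {a b c a' b' c' u r : ℚ} (hu : u ≠ 0)
    (ha : a' = u ^ 2 * (a + 3 * r)) (hb : b' = u ^ 4 * (b + 2 * a * r + 3 * r ^ 2))
    (hc : c' = u ^ 6 * (c + b * r + a * r ^ 2 + r ^ 3)) (hf : (ShaTwo (wc a' b' c')).Finite) :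
    (ShaTwo (wc a b c)).Finite ∧ (ShaTwo (wc a b c)).ncard = (ShaTwo (wc a' b' c')).ncard := by
  obtain ⟨φ, hφ⟩ := change_nat hu ha hb hc
  obtain ⟨ψ, hψ⟩ := change_nat (a := a') (b := b') (c := c') (a' := a) (b' := b) (c' := c)
    (u := u⁻¹) (r := -u ^ 2 * r) (inv_ne_zero hu) (by rw [ha]; field_simp; ring)
    (by rw [ha, hb]; field_simp; ring) (by rw [ha, hb, hc]; field_simp; ring)
  have hu' : algebraMap ℚ Qb u ≠ 0 := (map_ne_zero _).2 hu
  have h1 := sh_le φ ψ (by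
    rintro (_ | ⟨x, y, h⟩)
    · rw [← Point.zero_def]; simp
    · rw [(hφ x y h).2, (hψ _ _ _).2]
      congr 1 <;> simp only [map_inv₀, map_mul, map_neg, map_pow] <;> field_simp
      ring) hf
  refine ⟨h1.1, h1.2.antisymm (sh_le ψ φ ?_ h1.1).2⟩
  rintro (_ | ⟨x, y, h⟩)
  · rw [← Point.zero_def]; simp
  · rw [(hψ x y h).2, (hφ _ _ _).2]
    congr 1 <;> simp only [map_inv₀, map_mul, map_neg, map_pow] <;> field_simp
    ring

variable {a b : ℚ}

lemma isog_nat (h : Nd a b) : ∃ φ : NatHom (wc a b 0) (wc (-2 * a) (a ^ 2 - 4 * b) 0),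
    (∀ P, φ.f Qb P = 0 → P = 0 ∨ P = T0 h Qb) ∧
      ∀ P, 2 • P = 0 → φ.f Qb P = 0 ∨ φ.f Qb P = T0 h.dual Qb := by
  have key := fun (K : Type) [Field K] [Algebra ℚ K] =>
    haveI := algebraRat.charZero K
    isog0 (bc0 a b K) ((bc0 (-2 * a) (a ^ 2 - 4 * b) K).trans (by simp [map_ofNat]))
      (h.map K).1 (h.map K).2
  choose f hf0 hf using key
  refine ⟨⟨f, fun {K L} _ _ _ _ g P => ?_⟩, ?_, ?_⟩
  · rcases P with _ | ⟨x, y, h⟩
    · rw [← Point.zero_def]; simp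
    by_cases hx : x = 0
    · subst hx
      rw [hf0, Point.map_some]
      simp only [map_zero, hf0]
    · rw [(hf K x y h hx).2, Point.map_some, Point.map_some,
        (hf L _ _ _ ((map_ne_zero g).2 hx)).2]
      simp
  · rintro (_ | ⟨x, y, h'⟩) hP
    · exact Or.inl rfl
    by_cases hx : x = 0
    · subst hx; exact Or.inr (eq_T0 h h')
    · exact absurd ((hf Qb x y h' hx).2.symm.trans hP) (Point.some_ne_zero _)
  · rintro (_ | ⟨x, y, h'⟩) hP
    · exact Or.inl (map_zero _)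
    by_cases hx : x = 0
    · subst hx; exact Or.inl (hf0 ..)
    · obtain rfl := (two0 (bc0 a b Qb) h').1 hP
      have h1 := ((ns_iff (bc0 a b Qb)).1 h').1
      obtain ⟨h2, e⟩ := hf Qb x 0 h' hx
      have h3 : x + algebraMap ℚ Qb a + algebraMap ℚ Qb b / x = 0 := by
        field_simp
        exact mul_left_cancel₀ hx (by linear_combination -h1)
      refine Or.inr (e.trans ?_)
      simp only [h3] at h2 ⊢
      exact eq_T0 h.dual _

/-- A square root in the algebraic closure. -/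
noncomputable def rt (d : ℚ) : Qb :=
  (IsAlgClosed.exists_pow_nat_eq (algebraMap ℚ Qb d) two_pos).choose

lemma rt_sq (d : ℚ) : rt d ^ 2 = algebraMap ℚ Qb d :=
  (IsAlgClosed.exists_pow_nat_eq (algebraMap ℚ Qb d) two_pos).choose_spec

lemma rt_ne {d : ℚ} (hd : d ≠ 0) : rt d ≠ 0 := fun h => hd (by
  have := rt_sq d
  rw [h] at this
  exact (map_eq_zero (algebraMap ℚ Qb)).1 (by rw [← this]; ring))

/-- The cocycle attached to a square root. -/
noncomputable def chi (h : Nd a b) (δ : Qb) (σ : GQ) : Pt (wc a b 0) Qb :=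
  if σ δ = δ then 0 else T0 h Qb

lemma chi_congr (h : Nd a b) {d s : ℚ} {δ : Qb} (hd : d ≠ 0) (hs : s ≠ 0)
    (hδ : δ ^ 2 = algebraMap ℚ Qb d) (h1 : IsSquare (d * s)) : chi h δ = chi h (rt s) := by
  obtain ⟨e, he⟩ := h1
  have h2 : δ * rt s = algebraMap ℚ Qb e ∨ δ * rt s = -algebraMap ℚ Qb e :=
    sq_eq_sq_iff_eq_or_eq_neg.1 (by rw [mul_pow, hδ, rt_sq, ← map_mul, he, map_mul, sq])
  have h3 : δ ≠ 0 := by
    rintro rfl
    exact hd ((map_eq_zero (algebraMap ℚ Qb)).1 (by rw [← hδ]; ring))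
  funext σ
  have h4 : σ δ * σ (rt s) = δ * rt s := by
    rw [← map_mul]; rcases h2 with h2 | h2 <;> simp [h2]
  refine if_congr ⟨fun h5 => ?_, fun h5 => ?_⟩ rfl rfl <;> rw [h5] at h4
  exacts [mul_left_cancel₀ h3 h4, mul_right_cancel₀ (rt_ne hs) h4]

lemma chi_loc (h : Nd a b) {d : ℚ} {δ : Qb} (hd : d ≠ 0) (hδ : δ ^ 2 = algebraMap ℚ Qb d)
    (F : Type) [Field F] [Algebra ℚ F] :
    LocTriv (wc a b 0) F (chi h δ) ↔ Sol F a b (algebraMap ℚ F d) := by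
  have : IsGalois F (AlgebraicClosure F) := by
    have := algebraRat.charZero F
    infer_instance
  have h1 : ∀ i : Qb →ₐ[ℚ] AlgebraicClosure F, i δ ^ 2 = algebraMap F _ (algebraMap ℚ F d) :=
    fun i => by rw [← map_pow, hδ, i.commutes, IsScalarTower.algebraMap_apply ℚ F]
  have h2 : ∀ (i : Qb →ₐ[ℚ] AlgebraicClosure F) (τ : AlgebraicClosure F ≃ₐ[F] AlgebraicClosure F)
      (σ : GQ), (∀ x, τ (i x) = i (σ x)) →
      pm _ i (chi h δ σ) = if τ (i δ) = i δ then 0 else T0 h _ := by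
    intro i τ σ e
    rw [chi, e, apply_ite (pm _ i), map_zero, pm_T0]
    exact if_congr (i.injective.eq_iff).symm rfl rfl
  refine ⟨fun H => ?_, fun H i => ?_⟩
  · let i : Qb →ₐ[ℚ] AlgebraicClosure F := IsAlgClosed.lift
    obtain ⟨P, hP⟩ := H i
    refine sol_of_torsor h ((map_ne_zero _).2 hd) (h1 i) P fun τ => ?_
    letI := i.toRingHom.toAlgebra
    haveI := IsScalarTower.of_algebraMap_eq (R := ℚ) (S := Qb) (A := AlgebraicClosure F)
      fun x => (i.commutes x).symm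
    have e := fun x => ((τ.restrictScalars ℚ).restrictNormal_commutes Qb x).symm
    rw [← hP τ _ e, h2 i τ _ e]
  · obtain ⟨P, hP⟩ := torsor_of_sol h (h1 i) H
    exact ⟨P, fun τ σ e => by rw [h2 i τ σ e, hP]⟩

lemma chi_mem (h : Nd a b) {d : ℚ} (hd : d ≠ 0) (h1 : Sol ℝ a b (algebraMap ℚ ℝ d))
    (h2 : ∀ (p : ℕ) [Fact p.Prime], Sol ℚ_[p] a b (algebraMap ℚ ℚ_[p] d)) :
    chi h (rt d) ∈ cocyc (wc a b 0) := by
  refine ⟨(IsLocallyConstant.iff_eventually_eq _).2 fun σ => ?_, fun σ τ => ?_,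
    (chi_loc h hd (rt_sq d) ℝ).2 h1, fun p _ => (chi_loc h hd (rt_sq d) _).2 (h2 p)⟩
  · have h3 := (stabilizer_isOpen_of_isIntegral (K := ℚ) (rt d)).preimage
      (continuous_const_mul σ⁻¹)
    filter_upwards [h3.mem_nhds (x := σ) (by simp)] with τ hτ
    have h4 : σ.symm (τ (rt d)) = rt d := hτ
    rw [chi, chi, ← σ.apply_symm_apply (τ (rt d)), h4]
  · have n1 : -rt d ≠ rt d := fun h => rt_ne hd (by linear_combination -h / 2)
    simp only [chi, AlgEquiv.mul_apply, apply_ite (pm _ _), map_zero, pm_T0]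
    rcases conj_cases (rt_sq d) τ with h3 | h3 <;> rcases conj_cases (rt_sq d) σ with h4 | h4 <;>
      simp [h3, h4, n1, two_T0]

lemma kummer (h : Nd a b) (ξ : cocyc (wc a b 0)) (hξ : ∀ σ, ξ.1 σ = 0 ∨ ξ.1 σ = T0 h Qb) :
    ∃ (d : ℚ) (δ : Qb), d ≠ 0 ∧ δ ^ 2 = algebraMap ℚ Qb d ∧ ξ.1 = chi h δ := by
  have hm : ∀ σ τ, ξ.1 (σ * τ) = ξ.1 σ + ξ.1 τ := fun σ τ => by
    rw [ξ.2.2.1]; rcases hξ τ with h | h <;> rw [h]
    exacts [by rw [map_zero], by rw [pm_T0]]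
  let χ : GQ →* Multiplicative (Pt (wc a b 0) Qb) :=
    MonoidHom.mk' (fun σ => Multiplicative.ofAdd (ξ.1 σ)) fun σ τ => congrArg _ (hm σ τ)
  by_cases h0 : ∀ σ, ξ.1 σ = 0
  · exact ⟨1, 1, one_ne_zero, by simp, funext fun σ => by simp [chi, h0]⟩
  push Not at h0
  obtain ⟨σ₀, h0⟩ := h0
  have h1 := InfiniteGalois.fixingSubgroup_fixedField (k := ℚ) (K := Qb)
    ⟨χ.ker, ξ.2.1.isClosed_fiber 0⟩
  have h2 : σ₀ ∉ (IntermediateField.fixedField χ.ker).fixingSubgroup := by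
    rw [show (IntermediateField.fixedField χ.ker).fixingSubgroup = χ.ker from h1]; exact h0
  rw [IntermediateField.mem_fixingSubgroup_iff] at h2
  push Not at h2
  obtain ⟨x, hx, h2⟩ := h2
  have h3 : ∀ σ, ξ.1 σ = 0 → σ x = x := fun σ hσ =>
    (IntermediateField.mem_fixedField_iff _ _).1 hx σ hσ
  have h4 := (hξ σ₀).resolve_left h0
  have h5 : ∀ σ, ξ.1 σ = T0 h Qb → σ x = σ₀ x := fun σ hσ => by
    have := h3 (σ₀⁻¹ * σ) (by
      have e := hm σ₀ (σ₀⁻¹ * σ)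
      rw [mul_inv_cancel_left, hσ, h4] at e
      simpa using e)
    rw [← σ₀.apply_symm_apply (σ x)]
    exact congrArg σ₀ this
  have h6 : x - σ₀ x ≠ 0 := sub_ne_zero.2 h2.symm
  have h7 : ∀ σ, (ξ.1 σ = 0 ∧ σ (x - σ₀ x) = x - σ₀ x) ∨
      (ξ.1 σ = T0 h Qb ∧ σ (x - σ₀ x) = -(x - σ₀ x)) := fun σ => by
    rw [map_sub, ← AlgEquiv.mul_apply]
    rcases hξ σ with e | e
    · exact Or.inl ⟨e, by rw [h3 σ e, h5 _ (by rw [hm, e, h4, zero_add])]⟩
    · exact Or.inr ⟨e, by rw [h5 σ e, h3 (σ * σ₀) (by rw [hm, e, h4, two_T0]), neg_sub]⟩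
  obtain ⟨d, hd⟩ := (InfiniteGalois.mem_range_algebraMap_iff_fixed (k := ℚ) ((x - σ₀ x) ^ 2)).2
    fun σ => by rw [map_pow]; rcases h7 σ with e | e <;> rw [e.2]; ring
  refine ⟨d, x - σ₀ x, ?_, hd.symm, funext fun σ => ?_⟩
  · rintro rfl
    exact pow_ne_zero 2 h6 (by rw [← hd, map_zero])
  · rcases h7 σ with e | e
    · rw [chi, if_pos e.2, e.1]
    · rw [chi, if_neg, e.1]
      rw [e.2]
      exact fun h => h6 (by linear_combination -h / 2)

/-- `S` represents all classes that are soluble at every prime. -/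
def Covers (a b : ℚ) (S : Finset ℚ) : Prop :=
  ∀ d : ℚ, d ≠ 0 → (∀ (p : ℕ) [Fact p.Prime], Sol ℚ_[p] a b (algebraMap ℚ ℚ_[p] d)) →
    ∃ s ∈ S, s ≠ 0 ∧ IsSquare (d * s)

lemma Covers.kummer (h : Nd a b) {S : Finset ℚ} (hS : Covers a b S) (ξ : cocyc (wc a b 0))
    (hξ : ∀ σ, ξ.1 σ = 0 ∨ ξ.1 σ = T0 h Qb) : ∃ s ∈ S, ξ.1 = chi h (rt s) := by
  obtain ⟨d, δ, hd, hδ, e⟩ := Pool.Agent.Lib.MP_a3f657_nt.kummer h ξ hξ
  obtain ⟨s, h1, h2, h3⟩ := hS d hd fun p _ => (chi_loc h hd hδ _).1 (e ▸ ξ.2.2.2.2 p)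
  exact ⟨s, h1, e.trans (chi_congr h hd h2 hδ h3)⟩

theorem sh_upper (h : Nd a b) {S₁ S₂ : Finset ℚ} (h1 : Covers a b S₁)
    (h2 : Covers (-2 * a) (a ^ 2 - 4 * b) S₂) :
    (ShaTwo (wc a b 0)).Finite ∧ (ShaTwo (wc a b 0)).ncard ≤ S₁.card * S₂.card := by
  obtain ⟨φ, hk, ht⟩ := isog_nat h
  have key : ∀ c : ShaTwo (wc a b 0), ∃ (ξ : cocyc (wc a b 0)) (s : ℚ), (ξ : Sha _) = c.1 ∧ s ∈ S₂ ∧
      (φ.coc ξ).1 = chi h.dual (rt s) := by
    rintro ⟨c, hc⟩
    obtain ⟨ξ, rfl⟩ := QuotientAddGroup.mk_surjective c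
    obtain ⟨P, hP⟩ := (QuotientAddGroup.eq_zero_iff (2 • ξ)).1 hc
    obtain ⟨Q, rfl⟩ := halve0 (bc0 a b Qb) (h.map Qb).1 (h.map Qb).2 P
    let η : cocyc (wc a b 0) := ⟨fun σ => pm _ σ.toAlgHom Q - Q, ?_, fun σ τ => ?_, fun i => ?_,
      fun p _ i => ?_⟩
    · obtain ⟨s, h3, h4⟩ := h2.kummer h.dual (φ.coc (ξ - η)) fun σ => ht _ (by
        have : 2 • ξ.1 σ = _ := hP σ
        change 2 • (ξ.1 σ - (_ - Q)) = 0
        rw [nsmul_sub, this, map_nsmul, nsmul_sub, sub_self])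
      refine ⟨ξ - η, s, ?_, h3, h4⟩
      rw [QuotientAddGroup.mk_sub, show (η : Sha (wc a b 0)) = 0 from
        (QuotientAddGroup.eq_zero_iff η).2 ⟨Q, fun _ => rfl⟩, sub_zero]
    · refine (IsLocallyConstant.iff_eventually_eq _).2 fun σ => ?_
      rcases Q with _ | ⟨x, y, hxy⟩
      · exact Filter.Eventually.of_forall fun _ => rfl
      have h3 := fun z : Qb => ((stabilizer_isOpen_of_isIntegral (K := ℚ) z).preimage
        (continuous_const_mul σ⁻¹)).mem_nhds (x := σ) (by simp)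
      filter_upwards [h3 x, h3 y] with τ hx hy
      have h4 : τ x = σ x := σ.symm_apply_eq.1 hx
      have h5 : τ y = σ y := σ.symm_apply_eq.1 hy
      rw [Point.map_some, Point.map_some]
      congr 2
    · rw [map_sub, Point.map_map, sub_add_sub_cancel']
      rfl
    all_goals
      refine ⟨pm _ i Q, fun τ σ e => ?_⟩
      rw [map_sub, Point.map_map, Point.map_map]
      congr 3
      exact AlgHom.ext fun x => (e x).symm
  choose ξ s e1 e2 e3 using key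
  have key2 : ∀ c c' : ShaTwo (wc a b 0), s c = s c' → ∃ t ∈ S₁, (ξ c - ξ c').1 = chi h (rt t) :=
    fun c c' e => h1.kummer h _ fun σ => hk _ (by
      have := congrFun (e3 c) σ
      rw [e, ← e3 c'] at this
      exact (map_sub _ _ _).trans (sub_eq_zero.2 this))
  choose! t e4 e5 using key2
  have : Nonempty (ShaTwo (wc a b 0)) := ⟨⟨0, nsmul_zero 2⟩⟩
  let g : ShaTwo (wc a b 0) → ShaTwo (wc a b 0) := fun c => Function.invFun s (s c)
  have hg : ∀ c, s c = s (g c) := fun c => (Function.invFun_eq ⟨c, rfl⟩).symm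
  have h3 : Set.InjOn (fun c => (t c (g c), s c)) Set.univ := fun c _ c' _ e => by
    have e6 : t c (g c) = t c' (g c') := congrArg Prod.fst e
    have e7 : g c = g c' := congrArg (Function.invFun s) (congrArg Prod.snd e)
    have e8 := e5 c _ (hg c)
    rw [e6, ← e5 c' _ (hg c'), e7] at e8
    exact Subtype.ext (by rw [← e1, ← e1, sub_left_injective (Subtype.ext e8)])
  have h4 : Set.MapsTo (fun c => (t c (g c), s c)) Set.univ (S₁ ×ˢ S₂ : Finset _) :=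
    fun c _ => by simpa using ⟨e4 c _ (hg c), e2 c⟩
  refine ⟨Set.finite_univ_iff.1 ((Finset.finite_toSet _).of_injOn h4 h3), ?_⟩
  have := Set.ncard_le_ncard_of_injOn _ h4 h3 (Finset.finite_toSet _)
  rwa [Set.ncard_univ, Set.ncard_coe_finset, Finset.card_product] at this

theorem sh_lower (h : Nd a b) (hf : (ShaTwo (wc a b 0)).Finite) {ι : Type} (I : Finset ι) (d : ι → ℚ)
    (h0 : ∀ i, 0 < d i)
    (h1 : ∀ i ∈ I, ∀ (p : ℕ) [Fact p.Prime], Sol ℚ_[p] a b (algebraMap ℚ ℚ_[p] (d i))) {g : ℕ}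
    (h2 : ∀ j, (I.filter fun i => Sol ℚ a b (d i * d j)).card ≤ g) :
    I.card ≤ g * (ShaTwo (wc a b 0)).ncard := by
  have hm := fun i : I => chi_mem h (h0 i).ne' (Or.inl ⟨√(d i), by
    rw [Real.mul_self_sqrt (by exact_mod_cast (h0 i).le)]; rfl⟩) (h1 i i.2)
  let f : I → Sha (wc a b 0) := fun i => (⟨_, hm i⟩ : cocyc _)
  have h3 : ∀ (δ : Qb) σ, chi h δ σ + chi h δ σ = 0 := fun δ σ => by
    unfold chi; split_ifs
    exacts [add_zero _, two_T0 h]
  rw [Set.ncard_eq_toFinset_card _ hf, ← Finset.card_attach]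
  refine Finset.card_le_mul_card_image_of_maps_to (f := f) (fun i _ => ?_) g fun c _ => ?_
  · rw [Set.Finite.mem_toFinset]
    change 2 • f i = 0
    rw [two_nsmul, ← QuotientAddGroup.mk_add, ← QuotientAddGroup.mk_zero]
    exact congrArg _ (Subtype.ext (funext (h3 _)))
  rcases (I.attach.filter fun i => f i = c).eq_empty_or_nonempty with e | ⟨j, hj⟩
  · simp [e]
  refine le_trans (Finset.card_le_card_of_injOn Subtype.val (fun i hi => ?_)
    Subtype.val_injective.injOn) (h2 j)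
  obtain ⟨P, hP⟩ := QuotientAddGroup.eq.1
    ((Finset.mem_filter.1 hi).2.trans (Finset.mem_filter.1 hj).2.symm)
  refine Finset.mem_filter.2 ⟨i.2, sol_of_torsor h (mul_pos (h0 _) (h0 _)).ne'
    (δ := rt (d i) * rt (d j)) (by rw [mul_pow, rt_sq, rt_sq, map_mul]) P fun σ => ?_⟩
  rw [chi_mul h (rt_ne (h0 _).ne') (rt_ne (h0 _).ne') (rt_sq _) (rt_sq _)]
  have h4 : -chi h (rt (d i)) σ + chi h (rt (d j)) σ = _ := hP σ
  rw [neg_eq_of_add_eq_zero_left (h3 _ σ)] at h4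
  exact h4

end Pool.Agent.Lib.MP_a3f657_nt
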