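import Pool.Agent.Lib.MP_a3f657_nt.Padic

/-!
Counting the two Selmer groups of the isogeny.
-/

namespace Pool.Agent.Lib.MP_a3f657_nt

open Pool.Agent.Lib.MP_788af2_nt Finset Matrix WeierstrassCurve.Affine
open scoped NumberTheorySymbols Classical

lemma ph {V V' F : Type} [AddCommGroup V'] [Fintype F] (Ψ : V → F) (π : V → V') (X : Finset V)
    (Y : Finset V') (h : ∀ v ∈ X, ∀ w ∈ X, Ψ v = Ψ w → π v - π w ∈ Y ∧ (π v = π w → v = w)) :
    X.card ≤ Fintype.card F * Y.card := by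
  rw [mul_comm]
  refine card_le_mul_card_image_of_maps_to (f := Ψ) (fun _ _ => mem_univ _) _ fun c _ => ?_
  rcases (X.filter fun v => Ψ v = c).eq_empty_or_nonempty with e | ⟨w, hw⟩
  · simp [e]
  rw [mem_filter] at hw
  refine card_le_card_of_injOn (fun v => π v - π w) (fun v hv => ?_) fun v hv v' hv' e => ?_
  · rw [mem_coe, mem_filter] at hv
    exact (h v hv.1 w hw.1 (hv.2.trans hw.2.symm)).1
  · rw [mem_coe, mem_filter] at hv hv'
    exact (h v hv.1 v' hv'.1 (hv.2.trans hv'.2.symm)).2 (sub_left_injective e)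

variable {κ κ' : Type} [Fintype κ] [Fintype κ']

/-- The kernel of a matrix. -/
noncomputable def Kr (A : Matrix κ' κ (ZMod 2)) : Finset (κ → ZMod 2) :=
  univ.filter fun v => A *ᵥ v = 0

lemma mem_Kr {A : Matrix κ' κ (ZMod 2)} {v : κ → ZMod 2} :
    v ∈ Kr A ↔ ∀ j, ∑ k, A j k * v k = 0 := by
  simp [Kr, funext_iff, mulVec, dotProduct]

lemma card_Kr (A : Matrix κ' κ (ZMod 2)) : (Kr A).card * 2 ^ A.rank = 2 ^ Fintype.card κ := by
  have h1 := A.mulVecLin.finrank_range_add_finrank_ker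
  have h2 := Module.card_eq_pow_finrank (K := ZMod 2) (V := LinearMap.ker A.mulVecLin)
  rw [Module.finrank_fintype_fun_eq_card] at h1
  rw [ZMod.card, Fintype.card_subtype] at h2
  rw [← h1, pow_add, ← h2, mul_comm]
  congr 2
  ext v
  simp [Kr]

lemma Kr_dual (A : Matrix κ' κ (ZMod 2)) :
    (Kr A).card * 2 ^ Fintype.card κ' = (Kr Aᵀ).card * 2 ^ Fintype.card κ := by
  rw [← card_Kr A, ← card_Kr Aᵀ, rank_transpose]; ring

/-- The product attached to a vector. -/
noncomputable def dv (r : κ → ℤ) (v : κ → ZMod 2) : ℤ := ∏ k with v k = 1, r k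

lemma dv_ne {r : κ → ℤ} (hr : ∀ k, r k ≠ 0) (v : κ → ZMod 2) : dv r v ≠ 0 :=
  prod_ne_zero_iff.2 fun k _ => hr k

lemma sum_one (f v : κ → ZMod 2) : ∑ k with v k = 1, f k = ∑ k, f k * v k := by
  rw [sum_filter]
  refine sum_congr rfl fun k _ => ?_
  generalize v k = z, f k = y
  revert z y; decide

lemma qf_dv {F : ℤ → ZMod 2} (hF : IsQF F) {r : κ → ℤ} (hr : ∀ k, r k ≠ 0) (v : κ → ZMod 2) :
    F (dv r v) = ∑ k, F (r k) * v k := by
  rw [dv, hF.prod _ _ fun k _ => hr k, sum_one]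

lemma qV_prime {l l' : ℕ} (hl : l.Prime) (hl' : l'.Prime) :
    qV l l' = if l' = l then 1 else 0 := by
  have : Fact l.Prime := ⟨hl⟩
  have : Fact l'.Prime := ⟨hl'⟩
  split_ifs with h
  · simp [qV, h]
  · simp [qV, padicValNat_primes (Ne.symm h)]

lemma qV_dv {q : κ → ℕ} (hq : ∀ k, (q k).Prime) {l : ℕ} (hl : l.Prime) (v : κ → ZMod 2) :
    qV l (dv (fun k => q k) v) = ∑ k with q k = l, v k := by
  rw [qf_dv (isQF_qV hl) fun k => by exact_mod_cast (hq k).ne_zero, sum_filter]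
  exact sum_congr rfl fun k _ => by rw [qV_prime hl (hq k)]; simp

/-- The matrix of residue symbols. -/
def rs (q' : κ' → ℕ) (q : κ → ℕ) : Matrix κ' κ (ZMod 2) := fun j k => qL (q' j) (q k)

lemma cover {q : κ → ℕ} {q' : κ' → ℕ} (hq : ∀ k, (q k).Prime) (hq' : ∀ k, (q' k).Prime)
    (hinj : Function.Injective q) {B : Finset ℕ} (hB : ∀ l ∈ B, l.Prime) {a b : ℚ}
    (H : ∀ d : ℤ, d ≠ 0 → (∀ (p : ℕ) [Fact p.Prime], Sol ℚ_[p] a b d) →
      (∀ l, l.Prime → l ∉ B → (∀ k, q k ≠ l) → qV l d = 0) ∧ ∀ j, q' j ∉ B → qL (q' j) d = 0) :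
    ∃ S, Covers a b S ∧ S.card ≤ 2 ^ (1 + 2 * B.card) * (Kr (rs q' q)).card := by
  let r : Option (B ⊕ κ) → ℤ := fun o => o.elim (-1) (Sum.elim (fun l => l.1) fun k => q k)
  have hr : ∀ o, r o ≠ 0 := by
    rintro (_ | l | k)
    exacts [by simp [r], by simpa [r] using (hB _ l.2).ne_zero, by simpa [r] using (hq k).ne_zero]
  have hs : ∀ {F}, IsQF F → ∀ x, F (dv r x) = F (-1) * x none + (∑ l : B, F l.1 * x (some (.inl l))
      + ∑ k, F (q k) * x (some (.inr k))) := fun hF x => by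
    rw [qf_dv hF hr, Fintype.sum_option, Fintype.sum_sum_type]; rfl
  let X := univ.filter fun x => ∀ j, q' j ∉ B → qL (q' j) (dv r x) = 0
  refine ⟨X.image fun x => (dv r x : ℚ), fun d hd h => ?_, card_image_le.trans ((ph
    (fun x => (x none, fun l : B => x (some (.inl l)), fun l : B => qL l (dv r x)))
    (fun x k => x (some (.inr k))) X (Kr (rs q' q)) fun x hx y hy e => ?_).trans_eq ?_)⟩
  · have h0 := rep_ne_zero hd
    obtain ⟨h1, h2⟩ := H _ h0 fun p _ => Sol.congr ((map_ne_zero _).2 hd) (by exact_mod_cast h0)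
      (h p) ⟨algebraMap ℚ _ (d * d.den), by
        rw [← map_intCast (algebraMap ℚ ℚ_[p]), rep_cast, ← map_mul, ← map_mul]; congr 1; ring⟩
    let x : Option (B ⊕ κ) → ZMod 2 := fun o => o.elim (qS (rep d))
      (Sum.elim (fun l => qV l (rep d)) fun k => if q k ∈ B then 0 else qV (q k) (rep d))
    have h3 : IsSquare (rep d * dv r x) := by
      refine isSquare_of_even_val (lt_of_le_of_ne (not_lt.1 fun h => ?_)
        (mul_ne_zero h0 (dv_ne hr x)).symm) fun l hl => ?_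
      · have h4 := isQF_qS _ _ h0 (dv_ne hr x)
        have h5 : ∀ n : ℕ, qS n = 0 := fun n => if_neg (Nat.cast_nonneg n).not_gt
        rw [hs isQF_qS, qS, if_pos h] at h4
        simp [h5, x, show qS (-1) = 1 from rfl, CharTwo.add_self_eq_zero] at h4
      · rw [← qV_eq_zero, isQF_qV hl _ _ h0 (dv_ne hr x), hs (isQF_qV hl)]
        simp only [x, Option.elim, Sum.elim_inl, Sum.elim_inr, qV_prime hl (hB _ (Subtype.prop _)),
          qV_prime hl (hq _), show qV l (-1) = 0 by simp [qV, padicValInt], zero_mul, zero_add]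
        rw [sum_coe_sort B fun l' => (if l' = l then 1 else 0) * qV l' (rep d)]
        by_cases h4 : l ∈ B
        · rw [sum_eq_single l (by simp +contextual) (by simp [h4]),
            sum_eq_zero fun k _ => by by_cases h5 : q k = l <;> simp [h4, h5]]
          simp [CharTwo.add_self_eq_zero]
        rw [sum_eq_zero fun l' hl' => by rw [if_neg (by rintro rfl; exact h4 hl'), zero_mul]]
        by_cases h5 : ∃ k, q k = l
        · obtain ⟨k, rfl⟩ := h5
          rw [sum_eq_single k (by simp +contextual [hinj.eq_iff]) (by simp)]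
          simp [h4, CharTwo.add_self_eq_zero]
        · push Not at h5
          simp [h5, h1 l hl h4 h5]
    refine ⟨_, mem_image_of_mem _ (mem_filter.2 ⟨mem_univ x, fun j hj => ?_⟩),
      by exact_mod_cast dv_ne hr x, ?_⟩
    · rw [← (isQF_qL (hq' j)).eq_of_isSquare h0 (dv_ne hr x) h3, h2 j hj]
    · exact sq_of (w := d.den) (by push_cast; rw [rep_cast]; ring)
        (by exact_mod_cast mul_ne_zero h0 (dv_ne hr x)) (Rat.isSquare_intCast_iff.2 h3)
  · simp only [Prod.mk.injEq, funext_iff] at e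
    refine ⟨mem_Kr.2 fun j => ?_, fun e' => funext ?_⟩
    · have h1 : qL (q' j) (dv r x) = qL (q' j) (dv r y) := by
        by_cases h : q' j ∈ B
        exacts [e.2.2 ⟨_, h⟩, ((mem_filter.1 hx).2 j h).trans ((mem_filter.1 hy).2 j h).symm]
      rw [hs (isQF_qL (hq' j)), hs (isQF_qL (hq' j)), e.1] at h1
      simp only [e.2.1, add_right_inj] at h1
      simp only [rs, Pi.sub_apply, mul_sub, sum_sub_distrib, h1, sub_self]
    · rintro (_ | l | k)
      exacts [e.1, e.2.1 l, congrFun e' k]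
  · simp only [Fintype.card_prod, Fintype.card_fun, ZMod.card, Fintype.card_coe]
    ring

/-- The characters modulo 8. -/
def c8 (k : Bool) (n : ℤ) : ZMod 2 := if n % 8 = 3 ∨ n % 8 = (if k then 7 else 5) then 1 else 0

lemma c8_mul (k : Bool) {m n : ℤ} (hm : m % 2 = 1) (hn : n % 2 = 1) :
    c8 k (m * n) = c8 k m + c8 k n := by
  have h1 : m % 8 = 1 ∨ m % 8 = 3 ∨ m % 8 = 5 ∨ m % 8 = 7 := by omega
  have h2 : n % 8 = 1 ∨ n % 8 = 3 ∨ n % 8 = 5 ∨ n % 8 = 7 := by omega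
  simp only [c8, Int.mul_emod m]
  rcases h1 with h | h | h | h <;> rcases h2 with h' | h' | h' | h' <;> rw [h, h'] <;>
    revert k <;> decide

lemma c8_dv {r : κ → ℤ} (hr : ∀ k, r k % 2 = 1) {v : κ → ZMod 2}
    (h : ∀ b, ∑ k, c8 b (r k) * v k = 0) : dv r v % 8 = 1 := by
  have key : ∀ S : Finset κ, (∏ k ∈ S, r k) % 2 = 1 ∧
      ∀ b, c8 b (∏ k ∈ S, r k) = ∑ k ∈ S, c8 b (r k) := fun S => by
    induction S using Finset.induction_on with
    | empty => exact ⟨rfl, by simp only [prod_empty, sum_empty]; decide⟩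
    | insert a S ha ih =>
      simp only [prod_insert ha, sum_insert ha]
      exact ⟨by rw [Int.mul_emod, hr, ih.1]; rfl, fun b => by rw [c8_mul b (hr a) ih.1, ih.2]⟩
  obtain ⟨h1, h2⟩ := key (univ.filter fun k => v k = 1)
  have h3 := h2 true
  have h4 := h2 false
  rw [sum_one, h] at h3 h4
  simp only [c8, ite_eq_right_iff, one_ne_zero, if_true, Bool.false_eq_true, if_false,
    imp_false] at h3 h4
  unfold dv
  omega

lemma recip {l l' : ℕ} (hl : l.Prime) (hl' : l'.Prime) (h2 : l ≠ 2) (h2' : l' ≠ 2) (h : l ≠ l') :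
    qL l l' = qL l' l + c8 true l * c8 true l' := by
  have : Fact l.Prime := ⟨hl⟩
  have : Fact l'.Prime := ⟨hl'⟩
  have h3 : ¬(l : ℤ) ∣ l' := fun h3 =>
    h ((Nat.prime_dvd_prime_iff_eq hl hl').1 (Int.natCast_dvd_natCast.1 h3))
  have h4 : ¬(l' : ℤ) ∣ l := fun h3 =>
    h ((Nat.prime_dvd_prime_iff_eq hl' hl).1 (Int.natCast_dvd_natCast.1 h3)).symm
  have o1 := hl.odd_of_ne_two h2
  have o2 := hl'.odd_of_ne_two h2'
  rw [qL, qL, lg_of_not_dvd h3, lg_of_not_dvd h4]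
  have c1 : ∀ n : ℕ, n % 4 = 1 → c8 true n = 0 := fun n h => if_neg (by simp only [if_true]; omega)
  have c3 : ∀ n : ℕ, n % 4 = 3 → c8 true n = 1 := fun n h => if_pos (by simp only [if_true]; omega)
  rcases Nat.odd_mod_four_iff.1 (Nat.odd_iff.1 o1) with h5 | h5
  · rw [jacobiSym.quadratic_reciprocity_one_mod_four h5 o2, c1 l h5]; simp
  rcases Nat.odd_mod_four_iff.1 (Nat.odd_iff.1 o2) with h6 | h6
  · rw [jacobiSym.quadratic_reciprocity_one_mod_four h6 o1, c1 l' h6]; simp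
  rw [jacobiSym.quadratic_reciprocity_three_mod_four h5 h6, c3 l h5, c3 l' h6]
  rcases jac_unit h3 with h7 | h7 <;> rw [h7] <;> decide

variable {ι : Type} [Fintype ι] [DecidableEq ι] {q : ι → ℕ} {σ : ι → St}

lemma range_bound {e : Fin 3 → ℤ} (he : dsc e ≠ 0) (hq : ∀ p, (q p).Prime)
    (hinj : Function.Injective q) {B : Finset ℕ} (hBp : ∀ l ∈ B, l.Prime)
    (H1 : ∀ l : ℕ, l.Prime → (l : ℤ) ∣ dsc e → l ∈ B ∨ ∃ p, q p = l ∧ σ p ≠ none)
    (H2 : ∀ p, q p ∈ B ∨ Valid e (q p) (σ p)) {r : κ → ℕ} (hr : ∀ k, (r k).Prime)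
    {X : Finset (κ → ZMod 2)} (hX : ∀ v ∈ X, ∃ P, ∀ k, qV (r k) (rep (dl e 0 P)) = v k) :
    X.card ≤ 2 ^ (2 + 4 * B.card) * (NN q σ + 3) := by
  let F₂ : Option (B × Bool) → ℤ → ZMod 2 := fun o => o.elim qS fun l =>
    if l.2 then qV l.1 else qL l.1
  have hF₂ : ∀ o, IsQF (F₂ o) := by
    rintro (_ | ⟨l, _ | _⟩)
    exacts [isQF_qS, isQF_qL (hBp _ l.2), isQF_qV (hBp _ l.2)]
  let Φ : (cvE e).Point →+ (κ → ZMod 2) := AddMonoidHom.pi fun k => qfHom he 0 (isQF_qV (hr k))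
  let Ψ : (cvE e).Point →+ (Fin 2 × Option (B × Bool) → ZMod 2) :=
    AddMonoidHom.pi fun x => qfHom he x.1.castSucc (hF₂ x.2)
  choose! g hg using fun v hv => show ∃ P, Φ P = v from (hX v hv).imp fun _ => funext
  refine (ph (fun v => Ψ (g v)) id X
    ((univ.filter fun S : Finset ι => ∀ p, okAt q σ S p).image (fun S k => qV (r k) (dd q σ S 0)) ∪
      univ.image fun i k => qV (r k) (rep (if (e i : ℚ) = e 0 then
        ((e 0 : ℚ) - e (0 + 1)) * (e 0 - e (0 + 2)) else e i - e 0)))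
    fun v hv w hw h => ⟨?_, id⟩).trans (Nat.mul_le_mul ?_ ?_)
  · rw [id, id, ← hg v hv, ← hg w hw, ← map_sub]
    rw [← sub_eq_zero, ← map_sub] at h
    generalize g v - g w = P at h
    by_cases hP' : ∀ x y h, P = Point.some x y h → ∀ m, x ≠ e m
    · obtain ⟨a, b, c, α, hac, hα, hne, hb, hF⟩ := point_data P hP'
      have hz : ∀ o m, F₂ o (α m) = 0 := fun o m => by
        have h0 : F₂ o (α 0) = 0 := (hF _ _ (hF₂ o)).symm.trans (congrFun h (0, o))
        have h1 : F₂ o (α 1) = 0 := (hF _ _ (hF₂ o)).symm.trans (congrFun h (1, o))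
        fin_cases m
        exacts [h0, h1, by
          have := (hF₂ o).eq_of_isSquare (mul_ne_zero (hne 0) (hne 1)) (hne 2) ⟨b, by rw [hb, sq]⟩
          rw [hF₂ o _ _ (hne 0) (hne 1), h0, h1] at this
          exact this.symm]
      obtain ⟨h1, h2⟩ := core he hq hinj H1 H2 hac hα (fun m => by
        have := hz none m
        simp only [F₂, Option.elim, qS, ite_eq_right_iff, one_ne_zero] at this
        exact lt_of_le_of_ne (not_lt.1 this) (hne m).symm) hb
        (fun l hl m => ⟨hz (some (⟨l, hl⟩, true)) m, hz (some (⟨l, hl⟩, false)) m⟩)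
      exact mem_union_left _ (mem_image.2 ⟨_, mem_filter.2 ⟨mem_univ _, h2⟩, funext fun k =>
        (h1 _ _ (hr k)).symm.trans (hF _ _ (isQF_qV (hr k))).symm⟩)
    · push Not at hP'
      obtain ⟨x, y, h, rfl, i, rfl⟩ := hP'
      exact mem_union_right _ (mem_image.2 ⟨i, mem_univ _, rfl⟩)
  · simp only [Fintype.card_fun, ZMod.card, Fintype.card_prod, Fintype.card_fin,
      Fintype.card_option, Fintype.card_coe, Fintype.card_bool]
    apply le_of_eq; congr 1; ring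
  · refine (card_union_le _ _).trans (add_le_add (card_image_le.trans (le_of_eq ?_))
      (card_image_le.trans_eq (by simp)))
    unfold NN
    congr

lemma point_of_sol {M N : ℤ} (he : dsc ![0, M, N] ≠ 0) {d : ℤ} (hd : d ≠ 0) (h : S1 ℚ M N d) :
    ∃ P, IsSquare (rep (dl ![0, M, N] 0 P) * d) := by
  have key : ∀ P w, w ≠ 0 → dl ![0, M, N] 0 P = d * w ^ 2 →
      IsSquare (rep (dl ![0, M, N] 0 P) * d) := fun P w hw h =>
    Rat.isSquare_intCast_iff.1 ⟨d * w * (dl ![0, M, N] 0 P).den, by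
      push_cast; rw [rep_cast]; nth_rw 1 [h]; ring⟩
  have hd' : (d : ℚ) ≠ 0 := by exact_mod_cast hd
  rcases S1_iff.1 h with ⟨w, h⟩ | ⟨s, w, h⟩
  · have hw : w ≠ 0 := by rintro rfl; exact hd' (by simpa using h)
    exact ⟨0, key 0 w⁻¹ (inv_ne_zero hw) (by rw [h]; field_simp; rfl)⟩
  have h1 : (cvE ![0, M, N]).Nonsingular (d * s ^ 2) (d * s * w) :=
    Pool.Agent.Lib.MP_788af2_nt.nonsing_of_disc (disc_cvE he) (by
      simp; linear_combination -d * s ^ 2 * h)
  by_cases hs : s = 0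
  · subst hs
    have h2 : dl ![0, M, N] 0 (.some _ _ h1) = d * w ^ 2 := by simpa [dl] using h
    exact ⟨_, key _ w (by rintro rfl; exact dl_ne_zero he 0 _ (by simpa using h2)) h2⟩
  · exact ⟨.some _ _ h1, key _ s hs (by simp [dl, hs, hd])⟩

lemma Kr_le_NN (hq : ∀ p, (q p).Prime) (hinj : Function.Injective q) :
    (Kr (rs (fun p : {p // isP (σ p)} => q p) fun p : {p // isQ (σ p)} => q p)).card ≤ NN q σ := by
  refine card_le_card_of_injOn (fun w => (univ.filter fun k => w k = 1).map (.subtype _))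
    (fun w hw => ?_) fun w _ w' _ e => funext fun k => ?_
  · rw [mem_coe] at hw ⊢
    refine mem_filter.2 ⟨mem_univ _, fun p => ?_⟩
    set S := (univ.filter fun k => w k = 1).map (Function.Embedding.subtype _)
    have h1 : ∀ p ∈ S, σ p = some (some (0, false)) := fun p hp => by
      obtain ⟨k, -, rfl⟩ := mem_map.1 hp
      exact k.2
    unfold okAt
    rcases hσ : σ p with _ | _ | ⟨i, b⟩
    · exact fun h => by simpa [hσ] using h1 p h
    · exact fun h => by simpa [hσ] using h1 p h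
    simp only
    rw [if_neg fun h => by simpa [hσ, h.1] using h1 p h.2]
    by_cases hi : i = 0
    · rw [dd, filter_false_of_mem fun p hp => by simp [hi, h1 p hp, St.ty]]
      simp
    have hP : isP (σ p) := by rw [hσ]; fin_cases i <;> simp_all [isP, St.ty]
    have : Fact (q p).Prime := ⟨hq p⟩
    have h2 : (dd q σ S i : ℤ) = dv (fun k : {p // isQ (σ p)} => q k) w := by
      rw [dd, filter_true_of_mem fun p hp => by simp [Ne.symm hi, h1 p hp, St.ty], prod_map, dv]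
      simp
    have h3 := mem_Kr.1 hw ⟨p, hP⟩
    have h4 : ¬(q p : ℤ) ∣ dv (fun k : {p // isQ (σ p)} => q k) w := fun h => by
      obtain ⟨k, -, h⟩ := ((Nat.prime_iff_prime_int.1 (hq p)).dvd_finsetProd_iff _).1 h
      have h5 := k.2
      rw [← hinj ((Nat.prime_dvd_prime_iff_eq (hq p) (hq k)).1 (Int.natCast_dvd_natCast.1 h)),
        hσ] at h5
      simp [isQ, hi] at h5
    simp only [rs] at h3
    rw [← qf_dv (isQF_qL (hq p)) fun k => by exact_mod_cast (hq _).ne_zero, qL,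
      lg_of_not_dvd h4] at h3
    exact h2 ▸ (jac_unit h4).resolve_right (by simpa using h3)
  · have := Finset.ext_iff.1 (map_injective _ e) k
    simp only [mem_filter, mem_univ, true_and] at this
    revert this
    generalize w k = y, w' k = z
    revert y z; decide

theorem sh_bounds {M N : ℤ} (he : dsc ![0, M, N] ≠ 0) (hq : ∀ p, (q p).Prime)
    (hodd : ∀ p, q p ≠ 2) (hinj : Function.Injective q) {B : Finset ℕ} (hBp : ∀ l ∈ B, l.Prime)
    (h2 : 2 ∈ B)
    (H1 : ∀ l : ℕ, l.Prime → (l : ℤ) ∣ dsc ![0, M, N] → l ∈ B ∨ ∃ p, q p = l ∧ σ p ≠ none)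
    (H2 : ∀ p, q p ∈ B ∨ Valid ![0, M, N] (q p) (σ p)) :
    (ShaTwo (wc (aa true M N) (bb true M N) 0)).Finite ∧
    (ShaTwo (wc (aa true M N) (bb true M N) 0)).ncard * 2 ^ Fintype.card {p // isQ (σ p)} ≤
      2 ^ (3 + 4 * B.card) * NN q σ ^ 2 * 2 ^ Fintype.card {p // isP (σ p)} ∧
    2 ^ Fintype.card {p // isP (σ p)} ≤ 2 ^ (4 + 6 * B.card) * (NN q σ + 3) *
      ((ShaTwo (wc (aa true M N) (bb true M N) 0)).ncard * 2 ^ Fintype.card {p // isQ (σ p)}) := by
  have hn := nd_of he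
  have L : ∀ (l : ℕ) [Fact l.Prime], l ∉ B → ∃ s, (∀ p, q p = l → s = σ p) ∧
      (s = none ∨ ∃ p, q p = l) ∧ ∀ d : ℤ, d ≠ 0 →
      (S1 ℚ_[l] M N d ↔ (¬isP s → qV l d = 0) ∧ (isQ s → qL l d = 0)) ∧
      (S2 ℚ_[l] M N d → (¬isQ s → qV l d = 0) ∧ (isP s → qL l d = 0)) := by
    intro l hl h
    have h3 : l ≠ 2 := by rintro rfl; exact h h2
    by_cases h4 : ∃ p, q p = l
    · obtain ⟨p, rfl⟩ := h4
      refine ⟨σ p, fun p' e => by rw [hinj e], Or.inr ⟨p, rfl⟩, fun d =>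
        loc h3 he ((H2 p).resolve_left h) fun h5 => ?_⟩
      obtain ⟨p', e, h6⟩ := (H1 _ hl.out h5).resolve_left h
      exact hinj e ▸ h6
    · exact ⟨none, fun p e => absurd ⟨p, e⟩ h4, Or.inl rfl, fun d => loc h3 he trivial fun h5 =>
        absurd (((H1 _ hl.out h5).resolve_left h).imp fun _ h => h.1) h4⟩
  have nP : ¬isP none := by simp [isP, St.ty]
  have nQ : ¬isQ none := by simp [isQ]
  set qP := fun p : {p // isP (σ p)} => q p
  set qQ := fun p : {p // isQ (σ p)} => q p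
  have iP : Function.Injective qP := hinj.comp Subtype.val_injective
  obtain ⟨S₁, a1, a2⟩ := cover (q := qP) (q' := qQ) (fun _ => hq _) (fun _ => hq _) iP hBp
    (a := aa true M N) (b := bb true M N) fun d hd h => ⟨fun l hl h3 h4 => by
      have : Fact l.Prime := ⟨hl⟩
      obtain ⟨s, h5, h6, h7⟩ := L l h3
      refine ((h7 d hd).1.1 (h l)).1 fun h8 => ?_
      rcases h6 with rfl | ⟨p, e⟩
      exacts [nP h8, h4 ⟨p, h5 p e ▸ h8⟩ e], fun j h3 => by
      have : Fact (qQ j).Prime := ⟨hq _⟩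
      obtain ⟨s, h5, h6, h7⟩ := L _ h3
      exact ((h7 d hd).1.1 (h _)).2 (h5 j rfl ▸ j.2)⟩
  obtain ⟨S₂, b1, b2⟩ := cover (q := qQ) (q' := qP) (fun _ => hq _) (fun _ => hq _)
    (hinj.comp Subtype.val_injective) hBp (a := -2 * aa true M N)
    (b := aa true M N ^ 2 - 4 * bb true M N) fun d hd h => ⟨fun l hl h3 h4 => by
      have : Fact l.Prime := ⟨hl⟩
      obtain ⟨s, h5, h6, h7⟩ := L l h3
      refine ((h7 d hd).2 (h l)).1 fun h8 => ?_
      rcases h6 with rfl | ⟨p, e⟩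
      exacts [nQ h8, h4 ⟨p, h5 p e ▸ h8⟩ e], fun j h3 => by
      have : Fact (qP j).Prime := ⟨hq _⟩
      obtain ⟨s, h5, h6, h7⟩ := L _ h3
      exact ((h7 d hd).2 (h _)).2 (h5 j rfl ▸ j.2)⟩
  obtain ⟨c1, c2⟩ := sh_upper hn a1 b1
  have c3 := Kr_le_NN (σ := σ) hq hinj
  have c4 : (Kr (rs qQ qP)ᵀ).card ≤ Fintype.card (ZMod 2) * (Kr (rs qP qQ)).card :=
    ph (fun w => ∑ j, c8 true (qQ j) * w j) id _ _ fun v hv w hw e => ⟨mem_Kr.2 fun k => by
      have h3 : ∀ j, rs qP qQ k j = (rs qQ qP)ᵀ k j + c8 true (qP k) * c8 true (qQ j) := fun j =>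
        recip (hq _) (hq _) (hodd _) (hodd _) fun h => by
          have h4 := k.2
          rw [hinj h, j.2] at h4
          simp [isP, St.ty] at h4
      simp only [h3, id, Pi.sub_apply, mul_sub, add_mul, sum_sub_distrib, sum_add_distrib,
        mul_assoc, ← mul_sum, mem_Kr.1 hv k, mem_Kr.1 hw k, e, sub_self], id⟩
  refine ⟨c1, ?_, ?_⟩
  · calc _ ≤ 2 ^ (1 + 2 * B.card) * (Kr (rs qQ qP)).card * (2 ^ (1 + 2 * B.card) * NN q σ) *
          2 ^ Fintype.card {p // isQ (σ p)} := by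
          gcongr; exact c2.trans (Nat.mul_le_mul a2 (b2.trans (by gcongr)))
      _ = 2 ^ (2 + 4 * B.card) * NN q σ * ((Kr (rs qQ qP)ᵀ).card *
          2 ^ Fintype.card {p // isP (σ p)}) := by rw [← Kr_dual]; ring
      _ ≤ 2 ^ (2 + 4 * B.card) * NN q σ * (2 * NN q σ * 2 ^ Fintype.card {p // isP (σ p)}) := by
          gcongr; exact c4.trans (by rw [ZMod.card]; gcongr)
      _ = _ := by ring
  let G : Matrix ((B ⊕ B) ⊕ Bool ⊕ {p // isQ (σ p)}) {p // isP (σ p)} (ZMod 2) := fun j k =>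
    j.elim (Sum.elim (fun l : B => qV l) fun l : B => qL l) (Sum.elim c8 fun j => qL (qQ j)) (qP k)
  have hz : ∀ k, (qP k : ℤ) ≠ 0 := fun k => by exact_mod_cast (hq _).ne_zero
  have d0 : ∀ v, 0 < dv (fun k => (qP k : ℤ)) v := fun v =>
    prod_pos fun k _ => by exact_mod_cast (hq _).pos
  have c5 := sh_lower hn c1 (Kr G) (fun v => dv (fun k => qP k) v) (fun v => by exact_mod_cast d0 v)
    (fun v hv l hl => by
      rw [map_intCast]
      have h3 := mem_Kr.1 hv
      by_cases h4 : l = 2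
      · subst h4
        exact Or.inl (sq_two (c8_dv (fun k => by
          have := Nat.odd_iff.1 ((hq k).odd_of_ne_two (hodd k))
          simp only [qP]; omega) fun b => h3 (.inr (.inl b))))
      by_cases h5 : l ∈ B
      · exact Or.inl ((sq_iff h4 (d0 v).ne').2
          ⟨(qf_dv (isQF_qV hl.out) hz v).trans (h3 (.inl (.inl ⟨l, h5⟩))),
            (qf_dv (isQF_qL hl.out) hz v).trans (h3 (.inl (.inr ⟨l, h5⟩)))⟩)
      obtain ⟨s, h6, h7, h8⟩ := L l h5
      refine (h8 _ (d0 v).ne').1.2 ⟨fun h9 => ?_, fun h9 => ?_⟩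
      · rw [qV_dv (fun _ => hq _) hl.out]
        exact sum_eq_zero fun k hk => absurd (h6 k (mem_filter.1 hk).2 ▸ k.2) h9
      · obtain ⟨p, rfl⟩ := h7.resolve_left (by rintro rfl; exact nQ h9)
        exact (qf_dv (isQF_qL hl.out) hz v).trans (h3 (.inr (.inr ⟨p, h6 p rfl ▸ h9⟩))))
    (g := 2 ^ (2 + 4 * B.card) * (NN q σ + 3)) fun w => by
      rw [← card_image_of_injective _ (add_left_injective w)]
      refine range_bound he hq hinj hBp H1 H2 (r := qP) (fun _ => hq _) fun v hv => ?_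
      obtain ⟨v, hv', rfl⟩ := mem_image.1 hv
      obtain ⟨P, hP⟩ := point_of_sol he (mul_pos (d0 v) (d0 w)).ne'
        (by exact_mod_cast (mem_filter.1 hv').2)
      refine ⟨P, fun k => ?_⟩
      rw [(isQF_qV (hq _)).eq_of_isSquare (rep_ne_zero (dl_ne_zero he _ _))
        (mul_pos (d0 v) (d0 w)).ne' hP, isQF_qV (hq _) _ _ (d0 v).ne' (d0 w).ne',
        qV_dv (fun _ => hq _) (hq _), qV_dv (fun _ => hq _) (hq _)]
      simp [hinj.eq_iff, Subtype.val_inj, filter_eq']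
  have c6 := Kr_dual G
  have c7 : 1 ≤ (Kr Gᵀ).card := card_pos.2 ⟨0, mem_Kr.2 (by simp)⟩
  simp only [Fintype.card_sum, Fintype.card_coe, Fintype.card_bool] at c6
  calc _ ≤ (Kr Gᵀ).card * _ := Nat.le_mul_of_pos_left _ c7
    _ = _ := c6.symm
    _ ≤ _ := Nat.mul_le_mul_right _ c5
    _ = _ := by ring

end Pool.Agent.Lib.MP_a3f657_nt
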