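import Mathlib

/-!
The Tate-Shafarevich group of a Weierstrass curve over the rationals, in terms of continuous
Galois cocycles.
-/

namespace Pool.Agent.Lib.MP_a3f657_nt

open scoped Classical

/-- An algebraic closure of the rationals. -/
abbrev Qb : Type := AlgebraicClosure ℚ

/-- The absolute Galois group of the rationals, with the Krull topology. -/
abbrev GQ : Type := Qb ≃ₐ[ℚ] Qb

/-- The group of `K`-points of `W`. -/
abbrev Pt (W : WeierstrassCurve ℚ) (K : Type) [Field K] [Algebra ℚ K] : Type :=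
  (W.baseChange K).toAffine.Point

/-- The map on points induced by a field homomorphism. -/
noncomputable abbrev pm (W : WeierstrassCurve ℚ) {K L : Type} [Field K] [Algebra ℚ K] [Field L]
    [Algebra ℚ L] (g : K →ₐ[ℚ] L) : Pt W K →+ Pt W L :=
  WeierstrassCurve.Affine.Point.map (W' := W.toAffine) g

/-- The cocycle `ξ` becomes a coboundary over the completion `F`, for every embedding of `Qb`
into an algebraic closure of `F`. -/
def LocTriv (W : WeierstrassCurve ℚ) (F : Type) [Field F] [Algebra ℚ F] (ξ : GQ → Pt W Qb) :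
    Prop :=
  ∀ i : Qb →ₐ[ℚ] AlgebraicClosure F, ∃ P : Pt W (AlgebraicClosure F),
    ∀ (τ : AlgebraicClosure F ≃ₐ[F] AlgebraicClosure F) (σ : GQ), (∀ x, τ (i x) = i (σ x)) →
      pm W i (ξ σ) = pm W (τ.toAlgHom.restrictScalars ℚ) P - P

/-- Continuous 1-cocycles of the Galois group in `W(Qb)` that are everywhere locally trivial. -/
noncomputable def cocyc (W : WeierstrassCurve ℚ) : AddSubgroup (GQ → Pt W Qb) where
  carrier := {ξ | IsLocallyConstant ξ ∧ (∀ σ τ : GQ, ξ (σ * τ) = ξ σ + pm W σ.toAlgHom (ξ τ)) ∧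
    LocTriv W ℝ ξ ∧ ∀ (p : ℕ) [Fact p.Prime], LocTriv W ℚ_[p] ξ}
  zero_mem' := ⟨IsLocallyConstant.const 0, fun _ _ => by simp,
    fun _ => ⟨0, fun _ _ _ => by simp⟩, fun _ _ _ => ⟨0, fun _ _ _ => by simp⟩⟩
  add_mem' := by
    have key : ∀ (F : Type) [Field F] [Algebra ℚ F] (ξ η : GQ → Pt W Qb), LocTriv W F ξ →
        LocTriv W F η → LocTriv W F (ξ + η) := by
      intro F _ _ ξ η h1 h2 i
      obtain ⟨P, hP⟩ := h1 i
      obtain ⟨Q, hQ⟩ := h2 i
      refine ⟨P + Q, fun τ σ h => ?_⟩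
      rw [Pi.add_apply, map_add, map_add, hP τ σ h, hQ τ σ h]; abel
    rintro ξ η ⟨a1, a2, a3, a4⟩ ⟨b1, b2, b3, b4⟩
    refine ⟨a1.add b1, fun σ τ => ?_, key _ _ _ a3 b3, fun p _ => key _ _ _ (a4 p) (b4 p)⟩
    simp only [Pi.add_apply, a2, b2, map_add]; abel
  neg_mem' := by
    have key : ∀ (F : Type) [Field F] [Algebra ℚ F] (ξ : GQ → Pt W Qb), LocTriv W F ξ →
        LocTriv W F (-ξ) := by
      intro F _ _ ξ h1 i
      obtain ⟨P, hP⟩ := h1 i
      refine ⟨-P, fun τ σ h => ?_⟩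
      rw [Pi.neg_apply, map_neg, map_neg, hP τ σ h]; abel
    rintro ξ ⟨a1, a2, a3, a4⟩
    refine ⟨a1.neg, fun σ τ => ?_, key _ _ a3, fun p _ => key _ _ (a4 p)⟩
    simp only [Pi.neg_apply, a2, map_neg]; abel

/-- Coboundaries. -/
noncomputable def cobd (W : WeierstrassCurve ℚ) : AddSubgroup (GQ → Pt W Qb) where
  carrier := {ξ | ∃ P : Pt W Qb, ∀ σ : GQ, ξ σ = pm W σ.toAlgHom P - P}
  zero_mem' := ⟨0, fun _ => by simp⟩
  add_mem' := by
    rintro ξ η ⟨P, hP⟩ ⟨Q, hQ⟩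
    exact ⟨P + Q, fun σ => by rw [Pi.add_apply, hP, hQ, map_add]; abel⟩
  neg_mem' := by
    rintro ξ ⟨P, hP⟩
    exact ⟨-P, fun σ => by rw [Pi.neg_apply, hP, map_neg]; abel⟩

/-- The Tate-Shafarevich group. -/
abbrev Sha (W : WeierstrassCurve ℚ) : Type := cocyc W ⧸ (cobd W).addSubgroupOf (cocyc W)

/-- The 2-torsion of the Tate-Shafarevich group. -/
def ShaTwo (W : WeierstrassCurve ℚ) : Set (Sha W) := {c | 2 • c = 0}

end Pool.Agent.Lib.MP_a3f657_nt
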