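import Pool.Agent.Lib.MP_788af2_nt.Families

/-!
The mean values of the states in the three cyclic families.
-/

namespace Pool.Agent.Lib.MP_a3f657_nt

open Pool.Agent.Lib.MP_788af2_nt Finset Real
open scoped NumberTheorySymbols

variable {p₀ : ℕ} {κ : Type} [Fintype κ] [DecidableEq κ]

variable {e : ℤ → ℤ → Fin 3 → ℤ} {F : κ → ℤ → ℤ → ℤ} {ty : κ → Fin 3} {ex : κ → ℕ}
  {c : Fin 3 → ℤ} {a : κ → ℝ}

theorem fam_mu (H : Forms p₀ e F ty ex c a) : ∃ st bad μ,
    Fam p₀ (3 * Fintype.card κ + 1) (1 / 2) e st bad μ ∧ Cc μ 0 - μ (some (0, false)) =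
      (∑ k with ty k ≠ 0, if Odd (ex k) then 1 else a k) - ∑ k with ty k = 0, a k := by
  classical
  let R : κ → ℕ → ℤ → ℤ → Option (Fin 3 × Bool) := fun k p m n =>
    rule (ty k) (ex k) J(e m n (ty k + 1) - e m n (ty k) | p)
  let st : ℕ → ℤ → ℤ → St := fun p m n =>
    (pick fun k => (p : ℤ) ∣ F k m n).map fun k => R k p m n
  let bad : ℕ → ℤ → ℤ → Prop := fun p m n =>
    ((p : ℤ) ∣ m ∧ (p : ℤ) ∣ n) ∨ ∃ k, (p : ℤ) ^ 2 ∣ F k m n
  let μ : Option (Fin 3 × Bool) → ℝ := fun s =>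
    ∑ k, (ca (ty k) (ex k) s * 1 + cb (ty k) (ex k) s * a k)
  have hG : ∀ m n i, e m n (i + 1) - e m n i =
      -(c (i + 2) * ∏ k with ty k = i + 2, F k m n ^ ex k) := by
    intro m n i
    rw [← H.fac, neg_sub, add_assoc, add_assoc]
    fin_cases i <;> rfl
  have hdv : ∀ {q x y : ℤ}, x ≡ y [ZMOD q] → (q ∣ x ↔ q ∣ y) := fun h => by
    rw [← Int.modEq_zero_iff_dvd, ← Int.modEq_zero_iff_dvd]
    exact ⟨fun h1 => h.symm.trans h1, fun h1 => h.trans h1⟩
  have hfac : ∀ (p : ℕ) m n i, p.Prime → p₀ < p →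
      (p : ℤ) ∣ c i * ∏ k with ty k = i, F k m n ^ ex k → ∃ k, ty k = i ∧ (p : ℤ) ∣ F k m n := by
    intro p m n i hp h1 h2
    have hpp := Nat.prime_iff_prime_int.1 hp
    obtain ⟨k, h3, h4⟩ := (hpp.dvd_finsetProd_iff _).1 ((hpp.dvd_or_dvd h2).resolve_left
      (not_dvd_small h1 (H.c0 i).1 (H.c0 i).2))
    exact ⟨k, (mem_filter.1 h3).2, hpp.dvd_of_dvd_pow h4⟩
  have near : ∀ s (p : ℕ), p.Prime → p₀ < p → |p * dens p (st p) (some s) -
      ∑ k, (ca (ty k) (ex k) s * zc (F k) p + cb (ty k) (ex k) s *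
        wc (F k) (fun m n => e m n (ty k + 1) - e m n (ty k)) p)| ≤ Fintype.card κ / p := by
    intro s p hp h1
    have hp' : (0 : ℝ) < p := by exact_mod_cast hp.pos
    have h2 : ∑ k, (ca (ty k) (ex k) s * zc (F k) p + cb (ty k) (ex k) s *
        wc (F k) (fun m n => e m n (ty k + 1) - e m n (ty k)) p) = p * mean p fun m n =>
        ∑ k, if (p : ℤ) ∣ F k m n ∧ R k p m n = s then 1 else 0 := by
      rw [mean_sum, mul_sum]
      refine sum_congr rfl fun k _ => ?_
      simp only [R, rule_ind, mean_add, mean_smul, zc, wc]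
      ring
    rw [h2, ← mul_sub, abs_mul, Nat.abs_cast, MP_788af2_nt.dens]
    refine (mul_le_mul_of_nonneg_left ((mean_near (h := fun m n => Fintype.card κ *
      if (p : ℤ) ∣ m ∧ (p : ℤ) ∣ n then 1 else 0) fun m n => ?_).trans_eq (by
      rw [mean_smul, mean_origin hp.pos])) hp'.le).trans (le_of_eq (by field_simp))
    rcases pick_cases fun k => (p : ℤ) ∣ F k m n with ⟨h3, h4⟩ | ⟨k, h3, h4⟩
    · simp only [st, h3]
      rw [if_neg (by simp), sum_eq_zero fun k _ => if_neg fun h => h4 k h.1, sub_zero, abs_zero]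
      positivity
    · simp only [st, h3, Option.map_some, Option.some.injEq]
      rw [← add_sum_erase _ _ (mem_univ k), if_congr (and_iff_right h4) rfl rfl,
        sub_add_cancel_left, abs_neg, abs_of_nonneg (sum_nonneg fun _ _ => by positivity)]
      split_ifs with h5
      · refine (sum_le_card_nsmul _ _ 1 fun j _ => by split_ifs <;> norm_num).trans ?_
        rw [nsmul_eq_mul]
        gcongr
        exact card_le_univ _
      · rw [sum_eq_zero, mul_zero]
        exact fun j hj => if_neg fun h6 => h5 (H.cop p j k m n hp h1 (ne_of_mem_erase hj) h6.1 h4)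
  have hμ : ∀ i, μ (some (i, false)) = ∑ k with ty k = i, a k ∧
      Cc μ i = ∑ k with ty k ≠ i, if Odd (ex k) then 1 else a k := by
    intro i
    simp only [μ, Cc, sum_filter, ← sum_add_distrib]
    refine ⟨sum_congr rfl fun k _ => by simp [ca, cb], sum_congr rfl fun k _ => ?_⟩
    generalize ty k = j
    by_cases h : Odd (ex k) <;> fin_cases i <;> fin_cases j <;> simp [ca, cb, h]
  refine ⟨st, bad, μ, ⟨by linarith [Nat.cast_nonneg (α := ℝ) (Fintype.card κ)],
    by exact_mod_cast H.big, by norm_num, fun p m m' n n' h1 h2 => ?_,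
    fun p m m' n n' h1 h2 => ?_, fun p hp h1 => ?_, fun p m n hp h1 h2 => ?_,
    fun p s hp h1 => ?_, fun s => ?_, fun i => ?_, fun i => ?_,
    fun i => by rw [(hμ i).1, (hμ i).2]; exact H.drift i, fun i => by rw [(hμ i).2]; exact H.pos i⟩,
    by rw [(hμ 0).1, (hμ 0).2]⟩
  · simp only [st, hdv ((H.form _).cong _ _ _ _ _ h1 h2), R]
    congr 1
    funext k
    congr 1
    apply jacobiSym.mod_left'
    rw [hG, hG]
    exact ((Int.ModEq.refl _).mul (Int.ModEq.prod fun j _ =>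
      ((H.form j).cong _ _ _ _ _ h1 h2).pow _)).neg
  · push_cast at h1 h2
    simp only [bad, hdv ((H.form _).cong _ _ _ _ _ h1 h2),
      hdv (h1.of_dvd (dvd_pow_self _ two_ne_zero)), hdv (h2.of_dvd (dvd_pow_self _ two_ne_zero))]
  · refine (mean_mono (g := fun m n => (if (p : ℤ) ∣ m ∧ (p : ℤ) ∣ n then 1 else 0) +
      ∑ k, if (p : ℤ) ^ 2 ∣ F k m n ∧ ¬((p : ℤ) ∣ m ∧ (p : ℤ) ∣ n) then 1 else 0)
      fun m n => ?_).trans ?_
    · have h3 : (0 : ℝ) ≤
          ∑ k, if (p : ℤ) ^ 2 ∣ F k m n ∧ ¬((p : ℤ) ∣ m ∧ (p : ℤ) ∣ n) then 1 else 0 :=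
        sum_nonneg fun _ _ => by positivity
      by_cases h4 : (p : ℤ) ∣ m ∧ (p : ℤ) ∣ n
      · rw [if_pos h4]; split_ifs <;> linarith
      · rw [if_neg h4, zero_add]
        split_ifs with h5
        · obtain ⟨k, hk⟩ := h5.resolve_left h4
          refine le_trans (le_of_eq (if_pos ⟨hk, h4⟩).symm) (single_le_sum (f := fun k =>
            if (p : ℤ) ^ 2 ∣ F k m n ∧ ¬((p : ℤ) ∣ m ∧ (p : ℤ) ∣ n) then (1 : ℝ) else 0)
            (fun _ _ => by positivity) (mem_univ k))
        · exact h3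
    · rw [mean_add, mean_sum, mean_origin_sq hp.pos]
      have h3 := sum_le_card_nsmul univ _ _ fun k _ => (H.form k).sq p hp h1
      rw [nsmul_eq_mul, card_univ] at h3
      have h4 : (0 : ℝ) ≤ Fintype.card κ / p ^ 2 := by positivity
      have h5 : (3 * Fintype.card κ + 1 : ℝ) / p ^ 2 =
        1 / p ^ 2 + Fintype.card κ * (2 / p ^ 2) + Fintype.card κ / p ^ 2 := by ring
      linarith
  · have : Fact p.Prime := ⟨hp⟩
    have hpp := Nat.prime_iff_prime_int.1 hp
    simp only [bad, not_or, not_exists] at h2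
    rcases pick_cases fun k => (p : ℤ) ∣ F k m n with ⟨h3, h4⟩ | ⟨k, h3, h4⟩
    · simp only [st, h3, Option.map_none]
      refine ⟨trivial, fun h5 => ?_⟩
      have h6 : dsc (e m n) = (e m n (2 + 1) - e m n (2 + 2)) * (e m n (0 + 1) - e m n (0 + 2)) *
        (e m n (1 + 1) - e m n (1 + 2)) := rfl
      rw [h6, H.fac, H.fac, H.fac] at h5
      rcases hpp.dvd_or_dvd h5 with h5 | h5
      · rcases hpp.dvd_or_dvd h5 with h5 | h5 <;>
          exact absurd (hfac p m n _ hp h1 h5).choose_spec.2 (h4 _)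
      · exact absurd (hfac p m n _ hp h1 h5).choose_spec.2 (h4 _)
    · simp only [st, h3, Option.map_some]
      refine ⟨?_, fun _ => by simp⟩
      have h5 : ∀ j, j ≠ k → ¬(p : ℤ) ∣ F j m n := fun j hj h => h2.1 (H.cop p j k m n hp h1 hj h h4)
      have h6 : ¬(p : ℤ) ∣ e m n (ty k + 1) - e m n (ty k) := by
        rw [hG, dvd_neg]
        intro h
        obtain ⟨j, h7, h8⟩ := hfac p m n _ hp h1 h
        refine h5 j ?_ h8
        rintro rfl
        revert h7
        generalize ty j = i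
        revert i; decide
      obtain ⟨w, hw⟩ := h4
      have hw' : ¬(p : ℤ) ∣ w := fun h => h2.2 k (by rw [hw, sq]; exact mul_dvd_mul_left _ h)
      have h7 : ∃ z, ¬(p : ℤ) ∣ z ∧ e m n (ty k + 1) - e m n (ty k + 2) = p ^ ex k * z := by
        refine ⟨c (ty k) * (w ^ ex k * ∏ j ∈ (univ.filter fun j => ty j = ty k).erase k,
          F j m n ^ ex j), fun h => ?_, ?_⟩
        · rcases hpp.dvd_or_dvd h with h | h
          · exact not_dvd_small h1 (H.c0 _).1 (H.c0 _).2 h
          rcases hpp.dvd_or_dvd h with h | h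
          · exact hw' (hpp.dvd_of_dvd_pow h)
          · obtain ⟨j, h3, h4⟩ := (hpp.dvd_finsetProd_iff _).1 h
            exact h5 j (ne_of_mem_erase h3) (hpp.dvd_of_dvd_pow h4)
        · rw [H.fac, ← mul_prod_erase _ _ (a := k) (by simp), hw]; ring
      obtain ⟨z, hz1, hz2⟩ := h7
      have h8 : (p : ℤ) ∣ e m n (ty k + 1) - e m n (ty k + 2) :=
        hz2 ▸ (dvd_pow_self _ (H.expos k)).mul_right _
      have h9 : padicValInt p (e m n (ty k + 1) - e m n (ty k + 2)) = ex k := by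
        rw [hz2, padicValInt.mul (pow_ne_zero _ hpp.ne_zero) (by rintro rfl; simp at hz1),
          padicValInt.eq_zero_of_not_dvd hz1]
        simp [padicValInt]
      simp only [R, rule]
      split_ifs with h10 h11
      · exact ⟨h8, h10⟩
      · exact ⟨h8, (jac_unit h6).resolve_left h10, h9 ▸ h11⟩
      · exact ⟨ty k, h8, (jac_unit h6).resolve_left h10, h9 ▸ Nat.not_odd_iff_even.1 h11⟩
  · have hp' : (0 : ℝ) < p := by exact_mod_cast hp.pos
    have h3 := sum_le_card_nsmul univ _ _ fun k _ => (H.form k).le p hp h1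
    rw [nsmul_eq_mul, card_univ] at h3
    refine le_trans ?_ (h3.trans (by linarith))
    simp only [zc, ← mul_sum, ← mean_sum]
    refine mul_le_mul_of_nonneg_left (mean_mono fun m n => ?_) hp'.le
    rcases pick_cases fun k => (p : ℤ) ∣ F k m n with ⟨h3, h4⟩ | ⟨k, h3, h4⟩
    · simp [st, h3]
    · refine le_trans ?_ (single_le_sum (f := fun k => if (p : ℤ) ∣ F k m n then (1 : ℝ) else 0)
        (fun _ _ => by positivity) (mem_univ k))
      simp only [h4, if_true]; split_ifs <;> norm_num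
  · exact (HasMean.sum univ fun k =>
      ((H.form k).mz.smul _).add ((H.form k).mw.smul _)).near (near s)
  · refine (Osc.sum univ (f := fun k p => if ty k = i then (if Odd (ex k) then zc (F k) p else
      wc (F k) (fun m n => e m n (ty k + 1) - e m n (ty k)) p) else 0) fun k => ?_).near
      (K := 2 * Fintype.card κ) fun p hp h1 => ?_
    · split_ifs
      exacts [(H.form k).oz, (H.form k).ow, Osc.zero]
    · refine le_trans (le_of_eq ?_) ((abs_add_le _ _).trans ((add_le_add (near (some (i, false))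
        p hp h1) (near (some (i, true)) p hp h1)).trans (le_of_eq (by ring))))
      rw [sub_add_sub_comm, ← sum_add_distrib]
      congr 2
      refine sum_congr rfl fun k _ => ?_
      by_cases h2 : ty k = i <;> by_cases h3 : Odd (ex k) <;> simp [ca, cb, h2, h3]
  · refine (Osc.sum univ (f := fun k p => if ty k = i then (if Odd (ex k) then
      2 * wc (F k) (fun m n => e m n (ty k + 1) - e m n (ty k)) p - zc (F k) p else
      wc (F k) (fun m n => e m n (ty k + 1) - e m n (ty k)) p) else 0) fun k => ?_).near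
      (K := 2 * Fintype.card κ) fun p hp h1 => ?_
    · split_ifs
      exacts [(H.form k).od, (H.form k).ow, Osc.zero]
    · refine le_trans (le_of_eq ?_) ((abs_sub _ _).trans ((add_le_add (near (some (i, false))
        p hp h1) (near (some (i, true)) p hp h1)).trans (le_of_eq (by ring))))
      rw [sub_sub_sub_comm, ← sum_sub_distrib]
      congr 2
      refine sum_congr rfl fun k _ => ?_
      by_cases h2 : ty k = i <;> by_cases h3 : Odd (ex k) <;> simp [ca, cb, h2, h3]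
      ring

lemma mu4 : ∃ p₀ K c₀ st bad μ,
    Fam p₀ K c₀ (fun m n => ![0, M4 m n, N4 m n]) st bad μ ∧
      Cc μ 0 - μ (some (0, false)) = 1 / 2 := by
  have H : Forms (κ := Fin 3) 1000000 (fun m n => ![0, M4 m n, N4 m n])
      ![fun m n => n, fun m n => m ^ 2 - n, fun m n => m]
      ![0, 1, 2] ![1, 1, 2] ![1, 1, -1]
      ![1, 1 / 2, 1 / 2] := by
    refine ⟨by simp, fun k => ?_, fun m n i => ?_, by decide, by decide,
      fun p j k m n hp h0 hjk h1 h2 => ?_, fun i => ?_, fun i => ?_⟩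
    · fin_cases k
      exacts [form4_0, form4_1, form4_2]
    · rw [prod_filter, Fin.prod_univ_three]
      fin_cases i <;> simp <;> ring
    · fin_cases j <;> fin_cases k
      exacts [absurd rfl hjk, cop4_01 hp h0 h1 h2, cop4_02 hp h0 h1 h2, cop4_01 hp h0 h2 h1, absurd
        rfl hjk, cop4_12 hp h0 h1 h2, cop4_02 hp h0 h2 h1, cop4_12 hp h0 h2 h1, absurd rfl hjk]
    · rw [sum_filter, sum_filter, Fin.sum_univ_three, Fin.sum_univ_three]
      fin_cases i <;> simp [Nat.odd_iff] <;> norm_num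
    · rw [sum_filter, Fin.sum_univ_three]
      fin_cases i <;> simp [Nat.odd_iff] <;> norm_num
  obtain ⟨st, bad, μ, h1, h2⟩ := fam_mu H
  refine ⟨_, _, _, st, bad, μ, h1, h2.trans ?_⟩
  rw [sum_filter, sum_filter, Fin.sum_univ_three, Fin.sum_univ_three]
  simp [Nat.odd_iff]

lemma mu8 : ∃ p₀ K c₀ st bad μ,
    Fam p₀ K c₀ (fun m n => ![0, M8 m n, N8 m n]) st bad μ ∧
      Cc μ 0 - μ (some (0, false)) = 1 / 2 := by
  have H : Forms (κ := Fin 5) 1000000 (fun m n => ![0, M8 m n, N8 m n])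
      ![fun m n => n - m, fun m n => n + m, fun m n => n, fun m n => 2 * m ^ 2 - n ^ 2, fun m n =>
        m]
      ![0, 0, 1, 1, 2] ![2, 2, 2, 1, 4] ![1, 1, -1]
      ![1, 1, 1 / 2, 1 / 2, 1] := by
    refine ⟨by simp, fun k => ?_, fun m n i => ?_, by decide, by decide,
      fun p j k m n hp h0 hjk h1 h2 => ?_, fun i => ?_, fun i => ?_⟩
    · fin_cases k
      exacts [form8_0, form8_1, form8_2, form8_3, form8_4]
    · rw [prod_filter, Fin.prod_univ_five]
      fin_cases i <;> simp <;> ring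
    · fin_cases j <;> fin_cases k
      exacts [absurd rfl hjk, cop8_01 hp h0 h1 h2, cop8_02 hp h0 h1 h2, cop8_03 hp h0 h1 h2,
        cop8_04 hp h0 h1 h2, cop8_01 hp h0 h2 h1, absurd rfl hjk, cop8_12 hp h0 h1 h2, cop8_13 hp
        h0 h1 h2, cop8_14 hp h0 h1 h2, cop8_02 hp h0 h2 h1, cop8_12 hp h0 h2 h1, absurd rfl hjk,
        cop8_23 hp h0 h1 h2, cop8_24 hp h0 h1 h2, cop8_03 hp h0 h2 h1, cop8_13 hp h0 h2 h1, cop8_23
        hp h0 h2 h1, absurd rfl hjk, cop8_34 hp h0 h1 h2, cop8_04 hp h0 h2 h1, cop8_14 hp h0 h2 h1,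
        cop8_24 hp h0 h2 h1, cop8_34 hp h0 h2 h1, absurd rfl hjk]
    · rw [sum_filter, sum_filter, Fin.sum_univ_five, Fin.sum_univ_five]
      fin_cases i <;> simp [Nat.odd_iff] <;> norm_num
    · rw [sum_filter, Fin.sum_univ_five]
      fin_cases i <;> simp [Nat.odd_iff] <;> norm_num
  obtain ⟨st, bad, μ, h1, h2⟩ := fam_mu H
  refine ⟨_, _, _, st, bad, μ, h1, h2.trans ?_⟩
  rw [sum_filter, sum_filter, Fin.sum_univ_five, Fin.sum_univ_five]
  simp [Nat.odd_iff]

lemma mu12 : ∃ p₀ K c₀ st bad μ,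
    Fam p₀ K c₀ (fun m n => ![0, M12 m n, N12 m n]) st bad μ ∧
      Cc μ 0 - μ (some (0, false)) = 1 / 2 := by
  have H : Forms (κ := Fin 7) 1000000 (fun m n => ![0, M12 m n, N12 m n])
      ![fun m n => n - m, fun m n => n + m, fun m n => 3 * m ^ 2 + n ^ 2, fun m n => m ^ 2 + n ^ 2,
        fun m n => 3 * m ^ 2 - n ^ 2, fun m n => n, fun m n => m]
      ![0, 0, 0, 1, 1, 2, 2] ![3, 3, 1, 3, 1, 2, 6] ![1, 1, -16]
      ![1, 1, 1, 1, 1 / 2, 1 / 2, 1] := by
    refine ⟨by simp, fun k => ?_, fun m n i => ?_, by decide, by decide,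
      fun p j k m n hp h0 hjk h1 h2 => ?_, fun i => ?_, fun i => ?_⟩
    · fin_cases k
      exacts [form12_0, form12_1, form12_2, form12_3, form12_4, form12_5, form12_6]
    · rw [prod_filter, Fin.prod_univ_seven]
      fin_cases i <;> simp <;> ring
    · fin_cases j <;> fin_cases k
      exacts [absurd rfl hjk, cop12_01 hp h0 h1 h2, cop12_02 hp h0 h1 h2, cop12_03 hp h0 h1 h2,
        cop12_04 hp h0 h1 h2, cop12_05 hp h0 h1 h2, cop12_06 hp h0 h1 h2, cop12_01 hp h0 h2 h1,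
        absurd rfl hjk, cop12_12 hp h0 h1 h2, cop12_13 hp h0 h1 h2, cop12_14 hp h0 h1 h2, cop12_15
        hp h0 h1 h2, cop12_16 hp h0 h1 h2, cop12_02 hp h0 h2 h1, cop12_12 hp h0 h2 h1, absurd rfl
        hjk, cop12_23 hp h0 h1 h2, cop12_24 hp h0 h1 h2, cop12_25 hp h0 h1 h2, cop12_26 hp h0 h1
        h2, cop12_03 hp h0 h2 h1, cop12_13 hp h0 h2 h1, cop12_23 hp h0 h2 h1, absurd rfl hjk,
        cop12_34 hp h0 h1 h2, cop12_35 hp h0 h1 h2, cop12_36 hp h0 h1 h2, cop12_04 hp h0 h2 h1,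
        cop12_14 hp h0 h2 h1, cop12_24 hp h0 h2 h1, cop12_34 hp h0 h2 h1, absurd rfl hjk, cop12_45
        hp h0 h1 h2, cop12_46 hp h0 h1 h2, cop12_05 hp h0 h2 h1, cop12_15 hp h0 h2 h1, cop12_25 hp
        h0 h2 h1, cop12_35 hp h0 h2 h1, cop12_45 hp h0 h2 h1, absurd rfl hjk, cop12_56 hp h0 h1 h2,
        cop12_06 hp h0 h2 h1, cop12_16 hp h0 h2 h1, cop12_26 hp h0 h2 h1, cop12_36 hp h0 h2 h1,
        cop12_46 hp h0 h2 h1, cop12_56 hp h0 h2 h1, absurd rfl hjk]
    · rw [sum_filter, sum_filter, Fin.sum_univ_seven, Fin.sum_univ_seven]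
      fin_cases i <;> simp [Nat.odd_iff] <;> norm_num
    · rw [sum_filter, Fin.sum_univ_seven]
      fin_cases i <;> simp [Nat.odd_iff] <;> norm_num
  obtain ⟨st, bad, μ, h1, h2⟩ := fam_mu H
  refine ⟨_, _, _, st, bad, μ, h1, h2.trans ?_⟩
  rw [sum_filter, sum_filter, Fin.sum_univ_seven, Fin.sum_univ_seven]
  simp [Nat.odd_iff]

end Pool.Agent.Lib.MP_a3f657_nt
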