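import Pool.Agent.Lib.MP_a3f657_nt.Stat
import Pool.Agent.Lib.MP_a3f657_nt.Mu

/-!
From parameter boxes to the height ordering.
-/

namespace Pool.Agent.Lib.MP_a3f657_nt

open Pool.Agent.Lib.MP_788af2_nt Finset Real Polynomial

variable {a b : ℕ} {cy : Bool} {w d : ℕ} {M N : ℤ → ℤ → ℤ} {pM pN : ℚ[X]} {R C : ℕ}

lemma upper (H : Param a b cy w d M N pM pN R C) {X T U : ℕ} (hT : 1 ≤ T) (hX : X ≤ T ^ (6 * d))
    (hU : U = C * (14 * R * T)) {F : ℤ → ℤ → ℝ} (hF : ∀ m n, 0 ≤ F m n) {G : ℤ × ℤ → ℝ}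
    (hG : ∀ x ∈ SX a b X, ∀ (u : ℚ) (m n : ℤ), u ≠ 0 → x.1 = u ^ 4 * AA cy (M m n) (N m n) →
      x.2 = u ^ 6 * BB cy (M m n) (N m n) → G x ≤ F m n) :
    ∑ x ∈ SX a b X, G x ≤ 144 * R * box (-U) (-(U ^ w : ℕ)) (2 * U + 1) (2 * U ^ w + 1) F := by
  classical
  choose! v m n r h2 h3 h4 h5 h6 h7 using fun x (hx : x ∈ SX a b X) =>
    H.cover hT hX (A := x.1) (B := x.2) hx
  simp only [← hU] at h3 h4
  generalize U ^ w = V at h4 ⊢
  let g : ℤ × ℤ → ℕ × ℕ × ℕ := fun x => (v x, (m x + U).toNat, (n x + (V : ℤ)).toNat)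
  let F' : ℕ × ℕ × ℕ → ℝ := fun y => F (-U + y.2.1) (-(V : ℤ) + y.2.2)
  have e1 : ∀ x ∈ SX a b X, -(U : ℤ) + (g x).2.1 = m x ∧ -((V : ℤ) : ℤ) + (g x).2.2 = n x := by
    intro x hx
    have := abs_le.1 (h3 x hx)
    have := abs_le.1 (h4 x hx)
    simp only [g]; omega
  calc _ ≤ ∑ x ∈ SX a b X, F' (g x) := sum_le_sum fun x hx => by
        simp only [F', e1 x hx]
        have : (v x : ℚ) ≠ 0 := by have := (mem_Icc.1 (h2 x hx)).1; positivity
        exact hG x hx (12 / v x) _ _ (by positivity) (by rw [h5 x hx]; ring)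
          (by rw [h6 x hx]; ring)
    _ = ∑ y ∈ (SX a b X).image g, F' y := (sum_image fun x hx x' hx' e => by
        have e2 : v x = v x' := congrArg Prod.fst e
        have e3 : m x = m x' := by rw [← (e1 x hx).1, ← (e1 x' hx').1, e]
        have e4 : n x = n x' := by rw [← (e1 x hx).2, ← (e1 x' hx').2, e]
        refine Prod.ext (Int.cast_injective (α := ℚ) ?_) (Int.cast_injective (α := ℚ) ?_)
        · rw [h5 x hx, h5 x' hx', e2, e3, e4]
        · rw [h6 x hx, h6 x' hx', e2, e3, e4]).symm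
    _ ≤ ∑ y ∈ Icc 1 (144 * R) ×ˢ range (2 * U + 1) ×ˢ range (2 * V + 1), F' y := by
        refine sum_le_sum_of_subset_of_nonneg (fun y hy => ?_) fun _ _ _ => hF _ _
        obtain ⟨x, hx, rfl⟩ := mem_image.1 hy
        have := abs_le.1 (h3 x hx)
        have := abs_le.1 (h4 x hx)
        simp only [g, mem_product, mem_range, h2 x hx, true_and]; omega
    _ = _ := by
        rw [sum_product]
        simp only [F', sum_product, sum_const, MP_788af2_nt.box]
        simp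

lemma sh_AB {A B M N : ℤ} {u : ℚ} (h : 4 * A ^ 3 + 27 * B ^ 2 ≠ 0) (hu : u ≠ 0)
    (hA : A = u ^ 4 * AA true M N) (hB : B = u ^ 6 * BB true M N) : dsc ![0, M, N] ≠ 0 ∧
      (ShaTwo (wc 0 A B)).Finite ∧ logb 2 (ShaTwo (wc 0 A B)).ncard = tt M N := by
  have he : dsc ![0, M, N] ≠ 0 := fun h0 => h (by
    rw [dsc_eq, neg_eq_zero] at h0
    have h1 := (disc_AB (cy := true) (x := M) (y := N)).2 (by exact_mod_cast h0)
    have : 4 * (A : ℚ) ^ 3 + 27 * B ^ 2 = 0 := by rw [hA, hB]; linear_combination u ^ 12 * h1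
    exact_mod_cast this)
  obtain ⟨h1, h2⟩ := sh_change (a := 0) (b := A) (c := B) (u := u⁻¹)
    (r := u ^ 2 * aa true M N / 3) (a' := aa true M N) (b' := bb true M N) (c' := 0)
    (inv_ne_zero hu) (by field_simp; ring) (by rw [hA, AA]; field_simp; ring)
    (by rw [hA, hB, AA, BB]; field_simp; ring)
    (sh_bounds (ι := Empty) (q := Empty.elim) (σ := Empty.elim)
      (B := insert 2 (dsc ![0, M, N]).natAbs.primeFactors) he (fun p => p.elim) (fun p => p.elim)
      (fun p => p.elim) (fun l hl => (mem_insert.1 hl).elim (· ▸ Nat.prime_two)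
        Nat.prime_of_mem_primeFactors) (mem_insert_self _ _)
      (fun l hl h => Or.inl (mem_insert_of_mem (Nat.mem_primeFactors.2
        ⟨hl, Int.natCast_dvd.1 h, Int.natAbs_ne_zero.2 he⟩))) fun p => p.elim).1
  exact ⟨he, h1, by rw [h2, tt]⟩

theorem final (H : Param a b true w d M N pM pN R C) (hF : ∃ p₀ K c₀ st bad μ,
    Fam p₀ K c₀ (fun m n => ![0, M m n, N m n]) st bad μ ∧ Cc μ 0 - μ (some (0, false)) = 1 / 2) :
    ∃ C' : ℝ, ∀ᶠ X : ℕ in Filter.atTop, ∀ S, SX a b X ⊆ S → S ⊆ SX a b (27 * X) →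
      S.Nonempty ∧ (∀ x ∈ S, (ShaTwo (wc 0 x.1 x.2)).Finite) ∧
      ∑ x ∈ S, |logb 2 (ShaTwo (wc 0 x.1 x.2)).ncard - log (log X) / 2| ≤
        C' * √(log (log X)) * S.card := by
  obtain ⟨p₀, K, c₀, st, bad, μ, hF, hμ⟩ := hF
  obtain ⟨C₁, X₀, hC₁, h1⟩ := box_bound hF hμ (3 * d + 1) (6 * d + 1)
  obtain ⟨C₂, t₂, h2⟩ := H.lower
  have hC := H.Cpos
  have hd := H.dpos
  have hR := H.Rpos
  set c := C * (14 * R * (1728 * C)) with hc
  refine ⟨144 * R * (C₁ * 9 * c ^ (w + 1)) * C₂, Filter.eventually_atTop.2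
    ⟨(432 * C * (⌈X₀⌉₊ + 2 * C ^ 3 + t₂ + 1)) ^ (6 * d) + c + ⌈exp (exp 1)⌉₊,
      fun X hX S hS1 hS2 => ?_⟩⟩
  have hex : ∃ t, X < (432 * C * t) ^ (6 * d) :=
    ⟨X + 1, (by nlinarith : X < 432 * C * (X + 1)).trans_le (Nat.le_self_pow (by omega) _)⟩
  have h3 := Nat.find_spec hex
  have h4 : ⌈X₀⌉₊ + 2 * C ^ 3 + t₂ + 1 < Nat.find hex := lt_of_mul_lt_mul_left
    (lt_of_pow_lt_pow_left₀ _ (by positivity) (lt_of_le_of_lt (by omega) h3)) (by positivity)
  obtain ⟨t, ht⟩ : ∃ t, Nat.find hex = t + 1 := ⟨Nat.find hex - 1, by omega⟩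
  have hC3 : 0 < C ^ 3 := by positivity
  have ht1 : 2 ≤ t := by omega
  have h5 : (432 * C * t) ^ (6 * d) ≤ X := not_lt.1 (Nat.find_min hex (by omega))
  have h6 : 27 * X ≤ (1728 * C * t) ^ (6 * d) := by
    calc 27 * X ≤ 2 ^ (6 * d) * (864 * C * t) ^ (6 * d) := Nat.mul_le_mul
          (le_trans (by norm_num) (Nat.pow_le_pow_right two_pos (by omega : 6 ≤ 6 * d)))
          (h3.le.trans (Nat.pow_le_pow_left (by rw [ht]; nlinarith) _))
      _ = _ := by rw [← mul_pow]; congr 1; ring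
  have h7 := (h2 t X (by omega) h5).trans
    (mul_le_mul_of_nonneg_left (Nat.cast_le.2 (card_le_card hS1)) (Nat.cast_nonneg _))
  have h8 : (0 : ℝ) < t ^ (w + 1) := pow_pos (by exact_mod_cast (by omega : 0 < t)) _
  have hT : 1 ≤ 1728 * C * t := by nlinarith
  refine ⟨card_pos.1 (Nat.pos_of_ne_zero fun h => by simp [h] at h7; linarith), fun x hx => ?_, ?_⟩
  · obtain ⟨v, m, n, -, h9, -, -, hA, hB, -⟩ := H.cover hT h6 (A := x.1) (B := x.2) (hS2 hx)
    have : (v : ℚ) ≠ 0 := by have := (mem_Icc.1 h9).1; positivity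
    exact (sh_AB (M := M m n) (N := N m n) (mem_SX.1 (hS2 hx)).1 (u := 12 / v) (by positivity) (by rw [hA]; ring)
      (by rw [hB]; ring)).2.1
  set U := c * t with hU
  have hc1 : 1728 * C ≤ c := by
    rw [hc, ← mul_assoc]; exact Nat.le_mul_of_pos_left _ (by positivity)
  have hTU : t ≤ U := Nat.le_mul_of_pos_left t (by omega)
  have hUw : U ≤ U ^ w := Nat.le_self_pow H.wpos.ne' U
  have l1 : exp 1 ≤ log X := (le_log_iff_exp_le (by exact_mod_cast (by omega))).2
    ((Nat.le_ceil _).trans (by exact_mod_cast (by omega)))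
  have l0 := (exp_pos 1).trans_le l1
  have l2 : log X ≤ (6 * d : ℕ) * log U := by
    rw [← Real.log_pow]
    refine log_le_log (by exact_mod_cast (by omega)) ?_
    exact_mod_cast (by omega : X ≤ 27 * X).trans (h6.trans (Nat.pow_le_pow_left
      (Nat.mul_le_mul_right _ hc1) _))
  have l3 : log U ≤ (2 : ℕ) * log X := by
    rw [← Real.log_pow]
    refine log_le_log (by exact_mod_cast (by omega)) ?_
    have : t ≤ X := (Nat.le_mul_of_pos_left t (by omega)).trans
      ((Nat.le_self_pow (by omega) _).trans h5)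
    exact_mod_cast (Nat.mul_le_mul (by omega) this).trans_eq (sq X).symm
  have l4 : 0 < log U := log_pos (by exact_mod_cast (by omega))
  have l5 := log_le_log l0 l2
  have l6 := log_le_log l4 l3
  have l7 : (0 : ℝ) < (6 * d : ℕ) := by positivity
  rw [Real.log_mul (by positivity) (by positivity)] at l5 l6
  have h9 := h1 U (log (log X)) ((Nat.le_ceil _).trans (by exact_mod_cast (by omega)))
    ((le_log_iff_exp_le l0).2 l1) (by
      have := log_le_sub_one_of_pos l7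
      push_cast at *
      exact abs_le.2 ⟨by linarith, by linarith [log_two_lt_d9]⟩) (-U) (-(U ^ w : ℕ))
    (2 * U + 1) (2 * U ^ w + 1) (by exact_mod_cast (by omega)) (by exact_mod_cast (by omega))
    (fun i hi j hj => by
      obtain ⟨g1, g2⟩ := H.growth U (-U + i) (-(U ^ w : ℕ) + j) (by omega) (abs_le.2 (by omega))
        (by rw [← Nat.cast_pow]; exact abs_le.2 (by omega))
      generalize M _ _ = x at g1 ⊢
      generalize N _ _ = y at g2 ⊢
      have h2 : |dsc ![0, x, y]| ≤ U ^ (3 * d + 1) := by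
        have h3 : |x - y| ≤ 2 * (C * U ^ d) := (abs_sub _ _).trans (by linarith)
        calc _ = |x| * |x - y| * |y| := by simp [dsc, abs_mul]
          _ ≤ C * U ^ d * (2 * (C * U ^ d)) * (C * U ^ d) := by gcongr
          _ = U ^ (3 * d) * (2 * C ^ 3 : ℕ) := by push_cast; ring
          _ ≤ U ^ (3 * d) * U := by gcongr; omega
      exact_mod_cast h2)
  have h10 := upper H hT h6 (U := U) (by rw [hU, hc]; ring)
    (F := fun m n => if dsc ![0, M m n, N m n] = 0 then 0 else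
      |tt (M m n) (N m n) - log (log X) / 2|) (fun m n => by positivity)
    (G := fun x => |logb 2 (ShaTwo (wc 0 x.1 x.2)).ncard - log (log X) / 2|)
    fun x hx u m n hu hA hB => by
      obtain ⟨e1, -, e2⟩ := sh_AB (mem_SX.1 hx).1 hu hA hB
      simp only [if_neg e1, e2, le_refl]
  refine (sum_le_sum_of_subset_of_nonneg hS2 fun _ _ _ => abs_nonneg _).trans (h10.trans ?_)
  calc _ ≤ 144 * R * (C₁ * √(log (log X)) * (3 * U : ℕ) * (3 * U ^ w : ℕ)) := by
        refine mul_le_mul_of_nonneg_left (h9.trans ?_) (by positivity)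
        gcongr <;> omega
    _ = 144 * R * (C₁ * 9 * c ^ (w + 1)) * √(log (log X)) * t ^ (w + 1) := by
        rw [hU]; push_cast; ring
    _ ≤ 144 * R * (C₁ * 9 * c ^ (w + 1)) * √(log (log X)) * (C₂ * S.card) := by gcongr
    _ = _ := by ring

end Pool.Agent.Lib.MP_a3f657_nt
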