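import Pool.Agent.Lib.MP_a3f657_nt.C2All

/-!
The capped first moment of the 2-Selmer group in each parity class.
-/

namespace Pool.Agent.Lib.MP_a3f657_nt.Two

open Filter

theorem capped_le (k : Type) [Field k] [Fintype k] [CharP k 2] (e : ZMod 2) (R : ℕ) (ε : ℝ)
    (hε : 0 < ε) : ∀ᶠ d : ℕ in atTop,
      ∑ n ∈ (Finset.range R).filter (fun n : ℕ => (n : ZMod 2) = e),
        (2 : ℝ) ^ n * dens (k := k) (fun W => selOrder W = 2 ^ n) d +
      (2 : ℝ) ^ R * dens (k := k)
        (fun W => ∃ n : ℕ, R ≤ n ∧ (n : ZMod 2) = e ∧ selOrder W = 2 ^ n) d ≤ 3 / 2 + ε := by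
  classical
  have key := dens_le (k := k) cellRed cellAn'
    (Finset.insertNone ((Finset.range R).filter fun n : ℕ => (n : ZMod 2) = e))
    (fun o m => o.elim (∃ n : ℕ, R ≤ n ∧ (n : ZMod 2) = e ∧ m = 2 ^ n) fun n => m = 2 ^ n)
    (fun o => o.elim (2 ^ R) fun n => 2 ^ n) e 0 1 zero_le_one (fun r => by
      simp only [Finset.sum_insertNone, Option.elim_none, Option.elim_some,
        Nat.pow_right_inj one_lt_two, Finset.sum_ite_eq, Finset.mem_filter, Finset.mem_range,
        zero_add, one_mul]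
      by_cases h : (r : ZMod 2) = e
      · rcases le_or_gt R r with c | c
        · have : (2 : ℝ) ^ R ≤ 2 ^ r := pow_le_pow_right₀ one_le_two c
          simp [h, c, c.not_gt, this]
        · simp [h, c, c.not_ge]
      · simp [h]) ε hε
  refine key.mono fun d hd => ?_
  simp only [Finset.sum_insertNone, Option.elim_none, Option.elim_some] at hd
  linarith

end Pool.Agent.Lib.MP_a3f657_nt.Two
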