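import Pool.Agent.Lib.MP_a3f657_nt.C2Defs

/-!
The order of the `p`-Selmer group of an elliptic curve over a rational function field.
-/

namespace Pool.Agent.Lib.MP_a3f657_nt.Par

open Pool.Agent.Lib.MP_a3f657_nt.Two

open scoped Polynomial

attribute [local instance 10000] Classical.propDecidable

section Sha

variable (p : ℕ) {F : Type} [Field F] (W : WeierstrassCurve F) (Ω : Type) [Field Ω] [Algebra F Ω]

/-- The number of classes killed by `p` in `Z` modulo `B`. -/
noncomputable def pTors {G : Type} [AddCommGroup G] (B Z : AddSubgroup G) : ℕ :=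
  Nat.card {c : Z ⧸ B.addSubgroupOf Z // p • c = 0}

variable (K₀ : Type) [Field K₀] [Algebra F K₀] {ι : Type} (K : ι → Type) [∀ i, Field (K i)]
  [∀ i, Algebra F (K i)]

/-- The number of classes killed by `p` that are trivial over `K₀` and over all `K i`. -/
noncomputable def shaP : ℕ :=
  pTors p (cobound W Ω) (cocycles W Ω ⊓ (trivSep W Ω K₀ ⊓ ⨅ i, trivSep W Ω (K i)))

/-- `#(E(F)/pE(F)) * #Sha[p]` for the local fields `K₀` and `K i` (zero if one is infinite). -/
noncomputable def selOfP : ℕ :=
  Nat.card (W.toAffine.Point ⧸ (nsmulAddMonoidHom p : W.toAffine.Point →+ W.toAffine.Point).range) *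
    shaP p W (SeparableClosure F) K₀ K

end Sha

variable {k : Type} [Field k]

/-- The order of the `p`-Selmer group of a curve over `k(t)`. -/
noncomputable def selP (p : ℕ) (W : WeierstrassCurve (RatFunc k)) : ℕ :=
  selOfP p W (RatFunc.CompletionAtInfty k)
    fun v : IsDedekindDomain.HeightOneSpectrum k[X] => v.adicCompletion (RatFunc k)

end Pool.Agent.Lib.MP_a3f657_nt.Par
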