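import Pool.Agent.Lib.MP_a3f657_nt.Cohom
import Pool.Agent.Lib.MP_788af2_nt.Models

/-!
The local conditions of the descent by a 2-isogeny.
-/

namespace Pool.Agent.Lib.MP_a3f657_nt

open Pool.Agent.Lib.MP_788af2_nt Polynomial
open scoped NumberTheorySymbols

lemma sq_of {F : Type} [Field F] {d w y : F} (e : y = d * w ^ 2) (hy : y ≠ 0) (h : IsSquare y) :
    IsSquare d := by
  obtain ⟨z, hz⟩ := h
  have hw : w ≠ 0 := by rintro rfl; exact hy (by rw [e]; ring)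
  exact ⟨z / w, by field_simp; rw [← e, hz, sq]⟩

variable {p : ℕ} [hp : Fact p.Prime]

lemma hensel {z : ℚ_[p]} (h : ‖z - 1‖ < ‖(2 : ℚ_[p])‖ ^ 2) : IsSquare z := by
  have h1 : ‖(2 : ℚ_[p])‖ ≤ 1 := by exact_mod_cast Padic.norm_int_le_one (p := p) 2
  have h2 : ‖z‖ ≤ 1 := by
    have := Padic.nonarchimedean (z - 1) 1
    rw [sub_add_cancel, norm_one] at this
    exact this.trans (max_le (h.le.trans (pow_le_one₀ (norm_nonneg _) h1)) le_rfl)
  obtain ⟨t, rfl⟩ : ∃ t : ℤ_[p], (t : ℚ_[p]) = z := ⟨⟨z, h2⟩, rfl⟩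
  obtain ⟨y, hy, -⟩ := hensels_lemma (R := ℤ_[p]) (F := X ^ 2 - C t) (a := 1) (by
    rw [norm_sub_rev] at h
    have e1 : aeval (1 : ℤ_[p]) (X ^ 2 - C t) = 1 - t := by simp
    have e2 : aeval (1 : ℤ_[p]) (derivative (X ^ 2 - C t)) = 2 := by simp; norm_num
    rw [e1, e2]
    exact h)
  have h3 : t = y * y := by simpa [sub_eq_zero, sq, eq_comm] using hy
  exact ⟨y, by rw [h3, PadicInt.coe_mul]⟩

lemma sq_two {d : ℤ} (h : d % 8 = 1) : IsSquare (d : ℚ_[2]) := by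
  refine hensel ?_
  have h1 := (Padic.norm_int_le_pow_iff_dvd (p := 2) (d - 1) 3).2 (by omega)
  have h2 : ‖(2 : ℚ_[2])‖ = 2⁻¹ := by exact_mod_cast Padic.norm_p (p := 2)
  rw [h2]
  push_cast at h1
  exact h1.trans_lt (by norm_num)

lemma norm_two (h2 : p ≠ 2) : ‖(2 : ℚ_[p])‖ = 1 := by
  exact_mod_cast Padic.norm_natCast_eq_one_iff.2
    ((Nat.coprime_primes hp.out Nat.prime_two).2 h2)

lemma near (h2 : p ≠ 2) {x y : ℚ_[p]} (h : ‖x - y‖ < ‖y‖) : IsSquare (x * y) := by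
  have hy : y ≠ 0 := by rintro rfl; exact (norm_nonneg _).not_gt (by simpa using h)
  obtain ⟨z, hz⟩ := hensel (z := x / y) (by
    rw [norm_two h2, div_sub_one hy, norm_div, one_pow, div_lt_one (norm_pos_iff.2 hy)]; exact h)
  exact ⟨z * y, by rw [(div_eq_iff hy).1 hz]; ring⟩

lemma norm_near {x y : ℚ_[p]} (h : ‖x - y‖ < ‖y‖) : ‖x‖ = ‖y‖ := by
  have := Padic.add_eq_max_of_ne h.ne
  rwa [sub_add_cancel, max_eq_right h.le] at this

lemma norm_sub_of_lt {x y : ℚ_[p]} (h : ‖x‖ < ‖y‖) : ‖x - y‖ = ‖y‖ := by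
  rw [← norm_neg y]
  exact norm_near (by rwa [sub_neg_eq_add, sub_add_cancel, norm_neg])

lemma ne_of_gt' {y : ℚ_[p]} {r : ℝ} (h0 : 0 ≤ r) (h : r < ‖y‖) : y ≠ 0 :=
  norm_pos_iff.1 (h0.trans_lt h)

/-- Even valuation. -/
def ev (x : ℚ_[p]) : Prop := Even x.valuation

lemma ev_norm {x y : ℚ_[p]} (hy : y ≠ 0) (h : ‖x‖ = ‖y‖) : ev x ↔ ev y := by
  have hx : x ≠ 0 := by rwa [← norm_ne_zero_iff, h, norm_ne_zero_iff]
  rw [Padic.norm_eq_zpow_neg_valuation hx, Padic.norm_eq_zpow_neg_valuation hy,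
    zpow_right_inj₀ (by exact_mod_cast hp.out.pos) (by exact_mod_cast hp.out.ne_one), neg_inj] at h
  rw [ev, ev, h]

lemma ev_sq (x : ℚ_[p]) : ev (x ^ 2) := by rw [ev, Padic.valuation_pow]; exact even_two_mul _

lemma ev_of {d w y : ℚ_[p]} (hy : y ≠ 0) (e : ‖d * w ^ 2‖ = ‖y‖) : ev d ↔ ev y := by
  have h0 : d * w ^ 2 ≠ 0 := by rwa [← norm_ne_zero_iff, e, norm_ne_zero_iff]
  rw [← ev_norm hy e, ev, ev, Padic.valuation_mul (left_ne_zero_of_mul h0)
    (right_ne_zero_of_mul h0), Int.even_add, iff_true_intro (show Even (w ^ 2).valuation from ev_sq w),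
    iff_true]

lemma ev_one {d w : ℚ_[p]} (e : ‖d * w ^ 2‖ = 1) : ev d :=
  (ev_of one_ne_zero (by rw [e, norm_one])).2 (by simpa using ev_sq (1 : ℚ_[p]))

lemma ev_of_sq {d : ℚ_[p]} (h : IsSquare d) : ev d := by
  obtain ⟨z, rfl⟩ := h
  rw [← sq]; exact ev_sq z

section nec

variable (h2 : p ≠ 2) {M N d s w : ℚ_[p]}
include h2

lemma big1 (e : (d * s ^ 2 - M) * (d * s ^ 2 - N) = d * w ^ 2)
    (h : ‖M - N‖ < ‖d * s ^ 2 - M‖) : IsSquare d := by
  have h1 : ‖d * s ^ 2 - N - (d * s ^ 2 - M)‖ < ‖d * s ^ 2 - M‖ := by rwa [sub_sub_sub_cancel_left]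
  exact sq_of e (mul_ne_zero (ne_of_gt' (norm_nonneg _) h)
    (ne_of_gt' (norm_nonneg _) (h.trans_eq (norm_near h1).symm))) (by rw [mul_comm]; exact near h2 h1)

lemma nec1 (e : (d * s ^ 2 - M) * (d * s ^ 2 - N) = d * w ^ 2) (hM : ‖M‖ = 1) (hN : ‖N‖ ≤ 1)
    (h0 : N ≠ 0) (h1 : ev N) (h3 : ‖N‖ < 1 → ¬IsSquare (-M)) : ev d := by
  rcases lt_trichotomy ‖d * s ^ 2‖ 1 with h | h | h
  · have h4 := norm_sub_of_lt (h.trans_eq hM.symm)
    rcases lt_trichotomy ‖d * s ^ 2‖ ‖N‖ with h5 | h5 | h5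
    · exact (ev_of h0 (by rw [← e, norm_mul, h4, norm_sub_of_lt h5, hM, one_mul])).2 h1
    · exact (ev_of h0 h5).2 h1
    · have h6 : ‖d * s ^ 2 - N - d * s ^ 2‖ < ‖d * s ^ 2‖ := by simpa using h5
      have h7 := (near h2 (x := d * s ^ 2 - M) (y := -M) (by simpa [hM] using h)).mul (near h2 h6)
      refine absurd (sq_of (w := d * s * w) (by linear_combination -M * d * s ^ 2 * e) ?_ h7)
        (h3 (h5.trans h))
      rw [← norm_ne_zero_iff, norm_mul, norm_mul, norm_mul, norm_near h6, h4, norm_neg, hM]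
      have := (norm_nonneg _).trans_lt h5
      positivity
  · exact ev_one h
  · refine ev_of_sq (big1 h2 e ?_)
    rw [norm_sub_rev _ M, norm_sub_of_lt (hM.trans_lt h), sub_eq_add_neg]
    exact (Padic.nonarchimedean _ _).trans_lt (max_lt (hM.trans_lt h)
      ((norm_neg N).trans_lt (hN.trans_lt h)))

lemma nec2 (e : (d * s ^ 2 - M) * (d * s ^ 2 - N) = d * w ^ 2) (hM : ‖M‖ = 1)
    (hN : ‖M - N‖ < 1) (h1 : IsSquare M) : IsSquare d := by
  rcases lt_or_ge ‖d * s ^ 2 - M‖ 1 with h | h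
  · obtain ⟨z, rfl⟩ := h1
    rw [← hM] at h
    refine sq_of (w := s * z) (by ring) ?_ (near h2 h)
    rw [← norm_ne_zero_iff, norm_mul, norm_near h, hM]; norm_num
  · exact big1 h2 e (hN.trans_le h)

omit h2 in
lemma nec3 (e : (d * s ^ 2) ^ 2 + 2 * (M + N) * (d * s ^ 2) + (M - N) ^ 2 = d * w ^ 2)
    (hM : ‖2 * (M + N)‖ ≤ 1) (hN : ‖M - N‖ = 1) : ev d := by
  rcases lt_trichotomy ‖d * s ^ 2‖ 1 with h | h | h
  · refine ev_one (w := w) ((norm_near (y := (M - N) ^ 2) ?_).trans (by rw [norm_pow, hN, one_pow]))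
    rw [← e, add_sub_cancel_right, norm_pow, hN, one_pow]
    refine (Padic.nonarchimedean _ _).trans_lt (max_lt ?_ ?_)
    · rw [norm_pow]; exact pow_lt_one₀ (norm_nonneg _) h two_ne_zero
    · rw [norm_mul]; exact mul_lt_one_of_nonneg_of_lt_one_right hM (norm_nonneg _) h
  · exact ev_one h
  · refine (ev_of (w := w) (pow_ne_zero 2 (ne_of_gt' zero_le_one h)) (norm_near ?_)).2 (ev_sq _)
    rw [← e, add_assoc, add_sub_cancel_left, norm_pow]
    refine (Padic.nonarchimedean _ _).trans_lt (max_lt ?_ ?_)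
    · rw [norm_mul]; nlinarith
    · rw [norm_pow, hN]; nlinarith

lemma norm_four : ‖4 * M * N‖ = ‖M‖ * ‖N‖ := by
  rw [norm_mul, norm_mul, show (4 : ℚ_[p]) = 2 * 2 by norm_num, norm_mul, norm_two h2]; ring

lemma nec4 (e : (d * s ^ 2) ^ 2 + 2 * (M + N) * (d * s ^ 2) + (M - N) ^ 2 = d * w ^ 2)
    (hM : ‖M‖ = 1) (hN : M - N ≠ 0) (h1 : ¬IsSquare M) : ev d := by
  have e' : d * w ^ 2 = (d * s ^ 2 - (M - N)) ^ 2 + 4 * M * (d * s ^ 2) := by rw [← e]; ring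
  rcases lt_trichotomy ‖(d * s ^ 2 - (M - N)) ^ 2‖ ‖4 * M * (d * s ^ 2)‖ with h | h | h
  · have h3 : ‖d * w ^ 2 - 4 * M * (d * s ^ 2)‖ < ‖4 * M * (d * s ^ 2)‖ := by
      rwa [e', add_sub_cancel_right]
    exact absurd (sq_of (w := 2 * d * s * w) (by ring) (mul_ne_zero (ne_of_gt' (norm_nonneg _)
      (h.trans_eq (norm_near h3).symm)) (ne_of_gt' (norm_nonneg _) h)) (near h2 h3)) h1
  · rw [norm_four h2, hM, one_mul] at h
    refine (ev_of (fun h0 => hN ?_) h.symm).2 (ev_sq _)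
    have h3 : d * s ^ 2 = 0 := by rwa [h0, norm_zero, eq_comm, norm_eq_zero] at h
    rwa [h3, zero_sub, neg_sq, sq_eq_zero_iff] at h0
  · exact (ev_of (ne_of_gt' (norm_nonneg _) h) (norm_near (by rwa [e', add_sub_cancel_left]))).2
      (ev_sq _)

lemma nec5 (e : (d * s ^ 2) ^ 2 + 2 * (M + N) * (d * s ^ 2) + (M - N) ^ 2 = d * w ^ 2)
    (hM : ‖M‖ = 1) (hN : ‖N‖ < 1) (h0 : N ≠ 0) (h1 : IsSquare (-M) ∨ ¬ev N) : IsSquare d := by
  have e' : d * w ^ 2 = (d * s ^ 2 + M + N) ^ 2 - 4 * M * N := by rw [← e]; ring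
  have h4 : ‖4 * M * N‖ = ‖N‖ := by rw [norm_four h2, hM, one_mul]
  rcases lt_or_ge ‖N‖ ‖(d * s ^ 2 + M + N) ^ 2‖ with h | h
  · have h3 : ‖d * w ^ 2 - (d * s ^ 2 + M + N) ^ 2‖ < ‖(d * s ^ 2 + M + N) ^ 2‖ := by
      rwa [e', sub_sub_cancel_left, norm_neg, h4]
    exact sq_of (w := w * (d * s ^ 2 + M + N)) (by ring) (mul_ne_zero (ne_of_gt' (norm_nonneg _)
      (h.trans_eq (norm_near h3).symm)) (ne_of_gt' (norm_nonneg _) h)) (near h2 h3)
  have h3 : ‖d * s ^ 2 - -M‖ < ‖-M‖ := by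
    rw [norm_neg, hM, show d * s ^ 2 - -M = d * s ^ 2 + M + N + -N by ring]
    refine (Padic.nonarchimedean _ _).trans_lt (max_lt ?_ ((norm_neg N).trans_lt hN))
    exact lt_of_pow_lt_pow_left₀ 2 zero_le_one (by rw [← norm_pow, one_pow]; exact h.trans_lt hN)
  have h5 : ‖d * s ^ 2‖ = 1 := by rw [norm_near h3, norm_neg, hM]
  rcases h1 with ⟨z, hz⟩ | h1
  · refine sq_of (w := s * z) (by rw [hz]; ring) ?_ (near h2 h3)
    rw [← norm_ne_zero_iff, norm_mul, h5, norm_neg, hM]; norm_num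
  · refine absurd ?_ h1
    rcases h.eq_or_lt with h | h
    · exact (ev_norm h0 h).1 (ev_sq _)
    · exact (ev_of h0 (by rw [e', norm_sub_of_lt (h.trans_eq h4.symm), h4])).1 (ev_one h5)

end nec

lemma norm_unit {u : ℤ} (h : ¬(p : ℤ) ∣ u) : ‖(u : ℚ_[p])‖ = 1 :=
  (Padic.norm_int_le_one u).antisymm (not_lt.1 (Padic.norm_intCast_lt_one_iff.not.2 h))

lemma unit_of_jac {u : ℤ} (h : J(u | p) ≠ 0) : ¬(p : ℤ) ∣ u := fun h1 =>
  h (by rw [← zero_add u, jac_add_dvd h1, jacobiSym.zero_left hp.out.one_lt])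

lemma sq_of_jac (h2 : p ≠ 2) {u : ℤ} (h : J(u | p) = 1) : IsSquare (u : ℚ_[p]) := by
  have h0 := unit_of_jac (h ▸ one_ne_zero)
  obtain ⟨z, hz⟩ := ZMod.isSquare_of_jacobiSym_eq_one h
  obtain ⟨k, rfl⟩ := ZMod.intCast_surjective z
  have h1 : ‖((k * k : ℤ) : ℚ_[p]) - u‖ < ‖(u : ℚ_[p])‖ := by
    rw [norm_unit h0, ← Int.cast_sub, Padic.norm_intCast_lt_one_iff,
      ← ZMod.intCast_eq_intCast_iff_dvd_sub, hz, Int.cast_mul]
  refine sq_of (w := k) (by push_cast; ring) ?_ (near h2 h1)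
  rw [← norm_ne_zero_iff, norm_mul, norm_near h1, norm_unit h0]; norm_num

lemma not_sq_of_jac {u : ℤ} (h : J(u | p) = -1) : ¬IsSquare (u : ℚ_[p]) := by
  rintro ⟨y, hy⟩
  have h1 : ‖y‖ ≤ 1 := by
    have := Padic.norm_int_le_one (p := p) u
    rw [hy, norm_mul] at this
    nlinarith [norm_nonneg y]
  obtain ⟨t, rfl⟩ : ∃ t : ℤ_[p], (t : ℚ_[p]) = y := ⟨⟨y, h1⟩, rfl⟩
  have h3 : (u : ℤ_[p]) = t * t := Subtype.ext (by simpa using hy)
  exact ZMod.nonsquare_of_jacobiSym_eq_neg_one h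
    ⟨PadicInt.toZMod t, by rw [← map_mul, ← h3, map_intCast]⟩

lemma ev_int {d : ℤ} : ev (d : ℚ_[p]) ↔ qV p d = 0 := by
  rw [ev, Padic.valuation_intCast, qV_eq_zero, Int.even_coe_nat]

lemma even_form {d : ℤ} (h : qV p d = 0) : ∃ w : ℚ_[p], (d : ℚ_[p]) = upart p d * w ^ 2 := by
  obtain ⟨k, hk⟩ := qV_eq_zero.1 h
  have := pow_mul_upart (p := p) d
  rw [hk] at this
  exact ⟨p ^ k, by conv_lhs => rw [← this]
                   push_cast; ring⟩

lemma sq_iff (h2 : p ≠ 2) {d : ℤ} (hd : d ≠ 0) :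
    IsSquare (d : ℚ_[p]) ↔ qV p d = 0 ∧ qL p d = 0 := by
  rw [← and_iff_right_of_imp (fun h => ev_int.1 (ev_of_sq h)), and_congr_right_iff]
  intro h
  obtain ⟨w, hw⟩ := even_form h
  rcases lg_cases (p := p) hd with h1 | h1
  · exact iff_of_true (hw ▸ (sq_of_jac h2 h1).mul (IsSquare.sq w)) (by simp [qL, h1])
  · exact iff_of_false (fun h3 => not_sq_of_jac h1 (sq_of hw (by exact_mod_cast hd) h3))
      (by simp [qL, h1])

/-- Solubility of the first torsor. -/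
abbrev S1 (F : Type) [Field F] [Algebra ℚ F] (M N : ℤ) (d : F) : Prop :=
  Sol F (aa true M N) (bb true M N) d

/-- Solubility of the second torsor. -/
abbrev S2 (F : Type) [Field F] [Algebra ℚ F] (M N : ℤ) (d : F) : Prop :=
  Sol F (-2 * aa true M N) (aa true M N ^ 2 - 4 * bb true M N) d

section

variable {F : Type} [Field F] [CharZero F] {M N : ℤ} {d : F}

lemma S1_iff : S1 F M N d ↔
    IsSquare d ∨ ∃ s w, (d * s ^ 2 - M) * (d * s ^ 2 - N) = d * w ^ 2 := by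
  refine or_congr_right (exists₂_congr fun s w => Eq.congr_left ?_)
  simp [aa, bb]; ring

lemma S2_iff : S2 F M N d ↔ IsSquare d ∨
    ∃ s w, (d * s ^ 2) ^ 2 + 2 * (M + N) * (d * s ^ 2) + (M - N) ^ 2 = d * w ^ 2 := by
  refine or_congr_right (exists₂_congr fun s w => Eq.congr_left ?_)
  simp [aa, bb]; ring

lemma S1.symm (h : S1 F M N d) : S1 F N M d := by
  rw [S1_iff] at h ⊢
  exact h.imp_right fun ⟨s, w, h⟩ => ⟨s, w, by rw [← h]; ring⟩

lemma S2.symm (h : S2 F M N d) : S2 F N M d := by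
  rw [S2_iff] at h ⊢
  exact h.imp_right fun ⟨s, w, h⟩ => ⟨s, w, by rw [← h]; ring⟩

lemma S1_of {x : F} (hd : d ≠ 0) (h1 : IsSquare (x * d)) (h3 : IsSquare ((x - M) * (x - N) * d)) :
    S1 F M N d := by
  obtain ⟨s, hs⟩ := h1
  obtain ⟨w, hw⟩ := h3
  refine S1_iff.2 (Or.inr ⟨s / d, w / d, ?_⟩)
  rw [show d * (s / d) ^ 2 = x by field_simp; linear_combination -hs]
  field_simp
  linear_combination hw

end

variable (h2 : p ≠ 2) {M N d : ℤ}
include h2

lemma suf_even (hd : d ≠ 0) (h : qV p d = 0)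
    (H : ∀ u : ℤ, J(u | p) = -1 → S1 ℚ_[p] M N u) : S1 ℚ_[p] M N d := by
  rcases lg_cases (p := p) hd with h1 | h1
  · exact Or.inl ((sq_iff h2 hd).2 ⟨h, by simp [qL, h1]⟩)
  · obtain ⟨w, hw⟩ := even_form h
    have h3 : (d : ℚ_[p]) ≠ 0 := by exact_mod_cast hd
    exact Sol.congr (left_ne_zero_of_mul (hw ▸ h3)) h3 (H _ h1) ⟨upart p d * w, by rw [hw]; ring⟩

lemma suf_root {u : ℤ} (hu : J(u | p) = -1) (hM : J(M | p) = -1) : S1 ℚ_[p] M N u :=
  S1_of (x := M) (by rw [← norm_ne_zero_iff, norm_unit (unit_of_jac (by simp [hu]))]; norm_num)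
    (by exact_mod_cast sq_of_jac h2 (by simp [jacobiSym.mul_left, hu, hM])) (by simp)

lemma suf_unit (h : ¬(p : ℤ) ∣ M - N) {u : ℤ} (hu : J(u | p) = -1) : S1 ℚ_[p] M N u := by
  by_cases hM : J(M | p) = -1
  · exact suf_root h2 hu hM
  by_cases hN : J(N | p) = -1
  · exact (suf_root h2 hu hN).symm
  by_cases H : ∃ x : ℤ, J(x | p) = -1 ∧ J((x - M) * (x - N) | p) = -1
  · obtain ⟨x, h3, h4⟩ := H
    exact S1_of (x := x)
      (by rw [← norm_ne_zero_iff, norm_unit (unit_of_jac (by simp [hu]))]; norm_num)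
      (by exact_mod_cast sq_of_jac h2 (by simp [jacobiSym.mul_left, hu, h3]))
      (by exact_mod_cast sq_of_jac h2 (by rw [jacobiSym.mul_left, hu, h4]; norm_num))
  exfalso
  simp only [ZMod.nonsquare_iff_jacobiSym_eq_neg_one, not_not] at hu hM hN H
  push Not at H
  have h3 : ∀ x : ZMod p, ¬IsSquare x → x - N ≠ 0 := fun x hx h => hx (sub_eq_zero.1 h ▸ hN)
  have h0 : (u : ZMod p) ≠ 0 := fun h => hu (h ▸ IsSquare.zero)
  have h5 : (M : ZMod p) - N ≠ 0 := by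
    rwa [← Int.cast_sub, Ne, ZMod.intCast_zmod_eq_zero_iff_dvd]
  let g : {x : ZMod p // ¬IsSquare x} → {x : ZMod p // ¬IsSquare x} := fun x =>
    ⟨u * ((x - M) / (x - N)), fun h6 => by
      obtain ⟨x, hx⟩ := x
      have h7 : x - M ≠ 0 := fun h => hx (sub_eq_zero.1 h ▸ hM)
      have h8 := h3 x hx
      obtain ⟨k, rfl⟩ := ZMod.intCast_surjective x
      have h9 := H k hx
      push_cast at h9
      exact hu (sq_of (w := k - M) (by field_simp) (by positivity) (h6.mul h9))⟩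
  obtain ⟨x, hx⟩ := Finite.surjective_of_injective (f := g) (fun x y e => Subtype.ext (by
    have e1 := mul_left_cancel₀ h0 (congrArg Subtype.val e)
    rw [div_eq_div_iff (h3 _ x.2) (h3 _ y.2)] at e1
    exact mul_left_cancel₀ h5 (by linear_combination e1))) ⟨u, hu⟩
  have e1 : (u : ZMod p) * _ = u := congrArg Subtype.val hx
  rw [mul_right_eq_self₀, or_iff_left h0, div_eq_one_iff_eq (h3 _ x.2)] at e1
  exact h5 (by linear_combination -e1)

lemma suf_all (hn : Nd (aa true M N) (bb true M N)) (hN : (p : ℤ) ∣ N) (h0 : N ≠ 0)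
    (hM : J(-M | p) = 1 ∨ J(-M | p) = -1 ∧ Odd (padicValInt p N)) (hd : d ≠ 0) :
    S1 ℚ_[p] M N d := by
  have h3 : ¬(p : ℤ) ∣ -M := unit_of_jac (by rcases hM with h | h <;> simp [h])
  have h4 : ∀ d : ℤ, d ≠ 0 → qV p d = 0 → S1 ℚ_[p] M N d := fun d hd h => suf_even h2 hd h
    fun u hu => suf_unit h2 (fun h => h3 (by simpa using dvd_add h hN)) hu
  have h5 : ∃ c : ℤ, c ≠ 0 ∧ qV p c = 1 ∧ S1 ℚ_[p] M N c := by
    by_cases h : Odd (padicValInt p N)
    · exact ⟨N, h0, ZMod.natCast_eq_one_iff_odd.2 h, S1_of (x := N) (by exact_mod_cast h0)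
        ⟨_, rfl⟩ (by simp)⟩
    have h6 : (p : ℚ_[p]) ≠ 0 := by exact_mod_cast hp.out.ne_zero
    refine ⟨p, by exact_mod_cast hp.out.ne_zero, by simp [qV], S1_of (x := p)
      (by exact_mod_cast h6) ⟨_, rfl⟩ ?_⟩
    have h7 : ‖(p : ℚ_[p]) - M - (-M : ℤ)‖ < ‖((-M : ℤ) : ℚ_[p])‖ := by
      rw [norm_unit h3]; simpa using Padic.norm_p_lt_one (p := p)
    have h8 : ‖(p : ℚ_[p]) - N - p‖ < ‖(p : ℚ_[p])‖ := by
      have h9 : 1 ≤ padicValInt p N := ((padicValInt_dvd_iff 1 N).1 (by simpa)).resolve_left h0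
      rw [Nat.odd_iff] at h
      rw [sub_sub_cancel_left, norm_neg, Padic.norm_p]
      refine ((Padic.norm_int_le_pow_iff_dvd N 2).2
        ((padicValInt_dvd_iff 2 N).2 (Or.inr (by omega)))).trans_lt ?_
      rw [← zpow_neg_one]
      exact zpow_lt_zpow_right₀ (by exact_mod_cast hp.out.one_lt) (by norm_num)
    obtain ⟨z, hz⟩ := sq_of_jac h2 (hM.resolve_right fun h' => h h'.2)
    refine sq_of (w := z) (by rw [hz]; push_cast; ring) (mul_ne_zero ?_ (mul_ne_zero ?_ h6))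
      ((near h2 h7).mul (near h2 h8))
    · rw [← norm_ne_zero_iff, norm_mul, norm_near h7, norm_unit h3]; norm_num
    · rwa [← norm_ne_zero_iff, norm_near h8, norm_ne_zero_iff]
  by_cases h : qV p d = 0
  · exact h4 d hd h
  obtain ⟨c, h6, h7, h8⟩ := h5
  have h9 := h4 _ (mul_ne_zero hd h6) (by
    rw [isQF_qV hp.out _ _ hd h6, h7]; revert h; generalize qV p d = z; revert z; decide)
  exact Sol.congr (by exact_mod_cast mul_ne_zero (mul_ne_zero hd h6) h6) (by exact_mod_cast hd)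
    (Sol.mul hn (by exact_mod_cast mul_ne_zero hd h6) (by exact_mod_cast h6) h9 h8)
    ⟨d * c, by push_cast; ring⟩

/-- States where the first torsor is always soluble. -/
def isP (s : St) : Prop := s.ty = some 1 ∨ s.ty = some 2

/-- States where the first torsor is soluble only for squares. -/
def isQ (s : St) : Prop := s = some (some (0, false))

omit h2 hp in
lemma dsc_eq : dsc ![0, M, N] = -(M * N * (M - N)) := by simp [dsc]; ring

omit h2 hp in
lemma nd_of (he : dsc ![0, M, N] ≠ 0) : Nd (aa true M N) (bb true M N) :=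
  bb_ne (by rw [dsc_eq, neg_ne_zero] at he; exact_mod_cast he)

lemma loc_one (hn : Nd (aa true M N) (bb true M N)) (hN : (p : ℤ) ∣ N) (h0 : N ≠ 0)
    (hd : d ≠ 0) : (J(-M | p) = -1 → Even (padicValInt p N) →
      (S1 ℚ_[p] M N d ↔ qV p d = 0) ∧ (S2 ℚ_[p] M N d → qV p d = 0)) ∧
    ((J(-M | p) = 1 ∨ J(-M | p) = -1 ∧ Odd (padicValInt p N)) →
      S1 ℚ_[p] M N d ∧ (S2 ℚ_[p] M N d → qV p d = 0 ∧ qL p d = 0)) := by
  refine ⟨fun h3 h4 => ?_, fun h3 => ⟨suf_all h2 hn hN h0 h3 hd, fun h => ?_⟩⟩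
  · have h5 : ¬(p : ℤ) ∣ M := by simpa using unit_of_jac (u := -M) (p := p) (by simp [h3])
    have h6 : ¬(p : ℤ) ∣ M - N := fun h => h5 (by simpa using dvd_add h hN)
    refine ⟨⟨fun h => ev_int.1 ?_, fun h => suf_even h2 hd h fun u => suf_unit h2 h6⟩,
      fun h => ev_int.1 ?_⟩
    · rcases S1_iff.1 h with h | ⟨s, w, h⟩
      · exact ev_of_sq h
      · exact nec1 h2 h (norm_unit h5) (Padic.norm_int_le_one N) (by exact_mod_cast h0)
          (ev_int.2 (qV_eq_zero.2 h4)) fun _ => by exact_mod_cast not_sq_of_jac h3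
    · rcases S2_iff.1 h with h | ⟨s, w, h⟩
      · exact ev_of_sq h
      · exact nec3 h (by exact_mod_cast Padic.norm_int_le_one _) (by exact_mod_cast norm_unit h6)
  · have h5 : ¬(p : ℤ) ∣ M := by
      simpa using unit_of_jac (u := -M) (p := p) (by rcases h3 with h | h <;> simp [h])
    refine (sq_iff h2 hd).1 ((S2_iff.1 h).elim id fun ⟨s, w, h⟩ => nec5 h2 h (norm_unit h5)
      (Padic.norm_intCast_lt_one_iff.2 hN) (by exact_mod_cast h0) (h3.imp ?_ ?_))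
    · exact fun h => by exact_mod_cast sq_of_jac h2 h
    · exact fun h => by rw [ev_int, qV_eq_zero, Nat.not_even_iff_odd]; exact h.2

theorem loc (he : dsc ![0, M, N] ≠ 0) {s : St} (hv : Valid ![0, M, N] p s)
    (hs : (p : ℤ) ∣ dsc ![0, M, N] → s ≠ none) (hd : d ≠ 0) :
    (S1 ℚ_[p] M N d ↔ (¬isP s → qV p d = 0) ∧ (isQ s → qL p d = 0)) ∧
      (S2 ℚ_[p] M N d → (¬isQ s → qV p d = 0) ∧ (isP s → qL p d = 0)) := by
  have hn := nd_of he
  have hn' : Nd (aa true N M) (bb true N M) := nd_of (by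
    rw [dsc_eq] at he ⊢; exact fun h => he (by linear_combination -h))
  rw [dsc_eq, neg_ne_zero] at he
  have hM := left_ne_zero_of_mul (left_ne_zero_of_mul he)
  have hN := right_ne_zero_of_mul (left_ne_zero_of_mul he)
  have key : (p : ℤ) ∣ M - N → J(M | p) = -1 →
      (S1 ℚ_[p] M N d ↔ qV p d = 0) ∧ (S2 ℚ_[p] M N d → qV p d = 0) := fun h3 h4 => by
    have h5 : ¬(p : ℤ) ∣ M := unit_of_jac (by simp [h4])
    have h6 : ¬(p : ℤ) ∣ N := fun h => h5 (by simpa using dvd_add h3 h)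
    refine ⟨⟨fun h => ev_int.1 ?_, fun h => suf_even h2 hd h fun u hu => suf_root h2 hu h4⟩,
      fun h => ev_int.1 ?_⟩
    · exact (S1_iff.1 h).elim ev_of_sq fun ⟨s, w, h⟩ => nec1 h2 h (norm_unit h5) (norm_unit h6).le
        (by exact_mod_cast hN) (ev_one (w := 1) (by simp [norm_unit h6]))
        fun h => absurd h (norm_unit h6).not_lt
    · exact (S2_iff.1 h).elim ev_of_sq fun ⟨s, w, h⟩ => nec4 h2 h (norm_unit h5)
        (by exact_mod_cast right_ne_zero_of_mul he) (not_sq_of_jac h4)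
  have j1 : (p : ℤ) ∣ N → J(N - M | p) = J(-M | p) := fun h => by
    rw [sub_eq_neg_add, jac_add_dvd h]
  have v2 : padicValInt p (0 - M) = padicValInt p M := by simp [padicValInt]
  have s1 : S1 ℚ_[p] N M d ↔ S1 ℚ_[p] M N d := ⟨S1.symm, S1.symm⟩
  have s2 : S2 ℚ_[p] N M d ↔ S2 ℚ_[p] M N d := ⟨S2.symm, S2.symm⟩
  have l1 := fun h => loc_one h2 hn h hN hd
  have l2 := fun h => loc_one h2 hn' h hM hd
  rw [s1, s2] at l2
  rcases s with _ | _ | ⟨i, b⟩
  · have h3 : ¬(p : ℤ) ∣ M * N * (M - N) := fun h => hs (by rwa [dsc_eq, dvd_neg]) rfl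
    have h4 : ¬(p : ℤ) ∣ M := fun h => h3 ((h.mul_right _).mul_right _)
    have h5 : ¬(p : ℤ) ∣ N := fun h => h3 ((h.mul_left _).mul_right _)
    have h6 : ¬(p : ℤ) ∣ M - N := fun h => h3 (h.mul_left _)
    simp only [isP, isQ, St.ty, reduceCtorEq, or_self, not_false_eq_true, forall_const,
      IsEmpty.forall_iff, and_true]
    refine ⟨⟨fun h => ev_int.1 ?_, fun h => suf_even h2 hd h fun u => suf_unit h2 h6⟩,
      fun h => ev_int.1 ?_⟩
    · exact (S1_iff.1 h).elim ev_of_sq fun ⟨s, w, h⟩ => nec1 h2 h (norm_unit h4) (norm_unit h5).le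
        (by exact_mod_cast hN) (ev_one (w := 1) (by simp [norm_unit h5]))
        fun h => absurd h (norm_unit h5).not_lt
    · exact (S2_iff.1 h).elim ev_of_sq fun ⟨s, w, h⟩ => nec3 h
        (by exact_mod_cast Padic.norm_int_le_one _) (by exact_mod_cast norm_unit h6)
  · obtain ⟨i, h3, h4, h5⟩ := hv
    have : (S1 ℚ_[p] M N d ↔ qV p d = 0) ∧ (S2 ℚ_[p] M N d → qV p d = 0) := by
      fin_cases i
      · exact key h3 (by simpa using h4)
      · have h6 : (p : ℤ) ∣ N := by simpa using h3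
        exact (l1 h6).1 (j1 h6 ▸ h4) (by simpa using h5)
      · exact (l2 (by simpa using h3)).1 (by simpa using h4) (v2 ▸ h5)
    simpa [isP, isQ, St.ty] using this
  · fin_cases i
    · cases b
      · have h3 : J(M | p) = 1 := by simpa using hv.2
        have : S1 ℚ_[p] M N d ↔ qV p d = 0 ∧ qL p d = 0 := by
          rw [← sq_iff h2 hd]
          exact ⟨fun h => (S1_iff.1 h).elim id fun ⟨s, w, h⟩ => nec2 h2 h
            (norm_unit (unit_of_jac (by simp [h3])))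
            (by exact_mod_cast Padic.norm_intCast_lt_one_iff.2 hv.1) (sq_of_jac h2 h3), Or.inl⟩
        simpa [isP, isQ, St.ty] using this
      · simpa [isP, isQ, St.ty] using key hv.1 (by simpa using hv.2.1)
    · have h6 : (p : ℤ) ∣ N := by cases b <;> simpa using hv.1
      simpa [isP, isQ, St.ty] using (l1 h6).2 (by
        cases b
        exacts [Or.inl (j1 h6 ▸ hv.2), Or.inr ⟨j1 h6 ▸ hv.2.1, by simpa using hv.2.2⟩])
    · have h6 : (p : ℤ) ∣ M := by cases b <;> simpa using hv.1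
      simpa [isP, isQ, St.ty] using (l2 h6).2 (by
        cases b
        exacts [Or.inl (by simpa using hv.2), Or.inr ⟨by simpa using hv.2.1, v2 ▸ hv.2.2⟩])

end Pool.Agent.Lib.MP_a3f657_nt
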