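import Pool.Agent.Lib.MP_a3f657_nt.C2All

/-!
Lower densities of the curves whose 2-Selmer group has order one or two.
-/

namespace Pool.Agent.Lib.MP_a3f657_nt.SelmerSmallOld

open Pool.Agent.Lib.MP_a3f657_nt.Two Filter

theorem result (k : Type) [Field k] [Fintype k] [CharP k 2] (r : ℕ) (hr : r ≤ 1) (ε : ℝ)
    (hε : 0 < ε) : ∀ᶠ d : ℕ in atTop,
      (4 * 2 ^ r - 3) / (6 * 2 ^ r) - ε ≤ dens (k := k) (fun W => selOrder W = 2 ^ r) d := by
  interval_cases r
  · refine (trivial_ge (k := k) cellRed cellAn' ε hε).mono fun d hd => ?_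
    norm_num at hd ⊢
    exact hd
  · refine (two_ge (k := k) cellRed cellAn' ε hε).mono fun d hd => ?_
    norm_num at hd ⊢
    exact hd

end Pool.Agent.Lib.MP_a3f657_nt.SelmerSmallOld
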