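import Pool.Agent.Lib.MP_a3f657_nt.Counting
import Pool.Agent.Lib.MP_788af2_nt.Transfer
import Pool.Agent.Lib.MP_788af2_nt.Count

/-!
The size of the 2-torsion of the Tate-Shafarevich group over a box of parameters.
-/

namespace Pool.Agent.Lib.MP_a3f657_nt

open Pool.Agent.Lib.MP_788af2_nt Finset Real

variable {p₀ : ℕ} {K c₀ : ℝ} {e : ℤ → ℤ → Fin 3 → ℤ} {st : ℕ → ℤ → ℤ → St}
  {bad : ℕ → ℤ → ℤ → Prop} {μ : Option (Fin 3 × Bool) → ℝ}

open Classical in
theorem transfer (H : Fam p₀ K c₀ e st bad μ) (k : ℕ) {ρ : ℕ → ℤ → ℤ → ℝ}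
    (hρ : ∀ (m n : ℤ) (x w : ℝ) (j y : ℕ), 0 < x → ⌊exp x⌋₊ ≤ y → |(dsc (e m n) : ℝ)| ≤ exp w →
      0 ≤ w → ρ y m n ≤ 5 + 4 * p₀ + 4 * (w / x) + 7 * j +
        4 * (∑ p ∈ PP p₀ y, if bad p m n then 1 else 0) +
        14 * (MM Subtype.val (fun p : PP p₀ ⌊exp x⌋₊ => st p m n) / 2 ^ j)) :
    ∃ C : ℝ, 0 ≤ C ∧ ∀ X, exp (560 * K * 2) ≤ X → ∀ (a b : ℤ) (A B : ℕ), X ≤ A → X ≤ B →
      (∀ i < A, ∀ j < B, |(dsc (e (a + i) (b + j)) : ℝ)| ≤ X ^ k) →
      box a b A B (ρ ⌊exp (log X / (560 * K) / 2 ^ 0)⌋₊) ≤ C * A * B := by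
  obtain ⟨C, hC0, hC⟩ := H.level
  have hK := H.one_le
  set c := 4 * k * (560 * K) + 7 with hc
  refine ⟨5 + 4 * p₀ + c * (1 + 428 * K ^ 2) + 24 * K + 28 * (C + 32),
    by positivity, fun X hX a b A B hA hB hd => ?_⟩
  have hX0 : 0 < X := (exp_pos _).trans_le hX
  set l := log X with hl
  have hl1 : 560 * K * 2 ≤ l := (le_log_iff_exp_le hX0).2 hX
  have hl0 : 0 < l := by linarith
  have hXl : exp l = X := exp_log hX0
  set x : ℕ → ℝ := fun j => l / (560 * K) / 2 ^ j with hx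
  have hx0 : ∀ j, 0 < x j := fun j => by simp only [hx]; positivity
  have hx1 : ∀ j, x j ≤ l / (560 * K) := fun j => div_le_self (by positivity) (one_le_pow₀ one_le_two)
  set y : ℕ → ℕ := fun j => ⌊exp (x j)⌋₊ with hy
  have hy1 : ∀ j, (y j : ℝ) ≤ exp (x j) := fun j => Nat.floor_le (exp_pos _).le
  have hy2 : ∀ j, log (y j) ≤ x j := fun j => by
    rw [log_le_iff_le_exp]
    · exact hy1 j
    · exact_mod_cast Nat.floor_pos.2 (one_le_exp (hx0 j).le)
  have hy3 : ∀ j, (y j : ℝ) ^ 4 ≤ X := fun j => by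
    calc (y j : ℝ) ^ 4 ≤ exp (x j) ^ 4 := by gcongr; exact hy1 j
      _ ≤ exp l := by
          rw [← exp_nat_mul, exp_le_exp]
          refine (mul_le_mul_of_nonneg_left (hx1 j) (by positivity)).trans ?_
          rw [← mul_div_assoc, div_le_iff₀ (by positivity)]
          push_cast; nlinarith
      _ = X := hXl
  set Z := exp (l / 10) with hZ
  have hZ1 : 1 ≤ Z := one_le_exp (by positivity)
  have hZ2 : Z ^ 10 = X := by rw [hZ, ← exp_nat_mul, ← hXl]; congr 1; push_cast; ring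
  set R := ⌈l⌉₊ with hR
  let σ : ∀ j, ℤ → ℤ → PP p₀ (y j) → St := fun j m n p => st p m n
  have hRP : ∀ m n, (DP Subtype.val (σ R m n) : ℝ) ≤ Z := by
    intro m n
    have h1 : x R ≤ 1 := by
      have h2 : l ≤ 2 ^ R := (Nat.le_ceil l).trans (by exact_mod_cast Nat.lt_two_pow_self.le)
      rw [hx, div_le_one (by positivity)]
      exact (div_le_self hl0.le (by linarith)).trans h2
    have h2 : (y R : ℝ) ≤ p₀ := by
      linarith [hy1 R, exp_le_exp.2 h1, exp_one_lt_d9, H.big]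
    have h3 : IsEmpty (PP p₀ (y R)) := ⟨fun p => by
      have := (mem_PP.1 p.2).2
      have h4 : y R ≤ p₀ := by exact_mod_cast h2
      omega⟩
    simpa [DP, pp] using hZ1
  let nb : ℤ → ℤ → ℝ := fun m n => ∑ p ∈ PP p₀ (y 0), if bad p m n then 1 else 0
  let u : ℕ → ℤ → ℤ → ℝ := fun j m n => if (DP Subtype.val (σ j m n) : ℝ) ≤ Z then 0 else 1
  let v : ℕ → ℤ → ℤ → ℝ := fun j m n =>
    if (DP Subtype.val (σ j m n) : ℝ) ≤ Z then MM Subtype.val (σ j m n) else 0
  have hpt : box a b A B (ρ (y 0)) ≤ box a b A B (fun m n => (5 + 4 * p₀ + c) +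
      (c * ∑ j ∈ range R, 2 ^ j * u j m n + (4 * nb m n +
        14 * ∑ j ∈ range (R + 1), (1 / 2) ^ j * v j m n))) := by
    refine box_mono fun i hi j hj => ?_
    have h1 := hd i hi j hj
    generalize a + i = m at h1 ⊢
    generalize b + j = n at h1 ⊢
    have hex : ∃ r, (DP Subtype.val (σ r m n) : ℝ) ≤ Z := ⟨R, hRP m n⟩
    set r := Nat.find hex
    have hrR : r ≤ R := Nat.find_min' hex (hRP m n)
    have h2 := two_pow_le_sum (fun r => (DP Subtype.val (σ r m n) : ℝ) ≤ Z) hrR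
      fun j hj => Nat.find_min hex hj
    rw [← hXl, ← exp_nat_mul] at h1
    have h3 := hρ m n _ _ r (y 0) (hx0 r) (Nat.floor_mono (exp_le_exp.2 (by
      simpa [hx] using hx1 r))) h1 (by positivity)
    have h4 : k * l / x r = k * (560 * K) * 2 ^ r := by simp only [hx]; field_simp
    have h5 : (r : ℝ) ≤ 2 ^ r := by exact_mod_cast Nat.lt_two_pow_self.le
    have h7 : MM Subtype.val (σ r m n) / 2 ^ r ≤
        ∑ j ∈ range (R + 1), (1 / 2) ^ j * v j m n := by
      refine le_trans (le_of_eq ?_) (single_le_sum (f := fun j => (1 / 2) ^ j * v j m n)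
        (fun j _ => ?_) (mem_range.2 (Nat.lt_succ_of_le hrR)))
      · have h9 : (DP Subtype.val (σ r m n) : ℝ) ≤ Z := Nat.find_spec hex
        simp only [v, if_pos h9]
        rw [one_div, inv_pow]; ring
      · have := (MM_terms Subtype.val (σ j m n)).1
        simp only [v]; split_ifs <;> positivity
    have h8 := mul_le_mul_of_nonneg_left h2 (by positivity : 0 ≤ c)
    rw [h4] at h3
    simp only [u, nb]
    nlinarith
  refine hpt.trans ?_
  simp only [box_add, box_mul, box_sum, box_const]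
  have hAB : X * (A + B) ≤ 2 * A * B := by
    have e1 := mul_le_mul_of_nonneg_right hA (Nat.cast_nonneg (α := ℝ) B)
    have e2 := mul_le_mul_of_nonneg_right hB (Nat.cast_nonneg (α := ℝ) A)
    linarith
  have b1 : ∀ j, 2 ^ j * box a b A B (u j) ≤ 214 * K ^ 2 * A * B * (1 / 2) ^ j := by
    intro j
    have h1 := H.second (y j) a b A B ((hy3 j).trans hA) ((hy3 j).trans hB)
    have h2 : box a b A B (fun m n => (l / 10) ^ 2 * u j m n) ≤
        box a b A B (fun m n => log (DP Subtype.val (σ j m n)) ^ 2) := by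
      refine box_mono fun _ _ _ _ => ?_
      simp only [u]
      split_ifs with h
      · rw [mul_zero]; positivity
      · rw [mul_one]
        gcongr
        rw [le_log_iff_exp_le ((exp_pos _).trans (not_le.1 h))]
        exact (not_le.1 h).le
    rw [box_mul] at h2
    have h3 : log (y j) ≤ l / 10 / 2 ^ j := by
      refine (hy2 j).trans ?_
      simp only [hx]; gcongr; linarith
    have h4 := log_natCast_nonneg (y j)
    have h5 : (l / 10) ^ 2 * box a b A B (u j) ≤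
        (l / 10) ^ 2 * (214 * K ^ 2 * A * B / (2 ^ j) ^ 2) := by
      calc _ ≤ 214 * K ^ 2 * (l / 10 / 2 ^ j) ^ 2 * A * B := h2.trans (h1.trans (by gcongr))
        _ = _ := by ring
    have h6 := le_of_mul_le_mul_left h5 (by positivity)
    calc _ ≤ 2 ^ j * (214 * K ^ 2 * A * B / (2 ^ j) ^ 2) := by gcongr
      _ = _ := by rw [one_div, inv_pow]; field_simp
  have b2 : ∀ j, (1 / 2) ^ j * box a b A B (v j) ≤ (C + 32) * A * B * (1 / 2) ^ j := by
    intro j
    have h1 := hC (y j) Z hZ1 (by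
      rw [hZ, log_exp]
      have h2 := (hy2 j).trans (hx1 j)
      rw [le_div_iff₀ (by positivity)] at h2
      have h3 : log 4 ≤ 2 := by
        rw [show (4 : ℝ) = 2 ^ 2 by norm_num, log_pow]; push_cast; linarith [log_two_lt_d9]
      nlinarith) a b A B
    rw [hZ2] at h1
    rw [mul_comm]
    refine mul_le_mul_of_nonneg_right (h1.trans ?_) (by positivity)
    nlinarith
  have b3 := H.bad_sum (y 0) a b A B ((hy3 0).trans hA) ((hy3 0).trans hB)
  have b4 := sum_le_sum (s := range R) fun j _ => b1 j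
  have b5 := sum_le_sum (s := range (R + 1)) fun j _ => b2 j
  rw [← mul_sum] at b4 b5
  have b6 := b4.trans (mul_le_mul_of_nonneg_left (sum_geometric_two_le R) (by positivity))
  have b7 := b5.trans (mul_le_mul_of_nonneg_left (sum_geometric_two_le (R + 1)) (by positivity))
  have b8 := mul_le_mul_of_nonneg_left b6 (by positivity : 0 ≤ c)
  have b9 : box a b A B nb ≤ 6 * K * A * B := b3
  nlinarith

lemma mertens {x : ℝ} (hx : 2 ≤ x) : |LL ⌊exp x⌋₊ - log x| ≤ 11 := by
  set y := ⌊exp x⌋₊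
  have h1 : (y : ℝ) ≤ exp x := Nat.floor_le (exp_pos _).le
  have h2 : (0 : ℝ) < y := by exact_mod_cast Nat.floor_pos.2 (one_le_exp (by linarith))
  have h3 : log y ≤ x := (log_le_iff_le_exp h2).2 h1
  have h4 : x ≤ 2 * exp (LL y) := le_trans ((le_log_iff_exp_le (by linarith)).2
    (Nat.lt_floor_add_one _).le) (log_le_exp_LL y)
  have h5 := log_le_log (by linarith) h4
  rw [log_mul two_ne_zero (exp_pos _).ne', log_exp] at h5
  have h6 : log ((4 * y) ^ 2 : ℕ) = 2 * (log y + log 4) := by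
    push_cast; rw [log_pow, log_mul four_ne_zero h2.ne']; push_cast; ring
  have h7 := prod_le_two_mul_small (Nat.primesLE y) (fun p => p)
    (fun p hp => (Nat.mem_primesLE.1 hp).2.pos) (fun p => (p : ℝ)⁻¹) (fun _ _ => by positivity)
    ((4 * y) ^ 2 : ℕ) (by push_cast; positivity) (by
      have := sum_log_div_le y
      simp only [h6, inv_mul_eq_div]; linarith)
  have h8 : ∑ S ∈ (Nat.primesLE y).powerset with ((∏ p ∈ S, p : ℕ) : ℝ) ≤ ((4 * y) ^ 2 : ℕ),
      ∏ p ∈ S, (p : ℝ)⁻¹ ≤ ∑ n ∈ Ioc 0 ((4 * y) ^ 2), ((n : ℕ) : ℝ)⁻¹ := by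
    have h9 : ∀ S ∈ (Nat.primesLE y).powerset, ∀ p ∈ S, p.Prime := fun S hS p hp =>
      (Nat.mem_primesLE.1 (mem_powerset.1 hS hp)).2
    rw [sum_congr rfl fun S _ => show _ = (((∏ p ∈ S, p : ℕ) : ℝ))⁻¹ by simp]
    refine (sum_image (g := fun S => ∏ p ∈ S, p) (f := fun n : ℕ => (n : ℝ)⁻¹)
      fun S hS T hT h => ?_).symm.trans_le
      (sum_le_sum_of_subset_of_nonneg (fun n hn => ?_) fun _ _ _ => by positivity)
    · rw [← Nat.primeFactors_prod (h9 S (mem_filter.1 hS).1),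
        ← Nat.primeFactors_prod (h9 T (mem_filter.1 hT).1)]
      exact congrArg _ h
    · obtain ⟨S, hS, rfl⟩ := mem_image.1 hn
      exact mem_Ioc.2 ⟨prod_pos fun p hp => (h9 S (mem_filter.1 hS).1 p hp).pos,
        Nat.cast_le.1 (mem_filter.1 hS).2⟩
  have h9 := exp_le_prod_one_add (Nat.primesLE y) (fun p => (p : ℝ)⁻¹) fun _ _ => by positivity
  have h10 := sum_inv_sq_le (Nat.primesLE y) 0 fun p hp => (Nat.mem_primesLE.1 hp).2.pos
  have h11 := harm_le_log ((4 * y) ^ 2)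
  have h12 : log 4 ≤ 2 := by
    rw [show (4 : ℝ) = 2 ^ 2 by norm_num, log_pow]; push_cast; linarith [log_two_lt_d9]
  have h13 : exp (LL y - 2) ≤ 9 * x := by
    refine le_trans (exp_le_exp.2 ?_) (h9.trans (by linarith))
    simp only [inv_pow, LL]
    norm_num at h10
    linarith
  rw [← le_log_iff_exp_le (by linarith), log_mul (by norm_num) (by linarith)] at h13
  have h14 := log_le_sub_one_of_pos (by norm_num : (0 : ℝ) < 9)
  rw [abs_le]
  constructor <;> linarith [log_two_lt_d9]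

open Classical in
/-- The contribution of a state. -/
noncomputable def gg (s : St) : ℝ := (if isP s then 1 else 0) - if isQ s then 1 else 0

lemma abs_gg (s : St) : |gg s| ≤ if s = none then 0 else 1 := by
  rcases s with _ | s
  · simp [gg, isP, isQ, St.ty]
  · rw [if_neg (by simp), gg]; split_ifs <;> norm_num

lemma abs_gg' (s : St) : |gg s| ≤ 1 := (abs_gg s).trans (by split_ifs <;> norm_num)

lemma variance (H : Fam p₀ K c₀ e st bad μ) (y : ℕ) (a b : ℤ) (A B : ℕ)
    (hA : (y : ℝ) ^ 4 ≤ A) (hB : (y : ℝ) ^ 4 ≤ B) :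
    box a b A B (fun m n => (∑ p ∈ PP p₀ y, (gg (st p m n) - mean p fun m n => gg (st p m n))) ^ 2)
      ≤ (7 * K * LL y + 16) * A * B := by
  have hK := H.one_le
  let g : ℕ → ℤ → ℤ → ℝ := fun p m n =>
    (1 / 2) * gg (st p m n) + -(1 / 2) * mean p fun m n => gg (st p m n)
  have hg : ∀ p, Per p (g p) := fun p _ _ _ _ h1 h2 => by simp only [g, H.per p _ _ _ _ h1 h2]
  have hg1 : ∀ p ∈ PP p₀ y, ∀ m n, |g p m n| ≤ 1 := fun p hp m n => by
    have h1 := mean_near (q := p) (f := fun m n => gg (st p m n)) (g := fun _ _ => 0)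
      (h := fun _ _ => 1) fun m n => by simpa using abs_gg' _
    rw [mean_const (mem_PP.1 hp).1.pos, mean_const (mem_PP.1 hp).1.pos, sub_zero, abs_le] at h1
    have h2 := abs_le.1 (abs_gg' (st p m n))
    simp only [g, abs_le]; constructor <;> linarith
  have hg0 : ∀ p ∈ PP p₀ y, mean p (g p) = 0 := fun p hp => by
    rw [mean_lin (mem_PP.1 hp).1.pos]; ring
  have h2 : ∀ p ∈ PP p₀ y, ∀ p' ∈ PP p₀ y, box a b A B (fun m n => g p m n * g p' m n) ≤
      (if p = p' then 7 / 4 * K * A * B * (p : ℝ)⁻¹ else 0) + 2 * y ^ 2 * (A + B) := by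
    intro p hp p' hp'
    have e5 : (p : ℝ) ≤ y := by exact_mod_cast (mem_PP.1 hp).2.2
    have e6 : (p' : ℝ) ≤ y := by exact_mod_cast (mem_PP.1 hp').2.2
    have e7 : (1 : ℝ) ≤ p := by exact_mod_cast (mem_PP.1 hp).1.one_le
    have e8 : ∀ m n, |g p m n * g p' m n| ≤ 1 := fun m n => by
      rw [abs_mul]; exact mul_le_one₀ (hg1 p hp ..) (abs_nonneg _) (hg1 p' hp' ..)
    have p1 := (mem_PP.1 hp).1.pos
    split_ifs with hpp
    · subst hpp
      have h4 := (abs_le.1 (box_mean p1 (f := fun m n => g p m n * g p m n)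
        (fun _ _ _ _ h1 h2 => by dsimp only; rw [hg p _ _ _ _ h1 h2]) e8 a b A B)).2
      set t := mean p fun m n => gg (st p m n) with ht
      have h5 : mean p (fun m n => g p m n * g p m n) ≤ mean p fun m n =>
          (-(1 / 4) * (if st p m n = none then 1 else 0) + 1 / 4) +
            (-(t / 2) * gg (st p m n) + t ^ 2 / 4) := mean_mono fun m n => by
        have h6 := abs_gg (st p m n)
        simp only [g, ← ht]
        split_ifs at h6 ⊢ <;> rw [abs_le] at h6 <;> nlinarith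
      rw [mean_add, mean_lin p1, mean_lin p1, ← ht] at h5
      have h6 := (H.none_ge (mem_PP.1 hp).1 (mem_PP.1 hp).2.1).2.1
      unfold MP_788af2_nt.dens at h6
      have h7 : mean p (fun m n => g p m n * g p m n) ≤ 7 / 4 * K * (p : ℝ)⁻¹ := by
        rw [div_eq_mul_inv] at h6; nlinarith [sq_nonneg t]
      have h8 := mul_le_mul_of_nonneg_left h7 (by positivity : (0 : ℝ) ≤ A * B)
      have h9 : (2 : ℝ) * p * (A + B) ≤ 2 * y ^ 2 * (A + B) := by gcongr; nlinarith
      linarith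
    · have h4 := (abs_le.1 (box_mean (Nat.mul_pos p1 (mem_PP.1 hp').1.pos)
        (f := fun m n => g p m n * g p' m n) (fun _ _ _ _ h1 h2 => by
          dsimp only
          rw [(hg p).of_dvd (dvd_mul_right _ _) _ _ _ _ h1 h2,
            (hg p').of_dvd (dvd_mul_left _ _) _ _ _ _ h1 h2]) e8 a b A B)).2
      rw [mean_mul ((Nat.coprime_primes (mem_PP.1 hp).1 (mem_PP.1 hp').1).2 hpp) p1
        (mem_PP.1 hp').1.pos (hg p) (hg p'), hg0 p hp] at h4
      have h7 : (2 : ℝ) * (p * p' : ℕ) * (A + B) ≤ 2 * y ^ 2 * (A + B) := by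
        push_cast; rw [sq]; gcongr
      linarith
  have h1 : (fun m n => (∑ p ∈ PP p₀ y, (gg (st p m n) - mean p fun m n => gg (st p m n))) ^ 2) =
      fun m n => 4 * ∑ p ∈ PP p₀ y, ∑ p' ∈ PP p₀ y, g p m n * g p' m n := by
    funext m n
    rw [← sum_mul_sum, sum_congr rfl fun p _ => show _ = 2 * g p m n by simp only [g]; ring,
      ← mul_sum]
    ring
  rw [h1]
  simp only [box_sum, box_mul]
  have h3 := sum_le_sum fun p hp => sum_le_sum fun p' hp' => h2 p hp p' hp'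
  have h4 : ∑ p ∈ PP p₀ y, ∑ p' ∈ PP p₀ y, (if p = p' then 7 / 4 * K * A * B * (p : ℝ)⁻¹ else 0)
      ≤ 7 / 4 * K * A * B * LL y := by
    rw [sum_congr rfl fun p hp => by rw [sum_ite_eq, if_pos hp], ← mul_sum]
    exact mul_le_mul_of_nonneg_left (sum_le_sum_of_subset_of_nonneg (filter_subset _ _)
      fun _ _ _ => by positivity) (by positivity)
  simp only [sum_add_distrib, sum_const, nsmul_eq_mul] at h3
  have hc := card_PP_le p₀ y
  have h5 : ((PP p₀ y).card : ℝ) * ((PP p₀ y).card * (2 * y ^ 2 * (A + B))) ≤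
    y * (y * (2 * y ^ 2 * (A + B))) := by gcongr
  have e1 := mul_le_mul_of_nonneg_right hA (Nat.cast_nonneg (α := ℝ) B)
  have e2 := mul_le_mul_of_nonneg_right hB (Nat.cast_nonneg (α := ℝ) A)
  linarith

lemma mean_gg (H : Fam p₀ K c₀ e st bad μ) : ∃ C, ∀ y,
    |∑ p ∈ PP p₀ y, mean p (fun m n => gg (st p m n)) -
      (Cc μ 0 - μ (some (0, false))) * LL y| ≤ C := by
  obtain ⟨C, hC⟩ := ((((H.hmean (some (1, false))).add (H.hmean (some (1, true)))).add
    (H.hmean (some (2, false)))).add (H.hmean (some (2, true)))).add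
    ((H.hmean (some (0, false))).smul (-1))
  refine ⟨C, fun y => le_of_eq_of_le ?_ (hC y)⟩
  congr 2
  · refine sum_congr rfl fun p hp => ?_
    have : (p : ℝ) ≠ 0 := by exact_mod_cast (mem_PP.1 hp).1.ne_zero
    beta_reduce
    rw [mul_left_comm, ← mul_add, ← mul_add, ← mul_add, ← mul_add, mul_div_cancel_left₀ _ this]
    simp only [MP_788af2_nt.dens, ← mean_smul, ← mean_add]
    congr 1
    funext m n
    rcases st p m n with _ | _ | ⟨i, _ | _⟩
    any_goals fin_cases i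
    all_goals simp [gg, isP, isQ, St.ty]
  · simp [Cc, sub_eq_add_neg]

/-- The logarithm of the size of the 2-torsion of the Tate-Shafarevich group. -/
noncomputable def tt (M N : ℤ) : ℝ := logb 2 (ShaTwo (wc (aa true M N) (bb true M N) 0)).ncard

variable {M N : ℤ → ℤ → ℤ}

open Classical in
lemma point (H : Fam p₀ K c₀ (fun m n => ![0, M m n, N m n]) st bad μ) (m n : ℤ) (x w : ℝ)
    (j y₀ : ℕ) (hx : 0 < x) (hy : ⌊exp x⌋₊ ≤ y₀) (hd : |(dsc ![0, M m n, N m n] : ℝ)| ≤ exp w)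
    (hw : 0 ≤ w) : (1 / 2) * (if dsc ![0, M m n, N m n] = 0 then 0 else
      |tt (M m n) (N m n) - ∑ p ∈ PP p₀ y₀, gg (st p m n)|) ≤ 5 + 4 * p₀ + 4 * (w / x) + 7 * j +
        4 * (∑ p ∈ PP p₀ y₀, if bad p m n then 1 else 0) +
        14 * (MM Subtype.val (fun p : PP p₀ ⌊exp x⌋₊ => st p m n) / 2 ^ j) := by
  set y := ⌊exp x⌋₊
  have hM := (MM_terms Subtype.val (fun p : PP p₀ y => st p m n)).1
  have hb : (0 : ℝ) ≤ ∑ p ∈ PP p₀ y₀, if bad p m n then 1 else 0 :=
    sum_nonneg fun _ _ => by split_ifs <;> norm_num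
  have hp₀ : 2 ≤ p₀ := by
    have : (2 : ℝ) ≤ p₀ := by linarith [H.big, H.one_le]
    exact_mod_cast this
  split_ifs with h0
  · rw [mul_zero]; positivity
  set B₁ := (Ioc 0 p₀).filter Nat.Prime
  set B₂ := (dsc ![0, M m n, N m n]).natAbs.primeFactors.filter (y < ·) with hB₂
  set B₃ := (PP p₀ y₀).filter (bad · m n)
  have hy' : PP p₀ y ⊆ PP p₀ y₀ := fun p hp => by
    rw [mem_PP] at hp ⊢
    exact ⟨hp.1, hp.2.1, hp.2.2.trans hy⟩
  obtain ⟨hr1, hr2, hr3⟩ := sh_bounds (q := (Subtype.val : PP p₀ y → ℕ))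
    (σ := fun p => st p m n) (B := B₁ ∪ B₂ ∪ B₃) h0 (psys p₀ y).prime
    (fun p => by have := (mem_PP.1 p.2).2.1; omega) Subtype.val_injective
    (fun l hl => by
      simp only [mem_union] at hl
      rcases hl with (hl | hl) | hl
      · exact (mem_filter.1 hl).2
      · exact Nat.prime_of_mem_primeFactors (mem_filter.1 hl).1
      · exact (mem_PP.1 (mem_filter.1 hl).1).1)
    (mem_union_left _ (mem_union_left _ (mem_filter.2 ⟨mem_Ioc.2 ⟨two_pos, hp₀⟩, Nat.prime_two⟩)))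
    (fun l hl hld => by
      simp only [mem_union]
      by_cases h1 : l ≤ p₀
      · exact Or.inl (Or.inl (Or.inl (mem_filter.2 ⟨mem_Ioc.2 ⟨hl.pos, h1⟩, hl⟩)))
      by_cases h2 : y < l
      · exact Or.inl (Or.inl (Or.inr (mem_filter.2 ⟨Nat.mem_primeFactors.2
          ⟨hl, Int.natCast_dvd.1 hld, Int.natAbs_ne_zero.2 h0⟩, h2⟩)))
      have h3 : l ∈ PP p₀ y := mem_PP.2 ⟨hl, not_le.1 h1, not_lt.1 h2⟩
      by_cases h4 : bad l m n
      · exact Or.inl (Or.inr (mem_filter.2 ⟨hy' h3, h4⟩))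
      · exact Or.inr ⟨⟨l, h3⟩, rfl, (H.valid l m n hl (not_le.1 h1) h4).2 hld⟩)
    (fun p => by
      by_cases h4 : bad p m n
      · exact Or.inl (mem_union_right _ (mem_filter.2 ⟨hy' p.2, h4⟩))
      · exact Or.inr (H.valid p m n (mem_PP.1 p.2).1 (mem_PP.1 p.2).2.1 h4).1)
  have c1 : (B₁.card : ℝ) ≤ p₀ := by
    have : B₁.card ≤ (Ioc 0 p₀).card := card_filter_le _ _
    simpa using this
  have c2 : (B₂.card : ℝ) ≤ w / x := by
    rw [le_div_iff₀ hx, ← exp_le_exp, exp_nat_mul, ← prod_const]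
    refine le_trans ?_ hd
    calc ∏ _p ∈ B₂, exp x ≤ ∏ p ∈ B₂, (p : ℝ) := prod_le_prod (fun _ _ => (exp_pos _).le)
          fun p hp => (Nat.lt_of_floor_lt (mem_filter.1 hp).2).le
      _ ≤ ((dsc ![0, M m n, N m n]).natAbs : ℝ) := by
          rw [← Nat.cast_prod, Nat.cast_le]
          exact Nat.le_of_dvd (Int.natAbs_pos.2 h0) ((prod_dvd_prod_of_subset _ _ _
            (filter_subset _ _)).trans (Nat.prod_primeFactors_dvd _))
      _ = _ := by rw [Nat.cast_natAbs, Int.cast_abs]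
  have c3 : (B₃.card : ℝ) = ∑ p ∈ PP p₀ y₀, if bad p m n then 1 else 0 := by simp [B₃]
  have c4 : ((B₁ ∪ B₂ ∪ B₃).card : ℝ) ≤ B₁.card + B₂.card + B₃.card := by
    exact_mod_cast (card_union_le _ _).trans (Nat.add_le_add_right (card_union_le _ _) _)
  have c5 : |∑ p ∈ PP p₀ y₀ \ PP p₀ y, gg (st p m n)| ≤ B₂.card + B₃.card := by
    refine (abs_sum_le_sum_abs _ _).trans ((sum_le_sum fun p _ => abs_gg _).trans ?_)
    simp only [← ite_not (_ = none), sum_boole]
    refine le_trans (Nat.cast_le.2 (card_le_card fun p hp => ?_))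
      (by exact_mod_cast card_union_le B₂ B₃)
    simp only [mem_filter, mem_sdiff, mem_PP, mem_union, B₃, hB₂] at hp ⊢
    refine or_iff_not_imp_right.2 fun h1 => ⟨Nat.mem_primeFactors.2 ⟨hp.1.1.1,
      Int.natCast_dvd.1 ?_, Int.natAbs_ne_zero.2 h0⟩, not_le.1 fun h => hp.1.2 ⟨hp.1.1.1, hp.1.1.2.1, h⟩⟩
    have h2 := (H.valid p m n hp.1.1.1 hp.1.1.2.1 fun h => h1 ⟨hp.1.1, h⟩).1
    have h3 : ∀ i, ![0, M m n, N m n] (i + 1) - ![0, M m n, N m n] (i + 2) ∣
        dsc ![0, M m n, N m n] := fun i => by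
      fin_cases i
      exacts [(dvd_mul_left _ _).mul_right _, dvd_mul_left _ _, (dvd_mul_right _ _).mul_right _]
    rcases hs : st p m n with _ | _ | ⟨i, _ | _⟩ <;> rw [hs] at h2
    exacts [absurd hs hp.2, h2.elim fun i h => h.1.trans (h3 i), h2.1.trans (h3 i),
      h2.1.trans (h3 i)]
  have c6 : ∑ p ∈ PP p₀ y, gg (st p m n) = Fintype.card {p : PP p₀ y // isP (st p m n)} -
      Fintype.card {p : PP p₀ y // isQ (st p m n)} := by
    rw [← sum_coe_sort]
    simp only [gg, sum_sub_distrib, sum_boole, Fintype.card_subtype]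
  rw [← sum_sdiff hy', c6, tt]
  set G := MM Subtype.val (fun p : PP p₀ y => st p m n)
  have h1 := NN_le_MM Subtype.val (fun p : PP p₀ y => st p m n)
  generalize NN (ι := PP p₀ y) _ _ = ν, (B₁ ∪ B₂ ∪ B₃).card = c, Set.ncard _ = s,
    Fintype.card {p : PP p₀ y // isP _} = u, Fintype.card {p : PP p₀ y // isQ _} = v at *
  have h2 : 0 < s := Nat.pos_of_ne_zero (by rintro rfl; simp at hr3)
  have h3 : logb 2 (ν + 3) ≤ 3 + 7 * j + 14 * (G / 2 ^ j) := by
    have h4 := logb_le_logb_of_le one_lt_two (by positivity) (h1.trans_eq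
      (show 8 * G ^ 7 = 2 ^ (3 + 7 * j) * (G / 2 ^ j) ^ 7 by field_simp; ring))
    rw [logb_mul (by positivity) (by positivity), logb_pow, logb_pow, logb_self_eq_one one_lt_two]
      at h4
    have h5 : logb 2 (G / 2 ^ j) ≤ 2 * (G / 2 ^ j) := by
      have h6 : 0 < G / 2 ^ j := by positivity
      rw [logb, div_le_iff₀ (log_pos one_lt_two)]
      nlinarith [log_le_sub_one_of_pos h6, log_two_gt_d9]
    push_cast at h4
    linarith
  have h4 := logb_le_logb_of_le one_lt_two (by positivity)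
    (show (s : ℝ) * 2 ^ v ≤ 2 ^ (3 + 4 * c) * (ν + 3) ^ 2 * 2 ^ u by
      exact_mod_cast hr2.trans (by gcongr; omega))
  have h5 := logb_le_logb_of_le one_lt_two (by positivity)
    (show (2 : ℝ) ^ u ≤ 2 ^ (4 + 6 * c) * (ν + 3) * (s * 2 ^ v) by exact_mod_cast hr3)
  rw [logb_mul (by positivity) (by positivity), logb_mul (by positivity) (by positivity),
    logb_mul (by positivity) (by positivity)] at h4 h5
  simp only [logb_pow, logb_self_eq_one one_lt_two] at h4 h5
  push_cast at h4 h5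
  have h6 : 0 ≤ logb 2 (ν + 3) := logb_nonneg one_lt_two (by linarith [ν.cast_nonneg (α := ℝ)])
  have h7 := abs_le.1 c5
  have h8 := div_nonneg hw hx.le
  rw [← le_div_iff₀' (by norm_num), abs_le]
  constructor <;> linarith [c.cast_nonneg (α := ℝ), p₀.cast_nonneg (α := ℝ)]

theorem box_bound (H : Fam p₀ K c₀ (fun m n => ![0, M m n, N m n]) st bad μ)
    (hμ : Cc μ 0 - μ (some (0, false)) = 1 / 2) (k : ℕ) (D : ℝ) :
    ∃ C X₀ : ℝ, 0 ≤ C ∧ ∀ X l, X₀ ≤ X → 1 ≤ l → |log (log X) - l| ≤ D →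
    ∀ (a b : ℤ) (A B : ℕ), X ≤ A → X ≤ B →
      (∀ i < A, ∀ j < B, |(dsc ![0, M (a + i) (b + j), N (a + i) (b + j)] : ℝ)| ≤ X ^ k) →
      box a b A B (fun m n => if dsc ![0, M m n, N m n] = 0 then 0 else
        |tt (M m n) (N m n) - l / 2|) ≤ C * √l * A * B := by
  obtain ⟨C₁, h1, h2⟩ := transfer H k (point H)
  obtain ⟨C₂, h3⟩ := mean_gg H
  have hK := H.one_le
  have h4 : 0 ≤ log (560 * K) := log_nonneg (by linarith)
  set E := |D| + 11 + log (560 * K) with hE
  refine ⟨2 * C₁ + (7 * K * (1 + E) + 17) + (|C₂| + E), exp (560 * K * 2), by positivity,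
    fun X l hX hl hD a b A B hA hB hd => ?_⟩
  have h5 := h2 X hX a b A B hA hB hd
  have hX0 : 0 < X := (exp_pos _).trans_le hX
  have h6 : 560 * K * 2 ≤ log X := (le_log_iff_exp_le hX0).2 hX
  rw [pow_zero, div_one] at h5
  have h7 := abs_le.1 (mertens (x := log X / (560 * K)) (by rw [le_div_iff₀ (by positivity)]; linarith))
  rw [log_div (by linarith) (by positivity)] at h7
  have h8 : ((⌊exp (log X / (560 * K))⌋₊ : ℕ) : ℝ) ^ 4 ≤ X := by
    calc _ ≤ exp (log X / (560 * K)) ^ 4 := by gcongr; exact Nat.floor_le (exp_pos _).le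
      _ ≤ exp (log X) := by
          rw [← exp_nat_mul, exp_le_exp, ← mul_div_assoc, div_le_iff₀ (by positivity)]
          push_cast; nlinarith
      _ = X := exp_log hX0
  set y := ⌊exp (log X / (560 * K))⌋₊
  have h9 := variance H y a b A B (h8.trans hA) (h8.trans hB)
  have h10 := abs_le.1 ((h3 y).trans (le_abs_self _))
  have h11 := abs_le.1 (hD.trans (le_abs_self _))
  have h12 : 1 ≤ √l := one_le_sqrt.2 hl
  have h13 : √l * √l = l := mul_self_sqrt (by linarith)
  rw [hμ] at h10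
  refine (box_mono (g := fun m n => 2 * ((1 / 2) * if dsc ![0, M m n, N m n] = 0 then 0 else
    |tt (M m n) (N m n) - ∑ p ∈ PP p₀ y, gg (st p m n)|) + ((√l)⁻¹ *
      (∑ p ∈ PP p₀ y, (gg (st p m n) - mean p fun m n => gg (st p m n))) ^ 2 +
        (√l + (|C₂| + E)))) fun i _ j _ => ?_).trans ?_
  · split_ifs
    · positivity
    rw [sum_sub_distrib]
    generalize tt _ _ = t, ∑ p ∈ PP p₀ y, gg _ = T
    set z := T - ∑ p ∈ PP p₀ y, mean p fun m n => gg (st p m n) with hz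
    have h14 : |z| ≤ (√l)⁻¹ * z ^ 2 + √l := by
      rw [← sq_abs, inv_mul_eq_div, div_add' _ _ _ (by positivity), le_div_iff₀ (by positivity)]
      nlinarith [sq_nonneg (|z| - √l), abs_nonneg z]
    have h15 := abs_le.1 h14
    have h16 := le_abs_self (t - T)
    have h17 := neg_abs_le (t - T)
    rw [abs_le]
    constructor <;> linarith [abs_nonneg D]
  rw [box_add, box_add, box_mul, box_mul _ _ _ _ (√l)⁻¹, box_const]
  have h14 : (√l)⁻¹ * ((7 * K * LL y + 16) * A * B) ≤ (7 * K * (1 + E) + 16) * √l * A * B := by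
    rw [inv_mul_le_iff₀ (by positivity)]
    calc _ ≤ (7 * K * (l + E * l) + 16 * l) * A * B := by
          gcongr
          · nlinarith [abs_nonneg D]
          · linarith
      _ = _ := by linear_combination -(7 * K * (1 + E) + 16) * A * B * h13
  have h15 := (mul_le_mul_of_nonneg_left h9 (by positivity : 0 ≤ (√l)⁻¹)).trans h14
  have h16 : 0 ≤ (2 * C₁ + (|C₂| + E)) * A * B * (√l - 1) := by
    have : 0 ≤ √l - 1 := by linarith
    positivity
  linarith

end Pool.Agent.Lib.MP_a3f657_nt
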