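import Pool.Agent.Lib.MP_a3f657_nt.CurveK
import Pool.Agent.Lib.MP_a3f657_nt.Defs

/-!
Torsors attached to a rational 2-torsion point.
-/

namespace Pool.Agent.Lib.MP_a3f657_nt

open WeierstrassCurve WeierstrassCurve.Affine
open scoped Classical

section wrap

variable {K : Type} [Field K] [CharZero K] {W W' : Affine K} {a b c : K}

lemma ns_iff (hW : W = ck a b c) {x y : K} : W.Nonsingular x y ↔
    y ^ 2 = x ^ 3 + a * x ^ 2 + b * x + c ∧ (3 * x ^ 2 + 2 * a * x + b ≠ 0 ∨ y ≠ 0) := by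
  subst hW; exact nonsing_iff ..

lemma ns_of (hW : W = ck a b 0) (hb : b ≠ 0) (hd : a ^ 2 - 4 * b ≠ 0) {x y : K}
    (h : y ^ 2 = x ^ 3 + a * x ^ 2 + b * x) : W.Nonsingular x y := by
  subst hW
  refine nonsing_of_disc ?_ (by rw [h, add_zero])
  rw [disc_ck]
  convert mul_ne_zero (mul_ne_zero (by norm_num : (16 : K) ≠ 0) (pow_ne_zero 2 hb)) hd using 1
  ring

lemma sum0 (hW : W = ck a b c) {x₁ y₁ x₂ y₂ x₃ y₃ l n : K} (h₁ : W.Nonsingular x₁ y₁)
    (h₂ : W.Nonsingular x₂ y₂) (h₃ : W.Nonsingular x₃ y₃) (h : Col a b c x₁ y₁ x₂ y₂ x₃ y₃ l n) :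
    Point.some x₁ y₁ h₁ + Point.some x₂ y₂ h₂ + Point.some x₃ y₃ h₃ = 0 := by
  subst hW; exact sum_eq_zero_of_col h₁ h₂ h₃ h

lemma col0 (hW : W = ck a b c) {x₁ y₁ x₂ y₂ x₃ y₃ : K} (h₁ : W.Nonsingular x₁ y₁)
    (h₂ : W.Nonsingular x₂ y₂) (h₃ : W.Nonsingular x₃ y₃)
    (h : Point.some x₁ y₁ h₁ + Point.some x₂ y₂ h₂ + Point.some x₃ y₃ h₃ = 0) :
    ∃ l n, Col a b c x₁ y₁ x₂ y₂ x₃ y₃ l n := by
  subst hW; exact col_of_sum_eq_zero h₁ h₂ h₃ h

lemma neg0 (hW : W = ck a b c) {x y : K} (h : W.Nonsingular x y) :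
    ∃ h', -Point.some x y h = Point.some x (-y) h' := by
  have h' : W.Nonsingular x (-y) := by
    rw [ns_iff hW] at h ⊢
    exact ⟨by rw [neg_sq]; exact h.1, h.2.imp id neg_ne_zero.2⟩
  subst hW
  exact ⟨h', by rw [Point.neg_some]; congr 1; simp [negY]⟩

lemma two0 (hW : W = ck a b c) {x y : K} (h : W.Nonsingular x y) :
    2 • Point.some x y h = 0 ↔ y = 0 := by
  obtain ⟨h', e⟩ := neg0 hW h
  rw [two_nsmul, ← eq_neg_iff_add_eq_zero, e, Point.some.injEq]
  exact ⟨fun h => by linear_combination h.2 / 2, fun h => by simp [h]⟩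

lemma change0 {a' b' c' u r : K} (hW : W = ck a b c) (hW' : W' = ck a' b' c') (hu : u ≠ 0)
    (ha : a' = u ^ 2 * (a + 3 * r)) (hb : b' = u ^ 4 * (b + 2 * a * r + 3 * r ^ 2))
    (hc : c' = u ^ 6 * (c + b * r + a * r ^ 2 + r ^ 3)) : ∃ f : W.Point →+ W'.Point,
      ∀ x y h, ∃ h', f (.some x y h) = .some (u ^ 2 * (x - r)) (u ^ 3 * y) h' := by
  subst hW hW'
  obtain ⟨f, -, hf⟩ := exists_change' hu ha hb hc
  exact ⟨f, fun x y h => ⟨_, hf x y h⟩⟩

lemma isog0 (hW : W = ck a b 0) (hW' : W' = ck (-2 * a) (a ^ 2 - 4 * b) 0) (hb : b ≠ 0)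
    (hd : a ^ 2 - 4 * b ≠ 0) : ∃ f : W.Point →+ W'.Point, (∀ y h, f (.some 0 y h) = 0) ∧
      ∀ x y h, x ≠ 0 → ∃ h', f (.some x y h) =
        .some (x + a + b / x) (y * (b / x ^ 2 - 1)) h' := by
  subst hW hW'
  obtain ⟨f, hf⟩ := exists_isog hb hd
  exact ⟨f, fun y h => by rw [hf, isogFun_zero],
    fun x y h hx => ⟨_, by rw [hf, isogFun_some hb hd h hx]⟩⟩

lemma halve0 [IsAlgClosed K] (hW : W = ck a b 0) (hb : b ≠ 0) (hd : a ^ 2 - 4 * b ≠ 0)
    (P : W.Point) : ∃ Q, P = 2 • Q := by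
  rcases P with _ | ⟨x, y, h⟩
  · exact ⟨0, (nsmul_zero 2).symm⟩
  obtain ⟨z, hz⟩ := IsAlgClosed.exists_pow_nat_eq (a ^ 2 - 4 * b) two_pos
  obtain ⟨r₀, h0⟩ := IsAlgClosed.exists_pow_nat_eq x two_pos
  obtain ⟨r₁, h1⟩ := IsAlgClosed.exists_pow_nat_eq (x + (a + z) / 2) two_pos
  obtain ⟨r₂, h2⟩ := IsAlgClosed.exists_pow_nat_eq (x + (a - z) / 2) two_pos
  have hq := ((ns_iff hW).1 h).1
  have ea : a = r₁ ^ 2 + r₂ ^ 2 - 2 * x := by linear_combination -h1 - h2
  have eb : b = (r₁ ^ 2 - x) * (r₂ ^ 2 - x) := by rw [h1, h2]; linear_combination hz / 4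
  clear hz h1 h2
  wlog hy : y = -(r₀ * r₁ * r₂) generalizing r₀
  · refine this (-r₀) (by rw [← h0]; ring) ?_
    have : (y - r₀ * r₁ * r₂) * (y + r₀ * r₁ * r₂) = 0 := by
      rw [ea, eb] at hq; linear_combination hq - r₁ ^ 2 * r₂ ^ 2 * h0
    rcases mul_eq_zero.1 this with h | h
    · linear_combination h
    · exact absurd (eq_neg_of_add_eq_zero_left h) hy
  subst h0
  have hQ : W.Nonsingular (r₀ ^ 2 + r₀ * r₁ + r₀ * r₂ + r₁ * r₂)
      ((r₀ + r₁) * (r₀ + r₂) * (r₁ + r₂)) := ns_of hW hb hd (by rw [ea, eb]; ring)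
  refine ⟨-Point.some _ _ hQ, ?_⟩
  have := sum0 hW hQ hQ h (l := r₀ + r₁ + r₂) (n := y - (r₀ + r₁ + r₂) * r₀ ^ 2)
    (by refine ⟨?_, ?_, ?_, ?_, ?_, ?_⟩ <;> simp only [ea, eb, hy] <;> ring)
  rw [two_nsmul, ← neg_add]
  exact eq_neg_of_add_eq_zero_right this

end wrap

/-- The curve `y^2 = x^3 + a x^2 + b x + c` over the rationals. -/
abbrev wc (a b c : ℚ) : WeierstrassCurve ℚ := ⟨0, a, 0, b, c⟩

lemma bc (a b c : ℚ) (K : Type) [Field K] [Algebra ℚ K] :
    ((wc a b c).baseChange K).toAffine =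
      ck (algebraMap ℚ K a) (algebraMap ℚ K b) (algebraMap ℚ K c) := by
  ext <;> simp [WeierstrassCurve.baseChange]

lemma bc0 (a b : ℚ) (K : Type) [Field K] [Algebra ℚ K] :
    ((wc a b 0).baseChange K).toAffine = ck (algebraMap ℚ K a) (algebraMap ℚ K b) 0 := by
  rw [bc, map_zero]

/-- Non-degeneracy. -/
def Nd (a b : ℚ) : Prop := b ≠ 0 ∧ a ^ 2 - 4 * b ≠ 0

variable {a b : ℚ}

lemma Nd.map (h : Nd a b) (K : Type) [Field K] [Algebra ℚ K] :
    algebraMap ℚ K b ≠ 0 ∧ algebraMap ℚ K a ^ 2 - 4 * algebraMap ℚ K b ≠ 0 := by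
  refine ⟨(map_ne_zero (algebraMap ℚ K)).2 h.1, ?_⟩
  have := (map_ne_zero (algebraMap ℚ K)).2 h.2
  rw [map_sub, map_mul, map_pow, map_ofNat] at this; exact this

lemma Nd.dual (h : Nd a b) : Nd (-2 * a) (a ^ 2 - 4 * b) :=
  ⟨h.2, by convert mul_ne_zero (by norm_num : (16 : ℚ) ≠ 0) h.1 using 1; ring⟩

/-- The 2-torsion point at the origin. -/
noncomputable def T0 (h : Nd a b) (K : Type) [Field K] [Algebra ℚ K] : Pt (wc a b 0) K :=
  haveI := algebraRat.charZero K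
  Point.some 0 0 (ns_of (bc0 a b K) (h.map K).1 (h.map K).2 (by ring))

section

variable (h : Nd a b) {K L : Type} [Field K] [Algebra ℚ K] [Field L] [Algebra ℚ L]

lemma pm_T0 (g : K →ₐ[ℚ] L) : pm _ g (T0 h K) = T0 h L := by
  simp only [T0, Point.map_some, map_zero]

lemma T0_ne : T0 h K ≠ 0 := Point.some_ne_zero _

lemma two_T0 : T0 h K + T0 h K = 0 := by
  have := algebraRat.charZero K
  rw [← two_nsmul]; exact (two0 (bc0 a b K) _).2 rfl

lemma eq_T0 {y : K} (h' : ((wc a b 0).baseChange K).toAffine.Nonsingular 0 y) :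
    Point.some 0 y h' = T0 h K := by
  have := algebraRat.charZero K
  have h1 := ((ns_iff (bc0 a b K)).1 h').1
  have : y = 0 := pow_eq_zero_iff two_ne_zero |>.1 (by linear_combination h1)
  subst this; rfl

end

/-- Solubility over `F` of the torsor attached to `d`. -/
def Sol (F : Type) [Field F] [Algebra ℚ F] (a b : ℚ) (d : F) : Prop :=
  IsSquare d ∨ ∃ s w : F, (d * s ^ 2 - algebraMap ℚ F a) ^ 2 - 4 * algebraMap ℚ F b = d * w ^ 2

section torsor

variable (h : Nd a b) {F K : Type} [Field F] [Algebra ℚ F] [Field K] [Algebra ℚ K] [Algebra F K]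
  [IsScalarTower ℚ F K] {d : F} {δ : K}

omit [Algebra ℚ F] [Algebra ℚ K] [IsScalarTower ℚ F K] in
lemma conj_cases (hδ : δ ^ 2 = algebraMap F K d) (τ : K ≃ₐ[F] K) : τ δ = δ ∨ τ δ = -δ :=
  sq_eq_sq_iff_eq_or_eq_neg.1 (by rw [← map_pow, hδ, AlgEquiv.commutes])

lemma torsor_of_sol (hδ : δ ^ 2 = algebraMap F K d) (hs : Sol F a b d) :
    ∃ P : Pt (wc a b 0) K, ∀ τ : K ≃ₐ[F] K,
      (if τ δ = δ then 0 else T0 h K) = pm _ (τ.toAlgHom.restrictScalars ℚ) P - P := by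
  have := algebraRat.charZero K
  rcases hs with ⟨e, he⟩ | ⟨s, w, hs⟩
  · refine ⟨0, fun τ => ?_⟩
    have : δ = algebraMap F K e ∨ δ = -algebraMap F K e :=
      sq_eq_sq_iff_eq_or_eq_neg.1 (by rw [hδ, he, map_mul, sq])
    rw [if_pos (by rcases this with h | h <;> simp [h]), map_zero, sub_zero]
  have hs' := congrArg (algebraMap F K) hs
  simp only [map_sub, map_mul, map_pow, map_ofNat, ← hδ,
    ← IsScalarTower.algebraMap_apply] at hs'
  set S := algebraMap F K s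
  set V := algebraMap F K w
  set A := algebraMap ℚ K a with hA
  have key : ∀ ε : K, ε ^ 2 = δ ^ 2 → ((wc a b 0).baseChange K).toAffine.Nonsingular
      ((ε ^ 2 * S ^ 2 - A + ε * V) / 2) (ε * S * ((ε ^ 2 * S ^ 2 - A + ε * V) / 2)) := by
    intro ε hε
    rw [← hε] at hs'
    exact ns_of (bc0 a b K) (h.map K).1 (h.map K).2 (by
      linear_combination (ε ^ 2 * S ^ 2 - A + ε * V) / 8 * hs')
  refine ⟨Point.some _ _ (key δ rfl), fun τ => ?_⟩
  have e1 : pm (wc a b 0) (τ.toAlgHom.restrictScalars ℚ) (Point.some _ _ (key δ rfl)) =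
      Point.some _ _ (key (τ δ) (by rcases conj_cases hδ τ with h | h <;> simp [h])) := by
    rw [Point.map_some]
    have h1 : τ A = A := by rw [hA, IsScalarTower.algebraMap_apply ℚ F K, AlgEquiv.commutes]
    have h2 : τ S = S := τ.commutes s
    have h3 : τ V = V := τ.commutes w
    congr 1 <;> simp [h1, h2, h3, map_ofNat]
  rw [e1]
  split_ifs with h1
  · simp only [h1, sub_self]
  · have h2 := (conj_cases hδ τ).resolve_left h1
    simp only [h2]
    obtain ⟨h3, e⟩ := neg0 (bc0 a b K) (key (-δ) (by ring))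
    rw [eq_sub_iff_add_eq', ← add_neg_eq_zero, e]
    exact sum0 (bc0 a b K) _ _ _ (l := δ * S) (n := 0) ⟨by ring, by ring, by ring, by ring,
      by linear_combination -hs' / 4, by ring⟩

lemma sol_of_torsor [IsGalois F K] (hd : d ≠ 0) (hδ : δ ^ 2 = algebraMap F K d)
    (P : Pt (wc a b 0) K) (hP : ∀ τ : K ≃ₐ[F] K,
      (if τ δ = δ then 0 else T0 h K) = pm _ (τ.toAlgHom.restrictScalars ℚ) P - P) :
    Sol F a b d := by
  have := algebraRat.charZero K
  have triv : (∀ τ : K ≃ₐ[F] K, pm _ (τ.toAlgHom.restrictScalars ℚ) P = P) → Sol F a b d := by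
    intro h1
    obtain ⟨e, he⟩ := (InfiniteGalois.mem_range_algebraMap_iff_fixed (k := F) δ).2 fun τ => by
      by_contra h2
      have := hP τ
      rw [if_neg h2, h1, sub_self] at this
      exact T0_ne h this
    exact Or.inl ⟨e, (algebraMap F K).injective (by rw [← hδ, map_mul, he, sq])⟩
  rcases P with _ | ⟨x, y, hxy⟩
  · exact triv fun _ => rfl
  by_cases hx : x = 0
  · subst hx
    exact triv fun τ => by rw [eq_T0 h, pm_T0]
  have hq := ((ns_iff (bc0 a b K)).1 hxy).1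
  set B := algebraMap ℚ K b with hB
  have key : ∀ τ : K ≃ₐ[F] K, τ (δ * (y / x)) = δ * (y / x) ∧
      τ (δ * (x - B / x)) = δ * (x - B / x) := by
    intro τ
    have h1 : τ B = B := by rw [hB, IsScalarTower.algebraMap_apply ℚ F K, AlgEquiv.commutes]
    have h2 := hP τ
    rw [Point.map_some] at h2
    simp only [map_mul, map_div₀, map_sub, h1]
    split_ifs at h2 with h3
    · have h4 := Point.some.inj (sub_eq_zero.1 h2.symm)
      have h5 : τ x = x := h4.1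
      have h6 : τ y = y := h4.2
      simp only [h3, h5, h6, and_self]
    · obtain ⟨h4, e⟩ := neg0 (bc0 a b K) (((wc a b 0).toAffine.baseChange_nonsingular
        (τ.toAlgHom.restrictScalars ℚ).injective ..).mpr hxy)
      rw [eq_sub_iff_add_eq', ← add_neg_eq_zero, e] at h2
      obtain ⟨l, n, e1, e2, e3, -, e5, -⟩ := col0 (bc0 a b K) _ _ _ h2
      have e6 : n = 0 := by linear_combination -e2
      subst e6
      change -τ y = l * τ x + 0 at e3
      change B - _ = x * 0 + x * τ x + 0 * τ x at e5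
      have h5 : τ x ≠ 0 := by simpa using hx
      have h6 : B = x * τ x := by linear_combination e5
      have h7 : τ y = -l * τ x := by linear_combination -e3
      rw [(conj_cases hδ τ).resolve_left h3, h7, e1, h6]
      constructor <;> field_simp <;> ring
  obtain ⟨s, hs⟩ := (InfiniteGalois.mem_range_algebraMap_iff_fixed (k := F) _).2 fun τ => (key τ).1
  obtain ⟨w, hw⟩ := (InfiniteGalois.mem_range_algebraMap_iff_fixed (k := F) _).2 fun τ => (key τ).2
  refine Or.inr ⟨s / d, w / d, (algebraMap F K).injective ?_⟩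
  have h1 : δ ≠ 0 := by
    rintro rfl
    exact hd ((map_eq_zero (algebraMap F K)).1 (by rw [← hδ]; ring))
  simp only [map_sub, map_mul, map_pow, map_ofNat, map_div₀, ← hδ, hs, hw,
    ← IsScalarTower.algebraMap_apply]
  have h2 : δ ^ 2 * (δ * (y / x) / δ ^ 2) ^ 2 = x + algebraMap ℚ K a + B / x := by
    field_simp; linear_combination hq
  rw [h2]; field_simp; ring

omit [Algebra ℚ F] [IsScalarTower ℚ F K] in
lemma chi_mul {d' : F} {δ' : K} (hd : δ ≠ 0) (hd' : δ' ≠ 0) (hδ : δ ^ 2 = algebraMap F K d)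
    (hδ' : δ' ^ 2 = algebraMap F K d') (τ : K ≃ₐ[F] K) :
    (if τ (δ * δ') = δ * δ' then 0 else T0 h K) =
      (if τ δ = δ then 0 else T0 h K) + if τ δ' = δ' then 0 else T0 h K := by
  have := algebraRat.charZero K
  have n1 : ∀ {z : K}, z ≠ 0 → -z ≠ z := fun hz h => hz (by linear_combination -h / 2)
  rw [map_mul]
  rcases conj_cases hδ τ with h1 | h1 <;> rcases conj_cases hδ' τ with h2 | h2 <;> rw [h1, h2]
  · simp
  · rw [mul_neg, if_neg (n1 (mul_ne_zero hd hd')), if_neg (n1 hd')]; simp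
  · rw [neg_mul, if_neg (n1 (mul_ne_zero hd hd')), if_neg (n1 hd)]; simp
  · rw [neg_mul_neg, if_neg (n1 hd'), if_neg (n1 hd), two_T0]; simp

end torsor

variable {F : Type} [Field F] [Algebra ℚ F] {d d' : F}

lemma Sol.mul (h : Nd a b) (hd : d ≠ 0) (hd' : d' ≠ 0) (h1 : Sol F a b d) (h2 : Sol F a b d') :
    Sol F a b (d * d') := by
  have := algebraRat.charZero F
  obtain ⟨δ, hδ⟩ := IsAlgClosed.exists_pow_nat_eq (algebraMap F (AlgebraicClosure F) d) two_pos
  obtain ⟨ε, hε⟩ := IsAlgClosed.exists_pow_nat_eq (algebraMap F (AlgebraicClosure F) d') two_pos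
  obtain ⟨P, hP⟩ := torsor_of_sol h hδ h1
  obtain ⟨Q, hQ⟩ := torsor_of_sol h hε h2
  refine sol_of_torsor h (mul_ne_zero hd hd') (δ := δ * ε) (by rw [mul_pow, hδ, hε, map_mul])
    (P + Q) fun τ => ?_
  rw [chi_mul h (by rintro rfl; exact hd (by simpa using hδ.symm))
    (by rintro rfl; exact hd' (by simpa using hε.symm)) hδ hε, hP, hQ, map_add]
  abel

lemma Sol.congr (hd : d ≠ 0) (hd' : d' ≠ 0) (h1 : Sol F a b d) (h2 : IsSquare (d * d')) :
    Sol F a b d' := by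
  obtain ⟨e, he⟩ := h2
  have he0 : e ≠ 0 := by rintro rfl; exact mul_ne_zero hd hd' (by simpa using he)
  obtain rfl : d' = e * e / d := by field_simp; linear_combination he
  rcases h1 with ⟨f, hf⟩ | ⟨s, w, hs⟩
  · have hf0 : f ≠ 0 := by rintro rfl; exact hd (by simpa using hf)
    exact Or.inl ⟨e / f, by rw [hf]; field_simp⟩
  · refine Or.inr ⟨s * d / e, w * d / e, ?_⟩
    rw [show e * e / d * (s * d / e) ^ 2 = d * s ^ 2 by field_simp, hs]; field_simp

end Pool.Agent.Lib.MP_a3f657_nt
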