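import Pool.Agent.Lib.MP_a3f657_nt.WDefs
import Pool.Agent.Lib.MP_a3f657_nt.C2QLow

/-!
The curves `y ^ 2 + x y = x ^ 3 + a x ^ 2 + b`: places, local images, forms.
-/

set_option linter.unusedSectionVars false

namespace Pool.Agent.Lib.MP_a3f657_nt.Two.Win.Ar

open Polynomial IsDedekindDomain

open scoped Classical

variable {k : Type} [Field k] [Fintype k] [CharP k 2] {a b p h h' : k[X]} {v : Pl k}
  {α : RatFunc k}

/-- The bad places. -/
noncomputable def SS (b : k[X]) : Finset (Pl k) := insert none ((pr b).image plc)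

lemma none_mem : none ∈ SS b := Finset.mem_insert_self _ _

lemma plc_mem (hp : p ∈ pr b) : plc p ∈ SS b :=
  Finset.mem_insert_of_mem (Finset.mem_image_of_mem _ hp)

lemma ι_OS (h : k[X]) : ι h ∈ OS (SS b) := mem_OS.2 fun v hv => by
  rcases v with _ | v
  exacts [absurd none_mem hv, ι_int _ _]

lemma mem_WW : h ∈ WW a b ↔ h ∈ Red k ∧ ι h ∈ (cmp none).AA (PD b) (ι a) := Iff.rfl

lemma mem_VV : h ∈ VV a b ↔ h ∈ WW a b ∧ ∀ p ∈ pr b, tp p (ι h) = 0 := by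
  simp [VV, AddSubgroup.mem_iInf]

lemma exists_red (hR : RedP) (α : RatFunc k) : ∃ r ∈ Red k, α + ι r ∈ (pl none).PW := by
  obtain ⟨r, hr, c, e, -⟩ := (hR k).1 (pol α)
  refine ⟨r, hr, (pl none).mem_PW.2 ⟨ι c, ?_⟩⟩
  have := pol_spec α
  rw [e, CharTwo.sub_eq_add] at this
  simpa only [ι, wp, map_add, map_pow, add_assoc, pl_w] using this

lemma card_WW (hR : RedP) :
    Nat.card (WW a b) = (pl none).PW.relIndex ((cmp none).AA (PD b) (ι a)) := by
  refine Nat.card_congr (Equiv.ofBijective (fun h : WW a b => (QuotientAddGroup.mk ⟨ι h.1, h.2.2⟩ :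
    (cmp none).AA (PD b) (ι a) ⧸ (pl none).PW.addSubgroupOf _)) ⟨fun x y e => ?_, fun y => ?_⟩)
  · have h0 := AddSubgroup.mem_addSubgroupOf.1 (QuotientAddGroup.eq_iff_sub_mem.1 e)
    have h1 : ι x.1 - ι y.1 ∈ (pl none).PW := h0
    rw [← map_sub] at h1
    exact Subtype.ext (sub_eq_zero.1 ((hR k).2 _ (sub_mem x.2.1 y.2.1) h1))
  · induction y using QuotientAddGroup.induction_on with
    | H y =>
    obtain ⟨r, h1, h2⟩ := exists_red hR y.1
    refine ⟨⟨r, h1, ?_⟩, QuotientAddGroup.eq_iff_sub_mem.2 (AddSubgroup.mem_addSubgroupOf.2 ?_)⟩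
    · simpa [← add_assoc, two_K] using add_mem y.2 (Cmp.PW_le_AA h2)
    · change ι r - y.1 ∈ _
      rwa [CharTwo.sub_eq_add, add_comm]

lemma finite_WW (hR : RedP) : (WW a b : Set k[X]).Finite := by
  have : Finite (WW a b) := Nat.finite_of_card_ne_zero (by
    rw [card_WW hR, Cmp.relIndex_eq]
    exact ((cmp none).dual _ _).1)
  exact Set.toFinite _

lemma rho_dl (P : PB (RatFunc k)) (h1 : p.Monic) (h2 : Irreducible p) (h : k[X]) :
    (pl none).rho P (ι h * P.dl (ι p)) = tp p (ι h) := by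
  obtain ⟨v, h3, rfl⟩ := plc_eq h1 h2
  have h4 := sum_res {none, some v} (x := ι h * (PX k).dlg (ι (gen v))) fun u hu => by
    simp only [Finset.mem_insert, Finset.mem_singleton, not_or] at hu
    rcases u with _ | u
    · exact absurd rfl hu.1
    · exact res_int (Fil.mul (ι_int u h) (dlg_gen_mem hu.2) (by simp [eD]))
  rw [Finset.sum_pair (by simp), PB.dlg, res_dlog (some v) (ι_int v h) (ι_ne (gen_ne v)), ord_gen,
    Int.cast_one, one_mul] at h4
  rw [rho_eq, mul_assoc, dl_mul_dlg, tp, h3, PB.dlg]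
  grind

variable (hb : Squarefree b)
include hb

lemma mem_pr : p ∈ pr b ↔ Irreducible p ∧ p.Monic ∧ p ∣ b := by
  rw [pr, Multiset.mem_toFinset, Polynomial.mem_normalizedFactors_iff hb.ne_zero]

lemma pr_spec : ∀ p ∈ pr b, p.Monic ∧ Irreducible p := fun _ hp =>
  ⟨((mem_pr hb).1 hp).2.1, ((mem_pr hb).1 hp).1⟩

lemma pr_eq (hp : p ∈ pr b) : ∃ v, plc p = some v ∧ gen v = p :=
  plc_eq (pr_spec hb p hp).1 (pr_spec hb p hp).2

lemma ι_int_pr (hp : p ∈ pr b) (h : k[X]) : ι h ∈ Fil (val (plc p)) 0 := by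
  obtain ⟨v, h1, -⟩ := pr_eq hb hp
  exact h1 ▸ ι_int v h

lemma ord_pr (hp : p ∈ pr b) : ord (val (plc p)) (ι b) = 1 := by
  obtain ⟨v, h1, rfl⟩ := pr_eq hb hp
  rw [h1]
  refine ord_ι_of_not_dvd (n := 1) (by simpa using ((mem_pr hb).1 hp).2.2) fun h2 => ?_
  exact (gen_irr v).not_isUnit (hb _ (by simpa [pow_two] using h2))

lemma sum_SS {M : Type} [AddCommMonoid M] (f : Pl k → M) :
    ∑ v ∈ SS b, f v = f none + ∑ p ∈ pr b, f (plc p) := by
  rw [SS, Finset.sum_insert, Finset.sum_image (plc_inj (pr_spec hb))]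
  intro h
  obtain ⟨p, hp, e⟩ := Finset.mem_image.1 h
  obtain ⟨v, h1, -⟩ := pr_eq hb hp
  simp [h1] at e

lemma card_SS : (SS b).card = (pr b).card + 1 := by
  rw [Finset.card_eq_sum_ones, sum_SS hb, ← Finset.card_eq_sum_ones, add_comm]

lemma cases_SS (hv : v ∈ SS b) : v = none ∨ ∃ p ∈ pr b, plc p = v := by
  simpa [SS] using hv

lemma dlg_sum {s : Finset k[X]} (hs : s ⊆ pr b) (hp : p ∈ pr b) :
    ∑ q ∈ s, (PX k).dlg (ι q) ∈ Fil (val (plc p)) 0 ↔ p ∉ s := by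
  have key : ∀ t ⊆ pr b, p ∉ t → ∑ q ∈ t, (PX k).dlg (ι q) ∈ Fil (val (plc p)) 0 :=
    fun t ht h => sum_mem fun q hq => by
      obtain ⟨v, h1, rfl⟩ := pr_eq hb hp
      obtain ⟨u, -, rfl⟩ := pr_eq hb (ht hq)
      rw [h1]
      simpa using dlg_gen_mem (v := some v) (p := u) fun e => h (Option.some.inj e ▸ hq)
  refine ⟨fun h1 h2 => ?_, key s hs⟩
  rw [← Finset.add_sum_erase s _ h2] at h1
  have h3 := add_mem h1 (key _ ((Finset.erase_subset _ _).trans hs) (Finset.notMem_erase p s))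
  obtain ⟨v, h4, rfl⟩ := pr_eq hb hp
  rw [add_assoc, two_K, add_zero, h4] at h3
  exact dlg_gen_not_mem v h3

variable (hd : 0 < b.natDegree)
include hd

lemma PD_b : (PD b).b = ι b := by
  obtain ⟨p, h1, h2, h3⟩ := Polynomial.exists_monic_irreducible_factor b
    (not_isUnit_of_natDegree_pos b hd)
  have h4 := ord_pr hb ((mem_pr hb).2 ⟨h2, h1, h3⟩)
  rw [PD, dif_pos fun r hr => by rw [← hr, ord_sq] at h4; omega]
  rfl

lemma ord_PD (hp : p ∈ pr b) : ord (pl (plc p)).w (PD b).b = 1 := by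
  rw [PD_b hb hd, pl_w, ord_pr hb hp]

lemma good (a : k[X]) : GoodOut (PD b) (ι a) (SS b) := by
  refine ⟨none_mem, mem_OS.1 (ι_OS a), ?_⟩
  rintro (_ | v) hv
  · exact absurd none_mem hv
  · rw [PD_b hb hd]
    exact ord_ι_unit fun h => hv (plc_gen v ▸ plc_mem ((mem_pr hb).2 ⟨gen_irr v, gen_monic v, h⟩))

lemma AA_pr (hp : p ∈ pr b) : (cmp (plc p)).AA (PD b) (ι a) = (pl (plc p)).PW :=
  Cmp.mult_AA (ι_int_pr hb hp a) (ord_PD hb hd hp)

lemma mem_VV' : h ∈ VV a b ↔ h ∈ Red k ∧ ι h ∈ AS (PD b) (ι a) (SS b) := by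
  rw [mem_VV, mem_WW, mem_AS, and_assoc]
  refine and_congr_right fun _ => ⟨fun h1 v hv => ?_, fun h1 => ⟨h1 _ none_mem, fun p hp => ?_⟩⟩
  · rcases cases_SS hb hv with rfl | ⟨p, hp, rfl⟩
    · exact h1.1
    · rw [AA_pr hb hd hp]
      exact ((pl _).tau_eq_zero (ι_int_pr hb hp h)).1 (h1.2 p hp)
  · exact (pl _).tau_PW (AA_pr (a := a) hb hd hp ▸ h1 _ (plc_mem hp))

lemma exists_VV (hR : RedP) (h1 : α ∈ AS (PD b) (ι a) (SS b))
    (h2 : ∀ v ∉ SS b, ∃ c, α + wp c ∈ Fil (val v) 0) : ∃ r ∈ VV a b, ∃ c, ι r = α + wp c := by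
  obtain ⟨c, hc⟩ := exists_OS (S := {none}) (α := α) fun v hv => by
    by_cases h3 : v ∈ SS b
    · rcases cases_SS hb h3 with rfl | ⟨p, hp, rfl⟩
      · simp at hv
      · obtain ⟨z, hz⟩ := (pl _).mem_PW.1 (AA_pr (a := a) hb hd hp ▸ mem_AS.1 h1 _ h3)
        exact ⟨z, Fil.mono hz (by omega)⟩
    · exact h2 v h3
  obtain ⟨g, hg⟩ := exists_poly fun v => mem_OS.1 hc (some v) (by simp)
  obtain ⟨r, hr, c', e, -⟩ := (hR k).1 g
  have e1 : ι r = α + wp (c + ι c') := by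
    rw [e] at hg
    simp only [ι, wp, map_add, map_pow] at hg ⊢
    grind
  refine ⟨r, (mem_VV' hb hd).2 ⟨hr, mem_AS.2 fun v hv => ?_⟩, _, e1⟩
  rw [e1]
  exact add_mem (mem_AS.1 h1 v hv) (Cmp.PW_le_AA ((pl v).wp_mem_PW _))

lemma sum_tp (hh : h ∈ WW a b) : ∑ p ∈ pr b, tp p (ι h) = 0 := by
  have h1 := sum_rho (P := PD b) (x := ι h) (SS b) fun v hv => by
    rw [PreLoc.rho_apply, (pl v).r_dlog (mem_OS.1 (ι_OS h) v hv) (PD b).b_ne, pl_w,
      (good hb hd a).hB v hv]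
    simp
  have h2 := Cmp.orth (mem_WW.1 hh).2 Cmp.one_mem_BB
  rw [mul_one] at h2
  rw [sum_SS hb, h2, zero_add] at h1
  rw [← h1]
  exact Finset.sum_congr rfl fun p hp => (rho_mult (ord_PD hb hd hp) (ι_int_pr hb hp h)).symm

lemma card_YY (hR : RedP) : Nat.card (YY (PD b) (ι a) (SS b)) = Nat.card (WW a b) := by
  rw [Nat.card_pi, Finset.prod_eq_single ⟨none, none_mem⟩ (fun v _ hv => ?_) (by simp), card_WW hR]
  · exact ((cmp none).relIndex_eq _ _).symm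
  · rcases cases_SS hb v.2 with e | ⟨p, hp, e⟩
    · exact absurd (Subtype.ext e) hv
    · refine ((cmp v.1).relIndex_eq _ _).symm.trans ?_
      rw [← e, AA_pr hb hd hp, AddSubgroup.relIndex_self]

lemma card_SelF (hR : RedP) : Nat.card (SelF (PD b) (ι a)) = nJ a b := by
  have hG := good hb hd a
  let g : Finset k[X] → RatFunc k := fun s => ∑ p ∈ s, (PD b).dl (ι p)
  have hg : ∀ s, g s * (PX k).dlg (PD b).b = ∑ p ∈ s, (PX k).dlg (ι p) := fun s => by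
    simp only [g, Finset.sum_mul, dl_mul_dlg]
  have hm : ∀ s ⊆ pr b, g s ∈ LogS (PD b) (SS b) := fun s hs =>
    ⟨sum_mem fun p _ => dl_mem_Log _, by
      change g s * _ ∈ OS _
      rw [hg]
      refine sum_mem fun p hp => ?_
      obtain ⟨v, h1, rfl⟩ := pr_eq hb (hs hp)
      exact dlg_gen_OS none_mem (h1 ▸ plc_mem (hs hp))⟩
  have hi : ∀ s ⊆ pr b, ∀ t ⊆ pr b, g s = g t → s = t := fun s hs t ht e => by
    have h1 : ∀ p ∈ pr b, p ∉ s ↔ p ∉ t := fun p hp => by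
      rw [← dlg_sum hb hs hp, ← dlg_sum hb ht hp, ← hg, ← hg, e]
    exact Finset.ext fun p => ⟨fun h => not_not.1 fun h' => (h1 p (hs h)).2 h' h,
      fun h => not_not.1 fun h' => (h1 p (ht h)).1 h' h⟩
  have hs : ∀ u ∈ LogS (PD b) (SS b), ∃ s ⊆ pr b, g s = u := fun u hu => by
    have e := card_LogS (P := PD b) (none_mem (b := b))
    rw [card_SS hb, pow_succ, Nat.mul_left_inj two_ne_zero] at e
    have : Finite (LogS (PD b) (SS b)) := Nat.finite_of_card_ne_zero (by rw [e]; positivity)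
    obtain ⟨s, hs⟩ := ((Nat.bijective_iff_injective_and_card fun s : (pr b).powerset =>
      (⟨g s, hm s (Finset.mem_powerset.1 s.2)⟩ : LogS (PD b) (SS b))).2 ⟨fun s t e => Subtype.ext
        (hi _ (Finset.mem_powerset.1 s.2) _ (Finset.mem_powerset.1 t.2) (congrArg Subtype.val e)),
        by rw [e, Nat.card_eq_finsetCard, Finset.card_powerset]⟩).2 ⟨u, hu⟩
    exact ⟨s, Finset.mem_powerset.1 s.2, congrArg Subtype.val hs⟩
  have hr : ∀ s ⊆ pr b, ∀ h, (pl none).rho (PD b) (ι h * g s) = ∑ p ∈ s, tp p (ι h) :=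
    fun s hs h => by
      simp only [g, Finset.mul_sum, map_sum]
      exact Finset.sum_congr rfl fun p hp =>
        rho_dl _ (pr_spec hb p (hs hp)).1 (pr_spec hb p (hs hp)).2 h
  have hk : ∀ s ⊆ pr b, g s ∈ SelF (PD b) (ι a) ↔ ∀ h ∈ WW a b, ∑ p ∈ s, tp p (ι h) = 0 :=
    fun s hs => by
    rw [SelF, AddSubgroup.mem_iInf]
    refine ⟨fun h1 h hh => hr s hs h ▸ Cmp.orth hh.2 (h1 none), fun h1 v => ?_⟩
    by_cases hv : v ∈ SS b
    · refine Cmp.BB_of_orth (hm s hs).1 fun α hα => ?_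
      rcases cases_SS hb hv with rfl | ⟨p, hp, rfl⟩
      · obtain ⟨r, h2, h3⟩ := exists_red hR α
        have h4 := (pl none).rho_PW (PD b) h3 (hm s hs).1
        rwa [add_mul, map_add, hr s hs, h1 r ⟨h2, by
          simpa [← add_assoc, two_K] using add_mem hα (Cmp.PW_le_AA h3)⟩, add_zero] at h4
      · exact (pl _).rho_PW _ (AA_pr (a := a) hb hd hp ▸ hα) (hm s hs).1
    · exact hG.mem_Lt hv (zero_mem _) (mem_Log'.1 (hm s hs).1) (hm s hs).2
  rw [nJ, ← Nat.card_eq_finsetCard]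
  refine (Nat.card_congr (Equiv.ofBijective (fun s => (⟨g s.1, (hk _ (Finset.mem_powerset.1
    (Finset.mem_filter.1 s.2).1)).2 (Finset.mem_filter.1 s.2).2⟩ : SelF (PD b) (ι a)))
    ⟨fun s t e => Subtype.ext (hi _ (Finset.mem_powerset.1 (Finset.mem_filter.1 s.2).1) _
      (Finset.mem_powerset.1 (Finset.mem_filter.1 t.2).1) (congrArg Subtype.val e)), ?_⟩)).symm
  rintro ⟨u, hu⟩
  have hu' := AddSubgroup.mem_iInf.1 hu
  obtain ⟨s, h1, rfl⟩ := hs u ⟨Cmp.BB_le_Log (hu' none), hG.mem_OS (zero_mem _) fun v _ => hu' v⟩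
  exact ⟨⟨s, Finset.mem_filter.2 ⟨Finset.mem_powerset.2 h1, (hk s h1).1 hu⟩⟩, rfl⟩

end Pool.Agent.Lib.MP_a3f657_nt.Two.Win.Ar
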