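import Pool.Agent.Lib.MP_a3f657_nt.WAsmA

/-!
The final assembly.
-/

set_option linter.unusedSectionVars false

namespace Pool.Agent.Lib.MP_a3f657_nt.Two.Win

open Polynomial Finset WLaw Err

open scoped Classical

namespace Asm

variable {k : Type} [Field k] [Fintype k] [CharP k 2]

/-- The dimension of the radical. -/
noncomputable def rk (a b : k[X]) : ℕ := Nat.log 2 (Rd (VV a b) (BB a b)).ncard

/-- The normalised error. -/
noncomputable def EN (a b : k[X]) (s : ℕ) : ℝ :=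
  (2 ^ (pr b).card / Nat.card (WW a b) : ℝ) ^ s * Er (VV a b) (BB a b) s

lemma data (h1 : Arith) (h2 : MomId) (h3 : LocC) {a b : k[X]} {n : ℕ} (hd : Dg a n)
    (hb : b ∈ Om k n) : ∃ N : ℕ, (1 : ℝ) ≤ nJ a b ∧ (nJ a b : ℝ) ≤ 2 ^ (pr b).card ∧
      (∀ s, (nJ a b : ℝ) ^ s * Is s (2 ^ rk a b) = cc s * (nJ a b ^ s * uu s N) + EN a b s) ∧
      (1 / 2 ^ N : ℝ) ≤ 2 ^ (pr b).card / Fintype.card k ^ ((n - 2 * a.natDegree) / 4 - 1) ∧
      (¬ Bad a b → nJ a b = 2 ∧ sgW a b = (-1) ^ rk a b ∧ selOrder (EE a b) = 2 ^ rk a b) := by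
  obtain ⟨hs, rfl⟩ := mem_Om.1 hb
  obtain ⟨a1, a2, a3, a4, a5⟩ := h1 k a b hs hd.2.1.pos
  obtain ⟨r, N, b1, b2, b3, b4⟩ := h2 k[X] CharTwo.add_self_eq_zero _ _
    (a1.subset (show VV a b ≤ WW a b from inf_le_left)) a2
  obtain ⟨c1, c2⟩ := h3 k a b hd hs a1 a5
  have e : rk a b = r := by rw [rk, b1, Nat.log_pow one_lt_two]
  have : Finite (WW a b) := a1
  have w0 : 0 < Nat.card (WW a b) := Nat.card_pos
  have j1 : 1 ≤ nJ a b := card_pos.2 ⟨∅, by simp⟩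
  rw [b2] at a4
  have a6 : (2 ^ (pr b).card / Nat.card (WW a b) : ℝ) = nJ a b / 2 ^ N := by
    rw [div_eq_div_iff (by positivity) (by positivity), mul_comm, mul_comm (nJ a b : ℝ)]
    exact_mod_cast a4
  refine ⟨N, by exact_mod_cast j1, ?_, fun s => ?_, ?_, fun h => ?_⟩
  · exact_mod_cast (card_filter_le _ _).trans (card_powerset _).le
  · rw [EN, a6, e, ← sub_eq_iff_eq_add'.2 (b4 s), uu, cc, div_pow]
    field_simp
    ring
  · refine le_trans ?_ (div_le_div_of_nonneg_left (by positivity) (by positivity)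
      (show _ ≤ (Nat.card (WW a b) : ℝ) by exact_mod_cast c1))
    rw [a6]
    exact div_le_div_of_nonneg_right (by exact_mod_cast j1) (by positivity)
  · have j2 := c2.resolve_right h
    rw [j2, b1] at a3
    refine ⟨j2, ?_, by rw [e]; omega⟩
    rw [j2, ← pow_add] at a4
    obtain ⟨m, hm⟩ : ∃ m, N + (pr b).card = m + 1 := Nat.exists_eq_add_one.2 (Nat.pos_of_ne_zero
      fun h0 => by rw [h0] at a4; omega)
    rw [hm, pow_succ, Nat.mul_left_inj two_ne_zero] at a4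
    rw [sgW, ← a4, Nat.log_pow one_lt_two, ← hm, e, ← pow_add, neg_one_pow_eq_pow_mod_two,
      neg_one_pow_eq_pow_mod_two (n := r)]
    congr 1
    omega

lemma wn_mono {M M' n : ℕ} {a : k[X]} (h : Wn M' a n) (hM : M ≤ M') : Wn M a n := by
  obtain ⟨h1, h2, h3⟩ := wn h hM
  refine ⟨h.1, h.2.1, h2, le_trans ?_ h.2.2.2.1, ?_⟩
  · exact Nat.add_le_add_left (Nat.mul_le_mul_right _ hM) _
  · obtain ⟨w, rfl⟩ := Nat.exists_eq_add_of_le h1
    rw [Nat.add_sub_cancel_left] at h3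
    linarith

lemma abs_sgW (a b : k[X]) (j : ℕ) : |sgW a b ^ j| ≤ 1 := by simp [sgW, abs_mul, abs_pow]

variable (k) in
lemma moment (h1 : Arith) (h2 : MomId) (h3 : LocC) (h4 : Cnt) (h5 : BadC) (h6 : ErrP) (s : ℕ)
    {δ : ℝ} (hδ : 0 < δ) : ∃ M : ℕ, ∀ (a : k[X]) (n : ℕ), Wn M a n → ∀ j : ℕ,
      |∑ b ∈ Om k n, (((-1) ^ rk a b) ^ j * Is s (2 ^ rk a b) - cc s * sgW a b ^ j)| ≤
        δ * (Om k n).card := by
  have c0 := cc_pos s
  have c1 := cc_pos (2 * s)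
  obtain ⟨η, hη, e1⟩ : ∃ η : ℝ, 0 < η ∧ 2 * η * 4 ^ s * (cc (2 * s) * 4 ^ s + 4) = δ / 4 :=
    ⟨δ / 4 / (2 * 4 ^ s * (cc (2 * s) * 4 ^ s + 4)), by positivity, by field_simp⟩
  have k0 : 0 < KK s η := by rw [KK]; positivity
  obtain ⟨M₁, m1⟩ := two_sum k h4 (show 0 < δ / 16 / (cc s * 2 ^ s) by positivity)
  obtain ⟨M₂, m2⟩ := bad_sum k h4 h5 (2 ^ (2 * s)) (show 0 < δ / 16 / KK s η by positivity)
  obtain ⟨M₃, m3⟩ := h6 k s _ (show 0 < δ / 16 by positivity)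
  obtain ⟨M₄, m4⟩ := h6 k (2 * s) _ one_pos
  refine ⟨2 + M₁ + M₂ + M₃ + M₄, fun a n hw j => ?_⟩
  have b1 := m1 a n (wn_mono hw (by omega))
  have b2 := m2 a n (wn_mono hw (by omega))
  have b3 : |∑ b ∈ Om k n, sgW a b ^ j * EN a b s| ≤ _ := m3 a n (wn_mono hw (by omega)) j
  have b4 : |∑ b ∈ Om k n, sgW a b ^ 0 * EN a b (2 * s)| ≤ _ := m4 a n (wn_mono hw (by omega)) 0
  have b5 : (Fintype.card k : ℝ) ^ n ≤ 4 * (Om k n).card := by
    exact_mod_cast (h4 k n hw.2.1.pos).1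
  have b6 : |∑ b ∈ Om k n, (((-1) ^ rk a b) ^ j * Is s (2 ^ rk a b) - cc s * sgW a b ^ j -
      sgW a b ^ j * EN a b s / 2 ^ s)| ≤ ∑ b ∈ Om k n, (cc s * 2 ^ s * (2 ^ (pr b).card /
        Fintype.card k ^ ((n - 2 * a.natDegree) / 4 - 1)) + KK s η *
        (if Bad a b then ((2 ^ (2 * s) : ℕ) : ℝ) ^ (pr b).card else 0) +
        2 * η * 4 ^ s * (cc (2 * s) * 4 ^ s + EN a b (2 * s))) := by
    refine (abs_sum_le_sum_abs _ _).trans (sum_le_sum fun b hb => ?_)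
    obtain ⟨N, d1, d2, d3, d4, d5⟩ := data h1 h2 h3 (dg hw (by omega)) hb
    refine (pt hη d1 d2 (d3 s) (d3 _) (abs_sgW a b j) (by simp [abs_pow]) (Bad a b) fun h =>
      ⟨by exact_mod_cast (d5 h).1, by rw [(d5 h).2.1]⟩).trans ?_
    rw [pow_right_comm (2 : ℝ) _ (2 * s), Nat.cast_pow, Nat.cast_two]
    gcongr
  simp only [pow_zero, one_mul] at b4
  rw [sum_sub_distrib, ← sum_div, sum_add_distrib, sum_add_distrib, ← mul_sum, ← mul_sum,
    ← mul_sum, sum_add_distrib, sum_const, nsmul_eq_mul] at b6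
  rw [div_mul_eq_mul_div, le_div_iff₀' (by positivity)] at b1 b2
  have b7 := mul_le_mul_of_nonneg_left (((le_abs_self _).trans b4).trans b5)
    (show 0 ≤ 2 * η * 4 ^ s by positivity)
  have b8 := mul_le_mul_of_nonneg_left b5 hδ.le
  have b9 : |(∑ b ∈ Om k n, sgW a b ^ j * EN a b s) / 2 ^ s| ≤ δ / 16 * Fintype.card k ^ n := by
    rw [abs_div, abs_of_pos (show (0 : ℝ) < 2 ^ s by positivity)]
    exact (div_le_self (abs_nonneg _) (one_le_pow₀ one_le_two)).trans b3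
  have e2 := congrArg (· * ((Om k n).card : ℝ)) e1
  refine (abs_add_le _ _).trans' (le_of_eq (congrArg _ (sub_add_cancel _
    ((∑ b ∈ Om k n, sgW a b ^ j * EN a b s) / 2 ^ s)).symm)) |>.trans ?_
  linarith

end Asm

open Asm

theorem lawW (h1 : Arith) (h2 : MomId) (h3 : LocC) (h4 : Cnt) (h5 : BadC) (h6 : ErrP) (h7 : MuP)
    (h8 : Law) (k : Type) [Field k] [Fintype k] [CharP k 2] (r : ℕ) (ε : ℝ) (hε : 0 < ε) :
    ∃ M : ℕ, ∀ (a : k[X]) (n : ℕ), Wn M a n →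
      |(((Om k n).filter fun b => selOrder (EE a b) = 2 ^ r).card : ℝ) / (Om k n).card - PR r| ≤
        ε := by
  obtain ⟨S, δ, hδ, hL⟩ := h8 r _ (half_pos hε)
  choose M₁ m1 using fun s => moment k h1 h2 h3 h4 h5 h6 s (half_pos hδ)
  choose M₂ m2 using fun s => h7 k _ (show 0 < δ / 8 / cc s by have := cc_pos s; positivity)
  obtain ⟨M₃, m3⟩ := bad_sum k h4 h5 1 (show 0 < ε / 8 by positivity)
  refine ⟨2 + M₃ + ∑ s ∈ range (S + 1), (M₁ s + M₂ s), fun a n hw => ?_⟩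
  have b5 : (Fintype.card k : ℝ) ^ n ≤ 4 * (Om k n).card := by
    exact_mod_cast (h4 k n hw.2.1.pos).1
  have hq : (0 : ℝ) < Fintype.card k := by exact_mod_cast Fintype.card_pos
  have o0 : (0 : ℝ) < (Om k n).card := by linarith [pow_pos hq n]
  have o1 := mul_pos hδ o0
  have b1 := hL _ (Om k n) (rk a) (card_pos.1 (by exact_mod_cast o0)) fun s hs => by
    have d1 := single_le_sum (f := fun s => M₁ s + M₂ s) (fun _ _ => Nat.zero_le _)
      (mem_range.2 (Nat.lt_add_one_of_le hs))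
    have d2 := m1 s a n (wn_mono hw (by omega))
    have d3 := m2 s a n (wn_mono hw (by omega))
    have d4 := d2 0
    have d5 := d2 1
    have c0 := cc_pos s
    simp only [pow_zero, pow_one, one_mul, mul_one] at d4 d5
    refine ⟨le_trans d4 (by linarith), ?_⟩
    rw [sum_sub_distrib, ← mul_sum] at d5
    rw [div_mul_eq_mul_div, le_div_iff₀' c0, ← abs_of_pos c0, ← abs_mul] at d3
    have d6 := mul_le_mul_of_nonneg_left b5 hδ.le
    linarith [abs_sub_abs_le_abs_sub (∑ b ∈ Om k n, (-1) ^ rk a b * Is s (2 ^ rk a b))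
      (cc s * ∑ b ∈ Om k n, sgW a b)]
  have b2 := m3 a n (wn_mono hw (by omega))
  have b3 : |∑ b ∈ Om k n, ((if selOrder (EE a b) = 2 ^ r then (1 : ℝ) else 0) -
      if rk a b = r then 1 else 0)| ≤ ε / 8 * Fintype.card k ^ n := by
    refine (abs_sum_le_sum_abs _ _).trans ((sum_le_sum fun b hb => ?_).trans b2)
    obtain ⟨-, -, -, -, -, d5⟩ := data h1 h2 h3 (dg hw (by omega)) hb
    by_cases h : Bad a b
    · rw [if_pos h]
      split_ifs <;> simp
    · simp [h, (d5 h).2.2]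
  rw [sum_sub_distrib, sum_boole, sum_boole] at b3
  have b4 := div_le_div_of_nonneg_right (b3.trans (mul_le_mul_of_nonneg_left b5
    (by positivity))) o0.le
  rw [← mul_assoc, mul_div_cancel_right₀ _ o0.ne', ← abs_of_pos o0, ← abs_div, sub_div] at b4
  exact (abs_sub_le _ _ _).trans ((add_le_add b4 b1).trans (by linarith))

end Pool.Agent.Lib.MP_a3f657_nt.Two.Win
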