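import Pool.Agent.Lib.MP_a3f657_nt.WDefs
import Pool.Agent.Lib.MP_a3f657_nt.C2SfFourier

/-!
The error terms and the sign are small on average.
-/

namespace Pool.Agent.Lib.MP_a3f657_nt.Two.Win

open Polynomial

open scoped Classical

namespace Err

variable {k : Type} [Field k] [Fintype k] [CharP k 2]

lemma exists_root (k : Type) [Field k] [Fintype k] :
    ∃ t : ℝ, 1 < t ∧ (Fintype.card k : ℝ) = t ^ 80 ∧ √(Fintype.card k) = t ^ 40 := by
  have hq : (1 : ℝ) < Fintype.card k := by exact_mod_cast Fintype.one_lt_card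
  have e : ((Fintype.card k : ℝ) ^ ((80 : ℕ) : ℝ)⁻¹) ^ 80 = Fintype.card k :=
    Real.rpow_inv_natCast_pow (by linarith) (by norm_num)
  have h1 : 1 < (Fintype.card k : ℝ) ^ ((80 : ℕ) : ℝ)⁻¹ := Real.one_lt_rpow hq (by positivity)
  refine ⟨_, h1, e.symm, ?_⟩
  rw [Real.sqrt_eq_iff_mul_self_eq (by linarith) (by positivity), ← pow_add, e]

lemma num {t ε : ℝ} (ht : 1 < t) (hε : 0 < ε) (C : ℝ) :
    ∃ M : ℕ, ∀ e E N : ℕ, M ≤ e → E + e ≤ N → C * t ^ E ≤ ε * t ^ N := by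
  obtain ⟨M, hM⟩ := pow_unbounded_of_one_lt (C / ε) ht
  refine ⟨M, fun e E N h1 h2 => ?_⟩
  have h3 : C ≤ ε * t ^ e := by
    rw [div_lt_iff₀' hε] at hM
    exact hM.le.trans (mul_le_mul_of_nonneg_left (pow_le_pow_right₀ ht.le h1) hε.le)
  calc C * t ^ E ≤ ε * t ^ e * t ^ E := mul_le_mul_of_nonneg_right h3 (by positivity)
    _ = ε * t ^ (E + e) := by ring
    _ ≤ _ := mul_le_mul_of_nonneg_left (pow_le_pow_right₀ ht.le h2) hε.le

omit [Fintype k] [CharP k 2] in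
lemma wn {M n : ℕ} {a : k[X]} (h : Wn M a n) {c : ℕ} (hc : c ≤ M) :
    2 * a.natDegree ≤ n ∧ c ≤ a.natDegree ∧ c * (n - 2 * a.natDegree) ≤ a.natDegree := by
  obtain ⟨-, -, h1, h2, h3⟩ := h
  have h4 : 2 * a.natDegree ≤ n := le_trans (Nat.le_add_right _ _) h2
  obtain ⟨w, rfl⟩ := Nat.exists_eq_add_of_le h4
  refine ⟨h4, hc.trans h1, ?_⟩
  rw [Nat.add_sub_cancel_left]
  have := Nat.mul_le_mul_right w hc
  nlinarith

omit [Fintype k] [CharP k 2] in
lemma dg {M n : ℕ} {a : k[X]} (h : Wn M a n) (hM : 2 ≤ M) : Dg a n := by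
  obtain ⟨h1, -, h2⟩ := wn h hM
  exact ⟨h.1, h.2.1, h1, by omega⟩

omit [CharP k 2] in
lemma mem_Om {n : ℕ} {b : k[X]} : b ∈ Om k n ↔ Squarefree b ∧ b.natDegree = n := by
  simp only [Om, Finset.mem_filter, Set.Finite.mem_toFinset, Set.mem_ofPred_eq]
  exact ⟨fun h => h.2, fun h => ⟨h.2.le, h⟩⟩

/-- There are few reduced polynomials of bounded degree. -/
lemma card_red (D : ℕ) :
    ((Bad.PL k (D + 1)).filter (· ∈ Red k)).card ≤ Fintype.card k ^ ((D + 1) / 2 + 1) := by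
  have := Finset.card_le_card_of_injOn (s := (Bad.PL k (D + 1)).filter (· ∈ Red k))
    (t := (Finset.univ : Finset (k × (Fin ((D + 1) / 2) → k))))
    (fun r => (r.coeff 0, fun i => r.coeff (2 * i + 1))) (fun _ _ => Finset.mem_univ _) (by
      intro r hr r' hr' h
      obtain ⟨h1, h2⟩ := Finset.mem_filter.1 (Finset.mem_coe.1 hr)
      obtain ⟨h3, h4⟩ := Finset.mem_filter.1 (Finset.mem_coe.1 hr')
      rw [Bad.mem_PL_succ] at h1 h3
      obtain ⟨e1, e2⟩ := Prod.mk.inj h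
      ext i
      by_cases h0 : i = 0
      · rw [h0, e1]
      rcases Nat.even_or_odd i with hi | ⟨m, rfl⟩
      · rw [h2.1 i hi h0, h4.1 i hi h0]
      by_cases hm : m < (D + 1) / 2
      · exact congrFun e2 ⟨m, hm⟩
      · rw [coeff_eq_zero_of_natDegree_lt (by omega), coeff_eq_zero_of_natDegree_lt (by omega)])
  simpa [pow_succ'] using this

lemma mem_tup {G : Type} [AddCommGroup G] {s : ℕ} {V : AddSubgroup G} (hV : (V : Set G).Finite)
    {x : (Fin s → G) × (Fin s → G)} :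
    x ∈ tup V s ↔ (∀ i, x.1 i ∈ V ∧ x.2 i ∈ V) ∧ Ind x.1 ∧ ¬ Dgn x.1 x.2 := by
  simp [tup, fs, hV, forall_and]

/-- The number of tuples that occur. -/
lemma card_tup (h2 : LocA) (h3 : Arith) {a : k[X]} {n : ℕ} (hd : Dg a n) (s : ℕ) :
    ((Om k n).biUnion fun b => tup (VV a b) s).card ≤
      Fintype.card k ^ (((n - a.natDegree) / 2 + 1) / 2 + 2 + 2 * s * (n - 2 * a.natDegree + 2)) := by
  obtain ⟨a₀, ha₀, -, hA⟩ := h2 k a
  have hq : 2 ≤ Fintype.card k := Fintype.one_lt_card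
  set w := n - 2 * a.natDegree with hw
  set D := (n - a.natDegree) / 2 with hD
  let S : k[X] → Finset k[X] := fun h => Bad.PL k (w + 1) ∪ (Bad.PL k (w + 1)).image (· + h)
  have hS : ∀ h, (S h).card ≤ Fintype.card k ^ (w + 2) := fun h => by
    refine (Finset.card_union_le _ _).trans ((Nat.add_le_add_left Finset.card_image_le _).trans ?_)
    rw [Bad.card_PL, pow_succ _ (w + 1)]
    nlinarith [Nat.zero_le (Fintype.card k ^ (w + 1))]
  let Hs : Finset k[X] := insert 0 (((Bad.PL k (D + 1)).filter (· ∈ Red k)).image (· + a₀))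
  have hH : Hs.card ≤ Fintype.card k ^ ((D + 1) / 2 + 2) := by
    refine (Finset.card_insert_le _ _).trans
      ((Nat.add_le_add_right (Finset.card_image_le.trans (card_red D)) _).trans ?_)
    rw [pow_succ _ ((D + 1) / 2 + 1)]
    nlinarith [Nat.one_le_pow ((D + 1) / 2 + 1) (Fintype.card k) (by omega)]
  have hsub : ((Om k n).biUnion fun b => tup (VV a b) s) ⊆ Hs.biUnion fun h =>
      (Fintype.piFinset fun _ : Fin s => S h) ×ˢ Fintype.piFinset fun _ : Fin s => S h := by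
    intro x hx
    obtain ⟨b, hb, hx⟩ := Finset.mem_biUnion.1 hx
    obtain ⟨b1, b2⟩ := mem_Om.1 hb
    have hf := (h3 k a b b1 (by rw [b2]; exact hd.2.1.pos)).1
    have hm := ((mem_tup (V := VV a b) (hf.subset fun _ hy => hy.1)).1 hx).1
    obtain ⟨k1, k2⟩ := hA b (b2 ▸ hd)
    rw [b2] at k1 k2
    obtain ⟨h, g1, g2⟩ : ∃ h ∈ Hs, ∀ y ∈ WW a b, y ∈ S h := by
      by_cases hc : ∀ y ∈ WW a b, y.natDegree ≤ w
      · exact ⟨0, Finset.mem_insert_self _ _, fun y hy =>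
          Finset.mem_union_left _ (Bad.mem_PL_succ.2 (hc y hy))⟩
      push Not at hc
      obtain ⟨h, c1, c2⟩ := hc
      refine ⟨h, Finset.mem_insert_of_mem (Finset.mem_image.2 ⟨h + a₀, Finset.mem_filter.2
        ⟨Bad.mem_PL_succ.2 ((k1 h c1).resolve_left c2.not_ge), add_mem c1.1 ha₀⟩, ?_⟩),
        fun y hy => ?_⟩
      · rw [add_assoc, CharTwo.add_self_eq_zero, add_zero]
      rcases le_or_gt y.natDegree w with c3 | c3
      · exact Finset.mem_union_left _ (Bad.mem_PL_succ.2 c3)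
      · refine Finset.mem_union_right _ (Finset.mem_image.2 ⟨y + h,
          Bad.mem_PL_succ.2 (k2 y hy h c1 c3 c2), ?_⟩)
        rw [add_assoc, CharTwo.add_self_eq_zero, add_zero]
    exact Finset.mem_biUnion.2 ⟨h, g1, Finset.mem_product.2
      ⟨Fintype.mem_piFinset.2 fun i => g2 _ (hm i).1.1,
        Fintype.mem_piFinset.2 fun i => g2 _ (hm i).2.1⟩⟩
  refine (Finset.card_le_card hsub).trans ((Finset.card_biUnion_le_card_mul _ _
    (Fintype.card k ^ (2 * s * (w + 2))) fun h _ => ?_).trans ?_)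
  · rw [Finset.card_product, Fintype.card_piFinset_const, ← pow_add, ← two_mul, mul_comm (2 * s),
      pow_mul _ (w + 2)]
    exact Nat.pow_le_pow_left (hS h) _
  · rw [pow_add _ _ (2 * s * (w + 2))]
    exact Nat.mul_le_mul_right _ hH

end Err

theorem errP (h1 : TupB) (h2 : LocA) (h3 : Arith) : ErrP := by
  intro k _ _ _ s ε hε
  obtain ⟨t, ht, hq, hq'⟩ := Err.exists_root k
  obtain ⟨C, hC, hT⟩ := h1 k s t ht
  obtain ⟨M, hM⟩ := Err.num ht hε C
  refine ⟨M + (320 * s + 240), fun a n hW j => ?_⟩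
  have hd := Err.dg hW (by omega)
  obtain ⟨w1, w2, w3⟩ := Err.wn hW (Nat.le_add_left _ M)
  have w4 := (Err.wn hW (Nat.le_add_right M _)).2.1
  have hfin : ∀ b ∈ Om k n, (VV a b : Set k[X]).Finite := fun b hb => by
    obtain ⟨b1, b2⟩ := Err.mem_Om.1 hb
    exact (h3 k a b b1 (by rw [b2]; exact hd.2.1.pos)).1.subset fun _ hy => hy.1
  have hI : ∀ x ∈ (Om k n).biUnion fun b => tup (VV a b) s, Ind x.1 ∧ ¬ Dgn x.1 x.2 :=
    fun x hx => by
      obtain ⟨b, hb, hx⟩ := Finset.mem_biUnion.1 hx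
      exact ((Err.mem_tup (hfin b hb)).1 hx).2
  have e : ∑ b ∈ Om k n, sgW a b ^ j * ((2 ^ (pr b).card / Nat.card (WW a b) : ℝ) ^ s *
      Er (VV a b) (BB a b) s) = ∑ x ∈ (Om k n).biUnion fun b => tup (VV a b) s,
      ∑ b ∈ (Om k n).filter fun b => ∀ i, x.1 i ∈ VV a b ∧ x.2 i ∈ VV a b,
        sgW a b ^ j * ((2 ^ (pr b).card / Nat.card (WW a b) : ℝ) ^ s *
          sr (∑ i, BB a b (x.1 i) (x.2 i))) := by
    simp only [Er, Finset.mul_sum]
    refine Finset.sum_comm' fun b x => ⟨fun h => ⟨Finset.mem_filter.2 ⟨h.1,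
      ((Err.mem_tup (hfin b h.1)).1 h.2).1⟩, Finset.mem_biUnion.2 ⟨b, h.1, h.2⟩⟩, fun h => ?_⟩
    obtain ⟨g1, g2⟩ := Finset.mem_filter.1 h.1
    exact ⟨g1, (Err.mem_tup (hfin b g1)).2 ⟨g2, hI x h.2⟩⟩
  rw [e]
  refine (Finset.abs_sum_le_sum_abs _ _).trans ((Finset.sum_le_card_nsmul _ _ _ fun x hx =>
    hT a n hd j x.1 x.2 (hI x hx).1 (hI x hx).2).trans ?_)
  have hc : (((Om k n).biUnion fun b => tup (VV a b) s).card : ℝ) ≤ (Fintype.card k : ℝ) ^
      (((n - a.natDegree) / 2 + 1) / 2 + 2 + 2 * s * (n - 2 * a.natDegree + 2)) := by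
    exact_mod_cast Err.card_tup h2 h3 hd s
  rw [nsmul_eq_mul]
  refine (mul_le_mul_of_nonneg_right hc (by positivity)).trans ?_
  rw [hq', hq, ← pow_mul, ← pow_mul, ← pow_mul, mul_assoc C, mul_left_comm, ← pow_add, ← pow_add]
  refine hM a.natDegree _ _ w4 ?_
  have w5 := hd.2.2.2
  obtain ⟨w, rfl⟩ := Nat.exists_eq_add_of_le w1
  rw [Nat.add_sub_cancel_left] at w3 ⊢
  have w6 : 2 * s * (w + 2) = 2 * (s * w) + 4 * s := by ring
  have w7 : (320 * s + 240) * w = 320 * (s * w) + 240 * w := by ring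
  rw [w6]
  omega

theorem muP (h1 : MuB) (h2 : CellSum) (h3 : LocB) : MuP := by
  intro k _ _ _ ε hε
  obtain ⟨t, ht, hq, hq'⟩ := Err.exists_root k
  obtain ⟨T, C, hC, hT⟩ := h1 k t ht
  obtain ⟨M, hM⟩ := Err.num ht hε ((2 * 1) ^ (irrLe k T).card * C)
  refine ⟨M + (2 * (PiT k T).natDegree + 4), fun a n hW => ?_⟩
  have hd := Err.dg hW (by omega)
  obtain ⟨w1, w2, -⟩ := Err.wn hW (Nat.le_add_left _ M)
  have w4 := (Err.wn hW (Nat.le_add_right M _)).2.1
  have hP : PiT k T ≠ 0 := (monic_prod_of_monic _ _ fun _ hp => (mem_irrLe.1 hp).2.1).ne_zero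
  have hS : SmallDvd T (PiT k T) := fun p p1 p2 p3 =>
    Finset.dvd_prod_of_mem _ (mem_irrLe.2 ⟨p3, p1, p2⟩)
  have key := h2 k T (n - a.natDegree + 1) n (fun _ => -1)
    (fun b => (-1) ^ (Nat.log 2 (Nat.card (WW a b)) + 1))
    (C * √(Fintype.card k) ^ n * t ^ (n + (PiT k T).natDegree + (n - a.natDegree + 1))) 1 le_rfl
    (fun _ _ _ => by simp) (fun χ m hm => (hT _ _ m χ hP hS).trans (by
      have : 1 ≤ √(Fintype.card k : ℝ) := hq' ▸ one_le_pow₀ ht.le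
      have := ht.le
      gcongr)) (fun _ => by simp) (fun b hb b' hb' h => by
      have b1 := (Err.mem_Om.1 hb).2
      rw [tc, tc, AdjoinRoot.mk_eq_mk, reverse_congr b1 (Err.mem_Om.1 hb').2,
        show n + 1 - (n - a.natDegree + 1) = a.natDegree by omega] at h
      simp only [(h3 k a b b' (b1 ▸ hd) h).1])
  have e : ((∑ b ∈ Om k n, sgW a b : ℝ) : ℂ) = ∑ b ∈ Om k n,
      (-1) ^ (Nat.log 2 (Nat.card (WW a b)) + 1) * ∏ _p ∈ pr b, (-1 : ℂ) := by
    simp [sgW]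
  rw [← e, Complex.norm_real, Real.norm_eq_abs] at key
  refine key.trans ?_
  rw [hq', hq, ← pow_mul, ← pow_mul, ← pow_mul]
  have w5 := hd.2.2.2
  refine le_trans (le_of_eq ?_) (hM a.natDegree (80 + 40 * ((PiT k T).natDegree +
    (n - a.natDegree + 1)) + 40 * n + (n + (PiT k T).natDegree + (n - a.natDegree + 1))) _ w4
    (by omega))
  ring

end Pool.Agent.Lib.MP_a3f657_nt.Two.Win
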