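import Pool.Agent.Lib.MP_a3f657_nt.WLaw
import Pool.Agent.Lib.MP_a3f657_nt.WErr

/-!
Elementary inequalities for the final assembly.
-/

set_option linter.unusedSectionVars false

namespace Pool.Agent.Lib.MP_a3f657_nt.Two.Win.Asm

open Polynomial Finset WLaw Err

open scoped Classical

/-- The predicted moments. -/
noncomputable def cc (s : ℕ) : ℝ := 2 ^ (s * (s + 1) / 2)

/-- The proportion of independent tuples. -/
noncomputable def uu (s N : ℕ) : ℝ := Is s (2 ^ N) / (2 ^ N) ^ s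

lemma cc_pos (s : ℕ) : 0 < cc s := by rw [cc]; positivity

lemma Is_le (s r : ℕ) : Is s (2 ^ r) ≤ (2 ^ r) ^ s := by
  induction s with
  | zero => simp [Is]
  | succ s ih =>
    rw [Is_succ, pow_succ]
    exact (mul_le_mul_of_nonneg_left (sub_le_self _ (by positivity)) (Is_nonneg s r)).trans
      (mul_le_mul_of_nonneg_right ih (by positivity))

lemma uu_nonneg (s N : ℕ) : 0 ≤ uu s N := div_nonneg (Is_nonneg s N) (by positivity)

lemma uu_le (s N : ℕ) : uu s N ≤ 1 := div_le_one_of_le₀ (Is_le s N) (by positivity)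

lemma uu_ge (s N : ℕ) : 1 - uu s N ≤ 2 ^ s / 2 ^ N := by
  induction s with
  | zero => simp [uu, Is]
  | succ s ih =>
    have e : uu (s + 1) N = uu s N - uu s N * (2 ^ s / 2 ^ N) := by
      rw [uu, uu, Is_succ, pow_succ]
      field_simp
    have h := mul_le_mul_of_nonneg_right (uu_le s N) (show (0 : ℝ) ≤ 2 ^ s / 2 ^ N by positivity)
    rw [e, pow_succ, mul_div_right_comm]
    linarith

lemma Is_sq (s r : ℕ) : Is s (2 ^ r) ^ 2 ≤ 2 ^ (2 * s * (2 * s)) + 4 ^ s * Is (2 * s) (2 ^ r) := by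
  have h1 : Is s (2 ^ r) ^ 2 ≤ (2 ^ r) ^ (2 * s) := by
    rw [mul_comm, pow_mul]
    exact pow_le_pow_left₀ (Is_nonneg s r) (Is_le s r) 2
  have h2 := Is_nonneg (2 * s) r
  refine h1.trans ?_
  rcases lt_or_ge r (2 * s) with h | h
  · rw [← pow_mul]
    exact le_add_of_le_of_nonneg (pow_le_pow_right₀ one_le_two (Nat.mul_le_mul_right _ h.le))
      (by positivity)
  · have h3 := Is_ge h
    rw [div_pow, div_le_iff₀' (by positivity), pow_mul 2 2 s, show (2 : ℝ) ^ 2 = 4 by norm_num] at h3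
    exact le_add_of_nonneg_of_le (by positivity) h3

lemma amgm {y t : ℝ} (ht : 0 < t) : y ≤ t + y ^ 2 / t := by
  rw [← sub_le_iff_le_add', le_div_iff₀ ht]
  nlinarith [sq_nonneg (y - t), sq_nonneg y, sq_nonneg t]

/-- A constant. -/
noncomputable def KK (s : ℕ) (η : ℝ) : ℝ :=
  2 * cc s + 2 / η + 2 * η * (2 ^ (2 * s * (2 * s)) + 4 ^ s * cc (2 * s))

lemma pt {s r N : ℕ} {J w E E' η τ τ' : ℝ} (hη : 0 < η) (hJ : 1 ≤ J) (hw : J ≤ w)
    (hE : J ^ s * Is s (2 ^ r) = cc s * (J ^ s * uu s N) + E)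
    (hE' : J ^ (2 * s) * Is (2 * s) (2 ^ r) = cc (2 * s) * (J ^ (2 * s) * uu (2 * s) N) + E')
    (hτ : |τ| ≤ 1) (hτ' : |τ'| ≤ 1) (g : Prop) (hg : ¬ g → J = 2 ∧ τ = τ') :
    |τ' * Is s (2 ^ r) - cc s * τ - τ * E / 2 ^ s| ≤ cc s * 2 ^ s * (1 / 2 ^ N) +
      KK s η * (if g then w ^ (2 * s) else 0) + 2 * η * 4 ^ s * (cc (2 * s) * 4 ^ s + E') := by
  have c0 := cc_pos s
  have c1 := cc_pos (2 * s)
  have i0 := Is_nonneg s r
  have i1 := Is_nonneg (2 * s) r
  split_ifs with h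
  · have j0 : 1 ≤ J ^ s := one_le_pow₀ hJ
    have j1 : J ^ (2 * s) ≤ w ^ (2 * s) := pow_le_pow_left₀ (by linarith) hw _
    have j2 : J ^ s ≤ J ^ (2 * s) := pow_le_pow_right₀ hJ (by omega)
    have a1 : |τ' * Is s (2 ^ r)| ≤ J ^ s * Is s (2 ^ r) := by
      rw [abs_mul, abs_of_nonneg i0]
      exact mul_le_mul_of_nonneg_right (hτ'.trans j0) i0
    have a2 : |cc s * τ| ≤ cc s * w ^ (2 * s) := by
      rw [abs_mul, abs_of_pos c0]
      exact mul_le_mul_of_nonneg_left (by linarith) c0.le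
    have a3 : |τ * E / 2 ^ s| ≤ J ^ s * Is s (2 ^ r) + cc s * w ^ (2 * s) := by
      rw [abs_div, abs_mul, abs_of_pos (show (0 : ℝ) < 2 ^ s by positivity)]
      refine (div_le_self (by positivity) (one_le_pow₀ one_le_two)).trans
        ((mul_le_of_le_one_left (abs_nonneg _) hτ).trans ?_)
      rw [← sub_eq_iff_eq_add'.2 hE]
      have := uu_nonneg s N
      refine (abs_sub _ _).trans (add_le_add (abs_of_nonneg (by positivity)).le ?_)
      rw [abs_of_nonneg (by positivity)]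
      exact mul_le_mul_of_nonneg_left ((mul_le_of_le_one_right (by positivity)
        (uu_le s N)).trans (j2.trans j1)) c0.le
    have a4 := amgm (y := J ^ s * Is s (2 ^ r)) (t := 1 / η) (by positivity)
    have a5 : (J ^ s * Is s (2 ^ r)) ^ 2 ≤ (2 ^ (2 * s * (2 * s)) + 4 ^ s * cc (2 * s)) *
        w ^ (2 * s) + 4 ^ s * E' := by
      have b1 := mul_le_mul_of_nonneg_left (Is_sq s r) (show 0 ≤ J ^ (2 * s) by positivity)
      have b2 := mul_le_mul_of_nonneg_right j1 (show (0 : ℝ) ≤ 2 ^ (2 * s * (2 * s)) by positivity)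
      have b3 := mul_le_mul_of_nonneg_left ((mul_le_of_le_one_right (by positivity)
        (uu_le (2 * s) N)).trans j1) (show (0 : ℝ) ≤ 4 ^ s * cc (2 * s) by positivity)
      rw [mul_pow, ← pow_mul, mul_comm s, ← sub_eq_iff_eq_add'.2 hE']
      linarith
    have a6 := mul_le_mul_of_nonneg_left a5 hη.le
    have a7 := mul_le_mul_of_nonneg_left (j0.trans (j2.trans j1))
      (show 0 ≤ 1 / η by positivity)
    rw [div_div_eq_mul_div, div_one] at a4
    have a8 : 0 ≤ cc s * 2 ^ s * (1 / 2 ^ N) := by positivity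
    have a9 : 0 ≤ η * 4 ^ s * (cc (2 * s) * 4 ^ s) := by positivity
    refine (abs_sub _ _).trans ((add_le_add_left (abs_sub _ _) _).trans ?_)
    rw [KK, show 2 / η = 2 * (1 / η) by ring]
    linarith
  · obtain ⟨rfl, rfl⟩ := hg h
    have e : τ * Is s (2 ^ r) - cc s * τ - τ * E / 2 ^ s = -(τ * (cc s * (1 - uu s N))) := by
      rw [← sub_eq_iff_eq_add'.2 hE]
      field_simp
      ring
    have a1 : 0 ≤ cc (2 * s) * 4 ^ s + E' := by
      have b1 := mul_le_mul_of_nonneg_left (uu_le (2 * s) N)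
        (show 0 ≤ cc (2 * s) * 2 ^ (2 * s) by positivity)
      have b2 : (0 : ℝ) ≤ 2 ^ (2 * s) * Is (2 * s) (2 ^ r) := by positivity
      rw [show (4 : ℝ) ^ s = 2 ^ (2 * s) by rw [pow_mul]; norm_num]
      linarith
    have a2 := sub_nonneg.2 (uu_le s N)
    rw [e, abs_neg, abs_mul, abs_of_nonneg (mul_nonneg c0.le a2), mul_zero, add_zero]
    refine le_add_of_le_of_nonneg ((mul_le_of_le_one_left (by positivity) hτ).trans ?_)
      (by positivity)
    rw [mul_assoc, mul_one_div]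
    exact mul_le_mul_of_nonneg_left (uu_ge s N) c0.le

variable {k : Type} [Field k] [Fintype k] [CharP k 2]

variable (k) in
lemma small (D : ℕ) {ε : ℝ} (hε : 0 < ε) : ∃ M : ℕ, 2 ≤ M ∧ ∀ (a : k[X]) (n : ℕ), Wn M a n →
    (Fintype.card k : ℝ) ^ 4 * (n + 1) ^ D ≤ ε * Fintype.card k ^ ((n - 2 * a.natDegree) / 16) := by
  obtain ⟨t, ht⟩ := pow_unbounded_of_one_lt ε⁻¹ (one_lt_two (α := ℝ))
  refine ⟨16 * (4 * D + 4 + t), by omega, fun a n h => ?_⟩
  obtain ⟨-, -, h1, h2⟩ := dg h (by omega)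
  obtain ⟨-, -, h3, h4, -⟩ := h
  set L := Nat.log 2 a.natDegree
  have h5 : a.natDegree < 2 ^ (L + 1) := Nat.lt_pow_succ_log_self one_lt_two _
  have h6 : 1 ≤ L := Nat.log_pos one_lt_two (by omega)
  have h7 : n + 1 ≤ 2 ^ (4 * L) := by
    refine le_trans ?_ (Nat.pow_le_pow_right two_pos (show L + 1 + 2 ≤ 4 * L by omega))
    rw [pow_add]
    omega
  have h8 : 4 + (t + 4 * L * D) ≤ (n - 2 * a.natDegree) / 16 := by
    rw [Nat.le_div_iff_mul_le (by norm_num)]
    refine Nat.le_sub_of_add_le' (le_trans ?_ h4)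
    nlinarith [Nat.mul_le_mul_left (4 + t) h6]
  have hq : (2 : ℝ) ≤ Fintype.card k := by exact_mod_cast Fintype.one_lt_card (α := k)
  refine le_trans ?_ (mul_le_mul_of_nonneg_left (pow_le_pow_right₀ (by linarith) h8) hε.le)
  rw [pow_add, mul_left_comm]
  refine mul_le_mul_of_nonneg_left (le_trans ?_ (mul_le_mul_of_nonneg_left
    (pow_le_pow_left₀ zero_le_two hq _) hε.le)) (by positivity)
  rw [pow_add, ← mul_assoc, pow_mul]
  rw [inv_lt_iff_one_lt_mul₀' hε] at ht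
  refine le_trans (pow_le_pow_left₀ (by positivity) ?_ D) (le_mul_of_one_le_left (by positivity) ht.le)
  exact_mod_cast h7

variable (k) in
lemma bad_sum (h1 : Cnt) (h2 : BadC) (B : ℕ) {ε : ℝ} (hε : 0 < ε) :
    ∃ M : ℕ, ∀ (a : k[X]) (n : ℕ), Wn M a n →
      ∑ b ∈ Om k n, (if Bad a b then (B : ℝ) ^ (pr b).card else 0) ≤ ε * Fintype.card k ^ n := by
  obtain ⟨M, hM, h⟩ := small k (B ^ 2 + 1) (half_pos hε)
  refine ⟨M, fun a n hw => ?_⟩
  have hq : (1 : ℝ) ≤ Fintype.card k := by exact_mod_cast Fintype.card_pos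
  have h3 := h a n hw
  set t : ℝ := Fintype.card k ^ ((n - 2 * a.natDegree) / 16) with ht
  have t0 : 0 < t := by positivity
  have h4 : (∑ b ∈ Om k n, ((B : ℝ) ^ (pr b).card) ^ 2) ≤
      Fintype.card k ^ (n + 1) * (n + 1) ^ B ^ 2 := by
    simp only [← pow_right_comm _ 2]
    exact_mod_cast (h1 k n hw.2.1.pos).2 (B ^ 2)
  have h5 : (((Om k n).filter (Bad a)).card : ℝ) * t * t ≤ n * Fintype.card k ^ (n + 4) := by
    refine le_trans ?_ (show (((Om k n).filter (Bad a)).card : ℝ) *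
      Fintype.card k ^ ((n - 2 * a.natDegree) / 8) ≤ _ by exact_mod_cast h2 k a n (dg hw hM))
    rw [mul_assoc, ht, ← pow_add]
    exact mul_le_mul_of_nonneg_left (pow_le_pow_right₀ hq (by omega)) (by positivity)
  refine (sum_le_sum (g := fun b => (if Bad a b then t else 0) + ((B : ℝ) ^ (pr b).card) ^ 2 / t)
    fun b _ => ?_).trans ?_
  · split_ifs
    · exact amgm t0
    · positivity
  rw [sum_add_distrib, ← sum_filter, sum_const, nsmul_eq_mul, ← sum_div, ← le_sub_iff_add_le',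
    div_le_iff₀ t0, sub_mul, le_sub_iff_add_le']
  have n1 : (1 : ℝ) ≤ n + 1 := le_add_of_nonneg_left (by positivity)
  have h6 : (n : ℝ) * Fintype.card k ^ (n + 4) ≤
      Fintype.card k ^ n * (Fintype.card k ^ 4 * (n + 1) ^ (B ^ 2 + 1)) := by
    rw [← mul_assoc, ← pow_add, mul_comm]
    exact mul_le_mul_of_nonneg_left ((le_add_of_nonneg_right zero_le_one).trans
      (le_self_pow₀ n1 (by omega))) (by positivity)
  have h7 : (Fintype.card k : ℝ) ^ (n + 1) * (n + 1) ^ B ^ 2 ≤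
      Fintype.card k ^ n * (Fintype.card k ^ 4 * (n + 1) ^ (B ^ 2 + 1)) := by
    rw [← mul_assoc, ← pow_add]
    gcongr <;> omega
  have h8 := mul_le_mul_of_nonneg_left h3 (show (0 : ℝ) ≤ Fintype.card k ^ n by positivity)
  linarith

variable (k) in
lemma two_sum (h1 : Cnt) {ε : ℝ} (hε : 0 < ε) : ∃ M : ℕ, ∀ (a : k[X]) (n : ℕ), Wn M a n →
    ∑ b ∈ Om k n, (2 : ℝ) ^ (pr b).card / Fintype.card k ^ ((n - 2 * a.natDegree) / 4 - 1) ≤
      ε * Fintype.card k ^ n := by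
  obtain ⟨M, -, h⟩ := small k 2 hε
  refine ⟨M, fun a n hw => ?_⟩
  have hq : (1 : ℝ) ≤ Fintype.card k := by exact_mod_cast Fintype.card_pos
  have h4 : (∑ b ∈ Om k n, (2 : ℝ) ^ (pr b).card) ≤ Fintype.card k ^ (n + 1) * (n + 1) ^ 2 := by
    exact_mod_cast (h1 k n hw.2.1.pos).2 2
  rw [← sum_div, div_le_iff₀ (by positivity)]
  refine h4.trans (le_of_mul_le_mul_left ?_ (show (0 : ℝ) < Fintype.card k ^ 3 by positivity))
  have h5 := mul_le_mul_of_nonneg_left (h a n hw) (show (0 : ℝ) ≤ Fintype.card k ^ n by positivity)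
  have h6 : (Fintype.card k : ℝ) ^ ((n - 2 * a.natDegree) / 16) ≤
      Fintype.card k ^ 3 * Fintype.card k ^ ((n - 2 * a.natDegree) / 4 - 1) := by
    rw [← pow_add]
    exact pow_le_pow_right₀ hq (by omega)
  have h7 := mul_le_mul_of_nonneg_left h6 (show 0 ≤ ε * Fintype.card k ^ n by positivity)
  rw [pow_succ _ n]
  linarith

end Pool.Agent.Lib.MP_a3f657_nt.Two.Win.Asm
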