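import Pool.Agent.Lib.MP_a3f657_nt.WAnDefs
import Pool.Agent.Lib.MP_a3f657_nt.C2LkSgn

/-!
The function field of an elementary abelian Artin-Schreier cover of the line.
-/

set_option linter.unusedSectionVars false

namespace Pool.Agent.Lib.MP_a3f657_nt.Two.Win

open Polynomial Rh

open scoped Classical

variable {k : Type} [Field k] [Fintype k] [CharP k 2] {ρ : ℕ}

/-- The function field of the curve `θ i ^ 2 + θ i = n i / M`. -/
structure Cov (M : k[X]) (n : Fin ρ → k[X]) : Type 1 where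
  /-- The field. -/
  L : Type
  [fld : Field L]
  [alg : Algebra (RatFunc k) L]
  /-- The generators. -/
  θ : Fin ρ → L
  hθ : ∀ i, θ i ^ 2 + θ i = algebraMap (RatFunc k) L (ι (n i) / ι M)
  /-- The integral basis. -/
  bas : Module.Basis (Finset (Fin ρ)) (RatFunc k) L
  hbas : ∀ S, bas S = ∏ i ∈ S, algebraMap (RatFunc k) L (ι M) * θ i
  M0 : M ≠ 0

attribute [instance] Cov.fld Cov.alg

namespace Cov

variable {M : k[X]} {n : Fin ρ → k[X]} (C : Cov M n) {R : Type} [CommRing R]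

instance : CharP C.L 2 := charP_of_injective_algebraMap (algebraMap (RatFunc k) C.L).injective 2

/-- The inclusion of the rational function field. -/
abbrev j : RatFunc k →+* C.L := algebraMap (RatFunc k) C.L

/-- The integral generators. -/
noncomputable def y (i : Fin ρ) : C.L := C.j (ι M) * C.θ i

lemma bas_eq (S : Finset (Fin ρ)) : C.bas S = ∏ i ∈ S, C.y i := C.hbas S

lemma bas_empty : C.bas ∅ = 1 := by simp [bas_eq]

lemma y_sq (i : Fin ρ) : C.y i ^ 2 = C.j (ι M) * C.y i + C.j (ι M * ι (n i)) := by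
  have h := C.hθ i
  have h0 : C.j (ι M) ≠ 0 := (_root_.map_ne_zero _).2 (ι_ne C.M0)
  rw [map_div₀, eq_div_iff h0] at h
  rw [map_mul, y, ← h]
  grind

lemma y_mul_bas (i : Fin ρ) (S : Finset (Fin ρ)) : C.y i * C.bas S = if i ∈ S then
    ι M • C.bas S + (ι M * ι (n i)) • C.bas (S.erase i) else C.bas (insert i S) := by
  split_ifs with h
  · rw [Algebra.smul_def, Algebra.smul_def, bas_eq, bas_eq, ← Finset.mul_prod_erase S _ h,
      ← mul_assoc, ← sq, y_sq]
    ring
  · rw [bas_eq, bas_eq, Finset.prod_insert h]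

variable {C} in
lemma semi_ext {G : Type} [AddCommGroup G] {g g' : C.L →+ G}
    (h : ∀ (c : RatFunc k) S, g (c • C.bas S) = g' (c • C.bas S)) : g = g' := by
  ext x
  rw [← C.bas.sum_repr x, map_sum, map_sum]
  exact Finset.sum_congr rfl fun S _ => h _ _

variable {C} in
lemma hom_ext {g g' : C.L →+* R} (h1 : ∀ c, g (C.j c) = g' (C.j c))
    (h2 : ∀ i, g (C.θ i) = g' (C.θ i)) : g = g' :=
  RingHom.ext fun x => (DFunLike.congr_fun (semi_ext (g := g.toAddMonoidHom)
    (g' := g'.toAddMonoidHom) fun c S => by simp [Algebra.smul_def, bas_eq, y, h1, h2]) x :)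

section lift

variable (f : RatFunc k →+* R) (t : Fin ρ → R)

/-- The additive map underlying `lift`. -/
noncomputable def liftA : C.L →+ R where
  toFun x := ∑ S, f (C.bas.repr x S) * ∏ i ∈ S, f (ι M) * t i
  map_zero' := by simp
  map_add' x y := by simp [add_mul, Finset.sum_add_distrib]

lemma liftA_smul (c : RatFunc k) (x : C.L) : C.liftA f t (c • x) = f c * C.liftA f t x := by
  simp [liftA, Finset.mul_sum, mul_assoc]

lemma liftA_bas (S : Finset (Fin ρ)) : C.liftA f t (C.bas S) = ∏ i ∈ S, f (ι M) * t i := by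
  simp [liftA, Finsupp.single_apply, apply_ite f]

variable (ht : ∀ i, t i ^ 2 + t i = f (ι (n i) / ι M))
include ht

lemma liftA_y (i : Fin ρ) (x : C.L) :
    C.liftA f t (C.y i * x) = f (ι M) * t i * C.liftA f t x := by
  refine DFunLike.congr_fun (semi_ext (g := (C.liftA f t).comp (AddMonoidHom.mulLeft (C.y i)))
    (g' := (AddMonoidHom.mulLeft (f (ι M) * t i)).comp (C.liftA f t)) fun c S => ?_) x
  simp only [AddMonoidHom.comp_apply, AddMonoidHom.coe_mulLeft, mul_smul_comm, liftA_smul,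
    y_mul_bas]
  split_ifs with h
  · have h1 : f (ι M) * f (ι (n i) / ι M) = f (ι (n i)) := by
      rw [← map_mul, mul_div_cancel₀ _ (ι_ne C.M0)]
    have h2 : (2 : R) = 0 := by rw [← map_ofNat f 2, CharTwo.two_eq_zero, map_zero]
    rw [map_add, liftA_smul, liftA_smul, liftA_bas, liftA_bas, ← Finset.mul_prod_erase S _ h,
      map_mul, ← h1, ← ht]
    linear_combination (f c * f (ι M) ^ 2 * t i * ∏ x ∈ S.erase i, f (ι M) * t x) * h2
  · rw [liftA_bas, liftA_bas, Finset.prod_insert h]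
    ring

omit ht in
/-- The universal property. -/
noncomputable def lift (ht : ∀ i, t i ^ 2 + t i = f (ι (n i) / ι M)) : C.L →+* R where
  toFun := C.liftA f t
  map_zero' := map_zero _
  map_add' := map_add _
  map_one' := by rw [← C.bas_empty, liftA_bas, Finset.prod_empty]
  map_mul' x y := by
    refine DFunLike.congr_fun (semi_ext (g := (C.liftA f t).comp (AddMonoidHom.mulRight y))
      (g' := (AddMonoidHom.mulRight (C.liftA f t y)).comp (C.liftA f t)) fun c S => ?_) x
    simp only [AddMonoidHom.comp_apply, AddMonoidHom.coe_mulRight, smul_mul_assoc, liftA_smul,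
      liftA_bas, mul_assoc]
    congr 1
    rw [bas_eq]
    induction S using Finset.induction_on with
    | empty => simp
    | insert i S hi ih => rw [Finset.prod_insert hi, Finset.prod_insert hi, mul_assoc,
        C.liftA_y f t ht, ih, ← mul_assoc]

lemma lift_apply (x : C.L) :
    C.lift f t ht x = ∑ S, f (C.bas.repr x S) * ∏ i ∈ S, f (ι M) * t i := rfl

lemma lift_j (c : RatFunc k) : C.lift f t ht (C.j c) = f c := by
  change C.liftA f t _ = _
  rw [Algebra.algebraMap_eq_smul_one, liftA_smul, ← C.bas_empty, liftA_bas, Finset.prod_empty,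
    mul_one]

lemma lift_θ (i : Fin ρ) : C.lift f t ht (C.θ i) = t i := by
  have h0 := ι_ne C.M0
  have h1 : C.θ i = (ι M)⁻¹ • C.bas {i} := by
    rw [bas_eq, Finset.prod_singleton, y, Algebra.smul_def, ← mul_assoc, ← map_mul,
      inv_mul_cancel₀ h0, map_one, one_mul]
  change C.liftA f t _ = _
  rw [h1, liftA_smul, liftA_bas, Finset.prod_singleton, ← mul_assoc, ← map_mul,
    inv_mul_cancel₀ h0, map_one, one_mul]

end lift

lemma cz_sq {S : Type} [CommRing S] [CharP S 2] (x : S) (e : ZMod 2) :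
    (x + cz S e) ^ 2 + (x + cz S e) = x ^ 2 + x := by
  rcases zmod_cases e with rfl | rfl
  · simp [cz_zero]
  · rw [cz_one]
    grind

/-- The automorphisms. -/
noncomputable def τ (ε : Fin ρ → ZMod 2) : C.L →+* C.L :=
  C.lift C.j (fun i => C.θ i + cz _ (ε i)) fun i => (cz_sq _ _).trans (C.hθ i)

@[simp] lemma τ_j (ε : Fin ρ → ZMod 2) (c : RatFunc k) : C.τ ε (C.j c) = C.j c := C.lift_j ..

@[simp] lemma τ_θ (ε : Fin ρ → ZMod 2) (i : Fin ρ) : C.τ ε (C.θ i) = C.θ i + cz _ (ε i) :=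
  C.lift_θ ..

lemma map_cz' {S S' : Type} [CommRing S] [CommRing S'] (g : S →+* S') (a : ZMod 2) :
    g (cz S a) = cz S' a := map_natCast g _

lemma τ_y (ε : Fin ρ → ZMod 2) (i : Fin ρ) : C.τ ε (C.y i) = C.y i + cz _ (ε i) * C.j (ι M) := by
  rw [y, map_mul, τ_j, τ_θ]
  ring

lemma τ_zero (x : C.L) : C.τ 0 x = x :=
  DFunLike.congr_fun (hom_ext (g' := RingHom.id _) (by simp) (by simp [cz_zero])) x

lemma τ_τ (ε ε' : Fin ρ → ZMod 2) (x : C.L) : C.τ ε (C.τ ε' x) = C.τ (ε + ε') x :=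
  DFunLike.congr_fun (hom_ext (g := (C.τ ε).comp (C.τ ε')) (by simp)
    (by simp [map_cz', cz_add, add_assoc])) x

/-- The coordinates through the dual basis. -/
lemma coord (x : C.L) (S : Finset (Fin ρ)) : C.j (ι M ^ S.card * C.bas.repr x S) =
    ∑ ε, C.τ ε (x * ∏ i ∈ Sᶜ, (1 + C.θ i)) := by
  refine (DFunLike.congr_fun (semi_ext (g := C.j.toAddMonoidHom.comp ((AddMonoidHom.mulLeft
    (ι M ^ S.card)).comp (C.bas.coord S).toAddMonoidHom)) (g' := ∑ ε, (C.τ ε).toAddMonoidHom.comp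
      (AddMonoidHom.mulRight (∏ i ∈ Sᶜ, (1 + C.θ i)))) fun c T => ?_) x).trans
    (AddMonoidHom.finsetSum_apply ..)
  have key : ∑ ε : Fin ρ → ZMod 2, C.τ ε (C.bas T * ∏ i ∈ Sᶜ, (1 + C.θ i)) =
      ∏ i, if i ∈ T then (if i ∈ S then C.j (ι M) else 0) else (if i ∈ S then 0 else 1) := by
    have h1 := Finset.prod_univ_sum (fun _ : Fin ρ => (Finset.univ : Finset (ZMod 2)))
      fun i e => (if i ∈ T then C.j (ι M) * (C.θ i + cz _ e) else 1) *
        if i ∈ Sᶜ then 1 + (C.θ i + cz _ e) else 1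
    rw [Fintype.piFinset_univ] at h1
    refine Eq.trans (Finset.sum_congr rfl fun ε _ => ?_) (h1.symm.trans
      (Finset.prod_congr rfl fun i _ => ?_))
    · simp only [Finset.prod_mul_distrib, Finset.prod_ite_mem, Finset.univ_inter, bas_eq, y,
        map_mul, map_prod, map_add, map_one, τ_j, τ_θ]
    · rw [show (Finset.univ : Finset (ZMod 2)) = {0, 1} from rfl, Finset.sum_pair zero_ne_one,
        cz_zero, cz_one]
      by_cases h1 : i ∈ T <;> by_cases h2 : i ∈ S <;> simp [h1, h2] <;> grind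
  have e : ∑ ε : Fin ρ → ZMod 2, C.τ ε (c • C.bas T * ∏ i ∈ Sᶜ, (1 + C.θ i)) =
      C.j c * ∑ ε : Fin ρ → ZMod 2, C.τ ε (C.bas T * ∏ i ∈ Sᶜ, (1 + C.θ i)) := by
    simp only [Algebra.smul_def, mul_assoc, map_mul (C.τ _) (C.j c), τ_j, Finset.mul_sum]
  rw [AddMonoidHom.finsetSum_apply]
  refine Eq.trans ?_ (e.trans (congrArg _ key)).symm
  by_cases h : T = S
  · subst h
    rw [Finset.prod_congr rfl fun i _ => show _ = if i ∈ T then C.j (ι M) else 1 by
      split_ifs <;> rfl]
    simp [mul_comm]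
  · obtain ⟨i, hi⟩ : ∃ i, ¬ (i ∈ T ↔ i ∈ S) := not_forall.1 fun h1 => h (Finset.ext h1)
    rw [Finset.prod_eq_zero (Finset.mem_univ i) (by by_cases h1 : i ∈ T <;> simp_all)]
    simp [h]

lemma j_of_fixed {x : C.L} (h : ∀ ε, C.τ ε x = x) : C.j (C.bas.repr x ∅) = x := by
  conv_rhs => rw [← C.bas.sum_repr x, Finset.sum_eq_single_of_mem ∅ (Finset.mem_univ _)
    fun S _ hS => by
      have h1 := C.coord x S
      simp only [map_mul (C.τ _) x, h, ← Finset.mul_sum] at h1
      have h2 := C.coord 1 S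
      simp only [one_mul] at h2
      rw [← h2, ← C.bas_empty, C.bas.repr_self, Finsupp.single_eq_of_ne hS, mul_zero, map_zero,
        mul_zero, map_eq_zero] at h1
      rw [(mul_eq_zero.1 h1).resolve_left (pow_ne_zero _ (ι_ne C.M0)), zero_smul]]
  rw [bas_empty, Algebra.algebraMap_eq_smul_one]

lemma repr_j (c : RatFunc k) : C.bas.repr (C.j c) = Finsupp.single ∅ c := by
  rw [Algebra.algebraMap_eq_smul_one, ← C.bas_empty, map_smul, C.bas.repr_self]
  simp

/-- The norm. -/
noncomputable def Nm (x : C.L) : RatFunc k := C.bas.repr (∏ ε, C.τ ε x) ∅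

/-- The trace. -/
noncomputable def Tr (x : C.L) : RatFunc k := C.bas.repr (∑ ε, C.τ ε x) ∅

lemma j_Nm (x : C.L) : C.j (C.Nm x) = ∏ ε, C.τ ε x := C.j_of_fixed fun ε => by
  simp only [map_prod, τ_τ]
  exact Equiv.prod_comp (Equiv.addLeft ε) fun e => C.τ e x

lemma j_Tr (x : C.L) : C.j (C.Tr x) = ∑ ε, C.τ ε x := C.j_of_fixed fun ε => by
  simp only [map_sum, τ_τ]
  exact Equiv.sum_comp (Equiv.addLeft ε) fun e => C.τ e x

lemma Nm_ne {x : C.L} (hx : x ≠ 0) : C.Nm x ≠ 0 := fun h => by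
  have := C.j_Nm x
  rw [h, map_zero] at this
  exact Finset.prod_ne_zero_iff.2 (fun ε _ => (_root_.map_ne_zero _).2 hx) this.symm

lemma Nm_j (c : RatFunc k) : C.Nm (C.j c) = c ^ 2 ^ ρ := C.j.injective (by simp [j_Nm])

lemma exists_PB : ∃ Q : PB C.L, Q.b = C.j (PX k).b := by
  have h : ∀ i, C.θ i ∈ separableClosure (RatFunc k) C.L := fun i => by
    refine mem_separableClosure_iff.2 (Separable.of_dvd (f := X ^ 2 + X - Polynomial.C
      (ι (n i) / ι M)) ?_ (minpoly.dvd _ _ (by simp [C.hθ i, -map_div₀])))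
    rw [separable_def, show derivative (X ^ 2 + X - Polynomial.C (ι (n i) / ι M)) = 1 by
      simp [CharTwo.add_self_eq_zero, -map_div₀]]
    exact isCoprime_one_right
  have : Algebra.IsSeparable (RatFunc k) C.L := ⟨fun x => mem_separableClosure_iff.1 (by
    rw [← C.bas.sum_repr x]
    refine sum_mem fun S _ => IntermediateField.smul_mem _ ?_
    rw [bas_eq]
    exact prod_mem fun i _ => mul_mem (IntermediateField.algebraMap_mem _ _) (h i))⟩
  exact (PX k).exists_sep C.L

/-- The 2-basis `t`. -/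
noncomputable def P : PB C.L := C.exists_PB.choose

lemma P_b : C.P.b = C.j (PX k).b := C.exists_PB.choose_spec

lemma D_j (c : RatFunc k) : C.P.D (C.j c) = C.j ((PX k).D c) := (PX k).map_D C.P_b c

lemma D_θ (i : Fin ρ) : C.P.D (C.θ i) = C.j ((PX k).D (ι (n i) / ι M)) := by
  rw [← D_j, ← C.hθ, PB.D_add, PB.D_sq, zero_add]

end Cov

end Pool.Agent.Lib.MP_a3f657_nt.Two.Win
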