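import Pool.Agent.Lib.MP_a3f657_nt.WLPt

/-!
Filtrations on the function field of the cover, functions congruent to one.
-/

set_option linter.unusedSectionVars false

namespace Pool.Agent.Lib.MP_a3f657_nt.Two.Win

open Polynomial HahnSeries Function
open Rh hiding tw
open Lk hiding Pt fr th Pr nP fr_per One

open scoped Classical

variable {k : Type} [Field k] [Fintype k] [CharP k 2] {ρ : ℕ}

/-- A multiplicative filtration of the rational function field. -/
structure Flt (M : k[X]) (n : Fin ρ → k[X]) (m A : ℕ) where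
  /-- The steps. -/
  U : ℤ → AddSubgroup (RatFunc k)
  mul : ∀ {x y i j l}, x ∈ U i → y ∈ U j → i + j ≤ l → x * y ∈ U l
  one : 1 ∈ U 0
  hM : ι M ∈ U m
  hn : ∀ i, ι (n i) ∈ U A
  hD : ∀ {x i}, x ∈ U i → (PX k).D x ∈ U (i - 1)

/-- The maximal degree. -/
noncomputable def dA (n : Fin ρ → k[X]) : ℕ := Finset.univ.sup fun i => (n i).natDegree

lemma le_dA (n : Fin ρ → k[X]) (i : Fin ρ) : (n i).natDegree ≤ dA n :=
  Finset.le_sup (f := fun i => (n i).natDegree) (Finset.mem_univ i)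

/-- Regularity at the roots of `M`. -/
noncomputable def fO (M : k[X]) (n : Fin ρ → k[X]) : Flt M n 0 0 where
  U _ := (OM M).toAddSubgroup
  mul h h' _ := mul_mem (s := OM M) h h'
  one := one_mem (OM M)
  hM := ι_mem M
  hn i := ι_mem (n i)
  hD h := D_mem h

/-- The degree. -/
noncomputable def fI (M : k[X]) (n : Fin ρ → k[X]) : Flt M n M.natDegree (dA n) where
  U i :=
    { carrier := {x | Ge (eI x) (-i)}
      add_mem' := fun h h' => by rw [Set.mem_ofPred_eq, map_add]; exact Ge.add h h'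
      zero_mem' := by rw [Set.mem_ofPred_eq, map_zero]; exact Ge.zero _
      neg_mem' := fun h => by rw [Set.mem_ofPred_eq, map_neg]; exact Ge.neg h }
  mul h h' hl := by
    change Ge _ _
    rw [map_mul]
    exact (Ge.mul h h').mono (by omega)
  one := by
    change Ge _ _
    rw [map_one]
    exact ge_one
  hM := ge_eI_ι M
  hn i := (ge_eI_ι (n i)).mono (by have := le_dA n i; omega)
  hD h := (ge_eI_D h).mono (by omega)

variable {M : k[X]} {n : Fin ρ → k[X]}

lemma mem_fI {x : RatFunc k} {i : ℤ} : x ∈ (fI M n).U i ↔ Ge (eI x) (-i) := Iff.rfl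

lemma Flt.mono {m A : ℕ} (F : Flt M n m A) {x : RatFunc k} {i l : ℤ} (h : x ∈ F.U i) (hl : i ≤ l) :
    x ∈ F.U l := by simpa using F.mul h F.one (by omega)

namespace Cov

variable (C : Cov M n)

section B

variable {m A : ℕ} (F : Flt M n m A)

/-- The induced filtration. -/
def B (i : ℤ) : AddSubgroup C.L where
  carrier := {x | ∀ S : Finset (Fin ρ), C.bas.repr x S ∈ F.U (i - S.card * (m + A))}
  add_mem' h h' S := by rw [map_add]; exact add_mem (h S) (h' S)
  zero_mem' S := by rw [map_zero]; exact zero_mem _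
  neg_mem' h S := by rw [map_neg]; exact neg_mem (h S)

variable {C F} {x z : C.L} {c : RatFunc k} {i i' l : ℤ}

lemma B_mono (h : x ∈ C.B F i) (hl : i ≤ l) : x ∈ C.B F l := fun S => F.mono (h S) (by omega)

lemma smul_bas_mem {S : Finset (Fin ρ)} (h : c ∈ F.U (i - S.card * (m + A))) :
    c • C.bas S ∈ C.B F i := fun T => by
  rw [map_smul, C.bas.repr_self, Finsupp.smul_single, smul_eq_mul, mul_one, Finsupp.single_apply]
  split_ifs with h1
  · exact h1 ▸ h
  · exact zero_mem _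

lemma j_mem : C.j c ∈ C.B F i ↔ c ∈ F.U i :=
  ⟨fun h => by simpa [repr_j] using h ∅, fun h => by
    rw [Algebra.algebraMap_eq_smul_one, ← C.bas_empty]; exact smul_bas_mem (by simpa using h)⟩

lemma one_mem_B : (1 : C.L) ∈ C.B F 0 := by simpa using (j_mem (C := C)).2 F.one

lemma map_mem_B (g : C.L →+ C.L) (hx : x ∈ C.B F i)
    (h : ∀ (S : Finset (Fin ρ)), ∀ c ∈ F.U (i - S.card * (m + A)), g (c • C.bas S) ∈ C.B F l) :
    g x ∈ C.B F l := by
  rw [← C.bas.sum_repr x, map_sum]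
  exact sum_mem fun S _ => h S _ (hx S)

lemma j_mul_mem (hc : c ∈ F.U i') (hx : x ∈ C.B F i) (hl : i' + i ≤ l) : C.j c * x ∈ C.B F l :=
  fun S => by
    rw [← Algebra.smul_def, map_smul, Finsupp.smul_apply]
    exact F.mul hc (hx S) (by omega)

lemma y_mul_mem (a : Fin ρ) (hx : x ∈ C.B F i) : C.y a * x ∈ C.B F (i + (m + A)) := by
  refine map_mem_B (AddMonoidHom.mulLeft (C.y a)) hx fun S c hc => ?_
  rw [AddMonoidHom.coe_mulLeft, mul_smul_comm, y_mul_bas]
  split_ifs with h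
  · rw [smul_add, smul_smul, smul_smul]
    refine add_mem (smul_bas_mem (F.mul hc F.hM (by omega)))
      (smul_bas_mem (F.mul hc (F.mul F.hM (F.hn a) le_rfl) ?_))
    rw [← Finset.card_erase_add_one h]
    push_cast
    linarith
  · refine smul_bas_mem (F.mono hc ?_)
    rw [Finset.card_insert_of_notMem h]
    push_cast
    linarith

lemma mul_mem_B (hx : x ∈ C.B F i) (hz : z ∈ C.B F i') (hl : i + i' ≤ l) : x * z ∈ C.B F l := by
  have key : ∀ S : Finset (Fin ρ), C.bas S * z ∈ C.B F (i' + S.card * (m + A)) := fun S => by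
    rw [bas_eq]
    induction S using Finset.induction_on with
    | empty => simpa using hz
    | insert a S ha ih =>
      rw [Finset.prod_insert ha, mul_assoc, Finset.card_insert_of_notMem ha]
      exact B_mono (y_mul_mem a ih) (by push_cast; linarith)
  refine map_mem_B (AddMonoidHom.mulRight z) hx fun S c hc => ?_
  rw [AddMonoidHom.mulRight_apply, Algebra.smul_def, mul_assoc]
  exact j_mul_mem hc (key S) (by omega)

lemma y_mem (a : Fin ρ) : C.y a ∈ C.B F (m + A) := by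
  simpa using y_mul_mem (C := C) (F := F) a one_mem_B

lemma prod_mem_B {α : Type} {s : Finset α} {g : α → C.L} (h : ∀ a ∈ s, g a ∈ C.B F i) :
    ∏ a ∈ s, g a ∈ C.B F (s.card * i) := by
  induction s using Finset.induction_on with
  | empty => simpa using one_mem_B
  | insert a s ha ih =>
    rw [Finset.prod_insert ha, Finset.card_insert_of_notMem ha]
    exact mul_mem_B (h a (by simp)) (ih fun b hb => h b (by simp [hb])) (by push_cast; linarith)

lemma τ_mem (ε : Fin ρ → ZMod 2) (hx : x ∈ C.B F i) : C.τ ε x ∈ C.B F i := by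
  refine map_mem_B (C.τ ε).toAddMonoidHom hx fun S c hc => ?_
  change C.τ ε _ ∈ _
  rw [Algebra.smul_def, map_mul, τ_j, bas_eq, map_prod]
  refine j_mul_mem hc (prod_mem_B (i := m + A) fun a _ => ?_) (by omega)
  rw [τ_y]
  refine add_mem (y_mem a) ?_
  rcases zmod_cases (ε a) with h | h <;> rw [h]
  · rw [cz_zero, zero_mul]; exact zero_mem _
  · rw [cz_one, one_mul]; exact j_mem.2 (F.mono F.hM (by omega))

lemma Tr_mem (hx : x ∈ C.B F i) : C.Tr x ∈ F.U i :=
  j_mem.1 (C.j_Tr x ▸ sum_mem fun ε _ => τ_mem ε hx)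

lemma D_mem_B (hx : x ∈ C.B F i) : C.j (ι M) * C.P.D x ∈ C.B F (i + m - 1) := by
  have h0 := ι_ne C.M0
  have h1 : ∀ a, C.j (ι M) * C.P.D (C.y a) ∈ C.B F (m + A + m - 1) := fun a => by
    have h2 := (PX k).D_mul (ι M) (ι (n a) / ι M)
    rw [mul_div_cancel₀ _ h0] at h2
    have h3 : ι M * (ι M * (PX k).D (ι (n a) / ι M)) =
        ι M * (PX k).D (ι (n a)) + ι (n a) * (PX k).D (ι M) := by grind
    rw [show C.j (ι M) * C.P.D (C.y a) = C.j ((PX k).D (ι M)) * C.y a +
      C.j (ι M * (ι M * (PX k).D (ι (n a) / ι M))) by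
        rw [y, PB.D_mul, D_θ, D_j, map_mul, map_mul]; ring, h3]
    exact add_mem (j_mul_mem (F.hD F.hM) (y_mem a) (by omega)) (j_mem.2 (add_mem
      (F.mul F.hM (F.hD (F.hn a)) (by omega)) (F.mul (F.hn a) (F.hD F.hM) (by omega))))
  have key : ∀ S : Finset (Fin ρ),
      C.j (ι M) * C.P.D (C.bas S) ∈ C.B F (S.card * (m + A) + m - 1) := fun S => by
    rw [bas_eq]
    induction S using Finset.induction_on with
    | empty => simp
    | insert a S ha ih =>
      rw [Finset.prod_insert ha, PB.D_mul, mul_add (C.j _), mul_left_comm, mul_left_comm (C.j _)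
        (∏ _ ∈ _, _), Finset.card_insert_of_notMem ha]
      exact add_mem (mul_mem_B (y_mem a) ih (by push_cast; linarith))
        (mul_mem_B (prod_mem_B fun b _ => y_mem b) (h1 a) (by push_cast; linarith))
  refine map_mem_B (l := i + m - 1) (AddMonoidHom.mk' (fun x => C.j (ι M) * C.P.D x)
    fun x y => by rw [PB.D_add, mul_add]) hx fun S c hc => ?_
  rw [AddMonoidHom.mk'_apply, show C.j (ι M) * C.P.D (c • C.bas S) =
    C.j c * (C.j (ι M) * C.P.D (C.bas S)) + (ι M * (PX k).D c) • C.bas S by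
      rw [Algebra.smul_def, Algebra.smul_def, PB.D_mul, D_j, map_mul]; ring]
  exact add_mem (j_mul_mem hc (key S) (by omega))
    (smul_bas_mem (F.mul F.hM (F.hD hc) (by omega)))

end B

/-- The functions with coordinates that are regular at the roots of `M`. -/
noncomputable def OL : Subring C.L where
  __ := C.B (fO M n) 0
  mul_mem' h h' := mul_mem_B (i := 0) (i' := 0) h h' le_rfl
  one_mem' := one_mem_B

/-- The functions of degree at most `i`. -/
noncomputable abbrev Bx (i : ℤ) : AddSubgroup C.L := C.B (fI M n) i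

/-- Functions congruent to one at the roots of `M` and at infinity. -/
def One (j : ℤ) (x : C.L) : Prop := ∃ u ∈ C.OL, u ∈ C.Bx (-j) ∧ x = 1 + C.j (ι M) ^ 4 * u

variable {C} {j : ℤ} {x z : C.L}

lemma mem_OL : x ∈ C.OL ↔ ∀ S, C.bas.repr x S ∈ OM M := Iff.rfl

lemma j_OL {c : RatFunc k} : C.j c ∈ C.OL ↔ c ∈ OM M := j_mem (F := fO M n) (i := 0)

lemma M4_mem : C.j (ι M) ^ 4 ∈ C.Bx (4 * M.natDegree) := by
  rw [← map_pow, j_mem, mem_fI, map_pow]
  exact ((ge_eI_ι M).pow 4).mono (by push_cast; omega)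

lemma One.ol (h : C.One j x) : x ∈ C.OL := by
  obtain ⟨u, h1, -, rfl⟩ := h
  exact add_mem (one_mem _) (mul_mem (pow_mem (j_OL.2 (ι_mem M)) 4) h1)

lemma One.bx (h : C.One j x) (hj : 4 * M.natDegree ≤ j) : x ∈ C.Bx 0 := by
  obtain ⟨u, -, h1, rfl⟩ := h
  exact add_mem one_mem_B (mul_mem_B M4_mem h1 (by omega))

lemma One.mul (h : C.One j x) (h' : C.One j z) (hj : 4 * M.natDegree ≤ j) : C.One j (x * z) := by
  have h1 := h'.ol
  have h2 := h'.bx hj
  obtain ⟨u, h3, h4, rfl⟩ := h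
  obtain ⟨v, h5, h6, e⟩ := h'
  exact ⟨u * z + v, add_mem (mul_mem h3 h1) h5, add_mem (mul_mem_B h4 h2 (by omega)) h6, by
    linear_combination e⟩

lemma One.τ (h : C.One j x) (ε : Fin ρ → ZMod 2) : C.One j (C.τ ε x) := by
  obtain ⟨u, h1, h2, rfl⟩ := h
  exact ⟨C.τ ε u, τ_mem (F := fO M n) (i := 0) ε h1, τ_mem ε h2, by simp⟩

lemma One.prod (h : C.One j x) (hj : 4 * M.natDegree ≤ j) (s : Finset (Fin ρ → ZMod 2)) :
    C.One j (∏ ε ∈ s, C.τ ε x) :=
  Finset.prod_induction _ _ (fun _ _ h h' => h.mul h' hj) ⟨0, zero_mem _, zero_mem _, by simp⟩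
    fun ε _ => h.τ ε

lemma One.loc (h : C.One j x) (hj : 4 * M.natDegree ≤ j) :
    ∃ s ∈ OM M, Ge (eI s) j ∧ C.Nm x = 1 + ι M ^ 4 * s := by
  obtain ⟨u, h1, h2, e⟩ := h.prod hj Finset.univ
  refine ⟨_, h1 ∅, by simpa [mem_fI] using h2 ∅, ?_⟩
  rw [Nm, e, map_add, ← map_pow, ← Algebra.smul_def, map_smul, ← C.bas_empty, C.bas.repr_self]
  simp

lemma One.unit (h : C.One j x) (hj : 4 * M.natDegree ≤ j) {a : AlgebraicClosure k}
    (ha : aeval a M = 0) : Ge (ex a (C.Nm x)) 0 ∧ (ex a (C.Nm x)).coeff 0 = 1 := by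
  obtain ⟨s, hs, -, e⟩ := h.loc hj
  rw [e, map_add, map_one, map_mul, map_pow]
  exact one_add_unit ((((ge_ex_root ha).pow 4).mul (hs a ha)).mono (by simp))

lemma One.inf (h : C.One j x) (hj : 4 * M.natDegree ≤ j) :
    Ge (eI (C.Nm x - 1)) (j - 4 * M.natDegree) := by
  obtain ⟨s, -, hs, e⟩ := h.loc hj
  rw [e, add_sub_cancel_left, map_mul, map_pow]
  exact (((ge_eI_ι M).pow 4).mul hs).mono (by push_cast; omega)

lemma One.unit_inf (h : C.One j x) (hj : 4 * M.natDegree < j) :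
    Ge (eI (C.Nm x)) 0 ∧ (eI (C.Nm x)).coeff 0 = 1 := by
  simpa using one_add_unit ((h.inf hj.le).mono (by omega))

lemma One.ne (h : C.One j x) (hj : 4 * M.natDegree < j) : x ≠ 0 := fun e => by
  have h1 := (h.unit_inf hj).2
  rw [e, ← map_zero C.j, Nm_j, zero_pow (by positivity)] at h1
  simp at h1

lemma One.inv_mem (h : C.One j x) (hj : 4 * M.natDegree < j) : x⁻¹ ∈ C.OL ∧ x⁻¹ ∈ C.Bx 0 := by
  have h0 := h.ne hj
  have h1 := h.prod hj.le (Finset.univ.erase 0)
  have e : x⁻¹ = C.j (C.Nm x)⁻¹ * ∏ ε ∈ Finset.univ.erase 0, C.τ ε x := by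
    have h2 : ∏ ε ∈ Finset.univ.erase 0, C.τ ε x ≠ 0 := h1.ne hj
    rw [map_inv₀, j_Nm, ← Finset.mul_prod_erase _ _ (Finset.mem_univ 0), τ_zero]
    field_simp
  rw [e]
  refine ⟨mul_mem (j_OL.2 fun a ha => ?_) h1.ol, j_mul_mem (i' := 0) ?_ (h1.bx hj.le) le_rfl⟩
  · rw [map_inv₀]
    simpa using (h.unit hj.le ha).1.inv (by rw [(h.unit hj.le ha).2]; exact one_ne_zero)
  · rw [mem_fI, map_inv₀]
    exact (h.unit_inf hj).1.inv (by rw [(h.unit_inf hj).2]; exact one_ne_zero)

lemma One.inv (h : C.One j x) (hj : 4 * M.natDegree < j) : C.One j x⁻¹ := by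
  have h0 := h.ne hj
  obtain ⟨h1, h2⟩ := h.inv_mem hj
  obtain ⟨u, h3, h4, e⟩ := h
  refine ⟨u * x⁻¹, mul_mem h3 h1, mul_mem_B h4 h2 (by omega), ?_⟩
  field_simp
  grind

lemma One.ord (h : C.One j x) (hj : 4 * M.natDegree < j) (a : AlgebraicClosure k)
    (ha : aeval a M = 0) : (ex a (C.Nm x)).order = 0 :=
  (h.unit hj.le ha).1.order_eq (by rw [(h.unit hj.le ha).2]; exact one_ne_zero)

lemma One.deg (h : C.One j x) (hj : 4 * M.natDegree < j) : degZ (odeg _) (C.dv x) = 0 := by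
  rw [deg_dv (h.ne hj) (h.ord hj), (h.unit_inf hj).1.order_eq
    (by rw [(h.unit_inf hj).2]; exact one_ne_zero), neg_zero]

end Cov

end Pool.Agent.Lib.MP_a3f657_nt.Two.Win
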