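import Pool.Agent.Lib.MP_a3f657_nt.WLCov

/-!
Points, primes and divisors of the cover.
-/

set_option linter.unusedSectionVars false

namespace Pool.Agent.Lib.MP_a3f657_nt.Two.Win

open Polynomial HahnSeries Function
open Rh hiding tw
open Lk hiding Pt fr th Pr nP fr_per

open scoped Classical

variable {k : Type} [Field k] [Fintype k] [CharP k 2] {ρ : ℕ}

/-- The geometric points of the affine curve. -/
structure Pt (M : k[X]) (n : Fin ρ → k[X]) where
  /-- The point of the line below. -/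
  a : AlgebraicClosure k
  /-- The values of the generators. -/
  t : Fin ρ → AlgebraicClosure k
  hM : aeval a M ≠ 0
  ht : ∀ i, t i ^ 2 + t i = aeval a (n i) / aeval a M

variable {M : k[X]} {n : Fin ρ → k[X]}

namespace Pt

lemma ext' {Q Q' : Pt M n} (h : Q.a = Q'.a) (h' : ∀ i, Q.t i = Q'.t i) : Q = Q' := by
  have := funext h'
  cases Q; cases Q'; cases h; cases this; rfl

/-- The image on the `i`-th double cover. -/
def co (Q : Pt M n) (i : Fin ρ) : Lk.Pt M (n i) := ⟨Q.a, Q.t i, Q.hM, Q.ht i⟩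

/-- Frobenius on points. -/
noncomputable def fr (Q : Pt M n) : Pt M n :=
  ⟨σ k Q.a, fun i => σ k (Q.t i), by rw [aeval_algHom_apply]; exact (_root_.map_ne_zero _).2 Q.hM,
    fun i => (Lk.fr (Q.co i)).ht⟩

/-- The conjugate points. -/
noncomputable def tw (ε : Fin ρ → ZMod 2) (Q : Pt M n) : Pt M n :=
  ⟨Q.a, fun i => Q.t i + cz _ (ε i), Q.hM, fun i => (Cov.cz_sq _ _).trans (Q.ht i)⟩

lemma tw_inj (Q : Pt M n) : Injective fun ε => tw ε Q := fun ε ε' h => funext fun i => by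
  have h1 : Q.t i + cz _ (ε i) = Q.t i + cz _ (ε' i) := congrArg (fun Q : Pt M n => Q.t i) h
  rw [add_right_inj, ← CharTwo.add_eq_zero, ← cz_add] at h1
  exact CharTwo.add_eq_zero.1 (cz_eq_zero h1)

lemma exists_tw {Q Q' : Pt M n} (h : Q'.a = Q.a) : ∃ ε, tw ε Q = Q' := by
  choose ε hε using fun i => exists_cz (μ := 1) (δ := Q'.t i - Q.t i) (by
    have h1 := Q'.ht i
    rw [h, ← Q.ht i] at h1
    grind)
  exact ⟨ε, ext' h.symm fun i => by have := hε i; simp only [tw]; grind⟩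

lemma tw_zero (Q : Pt M n) : tw 0 Q = Q := ext' rfl fun i => by simp [tw, cz_zero]

lemma exists_pt (n : Fin ρ → k[X]) {a : AlgebraicClosure k} (ha : aeval a M ≠ 0) :
    ∃ Q : Pt M n, Q.a = a := by
  choose θ h using fun i => Rh.exists_quad 1 (aeval a (n i) / aeval a M)
  exact ⟨⟨a, θ, ha, fun i => by simpa using h i⟩, rfl⟩

lemma fr_iter (i : ℕ) (Q : Pt M n) : (fr^[i] Q).a = Q.a ^ Fintype.card k ^ i ∧
    ∀ l, (fr^[i] Q).t l = Q.t l ^ Fintype.card k ^ i := by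
  induction i with
  | zero => simp
  | succ i ih =>
    simp only [iterate_succ_apply', pow_succ, pow_mul, ← ih.1, ← ih.2]
    exact ⟨rfl, fun _ => rfl⟩

lemma fr_fix {m : ℕ} (hm : 0 < m) {Q : Pt M n} :
    fr^[m] Q = Q ↔ Q.a ∈ fixF k m ∧ ∀ l, Q.t l ∈ fixF k m := by
  simp only [Rh.mem_fixF hm, ← (fr_iter m Q).1, ← (fr_iter m Q).2]
  exact ⟨fun h => by rw [h]; exact ⟨rfl, fun _ => rfl⟩, fun h => ext' h.1 h.2⟩

variable (M n) in
lemma fr_per (Q : Pt M n) : Q ∈ periodicPts fr := by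
  have h := Nat.mul_pos (Lp.natDegree_minpoly_pos Q.a) (Finset.prod_pos (s := Finset.univ)
    fun l _ => Lp.natDegree_minpoly_pos (Q.t l))
  exact ⟨_, h, (fr_fix h).2 ⟨(Lp.mem_fixF_iff_dvd h).2 (dvd_mul_right _ _), fun l =>
    (Lp.mem_fixF_iff_dvd h).2 ((Finset.dvd_prod_of_mem _ (Finset.mem_univ l)).mul_left _)⟩⟩

/-- The expansion of a generator at a point. -/
noncomputable def th (Q : Pt M n) (i : Fin ρ) : LaurentSeries (AlgebraicClosure k) :=
  Lk.th (Q.co i)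

lemma th_eq (Q : Pt M n) (i : Fin ρ) : Q.th i ^ 2 + Q.th i = ex Q.a (ι (n i) / ι M) := Lk.th_eq _

lemma th_ge (Q : Pt M n) (i : Fin ρ) : Ge (Q.th i) 0 := Lk.th_ge _

lemma th_coeff (Q : Pt M n) (i : Fin ρ) : (Q.th i).coeff 0 = Q.t i := Lk.th_coeff _

lemma th_fr (Q : Pt M n) (i : Fin ρ) : Q.fr.th i = lmap (σ k : _ →+* _) (Q.th i) :=
  Lk.th_fr (Q.co i)

lemma th_tw (ε : Fin ρ → ZMod 2) (Q : Pt M n) (i : Fin ρ) :
    (tw ε Q).th i = Q.th i + cz _ (ε i) :=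
  root_unique ((th_eq _ i).trans ((th_eq Q i).symm.trans (Cov.cz_sq _ _).symm)) (by
    rw [th_coeff, HahnSeries.coeff_add, th_coeff]
    rcases zmod_cases (ε i) with h | h <;> simp [tw, h, cz_zero, cz_one])

lemma fiber_sum {G : Type} [AddCommMonoid G] (g : Pt M n → G) (T : Finset (Pt M n))
    (hT : ∀ Q ∉ T, g Q = 0) (Q : Pt M n) :
    ∑ Q' ∈ T.filter (·.a = Q.a), g Q' = ∑ ε, g (tw ε Q) := by
  rw [← Finset.sum_image (f := g) (tw_inj Q).injOn]
  refine Finset.sum_subset (fun Q' h => ?_) fun Q' h h' => hT _ fun h1 => h' ?_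
  · simpa using exists_tw (Finset.mem_filter.1 h).2
  · obtain ⟨ε, -, rfl⟩ := Finset.mem_image.1 h
    exact Finset.mem_filter.2 ⟨h1, rfl⟩

end Pt

open Pt

variable (M n) in
/-- The primes of the affine curve. -/
abbrev Pr : Type := Orb (fr_per M n)

lemma rep_fix (P : Pr M n) :
    (rep _ P).a ∈ fixF k (odeg _ P) ∧ ∀ l, (rep _ P).t l ∈ fixF k (odeg _ P) :=
  (Pt.fr_fix (odeg_pos P)).1 (iter_odeg P)

/-- The norm of a prime. -/
noncomputable def nP (P : Pr M n) : k[X] :=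
  minpoly k (rep _ P).a ^ (odeg _ P / (minpoly k (rep _ P).a).natDegree)

lemma nP_monic (P : Pr M n) : (nP P).Monic := (Lp.monic_minpoly _).pow _

lemma nP_cop (P : Pr M n) : IsCoprime (nP P) M :=
  (Lp.GoodP.isCoprime (Lp.goodP_minpoly.2 (rep _ P).hM)).pow_left

lemma nP_deg (P : Pr M n) : (nP P).natDegree = odeg _ P := by
  rw [nP, natDegree_pow,
    Nat.div_mul_cancel ((Lp.mem_fixF_iff_dvd (odeg_pos P)).1 (rep_fix P).1)]

lemma nP_map (P : Pr M n) :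
    (nP P).map (algebraMap k _) = ∏ Q ∈ orb _ P, (X - Polynomial.C Q.a) := by
  obtain ⟨h1, h2, h3⟩ := Rh.minpoly_eq_prod (odeg_pos P)
    ((Rh.mem_fixF (odeg_pos P)).1 (rep_fix P).1)
  rw [nP, Polynomial.map_pow, h3, ← Rh.prod_range_periodic _ _ fun i => by
    rw [_root_.pow_add, pow_mul, h2], Nat.mul_div_cancel' h1, prod_orb]
  simp only [(Pt.fr_iter _ _).1]

lemma order_nP (P : Pr M n) (a : AlgebraicClosure k) :
    (ex a (ι (nP P))).order = ∑ Q ∈ orb _ P, if Q.a = a then 1 else 0 := by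
  rw [ex_ι, nP_map, map_prod, order_prod _ _ fun Q => (EP_order a (X_sub_C_ne_zero _)).1]
  refine Finset.sum_congr rfl fun Q _ => ?_
  rw [(EP_order a (X_sub_C_ne_zero _)).2, rootMultiplicity_X_sub_C]
  simp [eq_comm]

lemma aeval_nP (Q : Pt M n) : aeval Q.a (nP (cls (fr_per M n) Q)) = 0 := by
  rw [← eval_map_algebraMap, nP_map, eval_prod]
  exact Finset.prod_eq_zero (mem_orb.2 rfl) (by simp)

lemma div_ext {D E : Pr M n →₀ ℤ} (h : ∀ Q, D (cls _ Q) = E (cls _ Q)) : D = E :=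
  Finsupp.ext fun P => cls_rep P ▸ h _

lemma exists_f (D : Pr M n →₀ ℤ) : ∃ f : k[X], f ≠ 0 ∧ IsCoprime f M ∧
    ∀ Q : Pt M n, Ge (ex Q.a (ι f)) |D (cls _ Q)| := by
  refine ⟨∏ P ∈ D.support, nP P ^ (D P).natAbs,
    Finset.prod_ne_zero_iff.2 fun P _ => pow_ne_zero _ (nP_monic P).ne_zero,
    IsCoprime.prod_left fun P _ => (nP_cop P).pow_left, fun Q => ?_⟩
  by_cases h : cls _ Q ∈ D.support
  · rw [← Finset.mul_prod_erase _ _ h, ι_mul, ι_pow, map_mul, map_pow]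
    refine (((ge_ex_root (aeval_nP Q)).pow _).mul (ge_ex_ι _ _)).mono ?_
    simp
  · rw [Finsupp.notMem_support_iff.1 h]
    exact ge_ex_ι _ _

lemma ge_sum {K α : Type} [Field K] {s : Finset α} {y : α → LaurentSeries K} {l : ℤ}
    (h : ∀ i ∈ s, Ge (y i) l) : Ge (∑ i ∈ s, y i) l :=
  Finset.sum_induction y (Ge · l) (fun _ _ => Ge.add) (Ge.zero l) h

lemma ge_prod {K α : Type} [Field K] {s : Finset α} {y : α → LaurentSeries K}
    (h : ∀ i ∈ s, Ge (y i) 0) : Ge (∏ i ∈ s, y i) 0 :=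
  Finset.prod_induction y (Ge · 0) (fun _ _ => Ge.mul0) ge_one h

namespace Cov

variable (C : Cov M n)

/-- The expansion at a point. -/
noncomputable def φ (Q : Pt M n) : C.L →+* LaurentSeries (AlgebraicClosure k) :=
  C.lift (ex Q.a) Q.th Q.th_eq

@[simp] lemma φ_j (Q : Pt M n) (c : RatFunc k) : C.φ Q (C.j c) = ex Q.a c := C.lift_j ..

@[simp] lemma φ_θ (Q : Pt M n) (i : Fin ρ) : C.φ Q (C.θ i) = Q.th i := C.lift_θ ..

lemma φ_tw (ε : Fin ρ → ZMod 2) (Q : Pt M n) (x : C.L) : C.φ (tw ε Q) x = C.φ Q (C.τ ε x) :=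
  DFunLike.congr_fun (hom_ext (g' := (C.φ Q).comp (C.τ ε)) (by simp [tw])
    (by simp [th_tw, map_cz'])) x

lemma φ_fr (Q : Pt M n) (x : C.L) : C.φ Q.fr x = lmap (σ k : _ →+* _) (C.φ Q x) :=
  (DFunLike.congr_fun (hom_ext (g := C.φ Q.fr) (g' := (lmap (σ k : _ →+* _)).comp (C.φ Q))
    (fun c => by rw [RingHom.comp_apply, φ_j, φ_j, lmap_ex]; rfl)
    fun i => by rw [RingHom.comp_apply, φ_θ, φ_θ, Pt.th_fr]) x :)

lemma φ_iter (Q : Pt M n) (x : C.L) (l : ℤ) (i : ℕ) :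
    (C.φ (Pt.fr^[i] Q) x).coeff l = (C.φ Q x).coeff l ^ Fintype.card k ^ i := by
  induction i with
  | zero => simp
  | succ i ih => rw [iterate_succ_apply', φ_fr, coeff_lmap, ih, pow_succ, pow_mul]; rfl

lemma ex_Nm (Q : Pt M n) (x : C.L) : ex Q.a (C.Nm x) = ∏ ε, C.φ (tw ε Q) x := by
  simp only [← C.φ_j Q, j_Nm, map_prod, φ_tw]

lemma ex_Tr (Q : Pt M n) (x : C.L) : ex Q.a (C.Tr x) = ∑ ε, C.φ (tw ε Q) x := by
  simp only [← C.φ_j Q, j_Tr, map_sum, φ_tw]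

variable {C}

lemma φ_ne {x : C.L} (hx : x ≠ 0) (Q : Pt M n) : C.φ Q x ≠ 0 := (_root_.map_ne_zero _).2 hx

lemma order_Nm {x : C.L} (hx : x ≠ 0) (Q : Pt M n) :
    (ex Q.a (C.Nm x)).order = ∑ ε, (C.φ (tw ε Q) x).order := by
  rw [ex_Nm, order_prod _ _ fun _ => φ_ne hx _]

lemma ge_φ {Q : Pt M n} {x : C.L} {l : ℤ} (h : ∀ S, Ge (ex Q.a (C.bas.repr x S)) l) :
    Ge (C.φ Q x) l := by
  rw [φ, lift_apply]
  exact ge_sum fun S _ => by
    simpa using (h S).mul (ge_prod fun i _ => (ge_ex_ι _ M).mul0 (Q.th_ge i))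

lemma ge_coord {Q : Pt M n} {x : C.L} {l : ℤ} (h : ∀ ε, Ge (C.φ (tw ε Q) x) l)
    (S : Finset (Fin ρ)) : Ge (ex Q.a (C.bas.repr x S)) l := by
  have h1 := congrArg (C.φ Q) (C.coord x S)
  rw [φ_j, map_sum] at h1
  have h2 : Ge (ex Q.a (ι M ^ S.card * C.bas.repr x S)) l := by
    rw [h1]
    refine ge_sum fun ε _ => ?_
    rw [← φ_tw, map_mul, map_prod, mul_comm]
    exact (ge_prod fun i _ => by
      rw [map_add, map_one, φ_θ]; exact ge_one.add (Pt.th_ge _ i)).mul0 (h ε)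
  have h3 := ((ge_ex_inv Q.hM).pow S.card).mul h2
  rwa [← map_pow, ← map_mul, ← mul_assoc, ← mul_pow, inv_mul_cancel₀ (ι_ne C.M0), one_pow,
    one_mul, mul_zero, zero_add] at h3

lemma dv_φ (Q : Pt M n) (x : C.L) : Dv (C.φ Q x) (C.φ Q (C.P.D x)) := by
  obtain ⟨r, hr⟩ := IsAlgClosed.exists_pow_nat_eq Q.a two_pos
  refine ⟨C.φ Q (C.P.c0 x) + HahnSeries.C r * C.φ Q (C.P.c1 x), _, ?_, map_pow _ _ _⟩
  have h1 := congrArg (C.φ Q) (C.P.spec x)
  rw [map_add, map_mul, map_pow, map_pow, C.P_b, φ_j,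
    show (PX k).b = ι X from RatFunc.algebraMap_X.symm, ex_X, ← hr, map_pow] at h1
  grind

variable (C) in
lemma finite_dv (x : C.L) : (support fun P : Pr M n => (C.φ (rep _ P) x).order).Finite := by
  by_cases hx : x = 0
  · simp [hx]
  have h1 : {Q : Pt M n | (C.φ Q x).order ≠ 0}.Finite := by
    refine (Set.Finite.preimage' (f := fun Q : Pt M n => Q.a) ((Set.finite_iUnion fun S =>
      finite_order (C.bas.repr x S)).union (finite_order (C.Nm x))) fun a _ => ?_).subset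
      fun Q hQ => ?_
    · rcases Set.eq_empty_or_nonempty ((fun Q : Pt M n => Q.a) ⁻¹' {a}) with h | ⟨Q, hQ⟩
      · rw [h]; exact Set.finite_empty
      · exact (Set.finite_range fun ε => tw ε Q).subset fun Q' h => exists_tw (h.trans (Eq.symm hQ))
    · by_contra h
      simp only [Set.mem_preimage, Set.mem_union, Set.mem_iUnion, Set.mem_ofPred_eq, not_or,
        not_exists, not_not] at h
      have h2 : ∀ ε, 0 ≤ (C.φ (tw ε Q) x).order := fun ε =>
        (ge_iff (φ_ne hx _)).1 (ge_φ fun S => h.1 S ▸ ge_order _)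
      have h3 := (Finset.sum_eq_zero_iff_of_nonneg fun ε _ => h2 ε).1
        ((order_Nm hx Q).symm.trans h.2) 0 (Finset.mem_univ _)
      rw [tw_zero] at h3
      exact hQ h3
  exact h1.preimage (f := rep _) (LeftInverse.injective cls_rep).injOn

variable (C) in
/-- The divisor of a function. -/
noncomputable def dv (x : C.L) : Pr M n →₀ ℤ := Finsupp.ofSupportFinite _ (C.finite_dv x)

lemma dv_cls (x : C.L) (Q : Pt M n) : C.dv x (cls _ Q) = (C.φ Q x).order :=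
  inv_rep (g := fun Q => (C.φ Q x).order) (fun Q => by rw [φ_fr, order_lmap]) Q

lemma dv_le {x : C.L} (hx : x ≠ 0) {D : Pr M n →₀ ℤ} :
    0 ≤ D + C.dv x ↔ ∀ Q, Ge (C.φ Q x) (-D (cls _ Q)) := by
  simp only [ge_iff (φ_ne hx _), ← dv_cls, Finsupp.le_def, Finsupp.coe_zero, Pi.zero_apply,
    Finsupp.add_apply]
  exact ⟨fun h Q => by linarith [h (cls _ Q)], fun h P => by
    have := h (rep _ P); rw [cls_rep] at this; linarith⟩

lemma dv_inv {x : C.L} (hx : x ≠ 0) : C.dv x⁻¹ = -C.dv x := div_ext fun Q => by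
  rw [Finsupp.neg_apply, dv_cls, dv_cls, map_inv₀, order_inv (φ_ne hx Q)]

lemma norm_eq {x : C.L} (hx : x ≠ 0)
    (hM : ∀ a : AlgebraicClosure k, aeval a M = 0 → (ex a (C.Nm x)).order = 0) :
    ∃ c, C.Nm x = ι (Polynomial.C c) * ∏ P ∈ (C.dv x).support, ι (nP P) ^ C.dv x P := by
  have h0 : ∀ P : Pr M n, ι (nP P) ^ C.dv x P ≠ 0 := fun P =>
    zpow_ne_zero _ (ι_ne (nP_monic P).ne_zero)
  have h1 := Finset.prod_ne_zero_iff.2 fun P (_ : P ∈ (C.dv x).support) => h0 P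
  refine (const_of_order (K := AlgebraicClosure k) (div_ne_zero (C.Nm_ne hx) h1)
    fun a => ?_).imp fun c hc => by rw [hc, div_mul_cancel₀ _ h1]
  have h2 : (ex a (∏ P ∈ (C.dv x).support, ι (nP P) ^ C.dv x P)).order =
      ∑ Q ∈ ((C.dv x).support.biUnion (orb _)).filter (·.a = a), (C.φ Q x).order := by
    rw [map_prod, order_prod _ _ fun P => (_root_.map_ne_zero _).2 (h0 P), Finset.sum_filter,
      sum_biUnion_orb]
    refine Finset.sum_congr rfl fun P _ => ?_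
    rw [map_zpow₀, order_zpow ((_root_.map_ne_zero _).2 (ι_ne (nP_monic P).ne_zero)), order_nP,
      Finset.mul_sum]
    refine Finset.sum_congr rfl fun Q hQ => ?_
    rw [← mem_orb.1 hQ, dv_cls, mul_ite, mul_one, mul_zero]
  rw [div_eq_mul_inv, map_mul, map_inv₀, order_mul ((_root_.map_ne_zero _).2 (C.Nm_ne hx))
    (inv_ne_zero ((_root_.map_ne_zero _).2 h1)), order_inv ((_root_.map_ne_zero _).2 h1), h2]
  by_cases ha : aeval a M = 0
  · rw [hM a ha, Finset.sum_eq_zero, neg_zero, add_zero]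
    exact fun Q hQ => absurd ha ((Finset.mem_filter.1 hQ).2 ▸ Q.hM)
  · obtain ⟨Q, rfl⟩ := Pt.exists_pt n ha
    rw [Pt.fiber_sum _ _ fun Q hQ => ?_, order_Nm hx, add_neg_cancel]
    rwa [mem_biUnion_orb, Finsupp.notMem_support_iff, dv_cls] at hQ

lemma deg_dv {x : C.L} (hx : x ≠ 0)
    (hM : ∀ a : AlgebraicClosure k, aeval a M = 0 → (ex a (C.Nm x)).order = 0) :
    degZ (odeg _) (C.dv x) = -(eI (C.Nm x)).order := by
  obtain ⟨c, hc⟩ := norm_eq hx hM
  have h0 : ∀ P : Pr M n, eI (ι (nP P)) ≠ 0 := fun P =>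
    (_root_.map_ne_zero _).2 (ι_ne (nP_monic P).ne_zero)
  have h1 : Polynomial.C c ≠ 0 := fun h => C.Nm_ne hx (by rw [hc, h, ι_zero, zero_mul])
  simp only [hc, map_mul, map_prod, map_zpow₀]
  rw [order_mul ((_root_.map_ne_zero _).2 (ι_ne h1))
    (Finset.prod_ne_zero_iff.2 fun P _ => zpow_ne_zero _ (h0 P)), order_eI_ι h1,
    order_prod _ _ fun P => zpow_ne_zero _ (h0 P), degZ_apply]
  simp [order_zpow (h0 _), order_eI_ι (nP_monic _).ne_zero, nP_deg]

end Cov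

end Pool.Agent.Lib.MP_a3f657_nt.Two.Win
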