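import Pool.Agent.Lib.MP_a3f657_nt.WLOne

/-!
Reciprocity on the cover.
-/

set_option linter.unusedSectionVars false

namespace Pool.Agent.Lib.MP_a3f657_nt.Two.Win

open Polynomial HahnSeries Function
open Rh hiding tw
open Lk hiding Pt fr th Pr nP fr_per One β chi_ne exists_frac nP_monic nP_cop β_fr β_mem
open Pt

open scoped Classical

variable {k : Type} [Field k] [Fintype k] [CharP k 2] {ρ : ℕ} {M : k[X]} {n : Fin ρ → k[X]}
  {K : ℕ} (χ : MulChar (RM M K) ℂ)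

lemma chi_ne (hM : M ≠ 0) (P : Pr M n) : χ (clM M K (nP P)) ≠ 0 := by
  have := Lp.finite_RM hM K
  rw [← norm_ne_zero_iff, Lp.norm_chi_eq χ (Lp.isUnit_clM K (nP_monic P) (nP_cop P))]
  exact one_ne_zero

lemma exists_frac (hM : M ≠ 0) (s : Finset (Pr M n)) (w : Pr M n → ℤ) :
    ∃ g h : k[X], g.Monic ∧ h.Monic ∧ IsCoprime h M ∧ (∏ P ∈ s, ι (nP P) ^ w P) * ι h = ι g ∧
      (∏ P ∈ s, χ (clM M K (nP P)) ^ w P) * χ (clM M K h) = χ (clM M K g) := by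
  induction s using Finset.induction_on with
  | empty => exact ⟨1, 1, monic_one, monic_one, isCoprime_one_left, by simp, by simp⟩
  | insert P s hP ih =>
    obtain ⟨g, h, h1, h2, h3, h4, h5⟩ := ih
    have h7 := ι_ne (nP_monic P).ne_zero
    have h8 := chi_ne χ hM P
    rw [Finset.prod_insert hP, Finset.prod_insert hP]
    obtain ⟨e, he | he⟩ := (w P).eq_nat_or_neg <;> rw [he]
    · refine ⟨nP P ^ e * g, h, ((nP_monic P).pow e).mul h1, h2, h3, ?_, ?_⟩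
      · rw [ι_mul, ι_pow, ← h4, zpow_natCast, mul_assoc]
      · rw [Lp.clM_mul, map_mul, chi_pow, ← h5, zpow_natCast, mul_assoc]
    · refine ⟨g, nP P ^ e * h, h1, ((nP_monic P).pow e).mul h2,
        (nP_cop P).pow_left.mul_left h3, ?_, ?_⟩
      · rw [ι_mul, ι_pow, ← h4, zpow_neg, zpow_natCast]; field_simp
      · rw [Lp.clM_mul, map_mul, chi_pow, ← h5, zpow_neg, zpow_natCast]; field_simp

variable (n₂ : Fin ρ → k[X])

/-- The value of `∑ θ i n₂ i / M` at a point. -/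
noncomputable def β (Q : Pt M n) : AlgebraicClosure k :=
  ∑ i, Q.t i * (aeval Q.a (n₂ i) / aeval Q.a M)

lemma β_fr (i : ℕ) (Q : Pt M n) : β n₂ (Pt.fr^[i] Q) = β n₂ Q ^ Fintype.card k ^ i := by
  rw [β, β, ← Rh.frob_pow_apply, map_sum]
  refine Finset.sum_congr rfl fun l _ => ?_
  rw [Rh.frob_pow_apply, (Pt.fr_iter i Q).1, (Pt.fr_iter i Q).2, mul_pow, div_pow, Lp.pow_q_aeval,
    Lp.pow_q_aeval]

lemma β_mem {m : ℕ} (hm : 0 < m) {Q : Pt M n} (h : Pt.fr^[m] Q = Q) : β n₂ Q ∈ fixF k m := by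
  rw [Rh.mem_fixF hm, ← β_fr, h]

namespace Cov

variable {C : Cov M n} {j : ℤ} {x : C.L}

lemma One.chi (h : C.One j x) (hj : K + 1 + 4 * M.natDegree ≤ j) :
    ∏ P ∈ (C.dv x).support, χ (clM M K (nP P)) ^ C.dv x P = 1 := by
  have hM := C.M0
  have hj' : 4 * M.natDegree < j := by omega
  obtain ⟨c, hc⟩ := norm_eq (h.ne hj') (h.ord hj')
  obtain ⟨g, f, h1, h2, h3, h4, h5⟩ := exists_frac χ hM (C.dv x).support (C.dv x)
  have e1 : ι (Polynomial.C c * g - f) = (C.Nm x - 1) * ι f := by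
    rw [ι_sub, ι_mul, ← h4, hc]; ring
  have e2 : ∀ e : ℕ, e ≤ K + 1 →
      (Polynomial.C c * g - f).degree < (f.natDegree + 1 - e : ℕ) := fun e he => by
    rw [← ge_EI_iff, ← eI_ι, e1, map_mul]
    exact ((h.inf hj'.le).mul (ge_eI_ι f)).mono (by omega)
  have e3 : (Polynomial.C c * g).Monic ∧ (Polynomial.C c * g).natDegree = f.natDegree := by
    have e4 := e2 1 (by omega)
    rw [Nat.add_sub_cancel, ← degree_eq_natDegree h2.ne_zero] at e4
    rw [← sub_add_cancel (Polynomial.C c * g) f]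
    exact ⟨h2.add_of_right e4, natDegree_add_eq_right_of_degree_lt e4⟩
  have e4 : c = 1 := by simpa [Monic.def, h1.leadingCoeff] using e3.1
  simp only [e4, map_one, one_mul] at e1 e2 e3
  obtain ⟨s, hs, -, e5⟩ := h.loc hj'.le
  obtain ⟨t, ht⟩ := poly_of_ge (K := AlgebraicClosure k) (x := ι M ^ 3 * s * ι f) fun a => by
    by_cases ha : aeval a M = 0
    · exact mul_mem (mul_mem (pow_mem (ι_mem M) 3) hs) (ι_mem f) a ha
    · have := ι_ne hM
      rw [show ι M ^ 3 * s * ι f = ι (g - f) / ι M by rw [e1, e5]; field_simp; ring]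
      exact (ex_div ha _).1
  have e6 : clM M K g = clM M K f := Lp.clM_congr
    ⟨t, ι_inj (by rw [e1, e5, ι_mul, ht]; ring)⟩ e3.2.symm (e3.2 ▸ e2 K (by omega))
  have := Lp.finite_RM hM K
  rw [e6, mul_eq_right₀] at h5
  · exact h5
  · rw [← norm_ne_zero_iff, Lp.norm_chi_eq χ (Lp.isUnit_clM K h2 h3)]
    exact one_ne_zero

variable (C) in
/-- The function `∑ θ i n₂ i / M`. -/
noncomputable def bL : C.L := ∑ i, C.θ i * C.j (ι (n₂ i) / ι M)

lemma φ_bL (Q : Pt M n) : Ge (C.φ Q (C.bL n₂)) 0 ∧ (C.φ Q (C.bL n₂)).coeff 0 = β n₂ Q := by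
  simp only [bL, map_sum, map_mul, φ_θ, φ_j]
  refine ⟨ge_sum fun i _ => (Q.th_ge i).mul0 (ex_div Q.hM _).1, ?_⟩
  rw [HahnSeries.coeff_sum]
  refine Finset.sum_congr rfl fun i _ => ?_
  have h2 := (Q.th_ge i).coeff_mul (ex_div Q.hM (n₂ i)).1
  rwa [add_zero, Pt.th_coeff, (ex_div Q.hM _).2] at h2

lemma res_pt (hx : x ≠ 0) (Q : Pt M n) : Ge (ex Q.a (C.Tr (C.bL n₂ * (C.P.D x / x))) -
    single (-1) (∑ ε, ((C.φ (tw ε Q) x).order : ℤ) * β n₂ (tw ε Q))) 0 := by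
  rw [ex_Tr, show ∀ g : (Fin ρ → ZMod 2) → AlgebraicClosure k,
    single (-1 : ℤ) (∑ ε, g ε) = ∑ ε, single (-1 : ℤ) (g ε) from
      fun g => map_sum (single.addMonoidHom (-1 : ℤ)) g _, ← Finset.sum_sub_distrib]
  refine ge_sum fun ε _ => ?_
  rw [map_mul, map_div₀, ← (φ_bL (C := C) n₂ _).2]
  exact ge_res (φ_bL n₂ _).1 ((dv_φ _ x).dlog (φ_ne hx _))

lemma One.Φ_mem (h : C.One j x) (hj : 4 * M.natDegree + dA n + dA n₂ < j) :
    C.bL n₂ * (C.P.D x / x) ∈ C.OL ∧ C.bL n₂ * (C.P.D x / x) ∈ C.Bx (-2) := by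
  obtain ⟨h1, h2⟩ := h.inv_mem (by omega)
  obtain ⟨u, h3, h4, e⟩ := h
  have h0 : C.j (ι M) ≠ 0 := (_root_.map_ne_zero _).2 (ι_ne C.M0)
  have e1 : C.bL n₂ * (C.P.D x / x) = (∑ i, C.j (ι (n₂ i)) * C.y i) *
      (C.j (ι M) * (C.j (ι M) * C.P.D u)) * x⁻¹ := by
    rw [show C.P.D x = C.j (ι M) ^ 4 * C.P.D u by
      rw [e, PB.D_add, PB.D_one, zero_add, show C.j (ι M) ^ 4 = (C.j (ι M) ^ 2) ^ 2 by ring,
        PB.D_sq_mul], bL, div_eq_mul_inv, ← mul_assoc, Finset.sum_mul, Finset.sum_mul _ _ (_ * _)]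
    congr 1
    refine Finset.sum_congr rfl fun i _ => ?_
    rw [y, map_div₀]
    field_simp
  rw [e1]
  refine ⟨mul_mem (mul_mem (sum_mem fun i _ => mul_mem (j_OL.2 (ι_mem _))
    (y_mem (F := fO M n) i)) (mul_mem (j_OL.2 (ι_mem _)) (D_mem_B (F := fO M n) (i := 0) h3))) h1,
    mul_mem_B (mul_mem_B (i := dA n₂ + (M.natDegree + dA n)) (sum_mem fun i _ => j_mul_mem
      (i' := dA n₂) ((ge_eI_ι _).mono (by have := le_dA n₂ i; omega)) (y_mem i) le_rfl)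
      (j_mul_mem (fI M n).hM (D_mem_B h4) le_rfl) le_rfl) h2 (by omega)⟩

lemma One.sum_β (h : C.One j x) (hj : 4 * M.natDegree + dA n + dA n₂ < j) :
    ∑ P ∈ (C.dv x).support, (C.dv x P : AlgebraicClosure k) * ∑ Q ∈ orb _ P, β n₂ Q = 0 := by
  set T := (C.dv x).support.biUnion (orb _) with hT
  have h1 := sum_res0 (T.image Pt.a)
    (fun a => ∑ Q ∈ T.filter (·.a = a), ((C.φ Q x).order : ℤ) * β n₂ Q)
    (fun a ha => Finset.sum_eq_zero fun Q hQ => (ha (Finset.mem_image.2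
      ⟨Q, Finset.mem_filter.1 hQ⟩)).elim) (fun a => ?_) (Tr_mem (h.Φ_mem n₂ hj).2)
  · replace h1 := (Finset.sum_fiberwise_of_maps_to (s := T) (g := Pt.a)
      (fun Q hQ => Finset.mem_image_of_mem _ hQ) _).symm.trans h1
    rw [hT, sum_biUnion_orb] at h1
    refine (Finset.sum_congr rfl fun P _ => ?_).trans h1
    rw [Finset.mul_sum]
    exact Finset.sum_congr rfl fun Q hQ => by rw [← mem_orb.1 hQ, dv_cls]
  by_cases ha : aeval a M = 0
  · rw [Finset.sum_eq_zero, map_zero, sub_zero]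
    · exact Tr_mem (F := fO M n) (i := 0) (h.Φ_mem n₂ hj).1 a ha
    · exact fun Q hQ => absurd ha ((Finset.mem_filter.1 hQ).2 ▸ Q.hM)
  · obtain ⟨Q, rfl⟩ := Pt.exists_pt n ha
    rw [Pt.fiber_sum (fun Q => ((C.φ Q x).order : ℤ) * β n₂ Q) _ fun Q hQ => ?_]
    · exact res_pt n₂ (h.ne (by omega)) Q
    · rw [hT, mem_biUnion_orb, Finsupp.notMem_support_iff, dv_cls] at hQ
      simp [hQ]

lemma One.sign (h : C.One j x) (hj : 4 * M.natDegree + dA n + dA n₂ < j) :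
    ∏ P ∈ (C.dv x).support, sg (odeg _ P) (β n₂ (rep _ P)) ^ C.dv x P = 1 := by
  have key : ∀ s : Finset (Pr M n),
      ∑ P ∈ s, (C.dv x P : AlgebraicClosure k) * ∑ Q ∈ orb _ P, β n₂ Q ∈ fixF k 1 ∧
      sg 1 (∑ P ∈ s, (C.dv x P : AlgebraicClosure k) * ∑ Q ∈ orb _ P, β n₂ Q) =
        ∏ P ∈ s, sg (odeg _ P) (β n₂ (rep _ P)) ^ C.dv x P := fun s => by
    induction s using Finset.induction_on with
    | empty => exact ⟨zero_mem_fixF one_pos, sg_zero one_pos⟩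
    | insert P s hP ih =>
      have h1 := sg_trace (odeg_pos P) (β_mem n₂ (odeg_pos P) (iter_odeg P))
      simp only [← β_fr, ← sum_orb] at h1
      have h2 := sg_zmul h1.1 (C.dv x P)
      rw [Finset.sum_insert hP, Finset.prod_insert hP, Lp.sg_add one_pos h2.1 ih.1, h2.2, h1.2, ih.2]
      exact ⟨Lp.add_mem_fixF one_pos h2.1 ih.1, rfl⟩
  rw [← (key _).2, h.sum_β n₂ hj, sg_zero one_pos]

end Cov

end Pool.Agent.Lib.MP_a3f657_nt.Two.Win
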