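import Pool.Agent.Lib.MP_a3f657_nt.WAlgDefs

/-!
The moments and the signed moments determine the limit law.
-/

namespace Pool.Agent.Lib.MP_a3f657_nt.Two.Win

open Finset

namespace WLaw

theorem Is_succ (s : ℕ) (x : ℝ) : Is (s + 1) x = Is s x * (x - 2 ^ s) := prod_range_succ _ _

theorem Is_double (s : ℕ) (x : ℝ) : Is (s + 1) (2 * x) = 2 ^ s * Is s x * (2 * x - 1) := by
  rw [Is, prod_range_succ', Is, pow_zero]
  congr 1
  rw [← card_range s, ← prod_const, card_range, ← prod_mul_distrib]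
  exact prod_congr rfl fun i _ => by ring

theorem Is_zero {s r : ℕ} (h : r < s) : Is s (2 ^ r) = 0 :=
  prod_eq_zero (mem_range.2 h) (sub_self _)

theorem Is_ge {s r : ℕ} (h : s ≤ r) : ((2 : ℝ) ^ r / 2) ^ s ≤ Is s (2 ^ r) := by
  rw [Is, ← card_range s, ← prod_const, card_range]
  refine prod_le_prod (fun i _ => by positivity) fun i hi => ?_
  have : (2 : ℝ) ^ (i + 1) ≤ 2 ^ r := pow_le_pow_right₀ one_le_two (by
    have := mem_range.1 hi
    omega)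
  rw [pow_succ] at this
  linarith

theorem Is_nonneg (s r : ℕ) : 0 ≤ Is s (2 ^ r) := by
  rcases lt_or_ge r s with h | h
  · exact (Is_zero h).ge
  · exact le_trans (by positivity) (Is_ge h)

theorem two_pow_sub_pos (i : ℕ) : (0 : ℝ) < 2 ^ (i + 1) - 1 :=
  sub_pos.2 (one_lt_pow₀ one_lt_two (by omega))

theorem PR_succ (r : ℕ) : PR (r + 1) * (2 ^ (r + 1) - 1) = 2 * PR r := by
  have := two_pow_sub_pos r
  rw [PR, PR, prod_range_succ]
  field_simp

theorem PR_nonneg (h : LawA) (r : ℕ) : 0 ≤ PR r := by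
  have h1 : ∀ r, 0 ≤ ∏ i ∈ range r, 2 / ((2 : ℝ) ^ (i + 1) - 1) := fun r =>
    prod_nonneg fun i _ => div_nonneg zero_le_two (two_pow_sub_pos i).le
  rcases le_total 0 (∏' j : ℕ, (1 + (2 : ℝ)⁻¹ ^ j))⁻¹ with h2 | h2
  · exact mul_nonneg h2 (h1 r)
  · have := h.1.nonpos fun r => mul_nonpos_of_nonpos_of_nonneg h2 (h1 r)
    linarith

theorem PR_Is (r s : ℕ) : PR (r + s) * Is s (2 ^ (r + s)) = 2 ^ (s * (s + 1) / 2) * PR r := by
  induction s with
  | zero => simp [Is]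
  | succ s ih =>
    have e : (s + 1) * (s + 1 + 1) / 2 = s * (s + 1) / 2 + (s + 1) := by
      rw [show (s + 1) * (s + 1 + 1) = s * (s + 1) + 2 * (s + 1) by ring,
        Nat.add_mul_div_left _ _ two_pos]
    have h1 := PR_succ (r + s)
    rw [e, ← add_assoc, pow_succ' 2 (r + s), Is_double, pow_add 2 _ (s + 1), pow_succ 2 s]
    rw [pow_succ' 2 (r + s)] at h1
    linear_combination (2 ^ s * Is s (2 ^ (r + s))) * h1 + (2 * 2 ^ s) * ih

theorem hasSum_Is (h : LawA) (s : ℕ) :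
    HasSum (fun r => PR r * Is s (2 ^ r)) (2 ^ (s * (s + 1) / 2)) := by
  have h1 : HasSum (fun r => PR (r + s) * Is s (2 ^ (r + s))) (2 ^ (s * (s + 1) / 2)) := by
    simpa only [PR_Is, mul_one] using h.1.mul_left (2 ^ (s * (s + 1) / 2))
  have h2 := (hasSum_nat_add_iff (f := fun r => PR r * Is s (2 ^ r)) s).1 h1
  rwa [sum_eq_zero (fun i hi => by rw [Is_zero (mem_range.1 hi), mul_zero]), add_zero] at h2

theorem hasSum_Is' (h : LawA) (s : ℕ) :
    HasSum (fun r => (-1) ^ r * (PR r * Is s (2 ^ r))) 0 := by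
  have h1 : HasSum (fun r => (-1) ^ (r + s) * (PR (r + s) * Is s (2 ^ (r + s)))) 0 := by
    have := h.2.mul_left ((-1) ^ s * 2 ^ (s * (s + 1) / 2))
    rw [mul_zero] at this
    refine (congrArg (HasSum · 0) (funext fun r => ?_)).mp this
    rw [PR_Is, pow_add]
    ring
  have h2 := (hasSum_nat_add_iff (f := fun r => (-1) ^ r * (PR r * Is s (2 ^ r))) s).1 h1
  rwa [sum_eq_zero (fun i hi => by rw [Is_zero (mem_range.1 hi), mul_zero, mul_zero]),
    add_zero] at h2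

/-- Test functions controlled by the moments up to the order `J`. -/
def Gd (J : ℕ) (f : ℝ → ℝ) : Prop :=
  ∃ C m : ℝ, 0 ≤ C ∧ HasSum (fun r => PR r * f (2 ^ r)) m ∧
    HasSum (fun r => (-1) ^ r * (PR r * f (2 ^ r))) 0 ∧
    ∀ (d : ℝ) (ι : Type) (Ω : Finset ι) (r : ι → ℕ),
      (∀ s ≤ J, |∑ x ∈ Ω, (Is s (2 ^ r x) - 2 ^ (s * (s + 1) / 2))| ≤ d ∧
        |∑ x ∈ Ω, (-1) ^ r x * Is s (2 ^ r x)| ≤ d) →
      |∑ x ∈ Ω, (f (2 ^ r x) - m)| ≤ C * d ∧ |∑ x ∈ Ω, (-1) ^ r x * f (2 ^ r x)| ≤ C * d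

theorem gd_Is (h : LawA) {J s : ℕ} (hs : s ≤ J) : Gd J (Is s) :=
  ⟨1, _, zero_le_one, hasSum_Is h s, hasSum_Is' h s, fun d ι Ω r hh => by
    simpa only [one_mul] using hh s hs⟩

theorem abs_comb {a b u v A B d : ℝ} (hu : |u| ≤ A * d) (hv : |v| ≤ B * d) :
    |a * u + b * v| ≤ (|a| * A + |b| * B) * d := by
  refine (abs_add_le _ _).trans ?_
  rw [abs_mul, abs_mul, add_mul, mul_assoc, mul_assoc]
  exact add_le_add (mul_le_mul_of_nonneg_left hu (abs_nonneg _))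
    (mul_le_mul_of_nonneg_left hv (abs_nonneg _))

theorem Gd.comb {J : ℕ} {f g : ℝ → ℝ} (hf : Gd J f) (hg : Gd J g) (a b : ℝ) :
    Gd J fun x => a * f x + b * g x := by
  obtain ⟨A, m, h1, h2, h3, h4⟩ := hf
  obtain ⟨B, n, g1, g2, g3, g4⟩ := hg
  refine ⟨|a| * A + |b| * B, a * m + b * n, by positivity, ?_, ?_, fun d ι Ω r hh => ⟨?_, ?_⟩⟩
  · refine (congrArg (HasSum · _) (funext fun r => ?_)).mp ((h2.mul_left a).add (g2.mul_left b))
    ring
  · have := (h3.mul_left a).add (g3.mul_left b)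
    rw [mul_zero, mul_zero, add_zero] at this
    refine (congrArg (HasSum · 0) (funext fun r => ?_)).mp this
    ring
  · refine le_of_eq_of_le (congrArg _ ?_)
      (abs_comb (a := a) (b := b) (h4 d ι Ω r hh).1 (g4 d ι Ω r hh).1)
    rw [mul_sum, mul_sum, ← sum_add_distrib]
    exact sum_congr rfl fun x _ => by ring
  · refine le_of_eq_of_le (congrArg _ ?_)
      (abs_comb (a := a) (b := b) (h4 d ι Ω r hh).2 (g4 d ι Ω r hh).2)
    rw [mul_sum, mul_sum, ← sum_add_distrib]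
    exact sum_congr rfl fun x _ => by ring

theorem gd_prod (h : LawA) (J : ℕ) (y c : ℕ → ℝ) (I : Finset ℕ) :
    ∀ s, s + I.card ≤ J → Gd J fun x => Is s x * ∏ i ∈ I, (x - y i) / c i := by
  induction I using Finset.induction_on with
  | empty => exact fun s hs => by simpa using gd_Is h (s := s) (by simpa using hs)
  | insert j I hj ih =>
    intro s hs
    rw [card_insert_of_notMem hj] at hs
    convert (ih (s + 1) (by omega)).comb (ih s (by omega)) (c j)⁻¹ ((2 ^ s - y j) / c j)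
      using 2 with x
    rw [prod_insert hj, Is_succ]
    ring

/-- The interpolation polynomial. -/
noncomputable def PP (p i₀ J : ℕ) (x : ℝ) : ℝ :=
  ∏ i ∈ (range (J + 1)).erase i₀, (x - 2 ^ (p + 2 * i)) / (2 ^ (p + 2 * i₀) - 2 ^ (p + 2 * i))

theorem gd_PP (h : LawA) (p : ℕ) {i₀ J : ℕ} (hJ : i₀ ≤ J) : Gd J (PP p i₀ J) := by
  convert gd_prod h J (fun i => 2 ^ (p + 2 * i)) (fun i => 2 ^ (p + 2 * i₀) - 2 ^ (p + 2 * i))
    ((range (J + 1)).erase i₀) 0 (by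
      rw [card_erase_of_mem (mem_range.2 (by omega)), card_range]; omega) using 2 with x
  simp [Is, PP]

theorem half_le {a b : ℕ} (h : a ≠ b) : (2 : ℝ) ^ b / 2 ≤ |2 ^ a - 2 ^ b| := by
  have h0 : (0 : ℝ) < 2 ^ b := by positivity
  rcases lt_or_gt_of_ne h with h | h
  · have : (2 : ℝ) ^ (a + 1) ≤ 2 ^ b := pow_le_pow_right₀ one_le_two h
    rw [pow_succ] at this
    exact le_abs.2 (Or.inr (by linarith))
  · have : (2 : ℝ) ^ (b + 1) ≤ 2 ^ a := pow_le_pow_right₀ one_le_two h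
    rw [pow_succ] at this
    exact le_abs.2 (Or.inl (by linarith))

theorem PP_bound (p k : ℕ) {i₀ J : ℕ} (hJ : i₀ ≤ J) :
    |PP p i₀ J (2 ^ (p + 2 * k)) - if k = i₀ then 1 else 0| ≤
      4 ^ (J + i₀) / 4 ^ (J * (J + 1) / 2) * Is J (2 ^ (p + 2 * k)) := by
  have h0 : 0 ≤ (4 : ℝ) ^ (J + i₀) / 4 ^ (J * (J + 1) / 2) * Is J (2 ^ (p + 2 * k)) :=
    mul_nonneg (by positivity) (Is_nonneg _ _)
  by_cases h1 : k = i₀
  · rw [if_pos h1, h1, PP, prod_eq_one, sub_self, abs_zero]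
    · rwa [h1] at h0
    · intro i hi
      refine div_self (abs_pos.1 (lt_of_lt_of_le (by positivity) (half_le ?_)))
      have := (mem_erase.1 hi).1
      omega
  rw [if_neg h1, sub_zero]
  by_cases h2 : k ≤ J
  · rw [PP, prod_eq_zero (mem_erase.2 ⟨h1, mem_range.2 (by omega)⟩) (by rw [sub_self, zero_div]),
      abs_zero]
    exact h0
  have hm : i₀ ∈ range (J + 1) := mem_range.2 (by omega)
  have h3 : |PP p i₀ J (2 ^ (p + 2 * k))| ≤
      ∏ i ∈ (range (J + 1)).erase i₀, (4 * (2 ^ (p + 2 * k) / 2)) / (4 : ℝ) ^ i := by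
    rw [PP, abs_prod]
    refine prod_le_prod (fun i _ => abs_nonneg _) fun i hi => ?_
    have g1 := (mem_erase.1 hi).1
    have g2 := mem_range.1 (mem_erase.1 hi).2
    have g3 := half_le (a := p + 2 * i₀) (b := p + 2 * i) (by omega)
    have g4 : (4 : ℝ) ^ i ≤ 2 ^ (p + 2 * i) := by
      rw [show (4 : ℝ) = 2 ^ 2 by norm_num, ← pow_mul]
      exact pow_le_pow_right₀ one_le_two (by omega)
    have g5 : (2 : ℝ) ^ (p + 2 * i) ≤ 2 ^ (p + 2 * k) := pow_le_pow_right₀ one_le_two (by omega)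
    have g6 : (0 : ℝ) < 4 ^ i := by positivity
    rw [abs_div, abs_of_nonneg (sub_nonneg.2 g5)]
    calc _ ≤ (2 : ℝ) ^ (p + 2 * k) / (4 ^ i / 2) :=
          div_le_div₀ (by positivity) (by linarith) (by positivity) (by linarith)
      _ = _ := by field_simp; norm_num
  have h4 : (∏ i ∈ (range (J + 1)).erase i₀, (4 : ℝ) ^ i) * 4 ^ i₀ = 4 ^ (J * (J + 1) / 2) := by
    rw [prod_erase_mul _ _ hm, prod_pow_eq_pow_sum, sum_range_id, Nat.add_sub_cancel, mul_comm]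
  rw [prod_div_distrib, prod_const, card_erase_of_mem hm, card_range, Nat.add_sub_cancel] at h3
  have h5 := Is_ge (s := J) (r := p + 2 * k) (by omega)
  have h6 : 0 < ∏ i ∈ (range (J + 1)).erase i₀, (4 : ℝ) ^ i := prod_pos fun i _ => by positivity
  refine h3.trans (le_trans (le_of_eq ?_) (mul_le_mul_of_nonneg_left h5 (by positivity)))
  rw [← h4, mul_pow, pow_add 4 J]
  field_simp

theorem PP_bound' (r₀ r : ℕ) {J : ℕ} (hJ : r₀ / 2 ≤ J) :
    |(PP (r₀ % 2) (r₀ / 2) J (2 ^ r) +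
        (-1) ^ r₀ * ((-1) ^ r * PP (r₀ % 2) (r₀ / 2) J (2 ^ r))) / 2 - if r = r₀ then 1 else 0| ≤
      4 ^ (J + r₀ / 2) / 4 ^ (J * (J + 1) / 2) * Is J (2 ^ r) := by
  rw [← mul_assoc, ← pow_add]
  by_cases h : r % 2 = r₀ % 2
  · have h1 := PP_bound (r₀ % 2) (r / 2) hJ
    rw [show r₀ % 2 + 2 * (r / 2) = r by omega] at h1
    rw [Even.neg_one_pow (Nat.even_iff.2 (by omega)), one_mul, add_self_div_two]
    rwa [if_congr (show r / 2 = r₀ / 2 ↔ r = r₀ by omega) rfl rfl] at h1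
  · rw [Odd.neg_one_pow (Nat.odd_iff.2 (by omega)), if_neg (by omega), neg_one_mul,
      add_neg_cancel, zero_div, sub_zero, abs_zero]
    exact mul_nonneg (by positivity) (Is_nonneg _ _)

theorem small (i₀ n : ℕ) : (4 : ℝ) ^ (2 * i₀ + n + 5 + i₀) /
    4 ^ ((2 * i₀ + n + 5) * (2 * i₀ + n + 5 + 1) / 2) *
      2 ^ ((2 * i₀ + n + 5) * (2 * i₀ + n + 5 + 1) / 2) ≤ 2⁻¹ ^ n := by
  obtain ⟨T, hT, h⟩ : ∃ T, (2 * i₀ + n + 5) * (2 * i₀ + n + 5 + 1) / 2 = T ∧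
      2 * (2 * i₀ + n + 5 + i₀) + n ≤ T :=
    ⟨_, rfl, (Nat.le_div_iff_mul_le two_pos).2 (by nlinarith)⟩
  have h1 : (2 : ℝ) ^ (2 * (2 * i₀ + n + 5 + i₀) + n) ≤ 2 ^ T := pow_le_pow_right₀ one_le_two h
  rw [hT, inv_pow, show (4 : ℝ) ^ T = 2 ^ T * 2 ^ T by rw [← mul_pow]; norm_num,
    show (4 : ℝ) = 2 ^ 2 by norm_num, ← pow_mul]
  rw [pow_add] at h1
  rw [div_mul_eq_mul_div, mul_div_mul_right _ _ (by positivity), div_le_iff₀ (by positivity),
    ← div_eq_inv_mul, le_div_iff₀ (by positivity)]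
  exact h1

end WLaw

open WLaw in
theorem law (h : LawA) : Law := by
  intro r₀ ε hε
  obtain ⟨n, hn⟩ := exists_pow_lt_of_lt_one (show 0 < ε / 4 by positivity)
    (show (2 : ℝ)⁻¹ < 1 by norm_num)
  obtain ⟨J, hJ, η, hη, hb, hs⟩ : ∃ J, r₀ / 2 ≤ J ∧ ∃ η : ℝ, 0 ≤ η ∧
      (∀ r : ℕ, |(PP (r₀ % 2) (r₀ / 2) J (2 ^ r) + (-1) ^ r₀ *
        ((-1) ^ r * PP (r₀ % 2) (r₀ / 2) J (2 ^ r))) / 2 - if r = r₀ then 1 else 0| ≤
          η * Is J (2 ^ r)) ∧ η * 2 ^ (J * (J + 1) / 2) ≤ ε / 4 :=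
    ⟨2 * (r₀ / 2) + n + 5, by omega, _, by positivity, fun r => PP_bound' r₀ r (by omega),
      (small _ n).trans hn.le⟩
  obtain ⟨C, m, hC, g1, g2, g3⟩ := gd_PP h (r₀ % 2) hJ
  have k1 : |m / 2 - PR r₀| ≤ ε / 4 := by
    have a1 := ((g1.add (g2.mul_left ((-1) ^ r₀))).div_const 2).sub
      (hasSum_ite_eq r₀ (PR r₀))
    have a2 := (hasSum_Is h J).mul_left η
    rw [mul_zero, add_zero] at a1
    refine le_trans ?_ hs
    rw [← Real.norm_eq_abs]
    refine a1.norm_le_of_bounded a2 fun r => ?_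
    have a3 := mul_le_mul_of_nonneg_left (hb r) (PR_nonneg h r)
    rw [← abs_of_nonneg (PR_nonneg h r), ← abs_mul, abs_of_nonneg (PR_nonneg h r)] at a3
    rw [Real.norm_eq_abs]
    refine le_of_eq_of_le (congrArg _ ?_) (a3.trans_eq (by ring))
    split_ifs with a4
    · rw [a4]; ring
    · ring
  refine ⟨J, ε / 2 / (η + C + 1), by positivity, fun ι Ω r hΩ hh => ?_⟩
  obtain ⟨δ, hδ, hδ'⟩ : ∃ δ, ε / 2 / (η + C + 1) = δ ∧ (η + C) * δ ≤ ε / 2 := ⟨_, rfl, by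
    rw [mul_div_assoc', div_le_iff₀ (by positivity)]
    nlinarith⟩
  rw [hδ] at hh
  have hN : (0 : ℝ) < Ω.card := by exact_mod_cast hΩ.card_pos
  obtain ⟨b1, b2⟩ := g3 _ ι Ω r hh
  have b3 := (abs_le.1 (hh J le_rfl).1).2
  have b4 := (abs_sum_le_sum_abs _ Ω).trans (sum_le_sum fun x _ => hb (r x))
  rw [sum_sub_distrib, sum_const, nsmul_eq_mul] at b1 b3
  rw [sum_sub_distrib, ← sum_div, sum_add_distrib, ← mul_sum, ← mul_sum, sum_boole] at b4
  have b5 : |(-1 : ℝ) ^ r₀ * ∑ x ∈ Ω, (-1) ^ r x * PP (r₀ % 2) (r₀ / 2) J (2 ^ r x)| ≤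
      C * (δ * Ω.card) := by rwa [abs_mul, abs_neg_one_pow, one_mul]
  have b6 := mul_le_mul_of_nonneg_left b3 hη
  have b7 := mul_le_mul_of_nonneg_right hs hN.le
  have b8 := mul_le_mul_of_nonneg_right hδ' hN.le
  have b9 := mul_le_mul_of_nonneg_right k1 hN.le
  rw [← abs_of_pos hN, ← abs_mul, abs_of_pos hN] at b9
  rw [div_sub' hN.ne', abs_div, abs_of_pos hN, div_le_iff₀ hN]
  rw [abs_le] at b1 b4 b5 b9 ⊢
  constructor <;> nlinarith

end Pool.Agent.Lib.MP_a3f657_nt.Two.Win
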