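import Pool.Agent.Lib.MP_a3f657_nt.WDefs

/-!
The local data at infinity depend only on the top coefficients of `b`.
-/

set_option linter.unusedSectionVars false

namespace Pool.Agent.Lib.MP_a3f657_nt.Two.Win

open Polynomial

open scoped Classical

namespace LocB

section loc

variable {K : Type} [Field K] [CharP K 2] {L : PreLoc K} {P P' : PB K} {A α u : K} {e n : ℤ}

lemma pt_ord {B x l : K} (he : e % 2 = 1) (hn : n % 2 = 1) (h0 : 0 < e) (hA : ord L.w A = -e)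
    (hB0 : B ≠ 0) (hB : ord L.w B = -n) (hx : x ≠ 0) (hl : wp l = x + A + B / x ^ 2) :
    ord L.w x ≤ -e ∨ 2 * ord L.w x = e - n := by
  by_contra hc
  push Not at hc
  obtain ⟨h1, h2⟩ := hc
  have hA0 : A ≠ 0 := by rintro rfl; simp at hA; omega
  have hx2 := pow_ne_zero 2 hx
  have ht0 : B / x ^ 2 ≠ 0 := div_ne_zero hB0 hx2
  have ht : ord L.w (B / x ^ 2) = -n - 2 * ord L.w x := by rw [ord_div hB0 hx2, ord_sq, hB]
  have key : ∀ m : ℤ, m % 2 = 1 → m < 0 → ord L.w (wp l) = m → False := fun m m1 m2 m3 => by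
    by_cases hl0 : ord L.w l < 0
    · have := (ord_wp hl0).2
      omega
    · have h3 : wp l ∈ Fil L.w 0 := Fil.wp (mem_Fil_ord l) (by omega) (by omega)
      have h4 : wp l ≠ 0 := fun e0 => by rw [e0, ord_zero] at m3; omega
      rw [mem_Fil_iff h4] at h3
      omega
  rcases lt_or_gt_of_ne h2 with h3 | h3
  · have := (ord_add (w := L.w) hA0 (y := x + B / x ^ 2)
      (add_mem (mem_Fil_of_le (by omega)) (mem_Fil_of_le (by omega)))).2
    refine key (-e) (by omega) (by omega) ?_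
    rw [hl, show x + A + B / x ^ 2 = A + (x + B / x ^ 2) by ring, this, hA]
  · have := (ord_add (w := L.w) ht0 (y := x + A)
      (add_mem (mem_Fil_of_le (by omega)) (mem_Fil_of_le (by omega)))).2
    refine key (-n - 2 * ord L.w x) (by omega) (by omega) ?_
    rw [hl, add_comm, this, ht]

lemma Lt_near (hc : Cpl L.w) (he : e % 2 = 1) (hn : n % 2 = 1) (h1 : 2 * e ≤ n)
    (h2 : 2 * n ≤ 5 * e) (hA : ord L.w A = -e) (hB : ord L.w P.b = -n)
    (hBB : P.b + P'.b ∈ Fil L.w (1 - e)) (hα : (α, u) ∈ Lt P A) :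
    ∃ u', (α, u') ∈ Lt P' A ∧ (α ∈ Fil L.w (-e) →
      u * L.P.dlg P.b + u' * L.P.dlg P'.b ∈ Fil L.w (n - 2 * e)) := by
  have hb := P.b_ne
  have hN : 1 + P'.b / P.b ∈ Fil L.w (n - e + 1) := by
    rw [show 1 + P'.b / P.b = (P.b + P'.b) / P.b by field_simp]
    exact Fil.div hBB (by omega)
  have hω : L.P.dlg P.b + L.P.dlg P'.b ∈ Fil L.w (n - e) := by
    have := PreLoc.dlog_one_add hN (by omega) (c := n - e) (by omega)
    rw [← add_assoc, two_K, zero_add] at this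
    rwa [show P'.b = P.b * (P'.b / P.b) by field_simp, L.P.dlg_mul hb (div_ne_zero P'.b_ne hb),
      ← add_assoc, two_K, zero_add]
  rcases mem_Lt.1 hα with rfl | ⟨x, l, l', hx, hl, hl', rfl⟩
  · refine ⟨u, wp_mem_Lt u, fun h3 => ?_⟩
    rw [← mul_add]
    exact Fil.mul (Fil.of_wp h3 (c := -(e / 2)) (by omega) (by omega)) hω (by omega)
  have hp := pt_ord he hn (by omega) hA hb hB hx hl
  have hs := ord_sq (w := L.w) x
  have ht : P.b / x ^ 2 ∈ Fil L.w (-e) := Fil.div (mem_Fil_ord _) (by omega)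
  have hδ : (P.b + P'.b) / x ^ 2 ∈ Fil L.w (n - 2 * e + 1) := Fil.div hBB (by omega)
  obtain ⟨z, hz1, hz⟩ := hc.exists_wp hδ (by omega)
  refine ⟨l' + z + P'.dl x, mem_Lt.2 (Or.inr ⟨x, l + z, l' + z, hx, ?_, ?_, rfl⟩), fun h3 => ?_⟩
  · rw [wp_add, hl, hz]
    clear * - hb hx
    grind
  · rw [wp_add, hl', hz]
    clear * - hb hx
    grind
  · rw [add_mul, add_mul (l' + z), dl_mul_dlg, dl_mul_dlg, show l' * L.P.dlg P.b + L.P.dlg x +
      ((l' + z) * L.P.dlg P'.b + L.P.dlg x) = l' * (L.P.dlg P.b + L.P.dlg P'.b) +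
        z * L.P.dlg P'.b by grind]
    have h4 : l' ∈ Fil L.w (-(e / 2)) := Fil.of_wp (a := -e)
      (hl' ▸ add_mem h3 ht) (by omega) (by omega)
    exact add_mem (Fil.mul h4 hω (by omega)) (Fil.mul hz1 (PreLoc.dlog_mem _) (by omega))

end loc

section cmp

variable {F : Type} [Field F] [CharP F 2] {L : PreLoc F} {C : Cmp L} {P P' : PB F} {A : F}
  {e n : ℤ} (he : e % 2 = 1) (hn : n % 2 = 1) (h1 : 2 * e ≤ n) (h2 : 2 * n ≤ 5 * e)
  (hA : ord L.w A = -e) (hB : ord L.w P.b = -n) (hBB : P.b + P'.b ∈ Fil L.w (1 - e))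
include he hn h1 h2 hA hB hBB

lemma near_aux {α u : C.K} (hα : (α, u) ∈ Two.Lt (C.Q P) (C.f A)) :
    ∃ u', (α, u') ∈ Two.Lt (C.Q P') (C.f A) ∧ (α ∈ Fil C.L'.w (-e) →
      u * C.L'.P.dlg (C.Q P).b + u' * C.L'.P.dlg (C.Q P').b ∈ Fil C.L'.w (n - 2 * e)) :=
  Lt_near C.h.cpl he hn h1 h2 (by rw [C.h.ord_eq, hA]) (by rw [C.Q_b, C.h.ord_eq, hB])
    (by rw [C.Q_b, C.Q_b, ← map_add]; exact C.h.mem.2 hBB) hα

lemma near_AA : C.AA P A ≤ C.AA P' A := fun α hα => by
  obtain ⟨u, hu⟩ := mem_AA.1 hα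
  obtain ⟨u', hu', -⟩ := near_aux he hn h1 h2 hA hB hBB hu
  exact mem_AA.2 ⟨u', hu'⟩

lemma near_cc {α α' : F} (g1 : α ∈ C.AA P A) (g2 : α ∈ Fil L.w (-e)) (g3 : α' ∈ C.AA P A)
    (g4 : α' ∈ Fil L.w (-(n - 2 * e))) : C.cc P A α α' = C.cc P' A α α' := by
  have g5 := near_AA he hn h1 h2 hA hB hBB g1
  have g6 := near_AA he hn h1 h2 hA hB hBB g3
  obtain ⟨u', hu', H⟩ := near_aux he hn h1 h2 hA hB hBB (mem_AA.1 g1).choose_spec
  have e1 := rho_orth (C.L'.rho_c0 _) (Cmp.mem_AA'.1 g6)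
    (Two.sub_mem_BB (mem_AA.1 g5).choose_spec hu')
  have e2 := C.L'.r_int _ (Fil.mul (C.h.mem.2 g4) (H (C.h.mem.2 g2)) (by omega))
  rw [Cmp.cc, dif_pos g1, Cmp.cc, dif_pos g5]
  change C.L'.rho _ (_ * C.f α') = C.L'.rho _ (_ * C.f α')
  rw [mul_add, map_add] at e1 e2
  rw [mul_comm _ (C.f α'), mul_comm _ (C.f α')]
  simp only [PreLoc.rho_apply, PB.dlg, mul_assoc] at e1 e2 ⊢
  exact add_right_cancel (e2.trans e1.symm)

end cmp

variable {k : Type} [Field k] [Fintype k] [CharP k 2]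

lemma ne_of_odd {b : k[X]} (h : Odd b.natDegree) : b ≠ 0 := by
  rintro rfl
  simp at h

lemma PD_b {b : k[X]} (h : Odd b.natDegree) : (PD b).b = ι b := by
  have hs : ∀ r : RatFunc k, r ^ 2 ≠ ι b := fun r hr => by
    have h1 := ord_none (ne_of_odd h)
    rw [← hr, ord_sq] at h1
    obtain ⟨m, hm⟩ := h
    omega
  rw [PD, dif_pos hs]
  rfl

end LocB

open LocB in
theorem locB (h : LocA) : LocB := by
  intro k _ _ _ a b b' hD hd
  obtain ⟨a₀, -, ha₀, H⟩ := h k a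
  obtain ⟨H1, -⟩ := H b hD
  obtain ⟨d1, d2, d3, d4⟩ := hD
  have hb0 := ne_of_odd d2
  have hdeg : b'.natDegree = b.natDegree := by
    have h1 : (b - b').degree < b.degree := by
      refine hd.trans_le ?_
      rw [degree_eq_natDegree hb0]
      exact_mod_cast (by omega : a.natDegree ≤ b.natDegree)
    have h2 := degree_sub_eq_left_of_degree_lt h1
    rw [sub_sub_cancel] at h2
    exact natDegree_eq_of_degree_eq h2
  have d2' : Odd b'.natDegree := hdeg ▸ d2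
  have he : (a.natDegree : ℤ) % 2 = 1 := by obtain ⟨m, hm⟩ := d1; omega
  have hn : (b.natDegree : ℤ) % 2 = 1 := by obtain ⟨m, hm⟩ := d2; omega
  have h1 : 2 * (a.natDegree : ℤ) ≤ b.natDegree := by omega
  have h2 : 2 * (b.natDegree : ℤ) ≤ 5 * a.natDegree := by omega
  have hA : ord (pl (k := k) none).w (ι a) = -a.natDegree := ord_none (ne_of_odd d1)
  have hB : ord (pl (k := k) none).w (PD b).b = -b.natDegree := by
    rw [PD_b d2]; exact ord_none hb0
  have hB' : ord (pl (k := k) none).w (PD b').b = -b.natDegree := by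
    rw [PD_b d2', ← hdeg]; exact ord_none (ne_of_odd d2')
  have hBB : (PD b).b + (PD b').b ∈ Fil (pl (k := k) none).w (1 - a.natDegree) := by
    rw [PD_b d2, PD_b d2', ← CharTwo.sub_eq_add, ← map_sub]
    exact ι_mem_none'.2 hd
  have hBB' : (PD b').b + (PD b).b ∈ Fil (pl (k := k) none).w (1 - a.natDegree) := by
    rwa [add_comm]
  refine ⟨?_, fun x hx y hy hyd => ?_⟩
  · rw [WW, WW, le_antisymm (near_AA (C := cmp none) he hn h1 h2 hA hB hBB)
      (near_AA (C := cmp none) he hn h1 h2 hA hB' hBB')]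
  · refine near_cc he hn h1 h2 hA hB hBB hx.2 (ι_mem_none.2 ?_) hy.2
      (Fil.mono (ι_mem_none.2 hyd) (by omega))
    rcases H1 x hx with h3 | h3
    · omega
    · have h4 : x = (x + a₀) + a₀ := by rw [add_assoc, CharTwo.add_self_eq_zero, add_zero]
      rw [h4]
      exact natDegree_add_le_of_degree_le (by omega) ha₀

end Pool.Agent.Lib.MP_a3f657_nt.Two.Win
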