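import Pool.Agent.Lib.MP_a3f657_nt.WRhPts

/-!
The Riemann hypothesis for sums of class functions on the Heisenberg cover.
-/

open Pool.Agent.Lib.MP_a3f657_nt.Two.Rh

namespace Pool.Agent.Lib.MP_a3f657_nt.Two.Win.Rh

open Polynomial Module TensorProduct

variable {k : Type} [Field k] [Fintype k] [CharP k 2] {R : Type} [CommRing R] [Algebra k R]
  {ρ : ℕ}

section

variable {d : ℕ} {e : Basis (Fin d) k R} {F : Type} [Field F] [Algebra k F] {M : k[X]} {U V : R}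
  {n₁ n₂ : Fin ρ → k[X]} {ν : F ⊗[k] R}

theorem lower_bound [Finite R] [Fintype F] [CharP F 2] {K : Type} [Field K] [IsAlgClosed K]
    [Algebra k K]
    [Algebra F K] [IsScalarTower k F K] [CharP K 2] {t₀ : F} (hM : M ≠ 0)
    (Φ : PP F ρ d →ₐ[F] PowerSeries F) (hb : ba Φ = PowerSeries.C t₀ + PowerSeries.X)
    (hE : Eqs e M U V n₁ n₂ ν Φ) (hn : Φ (nrm (ygen e F ρ)) ≠ 0) (Ξ : Hs ρ × Rˣ → ℝ)
    (hΞ : ∀ γ, Ξ γ ≤ 2)
    (hsum : ∀ G : Finset (Hs ρ × Rˣ), (∀ a ∈ G, ∀ b ∈ G, a * b ∈ G) → 0 ≤ ∑ γ ∈ G, Ξ γ) :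
    ∃ (C : ℝ) (S₀ : ℕ), ∀ j, S₀ ≤ Fintype.card F ^ j → ∀ (T : Finset K) (f : K → ℝ),
      T.card = (Fintype.card F ^ j) ^ 2 → (∀ a ∈ T, a ^ (Fintype.card F ^ j) ^ 2 = a) →
      (∀ a, -2 ≤ f a) →
      (∀ ψ : PP F ρ d →ₐ[F] K, Eqs e M U V n₁ n₂ ν ψ → aeval (ba ψ) M ≠ 0 → IsUnit (yy e ψ) →
        ba ψ ∈ T → ∀ γ, (∀ g, ψ g ^ (Fintype.card F ^ j) ^ 2 = tw e M γ ψ g) → f (ba ψ) = Ξ γ) →
      -C * Fintype.card F ^ j ≤ ∑ a ∈ T, f a := by
  classical
  letI := act e F K M ρ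
  have hsm : ∀ (γ : Hs ρ × Rˣ) (ψ : PP F ρ d →ₐ[F] K), γ • ψ = tw e M γ ψ := fun _ _ => rfl
  have := Fintype.ofFinite Rˣ
  have hfin := hE.finite
  let G : Finset (Hs ρ × Rˣ) := Finset.univ.filter fun γ => ∀ p, IsPt Φ K p → IsPt Φ K (γ • p)
  have hG : ∀ γ, γ ∈ G ↔ ∀ p, IsPt Φ K p → IsPt Φ K (γ • p) := fun γ => by simp [G]
  have hdich : ∀ γ : Hs ρ × Rˣ, (∀ f, Φ f = 0 → Φ (tau e F M γ f) = 0) ∨
      {p | IsPt Φ K p ∧ IsPt Φ K (γ • p)}.Finite := fun γ => by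
    by_cases h : ∀ f, Φ f = 0 → Φ (tau e F M γ f) = 0
    · exact Or.inl h
    push Not at h
    obtain ⟨f, hf, hf'⟩ := h
    exact Or.inr ((finite_zeros Φ hb hfin K hf').subset fun p hp => ⟨hp.1, hp.2 f hf⟩)
  have hex := exists_isPt Φ hb hfin K
  have hG1 : ∀ γ ∈ G, ∀ f, Φ f = 0 → Φ (tau e F M γ f) = 0 := fun γ hγ =>
    (hdich γ).resolve_right fun h => by
      refine Set.infinite_univ (α := K) ((h.image ba).subset fun a _ => ?_)
      obtain ⟨x, hx, hx'⟩ := hex a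
      exact ⟨x, ⟨hx, (hG γ).1 hγ x hx⟩, hx'⟩
  have hG2 : ∀ γ ∉ G, {p | IsPt Φ K p ∧ IsPt Φ K (γ • p)}.Finite := fun γ hγ =>
    (hdich γ).resolve_left fun h => hγ ((hG γ).2 fun p hp f hf => hp _ (h f hf))
  have hBad : (M.rootSet K ∪ ba '' {x | IsPt Φ K x ∧ x (nrm (ygen e F ρ)) = 0} ∪
      ⋃ γ ∈ {γ | γ ∉ G}, ba '' {p | IsPt Φ K p ∧ IsPt Φ K (γ • p)}).Finite :=
    ((M.rootSet_finite K).union ((finite_zeros Φ hb hfin K hn).image _)).union
      ((Set.toFinite _).biUnion fun γ hγ => (hG2 γ hγ).image _)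
  have hgood : ∀ p, IsPt Φ K p → ba p ∉ hBad.toFinset →
      aeval (ba p) M ≠ 0 ∧ IsUnit (yy e p) ∧ ∀ γ : Hs ρ × Rˣ, IsPt Φ K (γ • p) → γ ∈ G :=
    fun p hp hp' => by
      rw [Set.Finite.mem_toFinset] at hp'
      refine ⟨fun h => hp' (Or.inl (Or.inl ((mem_rootSet_of_ne hM).2 h))),
        isUnit_of_norm_ne_zero e fun h => hp' (Or.inl (Or.inr ⟨p, ⟨hp, ?_⟩, rfl⟩)),
        fun γ hγ => by_contra fun h => hp' (Or.inr (Set.mem_biUnion h ⟨p, ⟨hp, hγ⟩, rfl⟩))⟩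
      rw [map_nrm]
      exact h
  have hcount := fun γ : G => count_le Φ hb hfin K (tau e F M γ) (hG1 γ γ.2)
  choose C S₀ hC using hcount
  refine ⟨2 * (∑ γ, C γ : ℕ) + 4 * hBad.toFinset.card, ∑ γ, S₀ γ, fun j hj T f hT hT' hf hfΞ => ?_⟩
  have hFr : ∀ (p : PP F ρ d →ₐ[F] K) g, (FiniteField.frobeniusAlgHom F K ^ (j * 2)).comp p g =
      p g ^ (Fintype.card F ^ j) ^ 2 := fun p g => by
    rw [AlgHom.comp_apply, frob_pow_apply, pow_mul]
  have hS : (1 : ℝ) ≤ Fintype.card F ^ j := one_le_pow₀ (by exact_mod_cast Fintype.card_pos)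
  have key := cheb ba (IsPt Φ K) G ((hG 1).2 fun p hp => by rwa [one_smul]) hBad.toFinset T
    (FiniteField.frobeniusAlgHom F K ^ (j * 2)).comp
    ((Fintype.card F ^ j) ^ 2 + (∑ γ, C γ : ℕ) * Fintype.card F ^ j) f Ξ
    (fun γ p => ba_tw e M γ p)
    (fun p hp hp' γ hγ => eq_one_of_tw (hgood p hp hp').1 (hgood p hp hp').2.1 hγ)
    (fun p p' hp hp' h1 h2 => by
      obtain ⟨γ, hγ⟩ := (hE.transfer hp).exists_tw (hE.transfer hp') h2 (hgood p hp h1).2.1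
        (hgood p' hp' (h2 ▸ h1)).2.1
      exact ⟨γ, (hgood p hp h1).2.2 γ (by rwa [hsm, ← hγ]), hγ⟩)
    (fun γ hγ => (hG γ).1 hγ) hex
    (fun p hp => (hFr p _).trans (hT' _ hp))
    (fun p hp g hg => by rw [AlgHom.comp_apply, hp g hg, map_zero])
    (fun γ hγ s hs => by
      have h1 := hC ⟨γ, hγ⟩ j ((Finset.single_le_sum (f := S₀) (fun _ _ => Nat.zero_le _)
        (Finset.mem_univ _)).trans hj) s fun x hx => ⟨(hs x hx).1, fun g => by
          rw [← hFr, (hs x hx).2]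
          rfl⟩
      have h2 : C ⟨γ, hγ⟩ ≤ ∑ γ, C γ :=
        Finset.single_le_sum (f := C) (fun _ _ => Nat.zero_le _) (Finset.mem_univ _)
      exact_mod_cast h1.trans (Nat.add_le_add_left (Nat.mul_le_mul_right _ h2) _))
    hf hΞ (hsum G fun a ha b hb => (hG _).2 fun p hp => by
      rw [mul_smul]
      exact (hG a).1 ha _ ((hG b).1 hb _ hp))
    (fun p hp h1 h2 γ hγ => hfΞ p (hE.transfer hp) (hgood p hp h1).1 (hgood p hp h1).2.1 h2 γ
      fun g => by rw [← hFr, hγ, hsm])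
  rw [hT] at key
  push_cast at key ⊢
  have h3 : (0 : ℝ) ≤ hBad.toFinset.card := Nat.cast_nonneg _
  nlinarith

end

variable [Finite R]

/-- The local description of the summand through the Frobenius element. -/
def Loc (U V : R) (M : k[X]) (n₁ n₂ : Fin ρ → k[X]) (f : ℕ → AlgebraicClosure k → ℂ)
    (Ξ : Hs ρ × Rˣ → ℂ) : Prop :=
  ∀ m, 0 < m → ∀ (a z : AlgebraicClosure k) (θ η : Fin ρ → AlgebraicClosure k) (h : Hs ρ) (g : Rˣ),
    a ∈ fixF k m → aeval a M ≠ 0 → (∀ i, θ i ^ 2 + θ i = aeval a (n₁ i) / aeval a M) →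
    (∀ i, η i ^ 2 + η i = aeval a (n₂ i) / aeval a M) →
    z ^ 2 + z = ∑ i, θ i * (aeval a (n₂ i) / aeval a M) →
    (∀ i, θ i ^ Fintype.card k ^ m = θ i + cz _ (h.1 i)) →
    (∀ i, η i ^ Fintype.card k ^ m = η i + cz _ (h.2.1 i)) →
    z ^ Fintype.card k ^ m = z + ∑ i, cz _ (h.1 i) * η i + cz _ h.2.2 →
    cl U V (minpoly k a) ^ (m / (minpoly k a).natDegree) = g → f m a = Ξ (h, g)

theorem rh_aux_field (U V : R) (M : k[X]) (n₁ n₂ : Fin ρ → k[X]) (hM : M ≠ 0)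
    (hU : ∀ p : k[X], p.Monic → Irreducible p → ¬ p ∣ M → IsUnit (cl U V p))
    (f : ℕ → AlgebraicClosure k → ℂ) (Ξ : Hs ρ × Rˣ → ℂ) {B : ℝ} (hB : 0 < B)
    (hf : ∀ m a, ‖f m a‖ ≤ B) (hΞ : ∀ γ, ‖Ξ γ‖ ≤ B)
    (hsum : ∀ G : Finset (Hs ρ × Rˣ), (∀ a ∈ G, ∀ b ∈ G, a * b ∈ G) → 0 ≤ (∑ γ ∈ G, Ξ γ).re)
    (hloc : Loc U V M n₁ n₂ f Ξ) (F : Type) [Field F] [Fintype F] [Algebra k F]
    [Algebra F (AlgebraicClosure k)] [IsScalarTower k F (AlgebraicClosure k)]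
    (t₀ z₀ : F) (θ₀ η₀ : Fin ρ → F) (ht : aeval t₀ M ≠ 0)
    (h0 : ∀ i, θ₀ i ^ 2 + aeval t₀ M * θ₀ i = aeval t₀ M * aeval t₀ (n₁ i))
    (h1 : ∀ i, η₀ i ^ 2 + aeval t₀ M * η₀ i = aeval t₀ M * aeval t₀ (n₂ i))
    (h2 : z₀ ^ 2 + aeval t₀ M * z₀ = ∑ i, θ₀ i * aeval t₀ (n₂ i))
    (γ : Multiset ℂ) (hγ : ∀ m, 1 ≤ m → ∑ a ∈ fixF k m, f m a = -(γ.map (· ^ m)).sum) :
    ∀ z ∈ γ, ‖z‖ ≤ √(Fintype.card k) := by
  have : CharP F 2 := charP_of_injective_algebraMap (algebraMap k F).injective 2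
  have : Module.Finite k R := Module.Finite.of_finite
  have : Module.Finite k F := Module.Finite.of_finite
  let e := Module.finBasis k R
  set r := finrank k F with hr
  have hr0 : 0 < r := finrank_pos
  have hF : Fintype.card F = Fintype.card k ^ r := Module.card_eq_pow_finrank
  have htr : t₀ ^ Fintype.card k ^ r = t₀ := by rw [← hF, FiniteField.pow_card]
  have hint : IsIntegral k t₀ := Algebra.IsIntegral.isIntegral t₀
  obtain ⟨u, hu⟩ := hU (minpoly k t₀) (minpoly.monic hint) (minpoly.irreducible hint)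
    fun h => ht (aeval_eq_zero_of_dvd_aeval_eq_zero h (minpoly.aeval k t₀))
  obtain ⟨ν, hν⟩ : ∃ ν : F ⊗[k] R, ell U V t₀ * ν = 1 := by
    have h3 := prod_ell U V hr0 htr
    have h4 : IsUnit (∏ i ∈ Finset.range r, ell (k := k) U V (t₀ ^ Fintype.card k ^ i)) := by
      rw [h3, ← hu]
      exact (u.isUnit.pow _).map (Algebra.TensorProduct.includeRight (R := k) (A := F))
    have h5 := isUnit_of_dvd_unit (Finset.dvd_prod_of_mem _ (Finset.mem_range.2 hr0)) h4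
    rw [pow_zero, pow_one] at h5
    exact h5.exists_right_inv
  obtain ⟨Φ, hb, hE, hn⟩ := exists_phi e t₀ z₀ θ₀ η₀ ht h0 h1 h2 hν
  obtain ⟨C, S₀, hC⟩ := lower_bound (K := AlgebraicClosure k) hM Φ hb hE hn
    (fun γ => (Ξ γ).re / B)
    (fun γ => (div_le_one hB |>.2 ((Complex.re_le_norm _).trans (hΞ γ))).trans one_le_two)
    fun G hG => by
      rw [← Finset.sum_div, ← Complex.re_sum]
      exact div_nonneg (hsum G hG) hB.le
  set E := Nat.card Rˣ with hE'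
  have hE0 : 0 < E := Nat.card_pos
  have hq : (1 : ℝ) < Fintype.card k := by exact_mod_cast Fintype.one_lt_card
  have key := norm_le_of_power_sum (γ.map (· ^ (r * E * 2))) (Fintype.card k ^ (r * E)) (C * B)
    (by positivity) (max S₀ 1) fun j hj => by
    have hj0 : 0 < j := le_of_max_le_right hj
    have hm : 0 < r * E * 2 * j := by positivity
    have hQ : (Fintype.card F ^ (E * j)) ^ 2 = Fintype.card k ^ (r * E * 2 * j) := by
      rw [hF, ← pow_mul, ← pow_mul]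
      congr 1
      ring
    have h3 := hC (E * j) ((le_of_max_le_left hj).trans ((Nat.le_mul_of_pos_left j hE0).trans
      (Nat.lt_pow_self Fintype.one_lt_card).le)) (fixF k (r * E * 2 * j))
      (fun a => (f (r * E * 2 * j) a).re / B) (by rw [card_fixF hm, hQ])
      (fun a ha => by rw [hQ, ← mem_fixF hm]; exact ha)
      (fun a => by
        rw [le_div_iff₀ hB]
        linarith [(abs_le.1 ((Complex.abs_re_le_norm _).trans (hf (r * E * 2 * j) a))).1])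
      fun ψ hψ hMa hy ha γ hγ => by
        rw [hQ] at hγ
        have ha' := (mem_fixF hm).1 ha
        have hMa' : aeval (ba ψ) M ^ Fintype.card k ^ (r * E * 2 * j) = aeval (ba ψ) M := by
          rw [← frob_pow_apply, ← aeval_algHom_apply, frob_pow_apply, ha']
        have hc1 : ∀ i, c1 ψ i ^ Fintype.card k ^ (r * E * 2 * j) = c1 (tw e M γ ψ) i :=
          fun i => hγ _
        have hc2 : ∀ i, c2 ψ i ^ Fintype.card k ^ (r * E * 2 * j) = c2 (tw e M γ ψ) i :=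
          fun i => hγ _
        have hc3 : c3 ψ ^ Fintype.card k ^ (r * E * 2 * j) = c3 (tw e M γ ψ) := hγ _
        congr 2
        refine hloc _ hm (ba ψ) (c3 ψ / aeval (ba ψ) M) (fun i => c1 ψ i / aeval (ba ψ) M)
          (fun i => c2 ψ i / aeval (ba ψ) M) γ.1 γ.2 ha hMa (fun i => ?_) (fun i => ?_) ?_
          (fun i => ?_) (fun i => ?_) ?_ ?_
        · field_simp
          linear_combination hψ.e1 i
        · field_simp
          linear_combination hψ.e2 i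
        · simp only [div_mul_div_comm, ← Finset.sum_div, ← hψ.e3]
          field_simp
        · rw [div_pow, hMa', hc1, c1_tw]
          field_simp
        · rw [div_pow, hMa', hc2, c2_tw]
          field_simp
        · simp only [← mul_div_assoc, ← Finset.sum_div]
          rw [div_pow, hMa', hc3, c3_tw]
          field_simp
        · have ht' : t₀ ^ Fintype.card k ^ (r * E * 2 * j) = t₀ := by
            rw [← hQ, ← pow_mul, FiniteField.pow_card_pow]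
          rw [hψ.norm_rel hy hν hm (by rw [← map_pow, ht']) ha' (g := γ.2) (by
            rw [← yy_tw]
            refine (bs _ e).ext_elem fun i => ?_
            rw [repr_mp, repr_yy, repr_yy, frob_pow_apply, hγ]),
            minpoly.algebraMap_eq (algebraMap F _).injective, ← hu]
          obtain ⟨s, hs⟩ := (minpoly_eq_prod hr0 htr).1
          have hd : 0 < (minpoly k t₀).natDegree := minpoly.natDegree_pos hint
          rw [show r * E * 2 * j / (minpoly k t₀).natDegree = E * (s * 2 * j) by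
            rw [hs]
            exact Nat.div_eq_of_eq_mul_right hd (by ring), ← Units.val_pow_eq_pow_val, pow_mul,
            pow_card_eq_one', one_pow, Units.val_one, mul_one]
    rw [← Finset.sum_div, ← Complex.re_sum, hγ _ hm, Complex.neg_re, hF, le_div_iff₀ hB] at h3
    rw [Multiset.map_map]
    simp only [Function.comp_def, ← pow_mul]
    push_cast at h3
    rw [← pow_mul, ← mul_assoc] at h3
    linarith
  intro z hz
  have h3 := key _ (Multiset.mem_map_of_mem _ hz)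
  rw [norm_pow, mul_comm _ 2, pow_mul, pow_le_pow_iff_left₀ (by positivity) (by positivity)
    (by positivity)] at h3
  exact Real.le_sqrt_of_sq_le h3

theorem rh_aux (U V : R) (M : k[X]) (n₁ n₂ : Fin ρ → k[X]) (hM : M ≠ 0)
    (hU : ∀ p : k[X], p.Monic → Irreducible p → ¬ p ∣ M → IsUnit (cl U V p))
    (f : ℕ → AlgebraicClosure k → ℂ) (Ξ : Hs ρ × Rˣ → ℂ) {B : ℝ} (hB : 0 < B)
    (hf : ∀ m a, ‖f m a‖ ≤ B) (hΞ : ∀ γ, ‖Ξ γ‖ ≤ B)
    (hsum : ∀ G : Finset (Hs ρ × Rˣ), (∀ a ∈ G, ∀ b ∈ G, a * b ∈ G) → 0 ≤ (∑ γ ∈ G, Ξ γ).re)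
    (hloc : Loc U V M n₁ n₂ f Ξ)
    (γ : Multiset ℂ) (hγ : ∀ m, 1 ≤ m → ∑ a ∈ fixF k m, f m a = -(γ.map (· ^ m)).sum) :
    ∀ z ∈ γ, ‖z‖ ≤ √(Fintype.card k) := by
  obtain ⟨t, ht⟩ := (M.rootSet_finite (AlgebraicClosure k)).exists_notMem
  rw [mem_rootSet_of_ne hM] at ht
  choose θ hθ using fun i => exists_quad (aeval t M) (aeval t M * aeval t (n₁ i))
  choose η hη using fun i => exists_quad (aeval t M) (aeval t M * aeval t (n₂ i))
  obtain ⟨z, hz⟩ := exists_quad (aeval t M) (∑ i, θ i * aeval t (n₂ i))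
  let F := IntermediateField.adjoin k
    (insert t (insert z (Set.range θ ∪ Set.range η)) : Set (AlgebraicClosure k))
  have : FiniteDimensional k F := IntermediateField.finiteDimensional_adjoin fun x _ =>
    Algebra.IsIntegral.isIntegral x
  have : Finite F := Module.finite_of_finite k
  have : Fintype F := Fintype.ofFinite F
  obtain ⟨t₀, ht₀⟩ : ∃ x : F, algebraMap F (AlgebraicClosure k) x = t :=
    ⟨⟨t, IntermediateField.subset_adjoin _ _ (by simp)⟩, rfl⟩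
  have hθ' : ∀ i, ∃ x : F, algebraMap F (AlgebraicClosure k) x = θ i := fun i =>
    ⟨⟨θ i, IntermediateField.subset_adjoin _ _ (by simp)⟩, rfl⟩
  have hη' : ∀ i, ∃ x : F, algebraMap F (AlgebraicClosure k) x = η i := fun i =>
    ⟨⟨η i, IntermediateField.subset_adjoin _ _ (by simp)⟩, rfl⟩
  choose θ₀ hθ₀ using hθ'
  choose η₀ hη₀ using hη'
  obtain ⟨z₀, hz₀⟩ : ∃ x : F, algebraMap F (AlgebraicClosure k) x = z :=
    ⟨⟨z, IntermediateField.subset_adjoin _ _ (by simp)⟩, rfl⟩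
  have hinj := (algebraMap F (AlgebraicClosure k)).injective
  refine rh_aux_field U V M n₁ n₂ hM hU f Ξ hB hf hΞ hsum hloc F t₀ z₀ θ₀ η₀ (fun h => ht ?_)
    (fun i => hinj ?_) (fun i => hinj ?_) (hinj ?_) γ hγ
  · rw [← ht₀, aeval_algebraMap_apply, h, map_zero]
  all_goals
    simp only [map_add, map_mul, map_pow, map_sum, ← aeval_algebraMap_apply, ht₀, hθ₀, hη₀, hz₀,
      hθ, hη, hz]

end Pool.Agent.Lib.MP_a3f657_nt.Two.Win.Rh
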