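import Pool.Agent.Lib.MP_a3f657_nt.C2RhMain

/-!
The Heisenberg cover of rank `ρ`: equations, substitutions and the group action on solutions.
-/

open Pool.Agent.Lib.MP_a3f657_nt.Two.Rh

namespace Pool.Agent.Lib.MP_a3f657_nt.Two.Win.Rh

open Polynomial Module TensorProduct

/-- The Heisenberg group of rank `ρ` over the field with two elements. -/
def Hs (ρ : ℕ) : Type := (Fin ρ → ZMod 2) × (Fin ρ → ZMod 2) × ZMod 2

variable {ρ : ℕ}

instance : Fintype (Hs ρ) :=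
  inferInstanceAs (Fintype ((Fin ρ → ZMod 2) × (Fin ρ → ZMod 2) × ZMod 2))
instance : Mul (Hs ρ) :=
  ⟨fun a b => (a.1 + b.1, a.2.1 + b.2.1, a.2.2 + b.2.2 + ∑ i, a.1 i * b.2.1 i)⟩
instance : One (Hs ρ) := ⟨(0, 0, 0)⟩
instance : Inv (Hs ρ) := ⟨fun a => (-a.1, -a.2.1, -a.2.2 + ∑ i, a.1 i * a.2.1 i)⟩

theorem Hs.mul_1 (a b : Hs ρ) : (a * b).1 = a.1 + b.1 := rfl
theorem Hs.mul_2 (a b : Hs ρ) : (a * b).2.1 = a.2.1 + b.2.1 := rfl
theorem Hs.mul_3 (a b : Hs ρ) : (a * b).2.2 = a.2.2 + b.2.2 + ∑ i, a.1 i * b.2.1 i := rfl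

instance : Group (Hs ρ) := Group.ofLeftAxioms
  (fun a b c => Prod.ext (add_assoc _ _ _) (Prod.ext (add_assoc _ _ _) (by
    simp only [Hs.mul_1, Hs.mul_2, Hs.mul_3, Pi.add_apply, add_mul, mul_add,
      Finset.sum_add_distrib]
    ring)))
  (fun a => Prod.ext (zero_add _) (Prod.ext (zero_add _) (by
    change 0 + a.2.2 + ∑ i, (0 : ZMod 2) * a.2.1 i = a.2.2
    simp)))
  (fun a => Prod.ext (neg_add_cancel _) (Prod.ext (neg_add_cancel _) (by
    change -a.2.2 + ∑ i, a.1 i * a.2.1 i + a.2.2 + ∑ i, -a.1 i * a.2.1 i = 0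
    simp only [neg_mul, Finset.sum_neg_distrib]
    ring)))

theorem cz_sum {S : Type} [CommRing S] [CharP S 2] {ι : Type} (s : Finset ι) (a : ι → ZMod 2) :
    cz S (∑ i ∈ s, a i) = ∑ i ∈ s, cz S (a i) := by
  classical
  induction s using Finset.induction_on with
  | empty => simp [cz_zero]
  | insert i s hi ih => rw [Finset.sum_insert hi, Finset.sum_insert hi, cz_add, ih]

theorem sum_as {S : Type} [CommRing S] [CharP S 2] (μ : S) (a : Fin ρ → ZMod 2) {η c : Fin ρ → S}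
    (h : ∀ i, η i ^ 2 + μ * η i = c i) :
    (∑ i, cz S (a i) * η i) ^ 2 + μ * ∑ i, cz S (a i) * η i = ∑ i, cz S (a i) * c i := by
  rw [CharTwo.sum_sq, Finset.mul_sum, ← Finset.sum_add_distrib]
  refine Finset.sum_congr rfl fun i _ => ?_
  rw [← h]
  rcases zmod_cases (a i) with e | e <;> simp [e, cz_zero, cz_one]

variable {k : Type} [Field k] {R : Type} [CommRing R] [Algebra k R] {d : ℕ}
  (e : Basis (Fin d) k R) (F : Type) [Field F] [Algebra k F]

/-- The polynomial ring in which the cover lives. -/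
abbrev PP (ρ d : ℕ) : Type := MvPolynomial ((Fin ρ ⊕ Fin ρ ⊕ Unit) ⊕ Fin d) F[X]

/-- The generic element. -/
noncomputable def ygen (ρ : ℕ) : PP F ρ d ⊗[k] R :=
  (bs (PP F ρ d) e).equivFun.symm fun j => MvPolynomial.X (Sum.inr j)

variable {F} {S S' : Type} [CommRing S] [Algebra k S] [Algebra F S] [IsScalarTower k F S]
  [CommRing S'] [Algebra k S'] [Algebra F S'] [IsScalarTower k F S']

/-- The base coordinate. -/
noncomputable def ba (ψ : PP F ρ d →ₐ[F] S) : S := ψ (algebraMap F[X] (PP F ρ d) X)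

/-- The first family of Artin-Schreier coordinates. -/
noncomputable def c1 (ψ : PP F ρ d →ₐ[F] S) (i : Fin ρ) : S :=
  ψ (MvPolynomial.X (Sum.inl (Sum.inl i)))

/-- The second family of Artin-Schreier coordinates. -/
noncomputable def c2 (ψ : PP F ρ d →ₐ[F] S) (i : Fin ρ) : S :=
  ψ (MvPolynomial.X (Sum.inl (Sum.inr (Sum.inl i))))

/-- The central coordinate. -/
noncomputable def c3 (ψ : PP F ρ d →ₐ[F] S) : S :=
  ψ (MvPolynomial.X (Sum.inl (Sum.inr (Sum.inr ()))))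

/-- The Lang coordinate. -/
noncomputable def yy (ψ : PP F ρ d →ₐ[F] S) : S ⊗[k] R :=
  mp R (ψ.restrictScalars k) (ygen e F ρ)

theorem repr_ygen (j : Fin d) :
    (bs (PP F ρ d) e).repr (ygen e F ρ) j = MvPolynomial.X (Sum.inr j) := by
  rw [ygen, ← Basis.equivFun_apply, LinearEquiv.apply_symm_apply]

theorem repr_yy (ψ : PP F ρ d →ₐ[F] S) (j : Fin d) :
    (bs S e).repr (yy e ψ) j = ψ (MvPolynomial.X (Sum.inr j)) := by
  rw [yy, repr_mp, repr_ygen]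
  rfl

theorem hom_ext {ψ ψ' : PP F ρ d →ₐ[F] S} (h0 : ba ψ = ba ψ') (h1 : ∀ i, c1 ψ i = c1 ψ' i)
    (h2 : ∀ i, c2 ψ i = c2 ψ' i) (h3 : c3 ψ = c3 ψ') (h4 : yy e ψ = yy e ψ') : ψ = ψ' := by
  refine MvPolynomial.algHom_ext' (Polynomial.algHom_ext h0) ?_
  rintro ((i | i | i) | j)
  · exact h1 i
  · exact h2 i
  · exact h3
  · rw [← repr_yy e, ← repr_yy e, h4]

theorem aeval_ba (ψ : PP F ρ d →ₐ[F] S) (p : k[X]) :
    ψ (aeval (algebraMap F[X] (PP F ρ d) X) p) = aeval (ba ψ) p :=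
  (aeval_algHom_apply (ψ.restrictScalars k) _ p).symm

variable (M : k[X])

variable (F) in
/-- The substitution attached to a group element. -/
noncomputable def tau (γ : Hs ρ × Rˣ) : PP F ρ d →ₐ[F[X]] PP F ρ d :=
  MvPolynomial.aeval (Sum.elim (Sum.elim
    (fun i => MvPolynomial.X (Sum.inl (Sum.inl i)) +
      cz _ (γ.1.1 i) * aeval (algebraMap F[X] (PP F ρ d) X) M)
    (Sum.elim (fun i => MvPolynomial.X (Sum.inl (Sum.inr (Sum.inl i))) +
        cz _ (γ.1.2.1 i) * aeval (algebraMap F[X] (PP F ρ d) X) M)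
      fun _ => MvPolynomial.X (Sum.inl (Sum.inr (Sum.inr ()))) +
        ∑ i, cz _ (γ.1.1 i) * MvPolynomial.X (Sum.inl (Sum.inr (Sum.inl i))) +
        cz _ γ.1.2.2 * aeval (algebraMap F[X] (PP F ρ d) X) M))
    fun j => (bs (PP F ρ d) e).repr ((1 ⊗ₜ (γ.2 : R)) * ygen e F ρ) j)

/-- The action on solutions. -/
noncomputable def tw (γ : Hs ρ × Rˣ) (ψ : PP F ρ d →ₐ[F] S) : PP F ρ d →ₐ[F] S :=
  ψ.comp ((tau e F M γ).restrictScalars F)

theorem tw_apply (γ : Hs ρ × Rˣ) (ψ : PP F ρ d →ₐ[F] S) (f : PP F ρ d) :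
    tw e M γ ψ f = ψ (tau e F M γ f) := rfl

theorem ba_tw (γ : Hs ρ × Rˣ) (ψ : PP F ρ d →ₐ[F] S) : ba (tw e M γ ψ) = ba ψ := by
  rw [ba, tw_apply, AlgHom.commutes, ba]

theorem c1_tw (γ : Hs ρ × Rˣ) (ψ : PP F ρ d →ₐ[F] S) (i : Fin ρ) :
    c1 (tw e M γ ψ) i = c1 ψ i + cz S (γ.1.1 i) * aeval (ba ψ) M := by
  rw [c1, tw_apply, tau, MvPolynomial.aeval_X, Sum.elim_inl, Sum.elim_inl, map_add,
    map_mul, map_cz, aeval_ba, c1]

theorem c2_tw (γ : Hs ρ × Rˣ) (ψ : PP F ρ d →ₐ[F] S) (i : Fin ρ) :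
    c2 (tw e M γ ψ) i = c2 ψ i + cz S (γ.1.2.1 i) * aeval (ba ψ) M := by
  rw [c2, tw_apply, tau, MvPolynomial.aeval_X, Sum.elim_inl, Sum.elim_inr, Sum.elim_inl, map_add,
    map_mul, map_cz, aeval_ba, c2]

theorem c3_tw (γ : Hs ρ × Rˣ) (ψ : PP F ρ d →ₐ[F] S) :
    c3 (tw e M γ ψ) = c3 ψ + ∑ i, cz S (γ.1.1 i) * c2 ψ i + cz S γ.1.2.2 * aeval (ba ψ) M := by
  rw [c3, tw_apply, tau, MvPolynomial.aeval_X, Sum.elim_inl, Sum.elim_inr, Sum.elim_inr, map_add,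
    map_add, map_mul, map_cz, aeval_ba, map_sum]
  simp only [map_mul, map_cz, c2, c3]

theorem yy_tw (γ : Hs ρ × Rˣ) (ψ : PP F ρ d →ₐ[F] S) :
    yy e (tw e M γ ψ) = (1 ⊗ₜ (γ.2 : R)) * yy e ψ := by
  refine (bs S e).ext_elem fun j => ?_
  rw [repr_yy, tw_apply, tau, MvPolynomial.aeval_X, Sum.elim_inr]
  refine (repr_mp e (ψ.restrictScalars k) _ j).symm.trans ?_
  rw [map_mul (mp R _), mp_tmul, map_one, yy]

variable (F S) in
/-- The group action on solutions. -/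
@[reducible] noncomputable def act (ρ : ℕ) [CharP S 2] :
    MulAction (Hs ρ × Rˣ) (PP F ρ d →ₐ[F] S) where
  smul := tw e M
  one_smul ψ := by
    change tw e M 1 ψ = ψ
    refine hom_ext e (ba_tw ..) (fun i => ?_) (fun i => ?_) ?_ ?_
    · exact (c1_tw ..).trans (by change _ + cz S 0 * _ = _; simp [cz_zero])
    · exact (c2_tw ..).trans (by change _ + cz S 0 * _ = _; simp [cz_zero])
    · exact (c3_tw ..).trans (by change _ + ∑ i, cz S 0 * _ + cz S 0 * _ = _; simp [cz_zero])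
    · rw [yy_tw]
      exact one_mul _
  mul_smul γ γ' ψ := by
    change tw e M (γ * γ') ψ = tw e M γ (tw e M γ' ψ)
    refine hom_ext e (by simp only [ba_tw]) (fun i => ?_) (fun i => ?_) ?_ ?_
    · simp only [c1_tw, ba_tw, Prod.fst_mul, Hs.mul_1, Pi.add_apply, cz_add]
      ring
    · simp only [c2_tw, ba_tw, Prod.fst_mul, Hs.mul_2, Pi.add_apply, cz_add]
      ring
    · simp only [c2_tw, c3_tw, ba_tw, Prod.fst_mul, Hs.mul_1, Hs.mul_3, Pi.add_apply, cz_add,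
        cz_mul, cz_sum, add_mul, mul_add, Finset.sum_add_distrib, Finset.sum_mul, mul_assoc]
      ring
    · simp only [yy_tw, Prod.snd_mul, Units.val_mul, ← mul_assoc,
        Algebra.TensorProduct.tmul_mul_tmul, mul_one]

variable [Fintype k] (U V : R) (n₁ n₂ : Fin ρ → k[X]) (ν : F ⊗[k] R)

/-- The equations of the cover. -/
structure Eqs (ψ : PP F ρ d →ₐ[F] S) : Prop where
  e1 : ∀ i, c1 ψ i ^ 2 + aeval (ba ψ) M * c1 ψ i = aeval (ba ψ) M * aeval (ba ψ) (n₁ i)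
  e2 : ∀ i, c2 ψ i ^ 2 + aeval (ba ψ) M * c2 ψ i = aeval (ba ψ) M * aeval (ba ψ) (n₂ i)
  e3 : c3 ψ ^ 2 + aeval (ba ψ) M * c3 ψ = ∑ i, c1 ψ i * aeval (ba ψ) (n₂ i)
  ey : mp R (FiniteField.frobeniusAlgHom k S) (yy e ψ) =
    ell U V (ba ψ) * mp R (IsScalarTower.toAlgHom k F S) ν * yy e ψ

variable {e M U V n₁ n₂ ν}

theorem Eqs.transfer {ψ : PP F ρ d →ₐ[F] S} (h : Eqs e M U V n₁ n₂ ν ψ)
    {ψ' : PP F ρ d →ₐ[F] S'} (hψ : ∀ f, ψ f = 0 → ψ' f = 0) : Eqs e M U V n₁ n₂ ν ψ' := by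
  have key : ∀ f g, ψ f = ψ g → ψ' f = ψ' g := fun f g h => by
    rw [← sub_eq_zero, ← map_sub] at h ⊢
    exact hψ _ h
  let I := AlgHom.id F (PP F ρ d)
  have ky : ∀ {S : Type} [CommRing S] [Algebra k S] [Algebra F S] [IsScalarTower k F S]
      (ψ : PP F ρ d →ₐ[F] S), mp R (FiniteField.frobeniusAlgHom k S) (yy e ψ) =
      ell U V (ba ψ) * mp R (IsScalarTower.toAlgHom k F S) ν * yy e ψ ↔
      ∀ j, ψ ((bs (PP F ρ d) e).repr (mp R (FiniteField.frobeniusAlgHom k _) (ygen e F ρ)) j) =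
        ψ ((bs (PP F ρ d) e).repr (ell U V (ba I) * mp R (IsScalarTower.toAlgHom k F _) ν *
          ygen e F ρ) j) := fun {S} _ _ _ _ ψ => by
    rw [(bs S e).ext_elem_iff]
    refine forall_congr' fun j => ?_
    have h1 := repr_mp e (ψ.restrictScalars k)
    simp only [AlgHom.restrictScalars_apply] at h1
    rw [← h1, ← h1, map_mul (mp R _), map_mul (mp R _), mp_ell, mp_mp, mp_mp, yy, mp_mp]
    have h2 : (FiniteField.frobeniusAlgHom k S).comp (ψ.restrictScalars k) =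
        (ψ.restrictScalars k).comp (FiniteField.frobeniusAlgHom k _) := by
      refine AlgHom.ext fun x => ?_
      simp only [AlgHom.comp_apply, FiniteField.coe_frobeniusAlgHom, map_pow]
    have h3 : (ψ.restrictScalars k).comp (IsScalarTower.toAlgHom k F (PP F ρ d)) =
        IsScalarTower.toAlgHom k F S := AlgHom.ext fun x => ψ.commutes x
    rw [h2, h3]
    rfl
  refine ⟨fun i => ?_, fun i => ?_, ?_, (ky ψ').2 fun j => key _ _ ((ky ψ).1 h.ey j)⟩
  · have := key (c1 I i ^ 2 + aeval (ba I) M * c1 I i) (aeval (ba I) M * aeval (ba I) (n₁ i))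
    simp only [map_add, map_mul, map_pow, ba, c1, I, AlgHom.id_apply, aeval_ba] at this
    exact this (h.e1 i)
  · have := key (c2 I i ^ 2 + aeval (ba I) M * c2 I i) (aeval (ba I) M * aeval (ba I) (n₂ i))
    simp only [map_add, map_mul, map_pow, ba, c2, I, AlgHom.id_apply, aeval_ba] at this
    exact this (h.e2 i)
  · have := key (c3 I ^ 2 + aeval (ba I) M * c3 I) (∑ i, c1 I i * aeval (ba I) (n₂ i))
    simp only [map_add, map_mul, map_pow, map_sum, ba, c1, c3, I, AlgHom.id_apply,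
      aeval_ba] at this
    exact this h.e3

end Pool.Agent.Lib.MP_a3f657_nt.Two.Win.Rh
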