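import Pool.Agent.Lib.MP_a3f657_nt.WRhCover

/-!
Finiteness of the cover, the action on good solutions, and the power series point.
-/

open Pool.Agent.Lib.MP_a3f657_nt.Two.Rh

namespace Pool.Agent.Lib.MP_a3f657_nt.Two.Win.Rh

open Polynomial Module TensorProduct

variable {k : Type} [Field k] [Fintype k] [CharP k 2] {R : Type} [CommRing R] [Algebra k R]
  {ρ d : ℕ} {e : Basis (Fin d) k R} {F : Type} [Field F] [Algebra k F] {M : k[X]} {U V : R}
  {n₁ n₂ : Fin ρ → k[X]} {ν : F ⊗[k] R}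

theorem Eqs.isIntegral {B : Type} [CommRing B] [Algebra k B] [Algebra F B] [IsScalarTower k F B]
    [Algebra F[X] B] [IsScalarTower k F[X] B] [IsScalarTower F F[X] B] {ψ : PP F ρ d →ₐ[F] B}
    (h : Eqs e M U V n₁ n₂ ν ψ) (hb : ba ψ = algebraMap F[X] B X)
    (i : (Fin ρ ⊕ Fin ρ ⊕ Unit) ⊕ Fin d) : IsIntegral F[X] (ψ (MvPolynomial.X i)) := by
  have ha : ∀ p : k[X], aeval (ba ψ) p = algebraMap F[X] B (aeval X p) := fun p => by
    rw [hb]
    exact aeval_algHom_apply (IsScalarTower.toAlgHom k F[X] B) _ p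
  rcases i with i | i
  · have h2 : (2 : B) = 0 := by
      rw [← map_ofNat (algebraMap k B) 2, CharTwo.two_eq_zero, map_zero]
    let g : Option (Fin ρ ⊕ Fin ρ ⊕ Unit) → B := fun o =>
      o.elim 1 fun l => ψ (MvPolynomial.X (Sum.inl l))
    have hg : ∀ o, g o ∈ Submodule.span F[X] (Set.range g) := fun o =>
      Submodule.subset_span ⟨o, rfl⟩
    have hm : ∀ (p : k[X]) (x : B), x ∈ Submodule.span F[X] (Set.range g) →
        aeval (ba ψ) p * x ∈ Submodule.span F[X] (Set.range g) := fun p x hx => by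
      rw [ha, ← Algebra.smul_def]
      exact Submodule.smul_mem _ _ hx
    refine isIntegral_of_pow_mem g 2 le_rfl (fun x y => by linear_combination x * y * h2) ?_
      (some i)
    rintro (_ | j | j | j)
    · simpa [g] using hg none
    · have : c1 ψ j ^ 2 =
          aeval (ba ψ) M * (aeval (ba ψ) (n₁ j) * 1) - aeval (ba ψ) M * c1 ψ j := by
        linear_combination h.e1 j
      change c1 ψ j ^ 2 ∈ _
      rw [this]
      exact Submodule.sub_mem _ (hm _ _ (hm _ _ (hg none))) (hm _ _ (hg (some (Sum.inl j))))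
    · have : c2 ψ j ^ 2 =
          aeval (ba ψ) M * (aeval (ba ψ) (n₂ j) * 1) - aeval (ba ψ) M * c2 ψ j := by
        linear_combination h.e2 j
      change c2 ψ j ^ 2 ∈ _
      rw [this]
      exact Submodule.sub_mem _ (hm _ _ (hm _ _ (hg none)))
        (hm _ _ (hg (some (Sum.inr (Sum.inl j)))))
    · have : c3 ψ ^ 2 = ∑ l, aeval (ba ψ) (n₂ l) * c1 ψ l - aeval (ba ψ) M * c3 ψ := by
        simp only [mul_comm _ (c1 ψ _)]
        linear_combination h.e3
      change c3 ψ ^ 2 ∈ _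
      rw [this]
      exact Submodule.sub_mem _ (Submodule.sum_mem _ fun l _ => hm _ _ (hg (some (Sum.inl l))))
        (hm _ _ (hg (some (Sum.inr (Sum.inr ())))))
  · refine isIntegral_of_pow_mem (fun j => ψ (MvPolynomial.X (Sum.inr j))) (Fintype.card k)
      Fintype.one_lt_card (fun x y => map_add (FiniteField.frobeniusAlgHom k B) x y) (fun j => ?_) i
    have h1 := congrArg (fun y => (bs B e).repr y j) h.ey
    simp only [repr_mp, repr_yy, FiniteField.coe_frobeniusAlgHom] at h1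
    have h2 : ell U V (ba ψ) * mp R (IsScalarTower.toAlgHom k F B) ν =
        mp R (IsScalarTower.toAlgHom k F[X] B)
          (ell U V X * mp R (IsScalarTower.toAlgHom k F F[X]) ν) := by
      rw [map_mul, mp_ell, mp_mp, hb]
      congr 3
      exact AlgHom.ext fun x => IsScalarTower.algebraMap_apply F F[X] B x
    rw [h1, h2, ← (bs B e).sum_repr (yy e ψ), Finset.mul_sum, map_sum, Finsupp.finsetSum_apply]
    refine Submodule.sum_mem _ fun l _ => ?_
    rw [mul_smul_comm, map_smul, Finsupp.smul_apply, ← mp_bs e (IsScalarTower.toAlgHom k F[X] B),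
      ← map_mul, repr_mp, repr_yy, smul_eq_mul, mul_comm, IsScalarTower.toAlgHom_apply,
      ← Algebra.smul_def]
    exact Submodule.smul_mem _ _ (Submodule.subset_span ⟨l, rfl⟩)

theorem Eqs.finite_aux {B : Type} [CommRing B] [Algebra k B] [Algebra F B] [IsScalarTower k F B]
    [Algebra F[X] B] [IsScalarTower k F[X] B] [IsScalarTower F F[X] B] (ψ : PP F ρ d →ₐ[F[X]] B)
    (h : Eqs e M U V n₁ n₂ ν (ψ.restrictScalars F)) (hs : Function.Surjective ψ) :
    Module.Finite F[X] B := by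
  have : Algebra.FiniteType F[X] B := Algebra.FiniteType.of_surjective ψ hs
  have : Algebra.IsIntegral F[X] B := ⟨fun b => by
    obtain ⟨f, rfl⟩ := hs b
    induction f using MvPolynomial.induction_on with
    | C a => exact (ψ.commutes a).symm ▸ isIntegral_algebraMap
    | add p q hp hq =>
      rw [map_add]
      exact hp.add hq
    | mul_X p i hp =>
      rw [map_mul]
      exact hp.mul (h.isIntegral (ψ.commutes X) i)⟩
  exact Algebra.IsIntegral.finite

theorem Eqs.finite {S : Type} [CommRing S] [Algebra k S] [Algebra F S] [IsScalarTower k F S]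
    {Φ : PP F ρ d →ₐ[F] S} (h : Eqs e M U V n₁ n₂ ν Φ) :
    Module.Finite F[X] (PP F ρ d ⧸ RingHom.ker Φ) :=
  Eqs.finite_aux (B := PP F ρ d ⧸ RingHom.ker Φ) (Ideal.Quotient.mkₐ F[X] (RingHom.ker Φ))
    (h.transfer (S' := PP F ρ d ⧸ RingHom.ker Φ) fun _ hf => Ideal.Quotient.eq_zero_iff_mem.2 hf)
    Ideal.Quotient.mk_surjective

section K

variable {K : Type} [Field K] [Algebra k K] [Algebra F K] [IsScalarTower k F K] [CharP K 2]

theorem Eqs.exists_tw {ψ ψ' : PP F ρ d →ₐ[F] K} (h : Eqs e M U V n₁ n₂ ν ψ)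
    (h' : Eqs e M U V n₁ n₂ ν ψ') (hb : ba ψ' = ba ψ) (hy : IsUnit (yy e ψ))
    (hy' : IsUnit (yy e ψ')) : ∃ γ, ψ' = tw e M γ ψ := by
  have h2 : (2 : K) = 0 := CharTwo.two_eq_zero
  obtain ⟨h0, h1, h3, h4⟩ := h'
  rw [hb] at h0 h1 h3 h4
  choose a ha using fun i => exists_cz (μ := aeval (ba ψ) M) (δ := c1 ψ' i - c1 ψ i) (by
    linear_combination h0 i - h.e1 i + (c1 ψ i ^ 2 - c1 ψ i * c1 ψ' i) * h2)
  choose b hb' using fun i => exists_cz (μ := aeval (ba ψ) M) (δ := c2 ψ' i - c2 ψ i) (by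
    linear_combination h1 i - h.e2 i + (c2 ψ i ^ 2 - c2 ψ i * c2 ψ' i) * h2)
  have hw := sum_as (aeval (ba ψ) M) a h.e2
  have hθ : ∑ i, c1 ψ' i * aeval (ba ψ) (n₂ i) = ∑ i, c1 ψ i * aeval (ba ψ) (n₂ i) +
      ∑ i, cz K (a i) * (aeval (ba ψ) M * aeval (ba ψ) (n₂ i)) := by
    rw [← Finset.sum_add_distrib]
    exact Finset.sum_congr rfl fun i _ => by linear_combination aeval (ba ψ) (n₂ i) * ha i
  obtain ⟨w, hwd⟩ : ∃ w, w = ∑ i, cz K (a i) * c2 ψ i := ⟨_, rfl⟩
  rw [← hwd] at hw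
  obtain ⟨c, hc⟩ := exists_cz (μ := aeval (ba ψ) M) (δ := c3 ψ' - c3 ψ - w) (by
    linear_combination h3 - h.e3 - hw + hθ +
      (c3 ψ ^ 2 + w ^ 2 - c3 ψ' * c3 ψ - c3 ψ' * w + c3 ψ * w) * h2)
  obtain ⟨g, hg⟩ := exists_unit_of_fixed e hy hy' h.ey h4
  refine ⟨((a, b, c), g), hom_ext e (by rw [ba_tw, hb]) (fun i => ?_) (fun i => ?_) ?_
    (by rw [yy_tw, hg])⟩
  · exact (eq_add_of_sub_eq' (ha i)).trans (c1_tw e M ((a, b, c), g) ψ i).symm
  · exact (eq_add_of_sub_eq' (hb' i)).trans (c2_tw e M ((a, b, c), g) ψ i).symm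
  · refine Eq.trans ?_ (c3_tw e M ((a, b, c), g) ψ).symm
    change c3 ψ' = c3 ψ + ∑ i, cz K (a i) * c2 ψ i + cz K c * _
    linear_combination hc + hwd

theorem eq_one_of_tw {ψ : PP F ρ d →ₐ[F] K} (hM : aeval (ba ψ) M ≠ 0) (hy : IsUnit (yy e ψ))
    {γ : Hs ρ × Rˣ} (h : tw e M γ ψ = ψ) : γ = 1 := by
  have h0 := c1_tw e M γ ψ
  have h1 := c2_tw e M γ ψ
  have h2 := c3_tw e M γ ψ
  have h3 := yy_tw e M γ ψ
  rw [h] at h0 h1 h2 h3
  have e0 : γ.1.1 = 0 := funext fun i => cz_eq_zero (S := K) (by simpa [hM] using h0 i)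
  have e1 : γ.1.2.1 = 0 := funext fun i => cz_eq_zero (S := K) (by simpa [hM] using h1 i)
  have e2 : γ.1.2.2 = 0 := cz_eq_zero (S := K) (by simpa [hM, e0, cz_zero] using h2)
  refine Prod.ext (Prod.ext e0 (Prod.ext e1 e2)) (Units.ext ?_)
  refine one_tmul_injective (K := K) e (hy.mul_right_cancel ?_)
  rw [← h3]
  exact (one_mul _).symm

theorem Eqs.norm_rel {ψ : PP F ρ d →ₐ[F] K} (h : Eqs e M U V n₁ n₂ ν ψ) (hy : IsUnit (yy e ψ))
    {t₀ : F} (hν : ell U V t₀ * ν = 1) {m : ℕ} (hm : 0 < m)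
    (ht : algebraMap F K t₀ ^ Fintype.card k ^ m = algebraMap F K t₀)
    (ha : ba ψ ^ Fintype.card k ^ m = ba ψ) {g : R}
    (hg : mp R (FiniteField.frobeniusAlgHom k K ^ m) (yy e ψ) = (1 ⊗ₜ g) * yy e ψ) :
    cl U V (minpoly k (ba ψ)) ^ (m / (minpoly k (ba ψ)).natDegree) =
      g * cl U V (minpoly k (algebraMap F K t₀)) ^
        (m / (minpoly k (algebraMap F K t₀)).natDegree) := by
  rw [mp_pow_frob h.ey] at hg
  have h1 := hy.mul_right_cancel hg
  refine one_tmul_injective (K := K) e ?_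
  rw [← mul_one (1 : K), ← Algebra.TensorProduct.tmul_mul_tmul, mul_one, ← prod_ell U V hm ha,
    ← prod_ell U V hm ht, ← h1, ← Finset.prod_mul_distrib]
  refine Finset.prod_congr rfl fun i _ => ?_
  have h2 := congrArg (fun y => mp R (FiniteField.frobeniusAlgHom k K ^ i)
    (mp R (IsScalarTower.toAlgHom k F K) y)) hν
  simp only [map_mul, map_one, mp_ell, frob_pow_apply, IsScalarTower.toAlgHom_apply] at h2 ⊢
  linear_combination (-ell U V (ba ψ ^ Fintype.card k ^ i)) * h2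

end K

variable (e)

theorem map_nrm {S : Type} [CommRing S] [Algebra k S] [Algebra F S] [IsScalarTower k F S]
    (ψ : PP F ρ d →ₐ[F] S) : ψ (nrm (ygen e F ρ)) = nrm (yy e ψ) :=
  (norm_mp e (ψ.restrictScalars k) _).symm

theorem map_nrm_ne_zero {S S' : Type} [CommRing S] [Algebra k S] [Algebra F S]
    [IsScalarTower k F S] [CommRing S'] [Algebra k S'] [Nontrivial S'] (ψ : PP F ρ d →ₐ[F] S)
    (c : S →ₐ[k] S') (h : mp R c (yy e ψ) = 1) : ψ (nrm (ygen e F ρ)) ≠ 0 := fun h0 => by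
  have h1 := norm_mp e c (yy e ψ)
  rw [map_nrm, nrm] at h0
  rw [h, h0, map_one, map_zero] at h1
  exact one_ne_zero h1

theorem exists_phi [CharP F 2] (t₀ z₀ : F) (θ₀ η₀ : Fin ρ → F) (hM : aeval t₀ M ≠ 0)
    (h0 : ∀ i, θ₀ i ^ 2 + aeval t₀ M * θ₀ i = aeval t₀ M * aeval t₀ (n₁ i))
    (h1 : ∀ i, η₀ i ^ 2 + aeval t₀ M * η₀ i = aeval t₀ M * aeval t₀ (n₂ i))
    (h2 : z₀ ^ 2 + aeval t₀ M * z₀ = ∑ i, θ₀ i * aeval t₀ (n₂ i)) (hν : ell U V t₀ * ν = 1) :
    ∃ Φ : PP F ρ d →ₐ[F] PowerSeries F, ba Φ = PowerSeries.C t₀ + PowerSeries.X ∧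
      Eqs e M U V n₁ n₂ ν Φ ∧ Φ (nrm (ygen e F ρ)) ≠ 0 := by
  let c : PowerSeries F →ₐ[k] F :=
    { PowerSeries.constantCoeff with
      commutes' := fun r => by simp [PowerSeries.algebraMap_apply] }
  have hc : ∀ x, c x = PowerSeries.constantCoeff x := fun x => rfl
  set t : PowerSeries F := PowerSeries.C t₀ + PowerSeries.X with ht
  have hct : ∀ p : k[X], PowerSeries.constantCoeff (aeval t p) = aeval t₀ p := fun p => by
    rw [← hc, ← aeval_algHom_apply, hc, ht]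
    simp
  choose θ hθ hθ₀ using fun i => exists_as (aeval t M) (aeval t M * aeval t (n₁ i)) (θ₀ i)
    (by rwa [hct]) (by rw [map_mul, hct, hct, h0])
  choose η hη hη₀ using fun i => exists_as (aeval t M) (aeval t M * aeval t (n₂ i)) (η₀ i)
    (by rwa [hct]) (by rw [map_mul, hct, hct, h1])
  obtain ⟨z, hz, -⟩ := exists_as (aeval t M) (∑ i, θ i * aeval t (n₂ i)) z₀ (by rwa [hct])
    (by simp only [map_sum, map_mul, hct, hθ₀, h2])
  obtain ⟨H, hH⟩ := exists_lang e (F := F)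
    (-(1 ⊗ₜ V * mp R (IsScalarTower.toAlgHom k F (PowerSeries F)) ν))
  let Φ : PP F ρ d →ₐ[F] PowerSeries F := MvPolynomial.aevalTower (aeval t)
    (Sum.elim (Sum.elim θ (Sum.elim η fun _ => z))
      fun j => (bs _ e).repr (1 + PowerSeries.X ⊗ₜ 1 * H) j)
  have hb : ba Φ = t := by
    rw [ba, MvPolynomial.algebraMap_eq, MvPolynomial.aevalTower_C, aeval_X]
  have hc1 : ∀ i, c1 Φ i = θ i := fun i => by
    rw [c1, MvPolynomial.aevalTower_X]
    rfl
  have hc2 : ∀ i, c2 Φ i = η i := fun i => by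
    rw [c2, MvPolynomial.aevalTower_X]
    rfl
  have hc3 : c3 Φ = z := by
    rw [c3, MvPolynomial.aevalTower_X]
    rfl
  have hy : yy e Φ = 1 + PowerSeries.X ⊗ₜ 1 * H := (bs _ e).ext_elem fun j => by
    rw [repr_yy, MvPolynomial.aevalTower_X, Sum.elim_inr]
  refine ⟨Φ, hb, ⟨fun i => ?_, fun i => ?_, ?_, ?_⟩, map_nrm_ne_zero e Φ c ?_⟩
  · rw [hb, hc1]
    exact hθ i
  · rw [hb, hc2]
    exact hη i
  · simp only [hb, hc1, hc3]
    exact hz
  · rw [hy, hH, hb]
    congr 1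
    have h3 := congrArg (mp R (IsScalarTower.toAlgHom k F (PowerSeries F))) hν
    rw [map_mul, map_one, mp_ell] at h3
    have h4 : ell (k := k) U V t = ell U V (IsScalarTower.toAlgHom k F (PowerSeries F) t₀) -
        PowerSeries.X ⊗ₜ 1 * 1 ⊗ₜ V := by
      rw [ell, ell, ht, add_tmul, Algebra.TensorProduct.tmul_mul_tmul, mul_one, one_mul, sub_sub]
      rfl
    rw [h4]
    linear_combination -h3
  · rw [hy, map_add, map_one, map_mul, mp_tmul, hc, PowerSeries.constantCoeff_X, zero_tmul,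
      zero_mul, add_zero]

end Pool.Agent.Lib.MP_a3f657_nt.Two.Win.Rh
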